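import Pool.Agent.MP_2fc7fa_gt.N.IfA

/-! Equivariant families of paths over cubes in a contractible space. -/

open scoped ContDiff ComplexConjugate Topology
open Set Complex Filter Metric

noncomputable section

namespace Pool.Agent.MP_2fc7fa_gt.N

/-- A contraction of the space of paths from `x₀` to `x₁`. -/
structure Con_ACube {X : Type} [TopologicalSpace X] (x₀ x₁ : X) (K : (UI → X) → UI → UI → X)
    (γ₀ : UI → X) : Prop where
  cont0 : Continuous γ₀
  s0 : γ₀ 0 = x₀
  s1 : γ₀ 1 = x₁
  one : ∀ γ, K γ 1 = γ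
  zero : ∀ γ, γ 0 = x₀ → γ 1 = x₁ → K γ 0 = γ₀
  k0 : ∀ γ τ, K γ τ 0 = γ 0
  k1 : ∀ γ τ, K γ τ 1 = γ 1
  cont : ∀ (Γ : Cb → UI → X) (τ : Cb → UI), Continuous (fun a : Cb × UI => Γ a.1 a.2) →
    Continuous τ → Continuous fun a : Cb × UI => K (Γ a.1) (τ a.1) a.2

theorem con_ACube {X : Type} [TopologicalSpace X] [ContractibleSpace X] (x₀ x₁ : X) :
    ∃ K γ₀, Con_ACube x₀ x₁ K γ₀ := by
  obtain ⟨y, ⟨H⟩⟩ := id_nullhomotopic X
  let c := H.symm
  have c0 : ∀ x, c (0, x) = y := fun x => c.apply_zero x
  have c1 : ∀ x, c (1, x) = x := fun x => c.apply_one x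
  let r : UI → UI → UI := fun τ s => projIcc 0 1 zero_le_one (τ * s + (1 - τ) * (3 * s - 1))
  let m : UI → UI → UI := fun τ s => projIcc 0 1 zero_le_one (max τ (max (1 - 3 * s) (3 * s - 2)))
  let K : (UI → X) → UI → UI → X := fun γ τ s => c (m τ s, γ (r τ s))
  have hr : Continuous fun a : UI × UI => r a.1 a.2 := continuous_projIcc.comp (by fun_prop)
  have hm : Continuous fun a : UI × UI => m a.1 a.2 := continuous_projIcc.comp (by fun_prop)
  have k0 : ∀ γ τ, K γ τ 0 = γ 0 := by
    intro γ τ
    have a : m τ 0 = 1 := projIcc_of_right_le _ (le_max_of_le_right (le_max_of_le_left (by simp)))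
    have b : r τ 0 = 0 := projIcc_of_le_left _ (by simpa using τ.2.2)
    simp only [K, a, b, c1]
  have k1 : ∀ γ τ, K γ τ 1 = γ 1 := by
    intro γ τ
    have a : m τ 1 = 1 :=
      projIcc_of_right_le _ (le_max_of_le_right (le_max_of_le_right (by norm_num)))
    have b : r τ 1 = 1 := projIcc_of_right_le _ (by
      have := τ.2.2
      simp only [Icc.coe_one]
      linarith)
    simp only [K, a, b, c1]
  let γ₁ := PathConnectedSpace.somePath x₀ x₁
  refine ⟨K, K γ₁ 0, ?_, (k0 _ _).trans γ₁.source, (k1 _ _).trans γ₁.target, fun γ => ?_,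
    fun γ h0 h1 => ?_, k0, k1, fun Γ τ hΓ hτ => ?_⟩
  · have e : Continuous fun s : UI => ((0 : UI), s) := by fun_prop
    exact c.continuous.comp ((hm.comp e).prodMk (γ₁.continuous.comp (hr.comp e)))
  · funext s
    have a : m 1 s = 1 := projIcc_of_right_le _ (le_max_left _ _)
    have b : r 1 s = s := by simp [r]
    simp only [K, a, b, c1]
  · funext s
    rcases le_total (s : ℝ) (1 / 3) with h | h
    · have b : r 0 s = 0 := projIcc_of_le_left _ (by
        simp only [Icc.coe_zero]
        linarith)
      simp only [K, b, h0]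
      rw [γ₁.source]
    rcases le_total (s : ℝ) (2 / 3) with h' | h'
    · have a : m 0 s = 0 :=
        projIcc_of_le_left _ (max_le le_rfl (max_le (by linarith) (by linarith)))
      simp only [K, a, c0]
    · have b : r 0 s = 1 := projIcc_of_right_le _ (by
        simp only [Icc.coe_zero]
        linarith)
      simp only [K, b, h1]
      rw [γ₁.target]
  · have e : Continuous fun a : Cb × UI => (τ a.1, a.2) := by fun_prop
    exact c.continuous.comp ((hm.comp e).prodMk (hΓ.comp (continuous_fst.prodMk (hr.comp e))))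

/-- The families of paths. -/
def Q_ACube {X : Type} (ac : Zp → X → X) (K : (UI → X) → UI → UI → X) (γ₀ : UI → X) :
    List Zp → Cb → UI → X
  | [], _ => γ₀
  | [g], _ => ac g ∘ γ₀
  | g :: g' :: l, t => ac g ∘ K (ac (-g) ∘ Q_ACube ac K γ₀ (g' :: l) fun i => t (i + 1)) (t 0)

theorem Q_cons_ACube {X : Type} (ac : Zp → X → X) (K : (UI → X) → UI → UI → X) (γ₀ : UI → X)
    (g : Zp) {σ : List Zp} (h : σ ≠ []) (t : Cb) : Q_ACube ac K γ₀ (g :: σ) t =
      ac g ∘ K (ac (-g) ∘ Q_ACube ac K γ₀ σ fun i => t (i + 1)) (t 0) := by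
  obtain ⟨g', l, rfl⟩ := List.exists_cons_of_ne_nil h
  rfl

theorem cubeS : CubeStmt := by
  intro X _ _ ac x₀ x₁ hc h0 hadd f0 f1
  obtain ⟨K, γ₀, h⟩ := con_ACube x₀ x₁
  have start : ∀ σ t, Q_ACube ac K γ₀ σ t 0 = x₀ := by
    intro σ
    induction σ with
    | nil => exact fun _ => h.s0
    | cons g σ ih =>
      intro t
      rcases eq_or_ne σ [] with rfl | hσ
      · exact (congrArg (ac g) h.s0).trans (f0 g)
      · rw [Q_cons_ACube _ _ _ _ hσ, Function.comp_apply, h.k0, Function.comp_apply, ih, f0, f0]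
  have stop : ∀ σ t, Q_ACube ac K γ₀ σ t 1 = x₁ := by
    intro σ
    induction σ with
    | nil => exact fun _ => h.s1
    | cons g σ ih =>
      intro t
      rcases eq_or_ne σ [] with rfl | hσ
      · exact (congrArg (ac g) h.s1).trans (f1 g)
      · rw [Q_cons_ACube _ _ _ _ hσ, Function.comp_apply, h.k1, Function.comp_apply, ih, f1, f1]
  have cont : ∀ σ, Continuous fun a : Cb × UI => Q_ACube ac K γ₀ σ a.1 a.2 := by
    intro σ
    induction σ with
    | nil => exact h.cont0.comp continuous_snd
    | cons g σ ih =>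
      rcases eq_or_ne σ [] with rfl | hσ
      · exact (hc g).comp (h.cont0.comp continuous_snd)
      · simp only [Q_cons_ACube _ _ _ _ hσ]
        have e : Continuous fun a : Cb × UI => ((fun i => a.1 (i + 1) : Cb), a.2) := by fun_prop
        exact (hc g).comp (h.cont
          (fun t => ac (-g) ∘ Q_ACube ac K γ₀ σ fun i => t (i + 1)) (fun t => t 0)
          ((hc (-g)).comp (ih.comp e)) (continuous_apply 0))
  have equiv : ∀ k σ, σ ≠ [] → ∀ t,
      Q_ACube ac K γ₀ (σ.map (k + ·)) t = ac k ∘ Q_ACube ac K γ₀ σ t := by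
    intro k σ
    induction σ with
    | nil => exact fun h => absurd rfl h
    | cons g σ ih =>
      intro _ t
      rcases eq_or_ne σ [] with rfl | hσ
      · exact funext fun s => hadd k g _
      · rw [List.map_cons, Q_cons_ACube _ _ _ _ (mt List.map_eq_nil_iff.1 hσ),
          Q_cons_ACube _ _ _ _ hσ, ih hσ]
        have e : ∀ γ : UI → X, ac (-(k + g)) ∘ ac k ∘ γ = ac (-g) ∘ γ := fun γ =>
          funext fun s => by
            rw [Function.comp_apply, Function.comp_apply, ← hadd, neg_add_rev,
              neg_add_cancel_right, Function.comp_apply]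
        rw [e]
        exact funext fun s => hadd k g _
  have face1 : ∀ σ t i, i + 1 < σ.length → t i = 1 →
      Q_ACube ac K γ₀ σ t = Q_ACube ac K γ₀ (σ.eraseIdx i) (skip i t) := by
    intro σ
    induction σ with
    | nil => exact fun _ _ h => absurd h (by simp)
    | cons g σ ih =>
      intro t i hi ht
      rw [List.length_cons] at hi
      have hσ : σ ≠ [] := List.ne_nil_of_length_pos (by omega)
      rw [Q_cons_ACube _ _ _ _ hσ]
      cases i with
      | zero =>
        rw [ht, h.one]
        funext s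
        rw [Function.comp_apply, Function.comp_apply, ← hadd, add_neg_cancel, h0]
        rfl
      | succ j =>
        have hσ' : σ.eraseIdx j ≠ [] := List.ne_nil_of_length_pos (by
          rw [List.length_eraseIdx_of_lt (by omega)]
          omega)
        have e : (fun i => skip (j + 1) t (i + 1)) = skip j fun i => t (i + 1) := by
          funext i
          simp only [skip, Nat.add_lt_add_iff_right]
        rw [List.eraseIdx_cons_succ, Q_cons_ACube _ _ _ _ hσ', e,
          ← ih (fun i => t (i + 1)) j (by omega) ht]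
        rfl
  have face0 : ∀ σ t i, t i = 0 → Q_ACube ac K γ₀ σ t = Q_ACube ac K γ₀ (σ.take (i + 1)) t := by
    intro σ
    induction σ with
    | nil => exact fun _ _ _ => rfl
    | cons g σ ih =>
      intro t i ht
      rcases eq_or_ne σ [] with rfl | hσ
      · simp
      rw [Q_cons_ACube _ _ _ _ hσ, List.take_succ_cons]
      cases i with
      | zero =>
        rw [ht, h.zero _ (by rw [Function.comp_apply, start, f0])
          (by rw [Function.comp_apply, stop, f1])]
        rfl
      | succ j =>
        have hσ' : σ.take (j + 1) ≠ [] := by simp [hσ]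
        rw [Q_cons_ACube _ _ _ _ hσ', ← ih (fun i => t (i + 1)) j ht]
  have dep : ∀ σ t t', (∀ i, i + 1 < σ.length → t i = t' i) →
      Q_ACube ac K γ₀ σ t = Q_ACube ac K γ₀ σ t' := by
    intro σ
    induction σ with
    | nil => exact fun _ _ _ => rfl
    | cons g σ ih =>
      intro t t' ht
      rcases eq_or_ne σ [] with rfl | hσ
      · rfl
      have hl := List.length_pos_of_ne_nil hσ
      rw [Q_cons_ACube _ _ _ _ hσ, Q_cons_ACube _ _ _ _ hσ,
        ht 0 (by rw [List.length_cons]; omega),
        ih (fun i => t (i + 1)) (fun i => t' (i + 1)) fun i hi =>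
          ht (i + 1) (by rw [List.length_cons]; omega)]
  exact ⟨fun σ a => Q_ACube ac K γ₀ σ a.1 a.2, cont,
    fun σ k a hσ => congrFun (equiv k σ hσ a.1) a.2,
    fun σ t s i hi ht => congrFun (face1 σ t i hi ht) s,
    fun σ t s i _ ht => congrFun (face0 σ t i ht) s,
    fun σ t t' s ht => congrFun (dep σ t t' ht) s, start, stop⟩

end Pool.Agent.MP_2fc7fa_gt.N
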