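import Pool.Agent.MP_2fc7fa_gt.N.IfA

/-! The group action on forms and the two invariant forms. -/

open scoped ContDiff ComplexConjugate Topology
open Set Complex Filter Metric

noncomputable section

namespace Pool.Agent.MP_2fc7fa_gt.N

theorem her_AForms (k : Zp) (u v : V) : her (hat k u) (hat k v) = her u v := by
  refine Finset.sum_congr rfl fun j _ => ?_
  simp only [hat, map_mul, conj_rt]
  linear_combination (conj (u j) * v j) * rt_mul_neg (k * wt j)

theorem nn_AForms (k : Zp) (x : V) : nn (hat k x) = nn x := by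
  simp [nn, hat, norm_rt]

theorem omS_AForms (k : Zp) (x u v : V) :
    omS (g1 (hat k x)) (hat k x) (hat k u) (hat k v) = omS (g1 x) x u v := by
  have h : ∀ u, I • hat k u = hat k (I • u) := fun u => ((hatL k).map_smul I u).symm
  simp only [omS, g1_apply, h, her_AForms, nn_AForms]

theorem formsS (hP : PullStmt) (hS : StdFStmt) : FormsStmt := by
  intro f F F' hL
  obtain ⟨om1, h1⟩ := hS
  choose ac hc hac using fun k => hP _ _ (hdiff_hat (-k))
  obtain ⟨pb, -, hpb⟩ := hP _ _ hL.toHDiff.symm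
  have h2 : ∀ k σ x, x ≠ 0 → ∀ u v, (ac k σ).form x ![u, v] =
      σ.form (hat (-k) x) ![hat (-k) u, hat (-k) v] := fun k σ x hx u v => by
    rw [hac k σ x hx, fderiv_hat, fderiv_hat]
  have h3 : ∀ k x, hat (-k) (hat k x) = x := fun k => (hdiff_hat k).left
  have h4 : ∀ k, ac k om1 = om1 := fun k => Symp.ext' fun x hx u v => by
    rw [h2 _ _ _ hx, h1 _ hx, h1 _ (hat_ne _ hx), omS_AForms]
  refine ⟨ac, pb om1, om1, hc, fun σ => Symp.ext' fun x hx u v => ?_,
    fun k k' σ => Symp.ext' fun x hx u v => ?_, fun k => Symp.ext' fun x hx u v => ?_, h4,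
    fun k σ x hx u v => ?_, h1, hpb om1⟩
  · simp only [h2 _ _ _ hx, neg_zero, hat_zero]
  · simp only [h2 _ _ _ hx, h2 _ _ _ (hat_ne _ hx), ← hat_add, neg_add_rev]
  · have e1 : ∀ x, F' (hat (-k) x) = hat (-k) (F' x) := fun x => by
      conv_lhs => rw [← hL.right x, ← hL.equiv, hL.left]
    have e2 : ∀ u, fderiv ℝ F' (hat (-k) x) (hat (-k) u) = hat (-k) (fderiv ℝ F' x u) :=
      hL.toHDiff.symm.fderiv_comm
        ((hatL (-k)).toLinearEquiv.restrictScalars ℝ).toContinuousLinearEquiv e1 hx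
    rw [h2 _ _ _ hx, hpb _ _ hx, hpb _ _ (hat_ne _ hx), e1, e2, e2,
      ← h2 _ _ _ (hL.toHDiff.symm.ne hx), h4]
  · rw [h2 _ _ _ (hat_ne _ hx), h3, h3, h3]

end Pool.Agent.MP_2fc7fa_gt.N
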