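import Pool.Agent.MP_2fc7fa_gt.N.IfA

/-! Frames that depend naturally on a path of almost complex structures. -/

open scoped ContDiff ComplexConjugate Topology
open Set Complex Filter Metric

noncomputable section

namespace Pool.Agent.MP_2fc7fa_gt.N

/-- The intertwiner of two close complex structures. -/
def pm_AFrame (J J' : Op) : Op := (1 / 2 : ℝ) • (1 - J * J')

theorem pm_apply_AFrame (J J' : Op) (v : V) :
    pm_AFrame J J' v = (1 / 2 : ℝ) • (v - J (J' v)) := rfl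

theorem pm_inter_AFrame {J J' : Op} (h : ∀ v, J (J v) = -v) (h' : ∀ v, J' (J' v) = -v) (v : V) :
    J (pm_AFrame J J' v) = pm_AFrame J J' (J' v) := by
  rw [pm_apply_AFrame, pm_apply_AFrame, map_smul, map_sub, h, h', map_neg]
  congr 1
  abel

theorem pm_unit_AFrame {J J' : Op} (h : ∀ v, J (J v) = -v) (hn : ‖J‖ * ‖J' - J‖ < 2) :
    IsUnit (pm_AFrame J J') := by
  have e : pm_AFrame J J' = 1 - (1 / 2 : ℝ) • (J * (J' - J)) := by
    ext1 v
    have : (1 - (1 / 2 : ℝ) • (J * (J' - J))) v = v - (1 / 2 : ℝ) • J (J' v - J v) := rfl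
    rw [this, pm_apply_AFrame, map_sub, h]
    module
  have h1 : ‖(1 / 2 : ℝ) • (J * (J' - J))‖ < 1 := by
    rw [norm_smul, Real.norm_of_nonneg (by norm_num)]
    linarith [norm_mul_le J (J' - J)]
  rw [e]
  exact (Units.oneSub _ h1).isUnit

/-- The product of the intertwiners along a chain. -/
def bp_AFrame (K : ℕ → Op) : ℕ → Op
  | 0 => 1
  | n + 1 => bp_AFrame K n * pm_AFrame (K n) (K (n + 1))

theorem bp_succ_AFrame (K : ℕ → Op) (n : ℕ) (v : V) :
    bp_AFrame K (n + 1) v = bp_AFrame K n (pm_AFrame (K n) (K (n + 1)) v) := rfl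

theorem bp_inter_AFrame {K : ℕ → Op} (h : ∀ i v, K i (K i v) = -v) (n : ℕ) (v : V) :
    K 0 (bp_AFrame K n v) = bp_AFrame K n (K n v) := by
  induction n generalizing v with
  | zero => rfl
  | succ n ih => rw [bp_succ_AFrame, bp_succ_AFrame, ih, pm_inter_AFrame (h n) (h (n + 1))]

theorem bp_unit_AFrame {K : ℕ → Op} (h : ∀ i v, K i (K i v) = -v)
    (hn : ∀ i, ‖K i‖ * ‖K (i + 1) - K i‖ < 2) (n : ℕ) : IsUnit (bp_AFrame K n) := by
  induction n with
  | zero => exact isUnit_one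
  | succ n ih => exact ih.mul (pm_unit_AFrame (h n) (hn n))

theorem bp_nat_AFrame {K K' : ℕ → Op} {T : Op} (h : ∀ i v, K' i (T v) = T (K i v)) (n : ℕ) (v : V) :
    bp_AFrame K' n (T v) = T (bp_AFrame K n v) := by
  induction n generalizing v with
  | zero => rfl
  | succ n ih =>
    rw [bp_succ_AFrame, bp_succ_AFrame, ← ih, pm_apply_AFrame, pm_apply_AFrame, h, h, map_smul T,
      map_sub T]

theorem bp_vert_AFrame {K : ℕ → Op} {x : V} (h : ∀ i (c : ℂ), K i (c • x) = I • c • x) (n : ℕ)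
    (c : ℂ) : bp_AFrame K n (c • x) = c • x := by
  induction n with
  | zero => rfl
  | succ n ih =>
    have e : pm_AFrame (K n) (K (n + 1)) (c • x) = c • x := by
      rw [pm_apply_AFrame, h, smul_smul, h, smul_smul, ← mul_assoc, I_mul_I, neg_mul, one_mul,
        neg_smul]
      module
    rw [bp_succ_AFrame, e, ih]

theorem bp_sm_AFrame {P : Type} [TopologicalSpace P] {U : Set V} {K : ℕ → P → V → Op}
    (h : ∀ i, Sm U (K i)) (n : ℕ) : Sm U fun p x => bp_AFrame (fun i => K i p x) n := by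
  induction n with
  | zero => exact sm_const (c := fun _ => (1 : Op)) continuous_const
  | succ n ih =>
    have hg : ContDiff ℝ ∞ fun q : Op × Op × Op => q.1 * pm_AFrame q.2.1 q.2.2 := by
      unfold pm_AFrame
      fun_prop
    exact (ih.prod ((h n).prod (h (n + 1)))).post' hg

/-- A uniform step size. -/
theorem step_AFrame {P : Type} [TopologicalSpace P] [CompactSpace P] {J : P × UI → V → Op}
    (hJ : JC {0}ᶜ J)
    (hs : ∀ a x, x ≠ 0 → ∀ c : ℂ, c ≠ 0 → ∀ v, J a (c • x) (c • v) = c • J a x v) :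
    ∃ δ : ℝ, 0 < δ ∧ ∀ s s' : UI, dist s s' < δ → ∀ p x, x ≠ 0 →
      ‖J (p, s) x‖ * ‖J (p, s') x - J (p, s) x‖ < 2 := by
  have hne : ∀ y : sphere (0 : V) 1, (y : V) ≠ 0 := fun y => ne_zero_of_mem_unit_sphere y
  have hc : Continuous fun q : (P × UI) × sphere (0 : V) 1 => J q.1 q.2 :=
    ContinuousOn.comp_continuous (f := fun q : (P × UI) × sphere (0 : V) 1 => (q.1, (q.2 : V))) hJ
      (by fun_prop) fun q => ⟨mem_univ _, hne _⟩
  have h1 : Continuous fun q : (UI × UI) × P × sphere (0 : V) 1 => J (q.2.1, q.1.1) q.2.2 :=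
    hc.comp (f := fun q : (UI × UI) × P × sphere (0 : V) 1 => ((q.2.1, q.1.1), q.2.2)) (by fun_prop)
  have h2 : Continuous fun q : (UI × UI) × P × sphere (0 : V) 1 => J (q.2.1, q.1.2) q.2.2 :=
    hc.comp (f := fun q : (UI × UI) × P × sphere (0 : V) 1 => ((q.2.1, q.1.2), q.2.2)) (by fun_prop)
  have h3 : IsClosed (Prod.fst '' {q : (UI × UI) × P × sphere (0 : V) 1 |
      2 ≤ ‖J (q.2.1, q.1.1) q.2.2‖ * ‖J (q.2.1, q.1.2) q.2.2 - J (q.2.1, q.1.1) q.2.2‖}) :=
    isClosedMap_fst_of_compactSpace _ (isClosed_le continuous_const (h1.norm.mul (h2.sub h1).norm))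
  have h4 := h3.isOpen_compl.mem_nhdsSet.2 (show diagonal UI ⊆ _ from by
    rintro ⟨s, s'⟩ (rfl : s = s') ⟨⟨a, q⟩, hq, rfl⟩
    norm_num at hq)
  rw [nhdsSet_diagonal_eq_uniformity, Metric.mem_uniformity_dist] at h4
  obtain ⟨δ, hδ, h5⟩ := h4
  refine ⟨δ, hδ, fun s s' hd p x hx => ?_⟩
  have hn : ‖x‖ ≠ 0 := norm_ne_zero_iff.2 hx
  have e : ∀ a, J a ((‖x‖⁻¹ : ℝ) • x) = J a x := fun a => by
    ext1 v
    have h6 := hs a x hx ((‖x‖⁻¹ : ℝ) : ℂ) (ofReal_ne_zero.2 (inv_ne_zero hn)) v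
    rw [coe_smul, coe_smul, coe_smul, map_smul] at h6
    exact smul_right_injective V (inv_ne_zero hn) h6
  by_contra h7
  refine h5 hd ⟨((s, s'), p, ⟨(‖x‖⁻¹ : ℝ) • x, by simp [norm_smul, hn]⟩), ?_, rfl⟩
  simpa only [mem_ofPred_eq, e] using not_lt.1 h7

theorem frameS : FrameStmt := by
  intro P _ _ J hJ hsq hv hs h1
  obtain ⟨δ, hδ, hstep⟩ := step_AFrame hJ.jc hs
  obtain ⟨m, hm⟩ := exists_nat_one_div_lt hδ
  have hm0 : (0 : ℝ) < (m : ℝ) + 1 := by positivity
  let t : ℕ → UI := fun i => projIcc 0 1 zero_le_one ((i : ℝ) / (m + 1))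
  have t0 : t 0 = 0 := by
    simp only [t, Nat.cast_zero, zero_div]
    exact projIcc_left _
  have t1 : t (m + 1) = 1 := by
    simp only [t, Nat.cast_succ, div_self hm0.ne']
    exact projIcc_right _
  have td : ∀ (s : UI) i, dist (max s (t i)) (max s (t (i + 1))) < δ := fun s i => by
    have h2 : |((t i : UI) : ℝ) - t (i + 1)| ≤ |(i : ℝ) / (m + 1) - ((i + 1 : ℕ) : ℝ) / (m + 1)| :=
      Set.abs_projIcc_sub_projIcc _
    have h3 : |(i : ℝ) / (m + 1) - ((i + 1 : ℕ) : ℝ) / (m + 1)| = 1 / (m + 1) := by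
      rw [← sub_div, Nat.cast_succ, sub_add_cancel_left, abs_div, abs_neg, abs_one, abs_of_pos hm0]
    have h4 : ∀ a b : UI, ((max a b : UI) : ℝ) = max (b : ℝ) a := fun a b => by
      rw [max_comm]
      exact Subtype.mono_coe _ |>.map_max
    rw [Subtype.dist_eq, Real.dist_eq, h4, h4]
    exact (abs_max_sub_max_le_abs _ _ _).trans_lt (h2.trans_lt (h3 ▸ hm))
  let K : ℕ → P × UI → V → Op := fun i a => J (a.1, max a.2 (t i))
  let B : P × UI → V → Op := fun a x => bp_AFrame (fun i => K i a x) (m + 1)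
  have hB : Sm {0}ᶜ B := bp_sm_AFrame (fun i => hJ.param (by fun_prop)) _
  have hu : ∀ a x, x ≠ 0 → IsUnit (B a x) := fun a x hx =>
    bp_unit_AFrame (fun i => hsq _ x hx) (fun i => hstep _ _ (td a.2 i) a.1 x hx) _
  have hA : Sm {0}ᶜ fun a x => Ring.inverse (B a x) :=
    hB.post (W := {u : Op | IsUnit u}) Units.isOpen
      (fun u hu => by
        obtain ⟨u, rfl⟩ := hu
        exact (contDiffAt_ringInverse ℝ u).contDiffWithinAt) fun a x hx => hu a x hx
  have hU : UniqueDiffOn ℝ ({0}ᶜ : Set V) := isOpen_compl_singleton.uniqueDiffOn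
  have hBA : ∀ a x, x ≠ 0 → ∀ v, B a x (Ring.inverse (B a x) v) = v := fun a x hx v =>
    congrArg (fun L : Op => L v) (Ring.mul_inverse_cancel _ (hu a x hx))
  refine ⟨fun a =>
    { B := B a
      A := fun x => Ring.inverse (B a x)
      smoothB := hB.contDiffOn hU a
      smoothA := hA.contDiffOn hU a
      AB := fun x hx v => congrArg (fun L : Op => L v) (Ring.inverse_mul_cancel _ (hu a x hx))
      BA := hBA a
      vert := fun x hx c => bp_vert_AFrame (fun i => hv _ x hx) _ c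
      scale := fun x hx c hc v => bp_nat_AFrame
        (T := ((c • ContinuousLinearMap.id ℂ V).restrictScalars ℝ : Op))
        (fun i => hs _ x hx c hc) _ v }, fun n => ⟨hB n, hA n⟩, fun a x hx v => ?_,
    fun p p' x x' T hT s v => bp_nat_AFrame (fun i => hT _) _ v⟩
  have h2 := bp_inter_AFrame (K := fun i => K i a x) (fun i => hsq _ x hx) (m + 1)
    (Ring.inverse (B a x) v)
  have h3 : K 0 a = J a := by simp only [K, t0, max_eq_left unitInterval.nonneg']
  have h4 : K (m + 1) a = J (a.1, 1) := by simp only [K, t1, max_eq_right unitInterval.le_one']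
  simp only [h3, h4, h1 _ x hx] at h2
  exact h2.symm.trans (congrArg _ (hBA a x hx v))

end Pool.Agent.MP_2fc7fa_gt.N
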