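import Pool.Agent.MP_2fc7fa_gt.N.IfA

/-! The path of metrics: smoothness, admissibility and naturality. -/

open scoped ContDiff ComplexConjugate Topology
open Set Complex Filter Metric

noncomputable section

namespace Pool.Agent.MP_2fc7fa_gt.N

theorem gs_apply_AGs (F' : V → V) (s : ℝ) (x u v : V) : gs F' s x u v =
    (1 - s) * g1 (F' x) (fderiv ℝ F' x u) (fderiv ℝ F' x v) + s * g1 x u v := by
  simp [gs]

theorem her_symm_AGs (u v : V) : (her u v).re = (her v u).re := by
  simp [her, mul_comm]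

theorem g1_symm_AGs (x u v : V) : g1 x u v = g1 x v u := by
  rw [g1_apply, g1_apply, her_symm_AGs]

theorem g1_pos_AGs {x v : V} (hx : x ≠ 0) (hv : v ≠ 0) : 0 < g1 x v v := by
  rw [g1_apply, her_self, ofReal_re]
  exact mul_pos (inv_pos.2 (nn_pos hx)) (nn_pos hv)

theorem g1_vert_AGs {x : V} (hx : x ≠ 0) (a b : ℂ) :
    g1 x (a • x) (b • x) = (conj a * b).re := by
  rw [g1_apply, her_smul, her_smul', her_self, ← mul_assoc, re_mul_ofReal]
  field_simp [(nn_pos hx).ne']

theorem her_scale_AGs (c : ℂ) (u v : V) : her (c • u) (c • v) = (‖c‖ ^ 2 : ℝ) * her u v := by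
  rw [her_smul, her_smul', ← mul_assoc, Complex.conj_mul']
  push_cast
  ring

theorem nn_scale_AGs (c : ℂ) (x : V) : nn (c • x) = ‖c‖ ^ 2 * nn x := by
  have h := her_scale_AGs c x x
  rw [her_self, her_self] at h
  exact_mod_cast h

theorem g1_scale_AGs {c : ℂ} (hc : c ≠ 0) (x u v : V) :
    g1 (c • x) (c • u) (c • v) = g1 x u v := by
  have h : (‖c‖ ^ 2 : ℝ) ≠ 0 := by simpa using hc
  rw [g1_apply, g1_apply, her_scale_AGs, nn_scale_AGs, re_ofReal_mul, mul_inv]
  field_simp

theorem her_hat_AGs (k : Zp) (u v : V) : her (hat k u) (hat k v) = her u v := by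
  refine Finset.sum_congr rfl fun j _ => ?_
  rw [hat, hat, map_mul, conj_rt]
  linear_combination (conj (u j) * v j) * rt_mul_neg (k * wt j)

theorem g1_hat_AGs (k : Zp) (x u v : V) : g1 (hat k x) (hat k u) (hat k v) = g1 x u v := by
  have h := her_hat_AGs k x x
  rw [her_self, her_self, ofReal_inj] at h
  rw [g1_apply, g1_apply, her_hat_AGs, h]

theorem cd_g1_AGs : ContDiffOn ℝ ∞ g1 {0}ᶜ := by
  refine contDiffOn_clm_apply.2 fun u => contDiffOn_clm_apply.2 fun v => ?_
  simp only [g1_apply]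
  exact contDiffOn_inv_nn.mul contDiffOn_const

theorem cd_pull_AGs {F F' : V → V} (h : HDiff F F') : ContDiffOn ℝ ∞
    (fun x => (g1 (F x)).bilinearComp (fderiv ℝ F x) (fderiv ℝ F x)) {0}ᶜ := by
  have h1 : ContDiffOn ℝ ∞ (fun x => g1 (F x)) {0}ᶜ :=
    cd_g1_AGs.comp h.smooth fun x hx => h.ne hx
  have h2 : ContDiffOn ℝ ∞ (fderiv ℝ F) {0}ᶜ :=
    h.smooth.fderiv_of_isOpen isOpen_compl_singleton (by simp)
  refine contDiffOn_clm_apply.2 fun u => contDiffOn_clm_apply.2 fun v => ?_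
  simp only [ContinuousLinearMap.bilinearComp_apply]
  exact (h1.clm_apply (h2.clm_apply contDiffOn_const)).clm_apply (h2.clm_apply contDiffOn_const)

theorem gs_vert_AGs {F F' : V → V} (h : HDiff F' F) (s : ℝ) {x : V} (hx : x ≠ 0) (a b : ℂ) :
    gs F' s x (a • x) (b • x) = (conj a * b).re := by
  rw [gs_apply_AGs, h.fderiv_vert hx, h.fderiv_vert hx, g1_vert_AGs (h.ne hx), g1_vert_AGs hx]
  ring

theorem gsS : GsStmt := by
  intro f F F' L
  have h : HDiff F F' := L.toHDiff
  have h' : HDiff F' F := h.symm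
  have hU : UniqueDiffOn ℝ ({0}ᶜ : Set V) := isOpen_compl_singleton.uniqueDiffOn
  have hcomm : ∀ k x, F' (hat k x) = hat k (F' x) := fun k x => by
    conv_lhs => rw [← h.right x, ← L.equiv, h.left]
  refine ⟨?_, fun σ s x hx => ?_, fun s x hx c hc u v => ?_, fun s k x hx u v => ?_, fun s => ?_,
    fun y hy u v => ?_, fun x => ?_⟩
  · exact ((sm_const (c := fun s : UI => 1 - (s : ℝ)) (by fun_prop)).smul
      (sm_of_contDiffOn hU (cd_pull_AGs h'))).add
      ((sm_const (c := fun s : UI => (s : ℝ)) (by fun_prop)).smul (sm_of_contDiffOn hU cd_g1_AGs))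
  · refine ⟨fun u v => ?_, fun v hv => ?_, fun u v => bilL_skew _ u v, fun v => ?_, fun v => ?_,
      ?_, ?_, ?_, ?_⟩
    · rw [gs_apply_AGs, gs_apply_AGs, g1_symm_AGs (F' x), g1_symm_AGs x]
    · have h1 : fderiv ℝ F' x v ≠ 0 := fun e => hv (by rw [← h'.chain hx v, e, map_zero])
      have h2 := g1_pos_AGs (h'.ne hx) h1
      have h3 := g1_pos_AGs hx hv
      rw [gs_apply_AGs]
      rcases s.2.1.eq_or_lt with e | e
      · rw [← e]
        simpa using h2
      · exact add_pos_of_nonneg_of_pos (mul_nonneg (sub_nonneg.2 s.2.2) h2.le) (mul_pos e h3)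
    · rw [bilL_apply]
      exact σ.isForm.horiz x _ 0 1 (by simp)
    · rw [bilL_apply]
      exact σ.isForm.horiz x _ 0 I (by simp)
    · simpa using gs_vert_AGs h' s hx 1 1
    · simpa using gs_vert_AGs h' s hx 1 I
    · simpa using gs_vert_AGs h' s hx I I
    · simpa only [bilL_apply] using σ.nondeg x hx
  · rw [gs_apply_AGs, gs_apply_AGs, h'.fderiv_scale hx hc, h'.fderiv_scale hx hc, h'.hom,
      g1_scale_AGs hc, g1_scale_AGs hc]
  · have e : ∀ w, fderiv ℝ F' (hat k x) (hat k w) = hat k (fderiv ℝ F' x w) := fun w =>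
      h'.fderiv_comm ((hatL k).restrictScalars ℝ) (hcomm k) hx w
    rw [gs_apply_AGs, gs_apply_AGs, e, e, hcomm, g1_hat_AGs, g1_hat_AGs]
  · have e1 : F' e0 = e0 := L.near'.self_of_nhds
    have e2 : fderiv ℝ F' e0 = ContinuousLinearMap.id ℝ V := by
      rw [EventuallyEq.fderiv_eq (f := id) L.near', fderiv_id]
    have e3 : nn e0 = 1 := by simp [nn, e0, vec, Fin.sum_univ_three]
    ext u v
    rw [gs_apply_AGs, e1, e2, g1_apply, g1_apply, e3, reB_apply]
    simp only [ContinuousLinearMap.id_apply]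
    ring
  · rw [gs_apply_AGs, h.chain hy, h.chain hy, h.left]
    ring
  · ext u v
    rw [gs_apply_AGs]
    ring

end Pool.Agent.MP_2fc7fa_gt.N
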