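import Pool.Agent.MP_2fc7fa_gt.N.IfA

/-! Linear algebra in dimension four: the almost complex structure of a metric and a form. -/

open scoped ContDiff ComplexConjugate Topology
open Set Complex Filter Metric

noncomputable section

namespace Pool.Agent.MP_2fc7fa_gt.N

theorem basis_AJAlg {E : Type} [AddCommGroup E] [Module ℝ E] [FiniteDimensional ℝ E]
    (hd : Module.finrank ℝ E = 6) (g : E →ₗ[ℝ] E →ₗ[ℝ] ℝ) (hs : ∀ u v, g u v = g v u)
    (hp : ∀ v, v ≠ 0 → 0 < g v v) {x x' : E} (h1 : g x x = 1) (h2 : g x x' = 0)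
    (h3 : g x' x' = 1) :
    ∃ b : Module.Basis (Fin 6) ℝ E, b 0 = x ∧ b 1 = x' ∧ ∀ v i, b.repr v i = g (b i) v := by
  let c : InnerProductSpace.Core ℝ E :=
    { inner := fun u v => g u v
      conj_inner_symm := fun u v => hs v u
      re_inner_nonneg := fun v => by
        by_cases h : v = 0
        · simp [h]
        · exact (hp v h).le
      add_left := fun u v w => by simp
      smul_left := fun u v r => by simp
      definite := fun v h => by_contra fun h' => (hp v h').ne' h }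
  let : NormedAddCommGroup E := InnerProductSpace.Core.toNormedAddCommGroup (𝕜 := ℝ)
  let : InnerProductSpace ℝ E := InnerProductSpace.ofCore inferInstance
  have hv : Orthonormal ℝ (({0, 1} : Set (Fin 6)).domRestrict ![x, x', 0, 0, 0, 0]) := by
    rw [orthonormal_iff_ite]
    rintro ⟨i, rfl | rfl⟩ ⟨j, rfl | rfl⟩
    exacts [h1, h2, (hs _ _).trans h2, h3]
  obtain ⟨b, hb⟩ := hv.exists_orthonormalBasis_extension_of_card_eq (by simpa using hd)
  exact ⟨b.toBasis, hb 0 (by simp), hb 1 (by simp), fun v i => b.repr_apply_apply v i⟩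

/-- The general skew matrix with vanishing first two rows. -/
def mat_AJAlg (a b c d e f : ℝ) : Matrix (Fin 6) (Fin 6) ℝ :=
  !![0, 0, 0, 0, 0, 0; 0, 0, 0, 0, 0, 0; 0, 0, 0, -a, -b, -c; 0, 0, a, 0, -d, -e;
    0, 0, b, d, 0, -f; 0, 0, c, e, f, 0]

theorem sq_AJAlg (a b c d e f : ℝ) : mat_AJAlg a b c d e f ^ 2 =
    !![0, 0, 0, 0, 0, 0; 0, 0, 0, 0, 0, 0;
      0, 0, -(a * a + b * b + c * c), -(b * d + c * e), a * d - c * f, a * e + b * f;
      0, 0, -(b * d + c * e), -(a * a + d * d + e * e), -(a * b + e * f), d * f - a * c;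
      0, 0, a * d - c * f, -(a * b + e * f), -(b * b + d * d + f * f), -(b * c + d * e);
      0, 0, a * e + b * f, d * f - a * c, -(b * c + d * e), -(c * c + e * e + f * f)] := by
  rw [sq]
  ext i j
  fin_cases i <;> fin_cases j <;> simp [mat_AJAlg, Matrix.mul_apply, Fin.sum_univ_six] <;> ring

theorem four_AJAlg (a b c d e f : ℝ) : mat_AJAlg a b c d e f ^ 4 =
    -((a * a + b * b + c * c + d * d + e * e + f * f) • mat_AJAlg a b c d e f ^ 2) -
      (a * f - b * e + c * d) ^ 2 • Matrix.diagonal ![0, 0, 1, 1, 1, 1] := by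
  rw [show 4 = 2 * 2 from rfl, pow_mul, sq_AJAlg, sq]
  ext i j
  fin_cases i <;> fin_cases j <;> simp [Matrix.mul_apply, Fin.sum_univ_six] <;> ring

theorem coord_AJAlg {g o : Bil} {x x' : V} (h : Ok g o x x') {A : Op}
    (hA : ∀ u v, g (A u) v = o u v) : 0 < pf2 A ∧ 0 ≤ sgm A ∧
      ∀ v, A (A (A (A v))) = -(sgm A • A (A v)) - pf2 A • (v - g x v • x - g x' v • x') := by
  obtain ⟨b, b0, b1, hb⟩ := basis_AJAlg (E := V) (by simp [Module.finrank_pi_fintype])
    g.toLinearMap₁₂ h.symm h.pos h.xx h.xx' h.x'x'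
  replace hb : ∀ v i, b.repr v i = g (b i) v := hb
  have hz : ∀ v, o v v = 0 := fun v => by linarith [h.skew v v]
  have k0 : ∀ v, o (b 0) v = 0 := b0 ▸ h.ker
  have k1 : ∀ v, o (b 1) v = 0 := b1 ▸ h.ker'
  have k0' : ∀ v, o v (b 0) = 0 := fun v => by rw [h.skew, k0, neg_zero]
  have k1' : ∀ v, o v (b 1) = 0 := fun v => by rw [h.skew, k1, neg_zero]
  have sk := fun i j => h.skew (b i) (b j)
  have hM : LinearMap.toMatrixAlgEquiv b (A : V →ₗ[ℝ] V) = mat_AJAlg (o (b 2) (b 3))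
      (o (b 2) (b 4)) (o (b 2) (b 5)) (o (b 3) (b 4)) (o (b 3) (b 5)) (o (b 4) (b 5)) := by
    ext i j
    rw [LinearMap.toMatrixAlgEquiv_apply, hb, h.symm, ContinuousLinearMap.coe_coe, hA]
    fin_cases i <;> fin_cases j <;> simp [mat_AJAlg, k0, k1, k0', k1', hz, sk 3 2, sk 4 2, sk 5 2,
      sk 4 3, sk 5 3, sk 5 4]
  have ho : ∀ u v, o u v = ∑ i, ∑ j, b.repr u i * b.repr v j * o (b i) (b j) := fun u v => by
    conv_lhs => rw [← b.sum_repr u, ← b.sum_repr v]
    simp only [map_sum, map_smul, sum_apply, smul_apply, smul_eq_mul, Finset.mul_sum, mul_assoc]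
    rw [Finset.sum_comm]
    simp only [mul_left_comm]
  have hP : o (b 2) (b 3) * o (b 4) (b 5) - o (b 2) (b 4) * o (b 3) (b 5) +
      o (b 2) (b 5) * o (b 3) (b 4) ≠ 0 := fun e => by
    obtain ⟨u, v, w, z, hn⟩ := h.nondeg
    apply hn
    rw [ho u v, ho w z, ho u w, ho v z, ho u z, ho v w]
    simp only [Fin.sum_univ_six, k0, k1, k0', k1', hz, sk 3 2, sk 4 2, sk 5 2, sk 4 3, sk 5 3,
      sk 5 4]
    generalize b.repr u = u, b.repr v = v, b.repr w = w, b.repr z = z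
    linear_combination ((u 2 * v 3 - u 3 * v 2) * (w 4 * z 5 - w 5 * z 4) -
      (u 2 * v 4 - u 4 * v 2) * (w 3 * z 5 - w 5 * z 3) +
      (u 2 * v 5 - u 5 * v 2) * (w 3 * z 4 - w 4 * z 3) +
      (u 3 * v 4 - u 4 * v 3) * (w 2 * z 5 - w 5 * z 2) -
      (u 3 * v 5 - u 5 * v 3) * (w 2 * z 4 - w 4 * z 2) +
      (u 4 * v 5 - u 5 * v 4) * (w 2 * z 3 - w 3 * z 2)) * e
  generalize o (b 2) (b 3) = p, o (b 2) (b 4) = q, o (b 2) (b 5) = r, o (b 3) (b 4) = s,
    o (b 3) (b 5) = t, o (b 4) (b 5) = w at hM hP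
  have ht : ∀ n, trc (A ^ n) = (mat_AJAlg p q r s t w ^ n).trace := fun n => by
    rw [trc, LinearMap.trace_eq_matrix_trace ℝ b, ← hM, ← map_pow,
      ContinuousLinearMap.toLinearMap_pow]
    rfl
  have h1 : sgm A = p * p + q * q + r * r + s * s + t * t + w * w := by
    rw [sgm, ht, sq_AJAlg]
    simp [Matrix.trace, Fin.sum_univ_six]
    ring
  have h2 : pf2 A = (p * w - q * t + r * s) ^ 2 := by
    rw [pf2, h1, ht, four_AJAlg, sq_AJAlg]
    simp [Matrix.trace, Fin.sum_univ_six]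
    ring
  have h3 : LinearMap.toMatrixAlgEquiv b (1 - (g x : V →ₗ[ℝ] ℝ).smulRight x -
      (g x' : V →ₗ[ℝ] ℝ).smulRight x') = Matrix.diagonal ![0, 0, 1, 1, 1, 1] := by
    ext i j
    rw [LinearMap.toMatrixAlgEquiv_apply, ← b0, ← b1]
    fin_cases i <;> fin_cases j <;> simp [← hb]
  refine ⟨by rw [h2]; positivity, by
    rw [h1]
    nlinarith [mul_self_nonneg p, mul_self_nonneg q, mul_self_nonneg r, mul_self_nonneg s,
      mul_self_nonneg t, mul_self_nonneg w], fun v => ?_⟩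
  have h4 := four_AJAlg p q r s t w
  rw [← hM, ← h1, ← h2, ← h3, ← map_pow, ← map_pow, ← map_smul, ← map_smul, ← map_neg, ← map_sub,
    EmbeddingLike.apply_eq_iff_eq] at h4
  simpa [pow_succ] using LinearMap.congr_fun h4 v

theorem jAlgS : JAlgStmt := by
  intro g o x x' h hA
  obtain ⟨h1, h2, h3⟩ := coord_AJAlg h hA
  have hJ : ∀ v, Jp (g, o, x, x') v = Jh (Aop (g, o, x, x')) v + g x v • x' - g x' v • x :=
    fun _ => rfl
  simp only [hJ]
  generalize Aop (g, o, x, x') = A at *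
  have nd : ∀ u, (∀ v, g u v = 0) → u = 0 := fun u hu => by_contra fun h' => (h.pos u h').ne' (hu u)
  have a0 : A x = 0 := nd _ fun v => by rw [hA, h.ker]
  have a1 : A x' = 0 := nd _ fun v => by rw [hA, h.ker']
  have o0 : ∀ v, o v x = 0 := fun v => by rw [h.skew, h.ker, neg_zero]
  have o1 : ∀ v, o v x' = 0 := fun v => by rw [h.skew, h.ker', neg_zero]
  have g0 : ∀ v, g x (A v) = 0 := fun v => by rw [h.symm, hA, o0]
  have g1 : ∀ v, g x' (A v) = 0 := fun v => by rw [h.symm, hA, o1]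
  have x'x : g x' x = 0 := (h.symm _ _).trans h.xx'
  obtain ⟨P, hP, eP⟩ : ∃ P : ℝ, 0 < P ∧ √(pf2 A) = P := ⟨_, Real.sqrt_pos.2 h1, rfl⟩
  obtain ⟨c, hc, ec⟩ : ∃ c : ℝ, 0 < c ∧ √(sgm A + 2 * P) = c :=
    ⟨_, Real.sqrt_pos.2 (by positivity), rfl⟩
  have hK : ∀ v, Jh A v = c⁻¹ • (A v + P⁻¹ • (A (A (A v)) + sgm A • A v)) := fun v => by
    simp [Jh, eP, ec, pow_succ]
  have e1 : pf2 A = P * P := by rw [← eP, Real.mul_self_sqrt h1.le]
  have e2 : sgm A = c * c - 2 * P := by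
    rw [← ec, Real.mul_self_sqrt (by positivity)]
    ring
  have hAK : ∀ v, A (Jh A v) = c⁻¹ • (A (A v) - P • (v - g x v • x - g x' v • x')) := fun v => by
    simp only [hK, map_smul, map_add, h3, e1]
    match_scalars <;> field_simp <;> ring
  have j0 : ∀ v, g x (Jh A v) = 0 := fun v => by simp [hK, g0]
  have j1 : ∀ v, g x' (Jh A v) = 0 := fun v => by simp [hK, g1]
  have jx : Jh A x = 0 := by simp [hK, a0]
  have jx' : Jh A x' = 0 := by simp [hK, a1]
  have jj : ∀ v, Jh A (Jh A v) = -(v - g x v • x - g x' v • x') := fun v => by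
    rw [hK, hAK]
    simp only [map_smul, map_sub, h3, a0, a1, e1, e2, map_zero]
    match_scalars <;> field_simp <;> ring
  refine ⟨h1, h2, fun v => ?_, by simp [jx, h.xx, x'x], by simp [jx', h.xx', h.x'x'],
    fun v hv => ?_, fun v => ?_⟩
  · simp only [map_add, map_sub, map_smul, jj, jx, jx', j0, j1, h.xx, h.xx', x'x, h.x'x',
      smul_eq_mul]
    module
  · have h4 := h.pos (v - g x v • x - g x' v • x') fun e => hv (g x v) (g x' v) (by
      rwa [sub_sub, sub_eq_zero] at e)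
    have h5 : 0 ≤ g (A v) (A v) := by
      by_cases e : A v = 0
      · simp [e]
      · exact (h.pos _ e).le
    have h6 : g (A (A v)) v = -g (A v) (A v) := by rw [hA, h.skew, ← hA]
    rw [map_sub, map_add, map_smul, map_smul, o0, o1, h.skew, ← hA, hAK]
    simp only [map_smul, map_sub, smul_apply, sub_apply,
      smul_eq_mul, h.xx, h.xx', x'x, h.x'x', h.symm v x, h.symm v x', h6] at h4 ⊢
    nlinarith [mul_nonneg (inv_pos.2 hc).le h5, mul_pos (inv_pos.2 hc) (mul_pos hP h4)]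
  · rw [h.symm v x, h.symm v x', h.symm _ x, h.symm _ x']
    simp [j0, j1, h.xx, h.xx', x'x, h.x'x']

end Pool.Agent.MP_2fc7fa_gt.N
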