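import Pool.Agent.MP_2fc7fa_gt.N.IfA

/-! The natural family of tamed almost complex structures. -/

open scoped ContDiff ComplexConjugate Topology
open Set Complex Filter Metric

noncomputable section

namespace Pool.Agent.MP_2fc7fa_gt.N

theorem split_AJFam (a b : ℝ) (x : V) : a • x + b • (I • x) = ((a : ℂ) + b * I) • x := by
  rw [add_smul, mul_smul, Complex.coe_smul, Complex.coe_smul]

theorem reB_e0_AJFam (u : V) : reB u e0 = (u 0).re := by
  rw [reB_apply]
  simp [her, e0, vec, Fin.sum_univ_three]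

theorem reB_Ie0_AJFam (u : V) : reB u (I • e0) = (u 0).im := by
  rw [reB_apply]
  simp [her, e0, vec, Fin.sum_univ_three]

theorem jFamS (hI : JInvStmt) (hA : JAlgStmt) (hS : JSmStmt) (hG : GsStmt) : JFamStmt := by
  intro f F F' ac om0 om1 hL hF
  have G := hG f F F' hL
  have alg := fun (σ : Symp 1) (s : UI) (x : V) (hx : x ≠ 0) =>
    hA _ _ _ _ (G.ok σ s x hx) (hI.1 _ _ _ _ (G.ok σ s x hx)).2
  have hstop : ∀ x, x ≠ 0 → ∀ v, Jp (g1 x, bilL (om1.form x), x, I • x) v = I • v :=
    fun x hx => hI.2.2 x _ hx fun u v => by rw [bilL_apply]; exact hF.std x hx u v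
  refine ⟨fun a x => Jp (gs F' a.2 x, bilL (a.1.form x), x, I • x), ?_, ?_, ?_, ?_, ?_, ?_, ?_,
    ?_, ?_⟩
  · have h1 : Sm {0}ᶜ fun (a : Symp 1 × UI) x => gs F' a.2 x := G.sm.param continuous_snd
    have h2 : Sm {0}ᶜ fun (a : Symp 1 × UI) x => bilL (a.1.form x) :=
      Sm.clm (G := V →L[ℝ] V →L[ℝ] ℝ) (continuous_symp_iff.1 continuous_fst) bilL
    have h3 : Sm {0}ᶜ fun (_ : Symp 1 × UI) (x : V) => I • x :=
      sm_of_contDiff (contDiff_id.const_smul I)
    refine (h1.prod (h2.prod (sm_id.prod h3))).post hS.1 hS.2 fun a x hx => ?_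
    obtain ⟨k1, k2, -⟩ := alg a.1 a.2 x hx
    refine ⟨(hI.1 _ _ _ _ (G.ok a.1 a.2 x hx)).1, k1, ?_⟩
    have := Real.sqrt_pos.2 k1
    linarith
  · exact fun a x hx => (alg a.1 a.2 x hx).2.2.1
  · intro a x hx c
    obtain ⟨-, -, -, k1, k2, -⟩ := alg a.1 a.2 x hx
    have e : c • x = c.re • x + c.im • (I • x) := by rw [split_AJFam, re_add_im]
    have e' : I • c • x = (-c.im) • x + c.re • (I • x) := by
      rw [split_AJFam, smul_smul]
      congr 1
      apply Complex.ext <;> simp
    rw [e']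
    conv_lhs => rw [e]
    rw [map_add, map_smul, map_smul, k1, k2, smul_neg, neg_smul, add_comm]
  · intro a x hx c hc v
    have key := hI.2.1
      (((LinearEquiv.smulOfNeZero ℂ V c hc).restrictScalars ℝ).toContinuousLinearEquiv)
      _ _ _ _ (gs F' a.2 (c • x)) (bilL (a.1.form (c • x))) (G.ok a.1 a.2 x hx)
      (fun u w => G.scale a.2 x hx c hc u w) (fun u w => by
        rw [bilL_apply, bilL_apply, ← a.1.isForm.scale c hc x ![u, w]]
        congr 1
        ext1 i
        fin_cases i <;> rfl) v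
    rw [smul_comm I c x]
    exact key
  · intro a x hx v hv
    have := (alg a.1 a.2 x hx).2.2.2.2.2.1 v fun p q => by rw [split_AJFam]; exact hv _
    rwa [bilL_apply] at this
  · intro a v
    obtain ⟨k1, k2⟩ := (alg a.1 a.2 e0 e0_ne).2.2.2.2.2.2 v
    generalize Jp (gs F' a.2 e0, bilL (a.1.form e0), e0, I • e0) v = w at k1 k2 ⊢
    rw [G.base, reB_e0_AJFam, reB_Ie0_AJFam] at k1 k2
    apply Complex.ext
    · simpa using k1
    · simpa using k2
  · intro k σ s x hx v
    have key := hI.2.1 (((hatL k).toLinearEquiv.restrictScalars ℝ).toContinuousLinearEquiv)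
      _ _ _ _ (gs F' s (hat k x)) (bilL ((ac k σ).form (hat k x))) (G.ok σ s x hx)
      (fun u w => G.equiv s k x hx u w) (fun u w => by
        rw [bilL_apply, bilL_apply]
        exact hF.spec k σ x hx u w) v
    have e : I • hat k x = hat k (I • x) := ((hatL k).map_smul I x).symm
    rw [e]
    exact key
  · intro y hy v
    have hD := hL.toHDiff
    have ok := G.ok om1 1 y hy
    rw [show ((1 : UI) : ℝ) = 1 from rfl, G.stop] at ok
    have key := hI.2.1 (ContinuousLinearEquiv.equivOfInverse (fderiv ℝ F y) (fderiv ℝ F' (F y))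
      (hD.chain hy) (hD.chain' hy)) _ _ _ _ (gs F' 0 (F y)) (bilL (om0.form (F y))) ok
      (fun u w => G.start y hy u w) (fun u w => by
        rw [bilL_apply, bilL_apply]
        refine (hF.pull (F y) (hD.ne hy) _ _).trans ?_
        rw [ContinuousLinearEquiv.equivOfInverse_apply, ContinuousLinearEquiv.equivOfInverse_apply,
          hD.chain hy, hD.chain hy, hD.left]) v
    have e1 : fderiv ℝ F y y = F y := by simpa using hD.fderiv_vert hy 1
    simp only [ContinuousLinearEquiv.equivOfInverse_apply] at key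
    rw [hstop y hy, e1, hD.fderiv_vert hy I] at key
    exact key
  · intro x hx v
    rw [← hstop x hx v, ← G.stop]
    rfl

end Pool.Agent.MP_2fc7fa_gt.N
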