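import Pool.Agent.MP_2fc7fa_gt.N.IfA

/-! The defining property of `Aop`, naturality of `Jp`, and the standard case. -/

open scoped ContDiff ComplexConjugate Topology
open Set Complex Filter Metric

noncomputable section

namespace Pool.Agent.MP_2fc7fa_gt.N

theorem inj_AJInv {g : Bil} (hg : ∀ v, v ≠ 0 → 0 < g v v) : Function.Injective g := by
  refine (injective_iff_map_eq_zero g).2 fun v hv => by_contra fun h => ?_
  have := hg v h
  simp [hv] at this

theorem inv_AJInv {g : Bil} (hg : ∀ v, v ≠ 0 → 0 < g v v) : g.IsInvertible := by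
  have hd : Module.finrank ℝ V = Module.finrank ℝ (V →L[ℝ] ℝ) := by
    rw [← (LinearMap.toContinuousLinearMap (𝕜 := ℝ) (E := V) (F' := ℝ)).finrank_eq]
    exact Subspace.dual_finrank_eq.symm
  have hi : Function.Injective (g : V →ₗ[ℝ] V →L[ℝ] ℝ) := inj_AJInv hg
  have hb : Function.Bijective (g : V →ₗ[ℝ] V →L[ℝ] ℝ) :=
    ⟨hi, (LinearMap.injective_iff_surjective_of_finrank_eq_finrank hd).1 hi⟩
  exact ⟨(LinearEquiv.ofBijective _ hb).toContinuousLinearEquiv, by ext1; rfl⟩

theorem aop_AJInv {g : Bil} (hg : ∀ v, v ≠ 0 → 0 < g v v) (o : Bil) (x x' u : V) :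
    g (Aop (g, o, x, x') u) = o u :=
  (inv_AJInv hg).self_apply_inverse _

theorem pow_AJInv (T : V ≃L[ℝ] V) {A A' : Op} (h : ∀ u, A' (T u) = T (A u)) (n : ℕ) (u : V) :
    (A' ^ n) (T u) = T ((A ^ n) u) := by
  induction n generalizing u with
  | zero => simp
  | succ n ih => rw [pow_succ, pow_succ, mul_apply_eq_comp,
      mul_apply_eq_comp, h, ih]

theorem trc_AJInv (T : V ≃L[ℝ] V) {A A' : Op} (h : ∀ u, A' (T u) = T (A u)) : trc A' = trc A := by
  rw [trc, trc, ← LinearMap.trace_conj' (A : V →ₗ[ℝ] V) T.toLinearEquiv]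
  congr 1
  refine LinearMap.ext fun u => ?_
  have := h (T.symm u)
  rw [T.apply_symm_apply] at this
  simpa [LinearEquiv.conj_apply] using this

theorem jh_AJInv (T : V ≃L[ℝ] V) {A A' : Op} (h : ∀ u, A' (T u) = T (A u)) (u : V) :
    Jh A' (T u) = T (Jh A u) := by
  have h1 : sgm A' = sgm A := by rw [sgm, sgm, trc_AJInv T (pow_AJInv T h 2)]
  have h2 : pf2 A' = pf2 A := by rw [pf2, pf2, h1, trc_AJInv T (pow_AJInv T h 4)]
  simp only [Jh, h1, h2, smul_apply, add_apply, h,
    pow_AJInv T h, map_smul, map_add]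

theorem smm_AJInv (a b : ℝ) (K L : Op) : (a • K) * (b • L) = (a * b) • (K * L) := by
  ext1 u
  simp only [mul_apply_eq_comp, smul_apply, map_smul, smul_smul, mul_comm]

theorem std_AJInv (g o : Bil) (R : Op) (x : V) (hs : ∀ u v, g u v = g v u)
    (hg : ∀ v, v ≠ 0 → 0 < g v v) (hR : ∀ u, R (R u) = -u) (hI : ∀ u v, g (R u) v = -g u (R v))
    (hx : g x x = 1)
    (ho : ∀ u v, o u v = 2 * (g (R u) v - g (R u) x * g v x - g (R u) (R x) * g v (R x))) (v : V) :
    Jp (g, o, x, R x) v = R v := by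
  have h0 : g x (R x) = 0 := by
    have := hI x x
    rw [hs (R x) x] at this
    linarith
  have h0' : g (R x) x = 0 := by rw [hs, h0]
  have hRR : ∀ u v, g (R u) (R v) = g u v := fun u v => by rw [hI, hR]; simp
  have h1 : g (R x) (R x) = 1 := by rw [hRR, hx]
  set Q : Op := 1 - (g x).smulRight x - (g (R x)).smulRight (R x) with hQ
  have hQa : ∀ u, Q u = u - g x u • x - g (R x) u • R x := fun u => by simp [hQ]
  have hQR : R * Q = Q * R := by
    ext1 u
    simp only [mul_apply_eq_comp, hQa, map_sub, map_smul, hR, hRR]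
    rw [hI x u]
    module
  have hQQ : Q * Q = Q := by
    ext1 u
    simp only [mul_apply_eq_comp, hQa, map_sub, map_smul, hx, h0, h0', h1, smul_eq_mul]
    module
  have hR2 : R * R = -1 := by
    ext1 u
    simp [hR]
  set K : Op := R * Q with hK
  have hK2 : K * K = -Q := by
    calc K * K = R * (Q * R) * Q := by simp only [hK, mul_assoc]
      _ = (R * R) * (Q * Q) := by rw [← hQR, hK]; rfl
      _ = -Q := by
        rw [hR2, hQQ]
        ext1 u
        simp only [mul_apply_eq_comp, neg_apply, one_apply_eq_self]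
  have hKQ : K * Q = K := by rw [hK, mul_assoc, hQQ]
  have hA : Aop (g, o, x, R x) = (2 : ℝ) • K := by
    ext1 u
    apply inj_AJInv hg
    rw [aop_AJInv hg]
    ext1 w
    simp only [ho, hK, smul_apply, mul_apply_eq_comp, hQa, map_sub,
      map_smul, hR, map_neg, sub_apply, neg_apply,
      smul_eq_mul, hRR]
    rw [hI u x, hs (R x) u, hs x u, hs (R x) w, hs x w]
    ring
  have hA2 : ((2 : ℝ) • K) ^ 2 = (-4 : ℝ) • Q := by
    rw [sq, smm_AJInv, hK2]
    module
  have hA3 : ((2 : ℝ) • K) ^ 3 = (-8 : ℝ) • K := by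
    rw [pow_succ', hA2, smm_AJInv, hKQ]
    module
  have hA4 : ((2 : ℝ) • K) ^ 4 = (16 : ℝ) • Q := by
    rw [show 4 = 2 + 2 from rfl, pow_add, hA2, smm_AJInv, hQQ]
    module
  have ht : trc Q = 4 := by
    have e : (Q : V →ₗ[ℝ] V) = LinearMap.id - (g x : V →ₗ[ℝ] ℝ).smulRight x -
        (g (R x) : V →ₗ[ℝ] ℝ).smulRight (R x) := by
      refine LinearMap.ext fun u => ?_
      simp [hQa]
    rw [trc, e, map_sub, map_sub, LinearMap.trace_id, LinearMap.trace_smulRight,
      LinearMap.trace_smulRight]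
    simp [hx, h1, Module.finrank_pi_fintype]
    norm_num
  have hts : ∀ c : ℝ, trc (c • Q) = c * 4 := fun c => by
    rw [← ht, trc, trc, ContinuousLinearMap.toLinearMap_smul, map_smul, smul_eq_mul]
  have hsg : sgm ((2 : ℝ) • K) = 8 := by
    rw [sgm, hA2, hts]
    norm_num
  have hpf : pf2 ((2 : ℝ) • K) = 16 := by
    rw [pf2, hsg, hA4, hts]
    norm_num
  have h16 : √(16 : ℝ) = 4 := by
    rw [show (16 : ℝ) = 4 ^ 2 by norm_num, Real.sqrt_sq (by norm_num)]
  have hJ : Jh ((2 : ℝ) • K) = K := by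
    rw [Jh, hsg, hpf, h16, show (8 : ℝ) + 2 * 4 = 16 by norm_num, h16, hA3]
    module
  rw [Jp, hA, hJ]
  simp only [hK, sub_apply, add_apply,
    mul_apply_eq_comp, hQa, map_sub, map_smul, hR, ContinuousLinearMap.smulRight_apply]
  module

theorem jInvS : JInvStmt := by
  refine ⟨fun g o x x' h => ⟨inv_AJInv h.pos, fun u v => by rw [aop_AJInv h.pos]⟩,
    fun T g o x x' g' o' h hg ho v => ?_, fun x o hx ho v => ?_⟩
  · have hp : ∀ v, v ≠ 0 → 0 < g' v v := fun v hv => by
      rw [← T.apply_symm_apply v, hg]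
      exact h.pos _ (T.symm.map_ne_zero_iff.2 hv)
    have hA : ∀ u, Aop (g', o', T x, T x') (T u) = T (Aop (g, o, x, x') u) := fun u => by
      apply inj_AJInv hp
      rw [aop_AJInv hp]
      ext1 w
      rw [← T.apply_symm_apply w, ho, hg, aop_AJInv h.pos]
    simp only [Jp, sub_apply, add_apply,
      ContinuousLinearMap.smulRight_apply, jh_AJInv T hA, hg, map_sub, map_add, map_smul]
  · have hn := nn_pos hx
    refine std_AJInv (g1 x) o ((I • ContinuousLinearMap.id ℂ V).restrictScalars ℝ) x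
      (fun u v => ?_) (fun v hv => ?_) (fun u => ?_) (fun u v => ?_) ?_ ho v
    · simp only [g1_apply, her, re_sum, mul_re, conj_re, conj_im]
      congr 1
      exact Finset.sum_congr rfl fun j _ => by ring
    · rw [g1_apply, her_self, ofReal_re]
      exact mul_pos (inv_pos.2 hn) (nn_pos hv)
    · simp [smul_smul]
    · simp [g1_apply, her_smul, her_smul']
    · rw [g1_apply, her_self, ofReal_re, inv_mul_cancel₀ hn.ne']

end Pool.Agent.MP_2fc7fa_gt.N
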