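import Pool.Agent.MP_2fc7fa_gt.N.IfA

open scoped ContDiff ComplexConjugate Topology
open Set Complex Filter Metric

namespace Pool.Agent.MP_2fc7fa_gt.N

lemma trc_AJSm : ContDiff ℝ ∞ trc :=
  (LinearMap.toContinuousLinearMap
    ((LinearMap.trace ℝ V).comp (ContinuousLinearMap.coeLM ℝ))).contDiff

lemma sgm_AJSm : ContDiff ℝ ∞ sgm :=
  (trc_AJSm.comp (contDiff_id.pow 2)).neg.div_const 2

lemma pf2_AJSm : ContDiff ℝ ∞ pf2 :=
  ((sgm_AJSm.pow 2).sub ((trc_AJSm.comp (contDiff_id.pow 4)).div_const 2)).div_const 2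

lemma jh_AJSm {A : Op} (h1 : 0 < pf2 A) (h2 : 0 < sgm A + 2 * √(pf2 A)) : ContDiffAt ℝ ∞ Jh A := by
  have a1 : ContDiffAt ℝ ∞ (fun A => √(pf2 A)) A := pf2_AJSm.contDiffAt.sqrt h1.ne'
  have a2 : ContDiffAt ℝ ∞ (fun A => √(sgm A + 2 * √(pf2 A))) A :=
    (sgm_AJSm.contDiffAt.add (contDiffAt_const.mul a1)).sqrt h2.ne'
  exact (a2.inv (Real.sqrt_pos.2 h2).ne').smul (contDiffAt_id.add
    ((a1.inv (Real.sqrt_pos.2 h1).ne').smul
      ((contDiffAt_id.pow 3).add (sgm_AJSm.contDiffAt.smul contDiffAt_id))))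

lemma aop_AJSm {d : D4} (h : d.1.IsInvertible) : ContDiffAt ℝ ∞ Aop d :=
  (ContDiffAt.comp (g := ContinuousLinearMap.inverse) (f := Prod.fst) d
    h.contDiffAt_map_inverse contDiffAt_fst).clm_comp contDiffAt_snd.fst

theorem jSmS : JSmStmt := by
  refine ⟨isOpen_iff_mem_nhds.2 fun d hd => ?_, fun d hd => ContDiffAt.contDiffWithinAt ?_⟩
  · have h1 := (aop_AJSm hd.1).continuousAt
    have h2 := pf2_AJSm.continuous.continuousAt.comp h1
    have h3 := (sgm_AJSm.continuous.continuousAt.comp h1).add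
      ((continuousAt_const (y := (2 : ℝ))).mul h2.sqrt)
    have h4 : {g : Bil | g.IsInvertible} ∈ 𝓝 d.1 :=
      (ContinuousLinearEquiv.isOpen (𝕜 := ℝ) (E := V) (F := V →L[ℝ] ℝ)).mem_nhds hd.1
    exact (continuousAt_fst.eventually h4).and ((continuousAt_const.eventually_lt h2 hd.2.1).and
      (continuousAt_const.eventually_lt h3 hd.2.2))
  · have h1 : ContDiff ℝ ∞ fun d : D4 => d.2.2.1 := contDiff_snd.snd.fst
    have h2 : ContDiff ℝ ∞ fun d : D4 => d.2.2.2 := contDiff_snd.snd.snd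
    exact (((jh_AJSm hd.2.1 hd.2.2).comp d (aop_AJSm hd.1)).add
      ((contDiff_fst.clm_apply h1).smulRight h2).contDiffAt).sub
      ((contDiff_fst.clm_apply h2).smulRight h1).contDiffAt

end Pool.Agent.MP_2fc7fa_gt.N
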