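import Pool.Agent.MP_2fc7fa_gt.N.IfA

/-! Naturality of the lines through the base point, and the two ends. -/

open scoped ContDiff ComplexConjugate Topology
open Set Complex Filter Metric

noncomputable section

namespace Pool.Agent.MP_2fc7fa_gt.N

theorem dAt_AKey {J : V → V → V} {U : W → V} (hU : IsLine J U) {q : W} (hq : q ≠ 0) :
    DifferentiableAt ℝ U q :=
  (hU.c1.contDiffAt (isOpen_compl_singleton.mem_nhds hq)).differentiableAt one_ne_zero

theorem fd_AKey {F F' : V → V} (h : HDiff F F') (g : W ≃L[ℂ] W) {J : V → V → V} {U : W → V}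
    (hU : IsLine J U) {q : W} (hq : q ≠ 0) (k : W) :
    fderiv ℝ (fun q => F (U (g q))) q k = fderiv ℝ F (U (g q)) (fderiv ℝ U (g q) (g k)) := by
  have hg : g q ≠ 0 := g.map_ne_zero_iff.2 hq
  have h1 := (h.dAt (hU.ne _ hg)).hasFDerivAt.comp q
    ((dAt_AKey hU hg).hasFDerivAt.comp q (g.hasFDerivAt (x := q).restrictScalars ℝ))
  exact congrArg (fun L : W →L[ℝ] V => L k) h1.fderiv

theorem line_AKey {F F' : V → V} (h : HDiff F F') (g : W ≃L[ℂ] W) {J J' : V → V → V} {U : W → V}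
    (hU : IsLine J U)
    (hJ : ∀ x, x ≠ 0 → ∀ u, J' (F x) (fderiv ℝ F x u) = fderiv ℝ F x (J x u)) :
    IsLine J' fun q => F (U (g q)) where
  c1 := by
    have hg : MapsTo g ({0}ᶜ : Set W) {0}ᶜ := fun q hq => g.map_ne_zero_iff.2 hq
    exact (h.smooth.of_le (by exact_mod_cast le_top)).comp
      (hU.c1.comp (g.contDiff.restrict_scalars ℝ).contDiffOn hg) fun q hq => hU.ne _ (hg hq)
  ne q hq := h.ne (hU.ne _ (g.map_ne_zero_iff.2 hq))
  hom c q := by rw [map_smul, hU.hom, h.hom]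
  hol q hq k := by
    have hg : g q ≠ 0 := g.map_ne_zero_iff.2 hq
    rw [fd_AKey h g hU hq, fd_AKey h g hU hq, map_smul, hU.hol _ hg, hJ _ (hU.ne _ hg)]

theorem e1_AKey : ((1, 0) : W) ≠ 0 := by simp

theorem split_AKey {E : Type} [NormedAddCommGroup E] [NormedSpace ℂ E] (L : E →L[ℝ] V) (c : ℂ)
    (w : E) : L (c • w) = c.re • L w + c.im • L (I • w) := by
  rw [← map_smul, ← map_smul, ← map_add]
  congr 1
  conv_lhs => rw [← re_add_im c, add_smul, mul_smul, Complex.coe_smul, Complex.coe_smul]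

theorem hdiffL_AKey (T : V ≃L[ℂ] V) : HDiff T T.symm :=
  ⟨(T.contDiff.restrict_scalars ℝ).contDiffOn, (T.symm.contDiff.restrict_scalars ℝ).contDiffOn,
    T.symm_apply_apply, T.apply_symm_apply, T.map_smul⟩

theorem fderivL_AKey (T : V ≃L[ℂ] V) (x v : V) : fderiv ℝ T x v = T v :=
  congrArg (fun L : Op => L v) (T.hasFDerivAt (x := x).restrictScalars ℝ).fderiv

theorem vec_smul_AKey (c : ℂ) (v : W) : vec 0 (c • v) = c • vec 0 v := by
  ext a
  fin_cases a <;> simp [vec]

theorem vec_add_AKey (v w : W) : vec 0 (v + w) = vec 0 v + vec 0 w := by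
  ext a
  fin_cases a <;> simp [vec]

theorem vec_eq_zero_AKey {v : W} (h : vec 0 v = 0) : v = 0 :=
  Prod.ext (by simpa [vec] using congrFun h 1) (by simpa [vec] using congrFun h 2)

theorem keyS : KeyStmt := by
  intro hU hL P _ φ C Y hS
  refine ⟨fun p p' T c v v' hT hJ hC hc hv hvv s q => ?_, fun p f F F' hF hJ v hv => ?_,
    fun p => ?_⟩
  · have hv' : v' ≠ 0 := by
      rintro rfl
      have h0 : vec 0 (0 : W) = 0 := by simpa using vec_smul_AKey 0 0
      rw [h0] at hvv
      exact smul_ne_zero hc hv (vec_eq_zero_AKey (T.map_eq_zero_iff.1 hvv.symm))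
    let g : W ≃L[ℂ] W := (ContinuousLinearEquiv.refl ℂ ℂ).prodCongr
      (ContinuousLinearEquiv.unitsEquivAut ℂ (Units.mk0 c hc))
    have hg : ∀ q : W, g q = (q.1, c * q.2) := fun q => by
      obtain ⟨a, b⟩ := q
      simp [g, mul_comm]
    have hfam : ∀ (p : P) (v : W), v ≠ 0 → Fam {0}ᶜ 1 V fun s : UI => Y (p, s) v :=
      fun p v hv => hS.fam.param
        (g := fun s : UI => (((p, s), ⟨v, hv⟩) : (P × UI) × ({0}ᶜ : Set W))) (by fun_prop)
    have hline : ∀ s, IsLine (φ (p', s)).J fun q => T (Y (p, s) v (g q)) := fun s =>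
      line_AKey (hdiffL_AKey T) g (hS.line _ v hv).1 fun x hx u => by
        rw [fderivL_AKey, fderivL_AKey, hJ s x hx]
    have hjet : ∀ s, jet (Y (p', s) v') = jet fun q => T (Y (p, s) v (g q)) := by
      intro s
      obtain ⟨h1, -, h3⟩ := hS.line (p, s) v hv
      have a1 : Y (p, s) v (1, 0) = e0 := (Prod.ext_iff.1 h3).1
      have a2 : fderiv ℝ (Y (p, s) v) (1, 0) (0, 1) = C (p, s) (vec 0 v) := (Prod.ext_iff.1 h3).2
      have g1 : g (1, 0) = (1, 0) := by simp [hg]
      have g2 : g (0, 1) = c • ((0, 1) : W) := by simp [hg]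
      rw [(hS.line (p', s) v' hv').2.2, jet, fd_AKey (hdiffL_AKey T) g h1 e1_AKey, g1, g2, a1, hT,
        fderivL_AKey, hvv, hC, split_AKey, h1.hol _ e1_AKey, a1, a2, vec_smul_AKey, split_AKey,
        hS.cJ]
    have key := hU (fun s => φ (p', s)) (fun s => Y (p', s) v')
      (fun s q => T (Y (p, s) v (g q)))
      (fun n => ⟨(hS.fr n).1.param (g := fun s : UI => (p', s)) (by fun_prop),
        (hS.fr n).2.param (g := fun s : UI => (p', s)) (by fun_prop)⟩)
      (hfam p' v' hv')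
      (((hfam p v hv).comp (fam_id.clm ((g : W →L[ℂ] W).restrictScalars ℝ))
        fun _ q hq => g.map_ne_zero_iff.2 hq).clm ((T : V →L[ℂ] V).restrictScalars ℝ))
      (fun s => ⟨(hS.line _ v' hv').1, (hS.line _ v' hv').2.1, hline s, hjet s⟩)
      (funext fun q => by
        rw [hL _ _ (hS.std p') (hS.line _ v' hv').1 q, hjet 1,
          ← hL _ _ (hS.std p') (hline 1) q])
    rw [← hg]
    exact congrFun (congrFun key s) q
  · obtain ⟨h1, -, h3⟩ := hS.line (p, 0) v hv
    have a1 : Y (p, 0) v (1, 0) = e0 := (Prod.ext_iff.1 h3).1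
    have a2 : fderiv ℝ (Y (p, 0) v) (1, 0) (0, 1) = vec 0 v :=
      (Prod.ext_iff.1 h3).2.trans (hS.c0 p _)
    have hD := hF.toHDiff
    have h4 : IsLine (fun _ u => I • u)
        fun q => F' (Y (p, 0) v (ContinuousLinearEquiv.refl ℂ W q)) :=
      line_AKey hD.symm _ h1 fun x hx u => by
        have hy := hD.symm.ne hx
        have := hJ _ hy (fderiv ℝ F' x u)
        rw [hD.right, hD.symm.chain hx] at this
        rw [this, hD.symm.chain' hx]
    have h5 := hL _ _ (fun _ _ _ => rfl) h4 (1, 1)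
    have h6 : fderiv ℝ F' e0 = ContinuousLinearMap.id ℝ V := by
      rw [← fderiv_id (x := e0)]
      exact Filter.EventuallyEq.fderiv_eq hF.near'
    rw [jet, fd_AKey hD.symm _ h1 e1_AKey] at h5
    simp only [ContinuousLinearEquiv.refl_apply, a1, a2, h6, hF.near'.self_of_nhds, one_smul,
      ContinuousLinearMap.id_apply] at h5
    rw [← hF.aff, ← hD.right (Y (p, 0) v (1, 1)), h5]
    congr 1
    ext a
    fin_cases a <;> simp [vec, e0]
  · have hc : ∀ (c : ℂ) u, C (p, 1) (c • u) = c • C (p, 1) u := fun c u => by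
      rw [split_AKey, hS.cJ, hS.std p _ e0_ne]
      exact (split_AKey (ContinuousLinearMap.id ℝ V) c _).symm
    have hv : ∀ v, vec 0 (C (p, 1) (vec 0 v) 1, C (p, 1) (vec 0 v) 2) = C (p, 1) (vec 0 v) := by
      intro v
      ext a
      fin_cases a
      · simp [vec, hS.cb]
      · simp [vec]
      · simp [vec]
    refine ⟨⟨⟨fun v => (C (p, 1) (vec 0 v) 1, C (p, 1) (vec 0 v) 2), fun v w => ?_⟩,
      fun c v => ?_⟩, ?_, fun v hv0 => ?_⟩
    · simp [vec_add_AKey]
    · simp [vec_smul_AKey, hc]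
    · rw [injective_iff_map_eq_zero]
      intro v h0
      have h1 : (C (p, 1) (vec 0 v) 1, C (p, 1) (vec 0 v) 2) = 0 := h0
      have h2 := hv v
      have h3 : vec 0 (0 : W) = 0 := by simpa using vec_smul_AKey 0 0
      rw [h1, h3] at h2
      exact vec_eq_zero_AKey (hS.cinj _ (h2.symm.trans (map_zero _).symm))
    · obtain ⟨h1, -, h3⟩ := hS.line (p, 1) v hv0
      rw [hL _ _ (hS.std p) h1 (1, 1), h3]
      ext a
      fin_cases a
      · simp [vec, e0, hS.cb]
      · simp [vec, e0]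
      · simp [vec, e0]

end Pool.Agent.MP_2fc7fa_gt.N
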