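import Pool.Agent.MP_2fc7fa_gt.N.IfA

/-! The lift to `ℂ³` of a diffeomorphism of the affine chart. -/

open scoped ContDiff ComplexConjugate Topology
open Set Complex Filter Metric

noncomputable section

namespace Pool.Agent.MP_2fc7fa_gt.N

/-- Affine coordinates. -/
def aff_ALift (x : V) : W := (x 0)⁻¹ • (x 1, x 2)

open Classical in
/-- The homogeneous lift. -/
def lift_ALift (g : W → W) (x : V) : V :=
  if x 0 = 0 then x else x 0 • vec 1 (g (aff_ALift x))

theorem vec_aff_ALift {x : V} (h : x 0 ≠ 0) : x 0 • vec 1 (aff_ALift x) = x := by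
  ext a
  fin_cases a <;> simp [vec, aff_ALift, h]

theorem lift_vec_ALift (g : W → W) {c : ℂ} (hc : c ≠ 0) (y : W) :
    lift_ALift g (c • vec 1 y) = c • vec 1 (g y) := by
  have h0 : (c • vec 1 y) 0 = c := by simp [vec]
  have h1 : aff_ALift (c • vec 1 y) = y := by
    ext <;> simp [aff_ALift, vec, hc]
  rw [lift_ALift, h0, if_neg hc, h1]

theorem lift_zero_ALift (g : W → W) {x : V} (h : x 0 = 0) : lift_ALift g x = x := if_pos h

theorem lift_fix_ALift {g : W → W} {x : V} (h : x 0 ≠ 0 → g (aff_ALift x) = aff_ALift x) :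
    lift_ALift g x = x := by
  by_cases h0 : x 0 = 0
  · exact lift_zero_ALift g h0
  · rw [lift_ALift, if_neg h0, h h0, vec_aff_ALift h0]

theorem cases_ALift (x : V) : x 0 = 0 ∨ ∃ (c : ℂ) (y : W), c ≠ 0 ∧ x = c • vec 1 y := by
  by_cases h0 : x 0 = 0
  · exact Or.inl h0
  · exact Or.inr ⟨_, _, h0, (vec_aff_ALift h0).symm⟩

theorem cd_aff_ALift {x : V} (h : x 0 ≠ 0) : ContDiffAt ℝ ∞ aff_ALift x := by
  unfold aff_ALift
  have h1 : ContDiffAt ℝ ∞ (fun y : V => (y 0)⁻¹) x := ContDiffAt.inv (by fun_prop) h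
  exact h1.smul (by fun_prop)

theorem smooth_ALift {g : W → W} (hg : ContDiff ℝ ∞ g) (hs : ∀ z, 1000 ≤ nsq z → g z = z) :
    ContDiffOn ℝ ∞ (lift_ALift g) {0}ᶜ := by
  intro x hx
  refine ContDiffAt.contDiffWithinAt ?_
  by_cases h0 : x 0 = 0
  · have h1 : 1000 * ‖x 0‖ ^ 2 < ‖x 1‖ ^ 2 + ‖x 2‖ ^ 2 := by
      have h2 := nn_pos (show x ≠ 0 from hx)
      simpa [nn, Fin.sum_univ_three, h0] using h2
    have h2 : ∀ᶠ y : V in 𝓝 x, 1000 * ‖y 0‖ ^ 2 < ‖y 1‖ ^ 2 + ‖y 2‖ ^ 2 :=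
      ContinuousAt.eventually_lt (Continuous.continuousAt (by fun_prop))
        (Continuous.continuousAt (by fun_prop)) h1
    refine contDiffAt_id.congr_of_eventuallyEq (h2.mono fun y hy => lift_fix_ALift fun h => ?_)
    refine hs _ ?_
    have h3 : 0 < ‖y 0‖ ^ 2 := by positivity
    have h4 : nsq (aff_ALift y) = (‖y 1‖ ^ 2 + ‖y 2‖ ^ 2) / ‖y 0‖ ^ 2 := by
      simp only [nsq, aff_ALift, Prod.smul_mk, smul_eq_mul, norm_mul, norm_inv]
      field_simp
    rw [h4, le_div_iff₀ h3]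
    exact hy.le
  · have h1 : ∀ᶠ y : V in 𝓝 x, y 0 ≠ 0 := (continuous_apply 0).continuousAt.eventually_ne h0
    have h2 : ContDiff ℝ ∞ (vec 1) := by
      refine contDiff_pi.2 fun a => ?_
      fin_cases a <;> simp only [vec] <;> simp <;> fun_prop
    have h3 : ContDiffAt ℝ ∞ (fun y : V => y 0 • vec 1 (g (aff_ALift y))) x :=
      (contDiffAt_apply ℝ ℂ (0 : Fin 3) x).smul ((h2.comp hg).contDiffAt.comp x (cd_aff_ALift h0))
    exact h3.congr_of_eventuallyEq (h1.mono fun y hy => if_neg hy)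

theorem near_ALift {g : W → W} (hs : ∀ z, nsq z ≤ 1 / 100 → g z = z) :
    ∀ᶠ x in 𝓝 e0, lift_ALift g x = x := by
  have h1 : ContinuousAt aff_ALift e0 := (cd_aff_ALift (by simp [e0, vec])).continuousAt
  have h2 : Continuous nsq := by unfold nsq; fun_prop
  have h3 : ∀ᶠ x in 𝓝 e0, nsq (aff_ALift x) < 1 / 100 :=
    (h2.continuousAt.comp h1).eventually_lt_const (by simp [nsq, aff_ALift, e0, vec])
  exact h3.mono fun x hx => lift_fix_ALift fun _ => hs _ hx.le

theorem inv_ALift {g g' : W → W} (h : Function.LeftInverse g' g) (x : V) :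
    lift_ALift g' (lift_ALift g x) = x := by
  rcases cases_ALift x with h0 | ⟨c, y, hc, rfl⟩
  · rw [lift_zero_ALift g h0, lift_zero_ALift g' h0]
  · rw [lift_vec_ALift g hc, lift_vec_ALift g' hc, h]

theorem liftFS : LiftFStmt := by
  intro f f' hf sf sf' hl hr
  have hs : ∀ z, nsq z ≤ 1 / 100 ∨ 1000 ≤ nsq z → f' z = z := fun z hz => by
    conv_lhs => rw [← hf.supp z hz, hl]
  refine ⟨lift_ALift f, lift_ALift f', ⟨smooth_ALift sf fun z hz => hf.supp z (Or.inr hz),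
    smooth_ALift sf' fun z hz => hs z (Or.inr hz), inv_ALift hl, inv_ALift hr, fun c x => ?_⟩,
    fun k x => ?_, fun y => ?_, near_ALift fun z hz => hf.supp z (Or.inl hz),
    near_ALift fun z hz => hs z (Or.inl hz)⟩
  · rcases cases_ALift x with h0 | ⟨c', y, hc', rfl⟩
    · rw [lift_zero_ALift f h0, lift_zero_ALift f (by simp [h0])]
    · rcases eq_or_ne c 0 with rfl | hc
      · rw [zero_smul, zero_smul, lift_zero_ALift f rfl]
      · rw [smul_smul, lift_vec_ALift f (mul_ne_zero hc hc'), lift_vec_ALift f hc', smul_smul]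
  · rcases cases_ALift x with h0 | ⟨c, y, hc, rfl⟩
    · rw [lift_zero_ALift f h0, lift_zero_ALift f (by simp [hat, h0])]
    · rw [lift_vec_ALift f hc, (hdiff_hat k).hom, (hdiff_hat k).hom, hat_vec, hat_vec,
        lift_vec_ALift f hc, hf.equiv]
  · simpa using lift_vec_ALift f one_ne_zero y

end Pool.Agent.MP_2fc7fa_gt.N
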