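import Pool.Agent.MP_2fc7fa_gt.N.IfA

/-! Behaviour of a compact family of lines near the base point. -/

open scoped ContDiff ComplexConjugate Topology
open Set Complex Filter Metric

noncomputable section

namespace Pool.Agent.MP_2fc7fa_gt.N

theorem norm_ANear0 {X : V} {y : W} (hX : X ≠ 0) (h : pr X = pt y) :
    (X 0)⁻¹ • X = vec 1 y ∧ X = X 0 • vec 1 y := by
  have hv : vec 1 y ≠ 0 := fun e => by simpa [vec] using congrFun e 0
  obtain ⟨c, hc, rfl⟩ := exists_smul_of_pr_eq hX hv h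
  have e : (c • vec 1 y) 0 = c := by simp [vec]
  rw [e, inv_smul_smul₀ hc]
  exact ⟨rfl, rfl⟩

theorem small_ANear0 {X : V} {x : W} {r : ℝ} (h : X = X 0 • vec 1 x)
    (h1 : ‖X - e0‖ < min (1 / 2) (r / 2)) : ‖x‖ ≤ r := by
  have a0 : ‖X 0 - 1‖ < 1 / 2 := by
    have := (norm_le_pi_norm (X - e0) 0).trans_lt (h1.trans_le (min_le_left _ _))
    simpa [e0, vec] using this
  have b0 : 1 / 2 ≤ ‖X 0‖ := by
    have := norm_sub_norm_le (1 : ℂ) (X 0)
    rw [norm_sub_rev, norm_one] at this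
    linarith
  have a1 : ‖X 0‖ * ‖x.1‖ < r / 2 := by
    have := (norm_le_pi_norm (X - e0) 1).trans_lt (h1.trans_le (min_le_right _ _))
    rw [Pi.sub_apply, congrFun h 1] at this
    simpa [e0, vec] using this
  have a2 : ‖X 0‖ * ‖x.2‖ < r / 2 := by
    have := (norm_le_pi_norm (X - e0) 2).trans_lt (h1.trans_le (min_le_right _ _))
    rw [Pi.sub_apply, congrFun h 2] at this
    simpa [e0, vec] using this
  rw [Prod.norm_def]
  refine max_le ?_ ?_
  · nlinarith [norm_nonneg x.1]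
  · nlinarith [norm_nonneg x.2]

theorem tube_ANear0 {P : Type} [TopologicalSpace P] [CompactSpace P] {U : P → W → V}
    (h : JC {0}ᶜ U) (h0 : ∀ p, U p (1, 0) = e0) {ε : ℝ} (hε : 0 < ε) :
    ∃ τ : ℝ, 0 < τ ∧ ∀ (z : ℂ) p, ‖z‖ ≤ τ → ‖U p (1, z) - e0‖ < ε := by
  have hc : Continuous fun q : ℂ × P => U q.2 (1, q.1) :=
    ContinuousOn.comp_continuous (f := fun q : ℂ × P => (q.2, ((1 : ℂ), q.1))) h (by fun_prop)
      fun q => ⟨mem_univ _, fun e => one_ne_zero (congrArg Prod.fst e)⟩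
  have h1 : ∀ᶠ z : ℂ in 𝓝 0, ∀ p ∈ (univ : Set P), ‖U p (1, z) - e0‖ < ε := by
    refine isCompact_univ.eventually_forall_of_forall_eventually fun p _ => ?_
    have h2 : Continuous fun q : ℂ × P => ‖U q.2 (1, q.1) - e0‖ := (hc.sub continuous_const).norm
    refine h2.continuousAt.eventually_lt continuousAt_const ?_
    simpa [h0] using hε
  obtain ⟨τ, hτ, h2⟩ := Metric.eventually_nhds_iff.1 h1
  refine ⟨τ / 2, half_pos hτ, fun z p hz => h2 ?_ p (mem_univ _)⟩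
  rw [dist_zero_right]
  linarith

theorem near0S : Near0Stmt := by
  intro hC P _ _ Y hY r hr
  have hs : ∀ u : sphere (0 : W) 1, (u : W) ≠ 0 := fun u => ne_zero_of_mem_unit_sphere u
  have hF : Fam {0}ᶜ 1 V fun b : P × sphere (0 : W) 1 => Y b.1 b.2 :=
    hY.fam.param (g := fun b : P × sphere (0 : W) 1 => (b.1, (⟨b.2, hs b.2⟩ : ({0}ᶜ : Set W))))
      (by fun_prop)
  have hcos := cos_lt_one_37
  obtain ⟨δ, hδ, hch⟩ := hC (P × sphere (0 : W) 1) (fun b => Y b.1 b.2) (1, 0) (0, 1) hF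
    (fun b => hY.emb b.1 b.2 (hs b.2)) (by simp [det2])
    ((1 - Real.cos (2 * Real.pi / 37)) / 4) (by linarith) 1 one_pos
  obtain ⟨τ, hτ, ht⟩ := tube_ANear0 hF.jc (fun b => hY.base b.1 b.2 (hs b.2))
    (lt_min one_half_pos (half_pos hr))
  refine ⟨min δ τ, lt_min hδ hτ, fun p a x y l ha haτ hl hk hy => ?_⟩
  have hρ : 0 < ‖a‖ := norm_pos_iff.2 ha
  have hρ' : ((‖a‖ : ℝ) : ℂ) ≠ 0 := ofReal_ne_zero.2 hρ.ne'
  obtain ⟨u, hu⟩ : ∃ u : sphere (0 : W) 1, a = ((‖a‖ : ℝ) : ℂ) • (u : W) :=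
    ⟨⟨((‖a‖ : ℝ) : ℂ)⁻¹ • a, by
      rw [mem_sphere_zero_iff_norm, norm_smul, norm_inv, norm_real, norm_norm,
        inv_mul_cancel₀ hρ.ne']⟩, (smul_inv_smul₀ hρ' a).symm⟩
  generalize ‖a‖ = ρ at haτ hρ hρ' hu
  subst hu
  have hpar : ∀ c : ℂ, c ≠ 0 → Y p (c • (ρ : ℂ) • (u : W)) (1, 1) = Y p u (1, c * ρ) :=
    fun c hc => by rw [smul_smul, hY.par p u _ (hs u) (mul_ne_zero hc hρ')]
  have hne : ∀ z : ℂ, Y p u (1, z) ≠ 0 := fun z =>
    (hY.emb p u (hs u)).2.2 _ fun e => one_ne_zero (congrArg Prod.fst e)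
  have hn : ∀ k, ‖rt k * (ρ : ℂ)‖ = ρ := fun k => by
    rw [norm_mul, norm_rt, one_mul, norm_real, Real.norm_of_nonneg hρ.le]
  have hk' := fun k => norm_ANear0 (hne (rt k * ρ)) ((congrArg pr (hpar _ (rt_ne k))).symm.trans (hk k))
  have hl0 : (l : ℂ) ≠ 0 := ofReal_ne_zero.2 (by linarith)
  have hy' := norm_ANear0 (hne (l * ρ)) ((congrArg pr (hpar _ hl0)).symm.trans hy)
  refine ⟨?_, fun μ hμ e => ?_⟩
  · have h1 := small_ANear0 (hk' 0).2 (ht _ (p, u) ((hn 0).trans_le (haτ.trans (min_le_right _ _))))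
    rwa [rt_zero, one_smul] at h1
  · have hre := hμ.re_le
    obtain ⟨k₁, k₂, s, -, -, hs', hμ⟩ := hμ
    have eq : ∀ z : ℂ, ((1, 0) : W) + z • ((0, 1) : W) = (1, z) := fun z => by simp
    have h1 := hch (p, u) (ContinuousLinearMap.proj 0) (l * ρ) (rt k₁ * ρ) (rt k₂ * ρ) s
      (ContinuousLinearMap.opNorm_le_bound _ zero_le_one fun v => by
        simpa using norm_le_pi_norm v 0)
      (by simp [hY.base p u (hs u), e0, vec]) ((hn k₁).trans_le (haτ.trans (min_le_left _ _)))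
      ((hn k₂).trans_le (haτ.trans (min_le_left _ _))) hs' ⟨(Y p u (1, l * ρ) 0)⁻¹, by
        simp only [eq, ContinuousLinearMap.proj_apply]
        rw [hy'.1, (hk' k₁).1, (hk' k₂).1, e, hμ]
        ext i
        fin_cases i <;> simp [vec] <;> ring⟩
    have e1 : (l : ℂ) * ρ - (((1 - s : ℝ) : ℂ) * (rt k₁ * ρ) + s * (rt k₂ * ρ)) = (l - μ) * ρ := by
      rw [hμ]
      push_cast
      ring
    have h2 : ‖rt k₁ * (ρ : ℂ) - rt k₂ * ρ‖ ≤ 2 * ρ := by
      have := norm_sub_le (rt k₁ * (ρ : ℂ)) (rt k₂ * ρ)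
      rw [hn, hn] at this
      linarith
    have h3 : l - μ.re ≤ ‖(l : ℂ) - μ‖ := by
      simpa using re_le_norm ((l : ℂ) - μ)
    rw [e1, norm_mul, norm_real, Real.norm_of_nonneg hρ.le] at h1
    have h4 := mul_le_mul_of_nonneg_left h2
      (by linarith : 0 ≤ (1 - Real.cos (2 * Real.pi / 37)) / 4)
    have h5 := mul_le_mul_of_nonneg_right h3 hρ.le
    nlinarith

end Pool.Agent.MP_2fc7fa_gt.N
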