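import Pool.Agent.MP_2fc7fa_gt.N.IfA

/-! The behaviour of a compact family of lines near infinity. -/

open scoped ContDiff ComplexConjugate Topology
open Set Complex Filter Metric

noncomputable section

namespace Pool.Agent.MP_2fc7fa_gt.N

theorem vec_ne_ANearInf (y : W) : vec 1 y ≠ 0 := fun h => by simpa [vec] using congrFun h 0

theorem ne_ANearInf (z : ℂ) : ((z, 1) : W) ≠ 0 := fun h => one_ne_zero (congrArg Prod.snd h)

theorem low_ANearInf {P : Type} [TopologicalSpace P] [CompactSpace P] {U : P → W → V}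
    (hc : JC {0}ᶜ U) (hU : ∀ p, Hom1 (U p) ∧ IsEmb (U p) ∧ ∀ q, q ≠ 0 → U p q ≠ 0)
    (hb : ∀ p, U p (1, 0) = e0) : ∃ m : ℝ, 0 < m ∧ ∀ p, ∃ (j : Fin 3) (π : W →L[ℂ] ℂ),
      (∀ c y, vec c y j = π y) ∧ (∀ y, ‖π y‖ ≤ ‖y‖) ∧ m ≤ ‖U p (0, 1) j‖ := by
  have h1 : Continuous fun p => U p (0, 1) :=
    ContinuousOn.comp_continuous hc (f := fun p => (p, ((0, 1) : W))) (by fun_prop)
      fun p => ⟨mem_univ _, ne_ANearInf 0⟩
  have h2 : Continuous fun p => max ‖U p (0, 1) 1‖ ‖U p (0, 1) 2‖ := by fun_prop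
  obtain ⟨m, hm, h3⟩ := isCompact_univ.exists_forall_le' h2.continuousOn (a := 0) fun p _ => by
    by_contra h
    rw [not_lt, max_le_iff, norm_le_zero_iff, norm_le_zero_iff] at h
    have h4 : U p (0, 1) = U p (U p (0, 1) 0 • ((1, 0) : W)) := by
      rw [(hU p).1.2, hb]
      funext i
      fin_cases i <;> simp [e0, vec, h.1, h.2]
    have h5 : U p (0, 1) 0 ≠ 0 := fun h0 => (hU p).2.2 _ (ne_ANearInf 0) (by
      funext i
      fin_cases i <;> simp [h0, h.1, h.2])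
    have h6 := (hU p).2.1.inj (ne_ANearInf 0) (smul_ne_zero h5 (by simp)) h4
    simpa using congrArg Prod.snd h6
  refine ⟨m, hm, fun p => ?_⟩
  rcases le_max_iff.1 (h3 p trivial) with h | h
  · exact ⟨1, ContinuousLinearMap.fst ℂ ℂ ℂ, fun _ _ => rfl, fun y => norm_fst_le y, h⟩
  · exact ⟨2, ContinuousLinearMap.snd ℂ ℂ ℂ, fun _ _ => rfl, fun y => norm_snd_le y, h⟩

theorem tube_ANearInf {P : Type} [TopologicalSpace P] [CompactSpace P] {U : P → W → V}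
    (hc : JC {0}ᶜ U) {ε : ℝ} (hε : 0 < ε) :
    ∃ δ : ℝ, 0 < δ ∧ ∀ p (z : ℂ), ‖z‖ ≤ δ → ‖U p (z, 1) - U p (0, 1)‖ ≤ ε := by
  have h1 : Continuous fun a : ℂ × P => U a.2 (a.1, 1) :=
    ContinuousOn.comp_continuous hc (f := fun a : ℂ × P => (a.2, ((a.1, 1) : W))) (by fun_prop)
      fun a => ⟨mem_univ _, ne_ANearInf _⟩
  have h2 : Continuous fun a : ℂ × P => U a.2 (0, 1) :=
    h1.comp (f := fun a : ℂ × P => ((0 : ℂ), a.2)) (by fun_prop)
  have h3 := isCompact_univ.eventually_forall_of_forall_eventually (x₀ := (0 : ℂ))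
    (P := fun z p => ‖U p (z, 1) - U p (0, 1)‖ ≤ ε) fun p _ =>
      ((h1.sub h2).norm.tendsto (0, p)).eventually_le_const (by simpa using hε)
  obtain ⟨δ, hδ, h4⟩ := Metric.nhds_basis_closedBall.eventually_iff.1 h3
  exact ⟨δ, hδ, fun p z hz => h4 (mem_closedBall_zero_iff.2 hz) p trivial⟩

theorem one_sub_rt_ANearInf : 0 < ‖1 - rt 1‖ := by
  refine norm_pos_iff.2 fun h => ?_
  have h1 : Chord (rt 1) := ⟨1, 1, 0, by decide, by decide, ⟨le_rfl, zero_le_one⟩, by simp⟩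
  have h2 := h1.re_le.trans_lt cos_lt_one_37
  rw [← sub_eq_zero.1 h] at h2
  simp at h2

theorem nearInfS : NearInfStmt := by
  intro hC P _ _ Y hY r
  have hne : ∀ u : sphere (0 : W) 1, (u : W) ≠ 0 := fun u => ne_zero_of_mem_unit_sphere u
  have hF : Fam {0}ᶜ 1 V fun a : P × sphere (0 : W) 1 => Y a.1 a.2 :=
    hY.fam.param (g := fun a : P × sphere (0 : W) 1 => (a.1, (⟨a.2, hne a.2⟩ : ({0}ᶜ : Set W))))
      (by fun_prop)
  have hU := fun a : P × sphere (0 : W) 1 => hY.emb a.1 a.2 (hne a.2)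
  obtain ⟨m, hm, hlow⟩ := low_ANearInf hF.jc hU fun a => hY.base a.1 a.2 (hne a.2)
  have hs := one_sub_rt_ANearInf
  have hcos := cos_lt_one_37
  obtain ⟨ε, hε, hεm, hεr⟩ : ∃ ε : ℝ, 0 < ε ∧ ε < m ∧ ε * (2 + 2 * |r|) < ‖1 - rt 1‖ * m := by
    have h1 : 0 < 2 + 2 * |r| := by positivity
    refine ⟨min (m / 2) (‖1 - rt 1‖ * m / 2 / (2 + 2 * |r|)), by positivity,
      (min_le_left _ _).trans_lt (half_lt_self hm), ?_⟩
    refine (mul_le_mul_of_nonneg_right (min_le_right _ _) h1.le).trans_lt ?_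
    rw [div_mul_cancel₀ _ h1.ne']
    exact half_lt_self (by positivity)
  obtain ⟨δ₁, hδ₁, H₁⟩ := hC _ _ (0, 1) (1, 0) hF hU (by simp [det2])
    ((1 - Real.cos (2 * Real.pi / 37)) / 4) (by linarith) m hm
  obtain ⟨δ₂, hδ₂, H₂⟩ := tube_ANearInf hF.jc hε
  refine ⟨(min δ₁ δ₂)⁻¹, fun p b x y l hb hR hl0 hl1 hk hx => ?_⟩
  have ht : 0 < ‖b‖ := norm_pos_iff.2 hb
  have htc : (‖b‖ : ℂ) ≠ 0 := ofReal_ne_zero.2 ht.ne'
  have hδ : ‖b‖⁻¹ ≤ min δ₁ δ₂ := inv_le_of_inv_le₀ (lt_min hδ₁ hδ₂) hR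
  obtain ⟨u, hu⟩ : ∃ u : sphere (0 : W) 1, b = (‖b‖ : ℂ) • (u : W) :=
    ⟨⟨(‖b‖ : ℂ)⁻¹ • b, by
      rw [mem_sphere_zero_iff_norm, norm_smul, norm_inv, norm_real, norm_norm,
        inv_mul_cancel₀ ht.ne']⟩, (smul_inv_smul₀ htc b).symm⟩
  generalize ‖b‖ = t at ht htc hδ hu
  subst hu
  have key : ∀ (c : ℂ) (v : W), c ≠ 0 → pr (Y p (c • (t : ℂ) • (u : W)) (1, 1)) = pt v →
      ∃ e : ℂ, e ≠ 0 ∧ Y p u ((c * t)⁻¹, 1) = e • vec 1 v := by
    intro c v hc h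
    have hct := mul_ne_zero hc htc
    have e : ((1, c * t) : W) = (c * t) • (((c * t)⁻¹, 1) : W) := by
      rw [Prod.smul_mk, smul_eq_mul, smul_eq_mul, mul_inv_cancel₀ hct, mul_one]
    rw [smul_smul, hY.par p u _ (hne u) hct, e, (hU (p, u)).1.2, pr_smul hct] at h
    exact exists_smul_of_pr_eq ((hU (p, u)).2.2 _ (ne_ANearInf _)) (vec_ne_ANearInf v) h
  choose e he hek using fun k => key (rt k) _ (rt_ne k) (hk k)
  obtain ⟨e', he', hex⟩ := key l x (ofReal_ne_zero.2 hl0.ne') hx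
  obtain ⟨j, π, hj, hπ, hw⟩ := hlow (p, u)
  have hz : ∀ k, ‖(rt k * t)⁻¹‖ ≤ min δ₁ δ₂ := fun k => by
    rwa [norm_inv, norm_mul, norm_rt, one_mul, norm_real, Real.norm_of_nonneg ht.le]
  have hcl : ∀ k i, ‖e k * vec 1 (rt k • y) i - Y p u (0, 1) i‖ ≤ ε := fun k i => by
    have := H₂ (p, u) _ ((hz k).trans (min_le_right _ _))
    rw [hek] at this
    exact (norm_le_pi_norm (e k • vec 1 (rt k • y) - Y p u (0, 1)) i).trans this
  have hc0 : ∀ k, ‖e k - Y p u (0, 1) 0‖ ≤ ε := fun k => by simpa [vec] using hcl k 0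
  have hcj : ∀ k, ‖e k * (rt k * π y) - Y p u (0, 1) j‖ ≤ ε := fun k => by
    have := hcl k j
    rwa [hj, map_smul, smul_eq_mul] at this
  change m ≤ ‖Y p u (0, 1) j‖ at hw
  constructor
  · by_contra hr
    have h1 : ‖π y‖ ≤ |r| := (hπ y).trans ((not_le.1 hr).le.trans (le_abs_self r))
    have h2 : (1 - rt 1) * Y p u (0, 1) j = rt 1 * (e 0 * (rt 0 * π y) - Y p u (0, 1) j) -
        (e 1 * (rt 1 * π y) - Y p u (0, 1) j) +
        rt 1 * ((e 1 - Y p u (0, 1) 0) - (e 0 - Y p u (0, 1) 0)) * π y := by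
      rw [rt_zero]
      ring
    have h3 : ‖(1 - rt 1) * Y p u (0, 1) j‖ ≤ ε + ε + (ε + ε) * |r| := by
      rw [h2]
      refine norm_add_le_of_le (norm_sub_le_of_le ?_ (hcj 1)) ?_
      · rw [norm_mul, norm_rt, one_mul]
        exact hcj 0
      · rw [norm_mul, norm_mul, norm_rt, one_mul]
        exact mul_le_mul (norm_sub_le_of_le (hc0 1) (hc0 0)) h1 (norm_nonneg _) (by positivity)
    rw [norm_mul] at h3
    have h4 := mul_le_mul_of_nonneg_left hw hs.le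
    linarith
  · intro μ hμ hy
    have hre := hμ.re_le
    obtain ⟨k₁, k₂, v, -, -, hv, hμ⟩ := hμ
    have hπy : π y ≠ 0 := fun h0 => by
      have := hcj 0
      rw [h0, mul_zero, mul_zero, zero_sub, norm_neg] at this
      linarith
    have hq : ∀ z : ℂ, ((0, 1) : W) + z • ((1, 0) : W) = (z, 1) := fun z => by simp
    have hn : ∀ k, ((ContinuousLinearMap.proj j : V →L[ℂ] ℂ) (Y p u ((rt (-k) * t)⁻¹, 1)))⁻¹ •
        Y p u ((rt (-k) * t)⁻¹, 1) = (π y)⁻¹ • vec (rt k) y := fun k => by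
      have h1 : vec 1 (rt (-k) • y) = rt (-k) • vec (rt k) y := by
        funext i
        fin_cases i <;> simp [vec, mul_comm (rt (-k)) (rt k), rt_mul_neg]
      rw [hek, ContinuousLinearMap.proj_apply, Pi.smul_apply, hj, map_smul, h1, smul_smul,
        smul_smul, smul_eq_mul, smul_eq_mul]
      congr 1
      have := he (-k)
      have := rt_ne (-k)
      field_simp
    have h1 := H₁ (p, u) (ContinuousLinearMap.proj j) (l * t)⁻¹ (rt (-k₁) * t)⁻¹ (rt (-k₂) * t)⁻¹ v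
      (ContinuousLinearMap.opNorm_le_bound _ zero_le_one fun a => by
        rw [one_mul]
        exact norm_le_pi_norm a j) hw ((hz _).trans (min_le_left _ _))
      ((hz _).trans (min_le_left _ _)) hv ⟨(π y)⁻¹ * μ * e'⁻¹, by
        rw [hq, hq, hq]
        change _ • Y p u _ = _ • _ • Y p u _ + _ • _ • Y p u _
        rw [hn, hn, hex, smul_smul, mul_assoc, inv_mul_cancel₀ he', mul_one, smul_comm _ (π y)⁻¹,
          smul_comm _ (π y)⁻¹, ← smul_add, mul_smul]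
        congr 1
        rw [hy]
        funext i
        fin_cases i
        · simp [vec, hμ]
        · simp [vec]
          ring
        · simp [vec]
          ring⟩
    have hi : ∀ k, (rt (-k) * t)⁻¹ = rt k * (t : ℂ)⁻¹ := fun k => by
      rw [mul_inv, inv_eq_of_mul_eq_one_left (rt_mul_neg k)]
    have h2 : ((l : ℂ) * t)⁻¹ - (((1 - v : ℝ) : ℂ) * (rt k₁ * (t : ℂ)⁻¹) + v * (rt k₂ * (t : ℂ)⁻¹)) =
        (((l⁻¹ : ℝ) : ℂ) - μ) * (t : ℂ)⁻¹ := by
      rw [hμ]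
      push_cast
      ring
    rw [hi, hi, h2, ← sub_mul, norm_mul, norm_mul, ← mul_assoc] at h1
    have h3 := le_of_mul_le_mul_right h1 (norm_pos_iff.2 (inv_ne_zero htc))
    have h4 : ‖rt k₁ - rt k₂‖ ≤ 1 + 1 := norm_sub_le_of_le (norm_rt k₁).le (norm_rt k₂).le
    have h5 := re_le_norm (((l⁻¹ : ℝ) : ℂ) - μ)
    rw [sub_re, ofReal_re] at h5
    have h6 : 1 < l⁻¹ := (one_lt_inv₀ hl0).2 hl1
    have h7 := mul_le_mul_of_nonneg_left h4
      (show 0 ≤ (1 - Real.cos (2 * Real.pi / 37)) / 4 by linarith)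
    linarith

end Pool.Agent.MP_2fc7fa_gt.N
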