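import Pool.Agent.MP_2fc7fa_gt.N.IfA

/-! Pull-back of symplectic forms by a homogeneous diffeomorphism. -/

open scoped ContDiff ComplexConjugate Topology
open Set Complex Filter Metric

noncomputable section

namespace Pool.Agent.MP_2fc7fa_gt.N

/-- A covector as a one-form. -/
def r1_APull : (V →L[ℝ] ℝ) →L[ℝ] V [⋀^Fin 1]→L[ℝ] ℝ :=
  (ContinuousAlternatingMap.ofSubsingletonLIE (𝕜 := ℝ) (E := V) (F := ℝ)
    (0 : Fin 1)).toContinuousLinearEquiv.toContinuousLinearMap

theorem r1_apply_APull (l : V →L[ℝ] ℝ) (v : Fin 1 → V) : r1_APull l v = l (v 0) := rfl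

/-- The skew part of a bilinear map as a two-form. -/
def r2_APull : Bil →L[ℝ] V [⋀^Fin 2]→L[ℝ] ℝ :=
  (1 / 2 : ℝ) • (ContinuousAlternatingMap.alternatizeUncurryFinCLM (n := 1) ℝ V ℝ).comp
    (ContinuousLinearMap.compL ℝ V _ _ r1_APull)

theorem r2_apply_APull (B : Bil) (v : Fin 2 → V) :
    r2_APull B v = (1 / 2 : ℝ) * (B (v 0) (v 1) - B (v 1) (v 0)) := by
  have : r2_APull B v = (1 / 2 : ℝ) *
      (ContinuousAlternatingMap.alternatizeUncurryFin (r1_APull.comp B)) v := rfl
  rw [this, ContinuousAlternatingMap.alternatizeUncurryFin_apply]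
  simp [Fin.sum_univ_two, r1_apply_APull, Fin.removeNth, sub_eq_add_neg]

theorem contDiff1_APull : ContDiff ℝ ∞
    fun q : (V [⋀^Fin 1]→L[ℝ] ℝ) × Op => q.1.compContinuousLinearMap q.2 := by
  have e : (fun q : (V [⋀^Fin 1]→L[ℝ] ℝ) × Op => q.1.compContinuousLinearMap q.2) =
      fun q => r1_APull ((linL q.1).comp q.2) := by
    funext q
    ext v
    rw [ContinuousAlternatingMap.compContinuousLinearMap_apply, eq_linL, r1_apply_APull]
    rfl
  rw [e]
  exact r1_APull.contDiff.comp ((linL.contDiff.comp contDiff_fst).clm_comp contDiff_snd)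

/-- Exchange of the two arguments. -/
def fl_APull : Bil →L[ℝ] Bil :=
  LinearMap.toContinuousLinearMap
    { toFun := fun B => B.flip
      map_add' := fun B C => ContinuousLinearMap.flip_add B C
      map_smul' := fun c B => ContinuousLinearMap.flip_smul c B }

theorem fl_apply_APull (B : Bil) (u v : V) : fl_APull B u v = B v u := rfl

theorem contDiff2_APull : ContDiff ℝ ∞
    fun q : (V [⋀^Fin 2]→L[ℝ] ℝ) × Op => q.1.compContinuousLinearMap q.2 := by
  have e : (fun q : (V [⋀^Fin 2]→L[ℝ] ℝ) × Op => q.1.compContinuousLinearMap q.2) =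
      fun q => r2_APull (fl_APull ((fl_APull ((bilL q.1).comp q.2)).comp q.2)) := by
    funext q
    ext v
    rw [ContinuousAlternatingMap.compContinuousLinearMap_apply, eq_bilL, r2_apply_APull]
    have := bilL_skew q.1 (q.2 (v 1)) (q.2 (v 0))
    simp only [fl_apply_APull, ContinuousLinearMap.comp_apply, Function.comp_apply]
    linarith
  rw [e]
  have hf : ContDiff ℝ ∞ fun B : Bil => fl_APull B :=
    ContinuousLinearMap.contDiff (𝕜 := ℝ) (E := Bil) (F := Bil) fl_APull
  have hr : ContDiff ℝ ∞ fun B : Bil => r2_APull B :=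
    ContinuousLinearMap.contDiff (𝕜 := ℝ) (E := Bil) (F := V [⋀^Fin 2]→L[ℝ] ℝ) r2_APull
  have h1 : ContDiff ℝ ∞ fun q : (V [⋀^Fin 2]→L[ℝ] ℝ) × Op => ((bilL q.1).comp q.2 : Bil) :=
    (bilL.contDiff.comp contDiff_fst).clm_comp contDiff_snd
  have h2 : ContDiff ℝ ∞ fun q : (V [⋀^Fin 2]→L[ℝ] ℝ) × Op =>
      ((fl_APull ((bilL q.1).comp q.2)).comp q.2 : Bil) := (hf.comp h1).clm_comp contDiff_snd
  exact hr.comp (hf.comp h2)

open Classical in
/-- The pull-back of a form, normalised to `0` at the origin. -/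
def pbk_APull {k : ℕ} (F : V → V) (α : Form k) : Form k := fun x =>
  if x = 0 then 0 else (α (F x)).compContinuousLinearMap (fderiv ℝ F x)

theorem pbk_ne_APull {k : ℕ} (F : V → V) (α : Form k) {x : V} (hx : x ≠ 0) :
    pbk_APull F α x = (α (F x)).compContinuousLinearMap (fderiv ℝ F x) := if_neg hx

theorem pbk_zero_APull {k : ℕ} (F : V → V) (α : Form k) : pbk_APull F α 0 = 0 := if_pos rfl

theorem sm_pbk_APull {k : ℕ} {F F' : V → V} (h : HDiff F F')
    (hk : ContDiff ℝ ∞ fun q : (V [⋀^Fin k]→L[ℝ] ℝ) × Op => q.1.compContinuousLinearMap q.2)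
    {P : Type} [TopologicalSpace P] {α : P → Form k} (hα : Sm {0}ᶜ α) :
    Sm {0}ᶜ fun p => pbk_APull F (α p) := by
  have hU : IsOpen ({0}ᶜ : Set V) := isOpen_compl_singleton
  have hF : Sm {0}ᶜ fun _ : P => F := sm_of_contDiffOn hU.uniqueDiffOn h.smooth
  exact (((hα.comp hF fun _ x hx => h.ne hx).prod (hF.fderiv hU)).post' hk).congr
    fun p x hx => pbk_ne_APull F (α p) hx

theorem cdo_pbk_APull {k : ℕ} {F F' : V → V} (h : HDiff F F')
    (hk : ContDiff ℝ ∞ fun q : (V [⋀^Fin k]→L[ℝ] ℝ) × Op => q.1.compContinuousLinearMap q.2)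
    {α : Form k} (hα : ContDiffOn ℝ ∞ α {0}ᶜ) : ContDiffOn ℝ ∞ (pbk_APull F α) {0}ᶜ :=
  (sm_pbk_APull h hk (sm_of_contDiffOn (P := Unit) isOpen_compl_singleton.uniqueDiffOn
    hα)).contDiffOn isOpen_compl_singleton.uniqueDiffOn ()

theorem scale_pbk_APull {k : ℕ} {F F' : V → V} (h : HDiff F F') {α : Form k}
    (hα : ∀ c : ℂ, c ≠ 0 → ∀ z v, α (c • z) (c • v) = α z v) (c : ℂ) (hc : c ≠ 0) (z : V)
    (v : Fin k → V) : pbk_APull F α (c • z) (c • v) = pbk_APull F α z v := by
  rcases eq_or_ne z 0 with rfl | hz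
  · simp [pbk_zero_APull]
  · rw [pbk_ne_APull F α hz, pbk_ne_APull F α (smul_ne_zero hc hz),
      ContinuousAlternatingMap.compContinuousLinearMap_apply,
      ContinuousAlternatingMap.compContinuousLinearMap_apply, h.hom, ← hα c hc (F z)]
    congr 1
    funext i
    exact h.fderiv_scale hz hc (v i)

theorem isForm_pbk_APull {k : ℕ} {F F' : V → V} (h : HDiff F F')
    (hk : ContDiff ℝ ∞ fun q : (V [⋀^Fin k]→L[ℝ] ℝ) × Op => q.1.compContinuousLinearMap q.2)
    {α : Form k} (hα : IsForm α) : IsForm (pbk_APull F α) := by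
  refine ⟨cdo_pbk_APull h hk hα.smooth, scale_pbk_APull h hα.scale, fun z v i c hv => ?_,
    pbk_zero_APull F α⟩
  rcases eq_or_ne z 0 with rfl | hz
  · simp [pbk_zero_APull]
  · rw [pbk_ne_APull F α hz, ContinuousAlternatingMap.compContinuousLinearMap_apply]
    refine hα.horiz _ _ i c ?_
    rw [Function.comp_apply, hv, h.fderiv_vert hz]

theorem ext_pbk_APull {k : ℕ} {F F' : V → V} (h : HDiff F F') {α : Form k}
    (hα : ContDiffOn ℝ ∞ α {0}ᶜ) {z : V} (hz : z ≠ 0) :
    extDeriv (pbk_APull F α) z = (extDeriv α (F z)).compContinuousLinearMap (fderiv ℝ F z) := by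
  have h1 : DifferentiableAt ℝ α (F z) :=
    (hα.contDiffAt (isOpen_compl_singleton.mem_nhds (h.ne hz))).differentiableAt (by simp)
  rw [← extDeriv_pullback h1 ((h.cdAt hz).of_le (m := 2) (WithTop.coe_le_coe.2 le_top)) (by simp)]
  exact EventuallyEq.extDeriv_eq
    (mem_of_superset (isOpen_compl_singleton.mem_nhds hz) fun y hy => pbk_ne_APull F α hy)

theorem theta_scale_APull (c : ℂ) (hc : c ≠ 0) (z : V) (v : Fin 1 → V) :
    theta (c • z) (c • v) = theta z v := by
  have h := inv_theta.lin (c := c) (a := 1) (b := 0) hc (by simp) z (v 0)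
  rw [act_one, act_one] at h
  rw [eq_linL, eq_linL]
  exact h

theorem theta_zero_APull : theta 0 = 0 := by
  ext v
  rw [eq_linL, linL_theta]
  simp [her]

/-- The difference between the connection form and its pull-back. -/
theorem isForm_diff_APull {F F' : V → V} (h : HDiff F F') :
    IsForm (pbk_APull F theta - theta) := by
  refine ⟨(cdo_pbk_APull h contDiff1_APull contDiffOn_theta).sub contDiffOn_theta,
    fun c hc z v => ?_, fun z v i c hv => ?_, ?_⟩
  · simp only [Pi.sub_apply, ContinuousAlternatingMap.sub_apply]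
    rw [scale_pbk_APull h theta_scale_APull c hc, theta_scale_APull c hc]
  · rcases eq_or_ne z 0 with rfl | hz
    · simp [pbk_zero_APull, theta_zero_APull]
    · obtain rfl : i = 0 := Subsingleton.elim _ _
      simp only [Pi.sub_apply, ContinuousAlternatingMap.sub_apply]
      rw [pbk_ne_APull F theta hz, ContinuousAlternatingMap.compContinuousLinearMap_apply, eq_linL,
        eq_linL, Function.comp_apply, hv, h.fderiv_vert hz, theta_horiz c (h.ne hz),
        theta_horiz c hz, sub_self]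
  · simp [pbk_zero_APull, theta_zero_APull]

theorem isForm_add_APull {α β : Form 1} (hα : IsForm α) (hβ : IsForm β) : IsForm (α + β) := by
  refine ⟨hα.smooth.add hβ.smooth, fun c hc z v => ?_, fun z v i c hv => ?_, ?_⟩
  · simp only [Pi.add_apply, ContinuousAlternatingMap.add_apply]
    rw [hα.scale c hc, hβ.scale c hc]
  · simp only [Pi.add_apply, ContinuousAlternatingMap.add_apply]
    rw [hα.horiz z v i c hv, hβ.horiz z v i c hv, add_zero]
  · simp [hα.zero, hβ.zero]

/-- The pull-back of a symplectic form. -/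
def pb_APull {F F' : V → V} (h : HDiff F F') (σ : Symp 1) : Symp 1 where
  form := pbk_APull F σ.form
  isForm := isForm_pbk_APull h contDiff2_APull σ.isForm
  closed := fun z hz => by
    rw [ext_pbk_APull h σ.isForm.smooth hz, σ.closed _ (h.ne hz)]
    ext v
    simp
  nondeg := fun z hz => by
    obtain ⟨a, b, c, d, hn⟩ := σ.nondeg (F z) (h.ne hz)
    have key : ∀ u v : V, pbk_APull F σ.form z ![fderiv ℝ F' (F z) u, fderiv ℝ F' (F z) v] =
        σ.form (F z) ![u, v] := fun u v => by
      rw [pbk_ne_APull F _ hz, ContinuousAlternatingMap.compContinuousLinearMap_apply, eq_bilL,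
        ← bilL_apply]
      simp only [Function.comp_apply, Matrix.cons_val_zero, Matrix.cons_val_one, h.chain' hz]
    refine ⟨fderiv ℝ F' (F z) a, fderiv ℝ F' (F z) b, fderiv ℝ F' (F z) c, fderiv ℝ F' (F z) d, ?_⟩
    simpa only [key] using hn
  cls := by
    obtain ⟨α, hα, hc⟩ := σ.cls
    refine ⟨(pbk_APull F theta - theta) + pbk_APull F α,
      isForm_add_APull (isForm_diff_APull h) (isForm_pbk_APull h contDiff1_APull hα),
      fun z hz => ?_⟩
    have hd : ∀ {β : Form 1}, ContDiffOn ℝ ∞ β {0}ᶜ → DifferentiableAt ℝ β z := fun hβ =>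
      (hβ.contDiffAt (isOpen_compl_singleton.mem_nhds hz)).differentiableAt (by simp)
    have h1 := hd (isForm_diff_APull h).smooth
    have h2 := hd (isForm_pbk_APull h contDiff1_APull hα).smooth
    have h3 := extDeriv_add h1 (hd contDiffOn_theta)
    rw [sub_add_cancel, ext_pbk_APull h contDiffOn_theta hz] at h3
    rw [extDeriv_add h1 h2, ext_pbk_APull h hα.smooth hz, one_smul, ← add_assoc,
      add_comm (extDeriv theta z), ← h3, pbk_ne_APull F _ hz, hc _ (h.ne hz), one_smul]
    ext v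
    simp

theorem pullS : PullStmt := by
  intro F F' h
  refine ⟨pb_APull h, continuous_symp_iff.2 (sm_pbk_APull h contDiff2_APull
    (continuous_symp_iff.1 continuous_id)), fun σ x hx u v => ?_⟩
  change pbk_APull F σ.form x ![u, v] = _
  rw [pbk_ne_APull F _ hx, ContinuousAlternatingMap.compContinuousLinearMap_apply, eq_bilL,
    ← bilL_apply]
  rfl

end Pool.Agent.MP_2fc7fa_gt.N
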