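import Pool.Agent.MP_2fc7fa_gt.N.IfA

/-! The standard form, and the scaling of the cohomology class. -/

open scoped ContDiff ComplexConjugate Topology
open Set Complex Filter Metric

noncomputable section

namespace Pool.Agent.MP_2fc7fa_gt.N

lemma deriv_AStd {x : V} (hx : x ≠ 0) (u v : V) : linL (fderiv ℝ theta x u) v =
    (nn x)⁻¹ * (her u v).im - (nn x)⁻¹ ^ 2 * (2 * (her x u).re) * (her x v).im := by
  have h0 := (nn_pos hx).ne'
  have h1 : HasDerivAt (fun t : ℝ => x + t • u) u 0 := by
    simpa using ((hasDerivAt_id' (0 : ℝ)).smul_const u).const_add x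
  have h2 := hasDerivAt_lin (β := theta) (by
    simpa using (contDiffOn_theta.contDiffAt
      (isOpen_compl_singleton.mem_nhds hx)).differentiableAt (by simp)) h1 (hasDerivAt_const 0 v)
  have e : (fun t : ℝ => linL (theta (x + t • u)) v) = fun t =>
      (nn x + t * (2 * (her x u).re) + t * t * nn u)⁻¹ * ((her x v).im + t * (her u v).im) := by
    funext t
    rw [linL_theta]
    congr 1
    · congr 1
      simp [nn, her, Fin.sum_univ_three, Complex.sq_norm, normSq_apply]
      ring
    · simp [her, Fin.sum_univ_three]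
      ring
  have h3 := (((((hasDerivAt_id' (0 : ℝ)).mul_const (2 * (her x u).re)).const_add (nn x)).fun_add
    (((hasDerivAt_id' (0 : ℝ)).fun_mul (hasDerivAt_id' 0)).mul_const (nn u))).fun_inv
    (by simpa using h0)).fun_mul
    (((hasDerivAt_id' (0 : ℝ)).mul_const (her u v).im).const_add (her x v).im)
  rw [e] at h2
  have h4 := h2.unique h3
  simp only [zero_smul, add_zero, map_zero, zero_mul, mul_zero, one_mul] at h4
  rw [h4]
  field_simp
  ring

lemma form_AStd {x : V} (hx : x ≠ 0) (u v : V) : dd theta x ![u, v] = omS (g1 x) x u v := by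
  rw [← bilL_apply, dd_of_ne _ hx, bilL_extDeriv, deriv_AStd hx, deriv_AStd hx, omS]
  simp only [g1_apply]
  simp [her, Fin.sum_univ_three]
  ring

theorem stdFS : StdFStmt := by
  have hU : IsOpen ({0}ᶜ : Set V) := isOpen_compl_singleton
  refine ⟨⟨dd theta, ⟨(sm_dd (sm_of_contDiffOn (P := Unit) hU.uniqueDiffOn
    contDiffOn_theta)).contDiffOn hU.uniqueDiffOn (), (inv_iff.1 good_theta.inv).1,
    fun z v i c h => ?_, if_pos rfl⟩, good_theta.closed, fun x hx => ?_, 0,
    ⟨contDiffOn_const, fun _ _ _ _ => rfl, fun _ _ _ _ _ => rfl, rfl⟩, fun z hz => ?_⟩,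
    fun x hx => form_AStd hx⟩
  · rw [eq_bilL]
    fin_cases i
    · exact (congrArg (bilL _ · _) h).trans (good_theta.horiz z c _)
    · rw [bilL_skew, neg_eq_zero]
      exact (congrArg (bilL _ · _) h).trans (good_theta.horiz z c _)
  · by_contra! h
    have h0 := h ![1, 0, 0] ![I, 0, 0] ![0, 1, 0] ![0, I, 0]
    have h1 := h ![1, 0, 0] ![I, 0, 0] ![0, 0, 1] ![0, 0, I]
    have h2 := h ![0, 1, 0] ![0, I, 0] ![0, 0, 1] ![0, 0, I]
    have h3 := inv_mul_cancel₀ (nn_pos hx).ne'
    have h4 := inv_ne_zero (nn_pos hx).ne'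
    simp only [form_AStd hx, omS, g1_apply] at h0 h1 h2
    generalize hN : (nn x)⁻¹ = N at h0 h1 h2 h3 h4
    simp [her, Fin.sum_univ_three] at h0 h1 h2
    simp only [nn, Fin.sum_univ_three, Complex.sq_norm, normSq_apply] at h3
    exact pow_ne_zero 2 h4 (by linear_combination (h0 + h1 + h2) / 4 + 2 * N ^ 2 * h3)
  · rw [dd_of_ne _ hz, one_smul, ← zero_smul ℝ theta, extDeriv_smul, zero_smul, add_zero]

lemma isForm_AStd {k : ℕ} {α : Form k} (h : IsForm α) (c : ℝ) : IsForm (c • α) :=
  ⟨h.smooth.const_smul c, fun a ha z v => congrArg (c * ·) (h.scale a ha z v),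
    fun z v i a e => (congrArg (c * ·) (h.horiz z v i a e)).trans (mul_zero c),
    (congrArg (c • ·) h.zero).trans (smul_zero c)⟩

/-- Multiplication of a form by a constant. -/
def sc_AStd {l l' c : ℝ} (hc : c ≠ 0) (h : l' = c * l) (σ : Symp l) : Symp l' where
  form := c • σ.form
  isForm := isForm_AStd σ.isForm c
  closed := fun z hz => by rw [extDeriv_smul, σ.closed z hz, smul_zero]
  nondeg := fun z hz => by
    obtain ⟨a, b, d, e, h1⟩ := σ.nondeg z hz
    refine ⟨a, b, d, e, fun h2 => h1 (mul_left_cancel₀ (pow_ne_zero 2 hc) ?_)⟩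
    simp only [Pi.smul_apply, ContinuousAlternatingMap.smul_apply, smul_eq_mul] at h2
    linear_combination h2
  cls := by
    obtain ⟨α, h1, h2⟩ := σ.cls
    exact ⟨c • α, isForm_AStd h1 c, fun z hz => by
      rw [Pi.smul_apply, h2 z hz, extDeriv_smul, smul_add, smul_smul, h]⟩

lemma cont_AStd {l l' c : ℝ} (hc : c ≠ 0) (h : l' = c * l) : Continuous (sc_AStd hc h) :=
  continuous_symp_iff.2
    ((sm_const (c := fun _ => c) continuous_const).smul (continuous_symp_iff.1 continuous_id))

theorem scaleS : ScaleStmt := by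
  intro l hl _
  exact Homeomorph.contractibleSpace (Y := Symp l)
    { toFun := sc_AStd hl (mul_one l).symm
      invFun := sc_AStd (inv_ne_zero hl) (inv_mul_cancel₀ hl).symm
      left_inv := fun σ => Symp.ext' fun x _ u v => inv_mul_cancel_left₀ hl _
      right_inv := fun σ => Symp.ext' fun x _ u v => mul_inv_cancel_left₀ hl _
      continuous_toFun := cont_AStd _ _
      continuous_invFun := cont_AStd _ _ }

end Pool.Agent.MP_2fc7fa_gt.N
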