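import Pool.Agent.MP_2fc7fa_gt.N.IfI

/-! The abstract implicit function theorem, the cut-off functions and chart covariance. -/

open scoped ContDiff ComplexConjugate Topology NNReal
open Set Filter Metric

namespace Pool.Agent.MP_2fc7fa_gt.N

theorem absS : AbsStmt := by
  intro X _ _ _ P _ F K p₀ hK hinj h0 happ ⟨δ', hδ', hcont⟩ δ₁ hδ₁
  obtain ⟨u, hu⟩ : IsUnit (algebraMap ℝ (X →L[ℝ] X) (-1) - K) := by
    refine (hK.hasEigenvalue_or_mem_resolventSet (μ := -1) (by norm_num)).resolve_left fun h => ?_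
    obtain ⟨x, hx⟩ := h.exists_hasEigenvector
    refine hx.2 (hinj x ?_)
    have h1 : K x = (-1 : ℝ) • x := hx.apply_eq_smul
    rw [h1, neg_one_smul, add_neg_cancel]
  have hL : (1 + K : X →L[ℝ] X) = -u := by
    rw [hu, map_neg, map_one]
    abel
  obtain ⟨R, hR1, hR2⟩ : ∃ R : X →L[ℝ] X, (1 + K) * R = 1 ∧ R * (1 + K) = 1 :=
    ⟨-(u⁻¹ : (X →L[ℝ] X)ˣ), by simp [hL], by simp [hL]⟩
  obtain ⟨C, hC, hb⟩ : ∃ C : ℝ≥0, 0 < C ∧ ∀ y, ‖R y‖ ≤ C * ‖y‖ :=
    ⟨‖R‖₊ + 1, by positivity, fun y => (R.le_opNorm y).trans (by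
      push_cast
      nlinarith [norm_nonneg y])⟩
  have hC' : (0 : ℝ) < C := hC
  obtain ⟨δ₀, hδ₀, hA⟩ := happ ((C : ℝ)⁻¹ / 2) (by positivity)
  obtain ⟨δ, hδ, d0, d1, d2⟩ : ∃ δ : ℝ, 0 < δ ∧ δ ≤ δ₀ ∧ δ ≤ δ' ∧ δ ≤ δ₁ :=
    ⟨min δ₀ (min δ' δ₁), by positivity, min_le_left _ _,
      (min_le_right _ _).trans (min_le_left _ _), (min_le_right _ _).trans (min_le_right _ _)⟩
  have hS : ∀ᶠ p in 𝓝 p₀, ‖F p 0‖ < (C : ℝ)⁻¹ / 2 * (δ / 2) :=
    (hcont.self_of_nhds 0 (mem_ball_self hδ')).norm.eventually_lt continuousAt_const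
      (by rw [h0, norm_zero]; positivity)
  obtain ⟨N, hN, hN'⟩ := (hA.and (hcont.and hS)).exists_mem
  have low : ∀ p ∈ N, ∀ x ∈ ball (0 : X) δ, ∀ x' ∈ ball (0 : X) δ,
      ‖x - x'‖ ≤ 2 * C * ‖F p x - F p x'‖ := fun p hp x hx x' hx' => by
    have h1 := (hN' p hp).1 x (ball_subset_ball d0 hx) x' (ball_subset_ball d0 hx')
    have h2 : R (x - x' + K (x - x')) = x - x' := congrArg (fun T : X →L[ℝ] X => T (x - x')) hR2
    have h3 := hb (x - x' + K (x - x'))
    have h4 := norm_sub_norm_le (x - x' + K (x - x')) (F p x - F p x')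
    rw [h2] at h3
    rw [norm_sub_rev] at h1
    have h5 := mul_le_mul_of_nonneg_left (h4.trans h1) hC'.le
    rw [← mul_assoc, ← mul_div_assoc, mul_inv_cancel₀ hC'.ne'] at h5
    linarith
  have ex : ∀ p, ∃ x, p ∈ N → x ∈ ball (0 : X) δ ∧ F p x = 0 := fun p => by
    by_cases hp : p ∈ N
    · have h1 : ApproximatesLinearOn (F p) (1 + K) (ball 0 δ₀) (C⁻¹ / 2) := fun x hx y hy => by
        simpa using (hN' p hp).1 x hx y hy
      obtain ⟨x, hx, e⟩ := h1.surjOn_closedBall_of_nonlinearRightInverse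
        ⟨R, C, hb, fun y => congrArg (fun T : X →L[ℝ] X => T y) hR1⟩ (ε := δ / 2) (b := 0)
        (by positivity) (closedBall_subset_ball (by linarith)) (a := 0) (by
          rw [mem_closedBall, dist_zero_left]
          refine (hN' p hp).2.2.le.trans (le_of_eq ?_)
          push_cast
          ring)
      exact ⟨x, fun _ => ⟨closedBall_subset_ball (by linarith) hx, e⟩⟩
    · exact ⟨0, fun h => (hp h).elim⟩
  choose s hs using ex
  have un : ∀ p ∈ N, ∀ x ∈ ball (0 : X) δ, F p x = 0 → x = s p := fun p hp x hx e => by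
    have h1 := low p hp x hx _ (hs p hp).1
    rw [e, (hs p hp).2, sub_self, norm_zero, mul_zero] at h1
    exact sub_eq_zero.1 (norm_le_zero_iff.1 h1)
  refine ⟨δ, hδ, d2, N, hN, s, fun p hp => ?_,
    (un p₀ (mem_of_mem_nhds hN) 0 (mem_ball_self hδ) h0).symm,
    fun p hp => ⟨(hs p hp).1, (hs p hp).2, un p hp⟩⟩
  refine tendsto_iff_norm_sub_tendsto_zero.2 (squeeze_zero' (g := fun p' => 2 * C * ‖F p' (s p)‖)
    (Eventually.of_forall fun _ => norm_nonneg _) (eventually_nhdsWithin_of_forall fun p' hp' => ?_)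
    ?_)
  · have h1 := low p' hp' _ (hs p' hp').1 _ (hs p hp).1
    rwa [(hs p' hp').2, zero_sub, norm_neg] at h1
  · have h1 := (((hN' p hp).2.1 (s p) (ball_subset_ball d1 (hs p hp).1)).norm.const_mul
      (2 * C : ℝ)).tendsto.mono_left (nhdsWithin_le_nhds (s := N))
    simpa [(hs p hp).2] using h1

theorem bumpS : BumpStmt := by
  have hn : ContDiff ℝ ∞ fun z : ℂ => ‖z‖ ^ 2 := contDiff_norm_sq ℝ
  refine ⟨⟨fun z => Real.smoothTransition (2 / (‖z‖ ^ 2 + 1) - 1 / 2),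
    fun z => Real.smoothTransition ((9 - ‖z‖ ^ 2) / 5), Real.smoothTransition.contDiff.comp
      ((contDiff_const.div (hn.add contDiff_const) fun z => by positivity).sub contDiff_const),
    Real.smoothTransition.contDiff.comp ((contDiff_const.sub hn).div_const _), fun z hz => ?_,
    fun z hz => Real.smoothTransition.one_of_one_le ?_,
    fun z hz => Real.smoothTransition.zero_of_nonpos ?_,
    fun z hz => Real.smoothTransition.one_of_one_le ?_,
    fun z hz => Real.smoothTransition.zero_of_nonpos ?_⟩⟩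
  · have h0 : ‖z‖ ≠ 0 := norm_ne_zero_iff.2 hz
    have h1 : 2 / (‖z⁻¹‖ ^ 2 + 1) - 1 / 2 = 1 - (2 / (‖z‖ ^ 2 + 1) - 1 / 2) := by
      rw [norm_inv]
      field_simp
      ring
    rw [h1]
    generalize 2 / (‖z‖ ^ 2 + 1) - 1 / 2 = x
    have h2 := (Real.smoothTransition.pos_denom x).ne'
    rw [Real.smoothTransition, Real.smoothTransition, sub_sub_cancel, add_comm _ (expNegInvGlue x),
      ← add_div, div_self h2]
  · rw [le_sub_iff_add_le, le_div_iff₀ (by positivity)]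
    nlinarith [norm_nonneg z]
  · rw [sub_nonpos, div_le_iff₀ (by positivity)]
    nlinarith
  · nlinarith [norm_nonneg z]
  · nlinarith

theorem cc_ne_Abs (i : Bool) (z : ℂ) : cc i z ≠ 0 := by
  cases i <;> simp [cc]

theorem covS : CovStmt := by
  intro e ha hs h0 hh
  have key : ∀ i z (c a b : ℂ), c ≠ 0 →
      e (c • cc i z) (c • (a • cc i z + b • (cc i 1 - cc i 0))) =
        (c * conj b) • e (cc i z) (cc i 1 - cc i 0) := fun i z c a b hc => by
    have h := cc_ne_Abs i z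
    rw [hh _ h c hc, ha _ h, hs _ h, hs _ h, h0 _ h, smul_zero, zero_add, smul_smul]
  refine ⟨fun i z hz => ?_, fun h q hq v => ?_⟩
  · have h1 : cc i z = z • cc (!i) z⁻¹ := by cases i <;> simp [cc, hz]
    have h2 : cc i 1 - cc i 0 =
        z • (z⁻¹ • cc (!i) z⁻¹ + (-(z⁻¹ ^ 2)) • (cc (!i) 1 - cc (!i) 0)) := by
      cases i <;> simp [cc, hz, sq]
    rw [h1, h2, key _ _ _ _ _ hz, tr]
    simp [div_eq_mul_inv]
  · by_cases h1 : q.1 = 0
    · have h2 : q.2 ≠ 0 := fun h2 => hq (Prod.ext h1 h2)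
      have h3 := key true 0 q.2 (v.2 / q.2) (v.1 / q.2) h2
      rw [h, smul_zero] at h3
      rw [← h3]
      congr 1 <;> ext <;> simp [cc, h1, mul_div_cancel₀, h2]
    · have h3 := key false (q.2 / q.1) q.1 (v.1 / q.1) (v.2 / q.1 - v.1 / q.1 * (q.2 / q.1)) h1
      rw [h, smul_zero] at h3
      rw [← h3]
      congr 1 <;> ext <;> simp [cc, mul_div_cancel₀, h1]

end Pool.Agent.MP_2fc7fa_gt.N
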