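import Pool.Agent.MP_2fc7fa_gt.N.IfB2

/-! The chord lemma for a compact family of embedded homogeneous maps. -/

open scoped ContDiff ComplexConjugate Topology
open Set Complex Filter Metric

noncomputable section

namespace Pool.Agent.MP_2fc7fa_gt.N

lemma core_Chord (U : W → V) (D : W →L[ℝ] V) (q₀ : W) (ρ κ ε : ℝ) (hε : 0 ≤ ε)
    (hlin : ∀ a ∈ ball q₀ ρ, ∀ b ∈ ball q₀ ρ, ‖U a - U b - D (a - b)‖ ≤ ε * ‖a - b‖)
    (hκ : ∀ v, κ * ‖v‖ ≤ ‖D v‖) (r r₁ r₂ : W) (hr : r ∈ ball q₀ ρ) (h₁ : r₁ ∈ ball q₀ ρ)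
    (h₂ : r₂ ∈ ball q₀ ρ) (u : ℝ) (hu : u ∈ Icc (0 : ℝ) 1)
    (e : U r = (1 - u) • U r₁ + u • U r₂) :
    (κ - ε) * ‖r - ((1 - u) • r₁ + u • r₂)‖ ≤ ε * ‖r₁ - r₂‖ := by
  set s := (1 - u) • r₁ + u • r₂ with hs
  have hu0 : 0 ≤ u := hu.1
  have hu1 : 0 ≤ 1 - u := by linarith [hu.2]
  have hsb : s ∈ ball q₀ ρ := convex_ball q₀ ρ h₁ h₂ hu1 hu0 (by ring)
  have a0 := hlin r hr s hsb
  have a1 := hlin r₁ h₁ s hsb
  have a2 := hlin r₂ h₂ s hsb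
  have e1 : r₁ - s = u • (r₁ - r₂) := by rw [hs]; module
  have e2 : r₂ - s = (1 - u) • (r₂ - r₁) := by rw [hs]; module
  have n1 : ‖r₁ - s‖ = u * ‖r₁ - r₂‖ := by rw [e1, norm_smul, Real.norm_of_nonneg hu0]
  have n2 : ‖r₂ - s‖ = (1 - u) * ‖r₁ - r₂‖ := by
    rw [e2, norm_smul, Real.norm_of_nonneg hu1, norm_sub_rev]
  have e3 : U r - U s = (1 - u) • (U r₁ - U s - D (r₁ - s)) + u • (U r₂ - U s - D (r₂ - s)) := by
    rw [e, e1, e2, map_smul, map_smul, map_sub, map_sub]; module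
  have b1 : ‖U r - U s‖ ≤ ε * ‖r₁ - r₂‖ := by
    rw [e3]
    refine (norm_add_le _ _).trans ?_
    rw [norm_smul, norm_smul, Real.norm_of_nonneg hu0, Real.norm_of_nonneg hu1]
    have c1 := mul_le_mul_of_nonneg_left a1 hu1
    have c2 := mul_le_mul_of_nonneg_left a2 hu0
    rw [n1] at c1
    rw [n2] at c2
    have t : 0 ≤ ε * ‖r₁ - r₂‖ := by positivity
    have t2 : (1 - u) * u ≤ 1 / 2 := by nlinarith
    nlinarith
  have b2 : ‖D (r - s)‖ ≤ ‖U r - U s‖ + ‖U r - U s - D (r - s)‖ := by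
    have : D (r - s) = (U r - U s) - (U r - U s - D (r - s)) := by abel
    conv_lhs => rw [this]
    exact norm_sub_le _ _
  have b3 := hκ (r - s)
  nlinarith

lemma det_le_Chord (x y : W) : ‖det2 x y‖ ≤ 2 * ‖x‖ * ‖y‖ := by
  unfold det2
  refine (norm_sub_le _ _).trans ?_
  rw [norm_mul, norm_mul]
  have a1 := mul_le_mul (norm_fst_le x) (norm_snd_le y) (norm_nonneg _) (norm_nonneg _)
  have a2 := mul_le_mul (norm_snd_le x) (norm_fst_le y) (norm_nonneg _) (norm_nonneg _)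
  linarith

lemma coord_Chord (q₀ h : W) (hd : det2 q₀ h ≠ 0) : ∃ K : ℝ, 0 < K ∧ ∀ α β : ℂ,
    ‖α‖ ≤ K * ‖α • q₀ + β • h‖ ∧ ‖β‖ ≤ K * ‖α • q₀ + β • h‖ := by
  have hd' : 0 < ‖det2 q₀ h‖ := norm_pos_iff.2 hd
  refine ⟨(2 * ‖q₀‖ + 2 * ‖h‖ + 1) / ‖det2 q₀ h‖, by positivity, fun α β => ?_⟩
  have e1 : det2 (α • q₀ + β • h) h = α * det2 q₀ h := by simp [det2]; ring
  have e2 : det2 q₀ (α • q₀ + β • h) = β * det2 q₀ h := by simp [det2]; ring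
  have a1 := det_le_Chord (α • q₀ + β • h) h
  have a2 := det_le_Chord q₀ (α • q₀ + β • h)
  rw [e1, norm_mul] at a1
  rw [e2, norm_mul] at a2
  have n0 := norm_nonneg (α • q₀ + β • h)
  have n1 := norm_nonneg q₀
  have n2 := norm_nonneg h
  constructor
  · rw [div_mul_eq_mul_div, le_div_iff₀ hd']; nlinarith
  · rw [div_mul_eq_mul_div, le_div_iff₀ hd']; nlinarith

section
variable {P : Type} [TopologicalSpace P] [CompactSpace P]

lemma low_Chord (G : P → W → V) (hc : ContinuousOn (fun a : P × W => G a.1 a.2) (univ ×ˢ {0}ᶜ))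
    (hs : ∀ p (t : ℝ) q, G p (t • q) = t • G p q) (hn : ∀ p q, q ≠ 0 → G p q ≠ 0) :
    ∃ κ : ℝ, 0 < κ ∧ ∀ p v, κ * ‖v‖ ≤ ‖G p v‖ := by
  have hK : IsCompact ((univ : Set P) ×ˢ sphere (0 : W) 1) :=
    isCompact_univ.prod (isCompact_sphere _ _)
  have hsub : ((univ : Set P) ×ˢ sphere (0 : W) 1) ⊆ univ ×ˢ {0}ᶜ := by
    refine prod_mono subset_rfl fun q hq h0 => ?_
    rw [mem_singleton_iff] at h0
    simp [h0] at hq
  obtain ⟨κ, hκ, H⟩ := hK.exists_forall_le' (f := fun a : P × W => ‖G a.1 a.2‖) (a := 0)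
    (hc.mono hsub).norm fun b hb => norm_pos_iff.2 (hn _ _ (hsub hb).2)
  refine ⟨κ, hκ, fun p v => ?_⟩
  rcases eq_or_ne v 0 with rfl | hv
  · simp
  have hv' : 0 < ‖v‖ := norm_pos_iff.2 hv
  have h1 := H (p, ‖v‖⁻¹ • v) ⟨mem_univ _, by simp [norm_smul, hv'.ne']⟩
  simp only [hs, norm_smul, norm_inv, norm_norm] at h1
  rwa [inv_mul_eq_div, le_div_iff₀ hv'] at h1

lemma inj_Chord (U : P → W → V) (q₀ : W) (hq : q₀ ≠ 0)
    (hc : ContinuousOn (fun a : P × W => U a.1 a.2) (univ ×ˢ {0}ᶜ))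
    (hs : ∀ p (t : ℝ) q, U p (t • q) = t • U p q) (hn : ∀ p q, q ≠ 0 → U p q ≠ 0)
    (hi : ∀ p, InjOn (U p) {0}ᶜ) (ρ : ℝ) (hρ : 0 < ρ) :
    ∃ τ : ℝ, 0 < τ ∧ ∀ p r, ‖U p r - U p q₀‖ < τ → r ∈ ball q₀ ρ := by
  obtain ⟨κ, hκ, Hκ⟩ := low_Chord U hc hs hn
  have hc0 : Continuous fun p => U p q₀ :=
    hc.comp_continuous (f := fun p : P => (p, q₀)) (by fun_prop) fun p => ⟨mem_univ _, hq⟩
  obtain ⟨M, hM⟩ := isCompact_univ.exists_bound_of_continuousOn hc0.continuousOn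
  let K : Set (P × W × ℝ) :=
    (univ ×ˢ sphere (0 : W) 1 ×ˢ Icc 0 ((M + 1) / κ)) ∩ {a | ρ ≤ ‖a.2.2 • a.2.1 - q₀‖}
  have hK : IsCompact K :=
    (isCompact_univ.prod ((isCompact_sphere _ _).prod isCompact_Icc)).inter_right
      (isClosed_le continuous_const (by fun_prop))
  have hne : ∀ a ∈ K, a.2.1 ≠ 0 := fun a ha h0 => by
    have := ha.1.2.1
    simp [h0] at this
  have hcont : ContinuousOn (fun a : P × W × ℝ => ‖a.2.2 • U a.1 a.2.1 - U a.1 q₀‖) K := by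
    have c1 : ContinuousOn (fun a : P × W × ℝ => U a.1 a.2.1) K :=
      hc.comp (f := fun a : P × W × ℝ => (a.1, a.2.1)) (by fun_prop)
        fun a ha => ⟨mem_univ _, hne a ha⟩
    have c2 : ContinuousOn (fun a : P × W × ℝ => U a.1 q₀) K :=
      (hc0.comp continuous_fst).continuousOn
    have c3 : ContinuousOn (fun a : P × W × ℝ => a.2.2) K := by fun_prop
    exact ((c3.smul c1).sub c2).norm
  obtain ⟨τ, hτ, H⟩ := hK.exists_forall_le' (a := 0) hcont fun a ha => by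
    refine norm_pos_iff.2 (sub_ne_zero.2 fun e => ?_)
    rw [← hs] at e
    have h0 : a.2.2 • a.2.1 ≠ 0 := fun h0 => by
      have h1 := hs a.1 0 q₀
      rw [zero_smul, zero_smul, ← h0, e] at h1
      exact hn _ _ hq h1
    have h2 := hi a.1 h0 hq e
    have h3 : ρ ≤ ‖a.2.2 • a.2.1 - q₀‖ := ha.2
    rw [h2, sub_self, norm_zero] at h3
    linarith
  refine ⟨min (min τ 1) (κ * ‖q₀‖), lt_min (lt_min hτ one_pos)
    (mul_pos hκ (norm_pos_iff.2 hq)), fun p r hr => ?_⟩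
  have r1 : ‖U p r - U p q₀‖ < τ := hr.trans_le ((min_le_left _ _).trans (min_le_left _ _))
  have r2 : ‖U p r - U p q₀‖ < 1 := hr.trans_le ((min_le_left _ _).trans (min_le_right _ _))
  have r3 : ‖U p r - U p q₀‖ < κ * ‖q₀‖ := hr.trans_le (min_le_right _ _)
  rcases eq_or_ne r 0 with rfl | hv
  · have h1 := hs p 0 q₀
    rw [zero_smul, zero_smul] at h1
    rw [h1, zero_sub, norm_neg] at r3
    linarith [Hκ p q₀]
  have hv' : 0 < ‖r‖ := norm_pos_iff.2 hv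
  by_contra hb
  rw [mem_ball_iff_norm, not_lt] at hb
  have er : ‖r‖ • ‖r‖⁻¹ • r = r := by rw [smul_smul, mul_inv_cancel₀ hv'.ne', one_smul]
  have hb2 : ‖r‖ ≤ (M + 1) / κ := by
    rw [le_div_iff₀ hκ]
    have h1 := Hκ p r
    have h2 := hM p (mem_univ _)
    have h3 := norm_sub_norm_le (U p r) (U p q₀)
    linarith
  have h4 := H (p, ‖r‖⁻¹ • r, ‖r‖) ⟨⟨mem_univ _, by simp [norm_smul, hv'.ne'], hv'.le, hb2⟩,
    by simpa only [mem_ofPred_eq, er] using hb⟩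
  simp only [← hs, er] at h4
  linarith

lemma lin_Chord (U : P → W → V) (F : P → W → W →L[ℝ] V) (q₀ : W) (hq : q₀ ≠ 0)
    (hd : ∀ p q, q ≠ 0 → HasFDerivAt (U p) (F p q) q)
    (hc : ContinuousOn (fun a : P × W => F a.1 a.2) (univ ×ˢ {0}ᶜ)) (ε : ℝ) (hε : 0 < ε) :
    ∃ ρ : ℝ, 0 < ρ ∧ ∀ p, ∀ a ∈ ball q₀ ρ, ∀ b ∈ ball q₀ ρ,
      ‖U p a - U p b - F p q₀ (a - b)‖ ≤ ε * ‖a - b‖ := by
  have hc0 : Continuous fun p => F p q₀ :=
    hc.comp_continuous (f := fun p : P => (p, q₀)) (by fun_prop) fun p => ⟨mem_univ _, hq⟩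
  have ho : IsOpen ((univ : Set P) ×ˢ ({0}ᶜ : Set W)) := isOpen_univ.prod isOpen_compl_singleton
  have h1 : ∀ᶠ x in 𝓝 q₀, ∀ p ∈ (univ : Set P), ‖F p x - F p q₀‖ < ε := by
    refine isCompact_univ.eventually_forall_of_forall_eventually fun p _ => ?_
    have h2 : ContinuousAt (fun a : P × W => F a.1 a.2) (p, q₀) :=
      hc.continuousAt (ho.mem_nhds ⟨mem_univ _, hq⟩)
    have h3 : ContinuousAt (fun z : W × P => ‖F z.2 z.1 - F z.2 q₀‖) (q₀, p) := by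
      refine ContinuousAt.norm (ContinuousAt.sub ?_ (hc0.comp continuous_snd).continuousAt)
      exact ContinuousAt.comp (f := fun z : W × P => (z.2, z.1)) (x := (q₀, p)) h2 (by fun_prop)
    exact h3.eventually_lt continuousAt_const (by simpa using hε)
  have h4 : ∀ᶠ x in 𝓝 q₀, x ≠ 0 := isOpen_compl_singleton.mem_nhds hq
  obtain ⟨ρ, hρ, H⟩ := Metric.eventually_nhds_iff_ball.1 (h1.and h4)
  refine ⟨ρ, hρ, fun p a ha b hb => ?_⟩
  exact (convex_ball q₀ ρ).norm_image_sub_le_of_norm_hasFDerivWithin_le' (f' := F p)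
    (fun x hx => (hd p x (H x hx).2).hasFDerivWithinAt) (fun x hx => ((H x hx).1 p (mem_univ _)).le)
    hb ha

end

/-- The final estimate. -/
lemma fin_Chord (z z₁ z₂ c b₁ b₂ : ℂ) (u E t δ : ℝ) (hu : u ∈ Icc (0 : ℝ) 1) (hc : 1 / 2 ≤ ‖c‖)
    (h1 : ‖c - (((1 - u : ℝ) : ℂ) * b₁ + u * b₂)‖ ≤ E)
    (h2 : ‖c * z - (((1 - u : ℝ) : ℂ) * (b₁ * z₁) + u * (b₂ * z₂))‖ ≤ E)
    (hb : ‖b₁ - b₂‖ ≤ t) (hz₁ : ‖z₁‖ ≤ δ) (hz₂ : ‖z₂‖ ≤ δ) (hδ : δ ≤ 1) :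
    ‖z - (((1 - u : ℝ) : ℂ) * z₁ + u * z₂)‖ ≤ 4 * E + 2 * t * ‖z₁ - z₂‖ := by
  have hu0 : 0 ≤ u := hu.1
  have hu1 : 0 ≤ 1 - u := by linarith [hu.2]
  set w := ((1 - u : ℝ) : ℂ) * z₁ + u * z₂ with hw
  have hw1 : ‖w‖ ≤ 1 := by
    refine (norm_add_le _ _).trans ?_
    rw [norm_mul, norm_mul, norm_real, norm_real, Real.norm_of_nonneg hu0, Real.norm_of_nonneg hu1]
    nlinarith
  have e : c * (z - w) = (c * z - (((1 - u : ℝ) : ℂ) * (b₁ * z₁) + u * (b₂ * z₂))) +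
      ((u * (1 - u) : ℝ) : ℂ) * ((b₁ - b₂) * (z₁ - z₂)) -
      (c - (((1 - u : ℝ) : ℂ) * b₁ + u * b₂)) * w := by
    rw [hw]; push_cast; ring
  have hE : 0 ≤ E := (norm_nonneg _).trans h1
  have ht : 0 ≤ t := (norm_nonneg _).trans hb
  have a1 : ‖((u * (1 - u) : ℝ) : ℂ) * ((b₁ - b₂) * (z₁ - z₂))‖ ≤ t * ‖z₁ - z₂‖ := by
    rw [norm_mul, norm_mul, norm_real, Real.norm_of_nonneg (mul_nonneg hu0 hu1)]
    have : u * (1 - u) ≤ 1 := by nlinarith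
    have h3 : ‖b₁ - b₂‖ * ‖z₁ - z₂‖ ≤ t * ‖z₁ - z₂‖ := by gcongr
    have h4 : 0 ≤ ‖b₁ - b₂‖ * ‖z₁ - z₂‖ := by positivity
    nlinarith
  have a2 : ‖(c - (((1 - u : ℝ) : ℂ) * b₁ + u * b₂)) * w‖ ≤ E := by
    rw [norm_mul]
    calc _ ≤ E * 1 := by gcongr
      _ = E := mul_one E
  have a3 : ‖c‖ * ‖z - w‖ ≤ E + t * ‖z₁ - z₂‖ + E := by
    rw [← norm_mul, e]
    exact (norm_sub_le _ _).trans (add_le_add ((norm_add_le _ _).trans (add_le_add h2 a1)) a2)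
  have a4 := norm_nonneg (z - w)
  nlinarith

theorem chord : ChordStmt := by
  intro P _ _ U q₀ h hF hU hd η hη m hm
  obtain ⟨hc, F, hF1, hF2⟩ := hF
  have hq : q₀ ≠ 0 := by
    rintro rfl
    simp [det2] at hd
  have hD : ∀ p q, q ≠ 0 → HasFDerivAt (U p) (F p q) q := fun p q hq =>
    (hF1 p q hq).hasFDerivAt (isOpen_compl_singleton.mem_nhds hq)
  have hs : ∀ p (t : ℝ) q, U p (t • q) = t • U p q := fun p t q => by
    simpa only [Complex.coe_smul] using (hU p).1.2 (t : ℂ) q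
  have hc0 : Continuous fun p => F p q₀ :=
    ContinuousOn.comp_continuous (g := fun a : P × W => F a.1 a.2) hF2
      (f := fun p : P => (p, q₀)) (by fun_prop) fun p => ⟨mem_univ _, hq⟩
  obtain ⟨κ, hκ, Hκ⟩ := low_Chord (fun p v => F p q₀ v)
    ((hc0.comp continuous_fst).clm_apply continuous_snd).continuousOn
    (fun p t q => map_smul _ _ _) fun p q hq' e => by
      have hi := (hU p).2.1.imm q₀ hq
      rw [(hD p q₀ hq).fderiv] at hi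
      exact hq' (hi (e.trans (map_zero _).symm))
  obtain ⟨M₀, hM₀⟩ := isCompact_univ.exists_bound_of_continuousOn hc0.continuousOn
  obtain ⟨K, hK, HK⟩ := coord_Chord q₀ h hd
  set M := |M₀| + 1 with hM
  have hM1 : 1 ≤ M := by rw [hM]; linarith [abs_nonneg M₀]
  set L := 4 * M * (‖h‖ + 1) / m with hL
  have hL0 : 0 < L := by positivity
  set N := L * ‖q₀‖ + (2 + L) * ‖h‖ + 1 with hN
  have hN0 : 0 < N := by positivity
  set ε := min (min 1 (κ / 2)) (η * κ / (16 * K * N)) with hε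
  have hε0 : 0 < ε := lt_min (lt_min one_pos (by positivity)) (by positivity)
  have hε1 : ε ≤ 1 := (min_le_left _ _).trans (min_le_left _ _)
  have hε2 : ε ≤ κ / 2 := (min_le_left _ _).trans (min_le_right _ _)
  have hε3 : ε * (16 * K * N) ≤ η * κ := (le_div_iff₀ (by positivity)).1 (min_le_right _ _)
  obtain ⟨ρ₀, hρ₀, Hρ₀⟩ := lin_Chord U F q₀ hq hD hF2 ε hε0
  set ρ := min ρ₀ (1 / (2 * K)) with hρ
  have hρ0 : 0 < ρ := lt_min hρ₀ (by positivity)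
  have hρ1 : ρ * (2 * K) ≤ 1 := (le_div_iff₀ (by positivity)).1 (min_le_right _ _)
  have Hρ : ∀ p, ∀ a ∈ ball q₀ ρ, ∀ b ∈ ball q₀ ρ,
      ‖U p a - U p b - F p q₀ (a - b)‖ ≤ ε * ‖a - b‖ := fun p a ha b hb =>
    Hρ₀ p a (ball_subset_ball (min_le_left _ _) ha) b (ball_subset_ball (min_le_left _ _) hb)
  have Lip : ∀ p, ∀ a ∈ ball q₀ ρ, ∀ b ∈ ball q₀ ρ, ‖U p a - U p b‖ ≤ M * ‖a - b‖ := by
    intro p a ha b hb
    have h1 := Hρ p a ha b hb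
    have h2 := (F p q₀).le_opNorm (a - b)
    have h3 := (hM₀ p (mem_univ _)).trans (le_abs_self M₀)
    have h4 := norm_sub_norm_le (U p a - U p b) (F p q₀ (a - b))
    have h5 := norm_nonneg (a - b)
    rw [hM]
    linarith only [h1, h2, h4, mul_le_mul_of_nonneg_right h3 h5, mul_le_mul_of_nonneg_right hε1 h5]
  obtain ⟨τ, hτ, Hτ⟩ := inj_Chord U q₀ hq hc hs (fun p => (hU p).2.2) (fun p => (hU p).2.1.inj) ρ hρ0
  set δ := min (min 1 (ρ / (2 * N))) (min (τ / (2 * M * N)) (min (1 / L) (η / (8 * L)))) with hδ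
  have hδ0 : 0 < δ := lt_min (lt_min one_pos (by positivity))
    (lt_min (by positivity) (lt_min (by positivity) (by positivity)))
  have hδ1 : δ ≤ 1 := (min_le_left _ _).trans (min_le_left _ _)
  have hδ2 : δ * (2 * N) ≤ ρ :=
    (le_div_iff₀ (by positivity)).1 ((min_le_left _ _).trans (min_le_right _ _))
  have hδ3 : δ * (2 * M * N) ≤ τ :=
    (le_div_iff₀ (by positivity)).1 ((min_le_right _ _).trans (min_le_left _ _))
  have hδ4 : δ * L ≤ 1 := (le_div_iff₀ hL0).1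
    ((min_le_right _ _).trans ((min_le_right _ _).trans (min_le_left _ _)))
  have hδ5 : δ * (8 * L) ≤ η := (le_div_iff₀ (by positivity)).1
    ((min_le_right _ _).trans ((min_le_right _ _).trans (min_le_right _ _)))
  clear_value δ ρ ε
  refine ⟨δ, hδ0, fun p l z z₁ z₂ u hl hlm hz₁ hz₂ hu ⟨c, hcz⟩ => ?_⟩
  have nq := norm_nonneg q₀
  have nh := norm_nonneg h
  have hmL : m * L = 4 * M * (‖h‖ + 1) := by rw [hL]; field_simp
  have ball1 : ∀ w : ℂ, ‖w‖ ≤ δ → q₀ + w • h ∈ ball q₀ ρ := fun w hw => by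
    rw [mem_ball_iff_norm, add_sub_cancel_left, norm_smul]
    have : ‖w‖ * ‖h‖ ≤ δ * ‖h‖ := by gcongr
    have h2 : ‖h‖ ≤ N := by rw [hN]; linarith only [mul_nonneg hL0.le nq, mul_nonneg hL0.le nh, nh]
    have h3 : δ * ‖h‖ ≤ δ * N := by gcongr
    linarith only [this, h3, hδ2, hρ0]
  have lipl : ∀ w w' : ℂ, ‖w‖ ≤ δ → ‖w'‖ ≤ δ →
      4 * ‖l (U p (q₀ + w • h)) - l (U p (q₀ + w' • h))‖ ≤ m * L * ‖w - w'‖ := by
    intro w w' hw hw'
    have h1 := Lip p _ (ball1 w hw) _ (ball1 w' hw')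
    rw [add_sub_add_left_eq_sub, ← sub_smul, norm_smul] at h1
    rw [← map_sub, hmL]
    have h2 := l.le_opNorm (U p (q₀ + w • h) - U p (q₀ + w' • h))
    have h3 := norm_nonneg (U p (q₀ + w • h) - U p (q₀ + w' • h))
    have h4 := norm_nonneg (w - w')
    have h5 : 0 ≤ M * ‖w - w'‖ := by positivity
    linarith only [h1, h2, h5, mul_le_mul_of_nonneg_right hl h3]
  set a := l (U p q₀) with ha
  have la : ∀ w : ℂ, ‖w‖ ≤ δ → 4 * ‖l (U p (q₀ + w • h)) - a‖ ≤ m * L * δ := fun w hw => by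
    have h1 := lipl w 0 hw (by simpa using hδ0.le)
    rw [zero_smul, add_zero, sub_zero] at h1
    refine h1.trans ?_
    gcongr
  have low : ∀ w : ℂ, ‖w‖ ≤ δ → m / 2 ≤ ‖l (U p (q₀ + w • h))‖ := fun w hw => by
    have h1 := la w hw
    have h2 := norm_sub_norm_le a (l (U p (q₀ + w • h)))
    rw [norm_sub_rev] at h2
    have h3 : m * L * δ ≤ m := by linarith only [mul_le_mul_of_nonneg_left hδ4 hm.le]
    linarith
  set y₁ := l (U p (q₀ + z₁ • h)) with hy₁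
  set y₂ := l (U p (q₀ + z₂ • h)) with hy₂
  have y1 : m / 2 ≤ ‖y₁‖ := low z₁ hz₁
  have y2 : m / 2 ≤ ‖y₂‖ := low z₂ hz₂
  have y1' : y₁ ≠ 0 := norm_pos_iff.1 (by linarith)
  have y2' : y₂ ≠ 0 := norm_pos_iff.1 (by linarith)
  have near : ∀ y : ℂ, m / 2 ≤ ‖y‖ → 4 * ‖y - a‖ ≤ m * L * δ → ‖a / y - 1‖ ≤ L * δ := by
    intro y hy h1
    have hy0 : 0 < ‖y‖ := by linarith
    have hy' : y ≠ 0 := norm_pos_iff.1 hy0
    have : a / y - 1 = (a - y) / y := by field_simp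
    rw [this, norm_div, div_le_iff₀ hy0, norm_sub_rev]
    have h2 : 0 ≤ L * δ := by positivity
    linarith only [h1, mul_le_mul_of_nonneg_left hy h2, mul_nonneg hm.le h2]
  have b1 := near y₁ y1 (la z₁ hz₁)
  have b2 := near y₂ y2 (la z₂ hz₂)
  have b12 : ‖a / y₁ - a / y₂‖ ≤ L * ‖z₁ - z₂‖ * 1 ∧ ‖a / y₁‖ ≤ 2 ∧ ‖a / y₂‖ ≤ 2 := by
    have c1 : ‖a / y₁‖ ≤ 2 := by
      have := norm_sub_norm_le (a / y₁) 1
      rw [norm_one] at this
      linarith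
    have c2 : ‖a / y₂‖ ≤ 2 := by
      have := norm_sub_norm_le (a / y₂) 1
      rw [norm_one] at this
      linarith
    refine ⟨?_, c1, c2⟩
    have e : a / y₁ - a / y₂ = a / y₁ * (y₂ - y₁) / y₂ := by field_simp
    have hy0 : 0 < ‖y₂‖ := by linarith
    rw [e, norm_div, div_le_iff₀ hy0, norm_mul, norm_sub_rev]
    have h1 := lipl z₁ z₂ hz₁ hz₂
    rw [← hy₁, ← hy₂] at h1
    have h2 : 0 ≤ L * ‖z₁ - z₂‖ := by positivity
    have h3 : ‖a / y₁‖ * ‖y₁ - y₂‖ ≤ 2 * ‖y₁ - y₂‖ := by gcongr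
    linarith only [h1, h3, mul_le_mul_of_nonneg_left y2 h2]
  obtain ⟨b12, c1, c2⟩ := b12
  rw [mul_one] at b12
  set b₁ := a / y₁ with hb₁
  set b₂ := a / y₂ with hb₂
  have rr : ∀ b w : ℂ, ‖b - 1‖ ≤ L * δ → ‖b‖ ≤ 2 → ‖w‖ ≤ δ →
      ‖b • (q₀ + w • h) - q₀‖ ≤ N * δ := by
    intro b w hb hb2 hw
    have e : b • (q₀ + w • h) - q₀ = (b - 1) • q₀ + (b * w) • h := by module
    rw [e]
    refine (norm_add_le _ _).trans ?_
    rw [norm_smul, norm_smul, norm_mul, hN]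
    have h1 : ‖b - 1‖ * ‖q₀‖ ≤ L * δ * ‖q₀‖ := by gcongr
    have h2 : ‖b‖ * ‖w‖ * ‖h‖ ≤ 2 * δ * ‖h‖ := by gcongr
    have h3 : 0 ≤ L * δ * ‖h‖ := by positivity
    linarith only [h1, h2, h3, hδ0]
  have r1 := rr b₁ z₁ b1 c1 hz₁
  have r2 := rr b₂ z₂ b2 c2 hz₂
  have hNδ : N * δ < ρ := by linarith only [hδ2, hρ0]
  have r1' : b₁ • (q₀ + z₁ • h) ∈ ball q₀ ρ := mem_ball_iff_norm.2 (r1.trans_lt hNδ)
  have r2' : b₂ • (q₀ + z₂ • h) ∈ ball q₀ ρ := mem_ball_iff_norm.2 (r2.trans_lt hNδ)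
  have hu0 : 0 ≤ u := hu.1
  have hu1 : 0 ≤ 1 - u := by linarith [hu.2]
  have eU : U p ((a * c) • (q₀ + z • h)) =
      (1 - u) • U p (b₁ • (q₀ + z₁ • h)) + u • U p (b₂ • (q₀ + z₂ • h)) := by
    rw [(hU p).1.2, (hU p).1.2, (hU p).1.2, mul_smul, hcz, ← Complex.coe_smul, ← Complex.coe_smul,
      hb₁, hb₂, div_eq_mul_inv, div_eq_mul_inv]
    module
  have r0 : (a * c) • (q₀ + z • h) ∈ ball q₀ ρ := by
    refine Hτ p _ ?_
    have e : U p ((a * c) • (q₀ + z • h)) - U p q₀ =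
        (1 - u) • (U p (b₁ • (q₀ + z₁ • h)) - U p q₀) + u • (U p (b₂ • (q₀ + z₂ • h)) - U p q₀) := by
      rw [eU]; module
    rw [e]
    refine (norm_add_le _ _).trans_lt ?_
    rw [norm_smul, norm_smul, Real.norm_of_nonneg hu0, Real.norm_of_nonneg hu1]
    have h1 : ‖U p (b₁ • (q₀ + z₁ • h)) - U p q₀‖ ≤ M * (N * δ) :=
      (Lip p _ r1' _ (mem_ball_self hρ0)).trans (by gcongr)
    have h2 : ‖U p (b₂ • (q₀ + z₂ • h)) - U p q₀‖ ≤ M * (N * δ) :=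
      (Lip p _ r2' _ (mem_ball_self hρ0)).trans (by gcongr)
    have h3 := mul_le_mul_of_nonneg_left h1 hu1
    have h4 := mul_le_mul_of_nonneg_left h2 hu0
    have h5 : 0 < M * (N * δ) := by positivity
    linarith only [h3, h4, h5, hδ3]
  have core := core_Chord (U p) (F p q₀) q₀ ρ κ ε hε0.le (Hρ p) (Hκ p) _ _ _ r0 r1' r2' u hu eU
  have d12 : ‖b₁ • (q₀ + z₁ • h) - b₂ • (q₀ + z₂ • h)‖ ≤ N * ‖z₁ - z₂‖ := by
    have e : b₁ • (q₀ + z₁ • h) - b₂ • (q₀ + z₂ • h) =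
        (b₁ - b₂) • q₀ + (b₁ * (z₁ - z₂)) • h + ((b₁ - b₂) * z₂) • h := by module
    rw [e]
    refine ((norm_add_le _ _).trans (add_le_add_left (norm_add_le _ _) _)).trans ?_
    rw [norm_smul, norm_smul, norm_smul, norm_mul, norm_mul, hN]
    have h0 := norm_nonneg (z₁ - z₂)
    have h1 : ‖b₁ - b₂‖ * ‖q₀‖ ≤ L * ‖z₁ - z₂‖ * ‖q₀‖ := by gcongr
    have h2 : ‖b₁‖ * ‖z₁ - z₂‖ * ‖h‖ ≤ 2 * ‖z₁ - z₂‖ * ‖h‖ := by gcongr
    have h3 : ‖b₁ - b₂‖ * ‖z₂‖ * ‖h‖ ≤ L * ‖z₁ - z₂‖ * 1 * ‖h‖ := by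
      have := hz₂.trans hδ1
      gcongr
    linarith only [h0, h1, h2, h3]
  have ec : (a * c) • (q₀ + z • h) - ((1 - u) • b₁ • (q₀ + z₁ • h) + u • b₂ • (q₀ + z₂ • h)) =
      (a * c - (((1 - u : ℝ) : ℂ) * b₁ + u * b₂)) • q₀ +
        (a * c * z - (((1 - u : ℝ) : ℂ) * (b₁ * z₁) + u * (b₂ * z₂))) • h := by
    rw [← Complex.coe_smul, ← Complex.coe_smul]; module
  obtain ⟨k1, k2⟩ := HK (a * c - (((1 - u : ℝ) : ℂ) * b₁ + u * b₂))
    (a * c * z - (((1 - u : ℝ) : ℂ) * (b₁ * z₁) + u * (b₂ * z₂)))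
  rw [← ec] at k1 k2
  have hac : 1 / 2 ≤ ‖a * c‖ := by
    have e : (a * c) • (q₀ + z • h) - q₀ = (a * c - 1) • q₀ + (a * c * z) • h := by module
    have h1 := (HK (a * c - 1) (a * c * z)).1
    rw [← e] at h1
    have h2 := mem_ball_iff_norm.1 r0
    have h3 := norm_sub_norm_le 1 (a * c)
    rw [norm_one, norm_sub_rev] at h3
    linarith only [h1, h3, hρ1, mul_le_mul_of_nonneg_left h2.le hK.le]
  have t12 : ‖b₁ - b₂‖ ≤ 2 * (L * δ) := by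
    have : b₁ - b₂ = (b₁ - 1) - (b₂ - 1) := by ring
    rw [this]
    exact (norm_sub_le _ _).trans (by linarith)
  refine (fin_Chord z z₁ z₂ (a * c) b₁ b₂ u _ _ δ hu hac k1 k2 t12 hz₁ hz₂ hδ1).trans ?_
  set E := ‖(a * c) • (q₀ + z • h) - ((1 - u) • b₁ • (q₀ + z₁ • h) + u • b₂ • (q₀ + z₂ • h))‖
  set Z := ‖z₁ - z₂‖
  have hE : 0 ≤ E := norm_nonneg _
  have hZ : 0 ≤ Z := norm_nonneg _
  have f1 : κ / 2 * E ≤ ε * (N * Z) := by
    have h1 : κ / 2 * E ≤ (κ - ε) * E := by gcongr; linarith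
    exact h1.trans (core.trans (by gcongr))
  have f2 : κ * (8 * K * E) ≤ κ * (η * Z) := by
    have h1 := mul_le_mul_of_nonneg_left f1 (by positivity : 0 ≤ 16 * K)
    have h2 := mul_le_mul_of_nonneg_right hε3 hZ
    linarith only [h1, h2]
  have f3 := le_of_mul_le_mul_left f2 hκ
  have f4 := mul_le_mul_of_nonneg_right hδ5 hZ
  linarith only [f3, f4]

end Pool.Agent.MP_2fc7fa_gt.N
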