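import Pool.Agent.MP_2fc7fa_gt.N.IfB2

/-! The closedness step of the continuity method, and the existence of the family of lines. -/

open scoped ContDiff Topology
open Set Complex Filter Metric

noncomputable section

namespace Pool.Agent.MP_2fc7fa_gt.N

theorem ite_ClosedS {X : Type} [NormedAddCommGroup X] [NormedSpace ℝ X] {O : Set X}
    (hO : UniqueDiffOn ℝ O) (t : UI) {n : ℕ} {E : Type} [NormedAddCommGroup E] [NormedSpace ℝ E]
    {F G : UI → X → E} (hF : Fam O n E F) (hG : Fam O n E G) (h : ∀ x ∈ O, F t x = G t x) :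
    Fam O n E fun s x => if t ≤ s then F s x else G s x := by
  have key : ∀ {E : Type} [TopologicalSpace E] {F G : UI → X → E}, JC O F → JC O G →
      (∀ x ∈ O, F t x = G t x) → JC O fun s x => if t ≤ s then F s x else G s x := by
    intro E _ F G hF hG h
    refine ContinuousOn.if (fun a ha => ?_) (hF.mono inter_subset_left) (hG.mono inter_subset_left)
    have e : t = a.1 := frontier_le_subset_eq continuous_const continuous_fst ha.2
    rw [← e]
    exact h _ ha.1.2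
  induction n generalizing E with
  | zero => exact key hF hG h
  | succ n ih =>
    obtain ⟨h1, F', h2, h3⟩ := hF
    obtain ⟨h4, G', h5, h6⟩ := hG
    refine ⟨key h1 h4 h, fun s x => if t ≤ s then F' s x else G' s x, fun s x hx => ?_,
      ih h3 h6 fun x hx => (hO x hx).eq (h2 t x hx) ((h5 t x hx).congr h (h x hx))⟩
    by_cases hs : t ≤ s
    · simpa only [if_pos hs] using h2 s x hx
    · simpa only [if_neg hs] using h5 s x hx

theorem fderiv_ClosedS {U : W → V} (hU : ContDiffOn ℝ 1 U {0}ᶜ) (g : W ≃L[ℂ] W) {q : W}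
    (hq : q ≠ 0) (h : W) : fderiv ℝ (U ∘ g) q h = fderiv ℝ U (g q) (g h) := by
  have h1 : DifferentiableAt ℝ U (g q) :=
    (hU.contDiffAt (isOpen_compl_singleton.mem_nhds (g.map_ne_zero_iff.2 hq))).differentiableAt
      one_ne_zero
  have h2 : HasFDerivAt g ((g : W →L[ℂ] W).restrictScalars ℝ) q :=
    ((g : W →L[ℂ] W).restrictScalars ℝ).hasFDerivAt
  rw [(h1.hasFDerivAt.comp q h2).fderiv]
  rfl

theorem line_ClosedS {J : V → V → V} {U : W → V} (hU : IsLine J U) (g : W ≃L[ℂ] W) :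
    IsLine J (U ∘ g) where
  c1 := hU.c1.comp ((g : W →L[ℂ] W).restrictScalars ℝ).contDiff.contDiffOn
    fun _ hq => g.map_ne_zero_iff.2 hq
  ne q hq := hU.ne _ (g.map_ne_zero_iff.2 hq)
  hom c q := by rw [Function.comp_apply, map_smul, hU.hom, Function.comp_apply]
  hol q hq h := by
    rw [fderiv_ClosedS hU.c1 g hq, fderiv_ClosedS hU.c1 g hq, map_smul,
      hU.hol (g q) (g.map_ne_zero_iff.2 hq), Function.comp_apply]

theorem emb_ClosedS {U : W → V} (h1 : ContDiffOn ℝ 1 U {0}ᶜ) (hU : IsEmb U) (g : W ≃L[ℂ] W) :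
    IsEmb (U ∘ g) where
  imm q hq a b e := by
    rw [fderiv_ClosedS h1 g hq, fderiv_ClosedS h1 g hq] at e
    exact g.injective (hU.imm _ (g.map_ne_zero_iff.2 hq) e)
  inj := hU.inj.comp g.injective.injOn fun _ hq => g.map_ne_zero_iff.2 hq

theorem param_ClosedS {P Q : Type} [TopologicalSpace P] [TopologicalSpace Q] {φ : P → Fr}
    (h : FrFam φ) {g : Q → P} (hg : Continuous g) : FrFam fun q => φ (g q) :=
  fun n => ⟨(h n).1.param hg, (h n).2.param hg⟩

theorem good_ClosedS (hJ : JointStmt) {φ : UI → Fr} (hφ : FrFam φ) (hs : Std φ)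
    (h : ∀ j ∈ Jet, ∃ u, Lift φ j u) : ∃ U, Good φ U := by
  choose u hu using h
  refine ⟨fun a => u a.2 a.2.2 a.1, ?_, fun a => (hu a.2 a.2.2).2 a.1⟩
  exact (hJ Unit (fun a => φ a.2) (fun a => u a.2 a.2.2 a.1.2) (param_ClosedS hφ continuous_snd)
    (fun _ => hs) fun _ j => hu j j.2).param (g := fun a : UI × Jet => (((), a.1), a.2))
      (by fun_prop)

theorem closedS (hI : IFTStmt) (hJ : JointStmt) (hU : UniqStmt) (hL : LinStmt) (h1 : H1Stmt)
    (h2 : H2Stmt) (hK : CompactStmt) (hE : EmbLimitStmt) (hV : ConvJetStmt) : ClosedStmt := by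
  intro φ om hφ hom ht hs s₀ hs₀ hR j hj
  obtain ⟨s, -, hs1, hs2⟩ := exists_seq_strictAnti_tendsto' hs₀
  have hf : ∀ n, FrFam fun r => φ (max r (s n)) := fun n => param_ClosedS hφ (by fun_prop)
  have hstd : ∀ n, Std fun r => φ (max r (s n)) := fun n => by
    unfold Std
    beta_reduce
    rw [max_eq_left (hs1 n).2.le]
    exact hs
  choose U hG using fun n => good_ClosedS hJ (hf n) (hstd n) (hR (s n) (hs1 n).1)
  have hW : ∀ n (j : Jet), IsLine (φ (s n)).J (U n (s n, j)) ∧ IsEmb (U n (s n, j)) ∧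
      jet (U n (s n, j)) = j := fun n j => by
    simpa only [max_self] using (hG n).2 (s n, j)
  obtain ⟨ψ, g, U', hψ, hU', hc⟩ := hK UI φ om s s₀ (fun n => U n (s n, ⟨j, hj⟩)) hφ hom ht hs2
    fun n => (hW n _).1
  have hs3 : Tendsto (fun n => s (ψ n)) atTop (𝓝 s₀) := hs2.comp hψ.tendsto_atTop
  have he : IsEmb U' := hE UI φ om (fun n => s (ψ n)) s₀ _ U' hφ hom ht hs3
    (fun n => ⟨line_ClosedS (hW _ _).1 _, emb_ClosedS (hW _ _).1.c1 (hW _ _).2.1 _⟩) hU' hc
    fun n x y hx hy => by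
      obtain ⟨j', e1, e2⟩ := h1 _ _ (hf (ψ n)) (hstd _) (hG _) (s (ψ n)) x y hx hy
      refine ⟨_, (hW _ j').1, ⟨_, e1⟩, e2, fun q q' r r' hq hq' e3 e4 => ?_⟩
      refine (h2 _ _ (hf (ψ n)) (hstd _) (hG _) (s (ψ n)) ⟨j, hj⟩ j' (g n q) (g n q') r r'
        ((g n).map_ne_zero_iff.2 hq) ((g n).map_ne_zero_iff.2 hq') e3 e4).imp
        (fun ⟨c, hc⟩ => ⟨c, (g n).injective (by rw [hc, map_smul])⟩) fun e => ?_
      rwa [(g n).surjective.range_comp, e]
  obtain ⟨χ, U₀, hχ, l0, e0, j0, hc0⟩ := hV UI φ (fun n => s (ψ n)) s₀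
    (fun n => U (ψ n) (s (ψ n), ⟨j, hj⟩)) g U' j hφ hs3 hj
    (fun n => ⟨(hW _ _).1, (hW _ _).2.2⟩) hU' he hc
  obtain ⟨N, hN, ε, hε, S, f1, -, f2, f3⟩ := hI UI φ s₀ U₀ false hφ l0 e0
  have hcon : ∀ U, con false U = jet U := fun _ => rfl
  simp only [hcon, j0] at hN f2 f3
  obtain ⟨b, hb, hb'⟩ := exists_Ico_subset_of_mem_nhds
    ((continuous_id.prodMk continuous_const).continuousAt.preimage_mem_nhds hN) ⟨1, hs₀⟩
  obtain ⟨n, hn1, hn2⟩ := (((hs3.comp hχ.tendsto_atTop).eventually (gt_mem_nhds hb)).and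
    (hc0 ε hε)).exists
  set m := ψ (χ n)
  have hm : ∀ r : UI, (min (max r s₀) (s m), j) ∈ N := fun r =>
    hb' ⟨le_min (le_max_right _ _) (hs1 m).1.le, (min_le_right _ _).trans_lt hn1⟩
  have hmm : min (max (s m) s₀) (s m) = s m := min_eq_right (le_max_left _ _)
  refine ⟨fun r x => if s m ≤ r then U m (r, ⟨j, hj⟩) x else S (min (max r s₀) (s m), j) x,
    ite_ClosedS isOpen_compl_singleton.uniqueDiffOn _
      ((hG m).1.param (g := fun r : UI => (r, (⟨j, hj⟩ : Jet))) (by fun_prop))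
      (f1.param (g := fun r : UI => (⟨_, hm r⟩ : N)) (by fun_prop)) fun x _ => ?_, fun r => ?_⟩
  · rw [hmm, ← f3 (s m, j) (hmm ▸ hm (s m)) _ (hW m _).1 (hW m _).2.2 hn2]
  · by_cases hr : s m ≤ r
    · simpa only [if_pos hr, max_eq_left hr, max_eq_left ((hs1 m).1.le.trans hr)] using
        (hG m).2 (r, ⟨j, hj⟩)
    · simpa only [if_neg hr, min_eq_left (max_le (not_le.1 hr).le (hs1 m).1.le)] using f2 _ (hm r)

theorem one_ClosedS {φ : UI → Fr} (hs : Std φ) : Reach φ 1 := by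
  intro j hj
  let L : W →L[ℂ] V := (ContinuousLinearMap.fst ℂ ℂ ℂ).smulRight j.1 +
    (ContinuousLinearMap.snd ℂ ℂ ℂ).smulRight j.2
  have hL : ∀ q, L q = q.1 • j.1 + q.2 • j.2 := fun _ => rfl
  have hd : ∀ q h, fderiv ℝ L q h = L h := fun q h => by
    rw [show fderiv ℝ L q = L.restrictScalars ℝ from (L.restrictScalars ℝ).fderiv]
    rfl
  have hi : Function.Injective L := (injective_iff_map_eq_zero L).2 fun q hq => by
    rw [hL] at hq
    by_cases h : q.2 = 0
    · rw [h, zero_smul, add_zero, smul_eq_zero_iff_left hj.1] at hq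
      exact Prod.ext hq h
    · refine absurd ?_ (hj.2 (-(q.2⁻¹ * q.1)))
      rw [neg_smul, mul_smul, ← smul_neg, neg_eq_of_add_eq_zero_right hq, inv_smul_smul₀ h]
  have hne : ∀ q, q ≠ 0 → L q ≠ 0 := fun q hq h => hq (hi (h.trans (map_zero L).symm))
  refine ⟨fun _ => L, fam_of_contDiffOn isOpen_compl_singleton.uniqueDiffOn
    (L.restrictScalars ℝ).contDiff.contDiffOn, fun s =>
    ⟨⟨(L.restrictScalars ℝ).contDiff.contDiffOn, hne, fun c q => map_smul L c q,
      fun q hq h => ?_⟩, ⟨fun q _ a b e => hi ?_, hi.injOn⟩, ?_⟩⟩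
  · beta_reduce
    rw [max_eq_right unitInterval.le_one', hs _ (hne q hq), hd, hd, map_smul]
  · rwa [hd, hd] at e
  · beta_reduce
    rw [jet, hd, hL, hL]
    simp

theorem gromov (hO : OpenStmt) (hC : ClosedStmt) (hJ : JointStmt) : GromovStmt := by
  intro P _ φ om hφ hom ht hs
  have key : ∀ p, ∀ j ∈ Jet, ∃ u, Lift (fun s => φ (p, s)) j u := fun p => by
    have hf : FrFam fun s => φ (p, s) := param_ClosedS hφ (by fun_prop)
    have hone : Reach (fun s => φ (p, s)) 1 := one_ClosedS (φ := fun s => φ (p, s)) (hs p)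
    have hup : ∀ a b : UI, a ≤ b → Reach (fun s => φ (p, s)) a → Reach (fun s => φ (p, s)) b :=
      fun a b hab ha => by
        obtain ⟨δ, h1, h2⟩ := hO _ hf (hs p) a ha
        exact h2 b ((sub_lt_self _ h1).trans_le hab)
    have h1 : IsClopen {s₀ | Reach (fun s => φ (p, s)) s₀} := by
      refine ⟨isOpen_compl_iff.1 (isOpen_iff_mem_nhds.2 fun a ha => ?_),
        isOpen_iff_mem_nhds.2 fun a ha => ?_⟩
      · have h2 : a < 1 := lt_of_le_of_ne unitInterval.le_one' fun e => ha (e ▸ hone)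
        obtain ⟨b, h3, h4⟩ : ∃ b, a < b ∧ ¬ Reach (fun s => φ (p, s)) b := by
          by_contra h
          push Not at h
          exact ha (hC _ (fun s => om (p, s)) hf (by fun_prop) (fun s => ht _) (hs p) a h2 h)
        exact mem_of_superset (gt_mem_nhds h3) fun c hc h => h4 (hup c b (le_of_lt hc) h)
      · obtain ⟨δ, h2, h3⟩ := hO _ hf (hs p) a ha
        exact mem_of_superset ((isOpen_lt continuous_const continuous_subtype_val).mem_nhds
          (sub_lt_self _ h2)) h3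
    have h2 : Reach (fun s => φ (p, s)) 0 := (h1.eq_univ ⟨1, hone⟩).ge (mem_univ 0)
    simpa only [Reach, max_eq_left unitInterval.nonneg'] using h2
  choose u hu using key
  exact ⟨fun a => u a.1.1 a.2 a.2.2 a.1.2, hJ P φ _ hφ hs fun p j => hu p j j.2,
    fun a => (hu a.1.1 a.2 a.2.2).2 a.1.2⟩

end Pool.Agent.MP_2fc7fa_gt.N
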