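import Pool.Agent.MP_2fc7fa_gt.N.IfK

/-! The maximum principle in the two charts. -/

open scoped ContDiff ComplexConjugate Topology
open Set Complex Filter Metric MeasureTheory

noncomputable section

namespace Pool.Agent.MP_2fc7fa_gt.N

lemma disc_KAMP (h2 : T2Stmt) {C K m : ℝ}
    (hC : ∀ h : ℂ → ℂ, Bdd h 0 2 K → ∀ z, ‖cT h z‖ ≤ C * 2 * K) {γ : ℂ → ℂ}
    (hγ : ContDiff ℝ 1 γ) (hK : ∀ z, ‖dbar γ z‖ ≤ K) (hm : ∀ z, 3 / 2 ≤ ‖z‖ → ‖γ z‖ ≤ m) :
    ∀ z ∈ closedBall (0 : ℂ) (3 / 2), ‖γ z‖ ≤ m + 4 * (C * K) := by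
  have hf := hγ.continuous_fderiv one_ne_zero
  have hc : Continuous (dbar γ) :=
    ((hf.clm_apply continuous_const).add ((hf.clm_apply continuous_const).const_smul I)).const_smul
      (1 / 2 : ℂ)
  have hB : Bdd (indicator (ball (0 : ℂ) 2) (dbar γ)) 0 2 K :=
    ⟨hc.aestronglyMeasurable.indicator measurableSet_ball,
      fun z => (norm_indicator_le_norm_self _ _).trans (hK z),
      fun z hz => indicator_of_notMem (by simpa using hz) _⟩
  have hd := h2 ℂ _ γ 0 2 K (ball 0 2) hB isOpen_ball hγ.contDiffOn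
    fun z hz => (indicator_of_mem hz _).symm
  intro z hz
  have h3 := Complex.norm_le_of_forall_mem_frontier_norm_le (C := m + C * 2 * K) isBounded_ball
    (hd.diffContOnCl_ball (c := 0) (R := 3 / 2) (closedBall_subset_ball (by norm_num)))
    (fun w hw => by
      rw [frontier_ball _ (by norm_num), mem_sphere_zero_iff_norm] at hw
      exact (norm_sub_le _ _).trans (add_le_add (hm w hw.ge) (hC _ hB w)))
    (z := z) (by rwa [closure_ball _ (by norm_num)])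
  have h4 := norm_add_le (γ z - cT (indicator (ball (0 : ℂ) 2) (dbar γ)) z)
    (cT (indicator (ball (0 : ℂ) 2) (dbar γ)) z)
  rw [sub_add_cancel] at h4
  have h5 := hC _ hB z
  linarith

lemma far_KAMP {α β : ℂ → ℂ} {b : ℝ} (h : ∀ z : ℂ, z ≠ 0 → α z = z⁻¹ - (z ^ 2)⁻¹ * β z⁻¹)
    (hb : ∀ z ∈ closedBall (0 : ℂ) (3 / 2), ‖β z‖ ≤ b) (z : ℂ) (hz : 3 / 2 ≤ ‖z‖) :
    ‖α z‖ ≤ 2 / 3 + 4 / 9 * b := by
  have hz0 : z ≠ 0 := by
    rintro rfl
    norm_num at hz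
  have h1 : ‖z⁻¹‖ ≤ 2 / 3 := by
    rw [norm_inv]
    exact (inv_anti₀ (by norm_num) hz).trans (by norm_num)
  have h2 : ‖(z ^ 2)⁻¹‖ ≤ 4 / 9 := by
    rw [← inv_pow, norm_pow]
    nlinarith [norm_nonneg z⁻¹]
  have h3 := hb z⁻¹ (by rw [mem_closedBall_zero_iff]; linarith)
  rw [h z hz0]
  refine (norm_sub_le _ _).trans (add_le_add h1 ?_)
  rw [norm_mul]
  exact mul_le_mul h2 h3 (norm_nonneg _) (by norm_num)

theorem kAMP (h1 : T1Stmt) (h2 : T2Stmt) : AMPStmt := by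
  obtain ⟨C, hC0, hC⟩ := h1
  refine ⟨3 + 15 * C, by positivity, fun α β K hα hβ hK h => ?_⟩
  have hK0 : 0 ≤ K := (norm_nonneg _).trans (hK 0).1
  have hC' : ∀ g : ℂ → ℂ, Bdd g 0 2 K → ∀ z, ‖cT g z‖ ≤ C * 2 * K :=
    fun g hg => (hC ℂ g 0 2 K two_pos hg).1
  have h' : ∀ w : ℂ, w ≠ 0 → β w = w⁻¹ - (w ^ 2)⁻¹ * α w⁻¹ := fun w hw => by
    rw [h _ (inv_ne_zero hw), inv_inv]
    field_simp
    ring
  have hne : (closedBall (0 : ℂ) (3 / 2)).Nonempty := nonempty_closedBall.2 (by norm_num)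
  obtain ⟨x, hx, ha⟩ := (isCompact_closedBall (0 : ℂ) (3 / 2)).exists_isMaxOn hne
    hα.continuous.norm.continuousOn
  obtain ⟨y, hy, hb⟩ := (isCompact_closedBall (0 : ℂ) (3 / 2)).exists_isMaxOn hne
    hβ.continuous.norm.continuousOn
  have fa := far_KAMP h fun z hz => hb hz
  have fb := far_KAMP h' fun z hz => ha hz
  have ea := disc_KAMP h2 hC' hα (fun z => (hK z).1) fa x hx
  have eb := disc_KAMP h2 hC' hβ (fun z => (hK z).2) fb y hy
  have hCK : 0 ≤ C * K := by positivity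
  have e1 : (3 + 15 * C) * (1 + K) = 3 + 15 * (C * K) + 3 * K + 15 * C := by ring
  have n1 := norm_nonneg (α x)
  have n2 := norm_nonneg (β y)
  intro z
  rw [e1]
  rcases le_total ‖z‖ (3 / 2) with hz | hz
  · have a1 : ‖α z‖ ≤ ‖α x‖ := ha (mem_closedBall_zero_iff.2 hz)
    have a2 : ‖β z‖ ≤ ‖β y‖ := hb (mem_closedBall_zero_iff.2 hz)
    constructor <;> linarith
  · have a1 := fa z hz
    have a2 := fb z hz
    constructor <;> linarith

end Pool.Agent.MP_2fc7fa_gt.N
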