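import Pool.Agent.MP_2fc7fa_gt.N.IfK

/-! The energy density controls the connection form and the derivative. -/

open scoped ContDiff ComplexConjugate Topology
open Set Complex Filter Metric

noncomputable section

namespace Pool.Agent.MP_2fc7fa_gt.N

lemma opn_KAlpha (L : ℂ →L[ℝ] V) : ‖L‖ ≤ ‖L 1‖ + ‖L I‖ := by
  refine L.opNorm_le_bound (by positivity) fun h => ?_
  have e : h = h.re • (1 : ℂ) + h.im • I := by simp
  have e1 : L h = h.re • L 1 + h.im • L I := by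
    conv_lhs => rw [e, map_add, map_smul, map_smul]
  rw [e1, add_mul]
  refine (norm_add_le _ _).trans (add_le_add ?_ ?_)
  · rw [norm_smul, mul_comm]
    exact mul_le_mul_of_nonneg_left (abs_re_le_norm h) (norm_nonneg _)
  · rw [norm_smul, mul_comm]
    exact mul_le_mul_of_nonneg_left (abs_im_le_norm h) (norm_nonneg _)

theorem kAlpha (hR : RegStmt) (hT : TameKStmt) (hC : CurvStmt) (hD : DbarStmt) : AlphaStmt := by
  intro P _ φ om p₀ hF hom ht
  obtain ⟨C₁, h1, e1⟩ := hT P φ om p₀ hF hom ht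
  obtain ⟨C₂, h2, e2⟩ := hC P φ p₀ hF
  refine ⟨2 * C₂ * (C₁ + 1), by positivity, ?_⟩
  filter_upwards [e1, e2] with p e1 e2 u O hO hu hne hcr
  have hcof : Cofr (φ p).A {0}ᶜ := ⟨isOpen_compl_singleton, (φ p).smoothA, fun x hx =>
    Function.LeftInverse.injective ((φ p).BA x hx)⟩
  have hs := hR V _ _ u O hcof hO hu hne hcr
  obtain ⟨d1, d2⟩ := hD (φ p) u O hO hs hne hcr
  refine ⟨d1, fun z hz => ?_⟩
  have hx := hne z hz
  have hx' : 0 < ‖u z‖ := norm_pos_iff.2 hx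
  set τ := (φ p).A (u z) (fderiv ℝ u z 1) with hτ
  have a1 : (φ p).A (u z) (fderiv ℝ u z I) = I • τ := hcr z hz
  have a2 : fderiv ℝ u z I = (φ p).J (u z) (fderiv ℝ u z 1) := by
    rw [Fr.J, ← hτ, ← a1, (φ p).BA _ hx]
  have a3 := e1 (u z) hx (fderiv ℝ u z 1)
  rw [← a2, ← hτ] at a3
  change _ ≤ C₁ * ‖u z‖ ^ 2 * dens (om p) u z at a3
  set e := dens (om p) u z
  have he : 0 ≤ e := by
    by_contra hn
    have : C₁ * ‖u z‖ ^ 2 * e < 0 := mul_neg_of_pos_of_neg (by positivity) (not_le.1 hn)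
    nlinarith [sq_nonneg ‖hp (u z) τ‖]
  obtain ⟨b1, b2⟩ := e2 (u z) hx
  constructor
  · have b3 := b2 (fderiv ℝ u z 1) (fderiv ℝ u z I)
    rw [← d2 z hz, a1, ← hτ, hp_smul, norm_smul, norm_mul, norm_mul, norm_I, Complex.norm_two] at b3
    have b4 : 2 * ‖dbar (al (φ p) u) z‖ * ‖u z‖ ^ 2 ≤ C₂ * C₁ * e * ‖u z‖ ^ 2 := by
      nlinarith [mul_le_mul_of_nonneg_left a3 h2.le]
    have b5 := le_of_mul_le_mul_right b4 (by positivity)
    nlinarith [mul_nonneg h2.le he, mul_nonneg (mul_nonneg h2.le h1.le) he,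
      norm_nonneg (dbar (al (φ p) u) z)]
  · have c1 : ‖hp (u z) τ‖ ≤ (C₁ + 1) * (1 + e) * ‖u z‖ := by
      refine abs_le_of_sq_le_sq' ?_ (by positivity) |>.2
      refine a3.trans ?_
      have : C₁ * e ≤ ((C₁ + 1) * (1 + e)) ^ 2 := by
        have k1 : C₁ * e ≤ (C₁ + 1) * (1 + e) := by nlinarith
        have k2 : 1 ≤ (C₁ + 1) * (1 + e) := by nlinarith [mul_nonneg h1.le he]
        nlinarith
      nlinarith [mul_le_mul_of_nonneg_right this (sq_nonneg ‖u z‖)]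
    have c2 : τ = al (φ p) u z • u z + hp (u z) τ := by
      rw [hp]
      exact (add_sub_cancel _ _).symm
    have c3 : ‖τ‖ ≤ (C₁ + 1) * (1 + ‖al (φ p) u z‖ + e) * ‖u z‖ := by
      have := (congrArg norm c2).trans_le (norm_add_le _ _)
      rw [norm_smul] at this
      nlinarith [mul_nonneg h1.le (mul_nonneg (norm_nonneg (al (φ p) u z)) hx'.le)]
    have c4 : ‖fderiv ℝ u z 1‖ ≤ C₂ * ‖τ‖ := by
      rw [← (φ p).BA _ hx (fderiv ℝ u z 1), ← hτ]
      exact ((φ p).B (u z)).le_of_opNorm_le b1 _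
    have c5 : ‖fderiv ℝ u z I‖ ≤ C₂ * ‖τ‖ := by
      rw [← (φ p).BA _ hx (fderiv ℝ u z I), a1]
      refine (((φ p).B (u z)).le_of_opNorm_le b1 _).trans_eq ?_
      rw [norm_smul, norm_I, one_mul]
    refine (opn_KAlpha _).trans ?_
    nlinarith [mul_le_mul_of_nonneg_left c3 h2.le]

end Pool.Agent.MP_2fc7fa_gt.N
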