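import Pool.Agent.MP_2fc7fa_gt.N.IfK

/-! A bubble carries at least the energy of a line. -/

open scoped Topology
open Set Complex Filter Metric MeasureTheory

noncomputable section

namespace Pool.Agent.MP_2fc7fa_gt.N

theorem kBubble (hRg : RegaugeStmt) (hL : LimitStmt) (hD : DensStmt) (hQ : QuantStmt)
    (hP : EnPlaneStmt) : BubbleStmt := by
  intro P _ φ om p p₀ u R E hφ hom hT hp hG ε hε
  obtain ⟨w, C, hC, hw⟩ := hRg P φ om p p₀ u R E hφ hom hT hp hG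
  obtain ⟨hR, hGn⟩ := hG
  obtain ⟨ψ, u', hψ, hu1, hu0, hucr, hconv⟩ := hL P φ p p₀ w 0 C hφ hp hC
    (hw.mono fun n h => h.1) (fun r => by
      filter_upwards [hw, hR.eventually_ge_atTop r] with n h hr
      have hs : ball (0 : ℂ) r ⊆ ball 0 (R n) := ball_subset_ball hr
      exact ⟨h.2.1.mono hs, fun z hz => h.2.2.1 z (hs hz), fun z hz => (h.2.2.2 z (hs hz)).1⟩)
  have hψt : Tendsto ψ atTop atTop := hψ.tendsto_atTop
  have hev : ∀ᶠ n in atTop, ContinuousOn (dens (om (p n)) (w n)) (ball 0 (R n)) ∧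
      (∀ z ∈ ball (0 : ℂ) (R n), 0 ≤ dens (om (p n)) (w n) z ∧ dens (om (p n)) (w n) z ≤ 1) ∧
      dens (om (p n)) (w n) 0 = 1 ∧ ∫ z in ball (0 : ℂ) (R n), dens (om (p n)) (w n) z ≤ E := by
    filter_upwards [hw, hGn, hR.eventually_gt_atTop 0] with n h g hr
    refine ⟨(hD.2.1 (om (p n)) (u n) (ball 0 (R n)) isOpen_ball g.1
      (fun z hz => (g.2.1 z hz).1)).congr (fun z hz => (h.2.2.2 z hz).2), fun z hz => ?_, ?_, ?_⟩
    · rw [(h.2.2.2 z hz).2]
      refine ⟨hD.1 (φ (p n)) (om (p n)) (u n) z (hT _) (g.2.1 z hz).1 (fun t ht => ?_),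
        (g.2.1 z hz).2⟩
      rw [mem_singleton_iff.1 ht]
      exact g.2.2.1 z hz
    · rw [(h.2.2.2 0 (mem_ball_self hr)).2]
      exact g.2.2.2.1
    · rw [setIntegral_congr_fun measurableSet_ball (fun z hz => (h.2.2.2 z hz).2)]
      exact g.2.2.2.2
  obtain ⟨hint, hq⟩ := hQ (fun n => dens (om (p (ψ n))) (w (ψ n))) (dens (om p₀) u')
    (fun n => R (ψ n)) E (hR.comp hψt)
    (continuousOn_univ.1 (hD.2.1 (om p₀) u' univ isOpen_univ hu1.contDiffOn (fun z _ => hu0 z)))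
    (fun z => hD.2.2 P om (fun n => p (ψ n)) p₀ (fun n => w (ψ n)) u' hom (hp.comp hψt) hconv z
      (hu0 z)) (hψt.eventually hev)
  obtain ⟨r, hr, hev'⟩ := hq (hP (φ p₀) (om p₀) u' (hT p₀) hu1 hu0 hucr hint) ε hε
  refine ⟨r, hr, hψt.frequently (Eventually.frequently ?_)⟩
  filter_upwards [hev', hψt.eventually hw, hψt.eventually (hR.eventually_ge_atTop r)]
    with n h1 h2 h3
  rw [← setIntegral_congr_fun measurableSet_ball
    (fun z hz => (h2.2.2.2 z (ball_subset_ball h3 hz)).2)]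
  exact h1

end Pool.Agent.MP_2fc7fa_gt.N
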