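import Pool.Agent.MP_2fc7fa_gt.N.IfK

/-! Holomorphic change of variables. -/

open Set Complex MeasureTheory

namespace Pool.Agent.MP_2fc7fa_gt.N

theorem det_KCoV (c : ℂ) :
    ((ContinuousLinearMap.toSpanSingleton ℂ c).restrictScalars ℝ : ℂ →L[ℝ] ℂ).det = ‖c‖ ^ 2 := by
  rw [ContinuousLinearMap.det, ← LinearMap.det_toMatrix Complex.basisOneI, Matrix.det_fin_two]
  simp [LinearMap.toMatrix_apply, Complex.sq_norm, Complex.normSq_apply]

theorem kCoV : CoVStmt := by
  intro e g g' S hS hd hi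
  rw [integral_image_eq_integral_abs_det_fderiv_smul volume hS
    (fun z hz => ((hd z hz).hasFDerivAt.restrictScalars ℝ).hasFDerivWithinAt) hi]
  refine setIntegral_congr_fun hS fun z _ => ?_
  simp only [det_KCoV, smul_eq_mul, abs_pow, abs_norm]

end Pool.Agent.MP_2fc7fa_gt.N
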