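import Pool.Agent.MP_2fc7fa_gt.N.IfK

/-! The differential of the connection form is basic, with uniform bounds. -/

open scoped ContDiff ComplexConjugate Topology
open Set Complex Filter Metric

noncomputable section

namespace Pool.Agent.MP_2fc7fa_gt.N

theorem bound_KCurv {P E : Type} [TopologicalSpace P] [NormedAddCommGroup E] {F : P → V → E}
    (h : JC {0}ᶜ F) (p₀ : P) :
    ∃ M : ℝ, 0 < M ∧ ∀ᶠ p in 𝓝 p₀, ∀ x : V, ‖x‖ = 1 → ‖F p x‖ ≤ M := by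
  have hs : sphere (0 : V) 1 ⊆ {0}ᶜ := by
    rintro x hx rfl
    simp at hx
  obtain ⟨C, hC⟩ := (isCompact_sphere (0 : V) 1).exists_bound_of_continuousOn
    ((h.at p₀).mono hs)
  refine ⟨|C| + 1, by positivity, ?_⟩
  have := (isCompact_sphere (0 : V) 1).eventually_forall_of_forall_eventually (x₀ := p₀)
    (P := fun p x => ‖F p x‖ ≤ |C| + 1) fun x hx => by
      have h1 : ContinuousAt (fun q : P × V => F q.1 q.2) (p₀, x) :=
        ContinuousOn.continuousAt h ((isOpen_univ.prod isOpen_compl_singleton).mem_nhds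
          ⟨mem_univ _, hs hx⟩)
      exact h1.norm.eventually_le_const
        (lt_of_le_of_lt ((hC x hx).trans (le_abs_self C)) (lt_add_one _))
  exact this.mono fun p hp x hx => hp x (by simpa using hx)

theorem dcf_KCurv (φ : Fr) {x : V} (hx : x ≠ 0) :
    HasFDerivAt (cf φ) (fderiv ℝ (cf φ) x) x :=
  (((cf_smooth φ).contDiffAt (isOpen_compl_singleton.mem_nhds hx)).differentiableAt
    (by simp)).hasFDerivAt

theorem right_KCurv (φ : Fr) {x : V} (hx : x ≠ 0) (c : ℂ) (b : V) :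
    fderiv ℝ (cf φ) x b (c • x) = -cf φ x (c • b) := by
  have h1 := (dcf_KCurv φ hx).clm_apply ((hasFDerivAt_id x).const_smul c)
  have h2 : HasFDerivAt (fun y : V => cf φ y (c • y)) (0 : V →L[ℝ] ℂ) x :=
    (hasFDerivAt_const c x).congr_of_eventuallyEq
      ((eventually_ne_nhds hx).mono fun y hy => cf_vert φ hy c)
  have h3 := congrArg (fun T : V →L[ℝ] ℂ => T b) (h1.unique h2)
  simp at h3
  exact eq_neg_of_add_eq_zero_right h3

theorem left_KCurv (φ : Fr) {x : V} (hx : x ≠ 0) (c : ℂ) (b : V) :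
    fderiv ℝ (cf φ) x (c • x) b = -cf φ x (c • b) := by
  have h0 : HasFDerivAt (cf φ) (fderiv ℝ (cf φ) x) ((1 : ℂ) • x) := by
    rw [one_smul]
    exact dcf_KCurv φ hx
  have h1 := (h0.comp (1 : ℂ) ((hasFDerivAt_id (𝕜 := ℝ) (1 : ℂ)).smul_const x)).clm_apply
    ((hasFDerivAt_id (𝕜 := ℝ) (1 : ℂ)).smul_const b)
  have h2 : HasFDerivAt (fun s : ℂ => cf φ (s • x) (s • b)) (0 : ℂ →L[ℝ] ℂ) 1 :=
    (hasFDerivAt_const (cf φ x b) (1 : ℂ)).congr_of_eventuallyEq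
      ((eventually_ne_nhds one_ne_zero).mono fun s hs => cf_scale φ hx hs b)
  have h3 := congrArg (fun T : ℂ →L[ℝ] ℂ => T c) (h1.unique h2)
  simp at h3
  exact eq_neg_of_add_eq_zero_right h3

theorem scale_KCurv (φ : Fr) {x : V} (hx : x ≠ 0) {c : ℂ} (hc : c ≠ 0) (a b : V) :
    fderiv ℝ (cf φ) (c • x) (c • a) (c • b) = fderiv ℝ (cf φ) x a b := by
  have h1 := ((dcf_KCurv φ (smul_ne_zero hc hx)).comp x
    ((hasFDerivAt_id x).const_smul c)).clm_apply (hasFDerivAt_const (c • b) x)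
  have h2 : HasFDerivAt (fun y : V => cf φ (c • y) (c • b)) _ x :=
    ((dcf_KCurv φ hx).clm_apply (hasFDerivAt_const b x)).congr_of_eventuallyEq
      ((eventually_ne_nhds hx).mono fun y hy => cf_scale φ hy hc b)
  simpa using congrArg (fun T : V →L[ℝ] ℂ => T a) (h1.unique h2)

theorem split_KCurv (φ : Fr) {x : V} (hx : x ≠ 0) (a : V) :
    a = vc x (φ.A x a) • x + φ.B x (hp x (φ.A x a)) := by
  rw [hp, map_sub, φ.BA x hx, φ.vert x hx, add_sub_cancel]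

theorem basic_KCurv (φ : Fr) {x : V} (hx : x ≠ 0) (c d : ℂ) (a b : V) :
    fderiv ℝ (cf φ) x (c • x + a) (d • x + b) - fderiv ℝ (cf φ) x (d • x + b) (c • x + a) =
      fderiv ℝ (cf φ) x a b - fderiv ℝ (cf φ) x b a := by
  simp only [map_add, add_apply, left_KCurv φ hx, right_KCurv φ hx, smul_comm c d x]
  ring

theorem kCurv : CurvStmt := by
  intro P _ φ p₀ hφ
  have hU : UniqueDiffOn ℝ ({0}ᶜ : Set V) := isOpen_compl_singleton.uniqueDiffOn
  have f1 : Fam {0}ᶜ 1 (V →L[ℝ] ℂ) fun p => cf (φ p) :=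
    (fam_of_contDiffOn (P := P) hU vc_smooth).bilin (hφ 1).2 (ContinuousLinearMap.compL ℝ V V ℂ)
  have f2 : JC {0}ᶜ fun p => fderiv ℝ (cf (φ p)) :=
    ((f1.fderivWithin hU).congr fun p x hx =>
      (fderivWithin_of_isOpen isOpen_compl_singleton hx).symm).jc
  obtain ⟨M, hM, h1⟩ := bound_KCurv (E := V →L[ℝ] V →L[ℝ] ℂ) f2 p₀
  obtain ⟨K, hK, h2⟩ := bound_KCurv (hφ 0).1.jc p₀
  refine ⟨K + 2 * M * K ^ 2, by positivity, ?_⟩
  filter_upwards [h1, h2] with p h1 h2 x hx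
  have hs : 0 < ‖x‖ := norm_pos_iff.2 hx
  have hs' : ((‖x‖ : ℝ) : ℂ) ≠ 0 := ofReal_ne_zero.2 hs.ne'
  obtain ⟨y, hy, e⟩ : ∃ y : V, ‖y‖ = 1 ∧ x = ((‖x‖ : ℝ) : ℂ) • y :=
    ⟨((‖x‖ : ℝ) : ℂ)⁻¹ • x, by simp [norm_smul, hs.ne'], by rw [smul_inv_smul₀ hs']⟩
  have hy0 : y ≠ 0 := by
    rintro rfl
    simp at hy
  have hB : (φ p).B x = (φ p).B y := by
    ext1 v
    have := (φ p).scale y hy0 _ hs' v
    rw [← e, coe_smul, coe_smul, map_smul] at this
    exact smul_right_injective V hs.ne' this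
  have hB' : ‖(φ p).B x‖ ≤ K := hB ▸ h2 y hy
  have hD : ∀ a b : V, ‖fderiv ℝ (cf (φ p)) x a b‖ * ‖x‖ ^ 2 ≤ M * ‖a‖ * ‖b‖ := by
    intro a b
    have := scale_KCurv (φ p) hy0 hs' a b
    rw [← e, coe_smul, coe_smul, map_smul, map_smul, smul_apply] at this
    calc ‖fderiv ℝ (cf (φ p)) x a b‖ * ‖x‖ ^ 2 = ‖fderiv ℝ (cf (φ p)) y a b‖ := by
          rw [← this, norm_smul, norm_smul, norm_norm]
          ring
      _ ≤ ‖fderiv ℝ (cf (φ p)) y‖ * ‖a‖ * ‖b‖ := ContinuousLinearMap.le_opNorm₂ _ _ _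
      _ ≤ M * ‖a‖ * ‖b‖ := by
          gcongr
          exact h1 y hy
  refine ⟨hB'.trans (le_add_of_nonneg_right (by positivity)), fun a b => ?_⟩
  have e1 := basic_KCurv (φ p) hx (vc x ((φ p).A x a)) (vc x ((φ p).A x b))
    ((φ p).B x (hp x ((φ p).A x a))) ((φ p).B x (hp x ((φ p).A x b)))
  rw [← split_KCurv (φ p) hx, ← split_KCurv (φ p) hx] at e1
  rw [e1]
  generalize hp x ((φ p).A x a) = a', hp x ((φ p).A x b) = b'
  have ha : ‖(φ p).B x a'‖ ≤ K * ‖a'‖ := (ContinuousLinearMap.le_of_opNorm_le _ hB' a')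
  have hb : ‖(φ p).B x b'‖ ≤ K * ‖b'‖ := (ContinuousLinearMap.le_of_opNorm_le _ hB' b')
  have h3 := hD ((φ p).B x a') ((φ p).B x b')
  have h4 := hD ((φ p).B x b') ((φ p).B x a')
  have h5 : M * ‖(φ p).B x a'‖ * ‖(φ p).B x b'‖ ≤ M * (K * ‖a'‖) * (K * ‖b'‖) := by gcongr
  have h6 := mul_le_mul_of_nonneg_right (norm_sub_le
    (fderiv ℝ (cf (φ p)) x ((φ p).B x a') ((φ p).B x b'))
    (fderiv ℝ (cf (φ p)) x ((φ p).B x b') ((φ p).B x a'))) (sq_nonneg ‖x‖)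
  have h7 : 0 ≤ K * ‖a'‖ * ‖b'‖ := by positivity
  nlinarith

end Pool.Agent.MP_2fc7fa_gt.N
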