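import Pool.Agent.MP_2fc7fa_gt.N.IfK

open scoped ContDiff ComplexConjugate Topology
open Set Complex Filter Metric

noncomputable section

namespace Pool.Agent.MP_2fc7fa_gt.N

theorem two_KDbar : (2 : WithTop ℕ∞) ≤ ∞ := ENat.LEInfty.out

theorem der_KDbar (φ : Fr) (u : ℂ → V) (z : ℂ) (hu : ContDiffAt ℝ ∞ u z) (hne : u z ≠ 0)
    (h k : ℂ) :
    DifferentiableAt ℝ (fun t => cf φ (u t) (fderiv ℝ u t h)) z ∧
    fderiv ℝ (fun t => cf φ (u t) (fderiv ℝ u t h)) z k =
      fderiv ℝ (cf φ) (u z) (fderiv ℝ u z k) (fderiv ℝ u z h) +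
        cf φ (u z) (fderiv ℝ (fderiv ℝ u) z k h) := by
  have h1 : DifferentiableAt ℝ (cf φ) (u z) :=
    ((cf_smooth φ).contDiffAt (isOpen_compl_singleton.mem_nhds hne)).differentiableAt (by simp)
  have h2 : DifferentiableAt ℝ u z := hu.differentiableAt (by simp)
  have h3 : DifferentiableAt ℝ (fderiv ℝ u) z :=
    (hu.fderiv_right (m := 1) (by rw [one_add_one_eq_two]; exact two_KDbar)).differentiableAt (by simp)
  have a1 : HasFDerivAt (fun t => cf φ (u t)) ((fderiv ℝ (cf φ) (u z)).comp (fderiv ℝ u z)) z :=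
    h1.hasFDerivAt.comp z h2.hasFDerivAt
  have a2 := h3.hasFDerivAt.clm_apply (hasFDerivAt_const h z)
  have a3 := a1.clm_apply a2
  refine ⟨a3.differentiableAt, ?_⟩
  rw [a3.fderiv]
  simp [add_comm]

theorem kDbar : DbarStmt := by
  intro φ u O hO hu hne hCR
  refine ⟨?_, fun z hz => ?_⟩
  · have h1 : ContDiffOn ℝ ∞ (fun t => cf φ (u t)) O :=
      (cf_smooth φ).comp hu (fun t ht => hne t ht)
    have h2 : ContDiffOn ℝ 1 (fderiv ℝ u) O :=
      hu.fderiv_of_isOpen hO (by rw [one_add_one_eq_two]; exact two_KDbar)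
    exact (h1.of_le (by exact_mod_cast le_top)).clm_apply (h2.clm_apply contDiffOn_const)
  · have hz' : O ∈ 𝓝 z := hO.mem_nhds hz
    have huz : ContDiffAt ℝ ∞ u z := hu.contDiffAt hz'
    have hev : (fun t => cf φ (u t) (fderiv ℝ u t I)) =ᶠ[𝓝 z]
        fun t => I • cf φ (u t) (fderiv ℝ u t 1) := by
      filter_upwards [hz'] with t ht
      simp only [cf, ContinuousLinearMap.comp_apply, smul_eq_mul]
      rw [hCR t ht, vc_smul]
    obtain ⟨d1, e1⟩ := der_KDbar φ u z huz (hne z hz) 1 I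
    obtain ⟨-, e2⟩ := der_KDbar φ u z huz (hne z hz) I 1
    have e3 : fderiv ℝ (fun t => cf φ (u t) (fderiv ℝ u t I)) z 1 =
        I * fderiv ℝ (fun t => cf φ (u t) (fderiv ℝ u t 1)) z 1 := by
      rw [hev.fderiv_eq, (d1.hasFDerivAt.fun_const_smul I).fderiv]
      simp
    have hs : fderiv ℝ (fderiv ℝ u) z 1 I = fderiv ℝ (fderiv ℝ u) z I 1 :=
      (huz.isSymmSndFDerivAt (by simpa using two_KDbar)).eq 1 I
    have hal : al φ u = fun t => cf φ (u t) (fderiv ℝ u t 1) := rfl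
    rw [hal]
    unfold dbar
    rw [hs] at e2
    simp only [smul_eq_mul]
    have hI := I_mul_I
    linear_combination -e3 + e2 - e1 +
      fderiv ℝ (fun t => cf φ (u t) (fderiv ℝ u t 1)) z I * hI

end Pool.Agent.MP_2fc7fa_gt.N
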