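import Pool.Agent.MP_2fc7fa_gt.N.IfK

/-! Sign, continuity and convergence of the energy density. -/

open scoped ContDiff ComplexConjugate Topology
open Set Complex Filter Metric

noncomputable section

namespace Pool.Agent.MP_2fc7fa_gt.N

theorem cont_KDens : Continuous fun a : (V [⋀^Fin 2]→L[ℝ] ℝ) × (ℂ →L[ℝ] V) =>
    a.1 ![a.2 1, a.2 I] := by
  have h : Continuous fun a : (V [⋀^Fin 2]→L[ℝ] ℝ) × (ℂ →L[ℝ] V) => ![a.2 1, a.2 I] := by
    fun_prop
  exact continuous_eval.comp (continuous_fst.prodMk h)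

theorem kDens (hF : FormStmt) : DensStmt := by
  refine ⟨fun φ σ u z hT hz hC => ?_, fun σ u O hO hu hn => ?_,
    fun P _ om p p₀ w u hom hp hw z hz => ?_⟩
  · have h1 : fderiv ℝ u z I = φ.J (u z) (fderiv ℝ u z 1) := by
      rw [Fr.J, ← hC z rfl, φ.BA _ hz]
    by_cases h : ∃ c : ℂ, fderiv ℝ u z 1 = c • u z
    · obtain ⟨c, hc⟩ := h
      exact (σ.isForm.horiz (u z) _ 0 c hc).ge
    · rw [dens, h1]
      exact (hT _ hz _ fun c hc => h ⟨c, hc⟩).le
  · exact cont_KDens.comp_continuousOn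
      ((σ.isForm.smooth.continuousOn.comp hu.continuousOn hn).prodMk
        (hu.continuousOn_fderiv_of_isOpen hO le_rfl))
  · have hz' : z ∈ ball (0 : ℂ) (‖z‖ + 1) := by simp
    have h1 := (hw (‖z‖ + 1)).1.tendsto_at hz'
    have h2 := (hw (‖z‖ + 1)).2.tendsto_at hz'
    have h3 : ContinuousAt (fun q : P × V => (om q.1).form q.2) (p₀, u z) :=
      ContinuousOn.continuousAt (hF P om hom)
        ((isOpen_univ.prod isOpen_compl_singleton).mem_nhds ⟨mem_univ _, hz⟩)
    exact (cont_KDens.tendsto _).comp ((h3.tendsto.comp (hp.prodMk_nhds h1)).prodMk_nhds h2)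

end Pool.Agent.MP_2fc7fa_gt.N
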