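import Pool.Agent.MP_2fc7fa_gt.N.IfK

/-! Joint continuity of a continuous family of forms. -/

open scoped ContDiff ComplexConjugate Topology
open Set Complex Filter Metric MeasureTheory

namespace Pool.Agent.MP_2fc7fa_gt.N

theorem kForm : FormStmt := by
  intro P _ om h
  have hU : IsOpen ({0}ᶜ : Set V) := isOpen_compl_singleton
  have := hU.locallyCompactSpace
  have h2 : Continuous fun σ : Symp 1 => σ.jet 0 :=
    continuous_iInf_dom (i := 0) continuous_induced_dom
  have h3 : JC {0}ᶜ fun p => iteratedFDeriv ℝ 0 (om p).form := by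
    rw [JC, continuousOn_iff_continuous_domRestrict]
    exact continuous_eval.comp (f := fun q : (univ ×ˢ {0}ᶜ : Set (P × V)) =>
      ((om q.1.1).jet 0, (⟨q.1.2, q.2.2⟩ : ({0}ᶜ : Set V)))) (by fun_prop)
  exact (continuous_eval_const (0 : Fin 0 → V)).comp_continuousOn h3

end Pool.Agent.MP_2fc7fa_gt.N
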