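import Pool.Agent.MP_2fc7fa_gt.N.IfK

/-! A holomorphic gauge that makes the connection form bounded. -/

open scoped Topology
open Set Complex Filter Metric MeasureTheory

noncomputable section

namespace Pool.Agent.MP_2fc7fa_gt.N

/-- The truncated kernel. -/
def ker_KGauge (w : ℂ) : ℝ := (ball (0 : ℂ) 1).indicator (fun w => ‖w‖ ^ (-1 : ℝ)) w

theorem ker_nonneg_KGauge (w : ℂ) : 0 ≤ ker_KGauge w :=
  indicator_nonneg (fun w _ => Real.rpow_nonneg (norm_nonneg w) _) w

theorem ker_int_KGauge : Integrable ker_KGauge := by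
  unfold ker_KGauge
  rw [integrable_indicator_iff measurableSet_ball]
  refine integrableOn_ball_of_norm_le_rpow (C := 1) (α := 1) ?_ ?_ ?_ ?_
  · rw [Complex.finrank_real_complex]; norm_num
  · rw [Complex.finrank_real_complex]; norm_num
  · refine Eventually.of_forall fun w => ?_
    rw [Real.norm_eq_abs, abs_of_nonneg (Real.rpow_nonneg (norm_nonneg w) _), one_mul]
  · exact (measurable_norm.pow_const _).aestronglyMeasurable

theorem bound_KGauge {h : ℂ → ℂ} {K : ℝ} (hK : ∀ z, ‖h z‖ ≤ K) (hi : Integrable h) (z : ℂ) :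
    ‖cT h z‖ ≤ (∫ w, ker_KGauge w) * K + ∫ w, ‖h w‖ := by
  have i1 : Integrable fun ζ => ker_KGauge (z - ζ) * K :=
    (ker_int_KGauge.comp_sub_left z).mul_const K
  have hK0 : 0 ≤ K := (norm_nonneg _).trans (hK 0)
  refine (norm_integral_le_of_norm_le (i1.add hi.norm) (Eventually.of_forall fun ζ => ?_)).trans_eq
    ?_
  · have h1 : ‖((Real.pi : ℂ) * (z - ζ))⁻¹‖ ≤ ‖z - ζ‖⁻¹ := by
      rw [mul_inv, norm_mul, norm_inv, norm_inv, Complex.norm_real, Real.norm_eq_abs,
        abs_of_pos Real.pi_pos]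
      refine mul_le_of_le_one_left (inv_nonneg.2 (norm_nonneg _)) (inv_le_one_of_one_le₀ ?_)
      linarith [Real.pi_gt_three]
    rw [norm_smul, Pi.add_apply]
    refine (mul_le_mul_of_nonneg_right h1 (norm_nonneg _)).trans ?_
    by_cases hz : ‖z - ζ‖ < 1
    · have hk : ker_KGauge (z - ζ) = ‖z - ζ‖⁻¹ := by
        unfold ker_KGauge
        rw [indicator_of_mem (mem_ball_zero_iff.2 hz), Real.rpow_neg_one]
      rw [hk]
      exact le_add_of_le_of_nonneg
        (mul_le_mul_of_nonneg_left (hK ζ) (inv_nonneg.2 (norm_nonneg _))) (norm_nonneg _)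
    · exact le_add_of_nonneg_of_le (mul_nonneg (ker_nonneg_KGauge _) hK0)
        (mul_le_of_le_one_left (norm_nonneg _) (inv_le_one_of_one_le₀ (not_lt.1 hz)))
  · simp only [Pi.add_apply]
    rw [integral_add i1 hi.norm, integral_mul_const, integral_sub_left_eq_self ker_KGauge volume z]

theorem kGauge (h1 : T1Stmt) (h2 : T2Stmt) : GaugeStmt := by
  have hA : 0 ≤ ∫ w, ker_KGauge w := integral_nonneg ker_nonneg_KGauge
  refine ⟨(∫ w, ker_KGauge w) + 1, by linarith, fun α R K E hR hα hK hE => ?_⟩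
  have hK0 : 0 ≤ K := (norm_nonneg _).trans (hK 0 (mem_ball_self hR))
  have hE0 : 0 ≤ E := (integral_nonneg fun _ => norm_nonneg _).trans hE
  have hc : ContinuousOn (dbar α) (ball 0 R) := by
    have := hα.continuousOn_fderiv_of_isOpen isOpen_ball le_rfl
    exact ((this.clm_apply continuousOn_const).add
      ((this.clm_apply continuousOn_const).const_smul I)).const_smul (1 / 2 : ℂ)
  set h : ℂ → ℂ := (ball (0 : ℂ) R).indicator (dbar α) with hh
  have hm : AEStronglyMeasurable (dbar α) (volume.restrict (ball (0 : ℂ) R)) :=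
    hc.aestronglyMeasurable measurableSet_ball
  have hb : ∀ z, ‖h z‖ ≤ K := fun z => by
    by_cases hz : z ∈ ball (0 : ℂ) R
    · rw [hh, indicator_of_mem hz]
      exact hK z hz
    · rw [hh, indicator_of_notMem hz, norm_zero]
      exact hK0
  have hB : Bdd h 0 R K :=
    ⟨(aestronglyMeasurable_indicator_iff measurableSet_ball).2 hm, hb, fun z hz =>
      indicator_of_notMem (fun hz' => (mem_ball_iff_norm.1 hz').not_ge hz) _⟩
  have hi : Integrable h := by
    rw [hh, integrable_indicator_iff measurableSet_ball]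
    exact Measure.integrableOn_of_bounded measure_ball_lt_top.ne
      (M := K) hB.1 (Eventually.of_forall hb) |>.congr_fun
        (fun z hz => indicator_of_mem hz _) measurableSet_ball
  have hI : ∫ w, ‖h w‖ ≤ E := by
    refine le_of_eq_of_le ?_ hE
    rw [← integral_indicator measurableSet_ball]
    congr 1
    funext w
    exact norm_indicator_eq_indicator_norm _ _
  have hd := h2 ℂ h α 0 R K (ball 0 R) hB isOpen_ball hα fun z hz => (indicator_of_mem hz _).symm
  obtain ⟨H, hH⟩ := hd.isExactOn_ball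
  have hf : ∀ z ∈ ball (0 : ℂ) R, HasDerivAt (fun z => exp (-H z))
      (exp (-H z) * -(α z - cT h z)) z := fun z hz => (hH z hz).neg.cexp
  refine ⟨fun z => exp (-H z), fun z hz => (hf z hz).differentiableAt.differentiableWithinAt,
    fun z hz => ⟨exp_ne_zero _, ?_⟩⟩
  rw [(hf z hz).deriv, mul_div_cancel_left₀ _ (exp_ne_zero _), neg_sub, sub_add_cancel]
  refine (bound_KGauge hb hi z).trans ?_
  nlinarith [mul_nonneg hA hE0]

end Pool.Agent.MP_2fc7fa_gt.N
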