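import Pool.Agent.MP_2fc7fa_gt.N.IfK

/-! Gluing the two affine charts of a line. -/

open scoped ContDiff ComplexConjugate Topology
open Set Complex Filter

noncomputable section

namespace Pool.Agent.MP_2fc7fa_gt.N

theorem cr_KGlueA (φ : Fr) {u : ℂ → V} (hcr : CR φ.A u univ) (z k : ℂ) :
    φ.A (u z) (fderiv ℝ u z k) = k • φ.A (u z) (fderiv ℝ u z 1) := by
  have hk : k = k.re • (1 : ℂ) + k.im • I := by
    apply Complex.ext <;> simp
  conv_lhs => rw [hk]
  rw [map_add, map_add, map_smul, map_smul, map_smul, map_smul, hcr z (mem_univ z)]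
  conv_rhs => rw [hk]
  rw [add_smul, smul_assoc, smul_assoc, one_smul]

theorem chart_KGlueA (φ : Fr) {u : ℂ → V} (hu : ContDiff ℝ 1 u) (hne : ∀ z, u z ≠ 0)
    (hcr : CR φ.A u univ) {a b : W → ℂ} {q : W} (ha : ContDiffAt ℂ 1 a q)
    (hb : ContDiffAt ℂ 1 b q) (h0 : a q ≠ 0) {U : W → V}
    (hU : U =ᶠ[𝓝 q] fun p => a p • u (b p)) :
    ContDiffAt ℝ 1 U q ∧ U q ≠ 0 ∧
      ∀ h, fderiv ℝ U q (I • h) = φ.J (U q) (fderiv ℝ U q h) := by
  have hq : U q = a q • u (b q) := hU.self_of_nhds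
  have hne' : U q ≠ 0 := hq ▸ smul_ne_zero h0 (hne _)
  refine ⟨ContDiffAt.congr_of_eventuallyEq ?_ hU, hne', fun h => ?_⟩
  · exact (ha.restrict_scalars ℝ).smul (hu.contDiffAt.comp q (hb.restrict_scalars ℝ))
  have ha' := ((ha.differentiableAt one_ne_zero).hasFDerivAt).restrictScalars ℝ
  have hb' := ((hb.differentiableAt one_ne_zero).hasFDerivAt).restrictScalars ℝ
  have hu' := ((hu.differentiable one_ne_zero) (b q)).hasFDerivAt
  have hG := (ha'.smul (hu'.comp q hb')).congr_of_eventuallyEq hU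
  have key : ∀ h, φ.A (U q) (fderiv ℝ U q h) =
      fderiv ℂ a q h • u (b q) + (a q * fderiv ℂ b q h) • φ.A (u (b q)) (fderiv ℝ u (b q) 1) := by
    intro h
    have e : fderiv ℝ U q h = a q • ((fderiv ℂ a q h / a q) • u (b q) +
        fderiv ℝ u (b q) (fderiv ℂ b q h)) := by
      rw [hG.fderiv, smul_add, smul_smul, mul_div_cancel₀ _ h0]
      simp [add_comm]
    rw [e, hq, φ.A_scale (hne _) h0, map_add, φ.A_vert (hne _), cr_KGlueA φ hcr, smul_add,
      smul_smul, smul_smul, mul_div_cancel₀ _ h0]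
  rw [Fr.J, ← φ.BA _ hne' (fderiv ℝ U q (I • h)), key, key, map_smul, map_smul, smul_add,
    smul_smul, smul_smul, smul_eq_mul, smul_eq_mul, mul_left_comm]

theorem kGlueA : GlueAStmt := by
  intro φ u v hu hv hu0 hv0 hcu hcv huv
  classical
  let U : W → V := fun q => if q.1 = 0 then q.2 • v 0 else q.1 • u (q.2 / q.1)
  have h1 : ∀ q : W, q.1 ≠ 0 → U q = q.1 • u (q.2 / q.1) := fun q hq => if_neg hq
  have h2 : ∀ q : W, q.2 ≠ 0 → U q = q.2 • v (q.1 / q.2) := fun q hq => by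
    by_cases h : q.1 = 0
    · simp [U, h]
    · rw [h1 q h, huv _ (div_ne_zero hq h), smul_smul, mul_div_cancel₀ _ h, inv_div]
  have loc : ∀ q : W, q ≠ 0 → ContDiffAt ℝ 1 U q ∧ U q ≠ 0 ∧
      ∀ h, fderiv ℝ U q (I • h) = φ.J (U q) (fderiv ℝ U q h) := by
    intro q hq
    by_cases h : q.1 = 0
    · have h' : q.2 ≠ 0 := fun h' => hq (Prod.ext h h')
      refine chart_KGlueA φ hv hv0 hcv (a := Prod.snd) (b := fun p => p.1 / p.2)
        contDiffAt_snd (contDiffAt_fst.div contDiffAt_snd h') h' ?_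
      filter_upwards [continuous_snd.continuousAt.eventually_ne h'] with p hp using h2 p hp
    · refine chart_KGlueA φ hu hu0 hcu (a := Prod.fst) (b := fun p => p.2 / p.1)
        contDiffAt_fst (contDiffAt_snd.div contDiffAt_fst h) h ?_
      filter_upwards [continuous_fst.continuousAt.eventually_ne h] with p hp using h1 p hp
  refine ⟨U, ⟨fun q hq => (loc q hq).1.contDiffWithinAt, fun q hq => (loc q hq).2.1,
    fun c q => ?_, fun q hq => (loc q hq).2.2⟩, ?_, ?_⟩
  · by_cases hc : c = 0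
    · simp [U, hc]
    by_cases h : q.1 = 0
    · simp [U, h, mul_smul]
    · rw [h1 q h, h1 (c • q) (by simpa using ⟨hc, h⟩), smul_smul]
      simp [mul_div_mul_left _ _ hc]
  · funext z
    rw [c0, h1 _ one_ne_zero]
    simp
  · funext w
    rw [c1, h2 _ one_ne_zero]
    simp

end Pool.Agent.MP_2fc7fa_gt.N
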