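import Pool.Agent.MP_2fc7fa_gt.N.IfK

/-! Convergence in the two charts gives convergence of homogeneous maps. -/

open scoped Topology
open Set Complex Filter Metric

namespace Pool.Agent.MP_2fc7fa_gt.N

theorem scale_KGlueB {D : W → V} (hd : ∀ q, q ≠ 0 → DifferentiableAt ℝ D q)
    (hh : ∀ (c : ℂ) q, D (c • q) = c • D q) {p : W} (hp : p ≠ 0) {c : ℂ} (hc : c ≠ 0) (h : W) :
    fderiv ℝ D (c • p) (c • h) = c • fderiv ℝ D p h := by
  have h1 : HasFDerivAt (fun q : W => D (c • q))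
      ((fderiv ℝ D (c • p)).comp (c • ContinuousLinearMap.id ℝ W)) p :=
    HasFDerivAt.comp (g := D) (f := fun q : W => c • q) p
      (hd _ (smul_ne_zero hc hp)).hasFDerivAt ((hasFDerivAt_id p).const_smul c)
  have h2 : HasFDerivAt (fun q : W => D (c • q)) (c • fderiv ℝ D p) p := by
    simp only [hh]
    exact (hd p hp).hasFDerivAt.const_smul c
  exact congrArg (fun L : W →L[ℝ] V => L h) (h1.unique h2)

theorem euler_KGlueB {D : W → V} (hd : ∀ q, q ≠ 0 → DifferentiableAt ℝ D q)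
    (hh : ∀ (c : ℂ) q, D (c • q) = c • D q) {p : W} (hp : p ≠ 0) (a : ℂ) :
    fderiv ℝ D p (a • p) = a • D p := by
  have h0 : HasFDerivAt (fun c : ℂ => c • p) ((ContinuousLinearMap.id ℝ ℂ).smulRight p) 1 :=
    ((ContinuousLinearMap.id ℝ ℂ).smulRight p).hasFDerivAt
  have h1 : HasFDerivAt (fun c : ℂ => D (c • p))
      ((fderiv ℝ D p).comp ((ContinuousLinearMap.id ℝ ℂ).smulRight p)) 1 :=
    HasFDerivAt.comp (g := D) (f := fun c : ℂ => c • p) 1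
      (by rw [one_smul]; exact (hd p hp).hasFDerivAt) h0
  have h2 : HasFDerivAt (fun c : ℂ => D (c • p))
      ((ContinuousLinearMap.id ℝ ℂ).smulRight (D p)) 1 := by
    simp only [hh]
    exact ((ContinuousLinearMap.id ℝ ℂ).smulRight (D p)).hasFDerivAt
  exact congrArg (fun L : ℂ →L[ℝ] V => L a) (h1.unique h2)

/-- The bound in one chart `z ↦ e + z • f`. -/
theorem chart_KGlueB {D : W → V} (hd : ∀ q, q ≠ 0 → DifferentiableAt ℝ D q)
    (hh : ∀ (c : ℂ) q, D (c • q) = c • D q) {e f : W} {z c : ℂ} {ε : ℝ} (hp : e + z • f ≠ 0)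
    (hc : ‖c‖ = 1) (h1 : ‖D (e + z • f)‖ ≤ ε) (h2 : ‖fderiv ℝ (fun w : ℂ => D (e + w • f)) z‖ ≤ ε)
    (h3 : ∀ h : W, ∃ a k : ℂ, ‖a‖ ≤ ‖h‖ ∧ ‖k‖ ≤ 2 * ‖h‖ ∧ h = a • (e + z • f) + k • f) :
    ‖D (c • (e + z • f))‖ ≤ 3 * ε ∧ ‖fderiv ℝ D (c • (e + z • f))‖ ≤ 3 * ε := by
  have hε : 0 ≤ ε := (norm_nonneg _).trans h1
  have hc0 : c ≠ 0 := fun e => by simp [e] at hc
  refine ⟨by rw [hh, norm_smul, hc]; linarith, ?_⟩
  refine ContinuousLinearMap.opNorm_le_bound _ (by positivity) fun h => ?_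
  obtain ⟨a, k, ha, hk, e1⟩ := h3 (c⁻¹ • h)
  have e2 : ‖c⁻¹ • h‖ = ‖h‖ := by rw [norm_smul, norm_inv, hc, inv_one, one_mul]
  rw [e2] at ha hk
  have h4 : HasFDerivAt (fun w : ℂ => D (e + w • f))
      ((fderiv ℝ D (e + z • f)).comp ((ContinuousLinearMap.id ℝ ℂ).smulRight f)) z :=
    HasFDerivAt.comp (g := D) (f := fun w : ℂ => e + w • f) z (hd _ hp).hasFDerivAt
      (((ContinuousLinearMap.id ℝ ℂ).smulRight f).hasFDerivAt.const_add e)
  have h5 : fderiv ℝ D (e + z • f) (k • f) = fderiv ℝ (fun w : ℂ => D (e + w • f)) z k := by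
    rw [h4.fderiv]
    rfl
  have h6 : fderiv ℝ D (c • (e + z • f)) h =
      c • (a • D (e + z • f) + fderiv ℝ (fun w : ℂ => D (e + w • f)) z k) := by
    rw [← h5, ← euler_KGlueB hd hh hp, ← map_add, ← e1, ← scale_KGlueB hd hh hp hc0,
      smul_inv_smul₀ hc0]
  rw [h6, norm_smul, hc, one_mul]
  have h7 := (fderiv ℝ (fun w : ℂ => D (e + w • f)) z).le_of_opNorm_le_of_le h2 hk
  have h8 : ‖a • D (e + z • f)‖ ≤ ‖h‖ * ε := by
    rw [norm_smul]
    exact mul_le_mul ha h1 (norm_nonneg _) (norm_nonneg _)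
  refine (norm_add_le _ _).trans ?_
  linarith

theorem kGlueB : GlueBStmt := by
  intro U U' hU hU' hh' h0 h1 ε hε
  have hε3 : 0 < ε / 3 := by positivity
  have d : ∀ {F : W → V}, ContDiffOn ℝ 1 F {0}ᶜ → ∀ q, q ≠ 0 → DifferentiableAt ℝ F q :=
    fun hF q hq =>
      (hF.contDiffAt (isOpen_compl_singleton.mem_nhds hq)).differentiableAt one_ne_zero
  filter_upwards [tendstoUniformlyOn_iff.1 (h0 2).1 _ hε3, tendstoUniformlyOn_iff.1 (h0 2).2 _ hε3,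
    tendstoUniformlyOn_iff.1 (h1 2).1 _ hε3, tendstoUniformlyOn_iff.1 (h1 2).2 _ hε3]
    with n a1 a2 b1 b2 q hq
  have hq0 : q ≠ 0 := fun e => by simp [e] at hq
  have hd : ∀ q, q ≠ 0 → DifferentiableAt ℝ (U n - U') q := fun q hq =>
    (d (hU n).1 q hq).sub (d hU' q hq)
  have hh : ∀ (c : ℂ) q, (U n - U') (c • q) = c • (U n - U') q := fun c q => by
    simp only [Pi.sub_apply, (hU n).2, hh', smul_sub]
  have key : ∀ (e f : W) (z c : ℂ), ‖c‖ = 1 → q = c • (e + z • f) →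
      dist (U' (e + z • f)) (U n (e + z • f)) < ε / 3 →
      dist (fderiv ℝ (fun w : ℂ => U' (e + w • f)) z)
        (fderiv ℝ (fun w : ℂ => U n (e + w • f)) z) < ε / 3 →
      (∀ h : W, ∃ a k : ℂ, ‖a‖ ≤ ‖h‖ ∧ ‖k‖ ≤ 2 * ‖h‖ ∧ h = a • (e + z • f) + k • f) →
      ‖U n q - U' q‖ ≤ ε ∧ ‖fderiv ℝ (U n) q - fderiv ℝ U' q‖ ≤ ε := by
    intro e f z c hc e1 h2 h3 h4
    have hp : e + z • f ≠ 0 := fun e2 => hq0 (by rw [e1, e2, smul_zero])
    have hf : DifferentiableAt ℝ (fun w : ℂ => e + w • f) z := by fun_prop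
    rw [dist_comm, dist_eq_norm] at h2 h3
    rw [← fderiv_fun_sub (DifferentiableAt.fun_comp' z (d (hU n).1 _ hp) hf)
      (DifferentiableAt.fun_comp' z (d hU' _ hp) hf)] at h3
    have h5 := chart_KGlueB hd hh hp hc h2.le h3.le h4
    rw [← e1, fderiv_sub (d (hU n).1 q hq0) (d hU' q hq0), mul_div_cancel₀ _ three_ne_zero] at h5
    exact h5
  have nb : ∀ x y z : ℂ, ∀ t : ℝ, ‖x‖ ≤ t → ‖y‖ ≤ t → ‖z‖ ≤ 1 → ‖y - x * z‖ ≤ 2 * t := by
    intro x y z t hx hy hz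
    have h2 := norm_sub_le y (x * z)
    rw [norm_mul] at h2
    nlinarith [norm_nonneg x, norm_nonneg z]
  rw [Prod.norm_def] at hq
  rcases max_eq_iff.1 hq with ⟨h2, h3⟩ | ⟨h2, h3⟩
  · have hc0 : q.1 ≠ 0 := fun e => by simp [e] at h2
    have hz : ‖q.2 / q.1‖ ≤ 1 := by rw [norm_div, h2, div_one]; linarith
    have hz' : q.2 / q.1 ∈ ball (0 : ℂ) 2 := mem_ball_zero_iff.2 (by linarith)
    have e : ∀ w : ℂ, ((1, 0) : W) + w • ((0, 1) : W) = (1, w) := fun w => by simp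
    refine key (1, 0) (0, 1) (q.2 / q.1) q.1 h2 ?_ ?_ ?_ fun h => ?_
    · rw [e]
      ext <;> simp [mul_div_cancel₀ _ hc0]
    · rw [e]
      exact a1 _ hz'
    · simp only [e]
      exact a2 _ hz'
    · refine ⟨h.1, h.2 - h.1 * (q.2 / q.1), norm_fst_le h,
        nb _ _ _ _ (norm_fst_le h) (norm_snd_le h) hz, ?_⟩
      ext <;> simp
  · have hc0 : q.2 ≠ 0 := fun e => by simp [e] at h2
    have hz : ‖q.1 / q.2‖ ≤ 1 := by rw [norm_div, h2, div_one]; linarith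
    have hz' : q.1 / q.2 ∈ ball (0 : ℂ) 2 := mem_ball_zero_iff.2 (by linarith)
    have e : ∀ w : ℂ, ((0, 1) : W) + w • ((1, 0) : W) = (w, 1) := fun w => by simp
    refine key (0, 1) (1, 0) (q.1 / q.2) q.2 h2 ?_ ?_ ?_ fun h => ?_
    · rw [e]
      ext <;> simp [mul_div_cancel₀ _ hc0]
    · rw [e]
      exact b1 _ hz'
    · simp only [e]
      exact b2 _ hz'
    · refine ⟨h.2, h.1 - h.2 * (q.1 / q.2), norm_snd_le h,
        nb _ _ _ _ (norm_snd_le h) (norm_fst_le h) hz, ?_⟩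
      ext <;> simp

end Pool.Agent.MP_2fc7fa_gt.N
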