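import Pool.Agent.MP_2fc7fa_gt.N.IfK

/-! The Harnack inequality along segments. -/

open Set Metric

namespace Pool.Agent.MP_2fc7fa_gt.N

theorem kHarnack : HarnackStmt := by
  intro w r C hC hw hb z hz z' hz'
  have hseg : ∀ t ∈ Icc (0 : ℝ) 1, z' + t • (z - z') ∈ ball (0 : ℂ) r := fun t ht =>
    (convex_ball (0 : ℂ) r).add_smul_sub_mem hz' hz ht
  have hd : ∀ t ∈ Icc (0 : ℝ) 1, HasDerivAt (fun t : ℝ => w (z' + t • (z - z')))
      (fderiv ℝ w (z' + t • (z - z')) (z - z')) t := by
    intro t ht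
    have h1 : HasFDerivAt w (fderiv ℝ w (z' + t • (z - z'))) (z' + t • (z - z')) :=
      (hw.differentiableAt (isOpen_ball.mem_nhds (hseg t ht))).hasFDerivAt
    have h2 : HasDerivAt (fun t : ℝ => z' + t • (z - z')) (z - z') t := by
      simpa using ((hasDerivAt_id t).smul_const (z - z')).const_add z'
    exact h1.comp_hasDerivAt t h2
  have key := norm_le_gronwallBound_of_norm_deriv_right_le (f := fun t : ℝ => w (z' + t • (z - z')))
    (f' := fun t : ℝ => fderiv ℝ w (z' + t • (z - z')) (z - z')) (δ := ‖w z'‖)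
    (K := C * ‖z - z'‖) (ε := 0) (a := 0) (b := 1)
    (fun t ht => (hd t ht).continuousAt.continuousWithinAt)
    (fun t ht => (hd t (Ico_subset_Icc_self ht)).hasDerivWithinAt) (by simp)
    (fun t ht => by
      have h1 := hb _ (hseg t (Ico_subset_Icc_self ht))
      have h2 := (fderiv ℝ w (z' + t • (z - z'))).le_opNorm (z - z')
      have h3 := mul_le_mul_of_nonneg_right h1 (norm_nonneg (z - z'))
      nlinarith) 1 ⟨zero_le_one, le_rfl⟩
  rw [gronwallBound_ε0] at key
  simpa [mul_comm] using key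

end Pool.Agent.MP_2fc7fa_gt.N
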