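import Pool.Agent.MP_2fc7fa_gt.N.IfK

open scoped ContDiff ComplexConjugate Topology
open Set Complex Filter Metric MeasureTheory

namespace Pool.Agent.MP_2fc7fa_gt.N

theorem image_inv_KInv {r : ℝ} (hr : 0 < r) :
    (fun z : ℂ => z⁻¹) '' {z | r < ‖z‖} = ball (0 : ℂ) r⁻¹ \ {0} := by
  ext w
  simp only [mem_image, mem_ofPred_eq, Set.mem_sdiff, mem_ball_zero_iff, mem_singleton_iff]
  constructor
  · rintro ⟨z, hz, rfl⟩
    have h0 : 0 < ‖z‖ := hr.trans hz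
    exact ⟨by rw [norm_inv]; exact inv_strictAnti₀ hr hz, inv_ne_zero (norm_pos_iff.1 h0)⟩
  · rintro ⟨h1, h2⟩
    refine ⟨w⁻¹, ?_, inv_inv w⟩
    rw [norm_inv]
    exact (lt_inv_comm₀ hr (norm_pos_iff.2 h2)).2 h1

theorem kInv (hE : EnLineStmt) (hL : LineStmt) (hD : DensStmt) (hC : CoVStmt) : InvStmt := by
  intro φ σ U r hT hU hr
  obtain ⟨hg, ⟨-, hne, hcr⟩, -, hinv⟩ := hL φ σ U hU
  obtain ⟨h1, h2⟩ := hE φ σ _ (hg (ContinuousLinearEquiv.prodComm ℂ ℂ ℂ))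
  obtain ⟨h3, h4⟩ := hE φ σ U hU
  refine ⟨h1, h2, ?_⟩
  have hS : MeasurableSet {z : ℂ | r < ‖z‖} :=
    (isOpen_lt continuous_const continuous_norm).measurableSet
  have hz : ∀ z ∈ {z : ℂ | r < ‖z‖}, z ≠ 0 := fun z hz => norm_pos_iff.1 (hr.trans hz)
  have h5 := hC (dens σ (c1 U)) (fun z => z⁻¹) (fun z => -(z ^ 2)⁻¹) _ hS
    (fun z h => hasDerivAt_inv (hz z h)) (inv_injective.injOn)
  rw [image_inv_KInv hr, setIntegral_congr_set (sdiff_null_ae_eq_self (measure_singleton _))] at h5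
  have h6 : ∫ z in {z : ℂ | r < ‖z‖}, ‖-(z ^ 2)⁻¹‖ ^ 2 * dens σ (c1 U) z⁻¹ =
      ∫ z in {z : ℂ | r < ‖z‖}, dens σ (c0 U) z := by
    refine setIntegral_congr_fun hS fun z h => ?_
    rw [(hinv z (hz z h)).2.1, norm_neg, norm_inv, norm_pow, inv_pow, ← pow_mul]
  have hdis : Disjoint {z : ℂ | r < ‖z‖} (ball 0 r) :=
    Set.disjoint_left.2 fun z h h' => lt_asymm h (mem_ball_zero_iff.1 h')
  have h3' : Integrable (dens σ (c0 U)) := h3
  rw [h5, h6, ← setIntegral_union hdis measurableSet_ball h3'.integrableOn h3'.integrableOn, ← h4]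
  exact setIntegral_le_integral h3' (Eventually.of_forall fun z =>
    hD.1 φ σ _ z hT (hne z) fun w _ => hcr w (mem_univ w))

end Pool.Agent.MP_2fc7fa_gt.N
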