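import Pool.Agent.MP_2fc7fa_gt.N.IfK

/-! `C¹` limits of solutions on the plane. -/

open scoped ContDiff ComplexConjugate Topology
open Set Complex Filter Metric

noncomputable section

namespace Pool.Agent.MP_2fc7fa_gt.N

theorem bnd_KLimit (hH : HarnackStmt) {w : ℂ → V} {z₀ : ℂ} {C s : ℝ} (hC : 0 ≤ C)
    (h0 : ‖w z₀‖ = 1) (hz : z₀ ∈ ball (0 : ℂ) s) (hd : ContDiffOn ℝ 1 w (ball 0 s))
    (hb : ∀ z ∈ ball (0 : ℂ) s, ‖fderiv ℝ w z‖ ≤ C * ‖w z‖) :
    ∀ z ∈ ball (0 : ℂ) s, 1 ≤ (1 + C) * Real.exp (C * (2 * s)) * ‖w z‖ ∧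
      ‖w z‖ ≤ (1 + C) * Real.exp (C * (2 * s)) ∧
      ‖fderiv ℝ w z‖ ≤ (1 + C) * Real.exp (C * (2 * s)) := by
  intro z hz'
  have key : ∀ a ∈ ball (0 : ℂ) s, ∀ b ∈ ball (0 : ℂ) s,
      ‖w a‖ ≤ Real.exp (C * (2 * s)) * ‖w b‖ := fun a ha b hb' => by
    refine (hH w s C hC (hd.differentiableOn one_ne_zero) hb a ha b hb').trans ?_
    have h1 := mem_ball_zero_iff.1 ha
    have h2 := mem_ball_zero_iff.1 hb'
    have h3 := norm_sub_le a b
    gcongr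
    linarith
  have h1 := key z hz' z₀ hz
  have h2 := key z₀ hz z hz'
  have h3 := hb z hz'
  rw [h0] at h1 h2
  have h4 := Real.exp_pos (C * (2 * s))
  generalize Real.exp (C * (2 * s)) = E at h1 h2 h4 ⊢
  have h5 := mul_nonneg hC h4.le
  have h6 := mul_nonneg h5 (norm_nonneg (w z))
  have h7 := mul_le_mul_of_nonneg_left h1 hC
  refine ⟨?_, ?_, ?_⟩ <;> nlinarith

theorem kLimit (hE : EstStmt) (hA : AAStmt) (hH : HarnackStmt) : LimitStmt := by
  intro P _ φ p p₀ w z₀ C hφ hp hC h0 hw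
  have bnd : ∀ r : ℝ, ∃ M : ℝ, ∀ᶠ n in atTop, ∀ z ∈ ball (0 : ℂ) r,
      1 ≤ M * ‖w n z‖ ∧ ‖w n z‖ ≤ M ∧ ‖fderiv ℝ (w n) z‖ ≤ M := fun r => by
    refine ⟨(1 + C) * Real.exp (C * (2 * (|r| + ‖z₀‖ + 1))), ?_⟩
    filter_upwards [h0, hw (|r| + ‖z₀‖ + 1)] with n h1 h2 z hz
    refine bnd_KLimit hH hC h1 (mem_ball_zero_iff.2 ?_) h2.1 h2.2.2 z (ball_subset_ball ?_ hz)
    · linarith [abs_nonneg r]
    · linarith [le_abs_self r, norm_nonneg z₀]
  have dif : ∀ r : ℝ, ∀ᶠ n in atTop, ∀ z ∈ ball (0 : ℂ) r, DifferentiableAt ℝ (w n) z :=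
    fun r => (hw r).mono fun n hn z hz =>
      (hn.1.differentiableOn one_ne_zero z hz).differentiableAt (isOpen_ball.mem_nhds hz)
  have _ : ProperSpace (V × (ℂ →L[ℝ] V)) := FiniteDimensional.proper_real _
  obtain ⟨ψ, G, hψ, hG, hT⟩ := hA (V × (ℂ →L[ℝ] V)) (fun n z => (w n z, fderiv ℝ (w n) z))
    fun r => by
      have hr : 0 < |r| + 1 := by positivity
      obtain ⟨M, hM⟩ := bnd (2 * (|r| + 1))
      obtain ⟨K, hK⟩ := hE P φ p₀ M (|r| + 1) hφ hr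
      have s1 : ball (0 : ℂ) r ⊆ ball 0 (|r| + 1) := ball_subset_ball (by linarith [le_abs_self r])
      have s2 : ball (0 : ℂ) r ⊆ ball 0 (2 * (|r| + 1)) := s1.trans (ball_subset_ball (by linarith))
      refine ⟨max M K, ?_⟩
      filter_upwards [hM, hp.eventually hK, hw (2 * (|r| + 1)), dif r] with n h1 h2 h3 h4 z hz
      refine ⟨le_max_of_le_left (norm_prod_le_iff.2 (h1 z (s2 hz)).2), fun z' hz' =>
        norm_prod_le_iff.2 ⟨?_, ?_⟩⟩
      · exact ((convex_ball (0 : ℂ) r).norm_image_sub_le_of_norm_fderiv_le h4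
          (fun x hx => (h1 x (s2 hx)).2.2) hz' hz).trans
          (mul_le_mul_of_nonneg_right (le_max_left _ _) (norm_nonneg _))
      · exact (h2 (w n) 0 h3.1 h3.2.1 h1 z (s1 hz) z' (s1 hz')).trans
          (mul_le_mul_of_nonneg_right (le_max_right _ _) (norm_nonneg _))
  have t1 : ∀ r : ℝ, TendstoUniformlyOn (fun n => w (ψ n)) (fun z => (G z).1) atTop (ball 0 r) :=
    fun r => uniformContinuous_fst.comp_tendstoUniformlyOn (hT r)
  have t2 : ∀ r : ℝ, TendstoUniformlyOn (fun n => fderiv ℝ (w (ψ n))) (fun z => (G z).2) atTop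
      (ball 0 r) := fun r => uniformContinuous_snd.comp_tendstoUniformlyOn (hT r)
  have mb : ∀ z : ℂ, z ∈ ball (0 : ℂ) (‖z‖ + 1) := fun z => mem_ball_zero_iff.2 (lt_add_one _)
  have p1 : ∀ z, Tendsto (fun n => w (ψ n) z) atTop (𝓝 (G z).1) := fun z =>
    (t1 _).tendsto_at (mb z)
  have p2 : ∀ z, Tendsto (fun n => fderiv ℝ (w (ψ n)) z) atTop (𝓝 (G z).2) := fun z =>
    (t2 _).tendsto_at (mb z)
  have hd : ∀ z, HasFDerivAt (fun z => (G z).1) (G z).2 z := fun z => by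
    have hn := isOpen_ball.mem_nhds (mb z)
    refine hasFDerivAt_of_tendstoUniformlyOnFilter (f := fun n => w (ψ n))
      (f' := fun n => fderiv ℝ (w (ψ n))) (g' := fun z => (G z).2) (l := atTop)
      ((tendstoUniformlyOn_iff_tendstoUniformlyOnFilter.1 (t2 (‖z‖ + 1))).mono_right
        (le_principal_iff.2 hn)) ?_ (Eventually.of_forall p1)
    filter_upwards [prod_mem_prod (hψ.tendsto_atTop.eventually (dif (‖z‖ + 1))) hn] with y hy
    exact (hy.1 y.2 hy.2).hasFDerivAt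
  have hf : fderiv ℝ (fun z => (G z).1) = fun z => (G z).2 := funext fun z => (hd z).fderiv
  have hne : ∀ z, (G z).1 ≠ 0 := fun z h => by
    obtain ⟨M, hM⟩ := bnd (‖z‖ + 1)
    have h1 := ge_of_tendsto ((p1 z).norm.const_mul M)
      ((hψ.tendsto_atTop.eventually hM).mono fun n hn => (hn z (mb z)).1)
    rw [h, norm_zero, mul_zero] at h1
    exact absurd h1 (by norm_num)
  refine ⟨ψ, fun z => (G z).1, hψ, contDiff_one_iff_hasFDerivAt.2 ⟨_, hG.snd, hd⟩, hne,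
    fun z _ => ?_, fun r => ⟨t1 r, by rw [hf]; exact t2 r⟩⟩
  have c1 : ContinuousAt (fun q : P × V => (φ q.1).A q.2) (p₀, (G z).1) :=
    ContinuousOn.continuousAt (hφ 0).2 (prod_mem_nhds univ_mem
      (isOpen_compl_singleton.mem_nhds (hne z)))
  have c2 : Tendsto (fun n => (φ (p (ψ n))).A (w (ψ n) z)) atTop (𝓝 ((φ p₀).A (G z).1)) :=
    c1.tendsto.comp ((hp.comp hψ.tendsto_atTop).prodMk_nhds (p1 z))
  have c3 : ∀ h : ℂ, Tendsto (fun n => (φ (p (ψ n))).A (w (ψ n) z) (fderiv ℝ (w (ψ n)) z h)) atTop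
      (𝓝 ((φ p₀).A (G z).1 ((G z).2 h))) := fun h =>
    (isBoundedBilinearMap_apply.continuous.tendsto (_, _)).comp
      (c2.prodMk_nhds (((continuous_eval_const h).tendsto _).comp (p2 z)))
  rw [hf]
  refine tendsto_nhds_unique_of_eventuallyEq (c3 I) ((c3 1).const_smul I) ?_
  exact (hψ.tendsto_atTop.eventually (hw (‖z‖ + 1))).mono fun n hn => hn.2.1 z (mb z)

end Pool.Agent.MP_2fc7fa_gt.N
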