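import Pool.Agent.MP_2fc7fa_gt.N.IfK

/-! Lines in the two affine charts. -/

open scoped ContDiff ComplexConjugate Topology
open Set Complex Filter Metric MeasureTheory

noncomputable section

namespace Pool.Agent.MP_2fc7fa_gt.N

theorem diff_KLine {J : V → V → V} {U : W → V} (h : IsLine J U) {q : W} (hq : q ≠ 0) :
    DifferentiableAt ℝ U q :=
  (h.c1.contDiffAt (isOpen_compl_singleton.mem_nhds hq)).differentiableAt one_ne_zero

theorem comp_KLine {J : V → V → V} {U : W → V} (h : IsLine J U) (g : W ≃L[ℂ] W) :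
    IsLine J (U ∘ g) := by
  have hg : ∀ q, q ≠ 0 → g q ≠ 0 := fun q hq => g.map_ne_zero_iff.2 hq
  have hd : ∀ q, q ≠ 0 → ∀ v, fderiv ℝ (U ∘ g) q v = fderiv ℝ U (g q) (g v) := fun q hq v => by
    have h1 : HasFDerivAt g ((g : W →L[ℂ] W).restrictScalars ℝ) q :=
      ((g : W →L[ℂ] W).restrictScalars ℝ).hasFDerivAt
    rw [((diff_KLine h (hg q hq)).hasFDerivAt.comp q h1).fderiv]
    rfl
  refine ⟨h.c1.comp ((g : W →L[ℂ] W).restrictScalars ℝ).contDiff.contDiffOn fun q hq => hg q hq,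
    fun q hq => h.ne _ (hg q hq), fun c q => ?_, fun q hq v => ?_⟩
  · rw [Function.comp_apply, Function.comp_apply, map_smul, h.hom]
  · rw [hd q hq, hd q hq, map_smul, h.hol _ (hg q hq), Function.comp_apply]

theorem chart_KLine {φ : Fr} {U : W → V} (h : IsLine φ.J U) :
    ContDiff ℝ 1 (c0 U) ∧ (∀ z, c0 U z ≠ 0) ∧ CR φ.A (c0 U) univ := by
  have hne : ∀ z : ℂ, (((1 : ℂ), z) : W) ≠ 0 := fun z e => one_ne_zero (congrArg Prod.fst e)
  have hd : ∀ z v : ℂ, fderiv ℝ (c0 U) z v = fderiv ℝ U (1, z) (0, v) := fun z v => by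
    have h1 : HasFDerivAt (c0 U) _ z :=
      (diff_KLine h (hne z)).hasFDerivAt.comp z (hasFDerivAt_prodMk_right (𝕜 := ℝ) (1 : ℂ) z)
    rw [h1.fderiv]
    rfl
  refine ⟨h.c1.comp_contDiff (contDiff_const.prodMk contDiff_id) hne, fun z => h.ne _ (hne z),
    fun z _ => ?_⟩
  have e : (((0 : ℂ), I) : W) = I • (((0 : ℂ), (1 : ℂ)) : W) := by simp
  rw [hd, hd, e, h.hol _ (hne z), Fr.J]
  exact φ.AB _ (h.ne _ (hne z)) _

theorem rel_KLine (hT : TransfStmt) (φ : Fr) (σ : Symp 1) {u v : ℂ → V} (hv : ContDiff ℝ 1 v)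
    (hne : ∀ z, v z ≠ 0) (hc : CR φ.A v univ) (h : ∀ t : ℂ, t ≠ 0 → u t = t • v t⁻¹) {z : ℂ}
    (hz : z ≠ 0) : al φ u z = z⁻¹ - (z ^ 2)⁻¹ * al φ v z⁻¹ ∧
      dens σ u z = (‖z‖ ^ 4)⁻¹ * dens σ v z⁻¹ := by
  have he : u =ᶠ[𝓝 z] fun t => t • v t⁻¹ := by
    filter_upwards [isOpen_compl_singleton.mem_nhds hz] with t ht using h t ht
  obtain ⟨-, h1, h2⟩ := hT φ σ v (fun t => t) (fun t => t⁻¹) 1 (-(z ^ 2)⁻¹) z (hasDerivAt_id' z)
    (hasDerivAt_inv hz) hz (hv.differentiable one_ne_zero _) (hne _) fun t _ => hc t trivial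
  constructor
  · have e : al φ u z = al φ (fun t => t • v t⁻¹) z := by
      rw [al, al, he.fderiv_eq, he.eq_of_nhds]
    rw [e, h1, one_div, neg_mul, sub_eq_add_neg]
  · have e : dens σ u z = dens σ (fun t => t • v t⁻¹) z := by
      rw [dens, dens, he.fderiv_eq, he.eq_of_nhds]
    rw [e, h2, norm_neg, norm_inv, norm_pow, inv_pow, ← pow_mul]

theorem kLine (hT : TransfStmt) : LineStmt := by
  intro φ σ U h
  have h0 := chart_KLine h
  have h1 : ContDiff ℝ 1 (c1 U) ∧ (∀ z, c1 U z ≠ 0) ∧ CR φ.A (c1 U) univ :=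
    chart_KLine (comp_KLine h (ContinuousLinearEquiv.prodComm ℂ ℂ ℂ))
  refine ⟨comp_KLine h, h0, h1, fun z hz => ?_⟩
  have e0 : ∀ t : ℂ, t ≠ 0 → c0 U t = t • c1 U t⁻¹ := fun t ht => by
    rw [c0, c1, ← h.hom, Prod.smul_mk, smul_eq_mul, smul_eq_mul, mul_inv_cancel₀ ht, mul_one]
  have e1 : ∀ t : ℂ, t ≠ 0 → c1 U t = t • c0 U t⁻¹ := fun t ht => by
    rw [c0, c1, ← h.hom, Prod.smul_mk, smul_eq_mul, smul_eq_mul, mul_inv_cancel₀ ht, mul_one]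
  obtain ⟨a, b⟩ := rel_KLine hT φ σ h1.1 h1.2.1 h1.2.2 e0 hz
  exact ⟨a, b, (rel_KLine hT φ σ h0.1 h0.2.1 h0.2.2 e1 hz).2⟩

end Pool.Agent.MP_2fc7fa_gt.N
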