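import Pool.Agent.MP_2fc7fa_gt.N.IfK

/-! Normalisation of a line at the maximum of its energy density. -/

open scoped Topology
open Set Complex Filter Metric MeasureTheory Bornology

namespace Pool.Agent.MP_2fc7fa_gt.N

lemma equiv_KNorm {c ρ : ℂ} (hc : c ≠ 0) (hρ : ρ ≠ 0) (z₀ : ℂ) :
    ∃ g : W ≃L[ℂ] W, ∀ z : ℂ, g (1, z) = c • ((1, z₀ + ρ * z) : W) := by
  refine ⟨LinearEquiv.toContinuousLinearEquiv
    { toFun := fun q => (c * q.1, c * (z₀ * q.1 + ρ * q.2))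
      invFun := fun q => (c⁻¹ * q.1, ρ⁻¹ * (c⁻¹ * q.2 - z₀ * (c⁻¹ * q.1)))
      map_add' := fun q r => Prod.ext (by simp; ring) (by simp; ring)
      map_smul' := fun a q => Prod.ext (by simp; ring) (by simp; ring)
      left_inv := fun q => Prod.ext (by simp [hc]) (by simp only; field_simp; ring)
      right_inv := fun q => Prod.ext (by simp [hc]) (by simp only; field_simp; ring) },
    fun z => ?_⟩
  change ((c * 1, c * (z₀ * 1 + ρ * z)) : W) = _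
  simp

theorem kNorm (hE : EnLineStmt) (hL : LineStmt) (hT : TransfStmt) (hD : DensStmt) : NormStmt := by
  intro φ σ U _ hU
  obtain ⟨-, ⟨a1, a2, a3⟩, ⟨b1, b2, -⟩, h4⟩ := hL φ σ U hU
  have c0' := continuousOn_univ.1 (hD.2.1 σ _ _ isOpen_univ a1.contDiffOn fun z _ => a2 z)
  have c1' := continuousOn_univ.1 (hD.2.1 σ _ _ isOpen_univ b1.contDiffOn fun z _ => b2 z)
  obtain ⟨z₁, h1⟩ : ∃ z, 0 < dens σ (c0 U) z := by
    by_contra! h
    have h2 : ∫ z, dens σ (c0 U) z = 2 * Real.pi := (hE φ σ U hU).2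
    have h3 := integral_nonpos (μ := volume) (f := dens σ (c0 U)) h
    linarith [Real.pi_pos]
  have h2 : Tendsto (dens σ (c0 U)) (cobounded ℂ) (𝓝 (‖(0 : ℂ)‖ ^ 4 * dens σ (c1 U) 0)) := by
    refine ((tendsto_inv₀_cobounded.norm.pow 4).mul
      ((c1'.tendsto 0).comp tendsto_inv₀_cobounded)).congr' ?_
    filter_upwards [eventually_ne_cobounded 0] with z hz
    rw [(h4 z hz).2.1, norm_inv, inv_pow, Function.comp_apply]
  rw [norm_zero, zero_pow four_ne_zero, zero_mul, cobounded_eq_cocompact] at h2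
  obtain ⟨z₀, h0⟩ := c0'.exists_forall_ge' z₁ (h2.eventually (ge_mem_nhds h1))
  have hm := h1.trans_le (h0 z₁)
  obtain ⟨ρ, hρ, hρ'⟩ : ∃ ρ : ℂ, ρ ≠ 0 ∧ ‖ρ‖ ^ 2 = (dens σ (c0 U) z₀)⁻¹ :=
    ⟨√(dens σ (c0 U) z₀)⁻¹, ofReal_ne_zero.2 (Real.sqrt_pos.2 (inv_pos.2 hm)).ne', by
      rw [norm_real, Real.norm_eq_abs, sq_abs, Real.sq_sqrt (inv_pos.2 hm).le]⟩
  have hn : ‖c0 U (z₀ + ρ * 1)‖ ≠ 0 := norm_ne_zero_iff.2 (a2 _)
  have hc : ((‖c0 U (z₀ + ρ * 1)‖ : ℂ))⁻¹ ≠ 0 := inv_ne_zero (ofReal_ne_zero.2 hn)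
  obtain ⟨g, hg⟩ := equiv_KNorm hc hρ z₀
  have e : c0 (U ∘ g) = fun t => ((‖c0 U (z₀ + ρ * 1)‖ : ℂ))⁻¹ • c0 U (z₀ + ρ * t) :=
    funext fun t => (congrArg U (hg t)).trans (hU.hom _ _)
  have h5 : ∀ z, dens σ (c0 (U ∘ g)) z = (dens σ (c0 U) z₀)⁻¹ * dens σ (c0 U) (z₀ + ρ * z) := by
    intro z
    rw [e, ← hρ']
    exact (hT φ σ (c0 U) (fun _ => _) (fun t => z₀ + ρ * t) 0 ρ z (hasDerivAt_const _ _)
      (by simpa using ((hasDerivAt_id z).const_mul ρ).const_add z₀) hc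
      (a1.differentiable one_ne_zero _) (a2 _) fun w _ => a3 w trivial).2.2
  refine ⟨g, fun z => ?_, ?_, ?_⟩
  · rw [h5, inv_mul_le_iff₀ hm, mul_one]
    exact h0 _
  · rw [h5, mul_zero, add_zero, inv_mul_cancel₀ hm.ne']
  · rw [show U (g (1, 1)) = _ from congrFun e 1, norm_smul, norm_inv, norm_real, norm_norm,
      inv_mul_cancel₀ hn]

end Pool.Agent.MP_2fc7fa_gt.N
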