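import Pool.Agent.MP_2fc7fa_gt.N.IfK

/-! K20: no bubbling at infinity. -/

open scoped ContDiff Topology
open Set Complex Filter Metric MeasureTheory

noncomputable section

namespace Pool.Agent.MP_2fc7fa_gt.N

theorem max_KOuter (e : ℂ → ℝ) (hc : Continuous e) (h0 : ∀ z, 0 ≤ e z)
    (hb : ∀ z : ℂ, z ≠ 0 → e z ≤ (‖z‖ ^ 4)⁻¹) : ∃ a, ∀ z, e z ≤ e a := by
  by_cases hz : ∀ z, e z ≤ 0
  · exact ⟨0, fun z => (hz z).trans (h0 0)⟩
  push Not at hz
  obtain ⟨z₀, hz₀⟩ := hz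
  refine hc.exists_forall_ge' z₀ ?_
  have h1 : Tendsto (fun z : ℂ => ‖z‖) (cocompact ℂ) atTop := tendsto_norm_cocompact_atTop
  have h2 : Tendsto (fun z : ℂ => (‖z‖ ^ 4)⁻¹) (cocompact ℂ) (𝓝 0) :=
    tendsto_inv_atTop_zero.comp ((tendsto_pow_atTop (by norm_num)).comp h1)
  filter_upwards [h2.eventually (gt_mem_nhds hz₀), h1.eventually (eventually_gt_atTop 0)] with
    z hz1 hz2
  exact (hb z (norm_pos_iff.1 hz2)).trans hz1.le

theorem image_KOuter (a : ℂ) {ρ : ℝ} (hρ : 0 < ρ) (s : ℝ) :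
    (fun t : ℂ => a + ρ * t) '' ball 0 s = ball a (ρ * s) := by
  ext w
  simp only [mem_image, mem_ball, dist_eq_norm, sub_zero]
  constructor
  · rintro ⟨t, ht, rfl⟩
    rw [add_sub_cancel_left, norm_mul, Complex.norm_real, Real.norm_of_nonneg hρ.le]
    exact mul_lt_mul_of_pos_left ht hρ
  · intro hw
    have hρ' : (ρ : ℂ) ≠ 0 := by exact_mod_cast hρ.ne'
    refine ⟨(w - a) / ρ, ?_, by field_simp; ring⟩
    rw [norm_div, Complex.norm_real, Real.norm_of_nonneg hρ.le, div_lt_iff₀ hρ]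
    linarith

theorem rescale_KOuter (hT : TransfStmt) (hC : CoVStmt) (φ : Fr) (σ : Symp 1) (u : ℂ → V)
    (hu : ContDiff ℝ 1 u) (hu0 : ∀ z, u z ≠ 0) (hcr : CR φ.A u univ) (a : ℂ) {ρ : ℝ}
    (hρ : 0 < ρ) :
    ContDiff ℝ 1 (fun t : ℂ => (1 : ℂ) • u (a + ρ * t)) ∧
      (∀ t : ℂ, (1 : ℂ) • u (a + ρ * t) ≠ 0) ∧
      CR φ.A (fun t : ℂ => (1 : ℂ) • u (a + ρ * t)) univ ∧
      (∀ t : ℂ, dens σ (fun t : ℂ => (1 : ℂ) • u (a + ρ * t)) t = ρ ^ 2 * dens σ u (a + ρ * t)) ∧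
      ∀ s : ℝ, ∫ t in ball (0 : ℂ) s, dens σ (fun t : ℂ => (1 : ℂ) • u (a + ρ * t)) t =
        ∫ z in ball a (ρ * s), dens σ u z := by
  have hg : ∀ t : ℂ, HasDerivAt (fun t : ℂ => a + ρ * t) (ρ : ℂ) t := fun t => by
    simpa using ((hasDerivAt_id t).const_mul (ρ : ℂ)).const_add a
  have key := fun t : ℂ => hT φ σ u (fun _ => 1) (fun t => a + ρ * t) 0 ρ t
    (hasDerivAt_const t 1) (hg t) one_ne_zero (hu.differentiable (by simp) _) (hu0 _)
    (fun z hz => hcr z (mem_univ z))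
  have hn : ‖(ρ : ℂ)‖ = ρ := by rw [Complex.norm_real, Real.norm_of_nonneg hρ.le]
  have hd : ∀ t : ℂ, dens σ (fun t : ℂ => (1 : ℂ) • u (a + ρ * t)) t =
      ‖(ρ : ℂ)‖ ^ 2 * dens σ u (a + ρ * t) := fun t => (key t).2.2
  refine ⟨?_, fun t => by simpa using hu0 _, fun t _ => (key t).1 t rfl, fun t => ?_, fun s => ?_⟩
  · simp only [one_smul]
    exact hu.comp (contDiff_const.add (contDiff_const.mul contDiff_id))
  · rw [hd t, hn]
  · have hρ' : (ρ : ℂ) ≠ 0 := by exact_mod_cast hρ.ne'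
    rw [← image_KOuter a hρ s, hC (dens σ u) (fun t => a + ρ * t) (fun _ => ρ) (ball 0 s)
      measurableSet_ball (fun z _ => hg z) (fun x _ y _ h => by
        simpa [hρ'] using h)]
    exact setIntegral_congr_fun measurableSet_ball fun t _ => hd t

theorem kOuter (hB : BubbleStmt) (hL : LineStmt) (hT : TransfStmt) (hD : DensStmt)
    (hC : CoVStmt) (hI : InvStmt) : OuterStmt := by
  intro P _ φ om p p₀ U r hφ hom hta hp hr hU h0 hπ
  by_contra hcon
  have hcon' : ∀ M : ℝ, ∀ᶠ n in atTop, ∃ z, M < dens (om (p n)) (c1 (U n)) z := fun M => by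
    have := not_frequently.1 (not_exists.1 hcon M)
    filter_upwards [this] with n hn
    push Not at hn
    exact hn
  have hl := fun n => hL (φ (p n)) (om (p n)) (U n) (hU n)
  have hc1 := fun n => (hl n).2.2.1
  have hpos : ∀ n z, 0 ≤ dens (om (p n)) (c1 (U n)) z := fun n z =>
    hD.1 (φ (p n)) (om (p n)) (c1 (U n)) z (hta _) ((hc1 n).2.1 z)
      (fun w _ => (hc1 n).2.2 w (mem_univ w))
  have hcont : ∀ n, Continuous (dens (om (p n)) (c1 (U n))) := fun n =>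
    continuousOn_univ.1 (hD.2.1 (om (p n)) (c1 (U n)) univ isOpen_univ (hc1 n).1.contDiffOn
      fun z _ => (hc1 n).2.1 z)
  have hbd : ∀ n (z : ℂ), z ≠ 0 → dens (om (p n)) (c1 (U n)) z ≤ (‖z‖ ^ 4)⁻¹ := fun n z hz => by
    rw [((hl n).2.2.2 z hz).2.2]
    exact mul_le_of_le_one_right (by positivity) (h0 n _)
  have hint := fun n => hI (φ (p n)) (om (p n)) (U n) 1 (hta _) (hU n) one_pos
  choose a ha using fun n => max_KOuter _ (hcont n) (hpos n) (hbd n)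
  set m : ℕ → ℝ := fun n => dens (om (p n)) (c1 (U n)) (a n) with hm
  have hmt : Tendsto m atTop atTop := tendsto_atTop.2 fun M => by
    filter_upwards [hcon' M] with n ⟨z, hz⟩
    exact hz.le.trans (ha n z)
  have hm0 : ∀ᶠ n in atTop, 0 < m n := hmt.eventually (eventually_gt_atTop 0)
  set ρ : ℕ → ℝ := fun n => (√(m n))⁻¹ with hρ
  have hρt : Tendsto ρ atTop (𝓝 0) :=
    tendsto_inv_atTop_zero.comp (Real.tendsto_sqrt_atTop.comp hmt)
  have hρ0 : ∀ n, 0 < m n → 0 < ρ n := fun n hn => inv_pos.2 (Real.sqrt_pos.2 hn)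
  have hρ2 : ∀ n, 0 < m n → ρ n ^ 2 * m n = 1 := fun n hn => by
    rw [hρ]
    simp only
    rw [inv_pow, Real.sq_sqrt hn.le, inv_mul_cancel₀ hn.ne']
  have hat : ∀ᶠ n in atTop, ‖a n‖ < r / 2 := by
    filter_upwards [hmt.eventually (eventually_gt_atTop (((r / 2) ^ 4)⁻¹))] with n hn
    by_contra hh
    push Not at hh
    have h1 : 0 < ‖a n‖ := lt_of_lt_of_le (by positivity) hh
    have h2 := hbd n (a n) (norm_pos_iff.1 h1)
    have h3 : (‖a n‖ ^ 4)⁻¹ ≤ ((r / 2) ^ 4)⁻¹ :=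
      inv_anti₀ (by positivity) (pow_le_pow_left₀ (by positivity) hh 4)
    exact absurd (h2.trans h3) (not_le.2 hn)
  have hres := fun n (hn : 0 < m n) => rescale_KOuter hT hC (φ (p n)) (om (p n)) (c1 (U n))
    (hc1 n).1 (hc1 n).2.1 (hc1 n).2.2 (a n) (hρ0 n hn)
  have hgrow : Grow φ om p (fun n t => (1 : ℂ) • c1 (U n) (a n + ρ n * t)) (fun n => n)
      (2 * Real.pi) := by
    refine ⟨tendsto_natCast_atTop_atTop, ?_⟩
    filter_upwards [hm0] with n hn
    obtain ⟨h1, h2, h3, h4, h5⟩ := hres n hn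
    refine ⟨h1.contDiffOn, fun z _ => ⟨h2 z, ?_⟩, fun z _ => h3 z (mem_univ z), ?_, ?_⟩
    · rw [h4 z, ← hρ2 n hn]
      exact mul_le_mul_of_nonneg_left (ha n _) (by positivity)
    · rw [h4 0, mul_zero, add_zero]
      exact hρ2 n hn
    · rw [h5, ← (hint n).2.1]
      exact setIntegral_le_integral (hint n).1 (Eventually.of_forall (hpos n))
  obtain ⟨s, hs, hfr⟩ := hB P φ om p p₀ _ _ _ hφ hom hta hp hgrow (Real.pi / 2)
    (by positivity)
  have hρs : ∀ᶠ n in atTop, ρ n * s < r / 2 := by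
    have : Tendsto (fun n => ρ n * s) atTop (𝓝 (0 * s)) := hρt.mul_const s
    rw [zero_mul] at this
    exact this.eventually (gt_mem_nhds (by positivity))
  obtain ⟨n, hn, hn0, hn1, hn2⟩ := (hfr.and_eventually (hm0.and (hat.and hρs))).exists
  rw [(hres n hn0).2.2.2.2 s] at hn
  have hsub : ball (a n) (ρ n * s) ⊆ ball (0 : ℂ) r := by
    refine ball_subset_ball' ?_
    rw [dist_zero_right]
    linarith
  have hle : ∫ z in ball (a n) (ρ n * s), dens (om (p n)) (c1 (U n)) z ≤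
      ∫ z in ball (0 : ℂ) r, dens (om (p n)) (c1 (U n)) z :=
    setIntegral_mono_set (hint n).1.integrableOn (Eventually.of_forall (hpos n))
      hsub.eventuallyLE
  have := hπ n
  have := Real.pi_pos
  linarith

end Pool.Agent.MP_2fc7fa_gt.N
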