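import Pool.Agent.MP_2fc7fa_gt.N.IfK

/-! Quantization of the energy of a limit density. -/

open scoped ContDiff ComplexConjugate Topology
open Set Complex Filter Metric MeasureTheory

noncomputable section

namespace Pool.Agent.MP_2fc7fa_gt.N

theorem intOn_KQuant {f : ℂ → ℝ} {ρ : ℝ} (hc : ContinuousOn f (ball 0 ρ))
    (hb : ∀ z ∈ ball (0 : ℂ) ρ, 0 ≤ f z ∧ f z ≤ 1) : IntegrableOn f (ball (0 : ℂ) ρ) := by
  refine Measure.integrableOn_of_bounded (M := 1) measure_ball_lt_top.ne ?_ ?_ |>.congr_fun
    (f := (ball (0 : ℂ) ρ).indicator f) (fun z hz => indicator_of_mem hz f) measurableSet_ball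
  · exact (aestronglyMeasurable_indicator_iff measurableSet_ball).2
      (hc.aestronglyMeasurable measurableSet_ball)
  · filter_upwards [ae_restrict_mem measurableSet_ball] with z hz
    rw [indicator_of_mem hz, Real.norm_of_nonneg (hb z hz).1]
    exact (hb z hz).2

theorem kQuant : QuantStmt := by
  intro e e' R E hR hc hlim hev
  have hball : ∀ r : ℝ, ∀ᶠ n in atTop, ball (0 : ℂ) r ⊆ ball 0 (R n) := fun r =>
    (hR.eventually_ge_atTop r).mono fun n hn => ball_subset_ball hn
  have h0 : ∀ z, 0 ≤ e' z := fun z => by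
    refine ge_of_tendsto (hlim z) ?_
    filter_upwards [hev, hball (‖z‖ + 1)] with n hn hs
    exact (hn.2.1 z (hs (by simp))).1
  have h1 : e' 0 = 1 := by
    refine tendsto_nhds_unique (hlim 0) ?_
    exact tendsto_const_nhds.congr' (hev.mono fun n hn => hn.2.2.1.symm)
  have hconv : ∀ r : ℝ, Tendsto (fun n => ∫ z in ball (0 : ℂ) r, e n z) atTop
      (𝓝 (∫ z in ball (0 : ℂ) r, e' z)) := fun r => by
    refine tendsto_integral_filter_of_dominated_convergence (fun _ => (1 : ℝ)) ?_ ?_ ?_ ?_
    · filter_upwards [hev, hball r] with n hn hs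
      exact (hn.1.mono hs).aestronglyMeasurable measurableSet_ball
    · filter_upwards [hev, hball r] with n hn hs
      filter_upwards [ae_restrict_mem measurableSet_ball] with z hz
      rw [Real.norm_of_nonneg (hn.2.1 z (hs hz)).1]
      exact (hn.2.1 z (hs hz)).2
    · exact integrableOn_const measure_ball_lt_top.ne
    · exact Eventually.of_forall hlim
  have hE : ∀ r : ℝ, ∫ z in ball (0 : ℂ) r, e' z ≤ E := fun r => by
    refine le_of_tendsto (hconv r) ?_
    filter_upwards [hev, hball r] with n hn hs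
    refine le_trans ?_ hn.2.2.2
    refine setIntegral_mono_set (intOn_KQuant hn.1 hn.2.1) ?_ hs.eventuallyLE
    filter_upwards [ae_restrict_mem measurableSet_ball] with z hz
    exact (hn.2.1 z hz).1
  have hcov : AECover (volume : Measure ℂ) atTop (fun r : ℝ => ball (0 : ℂ) r) :=
    aecover_ball (r := id) tendsto_id
  have hint : Integrable e' := by
    refine hcov.integrable_of_integral_bounded_of_nonneg_ae E (fun r => ?_)
      (Eventually.of_forall h0) (Eventually.of_forall hE)
    exact (hc.continuousOn.integrableOn_compact (isCompact_closedBall (0 : ℂ) r)).mono_set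
      ball_subset_closedBall
  refine ⟨hint, ?_⟩
  rintro ⟨k, hk⟩ ε hε
  have hpos : 0 < ∫ z, e' z :=
    integral_pos_of_integrable_nonneg_nonzero (x := 0) hc hint h0 (by rw [h1]; exact one_ne_zero)
  have hk0 : (0 : ℝ) < k := by
    rw [hk] at hpos
    exact (mul_pos_iff_of_pos_left Real.two_pi_pos).1 hpos
  have hk1 : (1 : ℝ) ≤ k := by
    have : (0 : ℤ) < k := by exact_mod_cast hk0
    exact_mod_cast this
  have hge : 2 * Real.pi - ε < ∫ z, e' z := by
    rw [hk]
    nlinarith [Real.pi_pos]
  have ht := hcov.integral_tendsto_of_countably_generated hint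
  obtain ⟨r, hr, hr0⟩ := ((ht.eventually (lt_mem_nhds hge)).and (eventually_gt_atTop 0)).exists
  exact ⟨r, hr0, ((hconv r).eventually (lt_mem_nhds hr)).mono fun n hn => hn.le⟩

end Pool.Agent.MP_2fc7fa_gt.N
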