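import Pool.Agent.MP_2fc7fa_gt.N.IfK

/-! A good gauge on growing discs. -/

open scoped ContDiff ComplexConjugate Topology
open Set Complex Filter Metric MeasureTheory

noncomputable section

namespace Pool.Agent.MP_2fc7fa_gt.N

theorem one_KRegauge (hT : TransfStmt) (hD : DensStmt) {C1 C2 R E : ℝ} (hC1 : 0 < C1)
    (hG : ∀ (α : ℂ → ℂ) (R K E : ℝ), 0 < R → ContDiffOn ℝ 1 α (ball 0 R) →
      (∀ z ∈ ball (0 : ℂ) R, ‖dbar α z‖ ≤ K) → ∫ z in ball (0 : ℂ) R, ‖dbar α z‖ ≤ E →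
      ∃ f : ℂ → ℂ, DifferentiableOn ℂ f (ball 0 R) ∧
        ∀ z ∈ ball (0 : ℂ) R, f z ≠ 0 ∧ ‖deriv f z / f z + α z‖ ≤ C2 * (K + E))
    {φ : Fr} {σ : Symp 1} (ht : Tame φ.J σ)
    (hA : ∀ (u : ℂ → V) (O : Set ℂ), IsOpen O → ContDiffOn ℝ 1 u O →
      (∀ z ∈ O, u z ≠ 0) → CR φ.A u O → ContDiffOn ℝ 1 (al φ u) O ∧ ∀ z ∈ O,
        ‖dbar (al φ u) z‖ ≤ C1 * dens σ u z ∧
        ‖fderiv ℝ u z‖ ≤ C1 * (1 + ‖al φ u z‖ + dens σ u z) * ‖u z‖)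
    {u : ℂ → V} (hR : 0 < R) (hu : ContDiffOn ℝ 1 u (ball 0 R))
    (h0 : ∀ z ∈ ball (0 : ℂ) R, u z ≠ 0 ∧ dens σ u z ≤ 1) (hCR : CR φ.A u (ball 0 R))
    (hE : ∫ z in ball (0 : ℂ) R, dens σ u z ≤ E) :
    ∃ w : ℂ → V, ‖w 0‖ = 1 ∧ ContDiffOn ℝ 1 w (ball 0 R) ∧ CR φ.A w (ball 0 R) ∧
      ∀ z ∈ ball (0 : ℂ) R, ‖fderiv ℝ w z‖ ≤ C1 * (2 + |C2 * (C1 + C1 * E)|) * ‖w z‖ ∧
        dens σ w z = dens σ u z := by
  have hne : ∀ z ∈ ball (0 : ℂ) R, u z ≠ 0 := fun z hz => (h0 z hz).1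
  have hCR1 : ∀ z ∈ ball (0 : ℂ) R, CR φ.A u {z} := fun z hz y hy => by
    rw [mem_singleton_iff.1 hy]
    exact hCR z hz
  obtain ⟨a1, a2⟩ := hA u _ isOpen_ball hu hne hCR
  have hpos : ∀ z ∈ ball (0 : ℂ) R, 0 ≤ dens σ u z := fun z hz =>
    hD.1 φ σ u z ht (hne z hz) (hCR1 z hz)
  have hint : IntegrableOn (dens σ u) (ball (0 : ℂ) R) := by
    refine Measure.integrableOn_of_bounded (M := 1) measure_ball_lt_top.ne ?_ ?_ |>.congr_fun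
      (f := (ball (0 : ℂ) R).indicator (dens σ u)) (fun z hz => indicator_of_mem hz _)
      measurableSet_ball
    · exact (aestronglyMeasurable_indicator_iff measurableSet_ball).2
        ((hD.2.1 σ u _ isOpen_ball hu hne).aestronglyMeasurable measurableSet_ball)
    · filter_upwards [ae_restrict_mem measurableSet_ball] with z hz
      rw [indicator_of_mem hz, Real.norm_of_nonneg (hpos z hz)]
      exact (h0 z hz).2
  have hI : ∫ z in ball (0 : ℂ) R, ‖dbar (al φ u) z‖ ≤ C1 * E := by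
    refine (integral_mono_of_nonneg (Eventually.of_forall fun _ => norm_nonneg _)
      (hint.const_mul C1) ?_).trans ?_
    · filter_upwards [ae_restrict_mem measurableSet_ball] with z hz using (a2 z hz).1
    · rw [integral_const_mul]
      exact mul_le_mul_of_nonneg_left hE hC1.le
  obtain ⟨f, f1, f2⟩ := hG (al φ u) R C1 (C1 * E) hR a1
    (fun z hz => (a2 z hz).1.trans (mul_le_of_le_one_right hC1.le (h0 z hz).2)) hI
  have hz0 : (0 : ℂ) ∈ ball (0 : ℂ) R := mem_ball_self hR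
  have hn : ‖f 0 • u 0‖ ≠ 0 := norm_ne_zero_iff.2 (smul_ne_zero (f2 0 hz0).1 (hne 0 hz0))
  obtain ⟨c, hc0, hc1⟩ : ∃ c : ℂ, c ≠ 0 ∧ ‖(c * f 0) • u 0‖ = 1 := by
    refine ⟨((‖f 0 • u 0‖⁻¹ : ℝ) : ℂ), ofReal_ne_zero.2 (inv_ne_zero hn), ?_⟩
    rw [mul_smul, norm_smul, norm_real, norm_inv, norm_norm, inv_mul_cancel₀ hn]
  have key := fun z (hz : z ∈ ball (0 : ℂ) R) => hT φ σ u (fun t => c * f t) (fun t => t)
    (c * deriv f z) 1 z
    ((f1.differentiableAt (isOpen_ball.mem_nhds hz)).hasDerivAt.const_mul c) (hasDerivAt_id z)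
    (mul_ne_zero hc0 (f2 z hz).1)
    ((hu.differentiableOn one_ne_zero).differentiableAt (isOpen_ball.mem_nhds hz)) (hne z hz)
    (hCR1 z hz)
  have hw : ContDiffOn ℝ 1 (fun t => (c * f t) • u t) (ball 0 R) :=
    (contDiffOn_const.mul ((f1.contDiffOn isOpen_ball).restrict_scalars ℝ)).smul hu
  have hwCR : CR φ.A (fun t => (c * f t) • u t) (ball 0 R) := fun z hz =>
    (key z hz).1 z rfl
  have hd : ∀ z ∈ ball (0 : ℂ) R, dens σ (fun t => (c * f t) • u t) z = dens σ u z :=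
    fun z hz => by simpa using (key z hz).2.2
  obtain ⟨-, b2⟩ := hA _ _ isOpen_ball hw
    (fun z hz => smul_ne_zero (mul_ne_zero hc0 (f2 z hz).1) (hne z hz)) hwCR
  refine ⟨_, hc1, hw, hwCR, fun z hz => ⟨(b2 z hz).2.trans ?_, hd z hz⟩⟩
  have h1 : ‖al φ (fun t => (c * f t) • u t) z‖ ≤ |C2 * (C1 + C1 * E)| := by
    rw [(key z hz).2.1, mul_div_mul_left _ _ hc0, one_mul]
    exact (f2 z hz).2.trans (le_abs_self _)
  have h2 := (h0 z hz).2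
  rw [hd z hz]
  gcongr ?_ * _
  refine mul_le_mul_of_nonneg_left ?_ hC1.le
  linarith

theorem kRegauge (hA : AlphaStmt) (hT : TransfStmt) (hD : DensStmt) (hG : GaugeStmt) :
    RegaugeStmt := by
  intro P _ φ om p p₀ u R E hφ hom ht hp hgr
  obtain ⟨C1, hC1, hA⟩ := hA P φ om p₀ hφ hom ht
  obtain ⟨C2, -, hG⟩ := hG
  have h : ∀ᶠ n in atTop, ∃ w : ℂ → V, ‖w 0‖ = 1 ∧ ContDiffOn ℝ 1 w (ball 0 (R n)) ∧
      CR (φ (p n)).A w (ball 0 (R n)) ∧ ∀ z ∈ ball (0 : ℂ) (R n),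
        ‖fderiv ℝ w z‖ ≤ C1 * (2 + |C2 * (C1 + C1 * E)|) * ‖w z‖ ∧
        dens (om (p n)) w z = dens (om (p n)) (u n) z := by
    filter_upwards [hp.eventually hA, hgr.2, hgr.1.eventually_gt_atTop 0] with n h1 h2 h3
    exact one_KRegauge hT hD hC1 hG (ht _) h1 h3 h2.1 h2.2.1 h2.2.2.1 h2.2.2.2.2
  obtain ⟨w, hw⟩ := h.choice
  exact ⟨w, _, by positivity, hw⟩

end Pool.Agent.MP_2fc7fa_gt.N
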