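import Pool.Agent.MP_2fc7fa_gt.N.IfK

/-! Uniform taming. -/

open scoped Topology
open Set Complex Filter Metric

namespace Pool.Agent.MP_2fc7fa_gt.N

theorem hor_KTame (σ : Symp 1) (x a b : V) (c d : ℂ) :
    σ.form x ![c • x + a, d • x + b] = σ.form x ![a, b] := by
  have e : ∀ y, ![a, y] = Function.update ![a, 0] 1 y := fun y => by
    ext1 i
    fin_cases i <;> rfl
  rw [ContinuousAlternatingMap.vecCons_add, σ.isForm.horiz x _ 0 c rfl, zero_add, e,
    ContinuousAlternatingMap.map_update_add, ← e, ← e, σ.isForm.horiz x _ 1 d rfl, zero_add]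

theorem red_KTame (φ : Fr) (σ : Symp 1) {x : V} (hx : x ≠ 0) (v : V) :
    σ.form x ![v, φ.J x v] =
      σ.form x ![φ.B x (hp x (φ.A x v)), φ.B x (I • hp x (φ.A x v))] := by
  rw [← hor_KTame σ x (φ.B x _) _ (vc x (φ.A x v)) (I * vc x (φ.A x v)), ← φ.vert x hx,
    ← φ.vert x hx (I * _), ← map_add, ← map_add, hp, smul_sub, smul_smul, add_sub_cancel,
    add_sub_cancel, φ.BA x hx, Fr.J]

theorem scale_KTame (φ : Fr) (σ : Symp 1) {x : V} (hx : x ≠ 0) {s : ℝ} (hs : s ≠ 0) (m : ℝ)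
    (a b : V) : s ^ 2 * σ.form (s • x) ![φ.B (s • x) (m • a), φ.B (s • x) (m • b)] =
      m ^ 2 * σ.form x ![φ.B x a, φ.B x b] := by
  have hs' : (s : ℂ) ≠ 0 := ofReal_ne_zero.2 hs
  have h1 : ∀ a, φ.B (s • x) (m • a) = (s : ℂ) • (m / s) • φ.B x a := fun a => by
    rw [← map_smul, ← φ.scale x hx s hs', Complex.coe_smul, Complex.coe_smul, smul_smul,
      mul_div_cancel₀ _ hs]
  have h2 := σ.isForm.scale s hs' x fun i => (m / s) • ![φ.B x a, φ.B x b] i
  rw [ContinuousAlternatingMap.map_smul_univ _ (fun _ => m / s), Complex.coe_smul] at h2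
  rw [h1, h1, show ![(s : ℂ) • (m / s) • φ.B x a, (s : ℂ) • (m / s) • φ.B x b] =
    (s : ℂ) • fun i => (m / s) • ![φ.B x a, φ.B x b] i from by
      ext1 i
      fin_cases i <;> rfl, h2]
  simp only [Finset.prod_const, Finset.card_univ, Fintype.card_fin, smul_eq_mul]
  field_simp

theorem kTame (hF : FormStmt) : TameKStmt := by
  intro P _ φ om p₀ hφ hom hT
  have hne : ∀ {x : V}, x ∈ sphere (0 : V) 1 → x ≠ 0 := fun h e => by simp [e] at h
  obtain ⟨K, hK⟩ : ∃ K : Set (V × V),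
      K = sphere 0 1 ×ˢ sphere 0 1 ∩ (fun k => vc k.1 k.2) ⁻¹' {0} := ⟨_, rfl⟩
  have hc := (isCompact_sphere (0 : V) 1).prod (isCompact_sphere (0 : V) 1)
  have h1 : IsCompact K := hK ▸ hc.of_isClosed_subset (ContinuousOn.preimage_isClosed_of_isClosed
    ((vc_smooth.continuousOn.comp continuousOn_fst fun k hk => hne hk.1).clm_apply
      continuousOn_snd) hc.isClosed isClosed_singleton) inter_subset_left
  have h0 : ∀ {E : Type} [TopologicalSpace E] {G : P → V → E}, JC {0}ᶜ G → ∀ k ∈ K,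
      ContinuousAt (fun z : P × V × V => G z.1 z.2.1) (p₀, k) := fun hG k hk =>
    ContinuousAt.comp (f := fun z : P × V × V => (z.1, z.2.1)) (hG.continuousAt
      ((isOpen_univ.prod isOpen_compl_singleton).mem_nhds ⟨trivial, hne (hK ▸ hk).1.1⟩))
      (by fun_prop)
  have h2 : ∀ k ∈ K, ContinuousAt (fun z : P × V × V => (om z.1).form z.2.1
      ![(φ z.1).B z.2.1 z.2.2, (φ z.1).B z.2.1 (I • z.2.2)]) (p₀, k) := fun k hk => by
    have hB := h0 (hφ 0).1.jc k hk
    refine (h0 (hF P om hom) k hk).eval (continuousAt_pi.2 fun i => ?_)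
    fin_cases i
    · exact hB.clm_apply (by fun_prop)
    · exact hB.clm_apply (by fun_prop)
  obtain ⟨c, hc0, h3⟩ := h1.exists_forall_le' (a := 0) (f := fun k : V × V => (om p₀).form k.1
      ![(φ p₀).B k.1 k.2, (φ p₀).B k.1 (I • k.2)])
    (fun k hk => (ContinuousAt.comp (f := fun k => (p₀, k)) (h2 k hk)
      (by fun_prop)).continuousWithinAt) fun k hk => by
      obtain ⟨⟨e1, e2⟩, e3⟩ := hK ▸ hk
      have := hT p₀ k.1 (hne e1) ((φ p₀).B k.1 k.2) fun d hd => by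
        have e4 := congrArg ((φ p₀).A k.1) hd
        rw [Fr.AB _ _ (hne e1), Fr.A_vert _ (hne e1)] at e4
        have e5 : vc k.1 k.2 = 0 := e3
        rw [e4, vc_smul, vc_self (hne e1), mul_one] at e5
        exact hne e2 (by rw [e4, e5, zero_smul])
      rwa [Fr.J, Fr.AB _ _ (hne e1)] at this
  refine ⟨2 / c, by positivity, ?_⟩
  filter_upwards [h1.eventually_forall_of_forall_eventually (x₀ := p₀) (P := fun p k => c / 2 <
    (om p).form k.1 ![(φ p).B k.1 k.2, (φ p).B k.1 (I • k.2)]) fun k hk =>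
      (h2 k hk).eventually (lt_mem_nhds ((half_lt_self hc0).trans_le (h3 k hk)))] with p h4 x hx v
  rw [red_KTame _ _ hx]
  have h5 := vc_hp hx ((φ p).A x v)
  generalize hp x ((φ p).A x v) = t at h5 ⊢
  have hs := norm_ne_zero_iff.2 hx
  have hx1 : ‖x‖⁻¹ • x ≠ 0 := smul_ne_zero (inv_ne_zero hs) hx
  have h6 := scale_KTame (φ p) (om p) hx1 hs ‖t‖ (‖t‖⁻¹ • t) (I • ‖t‖⁻¹ • t)
  by_cases ht : t = 0
  · rw [(om p).isForm.horiz x _ 0 0 (by simp [ht]), ht]
    simp
  have hm := norm_ne_zero_iff.2 ht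
  rw [smul_inv_smul₀ hs, smul_inv_smul₀ hm, smul_comm _ I, smul_inv_smul₀ hm] at h6
  have h7 := h4 (‖x‖⁻¹ • x, ‖t‖⁻¹ • t) (hK ▸ ⟨⟨by simp [norm_smul, hs], by simp [norm_smul, hm]⟩, by
    have := vc_scale (ofReal_ne_zero.2 (inv_ne_zero hs)) x t
    rw [vc_smul, h5, Complex.coe_smul, mul_eq_zero_iff_left
      (ofReal_ne_zero.2 (inv_ne_zero hs))] at this
    change vc _ (_ • t) = 0
    rw [map_smul, this, smul_zero]⟩)
  rw [mul_assoc, h6, mul_left_comm]
  refine le_mul_of_one_le_right (sq_nonneg _) ?_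
  rw [div_mul_eq_mul_div, one_le_div hc0]
  linarith

end Pool.Agent.MP_2fc7fa_gt.N
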