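import Pool.Agent.MP_2fc7fa_gt.N.IfK

open scoped ContDiff ComplexConjugate Topology
open Set Complex Filter Metric MeasureTheory

noncomputable section

namespace Pool.Agent.MP_2fc7fa_gt.N

theorem lin_KTransf (L : ℂ →L[ℝ] V) (k : ℂ) : L k = k.re • L 1 + k.im • L I := by
  rw [← map_smul, ← map_smul, ← map_add]
  congr 1
  simp

/-- A real alternating two-form as a bilinear function. -/
theorem add_left_KTransf (β : V [⋀^Fin 2]→L[ℝ] ℝ) (a a' b : V) :
    β ![a + a', b] = β ![a, b] + β ![a', b] :=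
  β.toContinuousMultilinearMap.cons_add ![b] a a'

theorem smul_left_KTransf (β : V [⋀^Fin 2]→L[ℝ] ℝ) (c : ℝ) (a b : V) :
    β ![c • a, b] = c * β ![a, b] :=
  β.toContinuousMultilinearMap.cons_smul ![b] c a

theorem swap_KTransf (β : V [⋀^Fin 2]→L[ℝ] ℝ) (a b : V) : β ![a, b] = -β ![b, a] := by
  have h := β.toAlternatingMap.map_swap ![b, a] (i := 0) (j := 1) (by decide)
  have e : ![b, a] ∘ Equiv.swap (0 : Fin 2) 1 = ![a, b] := by
    funext i
    fin_cases i <;> rfl
  rw [e] at h
  exact h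

theorem self_KTransf (β : V [⋀^Fin 2]→L[ℝ] ℝ) (a : V) : β ![a, a] = 0 := by
  have := swap_KTransf β a a
  linarith

theorem add_right_KTransf (β : V [⋀^Fin 2]→L[ℝ] ℝ) (a b b' : V) :
    β ![a, b + b'] = β ![a, b] + β ![a, b'] := by
  rw [swap_KTransf, add_left_KTransf, swap_KTransf β a b, swap_KTransf β a b']
  ring

theorem smul_right_KTransf (β : V [⋀^Fin 2]→L[ℝ] ℝ) (c : ℝ) (a b : V) :
    β ![a, c • b] = c * β ![a, b] := by
  rw [swap_KTransf, smul_left_KTransf, swap_KTransf β a b]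
  ring

theorem form_KTransf (σ : Symp 1) {x : V} {f : ℂ} (hf : f ≠ 0) (a b : V) (c c' : ℂ) :
    σ.form (f • x) ![f • a + c • x, f • b + c' • x] = σ.form x ![a, b] := by
  have h0 : ∀ (v : V) (c : ℂ), σ.form (f • x) ![c • x, v] = 0 := fun v c =>
    σ.isForm.horiz _ _ 0 (c / f) (by simp [smul_smul, hf])
  have h1 : ∀ (v : V) (c : ℂ), σ.form (f • x) ![v, c • x] = 0 := fun v c => by
    rw [swap_KTransf, h0, neg_zero]
  rw [add_left_KTransf, h0, add_zero, add_right_KTransf, h1, add_zero,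
    ← σ.isForm.scale f hf x ![a, b]]
  congr 1
  funext i
  fin_cases i <;> rfl

theorem kTransf : TransfStmt := by
  intro φ σ u f g f' g' w hf hg hf0 hu hu0 hCR
  have hcr := hCR (g w) rfl
  set x := u (g w) with hx
  set L := fderiv ℝ u (g w) with hL
  have hd : ∀ h : ℂ, fderiv ℝ (fun t => f t • u (g t)) w h = f w • L (g' * h) + (f' * h) • x := by
    intro h
    have h1 := hf.hasFDerivAt.restrictScalars ℝ
    have h2 := hu.hasFDerivAt.comp w (hg.hasFDerivAt.restrictScalars ℝ)
    have h3 := (h1.smul h2).fderiv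
    have e : (fun t => f t • u (g t)) = f • (u ∘ g) := rfl
    rw [e, h3]
    simp [mul_comm, hL, hx]
  have hA : ∀ k : ℂ, φ.A x (L k) = k • φ.A x (L 1) := by
    intro k
    rw [lin_KTransf L k, map_add, map_smul, map_smul, hcr]
    conv_rhs => rw [← re_add_im k, add_smul, mul_smul]
    simp only [Complex.coe_smul]
  have hv : ∀ c : ℂ, c • x = (c / f w) • f w • x := fun c => by
    rw [smul_smul, div_mul_cancel₀ _ hf0]
  have hx0 : f w • x ≠ 0 := smul_ne_zero hf0 hu0
  have hA' : ∀ h : ℂ, φ.A (f w • x) (fderiv ℝ (fun t => f t • u (g t)) w h) =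
      h • (f w • g' • φ.A x (L 1) + f' • x) := by
    intro h
    rw [hd, map_add, φ.A_scale hu0 hf0, hA, hv (f' * h), φ.A_vert hx0, ← hv]
    module
  refine ⟨fun z hz => ?_, ?_, ?_⟩
  · obtain rfl : z = w := hz
    beta_reduce
    rw [← hx, hA', hA', one_smul]
  · simp only [al]
    rw [← hx, ← hL, cf, cf, ContinuousLinearMap.comp_apply, ContinuousLinearMap.comp_apply, hA',
      one_smul, map_add, vc_scale hf0, vc_smul, hv f', vc_smul, vc_self hx0]
    ring
  · simp only [dens]
    rw [← hx, ← hL, hd, hd, form_KTransf σ hf0, lin_KTransf L (g' * 1), lin_KTransf L (g' * I)]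
    simp only [add_left_KTransf, add_right_KTransf, smul_left_KTransf, smul_right_KTransf,
      self_KTransf, swap_KTransf _ (L I) (L 1), Complex.sq_norm, normSq_apply]
    simp
    ring

end Pool.Agent.MP_2fc7fa_gt.N
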