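import Pool.Agent.MP_2fc7fa_gt.N.KMain
import Pool.Agent.MP_2fc7fa_gt.N.KForm
import Pool.Agent.MP_2fc7fa_gt.N.KTame
import Pool.Agent.MP_2fc7fa_gt.N.KCurv
import Pool.Agent.MP_2fc7fa_gt.N.KDbar
import Pool.Agent.MP_2fc7fa_gt.N.KAlpha
import Pool.Agent.MP_2fc7fa_gt.N.KTransf
import Pool.Agent.MP_2fc7fa_gt.N.KDens
import Pool.Agent.MP_2fc7fa_gt.N.KLine
import Pool.Agent.MP_2fc7fa_gt.N.KGauge
import Pool.Agent.MP_2fc7fa_gt.N.KAMP
import Pool.Agent.MP_2fc7fa_gt.N.KAA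
import Pool.Agent.MP_2fc7fa_gt.N.KHarnack
import Pool.Agent.MP_2fc7fa_gt.N.KLimit
import Pool.Agent.MP_2fc7fa_gt.N.KRegauge
import Pool.Agent.MP_2fc7fa_gt.N.KQuant
import Pool.Agent.MP_2fc7fa_gt.N.KBubble
import Pool.Agent.MP_2fc7fa_gt.N.KCoV
import Pool.Agent.MP_2fc7fa_gt.N.KNorm
import Pool.Agent.MP_2fc7fa_gt.N.KInv
import Pool.Agent.MP_2fc7fa_gt.N.KOuter
import Pool.Agent.MP_2fc7fa_gt.N.KGlueA
import Pool.Agent.MP_2fc7fa_gt.N.KGlueB

/-! Compactness of the space of lines modulo reparametrisation (PROOF.md, B6). -/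

namespace Pool.Agent.MP_2fc7fa_gt.N

theorem compact (h1 : T1Stmt) (h2 : T2Stmt) (_h4 : T4Stmt) (_hG : GreenStmt) (hR : RegStmt)
    (_hS : LineSmoothStmt) (hE : EstStmt) (hL : EnLineStmt) (hP : EnPlaneStmt) : CompactStmt := by
  have hD := kDens kForm
  have hLi := kLine kTransf
  have hA := kAlpha hR (kTame kForm) kCurv kDbar
  have hLim := kLimit hE kAA kHarnack
  have hB := kBubble (kRegauge hA kTransf hD (kGauge h1 h2)) hLim hD kQuant hP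
  have hI := kInv hL hLi hD kCoV
  exact kMain hL hLi hD hB (kNorm hL hLi kTransf hD) hI (kOuter hB hLi kTransf hD kCoV hI) hA
    (kAMP h1 h2) hLim kGlueA kGlueB

end Pool.Agent.MP_2fc7fa_gt.N
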