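import Pool.Agent.MP_2fc7fa_gt.N.IfB2

/-! Convergence of lines with a fixed jet without reparametrisation. -/

open scoped ContDiff ComplexConjugate Topology
open Set Complex Filter Metric

noncomputable section

namespace Pool.Agent.MP_2fc7fa_gt.N

variable {F F' : W → V}

theorem diff_ConvJet (h : Hom1 F) {q : W} (hq : q ≠ 0) : DifferentiableAt ℝ F q :=
  (h.1.differentiableOn one_ne_zero q hq).differentiableAt (isOpen_compl_singleton.mem_nhds hq)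

theorem cont_ConvJet (h : Hom1 F) : ContinuousOn (fderiv ℝ F) {0}ᶜ :=
  h.1.continuousOn_fderiv_of_isOpen isOpen_compl_singleton le_rfl

theorem scale_ConvJet (h : Hom1 F) {t : ℝ} (ht : t ≠ 0) (q : W) :
    fderiv ℝ F (t • q) = fderiv ℝ F q := by
  have e : (fun x => F (t • x)) = t • F := funext fun x => h.2 t x
  have h1 := fderiv_comp_smul (𝕜 := ℝ) (f := F) (x := q) t
  rw [e, fderiv_const_smul_field] at h1
  exact smul_right_injective _ ht h1.symm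

theorem unit_ConvJet {q : W} (hq : q ≠ 0) :
    ∃ q' : W, ‖q'‖ = 1 ∧ ∀ F, Hom1 F → fderiv ℝ F q = fderiv ℝ F q' :=
  ⟨(‖q‖⁻¹ : ℝ) • q, norm_smul_inv_norm (𝕜 := ℝ) hq,
    fun _ h => (scale_ConvJet h (inv_ne_zero (norm_ne_zero_iff.2 hq)) q).symm⟩

theorem euler_ConvJet (h : Hom1 F) {q : W} (hq : q ≠ 0) (c : ℂ) :
    fderiv ℝ F q (c • q) = c • F q := by
  have h0 : HasDerivAt (fun t : ℝ => 1 + t • c) c 0 := by
    simpa using ((hasDerivAt_id (0 : ℝ)).smul_const c).const_add 1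
  have h1 : HasDerivAt (fun t : ℝ => F ((1 + t • c) • q)) (fderiv ℝ F q (c • q)) 0 :=
    HasFDerivAt.comp_hasDerivAt_of_eq (l := F) _ (diff_ConvJet h hq).hasFDerivAt
      (h0.smul_const q) (by simp)
  simp only [h.2] at h1
  exact h1.unique (h0.smul_const _)

theorem euler1_ConvJet (h : Hom1 F) {q : W} (hq : q ≠ 0) : fderiv ℝ F q q = F q := by
  simpa using euler_ConvJet h hq 1

theorem near_ConvJet (h : Hom1 F) (h' : Hom1 F') {ε : ℝ} :
    Near ε F F' ↔ ∀ q, q ≠ 0 → ‖fderiv ℝ F q - fderiv ℝ F' q‖ ≤ ε := by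
  refine ⟨fun hn q hq => ?_, fun hn q hq => ?_⟩
  · obtain ⟨q', h1, h2⟩ := unit_ConvJet hq
    rw [h2 F h, h2 F' h']
    exact (hn q' h1).2
  · have h0 : q ≠ 0 := norm_ne_zero_iff.1 (by rw [hq]; exact one_ne_zero)
    refine ⟨?_, hn q h0⟩
    rw [← euler1_ConvJet h h0, ← euler1_ConvJet h' h0, ← sub_apply]
    simpa [hq] using (fderiv ℝ F q - fderiv ℝ F' q).le_of_opNorm_le (hn q h0) q

theorem upper_ConvJet (h : Hom1 F) : ∃ M : ℝ, ∀ q, q ≠ 0 → ‖fderiv ℝ F q‖ ≤ M := by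
  obtain ⟨M, hM⟩ := (isCompact_sphere (0 : W) 1).exists_bound_of_continuousOn
    ((cont_ConvJet h).mono fun q hq => ne_of_mem_sphere hq one_ne_zero)
  refine ⟨M, fun q hq => ?_⟩
  obtain ⟨q', h1, h2⟩ := unit_ConvJet hq
  rw [h2 F h]
  exact hM q' (by simpa using h1)

theorem lower_ConvJet (h : Hom1 F) (he : IsEmb F) :
    ∃ m : ℝ, 0 < m ∧ ∀ q, q ≠ 0 → ∀ v, m * ‖v‖ ≤ ‖fderiv ℝ F q v‖ := by
  have c1 : ContinuousOn (fun a : W × W => fderiv ℝ F a.1) (sphere 0 1 ×ˢ sphere 0 1) :=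
    (cont_ConvJet h).comp continuousOn_fst fun a ha => ne_of_mem_sphere ha.1 one_ne_zero
  have c2 : ContinuousOn (fun a : W × W => ‖fderiv ℝ F a.1 a.2‖) (sphere 0 1 ×ˢ sphere 0 1) :=
    (c1.clm_apply continuousOn_snd).norm
  obtain ⟨m, m0, hm⟩ := ((isCompact_sphere (0 : W) 1).prod
    (isCompact_sphere (0 : W) 1)).exists_forall_le' (a := 0) c2
    fun a ha => norm_pos_iff.2 fun e => ne_of_mem_sphere ha.2 one_ne_zero
      (he.imm a.1 (ne_of_mem_sphere ha.1 one_ne_zero) (e.trans (map_zero _).symm))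
  refine ⟨m, m0, fun q hq v => ?_⟩
  obtain ⟨q', h1, h2⟩ := unit_ConvJet hq
  rw [h2 F h]
  by_cases hv : v = 0
  · simp [hv]
  have h3 := hm (q', (‖v‖⁻¹ : ℝ) • v)
    ⟨by simpa using h1, by simpa using norm_smul_inv_norm (𝕜 := ℝ) hv⟩
  simp only [map_smul, norm_smul, norm_inv, norm_norm] at h3
  rwa [le_inv_mul_iff₀ (norm_pos_iff.2 hv), mul_comm] at h3

theorem hom_ConvJet (h : Hom1 F) {k : W →L[ℂ] W} (hk : ∀ q, q ≠ 0 → k q ≠ 0) : Hom1 (F ∘ k) :=
  ⟨h.1.comp (k.restrictScalars ℝ).contDiff.contDiffOn hk,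
    fun c q => by simp only [Function.comp_apply, map_smul, h.2]⟩

theorem comp_ConvJet (h : Hom1 F) {k : W →L[ℂ] W} {q : W} (hk : k q ≠ 0) :
    fderiv ℝ (F ∘ k) q = (fderiv ℝ F (k q)).comp (k.restrictScalars ℝ) :=
  ((diff_ConvJet h hk).hasFDerivAt.comp q (k.restrictScalars ℝ).hasFDerivAt).fderiv

theorem lim_ConvJet {Fn : ℕ → W → V} (hn : ∀ n, Hom1 (Fn n)) (h : Hom1 F) (hc : Conv Fn F)
    {ι : Type} {l : Filter ι} {ν : ι → ℕ} {x : ι → W} {x₀ : W} (hν : Tendsto ν l atTop)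
    (hx : Tendsto x l (𝓝 x₀)) (h0 : x₀ ≠ 0) :
    Tendsto (fun i => fderiv ℝ (Fn (ν i)) (x i)) l (𝓝 (fderiv ℝ F x₀)) := by
  refine TendstoUniformlyOn.tendsto_comp (F := fun i => fderiv ℝ (Fn (ν i))) (s := {0}ᶜ)
    (Metric.tendstoUniformlyOn_iff.2 fun ε hε => ?_) (cont_ConvJet h x₀ h0)
    (tendsto_nhdsWithin_iff.2 ⟨hx, hx.eventually (isOpen_compl_singleton.mem_nhds h0)⟩)
  filter_upwards [hν.eventually (hc (ε / 2) (half_pos hε))] with i hi q hq
  rw [dist_comm, dist_eq_norm]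
  exact ((near_ConvJet (hn _) h).1 hi q hq).trans_lt (half_lt_self hε)

theorem conv_ConvJet {Fn : ℕ → W → V} (hn : ∀ n, Hom1 (Fn n)) (h : Hom1 F)
    (hl : ∀ q, q ≠ 0 → Tendsto (fun y : ℕ × W => fderiv ℝ (Fn y.1) y.2) (atTop ×ˢ 𝓝 q)
      (𝓝 (fderiv ℝ F q))) : Conv Fn F := by
  have h1 : TendstoUniformlyOn (fun n => fderiv ℝ (Fn n)) (fderiv ℝ F) atTop (sphere 0 1) := by
    refine (tendstoLocallyUniformlyOn_iff_tendstoUniformlyOn_of_compact (isCompact_sphere _ _)).1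
      (tendstoLocallyUniformlyOn_iff_forall_tendsto.2 fun q hq => ?_)
    have h0 : q ≠ 0 := ne_of_mem_sphere hq one_ne_zero
    refine Tendsto.mono_left ?_ (prod_mono le_rfl nhdsWithin_le_nhds)
    exact ((((cont_ConvJet h).continuousAt (isOpen_compl_singleton.mem_nhds h0)).tendsto.comp
      tendsto_snd).prodMk_nhds (hl q h0)).mono_right (nhds_le_uniformity _)
  intro ε hε
  filter_upwards [Metric.tendstoUniformlyOn_iff.1 h1 ε hε] with n hq
  refine (near_ConvJet (hn n) h).2 fun q h0 => ?_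
  obtain ⟨q', h2, h3⟩ := unit_ConvJet h0
  rw [h3 _ h, h3 _ (hn n), ← dist_eq_norm, dist_comm]
  exact (hq q' (by simpa using h2)).le

theorem convJet : ConvJetStmt := by
  intro P _ φ p p₀ U g U' j _ _ hj hU hU' hE hC
  have H : ∀ n, Hom1 (U n) := fun n => ⟨(hU n).1.c1, (hU n).1.hom⟩
  have H' : Hom1 U' := ⟨hU'.c1, hU'.hom⟩
  have HV : ∀ n, Hom1 (U n ∘ g n) := fun n =>
    hom_ConvJet (k := (g n : W →L[ℂ] W)) (H n) fun q hq => (g n).map_ne_zero_iff.2 hq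
  obtain ⟨k, hk, hD⟩ : ∃ k : ℕ → W →L[ℂ] W, (∀ n q, q ≠ 0 → k n q ≠ 0) ∧ ∀ n q, q ≠ 0 →
      fderiv ℝ (U n) q = (fderiv ℝ (U n ∘ g n) (k n q)).comp ((k n).restrictScalars ℝ) := by
    refine ⟨fun n => (g n).symm, fun n q hq => (g n).symm.map_ne_zero_iff.2 hq, fun n q hq => ?_⟩
    rw [← comp_ConvJet (HV n) ((g n).symm.map_ne_zero_iff.2 hq)]
    congr 1
    funext x
    simp
  have e0 : ((1, 0) : W) ≠ 0 := by simp
  have j1 : ∀ n, fderiv ℝ (U n ∘ g n) (k n (1, 0)) (k n (1, 0)) = j.1 := fun n => by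
    rw [← (hU n).2, jet, ← euler1_ConvJet (H n) e0, hD n _ e0]
    rfl
  have j2 : ∀ n, fderiv ℝ (U n ∘ g n) (k n (1, 0)) (k n (0, 1)) = j.2 := fun n => by
    rw [← (hU n).2, jet, hD n _ e0]
    rfl
  have dec : ∀ (L : W →L[ℂ] W) (q : W), L q = q.1 • L (1, 0) + q.2 • L (0, 1) := fun L q => by
    rw [← map_smul, ← map_smul, ← map_add]
    simp
  obtain ⟨M, hM⟩ := upper_ConvJet H'
  obtain ⟨m, m0, hm⟩ := lower_ConvJet H' hE
  have hb : ∀ᶠ n in atTop, k n ∈ closedBall (0 : W →L[ℂ] W) (2 * (‖j.1‖ + ‖j.2‖) / m) := by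
    filter_upwards [hC (m / 2) (half_pos m0)] with n hn
    have h1 := (near_ConvJet (HV n) H').1 hn _ (hk n _ e0)
    have h2 : ∀ v, m / 2 * ‖v‖ ≤ ‖fderiv ℝ (U n ∘ g n) (k n (1, 0)) v‖ := fun v => by
      have h3 := ContinuousLinearMap.le_of_opNorm_le _ h1 v
      have h4 := hm _ (hk n _ e0) v
      have h5 := norm_sub_norm_le (fderiv ℝ U' (k n (1, 0)) v)
        (fderiv ℝ (U n ∘ g n) (k n (1, 0)) v)
      rw [sub_apply, norm_sub_rev] at h3
      linarith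
    have h3 := h2 (k n (1, 0))
    have h4 := h2 (k n (0, 1))
    rw [j1] at h3
    rw [j2] at h4
    rw [mem_closedBall_zero_iff]
    refine ContinuousLinearMap.opNorm_le_bound _ (by positivity) fun q => ?_
    have h5 : ‖k n (1, 0)‖ + ‖k n (0, 1)‖ ≤ 2 * (‖j.1‖ + ‖j.2‖) / m := by
      rw [le_div_iff₀ m0]
      linarith
    rw [dec]
    calc _ ≤ ‖q.1‖ * ‖k n (1, 0)‖ + ‖q.2‖ * ‖k n (0, 1)‖ :=
          (norm_add_le _ _).trans_eq (by rw [norm_smul, norm_smul])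
      _ ≤ ‖q‖ * ‖k n (1, 0)‖ + ‖q‖ * ‖k n (0, 1)‖ := by
          gcongr
          · exact norm_fst_le q
          · exact norm_snd_le q
      _ ≤ _ := by
          rw [← mul_add, mul_comm]
          gcongr
  have _ : ProperSpace (W →L[ℂ] W) := FiniteDimensional.proper ℂ _
  obtain ⟨K, -, ψ, hψ, hK⟩ := tendsto_subseq_of_frequently_bounded isBounded_closedBall
    hb.frequently
  have hKq : ∀ q, Tendsto (fun n => k (ψ n) q) atTop (𝓝 (K q)) := fun q =>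
    ((continuous_eval_const q).tendsto K).comp hK
  have a0 : K (1, 0) ≠ 0 := fun h0 => by
    have h1 : Tendsto (fun n => (M + 1) * ‖k (ψ n) (1, 0)‖) atTop (𝓝 ((M + 1) * ‖K (1, 0)‖)) :=
      (hKq _).norm.const_mul _
    rw [h0, norm_zero, mul_zero] at h1
    refine hj.1 (norm_le_zero_iff.1 (ge_of_tendsto h1 ?_))
    filter_upwards [hψ.tendsto_atTop.eventually (hC 1 one_pos)] with n hn
    rw [← j1 (ψ n)]
    refine ContinuousLinearMap.le_of_opNorm_le _ ?_ _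
    have h2 := (near_ConvJet (HV _) H').1 hn _ (hk (ψ n) _ e0)
    have h3 := hM _ (hk (ψ n) _ e0)
    have h4 := norm_sub_norm_le (fderiv ℝ (U (ψ n) ∘ g (ψ n)) (k (ψ n) (1, 0)))
      (fderiv ℝ U' (k (ψ n) (1, 0)))
    linarith
  have hL := lim_ConvJet HV H' hC hψ.tendsto_atTop (hKq (1, 0)) a0
  have ap : ∀ q, Tendsto (fun n => fderiv ℝ (U (ψ n) ∘ g (ψ n)) (k (ψ n) (1, 0)) (k (ψ n) q))
      atTop (𝓝 (fderiv ℝ U' (K (1, 0)) (K q))) := fun q =>
    (isBoundedBilinearMap_apply.continuous.tendsto (_, _)).comp (hL.prodMk_nhds (hKq q))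
  have l1 : U' (K (1, 0)) = j.1 := by
    have h1 := ap (1, 0)
    simp only [j1] at h1
    rw [← euler1_ConvJet H' a0]
    exact tendsto_nhds_unique h1 tendsto_const_nhds
  have l2 : fderiv ℝ U' (K (1, 0)) (K (0, 1)) = j.2 := by
    have h1 := ap (0, 1)
    simp only [j2] at h1
    exact tendsto_nhds_unique h1 tendsto_const_nhds
  have K0 : ∀ q, q ≠ 0 → K q ≠ 0 := fun q hq h0 => by
    rw [dec] at h0
    by_cases h2 : q.2 = 0
    · rw [h2, zero_smul, add_zero, smul_eq_zero] at h0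
      exact hq (Prod.ext (h0.resolve_right a0) h2)
    · refine hj.2 (-(q.1 / q.2)) ?_
      rw [← l1, ← l2, ← euler_ConvJet H' a0]
      congr 1
      refine smul_right_injective _ h2 ?_
      simp only [smul_smul]
      rw [eq_neg_of_add_eq_zero_right h0, mul_neg, mul_div_cancel₀ _ h2, neg_smul]
  have Ki : Function.Injective K :=
    (injective_iff_map_eq_zero K).2 fun q h0 => by_contra fun hq => K0 q hq h0
  have HK := hom_ConvJet H' K0
  refine ⟨ψ, U' ∘ K, hψ, ⟨HK.1, fun q hq => hU'.ne _ (K0 q hq), HK.2, fun q hq v => ?_⟩,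
    ⟨fun q hq => ?_, fun q hq q' hq' e => Ki (hE.inj (K0 q hq) (K0 q' hq') e)⟩, ?_,
    conv_ConvJet (fun n => H (ψ n)) HK fun q hq => ?_⟩
  · rw [comp_ConvJet H' (K0 q hq)]
    simpa using hU'.hol _ (K0 q hq) (K v)
  · rw [comp_ConvJet H' (K0 q hq)]
    exact (hE.imm _ (K0 q hq)).comp Ki
  · rw [jet, comp_ConvJet H' a0]
    exact Prod.ext l1 l2
  · have h1 : Tendsto (fun y : ℕ × W => k (ψ y.1)) (atTop ×ˢ 𝓝 q) (𝓝 K) := hK.comp tendsto_fst
    have h2 : Tendsto (fun y : ℕ × W => k (ψ y.1) y.2) (atTop ×ˢ 𝓝 q) (𝓝 (K q)) :=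
      (isBoundedBilinearMap_apply.continuous.tendsto (_, _)).comp (h1.prodMk_nhds tendsto_snd)
    have h3 := lim_ConvJet HV H' hC (hψ.tendsto_atTop.comp tendsto_fst) h2 (K0 q hq)
    have h4 := ((ContinuousLinearMap.continuous_restrictScalars ℝ).tendsto K).comp h1
    rw [comp_ConvJet H' (K0 q hq)]
    refine ((isBoundedBilinearMap_comp.continuous.tendsto (_, _)).comp
      (h3.prodMk_nhds h4)).congr' ?_
    filter_upwards [tendsto_snd.eventually (isOpen_compl_singleton.mem_nhds hq)] with y hy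
    exact (hD _ _ hy).symm

end Pool.Agent.MP_2fc7fa_gt.N
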