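import Pool.Agent.MP_2fc7fa_gt.N.IfB

/-! The degree argument of the cusp lemma. -/

open scoped Topology
open Set Complex Filter Metric

noncomputable section

namespace Pool.Agent.MP_2fc7fa_gt.N

def clampCT (t : ℝ) : ℝ := max 0 (min 1 t)

lemma clampCT_cont : Continuous clampCT := by unfold clampCT; fun_prop

lemma clampCT_one {t : ℝ} (h : 1 ≤ t) : clampCT t = 1 := by
  unfold clampCT; rw [min_eq_left h]; simp

lemma clampCT_zero {t : ℝ} (h : t ≤ 0) : clampCT t = 0 := by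
  unfold clampCT; exact max_eq_left (le_trans (min_le_right _ _) h)

lemma clampCT_id {t : ℝ} (h0 : 0 ≤ t) (h1 : t ≤ 1) : clampCT t = t := by
  unfold clampCT; rw [min_eq_right h1, max_eq_right h0]

lemma clampCT_abs (t : ℝ) : |clampCT t| ≤ 1 := by
  unfold clampCT
  rw [abs_le]
  constructor
  · exact le_trans (by norm_num) (le_max_left _ _)
  · exact max_le (by norm_num) (min_le_left _ _)

/-- A chain of three linear homotopies. -/
theorem chain3 (hD : DegStmt) (E : Type) [NormedAddCommGroup E] [NormedSpace ℂ E]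
    [FiniteDimensional ℂ E] (K : Set E) (F0 F1 F2 F3 : E → E) (hK : IsCompact K)
    (c0 : ContinuousOn F0 K) (c1 : ContinuousOn F1 K) (c2 : ContinuousOn F2 K)
    (c3 : ContinuousOn F3 K)
    (h01 : ∀ s ∈ Icc (0 : ℝ) 1, ∀ x ∈ frontier K, (1 - (s : ℂ)) • F0 x + (s : ℂ) • F1 x ≠ 0)
    (h12 : ∀ s ∈ Icc (0 : ℝ) 1, ∀ x ∈ frontier K, (1 - (s : ℂ)) • F1 x + (s : ℂ) • F2 x ≠ 0)
    (h23 : ∀ s ∈ Icc (0 : ℝ) 1, ∀ x ∈ frontier K, (1 - (s : ℂ)) • F2 x + (s : ℂ) • F3 x ≠ 0)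
    (hf : {x ∈ K | F3 x = 0}.Finite) (hn : {x ∈ K | F3 x = 0}.Nonempty)
    (hd : ∀ x ∈ K, F3 x = 0 → ∃ L : E →L[ℂ] E, Function.Injective L ∧ HasFDerivAt F3 L x) :
    ∃ x ∈ K, F0 x = 0 := by
  let H : ℝ → E → E := fun s x => F0 x + (clampCT (3 * s) : ℂ) • (F1 x - F0 x) +
    (clampCT (3 * s - 1) : ℂ) • (F2 x - F1 x) + (clampCT (3 * s - 2) : ℂ) • (F3 x - F2 x)
  have H1 : H 1 = F3 := by
    funext x
    simp only [H]
    rw [clampCT_one (by norm_num), clampCT_one (by norm_num), clampCT_one (by norm_num)]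
    simp
  have H0 : H 0 = F0 := by
    funext x
    simp only [H]
    rw [clampCT_zero (by norm_num), clampCT_zero (by norm_num), clampCT_zero (by norm_num)]
    simp
  have key := hD E K H hK ?_ ?_ (by rw [H1]; exact hf) (by rw [H1]; exact hn) ?_
  · rwa [H0] at key
  · have d : ∀ {F : E → E}, ContinuousOn F K →
        ContinuousOn (fun a : ℝ × E => F a.2) (Icc 0 1 ×ˢ K) := fun hF =>
      hF.comp continuousOn_snd fun a ha => ha.2
    have e : ∀ b : ℝ, ContinuousOn (fun a : ℝ × E => (clampCT (3 * a.1 - b) : ℂ)) (Icc 0 1 ×ˢ K) :=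
      fun b => (continuous_ofReal.comp (clampCT_cont.comp (by fun_prop))).continuousOn
    have e0 : ContinuousOn (fun a : ℝ × E => (clampCT (3 * a.1) : ℂ)) (Icc 0 1 ×ˢ K) :=
      (continuous_ofReal.comp (clampCT_cont.comp (by fun_prop))).continuousOn
    exact (((d c0).add (e0.smul ((d c1).sub (d c0)))).add ((e 1).smul ((d c2).sub (d c1)))).add
      ((e 2).smul ((d c3).sub (d c2)))
  · intro s hs x hx
    simp only [H]
    rcases le_total (3 * s) 1 with h | h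
    · rw [clampCT_id (by linarith [hs.1]) h, clampCT_zero (by linarith), clampCT_zero (by linarith)]
      have := h01 (3 * s) ⟨by linarith [hs.1], h⟩ x hx
      convert this using 1
      push_cast
      module
    · rcases le_total (3 * s) 2 with h' | h'
      · rw [clampCT_one h, clampCT_id (by linarith) (by linarith), clampCT_zero (by linarith)]
        have := h12 (3 * s - 1) ⟨by linarith, by linarith⟩ x hx
        convert this using 1
        push_cast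
        module
      · rw [clampCT_one h, clampCT_one (by linarith), clampCT_id (by linarith) (by linarith [hs.2])]
        have := h23 (3 * s - 2) ⟨by linarith, by linarith [hs.2]⟩ x hx
        convert this using 1
        push_cast
        module
  · intro x hx h0
    rw [H1] at h0 ⊢
    obtain ⟨L, hL, hd⟩ := hd x hx h0
    refine ⟨(LinearEquiv.ofInjectiveEndo (L : E →ₗ[ℂ] E) hL).toContinuousLinearEquiv, ?_⟩
    convert hd.restrictScalars ℝ using 1
    rfl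

lemma pos_lb_CT {α : Type} (s : Finset α) (f : α → ℝ) (h : ∀ x ∈ s, 0 < f x) :
    ∃ d : ℝ, 0 < d ∧ ∀ x ∈ s, d ≤ f x := by
  classical
  induction s using Finset.induction_on with
  | empty => exact ⟨1, one_pos, by simp⟩
  | insert a s _ ih =>
    obtain ⟨d, hd, h'⟩ := ih fun x hx => h x (Finset.mem_insert_of_mem hx)
    refine ⟨min d (f a), lt_min hd (h a (Finset.mem_insert_self _ _)), fun x hx => ?_⟩
    rcases Finset.mem_insert.1 hx with rfl | hx
    · exact min_le_right _ _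
    · exact le_trans (min_le_left _ _) (h' x hx)

/-- The polynomial `(ζ ^ k - z ^ k) / (ζ - z)`. -/
def geoCT (k : ℕ) (q : W) : ℂ := ∑ i ∈ Finset.range k, q.2 ^ i * q.1 ^ (k - 1 - i)

lemma geoCT_mul (k : ℕ) (q : W) : geoCT k q * (q.2 - q.1) = q.2 ^ k - q.1 ^ k :=
  geom_sum₂_mul _ _ _

lemma geoCT_diff (k : ℕ) : Differentiable ℂ (geoCT k) := by
  unfold geoCT; fun_prop

lemma geoCT_smul (k : ℕ) (c : ℂ) (q : W) : geoCT k (c • q) = c ^ (k - 1) * geoCT k q := by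
  unfold geoCT
  rw [Finset.mul_sum]
  refine Finset.sum_congr rfl fun i hi => ?_
  have hi' : i + (k - 1 - i) = k - 1 := by have := Finset.mem_range.1 hi; omega
  simp only [Prod.smul_fst, Prod.smul_snd, smul_eq_mul, mul_pow]
  conv_rhs => rw [← hi', pow_add]
  rw [hi']
  ring

/-- The roots of unity of order dividing `k` other than `1`. -/
def rtsCT (k : ℕ) : Finset ℂ := (Polynomial.nthRootsFinset k (1 : ℂ)).erase 1

lemma mem_rtsCT {k : ℕ} (hk : 2 ≤ k) {w : ℂ} : w ∈ rtsCT k ↔ w ^ k = 1 ∧ w ≠ 1 := by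
  unfold rtsCT
  rw [Finset.mem_erase, Polynomial.mem_nthRootsFinset (by omega)]
  tauto

lemma norm_rt_CT {k : ℕ} (hk : 2 ≤ k) {w : ℂ} (h : w ^ k = 1) : ‖w‖ = 1 := by
  have : ‖w‖ ^ k = 1 := by rw [← norm_pow, h, norm_one]
  exact (pow_eq_one_iff_of_nonneg (norm_nonneg _) (by omega)).1 this

lemma geoCT_zero {k : ℕ} (hk : 2 ≤ k) {q : W} (hq : q ≠ 0) (h : geoCT k q = 0) :
    q.1 ≠ 0 ∧ ∃ w ∈ rtsCT k, q.2 = w * q.1 := by
  have h1 : q.2 ^ k = q.1 ^ k := by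
    have := geoCT_mul k q
    rw [h, zero_mul] at this
    exact sub_eq_zero.1 this.symm
  have hz : q.1 ≠ 0 := by
    intro h0
    rw [h0, zero_pow (by omega)] at h1
    exact hq (Prod.ext h0 (pow_eq_zero_iff (by omega) |>.1 h1))
  refine ⟨hz, q.2 / q.1, (mem_rtsCT hk).2 ⟨?_, ?_⟩, by field_simp⟩
  · rw [div_pow, h1, div_self (pow_ne_zero _ hz)]
  · intro h2
    have h3 : q.2 = q.1 := by field_simp at h2; exact h2
    unfold geoCT at h
    rw [h3, geom_sum₂_self] at h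
    have : (k : ℂ) ≠ 0 := by exact_mod_cast (by omega : k ≠ 0)
    exact mul_ne_zero this (pow_ne_zero _ hz) h

lemma geoCT_lb {k : ℕ} (hk : 2 ≤ k) {η : ℝ} (hη : 0 < η) : ∃ ε : ℝ, 0 < ε ∧
    ∀ q : W, q ≠ 0 → ‖geoCT k q‖ ≤ ε * ‖q‖ ^ (k - 1) →
      ∃ w ∈ rtsCT k, ‖q.2 - w * q.1‖ < η * ‖q.1‖ := by
  have hS : IsCompact (sphere (0 : W) 1 ∩ {q | ∀ w ∈ rtsCT k, η * ‖q.1‖ ≤ ‖q.2 - w * q.1‖}) := by
    refine (isCompact_sphere _ _).inter_right ?_
    simp only [ofPred_forall]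
    exact isClosed_iInter fun w => isClosed_iInter fun _ =>
      isClosed_le (by fun_prop) (by fun_prop)
  obtain ⟨c, hc, hc'⟩ := hS.exists_forall_le' (f := fun q => ‖geoCT k q‖) (a := 0)
    (geoCT_diff k).continuous.norm.continuousOn (by
      rintro q ⟨hq, hq'⟩
      rw [norm_pos_iff]
      intro h
      have hq0 : q ≠ 0 := by rintro rfl; simp at hq
      obtain ⟨hz, w, hw, h2⟩ := geoCT_zero hk hq0 h
      have := hq' w hw
      rw [h2, sub_self, norm_zero] at this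
      have := mul_pos hη (norm_pos_iff.2 hz)
      linarith)
  refine ⟨c / 2, by linarith, fun q hq h => ?_⟩
  by_contra hcon
  push Not at hcon
  have hn : 0 < ‖q‖ := norm_pos_iff.2 hq
  have h1 : c ≤ ‖geoCT k (((‖q‖⁻¹ : ℝ) : ℂ) • q)‖ := by
    refine hc' _ ⟨?_, fun w hw => ?_⟩
    · rw [mem_sphere_zero_iff_norm, norm_smul, norm_real, norm_inv, norm_norm]
      field_simp
    · simp only [Prod.smul_fst, Prod.smul_snd, smul_eq_mul]
      have e : ((‖q‖⁻¹ : ℝ) : ℂ) * q.2 - w * (((‖q‖⁻¹ : ℝ) : ℂ) * q.1) =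
          ((‖q‖⁻¹ : ℝ) : ℂ) * (q.2 - w * q.1) := by ring
      rw [e, norm_mul, norm_mul, mul_left_comm]
      exact mul_le_mul_of_nonneg_left (hcon w hw) (norm_nonneg _)
  rw [geoCT_smul, norm_mul, norm_pow, norm_real, norm_inv, norm_norm, inv_pow] at h1
  have hp : 0 < ‖q‖ ^ (k - 1) := pow_pos hn _
  rw [le_inv_mul_iff₀ hp] at h1
  nlinarith

/-- The first coordinate, cut off outside a cone about the line `ζ = w z`. -/
def coneCT (η : ℝ) (w : ℂ) (q : W) : ℂ := q.1 * (clampCT (2 - ‖q.2 - w * q.1‖ / ‖q.1‖ / η) : ℂ)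

lemma coneCT_cont (η : ℝ) (w : ℂ) : Continuous (coneCT η w) := by
  rw [continuous_iff_continuousAt]
  intro q
  by_cases h : q.1 = 0
  · have h0 : coneCT η w q = 0 := by simp [coneCT, h]
    rw [ContinuousAt, h0]
    refine squeeze_zero_norm (a := fun p : W => ‖p.1‖) (fun p => ?_) ?_
    · unfold coneCT
      rw [norm_mul, norm_real, Real.norm_eq_abs]
      exact mul_le_of_le_one_right (norm_nonneg _) (clampCT_abs _)
    · have : ContinuousAt (fun p : W => ‖p.1‖) q := by fun_prop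
      simpa [ContinuousAt, h] using this
  · unfold coneCT
    refine continuousAt_fst.mul (continuous_ofReal.continuousAt.comp
      (clampCT_cont.continuousAt.comp ?_))
    have : ‖q.1‖ ≠ 0 := norm_ne_zero_iff.2 h
    exact continuousAt_const.sub (((by fun_prop : ContinuousAt
      (fun p : W => ‖p.2 - w * p.1‖) q).div (by fun_prop) this).div_const _)

lemma coneCT_in {η : ℝ} (hη : 0 < η) {w : ℂ} {q : W} (h : ‖q.2 - w * q.1‖ ≤ η * ‖q.1‖) :
    coneCT η w q = q.1 := by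
  unfold coneCT
  by_cases h0 : q.1 = 0
  · simp [h0]
  have hn : 0 < ‖q.1‖ := norm_pos_iff.2 h0
  rw [clampCT_one]
  · simp
  · have : ‖q.2 - w * q.1‖ / ‖q.1‖ / η ≤ 1 := by
      rw [div_le_one hη, div_le_iff₀ hn]; exact h
    linarith

lemma coneCT_out {η : ℝ} (hη : 0 < η) {w : ℂ} {q : W} (h : 2 * η * ‖q.1‖ ≤ ‖q.2 - w * q.1‖) :
    coneCT η w q = 0 := by
  unfold coneCT
  by_cases h0 : q.1 = 0
  · simp [h0]
  have hn : 0 < ‖q.1‖ := norm_pos_iff.2 h0
  rw [clampCT_zero]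
  · simp
  · have : 2 ≤ ‖q.2 - w * q.1‖ / ‖q.1‖ / η := by
      rw [le_div_iff₀ hη, le_div_iff₀ hn]; exact h
    linarith

/-- The model for the second component. -/
def gCT (k : ℕ) (η : ℝ) (c : ℂ → ℂ) (M : ℂ → ℕ) (q : W) : ℂ :=
  ∑ w ∈ rtsCT k, c w / (w - 1) * q.1 ^ (M w - 2) * coneCT η w q

lemma gCT_cont (k : ℕ) (η : ℝ) (c : ℂ → ℂ) (M : ℂ → ℕ) : Continuous (gCT k η c M) := by
  unfold gCT
  exact continuous_finsetSum _ fun w _ =>
    (by fun_prop : Continuous fun q : W => c w / (w - 1) * q.1 ^ (M w - 2)).mul (coneCT_cont η w)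

lemma gCT_in {k : ℕ} (hk : 2 ≤ k) {η : ℝ} (hη : 0 < η) (c : ℂ → ℂ) (M : ℂ → ℕ)
    (hsep : ∀ w w' : ℂ, w ^ k = 1 → w' ^ k = 1 → w ≠ w' → 4 * η ≤ ‖w - w'‖) {w : ℂ}
    (hw : w ∈ rtsCT k) (hM : 2 ≤ M w) {q : W} (h : ‖q.2 - w * q.1‖ ≤ η * ‖q.1‖) :
    gCT k η c M q = c w / (w - 1) * q.1 ^ (M w - 1) := by
  unfold gCT
  rw [Finset.sum_eq_single_of_mem w hw, coneCT_in hη h, mul_assoc, ← pow_succ]
  · congr 2; omega
  · intro w' hw' hne
    rw [coneCT_out hη, mul_zero]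
    have h1 := hsep w w' ((mem_rtsCT hk).1 hw).1 ((mem_rtsCT hk).1 hw').1 hne.symm
    have h2 : ‖(w - w') * q.1‖ ≤ ‖q.2 - w' * q.1‖ + ‖q.2 - w * q.1‖ := by
      have : (w - w') * q.1 = (q.2 - w' * q.1) - (q.2 - w * q.1) := by ring
      rw [this]
      exact norm_sub_le _ _
    rw [norm_mul] at h2
    nlinarith [norm_nonneg q.1]

lemma conv_ne_CT {E : Type} [NormedAddCommGroup E] [NormedSpace ℂ E] {X Y D : E} {s : ℝ}
    (hs : s ∈ Icc (0 : ℝ) 1) (hX : ‖X - D‖ < ‖D‖) (hY : ‖Y - D‖ < ‖D‖) :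
    (1 - (s : ℂ)) • X + (s : ℂ) • Y ≠ 0 := by
  intro h
  have e : D = -(((1 - s : ℝ) : ℂ) • (X - D) + (s : ℂ) • (Y - D)) := by
    push_cast
    linear_combination (norm := module) h
  have h1 : ‖D‖ ≤ (1 - s) * ‖X - D‖ + s * ‖Y - D‖ := by
    conv_lhs => rw [e]
    rw [norm_neg]
    refine (norm_add_le _ _).trans ?_
    rw [norm_smul, norm_smul, norm_real, norm_real, Real.norm_of_nonneg (by linarith [hs.2]),
      Real.norm_of_nonneg hs.1]
  rcases eq_or_lt_of_le hs.1 with h0 | h0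
  · rw [← h0] at h1; linarith
  · nlinarith [hs.2]

lemma sep_CT {k : ℕ} (hk : 2 ≤ k) : ∃ d : ℝ, 0 < d ∧ d ≤ 1 ∧
    ∀ w w' : ℂ, w ^ k = 1 → w' ^ k = 1 → w ≠ w' → 4 * d ≤ ‖w - w'‖ := by
  classical
  obtain ⟨d, hd, h⟩ := pos_lb_CT (Polynomial.nthRootsFinset k (1 : ℂ)).offDiag
    (fun a => ‖a.1 - a.2‖) fun a ha => norm_pos_iff.2 (sub_ne_zero.2 (Finset.mem_offDiag.1 ha).2.2)
  refine ⟨min (d / 4) 1, lt_min (by linarith) one_pos, min_le_right _ _, fun w w' hw hw' hne => ?_⟩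
  have := h (w, w') (Finset.mem_offDiag.2 ⟨(Polynomial.mem_nthRootsFinset (by omega) _).2 hw,
    (Polynomial.mem_nthRootsFinset (by omega) _).2 hw', hne⟩)
  have := min_le_left (d / 4) 1
  simp only at *
  linarith

lemma rtsCT_nonempty {k : ℕ} (hk : 2 ≤ k) : (rtsCT k).Nonempty :=
  ⟨_, (mem_rtsCT hk).2 ⟨(Complex.isPrimitiveRoot_exp k (by omega)).pow_eq_one,
    (Complex.isPrimitiveRoot_exp k (by omega)).ne_one (by omega)⟩⟩

/-- The zeros of the final map. -/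
lemma final_CT {k : ℕ} (hk : 2 ≤ k) {η : ℝ} (hη : 0 < η) (c : ℂ → ℂ) (M : ℂ → ℕ)
    (hsep : ∀ w w' : ℂ, w ^ k = 1 → w' ^ k = 1 → w ≠ w' → 4 * η ≤ ‖w - w'‖)
    (hc : ∀ w ∈ rtsCT k, c w ≠ 0 ∧ 2 ≤ M w) {a : ℂ} (ha : a ≠ 0) :
    {q : W | (geoCT k q, gCT k η c M q - a) = 0}.Finite ∧
      ∀ q : W, (geoCT k q, gCT k η c M q - a) = 0 → ∃ L : W →L[ℂ] W, Function.Injective L ∧
        HasFDerivAt (fun q : W => (geoCT k q, gCT k η c M q - a)) L q := by
  have key : ∀ q : W, (geoCT k q, gCT k η c M q - a) = 0 → geoCT k q = 0 ∧ q.1 ≠ 0 ∧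
      ∃ w ∈ rtsCT k, q.2 = w * q.1 ∧ c w / (w - 1) * q.1 ^ (M w - 1) = a := by
    intro q hq
    rw [Prod.mk_eq_zero, sub_eq_zero] at hq
    have hq0 : q ≠ 0 := by
      rintro rfl
      apply ha
      rw [← hq.2]
      simp [gCT, coneCT]
    obtain ⟨hz, w, hw, h2⟩ := geoCT_zero hk hq0 hq.1
    refine ⟨hq.1, hz, w, hw, h2, ?_⟩
    rw [← hq.2, gCT_in hk hη c M hsep hw (hc w hw).2]
    rw [h2, sub_self, norm_zero]
    positivity
  have hcw : ∀ w ∈ rtsCT k, c w / (w - 1) ≠ 0 := fun w hw =>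
    div_ne_zero (hc w hw).1 (sub_ne_zero.2 ((mem_rtsCT hk).1 hw).2)
  constructor
  · refine ((rtsCT k).finite_toSet.biUnion fun w _ => ((Polynomial.nthRootsFinset (M w - 1)
      (a / (c w / (w - 1)))).finite_toSet.image fun z : ℂ => ((z, w * z) : W))).subset ?_
    intro q hq
    obtain ⟨-, -, w, hw, h2, h3⟩ := key q hq
    refine mem_biUnion hw ⟨q.1, ?_, Prod.ext rfl h2.symm⟩
    have := (hc w hw).2
    rw [Finset.mem_coe, Polynomial.mem_nthRootsFinset (by omega), ← h3,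
      mul_div_cancel_left₀ _ (hcw w hw)]
  · intro q hq
    obtain ⟨h0, hz, w, hw, h2, -⟩ := key q hq
    have hM := (hc w hw).2
    have hP := (geoCT_diff k q).hasFDerivAt
    have hG : HasFDerivAt (fun p : W => c w / (w - 1) * p.1 ^ (M w - 1) - a)
        ((c w / (w - 1) * (((M w - 1 : ℕ) : ℂ) * q.1 ^ (M w - 1 - 1))) •
          ContinuousLinearMap.fst ℂ ℂ ℂ) q := by
      have h1 : HasDerivAt (fun z : ℂ => c w / (w - 1) * z ^ (M w - 1) - a)
          (c w / (w - 1) * (((M w - 1 : ℕ) : ℂ) * q.1 ^ (M w - 1 - 1))) q.1 :=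
        ((hasDerivAt_pow (M w - 1) q.1).const_mul _).sub_const a
      exact h1.comp_hasFDerivAt q hasFDerivAt_fst
    refine ⟨_, ?_, (hP.prodMk hG).congr_of_eventuallyEq ?_⟩
    · rw [injective_iff_map_eq_zero]
      intro h hh
      simp only [ContinuousLinearMap.prod_apply, Prod.mk_eq_zero, smul_apply,
        ContinuousLinearMap.coe_fst', smul_eq_mul] at hh
      have hM' : ((M w - 1 : ℕ) : ℂ) ≠ 0 := by exact_mod_cast (by omega : M w - 1 ≠ 0)
      have h1 : h.1 = 0 := (mul_eq_zero.1 hh.2).resolve_left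
        (mul_ne_zero (hcw w hw) (mul_ne_zero hM' (pow_ne_zero _ hz)))
      have d1 := hP.mul (hasFDerivAt_snd.sub hasFDerivAt_fst :
        HasFDerivAt (fun p : W => p.2 - p.1) _ q)
      have d2 := ((hasDerivAt_pow k q.2).comp_hasFDerivAt q
        (hasFDerivAt_snd (𝕜 := ℂ) (E := ℂ) (F := ℂ))).sub
        ((hasDerivAt_pow k q.1).comp_hasFDerivAt q (hasFDerivAt_fst (𝕜 := ℂ) (E := ℂ) (F := ℂ)))
      have e := d1.unique (d2.congr_of_eventuallyEq (Eventually.of_forall fun p => geoCT_mul k p))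
      have e' := congrArg (fun L : W →L[ℂ] ℂ => L h) e
      simp [hh.1, h0, h1] at e'
      have hw0 : w ≠ 0 := by
        rintro rfl
        have := ((mem_rtsCT hk).1 hw).1
        rw [zero_pow (by omega)] at this
        exact zero_ne_one this
      rcases e' with (e' | e') | e'
      · omega
      · rw [h2] at e'
        exact absurd e'.1 (mul_ne_zero hw0 hz)
      · exact Prod.ext h1 e'
    · have : ∀ᶠ p : W in 𝓝 q, ‖p.2 - w * p.1‖ < η * ‖p.1‖ := by
        refine ContinuousAt.eventually_lt (by fun_prop) (by fun_prop) ?_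
        rw [h2, sub_self, norm_zero]
        exact mul_pos hη (norm_pos_iff.2 hz)
      filter_upwards [this] with p hp
      rw [gCT_in hk hη c M hsep hw hM hp.le]

/-- The topological half of the cusp lemma. -/
theorem cuspTop (hD : DegStmt) (k : ℕ) (hk : 2 ≤ k) : ∃ η₀ : ℝ, 0 < η₀ ∧ ∀ η : ℝ, 0 < η →
    η ≤ η₀ → ∃ ε : ℝ, 0 < ε ∧ ∀ (ρ : ℝ) (F : W → W) (c : ℂ → ℂ) (M : ℂ → ℕ), 0 < ρ →
    ContinuousOn F (closedBall 0 ρ) →
    (∀ q : W, ‖q‖ = ρ →
      ‖(F q).1 - ∑ i ∈ Finset.range k, q.2 ^ i * q.1 ^ (k - 1 - i)‖ ≤ ε * ρ ^ (k - 1)) →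
    (∀ w : ℂ, w ^ k = 1 → w ≠ 1 → c w ≠ 0 ∧ 2 ≤ M w ∧ ∀ q : W, ‖q‖ = ρ →
      ‖q.2 - w * q.1‖ ≤ η * ‖q.1‖ → (F q).1 = 0 →
      ‖(q.2 - q.1) * (F q).2 - c w * q.1 ^ M w‖ ≤ ‖c w * q.1 ^ M w‖ / 4) →
    ∃ e : ℝ, 0 < e ∧ ∀ F' : W → W, ContinuousOn F' (closedBall 0 ρ) →
      (∀ q ∈ closedBall (0 : W) ρ, ‖F' q - F q‖ ≤ e) → ∃ q ∈ closedBall (0 : W) ρ, F' q = 0 := by
  obtain ⟨η₀, h0, h1, hsep₀⟩ := sep_CT hk
  refine ⟨η₀, h0, fun η hη hle => ?_⟩
  have hsep : ∀ w w' : ℂ, w ^ k = 1 → w' ^ k = 1 → w ≠ w' → 4 * η ≤ ‖w - w'‖ :=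
    fun w w' a b c => le_trans (by linarith) (hsep₀ w w' a b c)
  obtain ⟨ε, hε, hlb⟩ := geoCT_lb hk hη
  refine ⟨ε, hε, fun ρ F c M hρ hF hP hb => ?_⟩
  change ∀ q : W, ‖q‖ = ρ → ‖(F q).1 - geoCT k q‖ ≤ ε * ρ ^ (k - 1) at hP
  have hc : ∀ w ∈ rtsCT k, c w ≠ 0 ∧ 2 ≤ M w := fun w hw =>
    have := hb w ((mem_rtsCT hk).1 hw).1 ((mem_rtsCT hk).1 hw).2
    ⟨this.1, this.2.1⟩
  have hw1 : ∀ w ∈ rtsCT k, w - 1 ≠ 0 := fun w hw => sub_ne_zero.2 ((mem_rtsCT hk).1 hw).2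
  have cone : ∀ q : W, ‖q‖ = ρ → ‖geoCT k q‖ ≤ ε * ρ ^ (k - 1) → ρ / 2 ≤ ‖q.1‖ ∧
      ∃ w ∈ rtsCT k, ‖q.2 - w * q.1‖ ≤ η * ‖q.1‖ := by
    intro q hq h
    obtain ⟨w, hw, h'⟩ := hlb q (by rw [← norm_pos_iff, hq]; exact hρ) (by rwa [hq])
    refine ⟨?_, w, hw, h'.le⟩
    have h2 : ‖q.2‖ ≤ ‖q.2 - w * q.1‖ + ‖w * q.1‖ := by
      simpa using norm_add_le (q.2 - w * q.1) (w * q.1)
    rw [norm_mul, norm_rt_CT hk ((mem_rtsCT hk).1 hw).1] at h2
    rw [← hq, Prod.norm_def]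
    have := norm_nonneg q.1
    rcases max_cases ‖q.1‖ ‖q.2‖ with h3 | h3 <;> rw [h3.1] <;> nlinarith
  have stepA : ∀ s ∈ Icc (0 : ℝ) 1, ∀ q : W, ‖q‖ = ρ → (F q).1 = 0 →
      (1 - (s : ℂ)) • (F q).2 + (s : ℂ) • gCT k η c M q ≠ 0 := by
    intro s hs q hq h hz
    obtain ⟨hn, w, hw, hcone⟩ := cone q hq (by simpa [h] using hP q hq)
    have hq1 : q.1 ≠ 0 := by rw [← norm_pos_iff]; linarith
    have hM := (hc w hw).2
    have hD : 0 < ‖c w * q.1 ^ M w‖ := norm_pos_iff.2 (mul_ne_zero (hc w hw).1 (pow_ne_zero _ hq1))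
    have hX := (hb w ((mem_rtsCT hk).1 hw).1 ((mem_rtsCT hk).1 hw).2).2.2 q hq hcone h
    refine conv_ne_CT (X := (q.2 - q.1) * (F q).2) (Y := (q.2 - q.1) * gCT k η c M q)
      (D := c w * q.1 ^ M w) hs (by linarith) ?_ ?_
    · rw [gCT_in hk hη c M hsep hw hM hcone]
      have e0 : q.1 ^ M w = q.1 ^ (M w - 1) * q.1 := by rw [← pow_succ]; congr 1; omega
      have e : (q.2 - q.1) * (c w / (w - 1) * q.1 ^ (M w - 1)) - c w * q.1 ^ M w =
          c w * q.1 ^ (M w - 1) * ((q.2 - w * q.1) / (w - 1)) := by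
        have := hw1 w hw
        rw [e0]; field_simp; ring
      rw [e, e0, ← mul_assoc, norm_mul, norm_mul _ q.1]
      refine mul_lt_mul_of_pos_left ?_
        (norm_pos_iff.2 (mul_ne_zero (hc w hw).1 (pow_ne_zero _ hq1)))
      have h4 := hsep w 1 ((mem_rtsCT hk).1 hw).1 (one_pow _) ((mem_rtsCT hk).1 hw).2
      rw [norm_div, div_lt_iff₀ (by linarith)]
      nlinarith [norm_pos_iff.2 hq1]
    · simp only [smul_eq_mul] at hz ⊢
      linear_combination (q.2 - q.1) * hz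
  obtain ⟨e, he, he'⟩ := (isCompact_sphere (0 : W) ρ).exists_forall_le' (f := fun q => ‖F q‖)
    (a := 0) (hF.mono sphere_subset_closedBall).norm (by
      intro q hq
      rw [norm_pos_iff]
      intro h
      have := stepA 0 ⟨le_rfl, zero_le_one⟩ q (mem_sphere_zero_iff_norm.1 hq) (by rw [h]; rfl)
      simp [h] at this)
  obtain ⟨a, ha, ha'⟩ := pos_lb_CT (rtsCT k) (fun w => ‖c w / (w - 1)‖ * (ρ / 2) ^ (M w - 1))
    fun w hw => mul_pos (norm_pos_iff.2 (div_ne_zero (hc w hw).1 (hw1 w hw))) (by positivity)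
  have ha0 : ((a / 2 : ℝ) : ℂ) ≠ 0 := by exact_mod_cast (by linarith : a / 2 ≠ 0)
  obtain ⟨hfin, hder⟩ := final_CT hk hη c M hsep hc ha0
  have hfr : ∀ q ∈ frontier (closedBall (0 : W) ρ), ‖q‖ = ρ := fun q hq =>
    mem_sphere_zero_iff_norm.1 (frontier_closedBall_subset_sphere hq)
  refine ⟨e / 2, by linarith, fun F' hF' hclose => chain3 hD W (closedBall 0 ρ) F' F
    (fun q => ((F q).1, gCT k η c M q)) (fun q => (geoCT k q, gCT k η c M q - (a / 2 : ℝ)))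
    (isCompact_closedBall _ _) hF' hF (hF.fst.prodMk (gCT_cont k η c M).continuousOn)
    ((geoCT_diff k).continuous.prodMk ((gCT_cont k η c M).sub continuous_const)).continuousOn
    ?_ ?_ ?_ (hfin.subset fun q hq => hq.2) ?_ fun q _ hq => hder q hq⟩
  · intro s hs q hq
    have h2 := he' q (mem_sphere_zero_iff_norm.2 (hfr q hq))
    have h3 := hclose q (mem_closedBall_zero_iff.2 (hfr q hq).le)
    exact conv_ne_CT (D := F q) hs (by linarith) (by simp only [sub_self, norm_zero]; linarith)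
  · intro s hs q hq h
    refine stepA s hs q (hfr q hq) ?_ (congrArg Prod.snd h)
    have := congrArg Prod.fst h
    simp only [Prod.fst_add, Prod.smul_fst, smul_eq_mul, Prod.fst_zero] at this
    linear_combination this
  · intro s hs q hq h
    have e1 := congrArg Prod.fst h
    have e2 := congrArg Prod.snd h
    simp only [Prod.fst_add, Prod.smul_fst, smul_eq_mul, Prod.fst_zero, Prod.snd_add,
      Prod.smul_snd, Prod.snd_zero] at e1 e2
    have e3 : geoCT k q = -(((1 - s : ℝ) : ℂ) * ((F q).1 - geoCT k q)) := by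
      push_cast; linear_combination e1
    obtain ⟨hn, w, hw, hcone⟩ := cone q (hfr q hq) (by
      rw [e3, norm_neg, norm_mul, norm_real, Real.norm_of_nonneg (by linarith [hs.2])]
      exact le_trans (mul_le_of_le_one_left (norm_nonneg _) (by linarith [hs.1])) (hP q (hfr q hq)))
    have e4 : gCT k η c M q = ((s * (a / 2) : ℝ) : ℂ) := by
      push_cast at e2 ⊢; linear_combination e2
    have e5 := congrArg norm e4
    rw [gCT_in hk hη c M hsep hw (hc w hw).2 hcone, norm_mul, norm_pow, norm_real,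
      Real.norm_of_nonneg (mul_nonneg hs.1 (by linarith))] at e5
    have h5 := ha' w hw
    have h6 : (ρ / 2) ^ (M w - 1) ≤ ‖q.1‖ ^ (M w - 1) := pow_le_pow_left₀ (by linarith) hn _
    nlinarith [hs.2, mul_le_mul_of_nonneg_left h6 (norm_nonneg (c w / (w - 1)))]
  · obtain ⟨w, hw⟩ := rtsCT_nonempty hk
    have hM := (hc w hw).2
    have hcw : c w / (w - 1) ≠ 0 := div_ne_zero (hc w hw).1 (hw1 w hw)
    obtain ⟨z, hz⟩ := IsAlgClosed.exists_pow_nat_eq (((a / 2 : ℝ) : ℂ) / (c w / (w - 1)))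
      (by omega : 0 < M w - 1)
    have hwk := ((mem_rtsCT hk).1 hw).1
    have hzn : ‖z‖ ≤ ρ := by
      by_contra hcon
      have h6 : (ρ / 2) ^ (M w - 1) ≤ ‖z‖ ^ (M w - 1) :=
        pow_le_pow_left₀ (by linarith) (by linarith) _
      rw [← norm_pow, hz, norm_div, norm_real, Real.norm_of_nonneg (by linarith),
        le_div_iff₀ (norm_pos_iff.2 hcw)] at h6
      have h5 := ha' w hw
      linarith
    refine ⟨(z, w * z), ?_, ?_⟩
    · rw [mem_closedBall_zero_iff, Prod.norm_def, norm_mul, norm_rt_CT hk hwk]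
      simpa using hzn
    · have hz0 : z ≠ 0 := by
        rintro rfl
        rw [zero_pow (by omega)] at hz
        exact div_ne_zero ha0 hcw hz.symm
      rw [Prod.mk_eq_zero, gCT_in hk hη c M hsep hw hM (by simp; positivity)]
      constructor
      · have := geoCT_mul k (z, w * z)
        simp only [mul_pow, hwk, one_mul, sub_self] at this
        refine (mul_eq_zero.1 this).resolve_right ?_
        rw [show w * z - z = (w - 1) * z by ring]
        exact mul_ne_zero (hw1 w hw) hz0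
      · simp only
        rw [hz, mul_div_cancel₀ _ hcw, sub_self]

end Pool.Agent.MP_2fc7fa_gt.N
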