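import Pool.Agent.MP_2fc7fa_gt.N.CuspC
import Pool.Agent.MP_2fc7fa_gt.N.CuspTop

/-! An injective limit of embedded curves has no cusp. -/

open scoped ContDiff ComplexConjugate Topology
open Set Complex Filter Metric

noncomputable section

namespace Pool.Agent.MP_2fc7fa_gt.N

variable {A : W → W →L[ℝ] W} {Ω : Set W} {u : ℂ → W} {r : ℝ}

/-- The leading term of the gap between the curve and one of its branches. -/
theorem Sm_Cusp.gap (h : Sm_Cusp A Ω u r) (hW : HWStmt) (hF : DiffStmt) (hi : InjOn u (ball 0 r))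
    {m : ℕ} {ε ρ η : ℝ} (hm : 1 ≤ m) (hE : Est_Cusp A u m ε ρ) (hε0 : 0 ≤ ε) (hε : ε ≤ η / 4)
    (hρ0 : 0 < ρ) (hρ : ρ < r) (hη0 : 0 < η) (hη : η ≤ 1 / 2)
    (hp : ∀ σ : ℂ, ‖σ - 1‖ ≤ η → ‖σ ^ m - 1‖ ≤ 1 / 4) {K : Set W} (hK : IsCompact K)
    (hKc : Convex ℝ K) (hKΩ : K ⊆ Ω) (huK : ∀ z : ℂ, ‖z‖ ≤ ρ → u z ∈ K) {om : ℂ}
    (hom : om ^ (m + 1) = 1) (hsep : η < ‖om - 1‖) : ∃ (c : ℂ) (M : ℕ), c ≠ 0 ∧ 2 ≤ M ∧
      ∀ᶠ z in 𝓝[≠] (0 : ℂ), ∀ s, ‖s - om * z‖ ≤ η * ‖z‖ → (A (u z) (u s - u z)).1 = 0 →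
        ‖(A (u z) (u s - u z)).2 - c * z ^ M‖ ≤ ‖c * z ^ M‖ / 4 := by
  obtain ⟨w, hw⟩ := h.branch hm hE hε0 hε hρ hη0 hη hp hom
  obtain ⟨C, hC, hb⟩ := h.bounds hρ
  have hn : ‖om‖ = 1 := norm_eq_one_of_pow_eq_one hom (by omega)
  have hin : ∀ z ∈ ball (0 : ℂ) (ρ / 2) \ {0}, z ≠ 0 ∧ 2 * ‖z‖ < ρ ∧ ‖z‖ ≤ ρ ∧
      ‖w z‖ ≤ 2 * ‖z‖ ∧ ‖z‖ ≤ 2 * ‖w z‖ ∧ ‖w z‖ ≤ ρ := by
    intro z hz
    have a0 : 2 * ‖z‖ < ρ := by have := mem_ball_zero_iff.1 hz.1; linarith
    have hs := (hw z hz.2 a0).1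
    have a1 := norm_le_norm_add_norm_sub' (w z) (om * z)
    have a2 := norm_le_norm_add_norm_sub (w z) (om * z)
    rw [norm_mul, hn, one_mul] at a1 a2
    have a3 : η * ‖z‖ ≤ 1 / 2 * ‖z‖ := mul_le_mul_of_nonneg_right hη (norm_nonneg _)
    have := norm_nonneg z
    refine ⟨hz.2, a0, ?_, ?_, ?_, ?_⟩ <;> linarith
  have hbl : ∀ z : ℂ, ‖z‖ ≤ ρ → z ∈ ball (0 : ℂ) r := fun z hz =>
    mem_ball_zero_iff.2 (hz.trans_lt hρ)
  have hopen : IsOpen (ball (0 : ℂ) (ρ / 2) \ {0}) := isOpen_ball.sdiff isClosed_singleton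
  have hmem : ball (0 : ℂ) (ρ / 2) \ {0} ∈ 𝓝[≠] (0 : ℂ) :=
    sdiff_mem_nhdsWithin_compl (ball_mem_nhds _ (by positivity)) _
  obtain ⟨C', hC'⟩ := hF A Ω K 1 (C * (C * C + C * C * (2 * C)) + C) h.cofr hK hKc hKΩ
  have key := hW ℂ (fun z => (A (u z) (u (w z) - u z)).2) 0 (ρ / 2) C' (C * (2 * C))
    (by positivity) (by
      intro z hz
      obtain ⟨a0, a1, a2, -, -, a5⟩ := hin z hz
      have c1 : ContDiffAt ℝ 1 u z := (h.uAt (hbl z a2)).of_le (by simp)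
      have c2 : ContDiffAt ℝ 1 (fun t => u (w t)) z :=
        ((h.uAt (hbl _ a5)).of_le (by simp)).comp z (hw z a0 a1).2.2.2
      have c3 : ContDiffAt ℝ 1 (fun t => A (u t)) z := ((h.AAt (hbl z a2)).of_le (by simp)).comp z c1
      exact (c3.clm_apply (c2.sub c1)).snd.contDiffWithinAt) (by
      intro z hz
      obtain ⟨a0, a1, a2, a3, a4, a5⟩ := hin z hz
      obtain ⟨b0, b1, b2, b3, b4⟩ := hb z a2
      have b5 : ‖u (w z) - u z‖ ≤ 2 * C := by
        have := norm_sub_le (u (w z)) (u z)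
        have := (hb _ a5).2.2.2.2
        linarith
      refine ⟨(norm_snd_le _).trans (((A (u z)).le_opNorm _).trans
        (mul_le_mul b3 b5 (norm_nonneg _) hC.le)), ?_⟩
      have du : HasFDerivAt u (fderiv ℝ u z) z :=
        ((h.uAt (hbl z a2)).differentiableAt (by simp)).hasFDerivAt
      have dw : HasFDerivAt w (fderiv ℝ w z) z :=
        ((hw z a0 a1).2.2.2.differentiableAt one_ne_zero).hasFDerivAt
      have dx : HasFDerivAt (fun t => u (w t)) ((fderiv ℝ u (w z)).comp (fderiv ℝ w z)) z :=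
        ((h.uAt (hbl _ a5)).differentiableAt (by simp)).hasFDerivAt.comp z dw
      have dA : HasFDerivAt (fun t => A (u t)) ((fderiv ℝ A (u z)).comp (fderiv ℝ u z)) z :=
        ((h.AAt (hbl z a2)).differentiableAt (by simp)).hasFDerivAt.comp z du
      have hev : ∀ᶠ t in 𝓝 z, (A (u t) (u (w t) - u t)).1 = 0 := by
        filter_upwards [hopen.mem_nhds hz] with t ht
        exact (hw t (hin t ht).1 (hin t ht).2.1).2.1
      have dY := ((dA.clm_apply (dx.sub du)).fst).unique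
        ((hasFDerivAt_const (0 : ℂ) z).congr_of_eventuallyEq hev)
      refine hC' u (fun t => u (w t)) z du.differentiableAt dx.differentiableAt (huK z a2)
        (huK _ a5) (b2.trans (by nlinarith [mul_pos hC hC, mul_pos (mul_pos hC hC) hC])) ?_
        (fun t ht => h.cr t (by rw [ht]; exact hbl z a2)) ?_ hev
      · rw [dx.fderiv]
        refine ContinuousLinearMap.opNorm_le_bound _ (by positivity) fun c => ?_
        have e1 := congrArg (fun L : ℂ →L[ℝ] ℂ => L c) dY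
        have e2 : (A (u z) (fderiv ℝ u (w z) (fderiv ℝ w z c))).1 = (A (u z) (fderiv ℝ u z c)).1 -
            (fderiv ℝ A (u z) (fderiv ℝ u z c) (u (w z) - u z)).1 := by
          simp only [ContinuousLinearMap.comp_apply, add_apply, sub_apply,
            ContinuousLinearMap.flip_apply, map_sub, map_add, ContinuousLinearMap.coe_fst',
            zero_apply, Pi.sub_apply] at e1
          simp only [map_sub, Prod.fst_sub]
          linear_combination e1
        have e3 := (cone_Cusp hm (by linarith) (hE z (w z) a2 a5 (fderiv ℝ w z c))).1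
        have e4 : ‖fderiv ℝ u z c‖ ≤ C * ‖c‖ :=
          ((fderiv ℝ u z).le_opNorm c).trans (mul_le_mul_of_nonneg_right b2 (norm_nonneg _))
        have e5 : ‖(A (u z) (fderiv ℝ u z c)).1‖ ≤ C * (C * ‖c‖) :=
          (norm_fst_le _).trans (((A (u z)).le_opNorm _).trans
            (mul_le_mul b3 e4 (norm_nonneg _) hC.le))
        have e6 : ‖(fderiv ℝ A (u z) (fderiv ℝ u z c) (u (w z) - u z)).1‖ ≤
            C * (C * ‖c‖) * (2 * C) :=
          (norm_fst_le _).trans (((fderiv ℝ A (u z)).le_opNorm₂ _ _).trans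
            (mul_le_mul (mul_le_mul b1 e4 (norm_nonneg _) hC.le) b5 (norm_nonneg _)
              (by positivity)))
        have e7 : ‖A (u z) (fderiv ℝ u (w z) (fderiv ℝ w z c))‖ ≤
            C * (C * ‖c‖) + C * (C * ‖c‖) * (2 * C) := by
          rw [Prod.norm_def, max_eq_left e3, e2]
          exact (norm_sub_le _ _).trans (add_le_add e5 e6)
        have e8 := (b0 (fderiv ℝ u (w z) (fderiv ℝ w z c))).trans
          (mul_le_mul_of_nonneg_left e7 hC.le)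
        have e9 : 0 ≤ C * ‖c‖ := by positivity
        rw [ContinuousLinearMap.comp_apply]
        nlinarith
      · obtain ⟨e1, e2⟩ := cone_Cusp hm (by linarith) (hE (w z) (w z) a5 a5 1)
        have e3 : 0 < ‖w z‖ ^ m * ‖(1 : ℂ)‖ := by
          have : 0 < ‖w z‖ := by have := norm_pos_iff.2 a0; linarith
          simp only [norm_one, mul_one]
          positivity
        have e4 : 0 < ‖(tau_Cusp A u (w z)).1‖ := e3.trans_le e2
        refine ⟨(tau_Cusp A u (w z)).2 / (tau_Cusp A u (w z)).1, ?_, fun c => ?_⟩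
        · rw [norm_div, div_le_one e4]
          exact e1
        · rw [dx.fderiv, ContinuousLinearMap.comp_apply, lin_Cusp h.cr (hbl _ a5)]
          have := norm_pos_iff.1 e4
          simp only [Prod.smul_snd, Prod.smul_fst, smul_eq_mul]
          field_simp)
  rcases key with key | ⟨M, c, hc, key⟩
  · exfalso
    obtain ⟨z, z1, z2⟩ := (key.and hmem).exists
    obtain ⟨a0, a1, a2, a3, a4, a5⟩ := hin z z2
    obtain ⟨w1, w2, -⟩ := hw z a0 a1
    have e1 : u (w z) - u z = 0 := h.cofr.2.2 _ (h.maps (hbl z a2)) (by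
      rw [map_zero]; exact Prod.ext w2 z1)
    rw [hi (hbl _ a5) (hbl _ a2) (sub_eq_zero.1 e1), show z - om * z = -((om - 1) * z) by ring,
      norm_neg, norm_mul] at w1
    have := mul_lt_mul_of_pos_right hsep (norm_pos_iff.2 a0)
    linarith
  simp only [sub_zero, smul_eq_mul] at key
  refine ⟨c, M, hc, ?_, ?_⟩
  · by_contra hM
    have lim : Tendsto (fun z => (z ^ M)⁻¹ * (A (u z) (u (w z) - u z)).2) (𝓝[≠] 0) (𝓝 0) := by
      have l0 : Tendsto (fun z : ℂ => ε * 2 ^ m * 3 * ‖z‖) (𝓝[≠] 0) (𝓝 0) := by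
        have : Continuous fun z : ℂ => ε * 2 ^ m * 3 * ‖z‖ := by fun_prop
        simpa using (this.tendsto 0).mono_left nhdsWithin_le_nhds
      refine squeeze_zero_norm' ?_ l0
      filter_upwards [hmem, mem_nhdsWithin_of_mem_nhds (ball_mem_nhds (0 : ℂ) one_pos)] with z hz hz1
      obtain ⟨a0, a1, a2, a3, a4, a5⟩ := hin z hz
      have hzp := norm_pos_iff.2 a0
      have e1 := (norm_snd_le _).trans (h.est2 hE hε0 hρ a1.le (z := z) (by linarith) a3)
      simp only [Prod.snd_sub, sub_zero] at e1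
      have e2 : ‖w z - z‖ ≤ 3 * ‖z‖ := by
        have := norm_sub_le (w z) z
        linarith
      have e3 : ‖z‖ ^ m ≤ ‖z‖ ^ M :=
        pow_le_pow_of_le_one hzp.le (mem_ball_zero_iff.1 hz1).le (by omega)
      rw [norm_mul, norm_inv, norm_pow, inv_mul_le_iff₀ (by positivity)]
      refine e1.trans ?_
      rw [mul_pow]
      calc ε * (2 ^ m * ‖z‖ ^ m) * ‖w z - z‖ ≤ ε * (2 ^ m * ‖z‖ ^ M) * (3 * ‖z‖) := by gcongr
        _ = _ := by ring
    exact hc (tendsto_nhds_unique key lim)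
  · filter_upwards [hmem, Metric.tendsto_nhds.1 key (‖c‖ / 4) (by positivity)] with z hz hz1 s s1 s2
    obtain ⟨a0, a1, -⟩ := hin z hz
    rw [(hw z a0 a1).2.2.1 s s1 s2]
    have hp : z ^ M ≠ 0 := pow_ne_zero _ a0
    have e : (A (u z) (u (w z) - u z)).2 - c * z ^ M =
        ((z ^ M)⁻¹ * (A (u z) (u (w z) - u z)).2 - c) * z ^ M := by field_simp
    rw [dist_eq_norm] at hz1
    rw [e, norm_mul, norm_mul]
    nlinarith [norm_nonneg (z ^ M)]

theorem Sm_Cusp.core (h : Sm_Cusp A Ω u r) (hW : HWStmt) (hD : DegStmt) (hF : DiffStmt)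
    (hi : InjOn u (ball 0 r)) {m : ℕ} (hm : 1 ≤ m) (h0 : fderiv ℝ u 0 1 = 0)
    (hl : Tendsto (fun z => (z ^ m)⁻¹ • tau_Cusp A u z) (𝓝[≠] 0) (𝓝 (((m + 1 : ℕ) : ℂ), 0))) :
    ∃ ρ : ℝ, 0 < ρ ∧ ρ < r ∧ ∃ e : ℝ, 0 < e ∧ ∀ F' : W → W, ContinuousOn F' (closedBall 0 ρ) →
      (∀ q ∈ closedBall (0 : W) ρ, ‖F' q - dq_Cusp A u q‖ ≤ e) →
      ∃ q ∈ closedBall (0 : W) ρ, F' q = 0 := by
  have hr := h.pos
  obtain ⟨η₀, p0, hT⟩ := cuspTop hD (m + 1) (by omega)
  obtain ⟨η₁, p1, p1', hp⟩ := eta_Cusp m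
  obtain ⟨η₂, p2, -, hsep⟩ := sep_CT (k := m + 1) (by omega)
  set η := min η₀ (min η₁ η₂)
  have q0 : 0 < η := by positivity
  have q1 : η ≤ η₁ := (min_le_right _ _).trans (min_le_left _ _)
  have q2 : η ≤ η₂ := (min_le_right _ _).trans (min_le_right _ _)
  obtain ⟨ε₀, pε, hT⟩ := hT η q0 (min_le_left _ _)
  have qε : 0 < min ε₀ (η / 4) := by positivity
  obtain ⟨ρ₀, r0, r1, hE⟩ := h.est hm h0 hl qε
  obtain ⟨d, hd, hdΩ⟩ := Metric.nhds_basis_closedBall.mem_iff.1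
    (h.cofr.1.mem_nhds (h.maps (mem_ball_self hr)))
  obtain ⟨d', hd', hu⟩ := Metric.continuousAt_iff.1 (h.uAt (mem_ball_self hr)).continuousAt d hd
  have hE1 : Est_Cusp A u m (min ε₀ (η / 4)) (min ρ₀ (d' / 2)) := fun z s hz hs =>
    hE z s (hz.trans (min_le_left _ _)) (hs.trans (min_le_left _ _))
  have r2 : min ρ₀ (d' / 2) < r := (min_le_left _ _).trans_lt r1
  have hg : ∀ om : ℂ, ∃ (c : ℂ) (M : ℕ), om ^ (m + 1) = 1 → om ≠ 1 → c ≠ 0 ∧ 2 ≤ M ∧
      ∀ᶠ z in 𝓝[≠] (0 : ℂ), ∀ s, ‖s - om * z‖ ≤ η * ‖z‖ → (A (u z) (u s - u z)).1 = 0 →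
        ‖(A (u z) (u s - u z)).2 - c * z ^ M‖ ≤ ‖c * z ^ M‖ / 4 := by
    intro om
    by_cases ho : om ^ (m + 1) = 1 ∧ om ≠ 1
    · obtain ⟨c, M, hcM⟩ := h.gap hW hF hi hm hE1 qε.le (min_le_right _ _) (by positivity) r2 q0
        (q1.trans p1') (fun σ hσ => hp σ (hσ.trans q1)) (isCompact_closedBall (u 0) d)
        (convex_closedBall _ _) hdΩ (fun z hz => (hu (by
          have := hz.trans (min_le_right _ _)
          rw [dist_zero_right]
          linarith)).le) ho.1 (by have := hsep om 1 ho.1 (one_pow _) ho.2; linarith)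
      exact ⟨c, M, fun _ _ => hcM⟩
    · exact ⟨0, 0, fun a b => absurd ⟨a, b⟩ ho⟩
  choose c M hg using hg
  have hfin : {om : ℂ | om ^ (m + 1) = 1 ∧ om ≠ 1}.Finite :=
    (Polynomial.nthRootsFinset (m + 1) (1 : ℂ)).finite_toSet.subset fun om ho =>
      (Polynomial.mem_nthRootsFinset (by omega) _).2 ho.1
  have hall := (eventually_all_finite hfin).2 fun om ho => (hg om ho.1 ho.2).2.2
  obtain ⟨d₂, hd₂, hall⟩ := Metric.eventually_nhds_iff.1 (eventually_nhdsWithin_iff.1 hall)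
  set ρ := min (min ρ₀ (d' / 2)) (d₂ / 2)
  have s0 : 0 < ρ := by positivity
  have s1 : ρ ≤ min ρ₀ (d' / 2) := min_le_left _ _
  have s2 : ρ < d₂ := (min_le_right _ _).trans_lt (by linarith)
  refine ⟨ρ, s0, s1.trans_lt r2, hT ρ (dq_Cusp A u) c M s0 ((dq_cont_Cusp h.cofr
    (h.sm.of_le (by simp)) h.maps h.cr).mono (closedBall_subset_ball (s1.trans_lt r2))) ?_ ?_⟩
  · intro q hq
    have a1 : ‖q.1‖ ≤ ρ := hq ▸ norm_fst_le q
    have a2 : ‖q.2‖ ≤ ρ := hq ▸ norm_snd_le q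
    have := dq_close_Cusp (A := A) (A' := fun _ => ContinuousLinearMap.id ℝ W) (u := u)
      (u' := mod_Cusp m) (e := ε₀ * ρ ^ m) (convex_closedBall (0 : ℂ) ρ) (by positivity)
      (fun t ht => (h.uAt (closedBall_subset_ball (s1.trans_lt r2) ht)).differentiableAt (by simp))
      (fun t _ => diff_mod_Cusp m t) (mem_closedBall_zero_iff.2 a1) (mem_closedBall_zero_iff.2 a2)
      (fun t ht c => by
        have ht' := mem_closedBall_zero_iff.1 ht
        refine (hE1 q.1 t (a1.trans s1) (ht'.trans s1) c).trans ?_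
        gcongr
        exact min_le_left _ _)
    rw [dq_mod_Cusp] at this
    exact (norm_fst_le _).trans this
  · intro om o1 o2
    refine ⟨(hg om o1 o2).1, (hg om o1 o2).2.1, fun q hq b1 b2 => ?_⟩
    have a1 : ‖q.1‖ ≤ ρ := hq ▸ norm_fst_le q
    have z0 : q.1 ≠ 0 := by
      intro z0
      rw [z0, mul_zero, sub_zero, norm_zero, mul_zero, norm_le_zero_iff] at b1
      rw [Prod.norm_def, z0, b1, norm_zero, max_self] at hq
      linarith
    have z1 : q.2 ≠ q.1 := by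
      intro z1
      rw [z1, show q.1 - om * q.1 = -((om - 1) * q.1) by ring, norm_neg, norm_mul] at b1
      have := hsep om 1 o1 (one_pow _) o2
      have := le_of_mul_le_mul_right b1 (norm_pos_iff.2 z0)
      linarith
    have z2 : q.2 - q.1 ≠ 0 := sub_ne_zero.2 z1
    rw [dq_Cusp, if_neg z1] at b2 ⊢
    rw [Prod.smul_fst, smul_eq_mul, mul_eq_zero, inv_eq_zero, or_iff_right z2] at b2
    rw [Prod.smul_snd, smul_eq_mul, ← mul_assoc, mul_inv_cancel₀ z2, one_mul]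
    exact hall (by rw [dist_zero_right]; linarith) z0 om ⟨o1, o2⟩ q.2 b1 b2

theorem norm_Cusp {a : W} (ha : a ≠ 0) (k : ℂ) (hk : k ≠ 0) :
    ∃ L : W →L[ℂ] W, Function.Injective L ∧ L a = (k, 0) := by
  have hk' : ((k, 0) : W) ≠ 0 := fun h => hk (congrArg Prod.fst h)
  obtain ⟨L, hL⟩ := SeparatingDual.exists_continuousLinearEquiv_apply_eq (R := ℂ) ha hk'
  exact ⟨L, L.injective, hL⟩

theorem cusp (hW : HWStmt) (hD : DegStmt) (hF : DiffStmt) : CuspStmt := by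
  intro A An Ω u un r hA hAn hconv hr hu hm hCR hi hun c0 c1 h0
  obtain ⟨m, a, hm1, ha, hl⟩ := Sm_Cusp.lead ⟨hA, hr, hu, hm, hCR⟩ hW hi h0
  obtain ⟨L, hL, hLa⟩ := norm_Cusp ha ((m + 1 : ℕ) : ℂ) (by exact_mod_cast m.succ_ne_zero)
  set T : (W →L[ℝ] W) →L[ℝ] (W →L[ℝ] W) :=
    ContinuousLinearMap.compL ℝ W W W (L.restrictScalars ℝ)
  have hT : ∀ B v, T B v = L (B v) := fun _ _ => rfl
  have cof : ∀ B, Cofr B Ω → Cofr (fun x => T (B x)) Ω := fun B hB =>
    ⟨hB.1, T.contDiff.comp_contDiffOn hB.2.1, fun x hx => hL.comp (hB.2.2 x hx)⟩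
  have cr : ∀ B v, CR B v (ball 0 r) → CR (fun x => T (B x)) v (ball 0 r) := fun B v hB z hz => by
    rw [hT, hT, hB z hz, map_smul]
  obtain ⟨ρ, r0, r1, e, he, key⟩ := Sm_Cusp.core ⟨cof A hA, hr, hu, hm, cr A u hCR⟩ hW hD hF hi hm1
    h0 (by
      have := (L.continuous.tendsto a).comp hl
      rw [hLa] at this
      exact this.congr fun z => L.map_smul _ _)
  obtain ⟨n, hn⟩ := dq_conv_Cusp (An := fun n x => T (An n x)) (un := un) (cof A hA)
    (T.uniformContinuous.comp_tendstoLocallyUniformlyOn hconv) r1 he (hu.of_le (by simp)) hm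
    (fun n => (hun n).1) c0 c1
  obtain ⟨n1, n2, n3, n4, n5⟩ := hun n
  obtain ⟨q, hq, hq0⟩ := key _ ((dq_cont_Cusp (cof _ (hAn n)) n1 n2 (cr _ _ n3)).mono
    (closedBall_subset_ball r1)) hn
  exact dq_ne_Cusp (cof _ (hAn n)) n2 n4 n5 (closedBall_subset_ball r1 hq) hq0

end Pool.Agent.MP_2fc7fa_gt.N
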