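import Mathlib

/-! The Jacobian determinant is a null Lagrangian. -/

open scoped Topology
open Metric Set MeasureTheory Filter

noncomputable section

namespace Pool.Agent.MP_2fc7fa_gt.N

variable {E : Type} [NormedAddCommGroup E] [NormedSpace ℝ E] [FiniteDimensional ℝ E]

lemma det_interp_Deg (t : Fin (Module.finrank ℝ E + 1) → ℝ) (ht : Function.Injective t) :
    ∃ c : Fin (Module.finrank ℝ E + 1) → ℝ, ∑ k, c k = 1 ∧ ∀ A : E →L[ℝ] E,
      (ContinuousLinearMap.id ℝ E + A).det
        = ∑ k, c k * (ContinuousLinearMap.id ℝ E + t k • A).det := by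
  classical
  refine ⟨fun k => (Lagrange.basis Finset.univ t k).eval 1, ?_, ?_⟩
  · rw [← Polynomial.eval_finsetSum, Lagrange.sum_basis ht.injOn Finset.univ_nonempty]
    simp
  · intro A
    let b := Module.finBasis ℝ E
    let M := LinearMap.toMatrix b b (A : E →ₗ[ℝ] E)
    let p : Polynomial ℝ := Matrix.det ((Polynomial.X : Polynomial ℝ) • M.map Polynomial.C
      + (1 : Matrix (Fin (Module.finrank ℝ E)) (Fin (Module.finrank ℝ E)) ℝ).map Polynomial.C)
    have hp : ∀ s : ℝ, p.eval s = (ContinuousLinearMap.id ℝ E + s • A).det := by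
      intro s
      have h1 : p.eval s = (Polynomial.evalRingHom s) p := rfl
      rw [h1, RingHom.map_det, ContinuousLinearMap.det, ← LinearMap.det_toMatrix b]
      congr 1
      ext i j
      simp [M, Matrix.one_apply, add_comm]
      split_ifs <;> simp [mul_comm]
    have hdeg : p.degree < (Finset.univ : Finset (Fin (Module.finrank ℝ E + 1))).card := by
      have h := Polynomial.natDegree_det_X_add_C_le M
        (1 : Matrix (Fin (Module.finrank ℝ E)) (Fin (Module.finrank ℝ E)) ℝ)
      rw [Fintype.card_fin] at h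
      rw [Finset.card_univ, Fintype.card_fin]
      refine lt_of_le_of_lt Polynomial.degree_le_natDegree ?_
      exact_mod_cast Nat.lt_succ_of_le h
    have h2 := Lagrange.eq_interpolate ht.injOn hdeg
    have h3 := hp 1
    rw [one_smul] at h3
    rw [← h3, h2, Lagrange.interpolate_apply, Polynomial.eval_finsetSum]
    refine Finset.sum_congr rfl fun k _ => ?_
    rw [Polynomial.eval_mul, Polynomial.eval_C, hp, mul_comm]

/-- The integral of the Jacobian of a compactly supported perturbation of the identity. -/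
theorem int_det_Deg [MeasurableSpace E] [BorelSpace E] (μ : Measure E) [μ.IsAddHaarMeasure]
    {R : ℝ} (g : E → E) (hg : ContDiff ℝ 1 g) (hs : HasCompactSupport g)
    (h0 : ∀ x, R ≤ ‖x‖ → g x = 0) :
    ∫ x in ball (0 : E) R, (ContinuousLinearMap.id ℝ E + fderiv ℝ g x).det ∂μ
      = μ.real (ball (0 : E) R) := by
  have := FiniteDimensional.complete ℝ E
  have := FiniteDimensional.proper_real E
  have hgd : Differentiable ℝ g := hg.differentiable one_ne_zero
  have hDg : Continuous (fderiv ℝ g) := hg.continuous_fderiv one_ne_zero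
  obtain ⟨L0, hL0⟩ := hDg.bounded_above_of_compact_support (hs.fderiv ℝ)
  set L := max L0 1 with hLdef
  have hL : ∀ x, ‖fderiv ℝ g x‖ ≤ L := fun x => le_trans (hL0 x) (le_max_left _ _)
  have hL1 : 1 ≤ L := le_max_right _ _
  obtain ⟨ε, hε, hdet⟩ : ∃ ε > 0, ∀ A : E →L[ℝ] E, ‖A‖ < ε →
      0 < (ContinuousLinearMap.id ℝ E + A).det := by
    have hc : Continuous fun A : E →L[ℝ] E => (ContinuousLinearMap.id ℝ E + A).det :=
      ContinuousLinearMap.continuous_det.comp (continuous_const.add continuous_id)
    have h0 : (0:ℝ) < (ContinuousLinearMap.id ℝ E + (0 : E →L[ℝ] E)).det := by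
      simp [ContinuousLinearMap.det]
    have := hc.continuousAt.eventually (lt_mem_nhds h0)
    obtain ⟨ε, hε, h⟩ := Metric.eventually_nhds_iff.mp this
    exact ⟨ε, hε, fun A hA => h (by simpa using hA)⟩
  set t0 : ℝ := min ε (1 / 2) / (2 * L) with ht0
  have hmin : 0 < min ε (1 / 2) := lt_min hε (by norm_num)
  have ht0pos : 0 < t0 := by positivity
  have ht0L : t0 * L = min ε (1 / 2) / 2 := by rw [ht0]; field_simp
  have key : ∀ t : ℝ, 0 < t → t ≤ t0 →
      ∫ x in ball (0:E) R, (ContinuousLinearMap.id ℝ E + t • fderiv ℝ g x).det ∂μ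
        = μ.real (ball (0:E) R) := by
    intro t ht htt
    have htL : t * L ≤ min ε (1 / 2) / 2 := by
      rw [← ht0L]; exact mul_le_mul_of_nonneg_right htt (by linarith)
    have hm1 := min_le_left ε (1 / 2)
    have hm2 := min_le_right ε (1 / 2)
    let f : E → E := fun x => x + t • g x
    have hfd : ∀ x, HasFDerivAt f (ContinuousLinearMap.id ℝ E + t • fderiv ℝ g x) x := fun x =>
      (hasFDerivAt_id x).add ((hgd x).hasFDerivAt.const_smul t)
    have happ : ApproximatesLinearOn f
        ((ContinuousLinearEquiv.refl ℝ E : E ≃L[ℝ] E) : E →L[ℝ] E) univ (1 / 2) := by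
      intro x _ y _
      have h1 := (convex_univ (𝕜 := ℝ) (E := E)).norm_image_sub_le_of_norm_fderiv_le
        (fun z _ => hgd z) (fun z _ => hL z) (mem_univ y) (mem_univ x)
      have h2 : f x - f y - ((ContinuousLinearEquiv.refl ℝ E : E ≃L[ℝ] E) : E →L[ℝ] E) (x - y)
          = t • (g x - g y) := by
        simp [f, smul_sub]
        abel
      rw [h2, norm_smul, Real.norm_of_nonneg ht.le]
      have h3 := norm_nonneg (x - y)
      have : t * ‖g x - g y‖ ≤ t * (L * ‖x - y‖) := mul_le_mul_of_nonneg_left h1 ht.le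
      push_cast
      nlinarith
    have hc : Subsingleton E ∨ (1 / 2 : NNReal)
        < ‖((ContinuousLinearEquiv.refl ℝ E : E ≃L[ℝ] E).symm : E →L[ℝ] E)‖₊⁻¹ := by
      rcases subsingleton_or_nontrivial E with h | h
      · exact Or.inl h
      · right
        simp
        norm_num
    have hinj : Function.Injective f := injOn_univ.1 (happ.injOn hc)
    have hsurj : Function.Surjective f := happ.surjective hc
    have hout : ∀ x, x ∉ ball (0 : E) R → f x = x := fun x hx => by
      simp [f, h0 x (by simpa using hx)]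
    have himg : f '' ball (0:E) R = ball (0:E) R := by
      refine Subset.antisymm ?_ fun y hy => ?_
      · rintro _ ⟨x, hx, rfl⟩
        by_contra hcon
        exact hcon (by rw [hinj (hout _ hcon)]; exact hx)
      · obtain ⟨x, rfl⟩ := hsurj y
        by_cases hx : x ∈ ball (0 : E) R
        · exact mem_image_of_mem _ hx
        · rw [hout x hx] at hy
          exact absurd hy hx
    have hcv := integral_image_eq_integral_abs_det_fderiv_smul μ (measurableSet_ball (x := (0 : E))
      (ε := R)) (fun x _ => (hfd x).hasFDerivWithinAt) hinj.injOn (fun _ => (1:ℝ))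
    rw [himg] at hcv
    simp only [integral_const, smul_eq_mul, mul_one, MeasurableSet.univ,
      measureReal_restrict_apply, univ_inter] at hcv
    rw [hcv]
    refine setIntegral_congr_fun measurableSet_ball fun x hx => ?_
    refine (abs_of_pos (hdet _ ?_)).symm
    rw [norm_smul, Real.norm_of_nonneg ht.le]
    have := mul_le_mul_of_nonneg_left (hL x) ht.le
    linarith
  let t : Fin (Module.finrank ℝ E + 1) → ℝ := fun k => t0 / (k.val + 1)
  have ht : Function.Injective t := by
    intro k l hkl
    have h1 : (k.val : ℝ) + 1 = l.val + 1 := by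
      have hk : (0:ℝ) < k.val + 1 := by positivity
      have hl : (0:ℝ) < l.val + 1 := by positivity
      simp only [t] at hkl
      rw [div_eq_div_iff hk.ne' hl.ne'] at hkl
      exact (mul_left_cancel₀ ht0pos.ne' hkl).symm
    have h2 : (k.val : ℝ) = l.val := by linarith
    exact Fin.ext (by exact_mod_cast h2)
  obtain ⟨c, hc1, hc2⟩ := det_interp_Deg t ht
  have hint : ∀ s : ℝ, IntegrableOn
      (fun x => (ContinuousLinearMap.id ℝ E + s • fderiv ℝ g x).det) (ball (0:E) R) μ := by
    intro s
    have hc : Continuous fun x => (ContinuousLinearMap.id ℝ E + s • fderiv ℝ g x).det :=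
      ContinuousLinearMap.continuous_det.comp (continuous_const.add (hDg.const_smul s))
    exact (hc.continuousOn.integrableOn_compact (isCompact_closedBall (0:E) R)).mono_set
      ball_subset_closedBall
  have e : (fun x => (ContinuousLinearMap.id ℝ E + fderiv ℝ g x).det) = fun x =>
      ∑ k, c k * (ContinuousLinearMap.id ℝ E + t k • fderiv ℝ g x).det :=
    funext fun x => hc2 _
  rw [e, integral_finsetSum _ (fun k _ => (hint (t k)).const_mul (c k))]
  have : ∀ k, ∫ x in ball (0:E) R, c k * (ContinuousLinearMap.id ℝ E + t k • fderiv ℝ g x).det ∂μ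
      = c k * μ.real (ball (0:E) R) := by
    intro k
    rw [integral_const_mul, key (t k) (by positivity)]
    exact div_le_self ht0pos.le (by linarith [Nat.cast_nonneg (α := ℝ) k.val])
  simp only [this]
  rw [← Finset.sum_mul, hc1, one_mul]

/-- Two `C¹` maps that agree outside a compact set have the same integral of the Jacobian. -/
theorem null_lag_Deg [MeasurableSpace E] [BorelSpace E] (μ : Measure E) [μ.IsAddHaarMeasure]
    (A B : E → E) (hA : ContDiff ℝ 1 A) (hB : ContDiff ℝ 1 B) {S : Set E} (hS : IsCompact S)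
    (h : ∀ x, x ∉ S → A x = B x) :
    ∫ x, ((fderiv ℝ A x).det - (fderiv ℝ B x).det) ∂μ = 0 := by
  have := FiniteDimensional.proper_real E
  obtain ⟨R, hR, hSR⟩ := hS.isBounded.subset_ball_lt 0 (0 : E)
  let χ : ContDiffBump (0 : E) := ⟨R, 2 * R, hR, by linarith⟩
  have hz : ∀ (G : E → E) x, 2 * R ≤ ‖x‖ → χ x • (G x - x) = 0 := fun G x hx => by
    rw [χ.zero_of_le_dist (by simpa using hx), zero_smul]
  have hcd : ∀ {G : E → E}, ContDiff ℝ 1 G → ContDiff ℝ 1 fun x => χ x • (G x - x) := fun hG =>
    χ.contDiff.smul (hG.sub contDiff_id)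
  have hI : ∀ {G : E → E}, ContDiff ℝ 1 G →
      ∫ x in ball (0 : E) (2 * R), (ContinuousLinearMap.id ℝ E +
        fderiv ℝ (fun x => χ x • (G x - x)) x).det ∂μ = μ.real (ball (0 : E) (2 * R)) := fun hG =>
    int_det_Deg μ _ (hcd hG) χ.hasCompactSupport.smul_right (hz _)
  have hint : ∀ {G : E → E}, ContDiff ℝ 1 G → IntegrableOn (fun x => (ContinuousLinearMap.id ℝ E +
      fderiv ℝ (fun x => χ x • (G x - x)) x).det) (ball (0 : E) (2 * R)) μ := fun hG =>
    ((ContinuousLinearMap.continuous_det.comp (continuous_const.add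
      ((hcd hG).continuous_fderiv one_ne_zero))).continuousOn.integrableOn_compact
      (isCompact_closedBall (0 : E) (2 * R))).mono_set ball_subset_closedBall
  have hin : ∀ {G : E → E}, ContDiff ℝ 1 G → ∀ x ∈ S, ContinuousLinearMap.id ℝ E +
      fderiv ℝ (fun x => χ x • (G x - x)) x = fderiv ℝ G x := by
    intro G hG x hx
    have e : (fun x => χ x • (G x - x)) =ᶠ[𝓝 x] fun x => G x - x := by
      filter_upwards [isOpen_ball.mem_nhds (hSR hx)] with y hy
      rw [χ.one_of_mem_closedBall (ball_subset_closedBall hy), one_smul]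
    have e' : HasFDerivAt (fun x => G x - x) (fderiv ℝ G x - ContinuousLinearMap.id ℝ E) x :=
      (hG.differentiable one_ne_zero x).hasFDerivAt.sub (hasFDerivAt_id x)
    rw [e.fderiv_eq, e'.fderiv]
    abel
  have hout : ∀ x, x ∉ S → A =ᶠ[𝓝 x] B := fun x hx => by
    filter_upwards [hS.isClosed.isOpen_compl.mem_nhds hx] with y hy using h y hy
  rw [← setIntegral_eq_integral_of_forall_compl_eq_zero (s := ball (0 : E) (2 * R))]
  · rw [← sub_self (μ.real (ball (0 : E) (2 * R)))]
    conv_rhs => enter [1]; rw [← hI hA]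
    conv_rhs => enter [2]; rw [← hI hB]
    rw [← integral_sub (hint hA) (hint hB)]
    refine setIntegral_congr_fun measurableSet_ball fun x _ => ?_
    by_cases hx : x ∈ S
    · simp only [hin hA x hx, hin hB x hx]
    · have e : (fun x => χ x • (A x - x)) =ᶠ[𝓝 x] fun x => χ x • (B x - x) := by
        filter_upwards [hout x hx] with y hy
        rw [hy]
      simp only [(hout x hx).fderiv_eq, e.fderiv_eq, sub_self]
  · intro x hx
    rw [(hout x fun hx' => hx (ball_subset_ball (by linarith) (hSR hx'))).fderiv_eq, sub_self]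

/-- A map whose Jacobian is a bump function. -/
theorem theta_Deg {δ : ℝ} (hδ : 0 < δ) : ∃ Θ : E → E, ContDiff ℝ 1 Θ ∧
    (∀ y, 0 ≤ (fderiv ℝ Θ y).det) ∧ (∀ y, δ ≤ ‖y‖ → (fderiv ℝ Θ y).det = 0) ∧
    0 < (fderiv ℝ Θ 0).det := by
  classical
  let b := Module.finBasis ℝ E
  let e := b.equivFunL
  obtain ⟨C, hC, hCe⟩ := (e.symm : (Fin (Module.finrank ℝ E) → ℝ) →L[ℝ] E).bound
  let a : ℝ → ℝ := fun s => max 0 (δ / (2 * C) - |s|)
  have ha : Continuous a := by fun_prop
  let α : ℝ → ℝ := fun t => ∫ s in (0 : ℝ)..t, a s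
  have hα : ∀ t, HasDerivAt α (a t) t := fun t => (ha.integral_hasStrictDerivAt 0 t).hasDerivAt
  have hα1 : ContDiff ℝ 1 α := by
    rw [contDiff_one_iff_deriv]
    refine ⟨fun t => (hα t).differentiableAt, ?_⟩
    rw [show deriv α = a from funext fun t => (hα t).deriv]
    exact ha
  have hdet : ∀ y, (fderiv ℝ (fun y => e.symm fun i => α (e y i)) y).det = ∏ i, a (e y i) := by
    intro y
    have h1 : HasFDerivAt (fun y => e.symm fun i => α (e y i))
        ((e.symm : (Fin (Module.finrank ℝ E) → ℝ) →L[ℝ] E).comp (ContinuousLinearMap.pi fun i =>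
          a (e y i) • (ContinuousLinearMap.proj i).comp
            (e : E →L[ℝ] (Fin (Module.finrank ℝ E) → ℝ)))) y :=
      e.symm.hasFDerivAt.comp y (hasFDerivAt_pi.2 fun i => (hα (e y i)).comp_hasFDerivAt
        (f := fun y => e y i) y ((ContinuousLinearMap.proj (R := ℝ) i).comp
          (e : E →L[ℝ] (Fin (Module.finrank ℝ E) → ℝ))).hasFDerivAt)
    rw [h1.fderiv, ContinuousLinearMap.det, ← LinearMap.det_toMatrix b, ← Matrix.det_diagonal]
    congr 1
    ext i j
    have h2 : ∀ v, b.repr (e.symm v) i = v i := fun v => congrFun (e.apply_symm_apply v) i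
    have h3 : e (b j) i = if i = j then 1 else 0 := by
      simp [e, Finsupp.single_apply, eq_comm]
    simp [LinearMap.toMatrix_apply, Matrix.diagonal_apply, h2, h3]
  refine ⟨fun y => e.symm fun i => α (e y i), e.symm.contDiff.comp (contDiff_pi.2 fun i =>
    hα1.comp ((contDiff_apply ℝ ℝ i).comp e.contDiff)), fun y => ?_, fun y hy => ?_, ?_⟩
  · rw [hdet]
    exact Finset.prod_nonneg fun i _ => le_max_left _ _
  · rw [hdet]
    by_contra hne
    have h1 : ‖e y‖ ≤ δ / (2 * C) := by
      refine (pi_norm_le_iff_of_nonneg (by positivity)).2 fun i => ?_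
      by_contra hcon
      refine hne (Finset.prod_eq_zero (Finset.mem_univ i) (max_eq_left ?_))
      rw [Real.norm_eq_abs] at hcon
      linarith
    have h2 := hCe (e y)
    simp only [ContinuousLinearEquiv.coe_coe, ContinuousLinearEquiv.symm_apply_apply] at h2
    have h3 : C * ‖e y‖ ≤ C * (δ / (2 * C)) := mul_le_mul_of_nonneg_left h1 hC.le
    have h4 : C * (δ / (2 * C)) = δ / 2 := by field_simp
    linarith
  · rw [hdet]
    refine Finset.prod_pos fun i _ => lt_max_of_lt_right ?_
    simp
    positivity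

end Pool.Agent.MP_2fc7fa_gt.N
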