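import Pool.Agent.MP_2fc7fa_gt.N.IfB
import Pool.Agent.MP_2fc7fa_gt.N.DegA

/-! Degree theory: positivity of the degree. -/

open scoped Topology Manifold
open Metric Set MeasureTheory Filter

noncomputable section

namespace Pool.Agent.MP_2fc7fa_gt.N

section

variable {E : Type} [NormedAddCommGroup E] [NormedSpace ℝ E] [FiniteDimensional ℝ E]

lemma lin_close_Deg {g : E → E} {L : E →L[ℝ] E} {x : E} (hL : 0 < L.det) (h0 : g x = 0)
    (hd : HasFDerivAt g L x) : ∀ᶠ y in 𝓝 x, ‖L (y - x) - g y‖ ≤ ‖g y‖ / 2 := by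
  have hinj : Function.Injective L := by
    have hu : IsUnit (L : E →ₗ[ℝ] E) :=
      (LinearMap.isUnit_iff_isUnit_det _).mpr (isUnit_iff_ne_zero.mpr hL.ne')
    exact ((Module.End.isUnit_iff _).mp hu).1
  obtain ⟨C, hC, hanti⟩ := (L : E →ₗ[ℝ] E).exists_antilipschitzWith (LinearMap.ker_eq_bot.2 hinj)
  have hC' : (0 : ℝ) < C := hC
  filter_upwards [hd.isLittleO.bound (c := 1 / (3 * C)) (by positivity)] with y hy
  have h1 : ‖y - x‖ ≤ C * ‖L (y - x)‖ := by simpa using hanti.le_mul_dist (y - x) 0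
  rw [h0, sub_zero] at hy
  have h2 : ‖g y - L (y - x)‖ ≤ ‖L (y - x)‖ / 3 := by
    refine hy.trans ((mul_le_mul_of_nonneg_left h1 (by positivity)).trans (le_of_eq ?_))
    field_simp
  have h3 := norm_sub_norm_le (L (y - x)) (g y)
  rw [norm_sub_rev] at h2
  linarith

omit [NormedSpace ℝ E] [FiniteDimensional ℝ E] in
lemma const_close_Deg {g : E → E} {K : Set E} {x : E} (hg : ContinuousWithinAt g K x)
    (h0 : g x ≠ 0) : ∀ᶠ y in 𝓝 x, y ∈ K → ‖g x - g y‖ ≤ ‖g y‖ / 2 := by
  rw [← eventually_nhdsWithin_iff]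
  have h1 : ContinuousWithinAt (fun y => ‖g y‖ / 2 - ‖g x - g y‖) K x :=
    (hg.norm.div_const 2).sub (continuousWithinAt_const.sub hg).norm
  have h2 : 0 < ‖g x‖ / 2 - ‖g x - g x‖ := by simpa using h0
  filter_upwards [h1.eventually (lt_mem_nhds h2)] with y hy
  linarith

theorem core_Deg {K S : Set E} {g g' : E → E} (hK : IsCompact K) (hS : IsCompact S)
    (hSK : S ⊆ interior K) (hg : ContinuousOn g K) (hg' : ContinuousOn g' K)
    (he : ∀ x ∈ K, x ∉ interior S → g x = g' x) (hne : ∀ x ∈ K, g x ≠ 0)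
    (hf : {x ∈ K | g' x = 0}.Finite) (hn : {x ∈ K | g' x = 0}.Nonempty)
    (hd : ∀ x ∈ K, g' x = 0 → ∃ L : E →L[ℝ] E, 0 < L.det ∧ HasFDerivAt g' L x) : False := by
  classical
  borelize E
  set Z := {x ∈ K | g' x = 0} with hZ
  choose! L hL hLd using hd
  have hZS : ∀ z ∈ Z, z ∈ interior S := fun z hz => by
    by_contra h
    exact hne z hz.1 ((he z hz.1 h).trans hz.2)
  obtain ⟨r, hr1, hr⟩ : ∃ r : ℝ, (∀ z ∈ Z, (∀ y ∈ ball z (2 * r), y ∈ interior S ∧
      ‖L z (y - z) - g' y‖ ≤ ‖g' y‖ / 2) ∧ ∀ z' ∈ Z, z ≠ z' → 3 * r < dist z z') ∧ 0 < r := by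
    refine ((hf.eventually_all.2 fun z hz => Eventually.and ?_
      (hf.eventually_all.2 fun z' _ => ?_)).and
      (self_mem_nhdsWithin (s := Ioi (0 : ℝ)) (a := 0))).exists
    · obtain ⟨ε, hε, h⟩ := Metric.eventually_nhds_iff_ball.1
        ((isOpen_interior.eventually_mem (hZS z hz)).and
          (lin_close_Deg (hL z hz.1 hz.2) hz.2 (hLd z hz.1 hz.2)))
      filter_upwards [nhdsWithin_le_nhds (gt_mem_nhds (half_pos hε))] with r hr y hy
      exact h y (ball_subset_ball (by linarith) hy)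
    · by_cases h : z = z'
      · exact Eventually.of_forall fun r h' => absurd h h'
      · have : 0 < dist z z' / 3 := by have := dist_pos.2 h; linarith
        filter_upwards [nhdsWithin_le_nhds (gt_mem_nhds this)] with r hr _
        linarith
  obtain ⟨G, hG⟩ := exists_contMDiffMap_forall_mem_convex_of_local (n := 1) 𝓘(ℝ, E)
    (t := fun x : E => {pq : E × E | (x ∈ K → ‖pq.1 - g' x‖ ≤ ‖g' x‖ / 2 ∧
      ‖pq.2 - g x‖ ≤ ‖g x‖ / 2) ∧ (∀ z ∈ Z, x ∈ ball z r → pq.1 = L z (x - z)) ∧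
      (x ∉ S → pq.1 = pq.2)}) (by
      intro x p hp q hq a b ha hb hab
      refine ⟨fun hx => ⟨?_, ?_⟩, fun z hz hx => ?_, fun hx => ?_⟩
      · exact mem_closedBall_iff_norm.1 (convex_closedBall _ _
          (mem_closedBall_iff_norm.2 (hp.1 hx).1) (mem_closedBall_iff_norm.2 (hq.1 hx).1) ha hb hab)
      · exact mem_closedBall_iff_norm.1 (convex_closedBall _ _
          (mem_closedBall_iff_norm.2 (hp.1 hx).2) (mem_closedBall_iff_norm.2 (hq.1 hx).2) ha hb hab)
      · change a • p.1 + b • q.1 = _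
        rw [hp.2.1 z hz hx, hq.2.1 z hz hx, ← add_smul, hab, one_smul]
      · change a • p.1 + b • q.1 = a • p.2 + b • q.2
        rw [hp.2.2 hx, hq.2.2 hx]) (by
      intro x
      by_cases hx : x ∈ K
      · have h2 := const_close_Deg (hg x hx) (hne x hx)
        by_cases hb : ∃ z ∈ Z, x ∈ ball z (2 * r)
        · obtain ⟨z, hz, hxz⟩ := hb
          refine ⟨_, h2.and (isOpen_ball.eventually_mem hxz), fun y => (L z (y - z), g x), ?_,
            fun y hy => ⟨fun hyK => ⟨((hr1 z hz).1 y hy.2).2, hy.1 hyK⟩, fun z' hz' hy' => ?_,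
              fun hyS => absurd (interior_subset ((hr1 z hz).1 y hy.2).1) hyS⟩⟩
          · exact (by fun_prop : ContDiff ℝ 1 fun y => (L z (y - z), g x)).contMDiff.contMDiffOn
          · by_cases h : z = z'
            · rw [h]
            · have := (hr1 z hz).2 z' hz' h
              have h3 := dist_triangle_left z z' y
              have h4 := mem_ball.1 hy.2
              have h5 := mem_ball.1 hy'
              linarith
        · push Not at hb
          have h3 := const_close_Deg (hg' x hx) fun h => hb x ⟨hx, h⟩ (mem_ball_self (by linarith))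
          have h4 : ∀ᶠ y in 𝓝 x, ∀ z ∈ Z, y ∉ closedBall z r := hf.eventually_all.2 fun z hz =>
            isClosed_closedBall.isOpen_compl.eventually_mem fun h =>
              hb z hz (closedBall_subset_ball (by linarith) h)
          have h5 : ∀ᶠ y in 𝓝 x, y ∉ S → g' x = g x := by
            by_cases h : x ∈ interior S
            · filter_upwards [isOpen_interior.mem_nhds h] with y hy hy'
              exact absurd (interior_subset hy) hy'
            · exact Eventually.of_forall fun _ _ => (he x hx h).symm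
          exact ⟨_, h2.and (h3.and (h4.and h5)), fun _ => (g' x, g x), contMDiffOn_const,
            fun y hy => ⟨fun hyK => ⟨hy.2.1 hyK, hy.1 hyK⟩,
              fun z hz hy' => absurd (ball_subset_closedBall hy') (hy.2.2.1 z hz), hy.2.2.2⟩⟩
      · refine ⟨Kᶜ, hK.isClosed.isOpen_compl.mem_nhds hx, fun _ => 0, contMDiffOn_const,
          fun y hy => ⟨fun h => absurd h hy, fun z hz hy' => absurd ?_ hy, fun _ => rfl⟩⟩
        exact interior_subset (hSK (interior_subset ((hr1 z hz).1 y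
          (ball_subset_ball (by linarith) hy')).1)))
  have hGc : ContDiff ℝ 1 G := G.contMDiff.contDiff
  obtain ⟨m, hm, hm'⟩ := hK.exists_forall_le' (f := fun x => ‖g x‖) (a := 0) hg.norm
    fun x hx => norm_pos_iff.2 (hne x hx)
  obtain ⟨m', hm1, hm1'⟩ := (hK.diff (isOpen_biUnion fun z (_ : z ∈ Z) =>
    isOpen_ball (x := z) (ε := r))).exists_forall_le' (f := fun x => ‖g' x‖) (a := 0)
    (hg'.mono sdiff_subset).norm fun x hx => norm_pos_iff.2 fun h =>
      hx.2 (mem_biUnion (show x ∈ Z from ⟨hx.1, h⟩) (mem_ball_self hr))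
  obtain ⟨Θ, hΘ, hΘ0, hΘ1, hΘ2⟩ := theta_Deg (E := E) (half_pos (lt_min hm hm1))
  have hA : ContDiff ℝ 1 fun x => Θ (G x).1 := hΘ.comp hGc.fst
  have hB : ContDiff ℝ 1 fun x => Θ (G x).2 := hΘ.comp hGc.snd
  have hAB : ∀ x, x ∉ S → Θ (G x).1 = Θ (G x).2 := fun x hx => by rw [(hG x).2.2 hx]
  have hI := null_lag_Deg Measure.addHaar _ _ hA hB hS hAB
  have hdet : ∀ {p : E → E}, ContDiff ℝ 1 p → ∀ x, (fderiv ℝ (fun x => Θ (p x)) x).det =
      (fderiv ℝ Θ (p x)).det * (fderiv ℝ p x).det := by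
    intro p hp x
    rw [fderiv_fun_comp x (hΘ.differentiable one_ne_zero _) (hp.differentiable one_ne_zero _)]
    exact LinearMap.det_comp _ _
  have hB0 : ∀ x ∈ K, (fderiv ℝ (fun x => Θ (G x).2) x).det = 0 := by
    intro x hx
    rw [hdet hGc.snd, hΘ1, zero_mul]
    have h1 := ((hG x).1 hx).2
    have h2 := norm_sub_norm_le (g x) (G x).2
    have h3 := hm' x hx
    have h4 := min_le_left m m'
    rw [norm_sub_rev] at h1
    linarith
  have hball : ∀ z ∈ Z, ∀ x ∈ ball z r, fderiv ℝ (fun x => (G x).1) x = L z := by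
    intro z hz x hx
    have e : (fun x => (G x).1) =ᶠ[𝓝 x] fun x => L z (x - z) := by
      filter_upwards [isOpen_ball.mem_nhds hx] with y hy using (hG y).2.1 z hz hy
    have e' : HasFDerivAt (fun x => L z (x - z)) (L z) x :=
      (L z).hasFDerivAt.comp x ((hasFDerivAt_id x).sub_const z)
    rw [e.fderiv_eq, e'.fderiv]
  have hout : ∀ x, x ∉ S →
      (fderiv ℝ (fun x => Θ (G x).1) x).det - (fderiv ℝ (fun x => Θ (G x).2) x).det = 0 := by
    intro x hx
    have e : (fun x => Θ (G x).1) =ᶠ[𝓝 x] fun x => Θ (G x).2 := by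
      filter_upwards [hS.isClosed.isOpen_compl.mem_nhds hx] with y hy using hAB y hy
    rw [e.fderiv_eq, sub_self]
  obtain ⟨z, hz⟩ := hn
  refine (Continuous.integral_pos_of_hasCompactSupport_nonneg_nonzero (x := z) ?_
    (HasCompactSupport.intro hS hout) (fun x => ?_) ?_).ne' hI
  · exact (ContinuousLinearMap.continuous_det.comp (hA.continuous_fderiv one_ne_zero)).sub
      (ContinuousLinearMap.continuous_det.comp (hB.continuous_fderiv one_ne_zero))
  · by_cases hx : x ∈ S
    · have hxK := interior_subset (hSK hx)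
      simp only [Pi.zero_apply]
      rw [hB0 x hxK, sub_zero, hdet hGc.fst]
      by_cases hb : x ∈ ⋃ z ∈ Z, ball z r
      · obtain ⟨z, hz, hxz⟩ := mem_iUnion₂.1 hb
        rw [hball z hz x hxz]
        exact mul_nonneg (hΘ0 _) (hL z hz.1 hz.2).le
      · rw [hΘ1, zero_mul]
        have h1 := ((hG x).1 hxK).1
        have h2 := norm_sub_norm_le (g' x) (G x).1
        have h3 := hm1' x ⟨hxK, hb⟩
        have h4 := min_le_right m m'
        rw [norm_sub_rev] at h1
        linarith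
    · exact (hout x hx).ge
  · rw [hB0 z hz.1, sub_zero, hdet hGc.fst, hball z hz z (mem_ball_self hr),
      (hG z).2.1 z hz (mem_ball_self hr), sub_self, map_zero]
    exact (mul_pos hΘ2 (hL z hz.1 hz.2)).ne'

/-- Positivity of the degree, real version. -/
theorem degReal (K : Set E) (H : ℝ → E → E) (hK : IsCompact K)
    (hH : ContinuousOn (fun a : ℝ × E => H a.1 a.2) (Icc 0 1 ×ˢ K))
    (hfr : ∀ s ∈ Icc (0 : ℝ) 1, ∀ x ∈ frontier K, H s x ≠ 0)
    (hf : {x ∈ K | H 1 x = 0}.Finite) (hn : {x ∈ K | H 1 x = 0}.Nonempty)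
    (hd : ∀ x ∈ K, H 1 x = 0 → ∃ L : E →L[ℝ] E, 0 < L.det ∧ HasFDerivAt (H 1) L x) :
    ∃ x ∈ K, H 0 x = 0 := by
  have := FiniteDimensional.proper_real E
  by_contra hcon
  push Not at hcon
  have hZ : IsCompact (Prod.snd '' ((Icc (0 : ℝ) 1 ×ˢ K) ∩ (fun a : ℝ × E => H a.1 a.2) ⁻¹' {0})) :=
    ((isCompact_Icc.prod hK).of_isClosed_subset (hH.preimage_isClosed_of_isClosed
      (isCompact_Icc.prod hK).isClosed isClosed_singleton) inter_subset_left).image continuous_snd
  obtain ⟨S, hS, hZS, hSK⟩ := exists_compact_between hZ isOpen_interior (U := interior K) (by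
    rintro _ ⟨a, ha, rfl⟩
    by_contra h
    exact hfr a.1 ha.1.1 a.2 ⟨subset_closure ha.1.2, h⟩ ha.2)
  obtain ⟨l, hl0, hl1, hl⟩ := exists_continuous_zero_one_of_isClosed hZ.isClosed
    (isOpen_interior (s := S)).isClosed_compl (disjoint_compl_right_iff_subset.2 hZS)
  refine core_Deg (g := fun x => H (l x) x) hK hS hSK
    (hH.comp (l.continuous.prodMk continuous_id).continuousOn fun x hx => ⟨hl x, hx⟩)
    (hH.comp (continuous_const.prodMk continuous_id).continuousOn
      fun x hx => ⟨⟨zero_le_one, le_rfl⟩, hx⟩) (fun x _ hx => ?_) (fun x hx h => ?_) hf hn hd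
  · rw [hl1 hx]; rfl
  · have h0 : l x = 0 := hl0 ⟨(l x, x), ⟨⟨hl x, hx⟩, h⟩, rfl⟩
    rw [h0] at h
    exact hcon x hx h

end

theorem deg : DegStmt := by
  intro E _ _ _ K H hK hH hfr hf hn hd
  have : FiniteDimensional ℝ E := Module.Finite.trans ℂ E
  refine degReal K H hK hH hfr hf hn fun x hx h => ?_
  obtain ⟨L, hL⟩ := hd x hx h
  refine ⟨_, ?_, hL⟩
  have e : ((L : E →L[ℂ] E).restrictScalars ℝ).det =
      Algebra.norm ℝ (LinearMap.det (L.toLinearEquiv : E →ₗ[ℂ] E)) :=
    LinearMap.det_restrictScalars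
  rw [e, Algebra.norm_complex_apply]
  exact Complex.normSq_pos.2 L.toLinearEquiv.isUnit_det'.ne_zero

end Pool.Agent.MP_2fc7fa_gt.N
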