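import Pool.Agent.MP_2fc7fa_gt.N.IfB

open scoped ContDiff ComplexConjugate Topology
open Set Complex Filter Metric

noncomputable section

namespace Pool.Agent.MP_2fc7fa_gt.N

theorem low_Diff (A : W → W →L[ℝ] W) (Ω K : Set W) (hA : Cofr A Ω) (hK : IsCompact K)
    (hKΩ : K ⊆ Ω) : ∃ C : ℝ, 0 ≤ C ∧ ∀ p ∈ K, ∀ v : W, ‖v‖ ≤ C * ‖A p v‖ := by
  have hc : ContinuousOn (fun q : W × W => ‖A q.1 q.2‖) (K ×ˢ sphere (0 : W) 1) := by
    have h1 : ContinuousOn (fun q : W × W => A q.1) (K ×ˢ sphere (0 : W) 1) :=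
      hA.2.1.continuousOn.comp continuous_fst.continuousOn (fun q hq => hKΩ hq.1)
    exact (h1.clm_apply continuous_snd.continuousOn).norm
  obtain ⟨a, ha, hle⟩ := (hK.prod (isCompact_sphere (0 : W) 1)).exists_forall_le' hc (a := 0) (by
    rintro ⟨p, v⟩ ⟨hp, hv⟩
    have hv' : ‖v‖ = 1 := by simpa using hv
    refine norm_pos_iff.2 (fun h0 => ?_)
    have : v = 0 := hA.2.2 p (hKΩ hp) (by simpa using h0)
    rw [this] at hv'
    simp at hv')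
  refine ⟨a⁻¹, by positivity, fun p hp v => ?_⟩
  rcases eq_or_ne v 0 with rfl | hv
  · simp
  · have hn : 0 < ‖v‖ := norm_pos_iff.2 hv
    have hs : (‖v‖⁻¹ • v) ∈ sphere (0 : W) 1 := by
      simp [norm_smul, hn.ne']
    have h1 := hle (p, ‖v‖⁻¹ • v) ⟨hp, hs⟩
    simp only [map_smul, norm_smul, norm_inv, norm_norm] at h1
    rw [inv_mul_eq_div, le_div_iff₀ hn] at h1
    rw [inv_mul_eq_div, le_div_iff₀ ha]
    linarith

theorem alg_Diff (E1 EI a1 aI b1 bI Y1 YI : W) (l : ℂ) (S e : ℝ) (hl : ‖l‖ ≤ S)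
    (h1 : Y1 = E1 + b1 - a1) (hI : YI = EI + bI - aI) (ha : aI = I • a1)
    (hb1 : b1.2 = l * b1.1) (hbI : bI.2 = l * bI.1) (hY1 : Y1.1 = 0) (hYI : YI.1 = 0)
    (hE1 : ‖E1‖ ≤ e) (hEI : ‖EI‖ ≤ e) :
    ‖(1 / 2 : ℂ) • (Y1.2 + I • YI.2)‖ ≤ (1 + S) * e := by
  have e1 : b1.1 = a1.1 - E1.1 := by
    have : Y1.1 = E1.1 + b1.1 - a1.1 := by rw [h1]; rfl
    rw [hY1] at this
    linear_combination -this
  have eI : bI.1 = I * a1.1 - EI.1 := by
    have : YI.1 = EI.1 + bI.1 - I * a1.1 := by rw [hI, ha]; rfl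
    rw [hYI] at this
    linear_combination -this
  have f1 : Y1.2 = E1.2 + b1.2 - a1.2 := by rw [h1]; rfl
  have fI : YI.2 = EI.2 + bI.2 - I * a1.2 := by rw [hI, ha]; rfl
  have key : (1 / 2 : ℂ) • (Y1.2 + I • YI.2) =
      (1 / 2 : ℂ) * ((E1.2 - l * E1.1) + I * (EI.2 - l * EI.1)) := by
    rw [f1, fI, hb1, hbI, e1, eI]
    simp only [smul_eq_mul]
    have := I_mul_I
    linear_combination (1 / 2 : ℂ) * (l * a1.1 - a1.2) * this
  have bd : ∀ E : W, ‖E‖ ≤ e → ‖E.2 - l * E.1‖ ≤ (1 + S) * e := by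
    intro E hE
    have p1 : ‖E.1‖ ≤ e := (norm_fst_le E).trans hE
    have p2 : ‖E.2‖ ≤ e := (norm_snd_le E).trans hE
    have p3 : ‖l * E.1‖ ≤ S * e := by
      rw [norm_mul]
      exact mul_le_mul hl p1 (norm_nonneg _) ((norm_nonneg _).trans hl)
    have := norm_sub_le E.2 (l * E.1)
    linarith
  rw [key, norm_mul]
  have q1 := bd E1 hE1
  have qI := bd EI hEI
  have q2 := norm_add_le (E1.2 - l * E1.1) (I * (EI.2 - l * EI.1))
  rw [norm_mul, norm_I, one_mul] at q2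
  have q3 : ‖(1 / 2 : ℂ)‖ = 1 / 2 := by simp
  rw [q3]
  linarith

theorem diff : DiffStmt := by
  intro A Ω K S M hA hK hconv hKΩ
  obtain ⟨C0, hC0, hlow⟩ := low_Diff A Ω K hA hK hKΩ
  have hdA : ∀ p ∈ K, DifferentiableAt ℝ A p := fun p hp =>
    (hA.2.1.contDiffAt (hA.1.mem_nhds (hKΩ hp))).differentiableAt (by simp)
  have hcf : ContinuousOn (fderiv ℝ A) K :=
    (hA.2.1.continuousOn_fderiv_of_isOpen hA.1 (by simp)).mono hKΩ
  obtain ⟨C1, hC1⟩ : ∃ C1 : ℝ, ∀ p ∈ K, ‖fderiv ℝ A p‖ ≤ C1 :=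
    IsCompact.exists_bound_of_continuousOn (E := W →L[ℝ] W →L[ℝ] W) hK hcf
  refine ⟨(1 + S) * (2 * C1 * M * C0), ?_⟩
  intro x x' z hx hx' hxK hx'K hM hM' hCR hl hev
  obtain ⟨l, hlS, hl⟩ := hl
  have hC1' : 0 ≤ C1 := ((fderiv ℝ A (x z)).opNorm_nonneg).trans (hC1 _ hxK)
  have hM0 : 0 ≤ M := (norm_nonneg _).trans hM
  have hS0 : 0 ≤ S := (norm_nonneg _).trans hlS
  have hAx : HasFDerivAt (fun t => A (x t)) ((fderiv ℝ A (x z)).comp (fderiv ℝ x z)) z :=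
    (hdA _ hxK).hasFDerivAt.comp z hx.hasFDerivAt
  have hd : HasFDerivAt (fun t => x' t - x t) (fderiv ℝ x' z - fderiv ℝ x z) z :=
    hx'.hasFDerivAt.sub hx.hasFDerivAt
  have hy := hAx.clm_apply hd
  set Y := (A (x z)).comp (fderiv ℝ x' z - fderiv ℝ x z) +
    ((fderiv ℝ A (x z)).comp (fderiv ℝ x z)).flip (x' z - x z) with hYdef
  have hY : ∀ h, Y h = (fderiv ℝ A (x z) (fderiv ℝ x z h) (x' z - x z) +
      (A (x z) - A (x' z)) (fderiv ℝ x' z h)) + A (x' z) (fderiv ℝ x' z h) -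
      A (x z) (fderiv ℝ x z h) := by
    intro h
    simp only [hYdef, add_apply, ContinuousLinearMap.comp_apply,
      sub_apply, ContinuousLinearMap.flip_apply, map_sub]
    abel
  have hY1 : ∀ h, (Y h).1 = 0 := by
    intro h
    have h1 : HasFDerivAt (fun t => (A (x t) (x' t - x t)).1)
        ((ContinuousLinearMap.fst ℝ ℂ ℂ).comp Y) z := hy.fst
    have h2 : HasFDerivAt (fun t => (A (x t) (x' t - x t)).1) (0 : ℂ →L[ℝ] ℂ) z :=
      (hasFDerivAt_const (0 : ℂ) z).congr_of_eventuallyEq hev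
    have h3 := h1.unique h2
    have := congrArg (fun L : ℂ →L[ℝ] ℂ => L h) h3
    simpa using this
  have hY2 : fderiv ℝ (fun t => (A (x t) (x' t - x t)).2) z =
      (ContinuousLinearMap.snd ℝ ℂ ℂ).comp Y := hy.snd.fderiv
  have hy0 : (A (x z) (x' z - x z)).1 = 0 := hev.self_of_nhds
  have hnorm : ‖A (x z) (x' z - x z)‖ = ‖(A (x z) (x' z - x z)).2‖ := by
    rw [Prod.norm_def, hy0]
    simp
  have hdle : ‖x' z - x z‖ ≤ C0 * ‖(A (x z) (x' z - x z)).2‖ := hnorm ▸ hlow _ hxK _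
  have hLip : ‖A (x z) - A (x' z)‖ ≤ C1 * ‖x' z - x z‖ := by
    rw [norm_sub_rev (x' z)]
    exact hconv.norm_image_sub_le_of_norm_fderiv_le hdA hC1 hx'K hxK
  have hE : ∀ h : ℂ, ‖h‖ = 1 → ‖fderiv ℝ A (x z) (fderiv ℝ x z h) (x' z - x z) +
      (A (x z) - A (x' z)) (fderiv ℝ x' z h)‖ ≤
      2 * C1 * M * C0 * ‖(A (x z) (x' z - x z)).2‖ := by
    intro h hh
    have a1 : ‖fderiv ℝ x z h‖ ≤ M := by
      have := (fderiv ℝ x z).le_opNorm h
      rw [hh] at this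
      linarith
    have a2 : ‖fderiv ℝ x' z h‖ ≤ M := by
      have := (fderiv ℝ x' z).le_opNorm h
      rw [hh] at this
      linarith
    have a3 : ‖fderiv ℝ A (x z) (fderiv ℝ x z h)‖ ≤ C1 * M :=
      ((fderiv ℝ A (x z)).le_opNorm _).trans
        (mul_le_mul (hC1 _ hxK) a1 (norm_nonneg _) hC1')
    have a4 : ‖fderiv ℝ A (x z) (fderiv ℝ x z h) (x' z - x z)‖ ≤ C1 * M * ‖x' z - x z‖ :=
      ((fderiv ℝ A (x z) (fderiv ℝ x z h)).le_opNorm _).trans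
        (mul_le_mul_of_nonneg_right a3 (norm_nonneg _))
    have a5 : ‖(A (x z) - A (x' z)) (fderiv ℝ x' z h)‖ ≤ C1 * ‖x' z - x z‖ * M :=
      ((A (x z) - A (x' z)).le_opNorm _).trans
        (mul_le_mul hLip a2 (norm_nonneg _) (by positivity))
    have a6 := norm_add_le (fderiv ℝ A (x z) (fderiv ℝ x z h) (x' z - x z))
      ((A (x z) - A (x' z)) (fderiv ℝ x' z h))
    have a7 : 2 * C1 * M * ‖x' z - x z‖ ≤ 2 * C1 * M * (C0 * ‖(A (x z) (x' z - x z)).2‖) :=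
      mul_le_mul_of_nonneg_left hdle (by positivity)
    linarith
  have hfin := alg_Diff _ _ _ _ _ _ (Y 1) (Y I) l S _ hlS (hY 1) (hY I) (hCR z rfl) (hl 1) (hl I)
    (hY1 1) (hY1 I) (hE 1 (by simp)) (hE I (by simp))
  unfold dbar
  rw [hY2]
  simp only [ContinuousLinearMap.comp_apply, ContinuousLinearMap.coe_snd']
  linarith

end Pool.Agent.MP_2fc7fa_gt.N
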