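import Pool.Agent.MP_2fc7fa_gt.N.IfB

/-! Being embedded is an open condition. -/

open scoped Topology
open Set Filter Metric

namespace Pool.Agent.MP_2fc7fa_gt.N

section
variable {E F : Type} [NormedAddCommGroup E] [NormedSpace ℝ E] [NormedAddCommGroup F]
  [NormedSpace ℝ F] {U : E → F}

theorem unit_EmbOpen {q : E} (hq : q ≠ 0) : ∃ (c : ℝ) (u : E), 0 < c ∧ ‖u‖ = 1 ∧ q = c • u :=
  ⟨‖q‖, ‖q‖⁻¹ • q, norm_pos_iff.2 hq, norm_smul_inv_norm hq,
    (smul_inv_smul₀ (norm_ne_zero_iff.2 hq) q).symm⟩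

theorem bound_EmbOpen (hU : ∀ (c : ℝ) q, U (c • q) = c • U q) {C : ℝ}
    (h : ∀ q, ‖q‖ = 1 → ‖U q‖ ≤ C) (q : E) : ‖U q‖ ≤ C * ‖q‖ := by
  rcases eq_or_ne q 0 with rfl | hq
  · simpa using hU 0 0
  obtain ⟨c, u, hc, hu, rfl⟩ := unit_EmbOpen hq
  rw [hU, norm_smul, norm_smul, hu, mul_one, mul_comm]
  exact mul_le_mul_of_nonneg_right (h u hu) (norm_nonneg c)

theorem fderiv_EmbOpen (hU : ∀ (c : ℝ) q, U (c • q) = c • U q) {c : ℝ} (hc : c ≠ 0) (q : E) :
    fderiv ℝ U (c • q) = fderiv ℝ U q := by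
  have h := fderiv_comp_smul (𝕜 := ℝ) (f := U) (x := q) c
  rw [show (fun x => U (c • x)) = c • U from funext (hU c), fderiv_const_smul_field] at h
  exact (smul_right_injective _ hc h).symm

theorem lip_EmbOpen (hU : ∀ (c : ℝ) q, U (c • q) = c • U q)
    (hd : ∀ q, q ≠ 0 → DifferentiableAt ℝ U q) {C : ℝ}
    (h : ∀ q, ‖q‖ = 1 → ‖U q‖ ≤ C ∧ ‖fderiv ℝ U q‖ ≤ C) (x y : E) : ‖U y - U x‖ ≤ C * ‖y - x‖ := by
  by_cases h0 : 0 ∈ segment ℝ x y
  · obtain ⟨a, b, -, -, hab, h1⟩ := h0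
    obtain rfl : a = 1 - b := eq_sub_of_add_eq hab
    have h2 := hU (-b) (y - x)
    have h3 := hU (1 - b) (y - x)
    rw [show (-b) • (y - x) = x by linear_combination (norm := module) -h1] at h2
    rw [show (1 - b) • (y - x) = y by linear_combination (norm := module) -h1] at h3
    rw [show U y - U x = U (y - x) by rw [h2, h3]; module]
    exact bound_EmbOpen hU (fun q hq => (h q hq).1) _
  · refine (convex_segment x y).norm_image_sub_le_of_norm_fderiv_le (𝕜 := ℝ)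
      (fun q hq => hd q (by rintro rfl; exact h0 hq)) (fun q hq => ?_) (left_mem_segment ℝ x y)
      (right_mem_segment ℝ x y)
    obtain ⟨c, u, hc, hu, rfl⟩ := unit_EmbOpen (q := q) (by rintro rfl; exact h0 hq)
    rw [fderiv_EmbOpen hU hc.ne']
    exact (h u hu).2

theorem imm_EmbOpen {m : ℝ} (hm : 0 < m) (h : ∀ x y, m * ‖x - y‖ ≤ ‖U x - U y‖) {q : E}
    (hd : DifferentiableAt ℝ U q) : Function.Injective (fderiv ℝ U q) := by
  refine (injective_iff_map_eq_zero _).2 fun v hv => ?_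
  have h1 := (hd.hasFDerivAt.hasLineDerivAt v).tendsto_slope_zero.norm
  rw [hv, norm_zero] at h1
  have h2 : m * ‖v‖ ≤ 0 := ge_of_tendsto h1 (eventually_nhdsWithin_of_forall fun t ht => by
    have h3 := h (q + t • v) q
    rw [add_sub_cancel_left, norm_smul, mul_left_comm] at h3
    rw [norm_smul, norm_inv, le_inv_mul_iff₀ (norm_pos_iff.2 ht)]
    exact h3)
  exact norm_le_zero_iff.1 (nonpos_of_mul_nonpos_right h2 hm)

theorem low_EmbOpen [FiniteDimensional ℝ E] (hU : ∀ (c : ℝ) q, U (c • q) = c • U q)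
    (hd : ∀ q, q ≠ 0 → ContDiffAt ℝ 1 U q) (hi : Function.Injective U)
    (hm : ∀ q, q ≠ 0 → Function.Injective (fderiv ℝ U q)) :
    ∃ m : ℝ, 0 < m ∧ ∀ x y, m * ‖x - y‖ ≤ ‖U x - U y‖ := by
  have : ProperSpace E := FiniteDimensional.proper_real E
  have hc : Continuous U := by
    obtain ⟨C, hC⟩ := (isCompact_sphere (0 : E) 1).exists_bound_of_continuousOn (f := U)
      fun q hq => (hd q (ne_zero_of_mem_unit_sphere ⟨q, hq⟩)).continuousAt.continuousWithinAt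
    refine continuous_iff_continuousAt.2 fun q => ?_
    rcases eq_or_ne q 0 with rfl | hq
    · rw [ContinuousAt, show U 0 = 0 by simpa using hU 0 0]
      exact squeeze_zero_norm (bound_EmbOpen hU fun q hq => hC q (by simpa using hq))
        (by simpa using (tendsto_norm_zero (E := E)).const_mul C)
    · exact (hd q hq).continuousAt
  obtain ⟨m, m0, hm⟩ : ∃ m : ℝ, 0 < m ∧ ∀ z ∈ sphere (0 : E × E) 1,
      m * ‖z.1 - z.2‖ ≤ ‖U z.1 - U z.2‖ := by
    refine (isCompact_sphere (0 : E × E) 1).induction_on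
      (p := fun s => ∃ m : ℝ, 0 < m ∧ ∀ z ∈ s, m * ‖z.1 - z.2‖ ≤ ‖U z.1 - U z.2‖)
      ⟨1, one_pos, by simp⟩ (fun s t hst ⟨m, m0, h⟩ => ⟨m, m0, fun z hz => h z (hst hz)⟩)
      (fun s t ⟨m, m0, h⟩ ⟨n, n0, h'⟩ => ⟨min m n, lt_min m0 n0, fun z hz => hz.elim
        (fun hz => le_trans (by gcongr; exact min_le_left _ _) (h z hz))
        fun hz => le_trans (by gcongr; exact min_le_right _ _) (h' z hz)⟩) fun ⟨a, b⟩ hz => ?_
    suffices h : ∃ m : ℝ, 0 < m ∧ ∀ᶠ z in 𝓝 (a, b), m * ‖z.1 - z.2‖ ≤ ‖U z.1 - U z.2‖ by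
      obtain ⟨m, m0, h⟩ := h
      exact ⟨_, mem_nhdsWithin_of_mem_nhds h, m, m0, fun _ h => h⟩
    rcases eq_or_ne a b with rfl | hab
    · have ha : a ≠ 0 := by rintro rfl; simp at hz
      obtain ⟨K, K0, hK⟩ := (fderiv ℝ U a).toLinearMap.exists_antilipschitzWith
        (LinearMap.ker_eq_bot.2 (hm a ha))
      have K1 : (0 : ℝ) < (2 * K : ℝ)⁻¹ := by positivity
      refine ⟨_, K1, ?_⟩
      filter_upwards [((hd a ha).hasStrictFDerivAt one_ne_zero).isLittleO.def K1] with z h1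
      have h2 : ‖z.1 - z.2‖ ≤ K * ‖fderiv ℝ U a (z.1 - z.2)‖ :=
        ZeroHomClass.bound_of_antilipschitz _ hK _
      have h3 := norm_sub_norm_le (fderiv ℝ U a (z.1 - z.2)) (U z.1 - U z.2)
      rw [norm_sub_rev (fderiv ℝ U a _)] at h3
      have h4 : 2 * ((2 * K : ℝ)⁻¹ * ‖z.1 - z.2‖) ≤ ‖fderiv ℝ U a (z.1 - z.2)‖ := by
        have K2 : (0 : ℝ) < K := K0
        rw [← mul_assoc, show 2 * (2 * K : ℝ)⁻¹ = (K : ℝ)⁻¹ by field_simp, inv_mul_le_iff₀ K2]
        exact h2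
      linarith
    · have h1 : 0 < ‖U a - U b‖ := norm_pos_iff.2 (sub_ne_zero.2 (hi.ne hab))
      have h2 : 0 < ‖a - b‖ := norm_pos_iff.2 (sub_ne_zero.2 hab)
      refine ⟨‖U a - U b‖ / 2 / ‖a - b‖, by positivity, (ContinuousAt.eventually_lt
        (by fun_prop) (by fun_prop) ?_).mono fun _ h => h.le⟩
      rw [div_mul_cancel₀ _ h2.ne']
      exact half_lt_self h1
  refine ⟨m, m0, fun x y => ?_⟩
  rcases eq_or_ne (x, y) 0 with h | h
  · obtain ⟨rfl, rfl⟩ := Prod.mk_eq_zero.1 h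
    simp
  obtain ⟨c, u, c0, hu, h1⟩ := unit_EmbOpen h
  obtain ⟨rfl, rfl⟩ := Prod.ext_iff.1 h1
  rw [Prod.smul_fst, Prod.smul_snd, hU, hU, ← smul_sub, ← smul_sub, norm_smul, norm_smul,
    mul_left_comm]
  exact mul_le_mul_of_nonneg_left (hm u (by simpa using hu)) (norm_nonneg c)

end

theorem embOpen : EmbOpenStmt := by
  intro U₀ c₀ h₀ n₀ e₀
  have hr : ∀ {U : W → V}, (∀ (c : ℂ) q, U (c • q) = c • U q) →
      ∀ (c : ℝ) q, U (c • q) = c • U q := fun h c q => by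
    simpa only [Complex.coe_smul] using h c q
  have hd : ∀ {U : W → V}, ContDiffOn ℝ 1 U {0}ᶜ → ∀ q, q ≠ 0 → ContDiffAt ℝ 1 U q :=
    fun h q hq => h.contDiffAt (isOpen_compl_singleton.mem_nhds hq)
  have z₀ : U₀ 0 = 0 := by simpa using h₀ 0 0
  obtain ⟨m, m0, hm⟩ := low_EmbOpen (hr h₀) (hd c₀) (fun x y h => by
    rcases eq_or_ne x 0 with rfl | hx <;> rcases eq_or_ne y 0 with rfl | hy
    exacts [rfl, absurd (h.symm.trans z₀) (n₀ y hy), absurd (h.trans z₀) (n₀ x hx),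
      e₀.inj hx hy h]) e₀.imm
  refine ⟨m / 2, half_pos m0, fun U c h hn => ?_⟩
  have d₀ := fun q hq => (hd c₀ q hq).differentiableAt one_ne_zero
  have d := fun q hq => (hd c q hq).differentiableAt one_ne_zero
  have h1 := lip_EmbOpen (U := U - U₀) (fun c q => by
    simp only [Pi.sub_apply, hr h, hr h₀, smul_sub]) (fun q hq => (d q hq).sub (d₀ q hq))
    (C := m / 2) fun q hq => by
      have q0 : q ≠ 0 := by rintro rfl; simp at hq
      rw [fderiv_sub (d q q0) (d₀ q q0)]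
      exact hn q hq
  have h2 : ∀ x y, m / 2 * ‖x - y‖ ≤ ‖U x - U y‖ := fun x y => by
    have h3 := norm_sub_le (U x - U y) ((U - U₀) x - (U - U₀) y)
    rw [show U x - U y - ((U - U₀) x - (U - U₀) y) = U₀ x - U₀ y by simp only [Pi.sub_apply]; abel]
      at h3
    linarith [hm x y, h1 y x]
  refine ⟨fun q hq => imm_EmbOpen (half_pos m0) h2 (d q hq), fun x _ y _ hxy => ?_⟩
  have h3 := h2 x y
  rw [hxy, sub_self (U y), norm_zero] at h3
  exact sub_eq_zero.1 (norm_le_zero_iff.1 (nonpos_of_mul_nonpos_right h3 (half_pos m0)))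

end Pool.Agent.MP_2fc7fa_gt.N
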