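import Pool.Agent.MP_2fc7fa_gt.N.EnLineA

/-! Energy of curves, part B: rectangles, tails of integrals and holonomy along paths. -/

open scoped ContDiff ComplexConjugate Topology
open Set Complex Filter Metric MeasureTheory

noncomputable section

namespace Pool.Agent.MP_2fc7fa_gt.N

lemma rect_EnLine {e : ℂ → ℝ} (he : Integrable e) {a b c d : ℝ} (hab : a ≤ b) (hcd : c ≤ d) :
    (∫ x in a..b, ∫ y in c..d, e (x + y * I)) = ∫ z in Ioc a b ×ℂ Ioc c d, e z ∧
    (∫ y in c..d, ∫ x in a..b, e (x + y * I)) = ∫ z in Ioc a b ×ℂ Ioc c d, e z := by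
  have hm := Complex.volume_preserving_equiv_real_prod
  have h0 : ∀ p : ℝ × ℝ, Complex.measurableEquivRealProd.symm p = p.1 + p.2 * I := fun p => by
    rw [Complex.measurableEquivRealProd_symm_apply, Complex.mk_eq_add_mul_I]
  have h1 : Integrable (fun p : ℝ × ℝ => e (p.1 + p.2 * I)) := by
    have := (hm.symm _).integrable_comp_emb (MeasurableEquiv.measurableEmbedding _) |>.2 he
    refine this.congr (Eventually.of_forall fun p => ?_)
    simp only [Function.comp_apply, h0]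
  have h2 : (∫ x in a..b, ∫ y in c..d, e (x + y * I)) = ∫ z in Ioc a b ×ℂ Ioc c d, e z := by
    have h3 := hm.setIntegral_preimage_emb (MeasurableEquiv.measurableEmbedding _)
      (fun p : ℝ × ℝ => e (p.1 + p.2 * I)) (Ioc a b ×ˢ Ioc c d)
    rw [Measure.volume_eq_prod, setIntegral_prod _ (by exact h1.integrableOn)] at h3
    simp only [intervalIntegral.integral_of_le hab, intervalIntegral.integral_of_le hcd]
    rw [← h3]
    simp only [Complex.measurableEquivRealProd_apply, Complex.re_add_im]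
    rfl
  refine ⟨h2, ?_⟩
  rw [← h2]
  exact (intervalIntegral_intervalIntegral_swap (F := fun x y : ℝ => e (x + y * I))
    h1.integrableOn).symm

lemma tail_EnLine {e : ℂ → ℝ} (he : Integrable e) {ε : ℝ} (hε : 0 < ε) :
    ∃ R : ℝ, 1 ≤ R ∧ ∀ S : Set ℂ, (∀ z ∈ S, R ≤ ‖z‖) → |∫ z in S, e z| ≤ ε := by
  have h1 := tendsto_setIntegral_of_antitone (μ := volume) (f := fun z => ‖e z‖)
    (s := fun n : ℕ => {z : ℂ | (n : ℝ) ≤ ‖z‖})
    (fun n => (isClosed_le continuous_const continuous_norm).measurableSet)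
    (fun m n hmn z (hz : (n : ℝ) ≤ ‖z‖) => (le_trans (Nat.cast_le.2 hmn) hz : (m : ℝ) ≤ ‖z‖))
    ⟨0, he.norm.integrableOn⟩
  have h2 : (⋂ n : ℕ, {z : ℂ | (n : ℝ) ≤ ‖z‖}) = ∅ := by
    refine eq_empty_of_forall_notMem fun z hz => ?_
    obtain ⟨n, hn⟩ := exists_nat_gt ‖z‖
    exact absurd (mem_iInter.1 hz n) (not_le.2 hn)
  rw [h2, setIntegral_empty] at h1
  obtain ⟨n, hn, hn1⟩ := ((h1.eventually_le_const hε).and (eventually_ge_atTop 1)).exists
  refine ⟨n, by exact_mod_cast hn1, fun S hS => ?_⟩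
  rw [← Real.norm_eq_abs]
  refine (norm_integral_le_integral_norm _).trans (le_trans ?_ hn)
  exact setIntegral_mono_set he.norm.integrableOn (Eventually.of_forall fun _ => norm_nonneg _)
    (LE.le.eventuallyLE hS)

lemma big_EnLine {e : ℂ → ℝ} (he : Integrable e) {ε R : ℝ}
    (h : ∀ S : Set ℂ, (∀ z ∈ S, R ≤ ‖z‖) → |∫ z in S, e z| ≤ ε) {a b c d : ℝ}
    (ha : a ≤ -R) (hb : R ≤ b) (hc : c ≤ -R) (hd : R ≤ d) :
    |(∫ z, e z) - ∫ z in Ioc a b ×ℂ Ioc c d, e z| ≤ ε := by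
  have hm : MeasurableSet (Ioc a b ×ℂ Ioc c d) :=
    (measurableSet_Ioc.preimage Complex.measurable_re).inter
      (measurableSet_Ioc.preimage Complex.measurable_im)
  rw [← setIntegral_compl hm he]
  refine h _ fun z hz => ?_
  by_contra hlt
  have h1 := abs_lt.1 ((Complex.abs_re_le_norm z).trans_lt (not_le.1 hlt))
  have h2 := abs_lt.1 ((Complex.abs_im_le_norm z).trans_lt (not_le.1 hlt))
  exact hz ⟨⟨by linarith, by linarith⟩, ⟨by linarith, by linarith⟩⟩

lemma pick_EnLine {g : ℝ → ℝ} (hg : Continuous g) {p R ε : ℝ} (hR : 0 < R)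
    (h : |∫ t in p..p + R, g t| ≤ ε) : ∃ t ∈ Icc p (p + R), R * g t ≤ ε := by
  have hp : p ≤ p + R := by linarith
  obtain ⟨t, ht, hmin⟩ := isCompact_Icc.exists_isMinOn (nonempty_Icc.2 hp) hg.continuousOn
  refine ⟨t, ht, le_trans ?_ ((le_abs_self _).trans h)⟩
  have := intervalIntegral.integral_mono_on (μ := volume) hp
    (continuous_const.intervalIntegrable p (p + R)) (hg.intervalIntegrable _ _)
    fun x hx => hmin hx
  simpa using this

/-- The unit vector in the direction of `x`. -/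
def nv_EnLine (x : V) : V := (rr_EnLine x : ℂ) • x

lemma nv_norm_EnLine {x : V} (hx : x ≠ 0) : 1 / 2 ≤ ‖nv_EnLine x‖ := by
  rw [nv_EnLine, norm_smul, Complex.norm_real, Real.norm_of_nonneg (rr_pos_EnLine x).le]
  exact le_rr_EnLine hx

lemma path_EnLine {γ γ' : ℝ → V} {w k : ℝ → ℝ} (hγ : ∀ t, HasDerivAt γ (γ' t) t)
    (hne : ∀ t, γ t ≠ 0) (hw : Continuous w) (hk : Continuous k)
    (hb : ∀ t, sp_EnLine (γ t) (γ' t) + |w t - (lam_EnLine (γ t) (γ' t)).im| ≤ k t) {a b : ℝ}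
    (hab : a ≤ b) :
    ‖exp (-(I * (∫ t in a..b, w t : ℝ))) • nv_EnLine (γ b) - nv_EnLine (γ a)‖ ≤
      ∫ t in a..b, k t := by
  let E : ℝ → ℂ := fun t => -(I * (∫ s in a..t, w s : ℝ)) +
    ((-(1 / 2) * Real.log (nn_EnLine (γ t)) : ℝ) : ℂ)
  have hE : ∀ t, exp (E t) • γ t = exp (-(I * (∫ s in a..t, w s : ℝ))) • nv_EnLine (γ t) :=
    fun t => by
      simp only [E, nv_EnLine, rr_EnLine, exp_add, smul_smul, Complex.ofReal_exp]
  have hn : ∀ t, ‖exp (E t)‖ = rr_EnLine (γ t) := fun t => by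
    simp only [E, rr_EnLine, Complex.norm_exp, add_re, neg_re, mul_re, I_re, I_im, ofReal_re,
      ofReal_im, zero_mul, mul_zero, sub_zero, neg_zero, zero_add]
  have hnn : ∀ t, HasDerivAt (fun t => nn_EnLine (γ t)) (2 * (her_EnLine (γ t) (γ' t)).re) t :=
    fun t => by
      have h1 := HasDerivAt.fun_sum (u := Finset.univ)
        fun j _ => (hasDerivAt_pi.1 (hγ t) j).norm_sq
      refine h1.congr_deriv ?_
      simp [her_EnLine, Finset.mul_sum, mul_comm]
  have hd : ∀ t, HasDerivAt (fun t => exp (E t) • γ t)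
      (exp (E t) • perp_EnLine (γ t) (γ' t) +
        (exp (E t) * (I * ((lam_EnLine (γ t) (γ' t)).im - w t : ℝ))) • γ t) t := fun t => by
    have h2 : HasDerivAt (fun t => ∫ s in a..t, w s) (w t) t :=
      (hw.integral_hasStrictDerivAt a t).hasDerivAt
    have h3 := ((hnn t).log (nn_pos_EnLine (hne t)).ne').const_mul (-(1 / 2) : ℝ)
    have h4 : HasDerivAt E _ t := (h2.ofReal_comp.const_mul I).fun_neg.fun_add h3.ofReal_comp
    refine (h4.cexp.smul (hγ t)).congr_deriv ?_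
    have h5 : ((-(1 / 2) * (2 * (her_EnLine (γ t) (γ' t)).re / nn_EnLine (γ t)) : ℝ) : ℂ) =
        -(lam_EnLine (γ t) (γ' t)).re := by
      rw [lam_EnLine, re_ofReal_mul, ← ofReal_neg]
      congr 1
      ring
    rw [h5, perp_EnLine, smul_sub, smul_smul, sub_add, ← sub_smul, sub_eq_add_neg, ← neg_smul]
    congr 2
    have h6 := Complex.re_add_im (lam_EnLine (γ t) (γ' t))
    push_cast
    linear_combination (-exp (E t)) * h6
  have h := norm_sub_le_integral_of_norm_deriv_le_of_le (f := fun t => exp (E t) • γ t) hab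
    (fun t _ => (hd t).continuousAt.continuousWithinAt)
    (fun t _ => (hd t).differentiableAt.differentiableWithinAt)
    (Eventually.of_forall fun t _ => by
      rw [(hd t).deriv]
      refine (norm_add_le _ _).trans (le_trans ?_ (hb t))
      rw [norm_smul, norm_smul, norm_mul, norm_mul, hn, norm_I, one_mul, Complex.norm_real,
        Real.norm_eq_abs, abs_sub_comm, mul_right_comm]
      exact add_le_add le_rfl (mul_le_of_le_one_left (abs_nonneg _) (rr_le_EnLine (hne t))))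
    (hk.intervalIntegrable a b)
  simp only [hE] at h
  simpa using h

lemma loop_EnLine {P Q R S : V} {t₁ t₂ t₃ t₄ L : ℝ} (hR : 1 / 2 ≤ ‖R‖)
    (h1 : ‖exp (-(I * t₁)) • Q - P‖ ≤ L) (h2 : ‖exp (-(I * t₂)) • R - S‖ ≤ L)
    (h3 : ‖exp (-(I * t₃)) • R - Q‖ ≤ L) (h4 : ‖exp (-(I * t₄)) • S - P‖ ≤ L) :
    ‖exp (I * (t₁ - t₂ + t₃ - t₄ : ℝ)) - 1‖ ≤ 8 * L := by
  have hu : ∀ t : ℝ, ‖exp (-(I * t))‖ = 1 := fun t => by simp [Complex.norm_exp]
  have e1 : (exp (-(I * t₁)) * exp (-(I * t₃)) * (exp (I * (t₁ - t₂ + t₃ - t₄ : ℝ)) - 1)) • R =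
      (exp (-(I * t₄)) • (exp (-(I * t₂)) • R - S) + (exp (-(I * t₄)) • S - P)) -
      (exp (-(I * t₁)) • (exp (-(I * t₃)) • R - Q) + (exp (-(I * t₁)) • Q - P)) := by
    have e2 : exp (-(I * t₁)) * exp (-(I * t₃)) * exp (I * (t₁ - t₂ + t₃ - t₄ : ℝ)) =
        exp (-(I * t₄)) * exp (-(I * t₂)) := by
      simp only [← exp_add]
      congr 1
      push_cast
      ring
    rw [mul_sub, e2]
    module
  have e3 := congrArg norm e1
  rw [norm_smul, norm_mul, norm_mul, hu, hu, one_mul, one_mul] at e3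
  have e4 := norm_sub_le
    (exp (-(I * t₄)) • (exp (-(I * t₂)) • R - S) + (exp (-(I * t₄)) • S - P))
    (exp (-(I * t₁)) • (exp (-(I * t₃)) • R - Q) + (exp (-(I * t₁)) • Q - P))
  have e5 := norm_add_le (exp (-(I * t₄)) • (exp (-(I * t₂)) • R - S)) (exp (-(I * t₄)) • S - P)
  have e6 := norm_add_le (exp (-(I * t₁)) • (exp (-(I * t₃)) • R - Q)) (exp (-(I * t₁)) • Q - P)
  rw [norm_smul, hu, one_mul] at e5 e6
  have e7 := mul_le_mul_of_nonneg_left hR (norm_nonneg (exp (I * (t₁ - t₂ + t₃ - t₄ : ℝ)) - 1))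
  linarith

lemma green_EnLine (hG : GreenStmt) {σ : Symp 1} {β : V → V →L[ℝ] ℝ} (hβ : Prim_EnLine σ β)
    {u : ℂ → V} (hu : ContDiff ℝ 1 u) (hne : ∀ z, u z ≠ 0) (hi : Integrable (dens σ u))
    {a b c d : ℝ} (hab : a ≤ b) (hcd : c ≤ d) :
    (∫ x in a..b, β (u (x + c * I)) (fderiv ℝ u (x + c * I) 1)) -
      (∫ x in a..b, β (u (x + d * I)) (fderiv ℝ u (x + d * I) 1)) +
      (∫ y in c..d, β (u (b + y * I)) (fderiv ℝ u (b + y * I) I)) -
      (∫ y in c..d, β (u (a + y * I)) (fderiv ℝ u (a + y * I) I)) =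
    ∫ z in Ioc a b ×ℂ Ioc c d, dens σ u z := by
  rw [hG V ℝ β {0}ᶜ u univ a b c d isOpen_compl_singleton hβ.c1 isOpen_univ hu.contDiffOn
    (fun z _ => hne z) hab hcd (fun _ _ _ _ => mem_univ _), ← (rect_EnLine hi hab hcd).1]
  simp only [hβ.dd _ (hne _), dens]

lemma cont_dens_EnLine (σ : Symp 1) {u : ℂ → V} (hu : ContDiff ℝ 1 u) (hne : ∀ z, u z ≠ 0) :
    Continuous (dens σ u) := by
  have h1 := hu.continuous_fderiv one_ne_zero
  have h2 : Continuous fun z => bil_EnLine (σ.form (u z)) (fderiv ℝ u z 1) (fderiv ℝ u z I) :=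
    ((bil_EnLine.continuous.comp (σ.isForm.smooth.continuousOn.comp_continuous hu.continuous
      hne)).clm_apply (h1.clm_apply continuous_const)).clm_apply (h1.clm_apply continuous_const)
  exact h2.congr fun z => bil_apply_EnLine _ _ _

lemma cont_beta_EnLine {σ : Symp 1} {β : V → V →L[ℝ] ℝ} (hβ : Prim_EnLine σ β) {u : ℂ → V}
    (hu : ContDiff ℝ 1 u) (hne : ∀ z, u z ≠ 0) (h : ℂ) :
    Continuous fun z => β (u z) (fderiv ℝ u z h) :=
  (hβ.c1.continuousOn.comp_continuous hu.continuous hne).clm_apply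
    ((hu.continuous_fderiv one_ne_zero).clm_apply continuous_const)

end Pool.Agent.MP_2fc7fa_gt.N
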