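import Pool.Agent.MP_2fc7fa_gt.N.IfB
import Pool.Agent.MP_2fc7fa_gt.N.EnLineB

/-! Energy of lines and of entire curves. -/

open scoped ContDiff ComplexConjugate Topology
open Set Complex Filter Metric MeasureTheory

noncomputable section

namespace Pool.Agent.MP_2fc7fa_gt.N

lemma side_EnLine {σ : Symp 1} {β : V → V →L[ℝ] ℝ} (hβ : Prim_EnLine σ β) {C c η R : ℝ}
    (hC0 : 0 ≤ C)
    (hC : ∀ x, x ≠ 0 → ∀ v, |β x v - (lam_EnLine x v).im| ≤ C * sp_EnLine x v)
    (hc : 0 < c) (hη : 0 < η) (hR : 0 < R) {u : ℂ → V} (hu : ContDiff ℝ 1 u)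
    (hne : ∀ z, u z ≠ 0) {e : ℂ → ℝ} (he : Continuous e) {h : ℂ}
    (hs : ∀ z, c * sp_EnLine (u z) (fderiv ℝ u z h) ^ 2 ≤ e z) {l : ℝ → ℂ}
    (hl : ∀ t, HasDerivAt l h t) (hint : R * ∫ t in -(2 * R)..2 * R, e (l t) ≤ c * η ^ 2)
    {a b : ℝ} (ha : -(2 * R) ≤ a) (hab : a ≤ b) (hb : b ≤ 2 * R) :
    ‖exp (-(I * (∫ t in a..b, β (u (l t)) (fderiv ℝ u (l t) h) : ℝ))) • nv_EnLine (u (l b)) -
      nv_EnLine (u (l a))‖ ≤ (1 + C) * (5 * η) := by
  have hlc : Continuous l := continuous_iff_continuousAt.2 fun t => (hl t).continuousAt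
  have hel : Continuous fun t => e (l t) := he.comp hlc
  have he0 : ∀ z, 0 ≤ e z := fun z => le_trans (by positivity) (hs z)
  refine (path_EnLine (γ := fun t => u (l t)) (γ' := fun t => fderiv ℝ u (l t) h)
    (w := fun t => β (u (l t)) (fderiv ℝ u (l t) h))
    (k := fun t => (1 + C) * (η / R + R / (η * c) * e (l t)))
    (fun t => ((hu.differentiable one_ne_zero) (l t)).hasFDerivAt.comp_hasDerivAt t (hl t))
    (fun t => hne _) ((cont_beta_EnLine hβ hu hne h).comp hlc) (by fun_prop) (fun t => ?_)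
    hab).trans ?_
  · have h1 := hC _ (hne (l t)) (fderiv ℝ u (l t) h)
    have h2 := hs (l t)
    have h3 := sp_nonneg_EnLine (u (l t)) (fderiv ℝ u (l t) h)
    generalize sp_EnLine (u (l t)) (fderiv ℝ u (l t) h) = s at h1 h2 h3
    have h4 : s ≤ η / R + R / (η * c) * e (l t) := by
      have h5 : R / (η * c) * (c * s ^ 2) ≤ R / (η * c) * e (l t) := by gcongr
      have h6 : η / R + R / (η * c) * (c * s ^ 2) - s =
          ((η - R * s) ^ 2 + η * R * s) / (η * R) := by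
        field_simp
        ring
      have h7 : 0 ≤ ((η - R * s) ^ 2 + η * R * s) / (η * R) := by positivity
      linarith
    nlinarith
  · rw [intervalIntegral.integral_const_mul, intervalIntegral.integral_add
      (continuous_const.intervalIntegrable _ _) ((hel.intervalIntegrable _ _).const_mul _),
      intervalIntegral.integral_const, intervalIntegral.integral_const_mul, smul_eq_mul]
    have h1 : ∫ t in a..b, e (l t) ≤ ∫ t in -(2 * R)..2 * R, e (l t) :=
      intervalIntegral.integral_mono_interval ha hab hb (Eventually.of_forall fun t => he0 _)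
        (hel.intervalIntegrable _ _)
    have h2 : (b - a) * (η / R) ≤ 4 * η := by
      have : (b - a) * (η / R) ≤ (4 * R) * (η / R) := by
        gcongr
        linarith
      refine this.trans (le_of_eq ?_)
      field_simp
    have h3 : R / (η * c) * ∫ t in a..b, e (l t) ≤ η := by
      rw [div_mul_eq_mul_div, div_le_iff₀ (by positivity)]
      nlinarith
    gcongr
    linarith

theorem enPlane (hG : GreenStmt) : EnPlaneStmt := by
  intro φ σ u hT hu hne hCR hi
  obtain ⟨β, hβ⟩ := prim_EnLine σ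
  obtain ⟨C, hC0, hC⟩ := bound_EnLine hβ
  obtain ⟨c, hc, hct⟩ := tame_EnLine hT
  have he := cont_dens_EnLine σ hu hne
  have h1 : ∀ z, c * sp_EnLine (u z) (fderiv ℝ u z 1) ^ 2 ≤ dens σ u z := fun z => by
    have h := hct _ (hne z) (fderiv ℝ u z 1)
    rwa [Fr.J, ← hCR z (mem_univ _), φ.BA _ (hne z), bil_apply_EnLine] at h
  have h2 : ∀ z, c * sp_EnLine (u z) (fderiv ℝ u z I) ^ 2 ≤ dens σ u z := fun z => by
    have h := hct _ (hne z) (fderiv ℝ u z I)
    rwa [Fr.J, hCR z (mem_univ _), smul_smul, I_mul_I, neg_one_smul, map_neg, φ.BA _ (hne z),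
      map_neg, ← bil_skew_EnLine, bil_apply_EnLine] at h
  have key : ∀ η : ℝ, 0 < η →
      ‖exp (I * (∫ z, dens σ u z : ℝ)) - 1‖ ≤ (1 + 40 * (1 + C)) * η := by
    intro η hη
    obtain ⟨R, hR1, hR⟩ := tail_EnLine hi (lt_min hη (by positivity : 0 < c * η ^ 2))
    have hR0 : 0 < R := by linarith
    have h22 : -(2 * R) ≤ 2 * R := by linarith
    have pH : ∀ p : ℝ, (∀ y ∈ Ioc p (p + R), R ≤ |y|) → ∃ d ∈ Icc p (p + R),
        R * ∫ t in -(2 * R)..2 * R, dens σ u (t + d * I) ≤ c * η ^ 2 := fun p hp => by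
      refine pick_EnLine (intervalIntegral.continuous_parametric_intervalIntegral_of_continuous'
        (f := fun y t : ℝ => dens σ u (t + y * I)) (he.comp (by fun_prop)) _ _) hR0 ?_
      rw [(rect_EnLine hi h22 (by linarith)).2]
      exact (hR _ fun z hz => (hp _ hz.2).trans (Complex.abs_im_le_norm z)).trans (min_le_right _ _)
    have pV : ∀ p : ℝ, (∀ y ∈ Ioc p (p + R), R ≤ |y|) → ∃ d ∈ Icc p (p + R),
        R * ∫ t in -(2 * R)..2 * R, dens σ u (d + t * I) ≤ c * η ^ 2 := fun p hp => by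
      refine pick_EnLine (intervalIntegral.continuous_parametric_intervalIntegral_of_continuous'
        (f := fun x t : ℝ => dens σ u (x + t * I)) (he.comp (by fun_prop)) _ _) hR0 ?_
      rw [(rect_EnLine hi (by linarith) h22).1]
      exact (hR _ fun z hz => (hp _ hz.1).trans (Complex.abs_re_le_norm z)).trans (min_le_right _ _)
    have q1 : ∀ y ∈ Ioc R (R + R), R ≤ |y| := fun y hy => hy.1.le.trans (le_abs_self y)
    have q2 : ∀ y ∈ Ioc (-(2 * R)) (-(2 * R) + R), R ≤ |y| := fun y hy =>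
      le_trans (by linarith [hy.2]) (neg_le_abs y)
    obtain ⟨d, hd, hd'⟩ := pH _ q1
    obtain ⟨c', hc', hc''⟩ := pH _ q2
    obtain ⟨b, hb, hb'⟩ := pV _ q1
    obtain ⟨a, ha, ha'⟩ := pV _ q2
    have hab : a ≤ b := by linarith [ha.2, hb.1]
    have hcd : c' ≤ d := by linarith [hc'.2, hd.1]
    have lH : ∀ (y t : ℝ), HasDerivAt (fun t : ℝ => (t + y * I : ℂ)) 1 t := fun y t =>
      (hasDerivAt_id t).ofReal_comp.add_const _
    have lV : ∀ (x t : ℝ), HasDerivAt (fun t : ℝ => (x + t * I : ℂ)) I t := fun x t => by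
      simpa using ((hasDerivAt_id t).ofReal_comp.mul_const I).const_add (x : ℂ)
    have s1 := side_EnLine hβ hC0 hC hc hη hR0 hu hne he h1 (lH c') hc'' ha.1 hab
      (by linarith [hb.2])
    have s2 := side_EnLine hβ hC0 hC hc hη hR0 hu hne he h1 (lH d) hd' ha.1 hab
      (by linarith [hb.2])
    have s3 := side_EnLine hβ hC0 hC hc hη hR0 hu hne he h2 (lV b) hb' hc'.1 hcd
      (by linarith [hd.2])
    have s4 := side_EnLine hβ hC0 hC hc hη hR0 hu hne he h2 (lV a) ha' hc'.1 hcd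
      (by linarith [hd.2])
    have s5 := loop_EnLine (nv_norm_EnLine (hne _)) s1 s2 s3 s4
    rw [green_EnLine hG hβ hu hne hi hab hcd] at s5
    have s6 := (big_EnLine hi hR (a := a) (c := c') (by linarith [ha.2]) hb.1
      (by linarith [hc'.2]) hd.1).trans (min_le_left _ _)
    generalize (∫ z in Ioc a b ×ℂ Ioc c' d, dens σ u z) = E₀ at s5 s6
    generalize (∫ z, dens σ u z) = E at s6
    have s7 : exp (I * E) - 1 = exp (I * E₀) * (exp (I * (E - E₀ : ℝ)) - 1) + (exp (I * E₀) - 1) := by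
      rw [mul_sub, ← exp_add]
      push_cast
      ring_nf
    have s8 := Real.norm_exp_I_mul_ofReal_sub_one_le (x := E - E₀)
    rw [s7]
    refine (norm_add_le _ _).trans ?_
    rw [norm_mul, Complex.norm_exp_I_mul_ofReal, one_mul]
    rw [Real.norm_eq_abs] at s8
    linarith
  have h3 : exp (I * (∫ z, dens σ u z : ℝ)) = 1 := by
    rw [← sub_eq_zero, ← norm_le_zero_iff]
    refine le_of_forall_pos_le_add fun ε hε => ?_
    have h4 := key (ε / (1 + 40 * (1 + C))) (by positivity)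
    rwa [mul_div_cancel₀ _ (by positivity), ← zero_add ε] at h4
  obtain ⟨n, hn⟩ := Complex.exp_eq_one_iff.1 h3
  refine ⟨n, ?_⟩
  have h5 := congrArg Complex.im hn
  simp at h5
  linarith

lemma far_EnLine {φ : Fr} {U : W → V} (hU : IsLine φ.J U) :
    ∃ (Y : ℂ → V) (M : ℝ), Continuous Y ∧ (∀ w, Y w ≠ 0) ∧ 0 ≤ M ∧ ∀ z : ℂ, 1 ≤ ‖z‖ →
      U (1, z) = z • Y z⁻¹ ∧ ∀ h : ℂ, ∃ v : V, ‖v‖ ≤ M * ‖h‖ / ‖z‖ ^ 2 ∧
        fderiv ℝ (fun z => U (1, z)) z h = z • ((h / z) • Y z⁻¹ + v) := by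
  have hY : ContDiff ℝ 1 fun w : ℂ => U (w, 1) :=
    hU.c1.comp_contDiff (by fun_prop) fun w => by simp
  obtain ⟨M, hM⟩ := (isCompact_closedBall (0 : ℂ) 1).exists_bound_of_continuousOn
    (hY.continuous_fderiv one_ne_zero).continuousOn
  have h0 : ∀ z : ℂ, z ≠ 0 → U (1, z) = z • U (z⁻¹, 1) := fun z hz => by
    rw [← hU.hom]
    simp [hz]
  refine ⟨fun w => U (w, 1), M, hY.continuous, fun w => hU.ne _ (by simp),
    (norm_nonneg _).trans (hM 0 (by simp)), fun z hz => ?_⟩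
  have hz0 : z ≠ 0 := by
    rintro rfl
    norm_num at hz
  refine ⟨h0 z hz0, fun h => ⟨fderiv ℝ (fun w : ℂ => U (w, 1)) z⁻¹ (h * -(z ^ 2)⁻¹), ?_, ?_⟩⟩
  · refine (ContinuousLinearMap.le_opNorm _ _).trans ?_
    rw [norm_mul, norm_neg, norm_inv, norm_pow, mul_div_assoc, div_eq_mul_inv]
    gcongr
    refine hM _ ?_
    rw [mem_closedBall_zero_iff, norm_inv]
    exact inv_le_one_of_one_le₀ hz
  · have h1 := ((hasDerivAt_inv hz0).hasFDerivAt.restrictScalars ℝ)
    have h2 := ((hY.differentiable one_ne_zero) z⁻¹).hasFDerivAt.comp z h1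
    have h3 := (hasFDerivAt_id (𝕜 := ℝ) z).smul h2
    have h4 : (fun z => U (1, z)) =ᶠ[𝓝 z] fun z : ℂ => z • U (z⁻¹, 1) :=
      (isOpen_ne.eventually_mem hz0).mono fun w hw => h0 w hw
    rw [(h3.congr_of_eventuallyEq h4).fderiv, smul_add, smul_smul, mul_div_cancel₀ _ hz0, add_comm]
    simp

theorem enLine (hG : GreenStmt) : EnLineStmt := by
  intro φ σ U hU
  obtain ⟨β, hβ⟩ := prim_EnLine σ
  obtain ⟨Y, M, hY, hY0, hM, hfar⟩ := far_EnLine hU
  have hu : ContDiff ℝ 1 fun z : ℂ => U (1, z) :=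
    hU.c1.comp_contDiff (by fun_prop) fun w => by simp
  have hne : ∀ z : ℂ, U (1, z) ≠ 0 := fun z => hU.ne _ (by simp)
  have he := cont_dens_EnLine σ hu hne
  have hball : ∀ z : ℂ, 1 ≤ ‖z‖ → z⁻¹ ∈ closedBall (0 : ℂ) 1 := fun z hz => by
    rw [mem_closedBall_zero_iff, norm_inv]
    exact inv_le_one_of_one_le₀ hz
  have hz0 : ∀ z : ℂ, 1 ≤ ‖z‖ → z ≠ 0 := by
    rintro z hz rfl
    norm_num at hz
  obtain ⟨C₁, hC₁⟩ := (isCompact_closedBall (0 : ℂ) 1).exists_bound_of_continuousOn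
    (hβ.c1.continuousOn.comp_continuous hY hY0).continuousOn
  obtain ⟨C₂, hC₂⟩ := (isCompact_closedBall (0 : ℂ) 1).exists_bound_of_continuousOn
    (σ.isForm.smooth.continuousOn.comp_continuous hY hY0).continuousOn
  have hC₁0 : 0 ≤ C₁ := (norm_nonneg _).trans (hC₁ 0 (by simp))
  have hC₂0 : 0 ≤ C₂ := (norm_nonneg _).trans (hC₂ 0 (by simp))
  have hi : Integrable (dens σ fun z => U (1, z)) := by
    refine he.locallyIntegrable.integrable_of_isBigO_cocompact
      (g := fun z : ℂ => (1 + ‖z‖) ^ (-(4 : ℝ))) ?_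
      ((integrable_one_add_norm (by simp; norm_num)).integrableAtFilter _)
    refine Asymptotics.IsBigO.of_bound (16 * C₂ * M ^ 2)
      (((tendsto_norm_cocompact_atTop (E := ℂ)).eventually_ge_atTop 1).mono fun z hz => ?_)
    obtain ⟨h1, h2⟩ := hfar z hz
    obtain ⟨v, hv, hv'⟩ := h2 1
    obtain ⟨w, hw, hw'⟩ := h2 I
    have h3 : dens σ (fun z => U (1, z)) z = bil_EnLine (σ.form (Y z⁻¹)) v w := by
      rw [dens, ← bil_apply_EnLine, hv', hw', h1, bil_scale_EnLine σ (hz0 z hz)]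
      simp only [map_add, add_apply, bil_left_EnLine, bil_right_EnLine, zero_add]
    rw [norm_one, mul_one] at hv
    rw [norm_I, mul_one] at hw
    have h4 : ‖bil_EnLine (σ.form (Y z⁻¹)) v w‖ ≤ C₂ * (M / ‖z‖ ^ 2) * (M / ‖z‖ ^ 2) := by
      rw [bil_apply_EnLine, mul_assoc]
      refine (ContinuousAlternatingMap.le_opNorm _ _).trans ?_
      rw [Fin.prod_univ_two]
      exact mul_le_mul (hC₂ _ (hball z hz)) (mul_le_mul hv hw (norm_nonneg _) (by positivity))
        (by positivity) hC₂0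
    have h5 : ‖(1 + ‖z‖) ^ (-(4 : ℝ))‖ = ((1 + ‖z‖) ^ 4)⁻¹ := by
      rw [Real.norm_of_nonneg (by positivity), Real.rpow_neg (by positivity)]
      norm_cast
    have h6 : (1 + ‖z‖) ^ 4 ≤ (2 * ‖z‖) ^ 4 := by
      gcongr
      linarith
    rw [h3, h5]
    refine h4.trans ?_
    calc C₂ * (M / ‖z‖ ^ 2) * (M / ‖z‖ ^ 2) = 16 * C₂ * M ^ 2 * ((2 * ‖z‖) ^ 4)⁻¹ := by
          field_simp
          ring
      _ ≤ _ := by gcongr
  refine ⟨hi, ?_⟩
  have hs : ∀ z h : ℂ, 1 ≤ ‖z‖ → ‖h‖ = 1 →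
      |β (U (1, z)) (fderiv ℝ (fun z => U (1, z)) z h) - (h / z).im| ≤ C₁ * M / ‖z‖ ^ 2 := by
    intro z h hz hh
    obtain ⟨h1, h2⟩ := hfar z hz
    obtain ⟨v, hv, hv'⟩ := h2 h
    rw [hv', h1, hβ.scale _ (hY0 _) _ (hz0 z hz), map_add, hβ.vert _ (hY0 _), add_sub_cancel_left,
      ← Real.norm_eq_abs, mul_div_assoc]
    rw [hh, mul_one] at hv
    refine (ContinuousLinearMap.le_opNorm _ _).trans ?_
    gcongr
    exact hC₁ _ (hball z hz)
  have hside : ∀ (R s : ℝ) (l : ℝ → ℂ) (h : ℂ), 1 ≤ R → Continuous l → ‖h‖ = 1 →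
      (∀ t, R ≤ ‖l t‖) → (∀ t, (h / l t).im = s * (R / (R ^ 2 + t ^ 2))) →
      |(∫ t in (-R)..R, β (U (1, l t)) (fderiv ℝ (fun z => U (1, z)) (l t) h)) -
        s * (Real.pi / 2)| ≤ 2 * (C₁ * M / R) := by
    intro R s l h hR hl hh hlR him
    have hR0 : 0 < R := by linarith
    have h1 : ∫ t in (-R)..R, s * (R / (R ^ 2 + t ^ 2)) = s * (Real.pi / 2) := by
      rw [intervalIntegral.integral_const_mul, integral_div_sq_add_sq, neg_div, div_self hR0.ne',
        Real.arctan_neg, Real.arctan_one]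
      ring
    have h2 : Continuous fun t : ℝ => s * (R / (R ^ 2 + t ^ 2)) :=
      continuous_const.mul (continuous_const.div (by fun_prop) fun t => by positivity)
    have h3 : Continuous fun t => β (U (1, l t)) (fderiv ℝ (fun z => U (1, z)) (l t) h) :=
      (cont_beta_EnLine hβ hu hne h).comp hl
    rw [← h1, ← intervalIntegral.integral_sub (h3.intervalIntegrable _ _)
      (h2.intervalIntegrable _ _), ← Real.norm_eq_abs]
    refine (intervalIntegral.norm_integral_le_of_norm_le_const (C := C₁ * M / R ^ 2)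
      fun t _ => ?_).trans (le_of_eq ?_)
    · rw [← him, Real.norm_eq_abs]
      refine (hs _ _ (hR.trans (hlR t)) hh).trans ?_
      gcongr
      exact hlR t
    · rw [abs_of_pos (by linarith)]
      field_simp
      ring
  refine eq_of_forall_dist_le fun ε hε => ?_
  obtain ⟨R₀, hR₀, hR⟩ := tail_EnLine hi (half_pos hε)
  obtain ⟨R, hR1, hR2⟩ : ∃ R, R₀ ≤ R ∧ C₁ * M / R ≤ ε / 16 := by
    refine ⟨max R₀ (16 * (C₁ * M) / ε), le_max_left _ _, ?_⟩
    rw [div_le_iff₀ (lt_max_of_lt_left (by linarith))]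
    have := mul_le_mul_of_nonneg_left (le_max_right R₀ (16 * (C₁ * M) / ε))
      (by positivity : 0 ≤ ε / 16)
    refine le_trans (le_of_eq ?_) this
    field_simp
  have hR3 : 1 ≤ R := hR₀.trans hR1
  have hR0 : 0 < R := by linarith
  have hRR : -R ≤ R := by linarith
  have s1 := hside R 1 (fun t => t + (-R : ℝ) * I) 1 hR3 (by fun_prop) norm_one
    (fun t => le_trans (by simp [abs_of_pos hR0]) (Complex.abs_im_le_norm _))
    (fun t => by simp [Complex.normSq_apply]; ring)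
  have s2 := hside R (-1) (fun t => t + R * I) 1 hR3 (by fun_prop) norm_one
    (fun t => le_trans (by simp [abs_of_pos hR0]) (Complex.abs_im_le_norm _))
    (fun t => by simp [Complex.normSq_apply]; ring)
  have s3 := hside R 1 (fun t => R + t * I) I hR3 (by fun_prop) norm_I
    (fun t => le_trans (by simp [abs_of_pos hR0]) (Complex.abs_re_le_norm _))
    (fun t => by simp [Complex.div_im, Complex.normSq_apply]; ring)
  have s4 := hside R (-1) (fun t => (-R : ℝ) + t * I) I hR3 (by fun_prop) norm_I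
    (fun t => le_trans (by simp [abs_of_pos hR0]) (Complex.abs_re_le_norm _))
    (fun t => by simp [Complex.div_im, Complex.normSq_apply]; ring)
  have s5 := green_EnLine hG hβ hu hne hi hRR hRR
  have s6 := big_EnLine hi hR (a := -R) (b := R) (c := -R) (d := R) (by linarith) hR1
    (by linarith) hR1
  rw [← s5] at s6
  rw [Real.dist_eq]
  rw [abs_le] at s1 s2 s3 s4 s6 ⊢
  constructor <;> linarith [s1.1, s1.2, s2.1, s2.2, s3.1, s3.2, s4.1, s4.2, s6.1, s6.2]

end Pool.Agent.MP_2fc7fa_gt.N
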