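import Pool.Agent.MP_2fc7fa_gt.N.IfB

/-! Uniform bounds and moduli of continuity for families of functions on discs. -/

open scoped ContDiff Topology
open Set Complex Filter Metric MeasureTheory

noncomputable section

namespace Pool.Agent.MP_2fc7fa_gt.N

/-- Uniformly bounded, with a uniform modulus of continuity `w`. -/
def UB_Est {T E : Type} [NormedAddCommGroup E] (w : ℝ → ℝ) (S : T → Set ℂ) (f : T → ℂ → E) :
    Prop :=
  ∃ K : ℝ, 0 ≤ K ∧ ∀ t, (∀ z ∈ S t, ‖f t z‖ ≤ K) ∧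
    ∀ z ∈ S t, ∀ z' ∈ S t, ‖f t z - f t z'‖ ≤ K * w ‖z - z'‖

variable {T E F : Type} [NormedAddCommGroup E] [NormedAddCommGroup F] {w : ℝ → ℝ}
  {S S' : T → Set ℂ}

theorem ub_mk_Est {f : T → ℂ → E} (hw : ∀ d, 0 ≤ d → 0 ≤ w d) (K K' : ℝ) (hK : 0 ≤ K)
    (hK' : 0 ≤ K') (h : ∀ t, ∀ z ∈ S t, ‖f t z‖ ≤ K)
    (h' : ∀ t, ∀ z ∈ S t, ∀ z' ∈ S t, ‖f t z - f t z'‖ ≤ K' * w ‖z - z'‖) : UB_Est w S f :=
  ⟨K + K', add_nonneg hK hK', fun t => ⟨fun z hz => (h t z hz).trans (le_add_of_nonneg_right hK'),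
    fun z hz z' hz' => (h' t z hz z' hz').trans
      (mul_le_mul_of_nonneg_right (le_add_of_nonneg_left hK) (hw _ (norm_nonneg _)))⟩⟩

theorem UB_Est.mono {f : T → ℂ → E} (h : UB_Est w S f) (hS : ∀ t, S' t ⊆ S t) :
    UB_Est w S' f := by
  obtain ⟨K, h0, h⟩ := h
  exact ⟨K, h0, fun t => ⟨fun z hz => (h t).1 z (hS t hz),
    fun z hz z' hz' => (h t).2 z (hS t hz) z' (hS t hz')⟩⟩

theorem UB_Est.congr {f g : T → ℂ → E} (h : UB_Est w S f) (e : ∀ t, ∀ z ∈ S t, g t z = f t z) :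
    UB_Est w S g := by
  obtain ⟨K, h0, h⟩ := h
  refine ⟨K, h0, fun t => ⟨fun z hz => ?_, fun z hz z' hz' => ?_⟩⟩
  · rw [e t z hz]
    exact (h t).1 z hz
  · rw [e t z hz, e t z' hz']
    exact (h t).2 z hz z' hz'

theorem UB_Est.add {f g : T → ℂ → E} (h : UB_Est w S f) (h' : UB_Est w S g) :
    UB_Est w S fun t z => f t z + g t z := by
  obtain ⟨K, h0, h⟩ := h
  obtain ⟨K', h0', h'⟩ := h'
  refine ⟨K + K', add_nonneg h0 h0', fun t => ⟨fun z hz =>
    (norm_add_le _ _).trans (add_le_add ((h t).1 z hz) ((h' t).1 z hz)), fun z hz z' hz' => ?_⟩⟩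
  rw [add_sub_add_comm, add_mul]
  exact (norm_add_le _ _).trans (add_le_add ((h t).2 z hz z' hz') ((h' t).2 z hz z' hz'))

theorem UB_Est.sqrt {f : T → ℂ → E} (h : UB_Est id S f) : UB_Est Real.sqrt S f := by
  obtain ⟨K, h0, h⟩ := h
  refine ub_mk_Est (fun d _ => Real.sqrt_nonneg d) K (2 * K) h0 (by positivity)
    (fun t => (h t).1) fun t z hz z' hz' => ?_
  have hs := Real.sqrt_nonneg ‖z - z'‖
  by_cases hd : ‖z - z'‖ ≤ 1
  · have h1 : ‖z - z'‖ ≤ √‖z - z'‖ := by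
      refine Real.le_sqrt_of_sq_le ?_
      nlinarith [norm_nonneg (z - z')]
    have h2 := (h t).2 z hz z' hz'
    rw [id] at h2
    nlinarith
  · have h1 : 1 ≤ √‖z - z'‖ := Real.one_le_sqrt.2 (not_le.1 hd).le
    have h2 := norm_sub_le (f t z) (f t z')
    have h3 := (h t).1 z hz
    have h4 := (h t).1 z' hz'
    nlinarith

section
variable [NormedSpace ℝ E] [NormedSpace ℝ F]

theorem UB_Est.clm {f : T → ℂ → E} (h : UB_Est w S f) (L : E →L[ℝ] F) :
    UB_Est w S fun t z => L (f t z) := by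
  obtain ⟨K, h0, h⟩ := h
  refine ⟨‖L‖ * K, by positivity, fun t => ⟨fun z hz => L.le_of_opNorm_le_of_le le_rfl
    ((h t).1 z hz), fun z hz z' hz' => ?_⟩⟩
  rw [← map_sub, mul_assoc]
  exact L.le_of_opNorm_le_of_le le_rfl ((h t).2 z hz z' hz')

theorem UB_Est.app {f : T → ℂ → E →L[ℝ] F} {g : T → ℂ → E} (h : UB_Est w S f)
    (h' : UB_Est w S g) (hw : ∀ d, 0 ≤ d → 0 ≤ w d) : UB_Est w S fun t z => f t z (g t z) := by
  obtain ⟨K, h0, h⟩ := h
  obtain ⟨K', h0', h'⟩ := h'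
  refine ub_mk_Est hw (K * K') (2 * (K * K')) (by positivity) (by positivity)
    (fun t z hz => (f t z).le_of_opNorm_le_of_le ((h t).1 z hz) ((h' t).1 z hz))
    fun t z hz z' hz' => ?_
  have e : f t z (g t z) - f t z' (g t z') = f t z (g t z - g t z') + (f t z - f t z') (g t z') := by
    rw [map_sub, sub_apply]
    abel
  have h1 := (f t z).le_of_opNorm_le_of_le ((h t).1 z hz) ((h' t).2 z hz z' hz')
  have h2 := (f t z - f t z').le_of_opNorm_le_of_le ((h t).2 z hz z' hz') ((h' t).1 z' hz')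
  rw [e]
  refine (norm_add_le _ _).trans ?_
  linarith

theorem ub_deriv_Est {f : T → ℂ → E} {c : T → ℂ} {R : ℝ} (K K' : ℝ) (hK : 0 ≤ K) (hK' : 0 ≤ K')
    (h : ∀ t, ∀ z ∈ ball (c t) R,
      ‖f t z‖ ≤ K ∧ DifferentiableAt ℝ (f t) z ∧ ‖fderiv ℝ (f t) z‖ ≤ K') :
    UB_Est id (fun t => ball (c t) R) f :=
  ub_mk_Est (fun _ hd => hd) K K' hK hK' (fun t z hz => (h t z hz).1) fun t _ hz _ hz' =>
    (convex_ball (c t) R).norm_image_sub_le_of_norm_fderiv_le (fun z hz => (h t z hz).2.1)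
      (fun z hz => (h t z hz).2.2) hz' hz

end

theorem ub_hol_Est [NormedSpace ℂ E] {f : T → ℂ → E} {c : T → ℂ} {R R' : ℝ} (hR : R' < R) (K : ℝ)
    (hK : 0 ≤ K) (hd : ∀ t, DifferentiableOn ℂ (f t) (ball (c t) R))
    (h : ∀ t, ∀ z ∈ ball (c t) R, ‖f t z‖ ≤ K) : UB_Est id (fun t => ball (c t) R') f := by
  have hδ : 0 < R - R' := sub_pos.2 hR
  have hb : ∀ t, ∀ z ∈ ball (c t) R, ∀ z' ∈ ball (c t) R, ‖f t z - f t z'‖ ≤ 2 * K :=
    fun t z hz z' hz' => (norm_sub_le _ _).trans (by linarith [h t z hz, h t z' hz'])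
  refine ub_mk_Est (fun _ hd => hd) K (2 * K / (R - R')) hK (by positivity)
    (fun t z hz => h t z (ball_subset_ball hR.le hz)) fun t z hz z' hz' => ?_
  by_cases hzz : ‖z - z'‖ < R - R'
  · have hs : ball z' (R - R') ⊆ ball (c t) R :=
      ball_subset_ball' (by linarith [mem_ball.1 hz'])
    have h1 := dist_le_div_mul_dist_of_mapsTo_ball (R₂ := 2 * K) ((hd t).mono hs)
      (fun y hy => mem_closedBall_iff_norm.2 (hb t y (hs hy) z' (ball_subset_ball hR.le hz')))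
      (mem_ball_iff_norm.2 hzz)
    rwa [dist_eq_norm, dist_eq_norm] at h1
  · refine (hb t z (ball_subset_ball hR.le hz) z' (ball_subset_ball hR.le hz')).trans ?_
    rw [id, div_mul_eq_mul_div, le_div_iff₀ hδ]
    exact mul_le_mul_of_nonneg_left (not_lt.1 hzz) (by positivity)

theorem hol_cont_Est {h : ℂ → E} {K : ℝ} (hh : Hol K h univ) : Continuous h := by
  refine continuous_iff_continuousAt.2 fun z => tendsto_iff_norm_sub_tendsto_zero.2 ?_
  have h1 : Tendsto (fun y : ℂ => K * √‖y - z‖) (𝓝 z) (𝓝 (K * √‖z - z‖)) :=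
    Continuous.tendsto (by fun_prop) z
  rw [sub_self, norm_zero, Real.sqrt_zero, mul_zero] at h1
  exact squeeze_zero (fun _ => norm_nonneg _) (fun y => hh y trivial z trivial) h1

theorem cut_Est (c : T → ℂ) {R R' : ℝ} (hR : R' < R) : ∃ χ : T → ℂ → ℝ,
    UB_Est Real.sqrt (fun _ => univ) χ ∧ (∀ t, ∀ z ∈ ball (c t) R', χ t z = 1) ∧
      ∀ t z, z ∉ ball (c t) R → χ t z = 0 := by
  have hδ : 0 < R - R' := sub_pos.2 hR
  refine ⟨fun t z => max (min ((R - ‖z - c t‖) / (R - R')) 1) 0, UB_Est.sqrt ?_,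
    fun t z hz => ?_, fun t z hz => ?_⟩
  · refine ub_mk_Est (fun _ hd => hd) 1 (1 / (R - R')) zero_le_one (by positivity)
      (fun t z _ => ?_) fun t z _ z' _ => ?_
    · rw [Real.norm_of_nonneg (le_max_right _ _)]
      exact max_le (min_le_right _ _) zero_le_one
    · refine (abs_max_sub_max_le_abs _ _ _).trans ((abs_min_sub_min_le_max _ _ _ _).trans ?_)
      rw [sub_self, abs_zero, max_eq_left (abs_nonneg _), ← sub_div, abs_div, abs_of_pos hδ, id,
        one_div_mul_eq_div, sub_sub_sub_cancel_left, abs_sub_comm]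
      refine div_le_div_of_nonneg_right ((abs_norm_sub_norm_le _ _).trans_eq ?_) hδ.le
      rw [sub_sub_sub_cancel_right]
  · have h1 : 1 ≤ (R - ‖z - c t‖) / (R - R') := by
      rw [le_div_iff₀ hδ]
      linarith [mem_ball_iff_norm.1 hz]
    simp only [min_eq_right h1, max_eq_left zero_le_one]
  · have h1 : (R - ‖z - c t‖) / (R - R') ≤ 0 :=
      div_nonpos_of_nonpos_of_nonneg (sub_nonpos.2 (not_lt.1 (mt mem_ball_iff_norm.2 hz))) hδ.le
    exact max_eq_right ((min_le_left _ _).trans h1)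

theorem UB_Est.cut [NormedSpace ℝ E] {f : T → ℂ → E} {χ : T → ℂ → ℝ} (h : UB_Est w S f)
    (hχ : UB_Est w (fun _ => univ) χ) (h0 : ∀ t z, z ∉ S t → χ t z = 0)
    (hw : ∀ d, 0 ≤ d → 0 ≤ w d) : UB_Est w (fun _ => univ) fun t z => χ t z • f t z := by
  obtain ⟨K, k0, hK⟩ := ((hχ.mono fun t => subset_univ (S t)).clm
    (ContinuousLinearMap.lsmul ℝ ℝ : ℝ →L[ℝ] E →L[ℝ] E)).app h hw
  obtain ⟨K1, k1, hK1⟩ := h
  obtain ⟨K2, k2, hK2⟩ := hχ
  have key : ∀ t, ∀ z ∈ S t, ∀ z', z' ∉ S t →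
      ‖χ t z • f t z - χ t z' • f t z'‖ ≤ (K + K2 * K1) * w ‖z - z'‖ := by
    intro t z hz z' hz'
    have h1 := (hK2 t).2 z trivial z' trivial
    have h2 := hw _ (norm_nonneg (z - z'))
    rw [h0 t z' hz', sub_zero] at h1
    rw [h0 t z' hz', zero_smul, sub_zero, norm_smul]
    calc _ ≤ K2 * w ‖z - z'‖ * K1 := mul_le_mul h1 ((hK1 t).1 z hz) (norm_nonneg _) (by positivity)
      _ ≤ _ := by nlinarith
  refine ub_mk_Est hw K (K + K2 * K1) k0 (by positivity) (fun t z _ => ?_) fun t z _ z' _ => ?_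
  · by_cases hz : z ∈ S t
    · exact (hK t).1 z hz
    · rwa [h0 t z hz, zero_smul, norm_zero]
  · have h2 := hw _ (norm_nonneg (z - z'))
    by_cases hz : z ∈ S t <;> by_cases hz' : z' ∈ S t
    · exact ((hK t).2 z hz z' hz').trans
        (mul_le_mul_of_nonneg_right (le_add_of_nonneg_right (by positivity)) h2)
    · exact key t z hz z' hz'
    · rw [norm_sub_rev, norm_sub_rev z]
      exact key t z' hz' z hz
    · rw [h0 t z hz, h0 t z' hz', zero_smul, zero_smul, sub_zero, norm_zero]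
      positivity

section
variable [NormedSpace ℂ E] [CompleteSpace E]

theorem stepA_Est (h1 : T1Stmt) (h2 : T2Stmt) {τ Γ : T → ℂ → E} {c : T → ℂ} {R R' : ℝ}
    (h0 : 0 < R) (hR : R' < R) (K K' : ℝ) (hK : 0 ≤ K) (hK' : 0 ≤ K')
    (hτ : ∀ t, ContDiffOn ℝ 1 (τ t) (ball (c t) R)) (hΓ : ∀ t, ContinuousOn (Γ t) (ball (c t) R))
    (h : ∀ t, ∀ z ∈ ball (c t) R, ‖τ t z‖ ≤ K ∧ ‖Γ t z‖ ≤ K' ∧ dbar (τ t) z = Γ t z) :
    UB_Est Real.sqrt (fun t => ball (c t) R') τ := by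
  obtain ⟨C, c0, hC⟩ := h1
  have hb : ∀ t, Bdd ((ball (c t) R).indicator (Γ t)) (c t) R K' := fun t =>
    ⟨(aestronglyMeasurable_indicator_iff measurableSet_ball).2
      ((hΓ t).aestronglyMeasurable measurableSet_ball), fun z => by
        by_cases hz : z ∈ ball (c t) R
        · rw [indicator_of_mem hz]
          exact (h t z hz).2.1
        · rwa [indicator_of_notMem hz, norm_zero],
      fun z hz => indicator_of_notMem (fun hz' => (mem_ball_iff_norm.1 hz').not_ge hz) _⟩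
  have a1 : UB_Est Real.sqrt (fun t => ball (c t) R')
      fun t => cT ((ball (c t) R).indicator (Γ t)) :=
    ub_mk_Est (fun d _ => Real.sqrt_nonneg d) (C * R * K') (C * √R * K') (by positivity)
      (by positivity) (fun t z _ => (hC E _ _ R K' h0 (hb t)).1 z)
      fun t z _ z' _ => (hC E _ _ R K' h0 (hb t)).2 z trivial z' trivial
  have a2 := ub_hol_Est (f := fun t z => τ t z - cT ((ball (c t) R).indicator (Γ t)) z) hR
    (K + C * R * K') (by positivity)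
    (fun t => h2 E _ _ _ R K' _ (hb t) isOpen_ball (hτ t) fun z hz => by
      rw [indicator_of_mem hz, (h t z hz).2.2])
    fun t z hz => (norm_sub_le _ _).trans (add_le_add (h t z hz).1 ((hC E _ _ R K' h0 (hb t)).1 z))
  exact (a2.sqrt.add a1).congr fun t z _ => (sub_add_cancel _ _).symm

theorem stepB_Est (h1 : T1Stmt) (h2 : T2Stmt) (h3 : T3Stmt) {τ Γ : T → ℂ → E} {c : T → ℂ}
    {R R' : ℝ} (h0 : 0 < R) (hR : R' < R) (K : ℝ) (hK : 0 ≤ K)
    (hτ : ∀ t, ContDiffOn ℝ 1 (τ t) (ball (c t) R))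
    (hΓ : UB_Est Real.sqrt (fun t => ball (c t) R) Γ)
    (h : ∀ t, ∀ z ∈ ball (c t) R, ‖τ t z‖ ≤ K ∧ dbar (τ t) z = Γ t z) :
    UB_Est id (fun t => ball (c t) R') τ := by
  obtain ⟨C, c0, hC⟩ := h1
  obtain ⟨C', c0', hC'⟩ := h3 R h0
  have r1 : (R + R') / 2 < R := by linarith
  obtain ⟨χ, x1, x2, x3⟩ := cut_Est c r1
  obtain ⟨K', hK', hb'⟩ := hΓ.cut x1 x3 fun d _ => Real.sqrt_nonneg d
  have hh : ∀ t, Hol K' (fun z => χ t z • Γ t z) univ := fun t => (hb' t).2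
  have hb : ∀ t, Bdd (fun z => χ t z • Γ t z) (c t) R K' := fun t =>
    ⟨(hol_cont_Est (hh t)).aestronglyMeasurable, fun z => (hb' t).1 z trivial, fun z hz => by
      beta_reduce
      rw [x3 t z fun hz' => (mem_ball_iff_norm.1 hz').not_ge hz, zero_smul]⟩
  have a1 : UB_Est id (fun t => ball (c t) R') fun t => cT fun z => χ t z • Γ t z :=
    ub_deriv_Est (C * R * K') (C' * (K' + K')) (by positivity) (by positivity) fun t z _ =>
      ⟨(hC E _ _ R K' h0 (hb t)).1 z,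
        (hC' E _ _ K' K' (hb t) hK' (hh t)).1.differentiable one_ne_zero z,
        (hC' E _ _ K' K' (hb t) hK' (hh t)).2.2.1 z⟩
  have a2 := ub_hol_Est (f := fun t z => τ t z - cT (fun z => χ t z • Γ t z) z)
    (show R' < (R + R') / 2 by linarith) (K + C * R * K') (by positivity)
    (fun t => h2 E _ _ _ R K' _ (hb t) isOpen_ball ((hτ t).mono (ball_subset_ball r1.le))
      fun z hz => by rw [x2 t z hz, one_smul, (h t z (ball_subset_ball r1.le hz)).2])
    fun t z hz => (norm_sub_le _ _).trans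
      (add_le_add (h t z (ball_subset_ball r1.le hz)).1 ((hC E _ _ R K' h0 (hb t)).1 z))
  exact (a2.add a1).congr fun t z _ => (sub_add_cancel _ _).symm

end

end Pool.Agent.MP_2fc7fa_gt.N
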