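import Pool.Agent.MP_2fc7fa_gt.N.IfB
import Pool.Agent.MP_2fc7fa_gt.N.EstA

/-! The a priori Lipschitz bound for the derivative of a holomorphic curve. -/

open scoped ContDiff Topology
open Set Complex Filter Metric MeasureTheory

set_option maxSynthPendingDepth 3

noncomputable section

namespace Pool.Agent.MP_2fc7fa_gt.N

section
variable {T E : Type} [NormedAddCommGroup E] [NormedSpace ℂ E]

theorem dbar_Est {A : E → E →L[ℝ] E} {u : ℂ → E} {z : ℂ} (hA : DifferentiableAt ℝ A (u z))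
    (hu : ContDiffAt ℝ 2 u z)
    (hc : ∀ᶠ y in 𝓝 z, A (u y) (fderiv ℝ u y I) = I • A (u y) (fderiv ℝ u y 1)) :
    dbar (fun y => A (u y) (fderiv ℝ u y 1)) z =
      (-I / 2) • (fderiv ℝ A (u z) (fderiv ℝ u z 1) (fderiv ℝ u z I) -
        fderiv ℝ A (u z) (fderiv ℝ u z I) (fderiv ℝ u z 1)) := by
  have hD : DifferentiableAt ℝ (fderiv ℝ u) z :=
    (hu.fderiv_right (m := 1) (by norm_num)).differentiableAt one_ne_zero
  have hu1 : DifferentiableAt ℝ u z := hu.differentiableAt two_ne_zero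
  have key := fun v : ℂ => (hA.hasFDerivAt.comp z hu1.hasFDerivAt).clm_apply
    (hD.hasFDerivAt.clm_apply (hasFDerivAt_const v z))
  have key2 : ∀ v h : ℂ, fderiv ℝ (fun y => A (u y) (fderiv ℝ u y v)) z h =
      A (u z) (fderiv ℝ (fderiv ℝ u) z h v) +
        fderiv ℝ A (u z) (fderiv ℝ u z h) (fderiv ℝ u z v) := fun v h => by
    have h1 := DFunLike.congr_fun (key v).fderiv h
    simpa using h1
  have e1 : fderiv ℝ (fun y => A (u y) (fderiv ℝ u y I)) z =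
      I • fderiv ℝ (fun y => A (u y) (fderiv ℝ u y 1)) z := by
    rw [EventuallyEq.fderiv_eq hc]
    exact ((key 1).differentiableAt.hasFDerivAt.const_smul I).fderiv
  have e2 := DFunLike.congr_fun e1 1
  rw [key2, smul_apply, hu.isSymmSndFDerivAt (by simp) 1 I] at e2
  rw [dbar, key2 1 I, eq_sub_of_add_eq' e2]
  match_scalars
  · linear_combination (1 / 2) * I_mul_I
  · ring
  · ring

theorem comp_Est {F : Type} [NormedAddCommGroup F] [NormedSpace ℝ F] {G : T → E → F}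
    {u : T → ℂ → E} {c : T → ℂ} {R M L : ℝ} (hM : 0 ≤ M) (hL : 0 ≤ L)
    (h : ∀ t, ∀ z ∈ ball (c t) R, DifferentiableAt ℝ (u t) z ∧ ‖fderiv ℝ (u t) z‖ ≤ M ∧
      DifferentiableAt ℝ (G t) (u t z) ∧ ‖G t (u t z)‖ ≤ L ∧ ‖fderiv ℝ (G t) (u t z)‖ ≤ L) :
    UB_Est id (fun t => ball (c t) R) fun t z => G t (u t z) := by
  refine ub_deriv_Est L (L * M) hL (by positivity) fun t z hz => ?_
  obtain ⟨h1, h2, h3, h4, h5⟩ := h t z hz
  refine ⟨h4, h3.comp z h1, ?_⟩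
  rw [show fderiv ℝ (fun z => G t (u t z)) z = _ from (h3.hasFDerivAt.comp z h1.hasFDerivAt).fderiv]
  exact (ContinuousLinearMap.opNorm_comp_le _ _).trans (mul_le_mul h5 h2 (norm_nonneg _) hL)

theorem fderiv_eq_Est (D : ℂ →L[ℝ] E) :
    D = ContinuousLinearMap.smulRightL ℝ ℂ E reCLM (D 1) +
      ContinuousLinearMap.smulRightL ℝ ℂ E imCLM (D I) := by
  refine ContinuousLinearMap.ext fun h => ?_
  have e : h = h.re • (1 : ℂ) + h.im • I := by simp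
  conv_lhs => rw [e, map_add, map_smul, map_smul]
  rfl

theorem main_Est [FiniteDimensional ℂ E] (h1 : T1Stmt) (h2 : T2Stmt) (h3 : T3Stmt) (hR : RegStmt)
    {Ω : Set E} (hΩ : IsOpen Ω) (A B : T → E → E →L[ℝ] E) (u : T → ℂ → E) (c : T → ℂ)
    {r M L : ℝ} (hr : 0 < r) (hM : 0 ≤ M) (hL : 0 ≤ L) (hA : ∀ t, ContDiffOn ℝ ∞ (A t) Ω)
    (hB : ∀ t, ContDiffOn ℝ ∞ (B t) Ω) (BA : ∀ t, ∀ x ∈ Ω, ∀ v, B t x (A t x v) = v)
    (hu : ∀ t, ContDiffOn ℝ 1 (u t) (ball (c t) (2 * r)))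
    (hm : ∀ t, MapsTo (u t) (ball (c t) (2 * r)) Ω)
    (hc : ∀ t, CR (A t) (u t) (ball (c t) (2 * r)))
    (hb : ∀ t, ∀ z ∈ ball (c t) (2 * r), ‖fderiv ℝ (u t) z‖ ≤ M ∧ ‖A t (u t z)‖ ≤ L ∧
      ‖fderiv ℝ (A t) (u t z)‖ ≤ L ∧ ‖fderiv ℝ (fderiv ℝ (A t)) (u t z)‖ ≤ L ∧
      ‖B t (u t z)‖ ≤ L ∧ ‖fderiv ℝ (B t) (u t z)‖ ≤ L) :
    UB_Est id (fun t => ball (c t) r) fun t => fderiv ℝ (u t) := by
  have : CompleteSpace E := FiniteDimensional.complete ℂ E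
  have hs : ∀ t, ContDiffOn ℝ ∞ (u t) (ball (c t) (2 * r)) := fun t =>
    hR E (A t) Ω (u t) _ ⟨hΩ, hA t, fun x hx => Function.LeftInverse.injective (BA t x hx)⟩
      isOpen_ball (hu t) (hm t) (hc t)
  have su : ∀ t, ∀ z ∈ ball (c t) (2 * r), ContDiffAt ℝ ∞ (u t) z := fun t z hz =>
    (hs t).contDiffAt (isOpen_ball.mem_nhds hz)
  have sD : ∀ t, ∀ z ∈ ball (c t) (2 * r), ContDiffAt ℝ ∞ (fderiv ℝ (u t)) z := fun t z hz =>
    (su t z hz).fderiv_right (by simp)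
  have sA : ∀ t, ∀ z ∈ ball (c t) (2 * r), ContDiffAt ℝ ∞ (A t) (u t z) := fun t z hz =>
    (hA t).contDiffAt (hΩ.mem_nhds (hm t hz))
  have sB : ∀ t, ∀ z ∈ ball (c t) (2 * r), ContDiffAt ℝ ∞ (B t) (u t z) := fun t z hz =>
    (hB t).contDiffAt (hΩ.mem_nhds (hm t hz))
  have sA' : ∀ t, ∀ z ∈ ball (c t) (2 * r), ContDiffAt ℝ ∞ (fderiv ℝ (A t)) (u t z) :=
    fun t z hz => (sA t z hz).fderiv_right (by simp)
  have uB : UB_Est id (fun t => ball (c t) (2 * r)) fun t z => B t (u t z) :=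
    comp_Est hM hL fun t z hz => ⟨(su t z hz).differentiableAt (by simp), (hb t z hz).1,
      (sB t z hz).differentiableAt (by simp), (hb t z hz).2.2.2.2⟩
  have uA : UB_Est id (fun t => ball (c t) (2 * r)) fun t z => fderiv ℝ (A t) (u t z) :=
    comp_Est hM hL fun t z hz => ⟨(su t z hz).differentiableAt (by simp), (hb t z hz).1,
      (sA' t z hz).differentiableAt (by simp), (hb t z hz).2.2.1, (hb t z hz).2.2.2.1⟩
  obtain ⟨τ, hτ⟩ : ∃ τ : T → ℂ → E, τ = fun t z => A t (u t z) (fderiv ℝ (u t) z 1) := ⟨_, rfl⟩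
  obtain ⟨Γ, hΓ⟩ : ∃ Γ : T → ℂ → E, Γ = fun t z => (-I / 2) •
      (fderiv ℝ (A t) (u t z) (fderiv ℝ (u t) z 1) (fderiv ℝ (u t) z I) -
        fderiv ℝ (A t) (u t z) (fderiv ℝ (u t) z I) (fderiv ℝ (u t) z 1)) := ⟨_, rfl⟩
  have n1 : ∀ t, ∀ z ∈ ball (c t) (2 * r), ∀ v : ℂ, ‖v‖ = 1 → ‖fderiv ℝ (u t) z v‖ ≤ M :=
    fun t z hz v hv => by
      simpa [hv] using (fderiv ℝ (u t) z).le_of_opNorm_le (hb t z hz).1 v
  have τ1 : ∀ t, ContDiffOn ℝ 1 (τ t) (ball (c t) (2 * r)) := fun t z hz => by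
    rw [hτ]
    exact ((((sA t z hz).comp z (su t z hz)).clm_apply
      ((sD t z hz).clm_apply contDiffAt_const)).of_le (by simp)).contDiffWithinAt
  have τ2 : ∀ t, ∀ z ∈ ball (c t) (2 * r), ‖τ t z‖ ≤ L * M := fun t z hz => by
    rw [hτ]
    exact (A t (u t z)).le_of_opNorm_le_of_le (hb t z hz).2.1 (n1 t z hz 1 norm_one)
  have τ3 : ∀ t, ∀ z ∈ ball (c t) (2 * r), dbar (τ t) z = Γ t z := fun t z hz => by
    rw [hτ, hΓ]
    exact dbar_Est ((sA t z hz).differentiableAt (by simp)) ((su t z hz).of_le (by norm_cast))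
      (eventually_of_mem (isOpen_ball.mem_nhds hz) (hc t))
  have Γ1 : ∀ t, ContinuousOn (Γ t) (ball (c t) (2 * r)) := fun t z hz => by
    have a1 := ((sA' t z hz).comp z (su t z hz)).continuousAt
    have a2 : ∀ v : ℂ, ContinuousAt (fun z => fderiv ℝ (u t) z v) z := fun v =>
      (sD t z hz).continuousAt.clm_apply continuousAt_const
    rw [hΓ]
    exact ((((a1.clm_apply (a2 1)).clm_apply (a2 I)).sub
      ((a1.clm_apply (a2 I)).clm_apply (a2 1))).const_smul (-I / 2)).continuousWithinAt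
  have Γ2 : ∀ t, ∀ z ∈ ball (c t) (2 * r), ‖Γ t z‖ ≤ ‖-I / 2‖ * (L * M * M + L * M * M) :=
    fun t z hz => by
      have a1 : ∀ v v' : ℂ, ‖v‖ = 1 → ‖v'‖ = 1 →
          ‖fderiv ℝ (A t) (u t z) (fderiv ℝ (u t) z v) (fderiv ℝ (u t) z v')‖ ≤ L * M * M :=
        fun v v' hv hv' => ContinuousLinearMap.le_of_opNorm_le_of_le _
          ((fderiv ℝ (A t) (u t z)).le_of_opNorm_le_of_le (hb t z hz).2.2.1 (n1 t z hz v hv))
          (n1 t z hz v' hv')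
      rw [hΓ]
      exact (norm_smul_le _ _).trans (mul_le_mul_of_nonneg_left ((norm_sub_le _ _).trans
        (add_le_add (a1 1 I norm_one norm_I) (a1 I 1 norm_I norm_one))) (norm_nonneg _))
  have back : ∀ (w : ℝ → ℝ) (R : ℝ), R ≤ 2 * r → (∀ d, 0 ≤ d → 0 ≤ w d) →
      UB_Est w (fun t => ball (c t) (2 * r)) (fun t z => B t (u t z)) →
      UB_Est w (fun t => ball (c t) R) τ →
      UB_Est w (fun t => ball (c t) R) (fun t z => fderiv ℝ (u t) z 1) ∧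
        UB_Est w (fun t => ball (c t) R) fun t z => fderiv ℝ (u t) z I := by
    intro w R hR hw b1 b2
    have b3 := b1.mono fun t => ball_subset_ball (x := c t) hR
    refine ⟨(b3.app b2 hw).congr fun t z hz => ?_, (b3.app (b2.clm
      (ContinuousLinearMap.lsmul ℝ ℂ I : E →L[ℝ] E)) hw).congr fun t z hz => ?_⟩
    · rw [hτ, BA t _ (hm t (ball_subset_ball hR hz))]
    · rw [hτ, ContinuousLinearMap.lsmul_apply, ← hc t z (ball_subset_ball hR hz),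
        BA t _ (hm t (ball_subset_ball hR hz))]
  have hw : ∀ d : ℝ, 0 ≤ d → 0 ≤ √d := fun d _ => Real.sqrt_nonneg d
  have r1 : 3 / 2 * r ≤ 2 * r := by linarith
  have s1 := stepA_Est h1 h2 (by positivity) (show 3 / 2 * r < 2 * r by linarith) _ _
    (by positivity) (by positivity) τ1 Γ1 fun t z hz => ⟨τ2 t z hz, Γ2 t z hz, τ3 t z hz⟩
  obtain ⟨s2, s3⟩ := back _ _ r1 hw uB.sqrt s1
  have s4 := uA.sqrt.mono fun t => ball_subset_ball (x := c t) r1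
  have s5 : UB_Est Real.sqrt (fun t => ball (c t) (3 / 2 * r)) Γ :=
    ((((s4.app s2 hw).app s3 hw).clm (ContinuousLinearMap.lsmul ℝ ℂ (-I / 2) : E →L[ℝ] E)).add
      (((s4.app s3 hw).app s2 hw).clm
        (ContinuousLinearMap.lsmul ℝ ℂ (-(-I / 2)) : E →L[ℝ] E))).congr fun t z _ => by
      rw [hΓ, ContinuousLinearMap.lsmul_apply, ContinuousLinearMap.lsmul_apply, neg_smul,
        ← sub_eq_add_neg, ← smul_sub]
  have s6 := stepB_Est h1 h2 h3 (by positivity) (show r < 3 / 2 * r by linarith) _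
    (by positivity) (fun t => (τ1 t).mono (ball_subset_ball r1)) s5
    fun t z hz => ⟨τ2 t z (ball_subset_ball r1 hz), τ3 t z (ball_subset_ball r1 hz)⟩
  obtain ⟨s7, s8⟩ := back _ _ (by linarith) (fun _ hd => hd) uB s6
  exact ((s7.clm (ContinuousLinearMap.smulRightL ℝ ℂ E reCLM)).add
    (s8.clm (ContinuousLinearMap.smulRightL ℝ ℂ E imCLM))).congr fun t z _ => fderiv_eq_Est _

end

theorem tube_Est {P X F : Type} [TopologicalSpace P] [NormedAddCommGroup X]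
    [NormedAddCommGroup F] {U K : Set X} {G : P → X → F} (hU : IsOpen U) (h : JC U G)
    (hK : IsCompact K) (hKU : K ⊆ U) (p₀ : P) :
    ∃ L : ℝ, ∀ L', L ≤ L' → ∀ᶠ p in 𝓝 p₀, ∀ x ∈ K, ‖G p x‖ ≤ L' := by
  obtain ⟨L, hL⟩ := hK.exists_bound_of_continuousOn ((h.at p₀).mono hKU)
  refine ⟨L + 1, fun L' hL' => hK.eventually_forall_of_forall_eventually fun y hy => ?_⟩
  have h1 : ContinuousAt (fun q : P × X => G q.1 q.2) (p₀, y) :=
    ContinuousOn.continuousAt h ((isOpen_univ.prod hU).mem_nhds ⟨trivial, hKU hy⟩)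
  exact (h1.norm.eventually_lt_const (u := L + 1) (by linarith [hL y hy])).mono
    fun q hq => hq.le.trans hL'

theorem fam_fderiv_Est {P X F : Type} [TopologicalSpace P] [NormedAddCommGroup X]
    [NormedSpace ℝ X] [NormedAddCommGroup F] [NormedSpace ℝ F] {U : Set X} {n : ℕ}
    {G : P → X → F} (h : Fam U (n + 1) F G) (hU : IsOpen U) :
    Fam U n (X →L[ℝ] F) fun p => fderiv ℝ (G p) :=
  (h.fderivWithin hU.uniqueDiffOn).congr fun _ _ hx => (fderivWithin_of_isOpen hU hx).symm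

theorem est (h1 : T1Stmt) (h2 : T2Stmt) (h3 : T3Stmt) (h4 : T4Stmt) (hG : GreenStmt)
    (hR : RegStmt) : EstStmt := by
  have _ := h4
  have _ := hG
  intro P _ φ p₀ M r hφ hr
  have hU : IsOpen ({0}ᶜ : Set V) := isOpen_compl_singleton
  obtain ⟨K, hK⟩ : ∃ K : Set V, K = {x | 1 ≤ M * ‖x‖ ∧ ‖x‖ ≤ M} := ⟨_, rfl⟩
  have k1 : IsCompact K := by
    refine (isCompact_closedBall (0 : V) M).of_isClosed_subset ?_ fun x hx => ?_
    · rw [hK]
      exact (isClosed_le continuous_const (continuous_const.mul continuous_norm)).inter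
        (isClosed_le continuous_norm continuous_const)
    · rw [hK] at hx
      exact mem_closedBall_zero_iff.2 hx.2
  have k2 : K ⊆ {0}ᶜ := by
    rintro x hx rfl
    rw [hK] at hx
    have := hx.1
    rw [norm_zero, mul_zero] at this
    linarith
  obtain ⟨L1, l1⟩ := tube_Est hU (hφ 0).2.jc k1 k2 p₀
  obtain ⟨L2, l2⟩ := tube_Est hU (fam_fderiv_Est (hφ 1).2 hU).jc k1 k2 p₀
  obtain ⟨L3, l3⟩ := tube_Est hU (fam_fderiv_Est (fam_fderiv_Est (hφ 2).2 hU) hU).jc k1 k2 p₀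
  obtain ⟨L4, l4⟩ := tube_Est hU (hφ 0).1.jc k1 k2 p₀
  obtain ⟨L5, l5⟩ := tube_Est hU (fam_fderiv_Est (hφ 1).1 hU).jc k1 k2 p₀
  obtain ⟨L, hL⟩ : ∃ L : ℝ, 0 ≤ L ∧ L1 ≤ L ∧ L2 ≤ L ∧ L3 ≤ L ∧ L4 ≤ L ∧ L5 ≤ L :=
    ⟨max 0 (max L1 (max L2 (max L3 (max L4 L5)))), by simp, by simp, by simp, by simp, by simp,
      by simp⟩
  let T : Type := {q : P × (ℂ → V) × ℂ // (∀ x ∈ K, ‖(φ q.1).A x‖ ≤ L ∧
      ‖fderiv ℝ (φ q.1).A x‖ ≤ L ∧ ‖fderiv ℝ (fderiv ℝ (φ q.1).A) x‖ ≤ L ∧ ‖(φ q.1).B x‖ ≤ L ∧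
      ‖fderiv ℝ (φ q.1).B x‖ ≤ L) ∧ ContDiffOn ℝ 1 q.2.1 (ball q.2.2 (2 * r)) ∧
    CR (φ q.1).A q.2.1 (ball q.2.2 (2 * r)) ∧
    ∀ z ∈ ball q.2.2 (2 * r), q.2.1 z ∈ K ∧ ‖fderiv ℝ q.2.1 z‖ ≤ max M 0}
  obtain ⟨C, -, hC⟩ := main_Est (T := T) h1 h2 h3 hR hU (fun t => (φ t.1.1).A)
    (fun t => (φ t.1.1).B) (fun t => t.1.2.1) (fun t => t.1.2.2) hr (le_max_right M 0) hL.1
    (fun t => (φ t.1.1).smoothA) (fun t => (φ t.1.1).smoothB) (fun t => (φ t.1.1).BA)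
    (fun t => t.2.2.1) (fun t z hz => k2 (t.2.2.2.2 z hz).1) (fun t => t.2.2.2.1)
    fun t z hz => ⟨(t.2.2.2.2 z hz).2, t.2.1 _ (t.2.2.2.2 z hz).1⟩
  refine ⟨C, ?_⟩
  filter_upwards [l1 L hL.2.1, l2 L hL.2.2.1, l3 L hL.2.2.2.1, l4 L hL.2.2.2.2.1,
    l5 L hL.2.2.2.2.2] with p a1 a2 a3 a4 a5 u c b1 b2 b3
  exact (hC ⟨(p, u, c), fun x hx => ⟨a1 x hx, a2 x hx, a3 x hx, a4 x hx, a5 x hx⟩, b1, b2,
    fun z hz => ⟨by rw [hK]; exact ⟨(b3 z hz).1, (b3 z hz).2.1⟩,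
      (b3 z hz).2.2.trans (le_max_left M 0)⟩⟩).2

end Pool.Agent.MP_2fc7fa_gt.N
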