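import Pool.Agent.MP_2fc7fa_gt.N.IfB2

/-! A line has finitely many critical points and finite fibres. -/

open scoped ContDiff Topology
open Set Complex Filter Metric

namespace Pool.Agent.MP_2fc7fa_gt.N

theorem key_Fin (hW : HWStmt) {a : ℂ → W →L[ℝ] W} {g : ℂ → W} {c : ℂ} (ha : ContDiffAt ℝ 1 a c)
    (hi : Function.Injective (a c)) (hg : ContDiffAt ℝ 1 g c)
    (hb : ∀ᶠ z in 𝓝 c, ∃ y, ‖a z y‖ ≤ ‖a z (g z)‖ ∧
      ‖dbar (fun z => a z (g z)) z‖ ≤ ‖fderiv ℝ a z 1 y‖ + ‖fderiv ℝ a z I (g z)‖) :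
    (∀ᶠ z in 𝓝 c, g z = 0) ∨ ∀ᶠ z in 𝓝[≠] c, g z ≠ 0 := by
  obtain ⟨K, hK, hK'⟩ := (a c : W →ₗ[ℝ] W).exists_antilipschitzWith (LinearMap.ker_eq_bot.2 hi)
  have hK0 : (0 : ℝ) < K := hK
  have h1 : ∀ᶠ z in 𝓝 c, ∀ y, ‖y‖ ≤ 2 * K * ‖a z y‖ := by
    filter_upwards [ha.continuousAt.eventually
      (closedBall_mem_nhds (a c) (show (0 : ℝ) < (2 * K)⁻¹ by positivity))] with z hz y
    have e1 : ‖y‖ ≤ K * ‖a c y‖ := ZeroHomClass.bound_of_antilipschitz _ hK' y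
    have e2 : ‖a z y - a c y‖ ≤ (2 * K : ℝ)⁻¹ * ‖y‖ :=
      (a z - a c).le_of_opNorm_le (mem_closedBall_iff_norm.1 hz) y
    have e3 := norm_sub_norm_le (a c y) (a z y)
    rw [norm_sub_rev] at e3
    have e4 : K * ((2 * K : ℝ)⁻¹ * ‖y‖) = ‖y‖ / 2 := by field_simp
    nlinarith
  have hv : ContDiffAt ℝ 1 (fun z => a z (g z)) c := ha.clm_apply hg
  have h2 := (ha.continuousAt_fderiv one_ne_zero).norm.eventually
    (eventually_le_nhds (lt_add_one ‖fderiv ℝ a c‖))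
  have h3 := hv.continuousAt.norm.eventually (eventually_le_nhds (lt_add_one ‖a c (g c)‖))
  obtain ⟨r, hr, h4⟩ := Metric.eventually_nhds_iff_ball.1
    (((hv.eventually (by simp)).and h3).and (h1.and (h2.and hb)))
  rcases hW W (fun z => a z (g z)) c r (2 * ((‖fderiv ℝ a c‖ + 1) * (2 * K))) _ hr
    (fun z hz => (h4 z hz.1).1.1.contDiffWithinAt) (fun z hz => ⟨(h4 z hz.1).1.2, by
      obtain ⟨-, e1, e2, y, e3, e4⟩ := h4 z hz.1
      have e5 : ∀ (k : ℂ) y, ‖k‖ = 1 → ‖a z y‖ ≤ ‖a z (g z)‖ →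
          ‖fderiv ℝ a z k y‖ ≤ (‖fderiv ℝ a c‖ + 1) * (2 * K) * ‖a z (g z)‖ := fun k y hk hy => by
        refine ((fderiv ℝ a z).le_opNorm₂ k y).trans ?_
        rw [hk, mul_one, mul_assoc]
        gcongr
        exact (e1 y).trans (by gcongr)
      have := e5 1 y norm_one e3
      have := e5 I _ norm_I le_rfl
      linarith⟩) with h | ⟨k, b, hb, h⟩
  · left
    have h5 : ∀ᶠ z in 𝓝[≠] c, g z = 0 := by
      filter_upwards [h, nhdsWithin_le_nhds h1] with z hz e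
      simpa [hz] using e (g z)
    have h6 : g c = 0 := tendsto_nhds_unique (hg.continuousAt.tendsto.mono_left nhdsWithin_le_nhds)
      (tendsto_const_nhds.congr' (h5.mono fun z hz => hz.symm))
    rw [← nhdsNE_sup_pure, eventually_sup]
    exact ⟨h5, h6⟩
  · right
    filter_upwards [h.eventually_ne hb] with z hz e
    simp [e] at hz

section
variable {A : W → W →L[ℝ] W} {w : ℂ → W} {c : ℂ}

theorem fibLoc_Fin (hW : HWStmt) (hA : Cofr A univ)
    (hw : ∀ᶠ z in 𝓝 c, ContDiffAt ℝ ∞ w z ∧ CR A w {z}) (y : W) :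
    (∀ᶠ z in 𝓝 c, w z = y) ∨ ∀ᶠ z in 𝓝[≠] c, w z ≠ y := by
  have h1 : ∀ {z}, ContDiffAt ℝ ∞ w z → ContDiffAt ℝ 1 (fun z => A (w z)) z := fun h =>
    ((contDiffOn_univ.1 hA.2.1).contDiffAt.comp _ h).of_le (mod_cast le_top)
  simp only [← sub_eq_zero (b := y), ne_eq]
  refine key_Fin hW (h1 hw.self_of_nhds.1) (hA.2.2 _ trivial)
    ((hw.self_of_nhds.1.of_le (mod_cast le_top)).sub contDiffAt_const) ?_
  filter_upwards [hw] with z hz
  refine ⟨_, le_rfl, ?_⟩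
  have h2 := (((h1 hz.1).differentiableAt one_ne_zero).hasFDerivAt.clm_apply
    ((hz.1.differentiableAt (by simp)).hasFDerivAt.sub_const y)).fderiv
  have h3 : dbar (fun z => A (w z) (w z - y)) z = (1 / 2 : ℂ) •
      (fderiv ℝ (fun z => A (w z)) z 1 (w z - y) + I • fderiv ℝ (fun z => A (w z)) z I (w z - y)) := by
    rw [dbar, h2]
    simp only [add_apply, ContinuousLinearMap.comp_apply,
      ContinuousLinearMap.flip_apply, hz.2 z rfl, smul_add, smul_smul]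
    match_scalars <;> simp
  rw [h3, norm_smul]
  refine (mul_le_of_le_one_left (norm_nonneg _) (by norm_num)).trans ((norm_add_le _ _).trans ?_)
  rw [norm_smul, norm_I, one_mul]

theorem critLoc_Fin (hW : HWStmt) (hA : Cofr A univ)
    (hw : ∀ᶠ z in 𝓝 c, ContDiffAt ℝ ∞ w z ∧ CR A w {z}) :
    (∀ᶠ z in 𝓝 c, w z = w c) ∨ ∀ᶠ z in 𝓝[≠] c, fderiv ℝ w z 1 ≠ 0 := by
  have h1 : ∀ {z}, ContDiffAt ℝ ∞ w z → ContDiffAt ℝ 1 (fun z => A (w z)) z := fun h =>
    ((contDiffOn_univ.1 hA.2.1).contDiffAt.comp _ h).of_le (mod_cast le_top)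
  have h0 : ∀ {z}, ContDiffAt ℝ ∞ w z → ContDiffAt ℝ 1 (fderiv ℝ w) z := fun h =>
    h.fderiv_right (one_add_one_eq_two.trans_le ENat.LEInfty.out)
  refine (key_Fin hW (g := fun z => fderiv ℝ w z 1) (h1 hw.self_of_nhds.1) (hA.2.2 _ trivial)
    ((h0 hw.self_of_nhds.1).clm_apply contDiffAt_const) ?_).imp_left fun h => ?_
  · filter_upwards [hw.eventually_nhds] with z hz'
    have hz := hz'.self_of_nhds
    refine ⟨fderiv ℝ w z I, by rw [hz.2 z rfl, norm_smul, norm_I, one_mul], ?_⟩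
    have h2 := fun k : ℂ => ((h1 hz.1).differentiableAt one_ne_zero).hasFDerivAt.clm_apply
      (((h0 hz.1).differentiableAt one_ne_zero).hasFDerivAt.clm_apply (hasFDerivAt_const k z))
    have h4 := DFunLike.congr_fun ((h2 I).unique (((h2 1).const_smul I).congr_of_eventuallyEq
      (hz'.mono fun t ht => ht.2 t rfl))) 1
    have h5 := (hz.1.isSymmSndFDerivAt (by simpa using ENat.LEInfty.out)).eq 1 I
    have h3 : dbar (fun z => A (w z) (fderiv ℝ w z 1)) z = (I / 2 : ℂ) •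
        (fderiv ℝ (fun z => A (w z)) z I (fderiv ℝ w z 1) -
          fderiv ℝ (fun z => A (w z)) z 1 (fderiv ℝ w z I)) := by
      rw [dbar, (h2 1).fderiv]
      simp only [add_apply, ContinuousLinearMap.comp_apply,
        ContinuousLinearMap.flip_apply, smul_apply,
        zero_apply, map_zero, zero_add, h5] at h4 ⊢
      linear_combination (norm := skip) (I / 2 : ℂ) • h4
      match_scalars <;> grind [I_mul_I]
    rw [h3, norm_smul]
    refine (mul_le_of_le_one_left (norm_nonneg _) (by norm_num)).trans ((norm_sub_le _ _).trans ?_)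
    rw [add_comm]
  · obtain ⟨r, hr, h2⟩ := Metric.eventually_nhds_iff_ball.1 (h.and hw)
    filter_upwards [ball_mem_nhds c hr] with z hz
    refine isOpen_ball.is_const_of_fderiv_eq_zero (𝕜 := ℝ) (convex_ball c r).isPreconnected
      (fun t ht => ((h2 t ht).2.1.differentiableAt (by simp)).differentiableWithinAt)
      (fun t ht => ?_) hz (mem_ball_self hr)
    have e1 := (h2 t ht).1
    have e2 : fderiv ℝ w t I = 0 := hA.2.2 (w t) trivial (by
      rw [(h2 t ht).2.2 t rfl, e1, map_zero, smul_zero])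
    refine ContinuousLinearMap.ext fun k => ?_
    have e : k = k.re • (1 : ℂ) + k.im • I := by simp
    rw [e, map_add, map_smul, map_smul, e1, e2]
    simp

end

section
variable {φ : Fr} {u : ℂ → V} {c : ℂ}

theorem chart_Fin (hC : ChartStmt) (hu : ContDiff ℝ ∞ u) (h : CR φ.A u univ) {a : Fin 3}
    (ha : u c a ≠ 0) : ∃ A, Cofr A univ ∧ (∀ᶠ z in 𝓝 c, u z a ≠ 0) ∧
      (∀ᶠ z in 𝓝 c, ContDiffAt ℝ ∞ (ch a ∘ u) z ∧ CR A (ch a ∘ u) {z}) ∧
      ∀ᶠ z in 𝓝 c, fderiv ℝ (ch a ∘ u) z 1 = 0 ↔ ∃ k : ℂ, fderiv ℝ u z 1 = k • u z := by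
  obtain ⟨A, hA⟩ := hC.1 φ a
  obtain ⟨h1, h2⟩ := hC.2.1 φ a A hA
  have h3 : ∀ᶠ z in 𝓝 c, u z a ≠ 0 :=
    ((continuous_apply a).comp hu.continuous).continuousAt.eventually_ne ha
  have h4 := fun z hz => h2 u z (hu.differentiable (by simp) z) hz fun t _ => h t trivial
  refine ⟨A, h1, h3, h3.mono fun z hz => ⟨?_, (h4 z hz).1⟩, h3.mono fun z hz => (h4 z hz).2⟩
  have h5 := fun j => (contDiff_pi.1 hu j).contDiffAt (x := z)
  exact ((h5 _).mul ((h5 a).inv hz)).prodMk ((h5 _).mul ((h5 a).inv hz))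

theorem ch_Fin {a : Fin 3} {x y : V} (hx : x a ≠ 0) (hy : y a ≠ 0) :
    ch a x = ch a y ↔ ∃ k : ℂ, x = k • y := by
  constructor
  · intro h
    refine ⟨x a / y a, funext fun j => ?_⟩
    have h1 := congrArg Prod.fst h
    have h2 := congrArg Prod.snd h
    simp only [ch] at h1 h2
    have : ∀ j a : Fin 3, j = a ∨ j = a + 1 ∨ j = a + 2 := by decide
    rcases this j a with rfl | rfl | rfl <;> simp only [Pi.smul_apply, smul_eq_mul] <;> grind
  · rintro ⟨k, rfl⟩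
    have : k ≠ 0 := fun h => by simp [h] at hx
    simp [ch, mul_div_mul_left _ _ this]

theorem fibU_Fin (hW : HWStmt) (hC : ChartStmt) (hu : ContDiff ℝ ∞ u) (h : CR φ.A u univ)
    (h0 : u c ≠ 0) (x : V) :
    (∀ᶠ z in 𝓝 c, ∃ k : ℂ, u z = k • x) ∨ ∀ᶠ z in 𝓝[≠] c, ¬∃ k : ℂ, u z = k • x := by
  obtain ⟨a, ha⟩ := Function.ne_iff.1 h0
  obtain ⟨A, h1, h2, h3, -⟩ := chart_Fin hC hu h ha
  by_cases hx : x a = 0
  · right
    filter_upwards [nhdsWithin_le_nhds h2] with z hz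
    rintro ⟨k, hk⟩
    simp [hk, hx] at hz
  refine (fibLoc_Fin hW h1 h3 (ch a x)).imp (fun h4 => ?_) fun h4 => ?_
  · filter_upwards [h2, h4] with z e1 e2 using (ch_Fin e1 hx).1 e2
  · filter_upwards [nhdsWithin_le_nhds h2, h4] with z e1 e2 e3 using e2 ((ch_Fin e1 hx).2 e3)

theorem critU_Fin (hW : HWStmt) (hC : ChartStmt) (hu : ContDiff ℝ ∞ u) (h : CR φ.A u univ)
    (h0 : u c ≠ 0) :
    (∀ᶠ z in 𝓝 c, ∃ k : ℂ, u z = k • u c) ∨
      ∀ᶠ z in 𝓝[≠] c, ¬∃ k : ℂ, fderiv ℝ u z 1 = k • u z := by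
  obtain ⟨a, ha⟩ := Function.ne_iff.1 h0
  obtain ⟨A, h1, h2, h3, h5⟩ := chart_Fin hC hu h ha
  refine (critLoc_Fin hW h1 h3).imp (fun h4 => ?_) fun h4 => ?_
  · filter_upwards [h2, h4] with z e1 e2 using (ch_Fin e1 ha).1 e2
  · filter_upwards [nhdsWithin_le_nhds h5, h4] with z e1 e2 e3 using e2 (e1.2 e3)

end

theorem few_Fin {S : Set W} (hS : ∀ c : ℂ, c ≠ 0 → ∀ q, c • q ∈ S → q ∈ S)
    (h0 : ∀ c : ℂ, ∀ᶠ z in 𝓝[≠] c, (1, z) ∉ S) (h1 : ∀ᶠ z in 𝓝[≠] (0 : ℂ), (z, 1) ∉ S) :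
    FewLines S := by
  obtain ⟨r, hr, h2⟩ := Metric.eventually_nhds_iff_ball.1 (eventually_nhdsWithin_iff.1 h1)
  have h3 : {z : ℂ | (1, z) ∈ S}.Finite := by
    by_contra h
    obtain ⟨c, -, hc⟩ := Set.Infinite.exists_accPt_of_subset_isCompact h
      (isCompact_closedBall (0 : ℂ) r⁻¹) fun z hz => by
        by_contra h4
        rw [mem_closedBall_zero_iff, not_le] at h4
        have h5 : z ≠ 0 := norm_pos_iff.1 ((inv_pos.2 hr).trans h4)
        refine h2 z⁻¹ ?_ (inv_ne_zero h5) (hS z h5 _ (by simpa [h5] using hz))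
        rw [mem_ball_zero_iff, norm_inv]
        exact inv_lt_of_inv_lt₀ hr h4
    exact accPt_iff_frequently_nhdsNE.1 hc (h0 c)
  refine ⟨insert (0, 1) ((fun z => (1, z)) '' _), (h3.image _).insert _, fun q hq => ?_⟩
  by_cases h : q.1 = 0
  · exact ⟨_, mem_insert _ _, q.2, by ext <;> simp [h]⟩
  have e : q = q.1 • ((1, q.1⁻¹ * q.2) : W) := by ext <;> simp [h]
  exact ⟨_, mem_insert_of_mem _ ⟨_, hS _ h _ (e ▸ hq), rfl⟩, _, e⟩

section
variable {φ : Fr} {U : W → V}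

theorem diff_Fin (hU : IsLine φ.J U) {q : W} (hq : q ≠ 0) : DifferentiableAt ℝ U q :=
  (hU.c1.contDiffAt (isOpen_compl_singleton.mem_nhds hq)).differentiableAt one_ne_zero

theorem ne_Fin (z : ℂ) : ((1, z) : W) ≠ 0 := fun h => one_ne_zero (congrArg Prod.fst h)

theorem swap_Fin (hU : IsLine φ.J U) :
    IsLine φ.J (U ∘ ContinuousLinearEquiv.prodComm ℝ ℂ ℂ) := by
  have h0 : ∀ q : W, q ≠ 0 → ContinuousLinearEquiv.prodComm ℝ ℂ ℂ q ≠ 0 := fun q hq =>
    (map_ne_zero_iff _ (ContinuousLinearEquiv.injective _)).2 hq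
  refine ⟨hU.c1.comp (ContinuousLinearEquiv.contDiff _).contDiffOn h0, fun q hq => hU.ne _ (h0 q hq),
    fun c q => hU.hom c q.swap, fun q hq h => ?_⟩
  rw [ContinuousLinearEquiv.comp_right_fderiv]
  exact hU.hol _ (h0 q hq) h.swap

theorem vert_Fin (φ : Fr) {x : V} (hx : x ≠ 0) (k : ℂ) : φ.A x (k • x) = k • x := by
  rw [← φ.vert x hx, φ.AB x hx, φ.vert x hx]

theorem tau_Fin (hU : IsLine φ.J U) {q : W} (hq : q ≠ 0) (k : ℂ) (h : W) :
    φ.A (U q) (fderiv ℝ U q (k • h)) = k • φ.A (U q) (fderiv ℝ U q h) := by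
  have e : k • h = k.re • h + k.im • I • h := by
    rw [← Complex.coe_smul, ← Complex.coe_smul, smul_smul, ← add_smul, re_add_im]
  rw [e, map_add, map_add, map_smul, map_smul, map_smul, map_smul, hU.hol q hq, Fr.J,
    φ.AB _ (hU.ne q hq), ← Complex.coe_smul, ← Complex.coe_smul, smul_smul, ← add_smul, re_add_im]

theorem fd_Fin (hU : IsLine φ.J U) (z k : ℂ) :
    fderiv ℝ (fun z => U (1, z)) z k = fderiv ℝ U (1, z) (0, k) :=
  DFunLike.congr_fun (HasFDerivAt.comp (g := U) (f := fun z : ℂ => ((1 : ℂ), z)) z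
    (diff_Fin hU (ne_Fin z)).hasFDerivAt (hasFDerivAt_prodMk_right 1 z)).fderiv k

theorem cr_Fin (hU : IsLine φ.J U) : CR φ.A (fun z => U (1, z)) univ := fun z _ => by
  rw [fd_Fin hU, fd_Fin hU, ← tau_Fin hU (ne_Fin z)]
  simp

theorem sm_Fin (hS : LineSmoothStmt) (hU : IsLine φ.J U) : ContDiff ℝ ∞ fun z : ℂ => U (1, z) :=
  (hS φ U hU).comp_contDiff (contDiff_const.prodMk contDiff_id) ne_Fin

theorem inj_Fin (hU : IsLine φ.J U) {z : ℂ}
    (h : ¬∃ k : ℂ, fderiv ℝ (fun z => U (1, z)) z 1 = k • U (1, z)) :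
    Function.Injective (fderiv ℝ U (1, z)) := by
  have hq := ne_Fin z
  have hx := hU.ne _ hq
  have h1 : fderiv ℝ U (1, z) (1, z) = U (1, z) := by
    have e1 : HasDerivAt (fun t : ℝ => t • ((1, z) : W)) ((1 : ℝ) • ((1, z) : W)) 1 :=
      (hasDerivAt_id _).smul_const _
    have e2 := HasFDerivAt.comp_hasDerivAt_of_eq (hl := (diff_Fin hU hq).hasFDerivAt) (hf := e1)
      (hy := (one_smul _ _).symm)
    have e3 : HasDerivAt (fun t : ℝ => t • U (1, z)) ((1 : ℝ) • U (1, z)) 1 :=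
      (hasDerivAt_id _).smul_const _
    simpa using e2.unique (e3.congr_of_eventuallyEq (.of_forall fun t => hU.hom t _))
  refine (injective_iff_map_eq_zero _).2 fun y hy => ?_
  have e : y = y.1 • ((1, z) : W) + (y.2 - y.1 * z) • ((0, 1) : W) := by ext <;> simp
  have h2 := congrArg (φ.A (U (1, z))) hy
  rw [e, map_add, map_add, tau_Fin hU hq, tau_Fin hU hq, h1, map_zero] at h2
  have h3 := vert_Fin φ hx 1
  rw [one_smul] at h3
  rw [h3] at h2
  by_cases h4 : y.2 - y.1 * z = 0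
  · rw [h4, zero_smul, add_zero, smul_eq_zero_iff_left hx] at h2
    rw [e, h4, h2]
    simp
  refine (h ⟨-(y.2 - y.1 * z)⁻¹ * y.1, ?_⟩).elim
  rw [fd_Fin hU, ← φ.BA _ hx (fderiv ℝ U _ _), ← φ.vert _ hx]
  congr 1
  linear_combination (norm := skip) (y.2 - y.1 * z)⁻¹ • h2
  match_scalars <;> grind

theorem liou_Fin (hU : IsLine φ.J U) (x : V) : ¬∀ z : ℂ, ∃ k : ℂ, U (1, z) = k • x := fun h => by
  have hx : x ≠ 0 := by
    rintro rfl
    obtain ⟨k, hk⟩ := h 0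
    exact hU.ne _ (ne_Fin 0) (by simpa using hk)
  obtain ⟨a, ha⟩ := Function.ne_iff.1 hx
  replace ha : x a ≠ 0 := ha
  have h1 : ∀ z : ℂ, U (1, z) = (U (1, z) a * (x a)⁻¹) • x := fun z => by
    obtain ⟨k, hk⟩ := h z
    simp [hk, ha]
  have h2 : ∀ z : ℂ, U (1, z) a ≠ 0 := fun z e => hU.ne _ (ne_Fin z) (by rw [h1, e]; simp)
  have h3 : Differentiable ℂ fun z : ℂ => U (1, z) := fun z => by
    have e1 : DifferentiableAt ℝ (fun z : ℂ => U (1, z)) z :=
      DifferentiableAt.comp (g := U) z (diff_Fin hU (ne_Fin z)) (by fun_prop)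
    refine differentiableAt_complex_iff_differentiableAt_real.2 ⟨e1, ?_⟩
    have e2 := DFunLike.congr_fun (e1.hasFDerivAt.unique
      ((((hasFDerivAt_pi'.1 e1.hasFDerivAt a).mul_const (x a)⁻¹).smul_const x).congr_of_eventuallyEq
      (.of_forall h1))) 1
    obtain ⟨k, e4⟩ : ∃ k : ℂ, fderiv ℝ (fun z : ℂ => U (1, z)) z 1 = k • x := ⟨_, e2⟩
    have e3 : fderiv ℝ (fun z : ℂ => U (1, z)) z 1 = (k * x a * (U (1, z) a)⁻¹) • U (1, z) := by
      rw [e4]
      nth_rw 2 [h1 z]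
      have := h2 z
      match_scalars
      grind
    have hz := hU.ne _ (ne_Fin z)
    rw [← φ.BA _ hz (fderiv ℝ _ z I), cr_Fin hU z trivial, e3, vert_Fin φ hz, smul_smul, φ.vert _ hz]
  have h4 : ContinuousAt (fun t : ℂ => U (t, 1)) 0 :=
    ContinuousAt.comp (g := U) (diff_Fin hU fun e => one_ne_zero (congrArg Prod.snd e)).continuousAt
      (by fun_prop)
  have h5 : ∀ z : ℂ, z ≠ 0 → U (1, z) = z • U (z⁻¹, 1) := fun z hz => by
    rw [← hU.hom]
    simp [hz]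
  have h6 : ContinuousAt (fun t : ℂ => U (t, 1) a) 0 := continuousAt_pi.1 h4 a
  have h7 : U (0, 1) a ≠ 0 := fun e => hU.ne (0, 1) (fun e => one_ne_zero (congrArg Prod.snd e)) (by
    have e1 : U (0, 1) = (U (0, 1) a * (x a)⁻¹) • x :=
      tendsto_nhds_unique_of_eventuallyEq (l := 𝓝[≠] 0) (h4.tendsto.mono_left nhdsWithin_le_nhds)
        (((h6.tendsto.mul_const _).smul_const x).mono_left nhdsWithin_le_nhds) (by
          filter_upwards [self_mem_nhdsWithin] with t ht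
          have := h1 t⁻¹
          rw [h5 _ (inv_ne_zero ht), inv_inv, Pi.smul_apply, smul_eq_mul, mul_assoc, mul_smul] at this
          exact smul_right_injective _ (inv_ne_zero ht) this)
    rw [e1, e]
    simp)
  have h8 : Tendsto (fun z : ℂ => (U (1, z) a)⁻¹) (cocompact ℂ) (𝓝 (0 * (U (0, 1) a)⁻¹)) := by
    rw [← cobounded_eq_cocompact]
    refine (((continuousAt_id.mul (h6.inv₀ h7)).tendsto).comp tendsto_inv₀_cobounded).congr' ?_
    filter_upwards [Bornology.eventually_ne_cobounded 0] with z hz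
    simp [h5 z hz, mul_comm]
  have := ((differentiable_pi.1 h3 a).inv h2).apply_eq_of_tendsto_cocompact 0 h8
  simp [h2] at this

theorem fib_Fin (hS : LineSmoothStmt) (hW : HWStmt) (hC : ChartStmt) (hU : IsLine φ.J U) (x : V)
    (c : ℂ) : ∀ᶠ z in 𝓝[≠] c, ¬∃ k : ℂ, U (1, z) = k • x := by
  refine ((isPreconnected_univ.subset_or_subset (u := {c | ∀ᶠ z in 𝓝 c, ∃ k : ℂ, U (1, z) = k • x})
    (v := {c | ∀ᶠ z in 𝓝[≠] c, ¬∃ k : ℂ, U (1, z) = k • x}) isOpen_setOfPred_eventually_nhds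
    (isOpen_iff_eventually.2 fun c hc => ?_) (disjoint_left.2 fun c h1 h2 => ?_)
    fun c _ => fibU_Fin hW hC (sm_Fin hS hU) (cr_Fin hU) (hU.ne _ (ne_Fin c)) x).resolve_left
    fun h => liou_Fin hU x fun z => (mem_ofPred.1 (h (mem_univ z))).self_of_nhds) (mem_univ c)
  · rw [← nhdsNE_sup_pure, eventually_sup]
    exact ⟨(eventually_nhdsNE_eventually_nhds_iff.2 hc).mono fun y hy => nhdsWithin_le_nhds hy, hc⟩
  · obtain ⟨z, e1, e2⟩ := (Eventually.and (nhdsWithin_le_nhds h1) h2).exists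
    exact e2 e1

theorem crit_Fin (hS : LineSmoothStmt) (hW : HWStmt) (hC : ChartStmt) (hU : IsLine φ.J U)
    (c : ℂ) : ∀ᶠ z in 𝓝[≠] c, Function.Injective (fderiv ℝ U (1, z)) := by
  refine ((critU_Fin hW hC (sm_Fin hS hU) (cr_Fin hU) (hU.ne _ (ne_Fin c))).resolve_left
    fun h => ?_).mono fun z => inj_Fin hU
  obtain ⟨z, e1, e2⟩ := (Eventually.and (nhdsWithin_le_nhds h) (fib_Fin hS hW hC hU _ c)).exists
  exact e2 e1

end

theorem finS (hS : LineSmoothStmt) (hW : HWStmt) (hC : ChartStmt) : FinStmt := by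
  refine fun φ U hU => ⟨few_Fin (fun c hc q hq h => hq ?_)
    (fun c => (crit_Fin hS hW hC hU c).mono fun z hz h => h hz)
    ((crit_Fin hS hW hC (swap_Fin hU) 0).mono fun z hz h => h ?_), fun x => few_Fin ?_
    (fib_Fin hS hW hC hU x) (fib_Fin hS hW hC (swap_Fin hU) x 0)⟩
  · by_cases h0 : q = 0
    · rwa [h0, smul_zero, ← h0]
    have e1 : HasFDerivAt (fun p : W => c⁻¹ • p) (c⁻¹ • ContinuousLinearMap.id ℝ W) (c • q) :=
      (hasFDerivAt_id (c • q)).const_smul c⁻¹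
    have e2 := (HasFDerivAt.comp (g := U) (g' := fderiv ℝ U q) _
      (by rw [inv_smul_smul₀ hc]; exact (diff_Fin hU h0).hasFDerivAt) e1).const_smul c
    rw [(e2.congr_of_eventuallyEq (.of_forall fun p => by
      simp [hU.hom, hc])).fderiv]
    exact (smul_right_injective _ hc).comp (h.comp (smul_right_injective _ (inv_ne_zero hc)))
  · rw [ContinuousLinearEquiv.comp_right_fderiv] at hz
    exact Function.Injective.of_comp_right hz (ContinuousLinearEquiv.surjective _)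
  · rintro c hc q ⟨k, hk⟩
    exact ⟨c⁻¹ * k, by rw [mul_smul, ← hk, hU.hom, inv_smul_smul₀ hc]⟩

end Pool.Agent.MP_2fc7fa_gt.N
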