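import Pool.Agent.MP_2fc7fa_gt.N.IfB2

/-! Persistence of intersections of lines. -/

open scoped ContDiff ComplexConjugate Topology
open Set Complex Filter Metric

namespace Pool.Agent.MP_2fc7fa_gt.N

theorem trans_GPersist {q : W} (hq : q ≠ 0) : ∃ h, det2 q h = 1 := by
  by_cases h1 : q.1 = 0
  · have h2 : q.2 ≠ 0 := fun h2 => hq (Prod.ext h1 h2)
    exact ⟨(-q.2⁻¹, 0), by simp [det2, h2]⟩
  · exact ⟨(0, q.1⁻¹), by simp [det2, h1]⟩

theorem ne_GPersist {q h : W} (hh : det2 q h = 1) (z : ℂ) : q + z • h ≠ 0 := by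
  intro e
  have h1 : q.1 + z * h.1 = 0 := congrArg Prod.fst e
  have h2 : q.2 + z * h.2 = 0 := congrArg Prod.snd e
  unfold det2 at hh
  have : (1 : ℂ) = 0 := by linear_combination h.2 * h1 - h.1 * h2 - hh
  exact one_ne_zero this

/-- Coordinates near `q`. -/
theorem coord_GPersist {q h : W} (hh : det2 q h = 1) : ∃ c t : W → ℂ,
    Tendsto c (𝓝 q) (𝓝 1) ∧ Tendsto t (𝓝 q) (𝓝 0) ∧
      ∀ᶠ r in 𝓝 q, c r ≠ 0 ∧ r = c r • (q + t r • h) := by
  have h1 : Tendsto (fun r => det2 r h) (𝓝 q) (𝓝 1) :=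
    Continuous.tendsto' (by unfold det2; fun_prop) _ _ hh
  have h2 : Tendsto (fun r => det2 q r) (𝓝 q) (𝓝 0) :=
    Continuous.tendsto' (by unfold det2; fun_prop) _ _ (by unfold det2; ring)
  refine ⟨fun r => det2 r h, fun r => det2 q r / det2 r h, h1,
    (h2.div h1 one_ne_zero).trans (by rw [zero_div]), (h1.eventually_ne one_ne_zero).mono fun r hr => ⟨hr, ?_⟩⟩
  rw [smul_add, smul_smul, mul_div_cancel₀ _ hr]
  unfold det2 at hh ⊢
  refine Prod.ext ?_ ?_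
  · simp only [Prod.fst_add, Prod.smul_fst, smul_eq_mul]
    linear_combination (-r.1) * hh
  · simp only [Prod.snd_add, Prod.smul_snd, smul_eq_mul]
    linear_combination (-r.2) * hh

theorem ch_smul_GPersist (a : Fin 3) {c : ℂ} (hc : c ≠ 0) (x : V) : ch a (c • x) = ch a x := by
  simp [ch, mul_div_mul_left _ _ hc]

theorem ch_eq_GPersist {a : Fin 3} {x y : V} (hx : x a ≠ 0) (hy : y a ≠ 0) (h : ch a x = ch a y) :
    y = (y a / x a) • x := by
  have h1 : x (a + 1) / x a = y (a + 1) / y a := congrArg Prod.fst h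
  have h2 : x (a + 2) / x a = y (a + 2) / y a := congrArg Prod.snd h
  have h3 : ∀ a j : Fin 3, j = a ∨ j = a + 1 ∨ j = a + 2 := by decide
  funext j
  rw [Pi.smul_apply, smul_eq_mul, div_mul_comm]
  rcases h3 a j with rfl | rfl | rfl
  · rw [div_self hx, one_mul]
  · rw [h1, div_mul_cancel₀ _ hy]
  · rw [h2, div_mul_cancel₀ _ hy]

theorem ch_smooth_GPersist {a : Fin 3} {x : V} (hx : x a ≠ 0) : ContDiffAt ℝ ∞ (ch a) x := by
  have h1 : ∀ j, ContDiffAt ℝ ∞ (fun y : V => y j) x := fun j => contDiffAt_apply ℝ ℂ j x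
  have h2 : ch a = fun y : V => (y (a + 1) * (y a)⁻¹, y (a + 2) * (y a)⁻¹) := rfl
  rw [h2]
  exact ((h1 _).mul ((h1 _).inv hx)).prodMk ((h1 _).mul ((h1 _).inv hx))

theorem near_GPersist {U U' : W → V} {ε : ℝ} (hU : ∀ (c : ℂ) q, U (c • q) = c • U q)
    (hU' : ∀ (c : ℂ) q, U' (c • q) = c • U' q) (h : Near ε U' U) {q : W} (hq : q ≠ 0) :
    ‖U' q - U q‖ ≤ ‖q‖ * ε := by
  have h0 : (‖q‖ : ℂ) ≠ 0 := by simpa using hq
  have h1 := (h ((‖q‖ : ℂ)⁻¹ • q) (by simp [norm_smul, hq])).1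
  conv_lhs => rw [← smul_inv_smul₀ h0 q, hU, hU', ← smul_sub, norm_smul]
  simpa using mul_le_mul_of_nonneg_left h1 (norm_nonneg q)

theorem diff_GPersist {U : W → V} (hU : ContDiffOn ℝ 1 U {0}ᶜ) {q : W} (hq : q ≠ 0) :
    DifferentiableAt ℝ U q :=
  (hU.contDiffAt (isOpen_compl_singleton.mem_nhds hq)).differentiableAt one_ne_zero

theorem euler_GPersist {U : W → V} (hU : Hom1 U) {q : W} (hq : q ≠ 0) (c : ℂ) :
    fderiv ℝ U q (c • q) = c • U q := by
  have h1 : HasDerivAt (fun s : ℝ => 1 + (s : ℂ) * c) c 0 := by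
    simpa using (((hasDerivAt_id (0 : ℝ)).ofReal_comp).mul_const c).const_add 1
  have h2 := (diff_GPersist hU.1 hq).hasFDerivAt.comp_hasDerivAt_of_eq 0 (h1.smul_const q)
    (by simp)
  refine h2.unique ((h1.smul_const (U q)).congr_of_eventuallyEq (Eventually.of_forall fun s => ?_))
  exact hU.2 _ _

theorem slice_GPersist {U : W → V} {q h : W} {z : ℂ} (hU : DifferentiableAt ℝ U (q + z • h))
    (v : ℂ) : fderiv ℝ (fun z : ℂ => U (q + z • h)) z v = fderiv ℝ U (q + z • h) (v • h) := by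
  have h1 : HasFDerivAt (fun z : ℂ => q + z • h)
      ((ContinuousLinearMap.id ℝ ℂ).smulRight h) z := ((hasFDerivAt_id z).smul_const h).const_add q
  exact congrArg (· v) (hU.hasFDerivAt.comp z h1).fderiv

theorem cr_GPersist {φ : Fr} {U : W → V} (hU : IsLine φ.J U) {q h : W} (hh : det2 q h = 1)
    (z : ℂ) : CR φ.A (fun z : ℂ => U (q + z • h)) {z} := by
  intro y hy
  rw [mem_singleton_iff.1 hy]
  have h0 := ne_GPersist hh z
  have h1 := diff_GPersist hU.c1 h0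
  rw [slice_GPersist h1, slice_GPersist h1, hU.hol _ h0, one_smul, Fr.J, φ.AB _ (hU.ne _ h0)]

theorem smooth_GPersist {n : WithTop ℕ∞} {U : W → V} (hU : ContDiffOn ℝ n U {0}ᶜ) {q h : W}
    (hh : det2 q h = 1) : ContDiff ℝ n fun z : ℂ => U (q + z • h) :=
  hU.comp_contDiff (by fun_prop) (ne_GPersist hh)

theorem gpersist (hS : LineSmoothStmt) (hC : ChartStmt) (hP : PersistStmt) : GPersistStmt := by
  intro φ U w q₀ r₀ hU hw hq hr he hi δ hδ
  obtain ⟨a, ha⟩ : ∃ a, U q₀ a ≠ 0 := Function.ne_iff.1 (hU.ne _ hq)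
  obtain ⟨h, hh⟩ := trans_GPersist hq
  obtain ⟨k, hk⟩ := trans_GPersist hr
  obtain ⟨A, hA⟩ := hC.1 φ a
  obtain ⟨hA1, hA2⟩ := hC.2.1 φ a A hA
  have su := smooth_GPersist (hS φ U hU) hh
  have sw := smooth_GPersist (hS φ w hw) hk
  obtain ⟨η, hη, h1⟩ : ∃ η : ℝ, 0 < η ∧ ∀ c x y z, c ∈ closedBall (1 : ℂ) η →
      x ∈ closedBall (U q₀) η → y ∈ closedBall (U q₀) η → z ∈ closedBall (0 : ℂ) η →
      x a ≠ 0 ∧ (c * (y a / x a)) • (q₀ + z • h) ∈ ball q₀ δ := by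
    have c1 : ContinuousAt (fun p : ℂ × V × V × ℂ => p.2.1 a) (1, U q₀, U q₀, 0) := by fun_prop
    have c2 : ContinuousAt (fun p : ℂ × V × V × ℂ =>
        (p.1 * (p.2.2.1 a / p.2.1 a)) • (q₀ + p.2.2.2 • h)) (1, U q₀, U q₀, 0) := by
      fun_prop (disch := exact ha)
    obtain ⟨η, hη, h1⟩ := nhds_basis_closedBall.eventually_iff.1
      ((c1.eventually_ne ha).and (c2.eventually_mem (s := ball q₀ δ)
        (by simpa [ha] using ball_mem_nhds q₀ hδ)))
    refine ⟨η, hη, fun c x y z b1 b2 b3 b4 => h1 (x := (c, x, y, z)) ?_⟩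
    rw [← closedBall_prod_same, ← closedBall_prod_same, ← closedBall_prod_same]
    exact ⟨b1, b2, b3, b4⟩
  have h1' : ∀ x ∈ closedBall (U q₀) η, x a ≠ 0 := fun x hx =>
    (h1 1 x x 0 (mem_closedBall_self hη.le) hx hx (mem_closedBall_self hη.le)).1
  obtain ⟨r, hr0, h2⟩ : ∃ r : ℝ, 0 < r ∧ ∀ z ∈ ball (0 : ℂ) r, z ∈ closedBall (0 : ℂ) η ∧
      U (q₀ + z • h) ∈ closedBall (U q₀) (η / 2) ∧ w (r₀ + z • k) ∈ closedBall (U q₀) (η / 2) ∧
      q₀ + z • h ∈ ball q₀ 1 ∧ r₀ + z • k ∈ ball r₀ 1 ∧ r₀ + z • k ∈ ball r₀ δ := by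
    have c1 := su.continuous.tendsto' 0 (U q₀) (by simp)
    have c2 := sw.continuous.tendsto' 0 (U q₀) (by simp [he])
    have c3 : Tendsto (fun z : ℂ => q₀ + z • h) (𝓝 0) (𝓝 q₀) :=
      Continuous.tendsto' (by fun_prop) _ _ (by simp)
    have c4 : Tendsto (fun z : ℂ => r₀ + z • k) (𝓝 0) (𝓝 r₀) :=
      Continuous.tendsto' (by fun_prop) _ _ (by simp)
    exact nhds_basis_ball.eventually_iff.1 (Eventually.and (closedBall_mem_nhds _ hη)
      ((c1.eventually_mem (closedBall_mem_nhds _ (half_pos hη))).and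
      ((c2.eventually_mem (closedBall_mem_nhds _ (half_pos hη))).and
      ((c3.eventually_mem (ball_mem_nhds _ one_pos)).and
      ((c4.eventually_mem (ball_mem_nhds _ one_pos)).and
      (c4.eventually_mem (ball_mem_nhds _ hδ)))))))
  have hsub : closedBall (U q₀) (η / 2) ⊆ closedBall (U q₀) η :=
    closedBall_subset_closedBall (half_le_self hη.le)
  have nu := fun z hz => h1' _ (hsub (h2 z hz).2.1)
  have nw := fun z hz => h1' _ (hsub (h2 z hz).2.2.1)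
  have du := fun z => su.differentiable (by simp) z
  have dw := fun z => sw.differentiable (by simp) z
  obtain ⟨c, t, c1, c2, c3⟩ := coord_GPersist hh
  obtain ⟨c', t', c1', c2', c3'⟩ := coord_GPersist hk
  rcases hP A univ (ch a ∘ fun z : ℂ => U (q₀ + z • h)) (ch a ∘ fun z : ℂ => w (r₀ + z • k)) 0 0 r
    hA1 hr0
    (fun z hz => ((ch_smooth_GPersist (nu z hz)).comp z su.contDiffAt).contDiffWithinAt)
    (fun z hz => ((ch_smooth_GPersist (nw z hz)).comp z sw.contDiffAt).contDiffWithinAt)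
    (mapsTo_univ _ _) (mapsTo_univ _ _)
    (fun z hz => (hA2 _ z (du z) (nu z hz) (cr_GPersist hU hh z)).1 z rfl)
    (fun z hz => (hA2 _ z (dw z) (nw z hz) (cr_GPersist hw hk z)).1 z rfl)
    (by simp [he]) (fun e => by
      obtain ⟨b, hb⟩ := (hA2 _ 0 (du 0) (nu 0 (mem_ball_self hr0)) (cr_GPersist hU hh 0)).2.1 e
      rw [slice_GPersist (diff_GPersist hU.c1 (ne_GPersist hh 0)), zero_smul, add_zero, one_smul,
        ← euler_GPersist ⟨hU.c1, hU.hom⟩ hq] at hb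
      rw [hi hb] at hh
      simp [det2, mul_left_comm, mul_comm] at hh) with h3 | ⟨⟨δ', hδ', h3⟩, h4⟩
  · left
    filter_upwards [c3', c2'.eventually h3, c1'.eventually_mem (closedBall_mem_nhds _ hη),
      c2'.eventually_mem (ball_mem_nhds _ hr0)] with s b1 ⟨z, hz, b2⟩ b3 b4
    refine ⟨_, (h1 _ _ _ _ b3 (hsub (h2 z hz).2.1) (hsub (h2 _ b4).2.2.1) (h2 z hz).1).2, ?_⟩
    rw [hU.hom, mul_smul, ← ch_eq_GPersist (nu z hz) (nw _ b4) b2, ← hw.hom, ← b1.2]
  · refine Or.inr ⟨?_, ?_⟩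
    · obtain ⟨ρ, hρ, h5⟩ := nhds_basis_ball.eventually_iff.1
        (c3.and (c2.eventually_mem (ball_mem_nhds _ hδ')))
      refine ⟨ρ, hρ, ?_⟩
      filter_upwards [c3', c2'.eventually (eventually_nhdsWithin_iff.1 h3)] with s b1 b2 ⟨q, b3, b4⟩
      obtain ⟨⟨b5, b6⟩, b7⟩ := h5 b3
      refine ⟨c' s, ?_⟩
      by_cases b8 : t' s = 0
      · simpa [b8] using b1.2
      · refine absurd ⟨t q, b7, ?_⟩ (b2 b8)
        rw [b6, b1.2, hU.hom, hw.hom] at b4
        simpa [ch_smul_GPersist, b5, b1.1] using congrArg (ch a) b4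
    · obtain ⟨ε, hε, h5⟩ := h4 r hr0
      have uc := (isCompact_closedBall (U q₀) η).uniformContinuousOn_of_continuous
        fun x hx => (ch_smooth_GPersist (h1' x hx)).continuousAt.continuousWithinAt
      obtain ⟨ε', hε', h6⟩ := Metric.uniformContinuousOn_iff_le.1 uc ε hε
      have hm : 0 < min ε' (η / 2) := lt_min hε' (half_pos hη)
      have hM : 0 < ‖q₀‖ + ‖r₀‖ + 1 := by positivity
      have key : ∀ {f f' : W → V} {p l : W}, det2 p l = 1 → ‖p‖ ≤ ‖q₀‖ + ‖r₀‖ →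
          (∀ (c : ℂ) q, f (c • q) = c • f q) → Hom1 f' →
          Near (min ε' (η / 2) / (‖q₀‖ + ‖r₀‖ + 1)) f' f →
          (∀ z ∈ ball (0 : ℂ) r, f (p + z • l) ∈ closedBall (U q₀) (η / 2) ∧
            p + z • l ∈ ball p 1) →
          (∀ z ∈ ball (0 : ℂ) r, f' (p + z • l) ∈ closedBall (U q₀) η) ∧
          ContinuousOn (ch a ∘ fun z : ℂ => f' (p + z • l)) (ball 0 r) ∧
          ∀ z ∈ ball (0 : ℂ) r, ‖ch a (f' (p + z • l)) - ch a (f (p + z • l))‖ ≤ ε := by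
        intro f f' p l b1 b2 b3 b4 b5 b6
        have b7 : ∀ z ∈ ball (0 : ℂ) r, dist (f' (p + z • l)) (f (p + z • l)) ≤ min ε' (η / 2) := by
          intro z hz
          have b8 := norm_lt_of_mem_ball (b6 z hz).2
          rw [dist_eq_norm]
          refine (near_GPersist b3 b4.2 b5 (ne_GPersist b1 z)).trans ?_
          rw [mul_div_assoc', div_le_iff₀ hM, mul_comm]
          exact mul_le_mul_of_nonneg_left (by linarith) hm.le
        have b8 : ∀ z ∈ ball (0 : ℂ) r, f' (p + z • l) ∈ closedBall (U q₀) η := fun z hz => by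
          have := (dist_triangle _ _ _).trans
            (add_le_add ((b7 z hz).trans (min_le_right _ _)) (b6 z hz).1)
          rwa [add_halves] at this
        refine ⟨b8, fun z hz => ((ch_smooth_GPersist (h1' _ (b8 z hz))).continuousAt.comp
          (f := fun z : ℂ => f' (p + z • l))
          (smooth_GPersist b4.1 b1).continuous.continuousAt).continuousWithinAt, fun z hz => ?_⟩
        rw [← dist_eq_norm]
        exact h6 _ (b8 z hz) _ (hsub (b6 z hz).1) ((b7 z hz).trans (min_le_left _ _))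
      refine ⟨_, div_pos hm hM, fun U' w' b1 b2 b3 b4 => ?_⟩
      obtain ⟨u1, u2, u3⟩ := key hh (le_add_of_nonneg_right (norm_nonneg _)) hU.hom b1 b3
        fun z hz => ⟨(h2 z hz).2.1, (h2 z hz).2.2.2.1⟩
      obtain ⟨w1, w2, w3⟩ := key hk (le_add_of_nonneg_left (norm_nonneg _)) hw.hom b2 b4
        fun z hz => ⟨(h2 z hz).2.2.1, (h2 z hz).2.2.2.2.1⟩
      obtain ⟨z, hz, ζ, hζ, e⟩ := h5 _ _ u2 w2 u3 w3
      refine ⟨_, (h1 1 _ _ _ (mem_closedBall_self hη.le) (u1 z hz) (w1 ζ hζ) (h2 z hz).1).2,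
        _, (h2 ζ hζ).2.2.2.2.2, ?_⟩
      rw [b1.2, one_mul, ← ch_eq_GPersist (h1' _ (u1 z hz)) (h1' _ (w1 ζ hζ)) e]

end Pool.Agent.MP_2fc7fa_gt.N
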