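import Pool.Agent.MP_2fc7fa_gt.N.IfB

open scoped Topology Interval
open Set Complex Filter MeasureTheory

namespace Pool.Agent.MP_2fc7fa_gt.N

section
variable {E F : Type} [NormedAddCommGroup E] [NormedSpace ℝ E] [NormedAddCommGroup F]
  [NormedSpace ℝ F] {a b c d : ℝ}

/-- joint continuity on the rectangle -/
def Rc_Green (a b c d : ℝ) {G : Type} [TopologicalSpace G] (f : ℝ → ℝ → G) : Prop :=
  ContinuousOn (fun q : ℝ × ℝ => f q.1 q.2) (Icc a b ×ˢ Icc c d)

lemma right_Green {G : Type} [TopologicalSpace G] {f : ℝ → ℝ → G} (h : Rc_Green a b c d f)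
    {x : ℝ} (hx : x ∈ Icc a b) : ContinuousOn (f x) (Icc c d) :=
  ContinuousOn.comp (g := fun q : ℝ × ℝ => f q.1 q.2) h (Continuous.prodMk_right x).continuousOn
    fun _ hy => ⟨hx, hy⟩

lemma left_Green {G : Type} [TopologicalSpace G] {f : ℝ → ℝ → G} (h : Rc_Green a b c d f)
    {y : ℝ} (hy : y ∈ Icc c d) : ContinuousOn (fun x => f x y) (Icc a b) :=
  ContinuousOn.comp (g := fun q : ℝ × ℝ => f q.1 q.2) h (Continuous.prodMk_left y).continuousOn
    fun _ hx => ⟨hx, hy⟩

omit [NormedSpace ℝ E] in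
lemma bound_Green {f : ℝ → ℝ → E} (h : Rc_Green a b c d f) :
    ∃ M, 0 ≤ M ∧ ∀ x ∈ Icc a b, ∀ y ∈ Icc c d, ‖f x y‖ ≤ M := by
  obtain ⟨M, hM⟩ := (isCompact_Icc.prod isCompact_Icc).exists_bound_of_continuousOn h
  exact ⟨max M 0, le_max_right _ _, fun x hx y hy => (hM (x, y) ⟨hx, hy⟩).trans (le_max_left _ _)⟩

omit [NormedSpace ℝ E] in
lemma meas_Green (hcd : c ≤ d) {f : ℝ → E} (h : ContinuousOn f (Icc c d)) :
    AEStronglyMeasurable f (volume.restrict (Ι c d)) :=
  (intervalIntegrable_iff.1 (h.intervalIntegrable_of_Icc hcd)).aestronglyMeasurable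

lemma cont_Green (hcd : c ≤ d) {f : ℝ → ℝ → F} (h : Rc_Green a b c d f) :
    ContinuousOn (fun x => ∫ y in c..d, f x y) (Icc a b) := fun x hx => by
  obtain ⟨M, -, hM⟩ := bound_Green h
  have hs : Ι c d ⊆ Icc c d := by
    rw [uIoc_of_le hcd]
    exact Ioc_subset_Icc_self
  refine intervalIntegral.continuousWithinAt_of_dominated_interval (bound := fun _ => M) ?_ ?_
    intervalIntegrable_const (ae_of_all _ fun y hy => left_Green h (hs hy) x hx)
  · filter_upwards [self_mem_nhdsWithin] with t ht using meas_Green hcd (right_Green h ht)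
  · filter_upwards [self_mem_nhdsWithin] with t ht using ae_of_all _ fun y hy => hM t ht y (hs hy)

lemma prod_Green {φ : ℝ → E →L[ℝ] F} {φ' : E →L[ℝ] F} {w : ℝ → E} {x : ℝ}
    (h : HasDerivAt φ φ' x) (hw : ContinuousAt w x) :
    HasDerivAt (fun t => (φ t - φ x) (w t)) (φ' (w x)) x := by
  rw [hasDerivAt_iff_tendsto_slope] at h ⊢
  refine (((isBoundedBilinearMap_apply (𝕜 := ℝ) (E := E) (F := F)).continuous.tendsto
    (φ', w x)).comp (h.prodMk_nhds (hw.tendsto.mono_left nhdsWithin_le_nhds))).congr fun t => ?_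
  simp [slope]

lemma par_Green (hcd : c ≤ d) {f : ℝ → ℝ → F} {f' : ℝ → F} {x C : ℝ} (hx : x ∈ Ioo a b)
    (h : ∀ t ∈ Icc a b, ContinuousOn (f t) (Icc c d))
    (hl : ∀ t ∈ Icc a b, ∀ y ∈ Icc c d, ‖f t y - f x y‖ ≤ C * ‖t - x‖)
    (hd : ∀ y ∈ Icc c d, HasDerivAt (fun t => f t y) (f' y) x) :
    HasDerivAt (fun t => ∫ y in c..d, f t y) (∫ y in c..d, f' y) x := by
  have hs : Ι c d ⊆ Icc c d := by
    rw [uIoc_of_le hcd]
    exact Ioc_subset_Icc_self
  have hn : ∀ᶠ t in 𝓝[≠] x, t ∈ Icc a b := nhdsWithin_le_nhds (Icc_mem_nhds hx.1 hx.2)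
  have hx' := Ioo_subset_Icc_self hx
  rw [hasDerivAt_iff_tendsto_slope]
  refine (intervalIntegral.tendsto_integral_filter_of_dominated_convergence (μ := volume)
    (F := fun t y => (t - x)⁻¹ • (f t y - f x y)) (fun _ => C) ?_ ?_ intervalIntegrable_const
    (ae_of_all _ fun y hy => hasDerivAt_iff_tendsto_slope.1 (hd y (hs hy)))).congr' ?_
  · filter_upwards [hn] with t ht using
      meas_Green hcd (((h t ht).sub (h x hx')).const_smul (t - x)⁻¹)
  · filter_upwards [hn, self_mem_nhdsWithin] with t ht htx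
    refine ae_of_all _ fun y hy => ?_
    rw [norm_smul, norm_inv, inv_mul_le_iff₀ (norm_pos_iff.2 (sub_ne_zero.2 htx)), mul_comm]
    exact hl t ht y (hs hy)
  · filter_upwards [hn] with t ht
    rw [intervalIntegral.integral_smul, intervalIntegral.integral_sub
      ((h t ht).intervalIntegrable_of_Icc hcd) ((h x hx').intervalIntegrable_of_Icc hcd)]
    rfl

variable [CompleteSpace F] {U Ux Uy : ℝ → ℝ → E} {B Bx By : ℝ → ℝ → E →L[ℝ] F}

lemma var_Green (hcd : c ≤ d)
    (hU : ∀ x ∈ Icc a b, ∀ y ∈ Icc c d,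
      HasDerivAt (fun t => U t y) (Ux x y) x ∧ HasDerivAt (U x) (Uy x y) y)
    (hB : ∀ x ∈ Icc a b, ∀ y ∈ Icc c d,
      HasDerivAt (fun t => B t y) (Bx x y) x ∧ HasDerivAt (B x) (By x y) y)
    (cU : Rc_Green a b c d U) (cUx : Rc_Green a b c d Ux) (cUy : Rc_Green a b c d Uy)
    (cB : Rc_Green a b c d B) (cBx : Rc_Green a b c d Bx) (cBy : Rc_Green a b c d By)
    {x : ℝ} (hx : x ∈ Ioo a b) :
    HasDerivAt (fun t => ∫ y in c..d, B t y (Uy t y))
      ((∫ y in c..d, (Bx x y (Uy x y) - By x y (Ux x y))) +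
        (B x d (Ux x d) - B x c (Ux x c))) x := by
  have hx' := Ioo_subset_Icc_self hx
  have hn : Icc a b ∈ 𝓝 x := Icc_mem_nhds hx.1 hx.2
  obtain ⟨M1, -, h1⟩ := bound_Green cUx
  obtain ⟨M2, p2, h2⟩ := bound_Green cUy
  obtain ⟨M3, p3, h3⟩ := bound_Green cBx
  obtain ⟨M4, p4, h4⟩ := bound_Green cBy
  have hf := par_Green (f := fun t y => (B t y - B x y) (Uy t y) - By x y (U t y))
    (f' := fun y => Bx x y (Uy x y) - By x y (Ux x y)) (C := M3 * M2 + M4 * M1) hcd hx
    (fun t ht => (((right_Green cB ht).sub (right_Green cB hx')).clm_apply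
      (right_Green cUy ht)).sub ((right_Green cBy hx').clm_apply (right_Green cU ht)))
    (fun t ht y hy => by
      have a1 := (convex_Icc a b).norm_image_sub_le_of_norm_hasDerivWithin_le
        (fun s hs => (hU s hs y hy).1.hasDerivWithinAt) (fun s hs => h1 s hs y hy) hx' ht
      have a2 := (convex_Icc a b).norm_image_sub_le_of_norm_hasDerivWithin_le
        (fun s hs => (hB s hs y hy).1.hasDerivWithinAt) (fun s hs => h3 s hs y hy) hx' ht
      have a3 := (B t y - B x y).le_of_opNorm_le_of_le a2 (h2 t ht y hy)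
      have a4 := (By x y).le_of_opNorm_le_of_le (h4 x hx' y hy) a1
      have e : (B t y - B x y) (Uy t y) - By x y (U t y) -
          ((B x y - B x y) (Uy x y) - By x y (U x y)) =
          (B t y - B x y) (Uy t y) - By x y (U t y - U x y) := by
        rw [sub_self, ContinuousLinearMap.zero_apply, map_sub]
        abel
      rw [e]
      refine (norm_sub_le _ _).trans ((add_le_add a3 a4).trans_eq ?_)
      ring)
    fun y hy => (prod_Green (hB x hx' y hy).1 ((left_Green cUy hy).continuousAt hn)).sub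
      ((By x y).hasFDerivAt.comp_hasDerivAt x (hU x hx' y hy).1)
  refine (hf.add (((B x d).hasFDerivAt.comp_hasDerivAt x
    (hU x hx' d (right_mem_Icc.2 hcd)).1).sub ((B x c).hasFDerivAt.comp_hasDerivAt x
    (hU x hx' c (left_mem_Icc.2 hcd)).1))).congr_of_eventuallyEq ?_
  filter_upwards [hn] with t ht
  have i1 := ((right_Green cBy hx').clm_apply (right_Green cU ht)).add
    ((right_Green cB hx').clm_apply (right_Green cUy ht))
  have e := intervalIntegral.integral_eq_sub_of_hasDerivAt (a := c) (b := d)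
    (f := fun y => B x y (U t y)) (f' := fun y => By x y (U t y) + B x y (Uy t y))
    (fun y hy => (hB x hx' y (uIcc_of_le hcd ▸ hy)).2.clm_apply
      (hU t ht y (uIcc_of_le hcd ▸ hy)).2) (i1.intervalIntegrable_of_Icc hcd)
  refine Eq.trans ?_ (congrArg (_ + ·) e)
  refine Eq.trans ?_ (intervalIntegral.integral_add
    (ContinuousOn.intervalIntegrable_of_Icc hcd ((((right_Green cB ht).sub
      (right_Green cB hx')).clm_apply (right_Green cUy ht)).sub
      ((right_Green cBy hx').clm_apply (right_Green cU ht)))) (i1.intervalIntegrable_of_Icc hcd))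
  refine intervalIntegral.integral_congr fun y _ => ?_
  simp only [ContinuousLinearMap.sub_apply, Pi.add_apply, Pi.sub_apply]
  abel

lemma main_Green (hab : a ≤ b) (hcd : c ≤ d)
    (hU : ∀ x ∈ Icc a b, ∀ y ∈ Icc c d,
      HasDerivAt (fun t => U t y) (Ux x y) x ∧ HasDerivAt (U x) (Uy x y) y)
    (hB : ∀ x ∈ Icc a b, ∀ y ∈ Icc c d,
      HasDerivAt (fun t => B t y) (Bx x y) x ∧ HasDerivAt (B x) (By x y) y)
    (cU : Rc_Green a b c d U) (cUx : Rc_Green a b c d Ux) (cUy : Rc_Green a b c d Uy)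
    (cB : Rc_Green a b c d B) (cBx : Rc_Green a b c d Bx) (cBy : Rc_Green a b c d By) :
    (∫ x in a..b, B x c (Ux x c)) - (∫ x in a..b, B x d (Ux x d)) +
      (∫ y in c..d, B b y (Uy b y)) - (∫ y in c..d, B a y (Uy a y)) =
      ∫ x in a..b, ∫ y in c..d, (Bx x y (Uy x y) - By x y (Ux x y)) := by
  have i1 : IntervalIntegrable (fun x => ∫ y in c..d, (Bx x y (Uy x y) - By x y (Ux x y)))
      volume a b := (cont_Green hcd (f := fun x y => Bx x y (Uy x y) - By x y (Ux x y))
        ((cBx.clm_apply cUy).sub (cBy.clm_apply cUx))).intervalIntegrable_of_Icc hab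
  have i2 : ∀ y ∈ Icc c d, IntervalIntegrable (fun x => B x y (Ux x y)) volume a b := fun y hy =>
    ((left_Green cB hy).clm_apply (left_Green cUx hy)).intervalIntegrable_of_Icc hab
  have i3 := i2 d (right_mem_Icc.2 hcd)
  have i4 := i2 c (left_mem_Icc.2 hcd)
  have e := intervalIntegral.integral_eq_sub_of_hasDerivAt_of_le hab
    (cont_Green hcd (f := fun x y => B x y (Uy x y)) (cB.clm_apply cUy))
    (fun x hx => var_Green hcd hU hB cU cUx cUy cB cBx cBy hx) (i1.add (i3.sub i4))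
  rw [intervalIntegral.integral_add i1 (i3.sub i4), intervalIntegral.integral_sub i3 i4] at e
  rw [add_sub_assoc, ← e]
  abel

end

theorem green : GreenStmt := by
  intro E F _ _ _ _ _ _ β Ω u O a b c d hΩ hβ hO hu hm hab hcd hR
  have hp : ContinuousOn (fun q : ℝ × ℝ => (q.1 + q.2 * I : ℂ)) (Icc a b ×ˢ Icc c d) := by
    fun_prop
  have hpO : MapsTo (fun q : ℝ × ℝ => (q.1 + q.2 * I : ℂ)) (Icc a b ×ˢ Icc c d) O :=
    fun q hq => hR _ hq.1 _ hq.2
  have c1 := hu.continuousOn.comp hp hpO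
  have c2 := (hu.continuousOn_fderiv_of_isOpen hO le_rfl).comp hp hpO
  have c3 := hβ.continuousOn.comp c1 (hm.comp hpO)
  have c4 := (hβ.continuousOn_fderiv_of_isOpen hΩ le_rfl).comp c1 (hm.comp hpO)
  have c5 := c2.clm_apply (continuousOn_const (c := (1 : ℂ)))
  have c6 := c2.clm_apply (continuousOn_const (c := I))
  have hU : ∀ x ∈ Icc a b, ∀ y ∈ Icc c d,
      HasDerivAt (fun t : ℝ => u (t + y * I)) (fderiv ℝ u (x + y * I) 1) x ∧
      HasDerivAt (fun t : ℝ => u (x + t * I)) (fderiv ℝ u (x + y * I) I) y := fun x hx y hy => by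
    have h1 := ((hu.differentiableOn one_ne_zero).differentiableAt
      (hO.mem_nhds (hR x hx y hy))).hasFDerivAt
    have h2 : HasDerivAt (fun t : ℝ => (t + y * I : ℂ)) 1 x :=
      (ofRealCLM.hasDerivAt (x := x)).add_const _
    have h3 : HasDerivAt (fun t : ℝ => (x + t * I : ℂ)) I y := by
      simpa using ((ofRealCLM.hasDerivAt (x := y)).mul_const I).const_add (x : ℂ)
    exact ⟨h1.comp_hasDerivAt x h2, h1.comp_hasDerivAt y h3⟩
  refine main_Green (U := fun x y => u (x + y * I)) (B := fun x y => β (u (x + y * I)))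
    (Ux := fun x y => fderiv ℝ u (x + y * I) 1) (Uy := fun x y => fderiv ℝ u (x + y * I) I)
    (Bx := fun x y => fderiv ℝ β (u (x + y * I)) (fderiv ℝ u (x + y * I) 1))
    (By := fun x y => fderiv ℝ β (u (x + y * I)) (fderiv ℝ u (x + y * I) I)) hab hcd hU
    (fun x hx y hy => ?_) c1 c5 c6 c3 (c4.clm_apply c5) (c4.clm_apply c6)
  have h1 := ((hβ.differentiableOn one_ne_zero).differentiableAt
    (hΩ.mem_nhds (hm (hR x hx y hy)))).hasFDerivAt
  exact ⟨h1.comp_hasDerivAt x (hU x hx y hy).1, h1.comp_hasDerivAt y (hU x hx y hy).2⟩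

end Pool.Agent.MP_2fc7fa_gt.N
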