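import Pool.Agent.MP_2fc7fa_gt.N.IfB2

/-! Two points lie on a line of the family. -/

open scoped ContDiff Topology
open Set Complex Filter Metric

noncomputable section

namespace Pool.Agent.MP_2fc7fa_gt.N

section
variable {P : Type} [TopologicalSpace P] {F : P → W → V}

theorem fam_fderiv_H1 (h : Fam {0}ᶜ 1 V F) : JC {0}ᶜ fun p => fderiv ℝ (F p) :=
  ((h.fderivWithin isOpen_compl_singleton.uniqueDiffOn).congr fun _ _ hx =>
    (fderivWithin_of_isOpen isOpen_compl_singleton hx).symm).jc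

theorem jc_at_H1 {E : Type} [TopologicalSpace E] {G : P → W → E} (h : JC {0}ᶜ G) (p : P) {q : W}
    (hq : q ≠ 0) : ContinuousAt (fun a : P × W => G a.1 a.2) (p, q) :=
  ContinuousOn.continuousAt h ((isOpen_univ.prod isOpen_compl_singleton).mem_nhds ⟨trivial, hq⟩)

theorem jc_near_H1 {E : Type} [NormedAddCommGroup E] {G : P → W → E} (h : JC {0}ᶜ G) (p : P)
    {q : W} (hq : q ≠ 0) {ε : ℝ} (hε : 0 < ε) :
    ∀ᶠ a : P × W in 𝓝 (p, q), ‖G a.1 a.2 - G p a.2‖ ≤ ε := by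
  have h1 : ContinuousAt (fun a : P × W => G p a.2) (p, q) :=
    ContinuousAt.comp (g := fun a : P × W => G a.1 a.2) (f := fun a : P × W => (p, a.2))
      (jc_at_H1 h p hq) (by fun_prop)
  exact (((jc_at_H1 h p hq).sub h1).norm.eventually (ge_mem_nhds (by simpa using hε)))

theorem near_H1 (h : Fam {0}ᶜ 1 V F) (p : P) {ε : ℝ} (hε : 0 < ε) :
    ∀ᶠ p' in 𝓝 p, Near ε (F p') (F p) := by
  have h1 := (isCompact_sphere (0 : W) 1).eventually_forall_of_forall_eventually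
    (x₀ := p) (P := fun p' q => ‖F p' q - F p q‖ ≤ ε ∧ ‖fderiv ℝ (F p') q - fderiv ℝ (F p) q‖ ≤ ε)
    (fun q hq => by
      have hq' : q ≠ 0 := ne_of_mem_sphere hq one_ne_zero
      exact (jc_near_H1 h.jc p hq' hε).and (jc_near_H1 (fam_fderiv_H1 h) p hq' hε))
  exact h1.mono fun p' hp q hq => hp q (mem_sphere_zero_iff_norm.2 hq)

theorem e0_H1 : ((1, 0) : W) ≠ 0 := by simp

theorem jet_cont_H1 (h : Fam {0}ᶜ 1 V F) : Continuous fun p => jet (F p) := by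
  refine continuous_iff_continuousAt.2 fun p => ContinuousAt.prodMk ?_ ?_
  · exact ContinuousAt.comp (g := fun a : P × W => F a.1 a.2) (f := fun p : P => (p, ((1, 0) : W)))
      (jc_at_H1 h.jc p e0_H1) (by fun_prop)
  · exact (ContinuousAt.comp (g := fun a : P × W => fderiv ℝ (F a.1) a.2)
      (f := fun p : P => (p, ((1, 0) : W))) (jc_at_H1 (fam_fderiv_H1 h) p e0_H1)
      (by fun_prop)).clm_apply continuousAt_const

end

/-- The reparametrisation that fixes the first basis vector. -/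
def shear_H1 (a b : ℂ) (hb : b ≠ 0) : W ≃L[ℂ] W :=
  LinearEquiv.toContinuousLinearEquiv
    { toFun := fun q => (q.1 + a * q.2, b * q.2)
      invFun := fun q => (q.1 - a * (b⁻¹ * q.2), b⁻¹ * q.2)
      map_add' := fun q r => Prod.ext (by simp; ring) (by simp; ring)
      map_smul' := fun c q => Prod.ext (by simp; ring) (by simp; ring)
      left_inv := fun q => Prod.ext (by simp [hb]) (by simp [hb])
      right_inv := fun q => Prod.ext (by simp) (by simp [hb]) }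

theorem shear_apply_H1 (a b : ℂ) (hb : b ≠ 0) (q : W) :
    shear_H1 a b hb q = (q.1 + a * q.2, b * q.2) := rfl

variable {J : V → V → V} {U : W → V}

theorem diff_H1 (h : IsLine J U) : DifferentiableAt ℝ U (1, 0) :=
  (h.c1.contDiffAt (isOpen_compl_singleton.mem_nhds e0_H1)).differentiableAt one_ne_zero

theorem vert_H1 (h : IsLine J U) (c : ℂ) : fderiv ℝ U (1, 0) (c, 0) = c • U (1, 0) := by
  have h1 : HasDerivAt (fun t : ℝ => ((1, 0) : W) + t • ((c, 0) : W)) (c, 0) 0 := by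
    simpa using ((hasDerivAt_id (0 : ℝ)).smul_const ((c, 0) : W)).const_add ((1, 0) : W)
  have h2 := (diff_H1 h).hasFDerivAt.comp_hasDerivAt_of_eq (0 : ℝ) h1 (by simp)
  have h3 : HasDerivAt (fun t : ℝ => U (1, 0) + t • c • U (1, 0)) (c • U (1, 0)) 0 := by
    simpa using ((hasDerivAt_id (0 : ℝ)).smul_const (c • U (1, 0))).const_add (U (1, 0))
  refine h2.unique (h3.congr_of_eventuallyEq (Eventually.of_forall fun t => ?_))
  have e : ((1, 0) : W) + t • ((c, 0) : W) = (1 + t * c : ℂ) • ((1, 0) : W) := by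
    ext <;> simp
  show U (((1, 0) : W) + t • ((c, 0) : W)) = U (1, 0) + t • c • U (1, 0)
  rw [e, h.hom, add_smul, one_smul, mul_smul, Complex.coe_smul]

theorem jet_mem_H1 (h : IsLine J U) (he : IsEmb U) : jet U ∈ Jet := by
  refine ⟨h.ne _ e0_H1, fun c hc => ?_⟩
  have h1 := he.imm _ e0_H1 (hc.trans (vert_H1 h c).symm)
  simpa using congrArg Prod.snd h1

theorem jet_shear_H1 (h : IsLine J U) (a : ℂ) (b : ℝ) (hb : (b : ℂ) ≠ 0) :
    jet (U ∘ shear_H1 a b hb) = ((jet U).1, a • (jet U).1 + b • (jet U).2) := by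
  have e0 : shear_H1 a b hb (1, 0) = (1, 0) := by simp [shear_apply_H1]
  have h1 : HasFDerivAt (shear_H1 a b hb)
      ((shear_H1 a b hb : W →L[ℂ] W).restrictScalars ℝ) (1, 0) :=
    ((shear_H1 a b hb : W →L[ℂ] W).restrictScalars ℝ).hasFDerivAt
  have h2 : HasFDerivAt U (fderiv ℝ U (1, 0)) (shear_H1 a b hb (1, 0)) :=
    e0.symm ▸ (diff_H1 h).hasFDerivAt
  have e1 : shear_H1 a b hb (0, 1) = (a, 0) + b • ((0, 1) : W) := by
    simp [shear_apply_H1]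
  refine Prod.ext (congrArg U e0) ?_
  show fderiv ℝ (U ∘ shear_H1 a b hb) (1, 0) (0, 1) = _
  rw [(h2.comp _ h1).fderiv]
  show fderiv ℝ U (1, 0) (shear_H1 a b hb (0, 1)) = _
  rw [e1, map_add, map_smul, vert_H1 h]
  rfl

theorem closed_H1 (hC : CStmt) {φ : UI → Fr} {U : UI × Jet → W → V} (hφ : FrFam φ) (hS : Std φ)
    (hG : Good φ U) {x y : V} (hx : x ≠ 0) :
    IsClosed {s : UI | ∃ j : Jet, U (s, j) (1, 0) = x ∧ y ∈ range (U (s, j)) ∧ y ≠ 0} := by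
  obtain ⟨i, hi⟩ := Function.ne_iff.1 hx
  have hi' : x i ≠ 0 := hi
  let K : Set V := {ξ | ξ i = 0} ∩ sphere 0 1
  have hK : IsCompact K :=
    (isCompact_sphere 0 1).inter_left (isClosed_eq (continuous_apply i) continuous_const)
  have : CompactSpace K := isCompact_iff_compactSpace.1 hK
  have hm : ∀ ξ : K, (x, ξ.1) ∈ Jet := fun ξ => ⟨hx, fun c hc => by
    have h1 : ξ.1 = c • x := hc
    have h2 : c * x i = 0 := (congrFun h1 i).symm.trans ξ.2.1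
    rw [(mul_eq_zero.1 h2).resolve_right hi', zero_smul] at h1
    exact ne_of_mem_sphere ξ.2.2 one_ne_zero h1⟩
  let G : UI × (K × sphere (0 : W) 1) → V := fun a => U (a.1, ⟨(x, a.2.1.1), hm a.2.1⟩) a.2.2.1
  have hGc : Continuous G :=
    ContinuousOn.comp_continuous (g := fun q : (UI × Jet) × W => U q.1 q.2) hG.1.jc
      (f := fun a : UI × (K × sphere (0 : W) 1) =>
        ((a.1, (⟨(x, a.2.1.1), hm a.2.1⟩ : Jet)), a.2.2.1)) (by fun_prop)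
      fun a => ⟨trivial, ne_of_mem_sphere a.2.2.2 one_ne_zero⟩
  by_cases hy : y = 0
  · simp [hy]
  have h1 := isClosedMap_fst_of_compactSpace _
    ((Submodule.closed_of_finiteDimensional (Submodule.span ℂ {y})).preimage hGc)
  convert h1 using 1
  ext s
  constructor
  · rintro ⟨j, h2, ⟨r, hr⟩, -⟩
    obtain ⟨hl, -, hj⟩ := hG.2 (s, j)
    have hj1 : j.1.1 = x := (congrArg Prod.fst hj).symm.trans h2
    set η : V := j.1.2 - (j.1.2 i / x i) • x with hη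
    have hη0 : η ≠ 0 := fun e => j.2.2 (j.1.2 i / x i) (hj1.symm ▸ sub_eq_zero.1 e)
    have hn : ‖η‖ ≠ 0 := norm_ne_zero_iff.2 hη0
    have hb : ((‖η‖⁻¹ : ℝ) : ℂ) ≠ 0 := Complex.ofReal_ne_zero.2 (inv_ne_zero hn)
    let ξ : K := ⟨‖η‖⁻¹ • η, by simp [hη, hi'], by simp [norm_smul, hn]⟩
    obtain ⟨j', hj'⟩ := hC φ U hφ hS hG s j
      (shear_H1 (-((‖η‖⁻¹ : ℝ) * (j.1.2 i / x i))) (‖η‖⁻¹ : ℝ) hb)
    have e : j' = ⟨(x, ξ.1), hm ξ⟩ := by
      refine Subtype.ext (((hG.2 (s, j')).2.2).symm.trans ?_)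
      rw [← hj', jet_shear_H1 hl, hj, hj1]
      refine Prod.ext rfl ?_
      show _ = ‖η‖⁻¹ • (j.1.2 - (j.1.2 i / x i) • x)
      rw [smul_sub, neg_smul, mul_smul, Complex.coe_smul, neg_add_eq_sub]
    obtain ⟨r', rfl⟩ := (shear_H1 (-((‖η‖⁻¹ : ℝ) * (j.1.2 i / x i))) (‖η‖⁻¹ : ℝ) hb).surjective r
    have h3 : U (s, j') r' = y := (congrFun hj' r').symm.trans hr
    have hl' := (hG.2 (s, j')).1
    have hr0 : r' ≠ 0 := by
      rintro rfl
      have h4 := hl'.hom 0 0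
      rw [zero_smul, zero_smul] at h4
      exact hy (h3.symm.trans h4)
    have hrn : ‖r'‖ ≠ 0 := norm_ne_zero_iff.2 hr0
    refine ⟨(s, ξ, ⟨((‖r'‖⁻¹ : ℝ) : ℂ) • r', by simp [norm_smul, hrn]⟩), ?_, rfl⟩
    show U (s, ⟨(x, ξ.1), hm ξ⟩) (((‖r'‖⁻¹ : ℝ) : ℂ) • r') ∈ Submodule.span ℂ {y}
    rw [← e, hl'.hom, h3]
    exact Submodule.smul_mem _ _ (Submodule.mem_span_singleton_self y)
  · rintro ⟨⟨s, ξ, q⟩, h2, rfl⟩
    obtain ⟨c, hc⟩ := Submodule.mem_span_singleton.1 h2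
    obtain ⟨hl, -, hj⟩ := hG.2 (s, ⟨(x, ξ.1), hm ξ⟩)
    have hc' : c • y = U (s, ⟨(x, ξ.1), hm ξ⟩) q.1 := hc
    have hc0 : c ≠ 0 := by
      rintro rfl
      exact hl.ne _ (ne_of_mem_sphere q.2 one_ne_zero) (hc'.symm.trans (zero_smul _ _))
    refine ⟨⟨(x, ξ.1), hm ξ⟩, congrArg Prod.fst hj, ⟨c⁻¹ • q.1, ?_⟩, hy⟩
    rw [hl.hom, ← hc', inv_smul_smul₀ hc0]

theorem open_H1 (hI : IFTStmt) (hC : CStmt) {φ : UI → Fr} {U : UI × Jet → W → V} (hφ : FrFam φ)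
    (hS : Std φ) (hG : Good φ U) {x y : V} (hy : ∀ c : ℂ, y ≠ c • x) :
    IsOpen {s : UI | ∃ j : Jet, U (s, j) (1, 0) = x ∧ y ∈ range (U (s, j)) ∧ y ≠ 0} := by
  refine isOpen_iff_mem_nhds.2 ?_
  rintro s₀ ⟨j, h1, ⟨r, hr⟩, hy0⟩
  have hr2 : r.2 ≠ 0 := fun e => hy r.1 (by
    rw [← hr, ← h1, ← (hG.2 (s₀, j)).1.hom]
    exact congrArg _ (Prod.ext (by simp) (by simp [e])))
  obtain ⟨j₀, hj₀⟩ := hC φ U hφ hS hG s₀ j (shear_H1 r.1 r.2 hr2)
  obtain ⟨hl, he, hj⟩ := hG.2 (s₀, j₀)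
  have hc : con true (U (s₀, j₀)) = (x, y) := by
    rw [← hj₀, ← h1, ← hr]
    simp [con, shear_apply_H1]
  obtain ⟨N₁, hN₁, -, -, S₁, hF₁, hS₁, hL₁, -⟩ := hI UI φ s₀ (U (s₀, j₀)) true hφ hl he
  obtain ⟨N₂, hN₂, ε, hε, S₂, -, -, -, hU₂⟩ := hI UI φ s₀ (U (s₀, j₀)) false hφ hl he
  rw [hc] at hN₁ hS₁
  have hc' : ∀ u : W → V, con false u = jet u := fun _ => rfl
  rw [hc', hj] at hN₂
  have ht : Tendsto (fun s : UI => (s, (x, y))) (𝓝 s₀) (𝓝 (s₀, (x, y))) :=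
    (by fun_prop : Continuous fun s : UI => (s, (x, y))).tendsto s₀
  have a1 : ∀ᶠ a in 𝓝 (s₀, (x, y)), Near ε (S₁ a) (U (s₀, j₀)) := by
    have h2 := near_H1 hF₁ ⟨(s₀, (x, y)), mem_of_mem_nhds hN₁⟩ hε
    rw [eventually_nhds_subtype_iff N₁ _ (fun a => Near ε (S₁ a) (S₁ (s₀, (x, y)))),
      nhdsWithin_eq_nhds.2 hN₁, hS₁] at h2
    exact h2
  have a2 : Tendsto (fun s : UI => (s, jet (S₁ (s, (x, y))))) (𝓝 s₀) (𝓝 (s₀, j₀.1)) := by
    have h2 : ContinuousOn (fun a => jet (S₁ a)) N₁ :=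
      continuousOn_iff_continuous_domRestrict.2 (jet_cont_H1 hF₁)
    have h3 := (h2.continuousAt hN₁).tendsto
    rw [hS₁, hj] at h3
    exact tendsto_id.prodMk_nhds (h3.comp ht)
  have a3 : ∀ᶠ b in 𝓝 (s₀, j₀.1), ∀ a : UI × Jet, Prod.map id Subtype.val a = b →
      Near ε (U a) (U (s₀, j₀)) := by
    have h2 := near_H1 hG.1 (s₀, j₀) hε
    rwa [(Topology.IsInducing.id.prodMap Topology.IsInducing.subtypeVal).nhds_eq_comap,
      eventually_comap] at h2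
  filter_upwards [ht.eventually hN₁, ht.eventually a1, a2.eventually hN₂, a2.eventually a3]
    with s b1 b2 b3 b4
  obtain ⟨c1, c2, c3⟩ := hL₁ _ b1
  let j' : Jet := ⟨jet (S₁ (s, (x, y))), jet_mem_H1 c1 c2⟩
  have e : U (s, j') = S₁ (s, (x, y)) :=
    (hU₂ _ b3 _ (hG.2 (s, j')).1 (hG.2 (s, j')).2.2 (b4 (s, j') rfl)).trans
      (hU₂ _ b3 _ c1 rfl b2).symm
  exact ⟨j', e ▸ congrArg Prod.fst c3, ⟨(0, 1), e ▸ congrArg Prod.snd c3⟩, hy0⟩

theorem h1S (hI : IFTStmt) (hC : CStmt) (hL : LinStmt) : H1Stmt := by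
  intro φ U hφ hS hG s x y hx hy
  have hy0 : y ≠ 0 := fun e => hy 0 (e.trans (zero_smul _ _).symm)
  have h1 := IsClopen.eq_univ ⟨closed_H1 hC hφ hS hG (y := y) hx, open_H1 hI hC hφ hS hG hy⟩
    ⟨1, ⟨(x, y), hx, hy⟩, by
      obtain ⟨hl, -, hj⟩ := hG.2 (1, ⟨(x, y), hx, hy⟩)
      refine ⟨congrArg Prod.fst hj, ⟨(0, 1), ?_⟩, hy0⟩
      rw [hL _ _ hS hl, hj]
      simp⟩
  obtain ⟨j, h2, h3, -⟩ := h1.ge (mem_univ s)
  exact ⟨j, h2, h3⟩

end Pool.Agent.MP_2fc7fa_gt.N
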