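import Pool.Agent.MP_2fc7fa_gt.N.H2A

/-! Two lines of the family with two common points have the same image. -/

open scoped ContDiff ComplexConjugate Topology
open Set Complex Filter Metric

noncomputable section

namespace Pool.Agent.MP_2fc7fa_gt.N

variable {φ : UI → Fr} {U : UI × Jet → W → V}

lemma same0_H2 (hC : CStmt) (hF : FrFam φ) (hS : Std φ) (hG : Good φ U) (s : UI) (j j' : Jet)
    (h0 : U (s, j') (1, 0) = U (s, j) (1, 0)) (k : W)
    (h1 : fderiv ℝ (U (s, j')) (1, 0) (0, 1) = fderiv ℝ (U (s, j)) (1, 0) k) :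
    ∃ G : W ≃L[ℂ] W, U (s, j') = U (s, j) ∘ G := by
  obtain ⟨hl, -, -⟩ := hG.2 (s, j)
  obtain ⟨-, -, hj'⟩ := hG.2 (s, j')
  have hk : k.2 ≠ 0 := fun hk => by
    have e : k = k.1 • ((1, 0) : W) := by ext <;> simp [hk]
    rw [e, euler_H2 hl.c1 hl.hom e0_ne_H2, ← h0] at h1
    have h2 := j'.2.2 k.1
    have h3 : jet (U (s, j')) = j' := hj'
    rw [← h3] at h2
    exact h2 h1
  obtain ⟨g, hg⟩ := mk2_H2 (1, 0) k (by simpa [det2] using hk)
  obtain ⟨j'', hj''⟩ := hC φ U hF hS hG s j g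
  have g0 : g (1, 0) = (1, 0) := by simp [hg]
  have g1 : g (0, 1) = k := by simp [hg]
  have e1 : jet (U (s, j'')) = j'' := (hG.2 (s, j'')).2.2
  have e2 : jet (U (s, j')) = j' := hj'
  have e3 : j'' = j' := by
    apply Subtype.ext
    rw [← e1, ← e2, ← hj'', jet, jet, fd_comp_H2 hl.c1 g e0_ne_H2, Function.comp_apply, g0, g1,
      h0, h1]
  exact ⟨g, by rw [hj'', e3]⟩

lemma same_H2 (hC : CStmt) (hF : FrFam φ) (hS : Std φ) (hG : Good φ U) (s : UI) (j j' : Jet)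
    {q r : W} (hq : q ≠ 0) (hr : r ≠ 0) (h0 : U (s, j) q = U (s, j') r)
    (h1 : ∀ h, ∃ k, fderiv ℝ (U (s, j')) r h = fderiv ℝ (U (s, j)) q k) :
    ∃ G : W ≃L[ℂ] W, U (s, j') = U (s, j) ∘ G := by
  obtain ⟨g, hg⟩ := mk1_H2 q hq
  obtain ⟨g', hg'⟩ := mk1_H2 r hr
  obtain ⟨i, hi⟩ := hC φ U hF hS hG s j g
  obtain ⟨i', hi'⟩ := hC φ U hF hS hG s j' g'
  obtain ⟨k, hk⟩ := h1 (g' (0, 1))
  obtain ⟨G, hG'⟩ := same0_H2 hC hF hS hG s i i'
    (by rw [← hi, ← hi', Function.comp_apply, Function.comp_apply, hg, hg', h0]) (g.symm k)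
    (by rw [← hi, ← hi', fd_comp_H2 (hG.2 (s, j)).1.c1 g e0_ne_H2,
      fd_comp_H2 (hG.2 (s, j')).1.c1 g' e0_ne_H2, hg, hg', hk, g.apply_symm_apply])
  refine ⟨g'.symm.trans (G.trans g), funext fun z => ?_⟩
  have := congrFun hG' (g'.symm z)
  rw [← hi, ← hi'] at this
  simpa using this

lemma val_H2 (hG : Good φ U) (s : UI) (j : Jet) : U (s, j) (1, 0) = j.1.1 :=
  congrArg Prod.fst (hG.2 (s, j)).2.2

lemma der_H2 (hG : Good φ U) (s : UI) (j : Jet) : fderiv ℝ (U (s, j)) (1, 0) (0, 1) = j.1.2 :=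
  congrArg Prod.snd (hG.2 (s, j)).2.2

lemma taub_H2 (hG : Good φ U) (s : UI) (j : Jet) (k : W) :
    (φ s).A j.1.1 (fderiv ℝ (U (s, j)) (1, 0) k) = k.1 • j.1.1 + k.2 • (φ s).A j.1.1 j.1.2 := by
  have := tau_H2 (hG.2 (s, j)).1 k
  rwa [val_H2 hG, der_H2 hG] at this

/-- The jets `(x, B_t x v)`. -/
def jt_H2 (φ : UI → Fr) {x v : V} (hx : x ≠ 0) (hv : ∀ c : ℂ, v ≠ c • x) (t : UI) : Jet :=
  ⟨(x, (φ t).B x v), hx, fun c hc => hv c (by
    have := congrArg ((φ t).A x) hc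
    rwa [(φ t).AB x hx, avert_H2 _ hx] at this)⟩

lemma jt_cont_H2 (hF : FrFam φ) {x v : V} (hx : x ≠ 0) (hv : ∀ c : ℂ, v ≠ c • x) :
    Continuous (jt_H2 φ hx hv) := by
  refine Continuous.subtype_mk (continuous_const.prodMk ?_) _
  have h1 : ContinuousOn (fun q : UI × V => (φ q.1).B q.2) (univ ×ˢ {0}ᶜ) := (hF 0).1
  have h2 : Continuous fun t : UI => (φ t).B x :=
    h1.comp_continuous (f := fun t : UI => (t, x)) (by fun_prop) fun t => ⟨mem_univ _, hx⟩
  exact h2.clm_apply continuous_const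

lemma main_H2 (hC : CStmt) (hP : GPersistStmt) (hT : TransStmt) (hL : LinStmt) (hF : FrFam φ)
    (hS : Std φ) (hG : Good φ U) {x v v' : V} (hx : x ≠ 0) (hv : ∀ c : ℂ, v ≠ c • x)
    (hv' : ∀ a b : ℂ, v' ≠ a • x + b • v) (hw : ∀ c : ℂ, v' ≠ c • x) (t : UI) :
    OnlyAt (U (t, jt_H2 φ hx hv t)) (U (t, jt_H2 φ hx hw t)) := by
  set u : UI → W → V := fun t => U (t, jt_H2 φ hx hv t) with hu
  set w : UI → W → V := fun t => U (t, jt_H2 φ hx hw t) with hw'
  have fu : Fam {0}ᶜ 1 V u := hG.1.param (continuous_id.prodMk (jt_cont_H2 hF hx hv))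
  have fw : Fam {0}ᶜ 1 V w := hG.1.param (continuous_id.prodMk (jt_cont_H2 hF hx hw))
  have lu : ∀ t, IsLine (φ t).J (u t) := fun t => (hG.2 (t, jt_H2 φ hx hv t)).1
  have lw : ∀ t, IsLine (φ t).J (w t) := fun t => (hG.2 (t, jt_H2 φ hx hw t)).1
  have eu : ∀ t, IsEmb (u t) := fun t => (hG.2 (t, jt_H2 φ hx hv t)).2.1
  have ew : ∀ t, IsEmb (w t) := fun t => (hG.2 (t, jt_H2 φ hx hw t)).2.1
  have u0 : ∀ t, u t (1, 0) = x := fun t => val_H2 hG t _
  have w0 : ∀ t, w t (1, 0) = x := fun t => val_H2 hG t _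
  have tu : ∀ t k, (φ t).A x (fderiv ℝ (u t) (1, 0) k) = k.1 • x + k.2 • v := fun t k => by
    have := taub_H2 hG t (jt_H2 φ hx hv t) k
    simp only [jt_H2] at this
    rwa [(φ t).AB x hx] at this
  have tw : ∀ t k, (φ t).A x (fderiv ℝ (w t) (1, 0) k) = k.1 • x + k.2 • v' := fun t k => by
    have := taub_H2 hG t (jt_H2 φ hx hw t) k
    simp only [jt_H2] at this
    rwa [(φ t).AB x hx] at this
  have ind : ∀ a b c : ℂ, a • x + b • v = c • v' → b = 0 := fun a b c h => by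
    by_cases hc : c = 0
    · by_contra hb
      refine hv (-(a / b)) ?_
      rw [hc, zero_smul] at h
      have : v = b⁻¹ • (b • v) := by rw [smul_smul, inv_mul_cancel₀ hb, one_smul]
      rw [this, eq_neg_of_add_eq_zero_right h, smul_neg, smul_smul, neg_smul, div_eq_inv_mul]
    · exfalso
      refine hv' (c⁻¹ * a) (c⁻¹ * b) ?_
      rw [mul_smul, mul_smul, ← smul_add, h, smul_smul, inv_mul_cancel₀ hc, one_smul]
  let S : Set UI := {t | OnlyAt (u t) (w t)}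
  have h1 : (1 : UI) ∈ S := by
    intro q r hq hr e
    have a1 := hL _ _ hS (lu 1)
    have a2 := hL _ _ hS (lw 1)
    have d1 : ∀ k, fderiv ℝ (u 1) (1, 0) k = u 1 k := fun k => by
      have : u 1 = fun q : W => q.1 • (jet (u 1)).1 + q.2 • (jet (u 1)).2 := funext a1
      let T : W →L[ℂ] V := (ContinuousLinearMap.fst ℂ ℂ ℂ).smulRight (jet (u 1)).1 +
        (ContinuousLinearMap.snd ℂ ℂ ℂ).smulRight (jet (u 1)).2
      have h2 : HasFDerivAt (u 1) (T.restrictScalars ℝ) (1, 0) := by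
        rw [this]
        exact (T.restrictScalars ℝ).hasFDerivAt
      rw [h2.fderiv, a1 k]
      rfl
    have d2 : ∀ k, fderiv ℝ (w 1) (1, 0) k = w 1 k := fun k => by
      have : w 1 = fun q : W => q.1 • (jet (w 1)).1 + q.2 • (jet (w 1)).2 := funext a2
      let T : W →L[ℂ] V := (ContinuousLinearMap.fst ℂ ℂ ℂ).smulRight (jet (w 1)).1 +
        (ContinuousLinearMap.snd ℂ ℂ ℂ).smulRight (jet (w 1)).2
      have h2 : HasFDerivAt (w 1) (T.restrictScalars ℝ) (1, 0) := by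
        rw [this]
        exact (T.restrictScalars ℝ).hasFDerivAt
      rw [h2.fderiv, a2 k]
      rfl
    have b1 := tu 1 q
    have b2 := tw 1 r
    rw [d1, e] at b1
    rw [d2, b1] at b2
    refine ind (q.1 - r.1) q.2 r.2 ?_
    rw [sub_smul]
    linear_combination (exp := 1) b2
  have hop : IsOpen S := by
    rw [isOpen_iff_mem_nhds]
    intro t ht
    obtain ⟨ε, hε, h⟩ := hT (u t) (w t) ⟨(lu t).c1, (lu t).hom⟩ ⟨(lw t).c1, (lw t).hom⟩
      (lu t).ne (lw t).ne (eu t) (ew t) ((u0 t).trans (w0 t).symm) ht (fun h k e => by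
        have b1 := tu t (0, h)
        have b2 := tw t k
        rw [e, b2] at b1
        refine ind (-k.1) h k.2 ?_
        simp only [zero_smul, zero_add] at b1
        rw [neg_smul, ← b1]
        abel)
    filter_upwards [near_H2 fu t hε, near_H2 fw t hε] with t' n1 n2
    exact h _ _ ⟨(lu t').c1, (lu t').hom⟩ ⟨(lw t').c1, (lw t').hom⟩ n1 n2
      ((u0 t').trans (w0 t').symm)
  have hcl : IsClosed S := by
    rw [← isOpen_compl_iff, isOpen_iff_mem_nhds]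
    intro t ht
    simp only [S, OnlyAt, mem_compl_iff, mem_ofPred_eq, not_forall] at ht
    obtain ⟨q, r, hq, hr, e, hq2⟩ := ht
    obtain ⟨δ, hδ, htan⟩ := tang_H2 (diff_H2 (lu t).c1 hq).hasFDerivAt ((eu t).imm q hq)
    have hq2' : 0 < ‖q.2‖ := norm_pos_iff.2 hq2
    have hr' : 0 < ‖r‖ := norm_pos_iff.2 hr
    rcases hP (φ t) (u t) (w t) q r (lu t) (lw t) hq hr e ((eu t).imm q hq)
      (min δ (min ‖q.2‖ ‖r‖)) (lt_min hδ (lt_min hq2' hr')) with h | ⟨-, ε, hε, h⟩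
    · exfalso
      have h2 := htan (w t) _ r (diff_H2 (lw t).c1 hr).hasFDerivAt e
        (h.mono fun r' hr' => image_mono (ball_subset_ball (min_le_left _ _)) hr')
      obtain ⟨G, hG'⟩ := same_H2 hC hF hS hG t _ _ hq hr e h2
      have hG'' : w t = u t ∘ G := hG'
      have g0 : G (1, 0) = (1, 0) := by
        refine (eu t).inj (fun h0 => e0_ne_H2 (by simpa using h0)) e0_ne_H2 ?_
        rw [u0, ← w0 t, hG'']
        rfl
      have b2 := tw t (0, 1)
      rw [hG'', fd_comp_H2 (lu t).c1 G e0_ne_H2, g0, tu] at b2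
      refine hv' (G (0, 1)).1 (G (0, 1)).2 ?_
      simpa using b2.symm
    · filter_upwards [near_H2 fu t hε, near_H2 fw t hε] with t' n1 n2 ht'
      obtain ⟨q', hq', r', hr'', e'⟩ := h _ _ ⟨(lu t').c1, (lu t').hom⟩ ⟨(lw t').c1, (lw t').hom⟩
        n1 n2
      rw [mem_ball, dist_eq_norm, lt_min_iff, lt_min_iff] at hq' hr''
      have h3 : q'.2 ≠ 0 := fun h0 => by
        have := (norm_snd_le (q' - q)).trans_lt hq'.2.1
        simp [h0] at this
      have h4 : r' ≠ 0 := fun h0 => by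
        have := hr''.2.2
        simp [h0] at this
      exact h3 (ht' q' r' (fun h0 => h3 (by simp [h0])) h4 e')
  have := IsClopen.eq_univ ⟨hcl, hop⟩ ⟨1, h1⟩
  exact (this ▸ mem_univ t : t ∈ S)

theorem h2 (hC : CStmt) (hP : GPersistStmt) (hT : TransStmt) (hL : LinStmt) : H2Stmt := by
  intro φ U hF hS hG s j j' q q' r r' hq hq' e e'
  have hr : r ≠ 0 := fun h0 => (hG.2 (s, j)).1.ne q hq (by
    rw [e, h0, zero_H2 (hG.2 (s, j')).1.hom])
  have hr' : r' ≠ 0 := fun h0 => (hG.2 (s, j)).1.ne q' hq' (by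
    rw [e', h0, zero_H2 (hG.2 (s, j')).1.hom])
  obtain ⟨g, hg⟩ := mk1_H2 q hq
  obtain ⟨g', hg'⟩ := mk1_H2 r hr
  obtain ⟨i, hi⟩ := hC φ U hF hS hG s j g
  obtain ⟨i', hi'⟩ := hC φ U hF hS hG s j' g'
  have h0 : U (s, i') (1, 0) = U (s, i) (1, 0) := by
    rw [← hi, ← hi', Function.comp_apply, Function.comp_apply, hg, hg', e]
  have hx : i.1.1 ≠ 0 := i.2.1
  have hxx : i'.1.1 = i.1.1 := by rw [← val_H2 hG s, ← val_H2 hG s, h0]
  by_cases hsp : ∃ a b : ℂ, (φ s).A i.1.1 i'.1.2 = a • i.1.1 + b • (φ s).A i.1.1 i.1.2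
  · right
    obtain ⟨a, b, hab⟩ := hsp
    obtain ⟨G, hG'⟩ := same0_H2 hC hF hS hG s i i' h0 (a, b) (by
      rw [der_H2 hG, ← (φ s).BA _ hx i'.1.2, hab, ← taub_H2 hG s i (a, b), (φ s).BA _ hx])
    have r1 : range (U (s, j)) = range (U (s, i)) := by
      rw [← hi, g.surjective.range_comp]
    have r2 : range (U (s, j')) = range (U (s, i')) := by
      rw [← hi', g'.surjective.range_comp]
    rw [r1, r2, hG', G.surjective.range_comp]
  · left
    have hv : ∀ c : ℂ, (φ s).A i.1.1 i.1.2 ≠ c • i.1.1 := fun c hc => i.2.2 c (by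
      rw [← (φ s).BA _ hx i.1.2, hc, (φ s).vert _ hx])
    have hw : ∀ c : ℂ, (φ s).A i.1.1 i'.1.2 ≠ c • i.1.1 := fun c hc => hsp ⟨c, 0, by simp [hc]⟩
    have hm := main_H2 hC hP hT hL hF hS hG hx hv (fun a b h => hsp ⟨a, b, h⟩) hw s
    have k1 : jt_H2 φ hx hv s = i := Subtype.ext (Prod.ext rfl ((φ s).BA _ hx _))
    have k2 : jt_H2 φ hx hw s = i' := Subtype.ext (Prod.ext hxx.symm ((φ s).BA _ hx _))
    rw [k1, k2, ← hi, ← hi'] at hm
    have h3 := hm (g.symm q') (g'.symm r') (fun h0 => hq' (by simpa using h0))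
      (fun h0 => hr' (by simpa using h0)) (by simpa using e')
    refine ⟨(g.symm q').1, ?_⟩
    have : g.symm q' = (g.symm q').1 • ((1, 0) : W) := by ext <;> simp [h3]
    rw [← hg, ← map_smul, ← this, g.apply_symm_apply]

end Pool.Agent.MP_2fc7fa_gt.N
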