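import Pool.Agent.MP_2fc7fa_gt.N.IfB

open scoped ContDiff Topology
open Set Complex Filter Metric MeasureTheory

namespace Pool.Agent.MP_2fc7fa_gt.N

section
variable {E : Type} [NormedAddCommGroup E] [NormedSpace ℂ E]

theorem dbar_smul_HW {f : ℂ → ℂ} {φ : ℂ → E} {z : ℂ} (hf : DifferentiableAt ℂ f z)
    (hφ : DifferentiableAt ℝ φ z) : dbar (fun w => f w • φ w) z = f z • dbar φ z := by
  have h1 : fderiv ℝ f z I = I * fderiv ℝ f z 1 := by
    rw [hf.fderiv_restrictScalars ℝ]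
    simp only [ContinuousLinearMap.coe_restrictScalars']
    rw [← smul_eq_mul, ← map_smul, smul_eq_mul, mul_one]
  rw [dbar, dbar, fderiv_fun_smul (hf.restrictScalars ℝ) hφ]
  simp only [add_apply, smul_apply,
    ContinuousLinearMap.smulRight_apply, h1, smul_add, smul_smul, ← mul_assoc]
  simp only [mul_assoc _ I I, I_mul_I]
  module

/-- solutions of the differential inequality -/
def Good_HW (C : ℝ) (φ : ℂ → E) (c : ℂ) (ρ : ℝ) : Prop :=
  ContDiffOn ℝ 1 φ (ball c ρ \ {c}) ∧ ∀ z ∈ ball c ρ \ {c}, ‖dbar φ z‖ ≤ C * ‖φ z‖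

theorem mono_HW {C ρ ρ' : ℝ} {φ : ℂ → E} {c : ℂ} (h : Good_HW C φ c ρ) (hρ : ρ' ≤ ρ) :
    Good_HW C φ c ρ' :=
  ⟨h.1.mono (sdiff_subset_sdiff_left (ball_subset_ball hρ)),
    fun z hz => h.2 z (sdiff_subset_sdiff_left (ball_subset_ball hρ) hz)⟩

theorem open_HW (c : ℂ) (ρ : ℝ) : IsOpen (ball c ρ \ {c}) := isOpen_ball.sdiff isClosed_singleton

theorem pow_HW {C ρ : ℝ} {φ : ℂ → E} {c : ℂ} (h : Good_HW C φ c ρ) (k : ℕ) :
    Good_HW C (fun z => ((z - c) ^ k)⁻¹ • φ z) c ρ := by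
  have h1 : ContDiffOn ℂ 1 (fun z : ℂ => ((z - c) ^ k)⁻¹) (ball c ρ \ {c}) :=
    ((contDiffOn_id.sub contDiffOn_const).pow k).inv fun z hz => pow_ne_zero _ (sub_ne_zero.2 hz.2)
  refine ⟨(h1.restrict_scalars ℝ).smul h.1, fun z hz => ?_⟩
  have h2 := (open_HW c ρ).mem_nhds hz
  rw [dbar_smul_HW ((h1.contDiffAt h2).differentiableAt one_ne_zero)
    ((h.1.contDiffAt h2).differentiableAt one_ne_zero), norm_smul, norm_smul, mul_left_comm]
  exact mul_le_mul_of_nonneg_left (h.2 z hz) (norm_nonneg _)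

variable (E) in
/-- decomposition into a holomorphic and a small continuous part -/
def Dec_HW (B : ℝ) : Prop :=
  ∀ (φ : ℂ → E) (c : ℂ) (ρ C S : ℝ), 0 < ρ → 0 ≤ C → 0 ≤ S → Good_HW C φ c ρ →
    (∀ z ∈ ball c ρ \ {c}, ‖φ z‖ ≤ S) → ∃ h u : ℂ → E, DifferentiableOn ℂ h (ball c ρ) ∧
      Continuous u ∧ (∀ z, ‖u z‖ ≤ B * ρ * (C * S)) ∧ ∀ z ∈ ball c ρ \ {c}, φ z = h z + u z

theorem dec_HW [CompleteSpace E] (h1 : T1Stmt) (h2 : T2Stmt) : ∃ B, 0 < B ∧ Dec_HW E B := by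
  obtain ⟨B, hB, h1⟩ := h1
  refine ⟨B, hB, fun φ c ρ C S hρ hC hS hG hb => ?_⟩
  have hO := open_HW c ρ
  have hc : ContinuousOn (dbar φ) (ball c ρ \ {c}) := by
    have h3 := hG.1.continuousOn_fderiv_of_isOpen hO le_rfl
    exact ((h3.clm_apply continuousOn_const).add
      ((h3.clm_apply continuousOn_const).const_smul I)).const_smul (1 / 2 : ℂ)
  have hg : Bdd ((ball c ρ \ {c}).indicator (dbar φ)) c ρ (C * S) := by
    refine ⟨(aestronglyMeasurable_indicator_iff hO.measurableSet).2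
      (hc.aestronglyMeasurable hO.measurableSet), fun z => ?_, fun z hz => ?_⟩
    · by_cases hz : z ∈ ball c ρ \ {c}
      · rw [indicator_of_mem hz]
        exact (hG.2 z hz).trans (mul_le_mul_of_nonneg_left (hb z hz) hC)
      · rw [indicator_of_notMem hz, norm_zero]
        positivity
    · exact indicator_of_notMem (fun h => not_lt.2 hz (mem_ball_iff_norm.1 h.1)) _
  obtain ⟨u1, u2⟩ := h1 E _ c ρ _ hρ hg
  have h3 := h2 E _ φ c ρ _ _ hg hO hG.1 fun z hz => (indicator_of_mem hz _).symm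
  set u := cT ((ball c ρ \ {c}).indicator (dbar φ))
  have h4 := differentiableOn_update_limUnder_of_bddAbove (ball_mem_nhds c hρ) h3
    ⟨S + B * ρ * (C * S), by
      rintro _ ⟨z, hz, rfl⟩
      exact norm_sub_le_of_le (hb z hz) (u1 z)⟩
  refine ⟨_, u, h4, continuous_iff_continuousAt.2 fun z => ?_, u1, fun z hz => ?_⟩
  · rw [ContinuousAt, tendsto_iff_norm_sub_tendsto_zero]
    refine squeeze_zero (fun _ => norm_nonneg _) (fun w => u2 w trivial z trivial) ?_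
    have h5 : Continuous fun w : ℂ => B * √ρ * (C * S) * √‖w - z‖ := by fun_prop
    simpa using h5.tendsto z
  · rw [Function.update_of_ne hz.2, sub_add_cancel]

variable {B C : ℝ} {φ : ℂ → E} {c : ℂ}

theorem lim_HW {ρ : ℝ} (hρ : 0 < ρ) {h u : ℂ → E} (hh : DifferentiableOn ℂ h (ball c ρ))
    (hu : Continuous u) (he : ∀ z ∈ ball c ρ \ {c}, φ z = h z + u z) :
    Tendsto φ (𝓝[≠] c) (𝓝 (h c + u c)) := by
  have h1 : ContinuousAt (fun z => h z + u z) c :=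
    (hh.continuousOn.continuousAt (ball_mem_nhds c hρ)).add hu.continuousAt
  refine (h1.tendsto.mono_left nhdsWithin_le_nhds).congr' ?_
  filter_upwards [sdiff_mem_nhdsWithin_compl (ball_mem_nhds c hρ) {c}] with z hz
  exact (he z hz).symm

theorem half_HW (hD : Dec_HW E B) (hB : 0 < B) (hC : 0 ≤ C) {ρ S : ℝ} (hρ : 0 < ρ) (hS : 0 ≤ S)
    (hG : Good_HW C φ c ρ) (h0 : Tendsto φ (𝓝[≠] c) (𝓝 0))
    (hb : ∀ z ∈ ball c ρ \ {c}, ‖φ z‖ ≤ S) :
    ∀ z ∈ ball c (ρ / 2) \ {c}, ‖φ z‖ ≤ S / 2 * (1 + 6 * B * C * ρ) := by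
  obtain ⟨h, u, hh, hu, hs, he⟩ := hD φ c ρ C S hρ hC hS hG hb
  have h1 : h c + u c = 0 := tendsto_nhds_unique (lim_HW hρ hh hu he) h0
  have h2 : ∀ z, ‖u z - u c‖ ≤ B * ρ * (C * S) + B * ρ * (C * S) := fun z =>
    norm_sub_le_of_le (hs z) (hs c)
  have h3 : ∀ z ∈ ball c ρ \ {c}, φ z = h z - h c + (u z - u c) := fun z hz => by
    rw [he z hz, eq_neg_of_add_eq_zero_left h1]
    abel
  have h4 : 0 ≤ B * ρ * (C * S) := by positivity
  have h5 : MapsTo h (ball c ρ) (closedBall (h c) (S + (B * ρ * (C * S) + B * ρ * (C * S)))) :=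
    fun z hz => by
      by_cases e : z = c
      · rw [e]
        exact mem_closedBall_self (by positivity)
      · rw [mem_closedBall_iff_norm, ← sub_eq_iff_eq_add.2 (h3 z ⟨hz, e⟩)]
        exact norm_sub_le_of_le (hb z ⟨hz, e⟩) (h2 z)
  intro z hz
  have hz' : z ∈ ball c ρ := ball_subset_ball (by linarith) hz.1
  have h6 := dist_le_div_mul_dist_of_mapsTo_ball hh h5 hz'
  have h7 : (S + (B * ρ * (C * S) + B * ρ * (C * S))) / ρ * dist z c ≤
      (S + (B * ρ * (C * S) + B * ρ * (C * S))) / ρ * (ρ / 2) :=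
    mul_le_mul_of_nonneg_left (le_of_lt hz.1) (by positivity)
  rw [dist_eq_norm] at h6
  rw [h3 z ⟨hz', hz.2⟩]
  refine (norm_add_le_of_le (h6.trans h7) (h2 z)).trans (le_of_eq ?_)
  field_simp
  ring

theorem iter_HW (hD : Dec_HW E B) (hB : 0 < B) (hC : 0 ≤ C) {ρ S : ℝ} (hρ : 0 < ρ) (hS : 0 ≤ S)
    (hG : Good_HW C φ c ρ) (h0 : Tendsto φ (𝓝[≠] c) (𝓝 0))
    (hb : ∀ z ∈ ball c ρ \ {c}, ‖φ z‖ ≤ S) (n : ℕ) :
    ∀ z ∈ ball c (ρ * (1 / 2) ^ n) \ {c},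
      ‖φ z‖ ≤ S * (1 / 2) ^ n * Real.exp (12 * B * C * ρ * (1 - (1 / 2) ^ n)) := by
  induction n with
  | zero => simpa using hb
  | succ n ih =>
    intro z hz
    have h1 : (1 / 2 : ℝ) ^ n ≤ 1 := pow_le_one₀ (by norm_num) (by norm_num)
    have h2 := half_HW hD hB hC (by positivity) (by positivity)
      (mono_HW hG (mul_le_of_le_one_right hρ.le h1)) h0 ih z
      (by rwa [pow_succ, ← mul_assoc, mul_one_div] at hz)
    refine h2.trans ?_
    have h3 := Real.add_one_le_exp (6 * B * C * (ρ * (1 / 2) ^ n))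
    have h4 : Real.exp (12 * B * C * ρ * (1 - (1 / 2) ^ (n + 1))) =
        Real.exp (12 * B * C * ρ * (1 - (1 / 2) ^ n)) *
          Real.exp (6 * B * C * (ρ * (1 / 2) ^ n)) := by
      rw [← Real.exp_add]
      congr 1
      ring
    rw [h4, add_comm 1]
    refine (mul_le_mul_of_nonneg_left h3 (by positivity)).trans (le_of_eq ?_)
    ring

theorem lin_HW (hD : Dec_HW E B) (hB : 0 < B) (hC : 0 ≤ C) {ρ S : ℝ} (hρ : 0 < ρ) (hS : 0 ≤ S)
    (hG : Good_HW C φ c ρ) (h0 : Tendsto φ (𝓝[≠] c) (𝓝 0))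
    (hb : ∀ z ∈ ball c ρ \ {c}, ‖φ z‖ ≤ S) :
    ∃ K, 0 ≤ K ∧ ∀ z ∈ ball c ρ \ {c}, ‖φ z‖ ≤ K * ‖z - c‖ := by
  refine ⟨2 * S * Real.exp (12 * B * C * ρ) / ρ, by positivity, fun z hz => ?_⟩
  have h1 : 0 < ‖z - c‖ := norm_pos_iff.2 (sub_ne_zero.2 hz.2)
  obtain ⟨n, hn⟩ := exists_pow_lt_of_lt_one (div_pos h1 hρ) (show (1 / 2 : ℝ) < 1 by norm_num)
  have hn' : ρ * (1 / 2) ^ n ≤ ‖z - c‖ := by
    rw [lt_div_iff₀ hρ, mul_comm] at hn
    exact hn.le
  clear hn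
  induction n with
  | zero =>
    rw [pow_zero, mul_one] at hn'
    exact absurd (mem_ball_iff_norm.1 hz.1) (not_lt.2 hn')
  | succ n ih =>
    by_cases h2 : ρ * (1 / 2) ^ n ≤ ‖z - c‖
    · exact ih h2
    refine (iter_HW hD hB hC hρ hS hG h0 hb n z
      ⟨mem_ball_iff_norm.2 (not_le.1 h2), hz.2⟩).trans ?_
    have h3 : Real.exp (12 * B * C * ρ * (1 - (1 / 2) ^ n)) ≤ Real.exp (12 * B * C * ρ) :=
      Real.exp_le_exp.2 (mul_le_of_le_one_right (by positivity) (sub_le_self _ (by positivity)))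
    refine (mul_le_mul_of_nonneg_left h3 (by positivity)).trans
      (le_trans (le_of_eq ?_) (mul_le_mul_of_nonneg_left hn' (by positivity)))
    field_simp
    ring

theorem max_HW (hD : Dec_HW E B) (hC : 0 ≤ C) {ρ S A : ℝ} (hρ : 0 < ρ)
    (hs : B * ρ * C ≤ 1 / 4) (hS : 0 ≤ S) (hA : 0 ≤ A) (hG : Good_HW C φ c ρ)
    (hb : ∀ z ∈ ball c ρ \ {c}, ‖φ z‖ ≤ S)
    (ha : ∀ z ∈ ball c ρ, ρ / 2 ≤ ‖z - c‖ → ‖φ z‖ ≤ A) :
    ∀ z ∈ ball c ρ \ {c}, ‖φ z‖ ≤ 2 * A := by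
  have step : ∀ S, 0 ≤ S → (∀ z ∈ ball c ρ \ {c}, ‖φ z‖ ≤ S) →
      ∀ z ∈ ball c ρ \ {c}, ‖φ z‖ ≤ A + S / 2 := fun S hS hb z hz => by
    by_cases h1 : ρ / 2 ≤ ‖z - c‖
    · exact (ha z hz.1 h1).trans (le_add_of_nonneg_right (by positivity))
    obtain ⟨h, u, hh, -, hu, he⟩ := hD φ c ρ C S hρ hC hS hG hb
    have hu' : ∀ z, ‖u z‖ ≤ S / 4 := fun z => (hu z).trans (by
      rw [← mul_assoc]
      exact (mul_le_mul_of_nonneg_right hs hS).trans (le_of_eq (by ring)))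
    have h2 : closedBall c (ρ / 2) ⊆ ball c ρ := closedBall_subset_ball (by linarith)
    have h3 : ‖h z‖ ≤ A + S / 4 := by
      refine norm_le_of_forall_mem_frontier_norm_le isBounded_ball (hh.diffContOnCl_ball h2)
        (fun w hw => ?_) (subset_closure (mem_ball_iff_norm.2 (not_le.1 h1)))
      rw [frontier_ball c (by positivity)] at hw
      have h4 := mem_sphere_iff_norm.1 hw
      have h5 : w ∈ ball c ρ := h2 (sphere_subset_closedBall hw)
      have h6 : w ≠ c := fun e => by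
        rw [e, sub_self, norm_zero] at h4
        linarith
      rw [← sub_eq_iff_eq_add.2 (he w ⟨h5, h6⟩)]
      exact norm_sub_le_of_le (ha w h5 h4.ge) (hu' w)
    rw [he z hz]
    exact (norm_add_le_of_le h3 (hu' z)).trans (le_of_eq (by ring))
  have h1 : ∀ n : ℕ, ∀ z ∈ ball c ρ \ {c}, ‖φ z‖ ≤ 2 * A + S * (1 / 2) ^ n := fun n => by
    induction n with
    | zero => exact fun z hz => (hb z hz).trans (by simpa using hA)
    | succ n ih => exact fun z hz => (step _ (by positivity) ih z hz).trans (le_of_eq (by ring))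
  intro z hz
  have h2 := ((tendsto_pow_atTop_nhds_zero_of_lt_one (show (0 : ℝ) ≤ 1 / 2 by norm_num)
    (by norm_num)).const_mul S).const_add (2 * A)
  rw [mul_zero, add_zero] at h2
  exact ge_of_tendsto' h2 fun n => h1 n z hz

end

theorem hw (h1 : T1Stmt) (h2 : T2Stmt) : HWStmt := by
  intro E _ _ _ v c r C M hr hv hb
  obtain ⟨B, hB, hD⟩ := dec_HW (E := E) h1 h2
  have hC := abs_nonneg C
  have hM := abs_nonneg M
  obtain ⟨ρ, hρ, hρr, hs⟩ : ∃ ρ, 0 < ρ ∧ ρ ≤ r ∧ B * ρ * |C| ≤ 1 / 4 := by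
    refine ⟨min r (1 / (4 * (B * |C| + 1))), by positivity, min_le_left _ _, ?_⟩
    have h3 : B * |C| * min r (1 / (4 * (B * |C| + 1))) ≤ B * |C| * (1 / (4 * (B * |C| + 1))) :=
      mul_le_mul_of_nonneg_left (min_le_right _ _) (by positivity)
    rw [mul_right_comm]
    refine h3.trans ?_
    rw [mul_one_div, div_le_div_iff₀ (by positivity) (by positivity)]
    linarith
  have hG : Good_HW |C| v c ρ := mono_HW ⟨hv, fun z hz => (hb z hz).2.trans
    (mul_le_mul_of_nonneg_right (le_abs_self C) (norm_nonneg _))⟩ hρr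
  have hb' : ∀ z ∈ ball c ρ \ {c}, ‖v z‖ ≤ |M| := fun z hz =>
    (hb z (sdiff_subset_sdiff_left (ball_subset_ball hρr) hz)).1.trans (le_abs_self M)
  refine or_iff_not_imp_right.2 fun hn => ?_
  have h3 : ∀ k : ℕ, ∃ S, 0 ≤ S ∧ ∀ z ∈ ball c ρ \ {c}, ‖((z - c) ^ k)⁻¹ • v z‖ ≤ S := fun k => by
    induction k with
    | zero => exact ⟨|M|, hM, by simpa using hb'⟩
    | succ k ih =>
      obtain ⟨S, hS, ih⟩ := ih
      obtain ⟨h, u, hh, hu, -, he⟩ := hD _ c ρ _ S hρ hC hS (pow_HW hG k) ih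
      have h4 := lim_HW hρ hh hu he
      have h5 : h c + u c = 0 := by_contra fun e => hn ⟨k, _, e, h4⟩
      rw [h5] at h4
      obtain ⟨K, hK, h6⟩ := lin_HW hD hB hC hρ hS (pow_HW hG k) h4 ih
      refine ⟨K, hK, fun z hz => ?_⟩
      have h7 : 0 < ‖z - c‖ := norm_pos_iff.2 (sub_ne_zero.2 hz.2)
      rw [pow_succ', mul_inv, mul_smul, norm_smul, norm_inv, inv_mul_le_iff₀ h7, mul_comm]
      exact h6 z hz
  have h4 : ∀ (k : ℕ), ∀ z ∈ ball c ρ \ {c},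
      ‖((z - c) ^ k)⁻¹ • v z‖ ≤ 2 * (((ρ / 2) ^ k)⁻¹ * |M|) := fun k => by
    obtain ⟨S, hS, h5⟩ := h3 k
    refine max_HW hD hC hρ hs hS (by positivity) (pow_HW hG k) h5 fun z hz h6 => ?_
    have h7 : z ≠ c := fun e => by
      rw [e, sub_self, norm_zero] at h6
      linarith
    rw [norm_smul, norm_inv, norm_pow]
    exact mul_le_mul (inv_anti₀ (by positivity) (pow_le_pow_left₀ (by positivity) h6 k))
      (hb' z ⟨hz, h7⟩) (norm_nonneg _) (by positivity)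
  filter_upwards [sdiff_mem_nhdsWithin_compl (ball_mem_nhds c (half_pos hρ)) {c}] with z hz
  have h5 : 0 < ‖z - c‖ := norm_pos_iff.2 (sub_ne_zero.2 hz.2)
  have h6 := (tendsto_pow_atTop_nhds_zero_of_lt_one (div_pos h5 (half_pos hρ)).le
    ((div_lt_one (half_pos hρ)).2 (mem_ball_iff_norm.1 hz.1))).const_mul (2 * |M|)
  rw [mul_zero] at h6
  refine norm_le_zero_iff.1 (ge_of_tendsto' h6 fun k => ?_)
  have h7 := h4 k z ⟨ball_subset_ball (by linarith) hz.1, hz.2⟩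
  rw [norm_smul, norm_inv, norm_pow, inv_mul_le_iff₀ (by positivity)] at h7
  refine h7.trans (le_of_eq ?_)
  rw [div_pow _ (ρ / 2)]
  ring

end Pool.Agent.MP_2fc7fa_gt.N
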