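import Pool.Agent.MP_2fc7fa_gt.N.IfB2

/-! A unique transverse intersection stays unique. -/

open scoped ContDiff ComplexConjugate Topology
open Set Complex Filter Metric

noncomputable section

namespace Pool.Agent.MP_2fc7fa_gt.N

theorem unit_Trans {X : Type} [NormedAddCommGroup X] [NormedSpace ℝ X] {q : X} (hq : q ≠ 0) :
    ∃ (t : ℝ) (u : X), 0 < t ∧ t = ‖q‖ ∧ ‖u‖ = 1 ∧ q = t • u :=
  ⟨‖q‖, ‖q‖⁻¹ • q, norm_pos_iff.2 hq, rfl, norm_smul_inv_norm hq,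
    (smul_inv_smul₀ (norm_ne_zero_iff.2 hq) q).symm⟩

theorem rsmul_Trans {U : W → V} (h : Hom1 U) (t : ℝ) (q : W) : U (t • q) = t • U q := by
  rw [← Complex.coe_smul, h.2, Complex.coe_smul]

theorem zero_Trans {U : W → V} (h : Hom1 U) : U 0 = 0 := by
  simpa using h.2 0 0

theorem fderiv_Trans {U : W → V} (h : Hom1 U) {t : ℝ} (ht : t ≠ 0) (q : W) :
    fderiv ℝ U (t • q) = fderiv ℝ U q := by
  have h1 := fderiv_comp_smul (𝕜 := ℝ) (f := U) (x := q) t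
  have h2 : (fun x => U (t • x)) = t • U := funext fun x => rsmul_Trans h t x
  rw [h2, fderiv_const_smul_field] at h1
  exact (smul_right_injective _ ht h1).symm

theorem val_Trans {U U' : W → V} (h : Hom1 U) (h' : Hom1 U') {ε : ℝ} (hn : Near ε U' U) (q : W) :
    ‖U' q - U q‖ ≤ ε * ‖q‖ := by
  by_cases hq : q = 0
  · subst hq; simp [zero_Trans h, zero_Trans h']
  obtain ⟨t, u, ht, htq, hu, e⟩ := unit_Trans hq
  rw [← htq, e, rsmul_Trans h, rsmul_Trans h', ← smul_sub, norm_smul, Real.norm_of_nonneg ht.le,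
    mul_comm]
  exact mul_le_mul_of_nonneg_right (hn u hu).1 ht.le

theorem der_Trans {U U' : W → V} (h : Hom1 U) (h' : Hom1 U') {ε : ℝ} (hn : Near ε U' U) {q : W}
    (hq : q ≠ 0) : ‖fderiv ℝ U' q - fderiv ℝ U q‖ ≤ ε := by
  obtain ⟨t, u, ht, -, hu, e⟩ := unit_Trans hq
  rw [e, fderiv_Trans h ht.ne', fderiv_Trans h' ht.ne']
  exact (hn u hu).2

theorem cont_Trans {U : W → V} (h : Hom1 U) : Continuous U := by
  obtain ⟨M, hM⟩ := (isCompact_sphere (0 : W) 1).exists_bound_of_continuousOn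
    (h.1.continuousOn.mono fun q hq e => by
      rw [mem_singleton_iff.1 e] at hq
      simp at hq)
  have hb : ∀ q, ‖U q‖ ≤ M * ‖q‖ := fun q => by
    by_cases hq : q = 0
    · subst hq; simp [zero_Trans h]
    obtain ⟨t, u, ht, htq, hu, e⟩ := unit_Trans hq
    rw [← htq, e, rsmul_Trans h, norm_smul, Real.norm_of_nonneg ht.le, mul_comm]
    exact mul_le_mul_of_nonneg_right (hM u (by simpa using hu)) ht.le
  refine continuous_iff_continuousAt.2 fun q => ?_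
  by_cases hq : q = 0
  · subst hq
    rw [ContinuousAt, zero_Trans h]
    refine squeeze_zero_norm hb ?_
    have : Continuous fun q : W => M * ‖q‖ := by fun_prop
    simpa using this.tendsto 0
  · exact h.1.continuousOn.continuousAt (isOpen_compl_singleton.mem_nhds hq)

theorem loc_Trans {U : W → V} (h : Hom1 U) {η : ℝ} (hη : 0 < η) :
    ∃ δ : ℝ, 0 < δ ∧ ∀ U', Hom1 U' → Near η U' U → ∀ q ∈ ball ((1, 0) : W) δ,
      ‖U' q - U' (1, 0) - fderiv ℝ U (1, 0) (q - (1, 0))‖ ≤ 2 * η * ‖q - (1, 0)‖ := by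
  have h0 : ((1, 0) : W) ≠ 0 := by simp
  have hO : ({0}ᶜ : Set W) ∈ 𝓝 ((1, 0) : W) := isOpen_compl_singleton.mem_nhds h0
  have hc : ContinuousAt (fderiv ℝ U) (1, 0) :=
    (h.1.continuousOn_fderiv_of_isOpen isOpen_compl_singleton le_rfl).continuousAt hO
  obtain ⟨δ, hδ, hb⟩ := Metric.eventually_nhds_iff_ball.1
    ((Metric.tendsto_nhds.1 hc η hη).and hO)
  refine ⟨δ, hδ, fun U' h' hn q hq => ?_⟩
  refine (convex_ball _ δ).norm_image_sub_le_of_norm_fderiv_le' (𝕜 := ℝ) (fun x hx => ?_)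
    (fun x hx => ?_) (mem_ball_self hδ) hq
  · exact (h'.1.differentiableOn one_ne_zero).differentiableAt
      (isOpen_compl_singleton.mem_nhds (hb x hx).2)
  · have h1 := der_Trans h h' hn (hb x hx).2
    have h2 := (hb x hx).1
    rw [dist_eq_norm] at h2
    calc _ ≤ ‖fderiv ℝ U' x - fderiv ℝ U x‖ + ‖fderiv ℝ U x - fderiv ℝ U (1, 0)‖ :=
          norm_sub_le_norm_sub_add_norm_sub _ _ _
      _ ≤ 2 * η := by linarith

theorem lin_Trans (A B : W →L[ℝ] V) (hB : Function.Injective B)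
    (h : ∀ (h : ℂ) (k : W), A (0, h) = B k → h = 0) :
    ∃ K : ℝ, 0 < K ∧ ∀ (z : ℂ) (k : W), ‖(z, k)‖ ≤ K * ‖A (0, z) - B k‖ := by
  let L : ℂ × W →ₗ[ℝ] V :=
    (A : W →ₗ[ℝ] V) ∘ₗ LinearMap.inr ℝ ℂ ℂ ∘ₗ LinearMap.fst ℝ ℂ W -
      (B : W →ₗ[ℝ] V) ∘ₗ LinearMap.snd ℝ ℂ W
  have hL : ∀ z k, L (z, k) = A (0, z) - B k := fun _ _ => rfl
  have hi : Function.Injective L := by
    rw [injective_iff_map_eq_zero]
    rintro ⟨z, k⟩ e
    rw [hL, sub_eq_zero] at e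
    have hz := h z k e
    subst hz
    have : k = 0 := hB (by rw [← e, map_zero]; exact map_zero A)
    subst this
    rfl
  obtain ⟨K, hK, hA⟩ := L.injective_iff_antilipschitz.1 hi
  refine ⟨K, hK, fun z k => ?_⟩
  rw [← hL]
  exact ZeroHomClass.bound_of_antilipschitz L hA _

theorem far_Trans {U w : W → V} (hU : Hom1 U) (hw : Hom1 w) (nU : ∀ q, q ≠ 0 → U q ≠ 0)
    (nw : ∀ q, q ≠ 0 → w q ≠ 0) (iw : InjOn w {0}ᶜ) (e : U (1, 0) = w (1, 0)) (ho : OnlyAt U w)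
    {δ : ℝ} (hδ : 0 < δ) : ∃ m : ℝ, 0 < m ∧ ∀ q r : W, ‖(q, r)‖ = 1 → ‖U q - w r‖ < m →
      ‖q.2‖ < δ * ‖q.1‖ ∧ ‖r - q.1 • ((1, 0) : W)‖ < δ * ‖q.1‖ := by
  let O : Set (W × W) := {a | ‖a.1.2‖ < δ * ‖a.1.1‖} ∩
    {a | ‖a.2 - a.1.1 • ((1, 0) : W)‖ < δ * ‖a.1.1‖}
  have hO : IsOpen O :=
    (isOpen_lt (by fun_prop) (by fun_prop)).inter (isOpen_lt (by fun_prop) (by fun_prop))
  have cU := cont_Trans hU
  have cw := cont_Trans hw
  obtain ⟨m, hm, H⟩ := ((isCompact_sphere (0 : W × W) 1).diff hO).exists_forall_le'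
    (f := fun a => ‖U a.1 - w a.2‖) (a := 0) (Continuous.continuousOn (by fun_prop)) (by
      rintro ⟨q, r⟩ ⟨h1, h2⟩
      refine norm_pos_iff.2 fun h3 => h2 ?_
      have h3 : U q = w r := sub_eq_zero.1 h3
      have hq : q ≠ 0 := by
        rintro rfl
        have hr : r = 0 := by
          by_contra hr
          exact nw r hr (h3.symm.trans (zero_Trans hU))
        subst hr
        simp at h1
      have hr : r ≠ 0 := by
        rintro rfl
        exact nU q hq (h3.trans (zero_Trans hw))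
      have h4 : q.2 = 0 := ho q r hq hr h3
      have h5 : q = q.1 • ((1, 0) : W) := Prod.ext (by simp) (by simp [h4])
      have h6 : q.1 ≠ 0 := fun h => hq (Prod.ext h h4)
      have h7 : r = q := iw hr hq (by rw [← h3, h5, hU.2, hw.2, e])
      have h8 : 0 < δ * ‖q.1‖ := mul_pos hδ (norm_pos_iff.2 h6)
      refine ⟨?_, ?_⟩
      · show ‖q.2‖ < δ * ‖q.1‖
        rwa [h4, norm_zero]
      · show ‖r - q.1 • ((1, 0) : W)‖ < δ * ‖q.1‖
        rwa [h7, ← h5, sub_self, norm_zero])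
  refine ⟨m, hm, fun q r h1 h2 => ?_⟩
  by_contra h3
  exact absurd (H (q, r) ⟨by simpa using h1, h3⟩) (not_le.2 h2)

theorem trans : TransStmt := by
  intro U w hU hw nU nw _ ew e ho ht
  obtain ⟨K, hK, HK⟩ := lin_Trans _ _ (ew.imm (1, 0) (by simp)) ht
  have hη : 0 < 1 / (8 * K) := by positivity
  obtain ⟨δ₁, h1, H1⟩ := loc_Trans hU hη
  obtain ⟨δ₂, h2, H2⟩ := loc_Trans hw hη
  obtain ⟨m, hm, Hm⟩ := far_Trans hU hw nU nw ew.inj e ho (lt_min h1 h2)
  refine ⟨min (1 / (8 * K)) (m / 4), lt_min hη (by positivity), fun U' w' hU' hw' n1 n2 e' => ?_⟩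
  have mono : ∀ {F F' : W → V}, Near (min (1 / (8 * K)) (m / 4)) F' F →
      Near (1 / (8 * K)) F' F ∧ Near (m / 4) F' F := fun h =>
    ⟨fun q hq => ⟨(h q hq).1.trans (min_le_left _ _), (h q hq).2.trans (min_le_left _ _)⟩,
      fun q hq => ⟨(h q hq).1.trans (min_le_right _ _), (h q hq).2.trans (min_le_right _ _)⟩⟩
  have loc : ∀ (z : ℂ) (r : W), ‖z‖ < min δ₁ δ₂ → ‖r - (1, 0)‖ < min δ₁ δ₂ →
      U' (1, z) = w' r → z = 0 := by
    intro z r hz hr h
    have e1 : ((1, z) : W) - (1, 0) = (0, z) := by simp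
    have e2 : ‖((0, z) : W)‖ = ‖z‖ := by simp
    have a1 := H1 U' hU' (mono n1).1 (1, z) (by
      rw [mem_ball_iff_norm, e1, e2]; exact hz.trans_le (min_le_left _ _))
    have a2 := H2 w' hw' (mono n2).1 r (by
      rw [mem_ball_iff_norm]; exact hr.trans_le (min_le_right _ _))
    rw [e1, e2, h, e'] at a1
    have a3 := HK z (r - (1, 0))
    set k := r - (1, 0)
    have a4 : ‖fderiv ℝ U (1, 0) (0, z) - fderiv ℝ w (1, 0) k‖ ≤
        2 * (1 / (8 * K)) * ‖k‖ + 2 * (1 / (8 * K)) * ‖z‖ := by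
      refine le_trans ?_ (add_le_add a2 a1)
      refine le_trans (le_of_eq ?_) (norm_sub_le _ _)
      congr 1
      abel
    have a5 : ‖z‖ ≤ ‖(z, k)‖ := norm_fst_le (z, k)
    have a6 : ‖k‖ ≤ ‖(z, k)‖ := norm_snd_le (z, k)
    have a7 : K * (2 * (1 / (8 * K)) * ‖k‖ + 2 * (1 / (8 * K)) * ‖z‖) = (‖k‖ + ‖z‖) / 4 := by
      field_simp
      ring
    have a8 := mul_le_mul_of_nonneg_left a4 hK.le
    have a9 := norm_nonneg z
    exact norm_eq_zero.1 (by linarith)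
  have key : ∀ q r : W, ‖(q, r)‖ = 1 → U' q = w' r → q.2 = 0 := by
    intro q r hn h
    have b1 := val_Trans hU hU' (mono n1).2 q
    have b2 := val_Trans hw hw' (mono n2).2 r
    have b3 : ‖q‖ ≤ 1 := hn ▸ norm_fst_le (q, r)
    have b4 : ‖r‖ ≤ 1 := hn ▸ norm_snd_le (q, r)
    have b5 : ‖U q - w r‖ ≤ ‖w' r - w r‖ + ‖U' q - U q‖ := by
      refine le_trans (le_of_eq ?_) (norm_sub_le _ _)
      rw [h]
      congr 1
      abel
    obtain ⟨c1, c2⟩ := Hm q r hn (by nlinarith)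
    have c3 : 0 < ‖q.1‖ := by
      by_contra c3
      have := mul_nonpos_of_nonneg_of_nonpos (lt_min h1 h2).le (not_lt.1 c3)
      linarith [norm_nonneg q.2]
    have c4 : q.1 ≠ 0 := norm_pos_iff.1 c3
    have c5 : q.1⁻¹ • q = (1, q.1⁻¹ * q.2) := Prod.ext (by simp [c4]) rfl
    have c6 := loc (q.1⁻¹ * q.2) (q.1⁻¹ • r)
      (by rw [norm_mul, norm_inv, inv_mul_lt_iff₀ c3, mul_comm]; exact c1)
      (by
        have : q.1⁻¹ • r - (1, 0) = q.1⁻¹ • (r - q.1 • ((1, 0) : W)) := by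
          rw [smul_sub, inv_smul_smul₀ c4]
        rw [this, norm_smul, norm_inv, inv_mul_lt_iff₀ c3, mul_comm]; exact c2)
      (by rw [← c5, hU'.2, hw'.2, h])
    exact (mul_eq_zero.1 c6).resolve_left (inv_ne_zero c4)
  intro q r hq _ h
  obtain ⟨t, ⟨q', r'⟩, ht, -, hu, e2⟩ := unit_Trans (q := (q, r)) fun h => hq (congrArg Prod.fst h)
  have e3 : q = t • q' := congrArg Prod.fst e2
  have e4 : r = t • r' := congrArg Prod.snd e2
  rw [e3, e4, rsmul_Trans hU', rsmul_Trans hw'] at h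
  rw [e3, Prod.smul_snd, key q' r' hu (smul_right_injective _ ht.ne' h), smul_zero]

end Pool.Agent.MP_2fc7fa_gt.N
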