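import Pool.Agent.MP_2fc7fa_gt.N.IfI
import Pool.Agent.MP_2fc7fa_gt.N.Trans

/-! The implicit function theorem for embedded lines: final assembly. -/

open scoped ContDiff ComplexConjugate Topology
open Set Complex Filter Metric

noncomputable section

namespace Pool.Agent.MP_2fc7fa_gt.N

section
variable {E : Type} [NormedAddCommGroup E] {f g : ℂ → E} {S : Set ℂ} {M M' : ℝ}

theorem hbMono_IFT2 (h : HB M f S) (hM : M ≤ M') : HB M' f S :=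
  ⟨fun z hz => (h.1 z hz).trans hM, fun z hz z' hz' => (h.2 z hz z' hz').trans
    (mul_le_mul_of_nonneg_right hM (Real.sqrt_nonneg _))⟩

theorem hbAdd_IFT2 (h : HB M f S) (h' : HB M' g S) : HB (M + M') (fun z => f z + g z) S :=
  ⟨fun z hz => (norm_add_le _ _).trans (add_le_add (h.1 z hz) (h'.1 z hz)), fun z hz z' hz' => by
    rw [add_sub_add_comm, add_mul]
    exact (norm_add_le _ _).trans (add_le_add (h.2 z hz z' hz') (h'.2 z hz z' hz'))⟩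

theorem hbNeg_IFT2 (h : HB M f S) : HB M (fun z => -f z) S :=
  ⟨fun z hz => by rw [norm_neg]; exact h.1 z hz, fun z hz z' hz' => by
    rw [neg_sub_neg, norm_sub_rev]
    exact h.2 z hz z' hz'⟩

theorem hbZero_IFT2 (hM : 0 ≤ M) : HB M (0 : ℂ → E) S :=
  ⟨fun z _ => by simpa using hM, fun z _ z' _ => by
    simpa using mul_nonneg hM (Real.sqrt_nonneg _)⟩

end

theorem jcNear_IFT2 {Q E : Type} [TopologicalSpace Q] [NormedAddCommGroup E] (G : Q → W → E)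
    (w : W → ℝ) (hw : Continuous w) (hc : ∀ a, ContinuousOn (G a) {0}ᶜ)
    (hn : ∀ a₀, ∀ ε : ℝ, 0 < ε → ∀ᶠ a in 𝓝 a₀, ∀ q, q ≠ 0 → ‖G a q - G a₀ q‖ ≤ ε * w q) :
    JC {0}ᶜ G := by
  rintro ⟨a₀, q₀⟩ ⟨-, hq₀⟩
  have hO : ({0}ᶜ : Set W) ∈ 𝓝 q₀ := isOpen_compl_singleton.mem_nhds hq₀
  have h1 : ContinuousAt (fun z : Q × W => G a₀ z.2) (a₀, q₀) :=
    ContinuousAt.comp (g := G a₀) (f := Prod.snd) ((hc a₀).continuousAt hO) continuousAt_snd
  have h2 : Tendsto (fun z : Q × W => G z.1 z.2 - G a₀ z.2) (𝓝 (a₀, q₀)) (𝓝 0) := by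
    refine NormedAddGroup.tendsto_nhds_zero.2 fun ε hε => ?_
    have h3 : 0 < |w q₀| + 1 := by positivity
    have h4 : ∀ᶠ q in 𝓝 q₀, w q < |w q₀| + 1 :=
      hw.continuousAt.eventually_lt continuousAt_const (by linarith [le_abs_self (w q₀)])
    filter_upwards [(hn a₀ _ (div_pos hε h3)).prod_nhds (h4.and hO)] with z hz
    refine (hz.1 z.2 hz.2.2).trans_lt ?_
    calc ε / (|w q₀| + 1) * w z.2 < ε / (|w q₀| + 1) * (|w q₀| + 1) :=
          mul_lt_mul_of_pos_left hz.2.1 (div_pos hε h3)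
      _ = ε := div_mul_cancel₀ _ h3.ne'
  refine ContinuousAt.continuousWithinAt ?_
  simpa [ContinuousAt] using h2.add h1

theorem diff_IFT2 {U : W → V} (h : Hom1 U) {q : W} (hq : q ≠ 0) :
    HasFDerivAt U (fderiv ℝ U q) q :=
  ((h.1.contDiffAt (isOpen_compl_singleton.mem_nhds hq)).differentiableAt
    one_ne_zero).hasFDerivAt

theorem famNear_IFT2 {Q : Type} [TopologicalSpace Q] {F : Q → W → V} (h : ∀ a, Hom1 (F a))
    (hn : ∀ a₀, ∀ ε : ℝ, 0 < ε → ∀ᶠ a in 𝓝 a₀, Near ε (F a) (F a₀)) : Fam {0}ᶜ 1 V F :=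
  ⟨jcNear_IFT2 F (fun q => ‖q‖) continuous_norm (fun a => (h a).1.continuousOn) fun a₀ ε hε =>
      (hn a₀ ε hε).mono fun a ha q _ => val_Trans (h a₀) (h a) ha q,
    fun a => fderiv ℝ (F a), fun a _ hq => (diff_IFT2 (h a) hq).hasFDerivWithinAt,
    jcNear_IFT2 _ (fun _ => 1) continuous_const
      (fun a => (h a).1.continuousOn_fderiv_of_isOpen isOpen_compl_singleton le_rfl)
      fun a₀ ε hε => (hn a₀ ε hε).mono fun a ha q hq => by
        rw [mul_one]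
        exact der_Trans (h a₀) (h a) ha hq⟩

theorem nearMono_IFT2 {ε ε' : ℝ} {U U' : W → V} (h : Near ε U U') (he : ε ≤ ε') : Near ε' U U' :=
  fun q hq => ⟨(h q hq).1.trans he, (h q hq).2.trans he⟩

theorem ne_IFT2 {q : W} (hq : ‖q‖ = 1) : q ≠ 0 := by
  rintro rfl
  simp at hq

theorem beta_IFT2 {φ₀ : Fr} {U₀ : W → V} (h : IsLine φ₀.J U₀) :
    ContDiffOn ℝ 1 (fun q => φ₀.B (U₀ q)) {0}ᶜ :=
  (φ₀.smoothB.of_le (by exact_mod_cast le_top)).comp h.c1 fun q hq => h.ne q hq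

theorem pertHom_IFT2 {φ₀ : Fr} {U₀ η : W → V} (h : IsLine φ₀.J U₀) (hη : Hom1 η) :
    Hom1 (pert φ₀ U₀ η) := by
  have z : pert φ₀ U₀ η 0 = 0 := by
    rw [pert, zero_Trans hη, map_zero, add_zero, zero_Trans ⟨h.c1, h.hom⟩]
  refine ⟨h.c1.add ((beta_IFT2 h).clm_apply hη.1), fun c q => ?_⟩
  rcases eq_or_ne c 0 with rfl | hc
  · rw [zero_smul, zero_smul, z]
  rcases eq_or_ne q 0 with rfl | hq
  · rw [smul_zero, z, smul_zero]
  rw [pert, pert, h.hom, hη.2, φ₀.scale _ (h.ne q hq) c hc, smul_add]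

theorem pertNear_IFT2 {φ₀ : Fr} {U₀ : W → V} (h : IsLine φ₀.J U₀) :
    ∃ K : ℝ, 0 < K ∧ ∀ (η η' : W → V) (M : ℝ), Hom1 η → Hom1 η' → Near M η η' →
      Near (K * M) (pert φ₀ U₀ η) (pert φ₀ U₀ η') := by
  have hb := beta_IFT2 h
  have hs : sphere (0 : W) 1 ⊆ {0}ᶜ := fun q hq => ne_IFT2 (mem_sphere_zero_iff_norm.1 hq)
  obtain ⟨K₁, h1⟩ := (isCompact_sphere (0 : W) 1).exists_bound_of_continuousOn
    (hb.continuousOn.mono hs)
  obtain ⟨K₂, h2⟩ := (isCompact_sphere (0 : W) 1).exists_bound_of_continuousOn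
    ((hb.continuousOn_fderiv_of_isOpen isOpen_compl_singleton le_rfl).mono hs)
  refine ⟨|K₁| + |K₂| + 1, by positivity, fun η η' M hη hη' hn q hq => ?_⟩
  have q0 := ne_IFT2 hq
  have a1 := (h1 q (mem_sphere_zero_iff_norm.2 hq)).trans (le_abs_self K₁)
  have a2 := (h2 q (mem_sphere_zero_iff_norm.2 hq)).trans (le_abs_self K₂)
  obtain ⟨a3, a4⟩ := hn q hq
  have M0 : 0 ≤ M := (norm_nonneg _).trans a3
  have hd : HasFDerivAt (fun q => φ₀.B (U₀ q)) (fderiv ℝ (fun q => φ₀.B (U₀ q)) q) q :=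
    ((hb.contDiffAt (isOpen_compl_singleton.mem_nhds q0)).differentiableAt
      one_ne_zero).hasFDerivAt
  have hp : ∀ ξ : W → V, Hom1 ξ → fderiv ℝ (pert φ₀ U₀ ξ) q = fderiv ℝ U₀ q +
      ((φ₀.B (U₀ q)).comp (fderiv ℝ ξ q) + (fderiv ℝ (fun q => φ₀.B (U₀ q)) q).flip (ξ q)) :=
    fun ξ hξ => ((diff_IFT2 ⟨h.c1, h.hom⟩ q0).add (hd.clm_apply (diff_IFT2 hξ q0))).fderiv
  have k1 := abs_nonneg K₁
  have k2 := abs_nonneg K₂
  constructor
  · rw [pert, pert, add_sub_add_left_eq_sub, ← map_sub]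
    refine ((φ₀.B (U₀ q)).le_opNorm _).trans ?_
    refine (mul_le_mul a1 a3 (norm_nonneg _) k1).trans ?_
    nlinarith
  · rw [hp η hη, hp η' hη', add_sub_add_left_eq_sub, add_sub_add_comm,
      ← ContinuousLinearMap.comp_sub, ← map_sub]
    refine (norm_add_le _ _).trans ?_
    have b1 := (ContinuousLinearMap.opNorm_comp_le (φ₀.B (U₀ q)) _).trans
      (mul_le_mul a1 a4 (norm_nonneg _) k1)
    have b2 := ((fderiv ℝ (fun q => φ₀.B (U₀ q)) q).flip.le_opNorm (η q - η' q))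
    rw [ContinuousLinearMap.opNorm_flip] at b2
    have b3 := b2.trans (mul_le_mul a2 a3 (norm_nonneg _) k2)
    nlinarith

theorem nonvan_IFT2 {U₀ : W → V} (h : Hom1 U₀) (hne : ∀ q, q ≠ 0 → U₀ q ≠ 0) :
    ∃ ε : ℝ, 0 < ε ∧ ∀ U, Hom1 U → Near ε U U₀ → ∀ q, q ≠ 0 → U q ≠ 0 := by
  obtain ⟨m, hm, H⟩ := (isCompact_sphere (0 : W) 1).exists_forall_le'
    (f := fun q => ‖U₀ q‖) (a := 0) (cont_Trans h).norm.continuousOn fun q hq =>
      norm_pos_iff.2 (hne q (ne_IFT2 (mem_sphere_zero_iff_norm.1 hq)))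
  refine ⟨m / 2, half_pos hm, fun U hU hn q hq e => ?_⟩
  obtain ⟨t, u, ht, -, hu, rfl⟩ := unit_Trans hq
  rw [rsmul_Trans hU, smul_eq_zero_iff_right ht.ne'] at e
  have h1 := (hn u hu).1
  have h2 := H u (mem_sphere_zero_iff_norm.2 hu)
  rw [e, zero_sub, norm_neg] at h1
  linarith

theorem mOfCont_IFT2 (φ₀ : Fr) (U₀ : W → V) (b : Bool) : Continuous (mOf φ₀ U₀ b) := by
  unfold mOf
  cases b
  · simp only [Bool.false_eq_true, if_false]
    fun_prop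
  · simp only [if_true]
    fun_prop

theorem mOfZero_IFT2 (φ₀ : Fr) (U₀ : W → V) (b : Bool) : mOf φ₀ U₀ b (con b U₀) = 0 := by
  cases b <;> simp [mOf, con, jet]

/-- The section attached to Hoelder data and a constraint. -/
def eta_IFT2 (κ : Bumps) (b : Bool) (x : (Bool → Ho V) × (V × V)) : W → V :=
  sec1 κ b (fun i => (x.1 i).fn) x.2

theorem hbX_IFT2 (x : (Bool → Ho V) × (V × V)) (i : Bool) : HB ‖x‖ (x.1 i).fn univ :=
  hbMono_IFT2 (x.1 i).hb ((norm_le_pi_norm x.1 i).trans (norm_fst_le x))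

theorem etaNear_IFT2 (hS : SStmt) (κ : Bumps) (b : Bool) : ∃ C : ℝ, 0 < C ∧
    eta_IFT2 κ b 0 = 0 ∧ (∀ x, Hom1 (eta_IFT2 κ b x)) ∧
    ∀ x x', Near (C * ‖x - x'‖) (eta_IFT2 κ b x) (eta_IFT2 κ b x') := by
  obtain ⟨C, hC, h1, h2⟩ := hS κ b
  have hh : ∀ x, Hom1 (eta_IFT2 κ b x) := fun x => (h1 _ _ ‖x‖ (hbX_IFT2 x) (norm_snd_le x)).1
  refine ⟨C, hC, ?_, hh, fun x x' q hq => ?_⟩
  · have := (h2 0 0 0 0 0 0 (fun _ => hbZero_IFT2 le_rfl) fun _ => hbZero_IFT2 le_rfl).2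
    rw [zero_smul, zero_smul, zero_smul] at this
    exact this
  have e : eta_IFT2 κ b x = eta_IFT2 κ b (x - x') + eta_IFT2 κ b x' := by
    have := (h2 _ _ (x - x').2 x'.2 (max ‖x - x'‖ ‖x'‖) 0
      (fun i => hbMono_IFT2 (hbX_IFT2 (x - x') i) (le_max_left _ _))
      fun i => hbMono_IFT2 (hbX_IFT2 x' i) (le_max_right _ _)).1
    refine Eq.trans ?_ this
    unfold eta_IFT2
    congr 1
    · funext i
      simp [Ho.fn_sub]
    · simp
  have q0 := ne_IFT2 hq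
  have h3 := (h1 _ _ ‖x - x'‖ (hbX_IFT2 (x - x')) (norm_snd_le (x - x'))).2.2.2.1 q hq
  rw [e, ((diff_IFT2 (hh _) q0).add (diff_IFT2 (hh _) q0)).fderiv, Pi.add_apply,
    add_sub_cancel_right, add_sub_cancel_right]
  exact h3

theorem cc_ne_IFT2 (i : Bool) (z : ℂ) : cc i z ≠ 0 := by
  cases i <;> simp [cc]

theorem hOfSmall_IFT2 (hN : NlStmt) (hM : NemStmt) (hm : SmallStmt) (κ : Bumps) {P : Type}
    [TopologicalSpace P] {φ : P → Fr} {p₀ : P} {U₀ : W → V} (hφ : FrFam φ)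
    (h : IsLine (φ p₀).J U₀) (i : Bool) {δ : ℝ} (hδ : 0 < δ) :
    ∃ ε : ℝ, 0 < ε ∧ ∀ᶠ p in 𝓝 p₀, ∀ U, IsLine (φ p).J U → Near ε U U₀ →
      HB δ (hOf κ (φ p) (φ p₀) U₀ U i) univ := by
  obtain ⟨n1, n2, n3, -⟩ := hN P φ (φ p₀) U₀ i hφ h
  obtain ⟨m1, ⟨C, hC, m2⟩, δ₃, h3, m3⟩ := hM (V × (ℂ →L[ℝ] V)) V P
    (fun p => Nl (φ p) (φ p₀) U₀ i) (NlDom (φ p₀) U₀ i) κ.χ p₀ n1 (n2 2)
    (fun z => by simpa [NlDom] using h.ne _ (cc_ne_IFT2 i z))
    (κ.sχ.of_le (by exact_mod_cast le_top)) κ.zero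
  obtain ⟨δ₁, h1, m1⟩ := m1 1 one_pos
  have h4 : 0 < δ / 2 / (1 + C) := by positivity
  obtain ⟨ε, hε, m4⟩ := hm P φ p₀ U₀ hφ h _ (lt_min h1 h4)
  refine ⟨ε, hε, ?_⟩
  filter_upwards [m1, (m3 p₀ 0 (hbZero_IFT2 h3.le)).2 _ (half_pos hδ), m4] with p a1 a3 a4 U hU hn
  have y0 := a4 U hU hn i
  have y1 := hbMono_IFT2 y0 (min_le_left _ _)
  have y2 := hbMono_IFT2 y0 (min_le_right _ _)
  have b1 := a1 _ 0 _ y1 (hbZero_IFT2 h1.le) (by rw [sub_zero]; exact y2)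
  have b2 := m2 _ _ y2
  have b3 := hbNeg_IFT2 (hbAdd_IFT2 (hbAdd_IFT2 b1 b2) a3)
  have e : 1 * (δ / 2 / (1 + C)) + C * (δ / 2 / (1 + C)) + δ / 2 = δ := by
    field_simp
    ring
  rw [e] at b3
  convert b3 using 1
  funext z
  simp only [hOf, Pi.zero_apply, sub_zero, n3 z, ← smul_add]
  congr 2
  abel

theorem ift (hB : BumpStmt) (hS : SStmt) (hN : NlStmt) (hM : NemStmt) (hV : SolveStmt) (hT : ToLineStmt) (hF : FromLineStmt) (hm : SmallStmt) (hO : EmbOpenStmt) (hL : LineSmoothStmt) : IFTStmt := by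
  intro P _ φ p₀ U₀ b hφ h hE
  obtain ⟨κ⟩ := hB
  obtain ⟨C, hC, e0, eh, en⟩ := etaNear_IFT2 hS κ b
  obtain ⟨K, hK, pn⟩ := pertNear_IFT2 h
  obtain ⟨ε₀, h0, em⟩ := hO U₀ h.c1 h.hom h.ne hE
  obtain ⟨ε₁, h1, nv⟩ := nonvan_IFT2 ⟨h.c1, h.hom⟩ h.ne
  have h2 : 0 < min ε₀ ε₁ / (K * C) := div_pos (lt_min h0 h1) (mul_pos hK hC)
  obtain ⟨δ, hδ, hδ', N, hN', s, sc, s0, hs⟩ := hV κ P φ p₀ U₀ b hφ h hE _ h2
  choose ε hε sm using fun i => hOfSmall_IFT2 hN hM hm κ hφ h i (half_pos hδ)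
  have mc : Continuous fun a : P × (V × V) => mOf (φ p₀) U₀ b a.2 :=
    (mOfCont_IFT2 _ _ _).comp continuous_snd
  have m1 : ∀ᶠ a : P × (V × V) in 𝓝 (p₀, con b U₀),
      ‖mOf (φ p₀) U₀ b a.2‖ < min ε₀ ε₁ / (K * C) :=
    mc.norm.continuousAt.eventually_lt continuousAt_const (by rwa [mOfZero_IFT2, norm_zero])
  have m2 := (continuous_fst.tendsto (p₀, con b U₀)).eventually (eventually_all.2 sm)
  let T : (Bool → Ho V) × (V × V) → W → V := fun x => pert (φ p₀) U₀ (eta_IFT2 κ b x)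
  have T0 : T 0 = U₀ := by
    funext q
    simp only [T, e0, pert, Pi.zero_apply, map_zero, add_zero]
  have Th : ∀ x, Hom1 (T x) := fun x => pertHom_IFT2 h (eh x)
  have Tn : ∀ x x', Near (K * C * ‖x - x'‖) (T x) (T x') := fun x x' => by
    rw [mul_assoc]
    exact pn _ _ _ (eh x) (eh x') (en x x')
  let X : P × (V × V) → (Bool → Ho V) × (V × V) := fun a => (s a, mOf (φ p₀) U₀ b a.2)
  refine ⟨_, inter_mem hN' (m1.and m2), min (ε false) (ε true), lt_min (hε _) (hε _),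
    fun a => T (X a), ?_, ?_, fun a ha => ?_, fun a ha U hU hc hn => ?_⟩
  · have xc := (continuousOn_iff_continuous_domRestrict.1
      ((sc.mono (inter_subset_left (t := {a | ‖mOf (φ p₀) U₀ b a.2‖ < min ε₀ ε₁ / (K * C) ∧
        ∀ i U, IsLine (φ a.1).J U → Near (ε i) U U₀ →
          HB (δ / 2) (hOf κ (φ a.1) (φ p₀) U₀ U i) univ}))).prodMk mc.continuousOn))
    refine famNear_IFT2 (fun a => Th _) fun a₀ e he => ?_
    have h3 := ((xc.tendsto a₀).sub_const (X a₀)).norm.const_mul (K * C)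
    have h4 : K * C * ‖X a₀ - X a₀‖ < e := by rwa [sub_self, norm_zero, mul_zero]
    exact (h3.eventually_lt_const h4).mono fun a ha => nearMono_IFT2 (Tn _ _) ha.le
  · have h3 : X (p₀, con b U₀) = 0 := Prod.ext s0 (mOfZero_IFT2 _ _ _)
    exact (congrArg T h3).trans T0
  · have h3 : ‖X a‖ ≤ min ε₀ ε₁ / (K * C) :=
      max_le ((hs a ha.1).1.le.trans hδ') ha.2.1.le
    have h4 : Near (min ε₀ ε₁) (T (X a)) U₀ := by
      have h5 := Tn (X a) 0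
      rw [T0, sub_zero] at h5
      refine nearMono_IFT2 h5 ?_
      rwa [le_div_iff₀ (mul_pos hK hC), mul_comm] at h3
    have h5 := hT κ (φ a.1) (φ p₀) U₀ b _ a.2 _ h (hbX_IFT2 (X a))
      (nv _ (Th _) (nearMono_IFT2 h4 (min_le_right _ _)))
      (((hs a ha.1).2 _ (hs a ha.1).1).1 rfl)
    exact ⟨h5.1, em _ (Th _).1 (Th _).2 (nearMono_IFT2 h4 (min_le_left _ _)), h5.2⟩
  · have h3 : ∀ i, HB (δ / 2) (hOf κ (φ a.1) (φ p₀) U₀ U i) univ := fun i =>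
      ha.2.2 i U hU (nearMono_IFT2 hn (by cases i; exacts [min_le_left _ _, min_le_right _ _]))
    obtain ⟨h4, h5⟩ := hF κ (φ a.1) (φ p₀) U₀ U b _ h hU h3
    rw [hc] at h4
    have h6 : (fun i => (Ho.of (hOf κ (φ a.1) (φ p₀) U₀ U i)).fn) = hOf κ (φ a.1) (φ p₀) U₀ U :=
      funext fun i => (h3 i).fn_of
    have h7 : (fun i => Ho.of (hOf κ (φ a.1) (φ p₀) U₀ U i)) = s a := by
      refine ((hs a ha.1).2 _ (((pi_norm_le_iff_of_nonneg (half_pos hδ).le).2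
        fun i => (h3 i).norm_of).trans_lt (half_lt_self hδ))).2 fun i z => ?_
      rw [h6, ← h4, (h3 i).fn_of, hOf, neg_add_cancel]
    rw [← h5, h4]
    simp only [T, X, eta_IFT2, ← h7, h6]

end Pool.Agent.MP_2fc7fa_gt.N
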