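import Pool.Agent.MP_2fc7fa_gt.N.IfB2

/-! Lifts depend continuously on parameters. -/

open scoped Topology
open Set Complex Filter Metric

namespace Pool.Agent.MP_2fc7fa_gt.N

theorem jc_Joint {Q : Type} [TopologicalSpace Q] {F : Q → W → V} (h : Fam {0}ᶜ 1 V F) :
    JC {0}ᶜ fun a q => (F a q, fderiv ℝ (F a) q) := by
  have h1 : Fam {0}ᶜ 0 (W →L[ℝ] V) fun p => fderiv ℝ (F p) :=
    (h.fderivWithin isOpen_compl_singleton.uniqueDiffOn).congr fun p x hx =>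
      (fderivWithin_of_isOpen isOpen_compl_singleton hx).symm
  exact ContinuousOn.prodMk h.jc h1.jc

theorem near_Joint {Q : Type} [TopologicalSpace Q] {F : Q → W → V} {a₀ : Q}
    (h : ∀ q : W, q ≠ 0 →
      ContinuousAt (fun z : Q × W => (F z.1 z.2, fderiv ℝ (F z.1) z.2)) (a₀, q))
    {ε : ℝ} (hε : 0 < ε) : ∀ᶠ a in 𝓝 a₀, Near ε (F a) (F a₀) := by
  have key := (isCompact_sphere (0 : W) 1).eventually_forall_of_forall_eventually (x₀ := a₀)
    (P := fun a q => ‖F a q - F a₀ q‖ ≤ ε ∧ ‖fderiv ℝ (F a) q - fderiv ℝ (F a₀) q‖ ≤ ε) ?_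
  · exact key.mono fun a ha q hq => ha q (mem_sphere_zero_iff_norm.2 hq)
  intro q hq
  have hq0 : q ≠ 0 := fun e => by simp [e] at hq
  have h1 := h q hq0
  have h2 : ContinuousAt (fun z : Q × W => (F a₀ z.2, fderiv ℝ (F a₀) z.2)) (a₀, q) :=
    ContinuousAt.comp (g := fun z : Q × W => (F z.1 z.2, fderiv ℝ (F z.1) z.2))
      (f := fun z : Q × W => (a₀, z.2)) (x := (a₀, q)) h1 (by fun_prop)
  have h3 := (h1.sub h2).norm.eventually (eventually_le_nhds (b := ε) (by simpa using hε))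
  refine h3.mono fun z hz => ?_
  exact ⟨(norm_fst_le _).trans hz, (norm_snd_le _).trans hz⟩

theorem ca_Joint {Q : Type} [TopologicalSpace Q] {F : Q → W → V} (h : Fam {0}ᶜ 1 V F) (a₀ : Q)
    (q : W) (hq : q ≠ 0) :
    ContinuousAt (fun z : Q × W => (F z.1 z.2, fderiv ℝ (F z.1) z.2)) (a₀, q) :=
  (jc_Joint h).continuousAt ((isOpen_univ.prod isOpen_compl_singleton).mem_nhds ⟨mem_univ _, hq⟩)

theorem nearF_Joint {Q : Type} [TopologicalSpace Q] {F : Q → W → V} (h : Fam {0}ᶜ 1 V F) (a₀ : Q)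
    {ε : ℝ} (hε : 0 < ε) : ∀ᶠ a in 𝓝 a₀, Near ε (F a) (F a₀) :=
  near_Joint (ca_Joint h a₀) hε

theorem caN_Joint {Q : Type} [TopologicalSpace Q] {F : Q → W → V} {N : Set Q}
    (h : Fam {0}ᶜ 1 V fun a : N => F a) {a₀ : Q} (hN : N ∈ 𝓝 a₀) (q : W) (hq : q ≠ 0) :
    ContinuousAt (fun z : Q × W => (F z.1 z.2, fderiv ℝ (F z.1) z.2)) (a₀, q) := by
  have h1 : ContinuousOn (fun z : Q × W => (F z.1 z.2, fderiv ℝ (F z.1) z.2)) (N ×ˢ {0}ᶜ) := by
    rw [continuousOn_iff_continuous_domRestrict]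
    exact ContinuousOn.comp_continuous (jc_Joint h)
      (f := fun z : (N ×ˢ ({0}ᶜ : Set W) : Set (Q × W)) => ((⟨z.1.1, z.2.1⟩ : N), z.1.2))
      (by fun_prop) fun z => ⟨mem_univ _, z.2.2⟩
  exact h1.continuousAt (prod_mem_nhds hN (isOpen_compl_singleton.mem_nhds hq))

theorem tri_Joint {ε δ : ℝ} {U₁ U₂ U₃ : W → V} (h : Near ε U₁ U₂) (h' : Near δ U₂ U₃) :
    Near (ε + δ) U₁ U₃ := fun q hq =>
  ⟨(norm_sub_le_norm_sub_add_norm_sub _ _ _).trans (add_le_add (h q hq).1 (h' q hq).1),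
    (norm_sub_le_norm_sub_add_norm_sub _ _ _).trans (add_le_add (h q hq).2 (h' q hq).2)⟩

theorem zero_Joint {J : V → V → V} {U : W → V} (h : IsLine J U) : U 0 = 0 := by
  simpa using h.hom 0 0

/-- The local step: near a time `s₁`, continuity at one time gives agreement with the local
solution at all nearby times. -/
theorem step_Joint (hI : IFTStmt) {P : Type} [TopologicalSpace P] {φ : P × UI → Fr}
    {U : (P × UI) × Jet → W → V} (hφ : FrFam φ)
    (hU : ∀ p (j : Jet), Lift (fun s => φ (p, s)) j fun s => U ((p, s), j))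
    (x₀ : P × Jet) (s₁ : UI) :
    ∃ O ∈ 𝓝 s₁, ∀ s₀ ∈ O,
      (∀ ε : ℝ, 0 < ε → ∀ᶠ x : P × Jet in 𝓝 x₀,
        Near ε (U ((x.1, s₀), x.2)) (U ((x₀.1, s₀), x₀.2))) →
      ∀ s ∈ O, ∀ q : W, q ≠ 0 → ContinuousAt
        (fun z : ((P × UI) × Jet) × W => (U z.1 z.2, fderiv ℝ (U z.1) z.2))
        (((x₀.1, s), x₀.2), q) := by
  obtain ⟨hl, he, hj⟩ := (hU x₀.1 x₀.2).2 s₁
  obtain ⟨N, hN, ε, hε, S, hS, hS0, hS1, hS2⟩ := hI _ φ (x₀.1, s₁) _ false hφ hl he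
  have hc : con false (U ((x₀.1, s₁), x₀.2)) = x₀.2 := hj
  rw [hc] at hN hS0
  have hε2 : 0 < ε / 2 := half_pos hε
  have h1 := near_Joint (caN_Joint hS hN) hε2
  rw [hS0] at h1
  have hι : Continuous fun z : (P × Jet) × UI => ((z.1.1, z.2), (z.1.2 : V × V)) := by fun_prop
  have h2 := (hι.tendsto (x₀, s₁)).eventually (Filter.Eventually.and
    (p := fun a => a ∈ interior N) (interior_mem_nhds.2 hN) h1)
  rw [nhds_prod_eq, eventually_prod_iff] at h2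
  obtain ⟨pa, hpa, pb, hpb, h2⟩ := h2
  have h3 := nearF_Joint (hU x₀.1 x₀.2).1 s₁ hε2
  obtain ⟨O, hO1, hO2, hO3, hO4⟩ : ∃ O : Set UI, O ∈ 𝓝 s₁ ∧ IsOpen O ∧ IsPreconnected O ∧
      ∀ s ∈ O, pb s ∧ Near (ε / 2) (U ((x₀.1, s), x₀.2)) (U ((x₀.1, s₁), x₀.2)) := by
    have : LocallyPathConnectedSpace UI := (convex_Icc (0 : ℝ) 1).locallyPathConnectedSpace
    obtain ⟨O, ⟨h4, h5, h6⟩, h7⟩ := (LocallyConnectedSpace.open_connected_basis s₁).mem_iff.1
      (hpb.and h3)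
    exact ⟨O, h4.mem_nhds h5, h4, h6.isPreconnected, h7⟩
  refine ⟨O, hO1, fun s₀ hs₀ hQ s hs q hq => ?_⟩
  have h4 : ∀ᶠ x : P × Jet in 𝓝 x₀, ∀ t ∈ O,
      U ((x.1, t), x.2) = S ((x.1, t), (x.2 : V × V)) := by
    filter_upwards [hpa, hQ _ hε2] with x hx hx'
    have h5 : ∀ t ∈ O, Near (ε / 2 + ε / 2) (U ((x.1, t), x.2)) (U ((x₀.1, s₁), x₀.2)) →
        U ((x.1, t), x.2) = S ((x.1, t), (x.2 : V × V)) := fun t ht h =>
      hS2 _ (interior_subset (h2 hx (hO4 t ht).1).1) _ ((hU x.1 x.2).2 t).1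
        ((hU x.1 x.2).2 t).2.2 (by rwa [add_halves] at h)
    let A : Set UI := {t | U ((x.1, t), x.2) = S ((x.1, t), (x.2 : V × V))}
    have h6 : IsOpen (O ∩ A) := by
      refine isOpen_iff_mem_nhds.2 fun t ht => ?_
      filter_upwards [hO2.mem_nhds ht.1, nearF_Joint (hU x.1 x.2).1 t hε2] with t' h h'
      refine ⟨h, h5 t' h (tri_Joint h' ?_)⟩
      have e : U ((x.1, t), x.2) = S ((x.1, t), (x.2 : V × V)) := ht.2
      rw [e]
      exact (h2 hx (hO4 t ht.1).1).2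
    have h7 : IsOpen (O ∩ Aᶜ) := by
      refine isOpen_iff_mem_nhds.2 fun t ht => ?_
      have hN' := (h2 hx (hO4 t ht.1).1).1
      obtain ⟨r, hr⟩ := Function.ne_iff.1 ht.2
      have hr0 : r ≠ 0 := by
        rintro rfl
        exact hr ((zero_Joint ((hU x.1 x.2).2 t).1).trans
          (zero_Joint (hS1 _ (interior_subset hN')).1).symm)
      have c1 : ContinuousAt (fun t' : UI => U ((x.1, t'), x.2) r) t :=
        ContinuousAt.comp (f := fun t' : UI => (t', r)) (x := t)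
          (ca_Joint (hU x.1 x.2).1 t r hr0).fst (by fun_prop)
      have c2 : ContinuousAt (fun t' : UI => S ((x.1, t'), (x.2 : V × V)) r) t :=
        ContinuousAt.comp (f := fun t' : UI => (((x.1, t'), (x.2 : V × V)), r)) (x := t)
          (caN_Joint hS (mem_interior_iff_mem_nhds.1 hN') r hr0).fst (by fun_prop)
      filter_upwards [hO2.mem_nhds ht.1, (c1.sub c2).eventually_ne (sub_ne_zero.2 hr)] with t' h h'
      exact ⟨h, fun e => h' (sub_eq_zero.2 (congrFun e r))⟩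
    intro t ht
    have h8 := hO3.subset_left_of_subset_union h6 h7
      (disjoint_compl_right.mono inter_subset_right inter_subset_right)
      (fun t' ht' => by by_cases h : t' ∈ A; exacts [Or.inl ⟨ht', h⟩, Or.inr ⟨ht', h⟩])
      ⟨s₀, hs₀, hs₀, h5 s₀ hs₀ (tri_Joint hx' (hO4 s₀ hs₀).2)⟩
    exact (h8 ht).2
  have hN' := (h2 hpa.self_of_nhds (hO4 s hs).1).1
  have h5 : ContinuousAt (fun z : ((P × UI) × Jet) × W =>
      (S (z.1.1, (z.1.2 : V × V)) z.2, fderiv ℝ (S (z.1.1, (z.1.2 : V × V))) z.2))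
      (((x₀.1, s), x₀.2), q) :=
    ContinuousAt.comp (f := fun z : ((P × UI) × Jet) × W => ((z.1.1, (z.1.2 : V × V)), z.2))
      (x := (((x₀.1, s), x₀.2), q)) (caN_Joint hS (mem_interior_iff_mem_nhds.1 hN') q hq)
      (by fun_prop)
  refine h5.congr ?_
  have t1 : Tendsto (fun z : ((P × UI) × Jet) × W => (z.1.1.1, z.1.2))
      (𝓝 (((x₀.1, s), x₀.2), q)) (𝓝 x₀) := (by fun_prop : Continuous _).tendsto' _ _ rfl
  have t2 : Tendsto (fun z : ((P × UI) × Jet) × W => z.1.1.2)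
      (𝓝 (((x₀.1, s), x₀.2), q)) (𝓝 s) := (by fun_prop : Continuous _).tendsto' _ _ rfl
  filter_upwards [t1.eventually h4, t2.eventually (hO2.mem_nhds hs)] with z hz hz'
  have e : U z.1 = S (z.1.1, (z.1.2 : V × V)) := hz _ hz'
  rw [e]

theorem fam_lin_Joint :
    Fam {0}ᶜ 1 V fun (j : V × V) (q : W) => q.1 • j.1 + q.2 • j.2 := by
  have h1 : Fam {0}ᶜ 1 ℂ fun (_ : V × V) (q : W) => q.1 :=
    fam_id.clm (ContinuousLinearMap.fst ℝ ℂ ℂ)
  have h2 : Fam {0}ᶜ 1 ℂ fun (_ : V × V) (q : W) => q.2 :=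
    fam_id.clm (ContinuousLinearMap.snd ℝ ℂ ℂ)
  exact (h1.bilin (fam_const continuous_fst) (ContinuousLinearMap.lsmul ℝ ℂ)).add
    (h2.bilin (fam_const continuous_snd) (ContinuousLinearMap.lsmul ℝ ℂ))

theorem joint (hI : IFTStmt) (hL : LinStmt) : JointStmt := by
  intro P _ φ U hφ hs hU
  have key : ∀ (x₀ : P × Jet) (s : UI) (q : W), q ≠ 0 → ContinuousAt
      (fun z : ((P × UI) × Jet) × W => (U z.1 z.2, fderiv ℝ (U z.1) z.2))
      (((x₀.1, s), x₀.2), q) := by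
    intro x₀
    let A : Set UI := {s | ∀ ε : ℝ, 0 < ε → ∀ᶠ x : P × Jet in 𝓝 x₀,
      Near ε (U ((x.1, s), x.2)) (U ((x₀.1, s), x₀.2))}
    have h1 : (1 : UI) ∈ A := by
      intro ε hε
      have e : ∀ x : P × Jet, U ((x.1, 1), x.2) =
          fun q : W => q.1 • (x.2 : V × V).1 + q.2 • (x.2 : V × V).2 := fun x => by
        funext q
        have e1 := hL _ _ (hs x.1) ((hU x.1 x.2).2 1).1 q
        rw [((hU x.1 x.2).2 1).2.2] at e1
        exact e1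
      simp only [e]
      exact nearF_Joint (fam_lin_Joint.param
        (g := fun x : P × Jet => (x.2 : V × V)) (by fun_prop)) x₀ hε
    have h2 : ∀ s₁, ∃ O ∈ 𝓝 s₁, ∀ s₀ ∈ O, s₀ ∈ A → ∀ s ∈ O, s ∈ A := by
      intro s₁
      obtain ⟨O, hO, h⟩ := step_Joint hI hφ hU x₀ s₁
      refine ⟨O, hO, fun s₀ h0 h0' s h' ε hε => ?_⟩
      have t1 : Tendsto (fun x : P × Jet => ((x.1, s), x.2)) (𝓝 x₀) (𝓝 ((x₀.1, s), x₀.2)) :=
        (by fun_prop : Continuous _).tendsto' _ _ rfl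
      exact t1.eventually (near_Joint (h s₀ h0 h0' s h') hε)
    have h3 : IsClopen A := by
      refine ⟨isOpen_compl_iff.1 (isOpen_iff_mem_nhds.2 fun s h => ?_),
        isOpen_iff_mem_nhds.2 fun s h => ?_⟩
      · obtain ⟨O, hO, h'⟩ := h2 s
        exact mem_of_superset hO fun t ht ht' => h (h' t ht ht' s (mem_of_mem_nhds hO))
      · obtain ⟨O, hO, h'⟩ := h2 s
        exact mem_of_superset hO (h' s (mem_of_mem_nhds hO) h)
    intro s
    obtain ⟨O, hO, h⟩ := step_Joint hI hφ hU x₀ s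
    exact h s (mem_of_mem_nhds hO) (h3.eq_univ ⟨1, h1⟩ ▸ mem_univ s : s ∈ A) s
      (mem_of_mem_nhds hO)
  have hjc : JC {0}ᶜ fun a q => (U a q, fderiv ℝ (U a) q) := fun z hz =>
    (key (z.1.1.1, z.1.2) z.1.1.2 z.2 hz.2).continuousWithinAt
  refine ⟨hjc.comp_cont continuous_fst, fun a => fderiv ℝ (U a), fun a q hq => ?_,
    hjc.comp_cont continuous_snd⟩
  exact ((((hU a.1.1 a.2).2 a.1.2).1.c1.contDiffAt
    (isOpen_compl_singleton.mem_nhds hq)).differentiableAt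
      one_ne_zero).hasFDerivAt.hasFDerivWithinAt

end Pool.Agent.MP_2fc7fa_gt.N
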