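import Pool.Agent.MP_2fc7fa_gt.N.IfB

/-! Linear algebra and calculus for the kernel statement. -/

open scoped ContDiff ComplexConjugate Topology
open Set Complex Filter

noncomputable section

namespace Pool.Agent.MP_2fc7fa_gt.N

/-- The cross product. -/
def cr_Ker (a b : V) : V := fun i => a (i + 1) * b (i + 2) - a (i + 2) * b (i + 1)

/-- The determinant of three vectors. -/
def d3_Ker (a b c : V) : ℂ :=
  a 0 * b 1 * c 2 + a 1 * b 2 * c 0 + a 2 * b 0 * c 1 -
    a 2 * b 1 * c 0 - a 1 * b 0 * c 2 - a 0 * b 2 * c 1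

/-- The normal vector. -/
def nu_Ker (a b : V) : V := (d3_Ker a b (star (cr_Ker a b)))⁻¹ • star (cr_Ker a b)

/-- The failure of the derivative to be complex linear. -/
def dl_Ker {E : Type} [NormedAddCommGroup E] [NormedSpace ℂ E] (f : W → E) (q h : W) : E :=
  fderiv ℝ f q (I • h) - I • fderiv ℝ f q h

/-- The zero order term. -/
def R_Ker (da : V →L[ℝ] V →L[ℝ] V) (du : W →L[ℝ] V) (h : W) (x : V) : V :=
  da (du (I • h)) x - I • da (du h) x - (da x (du (I • h)) - I • da x (du h))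

theorem cramer_Ker (a b n y : V) :
    d3_Ker a b n • y = d3_Ker y b n • a + d3_Ker a y n • b + d3_Ker a b y • n := by
  ext i
  fin_cases i <;> simp [d3_Ker] <;> ring

theorem d3_smul_Ker (a b c : V) (r : ℂ) : d3_Ker a b (r • c) = r * d3_Ker a b c := by
  simp [d3_Ker]; ring

theorem sq_ne_Ker {a b : V} (h : ∀ c d : ℂ, c • a + d • b = 0 → c = 0 ∧ d = 0) :
    d3_Ker a b (star (cr_Ker a b)) ≠ 0 := by
  intro h0
  have e : d3_Ker a b (star (cr_Ker a b)) =
      ((normSq (cr_Ker a b 0) + normSq (cr_Ker a b 1) + normSq (cr_Ker a b 2) : ℝ) : ℂ) := by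
    push_cast
    simp only [← mul_conj, d3_Ker, Pi.star_apply, RCLike.star_def]
    generalize conj (cr_Ker a b 0) = x, conj (cr_Ker a b 1) = y, conj (cr_Ker a b 2) = z
    simp [cr_Ker]
    ring
  rw [e, ofReal_eq_zero] at h0
  have p0 := normSq_nonneg (cr_Ker a b 0)
  have p1 := normSq_nonneg (cr_Ker a b 1)
  have p2 := normSq_nonneg (cr_Ker a b 2)
  have z0 : cr_Ker a b 0 = 0 := normSq_eq_zero.1 (by linarith)
  have z1 : cr_Ker a b 1 = 0 := normSq_eq_zero.1 (by linarith)
  have z2 : cr_Ker a b 2 = 0 := normSq_eq_zero.1 (by linarith)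
  simp [cr_Ker] at z0 z1 z2
  have key : ∀ i, a i = 0 := by
    intro i
    have := (h (b i) (-a i) (by
      ext j
      fin_cases i <;> fin_cases j <;> simp <;>
        first
          | linear_combination z0
          | linear_combination -z0
          | linear_combination z1
          | linear_combination -z1
          | linear_combination z2
          | linear_combination -z2
          | ring)).2
    simpa using this
  have := (h 1 0 (by ext j; simp [key j])).1
  simp at this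

theorem d3_nu_Ker {a b : V} (h : ∀ c d : ℂ, c • a + d • b = 0 → c = 0 ∧ d = 0) :
    d3_Ker a b (nu_Ker a b) = 1 := by
  rw [nu_Ker, d3_smul_Ker, inv_mul_cancel₀ (sq_ne_Ker h)]

section Cont

variable {X : Type} [TopologicalSpace X] {x : X}

theorem cont_d3_Ker {a b c : X → V} (ha : ContinuousAt a x) (hb : ContinuousAt b x)
    (hc : ContinuousAt c x) : ContinuousAt (fun y => d3_Ker (a y) (b y) (c y)) x := by
  have ha' := continuousAt_pi.1 ha
  have hb' := continuousAt_pi.1 hb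
  have hc' := continuousAt_pi.1 hc
  unfold d3_Ker
  fun_prop

theorem cont_nu_Ker {a b : X → V} (ha : ContinuousAt a x) (hb : ContinuousAt b x)
    (h : d3_Ker (a x) (b x) (star (cr_Ker (a x) (b x))) ≠ 0) :
    ContinuousAt (fun y => nu_Ker (a y) (b y)) x := by
  have ha' := continuousAt_pi.1 ha
  have hb' := continuousAt_pi.1 hb
  have h1 : ContinuousAt (fun y => star (cr_Ker (a y) (b y))) x :=
    ContinuousAt.star (continuousAt_pi.2 fun i => by
      unfold cr_Ker
      fun_prop)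
  exact ((cont_d3_Ker ha hb h1).inv₀ h).smul h1

theorem cont_R_Ker {da : X → V →L[ℝ] V →L[ℝ] V} {du : X → W →L[ℝ] V} {h : X → W} {v : X → V}
    (h1 : ContinuousAt da x) (h2 : ContinuousAt du x) (h3 : ContinuousAt h x)
    (h4 : ContinuousAt v x) : ContinuousAt (fun y => R_Ker (da y) (du y) (h y) (v y)) x := by
  have a1 := h2.clm_apply (h3.const_smul I)
  have a2 := h2.clm_apply h3
  exact (((h1.clm_apply a1).clm_apply h4).sub
    (((h1.clm_apply a2).clm_apply h4).const_smul I)).sub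
    (((h1.clm_apply h4).clm_apply a1).sub (((h1.clm_apply h4).clm_apply a2).const_smul I))

end Cont

theorem contDiff_d3_Ker {a b c : W → V} {q : W} (ha : ContDiffAt ℝ 1 a q)
    (hb : ContDiffAt ℝ 1 b q) (hc : ContDiffAt ℝ 1 c q) :
    ContDiffAt ℝ 1 (fun y => d3_Ker (a y) (b y) (c y)) q := by
  have ha' := contDiffAt_pi.1 ha
  have hb' := contDiffAt_pi.1 hb
  have hc' := contDiffAt_pi.1 hc
  unfold d3_Ker
  fun_prop

theorem diff_d3_Ker {a b c : W → V} {q : W} (ha : DifferentiableAt ℝ a q)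
    (hb : DifferentiableAt ℝ b q) (hc : DifferentiableAt ℝ c q) :
    DifferentiableAt ℝ (fun y => d3_Ker (a y) (b y) (c y)) q := by
  have ha' := differentiableAt_pi.1 ha
  have hb' := differentiableAt_pi.1 hb
  have hc' := differentiableAt_pi.1 hc
  unfold d3_Ker
  fun_prop

theorem diff_nu_Ker {a b : W → V} {q : W} (ha : DifferentiableAt ℝ a q)
    (hb : DifferentiableAt ℝ b q) (h : d3_Ker (a q) (b q) (star (cr_Ker (a q) (b q))) ≠ 0) :
    DifferentiableAt ℝ (fun y => nu_Ker (a y) (b y)) q := by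
  have ha' := differentiableAt_pi.1 ha
  have hb' := differentiableAt_pi.1 hb
  have h1 : DifferentiableAt ℝ (fun y => star (cr_Ker (a y) (b y))) q :=
    DifferentiableAt.star (differentiableAt_pi.2 fun i => by
      unfold cr_Ker
      fun_prop)
  exact ((diff_d3_Ker ha hb h1).inv h).smul h1

theorem fderiv_d3_Ker {a b c : W → V} {q : W} (ha : DifferentiableAt ℝ a q)
    (hb : DifferentiableAt ℝ b q) (hc : DifferentiableAt ℝ c q) (h : W) :
    fderiv ℝ (fun y => d3_Ker (a y) (b y) (c y)) q h =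
      d3_Ker (fderiv ℝ a q h) (b q) (c q) + d3_Ker (a q) (fderiv ℝ b q h) (c q) +
        d3_Ker (a q) (b q) (fderiv ℝ c q h) := by
  have ha' := hasFDerivAt_pi'.1 ha.hasFDerivAt
  have hb' := hasFDerivAt_pi'.1 hb.hasFDerivAt
  have hc' := hasFDerivAt_pi'.1 hc.hasFDerivAt
  have m := fun i j k => ((ha' i).fun_mul (hb' j)).fun_mul (hc' k)
  have := (((((m 0 1 2).fun_add (m 1 2 0)).fun_add (m 2 0 1)).fun_sub (m 2 1 0)).fun_sub
    (m 1 0 2)).fun_sub (m 0 2 1)
  unfold d3_Ker
  rw [this.fderiv]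
  simp
  ring

theorem dl_d3_Ker {a b c : W → V} {q : W} (ha : DifferentiableAt ℝ a q)
    (hb : DifferentiableAt ℝ b q) (hc : DifferentiableAt ℝ c q) (h : W) :
    dl_Ker (fun y => d3_Ker (a y) (b y) (c y)) q h =
      d3_Ker (dl_Ker a q h) (b q) (c q) + d3_Ker (a q) (dl_Ker b q h) (c q) +
        d3_Ker (a q) (b q) (dl_Ker c q h) := by
  simp only [dl_Ker, fderiv_d3_Ker ha hb hc]
  simp [d3_Ker]
  ring

theorem dl_comb_Ker {c d : W → ℂ} {a b : W → V} {q : W} (hc : DifferentiableAt ℝ c q)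
    (hd : DifferentiableAt ℝ d q) (ha : DifferentiableAt ℝ a q) (hb : DifferentiableAt ℝ b q)
    (h : W) :
    dl_Ker (fun y => c y • a y + d y • b y) q h =
      c q • dl_Ker a q h + d q • dl_Ker b q h + (dl_Ker c q h • a q + dl_Ker d q h • b q) := by
  have := (hc.hasFDerivAt.fun_smul ha.hasFDerivAt).fun_add (hd.hasFDerivAt.fun_smul hb.hasFDerivAt)
  simp only [dl_Ker, this.fderiv]
  ext i
  simp
  ring

theorem dl_congr_Ker {f g : W → V} {q : W} (hq : q ≠ 0) (e : ∀ y, y ≠ 0 → f y = g y) (h : W) :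
    dl_Ker f q h = dl_Ker g q h := by
  have : f =ᶠ[𝓝 q] g := (eventually_ne_nhds hq).mono e
  simp only [dl_Ker, this.fderiv_eq]

theorem clin_Ker {T : W → V} (h1 : ∀ x y, T (x + y) = T x + T y)
    (h2 : ∀ (r : ℝ) x, T (r • x) = r • T x) (h3 : ∀ x, T (I • x) = I • T x) (c : ℂ) (x : W) :
    T (c • x) = c • T x := by
  have e : c • x = c.re • x + c.im • (I • x) := by
    conv_lhs => rw [← re_add_im c]
    rw [add_smul, mul_smul, coe_smul, coe_smul]
  rw [e, h1, h2, h2, h3]
  conv_rhs => rw [← re_add_im c]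
  rw [add_smul, mul_smul, coe_smul, coe_smul]

/-- A uniform bound for a continuous function that is homogeneous in two variables. -/
theorem bound_Ker (G : W → W → ℂ → ℂ)
    (hc : ∀ p : W × W × ℂ, p.1 ≠ 0 → ContinuousAt (fun p : W × W × ℂ => G p.1 p.2.1 p.2.2) p)
    (h1 : ∀ q (r : ℝ) h m, G q (r • h) m = r * G q h m)
    (h2 : ∀ q (r : ℝ) h m, G q h (r • m) = r * G q h m) :
    ∃ C : ℝ, ∀ q, ‖q‖ = 1 → ∀ h m, ‖G q h m‖ ≤ C * ‖m‖ * ‖h‖ := by
  have hK : IsCompact (Metric.sphere (0 : W) 1 ×ˢ Metric.closedBall (0 : W) 1 ×ˢ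
      Metric.closedBall (0 : ℂ) 1) :=
    (isCompact_sphere _ _).prod ((isCompact_closedBall _ _).prod (isCompact_closedBall _ _))
  obtain ⟨C, hC⟩ := hK.exists_bound_of_continuousOn
    (f := fun p : W × W × ℂ => G p.1 p.2.1 p.2.2) fun p hp =>
      (hc p (by
        intro h0
        have := hp.1
        rw [h0] at this
        simp at this)).continuousWithinAt
  refine ⟨C, fun q hq h m => ?_⟩
  have unit : ∀ {E : Type} [NormedAddCommGroup E] [NormedSpace ℝ E] (v : E),
      ∃ u : E, ‖u‖ ≤ 1 ∧ v = ‖v‖ • u := by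
    intro E _ _ v
    by_cases hv : v = 0
    · exact ⟨0, by simp, by simp [hv]⟩
    · have hn : ‖v‖ ≠ 0 := norm_ne_zero_iff.2 hv
      exact ⟨‖v‖⁻¹ • v, by simp [norm_smul, hn], by rw [smul_inv_smul₀ hn]⟩
  obtain ⟨u, hu, eu⟩ := unit h
  obtain ⟨w, hw, ew⟩ := unit m
  have hb := hC (q, u, w) ⟨by simpa using hq, by simpa using hu, by simpa using hw⟩
  have e : G q h m = ‖h‖ * (‖m‖ * G q u w) := by
    conv_lhs => rw [eu, h1, ew, h2]
  rw [e, norm_mul, norm_mul, norm_real, norm_real, norm_norm, norm_norm]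
  calc ‖h‖ * (‖m‖ * ‖G q u w‖) ≤ ‖h‖ * (‖m‖ * C) := by gcongr
    _ = C * ‖m‖ * ‖h‖ := by ring

/-- A holomorphic function on the punctured plane that is homogeneous of degree one is linear. -/
theorem linear_Ker {f : W → ℂ} (hd : ∀ q, q ≠ 0 → DifferentiableAt ℝ f q)
    (hl : ∀ q, q ≠ 0 → ∀ h, dl_Ker f q h = 0)
    (hh : ∀ (c : ℂ) q, c ≠ 0 → q ≠ 0 → f (c • q) = c * f q) :
    ∀ q, q ≠ 0 → f q = q.1 * f (1, 0) + q.2 * f (0, 1) := by
  have n1 : ∀ z : ℂ, ((1, z) : W) ≠ 0 := fun z h => one_ne_zero (congrArg Prod.fst h)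
  have n2 : ∀ z : ℂ, ((z, 1) : W) ≠ 0 := fun z h => one_ne_zero (congrArg Prod.snd h)
  have hg : Differentiable ℂ fun z : ℂ => f (1, z) := by
    intro z
    have h1 : HasFDerivAt (fun z : ℂ => f (1, z))
        ((fderiv ℝ f (1, z)).comp (ContinuousLinearMap.inr ℝ ℂ ℂ)) z :=
      (hd _ (n1 z)).hasFDerivAt.comp z (hasFDerivAt_prodMk_right (1 : ℂ) z)
    rw [differentiableAt_complex_iff_differentiableAt_real]
    refine ⟨h1.differentiableAt, ?_⟩
    have h2 := hl _ (n1 z) (0, 1)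
    rw [dl_Ker, sub_eq_zero] at h2
    rw [h1.fderiv]
    simpa using h2
  have hs : Differentiable ℂ (dslope (fun z : ℂ => f (1, z)) 0) := by
    rw [← differentiableOn_univ, differentiableOn_dslope univ_mem, differentiableOn_univ]
    exact hg
  have hinv : Tendsto (fun z : ℂ => z⁻¹) (cocompact ℂ) (𝓝 0) := by
    rw [← Metric.cobounded_eq_cocompact]
    exact tendsto_inv₀_cobounded
  have hk : Tendsto (fun z : ℂ => f (z⁻¹, 1) - z⁻¹ * f (1, 0)) (cocompact ℂ) (𝓝 (f (0, 1))) := by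
    have h1 : ContinuousAt (fun w : ℂ => f (w, 1) - w * f (1, 0)) 0 :=
      (ContinuousAt.comp (f := fun w : ℂ => ((w, 1) : W)) (hd _ (n2 0)).continuousAt
        (by fun_prop)).sub (by fun_prop)
    simpa [Function.comp_def] using h1.tendsto.comp hinv
  have hlim : Tendsto (dslope (fun z : ℂ => f (1, z)) 0) (cocompact ℂ) (𝓝 (f (0, 1))) := by
    refine hk.congr' ?_
    filter_upwards [(isCompact_singleton (x := (0 : ℂ))).compl_mem_cocompact] with z hz
    have hz' : z ≠ 0 := hz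
    have e : f (z⁻¹, 1) = z⁻¹ * f (1, z) := by
      rw [← hh _ _ (inv_ne_zero hz') (n1 z)]
      simp [hz']
    rw [dslope_of_ne _ hz', slope_def_field, e, sub_zero, div_eq_inv_mul, mul_sub]
  have hz : ∀ z : ℂ, f (1, z) = f (1, 0) + z * f (0, 1) := by
    intro z
    have h1 := sub_smul_dslope (fun z : ℂ => f (1, z)) 0 z
    rw [hs.apply_eq_of_tendsto_cocompact z hlim] at h1
    simp only [sub_zero, smul_eq_mul] at h1
    rw [h1]
    ring
  rintro ⟨x, y⟩ hq
  by_cases hx : x = 0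
  · subst hx
    have hy : y ≠ 0 := fun h => hq (by simp [h])
    have := hh y (0, 1) hy (n2 0)
    simpa using this
  · have := hh x (1, y / x) hx (n1 _)
    rw [hz] at this
    have e : x • ((1, y / x) : W) = (x, y) := by
      simp [mul_div_cancel₀, hx]
    rw [e] at this
    rw [this]
    field_simp

end Pool.Agent.MP_2fc7fa_gt.N
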