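import Pool.Agent.MP_2fc7fa_gt.N.IfB
import Pool.Agent.MP_2fc7fa_gt.N.KerA

/-! The kernel of the linearised operator with constraints is trivial. -/

open scoped ContDiff ComplexConjugate Topology
open Set Complex Filter

noncomputable section

namespace Pool.Agent.MP_2fc7fa_gt.N

/-- A vector field along `U`, read in the coframe. -/
def eta_Ker (φ : Fr) (U ξ : W → V) (q : W) : V := φ.A (U q) (ξ q)

/-- The derivative of `U` in a fixed direction, read in the coframe. -/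
def tau_Ker (φ : Fr) (U : W → V) (c : W) : W → V := eta_Ker φ U fun q => fderiv ℝ U q c

/-- The linearised equation at a point. -/
def Lin_Ker (φ : Fr) (U ξ : W → V) (q h : W) : Prop :=
  fderiv ℝ φ.A (U q) (ξ q) (fderiv ℝ U q (I • h)) + φ.A (U q) (fderiv ℝ ξ q (I • h)) =
    I • (fderiv ℝ φ.A (U q) (ξ q) (fderiv ℝ U q h) + φ.A (U q) (fderiv ℝ ξ q h))

/-- The right hand side of the equation for the determinant. -/
def G_Ker (φ : Fr) (U : W → V) (q h : W) (m : ℂ) : ℂ :=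
  m * (d3_Ker (R_Ker (fderiv ℝ φ.A (U q)) (fderiv ℝ U q) h (fderiv ℝ U q (1, 0)))
        (tau_Ker φ U (0, 1) q) (nu_Ker (tau_Ker φ U (1, 0) q) (tau_Ker φ U (0, 1) q)) +
      d3_Ker (tau_Ker φ U (1, 0) q)
        (R_Ker (fderiv ℝ φ.A (U q)) (fderiv ℝ U q) h (fderiv ℝ U q (0, 1)))
        (nu_Ker (tau_Ker φ U (1, 0) q) (tau_Ker φ U (0, 1) q))) +
    d3_Ker (tau_Ker φ U (1, 0) q) (tau_Ker φ U (0, 1) q)
      (R_Ker (fderiv ℝ φ.A (U q)) (fderiv ℝ U q) h
        (φ.B (U q) (m • nu_Ker (tau_Ker φ U (1, 0) q) (tau_Ker φ U (0, 1) q))))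

theorem R_smul_Ker (da : V →L[ℝ] V →L[ℝ] V) (du : W →L[ℝ] V) (r : ℝ) (h : W) (x : V) :
    R_Ker da du (r • h) x = (r : ℂ) • R_Ker da du h x := by
  simp only [R_Ker, smul_comm I r, map_smul, smul_apply, coe_smul, smul_sub]

theorem R_smul'_Ker (da : V →L[ℝ] V →L[ℝ] V) (du : W →L[ℝ] V) (r : ℝ) (h : W) (x : V) :
    R_Ker da du h (r • x) = (r : ℂ) • R_Ker da du h x := by
  simp only [R_Ker, smul_comm I r, map_smul, smul_apply, coe_smul, smul_sub]

theorem R_add_Ker (da : V →L[ℝ] V →L[ℝ] V) (du : W →L[ℝ] V) (h : W) (x y : V) :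
    R_Ker da du h (x + y) = R_Ker da du h x + R_Ker da du h y := by
  simp only [R_Ker, map_add, add_apply, smul_add]
  abel

variable {φ : Fr} {U ξ : W → V} {q : W}

theorem A_smul_Ker (φ : Fr) {x : V} (hx : x ≠ 0) {c : ℂ} (hc : c ≠ 0) (v : V) :
    φ.A (c • x) (c • v) = c • φ.A x v := by
  have h := φ.scale x hx c hc (φ.A x v)
  rw [φ.BA x hx] at h
  rw [← h, φ.AB _ (smul_ne_zero hc hx)]

theorem cA_Ker (φ : Fr) {x : V} (hx : x ≠ 0) : ContDiffAt ℝ ∞ φ.A x :=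
  φ.smoothA.contDiffAt (isOpen_compl_singleton.mem_nhds hx)

theorem fd_eta_Ker (hx : U q ≠ 0) (hU : DifferentiableAt ℝ U q) (hξ : DifferentiableAt ℝ ξ q)
    (h : W) : fderiv ℝ (eta_Ker φ U ξ) q h =
      fderiv ℝ φ.A (U q) (fderiv ℝ U q h) (ξ q) + φ.A (U q) (fderiv ℝ ξ q h) := by
  have hA := ((cA_Ker φ hx).differentiableAt (by simp)).hasFDerivAt
  have := (hA.comp q hU.hasFDerivAt).clm_apply hξ.hasFDerivAt
  have e : fderiv ℝ (eta_Ker φ U ξ) q = _ := this.fderiv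
  rw [e]
  simp [add_comm]

theorem dl_eta_Ker (hx : U q ≠ 0) (hU : DifferentiableAt ℝ U q) (hξ : DifferentiableAt ℝ ξ q)
    {h : W} (hl : Lin_Ker φ U ξ q h) :
    dl_Ker (eta_Ker φ U ξ) q h = R_Ker (fderiv ℝ φ.A (U q)) (fderiv ℝ U q) h (ξ q) := by
  rw [dl_Ker, fd_eta_Ker hx hU hξ, fd_eta_Ker hx hU hξ, R_Ker]
  rw [Lin_Ker, smul_add] at hl
  rw [smul_add, eq_sub_of_add_eq' hl]
  abel

theorem tau_I_Ker (hU : IsLine φ.J U) (hq : q ≠ 0) (h : W) :
    tau_Ker φ U (I • h) q = I • tau_Ker φ U h q := by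
  simp only [tau_Ker, eta_Ker, hU.hol q hq, Fr.J, φ.AB _ (hU.ne q hq)]

theorem tau_smul_Ker (hU : IsLine φ.J U) (hq : q ≠ 0) (c : ℂ) (h : W) :
    tau_Ker φ U (c • h) q = c • tau_Ker φ U h q :=
  clin_Ker (T := fun h => tau_Ker φ U h q) (fun x y => by simp only [tau_Ker, eta_Ker, map_add])
    (fun r x => by simp only [tau_Ker, eta_Ker, map_smul]) (tau_I_Ker hU hq) c h

theorem tau_comb_Ker (hU : IsLine φ.J U) (hq : q ≠ 0) (c d : ℂ) :
    tau_Ker φ U (c, d) q = c • tau_Ker φ U (1, 0) q + d • tau_Ker φ U (0, 1) q := by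
  rw [← tau_smul_Ker hU hq, ← tau_smul_Ker hU hq]
  simp only [tau_Ker, eta_Ker, ← map_add]
  simp

theorem dU_Ker (hU : IsLine φ.J U) (hq : q ≠ 0) : DifferentiableAt ℝ U q :=
  (hU.c1.contDiffAt (isOpen_compl_singleton.mem_nhds hq)).differentiableAt (by simp)

theorem tau_hom_Ker (hU : IsLine φ.J U) (hq : q ≠ 0) {c : ℂ} (hc : c ≠ 0) (h : W) :
    tau_Ker φ U h (c • q) = tau_Ker φ U h q := by
  have hcq : c • q ≠ 0 := smul_ne_zero hc hq
  have h1 := (dU_Ker hU hcq).hasFDerivAt.comp q ((hasFDerivAt_id q).const_smul c)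
  have h2 := (dU_Ker hU hq).hasFDerivAt.const_smul c
  have e : U ∘ HSMul.hSMul c = c • U := funext fun y => hU.hom c y
  rw [e] at h1
  have h3 : fderiv ℝ U (c • q) (c • h) = c • fderiv ℝ U q h := by
    simpa using congrArg (fun T : W →L[ℝ] V => T h) (h1.unique h2)
  have h4 := tau_smul_Ker hU hcq c h
  have h5 : tau_Ker φ U (c • h) (c • q) = c • tau_Ker φ U h q := by
    simp only [tau_Ker, eta_Ker]
    rw [h3, hU.hom, A_smul_Ker φ (hU.ne q hq) hc]
  exact smul_right_injective V hc (h4.symm.trans h5)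

theorem indep_Ker (hU : IsLine φ.J U) (hE : IsEmb U) (hq : q ≠ 0) (c d : ℂ)
    (h : c • tau_Ker φ U (1, 0) q + d • tau_Ker φ U (0, 1) q = 0) : c = 0 ∧ d = 0 := by
  rw [← tau_comb_Ker hU hq] at h
  have h1 := φ.BA _ (hU.ne q hq) (fderiv ℝ U q (c, d))
  have h2 : φ.A (U q) (fderiv ℝ U q (c, d)) = 0 := h
  rw [h2, map_zero, ← map_zero (fderiv ℝ U q)] at h1
  have := hE.imm q hq h1
  exact ⟨(congrArg Prod.fst this).symm, (congrArg Prod.snd this).symm⟩

theorem two_le_Ker : (2 : WithTop ℕ∞) ≤ ∞ := WithTop.coe_le_coe.2 (le_top (a := (2 : ℕ∞)))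

theorem cfd_Ker (hs : ContDiffAt ℝ ∞ U q) : ContDiffAt ℝ 1 (fderiv ℝ U) q :=
  hs.fderiv_right (one_add_one_eq_two.trans_le two_le_Ker)

theorem ceta_Ker (hx : U q ≠ 0) (hs : ContDiffAt ℝ ∞ U q) (hξ : ContDiffAt ℝ 1 ξ q) :
    ContDiffAt ℝ 1 (eta_Ker φ U ξ) q :=
  (((cA_Ker φ hx).comp q hs).of_le (by exact_mod_cast le_top)).clm_apply hξ

theorem ctau_Ker (hx : U q ≠ 0) (hs : ContDiffAt ℝ ∞ U q) (c : W) :
    ContDiffAt ℝ 1 (tau_Ker φ U c) q :=
  ceta_Ker hx hs ((cfd_Ker hs).clm_apply contDiffAt_const)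

theorem dl_tau_Ker (hU : IsLine φ.J U) (hq : q ≠ 0) (hs : ContDiffAt ℝ ∞ U q) (c h : W) :
    dl_Ker (tau_Ker φ U c) q h =
      R_Ker (fderiv ℝ φ.A (U q)) (fderiv ℝ U q) h (fderiv ℝ U q c) := by
  have hx := hU.ne q hq
  have hd := (cfd_Ker hs).differentiableAt (by simp)
  have hd' : ∀ v : W, DifferentiableAt ℝ (fun y => fderiv ℝ U y v) q :=
    fun v => hd.clm_apply (differentiableAt_const v)
  have h2 : ∀ v w : W, fderiv ℝ (fun y => fderiv ℝ U y v) q w = fderiv ℝ (fderiv ℝ U) q w v := by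
    intro v w
    rw [fderiv_clm_apply hd (differentiableAt_const v)]
    simp
  have hsym := hs.isSymmSndFDerivAt (by simpa using two_le_Ker)
  refine dl_eta_Ker hx (dU_Ker hU hq) (hd' c) ?_
  have e : tau_Ker φ U (I • h) =ᶠ[𝓝 q] I • tau_Ker φ U h :=
    (eventually_ne_nhds hq).mono fun y hy => tau_I_Ker hU hy h
  have h3 := congrArg (fun T : W →L[ℝ] V => T c) e.fderiv_eq
  rw [fderiv_const_smul ((ctau_Ker hx hs h).differentiableAt (by simp))] at h3
  simp only [smul_apply, tau_Ker] at h3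
  rw [fd_eta_Ker hx (dU_Ker hU hq) (hd' _), fd_eta_Ker hx (dU_Ker hU hq) (hd' _), h2, h2] at h3
  rw [Lin_Ker, h2, h2, hsym.eq (I • h) c, hsym.eq h c]
  exact h3

theorem R_comb_Ker (hU : IsLine φ.J U) (hs : ContDiffOn ℝ ∞ U {0}ᶜ) (hq : q ≠ 0) (c d : ℂ)
    (h : W) : R_Ker (fderiv ℝ φ.A (U q)) (fderiv ℝ U q) h (fderiv ℝ U q (c, d)) =
      c • dl_Ker (tau_Ker φ U (1, 0)) q h + d • dl_Ker (tau_Ker φ U (0, 1)) q h := by
  have hs' := hs.contDiffAt (isOpen_compl_singleton.mem_nhds hq)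
  have ht := fun v => (ctau_Ker (φ := φ) (hU.ne q hq) hs' v).differentiableAt (by simp)
  rw [← dl_tau_Ker hU hq hs', dl_congr_Ker hq (fun y hy => tau_comb_Ker hU hy c d),
    dl_comb_Ker (differentiableAt_const c) (differentiableAt_const d) (ht _) (ht _)]
  simp [dl_Ker]

theorem G_bound_Ker (hU : IsLine φ.J U) (hE : IsEmb U) (hs : ContDiffOn ℝ ∞ U {0}ᶜ) :
    ∃ C : ℝ, ∀ q, ‖q‖ = 1 → ∀ h m, ‖G_Ker φ U q h m‖ ≤ C * ‖m‖ * ‖h‖ := by
  refine bound_Ker (G_Ker φ U) (fun p hp => ?_) (fun q r h m => ?_) (fun q r h m => ?_)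
  · have hs' := hs.contDiffAt (isOpen_compl_singleton.mem_nhds hp)
    have hx := hU.ne _ hp
    have f1 : ContinuousAt (fun p : W × W × ℂ => p.1) p := continuousAt_fst
    have fh : ContinuousAt (fun p : W × W × ℂ => p.2.1) p := by fun_prop
    have fm : ContinuousAt (fun p : W × W × ℂ => p.2.2) p := by fun_prop
    have u0 : ContinuousAt (fun p : W × W × ℂ => U p.1) p := hs'.continuousAt.comp f1
    have du : ContinuousAt (fun p : W × W × ℂ => fderiv ℝ U p.1) p :=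
      (cfd_Ker hs').continuousAt.comp f1
    have da : ContinuousAt (fun p : W × W × ℂ => fderiv ℝ φ.A (U p.1)) p :=
      ContinuousAt.comp (f := fun p : W × W × ℂ => U p.1)
        ((cA_Ker φ hx).continuousAt_fderiv (by simp)) u0
    have hb : ContinuousAt (fun p : W × W × ℂ => φ.B (U p.1)) p :=
      ContinuousAt.comp (f := fun p : W × W × ℂ => U p.1)
        (φ.smoothB.contDiffAt (isOpen_compl_singleton.mem_nhds hx)).continuousAt u0
    have ht : ∀ c, ContinuousAt (fun p : W × W × ℂ => tau_Ker φ U c p.1) p := fun c =>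
      (ctau_Ker hx hs' c).continuousAt.comp f1
    have hn := cont_nu_Ker (ht (1, 0)) (ht (0, 1)) (sq_ne_Ker (indep_Ker hU hE hp))
    exact (fm.mul ((cont_d3_Ker (cont_R_Ker da du fh (du.clm_apply continuousAt_const)) (ht _)
      hn).add (cont_d3_Ker (ht _) (cont_R_Ker da du fh (du.clm_apply continuousAt_const))
      hn))).add (cont_d3_Ker (ht _) (ht _) (cont_R_Ker da du fh (hb.clm_apply (fm.smul hn))))
  · simp only [G_Ker, R_smul_Ker, d3_Ker, Pi.smul_apply, smul_eq_mul]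
    ring
  · simp only [G_Ker, smul_assoc, map_smul, R_smul'_Ker, d3_smul_Ker]
    rw [real_smul]
    ring

theorem ker (hS : LineSmoothStmt) (hZ : ZeroStmt) : KerStmt := by
  intro φ U ξ b hU hE hξ hhom hlin hcon
  have hs := hS φ U hU
  have hs' := fun q (hq : q ≠ 0) => hs.contDiffAt (isOpen_compl_singleton.mem_nhds hq)
  have hξ' := fun q (hq : q ≠ 0) => hξ.contDiffAt (isOpen_compl_singleton.mem_nhds hq)
  have hξ0 : ξ 0 = 0 := by simpa using hhom 0 0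
  set t0 := tau_Ker φ U (1, 0) with ht0
  set t1 := tau_Ker φ U (0, 1) with ht1
  set η := eta_Ker φ U ξ with hη
  have c0 := fun q (hq : q ≠ 0) => ctau_Ker (φ := φ) (hU.ne q hq) (hs' q hq) (1, 0)
  have c1 := fun q (hq : q ≠ 0) => ctau_Ker (φ := φ) (hU.ne q hq) (hs' q hq) (0, 1)
  have ce := fun q (hq : q ≠ 0) => ceta_Ker (φ := φ) (hU.ne q hq) (hs' q hq) (hξ' q hq)
  have d0 : ∀ q, q ≠ 0 → DifferentiableAt ℝ t0 q := fun q hq =>
    (c0 q hq).differentiableAt (by simp)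
  have d1 : ∀ q, q ≠ 0 → DifferentiableAt ℝ t1 q := fun q hq =>
    (c1 q hq).differentiableAt (by simp)
  have de : ∀ q, q ≠ 0 → DifferentiableAt ℝ η q := fun q hq =>
    (ce q hq).differentiableAt (by simp)
  have dn : ∀ q, q ≠ 0 → DifferentiableAt ℝ (fun y => nu_Ker (t0 y) (t1 y)) q := fun q hq =>
    diff_nu_Ker (d0 q hq) (d1 q hq) (sq_ne_Ker (indep_Ker hU hE hq))
  have hη0 : η 0 = 0 := by simp only [hη, eta_Ker, hξ0, map_zero]
  have hηh : ∀ (c : ℂ) q, c ≠ 0 → q ≠ 0 → η (c • q) = c • η q := fun c q hc hq => by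
    simp only [hη, eta_Ker]
    rw [hU.hom, hhom, A_smul_Ker φ (hU.ne q hq) hc]
  have hB : ∀ q, q ≠ 0 → φ.B (U q) (η q) = ξ q := fun q hq => φ.BA _ (hU.ne q hq) _
  have hdl : ∀ q, q ≠ 0 → ∀ h, dl_Ker η q h =
      R_Ker (fderiv ℝ φ.A (U q)) (fderiv ℝ U q) h (ξ q) := fun q hq h =>
    dl_eta_Ker (hU.ne q hq) (dU_Ker hU hq) ((hξ' q hq).differentiableAt (by simp)) (hlin q hq h)
  -- the coefficients of `η`
  let a : W → ℂ := fun q => d3_Ker (η q) (t1 q) (nu_Ker (t0 q) (t1 q))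
  let c : W → ℂ := fun q => d3_Ker (t0 q) (η q) (nu_Ker (t0 q) (t1 q))
  let n : W → ℂ := fun q => d3_Ker (t0 q) (t1 q) (η q)
  have hdec : ∀ q, q ≠ 0 → η q = a q • t0 q + c q • t1 q + n q • nu_Ker (t0 q) (t1 q) := by
    intro q hq
    have := cramer_Ker (t0 q) (t1 q) (nu_Ker (t0 q) (t1 q)) (η q)
    rwa [d3_nu_Ker (indep_Ker hU hE hq), one_smul] at this
  have hdl' : ∀ q, q ≠ 0 → ∀ h, dl_Ker η q h = a q • dl_Ker t0 q h + c q • dl_Ker t1 q h +
      R_Ker (fderiv ℝ φ.A (U q)) (fderiv ℝ U q) h (φ.B (U q) (n q • nu_Ker (t0 q) (t1 q))) := by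
    intro q hq h
    have e : ξ q = fderiv ℝ U q (a q, c q) + φ.B (U q) (n q • nu_Ker (t0 q) (t1 q)) := by
      rw [← hB q hq, hdec q hq, map_add, ← tau_comb_Ker hU hq]
      congr 1
      exact φ.BA _ (hU.ne q hq) _
    rw [hdl q hq, e, R_add_Ker, R_comb_Ker hU hs hq]
  have e10 : ((1, 0) : W) ≠ 0 := fun h => one_ne_zero (congrArg Prod.fst h)
  have e01 : ((0, 1) : W) ≠ 0 := fun h => one_ne_zero (congrArg Prod.snd h)
  have k1 : η (1, 0) = 0 := by
    have : ξ (1, 0) = 0 := by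
      cases b <;> exact congrArg Prod.fst hcon
    simp only [hη, eta_Ker, this, map_zero]
  have k2 : η (0, 1) = 0 ∨ fderiv ℝ η (1, 0) (0, 1) = 0 := by
    cases b
    · have h1 : ξ (1, 0) = 0 := congrArg Prod.fst hcon
      have h2 : fderiv ℝ ξ (1, 0) (0, 1) = 0 := congrArg Prod.snd hcon
      right
      rw [hη, fd_eta_Ker (hU.ne _ e10) (dU_Ker hU e10) ((hξ' _ e10).differentiableAt (by simp)),
        h1, h2, map_zero, map_zero, add_zero]
    · have h2 : ξ (0, 1) = 0 := congrArg Prod.snd hcon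
      left
      simp only [hη, eta_Ker, h2, map_zero]
  have hn : ∀ q, n q = 0 := by
    obtain ⟨C, hC⟩ := G_bound_Ker hU hE hs
    refine hZ n (fun q hq => (contDiff_d3_Ker (c0 q hq) (c1 q hq) (ce q hq)).contDiffWithinAt)
      (fun r q => ?_) ⟨C, fun q hq h => ?_⟩ (by simp [n, k1, d3_Ker]) (k2.imp ?_ ?_)
    · by_cases hr : r = 0
      · simp [n, hr, hη0, d3_Ker]
      by_cases hq : q = 0
      · simp [n, hq, hη0, d3_Ker]
      simp only [n, ht0, ht1, tau_hom_Ker hU hq hr, hηh r q hr hq, d3_smul_Ker]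
    · have hq' : q ≠ 0 := by
        rintro rfl
        simp at hq
      have e : dl_Ker n q h = G_Ker φ U q h (n q) := by
        rw [dl_d3_Ker (d0 q hq') (d1 q hq') (de q hq'), hdl' q hq', G_Ker,
          ← dl_tau_Ker hU hq' (hs' q hq'), ← dl_tau_Ker hU hq' (hs' q hq'), ← ht0, ← ht1,
          hdec q hq']
        generalize R_Ker _ _ _ _ = r, nu_Ker _ _ = ν, n q = m, a q = x, c q = y
        simp [d3_Ker]
        ring
      have := hC q hq h (n q)
      rwa [← e] at this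
    · intro h
      simp [n, h, d3_Ker]
    · intro h
      rw [fderiv_d3_Ker (d0 _ e10) (d1 _ e10) (de _ e10), k1, h]
      simp [d3_Ker]
  have hdec' : ∀ q, q ≠ 0 → η q = a q • t0 q + c q • t1 q := fun q hq => by
    rw [hdec q hq, hn, zero_smul, add_zero]
  have da : ∀ q, q ≠ 0 → DifferentiableAt ℝ a q := fun q hq =>
    diff_d3_Ker (de q hq) (d1 q hq) (dn q hq)
  have dc : ∀ q, q ≠ 0 → DifferentiableAt ℝ c q := fun q hq =>
    diff_d3_Ker (d0 q hq) (de q hq) (dn q hq)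
  have hol : ∀ q, q ≠ 0 → ∀ h, dl_Ker a q h = 0 ∧ dl_Ker c q h = 0 := by
    intro q hq h
    refine indep_Ker hU hE hq _ _ ?_
    have h1 := hdl' q hq h
    rw [dl_congr_Ker hq hdec', dl_comb_Ker (da q hq) (dc q hq) (d0 q hq) (d1 q hq), hn,
      zero_smul, map_zero, add_right_inj] at h1
    rw [h1]
    simp [R_Ker]
  have lin0 : ∀ f : W → ℂ, (∀ q, q ≠ 0 → DifferentiableAt ℝ f q) →
      (∀ q, q ≠ 0 → ∀ h, dl_Ker f q h = 0) →
      (∀ (r : ℂ) q, r ≠ 0 → q ≠ 0 → f (r • q) = r * f q) → f (1, 0) = 0 →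
      (f (0, 1) = 0 ∨ fderiv ℝ f (1, 0) (0, 1) = 0) → ∀ q, q ≠ 0 → f q = 0 := by
    intro f h1 h2 h3 h4 h5 q hq
    have hl := linear_Ker h1 h2 h3
    have h6 : f (0, 1) = 0 := by
      refine h5.elim id fun h5 => ?_
      have e : f =ᶠ[𝓝 (1, 0)] fun y => y.2 * f (0, 1) :=
        (eventually_ne_nhds e10).mono fun y hy => by rw [hl y hy, h4, mul_zero, zero_add]
      have hd : HasFDerivAt (fun y : W => y.2 * f (0, 1)) _ (1, 0) :=
        (hasFDerivAt_snd (𝕜 := ℝ)).mul_const (f (0, 1))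
      rw [e.fderiv_eq, hd.fderiv] at h5
      simpa using h5
    rw [hl q hq, h4, h6]
    simp
  have ha : ∀ q, q ≠ 0 → a q = 0 := by
    refine lin0 a da (fun q hq h => (hol q hq h).1) (fun r q hr hq => ?_)
      (by simp [a, k1, d3_Ker]) (k2.imp (fun h => by simp [a, h, d3_Ker]) fun h => ?_)
    · simp only [a, ht0, ht1, tau_hom_Ker hU hq hr, hηh r q hr hq]
      simp [d3_Ker]
      ring
    · rw [fderiv_d3_Ker (de _ e10) (d1 _ e10) (dn _ e10), k1, h]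
      simp [d3_Ker]
  have hc : ∀ q, q ≠ 0 → c q = 0 := by
    refine lin0 c dc (fun q hq h => (hol q hq h).2) (fun r q hr hq => ?_)
      (by simp [c, k1, d3_Ker]) (k2.imp (fun h => by simp [c, h, d3_Ker]) fun h => ?_)
    · simp only [c, ht0, ht1, tau_hom_Ker hU hq hr, hηh r q hr hq]
      simp [d3_Ker]
      ring
    · rw [fderiv_d3_Ker (d0 _ e10) (de _ e10) (dn _ e10), k1, h]
      simp [d3_Ker]
  intro q
  by_cases hq : q = 0
  · rw [hq, hξ0]
  · rw [← hB q hq, hdec' q hq, ha q hq, hc q hq]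
    simp

end Pool.Agent.MP_2fc7fa_gt.N
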