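import Pool.Agent.MP_2fc7fa_gt.N.IfI

open scoped ContDiff Topology
open Set Complex Filter Metric

namespace Pool.Agent.MP_2fc7fa_gt.N

lemma mono_Kop {E : Type} [NormedAddCommGroup E] {f : ℂ → E} {S : Set ℂ} {M M' : ℝ}
    (h : HB M f S) (hM : M ≤ M') : HB M' f S :=
  ⟨fun z hz => (h.1 z hz).trans hM, fun z hz z' hz' =>
    (h.2 z hz z' hz').trans (mul_le_mul_of_nonneg_right hM (Real.sqrt_nonneg _))⟩

lemma lip_Kop {E F : Type} [NormedAddCommGroup E] [NormedSpace ℝ E] [NormedAddCommGroup F]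
    [NormedSpace ℝ F] {R : ℂ → E →L[ℝ] F} (hR : ContDiff ℝ 1 R) (h0 : ∀ z, 2 ≤ ‖z‖ → R z = 0) :
    ∃ C : ℝ, ∀ (η : ℂ → E) (M : ℝ), Differentiable ℝ η →
      (∀ z ∈ ball (0 : ℂ) 3, ‖η z‖ ≤ M ∧ ‖fderiv ℝ η z‖ ≤ M) →
      ∀ z z', ‖R z (η z) - R z' (η z')‖ ≤ C * M * ‖z - z'‖ := by
  obtain ⟨A, hA⟩ := (isCompact_closedBall (0 : ℂ) 3).exists_bound_of_continuousOn
    hR.continuous.continuousOn
  obtain ⟨B, hB⟩ := (isCompact_closedBall (0 : ℂ) 3).exists_bound_of_continuousOn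
    (hR.continuous_fderiv one_ne_zero).continuousOn
  have hz0 : (0 : ℂ) ∈ ball (0 : ℂ) 3 := mem_ball_self (by norm_num)
  have hA0 : 0 ≤ A := (norm_nonneg _).trans (hA 0 (ball_subset_closedBall hz0))
  have hB0 : 0 ≤ B := (norm_nonneg _).trans (hB 0 (ball_subset_closedBall hz0))
  refine ⟨A + B, fun η M hη hM z z' => ?_⟩
  have hM0 : 0 ≤ M := (norm_nonneg _).trans (hM 0 hz0).1
  have hd := fun w => ((hR.differentiable one_ne_zero w).hasFDerivAt.clm_apply (hη w).hasFDerivAt)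
  refine convex_univ.norm_image_sub_le_of_norm_fderiv_le (𝕜 := ℝ) (f := fun w => R w (η w))
    (fun w _ => (hd w).differentiableAt) (fun w _ => ?_) (mem_univ z') (mem_univ z)
  by_cases hw : w ∈ ball (0 : ℂ) 3
  · rw [(hd w).fderiv, add_mul]
    refine (norm_add_le _ _).trans (add_le_add ((ContinuousLinearMap.opNorm_comp_le _ _).trans
      (mul_le_mul (hA w (ball_subset_closedBall hw)) (hM w hw).2 (norm_nonneg _) hA0)) ?_)
    refine ContinuousLinearMap.le_of_opNorm_le_of_le _ ?_ (hM w hw).1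
    rw [ContinuousLinearMap.opNorm_flip]
    exact hB w (ball_subset_closedBall hw)
  · have h1 : (fun w => R w (η w)) =ᶠ[𝓝 w] fun _ => 0 := by
      rw [mem_ball_zero_iff, not_lt] at hw
      filter_upwards [(isOpen_lt continuous_const continuous_norm).mem_nhds
        (show (2 : ℝ) < ‖w‖ by linarith)] with t ht
      rw [h0 t (le_of_lt ht)]
      rfl
    rw [h1.fderiv_eq, fderiv_fun_const, Pi.zero_apply, norm_zero]
    positivity

lemma ne_Kop (i : Bool) (z : ℂ) : cc i z ≠ 0 := by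
  cases i <;> simp [cc]

lemma diff_Kop {η : W → V} (h : Hom1 η) (i : Bool) : Differentiable ℝ (η ∘ cc i) := fun z => by
  refine DifferentiableAt.comp z ((h.1.differentiableOn one_ne_zero).differentiableAt
    (isOpen_compl_singleton.mem_nhds (ne_Kop i z))) ?_
  unfold cc
  cases i
  · exact (differentiableAt_const _).prodMk differentiableAt_id
  · exact differentiableAt_id.prodMk (differentiableAt_const _)

lemma add_Kop {η η' : W → V} (h : Hom1 η) (h' : Hom1 η') (i : Bool) (z : ℂ) :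
    jc (η + η') i z = jc η i z + jc η' i z :=
  Prod.ext rfl (fderiv_add (diff_Kop h i z) (diff_Kop h' i z))

lemma smul_Kop {η : W → V} (h : Hom1 η) (c : ℝ) (i : Bool) (z : ℂ) :
    jc (c • η) i z = c • jc η i z :=
  Prod.ext rfl (fderiv_const_smul (diff_Kop h i z) c)

lemma one_Kop (hS : SStmt) (hN : NlStmt) (hM : NemStmt) (hC : CptStmt) (κ : Bumps) (φ₀ : Fr)
    (U₀ : W → V) (b : Bool) (hL : IsLine φ₀.J U₀) (i : Bool) :
    ∃ K : (Bool → Ho V) →L[ℝ] Ho V, IsCompactOperator K ∧ ∀ h z, (K h).fn z =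
      κ.χ z • fderiv ℝ (Nl φ₀ φ₀ U₀ i) (z, 0) (0, jc (sec1 κ b (fun i => (h i).fn) 0) i z) := by
  obtain ⟨C, hC0, hS1, hS2⟩ := hS κ b
  obtain ⟨hO, hF, -, hI⟩ := hN Unit (fun _ => φ₀) φ₀ U₀ i (fun n =>
    ⟨fam_of_contDiffOn isOpen_compl_singleton.uniqueDiffOn φ₀.smoothB,
      fam_of_contDiffOn isOpen_compl_singleton.uniqueDiffOn φ₀.smoothA⟩) hL
  have hz : ∀ z : ℂ, (z, 0) ∈ NlDom φ₀ U₀ i := fun z => by
    simpa [NlDom] using hL.ne _ (ne_Kop i z)
  have hχ : ContDiff ℝ 1 κ.χ := κ.sχ.of_le (by exact_mod_cast le_top)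
  obtain ⟨-, ⟨C', -, hM2⟩, -⟩ := hM _ V Unit _ _ κ.χ () hO (hF 2) hz hχ κ.zero
  have hG := (hF 2).contDiffOn hO.uniqueDiffOn ()
  generalize Nl φ₀ φ₀ U₀ i = G at hI hM2 hG
  have hD : ContDiff ℝ 1 fun z : ℂ => fderiv ℝ G (z, 0) := contDiff_iff_contDiffAt.2 fun z =>
    ((hG.contDiffAt (hO.mem_nhds (hz z))).fderiv_right (m := 1) (by norm_num)).comp z
      (contDiffAt_id.prodMk contDiffAt_const)
  obtain ⟨C'', hlip⟩ := lip_Kop (R := fun z => κ.χ z • (fderiv ℝ G (z, 0)).comp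
    ((ContinuousLinearMap.inr ℝ ℂ _).comp (ContinuousLinearMap.inl ℝ V (ℂ →L[ℝ] V))))
    (hχ.smul (hD.clm_comp contDiff_const)) fun z hz => by
      ext v
      simp [κ.zero z hz]
  have hb : ∀ (h : Bool → Ho V) (M : ℝ), ‖h‖ ≤ M → ∀ i, HB M (h i).fn univ := fun h M hM i =>
    mono_Kop (h i).hb ((norm_le_pi_norm h i).trans hM)
  have h1 := fun h : Bool → Ho V => hS1 (fun i => (h i).fn) 0 ‖h‖ (hb h _ le_rfl) (by simp)
  have h2 := fun h : Bool → Ho V => hM2 _ _ ((h1 h).2.2.1 i)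
  have h3 := fun (h h' : Bool → Ho V) (c : ℝ) => hS2 (fun i => (h i).fn) (fun i => (h' i).fn) 0 0
    (max ‖h‖ ‖h'‖) c (hb h _ (le_max_left _ _)) (hb h' _ (le_max_right _ _))
  simp only [add_zero, smul_zero] at h3
  let L : (Bool → Ho V) →ₗ[ℝ] Ho V :=
    { toFun := fun h => Ho.of fun z =>
        κ.χ z • fderiv ℝ G (z, 0) (0, jc (sec1 κ b (fun i => (h i).fn) 0) i z)
      map_add' := fun h h' => Ho.ext_fn (by
        rw [Ho.fn_add, (h2 h).fn_of, (h2 h').fn_of, (h2 (h + h')).fn_of]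
        funext z
        rw [Pi.add_apply, ← smul_add, ← map_add, Prod.mk_add_mk, add_zero,
          ← add_Kop (h1 h).1 (h1 h').1, ← (h3 h h' 0).1]
        rfl)
      map_smul' := fun c h => Ho.ext_fn (by
        rw [RingHom.id_apply, Ho.fn_smul, (h2 h).fn_of, (h2 (c • h)).fn_of]
        funext z
        rw [Pi.smul_apply, smul_comm c, ← map_smul _ c, Prod.smul_mk, smul_zero,
          ← smul_Kop (h1 h).1, ← (h3 h h c).2]
        rfl) }
  have hK : ∀ h z, (L.mkContinuous (C' * C) (fun h => (h2 h).norm_of.trans_eq (mul_assoc _ _ _).symm)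
      h).fn z = κ.χ z • fderiv ℝ G (z, 0) (0, jc (sec1 κ b (fun i => (h i).fn) 0) i z) :=
    fun h z => congrFun (h2 h).fn_of z
  refine ⟨_, hC _ V _ (C'' * C) (fun h z hz => ?_) fun h z z' => ?_, hK⟩
  · rw [hK, κ.zero z hz, zero_smul]
  · rw [hK, hK, jc, jc, hI z, hI z', mul_assoc C'']
    refine hlip _ _ (diff_Kop (h1 h).1 i) (fun w hw => ?_) z z'
    have h4 := ((h1 h).2.2.1 i).1 w hw
    exact ⟨(norm_fst_le _).trans h4, (norm_snd_le _).trans h4⟩

lemma pi_Kop {X Y : Type} [NormedAddCommGroup X] [NormedSpace ℝ X] [NormedAddCommGroup Y]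
    [NormedSpace ℝ Y] (K : Bool → X →L[ℝ] Y) (h : ∀ i, IsCompactOperator (K i)) :
    IsCompactOperator (ContinuousLinearMap.pi K) := by
  have e : ⇑(ContinuousLinearMap.pi K) =
      ContinuousLinearMap.single ℝ (fun _ : Bool => Y) false ∘ K false +
        ContinuousLinearMap.single ℝ (fun _ : Bool => Y) true ∘ K true := by
    funext x i
    cases i <;> simp
  rw [e]
  exact ((h false).clm_comp _).add ((h true).clm_comp _)

theorem kop (hS : SStmt) (hN : NlStmt) (hM : NemStmt) (hC : CptStmt) : KopStmt := by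
  intro κ φ₀ U₀ b hL
  choose K h1 h2 using one_Kop hS hN hM hC κ φ₀ U₀ b hL
  exact ⟨ContinuousLinearMap.pi K, pi_Kop K h1, fun h i z => h2 i h z⟩

end Pool.Agent.MP_2fc7fa_gt.N
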