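import Pool.Agent.MP_2fc7fa_gt.N.IfB

/-! Lines of the standard structure are linear. -/

open scoped Topology
open Set Complex Filter Metric

namespace Pool.Agent.MP_2fc7fa_gt.N

theorem deriv_Lin {U : W → V} {q : W} (h1 : DifferentiableAt ℝ U q)
    (h2 : ∀ h, fderiv ℝ U q (I • h) = I • fderiv ℝ U q h) :
    HasDerivAt (fun z => U (q.1, z)) (fderiv ℝ U q (0, 1)) q.2 := by
  have h3 : HasFDerivAt (fun z : ℂ => U (q.1, z))
      ((fderiv ℝ U q).comp (ContinuousLinearMap.inr ℝ ℂ ℂ)) q.2 :=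
    HasFDerivAt.comp (g := U) (f := fun z : ℂ => (q.1, z)) q.2 h1.hasFDerivAt
      (hasFDerivAt_prodMk_right q.1 q.2)
  refine hasFDerivAt_of_restrictScalars ℝ h3 (ContinuousLinearMap.ext fun w => ?_)
  have e : ((0, w) : W) = w.re • ((0, 1) : W) + w.im • I • ((0, 1) : W) := by simp
  change w • fderiv ℝ U q (0, 1) = fderiv ℝ U q (0, w)
  rw [e, map_add, map_smul, map_smul, h2, ← Complex.coe_smul, ← Complex.coe_smul, smul_smul,
    ← add_smul, re_add_im]

theorem liou_Lin {g : ℂ → V} (hg : Differentiable ℂ g) {C : ℝ} (h : ∀ z, ‖g z‖ ≤ C * (1 + ‖z‖))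
    (z : ℂ) : g z = g 0 + z • deriv g 0 := by
  have h1 : Differentiable ℂ (dslope g 0) := differentiableOn_univ.1
    ((Complex.differentiableOn_dslope univ_mem).2 hg.differentiableOn)
  have hC : 0 ≤ C := by simpa using (norm_nonneg _).trans (h 0)
  have h2 : Bornology.IsBounded (range (dslope g 0)) := by
    refine ((((isCompact_closedBall (0 : ℂ) 1).image h1.continuous).isBounded).union
      (isBounded_closedBall (x := (0 : V)) (r := 3 * C))).subset ?_
    rintro _ ⟨w, rfl⟩
    by_cases hw : ‖w‖ ≤ 1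
    · exact Or.inl ⟨w, by simpa using hw, rfl⟩
    · refine Or.inr (mem_closedBall_zero_iff.2 ?_)
      have h3 := congrArg norm (sub_smul_dslope g 0 w)
      rw [sub_zero, norm_smul] at h3
      have h4 := norm_sub_le (g w) (g 0)
      have h5 := h w
      have h6 := h 0
      rw [norm_zero] at h6
      refine le_of_mul_le_mul_left (a := ‖w‖) ?_ (by linarith)
      nlinarith
  have h3 := sub_smul_dslope g 0 z
  rw [h1.apply_eq_apply_of_bounded h2 z 0, dslope_same, sub_zero] at h3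
  rw [h3, add_sub_cancel]

theorem lin : LinStmt := by
  intro J U hJ hU
  have hd : ∀ q, q ≠ 0 → DifferentiableAt ℝ U q := fun q hq =>
    (hU.c1.contDiffAt (isOpen_compl_singleton.mem_nhds hq)).differentiableAt one_ne_zero
  have h1 : ∀ z : ℂ, ((1, z) : W) ≠ 0 := fun z h => one_ne_zero (congrArg Prod.fst h)
  have h2 : ∀ z : ℂ, HasDerivAt (fun z => U (1, z)) (fderiv ℝ U (1, z) (0, 1)) z := fun z =>
    deriv_Lin (hd _ (h1 z)) fun h => (hU.hol _ (h1 z) h).trans (hJ _ (hU.ne _ (h1 z)) _)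
  obtain ⟨C, hC⟩ := (isCompact_sphere (0 : W) 1).exists_bound_of_continuousOn
    (hU.c1.continuousOn.mono fun q hq (h : q = 0) => by simp [h] at hq)
  have h3 : ∀ z : ℂ, ‖U (1, z)‖ ≤ C * (1 + ‖z‖) := by
    intro z
    have h4 : ‖((1, z) : W)‖ ≠ 0 := norm_ne_zero_iff.2 (h1 z)
    have h5 := hC (((‖((1, z) : W)‖ : ℂ))⁻¹ • (1, z)) (by
      rw [mem_sphere_zero_iff_norm, norm_smul, norm_inv, norm_real, norm_norm, inv_mul_cancel₀ h4])
    have hC0 := (norm_nonneg _).trans h5
    rw [hU.hom, norm_smul, norm_inv, norm_real, norm_norm,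
      inv_mul_le_iff₀ (norm_pos_iff.2 (h1 z)), mul_comm] at h5
    refine h5.trans (mul_le_mul_of_nonneg_left ?_ hC0)
    rw [Prod.norm_def, norm_one]
    exact max_le (by linarith [norm_nonneg z]) (by simp)
  have h4 : ∀ z : ℂ, U (1, z) = (jet U).1 + z • (jet U).2 := fun z => by
    have := liou_Lin (fun z => (h2 z).differentiableAt) h3 z
    rwa [(h2 0).deriv] at this
  have h5 : ∀ a b : ℂ, a ≠ 0 → U (a, b) = a • (jet U).1 + b • (jet U).2 := fun a b ha => by
    have e : ((a, b) : W) = a • ((1, a⁻¹ * b) : W) := by simp [ha]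
    rw [e, hU.hom, h4, smul_add, smul_smul, mul_inv_cancel_left₀ ha]
  rintro ⟨a, b⟩
  by_cases ha : a = 0
  · subst ha
    by_cases hb : b = 0
    · subst hb
      simpa [Prod.mk_zero_zero] using hU.hom 0 (0, 0)
    · have h6 : ContinuousAt (fun t : ℂ => U (t, b)) 0 :=
        ContinuousAt.comp (g := U) (f := fun t : ℂ => (t, b))
          (hd _ fun h => hb (congrArg Prod.snd h)).continuousAt (by fun_prop)
      have h7 : ContinuousAt (fun t : ℂ => t • (jet U).1 + b • (jet U).2) 0 := by fun_prop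
      exact tendsto_nhds_unique_of_eventuallyEq (l := 𝓝[≠] (0 : ℂ)) (h6.mono_left nhdsWithin_le_nhds)
        (h7.mono_left nhdsWithin_le_nhds) (eventually_nhdsWithin_of_forall fun t ht => h5 t b ht)
  · exact h5 a b ha

end Pool.Agent.MP_2fc7fa_gt.N
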