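import Pool.Agent.MP_2fc7fa_gt.N.IfI

/-! The linearised cut-off equation has only the zero solution. -/

open scoped ContDiff ComplexConjugate Topology
open Set Complex Filter Metric

noncomputable section

namespace Pool.Agent.MP_2fc7fa_gt.N

theorem diff_LinInj {U : W → V} (h : Hom1 U) {q : W} (hq : q ≠ 0) :
    HasFDerivAt U (fderiv ℝ U q) q :=
  ((h.1.contDiffAt (isOpen_compl_singleton.mem_nhds hq)).differentiableAt
    one_ne_zero).hasFDerivAt

theorem fd_smul_LinInj {U : W → V} (h : Hom1 U) {c : ℂ} (hc : c ≠ 0) {q : W}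
    (hq : q ≠ 0) (k : W) : fderiv ℝ U (c • q) (c • k) = c • fderiv ℝ U q k := by
  have h1 := (diff_LinInj h (smul_ne_zero hc hq)).comp q ((hasFDerivAt_id q).const_smul c)
  have h2 := (diff_LinInj h hq).const_smul c
  have e : U ∘ HSMul.hSMul c = c • U := funext fun y => h.2 c y
  have h3 : HasFDerivAt (c • U) _ q := e ▸ h1
  exact congrArg (fun L : W →L[ℝ] V => L k) (h3.unique h2)

theorem fd_rad_LinInj {U : W → V} (h : Hom1 U) {q : W} (hq : q ≠ 0) (a : ℂ) :
    fderiv ℝ U q (a • q) = a • U q := by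
  let L : ℂ →L[ℝ] W := (ContinuousLinearMap.toSpanSingleton ℂ q).restrictScalars ℝ
  let M : ℂ →L[ℝ] V := (ContinuousLinearMap.toSpanSingleton ℂ (U q)).restrictScalars ℝ
  have e : L 1 = q := one_smul ℂ q
  have h1 : HasFDerivAt (U ∘ L) ((fderiv ℝ U q).comp L) 1 :=
    HasFDerivAt.comp 1 (by rw [e]; exact diff_LinInj h hq) L.hasFDerivAt
  have h2 : U ∘ L = M := funext fun z => h.2 z q
  rw [h2] at h1
  exact congrArg (fun T : ℂ →L[ℝ] V => T a) (h1.unique M.hasFDerivAt)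

theorem dA_LinInj (φ : Fr) {x : V} (hx : x ≠ 0) : HasFDerivAt φ.A (fderiv ℝ φ.A x) x :=
  ((φ.smoothA.contDiffAt (isOpen_compl_singleton.mem_nhds hx)).differentiableAt
    (by simp)).hasFDerivAt

theorem dB_LinInj (φ : Fr) {x : V} (hx : x ≠ 0) : HasFDerivAt φ.B (fderiv ℝ φ.B x) x :=
  ((φ.smoothB.contDiffAt (isOpen_compl_singleton.mem_nhds hx)).differentiableAt
    (by simp)).hasFDerivAt

theorem A_smul_LinInj (φ : Fr) {x : V} (hx : x ≠ 0) {c : ℂ} (hc : c ≠ 0) (v : V) :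
    φ.A (c • x) (c • v) = c • φ.A x v := by
  have h := φ.scale x hx c hc (φ.A x v)
  rw [φ.BA x hx] at h
  rw [← h, φ.AB _ (smul_ne_zero hc hx)]

theorem dA_vert_LinInj (φ : Fr) {x : V} (hx : x ≠ 0) (a : ℂ) (ξ : V) :
    fderiv ℝ φ.A x ξ (a • x) + φ.A x (a • ξ) = a • ξ := by
  have h0 := (hasFDerivAt_id (𝕜 := ℝ) x).const_smul a
  have h1 := (dA_LinInj φ hx).clm_apply h0
  have h2 : (fun y => φ.A y ((a • id : V → V) y)) =ᶠ[𝓝 x] (a • id : V → V) :=
    (eventually_ne_nhds hx).mono fun y hy => by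
      have := φ.AB y hy (a • y)
      rwa [φ.vert y hy] at this
  have h3 := congrArg (fun L : V →L[ℝ] V => L ξ) ((h1.congr_of_eventuallyEq h2.symm).unique h0)
  rw [add_comm]
  exact h3

theorem dA_smul_LinInj (φ : Fr) {x : V} (hx : x ≠ 0) {c : ℂ} (hc : c ≠ 0) (ξ v : V) :
    fderiv ℝ φ.A (c • x) (c • ξ) (c • v) = c • fderiv ℝ φ.A x ξ v := by
  have h1 := ((dA_LinInj φ (smul_ne_zero hc hx)).comp x
    ((hasFDerivAt_id x).const_smul c)).clm_apply (hasFDerivAt_const (c • v) x)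
  have h2 := ((dA_LinInj φ hx).clm_apply (hasFDerivAt_const v x)).const_smul c
  have h3 := (h1.congr_of_eventuallyEq ((eventually_ne_nhds hx).mono fun y hy =>
    (A_smul_LinInj φ hy hc v).symm)).unique h2
  simpa using congrArg (fun L : V →L[ℝ] V => L ξ) h3

/-- The linearised coframe applied to the derivative. -/
def T_LinInj (φ : Fr) (U ξ : W → V) (q : W) : W →L[ℝ] V :=
  (fderiv ℝ φ.A (U q) (ξ q)).comp (fderiv ℝ U q) + (φ.A (U q)).comp (fderiv ℝ ξ q)

theorem T_apply_LinInj (φ : Fr) (U ξ : W → V) (q k : W) : T_LinInj φ U ξ q k =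
    fderiv ℝ φ.A (U q) (ξ q) (fderiv ℝ U q k) + φ.A (U q) (fderiv ℝ ξ q k) := rfl

/-- The linearised Cauchy-Riemann operator. -/
def e_LinInj (φ : Fr) (U ξ : W → V) (q k : W) : V :=
  T_LinInj φ U ξ q k + I • T_LinInj φ U ξ q (I • k)

theorem anti_LinInj (T : W →L[ℝ] V) (c : ℂ) (k : W) :
    T (c • k) + I • T (I • c • k) = conj c • (T k + I • T (I • k)) := by
  have e1 : c • k = c.re • k + c.im • (I • k) := by
    conv_lhs => rw [← re_add_im c]
    rw [add_smul, mul_smul, coe_smul, coe_smul]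
  have e2 : I • c • k = c.re • (I • k) - c.im • k := by
    rw [e1, smul_add, smul_comm I c.re, smul_comm I c.im, smul_smul I I, I_mul_I, neg_smul,
      one_smul, smul_neg, sub_eq_add_neg]
  have e3 : conj c = c.re - c.im * I := by
    apply Complex.ext <;> simp
  rw [e2, e1, T.map_add, T.map_sub, T.map_smul, T.map_smul, T.map_smul, T.map_smul, e3]
  generalize T k = a
  generalize T (I • k) = b
  simp only [← coe_smul]
  have := I_mul_I
  match_scalars
  · ring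
  · linear_combination (c.im : ℂ) * this

theorem cov_LinInj (hC : CovStmt) (φ : Fr) {U ξ : W → V} (hU : Hom1 U)
    (hn : ∀ q, q ≠ 0 → U q ≠ 0) (hξ : Hom1 ξ) :
    (∀ i z, z ≠ 0 → e_LinInj φ U ξ (cc i z) (cc i 1 - cc i 0) =
      tr (fun w => e_LinInj φ U ξ (cc (!i) w) (cc (!i) 1 - cc (!i) 0)) z) ∧
    ((∀ i z, e_LinInj φ U ξ (cc i z) (cc i 1 - cc i 0) = 0) →
      ∀ q, q ≠ 0 → ∀ h, e_LinInj φ U ξ q h = 0) := by
  refine hC _ (fun q _ h h' => ?_) (fun q _ c h => anti_LinInj _ c h) (fun q hq => ?_)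
    fun q hq c hc h => ?_
  · simp only [e_LinInj, smul_add, map_add]
    abel
  · have key : ∀ a : ℂ, T_LinInj φ U ξ q (a • q) = a • ξ q := fun a => by
      rw [T_apply_LinInj, fd_rad_LinInj hU hq, fd_rad_LinInj hξ hq, dA_vert_LinInj φ (hn q hq)]
    have h1 := key 1
    rw [one_smul, one_smul] at h1
    rw [e_LinInj, h1, key, smul_smul, I_mul_I, neg_smul, one_smul, add_neg_cancel]
  · have key : ∀ k, T_LinInj φ U ξ (c • q) (c • k) = c • T_LinInj φ U ξ q k := fun k => by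
      rw [T_apply_LinInj, T_apply_LinInj, fd_smul_LinInj hU hc hq, fd_smul_LinInj hξ hc hq, hU.2,
        hξ.2, dA_smul_LinInj φ (hn q hq) hc, A_smul_LinInj φ (hn q hq) hc, smul_add]
    rw [e_LinInj, e_LinInj, smul_comm I c h, key, key, smul_add, smul_comm I c]

theorem cc_ne_LinInj (i : Bool) (z : ℂ) : cc i z ≠ 0 := by
  cases i <;> simp [cc]

theorem cc_deriv_LinInj (i : Bool) (z : ℂ) : HasFDerivAt (cc i)
    ((ContinuousLinearMap.toSpanSingleton ℂ (cc i 1 - cc i 0)).restrictScalars ℝ) z := by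
  have e : cc i = fun w => cc i 0 +
      (ContinuousLinearMap.toSpanSingleton ℂ (cc i 1 - cc i 0)).restrictScalars ℝ w := by
    funext w
    cases i <;> simp [cc]
  have := (((ContinuousLinearMap.toSpanSingleton ℂ (cc i 1 - cc i 0)).restrictScalars
    ℝ).hasFDerivAt (x := z)).const_add (cc i 0)
  rwa [← e] at this

theorem fd_cc_LinInj {U : W → V} (hU : Hom1 U) (i : Bool) (z w : ℂ) :
    fderiv ℝ (U ∘ cc i) z w = fderiv ℝ U (cc i z) (w • (cc i 1 - cc i 0)) := by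
  rw [((diff_LinInj hU (cc_ne_LinInj i z)).comp z (cc_deriv_LinInj i z)).fderiv]
  rfl

theorem line_LinInj (φ : Fr) {x : V} (hx : x ≠ 0) (ξ u v : V) :
    HasDerivAt (fun t : ℝ => φ.A (x + t • ξ) (u + t • v)) (fderiv ℝ φ.A x ξ u + φ.A x v) 0 := by
  have h1 : HasDerivAt (fun t : ℝ => x + t • ξ) ξ 0 := by
    simpa using ((hasDerivAt_id (0 : ℝ)).smul_const ξ).const_add x
  have h2 : HasDerivAt (fun t : ℝ => u + t • v) v 0 := by
    simpa using ((hasDerivAt_id (0 : ℝ)).smul_const v).const_add u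
  have h3 := (dA_LinInj φ hx).comp_hasDerivAt_of_eq (0 : ℝ) h1 (by simp)
  simpa using h3.clm_apply h2

theorem dNl_LinInj (hN : NlStmt) (φ : Fr) {U : W → V} (hU : IsLine φ.J U) (i : Bool) (z : ℂ)
    (y : V) (d : ℂ →L[ℝ] V) :
    fderiv ℝ (Nl φ φ U i) (z, 0) (0, y, d) =
      (1 / 2 : ℂ) • (fderiv ℝ φ.A (U (cc i z)) (φ.B (U (cc i z)) y) (fderiv ℝ (U ∘ cc i) z 1) +
        φ.A (U (cc i z)) (fderiv ℝ (fun z => φ.B (U (cc i z))) z 1 y + φ.B (U (cc i z)) (d 1)) +
        I • (fderiv ℝ φ.A (U (cc i z)) (φ.B (U (cc i z)) y) (fderiv ℝ (U ∘ cc i) z I) +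
        φ.A (U (cc i z)) (fderiv ℝ (fun z => φ.B (U (cc i z))) z I y + φ.B (U (cc i z)) (d I)))) -
      (1 / 2 : ℂ) • (d 1 + I • d I) := by
  have hx := hU.ne _ (cc_ne_LinInj i z)
  obtain ⟨ho, hf, -, -⟩ := hN Unit (fun _ => φ) φ U i
    (fun n => ⟨fam_of_contDiffOn isOpen_compl_singleton.uniqueDiffOn φ.smoothB,
      fam_of_contDiffOn isOpen_compl_singleton.uniqueDiffOn φ.smoothA⟩) hU
  have hm : ((z, 0) : ℂ × V × (ℂ →L[ℝ] V)) ∈ NlDom φ U i := by
    simpa [NlDom] using hx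
  have hd : DifferentiableAt ℝ (Nl φ φ U i) (z, 0) :=
    ((hf 1).diffOn () _ hm).differentiableAt (ho.mem_nhds hm)
  have h1 : HasDerivAt (fun t : ℝ => Nl φ φ U i ((z, 0) + t • (0, y, d))) _ 0 :=
    hd.hasFDerivAt.hasLineDerivAt (0, y, d)
  refine h1.unique ?_
  have h2 := line_LinInj φ hx (φ.B (U (cc i z)) y) (fderiv ℝ (U ∘ cc i) z 1)
    (fderiv ℝ (fun z => φ.B (U (cc i z))) z 1 y + φ.B (U (cc i z)) (d 1))
  have h3 := line_LinInj φ hx (φ.B (U (cc i z)) y) (fderiv ℝ (U ∘ cc i) z I)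
    (fderiv ℝ (fun z => φ.B (U (cc i z))) z I y + φ.B (U (cc i z)) (d I))
  have h4 : HasDerivAt (fun t : ℝ => t • ((1 / 2 : ℂ) • (d 1 + I • d I)))
      ((1 / 2 : ℂ) • (d 1 + I • d I)) 0 := by
    simpa using (hasDerivAt_id (0 : ℝ)).smul_const ((1 / 2 : ℂ) • (d 1 + I • d I))
  have h5 := ((h2.fun_add (h3.fun_const_smul I)).fun_const_smul (1 / 2 : ℂ)).fun_sub h4
  refine h5.congr_of_eventuallyEq (Eventually.of_forall fun t => ?_)
  have e : ((z, 0) : ℂ × V × (ℂ →L[ℝ] V)) + t • (0, y, d) = (z, t • y, t • d) := by simp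
  simp only [e, Nl, map_smul, smul_apply, smul_add, add_assoc,
    smul_comm t (1 / 2 : ℂ), smul_comm t I]

theorem tr_tr_LinInj (g : ℂ → V) {z : ℂ} (hz : z ≠ 0) : tr (tr g) z = g z := by
  have hc : conj z ≠ 0 := (map_ne_zero _).2 hz
  rw [tr, tr, inv_inv, smul_smul, map_inv₀]
  have : -(z / conj z ^ 2) * -(z⁻¹ / (conj z)⁻¹ ^ 2) = 1 := by
    field_simp
  rw [this, one_smul]

theorem linInj (hS : SStmt) (hC : CovStmt) (hK : KerStmt) (hL : LineSmoothStmt) (hN : NlStmt) :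
    LinInjStmt := by
  intro κ φ U b h M hU hE hh heq
  have _ := hL
  obtain ⟨C, -, hS1, -⟩ := hS κ b
  have hM : ‖(0 : V × V)‖ ≤ M := by
    rw [norm_zero]
    exact (norm_nonneg _).trans ((hh true).1 0 trivial)
  obtain ⟨hη, hcon, -, -, hdb⟩ := hS1 h 0 M hh hM
  generalize sec1 κ b h 0 = η at hη hcon hdb heq
  have hU1 : Hom1 U := ⟨hU.c1, hU.hom⟩
  have hη0 : η 0 = 0 := by simpa using hη.2 0 0
  obtain ⟨ξ, hξd⟩ : ∃ ξ : W → V, ξ = fun q => φ.B (U q) (η q) := ⟨_, rfl⟩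
  have hξq : ∀ q, ξ q = φ.B (U q) (η q) := fun q => by rw [hξd]
  have hξ : Hom1 ξ := by
    refine ⟨?_, fun c q => ?_⟩
    · rw [hξd]
      exact ((φ.smoothB.of_le (by exact_mod_cast le_top)).comp hU.c1
        fun q hq => hU.ne q hq).clm_apply hη.1
    · rw [hξq, hξq]
      by_cases hc : c = 0
      · rw [hc, zero_smul, zero_smul, hη0, map_zero]
      by_cases hq : q = 0
      · rw [hq, smul_zero, hη0, map_zero, smul_zero]
      rw [hU.hom, hη.2, φ.scale _ (hU.ne q hq) c hc]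
  obtain ⟨hcov, hzero⟩ := cov_LinInj hC φ hU1 hU.ne hξ
  have hN1 : ∀ i z, fderiv ℝ (Nl φ φ U i) (z, 0) (0, jc η i z) =
      (1 / 2 : ℂ) • e_LinInj φ U ξ (cc i z) (cc i 1 - cc i 0) - dbar (η ∘ cc i) z := by
    intro i z
    have hB : HasFDerivAt (fun z => φ.B (U (cc i z))) _ z :=
      (dB_LinInj φ (hU.ne _ (cc_ne_LinInj i z))).comp z
        ((diff_LinInj hU1 (cc_ne_LinInj i z)).comp z (cc_deriv_LinInj i z))
    have hη' : HasFDerivAt (η ∘ cc i) _ z :=
      (diff_LinInj hη (cc_ne_LinInj i z)).comp z (cc_deriv_LinInj i z)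
    have h1 : ∀ w, fderiv ℝ (fun z => φ.B (U (cc i z))) z w (η (cc i z)) +
        φ.B (U (cc i z)) (fderiv ℝ (η ∘ cc i) z w) =
          fderiv ℝ ξ (cc i z) (w • (cc i 1 - cc i 0)) := by
      intro w
      have h2 := (hB.differentiableAt.hasFDerivAt.clm_apply
        hη'.differentiableAt.hasFDerivAt).fderiv
      have h3 : ξ ∘ cc i = fun y => φ.B (U (cc i y)) ((η ∘ cc i) y) := funext fun y => hξq _
      rw [← fd_cc_LinInj hξ, h3, h2, add_comm]
      rfl
    rw [jc, dNl_LinInj hN φ hU, h1, h1, ← hξq, fd_cc_LinInj hU1, fd_cc_LinInj hU1, one_smul, dbar,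
      e_LinInj, T_apply_LinInj, T_apply_LinInj]
  have hρ : ∀ i z, κ.ρ z • h i z = h i z := fun i z => by
    rcases le_total ‖z‖ 2 with hz | hz
    · rw [κ.one' z hz, one_smul]
    · have := heq i z
      rw [κ.zero z hz, zero_smul, add_zero] at this
      rw [this, smul_zero]
  simp only [hρ] at hdb
  have hE0 : ∀ i z, e_LinInj φ U ξ (cc i z) (cc i 1 - cc i 0) = 0 := by
    intro i z
    have h1 := heq i z
    rw [hN1, hdb] at h1
    have h5 : (1 / 2 : ℂ) • e_LinInj φ U ξ (cc i z) (cc i 1 - cc i 0) = 0 := by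
      by_cases hz : z = 0
      · subst hz
        rw [κ.one 0 (by simp), one_smul, tr] at h1
        simpa using h1
      · have h2 := heq (!i) z⁻¹
        rw [hN1, hdb, Bool.not_not] at h2
        have h3 := congrArg (fun v : V => -(z / conj z ^ 2) • v) h2
        have h4 := tr_tr_LinInj (fun w => h i w) hz
        rw [tr] at h4
        have h6 := hcov i z hz
        rw [tr] at h6
        simp only [smul_add, smul_zero, smul_sub, smul_comm (-(z / conj z ^ 2)) (κ.χ z⁻¹),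
          smul_comm (-(z / conj z ^ 2)) (1 / 2 : ℂ), h4, ← h6] at h3
        rw [tr] at h1
        have h7 := κ.sum z hz
        generalize (1 / 2 : ℂ) • e_LinInj φ U ξ (cc i z) (cc i 1 - cc i 0) = E at h1 h3 ⊢
        generalize -(z / conj z ^ 2) • h (!i) z⁻¹ = g at h1 h3
        rw [eq_sub_of_add_eq h7] at h1
        linear_combination (norm := module) h1 + h3
    exact (smul_eq_zero.1 h5).resolve_left (by norm_num)
  have hcon' : con b ξ = 0 := by
    have h10 : ((1, 0) : W) ≠ 0 := by simp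
    cases b
    · have h1 : η (1, 0) = 0 := congrArg Prod.fst hcon
      have h2 : fderiv ℝ η (1, 0) (0, 1) = 0 := congrArg Prod.snd hcon
      have h3 := (((dB_LinInj φ (hU.ne _ h10)).comp _ (diff_LinInj hU1 h10)).clm_apply
        (diff_LinInj hη h10)).fderiv
      have h4 : ξ = fun y => (φ.B ∘ U) y (η y) := hξd
      refine Prod.ext ?_ ?_
      · change ξ (1, 0) = 0
        rw [hξq, h1, map_zero]
      · change fderiv ℝ ξ (1, 0) (0, 1) = 0
        rw [h4, h3]
        simp [h1, h2]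
    · have h1 : η (1, 0) = 0 := congrArg Prod.fst hcon
      have h2 : η (0, 1) = 0 := congrArg Prod.snd hcon
      refine Prod.ext ?_ ?_
      · change ξ (1, 0) = 0
        rw [hξq, h1, map_zero]
      · change ξ (0, 1) = 0
        rw [hξq, h2, map_zero]
  have hξ0 := hK φ U ξ b hU hE hξ.1 hξ.2 (fun q hq k => by
    have h1 := hzero hE0 q hq k
    rw [e_LinInj] at h1
    rw [← T_apply_LinInj, ← T_apply_LinInj, eq_neg_of_add_eq_zero_left h1, smul_neg, smul_smul,
      I_mul_I, neg_smul, one_smul, neg_neg]) hcon'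
  have hη1 : η = 0 := funext fun q => by
    by_cases hq : q = 0
    · rw [hq, hη0]
      rfl
    · rw [← φ.AB _ (hU.ne q hq) (η q), ← hξq, hξ0, map_zero]
      rfl
  funext i z
  have h1 := heq i z
  have h2 : ((0, jc η i z) : ℂ × V × (ℂ →L[ℝ] V)) = 0 := by
    rw [hη1]
    simp [jc]
  rw [h2, map_zero, smul_zero, add_zero] at h1
  exact h1

end Pool.Agent.MP_2fc7fa_gt.N
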