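import Pool.Agent.MP_2fc7fa_gt.N.IfI
import Pool.Agent.MP_2fc7fa_gt.N.Lin

/-! Holomorphic sections of `O(1)` are linear, and a compactness criterion. -/

open scoped Topology
open Set Complex Filter Metric

namespace Pool.Agent.MP_2fc7fa_gt.N

theorem liou : LiouStmt := by
  rintro U b ⟨hU, hh⟩ hb hc
  have hd : ∀ q, q ≠ 0 → DifferentiableAt ℝ U q := fun q hq =>
    (hU.contDiffAt (isOpen_compl_singleton.mem_nhds hq)).differentiableAt one_ne_zero
  have h1 : ∀ z : ℂ, ((1, z) : W) ≠ 0 := fun z h => one_ne_zero (congrArg Prod.fst h)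
  have h2 : ∀ z : ℂ, HasDerivAt (fun z => U (1, z)) (fderiv ℝ U (1, z) (0, 1)) z := fun z => by
    have h3 : HasFDerivAt (fun z : ℂ => U (1, z))
        ((fderiv ℝ U (1, z)).comp (ContinuousLinearMap.inr ℝ ℂ ℂ)) z :=
      HasFDerivAt.comp (g := U) (f := fun z : ℂ => ((1 : ℂ), z)) z (hd _ (h1 z)).hasFDerivAt
        (hasFDerivAt_prodMk_right 1 z)
    have h4 : dbar (fun z : ℂ => U (1, z)) z = 0 := hb false z
    rw [dbar, h3.fderiv, smul_eq_zero_iff_right (by simp)] at h4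
    have h5 : fderiv ℝ U (1, z) (0, I) = I • fderiv ℝ U (1, z) (0, 1) := by
      rw [show fderiv ℝ U (1, z) (0, 1) = -(I • fderiv ℝ U (1, z) (0, I)) from
        eq_neg_of_add_eq_zero_left h4, smul_neg, smul_smul, I_mul_I, neg_smul, one_smul, neg_neg]
    refine hasFDerivAt_of_restrictScalars ℝ h3 (ContinuousLinearMap.ext fun w => ?_)
    have e : ((0, w) : W) = w.re • ((0, 1) : W) + w.im • ((0, I) : W) := by simp
    change w • fderiv ℝ U (1, z) (0, 1) = fderiv ℝ U (1, z) (0, w)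
    rw [e, map_add, map_smul, map_smul, h5, ← Complex.coe_smul, ← Complex.coe_smul, smul_smul,
      ← add_smul, re_add_im]
  obtain ⟨C, hC⟩ := (isCompact_sphere (0 : W) 1).exists_bound_of_continuousOn
    (hU.continuousOn.mono fun q hq (h : q = 0) => by simp [h] at hq)
  have h3 : ∀ z : ℂ, ‖U (1, z)‖ ≤ C * (1 + ‖z‖) := by
    intro z
    have h4 : ‖((1, z) : W)‖ ≠ 0 := norm_ne_zero_iff.2 (h1 z)
    have h5 := hC (((‖((1, z) : W)‖ : ℂ))⁻¹ • (1, z)) (by
      rw [mem_sphere_zero_iff_norm, norm_smul, norm_inv, norm_real, norm_norm, inv_mul_cancel₀ h4])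
    have hC0 := (norm_nonneg _).trans h5
    rw [hh, norm_smul, norm_inv, norm_real, norm_norm,
      inv_mul_le_iff₀ (norm_pos_iff.2 (h1 z)), mul_comm] at h5
    refine h5.trans (mul_le_mul_of_nonneg_left ?_ hC0)
    rw [Prod.norm_def, norm_one]
    exact max_le (by linarith [norm_nonneg z]) (by simp)
  have h4 : ∀ z : ℂ, U (1, z) = (jet U).1 + z • (jet U).2 := fun z => by
    have := liou_Lin (fun z => (h2 z).differentiableAt) h3 z
    rwa [(h2 0).deriv] at this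
  have h5 : ∀ a b : ℂ, a ≠ 0 → U (a, b) = a • (jet U).1 + b • (jet U).2 := fun a b ha => by
    have e : ((a, b) : W) = a • ((1, a⁻¹ * b) : W) := by simp [ha]
    rw [e, hh, h4, smul_add, smul_smul, mul_inv_cancel_left₀ ha]
  have h6 : U (0, 1) = (jet U).2 := by
    have h6 : ContinuousAt (fun t : ℂ => U (t, 1)) 0 :=
      ContinuousAt.comp (g := U) (f := fun t : ℂ => (t, (1 : ℂ)))
        (hd _ fun h => one_ne_zero (congrArg Prod.snd h)).continuousAt (by fun_prop)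
    have h7 : ContinuousAt (fun t : ℂ => t • (jet U).1 + (1 : ℂ) • (jet U).2) 0 := by fun_prop
    simpa using tendsto_nhds_unique_of_eventuallyEq (l := 𝓝[≠] (0 : ℂ))
      (h6.mono_left nhdsWithin_le_nhds) (h7.mono_left nhdsWithin_le_nhds)
      (eventually_nhdsWithin_of_forall fun t ht => h5 t 1 ht)
  have h7 : jet U = 0 := by
    cases b
    · exact hc
    · exact Prod.ext (congrArg Prod.fst hc :) (h6.symm.trans (congrArg Prod.snd hc))
  funext ⟨x, y⟩
  by_cases hx : x = 0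
  · rw [show ((x, y) : W) = y • ((0, 1) : W) by simp [hx], hh, h6, h7]
    simp
  · rw [h5 x y hx, h7]
    simp

lemma interp_Liou {E : Type} [NormedAddCommGroup E] {f : ℂ → E} {e L η : ℝ}
    (h1 : ∀ z, ‖f z‖ ≤ e) (h2 : ∀ z z', ‖f z - f z'‖ ≤ L * ‖z - z'‖) (h3 : e ≤ η)
    (h4 : 2 * e * L ≤ η ^ 2) : HB η f univ := by
  have he := (norm_nonneg _).trans (h1 0)
  refine ⟨fun z _ => (h1 z).trans h3, fun z _ z' _ => (sq_le_sq₀ (norm_nonneg _)
    (mul_nonneg (he.trans h3) (Real.sqrt_nonneg _))).1 ?_⟩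
  rw [mul_pow, Real.sq_sqrt (norm_nonneg _), sq]
  calc _ ≤ 2 * e * (L * ‖z - z'‖) := mul_le_mul
        ((norm_sub_le _ _).trans (by linarith [h1 z, h1 z'])) (h2 z z') (norm_nonneg _)
        (by positivity)
    _ ≤ _ := by rw [← mul_assoc]; exact mul_le_mul_of_nonneg_right h4 (norm_nonneg _)

theorem cptS : CptStmt := by
  intro X E _ _ _ _ _ K C h0 hL
  have := FiniteDimensional.complete ℝ E
  have := FiniteDimensional.proper ℝ E
  refine ⟨closure (K '' closedBall 0 1), (TotallyBounded.closure ?_).isCompact_of_isClosed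
    isClosed_closure, mem_of_superset (closedBall_mem_nhds 0 one_pos)
      fun x hx => subset_closure ⟨x, hx, rfl⟩⟩
  obtain ⟨L, hL0, hL'⟩ : ∃ L, 0 ≤ L ∧ ∀ f ∈ K '' closedBall 0 1, ∀ z z',
      ‖f.fn z - f.fn z'‖ ≤ L * ‖z - z'‖ := by
    refine ⟨|C|, abs_nonneg C, ?_⟩
    rintro _ ⟨x, hx, rfl⟩ z z'
    refine (hL x z z').trans (mul_le_mul_of_nonneg_right ?_ (norm_nonneg _))
    exact (mul_le_mul_of_nonneg_right (le_abs_self C) (norm_nonneg _)).trans
      (mul_le_of_le_one_right (abs_nonneg C) (mem_closedBall_zero_iff.1 hx))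
  refine totallyBounded_of_finite_discretization fun ε hε => ?_
  obtain ⟨δ, hδ, hδ'⟩ := exists_pos_mul_lt (lt_min (half_pos hε) (sq_pos_of_pos (half_pos hε)))
    (8 * (1 + L) ^ 2)
  rw [lt_min_iff] at hδ'
  obtain ⟨T, -, hT, hT'⟩ := finite_cover_balls_of_compact (isCompact_closedBall (0 : ℂ) 2) hδ
  obtain ⟨S, -, hS, hS'⟩ := finite_cover_balls_of_compact (isCompact_closedBall (0 : E) ‖K‖) hδ
  have h1 : ∀ (f : K '' closedBall 0 1) (t : T), ∃ s : S, f.1.fn t ∈ ball s.1 δ := by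
    rintro ⟨_, x, hx, rfl⟩ t
    have : (K x).fn t ∈ closedBall (0 : E) ‖K‖ := mem_closedBall_zero_iff.2
      (((K x).hb.1 t trivial).trans (K.unit_le_opNorm x (mem_closedBall_zero_iff.1 hx)))
    simpa using hS' this
  choose F hF using h1
  have := hT.to_subtype
  have := hS.to_subtype
  refine ⟨T → S, Fintype.ofFinite _, F, fun f g h => ?_⟩
  rw [dist_eq_norm]
  refine (Ho.norm_le (interp_Liou (e := 2 * δ * (1 + L)) (L := 2 * L) (fun z => ?_)
    (fun z z' => ?_) ?_ ?_)).trans_lt (half_lt_self hε)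
  · change ‖f.1.fn z - g.1.fn z‖ ≤ _
    by_cases hz : 2 ≤ ‖z‖
    · obtain ⟨_, x, -, rfl⟩ := f
      obtain ⟨_, y, -, rfl⟩ := g
      rw [h0 x z hz, h0 y z hz, sub_zero, norm_zero]
      positivity
    · obtain ⟨t, ht, hz'⟩ := mem_iUnion₂.1 (hT' (mem_closedBall_zero_iff.2 (not_le.1 hz).le))
      have a1 := hF f ⟨t, ht⟩
      have a2 := hF g ⟨t, ht⟩
      rw [h] at a1
      have a3 := hL' _ f.2 z t
      have a4 := hL' _ g.2 z t
      rw [mem_ball, dist_eq_norm] at hz'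
      rw [← dist_eq_norm] at a3 a4 ⊢
      have a5 := dist_triangle4_right (f.1.fn z) (g.1.fn z) (f.1.fn t) (g.1.fn t)
      have a6 := dist_triangle_right (f.1.fn t) (g.1.fn t) (F g ⟨t, ht⟩).1
      have a7 := mul_le_mul_of_nonneg_left hz'.le hL0
      rw [mem_ball] at a1 a2
      linarith
  · change ‖f.1.fn z - g.1.fn z - (f.1.fn z' - g.1.fn z')‖ ≤ _
    rw [sub_sub_sub_comm]
    linarith [norm_sub_le (f.1.fn z - f.1.fn z') (g.1.fn z - g.1.fn z'), hL' _ f.2 z z',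
      hL' _ g.2 z z']
  · nlinarith [hδ'.1, mul_nonneg hδ.le hL0, mul_nonneg hδ.le (mul_nonneg hL0 hL0)]
  · nlinarith [hδ'.2, mul_nonneg hδ.le hL0, mul_nonneg hδ.le (mul_nonneg hL0 hL0)]

end Pool.Agent.MP_2fc7fa_gt.N
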