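import Pool.Agent.MP_2fc7fa_gt.N.IfI

/-! Estimates for superposition operators on Hoelder functions. -/

open scoped ContDiff ComplexConjugate Topology NNReal
open Set Complex Filter Metric

noncomputable section

namespace Pool.Agent.MP_2fc7fa_gt.N

variable {E F : Type} [NormedAddCommGroup E] [NormedAddCommGroup F]

theorem mono_Nem {A A' : ℝ} {f : ℂ → F} {S : Set ℂ} (h : HB A f S) (hA : A ≤ A') : HB A' f S :=
  ⟨fun z hz => (h.1 z hz).trans hA, fun z hz z' hz' =>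
    (h.2 z hz z' hz').trans (mul_le_mul_of_nonneg_right hA (Real.sqrt_nonneg _))⟩

theorem congr_Nem {A : ℝ} {f g : ℂ → F} {S : Set ℂ} (h : HB A f S) (e : ∀ z ∈ S, g z = f z) :
    HB A g S :=
  ⟨fun z hz => by rw [e z hz]; exact h.1 z hz, fun z hz z' hz' => by
    rw [e z hz, e z' hz']; exact h.2 z hz z' hz'⟩

theorem nonneg_Nem {A : ℝ} {f : ℂ → F} (h : HB A f (ball 0 3)) : 0 ≤ A :=
  (norm_nonneg _).trans (h.1 0 (mem_ball_self (by norm_num)))

theorem dist_Nem {z z' : ℂ} (hz : z ∈ ball (0 : ℂ) 3) (hz' : z' ∈ ball (0 : ℂ) 3) :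
    ‖z - z'‖ ≤ 3 * √‖z - z'‖ := by
  rw [mem_ball_zero_iff] at hz hz'
  have h1 : √‖z - z'‖ ≤ 3 := Real.sqrt_le_iff.2 ⟨by norm_num, by linarith [norm_sub_le z z']⟩
  conv_lhs => rw [← Real.mul_self_sqrt (norm_nonneg (z - z'))]
  exact mul_le_mul_of_nonneg_right h1 (Real.sqrt_nonneg _)

theorem chi_Nem {χ : ℂ → ℝ} (h1 : ContDiff ℝ 1 χ) (h2 : ∀ z, 2 ≤ ‖z‖ → χ z = 0) :
    ∃ L : ℝ, 0 < L ∧ HB L χ univ := by
  have hs : HasCompactSupport χ := HasCompactSupport.intro (isCompact_closedBall (0 : ℂ) 2)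
    fun z hz => h2 z (by rw [mem_closedBall_zero_iff, not_le] at hz; exact hz.le)
  obtain ⟨L₀, hL₀⟩ := h1.continuous.bounded_above_of_compact_support hs
  obtain ⟨L₁, hL₁⟩ := h1.lipschitzWith_of_hasCompactSupport hs one_ne_zero
  have h0 : 0 ≤ L₀ := (norm_nonneg _).trans (hL₀ 0)
  have h0' : (0 : ℝ) ≤ L₁ := L₁.2
  refine ⟨2 * L₀ + L₁ + 1, by positivity, fun z _ => by linarith [hL₀ z], fun z _ z' _ => ?_⟩
  have h3 := Real.sqrt_nonneg ‖z - z'‖
  rcases le_total ‖z - z'‖ 1 with h | h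
  · have h4 := hL₁.dist_le_mul z z'
    rw [dist_eq_norm, dist_eq_norm] at h4
    have h5 : ‖z - z'‖ ≤ √‖z - z'‖ := Real.le_sqrt_of_sq_le (by nlinarith [norm_nonneg (z - z')])
    nlinarith
  · have h4 : 1 ≤ √‖z - z'‖ := Real.one_le_sqrt.2 h
    nlinarith [norm_sub_le (χ z) (χ z'), hL₀ z, hL₀ z']

theorem unif_Nem {Q X : Type} [TopologicalSpace Q] [TopologicalSpace X] (H : Q → X → F)
    {K : Set X} (hK : IsCompact K) {q₀ : Q}
    (h : ∀ x ∈ K, ContinuousAt (fun r : Q × X => H r.1 r.2) (q₀, x)) {c : ℝ} (hc : 0 < c) :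
    ∀ᶠ q in 𝓝 q₀, ∀ x ∈ K, ‖H q x - H q₀ x‖ < c := by
  refine hK.eventually_forall_of_forall_eventually fun x hx => ?_
  have h1 : ContinuousAt (fun r : Q × X => H q₀ r.2) (q₀, x) :=
    ContinuousAt.comp (g := fun r : Q × X => H r.1 r.2) (f := fun r : Q × X => (q₀, r.2))
      (h x hx) (by fun_prop)
  exact ((h x hx).sub h1).norm.eventually_lt_const (by simpa using hc)

theorem comp_Nem {g : ℂ × E → F} {A δ : ℝ} {y : ℂ → E} (hy : HB δ y (ball 0 3)) (hA : 0 ≤ A)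
    (h1 : ∀ a ∈ closedBall (0 : ℂ) 3 ×ˢ closedBall (0 : E) δ, ‖g a‖ ≤ A)
    (h2 : ∀ a ∈ closedBall (0 : ℂ) 3 ×ˢ closedBall (0 : E) δ,
      ∀ a' ∈ closedBall (0 : ℂ) 3 ×ˢ closedBall (0 : E) δ, ‖g a - g a'‖ ≤ A * ‖a - a'‖) :
    HB (A * (3 + δ)) (fun z => g (z, y z)) (ball 0 3) := by
  have hδ := nonneg_Nem hy
  have hm : ∀ z ∈ ball (0 : ℂ) 3, (z, y z) ∈ closedBall (0 : ℂ) 3 ×ˢ closedBall (0 : E) δ :=
    fun z hz => ⟨ball_subset_closedBall hz, mem_closedBall_zero_iff.2 (hy.1 z hz)⟩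
  refine ⟨fun z hz => (h1 _ (hm z hz)).trans (by nlinarith), fun z hz z' hz' =>
    (h2 _ (hm z hz) _ (hm z' hz')).trans ?_⟩
  rw [mul_assoc]
  refine mul_le_mul_of_nonneg_left ?_ hA
  have h3 := Real.sqrt_nonneg ‖z - z'‖
  rw [Prod.mk_sub_mk, Prod.norm_mk, max_le_iff]
  exact ⟨by nlinarith [dist_Nem hz hz'], by nlinarith [hy.2 z hz z' hz']⟩

variable [NormedSpace ℝ E] [NormedSpace ℝ F]

theorem cut_Nem {χ : ℂ → ℝ} {L A : ℝ} {f : ℂ → F} (hχ : HB L χ univ)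
    (h2 : ∀ z, 2 ≤ ‖z‖ → χ z = 0) (hf : HB A f (ball 0 3)) :
    HB (2 * L * A) (fun z => χ z • f z) univ := by
  have hA := nonneg_Nem hf
  have hL : 0 ≤ L := (norm_nonneg _).trans (hχ.1 0 trivial)
  have h0 : ∀ z, z ∉ ball (0 : ℂ) 3 → χ z = 0 := fun z hz =>
    h2 z (by rw [mem_ball_zero_iff, not_lt] at hz; linarith)
  have h3 : ∀ z z', z ∉ ball (0 : ℂ) 3 → ‖χ z • f z - χ z' • f z'‖ ≤ 2 * L * A * √‖z - z'‖ := by
    intro z z' hz
    have h4 := Real.sqrt_nonneg ‖z - z'‖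
    by_cases hz' : z' ∈ ball (0 : ℂ) 3
    · have h5 := hχ.2 z trivial z' trivial
      rw [h0 z hz, zero_sub, norm_neg] at h5
      rw [h0 z hz, zero_smul, zero_sub, norm_neg, norm_smul]
      have h6 := mul_le_mul h5 (hf.1 z' hz') (norm_nonneg _) (by positivity)
      nlinarith [mul_nonneg (mul_nonneg hL hA) h4]
    · rw [h0 z hz, h0 z' hz', zero_smul, zero_smul, sub_zero, norm_zero]
      positivity
  refine ⟨fun z _ => ?_, fun z _ z' _ => ?_⟩
  · by_cases hz : z ∈ ball (0 : ℂ) 3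
    · rw [norm_smul]
      have h6 := mul_le_mul (hχ.1 z trivial) (hf.1 z hz) (norm_nonneg _) hL
      nlinarith [mul_nonneg hL hA]
    · change ‖χ z • f z‖ ≤ _
      rw [h0 z hz, zero_smul, norm_zero]
      positivity
  · by_cases hz : z ∈ ball (0 : ℂ) 3
    · by_cases hz' : z' ∈ ball (0 : ℂ) 3
      · have e : χ z • f z - χ z' • f z' = (χ z - χ z') • f z + χ z' • (f z - f z') := by
          rw [sub_smul, smul_sub]; abel
        change ‖χ z • f z - χ z' • f z'‖ ≤ _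
        rw [e]
        refine (norm_add_le _ _).trans ?_
        rw [norm_smul, norm_smul]
        have h5 := mul_le_mul (hχ.2 z trivial z' trivial) (hf.1 z hz) (norm_nonneg _)
          (by positivity)
        have h6 := mul_le_mul (hχ.1 z' trivial) (hf.2 z hz z' hz') (norm_nonneg _) hL
        linarith
      · rw [norm_sub_rev, norm_sub_rev z]
        exact h3 z' z hz'
    · exact h3 z z' hz

theorem bil_Nem {K : ℂ → ℂ × E →L[ℝ] F} {v : ℂ → E} {A M : ℝ} (hK : HB A K (ball 0 3))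
    (hv : HB M v (ball 0 3)) : HB (2 * A * M) (fun z => K z (0, v z)) (ball 0 3) := by
  have hA := nonneg_Nem hK
  have hM := nonneg_Nem hv
  have h1 : ∀ (T : ℂ × E →L[ℝ] F) (w : E), ‖T (0, w)‖ ≤ ‖T‖ * ‖w‖ := fun T w => by
    simpa using T.le_opNorm (0, w)
  refine ⟨fun z hz => (h1 _ _).trans ?_, fun z hz z' hz' => ?_⟩
  · have h6 := mul_le_mul (hK.1 z hz) (hv.1 z hz) (norm_nonneg _) hA
    nlinarith [mul_nonneg hA hM]
  · have e : K z (0, v z) - K z' (0, v z') = (K z - K z') (0, v z) + K z' (0, v z - v z') := by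
      have e1 : ((0 : ℂ), v z - v z') = (0, v z) - (0, v z') := by simp
      rw [e1, map_sub, sub_apply]; abel
    change ‖K z (0, v z) - K z' (0, v z')‖ ≤ _
    rw [e]
    refine (norm_add_le _ _).trans ((add_le_add (h1 _ _) (h1 _ _)).trans ?_)
    have h5 := mul_le_mul (hK.2 z hz z' hz') (hv.1 z hz) (norm_nonneg _) (by positivity)
    have h6 := mul_le_mul (hK.1 z' hz') (hv.2 z hz z' hz') (norm_nonneg _) hA
    linarith

theorem mean_Nem {f f' : ℝ → ℂ → F} {A : ℝ} {S : Set ℂ}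
    (h : ∀ z ∈ S, ∀ t ∈ Icc (0 : ℝ) 1, HasDerivAt (fun t => f t z) (f' t z) t)
    (hb : ∀ t ∈ Icc (0 : ℝ) 1, HB A (f' t) S) : HB A (fun z => f 1 z - f 0 z) S := by
  refine ⟨fun z hz => norm_image_sub_le_of_norm_deriv_le_segment_01' (f := fun t => f t z)
    (fun t ht => (h z hz t ht).hasDerivWithinAt)
    fun t ht => (hb t (Ico_subset_Icc_self ht)).1 z hz, fun z hz z' hz' => ?_⟩
  have h1 := norm_image_sub_le_of_norm_deriv_le_segment_01' (f := fun t => f t z - f t z')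
    (fun t ht => ((h z hz t ht).sub (h z' hz' t ht)).hasDerivWithinAt)
    fun t ht => (hb t (Ico_subset_Icc_self ht)).2 z hz z' hz'
  rwa [sub_sub_sub_comm] at h1

theorem conv_Nem {y y' : ℂ → E} {δ : ℝ} {S : Set ℂ} (hy : HB δ y S) (hy' : HB δ y' S) {t : ℝ}
    (ht : t ∈ Icc (0 : ℝ) 1) : HB δ (fun z => y' z + t • (y z - y' z)) S := by
  have key : ∀ (a a' : E) (r : ℝ), ‖a‖ ≤ r → ‖a'‖ ≤ r → ‖a' + t • (a - a')‖ ≤ r :=
    fun a a' r ha ha' => mem_closedBall_zero_iff.1 ((convex_closedBall (0 : E) r).add_smul_sub_mem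
      (mem_closedBall_zero_iff.2 ha') (mem_closedBall_zero_iff.2 ha) ht)
  refine ⟨fun z hz => key _ _ _ (hy.1 z hz) (hy'.1 z hz), fun z hz z' hz' => ?_⟩
  have h1 := key _ _ _ (hy.2 z hz z' hz') (hy'.2 z hz z' hz')
  have e : y' z + t • (y z - y' z) - (y' z' + t • (y z' - y' z')) =
      y' z - y' z' + t • (y z - y z' - (y' z - y' z')) := by module
  change ‖y' z + t • (y z - y' z) - (y' z' + t • (y z' - y' z'))‖ ≤ _
  rwa [e]

theorem ker_Nem {g g₀ : ℂ × E → F} {g' g₀' : ℂ × E → ℂ × E →L[ℝ] F} {δ c C : ℝ} {w : ℂ → E}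
    (hw : HB δ w (ball 0 3))
    (d1 : ∀ z ∈ ball (0 : ℂ) 3, ∀ a ∈ closedBall (0 : E) δ, HasFDerivAt g (g' (z, a)) (z, a))
    (d2 : ∀ z : ℂ, HasFDerivAt g₀ (g₀' (z, 0)) (z, 0))
    (h1 : ∀ z ∈ ball (0 : ℂ) 3, ∀ a ∈ closedBall (0 : E) δ, ‖g (z, a) - g₀ (z, 0)‖ ≤ c)
    (h2 : ∀ z ∈ ball (0 : ℂ) 3, ∀ a ∈ closedBall (0 : E) δ, ‖g' (z, a) - g₀' (z, 0)‖ ≤ c)
    (h3 : ∀ z ∈ ball (0 : ℂ) 3, ‖g₀' (z, 0)‖ ≤ C) (h4 : (C + c) * δ ≤ c) :
    HB (4 * c) (fun z => g (z, w z) - g₀ (z, 0)) (ball 0 3) := by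
  have hm : ∀ z ∈ ball (0 : ℂ) 3, w z ∈ closedBall (0 : E) δ :=
    fun z hz => mem_closedBall_zero_iff.2 (hw.1 z hz)
  have hc : 0 ≤ c := (norm_nonneg _).trans
    (h1 0 (mem_ball_self (by norm_num)) _ (hm 0 (mem_ball_self (by norm_num))))
  have hC : 0 ≤ C := (norm_nonneg _).trans (h3 0 (mem_ball_self (by norm_num)))
  refine ⟨fun z hz => (h1 z hz _ (hm z hz)).trans (by linarith), fun z hz z' hz' => ?_⟩
  have e1 : ‖(g (z, w z) - g₀ (z, 0)) - (g (z', w z) - g₀ (z', 0))‖ ≤ c * ‖z - z'‖ := by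
    refine Convex.norm_image_sub_le_of_norm_hasFDerivWithin_le (𝕜 := ℝ)
      (f := fun u => g (u, w z) - g₀ (u, 0))
      (f' := fun u => (g' (u, w z) - g₀' (u, 0)).comp (ContinuousLinearMap.inl ℝ ℂ E))
      (fun u hu => ?_) (fun u hu => ?_) (convex_ball 0 3) hz' hz
    · rw [ContinuousLinearMap.sub_comp]
      exact (((d1 u hu _ (hm z hz)).comp u (hasFDerivAt_prodMk_left u (w z))).sub
        ((d2 u).comp u (hasFDerivAt_prodMk_left u (0 : E)))).hasFDerivWithinAt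
    · refine ContinuousLinearMap.opNorm_le_bound _ hc fun v => ?_
      have h5 := (g' (u, w z) - g₀' (u, 0)).le_of_opNorm_le (h2 u hu _ (hm z hz)) (v, 0)
      simpa using h5
  have e2 : ‖g (z', w z) - g (z', w z')‖ ≤ (C + c) * ‖w z - w z'‖ := by
    refine Convex.norm_image_sub_le_of_norm_hasFDerivWithin_le (𝕜 := ℝ)
      (f := fun a => g (z', a))
      (f' := fun a => (g' (z', a)).comp (ContinuousLinearMap.inr ℝ ℂ E))
      (fun a ha => ?_) (fun a ha => ?_) (convex_closedBall 0 δ) (hm z' hz') (hm z hz)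
    · exact ((d1 z' hz' a ha).comp a (hasFDerivAt_prodMk_right z' a)).hasFDerivWithinAt
    · refine ContinuousLinearMap.opNorm_le_bound _ (by positivity) fun v => ?_
      have h5 : ‖g' (z', a)‖ ≤ C + c := by
        linarith [norm_le_norm_add_norm_sub' (g' (z', a)) (g₀' (z', 0)), h2 z' hz' a ha, h3 z' hz']
      simpa using (g' (z', a)).le_of_opNorm_le h5 (0, v)
  have e : (g (z, w z) - g₀ (z, 0)) - (g (z', w z') - g₀ (z', 0)) =
      ((g (z, w z) - g₀ (z, 0)) - (g (z', w z) - g₀ (z', 0))) + (g (z', w z) - g (z', w z')) := by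
    abel
  change ‖(g (z, w z) - g₀ (z, 0)) - (g (z', w z') - g₀ (z', 0))‖ ≤ _
  rw [e]
  refine (norm_add_le _ _).trans ((add_le_add e1 e2).trans ?_)
  have h5 := mul_le_mul_of_nonneg_left (dist_Nem hz hz') hc
  have h6 := mul_le_mul_of_nonneg_left (hw.2 z hz z' hz') (add_nonneg hC hc)
  have h7 := mul_le_mul_of_nonneg_right h4 (Real.sqrt_nonneg ‖z - z'‖)
  linarith

theorem nem : NemStmt := by
  intro E F _ _ _ _ _ P _ G Ω χ p₀ hΩ hG h0 hχ hχ0
  obtain ⟨j0, G', d0, j1, G'', d1, j2⟩ := hG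
  obtain ⟨L, hL, hχL⟩ := chi_Nem hχ hχ0
  have D0 : ∀ p, ∀ x ∈ Ω, HasFDerivAt (G p) (G' p x) x := fun p x hx =>
    (d0 p x hx).hasFDerivAt (hΩ.mem_nhds hx)
  have D1 : ∀ p, ∀ x ∈ Ω, HasFDerivAt (G' p) (G'' p x) x := fun p x hx =>
    (d1 p x hx).hasFDerivAt (hΩ.mem_nhds hx)
  have ca : ∀ {Y : Type} [TopologicalSpace Y] {H : P → ℂ × E → Y}, JC Ω H → ∀ p, ∀ x ∈ Ω,
      ContinuousAt (fun r : P × ℂ × E => H r.1 r.2) (p, x) := fun h p x hx =>
    h.continuousAt ((isOpen_univ.prod hΩ).mem_nhds ⟨trivial, hx⟩)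
  have cb : ∀ {Y : Type} [TopologicalSpace Y] {H : P → ℂ × E → Y}, JC Ω H → ∀ z : ℂ,
      ContinuousAt (fun r : (P × E) × ℂ => H r.1.1 (r.2, r.1.2)) ((p₀, 0), z) := fun h z =>
    ContinuousAt.comp_of_eq (f := fun r : (P × E) × ℂ => (r.1.1, (r.2, r.1.2)))
      (ca h p₀ _ (h0 z)) (Continuous.continuousAt (by fun_prop)) rfl
  obtain ⟨ε, hε, hT⟩ : ∃ ε : ℝ, 0 < ε ∧ closedBall (0 : ℂ) 3 ×ˢ closedBall (0 : E) ε ⊆ Ω := by
    have h1 : ∀ᶠ a in 𝓝 (0 : E), ∀ z ∈ closedBall (0 : ℂ) 3, (z, a) ∈ Ω :=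
      (isCompact_closedBall (0 : ℂ) 3).eventually_forall_of_forall_eventually fun z _ =>
        continuous_swap.continuousAt.eventually (hΩ.mem_nhds (h0 z))
    obtain ⟨ε, hε, h2⟩ := nhds_basis_closedBall.eventually_iff.1 h1
    exact ⟨ε, hε, fun x hx => h2 hx.2 x.1 hx.1⟩
  have cT : IsCompact (closedBall (0 : ℂ) 3 ×ˢ closedBall (0 : E) ε) :=
    have := FiniteDimensional.proper_real E
    (isCompact_closedBall _ _).prod (isCompact_closedBall _ _)
  have vT : Convex ℝ (closedBall (0 : ℂ) 3 ×ˢ closedBall (0 : E) ε) :=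
    (convex_closedBall _ _).prod (convex_closedBall _ _)
  have lip : ∀ {Y : Type} [NormedAddCommGroup Y] [NormedSpace ℝ Y] {H : P → ℂ × E → Y}
      {H' : P → ℂ × E → ℂ × E →L[ℝ] Y}, JC Ω H → JC Ω H' →
      (∀ p, ∀ x ∈ Ω, HasFDerivAt (H p) (H' p x) x) → ∀ (p : P) (y : ℂ → E), HB ε y (ball 0 3) →
      ∃ M, HB M (fun z => H p (z, y z)) (ball 0 3) := by
    intro Y _ _ H H' h h' hd p y hy
    obtain ⟨A, hA⟩ := cT.exists_bound_of_continuousOn ((h.at p).mono hT)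
    obtain ⟨A', hA'⟩ := cT.exists_bound_of_continuousOn ((h'.at p).mono hT)
    refine ⟨_, comp_Nem (A := max (max A A') 0) hy (le_max_right _ _)
      (fun a ha => (hA a ha).trans ((le_max_left _ _).trans (le_max_left _ _)))
      fun a ha a' ha' => ?_⟩
    exact vT.norm_image_sub_le_of_norm_hasFDerivWithin_le
      (fun x hx => (hd p x (hT hx)).hasFDerivWithinAt)
      (fun x hx => (hA' x hx).trans ((le_max_right _ _).trans (le_max_left _ _))) ha' ha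
  refine ⟨fun c hc => ?_, ?_, ε, hε, fun p y hy => ⟨?_, fun c hc => ?_⟩⟩
  · obtain ⟨C, hC⟩ := cT.exists_bound_of_continuousOn ((JC.at j2 p₀).mono hT)
    have hC' : ∀ z ∈ ball (0 : ℂ) 3, ‖G'' p₀ (z, 0)‖ ≤ C := fun z hz =>
      hC _ ⟨ball_subset_closedBall hz, mem_closedBall_self hε.le⟩
    have hC0 : 0 ≤ C := (norm_nonneg _).trans (hC' 0 (mem_ball_self (by norm_num)))
    have hc' : 0 < c / (16 * L) := by positivity
    have u1 := unif_Nem (fun (q : P × E) (z : ℂ) => G' q.1 (z, q.2))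
      (isCompact_closedBall (0 : ℂ) 3) (fun z _ => cb j1 z) hc'
    have u2 := unif_Nem (fun (q : P × E) (z : ℂ) => G'' q.1 (z, q.2))
      (isCompact_closedBall (0 : ℂ) 3) (fun z _ => cb j2 z) hc'
    have u3 := u1.and u2
    rw [nhds_prod_eq, Metric.eventually_prod_nhds_iff] at u3
    obtain ⟨pa, hpa, η, hη, u3⟩ := u3
    refine ⟨min (min ε (η / 2)) (c / (16 * L) / (C + c / (16 * L))), by positivity,
      hpa.mono fun p hp y y' M hy hy' hv => ?_⟩
    set δ := min (min ε (η / 2)) (c / (16 * L) / (C + c / (16 * L))) with hδ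
    have hδ1 : δ ≤ ε := (min_le_left _ _).trans (min_le_left _ _)
    have hδ2 : δ ≤ η / 2 := (min_le_left _ _).trans (min_le_right _ _)
    have hδ3 : (C + c / (16 * L)) * δ ≤ c / (16 * L) :=
      (le_div_iff₀' (by positivity)).1 (min_le_right _ _)
    have hin : ∀ z ∈ ball (0 : ℂ) 3, ∀ a ∈ closedBall (0 : E) δ, (z, a) ∈ Ω := fun z hz a ha =>
      hT ⟨ball_subset_closedBall hz, closedBall_subset_closedBall hδ1 ha⟩
    have hd : ∀ a ∈ closedBall (0 : E) δ, dist a 0 < η := fun a ha =>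
      (mem_closedBall.1 ha).trans_lt (by linarith)
    have h1 := mean_Nem (S := ball 0 3) (A := 2 * (4 * (c / (16 * L))) * M)
      (f := fun t z => G p (z, y' z + t • (y z - y' z)) - t • G' p₀ (z, 0) (0, y z - y' z))
      (f' := fun t z => (G' p (z, y' z + t • (y z - y' z)) - G' p₀ (z, 0)) (0, y z - y' z))
      (fun z hz t ht => ?_) fun t ht => bil_Nem (v := y - y') (ker_Nem (conv_Nem hy hy' ht)
        (fun z hz a ha => D1 p _ (hin z hz a ha)) (fun z => D1 p₀ _ (h0 z))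
        (fun z hz a ha => ((u3 hp (hd a ha)).1 z (ball_subset_closedBall hz)).le)
        (fun z hz a ha => ((u3 hp (hd a ha)).2 z (ball_subset_closedBall hz)).le) hC' hδ3) hv
    · refine mono_Nem (cut_Nem hχL hχ0 (congr_Nem h1 fun z _ => ?_)) (le_of_eq ?_)
      · rw [(D0 p₀ _ (h0 z)).fderiv]
        simp only [one_smul, zero_smul, add_sub_cancel, add_zero, sub_zero]
        abel
      · field_simp
        norm_num
    · have h2 : HasDerivAt (fun t : ℝ => (z, y' z + t • (y z - y' z))) (0, y z - y' z) t := by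
        simpa using (hasDerivAt_const t z).prodMk
          (((hasDerivAt_id t).smul_const (y z - y' z)).const_add (y' z))
      have h3 := (D0 p _ (hin z hz _
        (mem_closedBall_zero_iff.2 ((conv_Nem hy hy' ht).1 z hz)))).comp_hasDerivAt t h2
      have h4 := h3.sub ((hasDerivAt_id t).smul_const (G' p₀ (z, 0) (0, y z - y' z)))
      rw [one_smul] at h4
      exact h4
  · obtain ⟨A, hA⟩ := lip j1 j2 D1 p₀ (fun _ => 0)
      ⟨fun z _ => by simpa using hε.le, fun z _ z' _ => by simp; positivity⟩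
    refine ⟨2 * L * (2 * (A + 1)), by linarith [mul_nonneg hL.le (nonneg_Nem hA)],
      fun y M hy => ?_⟩
    rw [mul_assoc]
    refine cut_Nem hχL hχ0 (congr_Nem (bil_Nem (mono_Nem hA (by linarith)) hy) fun z _ => ?_)
    rw [(D0 p₀ _ (h0 z)).fderiv]
  · obtain ⟨A, hA⟩ := lip j0 j1 D0 p y hy
    exact ⟨_, cut_Nem hχL hχ0 hA⟩
  · have hc' : 0 < c / (2 * L * (3 + ε)) := by positivity
    filter_upwards [unif_Nem G cT (fun x hx => ca j0 p x (hT hx)) hc',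
      unif_Nem G' cT (fun x hx => ca j1 p x (hT hx)) hc'] with p' u1 u2
    refine mono_Nem (cut_Nem hχL hχ0 (comp_Nem (g := fun a => G p' a - G p a) hy hc'.le
      (fun a ha => (u1 a ha).le) fun a ha a' ha' => ?_)) (le_of_eq ?_)
    · exact vT.norm_image_sub_le_of_norm_hasFDerivWithin_le (f := fun a => G p' a - G p a)
        (fun x hx => ((D0 p' x (hT hx)).sub (D0 p x (hT hx))).hasFDerivWithinAt)
        (fun x hx => (u2 x hx).le) ha' ha
    · field_simp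

end Pool.Agent.MP_2fc7fa_gt.N
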