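import Pool.Agent.MP_2fc7fa_gt.N.IfI

/-! Smoothness and first order properties of the nonlinear part `Nl`. -/

open scoped ContDiff Topology
open Set Complex

noncomputable section

namespace Pool.Agent.MP_2fc7fa_gt.N

lemma cc_ne_NlS (i : Bool) (z : ℂ) : cc i z ≠ 0 := by
  cases i <;> simp [cc, Prod.ext_iff]

/-- The derivative of a chart. -/
def dc_NlS (i : Bool) : ℂ →L[ℝ] W :=
  if i then ContinuousLinearMap.inl ℝ ℂ ℂ else ContinuousLinearMap.inr ℝ ℂ ℂ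

lemma cc_eq_NlS (i : Bool) : cc i = fun z => dc_NlS i z + cc i 0 := by
  funext z
  cases i <;> simp [cc, dc_NlS]

lemma dc_I_NlS (i : Bool) : dc_NlS i I = I • dc_NlS i 1 := by
  cases i <;> simp [dc_NlS]

lemma cc_smooth_NlS (i : Bool) : ContDiff ℝ ∞ (cc i) := by
  rw [cc_eq_NlS]
  exact (dc_NlS i).contDiff.add contDiff_const

lemma cc_deriv_NlS (i : Bool) (z : ℂ) : HasFDerivAt (cc i) (dc_NlS i) z := by
  rw [cc_eq_NlS]
  exact (dc_NlS i).hasFDerivAt.add_const _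

section

variable {φ₀ : Fr} {U₀ : W → V} (hU : IsLine φ₀.J U₀) (hs : ContDiffOn ℝ ∞ U₀ {0}ᶜ) (i : Bool)

include hs in
lemma u_smooth_NlS : ContDiff ℝ ∞ (U₀ ∘ cc i) :=
  hs.comp_contDiff (cc_smooth_NlS i) fun z => cc_ne_NlS i z

include hU hs

lemma B_smooth_NlS : ContDiff ℝ ∞ fun z => φ₀.B (U₀ (cc i z)) :=
  φ₀.smoothB.comp_contDiff (u_smooth_NlS hs i) fun z => hU.ne _ (cc_ne_NlS i z)

lemma x_smooth_NlS : ContDiff ℝ ∞ fun a : ℂ × V × (ℂ →L[ℝ] V) =>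
    U₀ (cc i a.1) + φ₀.B (U₀ (cc i a.1)) a.2.1 :=
  ((u_smooth_NlS hs i).comp contDiff_fst).add
    (((B_smooth_NlS hU hs i).comp contDiff_fst).clm_apply contDiff_snd.fst)

lemma w_smooth_NlS (e : ℂ) : ContDiff ℝ ∞ fun a : ℂ × V × (ℂ →L[ℝ] V) =>
    fderiv ℝ (U₀ ∘ cc i) a.1 e + fderiv ℝ (fun z => φ₀.B (U₀ (cc i z))) a.1 e a.2.1 +
      φ₀.B (U₀ (cc i a.1)) (a.2.2 e) := by
  have h1 := (contDiff_infty_iff_fderiv.1 (u_smooth_NlS hs i)).2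
  have h2 := (contDiff_infty_iff_fderiv.1 (B_smooth_NlS hU hs i)).2
  exact (((h1.comp contDiff_fst).clm_apply contDiff_const).add
    (((h2.comp contDiff_fst).clm_apply contDiff_const).clm_apply contDiff_snd.fst)).add
    (((B_smooth_NlS hU hs i).comp contDiff_fst).clm_apply
      (contDiff_snd.snd.clm_apply contDiff_const))

lemma open_NlS : IsOpen (NlDom φ₀ U₀ i) :=
  isOpen_ne_fun (x_smooth_NlS hU hs i).continuous continuous_const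

lemma fam_NlS {P : Type} [TopologicalSpace P] {φ : P → Fr} (hφ : FrFam φ) (n : ℕ) :
    Fam (NlDom φ₀ U₀ i) n V fun p => Nl (φ p) φ₀ U₀ i := by
  have ho := (open_NlS hU hs i).uniqueDiffOn (𝕜 := ℝ)
  have hA := (hφ n).2.comp (fam_of_contDiffOn ho (x_smooth_NlS hU hs i).contDiffOn)
    fun _ a ha => ha
  have h1 := fun e => hA.bilin (fam_of_contDiffOn ho (w_smooth_NlS hU hs i e).contDiffOn)
    (ContinuousLinearMap.id ℝ (V →L[ℝ] V))
  have hc : ∀ c : ℂ, ∃ L : V →L[ℝ] V, ∀ v, L v = c • v := fun c =>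
    ⟨(c • ContinuousLinearMap.id ℂ V).restrictScalars ℝ, fun _ => rfl⟩
  obtain ⟨L, hL⟩ := hc (1 / 2)
  obtain ⟨M, hM⟩ := hc I
  have h2 : ContDiff ℝ ∞ fun a : ℂ × V × (ℂ →L[ℝ] V) => -L (a.2.2 1 + M (a.2.2 I)) :=
    (L.contDiff.comp ((contDiff_snd.snd.clm_apply contDiff_const).add
      (M.contDiff.comp (contDiff_snd.snd.clm_apply contDiff_const)))).neg
  refine ((((h1 1).add ((h1 I).clm M)).clm L).add (fam_of_contDiffOn ho h2.contDiffOn)).congr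
    fun p a _ => ?_
  simp only [Nl, hL, hM, ContinuousLinearMap.id_apply, sub_eq_add_neg]

omit hs in
lemma zero_NlS (z : ℂ) (d : ℂ →L[ℝ] V) : Nl φ₀ φ₀ U₀ i (z, 0, d) = 0 := by
  have hq := cc_ne_NlS i z
  have hx := hU.ne _ hq
  have hd : DifferentiableAt ℝ U₀ (cc i z) :=
    (hU.c1.contDiffAt (isOpen_compl_singleton.mem_nhds hq)).differentiableAt one_ne_zero
  have h1 : fderiv ℝ (U₀ ∘ cc i) z = (fderiv ℝ U₀ (cc i z)).comp (dc_NlS i) :=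
    (hd.hasFDerivAt.comp z (cc_deriv_NlS i z)).fderiv
  have h2 : φ₀.A (U₀ (cc i z)) (fderiv ℝ (U₀ ∘ cc i) z I) =
      I • φ₀.A (U₀ (cc i z)) (fderiv ℝ (U₀ ∘ cc i) z 1) := by
    rw [h1, ContinuousLinearMap.comp_apply, ContinuousLinearMap.comp_apply, dc_I_NlS,
      hU.hol _ hq, Fr.J, φ₀.AB _ hx]
  simp only [Nl, map_zero, add_zero, map_add, φ₀.AB _ hx, h2, smul_add, smul_smul, I_mul_I]
  module

end

theorem nlS (hS : LineSmoothStmt) : NlStmt := by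
  intro P _ φ φ₀ U₀ i hφ hU
  have hs := hS φ₀ U₀ hU
  refine ⟨open_NlS hU hs i, fam_NlS hU hs i hφ, fun z => zero_NlS hU i z 0, fun z y d => ?_⟩
  have hc : FrFam fun _ : Unit => φ₀ := fun n =>
    ⟨fam_of_contDiffOn isOpen_compl_singleton.uniqueDiffOn φ₀.smoothB,
      fam_of_contDiffOn isOpen_compl_singleton.uniqueDiffOn φ₀.smoothA⟩
  have hm : ((z, 0) : ℂ × V × (ℂ →L[ℝ] V)) ∈ NlDom φ₀ U₀ i := by
    simpa [NlDom] using hU.ne _ (cc_ne_NlS i z)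
  have hd : DifferentiableAt ℝ (Nl φ₀ φ₀ U₀ i) (z, 0) :=
    ((fam_NlS hU hs i hc 1).diffOn () _ hm).differentiableAt ((open_NlS hU hs i).mem_nhds hm)
  have h1 : HasFDerivAt (fun t : ℝ => ((z, 0) : ℂ × V × (ℂ →L[ℝ] V)) + t • (0, 0, d))
      (ContinuousLinearMap.toSpanSingleton ℝ ((0, 0, d) : ℂ × V × (ℂ →L[ℝ] V))) 0 :=
    (ContinuousLinearMap.toSpanSingleton ℝ
      ((0, 0, d) : ℂ × V × (ℂ →L[ℝ] V))).hasFDerivAt.const_add _
  have h0 : HasFDerivAt (Nl φ₀ φ₀ U₀ i) (fderiv ℝ (Nl φ₀ φ₀ U₀ i) (z, 0))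
      (((z, 0) : ℂ × V × (ℂ →L[ℝ] V)) + (0 : ℝ) • (0, 0, d)) := by
    rw [show ((z, 0) : ℂ × V × (ℂ →L[ℝ] V)) + (0 : ℝ) • (0, 0, d) = (z, 0) by
      ext <;> simp]
    exact hd.hasFDerivAt
  have h2 := HasFDerivAt.comp (0 : ℝ) h0 h1
  have h3 : (Nl φ₀ φ₀ U₀ i ∘ fun t : ℝ => ((z, 0) : ℂ × V × (ℂ →L[ℝ] V)) + t • (0, 0, d)) =
      fun _ => 0 := funext fun t => by simpa using zero_NlS hU i z (t • d)
  rw [h3] at h2
  have h4 := congrArg (fun L : ℝ →L[ℝ] V => L 1) (h2.unique (hasFDerivAt_const 0 0))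
  simp only [ContinuousLinearMap.comp_apply, ContinuousLinearMap.toSpanSingleton_apply, one_smul,
    zero_apply] at h4
  have h5 : ((0, y, d) : ℂ × V × (ℂ →L[ℝ] V)) = (0, y, 0) + (0, 0, d) := by simp
  rw [h5, map_add, h4, add_zero]

end Pool.Agent.MP_2fc7fa_gt.N
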