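import Pool.Agent.MP_2fc7fa_gt.N.IfB2

/-! The set of times that are reached by the continuity method is open. -/

open scoped ContDiff Topology
open Set Complex Filter Metric

namespace Pool.Agent.MP_2fc7fa_gt.N

theorem jc_OpenS {P E : Type} [TopologicalSpace P] [NormedAddCommGroup E] {G : P → W → E}
    (h : JC {0}ᶜ G) (p₀ : P) {ε : ℝ} (hε : 0 < ε) :
    ∀ᶠ p in 𝓝 p₀, ∀ q ∈ sphere (0 : W) 1, ‖G p q - G p₀ q‖ ≤ ε := by
  refine (isCompact_sphere (0 : W) 1).eventually_forall_of_forall_eventually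
    (P := fun p q => ‖G p q - G p₀ q‖ ≤ ε) fun q hq => ?_
  have hq0 : q ∈ ({0}ᶜ : Set W) := by
    rintro rfl
    simp at hq
  have h1 : ContinuousAt (fun z : P × W => G z.1 z.2) (p₀, q) :=
    ContinuousOn.continuousAt h
      ((isOpen_univ.prod isOpen_compl_singleton).mem_nhds ⟨mem_univ _, hq0⟩)
  have h2 : ContinuousAt (fun z : P × W => G p₀ z.2) (p₀, q) :=
    ContinuousAt.comp (g := G p₀) (f := Prod.snd)
      ((h.at p₀).continuousAt (isOpen_compl_singleton.mem_nhds hq0)) continuousAt_snd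
  have h3 : Tendsto (fun z : P × W => ‖G z.1 z.2 - G p₀ z.2‖) (𝓝 (p₀, q)) (𝓝 0) := by
    have := (h1.sub h2).norm.tendsto
    simpa using this
  exact h3.eventually (eventually_le_nhds hε)

theorem near_OpenS {P : Type} [TopologicalSpace P] {F : P → W → V} (h : Fam {0}ᶜ 1 V F) (p₀ : P)
    {ε : ℝ} (hε : 0 < ε) : ∀ᶠ p in 𝓝 p₀, Near ε (F p) (F p₀) := by
  have h1 : Fam {0}ᶜ 0 (W →L[ℝ] V) fun p => fderiv ℝ (F p) :=
    (h.fderivWithin isOpen_compl_singleton.uniqueDiffOn).congr fun p x hx =>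
      (fderivWithin_of_isOpen isOpen_compl_singleton hx).symm
  filter_upwards [jc_OpenS h.jc p₀ hε, jc_OpenS h1.jc p₀ hε] with p a b q hq
  have hq' : q ∈ sphere (0 : W) 1 := mem_sphere_zero_iff_norm.2 hq
  exact ⟨a q hq', b q hq'⟩

theorem diff_OpenS {J : V → V → V} {U : W → V} (h : IsLine J U) {q : W} (hq : q ≠ 0) :
    HasFDerivAt U (fderiv ℝ U q) q :=
  ((h.c1.contDiffAt (isOpen_compl_singleton.mem_nhds hq)).differentiableAt
    one_ne_zero).hasFDerivAt

theorem fd_comp_OpenS {J : V → V → V} {U : W → V} (h : IsLine J U) (G : W →L[ℂ] W) {q : W}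
    (hq : G q ≠ 0) (k : W) : fderiv ℝ (U ∘ G) q k = fderiv ℝ U (G q) (G k) := by
  have := (diff_OpenS h hq).comp q (G.restrictScalars ℝ).hasFDerivAt
  exact congrArg (fun L : W →L[ℝ] V => L k) this.fderiv

theorem fd_smul_OpenS {J : V → V → V} {U : W → V} (h : IsLine J U) {c : ℂ} (hc : c ≠ 0) {q : W}
    (hq : q ≠ 0) (k : W) : fderiv ℝ U (c • q) (c • k) = c • fderiv ℝ U q k := by
  have h1 := fd_comp_OpenS h (c • ContinuousLinearMap.id ℂ W) (q := q) (smul_ne_zero hc hq) k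
  have h2 : U ∘ (c • ContinuousLinearMap.id ℂ W : W →L[ℂ] W) = c • U := funext fun x => h.hom c x
  rw [h2, ((diff_OpenS h hq).const_smul c).fderiv] at h1
  exact h1.symm

theorem fd_rad_OpenS {J : V → V → V} {U : W → V} (h : IsLine J U) {q : W} (hq : q ≠ 0) (a : ℂ) :
    fderiv ℝ U q (a • q) = a • U q := by
  let L : ℂ →L[ℝ] W := (ContinuousLinearMap.toSpanSingleton ℂ q).restrictScalars ℝ
  let M : ℂ →L[ℝ] V := (ContinuousLinearMap.toSpanSingleton ℂ (U q)).restrictScalars ℝ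
  have e : L 1 = q := one_smul ℂ q
  have h1 : HasFDerivAt (U ∘ L) ((fderiv ℝ U q).comp L) 1 :=
    HasFDerivAt.comp 1 (by rw [e]; exact diff_OpenS h hq) L.hasFDerivAt
  have h2 : U ∘ L = M := funext fun z => h.hom z q
  rw [h2] at h1
  exact congrArg (fun T : ℂ →L[ℝ] V => T a) (h1.unique M.hasFDerivAt)

theorem lift_comp_OpenS {ψ : UI → Fr} {x ξ : V} {u : UI → W → V} (h : Lift ψ (x, ξ) u) {c : ℂ}
    (hc : c ≠ 0) (a : ℂ) {b : ℝ} (hb : b ≠ 0) :
    ∃ u', Lift ψ (c • x, c • (a • x + b • ξ)) u' := by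
  let G : W →L[ℂ] W := c • (ContinuousLinearMap.fst ℂ ℂ ℂ + a • ContinuousLinearMap.snd ℂ ℂ ℂ).prod
    ((b : ℂ) • ContinuousLinearMap.snd ℂ ℂ ℂ)
  have hG : ∀ q : W, G q = c • (q.1 + a * q.2, b * q.2) := fun _ => rfl
  have hne : ∀ q : W, q ≠ 0 → G q ≠ 0 := by
    intro q hq h0
    rw [hG, smul_eq_zero, Prod.mk_eq_zero] at h0
    obtain ⟨h1, h2⟩ := h0.resolve_left hc
    have h3 : q.2 = 0 := (mul_eq_zero.1 h2).resolve_left (ofReal_ne_zero.2 hb)
    rw [h3, mul_zero, add_zero] at h1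
    exact hq (Prod.ext h1 h3)
  have hinj : Function.Injective G := (injective_iff_map_eq_zero G).2 fun q hq => by
    by_contra h0
    exact hne q h0 hq
  have he : ((1, 0) : W) ≠ 0 := by simp
  refine ⟨fun s => u s ∘ G, h.1.comp (fam_id.clm (G.restrictScalars ℝ)) fun _ q hq => hne q hq,
    fun s => ?_⟩
  obtain ⟨h1, h2, h3⟩ := h.2 s
  refine ⟨⟨?_, fun q hq => h1.ne _ (hne q hq), fun c q => ?_, fun q hq k => ?_⟩,
    ⟨fun q hq k k' hk => ?_, fun q hq q' hq' e => hinj (h2.inj (hne q hq) (hne q' hq') e)⟩, ?_⟩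
  · exact h1.c1.comp (G.restrictScalars ℝ).contDiff.contDiffOn fun q hq => hne q hq
  · simp only [Function.comp, map_smul, h1.hom]
  · rw [fd_comp_OpenS h1 G (hne q hq), fd_comp_OpenS h1 G (hne q hq), map_smul,
      h1.hol _ (hne q hq)]
    rfl
  · rw [fd_comp_OpenS h1 G (hne q hq), fd_comp_OpenS h1 G (hne q hq)] at hk
    exact hinj (h2.imm _ (hne q hq) hk)
  · have e1 : u s (1, 0) = x := congrArg Prod.fst h3
    have e2 : fderiv ℝ (u s) (1, 0) (0, 1) = ξ := congrArg Prod.snd h3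
    have g1 : G (1, 0) = c • ((1, 0) : W) := by simp [hG]
    have g2 : G (0, 1) = c • (a • ((1, 0) : W) + b • ((0, 1) : W)) := by simp [hG]
    refine Prod.ext ?_ ?_
    · change u s (G (1, 0)) = c • x
      rw [g1, h1.hom, e1]
    · change fderiv ℝ (u s ∘ G) (1, 0) (0, 1) = c • (a • x + b • ξ)
      rw [fd_comp_OpenS h1 G (hne _ he), g1, g2, fd_smul_OpenS h1 hc he, map_add,
        fd_rad_OpenS h1 he, map_smul, e1, e2]

/-- A compact set of normalised jets. -/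
def K_OpenS : Set (V × V) := {p | (∃ i, p.1 i = 1 ∧ p.2 i = 0) ∧ ‖p.1‖ ≤ 1 ∧ ‖p.2‖ = 1}

theorem K_compact_OpenS : IsCompact K_OpenS := by
  refine isCompact_of_isClosed_isBounded ?_ ?_
  · have h1 : IsClosed {p : V × V | ∃ i, p.1 i = 1 ∧ p.2 i = 0} := by
      rw [Set.ofPred_exists]
      exact isClosed_iUnion_of_finite fun i =>
        (isClosed_eq (by fun_prop) continuous_const).inter
          (isClosed_eq (by fun_prop) continuous_const)
    exact h1.inter ((isClosed_le continuous_fst.norm continuous_const).inter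
      (isClosed_eq continuous_snd.norm continuous_const))
  · refine isBounded_iff_forall_norm_le.2 ⟨1, fun p hp => ?_⟩
    rw [Prod.norm_def]
    exact max_le hp.2.1 hp.2.2.le

theorem K_sub_OpenS : K_OpenS ⊆ Jet := by
  rintro p ⟨⟨i, h1, h2⟩, -, h3⟩
  refine ⟨fun h => ?_, fun c h => ?_⟩
  · rw [h] at h1
    simp at h1
  · rw [h, Pi.smul_apply, h1, smul_eq_mul, mul_one] at h2
    rw [h, h2, zero_smul, norm_zero] at h3
    exact zero_ne_one h3

theorem K_dec_OpenS {j : V × V} (hj : j ∈ Jet) : ∃ (x ξ : V) (c a : ℂ) (b : ℝ),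
    (x, ξ) ∈ K_OpenS ∧ c ≠ 0 ∧ b ≠ 0 ∧ j = (c • x, c • (a • x + b • ξ)) := by
  obtain ⟨y, η⟩ := j
  obtain ⟨h1, h2⟩ := hj
  obtain ⟨i, hi⟩ := Finite.exists_max fun i => ‖y i‖
  have hc : y i ≠ 0 := fun h => h1 (funext fun k => norm_le_zero_iff.1 (by
    simpa [h] using hi k))
  set c := y i with hcd
  have hz : c⁻¹ • η - (c⁻¹ * η i) • c⁻¹ • y ≠ 0 := by
    intro h
    refine h2 (c⁻¹ * η i) ?_
    have := congrArg (fun v : V => c • v) (sub_eq_zero.1 h)
    simp only [smul_inv_smul₀ hc] at this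
    rw [smul_comm, smul_inv_smul₀ hc] at this
    exact this
  set z := c⁻¹ • η - (c⁻¹ * η i) • c⁻¹ • y with hzd
  have hb : ‖z‖ ≠ 0 := norm_ne_zero_iff.2 hz
  refine ⟨c⁻¹ • y, ‖z‖⁻¹ • z, c, c⁻¹ * η i, ‖z‖, ⟨⟨i, ?_, ?_⟩, ?_, ?_⟩, hc, hb, ?_⟩
  · exact inv_mul_cancel₀ hc
  · have : z i = 0 := by
      simp only [hzd, Pi.sub_apply, Pi.smul_apply, smul_eq_mul, ← hcd, inv_mul_cancel₀ hc,
        mul_one, sub_self]
    simp only [Pi.smul_apply, this, smul_zero]
  · refine (pi_norm_le_iff_of_nonneg zero_le_one).2 fun k => ?_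
    change ‖c⁻¹ • y k‖ ≤ 1
    rw [norm_smul, norm_inv]
    exact inv_mul_le_one_of_le₀ (hi k) (norm_nonneg _)
  · rw [norm_smul, norm_inv, norm_norm, inv_mul_cancel₀ hb]
  · rw [smul_inv_smul₀ hc, smul_inv_smul₀ hb, hzd, add_sub_cancel, smul_inv_smul₀ hc]

theorem mono_OpenS {φ : UI → Fr} {s₀ s₁ : UI} (h : s₀ ≤ s₁) {j : V × V} {u : UI → W → V}
    (hu : Lift (fun s => φ (max s s₀)) j u) :
    Lift (fun s => φ (max s s₁)) j fun s => u (max s s₁) := by
  refine ⟨hu.1.param (continuous_id.max continuous_const), fun s => ?_⟩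
  have := hu.2 (max s s₁)
  simp only [max_eq_left (h.trans (le_max_right s s₁))] at this
  exact this

theorem loc_OpenS (hI : IFTStmt) {φ : UI → Fr} (hφ : FrFam φ) {s₀ : UI} {u : Jet → UI → W → V}
    (hu : ∀ j : Jet, Lift (fun s => φ (max s s₀)) j (u j)) (hF : Fam {0}ᶜ 1 V fun j => u j s₀)
    (j₀ : Jet) :
    ∀ᶠ z : UI × Jet in 𝓝 (s₀, j₀), ∃ v, Lift (fun s => φ (max s z.1)) z.2 v := by
  have h0 : ∀ j : Jet, IsLine (φ s₀).J (u j s₀) ∧ IsEmb (u j s₀) ∧ jet (u j s₀) = j := fun j => by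
    have := (hu j).2 s₀
    simp only [max_self] at this
    exact this
  obtain ⟨N, hN, ε, hε, S, hS, -, hS1, hS2⟩ :=
    hI UI φ s₀ (u j₀ s₀) false hφ (h0 j₀).1 (h0 j₀).2.1
  have e0 : con false (u j₀ s₀) = j₀ := (h0 j₀).2.2
  rw [e0, mem_nhds_prod_iff] at hN
  obtain ⟨A, hA, B, hB, hAB⟩ := hN
  obtain ⟨δ, hδ, hA'⟩ := Metric.mem_nhds_iff.1 hA
  have hB' : ∀ᶠ j : Jet in 𝓝 j₀, (j : V × V) ∈ B := continuous_subtype_val.continuousAt hB
  have hb : ∀ᶠ s in 𝓝 s₀, s ∈ ball s₀ δ := ball_mem_nhds s₀ hδ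
  have hev := hb.prod_nhds (hB'.and (near_OpenS hF j₀ hε))
  filter_upwards [hev]
  rintro ⟨s₁, j⟩ ⟨hs₁, hj, hn⟩
  rcases le_total s₀ s₁ with h | h
  · exact ⟨_, mono_OpenS h (hu j)⟩
  have hmem : ∀ s : UI, s₁ ≤ s → s ≤ s₀ → (s, (j : V × V)) ∈ N := by
    intro s h1 h2
    refine hAB ⟨hA' ?_, hj⟩
    have a1 : (s₁ : ℝ) ≤ s := h1
    have a2 : (s : ℝ) ≤ s₀ := h2
    have a3 : |(s₁ : ℝ) - s₀| < δ := hs₁
    change |(s : ℝ) - s₀| < δ
    rw [abs_lt] at a3 ⊢
    constructor <;> linarith [a3.1]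
  have e1 : u j s₀ = S (s₀, j) := hS2 _ (hmem s₀ h le_rfl) _ (h0 j).1 (h0 j).2.2 hn
  let g : UI → N := fun s => ⟨(min (max s s₁) s₀, j),
    hmem _ (le_min (le_max_right _ _) h) (min_le_right _ _)⟩
  have hg : Continuous g := by
    refine Continuous.subtype_mk ?_ _
    fun_prop
  refine ⟨fun s q => u j (max s s₀) q + S (g s) q - u j s₀ q, ?_, fun s => ?_⟩
  · have hm : Continuous fun s : UI => max s s₀ := continuous_id.max continuous_const
    refine ((((hu j).1.param hm).add (hS.param hg)).add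
      (((hu j).1.param (continuous_const (y := s₀))).clm
        (-ContinuousLinearMap.id ℝ V))).congr fun s q _ => ?_
    simp [sub_eq_add_neg]
  · rcases le_total s₀ s with h' | h'
    · have e2 : (fun q => u j (max s s₀) q + S (g s) q - u j s₀ q) = u j s := by
        funext q
        simp only [g, max_eq_left h', min_eq_right (h'.trans (le_max_left s s₁)), ← e1,
          add_sub_cancel_right]
      have := (hu j).2 s
      simp only [max_eq_left h'] at this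
      simp only [e2, max_eq_left (h.trans h')]
      exact this
    · have e2 : (fun q => u j (max s s₀) q + S (g s) q - u j s₀ q) = S (max s s₁, j) := by
        funext q
        simp only [g, max_eq_right h', min_eq_left (max_le h' h), add_sub_cancel_left]
      simp only [e2]
      exact hS1 _ (hmem _ (le_max_right _ _) (max_le h' h))

theorem openS (hI : IFTStmt) (hJ : JointStmt) (hC : CStmt) : OpenStmt := by
  intro φ hφ hstd s₀ hR
  choose u hu using fun j : Jet => hR j j.2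
  have hc : Continuous fun a : Unit × UI => max a.2 s₀ := continuous_snd.max continuous_const
  have hU := hJ Unit (fun a => φ (max a.2 s₀)) (fun a => u a.2 a.1.2)
    (fun n => ⟨(hφ n).1.param hc, (hφ n).2.param hc⟩)
    (fun _ x hx v => by
      simp only [max_eq_left (unitInterval.le_one' (t := s₀))]
      exact hstd x hx v) fun _ j => hu j
  have hF : Fam {0}ᶜ 1 V fun j => u j s₀ :=
    hU.param (g := fun j : Jet => (((), s₀), j)) (by fun_prop)
  have hK : IsCompact (Subtype.val ⁻¹' K_OpenS : Set Jet) :=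
    Topology.IsInducing.subtypeVal.isCompact_preimage' K_compact_OpenS
      (by rw [Subtype.range_coe]; exact K_sub_OpenS)
  have hev := hK.eventually_forall_of_forall_eventually
    (P := fun (s₁ : UI) (j : Jet) => ∃ v, Lift (fun s => φ (max s s₁)) j v)
    fun j _ => loc_OpenS hI hφ hu hF j
  obtain ⟨δ, hδ, h⟩ := Metric.eventually_nhds_iff.1 hev
  refine ⟨δ, hδ, fun s₁ hs₁ j hj => ?_⟩
  rcases le_total s₀ s₁ with h' | h'
  · exact ⟨_, mono_OpenS h' (hu ⟨j, hj⟩)⟩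
  · obtain ⟨x, ξ, c, a, b, hk, hc, hb, rfl⟩ := K_dec_OpenS hj
    have hd : dist s₁ s₀ < δ := by
      have a1 : (s₁ : ℝ) ≤ s₀ := h'
      change |(s₁ : ℝ) - s₀| < δ
      rw [abs_lt]
      constructor <;> linarith
    obtain ⟨v, hv⟩ := h hd ⟨(x, ξ), K_sub_OpenS hk⟩ hk
    exact lift_comp_OpenS hv hc a hb

end Pool.Agent.MP_2fc7fa_gt.N
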