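import Pool.Agent.MP_2fc7fa_gt.N.PersistA

/-! Persistence of intersections of an immersed branch with another curve (PROOF.md, B7). -/

open scoped ContDiff Topology
open Set Complex Filter Metric

noncomputable section

namespace Pool.Agent.MP_2fc7fa_gt.N

theorem lin_Persist (L : ℂ →L[ℝ] W) (B : W →L[ℝ] W) (h : B (L I) = I • B (L 1)) (z : ℂ) :
    B (L z) = z • B (L 1) := by
  have hz : z = z.re • (1 : ℂ) + z.im • I := by
    simp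
  conv_lhs => rw [hz, map_add, map_add, map_smul, map_smul, map_smul, map_smul, h]
  conv_rhs => rw [hz, add_smul, smul_assoc, smul_assoc, one_smul]

/-- Straightening of the first component of the difference. -/
theorem str_Persist {A : W → W →L[ℝ] W} {u w : ℂ → W} {z₀ ζ₀ : ℂ}
    (hA : ContDiffAt ℝ 1 A (w ζ₀)) (hu : ContDiffAt ℝ 1 u z₀) (hw : ContDiffAt ℝ 1 w ζ₀)
    (he : u z₀ = w ζ₀)
    (hc : A (u z₀) (fderiv ℝ u z₀ I) = I • A (u z₀) (fderiv ℝ u z₀ 1))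
    (h1 : (A (u z₀) (fderiv ℝ u z₀ 1)).1 ≠ 0) :
    ∃ G : W → ℂ, ContDiffAt ℝ 1 G (0, ζ₀) ∧ G (0, ζ₀) = z₀ ∧
      (∀ᶠ y in 𝓝 ((0 : ℂ), ζ₀), (A (w y.2) (u (G y) - w y.2)).1 = y.1) ∧
      ∀ᶠ x in 𝓝 (z₀, ζ₀), (A (w x.2) (u x.1 - w x.2)).1 = 0 → G (0, x.2) = x.1 := by
  let Ψ : W → W := fun x => ((A (w x.2) (u x.1 - w x.2)).1, x.2)
  have hw' : ContDiffAt ℝ 1 (fun x : W => w x.2) (z₀, ζ₀) :=
    ContDiffAt.comp (z₀, ζ₀) (g := w) hw contDiffAt_snd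
  have hu' : ContDiffAt ℝ 1 (fun x : W => u x.1) (z₀, ζ₀) :=
    ContDiffAt.comp (z₀, ζ₀) (g := u) hu contDiffAt_fst
  have hA' : ContDiffAt ℝ 1 (fun x : W => A (w x.2)) (z₀, ζ₀) :=
    ContDiffAt.comp (z₀, ζ₀) (g := A) hA hw'
  have hΨ : ContDiffAt ℝ 1 Ψ (z₀, ζ₀) :=
    (hA'.clm_apply (hu'.sub hw')).fst.prodMk contDiffAt_snd
  have hΨ0 : Ψ (z₀, ζ₀) = (0, ζ₀) := by simp [Ψ, he]
  have hD := (hΨ.differentiableAt one_ne_zero).hasFDerivAt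
  set D := fderiv ℝ Ψ (z₀, ζ₀)
  have hD2 : ∀ v, (D v).2 = v.2 := by
    intro v
    have h2 : HasFDerivAt (fun x : W => (Ψ x).2) (ContinuousLinearMap.snd ℝ ℂ ℂ) (z₀, ζ₀) :=
      hasFDerivAt_snd
    exact congrArg (fun T : W →L[ℝ] ℂ => T v) (hD.snd.unique h2)
  have hD1 : ∀ h : ℂ, (D (h, 0)).1 = h * (A (u z₀) (fderiv ℝ u z₀ 1)).1 := by
    intro h
    have h2 : HasFDerivAt (fun z : ℂ => (Ψ (z, ζ₀)).1)
        ((ContinuousLinearMap.fst ℝ ℂ ℂ).comp (D.comp (ContinuousLinearMap.inl ℝ ℂ ℂ))) z₀ :=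
      (HasFDerivAt.comp z₀ (g := Ψ) hD (hasFDerivAt_prodMk_left z₀ ζ₀)).fst
    have h3 : HasFDerivAt (fun z : ℂ => (Ψ (z, ζ₀)).1)
        ((ContinuousLinearMap.fst ℝ ℂ ℂ).comp ((A (w ζ₀)).comp (fderiv ℝ u z₀))) z₀ :=
      ((A (w ζ₀)).hasFDerivAt.comp z₀
        ((hu.differentiableAt one_ne_zero).hasFDerivAt.sub_const (w ζ₀))).fst
    have h4 : (D (h, 0)).1 = (A (w ζ₀) (fderiv ℝ u z₀ h)).1 :=
      congrArg (fun T : ℂ →L[ℝ] ℂ => T h) (h2.unique h3)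
    rw [h4, ← he, lin_Persist _ _ hc h]
    rfl
  have hinj : Function.Injective D := by
    rw [injective_iff_map_eq_zero]
    rintro ⟨h, k⟩ h0
    have hk : k = 0 := by simpa [h0] using (hD2 (h, k)).symm
    subst hk
    have := hD1 h
    rw [h0] at this
    have hh : h = 0 := (mul_eq_zero.1 this.symm).resolve_right h1
    rw [hh]
    rfl
  obtain ⟨G, hG, hG0, hr, hl⟩ := inv_Persist hΨ hinj
  rw [hΨ0] at hG hG0 hr
  refine ⟨fun y => (G y).1, hG.fst, by simp [hG0], ?_, ?_⟩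
  · filter_upwards [hr] with y hy
    have e2 : (G y).2 = y.2 := (Prod.ext_iff.1 hy).2
    have e1 : (A (w (G y).2) (u (G y).1 - w (G y).2)).1 = y.1 := (Prod.ext_iff.1 hy).1
    rwa [e2] at e1
  · filter_upwards [hl] with x hx h0
    have : Ψ x = (0, x.2) := Prod.ext h0 rfl
    rw [this] at hx
    rw [hx]

/-- The Cauchy-Riemann inequality for the vertical difference. -/
theorem ineq_Persist (hF : DiffStmt) {A : W → W →L[ℝ] W} {Ω : Set W} {u w : ℂ → W} {z₀ ζ₀ : ℂ}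
    {r : ℝ} (hA : Cofr A Ω) (hr : 0 < r) (hu : ContDiffOn ℝ ∞ u (ball z₀ r))
    (hw : ContDiffOn ℝ ∞ w (ball ζ₀ r)) (hΩ : w ζ₀ ∈ Ω) (cu : CR A u (ball z₀ r))
    (cw : CR A w (ball ζ₀ r)) (he : u z₀ = w ζ₀)
    (h1 : (A (u z₀) (fderiv ℝ u z₀ 1)).1 ≠ 0) {g : ℂ → ℂ} (hg : ContDiffAt ℝ 1 g ζ₀)
    (hg0 : g ζ₀ = z₀) (hz : ∀ᶠ t in 𝓝 ζ₀, (A (w t) (u (g t) - w t)).1 = 0) :
    ∃ C : ℝ, ∀ᶠ t in 𝓝 ζ₀, ‖dbar (fun t => (A (w t) (u (g t) - w t)).2) t‖ ≤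
      C * ‖(A (w t) (u (g t) - w t)).2‖ := by
  obtain ⟨ρ, hρ, hK⟩ := nhds_basis_closedBall.mem_iff.1 (hA.1.mem_nhds hΩ)
  have hu1 : ContDiffAt ℝ 1 u z₀ :=
    (hu.contDiffAt (ball_mem_nhds _ hr)).of_le (by exact_mod_cast le_top)
  have hw1 : ContDiffAt ℝ 1 w ζ₀ :=
    (hw.contDiffAt (ball_mem_nhds _ hr)).of_le (by exact_mod_cast le_top)
  have hug : ContDiffAt ℝ 1 (fun t => u (g t)) ζ₀ :=
    ContDiffAt.comp ζ₀ (g := u) (by rwa [hg0]) hg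
  have hA0 : ContinuousAt A (u z₀) := by
    rw [he]
    exact (hA.2.1.contDiffAt (hA.1.mem_nhds hΩ)).continuousAt
  have hgt : Tendsto g (𝓝 ζ₀) (𝓝 z₀) := hg0 ▸ hg.continuousAt.tendsto
  let τ : ℂ → W := fun z => A (u z) (fderiv ℝ u z 1)
  have hτ : ContinuousAt τ z₀ :=
    (ContinuousAt.comp (g := A) hA0 hu1.continuousAt).clm_apply
      ((hu1.continuousAt_fderiv one_ne_zero).clm_apply continuousAt_const)
  have hl : ContinuousAt (fun z => (τ z).2 / (τ z).1) z₀ := hτ.snd.div hτ.fst h1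
  have b1 := (hw1.continuousAt_fderiv one_ne_zero).norm.eventually_lt_const
    (lt_add_one ‖fderiv ℝ w ζ₀‖)
  have b2 := (hug.continuousAt_fderiv one_ne_zero).norm.eventually_lt_const
    (lt_add_one ‖fderiv ℝ (fun t => u (g t)) ζ₀‖)
  have b3 := hgt.eventually (hl.norm.eventually_lt_const (lt_add_one ‖(τ z₀).2 / (τ z₀).1‖))
  have b4 := hgt.eventually (hτ.fst.eventually_ne h1)
  have b5 : ∀ᶠ t in 𝓝 ζ₀, w t ∈ closedBall (w ζ₀) ρ :=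
    hw1.continuousAt.eventually (closedBall_mem_nhds _ hρ)
  have b6 : ∀ᶠ t in 𝓝 ζ₀, u (g t) ∈ closedBall (w ζ₀) ρ := by
    have : Tendsto (fun t => u (g t)) (𝓝 ζ₀) (𝓝 (w ζ₀)) := by
      rw [← he]
      exact hu1.continuousAt.tendsto.comp hgt
    exact this.eventually (closedBall_mem_nhds _ hρ)
  have b7 := hgt.eventually (ball_mem_nhds z₀ hr)
  have b8 := hg.eventually (by simp)
  have b9 := hw1.eventually (by simp)
  have b10 := hgt.eventually (hu1.eventually (by simp))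
  obtain ⟨C, hC⟩ := hF A Ω (closedBall (w ζ₀) ρ) (‖(τ z₀).2 / (τ z₀).1‖ + 1)
    (‖fderiv ℝ w ζ₀‖ + 1 + (‖fderiv ℝ (fun t => u (g t)) ζ₀‖ + 1)) hA (isCompact_closedBall _ _)
    (convex_closedBall _ _) hK
  refine ⟨C, ?_⟩
  filter_upwards [b1, b2, b3, b4, b5, b6, b7, b8, b9, b10, ball_mem_nhds ζ₀ hr,
    hz.eventually_nhds] with t b1 b2 b3 b4 b5 b6 b7 b8 b9 b10 b11 b12
  have d1 := b8.differentiableAt one_ne_zero
  have d2 := b10.differentiableAt one_ne_zero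
  refine hC w (fun t => u (g t)) t (b9.differentiableAt one_ne_zero)
    (DifferentiableAt.comp t (g := u) d2 d1) b5 b6 ?_ ?_ ?_ ⟨_, b3.le, fun h => ?_⟩ b12
  · linarith [norm_nonneg (fderiv ℝ (fun t => u (g t)) ζ₀)]
  · linarith [norm_nonneg (fderiv ℝ w ζ₀)]
  · intro z hz
    rw [mem_singleton_iff.1 hz]
    exact cw t b11
  · have e : fderiv ℝ (fun t => u (g t)) t h = fderiv ℝ u (g t) (fderiv ℝ g t h) := by
      have := fderiv_comp t d2 d1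
      exact congrArg (fun T : ℂ →L[ℝ] W => T h) this
    rw [e, lin_Persist _ _ (cu _ b7)]
    change fderiv ℝ g t h * (τ (g t)).2 =
      (τ (g t)).2 / (τ (g t)).1 * (fderiv ℝ g t h * (τ (g t)).1)
    field_simp

theorem core_Persist (hW : HWStmt) (hD : DegStmt) (hF : DiffStmt) {A : W → W →L[ℝ] W} {Ω : Set W}
    {u w : ℂ → W} {z₀ ζ₀ : ℂ} {r : ℝ} (hA : Cofr A Ω) (hr : 0 < r)
    (hu : ContDiffOn ℝ ∞ u (ball z₀ r)) (hw : ContDiffOn ℝ ∞ w (ball ζ₀ r))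
    (mw : MapsTo w (ball ζ₀ r) Ω) (cu : CR A u (ball z₀ r)) (cw : CR A w (ball ζ₀ r))
    (he : u z₀ = w ζ₀) (h1 : (A (u z₀) (fderiv ℝ u z₀ 1)).1 ≠ 0) :
    (∀ᶠ ζ in 𝓝 ζ₀, w ζ ∈ u '' ball z₀ r) ∨
      (∃ δ' : ℝ, 0 < δ' ∧ ∀ᶠ ζ in 𝓝[≠] ζ₀, w ζ ∉ u '' ball z₀ δ') ∧
      ∀ δ : ℝ, 0 < δ → ∃ ε : ℝ, 0 < ε ∧ ∀ u' w' : ℂ → W, ContinuousOn u' (ball z₀ r) →
        ContinuousOn w' (ball ζ₀ r) → (∀ z ∈ ball z₀ r, ‖u' z - u z‖ ≤ ε) →
        (∀ ζ ∈ ball ζ₀ r, ‖w' ζ - w ζ‖ ≤ ε) →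
        ∃ z ∈ ball z₀ δ, ∃ ζ ∈ ball ζ₀ δ, u' z = w' ζ := by
  have hΩ : w ζ₀ ∈ Ω := mw (mem_ball_self hr)
  have hu1 : ContDiffAt ℝ 1 u z₀ :=
    (hu.contDiffAt (ball_mem_nhds _ hr)).of_le (by exact_mod_cast le_top)
  have hw1 : ContDiffAt ℝ 1 w ζ₀ :=
    (hw.contDiffAt (ball_mem_nhds _ hr)).of_le (by exact_mod_cast le_top)
  have hA1 : ContDiffAt ℝ 1 A (w ζ₀) :=
    (hA.2.1.contDiffAt (hA.1.mem_nhds hΩ)).of_le (by exact_mod_cast le_top)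
  obtain ⟨G, hG, hG0, hR, hL⟩ := str_Persist hA1 hu1 hw1 he (cu _ (mem_ball_self hr)) h1
  have hi : ContDiffAt ℝ 1 (fun t : ℂ => ((0 : ℂ), t)) ζ₀ := by fun_prop
  let g : ℂ → ℂ := fun t => G (0, t)
  have hg : ContDiffAt ℝ 1 g ζ₀ := ContDiffAt.comp ζ₀ (g := G) hG hi
  have hg0 : g ζ₀ = z₀ := hG0
  have hgt : Tendsto g (𝓝 ζ₀) (𝓝 z₀) := hg0 ▸ hg.continuousAt.tendsto
  have hz : ∀ᶠ t in 𝓝 ζ₀, (A (w t) (u (g t) - w t)).1 = 0 :=
    hi.continuousAt.tendsto.eventually hR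
  let v : ℂ → ℂ := fun t => (A (w t) (u (g t) - w t)).2
  have hv : ContDiffAt ℝ 1 v ζ₀ :=
    ((ContDiffAt.comp ζ₀ (g := A) hA1 hw1).clm_apply
      ((ContDiffAt.comp ζ₀ (g := u) (by rwa [hg0]) hg).sub hw1)).snd
  have hv0 : v ζ₀ = 0 := by simp [v, hg0, he]
  obtain ⟨C, hC⟩ := ineq_Persist hF hA hr hu hw hΩ cu cw he h1 hg hg0 hz
  obtain ⟨r', hr', hb⟩ := Metric.eventually_nhds_iff_ball.1
    (hC.and ((hv.eventually (by simp)).and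
      (hv.continuousAt.norm.eventually_lt_const (lt_add_one ‖v ζ₀‖))))
  rcases hW ℂ v ζ₀ r' C (‖v ζ₀‖ + 1) hr'
    (fun t ht => (hb t ht.1).2.1.contDiffWithinAt)
    (fun t ht => ⟨(hb t ht.1).2.2.le, (hb t ht.1).1⟩) with h0 | ⟨k, a, ha, hlim⟩
  · left
    have h0' : ∀ᶠ t in 𝓝 ζ₀, v t = 0 := by
      rw [← nhdsNE_sup_pure ζ₀, eventually_sup]
      exact ⟨h0, by simpa using hv0⟩
    filter_upwards [h0', hz, ball_mem_nhds ζ₀ hr, hgt.eventually (ball_mem_nhds z₀ hr)]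
      with t e2 e1 ht hgt
    refine ⟨g t, hgt, sub_eq_zero.1 (hA.2.2 _ (mw ht) ?_)⟩
    rw [map_zero]
    exact Prod.ext e1 e2
  right
  have hk : k ≠ 0 := by
    rintro rfl
    have h2 : Tendsto v (𝓝[≠] ζ₀) (𝓝 0) :=
      hv0 ▸ hv.continuousAt.tendsto.mono_left nhdsWithin_le_nhds
    simp only [pow_zero, inv_one, one_smul] at hlim
    exact ha (tendsto_nhds_unique hlim h2)
  have hapos : 0 < ‖a‖ := norm_pos_iff.2 ha
  have hap : ∀ᶠ t in 𝓝[≠] ζ₀, ‖v t - a * (t - ζ₀) ^ k‖ < ‖a‖ * ‖t - ζ₀‖ ^ k / 2 := by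
    filter_upwards [hlim.eventually (ball_mem_nhds a (half_pos hapos)), self_mem_nhdsWithin]
      with t ht hne
    have h3 : (t - ζ₀) ^ k ≠ 0 := pow_ne_zero _ (sub_ne_zero.2 hne)
    have h4 : v t - a * (t - ζ₀) ^ k = (((t - ζ₀) ^ k)⁻¹ • v t - a) * (t - ζ₀) ^ k := by
      rw [smul_eq_mul]
      field_simp
    have h5 : 0 < ‖t - ζ₀‖ ^ k := pow_pos (norm_pos_iff.2 (sub_ne_zero.2 hne)) _
    rw [h4, norm_mul, norm_pow]
    rw [dist_eq_norm] at ht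
    nlinarith
  refine ⟨?_, fun δ hδ => ?_⟩
  · rw [nhds_prod_eq, eventually_prod_iff] at hL
    obtain ⟨pa, hpa, pb, hpb, hab⟩ := hL
    obtain ⟨δ', hδ', hball⟩ := Metric.eventually_nhds_iff_ball.1 hpa
    refine ⟨δ', hδ', ?_⟩
    filter_upwards [hap, mem_nhdsWithin_of_mem_nhds hpb, self_mem_nhdsWithin] with t h2 h3 hne
    rintro ⟨z, hz, e⟩
    have h4 : g t = z := hab (hball z hz) h3 (by simp [e])
    have h5 : v t = 0 := by simp [v, h4, e]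
    have h6 : 0 < ‖t - ζ₀‖ ^ k := pow_pos (norm_pos_iff.2 (sub_ne_zero.2 hne)) _
    rw [h5, zero_sub, norm_neg, norm_mul, norm_pow] at h2
    nlinarith [mul_pos hapos h6]
  have hGt : Tendsto G (𝓝 (0, ζ₀)) (𝓝 z₀) := hG0 ▸ hG.continuousAt.tendsto
  have hst : Tendsto (fun y : W => y.2) (𝓝 (0, ζ₀)) (𝓝 ζ₀) := continuous_snd.tendsto _
  have hAw : ContinuousAt (fun t => A (w t)) ζ₀ :=
    (ContDiffAt.comp ζ₀ (g := A) hA1 hw1).continuousAt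
  obtain ⟨d₁, hd₁, hb₁⟩ := Metric.eventually_nhds_iff_ball.1
    (hR.and ((hG.eventually (by simp)).and
      ((hGt.eventually (ball_mem_nhds z₀ (lt_min hδ hr))).and
      ((hst.eventually (ball_mem_nhds ζ₀ (lt_min hδ hr))).and
      (hst.eventually (hAw.norm.eventually_lt_const (lt_add_one ‖A (w ζ₀)‖)))))))
  obtain ⟨d₂, hd₂, hb₂⟩ := Metric.eventually_nhds_iff_ball.1 (eventually_nhdsWithin_iff.1 hap)
  have hd : 0 < min d₁ d₂ / 2 := half_pos (lt_min hd₁ hd₂)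
  set d := min d₁ d₂ / 2 with hdd
  have hd1 : d < d₁ := by linarith [min_le_left d₁ d₂]
  have hd2 : d < d₂ := by linarith [min_le_right d₁ d₂]
  have hK : ∀ x ∈ closedBall ((0 : ℂ), ζ₀) d, _ := fun x hx => hb₁ x (closedBall_subset_ball hd1 hx)
  have m1 : MapsTo G (closedBall ((0 : ℂ), ζ₀) d) (ball z₀ r) := fun x hx =>
    ball_subset_ball (min_le_right _ _) (hK x hx).2.2.1
  have m2 : MapsTo (fun y : W => y.2) (closedBall ((0 : ℂ), ζ₀) d) (ball ζ₀ r) := fun x hx =>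
    ball_subset_ball (min_le_right _ _) (hK x hx).2.2.2.1
  have cG : ContinuousOn G (closedBall ((0 : ℂ), ζ₀) d) := fun x hx =>
    (hK x hx).2.1.continuousAt.continuousWithinAt
  have cont : ∀ u' w' : ℂ → W, ContinuousOn u' (ball z₀ r) → ContinuousOn w' (ball ζ₀ r) →
      ContinuousOn (fun y : W => A (w y.2) (u' (G y) - w' y.2)) (closedBall ((0 : ℂ), ζ₀) d) :=
    fun u' w' h h' =>
      ((hA.2.1.continuousOn.comp hw.continuousOn mw).comp continuous_snd.continuousOn m2).clm_apply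
        ((h.comp cG m1).sub (h'.comp continuous_snd.continuousOn m2))
  obtain ⟨m, hm, hdeg⟩ := deg_Persist hD (fun y => (A (w y.2) (u (G y) - w y.2)).2) ζ₀ a d k hd hk
    ha (cont u w hu.continuousOn hw.continuousOn).snd (fun t ht => by
      have h2 := hb₂ t (by rw [mem_ball_iff_norm, ht]; exact hd2) (by
        rintro rfl
        simp only [sub_self, norm_zero] at ht
        exact hd.ne ht)
      rwa [ht] at h2)
  have hN : 0 < ‖A (w ζ₀)‖ + 1 := by positivity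
  refine ⟨m / (4 * (‖A (w ζ₀)‖ + 1)), by positivity, fun u' w' cu' cw' nu nw => ?_⟩
  obtain ⟨x, hx, h0⟩ := hdeg _ (cont u' w' cu' cw') fun x hx => by
    have e : (x.1, (A (w x.2) (u (G x) - w x.2)).2) = A (w x.2) (u (G x) - w x.2) :=
      Prod.ext (hK x hx).1.symm rfl
    rw [e, ← map_sub]
    have h2 : ‖u' (G x) - w' x.2 - (u (G x) - w x.2)‖ ≤ 2 * (m / (4 * (‖A (w ζ₀)‖ + 1))) := by
      rw [sub_sub_sub_comm]
      exact (norm_sub_le _ _).trans (by linarith [nu _ (m1 hx), nw _ (m2 hx)])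
    calc _ ≤ ‖A (w x.2)‖ * ‖u' (G x) - w' x.2 - (u (G x) - w x.2)‖ :=
          ContinuousLinearMap.le_opNorm _ _
      _ ≤ (‖A (w ζ₀)‖ + 1) * (2 * (m / (4 * (‖A (w ζ₀)‖ + 1)))) :=
          mul_le_mul (hK x hx).2.2.2.2.le h2 (norm_nonneg _) hN.le
      _ = m / 2 := by field_simp; norm_num
      _ < m := half_lt_self hm
  refine ⟨G x, ball_subset_ball (min_le_left _ _) (hK x hx).2.2.1, x.2,
    ball_subset_ball (min_le_left _ _) (hK x hx).2.2.2.1,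
    sub_eq_zero.1 (hA.2.2 _ (mw (m2 hx)) ?_)⟩
  rw [map_zero]
  exact h0

theorem persist (hW : HWStmt) (hD : DegStmt) (hF : DiffStmt) : PersistStmt := by
  intro A Ω u w z₀ ζ₀ r hA hr hu hw mu mw cu cw he h0
  by_cases h1 : (A (u z₀) (fderiv ℝ u z₀ 1)).1 = 0
  swap
  · exact core_Persist hW hD hF hA hr hu hw mw cu cw he h1
  let S : W →L[ℝ] W := (ContinuousLinearEquiv.prodComm ℝ ℂ ℂ : W →L[ℝ] W)
  have hS : ∀ x : W, S x = (x.2, x.1) := fun _ => rfl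
  have hcr : ∀ (f : ℂ → W) (O : Set ℂ), CR A f O → CR (fun x => S.comp (A x)) f O := by
    intro f O h z hz
    simp only [ContinuousLinearMap.comp_apply, h z hz, hS]
    rfl
  refine core_Persist hW hD hF (A := fun x => S.comp (A x)) (Ω := Ω)
    ⟨hA.1, contDiffOn_const.clm_comp hA.2.1, fun x hx =>
      (ContinuousLinearEquiv.prodComm ℝ ℂ ℂ).injective.comp (hA.2.2 x hx)⟩ hr hu hw mw
    (hcr _ _ cu) (hcr _ _ cw) he fun h2 => h0 (hA.2.2 _ (mu (mem_ball_self hr)) ?_)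
  rw [map_zero]
  exact Prod.ext h1 h2

end Pool.Agent.MP_2fc7fa_gt.N
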