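import Pool.Agent.MP_2fc7fa_gt.N.IfB

/-! Local regularity from the integrated form of the inhomogeneous Cauchy-Riemann equation. -/

open scoped ContDiff ComplexConjugate Topology
open Set Complex Filter Metric MeasureTheory

noncomputable section

namespace Pool.Agent.MP_2fc7fa_gt.N

section
variable {E : Type} [NormedAddCommGroup E] [NormedSpace ℂ E]

theorem rectInt_swap1_Reg (v : ℂ → E) (a b c d : ℝ) :
    rectInt v b a c d = - rectInt v a b c d := by
  simp only [rectInt, intervalIntegral.integral_symm a b]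
  abel

theorem rectInt_swap2_Reg (v : ℂ → E) (a b c d : ℝ) :
    rectInt v a b d c = - rectInt v a b c d := by
  simp only [rectInt, intervalIntegral.integral_symm c d, smul_neg]
  abel

theorem morera_Reg [CompleteSpace E] {f : ℂ → E} {U : Set ℂ} (hU : IsOpen U)
    (hf : ContinuousOn f U)
    (h : ∀ a b c d : ℝ, a ≤ b → c ≤ d →
      (∀ x ∈ Icc a b, ∀ y ∈ Icc c d, (x + y * I : ℂ) ∈ U) → rectInt f a b c d = 0) :
    DifferentiableOn ℂ f U := by
  refine (isConservativeOn_and_continuousOn_iff_isDifferentiableOn hU).1 ⟨?_, hf⟩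
  intro z w hzw
  rw [← add_eq_zero_iff_eq_neg, wedgeIntegral_add_wedgeIntegral_eq]
  change rectInt f z.re w.re z.im w.im = 0
  have hm : ∀ x ∈ uIcc z.re w.re, ∀ y ∈ uIcc z.im w.im, (x + y * I : ℂ) ∈ U := by
    intro x hx y hy
    apply hzw
    simp only [Rectangle, mem_reProdIm]
    constructor
    · simpa using hx
    · simpa using hy
  rcases le_total z.re w.re with h1 | h1 <;> rcases le_total z.im w.im with h2 | h2
  · exact h _ _ _ _ h1 h2 (by rwa [uIcc_of_le h1, uIcc_of_le h2] at hm)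
  · rw [rectInt_swap2_Reg, h _ _ _ _ h1 h2 (by rwa [uIcc_of_le h1, uIcc_of_ge h2] at hm), neg_zero]
  · rw [rectInt_swap1_Reg, h _ _ _ _ h1 h2 (by rwa [uIcc_of_ge h1, uIcc_of_le h2] at hm), neg_zero]
  · rw [rectInt_swap1_Reg, rectInt_swap2_Reg,
      h _ _ _ _ h1 h2 (by rwa [uIcc_of_ge h1, uIcc_of_ge h2] at hm), neg_zero, neg_zero]

theorem intH_Reg {F : Type} [NormedAddCommGroup F] {f : ℂ → F} {U : Set ℂ} (hf : ContinuousOn f U)
    {a b y : ℝ} (hab : a ≤ b) (hm : ∀ x ∈ Icc a b, (x + y * I : ℂ) ∈ U) :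
    IntervalIntegrable (fun x : ℝ => f (x + y * I)) volume a b := by
  apply ContinuousOn.intervalIntegrable
  rw [uIcc_of_le hab]
  exact hf.comp (by fun_prop) hm

theorem intV_Reg {F : Type} [NormedAddCommGroup F] {f : ℂ → F} {U : Set ℂ} (hf : ContinuousOn f U)
    {c d x : ℝ} (hcd : c ≤ d) (hm : ∀ y ∈ Icc c d, (x + y * I : ℂ) ∈ U) :
    IntervalIntegrable (fun y : ℝ => f (x + y * I)) volume c d := by
  apply ContinuousOn.intervalIntegrable
  rw [uIcc_of_le hcd]
  exact hf.comp (by fun_prop) hm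

theorem rectInt_sub_Reg {f g : ℂ → E} {U : Set ℂ} (hf : ContinuousOn f U) (hg : ContinuousOn g U)
    {a b c d : ℝ} (hab : a ≤ b) (hcd : c ≤ d)
    (hm : ∀ x ∈ Icc a b, ∀ y ∈ Icc c d, (x + y * I : ℂ) ∈ U) :
    rectInt (fun z => f z - g z) a b c d = rectInt f a b c d - rectInt g a b c d := by
  have hc : c ∈ Icc c d := left_mem_Icc.2 hcd
  have hd : d ∈ Icc c d := right_mem_Icc.2 hcd
  have ha : a ∈ Icc a b := left_mem_Icc.2 hab
  have hb : b ∈ Icc a b := right_mem_Icc.2 hab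
  simp only [rectInt]
  rw [intervalIntegral.integral_sub (intH_Reg hf hab fun x hx => hm x hx c hc)
      (intH_Reg hg hab fun x hx => hm x hx c hc),
    intervalIntegral.integral_sub (intH_Reg hf hab fun x hx => hm x hx d hd)
      (intH_Reg hg hab fun x hx => hm x hx d hd),
    intervalIntegral.integral_sub (intV_Reg hf hcd (hm b hb)) (intV_Reg hg hcd (hm b hb)),
    intervalIntegral.integral_sub (intV_Reg hf hcd (hm a ha)) (intV_Reg hg hcd (hm a ha))]
  simp only [smul_sub]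
  abel

end

/-- A Lipschitz cutoff function. -/
def cut_Reg (c : ℂ) (r : ℝ) (z : ℂ) : ℝ := max 0 (min 1 (2 - ‖z - c‖ / r))

theorem cut_cont_Reg (c : ℂ) (r : ℝ) : Continuous (cut_Reg c r) := by
  unfold cut_Reg
  fun_prop

theorem cut_nonneg_Reg (c : ℂ) (r : ℝ) (z : ℂ) : 0 ≤ cut_Reg c r z := le_max_left _ _

theorem cut_le_Reg (c : ℂ) (r : ℝ) (z : ℂ) : cut_Reg c r z ≤ 1 :=
  max_le zero_le_one (min_le_left _ _)

theorem cut_one_Reg {c : ℂ} {r : ℝ} (hr : 0 < r) {z : ℂ} (hz : z ∈ ball c r) :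
    cut_Reg c r z = 1 := by
  have h : ‖z - c‖ / r ≤ 1 := by
    rw [div_le_one hr]
    exact (mem_ball_iff_norm.1 hz).le
  unfold cut_Reg
  rw [min_eq_left (by linarith), max_eq_right zero_le_one]

theorem cut_zero_Reg {c : ℂ} {r : ℝ} (hr : 0 < r) {z : ℂ} (hz : 2 * r ≤ ‖z - c‖) :
    cut_Reg c r z = 0 := by
  have h : 2 ≤ ‖z - c‖ / r := by
    rw [le_div_iff₀ hr]
    exact hz
  unfold cut_Reg
  exact max_eq_left ((min_le_right _ _).trans (by linarith))

theorem cut_lip_Reg {c : ℂ} {r : ℝ} (hr : 0 < r) (z z' : ℂ) :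
    |cut_Reg c r z - cut_Reg c r z'| ≤ √‖z - z'‖ / √r := by
  have h1 : |cut_Reg c r z - cut_Reg c r z'| ≤ 1 := by
    have := cut_nonneg_Reg c r z
    have := cut_nonneg_Reg c r z'
    have := cut_le_Reg c r z
    have := cut_le_Reg c r z'
    rw [abs_le]
    constructor <;> linarith
  have h2 : |cut_Reg c r z - cut_Reg c r z'| ≤ ‖z - z'‖ / r := by
    have h3 : |‖z - c‖ / r - ‖z' - c‖ / r| ≤ ‖z - z'‖ / r := by
      rw [← sub_div, abs_div, abs_of_pos hr]
      apply div_le_div_of_nonneg_right _ hr.le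
      have := abs_norm_sub_norm_le (z - c) (z' - c)
      rwa [sub_sub_sub_cancel_right] at this
    unfold cut_Reg
    rw [abs_le] at h3 ⊢
    obtain ⟨h4, h5⟩ := h3
    have h6 : 0 ≤ ‖z - z'‖ / r := by positivity
    generalize ‖z - c‖ / r = s at *
    generalize ‖z' - c‖ / r = t at *
    generalize ‖z - z'‖ / r = w at *
    simp only [max_def, min_def]
    split_ifs <;> constructor <;> linarith
  rw [← Real.sqrt_div (norm_nonneg _)]
  apply Real.le_sqrt_of_sq_le
  have h0 := abs_nonneg (cut_Reg c r z - cut_Reg c r z')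
  nlinarith

/-- Local Hoelder continuity at a point. -/
def LH_Reg {F : Type} [NormedAddCommGroup F] (f : ℂ → F) (z : ℂ) : Prop :=
  ∃ K r : ℝ, 0 ≤ K ∧ 0 < r ∧ Hol K f (ball z r)

theorem LH_congr_Reg {F : Type} [NormedAddCommGroup F] {f g : ℂ → F} {z : ℂ} (hf : LH_Reg f z)
    (h : f =ᶠ[𝓝 z] g) : LH_Reg g z := by
  obtain ⟨K, r, hK, hr, hH⟩ := hf
  obtain ⟨s, hs, hb⟩ := Metric.eventually_nhds_iff_ball.1 h
  refine ⟨K, min r s, hK, lt_min hr hs, fun x hx y hy => ?_⟩
  rw [← hb x (ball_subset_ball (min_le_right _ _) hx),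
    ← hb y (ball_subset_ball (min_le_right _ _) hy)]
  exact hH x (ball_subset_ball (min_le_left _ _) hx) y (ball_subset_ball (min_le_left _ _) hy)

theorem LH_id_Reg (z : ℂ) : LH_Reg (fun x : ℂ => x) z := by
  refine ⟨1, 1 / 2, zero_le_one, by norm_num, fun x hx y hy => ?_⟩
  have h1 : ‖x - y‖ ≤ 1 := by
    have h2 := mem_ball_iff_norm.1 hx
    have h3 := mem_ball_iff_norm.1 hy
    have h4 := norm_sub_le (x - z) (y - z)
    rw [sub_sub_sub_cancel_right] at h4
    linarith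
  rw [one_mul]
  apply Real.le_sqrt_of_sq_le
  have := norm_nonneg (x - y)
  nlinarith

theorem LH_comp_Reg {F G : Type} [NormedAddCommGroup F] [NormedSpace ℝ F] [NormedAddCommGroup G]
    [NormedSpace ℝ G] {f : ℂ → F} {Φ : F → G} {z : ℂ} (hΦ : ContDiffAt ℝ 1 Φ (f z))
    (hc : ContinuousAt f z) (hf : LH_Reg f z) : LH_Reg (fun x => Φ (f x)) z := by
  obtain ⟨K, r, hK, hr, hH⟩ := hf
  obtain ⟨L, t, ht, hL⟩ := hΦ.exists_lipschitzOnWith
  obtain ⟨s, hs, hb⟩ := Metric.eventually_nhds_iff_ball.1 (hc.eventually_mem ht)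
  refine ⟨L * K, min r s, by positivity, lt_min hr hs, fun x hx y hy => ?_⟩
  have h1 := hL.norm_sub_le (hb x (ball_subset_ball (min_le_right _ _) hx))
    (hb y (ball_subset_ball (min_le_right _ _) hy))
  have h2 := hH x (ball_subset_ball (min_le_left _ _) hx) y (ball_subset_ball (min_le_left _ _) hy)
  calc ‖Φ (f x) - Φ (f y)‖ ≤ L * ‖f x - f y‖ := h1
    _ ≤ L * (K * √‖x - y‖) := mul_le_mul_of_nonneg_left h2 L.2
    _ = L * K * √‖x - y‖ := by ring

theorem LH_of_contDiffAt_Reg {G : Type} [NormedAddCommGroup G] [NormedSpace ℝ G] {f : ℂ → G}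
    {z : ℂ} (hf : ContDiffAt ℝ 1 f z) : LH_Reg f z :=
  LH_comp_Reg (f := fun x : ℂ => x) hf continuousAt_id (LH_id_Reg z)

theorem LH_pair_Reg {F G : Type} [NormedAddCommGroup F] [NormedAddCommGroup G] {f : ℂ → F}
    {g : ℂ → G} {z : ℂ} (hf : LH_Reg f z) (hg : LH_Reg g z) :
    LH_Reg (fun x => (f x, g x)) z := by
  obtain ⟨K, r, hK, hr, hH⟩ := hf
  obtain ⟨L, s, hL, hs, hG⟩ := hg
  refine ⟨max K L, min r s, le_max_of_le_left hK, lt_min hr hs, fun x hx y hy => ?_⟩
  have h1 := hH x (ball_subset_ball (min_le_left _ _) hx) y (ball_subset_ball (min_le_left _ _) hy)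
  have h2 := hG x (ball_subset_ball (min_le_right _ _) hx) y
    (ball_subset_ball (min_le_right _ _) hy)
  have h3 := Real.sqrt_nonneg ‖x - y‖
  rw [Prod.mk_sub_mk, Prod.norm_mk]
  exact max_le (h1.trans (mul_le_mul_of_nonneg_right (le_max_left _ _) h3))
    (h2.trans (mul_le_mul_of_nonneg_right (le_max_right _ _) h3))

theorem Hol_cont_Reg {F : Type} [NormedAddCommGroup F] {f : ℂ → F} {K : ℝ} (h : Hol K f univ) :
    Continuous f := by
  rw [continuous_iff_continuousAt]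
  intro z
  rw [ContinuousAt, tendsto_iff_norm_sub_tendsto_zero]
  have h0 : Tendsto (fun x : ℂ => K * √‖x - z‖) (𝓝 z) (𝓝 0) := by
    have h1 : Continuous fun x : ℂ => K * √‖x - z‖ := by fun_prop
    simpa using h1.tendsto z
  exact squeeze_zero (fun _ => norm_nonneg _) (fun x => h x (mem_univ _) z (mem_univ _)) h0

section
variable {E : Type} [NormedAddCommGroup E] [NormedSpace ℂ E]

/-- The function `g` cut off outside a ball. -/
def cg_Reg (g : ℂ → E) (c : ℂ) (r : ℝ) (z : ℂ) : E := ((cut_Reg c r z : ℝ) : ℂ) • g z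

theorem cg_bdd_Reg {g : ℂ → E} {c : ℂ} {r M : ℝ} (hr : 0 < r)
    (hg : ContinuousOn g (closedBall c (2 * r))) (hM : ∀ z ∈ closedBall c (2 * r), ‖g z‖ ≤ M) :
    Bdd (cg_Reg g c r) c (2 * r) M := by
  have hM0 : 0 ≤ M := (norm_nonneg _).trans (hM c (mem_closedBall_self (by positivity)))
  have hz : ∀ z, 2 * r ≤ ‖z - c‖ → cg_Reg g c r z = 0 := fun z hz => by
    simp [cg_Reg, cut_zero_Reg hr hz]
  refine ⟨?_, fun z => ?_, hz⟩
  · have h1 : ContinuousOn (cg_Reg g c r) (closedBall c (2 * r)) :=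
      ((continuous_ofReal.comp (cut_cont_Reg c r)).continuousOn).smul hg
    have h2 : cg_Reg g c r = (closedBall c (2 * r)).indicator (cg_Reg g c r) := by
      funext z
      by_cases h : z ∈ closedBall c (2 * r)
      · rw [indicator_of_mem h]
      · rw [indicator_of_notMem h]
        exact hz z (le_of_lt (by simpa [dist_eq_norm] using h))
    rw [h2, aestronglyMeasurable_indicator_iff measurableSet_closedBall]
    exact h1.aestronglyMeasurable measurableSet_closedBall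
  · by_cases h : z ∈ closedBall c (2 * r)
    · rw [cg_Reg, norm_smul, Complex.norm_real, Real.norm_of_nonneg (cut_nonneg_Reg c r z)]
      have := cut_le_Reg c r z
      have := hM z h
      have := norm_nonneg (g z)
      nlinarith
    · rw [hz z (le_of_lt (by simpa [dist_eq_norm] using h)), norm_zero]
      exact hM0

theorem cg_hol_Reg {g : ℂ → E} {c : ℂ} {r M K : ℝ} (hr : 0 < r) (hK : 0 ≤ K)
    (hM : ∀ z ∈ closedBall c (2 * r), ‖g z‖ ≤ M) (hH : Hol K g (closedBall c (2 * r))) :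
    Hol (K + M / √r) (cg_Reg g c r) univ := by
  have hM0 : 0 ≤ M := (norm_nonneg _).trans (hM c (mem_closedBall_self (by positivity)))
  have hA : ∀ z ∈ closedBall c (2 * r), ∀ z' : ℂ,
      ‖((cut_Reg c r z - cut_Reg c r z' : ℝ) : ℂ) • g z‖ ≤ M / √r * √‖z - z'‖ := by
    intro z hz z'
    rw [norm_smul, Complex.norm_real, Real.norm_eq_abs]
    calc |cut_Reg c r z - cut_Reg c r z'| * ‖g z‖ ≤ √‖z - z'‖ / √r * M :=
          mul_le_mul (cut_lip_Reg hr z z') (hM z hz) (norm_nonneg _) (by positivity)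
      _ = M / √r * √‖z - z'‖ := by ring
  have hB : ∀ z ∈ closedBall c (2 * r), ∀ z' : ℂ,
      ‖cg_Reg g c r z - cg_Reg g c r z'‖ ≤ (K + M / √r) * √‖z - z'‖ := by
    intro z hz z'
    have hs := Real.sqrt_nonneg ‖z - z'‖
    by_cases h : z' ∈ closedBall c (2 * r)
    · have e : cg_Reg g c r z - cg_Reg g c r z' =
          ((cut_Reg c r z - cut_Reg c r z' : ℝ) : ℂ) • g z +
            ((cut_Reg c r z' : ℝ) : ℂ) • (g z - g z') := by
        simp only [cg_Reg, ofReal_sub, sub_smul, smul_sub]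
        abel
      have h1 : ‖((cut_Reg c r z' : ℝ) : ℂ) • (g z - g z')‖ ≤ K * √‖z - z'‖ := by
        rw [norm_smul, Complex.norm_real, Real.norm_of_nonneg (cut_nonneg_Reg c r z')]
        have := cut_le_Reg c r z'
        have := hH z hz z' h
        have := norm_nonneg (g z - g z')
        nlinarith
      rw [e]
      have h2 := hA z hz z'
      have h3 := norm_add_le (((cut_Reg c r z - cut_Reg c r z' : ℝ) : ℂ) • g z)
        (((cut_Reg c r z' : ℝ) : ℂ) • (g z - g z'))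
      linarith [add_mul K (M / √r) √‖z - z'‖]
    · have h0 : cut_Reg c r z' = 0 :=
        cut_zero_Reg hr (le_of_lt (by simpa [dist_eq_norm] using h))
      have e : cg_Reg g c r z - cg_Reg g c r z' =
          ((cut_Reg c r z - cut_Reg c r z' : ℝ) : ℂ) • g z := by
        simp [cg_Reg, h0]
      rw [e]
      have h2 := hA z hz z'
      have h3 : 0 ≤ K * √‖z - z'‖ := by positivity
      linarith [add_mul K (M / √r) √‖z - z'‖]
  intro z _ z' _
  by_cases h : z ∈ closedBall c (2 * r)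
  · exact hB z h z'
  · by_cases h' : z' ∈ closedBall c (2 * r)
    · rw [norm_sub_rev, norm_sub_rev z z']
      exact hB z' h' z
    · have h0 : cut_Reg c r z = 0 :=
        cut_zero_Reg hr (le_of_lt (by simpa [dist_eq_norm] using h))
      have h1 : cut_Reg c r z' = 0 :=
        cut_zero_Reg hr (le_of_lt (by simpa [dist_eq_norm] using h'))
      simp only [cg_Reg, h0, h1, ofReal_zero, zero_smul, sub_self, norm_zero]
      positivity

/-- The integrated form of `∂̄ τ = g` on `O`. -/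
def Weak_Reg (τ g : ℂ → E) (O : Set ℂ) : Prop :=
  ∀ a b c d : ℝ, a ≤ b → c ≤ d → (∀ x ∈ Icc a b, ∀ y ∈ Icc c d, (x + y * I : ℂ) ∈ O) →
    rectInt τ a b c d = (2 * I) • ∫ x in a..b, ∫ y in c..d, g (x + y * I)

theorem decomp_Reg [CompleteSpace E] (h1 : T1Stmt) (h4 : T4Stmt) {τ g : ℂ → E} {O : Set ℂ}
    (hτ : ContinuousOn τ O) (hW : Weak_Reg τ g O) {c : ℂ} {r M : ℝ} (hr : 0 < r)
    (hO : ball c r ⊆ O) (hB : Bdd (cg_Reg g c r) c (2 * r) M) :
    DifferentiableOn ℂ (fun z => τ z - cT (cg_Reg g c r) z) (ball c r) := by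
  obtain ⟨C, -, hC⟩ := h1
  have hc : Continuous (cT (cg_Reg g c r)) :=
    Hol_cont_Reg (hC E _ c (2 * r) M (by positivity) hB).2
  refine morera_Reg isOpen_ball ((hτ.mono hO).sub hc.continuousOn) fun a b c' d hab hcd hm => ?_
  rw [rectInt_sub_Reg (hτ.mono hO) hc.continuousOn hab hcd hm,
    hW a b c' d hab hcd fun x hx y hy => hO (hm x hx y hy), h4 E _ c (2 * r) M hB a b c' d hab hcd,
    sub_eq_zero]
  congr 1
  refine intervalIntegral.integral_congr fun x hx => ?_
  refine intervalIntegral.integral_congr fun y hy => ?_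
  rw [uIcc_of_le hab] at hx
  rw [uIcc_of_le hcd] at hy
  simp [cg_Reg, cut_one_Reg hr (hm x hx y hy)]

theorem contDiffAt_of_hol_Reg [CompleteSpace E] {f : ℂ → E} {c : ℂ} {r : ℝ} (hr : 0 < r)
    (hf : DifferentiableOn ℂ f (ball c r)) : ContDiffAt ℝ 1 f c :=
  ((hf.analyticAt (ball_mem_nhds c hr)).contDiffAt (n := 1)).restrict_scalars ℝ

theorem weak_LH_Reg [CompleteSpace E] (h1 : T1Stmt) (h4 : T4Stmt) {τ g : ℂ → E} {O : Set ℂ}
    (hO : IsOpen O) (hτ : ContinuousOn τ O) (hg : ContinuousOn g O) (hW : Weak_Reg τ g O) {c : ℂ}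
    (hc : c ∈ O) : LH_Reg τ c := by
  obtain ⟨ρ, hρ, hb⟩ := Metric.isOpen_iff.1 hO c hc
  have hr : 0 < ρ / 3 := by positivity
  have hs : closedBall c (2 * (ρ / 3)) ⊆ O :=
    (closedBall_subset_ball (by linarith)).trans hb
  obtain ⟨M, hM⟩ := (isCompact_closedBall c (2 * (ρ / 3))).exists_bound_of_continuousOn
    (hg.mono hs)
  have hB := cg_bdd_Reg hr (hg.mono hs) hM
  have hd := decomp_Reg h1 h4 hτ hW hr ((ball_subset_ball (by linarith)).trans hb) hB
  obtain ⟨C, hC0, hC⟩ := h1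
  have hH := (hC E _ c _ M (by positivity) hB).2
  have hM0 : 0 ≤ M := (norm_nonneg _).trans (hM c (mem_closedBall_self (by positivity)))
  have l1 : LH_Reg (cT (cg_Reg g c (ρ / 3))) c :=
    ⟨_, 1, by positivity, one_pos, fun x _ y _ => hH x (mem_univ _) y (mem_univ _)⟩
  have l2 := LH_of_contDiffAt_Reg (contDiffAt_of_hol_Reg hr hd)
  have l3 := LH_comp_Reg (Φ := fun p : E × E => p.1 + p.2) (by fun_prop)
    ((Hol_cont_Reg hH).continuousAt.prodMk (contDiffAt_of_hol_Reg hr hd).continuousAt)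
    (LH_pair_Reg l1 l2)
  exact LH_congr_Reg l3 (Eventually.of_forall fun x => by simp)

theorem dbar_hol_Reg {f : ℂ → E} {c : ℂ} (hf : DifferentiableAt ℂ f c) :
    fderiv ℝ f c 1 + I • fderiv ℝ f c I = 0 := by
  rw [hf.fderiv_restrictScalars ℝ]
  have h : fderiv ℂ f c I = I • fderiv ℂ f c 1 := by
    rw [← map_smul, smul_eq_mul, mul_one]
  simp only [ContinuousLinearMap.coe_restrictScalars', h, smul_smul, I_mul_I, neg_smul, one_smul,
    add_neg_cancel]

theorem weak_C1_Reg [CompleteSpace E] (h1 : T1Stmt) (h3 : T3Stmt) (h4 : T4Stmt) {τ g : ℂ → E}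
    {O : Set ℂ} (hO : IsOpen O) (hτ : ContinuousOn τ O) (hg : ContinuousOn g O)
    (hW : Weak_Reg τ g O) {c : ℂ} (hc : c ∈ O) (hL : LH_Reg g c) :
    ContDiffAt ℝ 1 τ c ∧ dbar τ c = g c := by
  obtain ⟨ρ₀, hρ₀, hb₀⟩ := Metric.isOpen_iff.1 hO c hc
  obtain ⟨K, ρ₁, hK, hρ₁, hH⟩ := hL
  set ρ := min ρ₀ ρ₁ with hρd
  have hρ : 0 < ρ := lt_min hρ₀ hρ₁
  have hb : ball c ρ ⊆ O := (ball_subset_ball (min_le_left _ _)).trans hb₀
  have hr : 0 < ρ / 3 := by positivity
  have hs' : closedBall c (2 * (ρ / 3)) ⊆ ball c ρ := closedBall_subset_ball (by linarith)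
  have hs : closedBall c (2 * (ρ / 3)) ⊆ O := hs'.trans hb
  have hs1 : closedBall c (2 * (ρ / 3)) ⊆ ball c ρ₁ :=
    hs'.trans (ball_subset_ball (min_le_right _ _))
  obtain ⟨M, hM⟩ := (isCompact_closedBall c (2 * (ρ / 3))).exists_bound_of_continuousOn
    (hg.mono hs)
  have hM0 : 0 ≤ M := (norm_nonneg _).trans (hM c (mem_closedBall_self (by positivity)))
  have hB := cg_bdd_Reg hr (hg.mono hs) hM
  have hd := decomp_Reg h1 h4 hτ hW hr ((ball_subset_ball (by linarith)).trans hb) hB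
  have hH' := cg_hol_Reg hr hK hM fun x hx y hy => hH x (hs1 hx) y (hs1 hy)
  obtain ⟨C, -, hC⟩ := h3 (2 * (ρ / 3)) (by positivity)
  obtain ⟨k1, k2, -, -⟩ := hC E _ c M _ hB (by positivity) hH'
  have k3 := contDiffAt_of_hol_Reg hr hd
  have e : τ = fun z => cT (cg_Reg g c (ρ / 3)) z + (τ z - cT (cg_Reg g c (ρ / 3)) z) := by
    funext z
    simp
  refine ⟨by rw [e]; exact k1.contDiffAt.add k3, ?_⟩
  have k4 := dbar_hol_Reg (hd.differentiableAt (ball_mem_nhds c hr))
  have k5 := k2 c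
  have k6 : fderiv ℝ τ c = fderiv ℝ (cT (cg_Reg g c (ρ / 3))) c +
      fderiv ℝ (fun z => τ z - cT (cg_Reg g c (ρ / 3)) z) c := by
    conv_lhs => rw [e]
    exact fderiv_fun_add (k1.contDiffAt.differentiableAt one_ne_zero)
      (k3.differentiableAt one_ne_zero)
  have k7 : cg_Reg g c (ρ / 3) c = g c := by
    simp [cg_Reg, cut_one_Reg hr (mem_ball_self hr)]
  rw [← k7, ← k5, dbar, dbar, k6]
  congr 1
  simp only [add_apply, smul_add]
  rw [add_add_add_comm, k4, add_zero]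

end

end Pool.Agent.MP_2fc7fa_gt.N
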