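import Pool.Agent.MP_2fc7fa_gt.N.IfB
import Pool.Agent.MP_2fc7fa_gt.N.RegA

/-! `C¹` solutions of the Cauchy-Riemann equation in a smooth coframe are smooth. -/

open scoped ContDiff ComplexConjugate Topology
open Set Complex Filter Metric MeasureTheory

noncomputable section

namespace Pool.Agent.MP_2fc7fa_gt.N

section
variable {E : Type} [NormedAddCommGroup E] [NormedSpace ℂ E]

/-- The exterior derivative of the coframe. -/
def Qf_Reg (A : E → E →L[ℝ] E) (x a : E) : E →L[ℝ] E :=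
  fderiv ℝ A x a - (fderiv ℝ A x).flip a

theorem Qf_apply_Reg (A : E → E →L[ℝ] E) (x a b : E) :
    Qf_Reg A x a b = fderiv ℝ A x a b - fderiv ℝ A x b a := rfl

/-- The derivative of `u` in the coframe. -/
def tau_Reg (A : E → E →L[ℝ] E) (u : ℂ → E) (z : ℂ) : E := A (u z) (fderiv ℝ u z 1)

/-- The right hand side of the equation for `tau_Reg`. -/
def Gam_Reg (A : E → E →L[ℝ] E) (p : E × E) : E :=
  (2 * I)⁻¹ • Qf_Reg A p.1 ((A p.1).inverse p.2) ((A p.1).inverse (I • p.2))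

/-- The prolonged coframe. -/
def pro_Reg (A : E → E →L[ℝ] E) (p : E × E) : E × E →L[ℝ] E × E :=
  ((A p.1).comp (ContinuousLinearMap.fst ℝ E E)).prod
    (ContinuousLinearMap.snd ℝ E E +
      (Qf_Reg A p.1 ((A p.1).inverse p.2)).comp (ContinuousLinearMap.fst ℝ E E))

theorem pro_apply_Reg (A : E → E →L[ℝ] E) (p q : E × E) :
    pro_Reg A p q = (A p.1 q.1, q.2 + Qf_Reg A p.1 ((A p.1).inverse p.2) q.1) := rfl

variable [FiniteDimensional ℂ E]

theorem inv_Reg {L : E →L[ℝ] E} (h : Function.Injective L) : L.IsInvertible :=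
  ⟨(LinearEquiv.ofInjectiveEndo (L : E →ₗ[ℝ] E) h).toContinuousLinearEquiv, by
    ext v
    rfl⟩

theorem invSm_Reg {A : E → E →L[ℝ] E} {Ω : Set E} (h : Cofr A Ω) :
    ContDiffOn ℝ ∞ (fun x => (A x).inverse) Ω := by
  have : CompleteSpace E := FiniteDimensional.complete ℂ E
  intro x hx
  exact (inv_Reg (h.2.2 x hx)).contDiffAt_map_inverse.comp_contDiffWithinAt x (h.2.1 x hx)

omit [FiniteDimensional ℂ E] in
theorem dSm_Reg {A : E → E →L[ℝ] E} {Ω : Set E} (h : Cofr A Ω) :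
    ContDiffOn ℝ ∞ (fderiv ℝ A) Ω :=
  h.2.1.fderiv_of_isOpen h.1 le_rfl

omit [FiniteDimensional ℂ E] in
theorem QSm_Reg {A : E → E →L[ℝ] E} {Ω : Set E} (h : Cofr A Ω) {a b : E × E → E}
    (ha : ContDiffOn ℝ ∞ a (Ω ×ˢ univ)) (hb : ContDiffOn ℝ ∞ b (Ω ×ˢ univ)) :
    ContDiffOn ℝ ∞ (fun p : E × E => Qf_Reg A p.1 (a p) (b p)) (Ω ×ˢ univ) := by
  have h1 : ContDiffOn ℝ ∞ (fun p : E × E => fderiv ℝ A p.1) (Ω ×ˢ univ) :=
    (dSm_Reg h).comp contDiffOn_fst fun p hp => hp.1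
  simp only [Qf_apply_Reg]
  exact ((h1.clm_apply ha).clm_apply hb).sub ((h1.clm_apply hb).clm_apply ha)

theorem invSm2_Reg {A : E → E →L[ℝ] E} {Ω : Set E} (h : Cofr A Ω) :
    ContDiffOn ℝ ∞ (fun p : E × E => (A p.1).inverse) (Ω ×ˢ univ) :=
  (invSm_Reg h).comp contDiffOn_fst fun _ hp => hp.1

theorem GamSm_Reg {A : E → E →L[ℝ] E} {Ω : Set E} (h : Cofr A Ω) :
    ContDiffOn ℝ ∞ (Gam_Reg A) (Ω ×ˢ univ) :=
  (QSm_Reg h ((invSm2_Reg h).clm_apply contDiffOn_snd)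
    ((invSm2_Reg h).clm_apply (contDiffOn_snd.const_smul I))).const_smul _

theorem proCofr_Reg {A : E → E →L[ℝ] E} {Ω : Set E} (h : Cofr A Ω) :
    Cofr (pro_Reg A) (Ω ×ˢ univ) := by
  refine ⟨h.1.prod isOpen_univ, ?_, fun p hp => ?_⟩
  · rw [contDiffOn_clm_apply]
    intro q
    simp only [pro_apply_Reg]
    have h1 : ContDiffOn ℝ ∞ (fun p : E × E => A p.1) (Ω ×ˢ univ) :=
      h.2.1.comp contDiffOn_fst fun p hp => hp.1
    exact (h1.clm_apply contDiffOn_const).prodMk (contDiffOn_const.add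
      (QSm_Reg h ((invSm2_Reg h).clm_apply contDiffOn_snd) contDiffOn_const))
  · rw [injective_iff_map_eq_zero]
    intro q hq
    rw [pro_apply_Reg, Prod.mk_eq_zero] at hq
    have h1 : q.1 = 0 := (injective_iff_map_eq_zero _).1 (h.2.2 p.1 hp.1) _ hq.1
    have h2 := hq.2
    rw [h1, map_zero, add_zero] at h2
    exact Prod.ext h1 h2

theorem fder_Reg {A : E → E →L[ℝ] E} {Ω : Set E} {u : ℂ → E} {O : Set ℂ} (h : Cofr A Ω)
    (hm : MapsTo u O Ω) (hcr : CR A u O) {z : ℂ} (hz : z ∈ O) (w : ℂ) :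
    fderiv ℝ u z w = (A (u z)).inverse (w • tau_Reg A u z) := by
  have h1 : A (u z) (fderiv ℝ u z w) = w • tau_Reg A u z := by
    have e : w = w.re • (1 : ℂ) + w.im • I := by
      simp [re_add_im]
    have e2 : w • tau_Reg A u z = w.re • tau_Reg A u z + w.im • I • tau_Reg A u z := by
      conv_lhs => rw [e]
      rw [add_smul, smul_assoc, smul_assoc, one_smul]
    rw [e2]
    conv_lhs => rw [e]
    rw [map_add, map_smul, map_smul, map_add, map_smul, map_smul, hcr z hz]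
    rfl
  rw [← h1, (inv_Reg (h.2.2 _ (hm hz))).inverse_apply_self]

omit [FiniteDimensional ℂ E] in
theorem tauCont_Reg {A : E → E →L[ℝ] E} {Ω : Set E} {u : ℂ → E} {O : Set ℂ} (h : Cofr A Ω)
    (hO : IsOpen O) (hu : ContDiffOn ℝ 1 u O) (hm : MapsTo u O Ω) :
    ContinuousOn (tau_Reg A u) O :=
  (h.2.1.continuousOn.comp hu.continuousOn hm).clm_apply
    ((hu.continuousOn_fderiv_of_isOpen hO le_rfl).clm_apply continuousOn_const)

theorem Gam_eq_Reg {A : E → E →L[ℝ] E} {Ω : Set E} {u : ℂ → E} {O : Set ℂ} (h : Cofr A Ω)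
    (hm : MapsTo u O Ω) (hcr : CR A u O) {z : ℂ} (hz : z ∈ O) :
    (2 * I) • Gam_Reg A (u z, tau_Reg A u z) =
      Qf_Reg A (u z) (fderiv ℝ u z 1) (fderiv ℝ u z I) := by
  rw [fder_Reg h hm hcr hz 1, fder_Reg h hm hcr hz I, one_smul, Gam_Reg, smul_smul,
    mul_inv_cancel₀ (by simp), one_smul]

theorem weak_Reg (hG : GreenStmt) {A : E → E →L[ℝ] E} {Ω : Set E} {u : ℂ → E} {O : Set ℂ}
    (h : Cofr A Ω) (hO : IsOpen O) (hu : ContDiffOn ℝ 1 u O) (hm : MapsTo u O Ω)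
    (hcr : CR A u O) :
    Weak_Reg (tau_Reg A u) (fun z => Gam_Reg A (u z, tau_Reg A u z)) O := by
  have : CompleteSpace E := FiniteDimensional.complete ℂ E
  intro a b c d hab hcd hin
  have g := hG E E A Ω u O a b c d h.1 (h.2.1.of_le (by exact_mod_cast le_top)) hO hu hm hab hcd hin
  have hV : ∀ x ∈ Icc a b, (∫ y in c..d, A (u (x + y * I)) (fderiv ℝ u (x + y * I) I)) =
      I • ∫ y in c..d, tau_Reg A u (x + y * I) := by
    intro x hx
    rw [← intervalIntegral.integral_smul]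
    refine intervalIntegral.integral_congr fun y hy => ?_
    rw [uIcc_of_le hcd] at hy
    exact hcr _ (hin x hx y hy)
  rw [hV a (left_mem_Icc.2 hab), hV b (right_mem_Icc.2 hab)] at g
  refine g.trans ?_
  rw [← intervalIntegral.integral_smul]
  refine intervalIntegral.integral_congr fun x hx => ?_
  rw [uIcc_of_le hab] at hx
  simp only
  rw [← intervalIntegral.integral_smul]
  refine intervalIntegral.integral_congr fun y hy => ?_
  rw [uIcc_of_le hcd] at hy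
  exact (Gam_eq_Reg h hm hcr (hin x hx y hy)).symm

theorem step_Reg (h1 : T1Stmt) (h3 : T3Stmt) (h4 : T4Stmt) (hG : GreenStmt)
    {A : E → E →L[ℝ] E} {Ω : Set E} {u : ℂ → E} {O : Set ℂ}
    (h : Cofr A Ω) (hO : IsOpen O) (hu : ContDiffOn ℝ 1 u O) (hm : MapsTo u O Ω)
    (hcr : CR A u O) {z : ℂ} (hz : z ∈ O) :
    ContDiffAt ℝ 1 (tau_Reg A u) z ∧
      dbar (tau_Reg A u) z = Gam_Reg A (u z, tau_Reg A u z) := by
  have : CompleteSpace E := FiniteDimensional.complete ℂ E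
  have hτ := tauCont_Reg h hO hu hm
  have hp : ContinuousOn (fun z => (u z, tau_Reg A u z)) O := hu.continuousOn.prodMk hτ
  have hg : ContinuousOn (fun z => Gam_Reg A (u z, tau_Reg A u z)) O :=
    (GamSm_Reg h).continuousOn.comp hp fun z hz => ⟨hm hz, mem_univ _⟩
  have hW := weak_Reg hG h hO hu hm hcr
  refine weak_C1_Reg h1 h3 h4 hO hτ hg hW hz ?_
  have l1 := weak_LH_Reg h1 h4 hO hτ hg hW hz
  have l2 := LH_of_contDiffAt_Reg (hu.contDiffAt (hO.mem_nhds hz))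
  have l3 : ContDiffAt ℝ 1 (Gam_Reg A) (u z, tau_Reg A u z) :=
    ((GamSm_Reg h).contDiffAt ((h.1.prod isOpen_univ).mem_nhds ⟨hm hz, mem_univ _⟩)).of_le
      (by exact_mod_cast le_top)
  exact LH_comp_Reg (f := fun z => (u z, tau_Reg A u z)) l3 (hp.continuousAt (hO.mem_nhds hz))
    (LH_pair_Reg l2 l1)

theorem proCR_Reg (h1 : T1Stmt) (h3 : T3Stmt) (h4 : T4Stmt) (hG : GreenStmt)
    {A : E → E →L[ℝ] E} {Ω : Set E} {u : ℂ → E} {O : Set ℂ}
    (h : Cofr A Ω) (hO : IsOpen O) (hu : ContDiffOn ℝ 1 u O) (hm : MapsTo u O Ω)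
    (hcr : CR A u O) : CR (pro_Reg A) (fun z => (u z, tau_Reg A u z)) O := by
  intro z hz
  obtain ⟨k1, k2⟩ := step_Reg h1 h3 h4 hG h hO hu hm hcr hz
  have d1 : DifferentiableAt ℝ u z :=
    (hu.contDiffAt (hO.mem_nhds hz)).differentiableAt one_ne_zero
  have d2 := k1.differentiableAt one_ne_zero
  have e1 : (A (u z)).inverse (tau_Reg A u z) = fderiv ℝ u z 1 := by
    rw [fder_Reg h hm hcr hz 1, one_smul]
  have e2 := Gam_eq_Reg h hm hcr hz
  rw [← k2, dbar, smul_smul, smul_add, smul_smul] at e2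
  have e3 : (2 * I * (1 / 2) : ℂ) = I := by ring
  rw [e3, I_mul_I] at e2
  rw [d1.fderiv_prodMk d2]
  simp only [pro_apply_Reg, ContinuousLinearMap.prod_apply, Prod.smul_mk, e1]
  refine Prod.ext (hcr z hz) ?_
  simp only
  rw [← e2, Qf_apply_Reg, sub_self, add_zero, neg_smul, one_smul]
  abel

end

theorem ind_Reg (h1 : T1Stmt) (h3 : T3Stmt) (h4 : T4Stmt) (hG : GreenStmt) (k : ℕ) :
    ∀ (E : Type) [NormedAddCommGroup E] [NormedSpace ℂ E] [FiniteDimensional ℂ E]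
      (A : E → E →L[ℝ] E) (Ω : Set E) (u : ℂ → E) (O : Set ℂ), Cofr A Ω → IsOpen O →
      ContDiffOn ℝ 1 u O → MapsTo u O Ω → CR A u O → ContDiffOn ℝ k u O := by
  induction k with
  | zero =>
    intro E _ _ _ A Ω u O _ _ hu _ _
    exact hu.of_le (by simp)
  | succ k ih =>
    intro E _ _ _ A Ω u O h hO hu hm hcr
    have hτ : ContDiffOn ℝ 1 (tau_Reg A u) O := fun z hz =>
      (step_Reg h1 h3 h4 hG h hO hu hm hcr hz).1.contDiffWithinAt
    have k1 := ih (E × E) (pro_Reg A) (Ω ×ˢ univ) (fun z => (u z, tau_Reg A u z)) O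
      (proCofr_Reg h) hO (hu.prodMk hτ) (fun z hz => ⟨hm hz, mem_univ _⟩)
      (proCR_Reg h1 h3 h4 hG h hO hu hm hcr)
    rw [Nat.cast_succ, contDiffOn_succ_iff_fderiv_of_isOpen hO]
    refine ⟨hu.differentiableOn one_ne_zero, by simp, ?_⟩
    rw [contDiffOn_clm_apply]
    intro w
    have k2 : ContDiffOn ℝ k (fun z => (A (u z)).inverse) O :=
      ((invSm_Reg h).of_le (by exact_mod_cast le_top)).comp k1.fst hm
    exact (k2.clm_apply (k1.snd.const_smul w)).congr fun z hz => fder_Reg h hm hcr hz w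

theorem reg (h1 : T1Stmt) (_h2 : T2Stmt) (h3 : T3Stmt) (h4 : T4Stmt) (hG : GreenStmt) :
    RegStmt := by
  intro E _ _ _ A Ω u O h hO hu hm hcr
  rw [contDiffOn_infty]
  exact fun k => ind_Reg h1 h3 h4 hG k E A Ω u O h hO hu hm hcr

theorem chart_Reg (h : RegStmt) (φ : Fr) (U : W → V) (hU : IsLine φ.J U) (p e : W)
    (hne : ∀ z : ℂ, p + z • e ≠ 0) : ContDiff ℝ ∞ fun z : ℂ => U (p + z • e) := by
  have hl : ∀ z : ℂ, HasFDerivAt (fun z : ℂ => p + z • e)
      (((ContinuousLinearMap.id ℂ ℂ).smulRight e).restrictScalars ℝ) z := fun z =>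
    ((((ContinuousLinearMap.id ℂ ℂ).smulRight e).restrictScalars ℝ).hasFDerivAt).const_add p
  have hc : ContDiff ℝ 1 fun z : ℂ => p + z • e := by fun_prop
  have hd : ∀ z w : ℂ, fderiv ℝ (fun z : ℂ => U (p + z • e)) z w =
      fderiv ℝ U (p + z • e) (w • e) := by
    intro z w
    have d1 : DifferentiableAt ℝ U (p + z • e) :=
      (hU.c1.contDiffAt (isOpen_compl_singleton.mem_nhds (hne z))).differentiableAt one_ne_zero
    exact DFunLike.congr_fun (d1.hasFDerivAt.comp z (hl z) :).fderiv w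
  rw [← contDiffOn_univ]
  refine h V φ.A {0}ᶜ _ univ ⟨isOpen_compl_singleton, φ.smoothA, fun x hx => ?_⟩ isOpen_univ
    (hU.c1.comp hc.contDiffOn fun z _ => hne z) (fun z _ => hU.ne _ (hne z)) fun z _ => ?_
  · exact Function.LeftInverse.injective (φ.BA x hx)
  · rw [hd, hd, one_smul, hU.hol _ (hne z), Fr.J, φ.AB _ (hU.ne _ (hne z))]

theorem lineSmooth (h : RegStmt) : LineSmoothStmt := by
  intro φ U hU q hq
  apply ContDiffAt.contDiffWithinAt
  by_cases h1 : q.1 = 0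
  · have h2 : q.2 ≠ 0 := fun h2 => hq (Prod.ext h1 h2)
    have k := chart_Reg h φ U hU (0, 1) (1, 0) fun z hz => by simpa using congrArg Prod.snd hz
    have k1 : ContDiffAt ℝ ∞ (fun x : W => x.1 / x.2) q :=
      ((contDiffAt_fst (𝕜 := ℂ)).div contDiffAt_snd h2).restrict_scalars ℝ
    have k2 : ContDiffAt ℝ ∞
        (fun x : W => x.2 • U (((0, 1) : W) + (x.1 / x.2) • ((1, 0) : W))) q :=
      contDiffAt_snd.smul (k.contDiffAt.comp q k1)
    refine k2.congr_of_eventuallyEq ?_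
    filter_upwards [continuous_snd.continuousAt.eventually_ne h2] with x hx
    rw [← hU.hom]
    congr 1
    ext <;> simp [mul_div_cancel₀, hx]
  · have k := chart_Reg h φ U hU (1, 0) (0, 1) fun z hz => by simpa using congrArg Prod.fst hz
    have k1 : ContDiffAt ℝ ∞ (fun x : W => x.2 / x.1) q :=
      ((contDiffAt_snd (𝕜 := ℂ)).div contDiffAt_fst h1).restrict_scalars ℝ
    have k2 : ContDiffAt ℝ ∞
        (fun x : W => x.1 • U (((1, 0) : W) + (x.2 / x.1) • ((0, 1) : W))) q :=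
      contDiffAt_fst.smul (k.contDiffAt.comp q k1)
    refine k2.congr_of_eventuallyEq ?_
    filter_upwards [continuous_fst.continuousAt.eventually_ne h1] with x hx
    rw [← hU.hom]
    congr 1
    ext <;> simp [mul_div_cancel₀, hx]

end Pool.Agent.MP_2fc7fa_gt.N
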