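import Pool.Agent.MP_2fc7fa_gt.N.Est

/-! The inversion `w ↦ w • v (1 / w)` of a function that is holomorphic near infinity. -/

open scoped ContDiff ComplexConjugate Topology
open Set Complex Filter Metric MeasureTheory

noncomputable section

namespace Pool.Agent.MP_2fc7fa_gt.N

variable {T E : Type} [NormedAddCommGroup E]

/-- The annulus `1 / 5 < ‖z‖ < 3`. -/
def ann_SOp : Set ℂ := {z | 1 / 5 < ‖z‖ ∧ ‖z‖ < 3}

theorem glue_SOp {f : T → ℂ → E} (h : UB_Est Real.sqrt (fun _ => ball 0 (1 / 4)) f)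
    (h' : UB_Est Real.sqrt (fun _ => ann_SOp) f) : UB_Est Real.sqrt (fun _ => ball 0 3) f := by
  obtain ⟨K, k, h⟩ := h
  obtain ⟨K', k', h'⟩ := h'
  have hb : ∀ t, ∀ z ∈ ball (0 : ℂ) 3, ‖f t z‖ ≤ K + K' := fun t z hz => by
    by_cases h1 : ‖z‖ < 1 / 4
    · linarith [(h t).1 z (mem_ball_zero_iff.2 h1)]
    · linarith [(h' t).1 z ⟨by linarith, mem_ball_zero_iff.1 hz⟩]
  refine ub_mk_Est (fun d _ => Real.sqrt_nonneg d) (K + K') (10 * (K + K')) (by positivity)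
    (by positivity) hb fun t z hz z' hz' => ?_
  have hs := Real.sqrt_nonneg ‖z - z'‖
  by_cases h1 : ‖z‖ < 1 / 4 ∧ ‖z'‖ < 1 / 4
  · have := (h t).2 z (mem_ball_zero_iff.2 h1.1) z' (mem_ball_zero_iff.2 h1.2)
    nlinarith
  by_cases h2 : 1 / 5 < ‖z‖ ∧ 1 / 5 < ‖z'‖
  · have := (h' t).2 z ⟨h2.1, mem_ball_zero_iff.1 hz⟩ z' ⟨h2.2, mem_ball_zero_iff.1 hz'⟩
    nlinarith
  have h3 : 1 / 5 ≤ √‖z - z'‖ := by
    refine Real.le_sqrt_of_sq_le ?_
    have h4 := norm_sub_norm_le z z'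
    have h5 := norm_sub_norm_le z' z
    rw [norm_sub_rev] at h5
    rcases not_and_or.1 h1 with h1 | h1 <;> rcases not_and_or.1 h2 with h2 | h2 <;> linarith
  have h4 := norm_sub_le (f t z) (f t z')
  have h5 := hb t z hz
  have h6 := hb t z' hz'
  nlinarith

theorem inv_SOp {z z' : ℂ} (hz : z ∈ ann_SOp) (hz' : z' ∈ ann_SOp) :
    ‖z⁻¹ - z'⁻¹‖ ≤ 25 * ‖z - z'‖ := by
  have h1 := hz.1
  have h2 := hz'.1
  have h3 : z ≠ 0 := norm_pos_iff.1 (by linarith)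
  have h4 : z' ≠ 0 := norm_pos_iff.1 (by linarith)
  rw [inv_sub_inv h3 h4, norm_div, norm_mul, norm_sub_rev, div_le_iff₀ (by positivity)]
  have h5 : 1 ≤ 25 * (‖z‖ * ‖z'‖) := by nlinarith
  nlinarith [norm_nonneg (z - z')]

theorem ub_inv_SOp : UB_Est Real.sqrt (fun _ : T => ann_SOp) fun _ z => z⁻¹ :=
  (ub_mk_Est (w := id) (fun _ hd => hd) 5 25 (by norm_num) (by norm_num) (fun _ z hz => by
    rw [norm_inv]
    exact (inv_le_comm₀ (by linarith [hz.1]) (by norm_num)).2 (by linarith [hz.1]))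
    fun _ _ hz _ hz' => inv_SOp hz hz').sqrt

theorem ub_comp_SOp {f : T → ℂ → E} (h : UB_Est Real.sqrt (fun _ => univ) f) :
    UB_Est Real.sqrt (fun _ => ann_SOp) fun t z => f t z⁻¹ := by
  obtain ⟨K, k, h⟩ := h
  refine ub_mk_Est (fun d _ => Real.sqrt_nonneg d) K (K * 5) k (by positivity)
    (fun t z _ => (h t).1 _ trivial) fun t z hz z' hz' => ((h t).2 _ trivial _ trivial).trans ?_
  rw [mul_assoc]
  refine mul_le_mul_of_nonneg_left ((Real.sqrt_le_sqrt (inv_SOp hz hz')).trans_eq ?_) k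
  rw [Real.sqrt_mul (by norm_num), show (25 : ℝ) = 5 ^ 2 by norm_num, Real.sqrt_sq (by norm_num)]

theorem ub_id_SOp : UB_Est Real.sqrt (fun _ : T => ball 0 3) fun _ z => z :=
  (ub_mk_Est (w := id) (fun _ hd => hd) 3 1 (by norm_num) (by norm_num)
    (fun _ z hz => (mem_ball_zero_iff.1 hz).le) fun _ _ _ _ _ => (one_mul _).ge).sqrt

theorem ub_const_SOp {S : T → Set ℂ} {a : T → E} {K : ℝ} (hK : 0 ≤ K) (h : ∀ t, ‖a t‖ ≤ K) :
    UB_Est Real.sqrt S fun t _ => a t :=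
  ub_mk_Est (fun d _ => Real.sqrt_nonneg d) K 0 hK le_rfl (fun t _ _ => h t)
    fun t z _ z' _ => by simp

variable [NormedSpace ℂ E]

theorem ub_smul_SOp {S : T → Set ℂ} {a : T → ℂ → ℂ} {f : T → ℂ → E} (ha : UB_Est Real.sqrt S a)
    (hf : UB_Est Real.sqrt S f) : UB_Est Real.sqrt S fun t z => a t z • f t z :=
  (ha.clm (ContinuousLinearMap.lsmul ℝ ℂ : ℂ →L[ℝ] E →L[ℝ] E)).app hf
    fun d _ => Real.sqrt_nonneg d

theorem ub_clm_SOp {S : T → Set ℂ} {D : T → ℂ → ℂ →L[ℝ] E}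
    (h : ∀ x, UB_Est Real.sqrt S fun t z => D t z x) : UB_Est Real.sqrt S D :=
  (((h 1).clm (ContinuousLinearMap.smulRightL ℝ ℂ E reCLM)).add
    ((h I).clm (ContinuousLinearMap.smulRightL ℝ ℂ E imCLM))).congr
      fun t z _ => fderiv_eq_Est (D t z)

theorem real_SOp {f : ℂ → E} {z : ℂ} (hf : DifferentiableAt ℂ f z) (x : ℂ) :
    fderiv ℝ f z x = x • deriv f z := by
  rw [(hf.hasDerivAt.hasFDerivAt.restrictScalars ℝ).fderiv]
  rfl

theorem dbar_zero_SOp {f : ℂ → E} {z : ℂ} (hf : DifferentiableAt ℂ f z) : dbar f z = 0 := by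
  rw [dbar, real_SOp hf, real_SOp hf, smul_smul, I_mul_I, ← add_smul]
  simp

theorem hol_SOp {f : ℂ → E} {z : ℂ} (hf : DifferentiableAt ℝ f z) (h : dbar f z = 0) :
    DifferentiableAt ℂ f z := by
  refine differentiableAt_complex_iff_differentiableAt_real.2 ⟨hf, ?_⟩
  have h1 := (smul_eq_zero.1 h).resolve_left (by norm_num)
  rw [eq_neg_of_add_eq_zero_left h1, smul_neg, smul_smul, I_mul_I]
  simp

theorem conj_SOp (L : ℂ →L[ℝ] E) (a : ℂ) :
    L (a * 1) + I • L (a * I) = conj a • (L 1 + I • L I) := by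
  have e1 : a * 1 = a.re • (1 : ℂ) + a.im • I := by simp
  have e2 : a * I = (-a.im) • (1 : ℂ) + a.re • I := by
    apply Complex.ext <;> simp
  have e3 : conj a = (a.re : ℂ) - a.im * I := by
    apply Complex.ext <;> simp
  rw [e1, e2, e3, map_add, map_add, map_smul, map_smul, map_smul, map_smul]
  simp only [← Complex.coe_smul]
  match_scalars
  · ring
  · linear_combination (a.im : ℂ) * I_mul_I

/-- The inversion of a section of `O(1)`. -/
def inv1_SOp (v : ℂ → E) (w : ℂ) : E := w • v w⁻¹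

theorem fd_inv_SOp {v : ℂ → E} {z : ℂ} (hz : z ≠ 0) (hv : DifferentiableAt ℝ v z⁻¹) (x : ℂ) :
    fderiv ℝ (inv1_SOp v) z x = x • v z⁻¹ + z • fderiv ℝ v z⁻¹ (-(z⁻¹ * z⁻¹) * x) := by
  have h1 := (hasFDerivAt_id (𝕜 := ℝ) z).smul (hv.hasFDerivAt.comp z
    ((hasDerivAt_inv hz).hasFDerivAt.restrictScalars ℝ))
  rw [show fderiv ℝ (inv1_SOp v) z = _ from h1.fderiv, add_comm]
  show x • v z⁻¹ + z • fderiv ℝ v z⁻¹ (x • -(z ^ 2)⁻¹) = _
  rw [smul_eq_mul, mul_comm, sq, mul_inv]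

theorem dbar_inv_SOp {v : ℂ → E} {z : ℂ} (hz : z ≠ 0) (hv : DifferentiableAt ℝ v z⁻¹) :
    dbar (inv1_SOp v) z = -(z / conj z ^ 2) • dbar v z⁻¹ := by
  have h1 := conj_SOp (fderiv ℝ v z⁻¹) (-(z⁻¹ * z⁻¹))
  rw [dbar, dbar, fd_inv_SOp hz hv, fd_inv_SOp hz hv, eq_sub_of_add_eq h1, map_neg, map_mul,
    map_inv₀]
  match_scalars
  · linear_combination (1 / 2) * I_mul_I
  · ring
  · ring
  · ring

variable [CompleteSpace E]

theorem hol_inv_SOp {v : ℂ → E} {K : ℝ} (hv : Differentiable ℝ v) (hK : ∀ z, ‖v z‖ ≤ K)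
    (h0 : ∀ z, 3 ≤ ‖z‖ → dbar v z = 0) : DifferentiableOn ℂ (inv1_SOp v) (ball 0 (1 / 3)) := by
  refine (differentiableOn_compl_singleton_and_continuousAt_iff
    (ball_mem_nhds (0 : ℂ) (by norm_num))).1 ⟨fun z hz => ?_, ?_⟩
  · have h1 : z ≠ 0 := hz.2
    have h2 : 3 ≤ ‖z⁻¹‖ := by
      rw [norm_inv]
      exact (le_inv_comm₀ (by norm_num) (norm_pos_iff.2 h1)).2
        (by linarith [mem_ball_zero_iff.1 hz.1])
    exact (differentiableAt_id.smul ((hol_SOp (hv _) (h0 _ h2)).comp z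
      (differentiableAt_inv h1))).differentiableWithinAt
  · rw [ContinuousAt, inv1_SOp, zero_smul]
    refine squeeze_zero_norm (a := fun z => ‖z‖ * K) (fun z => ?_) ?_
    · rw [inv1_SOp, norm_smul]
      exact mul_le_mul_of_nonneg_left (hK _) (norm_nonneg _)
    · exact Continuous.tendsto' (by fun_prop) 0 0 (by simp)

theorem c1_inv_SOp {v : ℂ → E} {K : ℝ} (hv : ContDiff ℝ 1 v) (hK : ∀ z, ‖v z‖ ≤ K)
    (h0 : ∀ z, 3 ≤ ‖z‖ → dbar v z = 0) : ContDiff ℝ 1 (inv1_SOp v) := by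
  refine contDiff_iff_contDiffAt.2 fun z => ?_
  by_cases hz : z = 0
  · have h1 := (hol_inv_SOp (hv.differentiable one_ne_zero) hK h0).analyticAt
      (ball_mem_nhds (0 : ℂ) (by norm_num))
    rw [hz]
    exact h1.contDiffAt.restrict_scalars ℝ
  · exact contDiffAt_id.smul (hv.contDiffAt.comp z (contDiffAt_inv ℝ hz))

theorem ub_inv1_SOp {v : T → ℂ → E} (hv : ∀ t, Differentiable ℝ (v t))
    (h0 : ∀ t z, 3 ≤ ‖z‖ → dbar (v t) z = 0) (h1 : UB_Est Real.sqrt (fun _ => univ) v)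
    (h2 : UB_Est Real.sqrt (fun _ => univ) fun t => fderiv ℝ (v t)) :
    (UB_Est Real.sqrt (fun _ => ball 0 3) fun t => inv1_SOp (v t)) ∧
      UB_Est Real.sqrt (fun _ => ball 0 3) fun t => fderiv ℝ (inv1_SOp (v t)) := by
  have hs : ∀ _ : T, ann_SOp ⊆ ball 0 3 := fun _ z hz => mem_ball_zero_iff.2 hz.2
  have a1 := ub_comp_SOp h1
  have a2 := ub_comp_SOp h2
  obtain ⟨K, k, hK⟩ := h1
  have hd := fun t => hol_inv_SOp (hv t) (fun z => (hK t).1 z trivial) (h0 t)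
  have b1 := ub_hol_Est (c := fun _ => 0) (R' := 3 / 10) (by norm_num) K k hd fun t z hz => by
    rw [inv1_SOp, norm_smul]
    have := mem_ball_zero_iff.1 hz
    have := (hK t).1 z⁻¹ trivial
    nlinarith [norm_nonneg z, norm_nonneg (v t z⁻¹)]
  refine ⟨glue_SOp (b1.sqrt.mono fun _ => ball_subset_ball (by norm_num))
    (ub_smul_SOp (ub_id_SOp.mono hs) a1), ub_clm_SOp fun x => glue_SOp ?_ ?_⟩
  · obtain ⟨L, l, hL⟩ := b1
    have b2 := ub_hol_Est (c := fun _ => 0) (R := 3 / 10) (R' := 1 / 4) (by norm_num) L l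
      (fun t => ((hd t).deriv isOpen_ball).mono (ball_subset_ball (by norm_num))) fun t z hz =>
        norm_deriv_le_of_lip' l (mem_of_superset (isOpen_ball.mem_nhds hz)
          fun y hy => (hL t).2 y hy z hz)
    exact (ub_smul_SOp (ub_const_SOp (norm_nonneg x) fun _ => le_rfl) b2.sqrt).congr
      fun t z hz => real_SOp ((hd t).differentiableAt
        (isOpen_ball.mem_nhds (ball_subset_ball (by norm_num) hz))) x
  · have c1 : UB_Est Real.sqrt (fun _ : T => ann_SOp) fun _ z => -(z⁻¹ * z⁻¹) * x :=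
      (ub_smul_SOp (ub_smul_SOp ub_inv_SOp ub_inv_SOp)
        (ub_const_SOp (norm_nonneg (-x)) fun _ => le_rfl)).congr fun _ z _ => by
          simp only [smul_eq_mul, neg_mul, mul_neg]
    exact ((ub_smul_SOp (ub_const_SOp (norm_nonneg x) fun _ => le_rfl) a1).add
      (ub_smul_SOp (ub_id_SOp.mono hs) (a2.app c1 fun d _ => Real.sqrt_nonneg d))).congr
        fun t z hz => fd_inv_SOp (norm_pos_iff.1 (by linarith [hz.1])) (hv t _) x

end Pool.Agent.MP_2fc7fa_gt.N
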