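import Pool.Agent.MP_2fc7fa_gt.N.IfB

/-! Sup norm and Hoelder bounds of the Cauchy transform of a bounded function. -/

open scoped Topology
open Set Complex Filter Metric MeasureTheory

noncomputable section

namespace Pool.Agent.MP_2fc7fa_gt.N

/-- The truncated power kernel. -/
def ker_T1 (s : ℝ) (w : ℂ) : ℝ := (ball (0 : ℂ) 1).indicator (fun w => ‖w‖ ^ (-s)) w

theorem ker_nonneg_T1 (s : ℝ) (w : ℂ) : 0 ≤ ker_T1 s w :=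
  indicator_nonneg (fun w _ => Real.rpow_nonneg (norm_nonneg w) _) w

theorem ker_int_T1 {s : ℝ} (hs : s < 2) : Integrable (ker_T1 s) := by
  unfold ker_T1
  rw [integrable_indicator_iff measurableSet_ball]
  refine integrableOn_ball_of_norm_le_rpow (C := 1) (α := s) ?_ ?_ ?_ ?_
  · rw [Complex.finrank_real_complex]; norm_num
  · rw [Complex.finrank_real_complex]; exact_mod_cast hs
  · refine Eventually.of_forall fun w => ?_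
    rw [Real.norm_eq_abs, abs_of_nonneg (Real.rpow_nonneg (norm_nonneg w) _), one_mul]
  · exact (measurable_norm.pow_const _).aestronglyMeasurable

theorem scal_T1 {f : ℂ → ℝ} (hf : Integrable f) (z : ℂ) {R : ℝ} (hR : 0 < R) :
    Integrable (fun ζ => f (R⁻¹ • (z - ζ))) ∧ ∫ ζ, f (R⁻¹ • (z - ζ)) = R ^ 2 * ∫ w, f w := by
  refine ⟨(hf.comp_smul (inv_ne_zero hR.ne')).comp_sub_left z, ?_⟩
  rw [integral_sub_left_eq_self (fun w => f (R⁻¹ • w)) volume z,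
    Measure.integral_comp_inv_smul_of_nonneg volume f hR.le, Complex.finrank_real_complex,
    smul_eq_mul]

theorem maj_T1 {s : ℝ} (h0 : 0 ≤ s) (hs : s < 2) : ∃ A : ℝ, 0 ≤ A ∧ ∀ (z c : ℂ) (R : ℝ), 0 < R →
    ∃ g : ℂ → ℝ, Integrable g ∧ (∀ ζ, 0 ≤ g ζ) ∧
      (∀ ζ, ‖ζ - c‖ < R → ‖z - ζ‖ ^ (-s) ≤ g ζ) ∧ ∫ ζ, g ζ = A * R ^ (2 - s) := by
  refine ⟨(∫ w, ker_T1 s w) + ∫ w, ker_T1 0 w,
    add_nonneg (integral_nonneg (ker_nonneg_T1 s)) (integral_nonneg (ker_nonneg_T1 0)), ?_⟩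
  intro z c R hR
  obtain ⟨i1, e1⟩ := scal_T1 (ker_int_T1 hs) z hR
  obtain ⟨i2, e2⟩ := scal_T1 (ker_int_T1 (s := 0) (by norm_num)) c hR
  have hRs : 0 < R ^ (-s) := Real.rpow_pos_of_pos hR _
  refine ⟨fun ζ => R ^ (-s) * (ker_T1 s (R⁻¹ • (z - ζ)) + ker_T1 0 (R⁻¹ • (c - ζ))),
    (i1.add i2).const_mul _,
    fun ζ => mul_nonneg hRs.le (add_nonneg (ker_nonneg_T1 _ _) (ker_nonneg_T1 _ _)), ?_, ?_⟩
  · intro ζ hζ
    have hn : ∀ a : ℂ, ‖R⁻¹ • a‖ = R⁻¹ * ‖a‖ := fun a => by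
      rw [norm_smul, Real.norm_eq_abs, abs_of_pos (inv_pos.2 hR)]
    have hk0 : ker_T1 0 (R⁻¹ • (c - ζ)) = 1 := by
      unfold ker_T1
      rw [indicator_of_mem, neg_zero, Real.rpow_zero]
      rw [mem_ball_zero_iff, hn, norm_sub_rev, inv_mul_lt_iff₀ hR, mul_one]
      exact hζ
    beta_reduce
    rw [hk0]
    by_cases hz : ‖z - ζ‖ < R
    · have hk : ker_T1 s (R⁻¹ • (z - ζ)) = (R⁻¹ * ‖z - ζ‖) ^ (-s) := by
        unfold ker_T1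
        rw [indicator_of_mem, hn]
        rw [mem_ball_zero_iff, hn, inv_mul_lt_iff₀ hR, mul_one]
        exact hz
      have : R ^ (-s) * (R⁻¹ * ‖z - ζ‖) ^ (-s) = ‖z - ζ‖ ^ (-s) := by
        rw [← Real.mul_rpow hR.le (mul_nonneg (inv_pos.2 hR).le (norm_nonneg _)),
          mul_inv_cancel_left₀ hR.ne']
      rw [hk, mul_add, this]
      linarith
    · have h1 : ‖z - ζ‖ ^ (-s) ≤ R ^ (-s) :=
        Real.rpow_le_rpow_of_nonpos hR (not_lt.1 hz) (neg_nonpos.2 h0)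
      have h2 := mul_nonneg hRs.le (ker_nonneg_T1 s (R⁻¹ • (z - ζ)))
      rw [mul_add]
      linarith
  · rw [integral_const_mul, integral_add i1 i2, e1, e2, sub_eq_add_neg, Real.rpow_add hR,
      Real.rpow_two]
    ring

theorem inv_sub_T1 {a b : ℂ} (ha : a ≠ 0) (hb : b ≠ 0) :
    ‖a⁻¹ - b⁻¹‖ ≤ √‖a - b‖ * (‖a‖ ^ (-(3 / 2 : ℝ)) + ‖b‖ ^ (-(3 / 2 : ℝ))) := by
  have hp : ∀ x : ℝ, 0 < x → x ^ (-(3 / 2 : ℝ)) = (√x)⁻¹ ^ 3 := by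
    intro x hx
    rw [Real.sqrt_eq_rpow, ← Real.rpow_neg hx.le, ← Real.rpow_natCast, ← Real.rpow_mul hx.le]
    norm_num
  have hx : 0 < ‖a‖ := norm_pos_iff.2 ha
  have hy : 0 < ‖b‖ := norm_pos_iff.2 hb
  have e : ‖a⁻¹ - b⁻¹‖ = ‖a - b‖ * (‖a‖⁻¹ * ‖b‖⁻¹) := by
    rw [inv_sub_inv ha hb, norm_div, norm_mul, norm_sub_rev, div_eq_mul_inv, mul_inv]
  have hd : ‖a - b‖ ≤ ‖a‖ + ‖b‖ := norm_sub_le a b
  rw [e, hp _ hx, hp _ hy]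
  obtain ⟨u, hu, hu2⟩ : ∃ u : ℝ, 0 < u ∧ ‖a‖ = u ^ 2 :=
    ⟨√‖a‖, Real.sqrt_pos.2 hx, (Real.sq_sqrt hx.le).symm⟩
  obtain ⟨v, hv, hv2⟩ : ∃ v : ℝ, 0 < v ∧ ‖b‖ = v ^ 2 :=
    ⟨√‖b‖, Real.sqrt_pos.2 hy, (Real.sq_sqrt hy.le).symm⟩
  obtain ⟨d, hd0, hd2⟩ : ∃ d : ℝ, 0 ≤ d ∧ ‖a - b‖ = d ^ 2 :=
    ⟨√‖a - b‖, Real.sqrt_nonneg _, (Real.sq_sqrt (norm_nonneg _)).symm⟩
  rw [hu2, hv2, hd2] at hd
  rw [hu2, hv2, hd2, Real.sqrt_sq hu.le, Real.sqrt_sq hv.le, Real.sqrt_sq hd0]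
  have hduv : d ≤ u + v := by
    by_contra hc
    have hc := not_le.1 hc
    nlinarith [mul_pos hu hv]
  obtain ⟨p, hp0, hpu⟩ : ∃ p : ℝ, 0 < p ∧ p * u = 1 := ⟨u⁻¹, inv_pos.2 hu, inv_mul_cancel₀ hu.ne'⟩
  obtain ⟨q, hq0, hqv⟩ : ∃ q : ℝ, 0 < q ∧ q * v = 1 := ⟨v⁻¹, inv_pos.2 hv, inv_mul_cancel₀ hv.ne'⟩
  have eu : u⁻¹ = p := inv_eq_of_mul_eq_one_left hpu
  have ev : v⁻¹ = q := inv_eq_of_mul_eq_one_left hqv
  rw [← inv_pow, ← inv_pow, eu, ev]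
  have h1 : d * (p ^ 2 * q ^ 2) ≤ (u + v) * (p ^ 2 * q ^ 2) :=
    mul_le_mul_of_nonneg_right hduv (by positivity)
  have h2 : (u + v) * (p ^ 2 * q ^ 2) = p * q ^ 2 + p ^ 2 * q := by
    have : (u + v) * (p ^ 2 * q ^ 2) = (p * u) * (p * q ^ 2) + (q * v) * (p ^ 2 * q) := by ring
    rw [this, hpu, hqv]; ring
  have h3 : p * q ^ 2 + p ^ 2 * q ≤ p ^ 3 + q ^ 3 := by
    nlinarith [mul_nonneg (add_pos hp0 hq0).le (sq_nonneg (p - q))]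
  have h4 : d * (p ^ 2 * q ^ 2) ≤ p ^ 3 + q ^ 3 := by linarith
  calc d ^ 2 * (p ^ 2 * q ^ 2) = d * (d * (p ^ 2 * q ^ 2)) := by ring
    _ ≤ d * (p ^ 3 + q ^ 3) := mul_le_mul_of_nonneg_left h4 hd0

theorem pi_inv_T1 (a : ℂ) : ‖(Real.pi : ℂ)⁻¹ * a‖ ≤ ‖a‖ := by
  rw [norm_mul, norm_inv, Complex.norm_real, Real.norm_eq_abs, abs_of_pos Real.pi_pos]
  refine mul_le_of_le_one_left (norm_nonneg a) (inv_le_one_of_one_le₀ ?_)
  linarith [Real.pi_gt_three]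

section
variable {E : Type} [NormedAddCommGroup E] [NormedSpace ℂ E]

theorem bound_T1 {h : ℂ → E} {c : ℂ} {R M : ℝ} (hb : Bdd h c R M) {k : ℂ} {t : ℝ} {ζ : ℂ}
    (ht : 0 ≤ t) (hk : ‖ζ - c‖ < R → ‖k‖ ≤ t) : ‖k • h ζ‖ ≤ t * M := by
  have hM : 0 ≤ M := (norm_nonneg _).trans (hb.2.1 0)
  by_cases hζ : ‖ζ - c‖ < R
  · rw [norm_smul]
    exact mul_le_mul (hk hζ) (hb.2.1 ζ) (norm_nonneg _) ht
  · rw [hb.2.2 ζ (not_lt.1 hζ), smul_zero, norm_zero]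
    exact mul_nonneg ht hM

theorem ker_le_T1 {h : ℂ → E} {c : ℂ} {R M : ℝ} (hb : Bdd h c R M) {z : ℂ} {g : ℂ → ℝ}
    (h0 : ∀ ζ, 0 ≤ g ζ) (hg : ∀ ζ, ‖ζ - c‖ < R → ‖z - ζ‖ ^ (-(1 : ℝ)) ≤ g ζ) (ζ : ℂ) :
    ‖((Real.pi : ℂ) * (z - ζ))⁻¹ • h ζ‖ ≤ g ζ * M := by
  refine bound_T1 hb (h0 ζ) fun hζ => ?_
  rw [mul_inv]
  refine (pi_inv_T1 _).trans ?_
  rw [norm_inv, ← Real.rpow_neg_one]
  exact hg ζ hζ

theorem cT_int_T1 {h : ℂ → E} {c : ℂ} {R M : ℝ} (hR : 0 < R) (hb : Bdd h c R M) (z : ℂ) :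
    Integrable (fun ζ : ℂ => ((Real.pi : ℂ) * (z - ζ))⁻¹ • h ζ) := by
  obtain ⟨A, -, hA⟩ := maj_T1 (s := 1) (by norm_num) (by norm_num)
  obtain ⟨g, gi, g0, gk, -⟩ := hA z c R hR
  refine Integrable.mono' (gi.mul_const M) ?_ (Eventually.of_forall (ker_le_T1 hb g0 gk))
  refine AEStronglyMeasurable.smul ?_ hb.1
  exact ((measurable_const.mul (measurable_const.sub measurable_id)).inv).aestronglyMeasurable

end

theorem t1 : T1Stmt := by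
  obtain ⟨A, hA0, hA⟩ := maj_T1 (s := 1) (by norm_num) (by norm_num)
  obtain ⟨B, hB0, hB⟩ := maj_T1 (s := 3 / 2) (by norm_num) (by norm_num)
  refine ⟨A + 2 * B + 1, by positivity, ?_⟩
  intro E _ _ _ h c R M hR hb
  have hM : 0 ≤ M := (norm_nonneg _).trans (hb.2.1 0)
  refine ⟨fun z => ?_, fun z _ z' _ => ?_⟩
  · obtain ⟨g, gi, g0, gk, ge⟩ := hA z c R hR
    refine (norm_integral_le_of_norm_le (gi.mul_const M)
      (Eventually.of_forall (ker_le_T1 hb g0 gk))).trans ?_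
    rw [integral_mul_const, ge, show (2 : ℝ) - 1 = 1 by norm_num, Real.rpow_one]
    refine mul_le_mul_of_nonneg_right (mul_le_mul_of_nonneg_right ?_ hR.le) hM
    linarith
  · obtain ⟨g, gi, g0, gk, ge⟩ := hB z c R hR
    obtain ⟨g', gi', g0', gk', ge'⟩ := hB z' c R hR
    have hs : R ^ ((2 : ℝ) - 3 / 2) = √R := by
      rw [Real.sqrt_eq_rpow]; norm_num
    unfold cT
    rw [← integral_sub (cT_int_T1 hR hb z) (cT_int_T1 hR hb z')]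
    have hae : ∀ᵐ ζ : ℂ, ζ ≠ z ∧ ζ ≠ z' :=
      (Measure.ae_ne volume z).and (Measure.ae_ne volume z')
    refine (norm_integral_le_of_norm_le
      (g := fun ζ => (√‖z - z'‖ * (g ζ + g' ζ)) * M)
      (((gi.add gi').const_mul _).mul_const M) ?_).trans ?_
    · filter_upwards [hae] with ζ hζ
      rw [← sub_smul]
      refine bound_T1 hb (mul_nonneg (Real.sqrt_nonneg _) (add_nonneg (g0 ζ) (g0' ζ)))
        fun hc => ?_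
      rw [mul_inv, mul_inv, ← mul_sub]
      refine (pi_inv_T1 _).trans ?_
      refine (inv_sub_T1 (sub_ne_zero.2 hζ.1.symm) (sub_ne_zero.2 hζ.2.symm)).trans ?_
      rw [sub_sub_sub_cancel_right]
      exact mul_le_mul_of_nonneg_left (add_le_add (gk ζ hc) (gk' ζ hc)) (Real.sqrt_nonneg _)
    · rw [integral_mul_const, integral_const_mul, integral_add gi gi', ge, ge', hs]
      have h1 : 0 ≤ (A + 1) * (√R * M * √‖z - z'‖) := by positivity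
      nlinarith [h1]

end Pool.Agent.MP_2fc7fa_gt.N
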