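import Pool.Agent.MP_2fc7fa_gt.N.IfI
import Pool.Agent.MP_2fc7fa_gt.N.T1
import Pool.Agent.MP_2fc7fa_gt.N.SOpA

/-! Homogeneous maps given by their charts, and the Cauchy transform of a family. -/

open scoped ContDiff ComplexConjugate Topology
open Set Complex Filter Metric MeasureTheory

noncomputable section

namespace Pool.Agent.MP_2fc7fa_gt.N

variable {T E : Type} [NormedAddCommGroup E] [NormedSpace ℂ E]

theorem c1_at_SOp (a b : W →L[ℝ] ℂ) {v : ℂ → E} (hv : ContDiff ℝ 1 v) {q : W} (hq : a q ≠ 0) :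
    ContDiffAt ℝ 1 (fun p => a p • v (b p / a p)) q := by
  simp only [div_eq_mul_inv]
  exact a.contDiff.contDiffAt.smul (hv.contDiffAt.comp q
    (b.contDiff.contDiffAt.mul (a.contDiff.contDiffAt.inv hq)))

theorem c1_hom_SOp (a b : W →L[ℝ] ℂ) {v : ℂ → E} (hv : ContDiff ℝ 1 v)
    (hv' : ContDiff ℝ 1 (inv1_SOp v)) {q : W} (hq : a q ≠ 0 ∨ b q ≠ 0) :
    ContDiffAt ℝ 1 (fun p => a p • v (b p / a p)) q := by
  rcases hq with hq | hq
  · exact c1_at_SOp a b hv hq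
  · refine (c1_at_SOp b a hv' hq).congr_of_eventuallyEq
      ((b.continuous.continuousAt.eventually_ne hq).mono fun p hp => ?_)
    beta_reduce
    rw [inv1_SOp, inv_div, smul_smul, mul_div_cancel₀ _ hp]

theorem sph1_SOp (a b : W →L[ℝ] ℂ) (ha : ∀ p, ‖a p‖ ≤ ‖p‖) (hb : ∀ p, ‖b p‖ ≤ ‖p‖) {u : ℂ → E}
    {q : W} (hq : ‖a q‖ = 1) (hq' : ‖q‖ = 1) (hu : DifferentiableAt ℝ u (b q / a q)) {K : ℝ}
    (h1 : ‖u (b q / a q)‖ ≤ K) (h2 : ‖fderiv ℝ u (b q / a q)‖ ≤ K) :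
    ‖fderiv ℝ (fun p => a p • u (b p / a p)) q‖ ≤ 3 * K := by
  have h0 : a q ≠ 0 := norm_pos_iff.1 (by linarith)
  have k : 0 ≤ K := (norm_nonneg _).trans h1
  simp only [div_eq_mul_inv] at hu h1 h2 ⊢
  have d1 := b.hasFDerivAt.mul
    (((hasDerivAt_inv h0).hasFDerivAt.restrictScalars ℝ).comp q a.hasFDerivAt)
  have d2 := a.hasFDerivAt.smul (hu.hasFDerivAt.comp q d1)
  rw [show fderiv ℝ (fun p => a p • u (b p * (a p)⁻¹)) q = _ from d2.fderiv]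
  refine ContinuousLinearMap.opNorm_le_bound _ (by positivity) fun h => ?_
  show ‖a q • fderiv ℝ u (b q * (a q)⁻¹) (b q • (a h • -(a q ^ 2)⁻¹) + (a q)⁻¹ • b h) +
    a h • u (b q * (a q)⁻¹)‖ ≤ _
  have e1 : ‖b q • (a h • -(a q ^ 2)⁻¹) + (a q)⁻¹ • b h‖ ≤ 2 * ‖h‖ := by
    refine (norm_add_le _ _).trans ?_
    rw [norm_smul, norm_smul, norm_smul, norm_neg, norm_inv, norm_inv, norm_pow, hq]
    have := hb q
    have := ha h
    have := hb h
    have := norm_nonneg (a h)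
    norm_num
    nlinarith
  have e2 := (fderiv ℝ u (b q * (a q)⁻¹)).le_of_opNorm_le_of_le h2 e1
  have e3 := mul_le_mul (ha h) h1 (norm_nonneg _) (norm_nonneg _)
  refine (norm_add_le _ _).trans ?_
  rw [norm_smul, norm_smul, hq]
  linarith

theorem sph_SOp {η : W → E} (hh : ∀ (c : ℂ) q, η (c • q) = c • η q)
    (hd : ∀ i, Differentiable ℝ (η ∘ cc i)) {K : ℝ}
    (hK : ∀ i, ∀ z ∈ ball (0 : ℂ) 3, ‖η (cc i z)‖ ≤ K ∧ ‖fderiv ℝ (η ∘ cc i) z‖ ≤ K) {q : W}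
    (hq : ‖q‖ = 1) : ‖η q‖ ≤ 3 * K ∧ ‖fderiv ℝ η q‖ ≤ 3 * K := by
  have key : ∀ (i : Bool) (a b : W →L[ℝ] ℂ), (∀ p, ‖a p‖ ≤ ‖p‖) → (∀ p, ‖b p‖ ≤ ‖p‖) →
      (∀ p, a p ≠ 0 → p = a p • cc i (b p / a p)) → ‖a q‖ = 1 →
      ‖η q‖ ≤ 3 * K ∧ ‖fderiv ℝ η q‖ ≤ 3 * K := by
    intro i a b ha hb e h1
    have h0 : a q ≠ 0 := norm_pos_iff.1 (by linarith)
    have hz := hK i (b q / a q) (mem_ball_zero_iff.2 (by
      rw [norm_div, h1]
      linarith [hb q]))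
    have e' : ∀ p, a p ≠ 0 → η p = a p • (η ∘ cc i) (b p / a p) := fun p hp =>
      (congrArg η (e p hp)).trans (hh _ _)
    refine ⟨?_, ?_⟩
    · rw [e' q h0, norm_smul, h1, Function.comp_apply]
      linarith [hz.1, norm_nonneg (η (cc i (b q / a q)))]
    · rw [EventuallyEq.fderiv_eq ((a.continuous.continuousAt.eventually_ne h0).mono e')]
      exact sph1_SOp a b ha hb h1 hq (hd i _) hz.1 hz.2
  rcases max_choice ‖q.1‖ ‖q.2‖ with h | h
  · refine key false (ContinuousLinearMap.fst ℝ ℂ ℂ) (ContinuousLinearMap.snd ℝ ℂ ℂ) norm_fst_le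
      norm_snd_le (fun p hp => ?_) (h.symm.trans hq)
    exact Prod.ext (mul_one _).symm (mul_div_cancel₀ _ hp).symm
  · refine key true (ContinuousLinearMap.snd ℝ ℂ ℂ) (ContinuousLinearMap.fst ℝ ℂ ℂ) norm_snd_le
      norm_fst_le (fun p hp => ?_) (h.symm.trans hq)
    exact Prod.ext (mul_div_cancel₀ _ hp).symm (mul_one _).symm

omit [NormedSpace ℂ E] in
theorem bdd_SOp {g : ℂ → E} {K : ℝ} (h : HB K g univ) (h0 : ∀ z, 3 ≤ ‖z‖ → g z = 0) :
    Bdd g 0 3 K :=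
  ⟨h.continuous.aestronglyMeasurable, fun z => h.1 z trivial, fun z hz => h0 z (by simpa using hz)⟩

theorem cT_add_SOp {g g' : ℂ → E} {K K' : ℝ} (h : Bdd g 0 3 K) (h' : Bdd g' 0 3 K') (z : ℂ) :
    cT (fun z => g z + g' z) z = cT g z + cT g' z := by
  simp only [cT, smul_add]
  exact integral_add (cT_int_T1 (by norm_num) h z) (cT_int_T1 (by norm_num) h' z)

theorem cT_smul_SOp (c : ℝ) (g : ℂ → E) (z : ℂ) : cT (fun z => c • g z) z = c • cT g z := by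
  simp only [cT, smul_comm _ c]
  exact integral_smul c _

theorem rho_SOp (κ : Bumps) {h : T → ℂ → E} (hh : UB_Est Real.sqrt (fun _ => univ) h) :
    UB_Est Real.sqrt (fun _ => univ) fun t z => κ.ρ z • h t z := by
  have hs : HasCompactSupport κ.ρ := HasCompactSupport.intro (isCompact_closedBall 0 3)
    fun z hz => κ.zero' z (not_le.1 (mt mem_closedBall_zero_iff.2 hz)).le
  obtain ⟨K, hK⟩ := κ.sρ.continuous.bounded_above_of_compact_support hs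
  obtain ⟨L, hL⟩ := κ.sρ.lipschitzWith_of_hasCompactSupport hs (by simp)
  have h1 : UB_Est id (fun _ : T => univ) fun _ z => κ.ρ z :=
    ub_mk_Est (fun _ hd => hd) K L ((norm_nonneg _).trans (hK 0)) L.2 (fun _ z _ => hK z)
      fun _ z _ z' _ => hL.norm_sub_le z z'
  exact (h1.sqrt.clm (ContinuousLinearMap.lsmul ℝ ℝ : ℝ →L[ℝ] E →L[ℝ] E)).app hh
    fun d _ => Real.sqrt_nonneg d

theorem cT_SOp [CompleteSpace E] (h1 : T1Stmt) (h3 : T3Stmt) {g : T → ℂ → E}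
    (hg : UB_Est Real.sqrt (fun _ => univ) g) (h0 : ∀ t z, 3 ≤ ‖z‖ → g t z = 0) :
    (∀ t, ContDiff ℝ 1 (cT (g t)) ∧ ∀ z, dbar (cT (g t)) z = g t z) ∧
      (UB_Est Real.sqrt (fun _ => univ) fun t => cT (g t)) ∧
      UB_Est Real.sqrt (fun _ => univ) fun t => fderiv ℝ (cT (g t)) := by
  obtain ⟨K, k, hK⟩ := hg
  obtain ⟨C, c, h1⟩ := h1
  obtain ⟨C', c', h3⟩ := h3 3 (by norm_num)
  have a1 := fun t => h1 E (g t) 0 3 K (by norm_num) (bdd_SOp (hK t) (h0 t))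
  have a3 := fun t => h3 E (g t) 0 K K (bdd_SOp (hK t) (h0 t)) k (hK t).2
  exact ⟨fun t => ⟨(a3 t).1, (a3 t).2.1⟩,
    ub_mk_Est (fun d _ => Real.sqrt_nonneg d) _ _ (by positivity) (by positivity)
      (fun t z _ => (a1 t).1 z) fun t => (a1 t).2,
    ub_mk_Est (fun d _ => Real.sqrt_nonneg d) _ _ (by positivity) (by positivity)
      (fun t z _ => (a3 t).2.2.1 z) fun t => (a3 t).2.2.2⟩

theorem dbar_add_SOp {u v : ℂ → E} {z : ℂ} (hu : DifferentiableAt ℝ u z)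
    (hv : DifferentiableAt ℝ v z) : dbar (fun y => u y + v y) z = dbar u z + dbar v z := by
  rw [dbar, dbar, dbar, fderiv_fun_add hu hv, add_apply, add_apply]
  module

theorem ub_fd_add_SOp {S : T → Set ℂ} {u v : T → ℂ → E} (hu : ∀ t, Differentiable ℝ (u t))
    (hv : ∀ t, Differentiable ℝ (v t)) (h : UB_Est Real.sqrt S fun t => fderiv ℝ (u t))
    (h' : UB_Est Real.sqrt S fun t => fderiv ℝ (v t)) :
    UB_Est Real.sqrt S fun t => fderiv ℝ fun y => u t y + v t y :=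
  (h.add h').congr fun t z _ => fderiv_fun_add (hu t z) (hv t z)

end Pool.Agent.MP_2fc7fa_gt.N
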