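import Pool.Agent.MP_2fc7fa_gt.N.IfI
import Pool.Agent.MP_2fc7fa_gt.N.SOpB

/-! The right inverse of the Cauchy-Riemann operator on sections of `O(1)³`. -/

open scoped ContDiff ComplexConjugate Topology
open Set Complex Filter Metric MeasureTheory

noncomputable section

namespace Pool.Agent.MP_2fc7fa_gt.N

variable {T : Type}

theorem chart_SOp (κ : Bumps) (h : Bool → ℂ → V) (i : Bool) : raw κ h ∘ cc i =
    fun z => cT (fun w => κ.ρ w • h i w) z + inv1_SOp (cT fun w => κ.ρ w • h (!i) w) z := by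
  funext z
  cases i <;> simp [raw, cc, inv1_SOp, add_comm]

theorem flip_SOp {E : Type} [NormedAddCommGroup E] {S : Set ℂ} {f : T × Bool → ℂ → E}
    (h : UB_Est Real.sqrt (fun _ => S) f) :
    UB_Est Real.sqrt (fun _ => S) fun p : T × Bool => f (p.1, !p.2) :=
  h.imp fun _ hK => ⟨hK.1, fun _ => hK.2 _⟩

theorem raw_SOp (h1 : T1Stmt) (h3 : T3Stmt) (κ : Bumps) {h : T → Bool → ℂ → V}
    (hh : UB_Est Real.sqrt (fun _ => univ) fun p : T × Bool => h p.1 p.2) :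
    (∀ t, Hom1 (raw κ (h t)) ∧ (∀ i, Differentiable ℝ (raw κ (h t) ∘ cc i)) ∧
      ∀ i z, dbar (raw κ (h t) ∘ cc i) z =
        κ.ρ z • h t i z + tr (fun w => κ.ρ w • h t (!i) w) z) ∧
    (UB_Est Real.sqrt (fun _ => ball 0 3) fun p : T × Bool => raw κ (h p.1) ∘ cc p.2) ∧
    UB_Est Real.sqrt (fun _ => ball 0 3)
      fun p : T × Bool => fderiv ℝ (raw κ (h p.1) ∘ cc p.2) := by
  have h0 : ∀ (p : T × Bool) z, 3 ≤ ‖z‖ → κ.ρ z • h p.1 p.2 z = 0 := fun p z hz => by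
    rw [κ.zero' z hz, zero_smul]
  obtain ⟨a1, a2, a3⟩ := cT_SOp h1 h3 (rho_SOp κ hh) h0
  have d1 := fun p => (a1 p).1.differentiable one_ne_zero
  have z1 := fun p z hz => ((a1 p).2 z).trans (h0 p z hz)
  obtain ⟨b2, b3⟩ := ub_inv1_SOp d1 z1 a2 a3
  obtain ⟨K, -, hK⟩ := id a2
  have c1 := fun p => c1_inv_SOp (a1 p).1 (fun z => (hK p).1 z trivial) (z1 p)
  have d2 := fun p => (c1 p).differentiable one_ne_zero
  simp only [chart_SOp]
  refine ⟨fun t => ⟨⟨fun q hq => ?_, fun c q => ?_⟩, fun i => (d1 (t, i)).add (d2 (t, !i)),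
    fun i z => ?_⟩, (a2.mono fun _ => subset_univ _).add (flip_SOp b2),
    ub_fd_add_SOp d1 (fun p => d2 (p.1, !p.2)) (a3.mono fun _ => subset_univ _) (flip_SOp b3)⟩
  · have hq' : q.1 ≠ 0 ∨ q.2 ≠ 0 := not_and_or.1 fun h => hq (Prod.ext h.1 h.2)
    exact ((c1_hom_SOp (ContinuousLinearMap.fst ℝ ℂ ℂ) (ContinuousLinearMap.snd ℝ ℂ ℂ)
      (a1 (t, false)).1 (c1 (t, false)) hq').add
      (c1_hom_SOp (ContinuousLinearMap.snd ℝ ℂ ℂ) (ContinuousLinearMap.fst ℝ ℂ ℂ)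
        (a1 (t, true)).1 (c1 (t, true)) hq'.symm)).contDiffWithinAt
  · by_cases hc : c = 0
    · simp [hc, raw]
    · simp only [raw, Prod.smul_fst, Prod.smul_snd, smul_eq_mul, mul_div_mul_left _ _ hc, smul_add,
        mul_smul]
  · rw [dbar_add_SOp (d1 (t, i) z) (d2 (t, !i) z), (a1 (t, i)).2]
    congr 1
    by_cases hz : z = 0
    · rw [hz, dbar_zero_SOp ((hol_inv_SOp (d1 (t, !i)) (fun z => (hK _).1 z trivial)
        (z1 _)).differentiableAt (ball_mem_nhds _ (by norm_num)))]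
      simp [tr]
    · rw [dbar_inv_SOp hz (d1 (t, !i) _), (a1 (t, !i)).2]
      rfl

theorem diff_SOp {U : W → V} (h : Hom1 U) : DifferentiableAt ℝ U (1, 0) :=
  (h.1.contDiffAt (isOpen_compl_singleton.mem_nhds (by simp))).differentiableAt one_ne_zero

theorem con_add_SOp (b : Bool) {U U' : W → V} (h : Hom1 U) (h' : Hom1 U') :
    con b (U + U') = con b U + con b U' := by
  cases b
  · simp only [con, jet, fderiv_add (diff_SOp h) (diff_SOp h')]
    rfl
  · rfl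

theorem con_smul_SOp (b : Bool) (c : ℝ) (U : W → V) : con b (c • U) = c • con b U := by
  cases b
  · simp only [con, jet, fderiv_const_smul_field]
    rfl
  · rfl

theorem linM_hom_SOp (m : V × V) : Hom1 (linM m) :=
  ⟨(by unfold linM; fun_prop : ContDiff ℝ 1 (linM m)).contDiffOn, fun c q => by
    simp only [linM, Prod.smul_fst, Prod.smul_snd, smul_eq_mul, smul_add, mul_smul]⟩

theorem con_linM_SOp (b : Bool) (m : V × V) : con b (linM m) = m := by
  have h : HasFDerivAt (linM m) _ ((1 : ℂ), (0 : ℂ)) :=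
    (hasFDerivAt_fst (𝕜 := ℝ).smul_const m.1).add (hasFDerivAt_snd.smul_const m.2)
  cases b <;> simp [con, jet, h.fderiv, linM]

theorem linM_chart_SOp (m : V × V) (i : Bool) :
    linM m ∘ cc i = fun z => z • (if i then m.1 else m.2) + if i then m.2 else m.1 := by
  funext z
  cases i <;> simp [linM, cc, add_comm]

theorem aff_SOp (x y : V) (z : ℂ) : HasDerivAt (fun z : ℂ => z • x + y) x z := by
  simpa using ((hasDerivAt_id z).smul_const x).add_const y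

theorem sec_SOp (h1 : T1Stmt) (h3 : T3Stmt) (κ : Bumps) (b : Bool) {h : T → Bool → ℂ → V}
    {m : T → V × V} {M : ℝ} (hM : 0 ≤ M) (hh : ∀ t i, HB M (h t i) univ) (hm : ∀ t, ‖m t‖ ≤ M) :
    (∀ t, Hom1 (sec1 κ b (h t) (m t)) ∧ con b (sec1 κ b (h t) (m t)) = m t ∧
      ∀ i z, dbar (sec1 κ b (h t) (m t) ∘ cc i) z =
        κ.ρ z • h t i z + tr (fun w => κ.ρ w • h t (!i) w) z) ∧
    ∃ C : ℝ, 0 < C ∧ ∀ t, (∀ i, HB C (jc (sec1 κ b (h t) (m t)) i) (ball 0 3)) ∧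
      ∀ q : W, ‖q‖ = 1 → ‖sec1 κ b (h t) (m t) q‖ ≤ C ∧ ‖fderiv ℝ (sec1 κ b (h t) (m t)) q‖ ≤ C := by
  obtain ⟨a1, a2, a3⟩ := raw_SOp h1 h3 κ (h := h) ⟨M, hM, fun p => hh p.1 p.2⟩
  obtain ⟨L, l, hL⟩ : ∃ L : ℝ, 0 ≤ L ∧ ∀ t, ‖m t - con b (raw κ (h t))‖ ≤ L := by
    obtain ⟨K, k, hK⟩ := a2
    obtain ⟨K', k', hK'⟩ := a3
    refine ⟨M + 3 * (K + K'), by positivity, fun t =>
      (norm_sub_le _ _).trans (add_le_add (hm t) ?_)⟩
    have s := fun q => sph_SOp (K := K + K') (q := q) (a1 t).1.2 (a1 t).2.1 fun i z hz =>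
      ⟨((hK (t, i)).1 z hz).trans (le_add_of_nonneg_right k'),
        ((hK' (t, i)).1 z hz).trans (le_add_of_nonneg_left k)⟩
    have n1 : ‖((1, 0) : W)‖ = 1 := by simp
    have n2 : ‖((0, 1) : W)‖ = 1 := by simp
    cases b
    · exact norm_prod_le_iff.2 ⟨(s _ n1).1,
        (ContinuousLinearMap.le_of_opNorm_le_of_le _ (s _ n1).2 n2.le).trans_eq (mul_one _)⟩
    · exact norm_prod_le_iff.2 ⟨(s _ n1).1, (s _ n2).1⟩
  have hx : ∀ (p : T × Bool) (i : Bool), ‖if i then (m p.1 - con b (raw κ (h p.1))).1 else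
      (m p.1 - con b (raw κ (h p.1))).2‖ ≤ L := fun p i => by
    cases i
    · exact (norm_snd_le _).trans (hL _)
    · exact (norm_fst_le _).trans (hL _)
  have e : ∀ t i, sec1 κ b (h t) (m t) ∘ cc i =
      fun z => (raw κ (h t) ∘ cc i) z + (linM (m t - con b (raw κ (h t))) ∘ cc i) z :=
    fun _ _ => rfl
  have dC : ∀ (x : V × V) i, Differentiable ℂ (linM x ∘ cc i) := fun x i z => by
    rw [linM_chart_SOp]
    exact (aff_SOp _ _ z).differentiableAt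
  have dR := fun x i => (dC x i).restrictScalars ℝ
  have hom : ∀ t, Hom1 (sec1 κ b (h t) (m t)) := fun t =>
    ⟨(a1 t).1.1.add (linM_hom_SOp _).1, fun c q => by
      simp only [sec1, (a1 t).1.2, (linM_hom_SOp _).2, smul_add]⟩
  have b2 : UB_Est Real.sqrt (fun _ => ball 0 3)
      fun p : T × Bool => sec1 κ b (h p.1) (m p.1) ∘ cc p.2 := by
    refine a2.add (((ub_smul_SOp ub_id_SOp (ub_const_SOp l fun p => hx p p.2)).add
      (ub_const_SOp l fun p => hx p (!p.2))).congr fun p z _ => ?_)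
    refine (congrFun (linM_chart_SOp _ p.2) z).trans ?_
    cases p.2 <;> rfl
  have b3 : UB_Est Real.sqrt (fun _ => ball 0 3)
      fun p : T × Bool => fderiv ℝ (sec1 κ b (h p.1) (m p.1) ∘ cc p.2) := by
    refine ub_fd_add_SOp (fun p => (a1 p.1).2.1 p.2) (fun p => dR _ p.2) a3 (ub_clm_SOp fun x =>
      (ub_smul_SOp (ub_const_SOp (norm_nonneg x) fun _ => le_rfl)
        (ub_const_SOp l fun p => hx p p.2)).congr fun p z _ => ?_)
    refine (real_SOp (dC _ p.2 z) x).trans ?_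
    rw [linM_chart_SOp, (aff_SOp _ _ z).deriv]
  obtain ⟨K, k, hK⟩ := (b2.clm (ContinuousLinearMap.inl ℝ V (ℂ →L[ℝ] V))).add
    (b3.clm (ContinuousLinearMap.inr ℝ V (ℂ →L[ℝ] V)))
  have hj : ∀ t i, HB K (jc (sec1 κ b (h t) (m t)) i) (ball 0 3) := fun t i => by
    simpa [HB, Hol, jc] using hK (t, i)
  refine ⟨fun t => ⟨hom t, ?_, fun i z => ?_⟩, 3 * K + 1, by positivity, fun t =>
    ⟨fun i => ⟨fun z hz => ((hj t i).1 z hz).trans (by linarith), fun z hz z' hz' =>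
      ((hj t i).2 z hz z' hz').trans
        (mul_le_mul_of_nonneg_right (by linarith) (Real.sqrt_nonneg _))⟩, fun q hq => ?_⟩⟩
  · rw [show sec1 κ b (h t) (m t) = raw κ (h t) + linM (m t - con b (raw κ (h t))) from rfl,
      con_add_SOp b (a1 t).1 (linM_hom_SOp _), con_linM_SOp, add_sub_cancel]
  · rw [e, dbar_add_SOp ((a1 t).2.1 i z) (dR _ i z), dbar_zero_SOp (dC _ i z), add_zero,
      (a1 t).2.2]
  · have s := sph_SOp (hom t).2 (fun i => ((a1 t).2.1 i).add (dR _ i))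
      (fun i z hz => norm_prod_le_iff.1 ((hj t i).1 z hz)) hq
    exact ⟨s.1.trans (by linarith), s.2.trans (by linarith)⟩

theorem smul_SOp (κ : Bumps) (b : Bool) (c : ℝ) (h : Bool → ℂ → V) (m : V × V) :
    sec1 κ b (c • h) (c • m) = c • sec1 κ b h m := by
  have e : raw κ (c • h) = c • raw κ h := by
    funext q
    simp only [raw, Pi.smul_apply, smul_comm (κ.ρ _) c, cT_smul_SOp, smul_add, smul_comm _ c]
  funext q
  simp only [sec1, e, con_smul_SOp, ← smul_sub, linM, Pi.smul_apply, smul_add, Prod.smul_fst,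
    Prod.smul_snd, smul_comm _ c]

theorem add_SOp (h1 : T1Stmt) (h3 : T3Stmt) (κ : Bumps) (b : Bool) {h h' : Bool → ℂ → V}
    (m m' : V × V) {M : ℝ} (hh : ∀ i, HB M (h i) univ) (hh' : ∀ i, HB M (h' i) univ) :
    sec1 κ b (h + h') (m + m') = sec1 κ b h m + sec1 κ b h' m' := by
  have hM : 0 ≤ M := (norm_nonneg _).trans ((hh true).1 0 trivial)
  have key : ∀ h : Bool → ℂ → V, (∀ i, HB M (h i) univ) →
      Hom1 (raw κ h) ∧ ∃ K, ∀ i, Bdd (fun z => κ.ρ z • h i z) 0 3 K := fun h hh => by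
    obtain ⟨K, -, hK⟩ := rho_SOp κ (h := h) ⟨M, hM, hh⟩
    exact ⟨((raw_SOp h1 h3 κ (h := fun _ : Unit => h) ⟨M, hM, fun p => hh p.2⟩).1 ()).1, K,
      fun i => bdd_SOp (hK i) fun z hz => by rw [κ.zero' z hz, zero_smul]⟩
  obtain ⟨a, K, hK⟩ := key h hh
  obtain ⟨a', K', hK'⟩ := key h' hh'
  have e : raw κ (h + h') = raw κ h + raw κ h' := by
    funext q
    simp only [raw, Pi.add_apply, smul_add, cT_add_SOp (hK _) (hK' _)]
    abel
  funext q
  simp only [sec1, e, con_add_SOp b a a', linM, Pi.add_apply, Prod.fst_sub, Prod.snd_sub,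
    Prod.fst_add, Prod.snd_add]
  module

theorem hb_smul_SOp {E : Type} [NormedAddCommGroup E] [NormedSpace ℝ E] {f : ℂ → E} {S : Set ℂ}
    {K c : ℝ} (hc : 0 ≤ c) (h : HB K f S) : HB (K * c) (c • f) S := by
  refine ⟨fun z hz => ?_, fun z hz z' hz' => ?_⟩
  · rw [Pi.smul_apply, norm_smul, Real.norm_of_nonneg hc, mul_comm]
    exact mul_le_mul_of_nonneg_right (h.1 z hz) hc
  · rw [Pi.smul_apply, Pi.smul_apply, ← smul_sub, norm_smul, Real.norm_of_nonneg hc, mul_comm,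
      mul_right_comm]
    exact mul_le_mul_of_nonneg_right (h.2 z hz z' hz') hc

theorem sS (h1 : T1Stmt) (h3 : T3Stmt) : SStmt := by
  intro κ b
  obtain ⟨C, c, hC⟩ := (sec_SOp h1 h3 κ b
    (T := {p : (Bool → ℂ → V) × (V × V) // (∀ i, HB 1 (p.1 i) univ) ∧ ‖p.2‖ ≤ 1})
    (h := fun t => t.1.1) (m := fun t => t.1.2) zero_le_one (fun t => t.2.1) fun t => t.2.2).2
  refine ⟨C, c, fun h m M hh hm => ?_, fun h h' m m' M c hh hh' =>
    ⟨add_SOp h1 h3 κ b m m' hh hh', smul_SOp κ b c h m⟩⟩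
  have hM : 0 ≤ M := (norm_nonneg _).trans hm
  obtain ⟨a1, a2, a3⟩ := (sec_SOp h1 h3 κ b (h := fun _ : Unit => h) (m := fun _ => m) hM
    (fun _ => hh) fun _ => hm).1 ()
  obtain ⟨h', m', hh', hm', e, e'⟩ : ∃ (h' : Bool → ℂ → V) (m' : V × V),
      (∀ i, HB 1 (h' i) univ) ∧ ‖m'‖ ≤ 1 ∧ h = M • h' ∧ m = M • m' := by
    rcases hM.eq_or_lt with rfl | hM'
    · refine ⟨0, 0, fun i => ⟨by simp, fun z _ z' _ => by simp⟩, by simp, ?_, ?_⟩
      · funext i z
        simpa using (hh i).1 z trivial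
      · simpa using hm
    · refine ⟨M⁻¹ • h, M⁻¹ • m, fun i => ?_, ?_, (smul_inv_smul₀ hM'.ne' h).symm,
        (smul_inv_smul₀ hM'.ne' m).symm⟩
      · simpa [mul_inv_cancel₀ hM'.ne'] using hb_smul_SOp (inv_nonneg.2 hM) (hh i)
      · rw [norm_smul, norm_inv, Real.norm_of_nonneg hM, inv_mul_le_iff₀ hM', mul_one]
        exact hm
  obtain ⟨b1, b2⟩ := hC ⟨(h', m'), hh', hm'⟩
  refine ⟨a1, a2, ?_, ?_, a3⟩ <;> rw [e, e', smul_SOp]
  · intro i
    have e2 : jc (M • sec1 κ b h' m') i = M • jc (sec1 κ b h' m') i := by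
      funext z
      exact Prod.ext rfl (congrFun (fderiv_const_smul_field (f := sec1 κ b h' m' ∘ cc i) M) z)
    rw [e2]
    exact hb_smul_SOp hM (b1 i)
  · intro q hq
    rw [fderiv_const_smul_field, Pi.smul_apply, Pi.smul_apply, norm_smul, norm_smul,
      Real.norm_of_nonneg hM, mul_comm C]
    exact ⟨mul_le_mul_of_nonneg_left (b2 q hq).1 hM, mul_le_mul_of_nonneg_left (b2 q hq).2 hM⟩

end Pool.Agent.MP_2fc7fa_gt.N
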