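import Pool.Agent.MP_2fc7fa_gt.N.IfI
import Pool.Agent.MP_2fc7fa_gt.N.Trans

/-! A line that is close to a given line has a small Hoelder jet. -/

open scoped ContDiff ComplexConjugate Topology NNReal
open Set Complex Filter Metric

noncomputable section

namespace Pool.Agent.MP_2fc7fa_gt.N

/-- Bounded by `s` and Lipschitz with constant `L` on the ball of radius three. -/
def BL_Small {E : Type} [NormedAddCommGroup E] (s L : ℝ) (f : ℂ → E) : Prop :=
  (∀ z ∈ ball (0 : ℂ) 3, ‖f z‖ ≤ s) ∧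
    ∀ z ∈ ball (0 : ℂ) 3, ∀ z' ∈ ball (0 : ℂ) 3, ‖f z - f z'‖ ≤ L * ‖z - z'‖

section
variable {E F G : Type} [NormedAddCommGroup E] [NormedAddCommGroup F] [NormedAddCommGroup G]

theorem nonneg_Small {s L : ℝ} {f : ℂ → E} (h : BL_Small s L f) : 0 ≤ s :=
  (norm_nonneg _).trans (h.1 0 (mem_ball_self (by norm_num)))

theorem bil_Small (B : E → F → G) (h1 : ∀ x y, ‖B x y‖ ≤ ‖x‖ * ‖y‖)
    (h2 : ∀ x x' y y', B x y - B x' y' = B x (y - y') + B (x - x') y') {s L s' L' : ℝ}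
    {f : ℂ → E} {g : ℂ → F} (hf : BL_Small s L f) (hg : BL_Small s' L' g) :
    BL_Small (s * s') (s * L' + L * s') fun z => B (f z) (g z) := by
  have p := nonneg_Small hf
  refine ⟨fun z hz => (h1 _ _).trans (mul_le_mul (hf.1 z hz) (hg.1 z hz) (norm_nonneg _) p),
    fun z hz z' hz' => ?_⟩
  have a := (h1 (f z) (g z - g z')).trans
    (mul_le_mul (hf.1 z hz) (hg.2 z hz z' hz') (norm_nonneg _) p)
  have b := (h1 (f z - f z') (g z')).trans
    (mul_le_mul (hf.2 z hz z' hz') (hg.1 z' hz') (norm_nonneg _)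
      ((norm_nonneg _).trans (hf.2 z hz z' hz')))
  simp only
  rw [h2]
  refine (norm_add_le _ _).trans ?_
  linarith

theorem add_Small {s L s' L' : ℝ} {f g : ℂ → E} (hf : BL_Small s L f) (hg : BL_Small s' L' g) :
    BL_Small (s + s') (L + L') fun z => f z + g z := by
  refine ⟨fun z hz => (norm_add_le _ _).trans (add_le_add (hf.1 z hz) (hg.1 z hz)),
    fun z hz z' hz' => ?_⟩
  simp only
  rw [add_sub_add_comm, add_mul]
  exact (norm_add_le _ _).trans (add_le_add (hf.2 z hz z' hz') (hg.2 z hz z' hz'))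

theorem prod_Small {s L s' L' : ℝ} {f : ℂ → E} {g : ℂ → F} (hf : BL_Small s L f)
    (hg : BL_Small s' L' g) : BL_Small (s + s') (L + L') fun z => (f z, g z) := by
  refine ⟨fun z hz => ?_, fun z hz z' hz' => ?_⟩
  · have a := hf.1 z hz
    have b := hg.1 z hz
    rw [Prod.norm_def, max_le_iff]
    constructor <;> linarith [nonneg_Small hf, nonneg_Small hg]
  · have a := hf.2 z hz z' hz'
    have b := hg.2 z hz z' hz'
    simp only
    rw [Prod.mk_sub_mk, Prod.norm_def, max_le_iff, add_mul]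
    constructor <;> linarith [norm_nonneg (f z - f z'), norm_nonneg (g z - g z')]

theorem mono_Small {s L s' L' : ℝ} {f : ℂ → E} (hf : BL_Small s L f) (h1 : s ≤ s') (h2 : L ≤ L') :
    BL_Small s' L' f :=
  ⟨fun z hz => (hf.1 z hz).trans h1, fun z hz z' hz' =>
    (hf.2 z hz z' hz').trans (mul_le_mul_of_nonneg_right h2 (norm_nonneg _))⟩

theorem hb_Small {s L δ : ℝ} {f : ℂ → E} (hf : BL_Small s L f) (hδ : 0 < δ) (h1 : s ≤ δ)
    (h2 : 2 * s * L ≤ δ ^ 2) : HB δ f (ball 0 3) := by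
  refine ⟨fun z hz => (hf.1 z hz).trans h1, fun z hz z' hz' => ?_⟩
  have a := hf.2 z hz z' hz'
  have b : ‖f z - f z'‖ ≤ 2 * s := by
    linarith [norm_sub_le (f z) (f z'), hf.1 z hz, hf.1 z' hz']
  have c : ‖f z - f z'‖ * ‖f z - f z'‖ ≤ 2 * s * (L * ‖z - z'‖) :=
    mul_le_mul b a (norm_nonneg _) ((norm_nonneg _).trans b)
  apply (sq_le_sq₀ (norm_nonneg _) (by positivity)).1
  rw [mul_pow, Real.sq_sqrt (norm_nonneg _)]
  nlinarith [mul_le_mul_of_nonneg_right h2 (norm_nonneg (z - z'))]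

theorem smooth_Small [NormedSpace ℝ E] {f : ℂ → E} (hf : ContDiff ℝ 1 f) :
    ∃ M : ℝ, 0 ≤ M ∧ BL_Small M M f := by
  obtain ⟨K, hK⟩ := (hf.contDiffOn (s := closedBall (0 : ℂ) 3)).exists_lipschitzOnWith one_ne_zero
    (convex_closedBall _ _) (isCompact_closedBall _ _)
  obtain ⟨C, hC⟩ := (isCompact_closedBall (0 : ℂ) 3).exists_bound_of_continuousOn
    hf.continuous.continuousOn
  have p : 0 ≤ C := (norm_nonneg _).trans (hC 0 (mem_closedBall_self (by norm_num)))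
  have q : (0 : ℝ) ≤ K := K.2
  refine ⟨C + K, by positivity, fun z hz => ?_, fun z hz z' hz' => ?_⟩
  · linarith [hC z (ball_subset_closedBall hz)]
  · have := hK.dist_le_mul z (ball_subset_closedBall hz) z' (ball_subset_closedBall hz')
    rw [dist_eq_norm, dist_eq_norm] at this
    exact this.trans (mul_le_mul_of_nonneg_right (by linarith) (norm_nonneg _))

end

/-- The derivative of the chart. -/
def dc_Small (i : Bool) : ℂ →L[ℝ] W :=
  if i then ContinuousLinearMap.inl ℝ ℂ ℂ else ContinuousLinearMap.inr ℝ ℂ ℂ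

theorem cc_smooth_Small (i : Bool) : ContDiff ℝ ∞ (cc i) := by
  cases i
  · exact contDiff_const.prodMk contDiff_id
  · exact contDiff_id.prodMk contDiff_const

theorem cc_der_Small (i : Bool) (z : ℂ) : HasFDerivAt (cc i) (dc_Small i) z := by
  cases i
  · exact hasFDerivAt_prodMk_right (1 : ℂ) z
  · exact hasFDerivAt_prodMk_left z (1 : ℂ)

theorem cc_ne_Small (i : Bool) (z : ℂ) : cc i z ≠ 0 := by
  cases i
  · exact fun h => one_ne_zero (congrArg Prod.fst h)
  · exact fun h => one_ne_zero (congrArg Prod.snd h)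

theorem cc_norm_Small (i : Bool) {z : ℂ} (hz : ‖z‖ ≤ 6) : ‖cc i z‖ ≤ 6 := by
  cases i <;> simp [cc, Prod.norm_def, hz]

theorem dc_norm_Small (i : Bool) (h : ℂ) : ‖dc_Small i h‖ = ‖h‖ := by
  cases i <;> simp [dc_Small, Prod.norm_def]

theorem dc_I_Small (i : Bool) : dc_Small i I = I • dc_Small i 1 := by
  cases i <;> simp [dc_Small]

theorem der_Small {J : V → V → V} {U : W → V} (h : IsLine J U) (i : Bool) (z : ℂ) :
    HasFDerivAt (U ∘ cc i) ((fderiv ℝ U (cc i z)).comp (dc_Small i)) z :=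
  ((h.c1.contDiffAt (isOpen_compl_singleton.mem_nhds (cc_ne_Small i z))).differentiableAt
    one_ne_zero).hasFDerivAt.comp z (cc_der_Small i z)

theorem one_Small (hS : LineSmoothStmt) (hE : EstStmt) (P : Type) [TopologicalSpace P]
    (φ : P → Fr) (p₀ : P) (U₀ : W → V) (hφ : FrFam φ) (h₀ : IsLine (φ p₀).J U₀) (δ : ℝ)
    (hδ : 0 < δ) (i : Bool) : ∃ ε : ℝ, 0 < ε ∧ ∀ᶠ p in 𝓝 p₀, ∀ U,
      IsLine (φ p).J U → Near ε U U₀ → HB δ (jc (etaOf (φ p₀) U₀ U) i) (ball 0 3) := by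
  have s0 : ContDiff ℝ ∞ (U₀ ∘ cc i) :=
    (hS _ _ h₀).comp_contDiff (cc_smooth_Small i) (cc_ne_Small i)
  have n0 : ∀ z, (U₀ ∘ cc i) z ≠ 0 := fun z => h₀.ne _ (cc_ne_Small i z)
  let a : ℂ → V →L[ℝ] V := fun z => (φ p₀).A (U₀ (cc i z))
  have sa : ContDiff ℝ ∞ a := (φ p₀).smoothA.comp_contDiff s0 n0
  have sd0 : ContDiff ℝ 1 (fderiv ℝ (U₀ ∘ cc i)) := ((contDiff_infty_iff_fderiv.1 s0).2).of_le
    (mod_cast le_top)
  obtain ⟨A1, pA1, hA1⟩ := smooth_Small (f := a) (sa.of_le (mod_cast le_top))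
  obtain ⟨A2, pA2, hA2⟩ := smooth_Small (f := fderiv ℝ a)
    (((contDiff_infty_iff_fderiv.1 sa).2).of_le (mod_cast le_top))
  obtain ⟨A3, pA3, hA3⟩ := smooth_Small sd0
  have K6 := isCompact_closedBall (0 : ℂ) 6
  obtain ⟨z₀, -, hz₀⟩ := K6.exists_isMinOn ⟨0, mem_closedBall_self (by norm_num)⟩
    s0.continuous.norm.continuousOn
  have hm : 0 < ‖(U₀ ∘ cc i) z₀‖ := norm_pos_iff.2 (n0 z₀)
  set m := ‖(U₀ ∘ cc i) z₀‖ with hmdef
  obtain ⟨B1, hB1⟩ := K6.exists_bound_of_continuousOn s0.continuous.continuousOn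
  obtain ⟨B2, hB2⟩ := K6.exists_bound_of_continuousOn sd0.continuous.continuousOn
  have pB1 : 0 ≤ B1 := (norm_nonneg _).trans (hB1 0 (mem_closedBall_self (by norm_num)))
  have pB2 : 0 ≤ B2 := (norm_nonneg _).trans (hB2 0 (mem_closedBall_self (by norm_num)))
  obtain ⟨C, hC⟩ := hE P φ p₀ (2 / m + B1 + B2 + 6) 3 hφ (by norm_num)
  set S := 7 * A1 + 6 * A2 + 1 with hSdef
  set L := 8 * A1 + A1 * (|C| + A3) + 7 * A2 + 1 with hLdef
  have pS : 0 < S := by positivity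
  have pL : 0 < L := by positivity
  refine ⟨min (min 1 (m / 12)) (min (δ / S) (δ ^ 2 / (2 * S * L))), by positivity, ?_⟩
  set ε := min (min 1 (m / 12)) (min (δ / S) (δ ^ 2 / (2 * S * L))) with hε
  have e0 : 0 < ε := by positivity
  have e1 : ε ≤ 1 := (min_le_left _ _).trans (min_le_left _ _)
  have e2 : ε ≤ m / 12 := (min_le_left _ _).trans (min_le_right _ _)
  have e3 : ε ≤ δ / S := (min_le_right _ _).trans (min_le_left _ _)
  have e4 : ε ≤ δ ^ 2 / (2 * S * L) := (min_le_right _ _).trans (min_le_right _ _)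
  clear_value ε
  filter_upwards [hC] with p hp U hU hn
  have H0 : Hom1 U₀ := ⟨h₀.c1, h₀.hom⟩
  have H1 : Hom1 U := ⟨hU.c1, hU.hom⟩
  have v1 : ∀ z : ℂ, ‖z‖ ≤ 6 → ‖(U ∘ cc i) z - (U₀ ∘ cc i) z‖ ≤ 6 * ε := by
    intro z hz
    have := val_Trans H0 H1 hn (cc i z)
    have := mul_le_mul_of_nonneg_left (cc_norm_Small i hz) e0.le
    simp only [Function.comp_apply]
    linarith
  have v2 : ∀ z, ‖fderiv ℝ (U ∘ cc i) z - fderiv ℝ (U₀ ∘ cc i) z‖ ≤ ε := by
    intro z
    rw [(der_Small hU i z).fderiv, (der_Small h₀ i z).fderiv, ← ContinuousLinearMap.sub_comp]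
    refine ContinuousLinearMap.opNorm_le_bound _ e0.le fun h => ?_
    rw [ContinuousLinearMap.comp_apply, ← dc_norm_Small i h]
    exact ContinuousLinearMap.le_of_opNorm_le _ (der_Trans H0 H1 hn (cc_ne_Small i z)) _
  have su : ContDiff ℝ 1 (U ∘ cc i) :=
    hU.c1.comp_contDiff ((cc_smooth_Small i).of_le (mod_cast le_top)) (cc_ne_Small i)
  have lip := hp (U ∘ cc i) 0 su.contDiffOn (by
      intro z _
      rw [(der_Small hU i z).fderiv, ContinuousLinearMap.comp_apply,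
        ContinuousLinearMap.comp_apply, dc_I_Small, hU.hol _ (cc_ne_Small i z), Fr.J]
      exact (φ p).AB _ (hU.ne _ (cc_ne_Small i z)) _) (by
      intro z hz
      have hz' : ‖z‖ ≤ 6 := by
        have : ‖z‖ < 2 * 3 := mem_ball_zero_iff.1 hz
        linarith
      have hz6 : z ∈ closedBall (0 : ℂ) 6 := mem_closedBall_zero_iff.2 hz'
      have a1 := v1 z hz'
      have a2 := v2 z
      have a3 : m ≤ ‖(U₀ ∘ cc i) z‖ := hz₀ hz6
      have a4 := hB1 z hz6
      have a5 := hB2 z hz6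
      have b1 := norm_sub_norm_le ((U ∘ cc i) z) ((U₀ ∘ cc i) z)
      have b2 := norm_sub_norm_le ((U₀ ∘ cc i) z) ((U ∘ cc i) z)
      have b3 := norm_sub_norm_le (fderiv ℝ (U ∘ cc i) z) (fderiv ℝ (U₀ ∘ cc i) z)
      rw [norm_sub_rev] at b2
      have c0 : 0 < 2 / m := by positivity
      refine ⟨?_, by linarith, by linarith⟩
      have c1 : m / 2 ≤ ‖(U ∘ cc i) z‖ := by linarith
      have c2 : 2 / m * (m / 2) = 1 := by field_simp
      nlinarith [mul_le_mul_of_nonneg_left c1 c0.le, norm_nonneg ((U ∘ cc i) z)])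
  let w : ℂ → V := fun z => (U ∘ cc i) z - (U₀ ∘ cc i) z
  let d : ℂ → ℂ →L[ℝ] V := fun z => fderiv ℝ (U ∘ cc i) z - fderiv ℝ (U₀ ∘ cc i) z
  have hw : ∀ z, HasFDerivAt w (d z) z := fun z =>
    (der_Small hU i z).differentiableAt.hasFDerivAt.sub
      (der_Small h₀ i z).differentiableAt.hasFDerivAt
  have bw : BL_Small (6 * ε) 1 w := by
    refine ⟨fun z hz => v1 z ?_, fun z hz z' hz' => ?_⟩
    · have : ‖z‖ < 3 := mem_ball_zero_iff.1 hz
      linarith
    · exact (convex_ball (0 : ℂ) 3).norm_image_sub_le_of_norm_hasFDerivWithin_le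
        (fun x _ => (hw x).hasFDerivWithinAt) (fun x _ => (v2 x).trans e1) hz' hz
  have bd : BL_Small ε (|C| + A3) d := by
    refine ⟨fun z _ => v2 z, fun z hz z' hz' => ?_⟩
    have a1 := (lip z hz z' hz').trans (mul_le_mul_of_nonneg_right (le_abs_self C) (norm_nonneg _))
    have a2 := hA3.2 z hz z' hz'
    simp only [d]
    rw [sub_sub_sub_comm, add_mul]
    exact (norm_sub_le _ _).trans (add_le_add a1 a2)
  have t1 := bil_Small (fun (x : V →L[ℝ] V) (y : V) => x y) (fun x y => x.le_opNorm y)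
    (fun x x' y y' => by simp) hA1 bw
  have t2 := bil_Small (fun (x : V →L[ℝ] V) (y : ℂ →L[ℝ] V) => x.comp y)
    (fun x y => x.opNorm_comp_le y)
    (fun x x' y y' => by rw [ContinuousLinearMap.comp_sub, ContinuousLinearMap.sub_comp]; abel)
    hA1 bd
  have t3 := bil_Small (fun (x : ℂ →L[ℝ] V →L[ℝ] V) (y : V) => x.flip y)
    (fun x y => by
      rw [← x.opNorm_flip]
      exact x.flip.le_opNorm y)
    (fun x x' y y' => by
      apply ContinuousLinearMap.ext
      intro h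
      simp) hA2 bw
  have t4 := prod_Small t1 (add_Small t2 t3)
  have e : jc (etaOf (φ p₀) U₀ U) i =
      fun z => (a z (w z), (a z).comp (d z) + (fderiv ℝ a z).flip (w z)) := by
    funext z
    refine Prod.ext rfl ?_
    exact ((sa.differentiable (by simp) z).hasFDerivAt.clm_apply (hw z)).fderiv
  rw [e]
  have t5 := mono_Small t4 (s' := S * ε) (L' := L) (by rw [hSdef]; nlinarith) (by
    rw [hLdef]
    nlinarith [mul_le_mul_of_nonneg_left e1 pA1, mul_le_mul_of_nonneg_left e1 pA2])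
  refine hb_Small t5 hδ ?_ ?_
  · rw [le_div_iff₀ pS] at e3
    linarith
  · rw [le_div_iff₀ (by positivity)] at e4
    linarith

theorem small (hS : LineSmoothStmt) (hE : EstStmt) : SmallStmt := by
  intro P _ φ p₀ U₀ hφ h₀ δ hδ
  obtain ⟨ε₀, p0, H0⟩ := one_Small hS hE P φ p₀ U₀ hφ h₀ δ hδ false
  obtain ⟨ε₁, p1, H1⟩ := one_Small hS hE P φ p₀ U₀ hφ h₀ δ hδ true
  refine ⟨min ε₀ ε₁, lt_min p0 p1, ?_⟩
  filter_upwards [H0, H1] with p a b U hU hn i
  cases i
  · exact a U hU fun q hq =>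
      ⟨(hn q hq).1.trans (min_le_left _ _), (hn q hq).2.trans (min_le_left _ _)⟩
  · exact b U hU fun q hq =>
      ⟨(hn q hq).1.trans (min_le_right _ _), (hn q hq).2.trans (min_le_right _ _)⟩

end Pool.Agent.MP_2fc7fa_gt.N
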