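import Pool.Agent.MP_2fc7fa_gt.N.IfI

/-! Solving the cut-off equation. -/

open scoped ContDiff ComplexConjugate Topology NNReal
open Set Complex Filter Metric

noncomputable section

namespace Pool.Agent.MP_2fc7fa_gt.N

section
variable {E : Type} [NormedAddCommGroup E] {M M' : ℝ} {f g : ℂ → E} {S : Set ℂ}

theorem HB.mono_Solve (h : HB M f S) (hM : M ≤ M') : HB M' f S :=
  ⟨fun z hz => (h.1 z hz).trans hM, fun z hz z' hz' =>
    (h.2 z hz z' hz').trans (mul_le_mul_of_nonneg_right hM (Real.sqrt_nonneg _))⟩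

theorem HB.add_Solve (h : HB M f S) (h' : HB M' g S) : HB (M + M') (fun z => f z + g z) S :=
  ⟨fun z hz => (norm_add_le _ _).trans (add_le_add (h.1 z hz) (h'.1 z hz)), fun z hz z' hz' => by
    rw [add_sub_add_comm, add_mul]
    exact (norm_add_le _ _).trans (add_le_add (h.2 z hz z' hz') (h'.2 z hz z' hz'))⟩

end

theorem hb_pi_Solve {x : Bool → Ho V} {M : ℝ} (h : ‖x‖ ≤ M) (i : Bool) : HB M (x i).fn univ :=
  (x i).hb.mono_Solve ((norm_le_pi_norm x i).trans h)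

theorem both_Solve {C : ℝ} (hC : 0 < C) {R : Bool → ℝ → Prop}
    (h : ∀ i, ∃ δ, 0 < δ ∧ R i δ) : ∃ δ, 0 < δ ∧ ∀ i, ∃ δ', C * δ ≤ δ' ∧ R i δ' := by
  choose d hd hR using h
  refine ⟨min (d false) (d true) / C, div_pos (lt_min (hd _) (hd _)) hC, fun i => ⟨d i, ?_, hR i⟩⟩
  rw [mul_div_cancel₀ _ hC.ne']
  cases i
  exacts [min_le_left _ _, min_le_right _ _]

theorem abs_Solve (hA : AbsStmt) {E : Type} [NormedAddCommGroup E] {Q : Type}
    [TopologicalSpace Q] (G : Bool → Q → ℂ × E → V) (L : Bool → ℂ → E → V) (χ : ℂ → ℝ) (q₀ : Q)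
    (μ : Q → V × V) (hμ : Continuous μ) (hμ0 : μ q₀ = 0)
    (Y : (Bool → Ho V) → V × V → Bool → ℂ → E) {C : ℝ} (hC : 0 < C)
    (Y1 : ∀ x m M i, ‖x‖ ≤ M → ‖m‖ ≤ M → HB (C * M) (Y x m i) (ball 0 3))
    (Y2 : ∀ x x' m m' i, Y x m i - Y x' m' i = Y (x - x') (m - m') i)
    (G0 : ∀ i z, G i q₀ (z, 0) = 0)
    (N1 : ∀ i (c : ℝ), 0 < c → ∃ δ : ℝ, 0 < δ ∧ ∀ᶠ p in 𝓝 q₀, ∀ (y y' : ℂ → E) (M : ℝ),
      HB δ y (ball 0 3) → HB δ y' (ball 0 3) → HB M (y - y') (ball 0 3) →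
      HB (c * M) (fun z => χ z • (G i p (z, y z) - G i p (z, y' z) - L i z (y z - y' z))) univ)
    (N2 : ∀ i, ∃ C : ℝ, 0 < C ∧ ∀ (y : ℂ → E) (M : ℝ), HB M y (ball 0 3) →
      HB (C * M) (fun z => χ z • L i z (y z)) univ)
    (N3 : ∀ i, ∃ δ : ℝ, 0 < δ ∧ ∀ (p : Q) (y : ℂ → E), HB δ y (ball 0 3) →
      (∃ M, HB M (fun z => χ z • G i p (z, y z)) univ) ∧
      ∀ c : ℝ, 0 < c → ∀ᶠ p' in 𝓝 p,
        HB c (fun z => χ z • (G i p' (z, y z) - G i p (z, y z))) univ)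
    (K : (Bool → Ho V) →L[ℝ] (Bool → Ho V)) (hK : IsCompactOperator K)
    (hK' : ∀ h i z, (K h i).fn z = χ z • L i z (Y h 0 i z))
    (hI : ∀ x, x + K x = 0 → x = 0) {δ₁ : ℝ} (hδ₁ : 0 < δ₁) :
    ∃ δ : ℝ, 0 < δ ∧ δ ≤ δ₁ ∧ ∃ N ∈ 𝓝 q₀, ∃ s : Q → Bool → Ho V,
      ContinuousOn s N ∧ s q₀ = 0 ∧ ∀ a ∈ N, ‖s a‖ < δ ∧
        ∀ h : Bool → Ho V, ‖h‖ < δ →
          (h = s a ↔ ∀ i z, (h i).fn z + χ z • G i a (z, Y h (μ a) i z) = 0) := by
  obtain ⟨δ₃, hδ₃, h3⟩ := both_Solve hC N3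
  let F : Q → (Bool → Ho V) → Bool → Ho V := fun a x i =>
    x i + Ho.of fun z => χ z • G i a (z, Y x (μ a) i z)
  have hF : ∀ a x i, ‖x‖ ≤ δ₃ → ‖μ a‖ ≤ δ₃ → ∀ z,
      (F a x i).fn z = (x i).fn z + χ z • G i a (z, Y x (μ a) i z) := by
    intro a x i hx ha z
    obtain ⟨d, hd, h⟩ := h3 i
    obtain ⟨M, hM⟩ := (h a _ ((Y1 x (μ a) δ₃ i hx ha).mono_Solve hd)).1
    simp only [F, Ho.fn_add, hM.fn_of, Pi.add_apply]
  have hsmall : ∀ δ : ℝ, 0 < δ → ∀ᶠ a in 𝓝 q₀, ‖μ a‖ ≤ δ := fun δ hδ =>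
    (hμ.norm.tendsto q₀).eventually (ge_mem_nhds (by rwa [hμ0, norm_zero]))
  have happ : ∀ c : ℝ, 0 < c → ∃ δ : ℝ, 0 < δ ∧ δ ≤ δ₃ ∧ ∀ᶠ p in 𝓝 q₀, ‖μ p‖ ≤ δ ∧
      ∀ i x x' m m' M, ‖x‖ ≤ δ → ‖x'‖ ≤ δ → ‖m‖ ≤ δ → ‖m'‖ ≤ δ → ‖x - x'‖ ≤ M → ‖m - m'‖ ≤ M →
      HB (c * M) (fun z => χ z • (G i p (z, Y x m i z) - G i p (z, Y x' m' i z) -
        L i z (Y (x - x') (m - m') i z))) univ := by
    intro c hc
    obtain ⟨δ, hδ, h1⟩ := both_Solve hC fun i => N1 i (c / C) (div_pos hc hC)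
    choose d hd h1 using h1
    refine ⟨min δ δ₃, lt_min hδ hδ₃, min_le_right _ _, ?_⟩
    filter_upwards [hsmall _ (lt_min hδ hδ₃), eventually_all.2 h1] with p hp hp'
    refine ⟨hp, fun i x x' m m' M hx hx' hm hm' hM hM' => ?_⟩
    have e := min_le_left δ δ₃
    have := hp' i _ _ _ ((Y1 x m δ i (hx.trans e) (hm.trans e)).mono_Solve (hd i))
      ((Y1 x' m' δ i (hx'.trans e) (hm'.trans e)).mono_Solve (hd i))
      (by rw [Y2]; exact Y1 _ _ M i hM hM')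
    rw [← mul_assoc, div_mul_cancel₀ _ hC.ne'] at this
    rw [← Y2]
    exact this
  refine (hA _ Q F K q₀ hK hI ?_ ?_ ?_ (min δ₁ δ₃) (lt_min hδ₁ hδ₃)).elim ?_
  rotate_right
  · rintro δ ⟨hδ, hle, N, hN, s, hs, hs0, hs'⟩
    refine ⟨δ, hδ, hle.trans (min_le_left _ _), N ∩ {a | ‖μ a‖ ≤ δ₃},
      inter_mem hN (hsmall _ hδ₃), s, hs.mono inter_subset_left, hs0, fun a ha => ?_⟩
    obtain ⟨h1, h2, h4⟩ := hs' a ha.1
    refine ⟨mem_ball_zero_iff.1 h1, fun h hh => ?_⟩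
    have h5 := fun i => hF a h i (hh.le.trans (hle.trans (min_le_right _ _))) ha.2
    refine ⟨fun e i z => ?_, fun e => h4 h (mem_ball_zero_iff.2 hh) ?_⟩
    · rw [← h5, e, h2]; rfl
    · exact funext fun i => Ho.ext_fn (funext fun z => (h5 i z).trans (e i z))
  · refine funext fun i => Ho.ext_fn (funext fun z => ?_)
    have h0 : Y 0 0 i = 0 := by simpa using (Y2 0 0 0 0 i).symm
    rw [hF q₀ 0 i (by simpa using hδ₃.le) (by simpa [hμ0] using hδ₃.le), hμ0, h0, Pi.zero_apply,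
      Pi.zero_apply, G0, smul_zero, add_zero]
  · intro c hc
    obtain ⟨δ, hδ, hle, h⟩ := happ c hc
    refine ⟨δ, hδ, h.mono fun p hp x hx x' hx' => ?_⟩
    rw [mem_ball_zero_iff] at hx hx'
    refine (pi_norm_le_iff_of_nonneg (by positivity)).2 fun i => Ho.norm_le ?_
    have := hp.2 i x x' (μ p) (μ p) _ hx.le hx'.le hp.1 hp.1 le_rfl (by simp)
    convert this using 2 with z
    simp only [Pi.sub_apply, Pi.add_apply, Ho.fn_sub, Ho.fn_add, hK', sub_self, smul_sub,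
      hF p x i (hx.le.trans hle) (hp.1.trans hle), hF p x' i (hx'.le.trans hle) (hp.1.trans hle)]
    abel
  · obtain ⟨δ, hδ, hle, h⟩ := happ 1 one_pos
    refine ⟨δ, hδ, h.eventually_nhds.mono fun p hp x hx => ?_⟩
    rw [mem_ball_zero_iff] at hx
    have hp0 := hp.self_of_nhds.1
    refine continuousAt_pi.2 fun i => ?_
    obtain ⟨C₂, hC₂, h2⟩ := N2 i
    obtain ⟨d, hd, h4⟩ := h3 i
    rw [ContinuousAt, Metric.tendsto_nhds]
    intro ε hε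
    have hη : 0 < ε / 4 / (1 + C₂ * C) := by positivity
    have h5 : ∀ᶠ p' in 𝓝 p, ‖μ p' - μ p‖ ≤ ε / 4 / (1 + C₂ * C) :=
      ((hμ.sub continuous_const).norm.tendsto p).eventually
        (ge_mem_nhds (by simpa only [Pi.sub_apply, sub_self, norm_zero] using hη))
    filter_upwards [hp, h5, (h4 p _ ((Y1 x (μ p) δ₃ i (hx.le.trans hle)
      (hp0.trans hle)).mono_Solve hd)).2 (ε / 4) (by positivity)] with p' hp' h6 h7
    have h8 : ‖x - x‖ ≤ ε / 4 / (1 + C₂ * C) := by simpa using hη.le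
    have h9 := ((hp'.2 i x x (μ p') (μ p) _ hx.le hx.le hp'.1 hp0 h8 h6).add_Solve
      (h2 _ _ (Y1 _ _ _ i h8 h6))).add_Solve h7
    rw [dist_eq_norm]
    refine lt_of_le_of_lt (Ho.norm_le (M := ε / 2) ?_) (half_lt_self hε)
    convert h9 using 1
    · field_simp
      ring
    · funext z
      simp only [Pi.sub_apply, Ho.fn_sub, smul_sub, hF p' x i (hx.le.trans hle) (hp'.1.trans hle),
        hF p x i (hx.le.trans hle) (hp0.trans hle)]
      abel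

theorem cc_ne_Solve (i : Bool) (z : ℂ) : cc i z ≠ 0 := by
  cases i <;> simp [cc]

theorem jc_add_Solve {η η' : W → V} (h : Hom1 η) (h' : Hom1 η') (i : Bool) :
    jc (η + η') i = jc η i + jc η' i := by
  have key : ∀ {η : W → V}, Hom1 η → ∀ z, DifferentiableAt ℝ (η ∘ cc i) z := fun h z => by
    refine DifferentiableAt.comp z ((h.1.contDiffAt
      (isOpen_compl_singleton.mem_nhds (cc_ne_Solve i z))).differentiableAt one_ne_zero) ?_
    cases i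
    · exact (differentiableAt_const _).prodMk differentiableAt_id
    · exact differentiableAt_id.prodMk (differentiableAt_const _)
  funext z
  exact Prod.ext rfl (fderiv_add (key h z) (key h' z))

theorem solve (hA : AbsStmt) (hS : SStmt) (hN : NlStmt) (hM : NemStmt) (hK : KopStmt)
    (hI : LinInjStmt) : SolveStmt := by
  intro κ P _ φ p₀ U₀ b hφ hU hE δ₁ hδ₁
  obtain ⟨C, hC, hS1, hS2⟩ := hS κ b
  obtain ⟨K, hK1, hK2⟩ := hK κ (φ p₀) U₀ b hU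
  have hm := fun i => hM _ V (P × (V × V)) (fun a => Nl (φ a.1) (φ p₀) U₀ i) _ κ.χ
    (p₀, con b U₀) (hN P φ (φ p₀) U₀ i hφ hU).1
    (((hN P φ (φ p₀) U₀ i hφ hU).2.1 2).param continuous_fst)
    (fun z => by simpa [NlDom] using hU.ne _ (cc_ne_Solve i z))
    (κ.sχ.of_le (mod_cast le_top)) κ.zero
  refine abs_Solve hA (fun i (a : P × (V × V)) => Nl (φ a.1) (φ p₀) U₀ i)
    (fun i z y => fderiv ℝ (Nl (φ p₀) (φ p₀) U₀ i) (z, 0) (0, y)) κ.χ (p₀, con b U₀)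
    (fun a => mOf (φ p₀) U₀ b a.2) ?_ ?_ (fun h m => jc (sec1 κ b (fun i => (h i).fn) m)) hC
    (fun x m M i hx hm => (hS1 _ m M (hb_pi_Solve hx) hm).2.2.1 i) ?_
    (fun i => (hN P φ (φ p₀) U₀ i hφ hU).2.2.1) (fun i => (hm i).1) (fun i => (hm i).2.1)
    (fun i => (hm i).2.2) K hK1 hK2 ?_ hδ₁
  · unfold mOf
    cases b
    · simp only [Bool.false_eq_true, if_false]
      fun_prop
    · simp only [if_true]
      fun_prop
  · cases b <;> simp [mOf, con, jet]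
  · intro x x' m m' i
    have h1 := hS1 _ (m - m') _ (hb_pi_Solve (le_max_left ‖x - x'‖ ‖m - m'‖)) (le_max_right _ _)
    have h2 := hS1 _ m' _ (hb_pi_Solve (le_max_left ‖x'‖ ‖m'‖)) (le_max_right _ _)
    have h3 := (hS2 _ _ (m - m') m' _ 0 (hb_pi_Solve (le_max_left ‖x - x'‖ ‖x'‖))
      (hb_pi_Solve (le_max_right _ _))).1
    have h4 : ((fun i => ((x - x') i).fn) + fun i => (x' i).fn) = fun i => (x i).fn :=
      funext fun i => by simp [Ho.fn_sub]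
    rw [h4, sub_add_cancel] at h3
    rw [h3, jc_add_Solve h1.1 h2.1, add_sub_cancel_right]
  · intro x hx
    have := hI κ (φ p₀) U₀ b (fun i => (x i).fn) _ hU hE (hb_pi_Solve le_rfl) fun i z => by
      rw [← hK2]
      exact congrFun (congrArg Ho.fn (congrFun hx i)) z
    exact funext fun i => Ho.ext_fn (congrFun this i)

end Pool.Agent.MP_2fc7fa_gt.N
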