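import Pool.Agent.MP_2fc7fa_gt.N.IfB

/-! The local Pompeiu formula. -/

open scoped ContDiff Topology Interval
open Set Complex Filter MeasureTheory

namespace Pool.Agent.MP_2fc7fa_gt.N

variable {E : Type} [NormedAddCommGroup E] [NormedSpace ℂ E]

omit [NormedSpace ℂ E] in
theorem cont_T2 {K : ℝ} {v : ℂ → E} (h : Hol K v univ) : Continuous v := by
  refine continuous_iff_continuousAt.2 fun z => tendsto_iff_norm_sub_tendsto_zero.2 ?_
  refine squeeze_zero (fun _ => norm_nonneg _) (fun w => h w trivial z trivial) ?_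
  have h1 : Continuous fun w : ℂ => K * √‖w - z‖ := by fun_prop
  simpa using h1.tendsto z

theorem swap1_T2 (v : ℂ → E) (a b c d : ℝ) : rectInt v b a c d = -rectInt v a b c d := by
  simp only [rectInt, intervalIntegral.integral_symm a b]
  abel

theorem swap2_T2 (v : ℂ → E) (a b c d : ℝ) : rectInt v a b d c = -rectInt v a b c d := by
  simp only [rectInt, intervalIntegral.integral_symm c d, smul_neg]
  abel

theorem all_T2 {u h : ℂ → E} (H : ∀ a b c d : ℝ, a ≤ b → c ≤ d →
    rectInt u a b c d = (2 * I) • ∫ x in a..b, ∫ y in c..d, h (x + y * I)) (a b c d : ℝ) :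
    rectInt u a b c d = (2 * I) • ∫ x in a..b, ∫ y in c..d, h (x + y * I) := by
  have H' : ∀ a b : ℝ, a ≤ b →
      rectInt u a b c d = (2 * I) • ∫ x in a..b, ∫ y in c..d, h (x + y * I) := fun a b hab => by
    rcases le_total c d with h1 | h1
    · exact H a b c d hab h1
    · rw [swap2_T2, H a b d c hab h1]
      simp only [intervalIntegral.integral_symm d c, intervalIntegral.integral_neg, smul_neg]
  rcases le_total a b with h1 | h1
  · exact H' a b h1
  · rw [swap1_T2, H' b a h1, intervalIntegral.integral_symm b a, smul_neg]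

theorem sub_T2 {u v : ℂ → E} {a b c d : ℝ} (hu : ContinuousOn u ([[a, b]] ×ℂ [[c, d]]))
    (hv : ContinuousOn v ([[a, b]] ×ℂ [[c, d]])) :
    rectInt (fun z => u z - v z) a b c d = rectInt u a b c d - rectInt v a b c d := by
  have h1 : ∀ w : ℂ → E, ContinuousOn w ([[a, b]] ×ℂ [[c, d]]) → ∀ y ∈ [[c, d]],
      IntervalIntegrable (fun x : ℝ => w (x + y * I)) volume a b := fun w hw y hy =>
    (hw.comp (by fun_prop) fun x hx => by simpa [mem_reProdIm, hy] using hx).intervalIntegrable
  have h2 : ∀ w : ℂ → E, ContinuousOn w ([[a, b]] ×ℂ [[c, d]]) → ∀ x ∈ [[a, b]],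
      IntervalIntegrable (fun y : ℝ => w (x + y * I)) volume c d := fun w hw x hx =>
    (hw.comp (by fun_prop) fun y hy => by simpa [mem_reProdIm, hx] using hy).intervalIntegrable
  simp only [rectInt]
  rw [intervalIntegral.integral_sub (h1 u hu c left_mem_uIcc) (h1 v hv c left_mem_uIcc),
    intervalIntegral.integral_sub (h1 u hu d right_mem_uIcc) (h1 v hv d right_mem_uIcc),
    intervalIntegral.integral_sub (h2 u hu a left_mem_uIcc) (h2 v hv a left_mem_uIcc),
    intervalIntegral.integral_sub (h2 u hu b right_mem_uIcc) (h2 v hv b right_mem_uIcc),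
    smul_sub, smul_sub]
  abel

theorem t2 (h1 : T1Stmt) (h4 : T4Stmt) (hG : GreenStmt) : T2Stmt := by
  intro E _ _ _ h v c R M O hb hO hv hd
  obtain ⟨C, -, hC⟩ := h1
  have hc : Continuous (cT h) := cont_T2 (hC E h c (max R 1) M (by positivity)
    ⟨hb.1, hb.2.1, fun z hz => hb.2.2 z ((le_max_left _ _).trans hz)⟩).2
  refine (isConservativeOn_and_continuousOn_iff_isDifferentiableOn hO).1
    ⟨fun z w hzw => ?_, hv.continuousOn.sub hc.continuousOn⟩
  have hf : ContinuousOn (fderiv ℝ v) O := hv.continuousOn_fderiv_of_isOpen hO le_rfl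
  have hi : ContinuousOn (fun z => I • fderiv ℝ v z 1 - fderiv ℝ v z I) O :=
    ((hf.clm_apply continuousOn_const).const_smul I).sub (hf.clm_apply continuousOn_const)
  have e := integral_boundary_rect_of_differentiableOn_real v z w
    ((hv.differentiableOn one_ne_zero).mono hzw)
    ((hi.mono hzw).integrableOn_compact (isCompact_uIcc.reProdIm isCompact_uIcc))
  rw [← add_eq_zero_iff_eq_neg, wedgeIntegral_add_wedgeIntegral_eq]
  change rectInt (fun z => v z - cT h z) z.re w.re z.im w.im = 0
  rw [sub_T2 (hv.continuousOn.mono hzw) hc.continuousOn, all_T2 (h4 E h c R M hb), rectInt, e,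
    sub_eq_zero, ← intervalIntegral.integral_smul]
  refine intervalIntegral.integral_congr fun x hx => ?_
  simp only [← intervalIntegral.integral_smul]
  refine intervalIntegral.integral_congr fun y hy => ?_
  rw [← hd _ (hzw (by simpa [Rectangle, mem_reProdIm, hx] using hy)), dbar, smul_smul, smul_add,
    smul_smul, show 2 * I * (1 / 2) = I by ring, I_mul_I, neg_one_smul, sub_eq_add_neg]

end Pool.Agent.MP_2fc7fa_gt.N
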