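import Pool.Agent.MP_2fc7fa_gt.N.T3A

/-! Schauder estimate, part B: the dyadic decomposition of the Cauchy kernel, and the
differentiated form of the integrated equation. -/

open scoped ContDiff ComplexConjugate Topology
open Set Complex Filter Metric MeasureTheory

noncomputable section

namespace Pool.Agent.MP_2fc7fa_gt.N

theorem tele_T3 (a : ℤ → ℝ) (N : ℕ) (h0 : ∀ n : ℕ, N ≤ n → a n = 0)
    (h1 : ∀ n : ℕ, N ≤ n → a (-n) = 1) : HasSum (fun j : ℤ => a j - a (j + 1)) 1 := by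
  have A : HasSum (fun n : ℕ => a n - a ((n + 1 : ℕ) : ℤ)) (a 0) := by
    have := hasSum_sum_of_ne_finset_zero (L := SummationFilter.unconditional ℕ)
      (f := fun n : ℕ => a n - a ((n + 1 : ℕ) : ℤ)) (s := Finset.range N) (by
        intro n hn
        have hn' : N ≤ n := by simpa using hn
        rw [h0 n hn', h0 (n + 1) (by omega), sub_zero])
    rw [Finset.sum_range_sub' (fun n : ℕ => a n), h0 N le_rfl] at this
    simpa using this
  have B : HasSum (fun n : ℕ => a (-((n + 1 : ℕ) : ℤ)) - a (-(n : ℤ))) (1 - a 0) := by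
    have := hasSum_sum_of_ne_finset_zero (L := SummationFilter.unconditional ℕ)
      (f := fun n : ℕ => a (-((n + 1 : ℕ) : ℤ)) - a (-(n : ℤ))) (s := Finset.range N) (by
        intro n hn
        have hn' : N ≤ n := by simpa using hn
        rw [h1 n hn', h1 (n + 1) (by omega), sub_self])
    rw [Finset.sum_range_sub (fun n : ℕ => a (-(n : ℤ))), h1 N le_rfl] at this
    simpa using this
  have := HasSum.of_nat_of_neg_add_one (f := fun j : ℤ => a j - a (j + 1)) (by simpa using A)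
    (by simpa using B)
  simpa using this

theorem exists_kap_T3 : ∃ (κ : ℂ → ℂ) (b : ℝ), 0 ≤ b ∧ ContDiff ℝ 1 κ ∧
    (∀ w, 1 < ‖w‖ → κ w = 0) ∧ (∀ w, ‖κ w‖ ≤ b) ∧ (∀ w, ‖fderiv ℝ κ w‖ ≤ b) ∧
    (∀ w w', ‖fderiv ℝ κ w - fderiv ℝ κ w'‖ ≤ b * ‖w - w'‖) ∧
    ∀ w, HasSum (fun j : ℤ => ((2 : ℝ) ^ j) ^ 2 • κ (((2 : ℝ) ^ j) ^ 2 • w))
      ((Real.pi : ℂ) * w)⁻¹ := by
  let ψ : ContDiffBump (0 : ℂ) := ⟨1 / 2, 1, by norm_num, by norm_num⟩
  have ψ1 : ∀ w : ℂ, ‖w‖ ≤ 1 / 2 → ψ w = 1 := fun w hw =>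
    ψ.one_of_mem_closedBall (mem_closedBall_zero_iff.2 hw)
  have ψ0 : ∀ w : ℂ, 1 ≤ ‖w‖ → ψ w = 0 := fun w hw =>
    ψ.zero_of_le_dist (by rw [dist_zero_right]; exact hw)
  let κ : ℂ → ℂ := fun w => ((Real.pi : ℂ) * w)⁻¹ * ((ψ w - ψ ((4 : ℝ) • w) : ℝ) : ℂ)
  have hπ : (Real.pi : ℂ) ≠ 0 := ofReal_ne_zero.2 Real.pi_ne_zero
  have n4 : ∀ w : ℂ, ‖(4 : ℝ) • w‖ = 4 * ‖w‖ := fun w => by rw [norm_smul]; norm_num
  have hκ : ContDiff ℝ 2 κ := by
    rw [contDiff_iff_contDiffAt]
    intro w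
    by_cases hw : w = 0
    · have : κ =ᶠ[𝓝 w] fun _ => 0 := by
        subst hw
        filter_upwards [ball_mem_nhds (0 : ℂ) (show (0 : ℝ) < 1 / 8 by norm_num)] with x hx
        have hx' : ‖x‖ < 1 / 8 := by simpa using hx
        simp only [κ]
        rw [ψ1 x (by linarith), ψ1 _ (by rw [n4]; linarith)]
        simp
      exact contDiffAt_const.congr_of_eventuallyEq this
    · apply ContDiffAt.mul
      · apply ContDiffAt.inv (contDiffAt_const.mul contDiffAt_id) (mul_ne_zero hπ hw)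
      · apply ContDiff.contDiffAt
        exact ofRealCLM.contDiff.comp (ψ.contDiff.sub (ψ.contDiff.comp (contDiff_const_smul _)))
  have hs : ∀ w, 1 < ‖w‖ → κ w = 0 := by
    intro w hw
    simp only [κ]
    rw [ψ0 w hw.le, ψ0 _ (by rw [n4]; linarith)]
    simp
  have hcs := supp_T3 hs
  obtain ⟨b0, hb0⟩ := hcs.exists_bound_of_continuous hκ.continuous
  have hd : ContDiff ℝ 1 (fderiv ℝ κ) := hκ.fderiv_right (by norm_num)
  obtain ⟨b1, hb1⟩ := (hcs.fderiv ℝ).exists_bound_of_continuous hd.continuous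
  obtain ⟨b2, hb2⟩ := hd.lipschitzWith_of_hasCompactSupport (hcs.fderiv ℝ) one_ne_zero
  have p0 : 0 ≤ b0 := (norm_nonneg _).trans (hb0 0)
  have p1 : 0 ≤ b1 := (norm_nonneg _).trans (hb1 0)
  have p2 : (0 : ℝ) ≤ b2 := b2.2
  refine ⟨κ, b0 + b1 + b2, by positivity, hκ.of_le (by norm_num), hs, fun w => ?_, fun w => ?_,
    fun w w' => ?_, fun w => ?_⟩
  · linarith [hb0 w]
  · linarith [hb1 w]
  · have := hb2.dist_le_mul w w'
    rw [dist_eq_norm, dist_eq_norm] at this
    refine this.trans (mul_le_mul_of_nonneg_right (by linarith) (norm_nonneg _))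
  · by_cases hw : w = 0
    · subst hw
      simp only [κ, smul_zero, mul_zero, inv_zero, zero_mul]
      exact hasSum_zero
    · have hw' : 0 < ‖w‖ := norm_pos_iff.2 hw
      obtain ⟨N, hN⟩ := pow_unbounded_of_one_lt (‖w‖⁻¹ + 2 * ‖w‖) (show (1 : ℝ) < 2 by norm_num)
      have big : ∀ n : ℕ, N ≤ n → ‖w‖⁻¹ + 2 * ‖w‖ ≤ ((2 : ℝ) ^ n) ^ 2 := by
        intro n hn
        have a1 : (2 : ℝ) ^ N ≤ 2 ^ n := pow_le_pow_right₀ (by norm_num) hn
        have a2 : (1 : ℝ) ≤ 2 ^ n := one_le_pow₀ (by norm_num)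
        nlinarith
      have T := tele_T3 (fun j => ψ (((2 : ℝ) ^ j) ^ 2 • w)) N (by
          intro n hn
          apply ψ0
          rw [norm_smul, Real.norm_of_nonneg (by positivity), zpow_natCast]
          have := big n hn
          have e : ‖w‖⁻¹ * ‖w‖ = 1 := inv_mul_cancel₀ hw'.ne'
          nlinarith [mul_le_mul_of_nonneg_right this hw'.le, mul_pos hw' hw']) (by
          intro n hn
          apply ψ1
          rw [norm_smul, Real.norm_of_nonneg (by positivity), zpow_neg, zpow_natCast, inv_pow,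
            inv_mul_le_iff₀ (by positivity)]
          have := big n hn
          have : 0 < ‖w‖⁻¹ := by positivity
          linarith)
      have T2 := (Complex.hasSum_ofReal.2 T).mul_left ((Real.pi : ℂ) * w)⁻¹
      rw [ofReal_one, mul_one] at T2
      refine (congrArg (fun F => HasSum F ((Real.pi : ℂ) * w)⁻¹) (funext fun j => ?_)).mpr T2
      have hj : (((2 : ℝ) ^ j : ℝ) : ℂ) ≠ 0 := ofReal_ne_zero.2 (by positivity)
      have e : (4 : ℝ) • ((2 : ℝ) ^ j) ^ 2 • w = ((2 : ℝ) ^ (j + 1)) ^ 2 • w := by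
        rw [smul_smul, zpow_add_one₀ (by norm_num)]
        congr 1
        ring
      simp only [κ]
      rw [e, real_smul, real_smul (x := ((2 : ℝ) ^ j) ^ 2) (z := w), ofReal_pow]
      field_simp

theorem scale_T3 {κ : ℂ → ℂ} {b : ℝ} (hκ : ContDiff ℝ 1 κ) (hs : ∀ w, 1 < ‖w‖ → κ w = 0)
    (h0 : ∀ w, ‖κ w‖ ≤ b) (h1 : ∀ w, ‖fderiv ℝ κ w‖ ≤ b)
    (h2 : ∀ w w', ‖fderiv ℝ κ w - fderiv ℝ κ w'‖ ≤ b * ‖w - w'‖) {t : ℝ} (ht : 0 < t)
    (g : ℂ → ℂ) (hg : g = fun w => t ^ 2 • κ (t ^ 2 • w)) :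
    ContDiff ℝ 1 g ∧ (∀ w, t⁻¹ ^ 2 < ‖w‖ → g w = 0) ∧ (∀ w, ‖g w‖ ≤ b * t ^ 2) ∧
      (∀ w, ‖fderiv ℝ g w‖ ≤ b * t ^ 4) ∧
      ∀ w w', ‖fderiv ℝ g w - fderiv ℝ g w'‖ ≤ b * t ^ 6 * ‖w - w'‖ := by
  have hd : ∀ w, fderiv ℝ g w = t ^ 4 • fderiv ℝ κ (t ^ 2 • w) := by
    intro w
    have a := ((hκ.differentiable one_ne_zero (t ^ 2 • w)).hasFDerivAt.comp w
      ((hasFDerivAt_id w).const_smul (t ^ 2))).const_smul (t ^ 2)
    rw [hg]
    refine a.fderiv.trans ?_
    apply ContinuousLinearMap.ext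
    intro x
    simp only [ContinuousLinearMap.smul_apply, ContinuousLinearMap.comp_apply,
      ContinuousLinearMap.id_apply, map_smul, smul_smul]
    congr 1
    ring
  refine ⟨?_, ?_, ?_, ?_, ?_⟩
  · rw [hg]
    exact (hκ.comp (contDiff_const_smul _)).const_smul _
  · intro w hw
    rw [hg]
    simp only
    rw [hs, smul_zero]
    rw [norm_smul, Real.norm_of_nonneg (by positivity)]
    rw [inv_pow, inv_lt_iff_one_lt_mul₀' (by positivity)] at hw
    exact hw
  · intro w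
    rw [hg]
    simp only
    rw [norm_smul, Real.norm_of_nonneg (by positivity), mul_comm]
    exact mul_le_mul_of_nonneg_right (h0 _) (by positivity)
  · intro w
    rw [hd, norm_smul, Real.norm_of_nonneg (by positivity), mul_comm]
    exact mul_le_mul_of_nonneg_right (h1 _) (by positivity)
  · intro w w'
    rw [hd, hd, ← smul_sub, norm_smul, Real.norm_of_nonneg (by positivity)]
    have := h2 (t ^ 2 • w) (t ^ 2 • w')
    rw [← smul_sub, norm_smul, Real.norm_of_nonneg (by positivity)] at this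
    calc t ^ 4 * ‖fderiv ℝ κ (t ^ 2 • w) - fderiv ℝ κ (t ^ 2 • w')‖
        ≤ t ^ 4 * (b * (t ^ 2 * ‖w - w'‖)) := by gcongr
      _ = b * t ^ 6 * ‖w - w'‖ := by ring

section
variable {E : Type} [NormedAddCommGroup E] [NormedSpace ℂ E] [CompleteSpace E]

theorem zero_of_int_T3 {f : ℝ → E} (hf : Continuous f)
    (h : ∀ a b : ℝ, a ≤ b → ∫ x in a..b, f x = 0) (x : ℝ) : f x = 0 := by
  have d := (hf.integral_hasStrictDerivAt (x - 1) x).hasDerivAt
  have e : (fun u => ∫ y in (x - 1)..u, f y) =ᶠ[𝓝 x] fun _ => 0 := by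
    filter_upwards [Ioi_mem_nhds (show x - 1 < x by linarith)] with u hu
    exact h _ _ (le_of_lt hu)
  exact (d.congr_of_eventuallyEq e.symm).unique (hasDerivAt_const x 0)

theorem zero_of_int2_T3 {f : ℂ → E} (hf : Continuous f)
    (h : ∀ a b c d : ℝ, a ≤ b → c ≤ d → ∫ x in a..b, ∫ y in c..d, f (x + y * I) = 0) (z : ℂ) :
    f z = 0 := by
  have A : ∀ x c d : ℝ, c ≤ d → ∫ y in c..d, f (x + y * I) = 0 := by
    intro x c d hcd
    refine zero_of_int_T3 (f := fun x : ℝ => ∫ y in c..d, f (x + y * I)) ?_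
      (fun a b hab => h a b c d hab hcd) x
    apply intervalIntegral.continuous_parametric_intervalIntegral_of_continuous'
    exact hf.comp (by fun_prop : Continuous fun p : ℝ × ℝ => (p.1 : ℂ) + p.2 * I)
  have := zero_of_int_T3 (f := fun y : ℝ => f (z.re + y * I)) (hf.comp (by fun_prop))
    (fun c d hcd => A z.re c d hcd) z.im
  simpa using this

theorem dbar_T3 {v h : ℂ → E} (hv : ContDiff ℝ 1 v) (hh : Continuous h)
    (H : ∀ a b c d : ℝ, a ≤ b → c ≤ d →
      rectInt v a b c d = (2 * I) • ∫ x in a..b, ∫ y in c..d, h (x + y * I)) (z : ℂ) :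
    dbar v z = h z := by
  have hd : Continuous (fderiv ℝ v) := hv.continuous_fderiv one_ne_zero
  let f : ℂ → E := fun z => I • fderiv ℝ v z 1 - fderiv ℝ v z I
  have hf : Continuous f := by
    simp only [f]
    fun_prop
  have key : f z - (2 * I) • h z = 0 := by
    refine zero_of_int2_T3 (f := fun z => f z - (2 * I) • h z) (by fun_prop) ?_ z
    intro a b c d hab hcd
    have G := Complex.integral_boundary_rect_of_differentiableOn_real v ⟨a, c⟩ ⟨b, d⟩
      (hv.differentiable one_ne_zero).differentiableOn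
      (hf.continuousOn.integrableOn_compact (isCompact_uIcc.reProdIm isCompact_uIcc))
    have G' : rectInt v a b c d = ∫ x in a..b, ∫ y in c..d, f (x + y * I) := G
    have c1 : ∀ g : ℂ → E, Continuous g → Continuous fun x : ℝ => ∫ y in c..d, g (x + y * I) := by
      intro g hg
      apply intervalIntegral.continuous_parametric_intervalIntegral_of_continuous'
      exact hg.comp (by fun_prop : Continuous fun p : ℝ × ℝ => (p.1 : ℂ) + p.2 * I)
    have e : ∀ x : ℝ, ∫ y in c..d, (f (x + y * I) - (2 * I) • h (x + y * I)) =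
        (∫ y in c..d, f (x + y * I)) - (2 * I) • ∫ y in c..d, h (x + y * I) := by
      intro x
      rw [intervalIntegral.integral_sub, intervalIntegral.integral_smul]
      · exact (by fun_prop : Continuous fun y : ℝ => f (x + y * I)).intervalIntegrable _ _
      · exact (by fun_prop : Continuous fun y : ℝ => (2 * I) • h (x + y * I)).intervalIntegrable _ _
    simp only [e]
    have c2 : Continuous fun x : ℝ => (2 * I) • ∫ y in c..d, h (x + y * I) :=
      (c1 h hh).const_smul (2 * I)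
    rw [intervalIntegral.integral_sub ((c1 f hf).intervalIntegrable _ _)
      (c2.intervalIntegrable _ _), intervalIntegral.integral_smul,
      ← G', H a b c d hab hcd, sub_self]
  rw [sub_eq_zero] at key
  have e : h z = (2 * I)⁻¹ • f z := by
    rw [key, smul_smul, inv_mul_cancel₀ (mul_ne_zero two_ne_zero I_ne_zero), one_smul]
  have e1 : (2 * I)⁻¹ * I = 1 / 2 := by field_simp
  have e2 : (2 * I)⁻¹ = -(1 / 2 * I) := by
    rw [mul_inv, inv_I]
    ring
  rw [e, dbar]
  simp only [f]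
  rw [smul_sub, smul_smul, e1, e2, neg_smul, sub_neg_eq_add, smul_add, smul_smul]

end

end Pool.Agent.MP_2fc7fa_gt.N
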