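import Pool.Agent.MP_2fc7fa_gt.N.IfB
import Pool.Agent.MP_2fc7fa_gt.N.T3B

/-! The Schauder estimate for the Cauchy transform. -/

open scoped ContDiff ComplexConjugate Topology
open Set Complex Filter Metric MeasureTheory

noncomputable section

namespace Pool.Agent.MP_2fc7fa_gt.N

/-- The weights of the dyadic decomposition. -/
def wgt_T3 (j : ℤ) : ℝ := min ((2 : ℝ) ^ j) ((2 : ℝ) ^ j)⁻¹

theorem wgt_nonneg_T3 (j : ℤ) : 0 ≤ wgt_T3 j := le_min (by positivity) (by positivity)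

theorem wgt_summable_T3 : Summable wgt_T3 := by
  apply Summable.of_nat_of_neg
  · refine Summable.of_nonneg_of_le (fun n => wgt_nonneg_T3 _) (fun n => ?_) summable_geometric_two
    refine (min_le_right _ _).trans (le_of_eq ?_)
    rw [zpow_natCast, one_div, inv_pow]
  · refine Summable.of_nonneg_of_le (fun n => wgt_nonneg_T3 _) (fun n => ?_) summable_geometric_two
    refine (min_le_left _ _).trans (le_of_eq ?_)
    rw [zpow_neg, zpow_natCast, one_div, inv_pow]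

theorem le_min_T3 {t x P Q : ℝ} (ht : 0 < t) (hP : 0 ≤ P) (hQ : 0 ≤ Q) {m n : ℕ}
    (h1 : x ≤ P * t⁻¹ ^ (m + 1)) (h2 : x ≤ Q * t ^ (n + 1)) : x ≤ (P + Q) * min t t⁻¹ := by
  have ht' : 0 < t⁻¹ := inv_pos.2 ht
  rcases le_total t 1 with h | h
  · have a : t ≤ t⁻¹ := h.trans ((one_le_inv₀ ht).2 h)
    rw [min_eq_left a]
    have b : t ^ (n + 1) ≤ t := pow_le_of_le_one ht.le h (by omega)
    nlinarith [mul_le_mul_of_nonneg_left b hQ, mul_nonneg hP ht.le]
  · have h' : t⁻¹ ≤ 1 := inv_le_one_of_one_le₀ h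
    rw [min_eq_right (h'.trans h)]
    have b : t⁻¹ ^ (m + 1) ≤ t⁻¹ := pow_le_of_le_one ht'.le h' (by omega)
    nlinarith [mul_le_mul_of_nonneg_left b hP, mul_nonneg hQ ht'.le]

theorem hol_term_T3 {τ u s x P : ℝ} (hτ : 0 < τ) (hu : 0 < u) (hs : 0 < s) (hP : 0 ≤ P)
    (h1 : u * s ≤ 1) (h2 : 1 ≤ 2 * (u * s))
    (ha : s ^ 2 ≤ (τ * u)⁻¹ ^ 2 → x ≤ 8 * P * (τ * u) * s ^ 2) (hb : x ≤ 2 * P * (τ * u)⁻¹) :
    x ≤ 16 * P * s * min τ τ⁻¹ := by
  have hτu : 0 < τ * u := mul_pos hτ hu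
  have hτ' : 0 < τ⁻¹ := inv_pos.2 hτ
  have e1 : τ * τ⁻¹ = 1 := mul_inv_cancel₀ hτ.ne'
  set y := τ * u * s with hy
  have hy0 : 0 < y := mul_pos hτu hs
  have y1 : y ≤ τ := by
    rw [hy, mul_assoc]
    exact mul_le_of_le_one_right hτ.le h1
  have y2 : τ ≤ 2 * y := by
    rw [hy]
    nlinarith [mul_le_mul_of_nonneg_left h2 hτ.le]
  rcases le_total y 1 with h | h
  · have a : s ≤ (τ * u)⁻¹ := by
      rw [← one_div, le_div_iff₀ hτu]
      linarith [mul_comm s (τ * u)]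
    have b := ha (pow_le_pow_left₀ hs.le a 2)
    have c : y ≤ 2 * min τ τ⁻¹ := by
      rcases le_total τ τ⁻¹ with k | k
      · rw [min_eq_left k]
        linarith
      · rw [min_eq_right k]
        nlinarith [mul_le_mul_of_nonneg_right y2 hτ'.le, mul_le_mul_of_nonneg_right h hτ'.le]
    calc x ≤ 8 * P * (τ * u) * s ^ 2 := b
      _ = 8 * P * s * y := by rw [hy]; ring
      _ ≤ 8 * P * s * (2 * min τ τ⁻¹) := by gcongr
      _ = 16 * P * s * min τ τ⁻¹ := by ring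
  · have y' : 0 < y⁻¹ := inv_pos.2 hy0
    have e2 : y * y⁻¹ = 1 := mul_inv_cancel₀ hy0.ne'
    have c : y⁻¹ ≤ 2 * min τ τ⁻¹ := by
      rcases le_total τ τ⁻¹ with k | k
      · rw [min_eq_left k]
        have : y⁻¹ ≤ 1 := inv_le_one_of_one_le₀ h
        linarith
      · rw [min_eq_right k]
        have := mul_le_mul_of_nonneg_right y2 (mul_pos hτ' y').le
        have l : τ * (τ⁻¹ * y⁻¹) = y⁻¹ := by rw [← mul_assoc, e1, one_mul]
        have r : 2 * y * (τ⁻¹ * y⁻¹) = 2 * τ⁻¹ := by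
          rw [show 2 * y * (τ⁻¹ * y⁻¹) = 2 * τ⁻¹ * (y * y⁻¹) by ring, e2, mul_one]
        linarith
    have e3 : (τ * u)⁻¹ = s * y⁻¹ := by
      rw [hy]
      field_simp
    have m0 : 0 ≤ min τ τ⁻¹ := le_min hτ.le hτ'.le
    calc x ≤ 2 * P * (τ * u)⁻¹ := hb
      _ = 2 * P * s * y⁻¹ := by rw [e3]; ring
      _ ≤ 2 * P * s * (2 * min τ τ⁻¹) := by gcongr
      _ = 4 * (P * s * min τ τ⁻¹) := by ring
      _ ≤ 16 * (P * s * min τ τ⁻¹) := by gcongr; norm_num
      _ = 16 * P * s * min τ τ⁻¹ := by ring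

theorem t3 (h1 : T1Stmt) (h4 : T4Stmt) (hG : GreenStmt) : T3Stmt := by
  intro R hR
  obtain ⟨κ, b, hb0, hκ, ks, k0, k1, k2, ksum⟩ := exists_kap_T3
  have hS : 0 ≤ ∑' j, wgt_T3 j := tsum_nonneg wgt_nonneg_T3
  set S := ∑' j, wgt_T3 j with hSdef
  have hπ := Real.pi_pos
  refine ⟨b * Real.pi * S * (16 + R ^ 2) + 1, by positivity, ?_⟩
  intro E _ _ _ h c M K hb hK hh
  have hM : 0 ≤ M := (norm_nonneg _).trans (hb.2.1 0)
  let g : ℤ → ℂ → ℂ := fun j w => ((2 : ℝ) ^ j) ^ 2 • κ (((2 : ℝ) ^ j) ^ 2 • w)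
  have tp : ∀ j : ℤ, 0 < (2 : ℝ) ^ j := fun j => by positivity
  have K0 := fun j : ℤ => by
    obtain ⟨a1, a2, a3, a4, a5⟩ := scale_T3 hκ ks k0 k1 k2 (tp j) (g j) rfl
    exact ker_T3 a1 (inv_pos.2 (tp j)) a2 a3 a4 (by positivity) a5 hR hb hK hh
  choose D hD hI hN1 hN2 hD1 hD2 hD3 using K0
  have n1 : ∀ j z, ∫ ζ, ‖g j (z - ζ) • h ζ‖ ≤
      (b * M * Real.pi + b * M * Real.pi * R ^ 2) * wgt_T3 j := by
    intro j z
    have := (tp j).ne'
    refine le_min_T3 (m := 1) (n := 1) (tp j) (by positivity) (by positivity)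
      ((hN1 j z).trans (le_of_eq ?_)) ((hN2 j z).trans (le_of_eq ?_))
    · rw [show (1 + 1 : ℕ) = 2 from rfl]
      field_simp
    · ring
  have d1 : ∀ j z, ‖D j z‖ ≤ b * K * Real.pi * ((2 : ℝ) ^ j)⁻¹ := by
    intro j z
    have := (tp j).ne'
    refine (hD1 j z).trans (le_of_eq ?_)
    field_simp
  have n2 : ∀ j z, ‖D j z‖ ≤ (b * K * Real.pi + b * M * Real.pi * R ^ 2) * wgt_T3 j := by
    intro j z
    refine le_min_T3 (m := 0) (n := 3) (tp j) (by positivity) (by positivity)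
      ((d1 j z).trans (le_of_eq ?_)) ((hD2 j z).trans (le_of_eq ?_))
    · ring
    · ring
  have hsum : ∀ z, HasSum (fun j => ∫ ζ, g j (z - ζ) • h ζ) (cT h z) := by
    intro z
    have := hasSum_integral_of_summable_integral_norm (fun j => hI j z)
      (Summable.of_nonneg_of_le (fun j => integral_nonneg fun _ => norm_nonneg _)
        (fun j => n1 j z) (wgt_summable_T3.mul_left _))
    have e : (fun ζ => ∑' j, g j (z - ζ) • h ζ) =
        fun ζ => ((Real.pi : ℂ) * (z - ζ))⁻¹ • h ζ :=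
      funext fun ζ => ((ksum (z - ζ)).smul_const (h ζ)).tsum_eq
    rw [e] at this
    exact this
  have ecT : cT h = fun z => ∑' j, ∫ ζ, g j (z - ζ) • h ζ := funext fun z => (hsum z).tsum_eq.symm
  have hder : ∀ z, HasFDerivAt (cT h) (∑' j, D j z) z := by
    intro z
    rw [ecT]
    exact hasFDerivAt_tsum (wgt_summable_T3.mul_left _) hD n2 (hsum 0).summable z
  have sD : ∀ z, Summable fun j => D j z := fun z =>
    Summable.of_norm_bounded (wgt_summable_T3.mul_left _) (fun j => n2 j z)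
  have hsup : ∀ z, ‖fderiv ℝ (cT h) z‖ ≤ (b * Real.pi * S * (16 + R ^ 2) + 1) * (M + K) := by
    intro z
    rw [(hder z).fderiv]
    refine (tsum_of_norm_bounded (wgt_summable_T3.hasSum.mul_left _) (fun j => n2 j z)).trans ?_
    rw [← hSdef]
    have a : 0 ≤ b * Real.pi * S := by positivity
    nlinarith [mul_nonneg a hM, mul_nonneg a hK, mul_nonneg (mul_nonneg a hK) (sq_nonneg R)]
  have hhol : Hol ((b * Real.pi * S * (16 + R ^ 2) + 1) * (M + K)) (fderiv ℝ (cT h)) univ := by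
    intro z _ z' _
    rcases eq_or_ne z z' with rfl | hne
    · simp
    have hδ : 0 < ‖z - z'‖ := norm_pos_iff.2 (sub_ne_zero.2 hne)
    have hs : 0 < √‖z - z'‖ := Real.sqrt_pos.2 hδ
    have hs2 : √‖z - z'‖ ^ 2 = ‖z - z'‖ := Real.sq_sqrt hδ.le
    set s := √‖z - z'‖ with hsdef
    obtain ⟨j0, hj1, hj2⟩ := exists_mem_Ico_zpow (inv_pos.2 hs) (show (1 : ℝ) < 2 by norm_num)
    have e0 : s⁻¹ * s = 1 := inv_mul_cancel₀ hs.ne'
    have u1 : (2 : ℝ) ^ j0 * s ≤ 1 := by nlinarith [mul_le_mul_of_nonneg_right hj1 hs.le]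
    have u2 : 1 ≤ 2 * ((2 : ℝ) ^ j0 * s) := by
      rw [zpow_add_one₀ (by norm_num)] at hj2
      nlinarith [mul_le_mul_of_nonneg_right hj2.le hs.le]
    have term : ∀ j, ‖D j z - D j z'‖ ≤ 16 * (b * K * Real.pi) * s * wgt_T3 (j - j0) := by
      intro j
      have ej : (2 : ℝ) ^ (j - j0) * 2 ^ j0 = 2 ^ j := by
        rw [← zpow_add₀ (by norm_num), sub_add_cancel]
      have := (tp j).ne'
      refine hol_term_T3 (tp (j - j0)) (tp j0) hs (by positivity) u1 u2 ?_ ?_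
      · rw [ej, hs2]
        intro hz
        refine (hD3 j z z' hz).trans (le_of_eq ?_)
        field_simp
      · rw [ej]
        refine (norm_sub_le _ _).trans ?_
        linarith [d1 j z, d1 j z']
    have sh : HasSum (fun j => wgt_T3 (j - j0)) S :=
      (Equiv.subRight j0).hasSum_iff.2 wgt_summable_T3.hasSum
    rw [(hder z).fderiv, (hder z').fderiv, ← (sD z).tsum_sub (sD z')]
    refine (tsum_of_norm_bounded (sh.mul_left _) term).trans ?_
    have a : 0 ≤ b * Real.pi * S := by positivity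
    have a2 : 16 * (b * K * Real.pi) * S ≤ (b * Real.pi * S * (16 + R ^ 2) + 1) * (M + K) := by
      nlinarith [mul_nonneg a hM, mul_nonneg a hK, mul_nonneg (mul_nonneg a hK) (sq_nonneg R),
        mul_nonneg (mul_nonneg a hM) (sq_nonneg R)]
    calc 16 * (b * K * Real.pi) * s * S = 16 * (b * K * Real.pi) * S * s := by ring
      _ ≤ _ := mul_le_mul_of_nonneg_right a2 hs.le
  have hc1 : ContDiff ℝ 1 (cT h) :=
    contDiff_one_iff_fderiv.2 ⟨fun z => (hder z).differentiableAt, hol_cont_T3 hhol⟩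
  exact ⟨hc1, dbar_T3 hc1 (hol_cont_T3 hh) (h4 E h c R M hb), hsup, hhol⟩

end Pool.Agent.MP_2fc7fa_gt.N
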