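import Pool.Agent.MP_2fc7fa_gt.N.IfB

/-! The Cauchy transform solves the `∂̄` equation in integrated form. -/

open scoped ContDiff ComplexConjugate Topology Interval
open Set Complex Filter Metric MeasureTheory

noncomputable section

namespace Pool.Agent.MP_2fc7fa_gt.N

variable {E : Type} [NormedAddCommGroup E] [NormedSpace ℂ E]

theorem ker_int_T4 (r : ℝ) :
    Integrable ((ball (0 : ℂ) r).indicator fun u : ℂ => ‖((Real.pi : ℂ) * u)⁻¹‖) := by
  rw [integrable_indicator_iff measurableSet_ball]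
  refine integrableOn_ball_of_norm_le_rpow (C := Real.pi⁻¹) (α := 1) (by simp) (by simp)
    (Eventually.of_forall fun u => le_of_eq ?_) (Measurable.aestronglyMeasurable (by fun_prop))
  rw [norm_norm, norm_inv, norm_mul, Real.rpow_neg_one, mul_inv, norm_real,
    Real.norm_of_nonneg Real.pi_pos.le]

theorem int_T4 {h : ℂ → E} {c : ℂ} {R M : ℝ} (hh : Bdd h c R M) {γ : ℝ → ℂ} (hγ : Continuous γ)
    (a b : ℝ) :
    Integrable (Function.uncurry fun (x : ℝ) (ζ : ℂ) => ((Real.pi : ℂ) * (γ x - ζ))⁻¹ • h ζ)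
      ((volume.restrict (uIoc a b)).prod volume) := by
  obtain ⟨ρ, hρ⟩ := (isCompact_uIcc (a := a) (b := b)).exists_bound_of_continuousOn
    (f := fun x => γ x - c) (by fun_prop)
  have hM : 0 ≤ M := (norm_nonneg _).trans (hh.2.1 0)
  set g : ℂ → ℝ := (ball (0 : ℂ) (ρ + R)).indicator fun u : ℂ => ‖((Real.pi : ℂ) * u)⁻¹‖ with hg
  have hgi : Integrable g := ker_int_T4 _
  have hgm : Measurable g := Measurable.indicator (by fun_prop) measurableSet_ball
  have hG : Integrable (fun p : ℝ × ℂ => g (γ p.1 - p.2))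
      ((volume.restrict (uIoc a b)).prod volume) := by
    rw [integrable_prod_iff (Measurable.aestronglyMeasurable (by fun_prop))]
    refine ⟨Eventually.of_forall fun x => hgi.comp_sub_left (γ x), ?_⟩
    have e : ∀ x, ∫ ζ, ‖g (γ x - ζ)‖ = ∫ ζ, ‖g ζ‖ := fun x =>
      integral_sub_left_eq_self (fun ζ => ‖g ζ‖) volume (γ x)
    simp only [e]
    exact integrableOn_const (by simp [uIoc])
  refine (hG.const_mul M).mono' ?_ ?_
  · exact (Measurable.aestronglyMeasurable (by fun_prop)).smul hh.1.comp_snd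
  · filter_upwards [Measure.quasiMeasurePreserving_fst.ae
      (ae_restrict_mem (μ := volume) (s := uIoc a b) measurableSet_uIoc)] with p hp
    change ‖((Real.pi : ℂ) * (γ p.1 - p.2))⁻¹ • h p.2‖ ≤ _
    rcases le_or_gt R ‖p.2 - c‖ with h1 | h1
    · rw [hh.2.2 _ h1, smul_zero, norm_zero]
      exact mul_nonneg hM (indicator_nonneg (fun _ _ => norm_nonneg _) _)
    · have h2 : γ p.1 - p.2 ∈ ball (0 : ℂ) (ρ + R) := by
        rw [mem_ball_zero_iff]
        have h3 := hρ p.1 (uIoc_subset_uIcc hp)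
        have h4 := norm_sub_le (γ p.1 - c) (p.2 - c)
        rw [sub_sub_sub_cancel_right] at h4
        linarith
      rw [hg, indicator_of_mem h2, norm_smul, mul_comm]
      exact mul_le_mul_of_nonneg_right (hh.2.1 _) (norm_nonneg _)

variable [CompleteSpace E]

theorem side_T4 {h : ℂ → E} {c : ℂ} {R M : ℝ} (hh : Bdd h c R M) {γ : ℝ → ℂ} (hγ : Continuous γ)
    (a b : ℝ) :
    Integrable (fun ζ => (∫ x in a..b, ((Real.pi : ℂ) * (γ x - ζ))⁻¹) • h ζ) ∧
      ∫ x in a..b, cT h (γ x) = ∫ ζ, (∫ x in a..b, ((Real.pi : ℂ) * (γ x - ζ))⁻¹) • h ζ := by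
  have h1 := int_T4 hh hγ a b
  refine ⟨?_, ?_⟩
  · have h2 := h1.integral_prod_right.smul (if a ≤ b then (1 : ℝ) else -1)
    refine h2.congr (Eventually.of_forall fun ζ => ?_)
    simp only [← intervalIntegral.integral_smul_const]
    rw [intervalIntegral.intervalIntegral_eq_integral_uIoc]
    rfl
  · simp only [← intervalIntegral.integral_smul_const]
    exact intervalIntegral_integral_swap h1

theorem fub_T4 {h : ℂ → E} {c : ℂ} {R M : ℝ} (hh : Bdd h c R M) (a b c' d : ℝ) :
    rectInt (cT h) a b c' d =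
      ∫ ζ, rectInt (fun z => ((Real.pi : ℂ) * (z - ζ))⁻¹) a b c' d • h ζ := by
  obtain ⟨i1, e1⟩ := side_T4 hh (γ := fun x => x + c' * I) (by fun_prop) a b
  obtain ⟨i2, e2⟩ := side_T4 hh (γ := fun x => x + d * I) (by fun_prop) a b
  obtain ⟨i3, e3⟩ := side_T4 hh (γ := fun y => b + y * I) (by fun_prop) c' d
  obtain ⟨i4, e4⟩ := side_T4 hh (γ := fun y => a + y * I) (by fun_prop) c' d
  simp only [rectInt, sub_smul, add_smul, smul_assoc]
  rw [e1, e2, e3, e4, integral_sub, integral_add, integral_sub i1 i2, integral_smul, integral_smul]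
  exacts [i1.sub i2, i3.smul I, (i1.sub i2).add (i3.smul I), i4.smul I]

theorem log_T4 {γ : ℝ → ℂ} {v : ℂ} (hγ : ∀ t, HasDerivAt γ v t) (hs : ∀ t, γ t ∈ slitPlane)
    (a b : ℝ) : v * ∫ t in a..b, (γ t)⁻¹ = log (γ b) - log (γ a) := by
  have hc : Continuous γ := continuous_iff_continuousAt.2 fun t => (hγ t).continuousAt
  rw [← intervalIntegral.integral_const_mul]
  refine intervalIntegral.integral_eq_sub_of_hasDerivAt (f := fun t => log (γ t))
    (fun t _ => (hγ t).clog_real (hs t)) (Continuous.intervalIntegrable ?_ _ _)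
  exact continuous_const.mul (hc.inv₀ fun t => slitPlane_ne_zero (hs t))

theorem log_neg_pos_T4 {u : ℂ} (hu : 0 < u.im) : log (-u) = log u - Real.pi * I := by
  rw [log, log, norm_neg, arg_neg_eq_arg_sub_pi_of_im_pos hu]
  push_cast
  ring

theorem log_neg_neg_T4 {u : ℂ} (hu : u.im < 0) : log (-u) = log u + Real.pi * I := by
  rw [log, log, norm_neg, arg_neg_eq_arg_add_pi_of_im_neg hu]
  push_cast
  ring

theorem inside_T4 {a b c d : ℝ} {w : ℂ} (ha : a < w.re) (hb : w.re < b) (hc : c < w.im)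
    (hd : w.im < d) : rectInt (fun z => ((Real.pi : ℂ) * (z - w))⁻¹) a b c d = 2 * I := by
  have hx : ∀ (p : ℂ) (t : ℝ), HasDerivAt (fun x : ℝ => (x : ℂ) + p - w) 1 t := fun p t =>
    ((hasDerivAt_id t).ofReal_comp.add_const p).sub_const w
  have hy : ∀ (p : ℂ) (t : ℝ), HasDerivAt (fun y : ℝ => p + (y : ℂ) * I - w) I t := fun p t => by
    simpa using (((hasDerivAt_id t).ofReal_comp.mul_const I).const_add p).sub_const w
  have e1 := log_T4 (hx (c * I)) (fun t => Or.inr (by simp; linarith)) a b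
  have e2 := log_T4 (hx (d * I)) (fun t => Or.inr (by simp; linarith)) a b
  have e3 := log_T4 (hy b) (fun t => Or.inl (by simp; linarith)) c d
  have e4 := log_T4 (fun t => (hy a t).neg) (fun t => Or.inl (by simp; linarith)) c d
  simp only [Pi.neg_apply, inv_neg, intervalIntegral.integral_neg, neg_mul_neg] at e4
  rw [log_neg_pos_T4 (by simp; linarith), log_neg_neg_T4 (by simp; linarith)] at e4
  have hπ : (Real.pi : ℂ) ≠ 0 := ofReal_ne_zero.2 Real.pi_ne_zero
  simp only [rectInt, mul_inv, intervalIntegral.integral_const_mul, smul_eq_mul]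
  linear_combination (Real.pi : ℂ)⁻¹ * (e1 - e2 + e3 - e4) + 2 * I * inv_mul_cancel₀ hπ

theorem outside_T4 {a b c d : ℝ} (hab : a ≤ b) (hcd : c ≤ d) {w : ℂ}
    (hw : ¬ (w.re ∈ Icc a b ∧ w.im ∈ Icc c d)) :
    rectInt (fun z => ((Real.pi : ℂ) * (z - w))⁻¹) a b c d = 0 := by
  refine integral_boundary_rect_eq_zero_of_differentiableOn
    (fun z => ((Real.pi : ℂ) * (z - w))⁻¹) ⟨a, c⟩ ⟨b, d⟩ fun z hz => ?_
  have h1 : z - w ≠ 0 := by
    rw [sub_ne_zero]
    rintro rfl
    rw [uIcc_of_le hab, uIcc_of_le hcd] at hz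
    exact hw hz
  refine DifferentiableAt.differentiableWithinAt (DifferentiableAt.inv (by fun_prop) ?_)
  exact mul_ne_zero (ofReal_ne_zero.2 Real.pi_ne_zero) h1

theorem t4 (h1 : T1Stmt) : T4Stmt := by
  intro E _ _ _ h c R M hh a b c' d hab hcd
  have hre : ∀ t : ℝ, ∀ᵐ w : ℂ, w.re ≠ t := fun t =>
    (Measure.quasiMeasurePreserving_fst.comp
      volume_preserving_equiv_real_prod.quasiMeasurePreserving).ae (Measure.ae_ne volume t)
  have him : ∀ t : ℝ, ∀ᵐ w : ℂ, w.im ≠ t := fun t =>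
    (Measure.quasiMeasurePreserving_snd.comp
      volume_preserving_equiv_real_prod.quasiMeasurePreserving).ae (Measure.ae_ne volume t)
  have hS : MeasurableSet (measurableEquivRealProd ⁻¹' (Ioc a b ×ˢ Ioc c' d)) :=
    measurableEquivRealProd.measurable (measurableSet_Ioc.prod measurableSet_Ioc)
  have e1 : ∀ᵐ w : ℂ, rectInt (fun z => ((Real.pi : ℂ) * (z - w))⁻¹) a b c' d • h w =
      (2 * I) • (measurableEquivRealProd ⁻¹' (Ioc a b ×ˢ Ioc c' d)).indicator h w := by
    filter_upwards [hre a, hre b, him c', him d] with w h2 h3 h4 h5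
    by_cases hw : w.re ∈ Icc a b ∧ w.im ∈ Icc c' d
    · have h6 := lt_of_le_of_ne hw.1.1 h2.symm
      have h7 := lt_of_le_of_ne hw.2.1 h4.symm
      rw [inside_T4 h6 (lt_of_le_of_ne hw.1.2 h3) h7 (lt_of_le_of_ne hw.2.2 h5),
        indicator_of_mem]
      exact ⟨⟨h6, hw.1.2⟩, ⟨h7, hw.2.2⟩⟩
    · rw [outside_T4 hab hcd hw, zero_smul, indicator_of_notMem, smul_zero]
      exact fun h6 => hw ⟨Ioc_subset_Icc_self h6.1, Ioc_subset_Icc_self h6.2⟩
  rw [fub_T4 hh, integral_congr_ae e1, integral_smul, integral_indicator hS]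
  congr 1
  have hi : IntegrableOn (fun p : ℝ × ℝ => h (p.1 + p.2 * I)) (Ioc a b ×ˢ Ioc c' d)
      (volume.prod volume) := by
    have hm : AEStronglyMeasurable (fun p : ℝ × ℝ => h (p.1 + p.2 * I)) (volume.prod volume) := by
      have h2 := hh.1.comp_quasiMeasurePreserving
        volume_preserving_equiv_real_prod.symm.quasiMeasurePreserving
      refine h2.congr (Eventually.of_forall fun p => ?_)
      simp [measurableEquivRealProd_symm_apply, mk_eq_add_mul_I]
    refine Measure.integrableOn_of_bounded (M := M) ?_ hm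
      (Eventually.of_forall fun p => hh.2.1 _)
    rw [Measure.prod_prod]
    exact ENNReal.mul_ne_top (by simp) (by simp)
  have e2 := volume_preserving_equiv_real_prod.setIntegral_preimage_emb
    measurableEquivRealProd.measurableEmbedding (fun p : ℝ × ℝ => h (p.1 + p.2 * I))
    (Ioc a b ×ˢ Ioc c' d)
  simp only [measurableEquivRealProd_apply, re_add_im] at e2
  rw [e2, intervalIntegral.integral_of_le hab]
  simp only [intervalIntegral.integral_of_le hcd]
  exact setIntegral_prod _ hi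

end Pool.Agent.MP_2fc7fa_gt.N
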