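import Pool.Agent.MP_2fc7fa_gt.N.IfI

/-! Solutions of the cut-off equation are lines, and conversely. -/

open scoped ContDiff ComplexConjugate Topology
open Set Complex

namespace Pool.Agent.MP_2fc7fa_gt.N

theorem diff_ToLine {U : W → V} (h : Hom1 U) {q : W} (hq : q ≠ 0) :
    HasFDerivAt U (fderiv ℝ U q) q :=
  ((h.1.contDiffAt (isOpen_compl_singleton.mem_nhds hq)).differentiableAt
    one_ne_zero).hasFDerivAt

theorem zero_ToLine {U : W → V} (h : Hom1 U) : U 0 = 0 := by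
  simpa using h.2 0 0

theorem fd_smul_ToLine {U : W → V} (h : Hom1 U) {c : ℂ} (hc : c ≠ 0) {q : W}
    (hq : q ≠ 0) (k : W) : fderiv ℝ U (c • q) (c • k) = c • fderiv ℝ U q k := by
  let G : W →L[ℝ] W := (c • ContinuousLinearMap.id ℂ W).restrictScalars ℝ
  have h1 : HasFDerivAt (U ∘ G) ((fderiv ℝ U (c • q)).comp G) q :=
    HasFDerivAt.comp q (diff_ToLine h (smul_ne_zero hc hq)) G.hasFDerivAt
  have h2 : U ∘ G = c • U := funext fun x => h.2 c x
  rw [h2] at h1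
  exact congrArg (fun T : W →L[ℝ] V => T k) (h1.unique ((diff_ToLine h hq).const_smul c))

theorem fd_rad_ToLine {U : W → V} (h : Hom1 U) {q : W} (hq : q ≠ 0) (a : ℂ) :
    fderiv ℝ U q (a • q) = a • U q := by
  let L : ℂ →L[ℝ] W := (ContinuousLinearMap.toSpanSingleton ℂ q).restrictScalars ℝ
  let M : ℂ →L[ℝ] V := (ContinuousLinearMap.toSpanSingleton ℂ (U q)).restrictScalars ℝ
  have e : L 1 = q := one_smul ℂ q
  have h1 : HasFDerivAt (U ∘ L) ((fderiv ℝ U q).comp L) 1 :=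
    HasFDerivAt.comp 1 (by rw [e]; exact diff_ToLine h hq) L.hasFDerivAt
  have h2 : U ∘ L = M := funext fun z => h.2 z q
  rw [h2] at h1
  exact congrArg (fun T : ℂ →L[ℝ] V => T a) (h1.unique M.hasFDerivAt)

theorem A_scale_ToLine (φ : Fr) {x : V} (hx : x ≠ 0) {c : ℂ} (hc : c ≠ 0) (v : V) :
    φ.A (c • x) (c • v) = c • φ.A x v := by
  conv_lhs => rw [← φ.BA x hx v, ← φ.scale x hx c hc, φ.AB _ (smul_ne_zero hc hx)]

theorem A_vert_ToLine (φ : Fr) {x : V} (hx : x ≠ 0) (c : ℂ) : φ.A x (c • x) = c • x := by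
  conv_lhs => rw [← φ.vert x hx c, φ.AB x hx]

theorem hom_of_ToLine {U : W → V} (h1 : ContDiffOn ℝ 1 U {0}ᶜ) (h0 : U 0 = 0)
    (h2 : ∀ c : ℂ, c ≠ 0 → ∀ q, q ≠ 0 → U (c • q) = c • U q) : Hom1 U := by
  refine ⟨h1, fun c q => ?_⟩
  by_cases hc : c = 0
  · rw [hc, zero_smul, zero_smul, h0]
  by_cases hq : q = 0
  · rw [hq, smul_zero, h0, smul_zero]
  exact h2 c hc q hq

theorem cc_ne_ToLine (i : Bool) (z : ℂ) : cc i z ≠ 0 := by
  cases i <;> simp [cc]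

theorem cc_der_ToLine (i : Bool) (z : ℂ) : HasFDerivAt (cc i)
    ((ContinuousLinearMap.toSpanSingleton ℂ (cc i 1 - cc i 0)).restrictScalars ℝ) z := by
  have h : cc i = fun w => cc i 0 +
      ((ContinuousLinearMap.toSpanSingleton ℂ (cc i 1 - cc i 0)).restrictScalars ℝ) w := by
    funext w
    cases i <;> simp [cc]
  have h2 := ((ContinuousLinearMap.toSpanSingleton ℂ (cc i 1 - cc i 0)).restrictScalars
    ℝ).hasFDerivAt.const_add (x := z) (cc i 0)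
  rwa [← h] at h2

theorem fd_cc_ToLine {E : Type} [NormedAddCommGroup E] [NormedSpace ℝ E] {F : W → E}
    {L : W →L[ℝ] E} {i : Bool} {z : ℂ} (h : HasFDerivAt F L (cc i z)) (w : ℂ) :
    fderiv ℝ (F ∘ cc i) z w = L (w • (cc i 1 - cc i 0)) :=
  congrArg (fun T : ℂ →L[ℝ] E => T w) (h.comp z (cc_der_ToLine i z)).fderiv

/-- The antilinear part. -/
noncomputable def al_ToLine (L : W → W →L[ℝ] V) (q k : W) : V := L q k + I • L q (I • k)

theorem cov_ToLine (hC : CovStmt) (L : W → W →L[ℝ] V) (y : W → V)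
    (h1 : ∀ q, q ≠ 0 → ∀ c : ℂ, L q (c • q) = c • y q)
    (h2 : ∀ q, q ≠ 0 → ∀ c : ℂ, c ≠ 0 → ∀ k, L (c • q) (c • k) = c • L q k) :
    (∀ i z, z ≠ 0 → al_ToLine L (cc i z) (cc i 1 - cc i 0) =
      tr (fun w => al_ToLine L (cc (!i) w) (cc (!i) 1 - cc (!i) 0)) z) ∧
    ((∀ i z, al_ToLine L (cc i z) (cc i 1 - cc i 0) = 0) →
      ∀ q, q ≠ 0 → ∀ h, al_ToLine L q h = 0) := by
  refine hC _ (fun q _ h h' => ?_) (fun q _ c h => ?_) (fun q hq => ?_) fun q hq c hc h => ?_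
  · simp only [al_ToLine, smul_add, map_add]
    abel
  · have e1 : c • h = c.re • h + c.im • (I • h) := by
      rw [← coe_smul, ← coe_smul, smul_smul, ← add_smul, re_add_im]
    have e2 : I • c • h = c.re • (I • h) - c.im • h := by
      rw [← coe_smul, ← coe_smul, smul_smul, smul_smul, ← sub_smul]
      congr 1
      apply Complex.ext <;> simp
    have e3 : conj c = c.re - c.im * I := by
      apply Complex.ext <;> simp
    have f1 : L q (c • h) = (c.re : ℂ) • L q h + (c.im : ℂ) • L q (I • h) := by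
      rw [e1, map_add, map_smul, map_smul, coe_smul, coe_smul]
    have f2 : L q (I • c • h) = (c.re : ℂ) • L q (I • h) - (c.im : ℂ) • L q h := by
      rw [e2, map_sub, map_smul _ c.re, map_smul _ c.im, coe_smul, coe_smul]
    rw [al_ToLine, al_ToLine, f1, f2, e3]
    generalize L q h = x
    generalize L q (I • h) = y
    match_scalars
    · ring
    · linear_combination (c.im : ℂ) * I_mul_I
  · have := h1 q hq 1
    rw [one_smul, one_smul] at this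
    rw [al_ToLine, this, h1 q hq, smul_smul, I_mul_I, neg_one_smul, add_neg_cancel]
  · rw [al_ToLine, al_ToLine, smul_comm I c h, h2 q hq c hc, h2 q hq c hc, smul_add,
      smul_comm I c]

theorem dbar_ToLine {η : W → V} (h : Hom1 η) (i : Bool) (z : ℂ) : dbar (η ∘ cc i) z =
    (1 / 2 : ℂ) • al_ToLine (fderiv ℝ η) (cc i z) (cc i 1 - cc i 0) := by
  rw [dbar, fd_cc_ToLine (diff_ToLine h (cc_ne_ToLine i z)),
    fd_cc_ToLine (diff_ToLine h (cc_ne_ToLine i z)), one_smul, al_ToLine]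

variable {φ φ₀ : Fr} {U₀ η : W → V}

theorem BU_ToLine (h0 : IsLine φ₀.J U₀) : ContDiffOn ℝ 1 (fun q => φ₀.B (U₀ q)) {0}ᶜ :=
  (φ₀.smoothB.of_le (mod_cast le_top)).comp h0.c1 fun q hq => h0.ne q hq

theorem hom_pert_ToLine (h0 : IsLine φ₀.J U₀) (h : Hom1 η) : Hom1 (pert φ₀ U₀ η) := by
  refine hom_of_ToLine (h0.c1.add ((BU_ToLine h0).clm_apply h.1)) ?_ fun c hc q hq => ?_
  · rw [pert, zero_ToLine h, zero_ToLine ⟨h0.c1, h0.hom⟩, map_zero, add_zero]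
  · rw [pert, pert, h0.hom, h.2, φ₀.scale _ (h0.ne q hq) c hc, smul_add]

theorem fd_pert_ToLine (h0 : IsLine φ₀.J U₀) (h : Hom1 η) {q : W} (hq : q ≠ 0) (k : W) :
    fderiv ℝ (pert φ₀ U₀ η) q k = fderiv ℝ U₀ q k +
      fderiv ℝ (fun q => φ₀.B (U₀ q)) q k (η q) + φ₀.B (U₀ q) (fderiv ℝ η q k) := by
  have hB := (((BU_ToLine h0).contDiffAt (isOpen_compl_singleton.mem_nhds hq)).differentiableAt
    one_ne_zero).hasFDerivAt
  have h1 : HasFDerivAt (pert φ₀ U₀ η) _ q :=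
    (diff_ToLine ⟨h0.c1, h0.hom⟩ hq).add (hB.clm_apply (diff_ToLine h hq))
  rw [h1.fderiv]
  simp only [add_apply, ContinuousLinearMap.comp_apply,
    ContinuousLinearMap.flip_apply]
  abel

/-- The derivative read in the frame. -/
noncomputable def AD_ToLine (φ : Fr) (U : W → V) (q : W) : W →L[ℝ] V :=
  (φ.A (U q)).comp (fderiv ℝ U q)

theorem Nl_ToLine (h0 : IsLine φ₀.J U₀) (h : Hom1 η) (i : Bool) (z : ℂ) :
    Nl φ φ₀ U₀ i (z, jc η i z) =
      (1 / 2 : ℂ) • al_ToLine (AD_ToLine φ (pert φ₀ U₀ η)) (cc i z) (cc i 1 - cc i 0) -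
        dbar (η ∘ cc i) z := by
  have hq := cc_ne_ToLine i z
  have hB := (((BU_ToLine h0).contDiffAt (isOpen_compl_singleton.mem_nhds hq)).differentiableAt
    one_ne_zero).hasFDerivAt
  have e : ∀ w : ℂ, fderiv ℝ (U₀ ∘ cc i) z w +
      fderiv ℝ (fun z => φ₀.B (U₀ (cc i z))) z w (η (cc i z)) +
      φ₀.B (U₀ (cc i z)) (fderiv ℝ (η ∘ cc i) z w) =
      fderiv ℝ (pert φ₀ U₀ η) (cc i z) (w • (cc i 1 - cc i 0)) := by
    intro w
    rw [fd_pert_ToLine h0 h hq, ← fd_cc_ToLine hB w,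
      fd_cc_ToLine (diff_ToLine ⟨h0.c1, h0.hom⟩ hq), fd_cc_ToLine (diff_ToLine h hq)]
    rfl
  simp only [Nl, jc, e, one_smul]
  rfl

theorem covA_ToLine (hC : CovStmt) (φ : Fr) {U : W → V} (h : Hom1 U)
    (hne : ∀ q, q ≠ 0 → U q ≠ 0) :
    (∀ i z, z ≠ 0 → al_ToLine (AD_ToLine φ U) (cc i z) (cc i 1 - cc i 0) =
      tr (fun w => al_ToLine (AD_ToLine φ U) (cc (!i) w) (cc (!i) 1 - cc (!i) 0)) z) ∧
    ((∀ i z, al_ToLine (AD_ToLine φ U) (cc i z) (cc i 1 - cc i 0) = 0) →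
      ∀ q, q ≠ 0 → ∀ h, al_ToLine (AD_ToLine φ U) q h = 0) := by
  refine cov_ToLine hC _ U (fun q hq c => ?_) fun q hq c hc k => ?_
  · rw [AD_ToLine, ContinuousLinearMap.comp_apply, fd_rad_ToLine h hq,
      A_vert_ToLine φ (hne q hq)]
  · rw [AD_ToLine, AD_ToLine, ContinuousLinearMap.comp_apply, ContinuousLinearMap.comp_apply,
      fd_smul_ToLine h hc hq, h.2, A_scale_ToLine φ (hne q hq) hc]

theorem Nl_tr_ToLine (hC : CovStmt) (h0 : IsLine φ₀.J U₀) (h : Hom1 η)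
    (hne : ∀ q, q ≠ 0 → pert φ₀ U₀ η q ≠ 0) (i : Bool) (z : ℂ) (hz : z ≠ 0) :
    Nl φ φ₀ U₀ i (z, jc η i z) = tr (fun w => Nl φ φ₀ U₀ (!i) (w, jc η (!i) w)) z := by
  have h1 := (covA_ToLine hC φ (hom_pert_ToLine h0 h) hne).1 i z hz
  have h2 := (cov_ToLine hC (fderiv ℝ η) η (fun q hq c => fd_rad_ToLine h hq c)
    fun q hq c hc k => fd_smul_ToLine h hc hq k).1 i z hz
  rw [Nl_ToLine h0 h, dbar_ToLine h, h1, h2, tr, tr, tr, Nl_ToLine h0 h, dbar_ToLine h, smul_sub,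
    smul_comm (1 / 2 : ℂ), smul_comm (1 / 2 : ℂ)]

theorem glue_ToLine (κ : Bumps) (N h : Bool → ℂ → V) (hN : ∀ i z, z ≠ 0 → N i z = tr (N (!i)) z)
    (hh : ∀ i z, h i z = -(κ.χ z • N i z)) (i : Bool) (z : ℂ) :
    κ.ρ z • h i z + tr (fun w => κ.ρ w • h (!i) w) z = -N i z := by
  have e : ∀ i z, κ.ρ z • h i z = -(κ.χ z • N i z) := by
    intro i z
    rw [hh]
    rcases le_total ‖z‖ 2 with hz | hz
    · rw [κ.one' z hz, one_smul]
    · rw [κ.zero z hz, zero_smul, neg_zero, smul_zero]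
  rw [tr, e, e]
  by_cases hz : z = 0
  · subst hz
    rw [κ.one 0 (by simp), zero_div, neg_zero, zero_smul, add_zero, one_smul]
  · have h1 := hN i z hz
    rw [tr] at h1
    rw [smul_neg, smul_comm, ← h1, ← neg_add, ← add_smul, κ.sum z hz, one_smul]

theorem con_pert_ToLine (h0 : IsLine φ₀.J U₀) (h : Hom1 η) (b : Bool) :
    mOf φ₀ U₀ b (con b (pert φ₀ U₀ η)) = con b η := by
  have e1 : ((1, 0) : W) ≠ 0 := by simp
  have e2 : ((0, 1) : W) ≠ 0 := by simp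
  have k : ∀ q : W, q ≠ 0 → φ₀.A (U₀ q) (pert φ₀ U₀ η q - U₀ q) = η q := fun q hq => by
    rw [pert, add_sub_cancel_left, φ₀.AB _ (h0.ne q hq)]
  cases b
  · simp only [mOf, con, jet, Bool.false_eq_true, if_false, k _ e1, fd_pert_ToLine h0 h e1]
    rw [add_assoc, add_sub_cancel_left, add_sub_cancel_left, φ₀.AB _ (h0.ne _ e1)]
  · simp only [mOf, con, if_true, k _ e1, k _ e2]

theorem mOf_inj_ToLine (h0 : IsLine φ₀.J U₀) (b : Bool) {a a' : V × V}
    (h : mOf φ₀ U₀ b a = mOf φ₀ U₀ b a') : a = a' := by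
  have e1 : ((1, 0) : W) ≠ 0 := by simp
  have e2 : ((0, 1) : W) ≠ 0 := by simp
  have k : ∀ q : W, q ≠ 0 → Function.Injective (φ₀.A (U₀ q)) := fun q hq =>
    Function.LeftInverse.injective (φ₀.BA _ (h0.ne q hq))
  have h1 : a.1 = a'.1 := sub_left_injective (k _ e1 (congrArg Prod.fst h))
  have h2 := congrArg Prod.snd h
  refine Prod.ext h1 ?_
  cases b
  · simp only [mOf, Bool.false_eq_true, if_false, h1] at h2
    exact sub_left_injective (sub_left_injective (k _ e1 h2))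
  · simp only [mOf, if_true] at h2
    exact sub_left_injective (k _ e2 h2)

theorem sec_ToLine (hS : SStmt) (κ : Bumps) (b : Bool) {h : Bool → ℂ → V} {M : ℝ}
    (hM : ∀ i, HB M (h i) univ) (m : V × V) :
    Hom1 (sec1 κ b h m) ∧ con b (sec1 κ b h m) = m ∧ ∀ i z, dbar (sec1 κ b h m ∘ cc i) z =
      κ.ρ z • h i z + tr (fun w => κ.ρ w • h (!i) w) z := by
  obtain ⟨C, -, h1, -⟩ := hS κ b
  obtain ⟨a1, a2, -, -, a3⟩ := h1 h m (max M ‖m‖) (fun i =>
    ⟨fun z hz => ((hM i).1 z hz).trans (le_max_left _ _), fun z hz z' hz' =>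
      ((hM i).2 z hz z' hz').trans
        (mul_le_mul_of_nonneg_right (le_max_left _ _) (Real.sqrt_nonneg _))⟩) (le_max_right _ _)
  exact ⟨a1, a2, a3⟩

theorem toLine (hS : SStmt) (hC : CovStmt) : ToLineStmt := by
  intro κ φ φ₀ U₀ b h a M h0 hM hne heq
  obtain ⟨h1, h2, h3⟩ := sec_ToLine hS κ b hM (mOf φ₀ U₀ b a)
  generalize sec1 κ b h (mOf φ₀ U₀ b a) = η at hne heq h1 h2 h3 ⊢
  have hU := hom_pert_ToLine h0 h1
  refine ⟨⟨hU.1, hne, hU.2, fun q hq k => ?_⟩,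
    mOf_inj_ToLine h0 b ((con_pert_ToLine h0 h1 b).trans h2)⟩
  have h4 := (covA_ToLine hC φ hU hne).2 (fun i z => by
    have e := (h3 i z).trans (glue_ToLine κ (fun i z => Nl φ φ₀ U₀ i (z, jc η i z)) h
      (Nl_tr_ToLine hC h0 h1 hne) (fun i z => eq_neg_of_add_eq_zero_left (heq i z)) i z)
    rw [Nl_ToLine h0 h1, neg_sub, eq_sub_iff_add_eq, add_eq_left, smul_eq_zero] at e
    exact e.resolve_left (by norm_num)) q hq k
  have h5 : AD_ToLine φ (pert φ₀ U₀ η) q (I • k) = I • AD_ToLine φ (pert φ₀ U₀ η) q k := by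
    rw [eq_neg_of_add_eq_zero_left h4, smul_neg, smul_smul, I_mul_I, neg_one_smul, neg_neg]
  rw [← φ.BA _ (hne q hq) (fderiv ℝ (pert φ₀ U₀ η) q (I • k))]
  exact congrArg (φ.B _) h5

theorem fromLine (hS : SStmt) (hC : CovStmt) (hL : LiouStmt) : FromLineStmt := by
  intro κ φ φ₀ U₀ U b M h0 hU hM
  have h1 : Hom1 (etaOf φ₀ U₀ U) := by
    refine hom_of_ToLine (((φ₀.smoothA.of_le (mod_cast le_top)).comp h0.c1
      fun q hq => h0.ne q hq).clm_apply (hU.c1.sub h0.c1)) ?_ fun c hc q hq => ?_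
    · rw [etaOf, zero_ToLine ⟨hU.c1, hU.hom⟩, zero_ToLine ⟨h0.c1, h0.hom⟩, sub_zero, map_zero]
    · rw [etaOf, etaOf, hU.hom, h0.hom, ← smul_sub, A_scale_ToLine φ₀ (h0.ne q hq) hc]
  have hp : pert φ₀ U₀ (etaOf φ₀ U₀ U) = U := by
    funext q
    by_cases hq : q = 0
    · rw [hq, zero_ToLine (hom_pert_ToLine h0 h1), zero_ToLine ⟨hU.c1, hU.hom⟩]
    · rw [pert, etaOf, φ₀.BA _ (h0.ne q hq), add_sub_cancel]
  refine ⟨?_, hp⟩
  obtain ⟨a1, a2, a3⟩ := sec_ToLine hS κ b hM (mOf φ₀ U₀ b (con b U))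
  have hg := glue_ToLine κ (fun i z => Nl φ φ₀ U₀ i (z, jc (etaOf φ₀ U₀ U) i z))
    (hOf κ φ φ₀ U₀ U) (Nl_tr_ToLine hC h0 h1 (by rw [hp]; exact hU.ne)) fun _ _ => rfl
  have hc := con_pert_ToLine h0 h1 b
  have hN := Nl_ToLine (φ := φ) h0 h1
  rw [hp] at hc hN
  generalize sec1 κ b (hOf κ φ φ₀ U₀ U) (mOf φ₀ U₀ b (con b U)) = η' at a1 a2 a3 ⊢
  generalize etaOf φ₀ U₀ U = η at h1 hg hc hN ⊢
  have hd : Hom1 (η - η') := ⟨h1.1.sub a1.1, fun c q => by
    rw [Pi.sub_apply, Pi.sub_apply, h1.2, a1.2, smul_sub]⟩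
  have hfd : ∀ q, q ≠ 0 → fderiv ℝ (η - η') q = fderiv ℝ η q - fderiv ℝ η' q := fun q hq =>
    ((diff_ToLine h1 hq).sub (diff_ToLine a1 hq)).fderiv
  refine sub_eq_zero.1 (hL _ b hd (fun i z => ?_) ?_)
  · have hq := cc_ne_ToLine i z
    have e0 : al_ToLine (AD_ToLine φ U) (cc i z) (cc i 1 - cc i 0) = 0 := by
      simp only [al_ToLine, AD_ToLine, ContinuousLinearMap.comp_apply]
      rw [hU.hol _ hq, Fr.J, φ.AB _ (hU.ne _ hq), smul_smul, I_mul_I, neg_one_smul,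
        add_neg_cancel]
    have e1 : dbar (η' ∘ cc i) z = dbar (η ∘ cc i) z := by
      rw [a3, hg, hN, e0, smul_zero, zero_sub, neg_neg]
    rw [dbar_ToLine h1, dbar_ToLine a1] at e1
    rw [dbar_ToLine hd, ← sub_self ((1 / 2 : ℂ) • al_ToLine (fderiv ℝ η) (cc i z) _)]
    nth_rewrite 2 [← e1]
    simp only [al_ToLine, hfd _ hq, sub_apply, smul_sub, smul_add]
    abel
  · have e1 : ((1, 0) : W) ≠ 0 := by simp
    have e : con b (η - η') = con b η - con b η' := by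
      cases b
      · simp only [con, jet, Bool.false_eq_true, if_false, hfd _ e1]
        rfl
      · rfl
    rw [e, a2, hc, sub_self]

end Pool.Agent.MP_2fc7fa_gt.N
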