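import Pool.Agent.MP_2fc7fa_gt.N.IfB2

/-! Uniqueness of families of embedded lines, and closure under reparametrisation. -/

open scoped ContDiff Topology
open Set Complex Filter Metric

namespace Pool.Agent.MP_2fc7fa_gt.N

variable {P : Type} [TopologicalSpace P]

lemma jcD_Uniq {U : P → W → V} (h : Fam {0}ᶜ 1 V U) : JC {0}ᶜ fun p => fderiv ℝ (U p) :=
  ((h.fderivWithin isOpen_compl_singleton.uniqueDiffOn).congr fun _ _ hx =>
    (fderivWithin_of_isOpen isOpen_compl_singleton hx).symm).jc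

lemma cont_Uniq {E : Type} [TopologicalSpace E] {F : P → W → E} (h : JC {0}ᶜ F) {q : W}
    (hq : q ≠ 0) : Continuous fun p => F p q :=
  ContinuousOn.comp_continuous (g := fun z : P × W => F z.1 z.2) (f := fun p => (p, q)) h
    (by fun_prop) fun _ => ⟨mem_univ _, hq⟩

lemma ev_Uniq {E : Type} [NormedAddCommGroup E] {F : P → W → E} (h : JC {0}ᶜ F) (p₀ : P) {ε : ℝ}
    (hε : 0 < ε) : ∀ᶠ p in 𝓝 p₀, ∀ q ∈ sphere (0 : W) 1, ‖F p q - F p₀ q‖ ≤ ε := by
  refine (isCompact_sphere (0 : W) 1).eventually_forall_of_forall_eventually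
    (P := fun p q => ‖F p q - F p₀ q‖ ≤ ε) fun q hq => ?_
  have hq0 : q ≠ 0 := ne_zero_of_mem_sphere one_ne_zero ⟨q, hq⟩
  have h1 : ContinuousAt (fun z : P × W => F z.1 z.2) (p₀, q) :=
    ContinuousOn.continuousAt h ((isOpen_univ.prod isOpen_compl_singleton).mem_nhds ⟨trivial, hq0⟩)
  have h2 : ContinuousAt (fun z : P × W => F p₀ z.2) (p₀, q) :=
    ContinuousAt.comp (g := F p₀) (f := Prod.snd)
      ((h.at p₀).continuousAt (isOpen_compl_singleton.mem_nhds hq0)) continuousAt_snd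
  exact ((h1.sub h2).norm.eventually_lt continuousAt_const (by simpa using hε)).mono
    fun _ hz => hz.le

lemma near_Uniq {U : P → W → V} (h : Fam {0}ᶜ 1 V U) (p₀ : P) {ε : ℝ} (hε : 0 < ε) :
    ∀ᶠ p in 𝓝 p₀, Near ε (U p) (U p₀) := by
  filter_upwards [ev_Uniq h.jc p₀ hε, ev_Uniq (jcD_Uniq h) p₀ hε] with p h1 h2 q hq
  exact ⟨h1 q (mem_sphere_zero_iff_norm.2 hq), h2 q (mem_sphere_zero_iff_norm.2 hq)⟩

lemma e1_Uniq : ((1, 0) : W) ≠ 0 := fun h => one_ne_zero (congrArg Prod.fst h)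

lemma jet_Uniq {U : P → W → V} (h : Fam {0}ᶜ 1 V U) : Continuous fun p => jet (U p) :=
  (cont_Uniq h.jc e1_Uniq).prodMk ((cont_Uniq (jcD_Uniq h) e1_Uniq).clm_apply continuous_const)

lemma zero_Uniq {J : V → V → V} {U : W → V} (h : IsLine J U) : U 0 = 0 := by
  simpa using h.hom 0 0

lemma diff_Uniq {J : V → V → V} {U : W → V} (h : IsLine J U) {q : W} (hq : q ≠ 0) :
    DifferentiableAt ℝ U q :=
  (h.c1.contDiffAt (isOpen_compl_singleton.mem_nhds hq)).differentiableAt one_ne_zero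

theorem uniq (hI : IFTStmt) : UniqStmt := by
  intro φ U U' hφ hU hU' h h1
  have hc : IsClopen {s | U s = U' s} := by
    refine ⟨?_, isOpen_iff_mem_nhds.2 fun s₀ hs => ?_⟩
    · have : {s | U s = U' s} = ⋂ q ∈ ({0}ᶜ : Set W), {s | U s q = U' s q} := by
        ext s
        simp only [mem_ofPred_eq, mem_iInter]
        refine ⟨fun e q _ => congrFun e q, fun e => funext fun q => ?_⟩
        by_cases hq : q = 0
        · rw [hq, zero_Uniq (h s).1, zero_Uniq (h s).2.2.1]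
        · exact e q hq
      rw [this]
      exact isClosed_biInter fun q hq => isClosed_eq (cont_Uniq hU.jc hq) (cont_Uniq hU'.jc hq)
    · obtain ⟨N, hN, ε, hε, S, -, -, -, hS⟩ := hI UI φ s₀ (U s₀) false hφ (h s₀).1 (h s₀).2.1
      have hm : ∀ᶠ s in 𝓝 s₀, (s, jet (U s)) ∈ N :=
        (continuous_id.prodMk (jet_Uniq hU)).continuousAt.preimage_mem_nhds hN
      filter_upwards [hm, near_Uniq hU s₀ hε, near_Uniq hU' s₀ hε] with s a1 a2 a3
      rw [← show U s₀ = U' s₀ from hs] at a3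
      exact (hS _ a1 _ (h s).1 rfl a2).trans (hS _ a1 _ (h s).2.2.1 (h s).2.2.2.symm a3).symm
  funext s
  exact (hc.eq_univ ⟨1, h1⟩).ge (mem_univ s)

lemma euler_Uniq {J : V → V → V} {U : W → V} (h : IsLine J U) {q : W} (hq : q ≠ 0) (c : ℂ) :
    fderiv ℝ U q (c • q) = c • U q := by
  let L : ℂ →L[ℝ] W := (ContinuousLinearMap.toSpanSingleton ℂ q).restrictScalars ℝ
  let L' : ℂ →L[ℝ] V := (ContinuousLinearMap.toSpanSingleton ℂ (U q)).restrictScalars ℝ
  have e : L 1 = q := one_smul ℂ q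
  have h1 : HasFDerivAt (U ∘ L) ((fderiv ℝ U q).comp L) 1 :=
    HasFDerivAt.comp 1 (by rw [e]; exact (diff_Uniq h hq).hasFDerivAt) L.hasFDerivAt
  have h2 : U ∘ L = L' := funext fun z => h.hom z q
  rw [h2] at h1
  exact congrArg (fun T : ℂ →L[ℝ] V => T c) (h1.unique L'.hasFDerivAt)

lemma mem_Uniq {J : V → V → V} {U : W → V} (h : IsLine J U) (h' : IsEmb U) : jet U ∈ Jet := by
  refine ⟨h.ne _ e1_Uniq, fun c hc => ?_⟩
  have := h'.imm _ e1_Uniq (hc.trans (euler_Uniq h e1_Uniq c).symm)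
  simpa using congrArg Prod.snd this

lemma comp_Uniq {J : V → V → V} {U : W → V} (h : IsLine J U) (h' : IsEmb U) (g : W ≃L[ℂ] W) :
    IsLine J (U ∘ g) ∧ IsEmb (U ∘ g) := by
  let L : W →L[ℝ] W := (g : W →L[ℂ] W).restrictScalars ℝ
  have hg : ∀ {q}, q ≠ 0 → g q ≠ 0 := fun hq e => hq (g.map_eq_zero_iff.1 e)
  have hd : ∀ q, q ≠ 0 → ∀ v, fderiv ℝ (U ∘ g) q v = fderiv ℝ U (g q) (g v) := fun q hq v =>
    congrArg (fun T : W →L[ℝ] V => T v)
      (HasFDerivAt.comp (f := L) q (diff_Uniq h (hg hq)).hasFDerivAt L.hasFDerivAt).fderiv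
  refine ⟨⟨h.c1.comp L.contDiff.contDiffOn fun _ hq => hg hq, fun q hq => h.ne _ (hg hq),
    fun c q => ?_, fun q hq v => ?_⟩, fun q hq a b e => ?_, fun a ha b hb e => ?_⟩
  · rw [Function.comp_apply, map_smul, h.hom, Function.comp_apply]
  · rw [hd q hq, hd q hq, map_smul, h.hol _ (hg hq), Function.comp_apply]
  · rw [hd q hq, hd q hq] at e
    exact g.injective (h'.imm _ (hg hq) e)
  · exact g.injective (h'.inj (hg ha) (hg hb) e)

theorem cS (hU : UniqStmt) (hL : LinStmt) : CStmt := by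
  intro φ U hφ hs ⟨hF, hG⟩ s j g
  let u : UI → W → V := fun s => U (s, j) ∘ g
  have h1 : ∀ s, IsLine (φ s).J (u s) ∧ IsEmb (u s) := fun s =>
    comp_Uniq (hG (s, j)).1 (hG (s, j)).2.1 g
  have h2 : Fam {0}ᶜ 1 V u :=
    (hF.param (g := fun s : UI => (s, j)) (by fun_prop)).comp
      (fam_id.clm ((g : W →L[ℂ] W).restrictScalars ℝ))
      fun _ q hq e => hq (g.map_eq_zero_iff.1 e)
  let js : UI → Jet := fun s => ⟨jet (u s), mem_Uniq (h1 s).1 (h1 s).2⟩
  have h3 : Continuous js := (jet_Uniq h2).subtype_mk _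
  have h4 := hU φ u (fun s => U (s, js s)) hφ h2
    (hF.param (g := fun s : UI => (s, js s)) (continuous_id.prodMk h3))
    (fun s => ⟨(h1 s).1, (h1 s).2, (hG (s, js s)).1, (hG (s, js s)).2.2.symm⟩) (funext fun q => by
      rw [hL _ _ hs (h1 1).1 q, hL _ _ hs (hG (1, js 1)).1 q, (hG (1, js 1)).2.2])
  exact ⟨js s, congrFun h4 s⟩

end Pool.Agent.MP_2fc7fa_gt.N
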