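import Pool.Agent.MP_2fc7fa_gt.N.IfB

/-! The zero count for sections of `O(1)` that satisfy a Cauchy-Riemann inequality. -/

open scoped ContDiff Topology
open Set Complex Filter Metric Bornology

namespace Pool.Agent.MP_2fc7fa_gt.N

lemma const_Zero {g g' : ℝ → ℂ} (hg : Continuous g) (hg' : Continuous g')
    (h : ∀ x, exp (g x) = exp (g' x)) (x y : ℝ) : g x - g' x = g y - g' y := by
  have h1 : ∀ x, exp (g x - g' x) = 1 := fun x => by
    rw [exp_sub, h x, div_self (exp_ne_zero _)]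
  exact isCoveringMap_exp.constOn_of_comp isPreconnected_univ (g := fun x => g x - g' x)
    (hg.sub hg').continuousOn (fun a _ b _ => Subtype.ext ((h1 a).trans (h1 b).symm))
    (mem_univ x) (mem_univ y)

lemma log_Zero {f : ℂ → ℂ} (hf : Continuous f) (h0 : ∀ x, f x ≠ 0) :
    ∃ L : ℂ → ℂ, Continuous L ∧ ∀ x, exp (L x) = f x := by
  have hs : IsSimplyConnected (univ : Set ℂ) :=
    (Homeomorph.Set.univ ℂ).toHomotopyEquiv.simplyConnectedSpace_iff.2 inferInstance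
  obtain ⟨L, hL, hL'⟩ := exists_continuousOn_eqOn_exp_comp hs isOpen_univ hf.continuousOn
    (by rintro ⟨x, -, hx⟩; exact h0 x hx)
  exact ⟨L, continuousOn_univ.1 hL, fun x => hL' (mem_univ x)⟩

/-- `v` has order `k` at `c`. -/
def Ord_Zero (v : ℂ → ℂ) (c : ℂ) (k : ℕ) : Prop :=
  ∃ a : ℂ, a ≠ 0 ∧ Tendsto (fun z => ((z - c) ^ k)⁻¹ * v z) (𝓝[≠] c) (𝓝 a)

/-- `v` is continuous, has an order at each zero and grows like `z ^ d`. -/
structure Good_Zero (v : ℂ → ℂ) (d : ℤ) : Prop where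
  cont : Continuous v
  loc : ∀ c, v c = 0 → ∃ k, Ord_Zero v c k
  inf : ∃ a : ℂ, a ≠ 0 ∧ Tendsto (fun z => (z ^ d)⁻¹ * v z) (cobounded ℂ) (𝓝 a)

lemma Ord_Zero.ne {v : ℂ → ℂ} {c : ℂ} {k : ℕ} (h : Ord_Zero v c k) : ∀ᶠ z in 𝓝[≠] c, v z ≠ 0 := by
  obtain ⟨a, ha, h⟩ := h
  exact (h.eventually_ne ha).mono fun z hz => right_ne_zero_of_mul hz

lemma Good_Zero.base {v : ℂ → ℂ} {d : ℤ} (h : Good_Zero v d) (h0 : ∀ z, v z ≠ 0) : d = 0 := by
  obtain ⟨L, hL, hL'⟩ := log_Zero h.cont h0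
  obtain ⟨a, ha, hi⟩ := h.inf
  have h1 : Tendsto (fun z => a⁻¹ * ((z ^ d)⁻¹ * v z)) (cobounded ℂ) (𝓝 1) := by
    simpa only [inv_mul_cancel₀ ha] using hi.const_mul a⁻¹
  have h2 := h1.eventually_mem (isOpen_slitPlane.mem_nhds one_mem_slitPlane)
  obtain ⟨R, -, hR⟩ := hasBasis_cobounded_norm.eventually_iff.1 h2
  have hz : ∀ t : ℝ, a⁻¹ * ((exp (R + t * I) ^ d)⁻¹ * v (exp (R + t * I))) ∈ slitPlane := fun t =>
    hR (by
      simp only [mem_ofPred_eq, norm_exp, add_re, ofReal_re, mul_re, I_re, I_im, ofReal_im,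
        mul_zero, mul_one, sub_zero, add_zero]
      linarith [Real.add_one_le_exp R])
  have hc := h.cont
  have key := const_Zero (g := fun t : ℝ => L (exp (R + t * I)) - d * (R + t * I))
    (g' := fun t : ℝ => log a + log (a⁻¹ * ((exp (R + t * I) ^ d)⁻¹ * v (exp (R + t * I)))))
    (by fun_prop)
    (continuous_const.add (Continuous.clog (continuous_const.mul (Continuous.mul
      (Continuous.inv₀ (Continuous.zpow₀ (by fun_prop) d fun t => Or.inl (exp_ne_zero _))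
        fun t => zpow_ne_zero _ (exp_ne_zero _)) (by fun_prop))) hz))
    (fun t => by
      rw [exp_sub, hL', exp_add (log a), exp_log ha, exp_log (slitPlane_ne_zero (hz t)),
        exp_int_mul, mul_inv_cancel_left₀ ha, div_eq_inv_mul]) 0 (2 * Real.pi)
  have e : exp (R + ((2 * Real.pi : ℝ) : ℂ) * I) = exp (R + ((0 : ℝ) : ℂ) * I) := by
    rw [exp_add, exp_add]; push_cast; rw [exp_two_pi_mul_I]; simp
  simp only [e] at key
  have : (d : ℂ) * (2 * Real.pi * I) = 0 := by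
    push_cast at key
    linear_combination key
  exact_mod_cast (mul_eq_zero.1 this).resolve_right two_pi_I_ne_zero

lemma Good_Zero.step {v : ℂ → ℂ} {d : ℤ} (h : Good_Zero v d) {c : ℂ} {k : ℕ}
    (hk : Ord_Zero v c k) : ∃ g, Good_Zero g (d - k) ∧ ∀ z, g z = 0 → z ≠ c ∧ v z = 0 := by
  classical
  obtain ⟨a, ha, hk⟩ := hk
  have hc := h.cont
  have hz : ∀ z, Function.update (fun z => ((z - c) ^ k)⁻¹ * v z) c a z = 0 → z ≠ c ∧ v z = 0 := by
    intro z hz
    have hzc : z ≠ c := by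
      rintro rfl
      exact ha (by simpa using hz)
    rw [Function.update_of_ne hzc] at hz
    exact ⟨hzc, (mul_eq_zero.1 hz).resolve_left (inv_ne_zero (pow_ne_zero _ (sub_ne_zero.2 hzc)))⟩
  have hu : ∀ z, z ≠ c → ContinuousAt (fun z : ℂ => ((z - c) ^ k)⁻¹) z := fun z hz =>
    ContinuousAt.inv₀ (by fun_prop) (pow_ne_zero _ (sub_ne_zero.2 hz))
  refine ⟨Function.update (fun z => ((z - c) ^ k)⁻¹ * v z) c a,
    ⟨continuous_iff_continuousAt.2 fun z => ?_, fun z h0 => ?_, ?_⟩, hz⟩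
  · by_cases hzc : z = c
    · subst hzc
      exact continuousAt_update_same.2 hk
    · exact (continuousAt_update_of_ne hzc).2 ((hu z hzc).mul hc.continuousAt)
  · obtain ⟨hzc, h0⟩ := hz z h0
    obtain ⟨j, b, hb, hj⟩ := h.loc z h0
    refine ⟨j, ((z - c) ^ k)⁻¹ * b,
      mul_ne_zero (inv_ne_zero (pow_ne_zero _ (sub_ne_zero.2 hzc))) hb, ?_⟩
    refine (((hu z hzc).tendsto.mono_left nhdsWithin_le_nhds).mul hj).congr' ?_
    filter_upwards [nhdsWithin_le_nhds (eventually_ne_nhds hzc)] with w hw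
    rw [Function.update_of_ne hw]
    ring
  · obtain ⟨b, hb, hi⟩ := h.inf
    have h1 : Tendsto (fun z : ℂ => ((1 - c * z⁻¹) ^ k)⁻¹) (cobounded ℂ) (𝓝 ((1 - c * 0) ^ k)⁻¹) :=
      (((tendsto_inv₀_cobounded.const_mul c).const_sub 1).pow k).inv₀ (by simp)
    refine ⟨((1 - c * 0) ^ k)⁻¹ * b, by simpa using hb, (h1.mul hi).congr' ?_⟩
    filter_upwards [eventually_ne_cobounded c, eventually_ne_cobounded 0] with w hw hw0
    have h2 : w - c ≠ 0 := sub_ne_zero.2 hw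
    have h3 : 1 - c * w⁻¹ = (w - c) / w := by field_simp
    rw [Function.update_of_ne hw, zpow_sub₀ hw0, zpow_natCast, h3, div_pow]
    have := zpow_ne_zero d hw0
    field_simp

lemma Good_Zero.finite {v : ℂ → ℂ} {d : ℤ} (h : Good_Zero v d) : {z | v z = 0}.Finite := by
  obtain ⟨a, ha, hi⟩ := h.inf
  refine (isCompact_of_isClosed_isBounded (isClosed_eq h.cont continuous_const) ?_).finite
    (isDiscrete_iff_nhdsNE.2 fun z hz => ?_)
  · exact (hi.eventually_ne ha).mono fun z hz => right_ne_zero_of_mul hz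
  · obtain ⟨k, hk⟩ := h.loc z hz
    exact inf_principal_eq_bot.2 hk.ne

lemma Good_Zero.nonneg {v : ℂ → ℂ} {d : ℤ} (h : Good_Zero v d) : 0 ≤ d := by
  classical
  suffices H : ∀ s : Finset ℂ, ∀ v d, Good_Zero v d → (∀ z, v z = 0 → z ∈ s) → 0 ≤ d from
    H h.finite.toFinset v d h fun z hz => by simpa using hz
  intro s
  induction s using Finset.induction_on with
  | empty => exact fun v d h h0 => (h.base fun z hz => by simpa using h0 z hz).ge
  | insert c s _ ih =>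
    intro v d h h0
    by_cases hc : v c = 0
    · obtain ⟨k, hk⟩ := h.loc c hc
      obtain ⟨g, hg, hz⟩ := h.step hk
      have := ih g _ hg fun z h1 => (Finset.mem_insert.1 (h0 z (hz z h1).2)).resolve_left (hz z h1).1
      omega
    · exact ih v d h fun z h1 => (Finset.mem_insert.1 (h0 z h1)).resolve_left fun e => hc (e ▸ h1)

lemma Ord_Zero.pos {v : ℂ → ℂ} {c : ℂ} {k : ℕ} (h : Ord_Zero v c k) (hv : Continuous v)
    (h0 : v c = 0) : k ≠ 0 := by
  rintro rfl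
  obtain ⟨a, ha, h⟩ := h
  simp only [pow_zero, inv_one, one_mul] at h
  exact ha ((tendsto_nhds_unique h
    (hv.continuousAt.tendsto.mono_left nhdsWithin_le_nhds)).trans h0)

lemma dich_Zero (h : HWStmt) {v : ℂ → ℂ} {C : ℝ} (hv : ContDiff ℝ 1 v)
    (hC : ∀ z, ‖dbar v z‖ ≤ C * ‖v z‖) : (∀ z, v z = 0) ∨ ∀ c, ∃ k, Ord_Zero v c k := by
  have hc := hv.continuous
  have hw : ∀ c, (∀ᶠ z in 𝓝 c, v z = 0) ∨ ∃ k, Ord_Zero v c k := fun c => by
    obtain ⟨M, hM⟩ := (isCompact_closedBall c 1).exists_bound_of_continuousOn hc.continuousOn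
    refine (h ℂ v c 1 C M one_pos hv.contDiffOn
      fun z hz => ⟨hM z (ball_subset_closedBall hz.1), hC z⟩).imp_left fun h0 => ?_
    have : v c = 0 := tendsto_nhds_unique (hc.continuousAt.tendsto.mono_left nhdsWithin_le_nhds)
      (tendsto_const_nhds.congr' (h0.mono fun z hz => hz.symm))
    exact eventually_nhdsWithin_iff.1 h0 |>.mono fun z hz => by
      by_cases e : z = c
      · exact e ▸ this
      · exact hz e
  have ho : IsClopen {c | ∀ᶠ z in 𝓝 c, v z = 0} := by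
    refine ⟨isOpen_compl_iff.1 (isOpen_iff_mem_nhds.2 fun c hc => ?_), isOpen_setOfPred_eventually_nhds⟩
    obtain ⟨k, hk⟩ := (hw c).resolve_left hc
    refine (eventually_nhdsWithin_iff.1 hk.ne).mono fun z hz h0 => ?_
    by_cases e : z = c
    · exact hc (e ▸ h0)
    · exact hz e h0.self_of_nhds
  rcases isClopen_iff.1 ho with e | e
  · exact Or.inr fun c => (hw c).resolve_left fun h0 => (e ▸ h0 : c ∈ (∅ : Set ℂ))
  · exact Or.inl fun z => Eventually.self_of_nhds (p := fun z => v z = 0)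
      (e.ge (mem_univ z) : z ∈ {c | ∀ᶠ z in 𝓝 c, v z = 0})

lemma line_Zero {n : W → ℂ} (hn : ContDiffOn ℝ 1 n {0}ᶜ) (hh : ∀ (c : ℂ) q, n (c • q) = c * n q)
    {C : ℝ} (hC : ∀ q, ‖q‖ = 1 → ∀ h,
      ‖fderiv ℝ n q (I • h) - I * fderiv ℝ n q h‖ ≤ C * ‖n q‖ * ‖h‖) {a b : W} (hb : ‖b‖ = 1)
    (hab : ∀ z : ℂ, 1 ≤ ‖a + z • b‖) :
    ContDiff ℝ 1 (fun z : ℂ => n (a + z • b)) ∧
      (∀ z w, fderiv ℝ (fun z : ℂ => n (a + z • b)) z w = fderiv ℝ n (a + z • b) (w • b)) ∧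
      ∀ z, ‖dbar (fun z : ℂ => n (a + z • b)) z‖ ≤ |C| * ‖n (a + z • b)‖ := by
  have h0 : ∀ z : ℂ, a + z • b ≠ 0 := fun z => norm_pos_iff.1 (one_pos.trans_le (hab z))
  have hd : ∀ q, q ≠ 0 → DifferentiableAt ℝ n q := fun q hq =>
    (hn.contDiffAt (isOpen_compl_singleton.mem_nhds hq)).differentiableAt one_ne_zero
  have hf : ∀ z w, fderiv ℝ (fun z : ℂ => n (a + z • b)) z w = fderiv ℝ n (a + z • b) (w • b) := by
    intro z w
    have := (hd _ (h0 z)).hasFDerivAt.comp z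
      ((((ContinuousLinearMap.id ℂ ℂ).smulRight b).restrictScalars ℝ).hasFDerivAt.const_add a)
    exact congrArg (fun L : ℂ →L[ℝ] ℂ => L w) this.fderiv
  refine ⟨hn.comp_contDiff (by fun_prop) h0, hf, fun z => ?_⟩
  obtain ⟨r, hr⟩ : ∃ r, r = ‖a + z • b‖ := ⟨_, rfl⟩
  have h1 : 1 ≤ r := hr ▸ hab z
  have h2 : r ≠ 0 := by positivity
  obtain ⟨q, hq⟩ : ∃ q, q = r⁻¹ • (a + z • b) := ⟨_, rfl⟩
  have h3 : a + z • b = r • q := by rw [hq, smul_inv_smul₀ h2]
  have h4 : ‖q‖ = 1 := by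
    rw [hq, norm_smul, ← hr, norm_inv, Real.norm_of_nonneg (by positivity), inv_mul_cancel₀ h2]
  have h5 : ∀ x, n (r • x) = r • n x := fun x => hh r x
  have h6 : ∀ w, fderiv ℝ n (r • q) w = fderiv ℝ n q w := fun w => by
    have e1 := (hd (r • q) (h3 ▸ h0 z)).hasFDerivAt.comp q ((hasFDerivAt_id q).const_smul r)
    have e2 := (hd q (norm_ne_zero_iff.1 (by simp [h4]))).hasFDerivAt.const_smul r
    have e3 := congrArg (fun L : W →L[ℝ] ℂ => L w) (e1.unique (by
      simpa only [Function.comp_def, id, h5, Pi.smul_def] using e2))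
    simpa [h2] using e3
  have h7 := hC q h4 b
  rw [dbar, hf, hf, h3, h6, h6, h5, one_smul,
    show fderiv ℝ n q b + I • fderiv ℝ n q (I • b) =
      I * (fderiv ℝ n q (I • b) - I * fderiv ℝ n q b) by
        rw [smul_eq_mul]; linear_combination (fderiv ℝ n q b) * I_mul_I,
    norm_smul, norm_smul, norm_mul, norm_I, Real.norm_of_nonneg (by positivity : 0 ≤ r)]
  rw [hb] at h7
  have h8 := mul_le_mul_of_nonneg_right (le_abs_self C) (norm_nonneg (n q))
  have h9 := mul_nonneg (abs_nonneg C) (norm_nonneg (n q))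
  have : ‖(1 / 2 : ℂ)‖ = 1 / 2 := by simp
  rw [this]
  nlinarith [norm_nonneg (fderiv ℝ n q (I • b) - I * fderiv ℝ n q b)]

theorem zero (h : HWStmt) : ZeroStmt := by
  rintro n hn hh ⟨C, hC⟩ h0 h1
  obtain ⟨m1, m2, m3⟩ := line_Zero hn hh hC (a := (1, 0)) (b := (0, 1)) (by simp)
    fun z => by simp [Prod.norm_def]
  obtain ⟨p1, -, p3⟩ := line_Zero hn hh hC (a := (0, 1)) (b := (1, 0)) (by simp)
    fun z => by simp [Prod.norm_def]
  have e1 : ∀ z : ℂ, ((1, 0) : W) + z • ((0, 1) : W) = (1, z) := fun z => by simp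
  have e2 : ∀ z : ℂ, ((0, 1) : W) + z • ((1, 0) : W) = (z, 1) := fun z => by simp
  simp only [e1, e2] at m1 m2 m3 p1 p3
  have e3 : ∀ z : ℂ, z ≠ 0 → n (1, z) = z * n (z⁻¹, 1) := fun z hz => by
    rw [← hh]; simp [hz]
  have e4 : ∀ z : ℂ, z ≠ 0 → n (z, 1) = z * n (1, z⁻¹) := fun z hz => by
    rw [← hh]; simp [hz]
  rcases dich_Zero h m1 m3 with hm | hm <;> rcases dich_Zero h p1 p3 with hp | hp
  · rintro ⟨x, y⟩
    by_cases hx : x = 0
    · rw [show ((x, y) : W) = y • ((0, 1) : W) by simp [hx], hh, hp, mul_zero]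
    · rw [show ((x, y) : W) = x • ((1, y / x) : W) by simp [mul_div_cancel₀ _ hx], hh, hm, mul_zero]
  · obtain ⟨k, hk⟩ := hp 0
    obtain ⟨z, hz, hz'⟩ := (hk.ne.and self_mem_nhdsWithin).exists
    exact absurd (by rw [e4 z hz', hm, mul_zero]) hz
  · obtain ⟨k, hk⟩ := hm 0
    obtain ⟨z, hz, hz'⟩ := (hk.ne.and self_mem_nhdsWithin).exists
    exact absurd (by rw [e3 z hz', hp, mul_zero]) hz
  exfalso
  obtain ⟨k, hk⟩ := hm 0
  obtain ⟨j, hj⟩ := hp 0
  have hg : Good_Zero (fun z => n (1, z)) (1 - j) := by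
    refine ⟨m1.continuous, fun c _ => hm c, ?_⟩
    obtain ⟨a, ha, hj⟩ := hj
    refine ⟨a, ha, (hj.comp tendsto_inv₀_cobounded').congr' ?_⟩
    filter_upwards [eventually_ne_cobounded 0] with z hz
    rw [Function.comp_apply, e3 z hz, zpow_sub₀ hz, zpow_natCast, zpow_one, sub_zero, inv_pow]
    field_simp
  obtain ⟨g, hg', -⟩ := hg.step hk
  have h2 := hg'.nonneg
  have h3 := hk.pos m1.continuous h0
  rcases h1 with h1 | h1
  · have := hj.pos p1.continuous h1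
    omega
  · obtain rfl : k = 1 := by omega
    have h4 := m3 0
    rw [h0, norm_zero, mul_zero, norm_le_zero_iff, dbar, m2 0 1, one_smul, h1, zero_add] at h4
    have h5 : fderiv ℝ (fun z : ℂ => n (1, z)) 0 = 0 := by
      refine ContinuousLinearMap.ext fun w => ?_
      have e5 : fderiv ℝ (fun z : ℂ => n (1, z)) 0 1 = 0 := by rw [m2, one_smul, h1]
      have e6 : fderiv ℝ (fun z : ℂ => n (1, z)) 0 I = 0 := by simpa using h4
      rw [show w = w.re • (1 : ℂ) + w.im • I by simp, map_add, map_smul, map_smul, e5, e6]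
      simp
    have h6 := (m1.differentiable one_ne_zero 0).hasFDerivAt.isLittleO.tendsto_div_nhds_zero
    obtain ⟨a, ha, hk⟩ := hk
    refine ha (tendsto_nhds_unique hk ((h6.mono_left nhdsWithin_le_nhds).congr fun z => ?_))
    simp [h5, h0, div_eq_inv_mul]

end Pool.Agent.MP_2fc7fa_gt.N
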