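import Pool.Agent.MP_2fc7fa_gt.N.T1
import Pool.Agent.MP_2fc7fa_gt.N.T2
import Pool.Agent.MP_2fc7fa_gt.N.T3
import Pool.Agent.MP_2fc7fa_gt.N.T4
import Pool.Agent.MP_2fc7fa_gt.N.Green
import Pool.Agent.MP_2fc7fa_gt.N.Reg
import Pool.Agent.MP_2fc7fa_gt.N.Est
import Pool.Agent.MP_2fc7fa_gt.N.HW
import Pool.Agent.MP_2fc7fa_gt.N.Zero
import Pool.Agent.MP_2fc7fa_gt.N.EmbOpen
import Pool.Agent.MP_2fc7fa_gt.N.Ker
import Pool.Agent.MP_2fc7fa_gt.N.Diff
import Pool.Agent.MP_2fc7fa_gt.N.Chart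
import Pool.Agent.MP_2fc7fa_gt.N.Lin
import Pool.Agent.MP_2fc7fa_gt.N.Trans
import Pool.Agent.MP_2fc7fa_gt.N.Chord
import Pool.Agent.MP_2fc7fa_gt.N.Persist
import Pool.Agent.MP_2fc7fa_gt.N.Fin
import Pool.Agent.MP_2fc7fa_gt.N.GPersist
import Pool.Agent.MP_2fc7fa_gt.N.Uniq
import Pool.Agent.MP_2fc7fa_gt.N.H1
import Pool.Agent.MP_2fc7fa_gt.N.H2
import Pool.Agent.MP_2fc7fa_gt.N.OpenS
import Pool.Agent.MP_2fc7fa_gt.N.ClosedS
import Pool.Agent.MP_2fc7fa_gt.N.Abs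
import Pool.Agent.MP_2fc7fa_gt.N.SOp
import Pool.Agent.MP_2fc7fa_gt.N.Liou
import Pool.Agent.MP_2fc7fa_gt.N.NlS
import Pool.Agent.MP_2fc7fa_gt.N.ToLine
import Pool.Agent.MP_2fc7fa_gt.N.Small
import Pool.Agent.MP_2fc7fa_gt.N.Nem
import Pool.Agent.MP_2fc7fa_gt.N.LinInj
import Pool.Agent.MP_2fc7fa_gt.N.Kop
import Pool.Agent.MP_2fc7fa_gt.N.Solve
import Pool.Agent.MP_2fc7fa_gt.N.IFT2
import Pool.Agent.MP_2fc7fa_gt.N.Joint
import Pool.Agent.MP_2fc7fa_gt.N.EmbLimit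
import Pool.Agent.MP_2fc7fa_gt.N.ConvJet
import Pool.Agent.MP_2fc7fa_gt.N.Cusp
import Pool.Agent.MP_2fc7fa_gt.N.Deg
import Pool.Agent.MP_2fc7fa_gt.N.EnLine
import Pool.Agent.MP_2fc7fa_gt.N.Compact

/-! Assembly of part B from the finished modules. -/

namespace Pool.Agent.MP_2fc7fa_gt.N

theorem t4_B : T4Stmt := t4 t1

theorem t2_B : T2Stmt := t2 t1 t4_B green

theorem t3_B : T3Stmt := t3 t1 t4_B green

theorem reg_B : RegStmt := reg t1 t2_B t3_B t4_B green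

theorem lineSmooth_B : LineSmoothStmt := lineSmooth reg_B

theorem est_B : EstStmt := est t1 t2_B t3_B t4_B green reg_B

theorem hw_B : HWStmt := hw t1 t2_B

theorem ker_B : KerStmt := ker lineSmooth_B (zero hw_B)

theorem fin_B : FinStmt := finS lineSmooth_B hw_B chart

theorem gpersist_B : GPersistStmt := gpersist lineSmooth_B chart (persist hw_B deg diff)

theorem cusp_B : CuspStmt := cusp hw_B deg diff

theorem s_B : SStmt := sS t1 t3_B

theorem nl_B : NlStmt := nlS lineSmooth_B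

theorem ift_B : IFTStmt :=
  ift bumpS s_B nl_B nem
    (solve absS s_B nl_B nem (kop s_B nl_B nem cptS) (linInj s_B covS ker_B lineSmooth_B nl_B))
    (toLine s_B covS) (fromLine s_B covS liou) (small lineSmooth_B est_B) embOpen lineSmooth_B

theorem uniq_B : UniqStmt := uniq ift_B

theorem compact_B : CompactStmt :=
  compact t1 t2_B t4_B green reg_B lineSmooth_B est_B (enLine green) (enPlane green)

/-- The continuity method. -/
theorem gromov_B : GromovStmt :=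
  have hK : CompactStmt := compact_B
  have hC : CStmt := cS uniq_B lin
  have hJ : JointStmt := joint ift_B lin
  gromov (openS ift_B hJ hC)
    (closedS ift_B hJ uniq_B lin (h1S ift_B hC lin) (h2 hC gpersist_B trans lin) hK
      (embLimit lineSmooth_B hK fin_B gpersist_B chart cusp_B) convJet) hJ

end Pool.Agent.MP_2fc7fa_gt.N
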