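import Pool.Agent.MP_2fc7fa_gt.N.Defs

open scoped ComplexConjugate

namespace Pool.Agent.MP_2fc7fa_gt.N

theorem rt_zero : rt 0 = 1 := AddChar.map_zero_eq_one _

theorem rt_add (k l : Zp) : rt (k + l) = rt k * rt l := AddChar.map_add_eq_mul _ _ _

theorem norm_rt (k : Zp) : ‖rt k‖ = 1 := Circle.norm_coe (ZMod.toCircle k)

theorem conj_rt (k : Zp) : conj (rt k) = rt (-k) := by
  have h0 : rt k * rt (-k) = 1 := by rw [← rt_add, add_neg_cancel, rt_zero]
  have h : rt k * conj (rt k) = 1 := by rw [Complex.mul_conj', norm_rt]; simp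
  exact mul_left_cancel₀ (left_ne_zero_of_mul_eq_one h0) (h.trans h0.symm)

end Pool.Agent.MP_2fc7fa_gt.N
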