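import Pool.Agent.MP_2fc7fa_gt.N.CoA
import Pool.Agent.MP_2fc7fa_gt.N.Rt

/-! Roots of unity, sectors and the cocycle `tc`. -/

open scoped ComplexConjugate Topology
open Set Complex Filter

noncomputable section

namespace Pool.Agent.MP_2fc7fa_gt.N

theorem ee_eq_CSec (u : ℝ) : ee u = exp ((2 * Real.pi * u / 37 : ℝ) * I) := by
  rw [ee]
  congr 1
  push_cast
  ring

theorem rt_ne_zero (k : Zp) : rt k ≠ 0 := by
  intro h
  have h1 := norm_rt k
  rw [h, norm_zero] at h1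
  exact zero_ne_one h1

theorem rt_injective : Function.Injective rt := ZMod.injective_stdAddChar

theorem rt_intCast (j : ℤ) : rt (j : Zp) = ee j := by
  rw [rt, ZMod.stdAddChar_coe, ee]
  simp

theorem ee_add (u v : ℝ) : ee (u + v) = ee u * ee v := by
  rw [ee, ee, ee, ← Complex.exp_add]
  congr 1
  push_cast
  ring

theorem ee_zero : ee 0 = 1 := by simp [ee]

theorem norm_ee (u : ℝ) : ‖ee u‖ = 1 := by
  rw [ee_eq_CSec, Complex.norm_exp_ofReal_mul_I]

theorem ee_ne_zero (u : ℝ) : ee u ≠ 0 := Complex.exp_ne_zero _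

theorem conj_ee (u : ℝ) : conj (ee u) = ee (-u) := by
  apply mul_left_cancel₀ (ee_ne_zero u)
  rw [← ee_add, add_neg_cancel, ee_zero, Complex.mul_conj', norm_ee]
  simp

theorem ee_re (u : ℝ) : (ee u).re = Real.cos (2 * Real.pi * u / 37) := by
  rw [ee_eq_CSec, Complex.exp_ofReal_mul_I_re]

theorem ee_im (u : ℝ) : (ee u).im = Real.sin (2 * Real.pi * u / 37) := by
  rw [ee_eq_CSec, Complex.exp_ofReal_mul_I_im]

theorem continuous_ee : Continuous ee := by
  unfold ee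
  fun_prop

theorem hasDerivAt_ee (u : ℝ) : HasDerivAt ee (2 * Real.pi * I / 37 * ee u) u := by
  have h1 : HasDerivAt (fun v : ℝ => (v : ℂ)) 1 u := Complex.ofRealCLM.hasDerivAt
  have h2 := ((h1.const_mul (2 * Real.pi * I : ℂ)).div_const 37).cexp
  have h3 : 2 * Real.pi * I / 37 * ee u =
      exp (2 * Real.pi * I * u / 37) * (2 * Real.pi * I * 1 / 37) := by
    rw [ee]
    ring
  rw [h3]
  exact h2

/-- A number of modulus less than one that gives a root of unity is zero. -/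
theorem ee_eq_rt {u : ℝ} {k : Zp} (hu : |u| < 1) (h : ee u = rt k) : u = 0 ∧ k = 0 := by
  obtain ⟨j, rfl⟩ := ZMod.intCast_surjective k
  have h' := h
  rw [rt_intCast, ee, ee, Complex.exp_eq_exp_iff_exists_int] at h'
  obtain ⟨n, hn⟩ := h'
  have h2 : (2 * Real.pi * I : ℂ) ≠ 0 := Complex.two_pi_I_ne_zero
  have h3 : (u : ℂ) = ((j + 37 * n : ℤ) : ℂ) := by
    apply mul_left_cancel₀ h2
    push_cast at hn ⊢
    linear_combination 37 * hn
  have h4 : u = ((j + 37 * n : ℤ) : ℝ) := by exact_mod_cast h3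
  have h5 : j + 37 * n = 0 := by
    rw [h4] at hu
    exact Int.abs_lt_one_iff.1 (by exact_mod_cast hu)
  have h6 : u = 0 := by rw [h4, h5, Int.cast_zero]
  refine ⟨h6, rt_injective ?_⟩
  rw [← h, h6, ee_zero, rt_zero]

theorem nsq_smul (c : ℂ) (x : W) : nsq (c • x) = ‖c‖ ^ 2 * nsq x := by
  simp only [nsq, Prod.smul_fst, Prod.smul_snd, norm_smul]
  ring

theorem nsq_pos {x : W} (hx : x ≠ 0) : 0 < nsq x := by
  unfold nsq
  by_cases h : x.1 = 0
  · have h2 : x.2 ≠ 0 := fun h2 => hx (Prod.ext h h2)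
    positivity
  · positivity

theorem nsq_nonneg (x : W) : 0 ≤ nsq x := by
  unfold nsq
  positivity

theorem continuous_nsq : Continuous nsq := by
  unfold nsq
  fun_prop

theorem sec_zero : sec 0 = 0 := by simp [sec]

/-- Write `z = r * ee u`; `arg` differs from `2 π u / 37` by an integer multiple of `2 π`. -/
theorem sec_ee {r : ℝ} (hr : 0 < r) (u : ℝ) : sec (r * ee u) = ((⌊u⌋ : ℤ) : Zp) := by
  have hpi : (2 * Real.pi) ≠ 0 := by positivity
  obtain ⟨n, hn⟩ : ∃ n : ℤ, arg (r * ee u) = 2 * Real.pi * u / 37 + 2 * Real.pi * n := by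
    refine ⟨⌊(Real.pi - 2 * Real.pi * u / 37) / (2 * Real.pi)⌋, ?_⟩
    rw [ee_eq_CSec, Complex.exp_mul_I, ← Complex.arg_mul_cos_add_sin_mul_I_sub hr]
    ring
  have h1 : 37 * arg (r * ee u) / (2 * Real.pi) = u + ((37 * n : ℤ) : ℝ) := by
    rw [hn]
    push_cast
    field_simp
  rw [sec, h1, Int.floor_add_intCast, Int.cast_add, Int.cast_mul]
  have h2 : ((37 : ℤ) : Zp) = 0 := rfl
  rw [h2, zero_mul, add_zero]

theorem polar_CSec (z : ℂ) : z = (‖z‖ : ℝ) * ee (37 * arg z / (2 * Real.pi)) := by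
  have hpi : (2 * Real.pi) ≠ 0 := by positivity
  have h1 : 2 * Real.pi * (37 * arg z / (2 * Real.pi)) / 37 = arg z := by field_simp
  rw [ee_eq_CSec, h1, Complex.norm_mul_exp_arg_mul_I]

theorem sec_rt_mul (k : Zp) {z : ℂ} (hz : z ≠ 0) : sec (rt k * z) = sec z + k := by
  obtain ⟨j, rfl⟩ := ZMod.intCast_surjective k
  have h1 : rt (j : Zp) * z = (‖z‖ : ℝ) * ee (37 * arg z / (2 * Real.pi) + j) := by
    rw [ee_add, ← mul_assoc, ← polar_CSec, rt_intCast, mul_comm]
  rw [h1, sec_ee (norm_pos_iff.2 hz), Int.floor_add_intCast, Int.cast_add, sec]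

/-- The numerator of `tc` is divisible by `37`. -/
theorem tc_mul (x : ℕ → Zp) : 37 * tc x =
    (x 1 - x 0).valMinAbs + (x 2 - x 1).valMinAbs - (x 2 - x 0).valMinAbs := by
  apply Int.mul_ediv_cancel'
  apply (ZMod.intCast_zmod_eq_zero_iff_dvd _ 37).1
  push_cast
  ring

theorem tc_dg : Dg 2 tc := by
  intro x y h
  simp only [tc, h 0 (by norm_num), h 1 (by norm_num), h 2 le_rfl]

theorem tc_nm : Nm 2 tc := by
  intro x j hj h
  obtain rfl | rfl : j = 0 ∨ j = 1 := by omega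
  · have h' : x 0 = x 1 := h
    simp [tc, h']
  · have h' : x 1 = x 2 := h
    simp [tc, h']

theorem tc_dd : dd 3 tc = 0 := by
  funext x
  have h0 := tc_mul (skip 0 x)
  have h1 := tc_mul (skip 1 x)
  have h2 := tc_mul (skip 2 x)
  have h3 := tc_mul (skip 3 x)
  have e0 : skip 0 x 0 = x 1 ∧ skip 0 x 1 = x 2 ∧ skip 0 x 2 = x 3 := ⟨rfl, rfl, rfl⟩
  have e1 : skip 1 x 0 = x 0 ∧ skip 1 x 1 = x 2 ∧ skip 1 x 2 = x 3 := ⟨rfl, rfl, rfl⟩
  have e2 : skip 2 x 0 = x 0 ∧ skip 2 x 1 = x 1 ∧ skip 2 x 2 = x 3 := ⟨rfl, rfl, rfl⟩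
  have e3 : skip 3 x 0 = x 0 ∧ skip 3 x 1 = x 1 ∧ skip 3 x 2 = x 2 := ⟨rfl, rfl, rfl⟩
  rw [e0.1, e0.2.1, e0.2.2] at h0
  rw [e1.1, e1.2.1, e1.2.2] at h1
  rw [e2.1, e2.2.1, e2.2.2] at h2
  rw [e3.1, e3.2.1, e3.2.2] at h3
  simp only [dd, Finset.sum_range_succ, Finset.sum_range_zero, Pi.zero_apply]
  linarith

theorem tc_add (x : ℕ → Zp) (k : Zp) : tc (fun j => x j + k) = tc x := by
  simp only [tc, add_sub_add_right_eq_sub]

theorem tc_two_CSec (k : Zp) (x : ℕ → Zp) (h : ∀ j, x j = k ∨ x j = k + 1) : tc x = 0 := by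
  have v0 : (0 : Zp).valMinAbs = 0 := by decide
  have v1 : (1 : Zp).valMinAbs = 1 := by decide
  have v2 : (-1 : Zp).valMinAbs = -1 := by decide
  have s1 : k + 1 - k = 1 := by ring
  have s2 : k - (k + 1) = -1 := by ring
  have h1 := tc_mul x
  rcases h 0 with a | a <;> rcases h 1 with b | b <;> rcases h 2 with c | c <;>
    rw [a, b, c] at h1 <;> simp only [sub_self, s1, s2, v0, v1, v2] at h1 <;> omega

/-- Near `z ≠ 0` the function `sec` takes two adjacent values `k`, `k + 1`. -/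
theorem sec_lz {z : ℂ} (hz : z ≠ 0) : LZ (pb sec tc) (𝓝 z) := by
  have hc : ContinuousAt (fun w : ℂ => 37 * arg (w / z) / (2 * Real.pi)) z := by
    have h1 : ContinuousAt (fun w : ℂ => arg (w / z)) z := by
      refine ContinuousAt.comp (g := arg) (f := fun w : ℂ => w / z) ?_ (by fun_prop)
      apply Complex.continuousAt_arg
      rw [div_self hz]
      exact Complex.one_mem_slitPlane
    exact (h1.const_mul 37).div_const _
  have h0 : 37 * arg (z / z) / (2 * Real.pi) = 0 := by simp [div_self hz]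
  have hU : ∀ᶠ w in 𝓝 z, 37 * arg (w / z) / (2 * Real.pi) ∈ Ioo (-(1 / 2) : ℝ) (1 / 2) := by
    apply hc.eventually_mem
    rw [h0]
    exact Ioo_mem_nhds (by norm_num) (by norm_num)
  refine ⟨_, hU.and (eventually_ne_nhds hz), fun x hx => ?_⟩
  set u := 37 * arg z / (2 * Real.pi) with hu
  refine tc_two_CSec ((⌊u - 1 / 2⌋ : ℤ) : Zp) _ fun j => ?_
  obtain ⟨⟨ha, hb⟩, hw⟩ := hx j
  set v := 37 * arg (x j / z) / (2 * Real.pi) with hv
  have h1 : x j = ((‖z‖ * ‖x j / z‖ : ℝ) : ℂ) * ee (u + v) := by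
    rw [ee_add, Complex.ofReal_mul, mul_mul_mul_comm, ← polar_CSec, ← polar_CSec]
    field_simp
  have h2 : sec (x j) = ((⌊u + v⌋ : ℤ) : Zp) := by
    rw [← sec_ee (mul_pos (norm_pos_iff.2 hz) (norm_pos_iff.2 (div_ne_zero hw hz))), ← h1]
  have h3 : ⌊u - 1 / 2⌋ ≤ ⌊u + v⌋ := Int.floor_le_floor (by linarith)
  have h4 : ⌊u + v⌋ ≤ ⌊u - 1 / 2⌋ + 1 := by
    rw [← Int.floor_add_one]
    exact Int.floor_le_floor (by linarith)
  rw [h2]
  obtain h5 | h5 : ⌊u + v⌋ = ⌊u - 1 / 2⌋ ∨ ⌊u + v⌋ = ⌊u - 1 / 2⌋ + 1 := by omega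
  · left
    rw [h5]
  · right
    rw [h5, Int.cast_add, Int.cast_one]

/-- `∑ i, (s n + s (n * i') - s (n + n * i')) = 37 * s n` in `ℤ` for `s = valMinAbs`. -/
theorem tc_sum (n : Zp) (σ : ℕ → Zp) :
    ∑ i : Zp, ((tc fun j => n * cons 0 (cons 1 fun a => 1 + i + σ a) j : ℤ) : Zp) = n := by
  have h1 : ∀ i : Zp, 37 * (tc fun j => n * cons 0 (cons 1 fun a => 1 + i + σ a) j) =
      n.valMinAbs + (n * (i + σ 0)).valMinAbs - (n * (i + 1 + σ 0)).valMinAbs := by
    intro i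
    rw [tc_mul]
    have e1 : n * 1 - n * 0 = n := by ring
    have e2 : n * (1 + i + σ 0) - n * 1 = n * (i + σ 0) := by ring
    have e3 : n * (1 + i + σ 0) - n * 0 = n * (i + 1 + σ 0) := by ring
    simp only [cons]
    rw [e1, e2, e3]
  have h2 : ∑ i : Zp, (n * (i + 1 + σ 0)).valMinAbs = ∑ i : Zp, (n * (i + σ 0)).valMinAbs :=
    Equiv.sum_comp (Equiv.addRight (1 : Zp)) fun i => (n * (i + σ 0)).valMinAbs
  have h3 : ∑ i : Zp, (tc fun j => n * cons 0 (cons 1 fun a => 1 + i + σ a) j) = n.valMinAbs := by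
    apply mul_left_cancel₀ (show (37 : ℤ) ≠ 0 by norm_num)
    rw [Finset.mul_sum, Finset.sum_congr rfl fun i _ => h1 i, Finset.sum_sub_distrib,
      Finset.sum_add_distrib, h2, Finset.sum_const, Finset.card_univ, ZMod.card]
    simp
  rw [← Int.cast_sum, h3, ZMod.coe_valMinAbs]

theorem cups_dg {D : Type} (l : List (D → Zp)) : Dg (2 * l.length) (cups l) := by
  induction l with
  | nil => exact fun _ _ _ => rfl
  | cons φ l ih =>
    have e : 2 * (φ :: l).length = 2 + 2 * l.length := by rw [List.length_cons]; ring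
    rw [e]
    exact (tc_dg.pb φ).cup ih

theorem cups_nm {D : Type} (l : List (D → Zp)) : Nm (2 * l.length) (cups l) := by
  induction l with
  | nil => exact fun _ j hj _ => absurd hj (Nat.not_lt_zero j)
  | cons φ l ih =>
    have e : 2 * (φ :: l).length = 2 + 2 * l.length := by rw [List.length_cons]; ring
    rw [e]
    exact (tc_nm.pb φ).cup ih

theorem cups_dd {D : Type} (l : List (D → Zp)) : dd (2 * l.length + 1) (cups l) = 0 := by
  induction l with
  | nil =>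
    funext x
    simp [dd, cups, Finset.sum_range_succ]
  | cons φ l ih =>
    have e : 2 * (φ :: l).length = 2 + 2 * l.length := by rw [List.length_cons]; ring
    rw [e]
    refine dd_cup_zero (tc_dg.pb φ) ?_ ih
    rw [← pb_dd, tc_dd]
    rfl

theorem cups_lz {D : Type} {l : List (D → Zp)} {φ : D → Zp} (h : φ ∈ l) {F : Filter D}
    (hφ : LZ (pb φ tc) F) : LZ (cups l) F := by
  induction l with
  | nil => exact absurd h List.not_mem_nil
  | cons ψ l ih =>
    rcases List.mem_cons.1 h with rfl | h'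
    · exact hφ.cup_left 2 _
    · exact (ih h').cup_right 2 _

/-- The value only depends on the functions up to constants. -/
theorem cups_congr {D D' ι : Type} (l : List ι) (φ : ι → D → Zp) (ψ : ι → D' → Zp) (x : ℕ → D)
    (y : ℕ → D') (h : ∀ j ∈ l, ∃ k, ∀ a, φ j (x a) = ψ j (y a) + k) :
    cups (l.map φ) x = cups (l.map ψ) y := by
  induction l generalizing x y with
  | nil => rfl
  | cons j l ih =>
    obtain ⟨k, hk⟩ := h j List.mem_cons_self
    have h1 : tc (fun a => φ j (x a)) = tc fun a => ψ j (y a) := by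
      rw [← tc_add (fun a => ψ j (y a)) k]
      congr 1
      funext a
      exact hk a
    have h2 := ih (shift 2 x) (shift 2 y) fun i hi => by
      obtain ⟨k', hk'⟩ := h i (List.mem_cons_of_mem _ hi)
      exact ⟨k', fun a => hk' (a + 2)⟩
    change tc (fun a => φ j (x a)) * cups (l.map φ) (shift 2 x) =
      tc (fun a => ψ j (y a)) * cups (l.map ψ) (shift 2 y)
    rw [h1, h2]

end Pool.Agent.MP_2fc7fa_gt.N
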