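import Pool.Agent.MP_2fc7fa_gt.N.CoB
import Pool.Agent.MP_2fc7fa_gt.N.CSec

/-! The cycle on the group and the simplex inside the cube. -/

open scoped ComplexConjugate Topology
open Set Complex Filter

noncomputable section

namespace Pool.Agent.MP_2fc7fa_gt.N

/-- One step of the evaluation on the cycle. -/
def T_CCyc (a : Co Zp Zp) : Co Zp Zp := fun σ => ∑ i : Zp, a (cons 0 (cons 1 fun j => 1 + i + σ j))

theorem cyc_succ_CCyc (n : ℕ) (a : Co Zp Zp) : cyc (n + 1) a = cyc n (T_CCyc a) := rfl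

theorem T_inv_CCyc (a : Co Zp Zp) (k : Zp) (σ : ℕ → Zp) :
    T_CCyc a (fun j => k + σ j) = T_CCyc a σ :=
  Fintype.sum_equiv (Equiv.addRight k) _ _ fun i => by
    simp only [Equiv.coe_addRight, add_assoc]

theorem T_dg_CCyc {n : ℕ} {a : Co Zp Zp} (ha : Dg (n + 2) a) : Dg n (T_CCyc a) := by
  intro x y h
  refine Finset.sum_congr rfl fun i _ => ha _ _ fun j hj => ?_
  match j, hj with
  | 0, _ => rfl
  | 1, _ => rfl
  | j + 2, hj => exact congrArg (1 + i + ·) (h j (by omega))

theorem skip_cons_CCyc {α : Type} (r : ℕ) (a : α) (x : ℕ → α) :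
    skip (r + 1) (cons a x) = cons a (skip r x) := by
  funext j
  rcases j with _ | j
  · simp [skip, cons]
  · simp only [skip, cons, Nat.add_lt_add_iff_right]

theorem skip_zero_CCyc {α : Type} (a : α) (x : ℕ → α) : skip 0 (cons a x) = x := by
  funext j
  simp [skip, cons]

theorem T_dd_CCyc (m : ℕ) {A : Co Zp Zp} (hinv : ∀ k σ, A (fun j => k + σ j) = A σ) :
    T_CCyc (dd (m + 2) A) = dd m (T_CCyc A) := by
  funext σ
  have e : ∀ i : Zp, dd (m + 2) A (cons 0 (cons 1 fun j => 1 + i + σ j)) =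
      ∑ r ∈ Finset.range (m + 1), (-1) ^ r * A (cons 0 (cons 1 fun j => 1 + i + skip r σ j)) +
        (A (cons 0 fun j => i + σ j) - A (cons 0 fun j => 1 + i + σ j)) := by
    intro i
    unfold dd
    rw [Finset.sum_range_succ', Finset.sum_range_succ', skip_zero_CCyc, zero_add, skip_cons_CCyc,
      skip_zero_CCyc, ← hinv 1 (cons 0 fun j => i + σ j)]
    have e1 : (fun j => 1 + cons 0 (fun j => i + σ j) j) = cons 1 fun j => 1 + i + σ j := by
      funext j
      rcases j with _ | j
      · simp [cons]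
      · simp [cons, add_assoc]
    have e2 : ∀ r, skip r (fun j => 1 + i + σ j) = fun j => 1 + i + skip r σ j := by
      intro r
      funext j
      simp only [skip]
      split_ifs <;> rfl
    simp only [skip_cons_CCyc, e1, e2, pow_succ]
    ring_nf
  have e3 : ∑ i : Zp, A (cons 0 fun j => 1 + i + σ j) = ∑ i : Zp, A (cons 0 fun j => i + σ j) :=
    Fintype.sum_equiv (Equiv.addLeft 1) _ _ fun i => rfl
  unfold T_CCyc
  simp only [e, Finset.sum_add_distrib, Finset.sum_sub_distrib, e3, sub_self, add_zero]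
  rw [Finset.sum_comm]
  simp only [dd, Finset.mul_sum]

theorem shift_cons_CCyc {α : Type} (a : α) (x : ℕ → α) : shift 1 (cons a x) = x := rfl

theorem idx_cons_CCyc (n : ℕ) (s : ℝ) (t : Pt) :
    idx (n + 1) (cons s t) = if s ≤ 1 / 2 then 0 else idx n t + 1 := rfl

theorem shift_ins_CCyc {α : Type} (i : ℕ) (a : α) (x : ℕ → α) :
    shift 1 (ins (i + 1) a x) = ins i a (shift 1 x) := by
  funext j
  simp only [shift, ins, Nat.add_lt_add_iff_right, Nat.add_right_cancel_iff, Nat.add_sub_cancel]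
  split_ifs with h1 h2
  · rfl
  · rfl
  · rw [Nat.sub_add_cancel (by omega)]

theorem idx_ins_CCyc (i n : ℕ) (a : ℝ) (t : Pt) : idx (n + 1) (ins (i + 1) a t) =
    if t 0 ≤ 1 / 2 then 0 else idx n (ins i a (shift 1 t)) + 1 := by
  rw [← shift_ins_CCyc]
  rfl

theorem PP_CCyc {M : ℕ} (hM : 0 < M) (n : ℕ) (σ : ℕ → Zp) {a : Co Zp ℤ} (ha' : Nm (n + 1) a) :
    PP M (n + 1) (pb (fun t => σ (idx (n + 1) t)) a) =
      pb (fun t => shift 1 σ (idx n t)) fun y => a (cons (σ 0) y) := by
  funext x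
  have hM' : (0 : ℝ) < M := by exact_mod_cast hM
  have c1 : ∀ k : ℕ, (k : ℝ) / M ≤ 1 / 2 ↔ 2 * k ≤ M := by
    intro k
    rw [div_le_div_iff₀ hM' two_pos, one_mul, mul_comm]
    exact_mod_cast Iff.rfl
  have c2 : ∀ k : ℕ, ((k : ℝ) + 1) / M ≤ 1 / 2 ↔ 2 * (k + 1) ≤ M := fun k => by
    rw [← c1]
    push_cast
    rfl
  unfold PP pris
  rw [Finset.sum_eq_single (M / 2), Finset.sum_eq_single 0]
  · rw [pow_zero, one_mul]
    refine congrArg a (funext fun i => ?_)
    rcases i with _ | i
    · simp only [prism, le_refl, if_true, idx_cons_CCyc, c1]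
      rw [if_pos (by omega)]
      rfl
    · simp only [prism]
      rw [if_neg (by omega), idx_cons_CCyc, if_neg (by rw [c2]; omega)]
      rfl
  · intro j hj hj0
    refine mul_eq_zero_of_right _ (ha' _ 0 (by omega) ?_)
    simp only [prism]
    rw [if_pos (by omega), if_pos (by omega), idx_cons_CCyc, idx_cons_CCyc,
      if_pos (by rw [c1]; omega), if_pos (by rw [c1]; omega)]
  · simp
  · intro k _ hk
    refine Finset.sum_eq_zero fun j hj => mul_eq_zero_of_right _
      (ha' _ j (Finset.mem_range.1 hj) ?_)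
    simp only [prism]
    rw [if_pos le_rfl, if_neg (show ¬ j + 1 ≤ j by omega), idx_cons_CCyc, idx_cons_CCyc,
      Nat.add_sub_cancel]
    by_cases h : 2 * k ≤ M
    · rw [if_pos ((c1 k).2 h), if_pos (by rw [c2]; omega)]
    · rw [if_neg (mt (c1 k).1 h), if_neg (by rw [c2]; omega)]
  · intro h
    exact absurd (Finset.mem_range.2 (by omega)) h

theorem cyc_ev {ι : Type} {F : Filter ι} (n : ℕ) {X Y : ι → Co Zp Zp}
    (h : ∀ σ, ∀ᶠ M in F, X M σ = Y M σ) : ∀ᶠ M in F, cyc n (X M) = cyc n (Y M) := by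
  induction n generalizing X Y with
  | zero => exact h 0
  | succ n ih =>
    refine ih (X := fun M => T_CCyc (X M)) (Y := fun M => T_CCyc (Y M)) fun σ => ?_
    exact (eventually_all.2 fun i : Zp => h (cons 0 (cons 1 fun j => 1 + i + σ j))).mono
      fun M hM => Finset.sum_congr rfl fun i _ => hM i

theorem cyc_add (n : ℕ) (a b : Co Zp Zp) : cyc n (a + b) = cyc n a + cyc n b := by
  induction n generalizing a b with
  | zero => rfl
  | succ n ih =>
    rw [cyc_succ_CCyc, cyc_succ_CCyc, cyc_succ_CCyc, ← ih]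
    exact congrArg _ (funext fun σ => Finset.sum_add_distrib)

theorem cyc_mul (n : ℕ) (r : Zp) (a : Co Zp Zp) : cyc n (fun σ => r * a σ) = r * cyc n a := by
  induction n generalizing a with
  | zero => rfl
  | succ n ih =>
    rw [cyc_succ_CCyc, cyc_succ_CCyc, ← ih]
    exact congrArg _ (funext fun σ => (Finset.mul_sum _ _ _).symm)

/-- With `T a σ = ∑ i, a (0, 1, 1 + i + σ)`: `T a` is invariant, `T (dd (n + 2) A) = dd n (T A)` for
invariant `A`, and `T A = 37 * A (0, 1) = 0` if `A` has degree one. -/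
theorem cyc_dd (n : ℕ) {A : Co Zp Zp} (hA : Dg (2 * n + 1) A)
    (hinv : ∀ k σ, A (fun j => k + σ j) = A σ) : cyc (n + 1) (dd (2 * n + 2) A) = 0 := by
  induction n generalizing A with
  | zero =>
    rw [cyc_succ_CCyc, T_dd_CCyc _ hinv]
    have e : ∀ (i : Zp) (σ : ℕ → Zp), A (cons 0 (cons 1 fun j => 1 + i + σ j)) =
        A (cons 0 fun _ => 1) := fun i σ => hA _ _ fun j hj => by
      match j, hj with
      | 0, _ => rfl
      | 1, _ => rfl
    simp only [cyc, dd, T_CCyc, e, Finset.sum_const, Finset.card_univ, ZMod.card, nsmul_eq_mul,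
      CharP.cast_eq_zero, zero_mul, mul_zero, smul_zero]
  | succ n ih =>
    rw [cyc_succ_CCyc, T_dd_CCyc _ hinv]
    exact ih (T_dg_CCyc hA) (T_inv_CCyc A)

theorem cyc_cups (l : List Zp) :
    cyc l.length (fun σ => ((cups (l.map fun n γ => n * γ) σ : ℤ) : Zp)) = l.prod := by
  induction l with
  | nil => simp [cyc, cups]
  | cons n l ih =>
    rw [List.length_cons, cyc_succ_CCyc, List.prod_cons, ← ih, ← cyc_mul]
    refine congrArg _ (funext fun σ => ?_)
    conv_rhs => rw [← tc_sum n σ, Finset.sum_mul]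
    refine Finset.sum_congr rfl fun i _ => ?_
    rw [← Int.cast_mul, ← cups_congr l (fun n γ => n * γ) (fun n γ => n * γ)
      (fun j => 1 + i + σ j) σ fun m _ => ⟨m * (1 + i), fun a => by ring⟩]
    rfl

theorem cyc_E0 : cyc jl.length (fun σ => ((E0 σ : ℤ) : Zp)) ≠ 0 := by
  have : Fact (Nat.Prime 37) := ⟨by norm_num⟩
  have h := cyc_cups (jl.map fun j => -(j.2 : Zp))
  rw [List.length_map, List.map_map] at h
  have e : E0 = cups (jl.map ((fun n γ => n * γ) ∘ fun j => -(j.2 : Zp))) := by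
    unfold E0
    congr 2
    funext j γ
    exact (neg_mul _ _).symm
  rw [e, h]
  refine List.prod_ne_zero fun h0 => ?_
  obtain ⟨j, -, hj⟩ := List.mem_map.1 h0
  exact j.2.2 (neg_eq_zero.1 hj)

theorem jl_pos : 0 < jl.length :=
  List.length_pos_of_mem (a := ((0, 0, 0), ⟨1, by decide⟩))
    (Finset.mem_toList.2 (Finset.mem_univ _))

/-- Induction on `n`, for all `σ` and `a`: `PP M (n + 1)` of the pull-back is the pull-back of
`fun y => a (cons (σ 0) y)` for `shift 1 σ`; only `k` with `k / M ≤ 1 / 2 < (k + 1) / M` and `j = 0`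
contribute. -/
theorem II_simplex {M : ℕ} (hM : 0 < M) (n : ℕ) (σ : ℕ → Zp) {a : Co Zp ℤ} (ha : Dg n a)
    (ha' : Nm n a) : II M n (pb (fun t => σ (idx n t)) a) = a σ := by
  induction n generalizing σ a with
  | zero => exact ha _ _ fun j hj => by rw [Nat.le_zero.1 hj]; rfl
  | succ n ih =>
    rw [II, PP_CCyc hM n σ ha', ih]
    · exact congrArg a (funext fun j => by cases j <;> rfl)
    · intro x y h
      refine ha _ _ fun j hj => ?_
      rcases j with _ | j
      · rfl
      · exact h j (by omega)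
    · exact fun x j hj h => ha' _ (j + 1) (by omega) h

theorem idx_le (n : ℕ) (t : Pt) : idx n t ≤ n := by
  induction n generalizing t with
  | zero => exact le_rfl
  | succ n ih =>
    rw [idx]
    split_ifs
    · omega
    · exact Nat.succ_le_succ (ih _)

theorem idx_ins_one {i n : ℕ} (hi : i ≤ n) (σ : ℕ → Zp) (t : Pt) :
    σ (idx (n + 1) (ins i 1 t)) = skip i σ (idx n t) := by
  induction i generalizing n σ t with
  | zero =>
    rw [ins_zero, idx_cons_CCyc, if_neg (by norm_num)]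
    rfl
  | succ i ih =>
    obtain ⟨n, rfl⟩ : ∃ m, n = m + 1 := ⟨n - 1, by omega⟩
    rw [idx_ins_CCyc, idx.eq_2 t n]
    split_ifs
    · simp [skip]
    · have := ih (n := n) (by omega) (shift 1 σ) (shift 1 t)
      simp only [skip, Nat.add_lt_add_iff_right] at this ⊢
      exact this

theorem idx_ins_last (n : ℕ) (t : Pt) : idx (n + 1) (ins n 0 t) = idx n t := by
  induction n generalizing t with
  | zero => rw [ins_zero, idx_cons_CCyc, if_pos (by norm_num), idx]
  | succ n ih => rw [idx_ins_CCyc, ih, idx]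

theorem idx_ins_zero {i n : ℕ} (hi : i ≤ n) {t t' : Pt} (h : ∀ j, j < i → t j = t' j) :
    idx (n + 1) (ins i 0 t) = idx (n + 1) (ins i 0 t') := by
  induction i generalizing n t t' with
  | zero =>
    rw [ins_zero, idx_cons_CCyc, idx_cons_CCyc, if_pos (by norm_num), if_pos (by norm_num)]
  | succ i ih =>
    obtain ⟨n, rfl⟩ : ∃ m, n = m + 1 := ⟨n - 1, by omega⟩
    rw [idx_ins_CCyc, idx_ins_CCyc, h 0 (by omega),
      ih (t := shift 1 t) (t' := shift 1 t') (by omega) fun j hj => h (j + 1) (by omega)]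

theorem lst_length (n : ℕ) (σ : ℕ → Zp) : (lst n σ).length = n + 1 := by
  simp [lst]

theorem lst_eraseIdx {i n : ℕ} (hi : i ≤ n + 1) (σ : ℕ → Zp) :
    (lst (n + 1) σ).eraseIdx i = lst n (skip i σ) := by
  refine List.ext_getElem ?_ fun j h1 h2 => ?_
  · rw [List.length_eraseIdx_of_lt (by rw [lst_length]; omega), lst_length, lst_length]
    rfl
  · rw [List.getElem_eraseIdx]
    simp only [lst, List.getElem_map, List.getElem_range, skip]
    split_ifs <;> rfl

theorem lst_take {i n : ℕ} (hi : i ≤ n) (σ : ℕ → Zp) : (lst n σ).take (i + 1) = lst i σ := by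
  rw [lst, lst, ← List.map_take, List.take_range, min_eq_left (by omega)]

theorem lst_map (n : ℕ) (σ : ℕ → Zp) (k : Zp) :
    lst n (fun j => k + σ j) = (lst n σ).map (k + ·) := by
  rw [lst, lst, List.map_map]
  rfl

theorem lst_congr {n : ℕ} {σ σ' : ℕ → Zp} (h : ∀ j, j ≤ n → σ j = σ' j) : lst n σ = lst n σ' :=
  List.map_congr_left fun j hj => h j (Nat.lt_succ_iff.1 (List.mem_range.1 hj))

end Pool.Agent.MP_2fc7fa_gt.N
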