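import Pool.Agent.MP_2fc7fa_gt.N.CPair

/-! The counting cochain on the data space. -/

open scoped ComplexConjugate Topology
open Set Complex Filter

noncomputable section

namespace Pool.Agent.MP_2fc7fa_gt.N

lemma sum_ne_CData (y : W) : ((∑ j, ‖vec 1 y j‖ ^ 2 : ℝ) : ℂ) ≠ 0 := by
  refine ofReal_ne_zero.2 (ne_of_gt ?_)
  rw [Fin.sum_univ_three, show vec 1 y 0 = 1 from rfl, norm_one]
  positivity

lemma pr_smul_CData {c : ℂ} (hc : c ≠ 0) (x : V) : pr (c • x) = pr x := by
  funext a b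
  simp only [pr, Pi.smul_apply, smul_eq_mul, norm_mul, mul_pow, ← Finset.mul_sum, map_mul,
    ofReal_mul, ofReal_pow]
  rw [mul_mul_mul_comm, mul_conj', mul_div_mul_left _ _
    (pow_ne_zero 2 (ofReal_ne_zero.2 (norm_ne_zero_iff.2 hc)))]

lemma cont_CData (j : Jx) : Continuous (xi j) := by
  unfold xi
  fun_prop

lemma four_CData {z : Zz} (h : ∀ j, xi j z = 0) (i : Fin 3) (g : Zp) (a b : Fin 3) :
    z i g a b = actM g (z i 0) a b := by
  obtain ⟨u, hu⟩ : ∃ u : Zp → ℂ, ∀ g, u g = rt (-(g * (wt a - wt b))) * z i g a b :=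
    ⟨_, fun _ => rfl⟩
  have h1 : ∀ n, n ≠ 0 → ZMod.dft u n = 0 := fun n hn => by
    rw [← h ((i, a, b), ⟨n, hn⟩), ZMod.dft_apply, xi]
    refine Finset.sum_congr rfl fun g _ => ?_
    rw [hu, mul_add, neg_add, rt_add, smul_eq_mul, mul_left_comm, mul_assoc]
    rfl
  have h2 : ∀ g, u g = ((37 : ℕ) : ℂ)⁻¹ • ZMod.dft u 0 := fun g => by
    rw [← congrFun (ZMod.dft.symm_apply_apply u) g, ZMod.invDFT_apply,
      Finset.sum_eq_single 0 (fun n _ hn => by rw [h1 n hn, smul_zero]) (by simp), zero_mul,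
      AddChar.map_zero_eq_one, one_smul]
  have h3 := (h2 g).trans (h2 0).symm
  rw [hu, hu, zero_mul, neg_zero, rt_zero, one_mul] at h3
  rw [actM, ← h3, ← mul_assoc, ← rt_add, add_neg_cancel, rt_zero, one_mul]

lemma xi_act_CData (j : Jx) (k l : Zp) (d : Dt) : xi j (act2 k l d).1 =
    rt (-(j.2 * k) + (wt j.1.2.1 - wt j.1.2.2 + j.2) * l) * xi j d.1 := by
  rw [xi, xi, Finset.mul_sum, ← Equiv.sum_comp (Equiv.addRight (k - l))]
  refine Finset.sum_congr rfl fun g _ => ?_
  simp only [act2, actM, Equiv.coe_addRight]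
  rw [← mul_assoc, ← mul_assoc, ← rt_add, ← rt_add, show g + (k - l) - k + l = g by ring]
  congr 2
  ring

theorem actM_add (k l : Zp) (P : Mat) : actM (k + l) P = actM k (actM l P) := by
  funext a b
  simp only [actM, add_mul, rt_add, mul_assoc]

theorem actM_zero (P : Mat) : actM 0 P = P := by
  funext a b
  simp only [actM, zero_mul, rt_zero, one_mul]

theorem actM_pt (k : Zp) (y : W) : actM k (pt y) = pt (rt k • y) := by
  have h : ∀ a, vec 1 (rt k • y) a = rt (k * wt a) * vec 1 y a := fun a => by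
    fin_cases a <;> simp [vec, wt, rt_zero]
  funext a b
  simp only [actM, pt, pr, h, norm_mul, norm_rt, one_mul, map_mul, conj_rt, mul_sub,
    sub_eq_add_neg (k * wt a), rt_add]
  ring

theorem aff_pt (y : W) : aff (pt y) = y := by
  have h := sum_ne_CData y
  refine Prod.ext ?_ ?_ <;> simp only [aff, pt, pr] <;> rw [div_div_div_cancel_right₀ h] <;>
    simp [vec]

theorem aff_actM (k : Zp) (P : Mat) : aff (actM k P) = rt k • aff P := by
  refine Prod.ext ?_ ?_ <;> simp [aff, actM, wt, rt_zero, mul_div_assoc]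

theorem pt_injective : Function.Injective pt := Function.LeftInverse.injective aff_pt

theorem continuousAt_aff (y : W) : ContinuousAt aff (pt y) := by
  have h : pt y 0 0 ≠ 0 := div_ne_zero (by simp [vec]) (sum_ne_CData y)
  have hc : ∀ a b, ContinuousAt (fun P : Mat => P a b) (pt y) := fun a b =>
    (continuous_apply_apply a b).continuousAt
  exact ((hc 1 0).div (hc 0 0) h).prodMk ((hc 2 0).div (hc 0 0) h)

/-- A point that is not fixed lies in the affine chart and is not the origin. -/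
theorem exists_pt {x : V} (hx : x ≠ 0) (h : actM 1 (pr x) ≠ pr x) : ∃ y, y ≠ 0 ∧ pr x = pt y := by
  have h0 : x 0 ≠ 0 := fun h0 => h (by
    funext a b
    fin_cases a <;> fin_cases b <;> simp [actM, pr, wt, rt_zero, h0])
  have h1 : pr x = pt (x 1 / x 0, x 2 / x 0) := by
    rw [pt, ← pr_smul_CData h0 (vec 1 _)]
    congr 1
    funext a
    fin_cases a <;> simp [vec, mul_div_cancel₀ _ h0]
  refine ⟨_, fun e => h ?_, h1⟩
  rw [h1, e, actM_pt, smul_zero]

/-- Fourier inversion (`ZMod.dft`, or orthogonality of characters): if all `xi j z` vanish then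
`g ↦ rt (-(g * w)) * z i g a b` is constant. -/
theorem EE_lz {z : Zz} (h : ¬ ∀ i g, z i g = actM g (z i 0)) : LZ EE (comap Prod.fst (𝓝 z)) := by
  obtain ⟨j, hj⟩ : ∃ j, xi j z ≠ 0 := by
    by_contra! h0
    exact h fun i g => funext fun a => funext fun b => four_CData h0 i g a b
  have ht : Tendsto (fun d : Dt => xi j d.1) (comap Prod.fst (𝓝 z)) (𝓝 (xi j z)) :=
    ((cont_CData j).tendsto z).comp tendsto_comap
  have h1 : ph j =ᶠ[comap Prod.fst (𝓝 z)] fun d => sec (xi j d.1) := by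
    filter_upwards [ht.eventually_ne hj] with d hd
    rw [ph, if_neg hd]
  have h2 := (sec_lz hj).pb ht
  rw [pb_pb] at h2
  have h3 : j ∈ jl := Finset.mem_toList.2 (Finset.mem_univ j)
  rw [EE]
  exact cups_lz (List.mem_map_of_mem h3) ((LZ.pb_congr tc h1).of_sub h2)

/-- `xi j (act2 k l d).1 = rt c * xi j d.1` and `ph j (act2 k l d) = ph j d + c` for
`c = -(n * k) + (w + n) * l`. -/
theorem EE_inv (k l : Zp) : pb (act2 k l) EE = EE := by
  funext x
  refine cups_congr jl ph ph _ x fun j _ =>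
    ⟨-(j.2 * k) + (wt j.1.2.1 - wt j.1.2.2 + j.2) * l, fun a => ?_⟩
  rw [ph, ph, xi_act_CData]
  by_cases h : xi j (x a).1 = 0
  · rw [if_pos h, if_pos (by rw [h, mul_zero])]
    simp only [act2]
    ring
  · rw [if_neg h, if_neg (mul_ne_zero (rt_ne_zero _) h), sec_rt_mul _ h]

theorem EE_orb {x : ℕ → Dt} (h : ∀ a, ∃ y, Orb (x a).1 y) (h0 : ∀ a, (x a).2.2 = 0) :
    EE x = E0 fun a => (x a).2.1 := by
  refine cups_congr jl ph (fun j γ => -(j.2 * γ)) x _ fun j _ => ⟨0, fun a => ?_⟩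
  obtain ⟨y, hy⟩ := h a
  have h1 : (act2 1 0 (x a)).1 = (x a).1 := by
    funext i g
    simp only [act2]
    rw [hy, hy, actM_pt, smul_smul, ← rt_add, add_zero, add_sub_cancel]
  have h2 := xi_act_CData j 1 0 (x a)
  rw [h1, mul_zero, add_zero, mul_one, ← sub_eq_zero, ← one_sub_mul, mul_eq_zero,
    or_iff_right fun e => j.2.2 (neg_eq_zero.1 (rt_injective
      ((sub_eq_zero.1 e).symm.trans rt_zero.symm)))] at h2
  rw [ph, if_pos h2, h0, mul_zero]

theorem rho_act (k l : Zp) (d : Dt) :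
    rho (act2 k l d) = (fun i => rt l • (rho d).1 i, (rho d).2 + l) := by
  refine Prod.ext (funext fun i => ?_) rfl
  simp only [rho, act2]
  rw [← actM_add, ← aff_actM, ← actM_add,
    show d.2.1 + k - (d.2.2 + l) - k + l = d.2.1 - d.2.2 by ring,
    show -(d.2.1 + k - (d.2.2 + l)) + k = l + -(d.2.1 - d.2.2) by ring]

theorem rho_orb {d : Dt} {x : Fin 3 → W} (h : Orb d.1 x) : rho d = (x, d.2.2) := by
  refine Prod.ext (funext fun i => ?_) rfl
  simp only [rho]
  rw [h, actM_pt, smul_smul, ← rt_add, neg_add_cancel, rt_zero, one_smul, aff_pt]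

theorem rho_tendsto {z : Zz} {x : Fin 3 → W} (h : Orb z x) :
    Tendsto rho (comap Prod.fst (𝓝 z)) (comap Prod.fst (𝓝 x)) := by
  rw [tendsto_comap_iff, tendsto_pi_nhds]
  intro i U hU
  have h1 : ∀ g : Zp, Tendsto (fun z' : Zz => aff (actM (-g) (z' i g))) (𝓝 z) (𝓝 (x i)) :=
    fun g => by
      have h2 : Continuous fun z' : Zz => actM (-g) (z' i g) := by
        unfold actM
        fun_prop
      have h3 := h2.tendsto z
      rw [h, actM_pt, smul_smul, ← rt_add, neg_add_cancel, rt_zero, one_smul] at h3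
      have h4 := (continuousAt_aff (x i)).tendsto.comp h3
      rwa [aff_pt] at h4
  have h5 : ∀ᶠ z' in 𝓝 z, ∀ g : Zp, aff (actM (-g) (z' i g)) ∈ U :=
    eventually_all.2 fun g => h1 g hU
  exact mem_map.2 ((tendsto_comap.eventually h5).mono fun d hd => hd _)

theorem E0_dg : Dg NN E0 := by
  have h := cups_dg (jl.map fun (j : Jx) (γ : Zp) => -(j.2 * γ))
  rwa [List.length_map] at h

theorem E0_nm : Nm NN E0 := by
  have h := cups_nm (jl.map fun (j : Jx) (γ : Zp) => -(j.2 * γ))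
  rwa [List.length_map] at h

theorem WW_dg : Dg (NN + 6) WW := by
  have h := cups_dg (jl.map ph)
  rw [List.length_map] at h
  rw [add_comm]
  exact (y6_dg.pb rho).cup h

theorem WW_nm : Nm (NN + 6) WW := by
  have h := cups_nm (jl.map ph)
  rw [List.length_map] at h
  rw [add_comm]
  exact (y6_nm.pb rho).cup h

theorem WW_inv (k l : Zp) : pb (act2 k l) WW = WW := by
  rw [WW, pb_cup, EE_inv, pb_pb, funext (rho_act k l)]
  exact congrArg (fun c => cup 6 (pb rho c) EE) (y6_inv l)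

lemma orb_CData {z : Zz} (h : Rg z) :
    (¬ ∀ i g, z i g = actM g (z i 0)) ∨ ∃ x, Orb z x ∧ ∀ i, x i ≠ 0 := by
  refine or_iff_not_imp_left.2 fun h1 => ?_
  rw [not_not] at h1
  have h2 : ∀ i, ∃ y, y ≠ 0 ∧ z i 0 = pt y := fun i => by
    obtain ⟨x, hx, e⟩ := h.1 i 0
    rw [e]
    exact exists_pt hx (by rw [← e, ← h1]; exact h.2.1 i)
  choose y h3 h4 using h2
  exact ⟨y, fun i g => by rw [h1, h4, actM_pt], h3⟩

theorem WW_dd {z : Zz} (h : Rg z) : LZ (dd (NN + 6 + 1) WW) (comap Prod.fst (𝓝 z)) := by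
  rcases orb_CData h with h1 | ⟨x, h1, h2⟩
  · exact ((EE_lz h1).cup_right _ _).dd _
  · have h3 := (y6_dd h2 fun k => ⟨fun e => (h.2.2 k).1 (by rw [h1, h1, rt_zero, one_smul, e]),
      fun e => (h.2.2 k).2 (by rw [h1, h1, rt_zero, one_smul, e])⟩).pb (rho_tendsto h1)
    have h4 := cups_dd (jl.map ph)
    rw [List.length_map] at h4
    rw [pb_dd] at h3
    rw [add_comm NN]
    exact LZ.dd_cup (y6_dg.pb rho) h3 ((congrArg (LZ · _) h4).mpr (LZ.zero _))

theorem WW_lz {z : Zz} (h : Rg z) (h' : ¬ Hit z) : LZ WW (comap Prod.fst (𝓝 z)) := by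
  rcases orb_CData h with h1 | ⟨x, h1, h2⟩
  · exact (EE_lz h1).cup_right _ _
  · exact ((y6_lz h2 fun e => h' ⟨x, h1, h2, e⟩).pb (rho_tendsto h1)).cup_left _ _

end Pool.Agent.MP_2fc7fa_gt.N
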