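import Pool.Agent.MP_2fc7fa_gt.N.CHit

/-! Cancellation of faces. -/

open scoped ComplexConjugate Topology
open Set Complex Filter

noncomputable section

namespace Pool.Agent.MP_2fc7fa_gt.N

variable {f : W → W} (L : LineFamily NN f) {z₀ : W} (h1 : z₀.1 ≠ 0) (h2 : z₀.2 ≠ 0) (T δ : ℝ)
  (M : ℕ)

theorem adm_CFace {n : ℕ} (hn : n ≤ NN) (σ : ℕ → Zp) {t : Pt} {s : ℝ} (ht : t ∈ cube)
    (hs : s ∈ Icc (0 : ℝ) 1) : Adm NN (lst n σ) t s :=
  ⟨List.ne_nil_of_length_pos (by rw [lst_length]; omega), by rw [lst_length]; omega, ht, hs⟩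

theorem sh7_CFace {i : ℕ} (hi : i ≤ 6) (a : ℝ) (q : Pt) : shift 7 (ins i a q) = shift 6 q := by
  funext j
  simp only [shift, ins]
  rw [if_neg (by omega), if_neg (by omega)]
  rfl

theorem sh7'_CFace (i : ℕ) (a : ℝ) (q : Pt) : shift 7 (ins (7 + i) a q) = ins i a (shift 7 q) := by
  funext j
  simp only [shift, ins]
  by_cases h : j < i
  · rw [if_pos (by omega), if_pos h]
  · rw [if_neg (by omega), if_neg h]
    by_cases h' : j = i
    · rw [if_pos (by omega), if_pos h']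
    · rw [if_neg (by omega), if_neg h']
      congr 1
      omega

theorem res_CFace (i : ℕ) (a : ℝ) (q : Pt) :
    res 6 (shift 1 (ins (7 + i) a q)) = res 6 (shift 1 q) := by
  funext j
  simp only [res, shift, ins]
  rw [if_pos (by omega)]

theorem ins0_CFace {i : ℕ} (hi : 0 < i) (a : ℝ) (q : Pt) : ins i a q 0 = q 0 := if_pos hi

theorem congr_CFace {φ ψ : Pt → Dt} (h : ∀ q ∈ cube, φ q = ψ q) :
    II M (NN + 6) (pb φ WW) = II M (NN + 6) (pb ψ WW) :=
  II_congr M _ fun _ hx => congrArg WW (funext fun j => h _ (hx j))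

theorem congr_act_CFace {φ ψ : Pt → Dt} (k l : Zp) (h : ∀ q ∈ cube, φ q = act2 k l (ψ q)) :
    II M (NN + 6) (pb φ WW) = II M (NN + 6) (pb ψ WW) := by
  rw [congr_CFace M h, ← pb_pb ψ (act2 k l) WW, WW_inv]

theorem indep_CFace {φ : Pt → Dt} {i : ℕ} (hi : i < NN + 6)
    (h : ∀ q ∈ cube, ∀ q' ∈ cube, (∀ j, j ≠ i → q j = q' j) → φ q = φ q') :
    II M (NN + 6) (pb φ WW) = 0 :=
  II_indep M (WW_nm.pb φ) hi fun _ _ hx hy hxy =>
    congrArg WW (funext fun a => h _ (hx a) _ (hy a) (hxy a))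

theorem aa_CFace {k k' : Zp} {p p' : Fin 6 → ℝ} {c : ℂ} (h : vv z₀ k p = c • vv z₀ k' p')
    (h3 : p 3 = p' 3) (h4 : p 4 = p' 4) (h5 : p 5 = p' 5) (i : Fin 3) :
    aa z₀ T δ k p i = c • aa z₀ T δ k' p' i := by
  rw [aa, aa, h, hh, hh, h3, h4, h5, smul_comm]

theorem rt_one_CFace : rt 1 = ee 1 := by simpa using rt_intCast 1

theorem ee_half_CFace : ee (1 - 1 / 2) = rt 1 * ee (0 - 1 / 2) := by
  rw [rt_one_CFace, ← ee_add]
  norm_num

include h1 h2

/-- On `r = 0` nothing depends on the second angle (coordinate `2` of the face), on `r = 1` nothing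
depends on the first angle (coordinate `1` of the face): `II_indep`. -/
theorem face_r (σ : ℕ → Zp) (k : Zp) {a : ℝ} (ha : a = 0 ∨ a = 1) :
    II M (NN + 6) (pb (ins 1 a) (pb (Psi L z₀ T δ NN σ k) WW)) = 0 := by
  rw [pb_pb]
  rcases ha with rfl | rfl
  · refine indep_CFace M (i := 2) (by omega) fun q _ q' _ h => ?_
    have e7 : shift 6 q = shift 6 q' := funext fun j => h _ (by omega)
    have ea : ∀ i, aa z₀ T δ k (res 6 (shift 1 (ins 1 0 q))) i =
        aa z₀ T δ k (res 6 (shift 1 (ins 1 0 q'))) i := fun i => by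
      rw [aa_CFace T δ (c := 1) (k' := k) (p' := res 6 (shift 1 (ins 1 0 q'))), one_smul] <;>
        simp [vv, res, shift, ins, h]
    simp only [Psi, sh7_CFace (i := 1) (by omega), ins0_CFace (i := 1) (by omega), ea, e7,
      h 0 (by omega)]
    simp [bb, res, shift, ins, h]
  · refine indep_CFace M (i := 1) (by omega) fun q _ q' _ h => ?_
    have e7 : shift 6 q = shift 6 q' := funext fun j => h _ (by omega)
    have ea : ∀ i, aa z₀ T δ k (res 6 (shift 1 (ins 1 1 q))) i =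
        aa z₀ T δ k (res 6 (shift 1 (ins 1 1 q'))) i := fun i => by
      rw [aa_CFace T δ (c := 1) (k' := k) (p' := res 6 (shift 1 (ins 1 1 q'))), one_smul] <;>
        simp [vv, res, shift, ins, h]
    simp only [Psi, sh7_CFace (i := 1) (by omega), ins0_CFace (i := 1) (by omega), ea, e7,
      h 0 (by omega)]
    simp [bb, res, shift, ins, h]

/-- `Psi σ (k + 1) (ins 2 1 q) = act2 0 1 (Psi σ k (ins 2 0 q))`, and `WW_inv`. -/
theorem face_th1 (σ : ℕ → Zp) (k : Zp) :
    II M (NN + 6) (pb (ins 2 1) (pb (Psi L z₀ T δ NN σ (k + 1)) WW)) =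
      II M (NN + 6) (pb (ins 2 0) (pb (Psi L z₀ T δ NN σ k) WW)) := by
  rw [pb_pb, pb_pb]
  refine congr_act_CFace M 0 1 fun q _ => ?_
  have ea : ∀ i, aa z₀ T δ (k + 1) (res 6 (shift 1 (ins 2 1 q))) i =
      rt 1 • aa z₀ T δ k (res 6 (shift 1 (ins 2 0 q))) i := fun i => by
    apply aa_CFace
    · have := ee_half_CFace
      refine Prod.ext ?_ ?_
      · simp only [vv, res, shift, ins, Prod.smul_fst, smul_eq_mul]
        simp only [Fin.val_one, Fin.val_zero, Nat.reduceAdd, lt_self_iff_false, if_false,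
          if_true, this, Nat.reduceLT]
        ring
      · simp only [vv, res, shift, ins, Prod.smul_snd, smul_eq_mul, rt_add]
        simp
        ring
    all_goals simp [res, shift, ins]
  simp only [Psi, act2, sh7_CFace (i := 2) (by omega), ins0_CFace (i := 2) (by omega), ea,
    actM_zero, sub_zero, add_zero, rt_add, mul_smul]
  refine Prod.ext rfl (Prod.ext rfl ?_)
  simp only [bb, res, shift, ins]
  simp
  split_ifs <;> ring

/-- `Psi σ k (ins 3 1 q) = Psi σ (k + 1) (ins 3 0 q)`. -/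
theorem face_th2 (σ : ℕ → Zp) (k : Zp) :
    II M (NN + 6) (pb (ins 3 1) (pb (Psi L z₀ T δ NN σ k) WW)) =
      II M (NN + 6) (pb (ins 3 0) (pb (Psi L z₀ T δ NN σ (k + 1)) WW)) := by
  rw [pb_pb, pb_pb]
  refine congr_CFace M fun q _ => ?_
  have ea : ∀ i, aa z₀ T δ k (res 6 (shift 1 (ins 3 1 q))) i =
      aa z₀ T δ (k + 1) (res 6 (shift 1 (ins 3 0 q))) i := fun i => by
    rw [aa_CFace T δ (c := 1) (k' := k + 1) (p' := res 6 (shift 1 (ins 3 0 q))), one_smul]
    · have := ee_half_CFace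
      rw [one_smul]
      refine Prod.ext ?_ ?_
      · simp [vv, res, shift, ins]
      · simp only [vv, res, shift, ins, rt_add]
        simp only [Fin.val_two, Fin.val_zero, Nat.reduceAdd, lt_self_iff_false, if_false,
          if_true, this, Nat.reduceLT]
        ring
    all_goals simp [res, shift, ins]
  simp only [Psi, sh7_CFace (i := 3) (by omega), ins0_CFace (i := 3) (by omega), ea]
  refine Prod.ext rfl (Prod.ext rfl ?_)
  simp [bb, res, shift, ins]

/-- `L.face1`, `lst_eraseIdx`, `idx_ins_one`, `II_congr`. -/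
theorem face_t1 {n i : ℕ} (hn : NN = n + 1) (hi : i ≤ n) (σ : ℕ → Zp) (k : Zp) :
    II M (NN + 6) (pb (ins (7 + i) 1) (pb (Psi L z₀ T δ NN σ k) WW)) =
      II M (NN + 6) (pb (Psi L z₀ T δ n (skip i σ) k) WW) := by
  rw [pb_pb]
  refine congr_CFace M fun q hq => ?_
  have ht := shift_mem_cube 7 hq
  simp only [Psi, sh7'_CFace, res_CFace, ins0_CFace (i := 7 + i) (by omega)]
  refine Prod.ext (funext fun a => funext fun g => ?_) (Prod.ext ?_ rfl)
  · have := L.face1 _ _ _ _ i (adm_CFace le_rfl σ (ins_mem_cube i ⟨zero_le_one, le_rfl⟩ ht) (hq 0))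
      (smul_ne_zero (rt_ne_zero g) (aa_ne_zero h1 h2 T δ k (res 6 (shift 1 q)) a))
      (by rw [lst_length]; omega) (by simp [ins])
    rw [skip_ins] at this
    have e : (lst NN σ).eraseIdx i = lst n (skip i σ) := by rw [hn, lst_eraseIdx (by omega)]
    rwa [e] at this
  · simp only
    rw [hn]
    exact idx_ins_one hi σ _

/-- `L.face0`, `L.dep`, `idx_ins_zero`, `II_indep` for the coordinate `7 + i`. -/
theorem face_t0 {n i : ℕ} (hn : NN = n + 1) (hi : i < n) (σ : ℕ → Zp) (k : Zp) :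
    II M (NN + 6) (pb (ins (7 + i) 0) (pb (Psi L z₀ T δ NN σ k) WW)) = 0 := by
  rw [pb_pb]
  refine indep_CFace M (i := 7 + i) (by omega) fun q hq q' hq' h => ?_
  have ht := ins_mem_cube i ⟨le_rfl, zero_le_one⟩ (shift_mem_cube 7 hq)
  have ht' := ins_mem_cube i ⟨le_rfl, zero_le_one⟩ (shift_mem_cube 7 hq')
  have e0 : q 0 = q' 0 := h 0 (by omega)
  have e1 : res 6 (shift 1 q) = res 6 (shift 1 q') := funext fun j => h _ (by omega)
  have e2 : ∀ j, j < i → shift 7 q j = shift 7 q' j := fun j hj => h _ (by omega)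
  simp only [Psi, sh7'_CFace, res_CFace, ins0_CFace (i := 7 + i) (by omega), e0, e1]
  refine Prod.ext (funext fun a => funext fun g => ?_) (Prod.ext ?_ rfl)
  · have hv := smul_ne_zero (rt_ne_zero g) (aa_ne_zero h1 h2 T δ k (res 6 (shift 1 q')) a)
    have hi' : i ≤ NN := by omega
    simp only
    rw [L.face0 _ _ _ _ i (adm_CFace le_rfl σ ht (hq' 0)) hv (by simp [ins]),
      L.face0 _ _ _ _ i (adm_CFace le_rfl σ ht' (hq' 0)) hv (by simp [ins]), lst_take hi']
    refine L.dep _ _ _ _ _ (adm_CFace hi' σ ht (hq' 0)) ht' hv fun j hj => ?_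
    rw [lst_length] at hj
    have hj' : j < i := by omega
    simp only [ins, if_pos hj', e2 j hj']
  · simp only
    rw [hn, idx_ins_zero hi.le e2]

/-- `L.face0`, `L.dep`, `idx_ins_last`. -/
theorem face_last {n : ℕ} (hn : NN = n + 1) (σ : ℕ → Zp) (k : Zp) :
    II M (NN + 6) (pb (ins (7 + n) 0) (pb (Psi L z₀ T δ NN σ k) WW)) =
      II M (NN + 6) (pb (Psi L z₀ T δ n σ k) WW) := by
  rw [pb_pb]
  refine congr_CFace M fun q hq => ?_
  have ht' := shift_mem_cube 7 hq
  have ht := ins_mem_cube n ⟨le_rfl, zero_le_one⟩ ht'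
  simp only [Psi, sh7'_CFace, res_CFace, ins0_CFace (i := 7 + n) (by omega)]
  refine Prod.ext (funext fun a => funext fun g => ?_) (Prod.ext ?_ rfl)
  · have hv := smul_ne_zero (rt_ne_zero g) (aa_ne_zero h1 h2 T δ k (res 6 (shift 1 q)) a)
    have hi' : n ≤ NN := by omega
    simp only
    rw [L.face0 _ _ _ _ n (adm_CFace le_rfl σ ht (hq 0)) hv (by simp [ins]), lst_take hi']
    refine L.dep _ _ _ _ _ (adm_CFace hi' σ ht (hq 0)) ht' hv fun j hj => ?_
    rw [lst_length] at hj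
    have hj' : j < n := by omega
    simp only [ins, if_pos hj']
  · simp only
    rw [hn, idx_ins_last]

/-- `Psi (l + σ) k q = act2 l 0 (Psi σ k q)` on the cube by `L.equiv`. -/
theorem face_inv {n : ℕ} (hn : n ≤ NN) (σ : ℕ → Zp) (k l : Zp) :
    II M (NN + 6) (pb (Psi L z₀ T δ n (fun j => l + σ j) k) WW) =
      II M (NN + 6) (pb (Psi L z₀ T δ n σ k) WW) := by
  refine congr_act_CFace M l 0 fun q hq => ?_
  simp only [Psi, act2, add_zero]
  refine Prod.ext (funext fun a => funext fun g => ?_) (Prod.ext (add_comm _ _) rfl)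
  have hv := smul_ne_zero (rt_ne_zero (g - l)) (aa_ne_zero h1 h2 T δ k (res 6 (shift 1 q)) a)
  simp only
  rw [← L.equiv _ _ _ _ l (adm_CFace hn σ (shift_mem_cube 7 hq) (hq 0)) hv, lst_map, smul_smul,
    ← rt_add, add_sub_cancel]

omit h1 h2 in
theorem Psi_congr {n : ℕ} {σ σ' : ℕ → Zp} (h : ∀ j, j ≤ n → σ j = σ' j) (k : Zp) :
    Psi L z₀ T δ n σ k = Psi L z₀ T δ n σ' k := by
  funext q
  simp only [Psi, lst_congr h, h _ (idx_le n _)]

end Pool.Agent.MP_2fc7fa_gt.N
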