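import Pool.Agent.MP_2fc7fa_gt.N.IfC

/-! Paths of invertible linear maps. -/

open scoped ComplexConjugate Topology
open Set Complex Filter

noncomputable section

namespace Pool.Agent.MP_2fc7fa_gt.N

theorem mat_CGL (m : ℕ) (M : Matrix (Fin m) (Fin m) ℝ) (hM : M.det ≠ 0) :
    ∃ (e : Fin m → ℝ) (Q : ℝ → Matrix (Fin m) (Fin m) ℝ), (∀ j, e j = 1 ∨ e j = -1) ∧
      Continuous Q ∧ (∀ u ∈ Icc (0 : ℝ) 1, (Q u).det ≠ 0) ∧ Q 0 = M ∧ Q 1 = Matrix.diagonal e := by
  refine Matrix.diagonal_transvection_induction_of_det_ne_zero (fun M => ∃ (e : Fin m → ℝ)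
    (Q : ℝ → Matrix (Fin m) (Fin m) ℝ), (∀ j, e j = 1 ∨ e j = -1) ∧ Continuous Q ∧
      (∀ u ∈ Icc (0 : ℝ) 1, (Q u).det ≠ 0) ∧ Q 0 = M ∧ Q 1 = Matrix.diagonal e) M hM
    (fun D hD => ?_) (fun t => ?_) ?_
  · rw [Matrix.det_diagonal, Finset.prod_ne_zero_iff] at hD
    refine ⟨fun j => if 0 < D j then 1 else -1,
      fun u => Matrix.diagonal fun j => (1 - u) * D j + u * if 0 < D j then 1 else -1,
      fun j => ?_, Continuous.matrix_diagonal (by fun_prop), fun u hu => ?_, by simp, by simp⟩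
    · by_cases h : 0 < D j
      · exact .inl (if_pos h)
      · exact .inr (if_neg h)
    · rw [Matrix.det_diagonal, Finset.prod_ne_zero_iff]
      intro j hj
      obtain ⟨h0, h1⟩ := hu
      split_ifs with h
      · rcases h0.eq_or_lt with rfl | h0
        · simpa using h.ne'
        · exact ne_of_gt (by nlinarith [mul_nonneg (sub_nonneg.2 h1) h.le])
      · have h2 : D j < 0 := lt_of_le_of_ne (not_lt.1 h) (hD j hj)
        rcases h0.eq_or_lt with rfl | h0
        · simpa using h2.ne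
        · exact ne_of_lt (by nlinarith [mul_nonneg (sub_nonneg.2 h1) (neg_pos.2 h2).le])
  · refine ⟨1, fun u => Matrix.transvection t.i t.j ((1 - u) * t.c), fun _ => .inl rfl, ?_,
      fun u _ => ?_, by simp [Matrix.TransvectionStruct.toMatrix], by simp⟩
    · refine continuous_const.add (continuous_matrix fun a b => ?_)
      simp only [Matrix.single, Matrix.of_apply]
      split_ifs <;> fun_prop
    · rw [Matrix.det_transvection_of_ne _ _ t.hij]
      exact one_ne_zero
  · rintro A B - - ⟨e, Q, a1, a2, a3, a4, a5⟩ ⟨e', Q', b1, b2, b3, b4, b5⟩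
    refine ⟨fun j => e j * e' j, fun u => Q u * Q' u, fun j => ?_, a2.matrix_mul b2,
      fun u hu => ?_, by simp only [a4, b4], by simp only [a5, b5, Matrix.diagonal_mul_diagonal]⟩
    · rcases a1 j with h | h <;> rcases b1 j with h' | h' <;> simp [h, h']
    · rw [Matrix.det_mul]
      exact mul_ne_zero (a3 u hu) (b3 u hu)

/-- Use `Matrix.Pivot.exists_list_transvec_mul_diagonal_mul_list_transvec`; scale the coefficients
of the transvections to zero and move the diagonal entries to their signs. -/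
theorem gl_real (m : ℕ) (A : (Fin m → ℝ) →L[ℝ] (Fin m → ℝ)) (hA : Function.Injective A) :
    ∃ (e : Fin m → ℝ) (P : ℝ → (Fin m → ℝ) → Fin m → ℝ), (∀ j, e j = 1 ∨ e j = -1) ∧
      Continuous (Function.uncurry P) ∧ (∀ u ∈ Icc (0 : ℝ) 1, ∀ y, y ≠ 0 → P u y ≠ 0) ∧
      P 0 = A ∧ P 1 = fun y j => e j * y j := by
  have h0 : ∀ y, (LinearMap.toMatrix' (A : (Fin m → ℝ) →ₗ[ℝ] Fin m → ℝ)).mulVec y = A y :=
    fun y => by rw [← Matrix.toLin'_apply, Matrix.toLin'_toMatrix']; rfl
  obtain ⟨e, Q, h1, h2, h3, h4, h5⟩ := mat_CGL m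
    (LinearMap.toMatrix' (A : (Fin m → ℝ) →ₗ[ℝ] Fin m → ℝ)) fun h => by
      obtain ⟨y, hy, e⟩ := Matrix.exists_mulVec_eq_zero_iff.2 h
      exact hy (hA (by rw [← h0, e, map_zero]))
  refine ⟨e, fun u y => (Q u).mulVec y, h1, (h2.comp continuous_fst).matrix_mulVec continuous_snd,
    fun u hu y hy h => h3 u hu (Matrix.exists_mulVec_eq_zero_iff.1 ⟨y, hy, h⟩),
    funext fun y => ?_, funext fun y => funext fun j => ?_⟩
  · beta_reduce
    rw [h4, h0]
  · beta_reduce
    rw [h5, Matrix.mulVec_diagonal]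

/-- The set of `t : ℂ` such that `A + t (1 - A)` is not injective is finite (eigenvalues), and the
complement of a countable set in `ℂ` is path connected. -/
theorem gl_complex (E : Type) [NormedAddCommGroup E] [NormedSpace ℂ E] [FiniteDimensional ℂ E]
    (A : E ≃L[ℂ] E) : ∃ P : ℝ → E → E, Continuous (Function.uncurry P) ∧
      (∀ u ∈ Icc (0 : ℝ) 1, ∀ y, y ≠ 0 → P u y ≠ 0) ∧ P 0 = A ∧ P 1 = id := by
  have hf : {t : ℂ | ∃ y, y ≠ 0 ∧ (1 - t) • A y + t • y = 0}.Finite := by
    refine ((Module.End.finite_hasEigenvalue (A : E →ₗ[ℂ] E)).image fun μ => μ / (μ - 1)).subset ?_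
    rintro t ⟨y, hy, h⟩
    have h1 : 1 - t ≠ 0 := fun e => hy (by
      rwa [e, zero_smul, zero_add, ← sub_eq_zero.1 e, one_smul] at h)
    refine ⟨-t / (1 - t), Module.End.hasEigenvalue_of_hasEigenvector (x := y)
      ⟨Module.End.mem_eigenspace_iff.2 ?_, hy⟩, ?_⟩
    · change A y = _
      rw [div_eq_inv_mul, mul_smul, eq_inv_smul_iff₀ h1, neg_smul, eq_neg_iff_add_eq_zero, h]
    · beta_reduce
      rw [div_sub_one h1, div_div_div_cancel_right₀ h1, show -t - (1 - t) = -1 by ring,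
        neg_div_neg_eq, div_one]
  obtain ⟨γ, hγ⟩ := (hf.countable.isPathConnected_compl_of_one_lt_rank
    (by rw [rank_real_complex]; exact Nat.one_lt_ofNat)).joinedIn 0
      (fun ⟨y, hy, h⟩ => hy (by simpa using h)) 1 fun ⟨y, hy, h⟩ => hy (by simpa using h)
  refine ⟨fun u y => (1 - γ.extend u) • A y + γ.extend u • y, ?_,
    fun u hu y hy h => hγ ⟨u, hu⟩ ⟨y, hy, by rwa [← γ.extend_apply hu]⟩,
    funext fun y => by simp, funext fun y => by simp⟩
  have hc : Continuous fun p : ℝ × E => γ.extend p.1 := γ.continuous_extend.comp continuous_fst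
  exact ((continuous_const.sub hc).smul (A.continuous.comp continuous_snd)).add
    (hc.smul continuous_snd)

end Pool.Agent.MP_2fc7fa_gt.N
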