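import Pool.Agent.MP_2fc7fa_gt.N.CSec

/-! Geometry of sectors, arcs and chords. -/

open scoped ComplexConjugate Topology
open Set Complex Filter

noncomputable section

namespace Pool.Agent.MP_2fc7fa_gt.N

theorem sin_pos_CGeo {u : ℝ} (h0 : 0 < u) (h1 : u < 37 / 2) :
    0 < Real.sin (2 * Real.pi * u / 37) := by
  have hpi := Real.pi_pos
  apply Real.sin_pos_of_pos_of_lt_pi
  · positivity
  · have h2 := mul_lt_mul_of_pos_left h1 hpi
    linarith

theorem s_pos_CGeo : 0 < Real.sin (2 * Real.pi / 37) := by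
  have h := sin_pos_CGeo (u := 1) one_pos (by norm_num)
  rwa [mul_one] at h

theorem im_pos_CGeo {u : ℝ} (h0 : 0 < u) (h1 : u < 37 / 2) : 0 < (ee u).im := by
  rw [ee_im]
  exact sin_pos_CGeo h0 h1

theorem im_neg_CGeo (u : ℝ) : (ee (-u)).im = -(ee u).im := by
  rw [← conj_ee, Complex.conj_im]

theorem im_one_CGeo : (ee 1).im = Real.sin (2 * Real.pi / 37) := by
  rw [ee_im, mul_one]

theorem mul_conj_CGeo (u v : ℝ) : ee u * conj (ee v) = ee (u - v) := by
  rw [conj_ee, ← ee_add, sub_eq_add_neg]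

theorem nsq_cast_CGeo (x : W) : (nsq x : ℂ) = x.1 * conj x.1 + x.2 * conj x.2 := by
  rw [Complex.mul_conj', Complex.mul_conj', nsq]
  push_cast
  ring

theorem im_comb_CGeo (a b u v : ℝ) :
    ((a : ℂ) * ee u + b * ee v).im = a * (ee u).im + b * (ee v).im := by
  rw [Complex.add_im, Complex.im_ofReal_mul, Complex.im_ofReal_mul]

theorem nsq_rt_CGeo (k : Zp) (x : W) : nsq (rt k • x) = nsq x := by
  rw [nsq_smul, norm_rt, one_pow, one_mul]

theorem sa_sb (m : ℤ) (l : ℂ) : l = sa m l * ee m + sb m l * ee (m + 1) := by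
  have hs := s_pos_CGeo.ne'
  have h1 : conj (ee m) * ee m = 1 := by
    rw [mul_comm, mul_conj_CGeo, sub_self, ee_zero]
  have h2 : ∀ w : ℂ, w = ((-(w * conj (ee 1)).im / Real.sin (2 * Real.pi / 37) : ℝ) : ℂ) +
      ((w.im / Real.sin (2 * Real.pi / 37) : ℝ) : ℂ) * ee 1 := by
    intro w
    apply Complex.ext
    · rw [Complex.add_re, Complex.ofReal_re, Complex.re_ofReal_mul, Complex.mul_im,
        Complex.conj_im, Complex.conj_re, im_one_CGeo]
      field_simp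
      ring
    · rw [Complex.add_im, Complex.ofReal_im, Complex.im_ofReal_mul, im_one_CGeo]
      field_simp
      ring
  have h3 := h2 (l * conj (ee m))
  rw [sa, sb, ee_add, map_mul, ← mul_assoc l]
  linear_combination ee m * h3 - l * h1

theorem sa_comb (m : ℤ) (a b : ℝ) : sa m (a * ee m + b * ee (m + 1)) = a := by
  have hs := s_pos_CGeo.ne'
  have h1 : (m : ℝ) - (m + 1) = -1 := by ring
  rw [sa, add_mul, mul_assoc, mul_assoc, mul_conj_CGeo, mul_conj_CGeo, im_comb_CGeo, sub_self,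
    ee_zero, h1, im_neg_CGeo, im_one_CGeo, Complex.one_im]
  field_simp
  ring

theorem sb_comb (m : ℤ) (a b : ℝ) : sb m (a * ee m + b * ee (m + 1)) = b := by
  have hs := s_pos_CGeo.ne'
  have h1 : (m : ℝ) + 1 - m = 1 := by ring
  rw [sb, add_mul, mul_assoc, mul_assoc, mul_conj_CGeo, mul_conj_CGeo, im_comb_CGeo, sub_self,
    ee_zero, h1, im_one_CGeo, Complex.one_im]
  field_simp
  ring

theorem continuous_sa (m : ℤ) : Continuous (sa m) := by
  unfold sa
  fun_prop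

theorem continuous_sb (m : ℤ) : Continuous (sb m) := by
  unfold sb
  fun_prop

theorem sa_sb_pos {m : ℤ} {D : ℝ} (hD : D ∈ Ioo (m : ℝ) (m + 1)) :
    0 < sa m (ee D) ∧ 0 < sb m (ee D) := by
  obtain ⟨h1, h2⟩ := hD
  have h3 : D - (m + 1) = -(m + 1 - D) := by ring
  rw [sa, sb, mul_conj_CGeo, mul_conj_CGeo, h3, im_neg_CGeo, neg_neg]
  exact ⟨div_pos (im_pos_CGeo (by linarith) (by linarith)) s_pos_CGeo,
    div_pos (im_pos_CGeo (by linarith) (by linarith)) s_pos_CGeo⟩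

theorem lam_smul {x : W} (hx : x ≠ 0) (l : ℂ) : lam (x, l • x) = l := by
  have h1 : (nsq x : ℂ) ≠ 0 := Complex.ofReal_ne_zero.2 (nsq_pos hx).ne'
  rw [lam, div_eq_iff h1, nsq_cast_CGeo]
  simp only [Prod.smul_fst, Prod.smul_snd, smul_eq_mul]
  ring

theorem eq_lam {e : W × W} (hx : e.1 ≠ 0) (h : det2 e.1 e.2 = 0) : e.2 = lam e • e.1 := by
  have h1 : (nsq e.1 : ℂ) ≠ 0 := Complex.ofReal_ne_zero.2 (nsq_pos hx).ne'
  rw [det2] at h
  apply Prod.ext
  · rw [Prod.smul_fst, smul_eq_mul, lam, div_mul_eq_mul_div, eq_div_iff h1, nsq_cast_CGeo]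
    linear_combination (-conj e.1.2) * h
  · rw [Prod.smul_snd, smul_eq_mul, lam, div_mul_eq_mul_div, eq_div_iff h1, nsq_cast_CGeo]
    linear_combination conj e.1.1 * h

theorem lam_rt (k : Zp) (e : W × W) : lam (rt k • e) = lam e := by
  have h1 : rt k * conj (rt k) = 1 := by rw [conj_rt, ← rt_add, add_neg_cancel, rt_zero]
  rw [lam, lam, Prod.smul_fst, nsq_rt_CGeo]
  congr 1
  simp only [Prod.smul_fst, Prod.smul_snd, smul_eq_mul, map_mul]
  linear_combination (e.2.1 * conj e.1.1 + e.2.2 * conj e.1.2) * h1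

theorem continuousAt_lam {e : W × W} (hx : e.1 ≠ 0) : ContinuousAt lam e := by
  have h1 : (nsq e.1 : ℂ) ≠ 0 := Complex.ofReal_ne_zero.2 (nsq_pos hx).ne'
  have h2 : Continuous fun e : W × W => (nsq e.1 : ℂ) :=
    Complex.continuous_ofReal.comp (continuous_nsq.comp continuous_fst)
  have h3 : Continuous fun e : W × W => e.2.1 * conj e.1.1 + e.2.2 * conj e.1.2 := by fun_prop
  exact h3.continuousAt.div h2.continuousAt h1

theorem det2_smul (c d : ℂ) (x y : W) : det2 (c • x) (d • y) = c * d * det2 x y := by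
  simp only [det2, Prod.smul_fst, Prod.smul_snd, smul_eq_mul]
  ring

theorem det2_self (x : W) : det2 x x = 0 := by
  rw [det2]
  ring

theorem continuous_det2 : Continuous fun e : W × W => det2 e.1 e.2 := by
  unfold det2
  fun_prop

theorem CC_le {κ : W × W → ℝ} {m : ℤ} {e : W × W} (hκ : κ e ∈ Icc (0 : ℝ) 1) (h : CC κ m e) :
    nsq e.2 ≤ nsq e.1 := by
  obtain ⟨a, b, ha, hb, h1, h2⟩ := h
  by_contra hc
  rw [not_le] at hc
  have h3 : ‖(a : ℂ) * ee m + b * ee (m + 1)‖ ≤ a + b := by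
    refine (norm_add_le _ _).trans (le_of_eq ?_)
    rw [norm_mul, norm_mul, norm_ee, norm_ee, mul_one, mul_one, Complex.norm_real,
      Complex.norm_real, Real.norm_of_nonneg ha, Real.norm_of_nonneg hb]
  have h4 : 1 < a + b := by
    by_contra h5
    rw [not_lt] at h5
    have h6 : ‖(a : ℂ) * ee m + b * ee (m + 1)‖ ^ 2 ≤ 1 :=
      pow_le_one₀ (norm_nonneg _) (h3.trans h5)
    have h7 := mul_le_mul_of_nonneg_right h6 (nsq_nonneg e.1)
    rw [← nsq_smul, ← h1] at h7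
    linarith
  have h8 : 0 ≤ κ e * (nsq e.2 - nsq e.1) := mul_nonneg hκ.1 (by linarith)
  have h9 : 0 ≤ (1 - κ e) * (a + b - 1) := mul_nonneg (by linarith [hκ.2]) (by linarith)
  have h10 : κ e = 0 := by
    rcases mul_eq_zero.1 (show κ e * (nsq e.2 - nsq e.1) = 0 by linarith) with h | h
    · exact h
    · linarith
  rw [h10] at h2
  linarith

theorem CC_chord {κ : W × W → ℝ} {m : ℤ} {e : W × W} (hκ : κ e = 0) (hm : m = -3 ∨ m = 6)
    (h : CC κ m e) : ∃ μ, Chord μ ∧ e.2 = μ • e.1 := by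
  obtain ⟨a, b, ha, hb, h1, h2⟩ := h
  rw [hκ] at h2
  refine ⟨_, ⟨(m : Zp), ((m + 1 : ℤ) : Zp), b, ?_, ?_, ⟨hb, by linarith⟩, ?_⟩, h1⟩
  · rcases hm with rfl | rfl <;> decide
  · rcases hm with rfl | rfl <;> decide
  · have h3 : a = 1 - b := by linarith
    rw [rt_intCast, rt_intCast, h3]
    push_cast
    rfl

theorem CC_arc {κ : W × W → ℝ} {m : ℤ} {e : W × W} (hκ : κ e = 1) (hx : e.1 ≠ 0) (h : CC κ m e) :
    ∃ D ∈ Icc (m : ℝ) (m + 1), e.2 = ee D • e.1 := by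
  obtain ⟨a, b, ha, hb, h1, h2⟩ := h
  rw [hκ] at h2
  have hpi := Real.pi_pos
  set w : ℂ := a * ee 0 + b * ee 1 with hw
  have h3 : (a : ℂ) * ee m + b * ee (m + 1) = ee m * w := by
    rw [hw, ee_zero, ee_add]
    ring
  rw [h3] at h1
  have h4 : ‖w‖ = 1 := by
    have h5 : nsq e.2 = ‖w‖ ^ 2 * nsq e.1 := by
      rw [h1, nsq_smul, norm_mul, norm_ee, one_mul]
    have h6 : ‖w‖ ^ 2 = 1 := by
      apply mul_right_cancel₀ (nsq_pos hx).ne'
      linarith
    exact (pow_eq_one_iff_of_nonneg (norm_nonneg _) two_ne_zero).1 h6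
  have h7 := polar_CSec w
  rw [h4, Complex.ofReal_one, one_mul] at h7
  set u : ℝ := 37 * arg w / (2 * Real.pi) with hu
  have h8 : 0 ≤ u := by
    have h9 : 0 ≤ arg w := by
      rw [Complex.arg_nonneg_iff, hw, im_comb_CGeo, ee_zero, Complex.one_im, mul_zero, zero_add,
        im_one_CGeo]
      exact mul_nonneg hb s_pos_CGeo.le
    positivity
  have h10 : u ≤ 37 / 2 := by
    have h11 := Complex.arg_le_pi w
    rw [hu, div_le_iff₀ (by positivity)]
    linarith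
  have h12 : u ≤ 1 := by
    by_contra h13
    rw [not_le] at h13
    have h14 : 0 < (ee (u - 1)).im := im_pos_CGeo (by linarith) (by linarith)
    rw [← mul_conj_CGeo, ← h7, hw, add_mul, mul_assoc, mul_assoc, mul_conj_CGeo, mul_conj_CGeo,
      im_comb_CGeo, sub_self, zero_sub, im_neg_CGeo, ee_zero, Complex.one_im, im_one_CGeo] at h14
    have h15 := mul_nonneg ha s_pos_CGeo.le
    linarith
  refine ⟨m + u, ⟨by linarith, by linarith⟩, ?_⟩
  rw [ee_add, ← h7]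
  exact h1

theorem neg3_CGeo {a b : ℝ} (ha : 0 ≤ a) (hb : 0 ≤ b)
    (h : 0 ≤ ((a : ℂ) * ee ((-3 : ℤ) : ℝ) + b * ee (((-3 : ℤ) : ℝ) + 1)).im) :
    (a : ℂ) * ee ((-3 : ℤ) : ℝ) + b * ee (((-3 : ℤ) : ℝ) + 1) = 0 := by
  have e1 : ((-3 : ℤ) : ℝ) + 1 = -2 := by norm_num
  have e2 : ((-3 : ℤ) : ℝ) = -3 := by norm_num
  have p2 : 0 < (ee 2).im := im_pos_CGeo (by norm_num) (by norm_num)
  have p3 : 0 < (ee 3).im := im_pos_CGeo (by norm_num) (by norm_num)
  rw [e1, e2, im_comb_CGeo, im_neg_CGeo, im_neg_CGeo] at h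
  have h1 := mul_nonneg ha p3.le
  have h2 := mul_nonneg hb p2.le
  have h3 : a = 0 := (mul_eq_zero.1 (show a * (ee 3).im = 0 by linarith)).resolve_right p3.ne'
  have h4 : b = 0 := (mul_eq_zero.1 (show b * (ee 2).im = 0 by linarith)).resolve_right p2.ne'
  rw [h3, h4, Complex.ofReal_zero, zero_mul, zero_mul, add_zero]

theorem pos6_CGeo {a b : ℝ} (ha : 0 ≤ a) (hb : 0 ≤ b) :
    0 ≤ ((a : ℂ) * ee ((6 : ℤ) : ℝ) + b * ee (((6 : ℤ) : ℝ) + 1)).im ∧
      (((a : ℂ) * ee ((6 : ℤ) : ℝ) + b * ee (((6 : ℤ) : ℝ) + 1)).im = 0 →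
        (a : ℂ) * ee ((6 : ℤ) : ℝ) + b * ee (((6 : ℤ) : ℝ) + 1) = 0) := by
  have p6 : 0 < (ee ((6 : ℤ) : ℝ)).im := im_pos_CGeo (by norm_num) (by norm_num)
  have p7 : 0 < (ee (((6 : ℤ) : ℝ) + 1)).im := im_pos_CGeo (by norm_num) (by norm_num)
  have h1 := mul_nonneg ha p6.le
  have h2 := mul_nonneg hb p7.le
  rw [im_comb_CGeo]
  refine ⟨add_nonneg h1 h2, fun h => ?_⟩
  have h3 : a = 0 :=
    (mul_eq_zero.1 (show a * (ee ((6 : ℤ) : ℝ)).im = 0 by linarith)).resolve_right p6.ne'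
  have h4 : b = 0 :=
    (mul_eq_zero.1 (show b * (ee (((6 : ℤ) : ℝ) + 1)).im = 0 by linarith)).resolve_right p7.ne'
  rw [h3, h4, Complex.ofReal_zero, zero_mul, zero_mul, add_zero]

theorem CC_real {κ : W × W → ℝ} {m : ℤ} (hm : m = -3 ∨ m = 6) {x : W} (hx : x ≠ 0) {l : ℝ}
    (hl : 0 < l) : ¬ CC κ m (x, (l : ℂ) • x) := by
  rintro ⟨a, b, ha, hb, h1, -⟩
  have h2 : (l : ℂ) = a * ee m + b * ee (m + 1) := smul_left_injective ℂ hx h1
  have h3 : ((a : ℂ) * ee m + b * ee (m + 1)).im = 0 := by rw [← h2, Complex.ofReal_im]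
  have h4 : (a : ℂ) * ee m + b * ee (m + 1) = 0 := by
    rcases hm with rfl | rfl
    · exact neg3_CGeo ha hb h3.ge
    · exact (pos6_CGeo ha hb).2 h3
  rw [h4] at h2
  exact hl.ne' (Complex.ofReal_eq_zero.1 h2)

theorem CC_disj {κ κ' : W × W → ℝ} {x y : W} (hy : y ≠ 0) (h : CC κ (-3) (x, y))
    (h' : CC κ' 6 (x, y)) : False := by
  obtain ⟨a, b, ha, hb, h1, -⟩ := h
  obtain ⟨a', b', ha', hb', h2, -⟩ := h'
  dsimp only at h1 h2
  have hx : x ≠ 0 := by
    rintro rfl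
    exact hy (h1.trans (smul_zero _))
  have h3 := smul_left_injective ℂ hx (h1.symm.trans h2)
  have h4 := (pos6_CGeo ha' hb').1
  rw [← h3] at h4
  rw [neg3_CGeo ha hb h4, zero_smul] at h1
  exact hy h1

theorem CC_diag (κ : W × W → ℝ) {x : W} (hx : x ≠ 0) : ∀ᶠ e in 𝓝 (x, x), ¬ CC κ 6 e := by
  have h1 : ContinuousAt (fun e => sb 6 (lam e)) (x, x) :=
    (continuous_sb 6).continuousAt.comp (continuousAt_lam hx)
  have h2 : lam (x, x) = 1 := by
    have h := lam_smul hx 1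
    rwa [one_smul] at h
  have h3 : sb 6 (lam (x, x)) < 0 := by
    rw [h2, sb, one_mul, Complex.conj_im]
    exact div_neg_of_neg_of_pos (neg_lt_zero.2 (im_pos_CGeo (by norm_num) (by norm_num)))
      s_pos_CGeo
  have h4 : ∀ᶠ e : W × W in 𝓝 (x, x), e.1 ≠ 0 :=
    continuous_fst.continuousAt.eventually_ne hx
  filter_upwards [h1.eventually_lt continuousAt_const h3, h4] with e he he1
  rintro ⟨a, b, -, hb, h5, -⟩
  have h6 : lam e = a * ee ((6 : ℤ) : ℝ) + b * ee (((6 : ℤ) : ℝ) + 1) := by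
    rw [← lam_smul he1 (a * ee ((6 : ℤ) : ℝ) + b * ee (((6 : ℤ) : ℝ) + 1)), ← h5]
  rw [h6, sb_comb] at he
  linarith

theorem k1_mem (e : W × W) : k1 e ∈ Icc (0 : ℝ) 1 :=
  ⟨le_max_left _ _, max_le zero_le_one (min_le_left _ _)⟩

theorem k2_mem (e : W × W) : k2 e ∈ Icc (0 : ℝ) 1 :=
  ⟨le_max_left _ _, max_le zero_le_one (min_le_left _ _)⟩

theorem continuous_k1 : Continuous k1 := by
  have h := continuous_nsq
  unfold k1
  fun_prop

theorem continuous_k2 : Continuous k2 := by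
  have h := continuous_nsq
  unfold k2
  fun_prop

theorem k1_rt (k : Zp) (e : W × W) : k1 (rt k • e) = k1 e := by
  rw [k1, k1, Prod.smul_fst, nsq_rt_CGeo]

theorem k2_rt (k : Zp) (e : W × W) : k2 (rt k • e) = k2 e := by
  rw [k2, k2, Prod.smul_snd, nsq_rt_CGeo]

theorem k1_zero {e : W × W} (h : ‖e.1‖ ≤ 1 / 200) : k1 e = 0 := by
  have h1 := pow_le_pow_left₀ (norm_nonneg _) ((norm_fst_le e.1).trans h) 2
  have h2 := pow_le_pow_left₀ (norm_nonneg _) ((norm_snd_le e.1).trans h) 2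
  refine max_eq_left (min_le_of_right_le ?_)
  rw [nsq]
  linarith

theorem k1_one {e : W × W} (h : 1 / 5000 ≤ nsq e.1) : k1 e = 1 := by
  rw [k1, min_eq_left (by linarith), max_eq_right zero_le_one]

theorem k2_zero {e : W × W} (h : 200 ≤ ‖e.2‖) : k2 e = 0 := by
  refine max_eq_left (min_le_of_right_le ?_)
  rw [nsq]
  have h1 := sq_nonneg ‖e.2.1‖
  have h2 := sq_nonneg ‖e.2.2‖
  rw [Prod.norm_def] at h
  rcases le_max_iff.1 h with h3 | h3
  · have h4 := pow_le_pow_left₀ (by norm_num) h3 2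
    linarith
  · have h4 := pow_le_pow_left₀ (by norm_num) h3 2
    linarith

theorem k2_one {e : W × W} (h : nsq e.2 ≤ 10000) : k2 e = 1 := by
  rw [k2, min_eq_left (by linarith), max_eq_right zero_le_one]

end Pool.Agent.MP_2fc7fa_gt.N
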