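import Pool.Agent.MP_2fc7fa_gt.N.CData
import Pool.Agent.MP_2fc7fa_gt.N.CCyc

/-! The counting cochain has no support on the boundary faces. -/

open scoped ComplexConjugate Topology
open Set Complex Filter

noncomputable section

namespace Pool.Agent.MP_2fc7fa_gt.N

variable {N : ℕ} {f : W → W} (L : LineFamily N f) {z₀ : W}

theorem adm_CHit {n : ℕ} (hn : n ≤ N) (σ : ℕ → Zp) {t : Pt} {s : ℝ} (ht : t ∈ cube)
    (hs : s ∈ Icc (0 : ℝ) 1) : Adm N (lst n σ) t s :=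
  ⟨List.ne_nil_of_length_pos (by rw [lst_length]; omega), by rw [lst_length]; omega, ht, hs⟩

theorem aa_shift_CHit (T δ : ℝ) (k : Zp) (p : Fin 6 → ℝ) (i j : Fin 3) :
    ((Real.exp (hh T δ p j - hh T δ p i) : ℝ) : ℂ) • aa z₀ T δ k p i = aa z₀ T δ k p j := by
  rw [Complex.coe_smul, aa, aa, smul_smul, ← Real.exp_add, sub_add_cancel]

theorem norm_aa_CHit (T δ : ℝ) (k : Zp) (p : Fin 6 → ℝ) (i : Fin 3) :
    ‖aa z₀ T δ k p i‖ = Real.exp (hh T δ p i) * ‖vv z₀ k p‖ := by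
  rw [aa, norm_smul, Real.norm_of_nonneg (Real.exp_pos _).le]

theorem norm_vv_CHit (k : Zp) {p : Fin 6 → ℝ} (hp : p 0 ∈ Icc (0 : ℝ) 1) :
    min ‖z₀.1‖ ‖z₀.2‖ ≤ ‖vv z₀ k p‖ ∧ ‖vv z₀ k p‖ ≤ 2 * ‖z₀‖ := by
  have e : ‖vv z₀ k p‖ = max (2 * (1 - p 0) * ‖z₀.1‖) (2 * p 0 * ‖z₀.2‖) := by
    rw [vv, Prod.norm_mk]
    simp only [norm_mul, norm_ee, norm_rt, mul_one, Complex.norm_real]
    rw [Real.norm_of_nonneg (sub_nonneg.2 hp.2), Real.norm_of_nonneg hp.1, Real.norm_ofNat]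
  have n1 := norm_nonneg z₀.1
  have n2 := norm_nonneg z₀.2
  rw [e]
  constructor
  · rcases le_total (p 0) (1 / 2) with h | h
    · exact (min_le_left _ _).trans (le_trans (by nlinarith) (le_max_left _ _))
    · exact (min_le_right _ _).trans (le_trans (by nlinarith) (le_max_right _ _))
  · exact max_le (by nlinarith [norm_fst_le z₀, hp.1, hp.2])
      (by nlinarith [norm_snd_le z₀, hp.1, hp.2])

theorem hh_lt_CHit {T δ : ℝ} (hT : 0 ≤ T) (hδ : 0 < δ) {p : Fin 6 → ℝ} (hp : p ∈ cubeF 6) :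
    -T ≤ hh T δ p 0 ∧ hh T δ p 0 ≤ hh T δ p 1 ∧ hh T δ p 1 < hh T δ p 2 := by
  have h3 := mul_nonneg hT (hp 3).1
  have h4 := mul_nonneg hT (hp 4).1
  have h5 := mul_nonneg hT (hp 5).1
  simp only [hh, Matrix.cons_val]
  exact ⟨by linarith, by linarith, by linarith⟩

theorem vv_ne_zero (h1 : z₀.1 ≠ 0) (h2 : z₀.2 ≠ 0) (k : Zp) (p : Fin 6 → ℝ) : vv z₀ k p ≠ 0 := by
  intro h
  have e1 := congrArg Prod.fst h
  have e2 := congrArg Prod.snd h
  simp only [vv, Prod.fst_zero, Prod.snd_zero, mul_eq_zero, ee_ne_zero, rt_ne_zero, h1, h2,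
    or_false, ofReal_eq_zero, OfNat.ofNat_ne_zero, false_or] at e1 e2
  linarith

theorem aa_ne_zero (h1 : z₀.1 ≠ 0) (h2 : z₀.2 ≠ 0) (T δ : ℝ) (k : Zp) (p : Fin 6 → ℝ) (i : Fin 3) :
    aa z₀ T δ k p i ≠ 0 := smul_ne_zero (Real.exp_ne_zero _) (vv_ne_zero h1 h2 k p)

theorem continuous_aa (T δ : ℝ) (k : Zp) (i : Fin 3) : Continuous fun p => aa z₀ T δ k p i := by
  have h1 := continuous_ee
  have h2 : Continuous fun p => hh T δ p i := by
    fin_cases i <;> simp only [hh, Fin.zero_eta, Fin.mk_one, Fin.reduceFinMk, Matrix.cons_val] <;>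
      fun_prop
  have h3 : Continuous (vv z₀ k) := by
    unfold vv
    fun_prop
  exact (Real.continuous_exp.comp h2).smul h3

theorem Psi_rg (h1 : z₀.1 ≠ 0) (h2 : z₀.2 ≠ 0) {T δ : ℝ} (hT : 0 ≤ T) (hδ : 0 < δ) {n : ℕ}
    (hn : n ≤ N) (σ : ℕ → Zp) (k : Zp) {q : Pt} (hq : q ∈ cube) :
    Rg (Psi L z₀ T δ n σ k q).1 := by
  have hA := adm_CHit hn σ (shift_mem_cube 7 hq) (hq 0)
  have ha := aa_ne_zero h1 h2 T δ k (res 6 (shift 1 q))
  obtain ⟨-, l1, l2⟩ := hh_lt_CHit hT hδ (res_mem_cubeF 6 (shift_mem_cube 1 hq))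
  have key : ∀ (i : Fin 3) (g : Zp), hh T δ (res 6 (shift 1 q)) i < hh T δ (res 6 (shift 1 q)) 2 →
      (Psi L z₀ T δ n σ k q).1 2 0 ≠ (Psi L z₀ T δ n σ k q).1 i g := by
    intro i g hi h
    simp only [Psi] at h
    rw [← aa_shift_CHit T δ k _ i 2, smul_smul] at h
    have h3 := congrArg norm (L.inj _ _ _ _ _ _ hA (ha i)
      (mul_ne_zero (rt_ne_zero 0) (ofReal_ne_zero.2 (Real.exp_ne_zero _))) (rt_ne_zero g) h)
    rw [norm_mul, norm_rt, norm_rt, one_mul, Complex.norm_real,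
      Real.norm_of_nonneg (Real.exp_pos _).le, Real.exp_eq_one_iff] at h3
    linarith
  refine ⟨fun i g => L.mem _ _ _ _ hA (smul_ne_zero (rt_ne_zero g) (ha i)), fun i h => ?_,
    fun g => ⟨key 0 g (l1.trans_lt l2), key 1 g l2⟩⟩
  exact absurd (rt_injective (L.inj _ _ _ _ _ _ hA (ha i) (rt_ne_zero 1) (rt_ne_zero 0) h))
    (by decide)

theorem Psi_tendsto (h1 : z₀.1 ≠ 0) (h2 : z₀.2 ≠ 0) (T δ : ℝ) {n : ℕ} (hn : n ≤ N) (σ : ℕ → Zp)
    (k : Zp) {q : Pt} (hq : q ∈ cube) :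
    Tendsto (Psi L z₀ T δ n σ k) (𝓝[cube] q) (comap Prod.fst (𝓝 (Psi L z₀ T δ n σ k q).1)) := by
  have hA := adm_CHit hn σ hq (hq 0)
  rw [tendsto_comap_iff]
  refine tendsto_pi_nhds.2 fun i => tendsto_pi_nhds.2 fun g => ?_
  have hc : Continuous fun q : Pt =>
      (shift 7 q, q 0, rt g • aa z₀ T δ k (res 6 (shift 1 q)) i) :=
    (continuous_shift 7).prodMk ((continuous_apply 0).prodMk
      (((continuous_aa (z₀ := z₀) T δ k i).comp
        ((continuous_res 6).comp (continuous_shift 1))).const_smul (rt g)))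
  exact ((L.cont _ hA.1 hA.2.1).comp hc.continuousOn fun q hq =>
    ⟨shift_mem_cube 7 hq, hq 0, smul_ne_zero (rt_ne_zero g) (aa_ne_zero h1 h2 T δ k _ i)⟩) q hq

/-- Compactness: there are finitely many lists of length `N + 1`; at a point `(t, s, a)` of the
compact set and `δ = 0`, either the orbit of `a` is not mapped to an orbit (an open condition), or
`H a = pt x₀` with `x₀ ≠ 0` and `CC_diag`, `continuousAt_aff` apply. Then the tube lemma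
(`IsCompact.eventually_forall_of_forall_eventually`). -/
theorem no_close (r R : ℝ) (hr : 0 < r) : ∃ δ₀ : ℝ, 0 < δ₀ ∧ ∀ δ : ℝ, 0 < δ → δ ≤ δ₀ →
    ∀ (σ : ℕ → Zp) (t : Pt) (s : ℝ) (a x y : W), t ∈ cube → s ∈ Icc (0 : ℝ) 1 → r ≤ ‖a‖ →
      ‖a‖ ≤ R → (∀ g, L.H (lst N σ) t s (rt g • a) = pt (rt g • x)) →
      L.H (lst N σ) t s (Real.exp δ • a) = pt y → ¬ CC k2 6 (x, y) := by
  set K : Set (Pt × ℝ × W) := cube ×ˢ Icc 0 1 ×ˢ (Metric.closedBall 0 R ∩ {a | r ≤ ‖a‖}) with hK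
  have cK : IsCompact K := (isCompact_pi_infinite fun _ => isCompact_Icc).prod (isCompact_Icc.prod
    ((isCompact_closedBall _ _).inter_right (isClosed_le continuous_const continuous_norm)))
  have hne : ∀ w ∈ K, w.2.2 ≠ 0 := fun w hw => norm_pos_iff.1 (hr.trans_le hw.2.2.2)
  have key : ∀ l ∈ {l : List Zp | l.length = N + 1}, ∀ᶠ δ in 𝓝 (0 : ℝ), ∀ w ∈ K, w ∈ K →
      ∀ x y : W, (∀ g, L.H l w.1 w.2.1 (rt g • w.2.2) = pt (rt g • x)) →
        L.H l w.1 w.2.1 (Real.exp δ • w.2.2) = pt y → ¬ CC k2 6 (x, y) := by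
    intro l hl
    have hl1 : l ≠ [] := List.ne_nil_of_length_pos (by rw [hl]; omega)
    refine cK.eventually_forall_of_forall_eventually fun w hw => ?_
    have hA : Adm N l w.1 w.2.1 := ⟨hl1, le_of_eq hl, hw.1, hw.2.1⟩
    have cont : ∀ c : ℝ → ℂ, Continuous c → (∀ δ, c δ ≠ 0) →
        ContinuousWithinAt (fun z : ℝ × Pt × ℝ × W => L.H l z.2.1 z.2.2.1 (c z.1 • z.2.2.2))
          {z | z.2 ∈ K} (0, w) := fun c hc hc0 =>
      ((L.cont l hl1 (le_of_eq hl)).comp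
        (f := fun z : ℝ × Pt × ℝ × W => (z.2.1, z.2.2.1, c z.1 • z.2.2.2))
        (Continuous.continuousOn (by fun_prop))
        fun z hz => ⟨hz.1, hz.2.1, smul_ne_zero (hc0 _) (hne _ hz)⟩) (0, w) hw
    have c0 := cont (fun _ => rt 0) continuous_const fun _ => rt_ne_zero 0
    have c1 := cont (fun _ => rt 1) continuous_const fun _ => rt_ne_zero 1
    have c2 := cont (fun δ => (Real.exp δ : ℝ)) (by fun_prop)
      fun _ => ofReal_ne_zero.2 (Real.exp_ne_zero _)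
    refine (eventually_nhdsWithin_iff (s := {z : ℝ × Pt × ℝ × W | z.2 ∈ K})).1 ?_
    by_cases h : L.H l w.1 w.2.1 (rt 1 • w.2.2) = actM 1 (L.H l w.1 w.2.1 (rt 0 • w.2.2))
    · obtain ⟨x₀, hx₀, e₀⟩ := L.mem _ _ _ _ hA (smul_ne_zero (rt_ne_zero 0) (hne w hw))
      obtain ⟨y₀, hy₀, e₁⟩ := exists_pt hx₀ fun h' => absurd (rt_injective (L.inj _ _ _ _ _ _ hA
        (hne w hw) (rt_ne_zero 1) (rt_ne_zero 0) (by rw [h, e₀, h']))) (by decide)
      have t0 : Tendsto aff (𝓝 (pt y₀)) (𝓝 y₀) := by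
        simpa only [aff_pt] using (continuousAt_aff y₀).tendsto
      have t1 := c0.tendsto
      have t2 := c2.tendsto
      simp only [Real.exp_zero, ofReal_one] at t2
      rw [← rt_zero] at t2
      simp only [e₀, e₁] at t1 t2
      filter_upwards [((t0.comp t1).prodMk_nhds (t0.comp t2)).eventually (CC_diag k2 hy₀)]
        with z hz x y h1 h2
      rwa [Function.comp_apply, Function.comp_apply, h1 0, Complex.coe_smul, h2, aff_pt, aff_pt,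
        rt_zero, one_smul] at hz
    · have ca : Continuous (actM 1) := by
        unfold actM
        fun_prop
      filter_upwards [(c1.sub (ca.continuousAt.comp_continuousWithinAt c0)).tendsto.eventually_ne
        (sub_ne_zero.2 h)] with z hz x y h1 _
      refine absurd ?_ hz
      rw [Pi.sub_apply, Function.comp_apply, h1 0, h1 1, actM_pt, rt_zero, one_smul, sub_self]
  obtain ⟨ε, hε, h⟩ := Metric.nhds_basis_closedBall.eventually_iff.1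
    ((eventually_all_finite (List.finite_length_eq Zp (N + 1))).2 key)
  refine ⟨ε, hε, fun δ h0 h1 σ t s a x y ht hs ha ha' => ?_⟩
  have hw : (t, s, a) ∈ K := ⟨ht, hs, mem_closedBall_zero_iff.2 ha', ha⟩
  exact h (mem_closedBall_zero_iff.2 (by rwa [Real.norm_of_nonneg h0.le])) _ (lst_length N σ) _
    hw hw x y

/-- `q 0 = 1`: `L.stop`, `CC_real`. `q 4 = 0`: `L.near0` with `r = 1 / 200`, `CC_chord`. Last height at
least `T`: `L.nearInf` with `r = 200`. `q 5 = 0`: `CC_disj`. `q 6 = 0`: `no_close`. The norm of `vv`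
lies between `min ‖z₀.1‖ ‖z₀.2‖` and `2 ‖z₀‖` on the cube. -/
theorem no_hit (h1 : z₀.1 ≠ 0) (h2 : z₀.2 ≠ 0) : ∃ T₀ : ℝ, ∀ T, T₀ ≤ T → ∃ δ₀ : ℝ, 0 < δ₀ ∧
    ∀ δ : ℝ, 0 < δ → δ ≤ δ₀ → ∀ (σ : ℕ → Zp) (k : Zp), ∀ q ∈ cube,
      (q 0 = 1 ∨ q 4 = 0 ∨ q 4 = 1 ∨ q 5 = 0 ∨ q 5 = 1 ∨ q 6 = 0 ∨ q 6 = 1) →
      ¬ Hit (Psi L z₀ T δ N σ k q).1 := by
  obtain ⟨τ, hτ, n0⟩ := L.near0 (1 / 200) (by norm_num)
  obtain ⟨R, nI⟩ := L.nearInf 200
  have hm : 0 < min ‖z₀.1‖ ‖z₀.2‖ := lt_min (norm_pos_iff.2 h1) (norm_pos_iff.2 h2)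
  have e1 : ∀ᶠ T in atTop, Real.exp (-T) * (2 * ‖z₀‖) ≤ τ :=
    (Real.tendsto_exp_neg_atTop_nhds_zero.mul_const _).eventually_le_const (by simpa using hτ)
  have e2 : ∀ᶠ T in atTop, R ≤ Real.exp T * min ‖z₀.1‖ ‖z₀.2‖ :=
    (Real.tendsto_exp_atTop.atTop_mul_const hm).eventually_ge_atTop R
  obtain ⟨T₀, hT₀⟩ := eventually_atTop.1 (e1.and (e2.and (eventually_ge_atTop 0)))
  refine ⟨T₀, fun T hT => ?_⟩
  obtain ⟨a1, a2, hT0⟩ := hT₀ T hT
  obtain ⟨δ₀, hδ₀, nc⟩ := no_close L (Real.exp (-T) * min ‖z₀.1‖ ‖z₀.2‖)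
    (Real.exp T * (2 * ‖z₀‖)) (by positivity)
  refine ⟨δ₀, hδ₀, fun δ hδ hδ' σ k q hq hb => ?_⟩
  rintro ⟨x, ho, hx, c1, c2⟩
  have hA := adm_CHit (le_refl N) σ (shift_mem_cube 7 hq) (hq 0)
  have hp := res_mem_cubeF 6 (shift_mem_cube 1 hq)
  have p3 : res 6 (shift 1 q) 3 = q 4 := rfl
  have p4 : res 6 (shift 1 q) 4 = q 5 := rfl
  have p5 : res 6 (shift 1 q) 5 = q 6 := rfl
  simp only [Orb, Psi] at ho
  generalize res 6 (shift 1 q) = p at *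
  have ha := aa_ne_zero h1 h2 T δ k p
  obtain ⟨l0, l1, l2⟩ := hh_lt_CHit hT0 hδ hp
  obtain ⟨v1, v2⟩ := norm_vv_CHit (z₀ := z₀) k (hp 0)
  have ho' : ∀ i, L.H (lst N σ) (shift 7 q) (q 0) (aa z₀ T δ k p i) = pt (x i) := fun i => by
    simpa only [rt_zero, one_smul] using ho i 0
  have g0 : hh T δ p 0 = -T + 2 * T * q 4 := by rw [← p3]; rfl
  have g1 : hh T δ p 1 = hh T δ p 0 + 2 * T * q 5 := by rw [← p4]; rfl
  have g2 : hh T δ p 2 = hh T δ p 1 + δ + 2 * T * q 6 := by rw [← p5]; rfl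
  rcases le_or_gt T (hh T δ p 2) with hi | hi
  · obtain ⟨b1, b2⟩ := nI _ _ _ _ (x 1) (x 2) _ hA (ha 2)
      (a2.trans (by rw [norm_aa_CHit]; gcongr)) (Real.exp_pos _)
      (Real.exp_lt_one_iff.2 (sub_neg.2 l2)) (ho 2) (by rw [aa_shift_CHit, ho'])
    obtain ⟨μ, b3, b4⟩ := CC_chord (k2_zero b1) (Or.inr rfl) c2
    exact b2 μ b3 b4
  rcases hb with hb | hb | hb | hb | hb | hb | hb
  · rw [hb] at hA ho'
    obtain ⟨Li, -, hL⟩ := L.stop _ _ hA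
    have b1 : ∀ i, x i = Li (aa z₀ T δ k p i) := fun i =>
      pt_injective ((ho' i).symm.trans (hL _ (ha i)))
    rw [b1 2, ← aa_shift_CHit T δ k p 0 2, map_smul, ← b1 0] at c1
    exact CC_real (Or.inl rfl) (hx 0) (Real.exp_pos _) c1
  · obtain ⟨b1, b2⟩ := n0 _ _ _ _ (x 0) (x 2) _ hA (ha 0)
      (le_trans (by rw [norm_aa_CHit, g0, hb, mul_zero, add_zero]; gcongr) a1)
      (Real.one_lt_exp_iff.2 (sub_pos.2 (l1.trans_lt l2))) (ho 0) (by rw [aa_shift_CHit, ho'])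
    obtain ⟨μ, b3, b4⟩ := CC_chord (k1_zero b1) (Or.inl rfl) c1
    exact b2 μ b3 b4
  · rw [hb] at g0
    linarith
  · rw [hb, mul_zero, add_zero] at g1
    have b1 : x 1 = x 0 := pt_injective (by rw [← ho', ← ho', aa, aa, g1])
    rw [b1] at c2
    exact CC_disj (hx 2) c1 c2
  · rw [hb] at g1
    linarith
  · refine nc δ hδ hδ' σ _ _ _ _ _ hA.2.2.1 hA.2.2.2 ?_ ?_ (ho 1) ?_ c2
    · rw [norm_aa_CHit]
      gcongr
      linarith
    · rw [norm_aa_CHit]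
      gcongr
      linarith
    · rw [← ho', ← aa_shift_CHit T δ k p 1 2, Complex.coe_smul, g2, hb, mul_zero, add_zero,
        add_sub_cancel_left]
  · rw [hb] at g2
    linarith

end Pool.Agent.MP_2fc7fa_gt.N
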