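import Pool.Agent.MP_2fc7fa_gt.N.CoB

/-! The local degree. -/

open scoped ComplexConjugate Topology
open Set Complex Filter

noncomputable section

namespace Pool.Agent.MP_2fc7fa_gt.N

variable {E : Type} [NormedAddCommGroup E] [NormedSpace ℝ E]

theorem hom_CLoc {D : Type} [TopologicalSpace D] {m : ℕ} {c : Co D ℤ} (hc : Dg m c) (S : Set D)
    (G : ℝ → (Fin m → ℝ) → D) (hG : ContinuousOn (Function.uncurry G) (Icc 0 1 ×ˢ cubeF m))
    (h : ∀ u ∈ Icc (0 : ℝ) 1, ∀ x ∈ cubeF m, G u x ∈ S ∧ LZ (dd (m + 1) c) (𝓝[S] (G u x)) ∧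
      ∀ j, x j = 0 ∨ x j = 1 → LZ c (𝓝[S] (G u x))) :
    ∀ᶠ M in atTop, II M m (pb (fun q => G 0 (res m q)) c) = II M m (pb (fun q => G 1 (res m q)) c) := by
  have h1 : ∀ q ∈ cube, res m (shift 1 q) ∈ cubeF m := fun q hq =>
    res_mem_cubeF m (shift_mem_cube 1 hq)
  have h2 : ∀ q ∈ cube, Tendsto (fun q : Pt => G (q 0) (res m (shift 1 q))) (𝓝[cube] q)
      (𝓝[S] (G (q 0) (res m (shift 1 q)))) := fun q hq =>
    ((hG.comp (s := cube) (f := fun q : Pt => (q 0, res m (shift 1 q))) ((continuous_apply 0).prodMk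
      ((continuous_res m).comp (continuous_shift 1))).continuousOn fun q hq => ⟨hq 0, h1 q hq⟩)
      q hq).tendsto_nhdsWithin fun q hq => (h _ (hq 0) _ (h1 q hq)).1
  exact (II_homot m (hc.pb fun q : Pt => G (q 0) (res m (shift 1 q)))
    (fun q hq => pb_dd _ _ c ▸ (h _ (hq 0) _ (h1 q hq)).2.1.pb (h2 q hq))
    fun q hq j hj e => ((h _ (hq 0) _ (h1 q hq)).2.2 ⟨j, hj⟩ e).pb (h2 q hq)).mono fun M e => e.symm

theorem le_CLoc {m : ℕ} {x : Fin m → ℝ} (hx : x ∈ cubeF m) : ‖x - fun _ => 1 / 2‖ ≤ 1 / 2 :=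
  (pi_norm_le_iff_of_nonneg (by norm_num)).2 fun j =>
    abs_le.2 ⟨by simp; linarith [(hx j).1], by simp; linarith [(hx j).2]⟩

theorem eq_CLoc {m : ℕ} {x : Fin m → ℝ} (hx : x ∈ cubeF m) {j : Fin m} (h : x j = 0 ∨ x j = 1) :
    ‖x - fun _ => 1 / 2‖ = 1 / 2 := by
  refine (le_CLoc hx).antisymm (le_trans ?_ (norm_le_pi_norm _ j))
  rcases h with h | h <;> norm_num [h]

theorem thom_CLoc {m : ℕ} {ω : Co E ℤ} (hω : Thom m ω) (G : ℝ → (Fin m → ℝ) → E)
    (hG : ContinuousOn (Function.uncurry G) (Icc 0 1 ×ˢ cubeF m))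
    (h : ∀ u ∈ Icc (0 : ℝ) 1, ∀ x ∈ cubeF m, ‖x - fun _ => 1 / 2‖ = 1 / 2 → G u x ≠ 0) :
    ∀ᶠ M in atTop, II M m (pb (fun q => G 0 (res m q)) ω) = II M m (pb (fun q => G 1 (res m q)) ω) :=
  hom_CLoc hω.dg univ G hG fun u hu x hx => ⟨trivial, hω.closed ▸ LZ.zero _, fun _ e =>
    (hω.lz _ (h u hu x hx (eq_CLoc hx e))).mono nhdsWithin_le_nhds⟩

/-- Homotopy invariance of the local degree. -/
theorem ldeg_path {m : ℕ} {ω : Co E ℤ} (hω : Thom m ω) (A : ℝ → (Fin m → ℝ) → E)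
    (hA : Continuous (Function.uncurry A))
    (h0 : ∀ u ∈ Icc (0 : ℝ) 1, ∀ y, ‖y‖ = 1 / 2 → A u y ≠ 0) :
    ∀ᶠ M in atTop, ldeg m ω (A 0) M = ldeg m ω (A 1) M :=
  thom_CLoc hω (fun u x => A u (x - fun _ => 1 / 2))
    (hA.comp (f := fun p : ℝ × (Fin m → ℝ) => (p.1, p.2 - fun _ => 1 / 2))
      (by fun_prop)).continuousOn fun u hu _ _ => h0 u hu _

/-- Shrink the cube to the point `z`, then deform `Φ` to its derivative. -/
theorem local_deg {m : ℕ} {ω : Co E ℤ} (hω : Thom m ω) {c : Co (Fin m → ℝ) ℤ} (hc : Dg m c)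
    {z : Fin m → ℝ} (hz : ∀ j, z j ∈ Ioo (0 : ℝ) 1)
    (hd : ∀ x ∈ cubeF m, LZ (dd (m + 1) c) (𝓝[cubeF m] x))
    (h0 : ∀ x ∈ cubeF m, x ≠ z → LZ c (𝓝[cubeF m] x))
    {Φ : (Fin m → ℝ) → E} {A : (Fin m → ℝ) →L[ℝ] E} (hΦ : HasFDerivAt Φ A z)
    (hcont : ∀ᶠ x in 𝓝 z, ContinuousAt Φ x) (hz0 : Φ z = 0) (hA : Function.Injective A)
    (hcz : LZ (c - pb Φ ω) (𝓝 z)) :
    ∀ᶠ M in atTop, II M m (pb (res m) c) = ldeg m ω A M := by
  obtain ⟨K, hK, hK'⟩ := (A : (Fin m → ℝ) →ₗ[ℝ] E).exists_antilipschitzWith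
    (LinearMap.ker_eq_bot.2 hA)
  have hK0 : (0 : ℝ) < K := hK
  obtain ⟨U, hU, hU'⟩ := hcz
  have h1 : ∀ᶠ x in 𝓝 z, x ∈ cubeF m := eventually_all.2 fun j =>
    (continuous_apply j).continuousAt.eventually (Icc_mem_nhds (hz j).1 (hz j).2)
  obtain ⟨ε, hε, h2⟩ := Metric.eventually_nhds_iff_ball.1 ((h1.and hU).and
    (hcont.and (hΦ.isLittleO.def (show 0 < (2 * K : ℝ)⁻¹ by positivity))))
  have h3 := fun x (hx : x ∈ cubeF m) => h2 (z + ε • (x - fun _ => 1 / 2)) (by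
    rw [mem_ball_iff_norm, add_sub_cancel_left, norm_smul, Real.norm_of_nonneg hε.le]
    nlinarith [le_CLoc hx])
  have h4 := hom_CLoc hc (cubeF m) (fun u x => (1 - u) • x + u • (z + ε • (x - fun _ => 1 / 2)))
    (by unfold Function.uncurry; fun_prop) fun u hu x hx => by
      have e1 : (1 - u) • x + u • (z + ε • (x - fun _ => 1 / 2)) ∈ cubeF m := fun j =>
        convex_Icc 0 1 (hx j) ((h3 x hx).1.1 j) (sub_nonneg.2 hu.2) hu.1 (sub_add_cancel _ _)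
      refine ⟨e1, hd _ e1, fun j e => h0 _ e1 fun e2 => ?_⟩
      have e3 := (h3 x hx).1.1 j
      have e4 := congrFun e2 j
      simp only [Pi.add_apply, Pi.smul_apply, Pi.sub_apply, smul_eq_mul] at e3 e4
      rcases e with e | e <;> rw [e] at e3 e4 <;> nlinarith [hu.1, hu.2, e3.1, e3.2]
  have h5 := thom_CLoc hω
    (fun u x => (1 - u) • Φ (z + ε • (x - fun _ => 1 / 2)) + u • A (x - fun _ => 1 / 2))
    (fun p hp => ContinuousAt.continuousWithinAt (by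
      have e : ContinuousAt (fun p : ℝ × (Fin m → ℝ) => Φ (z + ε • (p.2 - fun _ => 1 / 2))) p :=
        ContinuousAt.comp (g := Φ) (h3 p.2 hp.2).2.1 (by fun_prop)
      exact ((continuousAt_const.sub continuousAt_fst).smul e).add
        (continuousAt_fst.smul (by fun_prop)))) fun u hu x hx e e1 => by
      have e2 := (h3 x hx).2.2
      generalize x - (fun _ => 1 / 2) = y at e e1 e2
      have e3 : ‖y‖ ≤ K * ‖A y‖ := ZeroHomClass.bound_of_antilipschitz _ hK' y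
      rw [hz0, sub_zero, add_sub_cancel_left, map_smul, norm_smul, Real.norm_of_nonneg hε.le] at e2
      have e4 : ((1 - u) * ε + u) • A y = -((1 - u) • (Φ (z + ε • y) - ε • A y)) := by
        linear_combination (norm := module) e1
      have e5 := congrArg norm e4
      have hu1 := sub_nonneg.2 hu.2
      have hu0 := hu.1
      rw [norm_neg, norm_smul, norm_smul, Real.norm_of_nonneg hu1,
        Real.norm_of_nonneg (by positivity)] at e5
      have e6 : (2 * K : ℝ)⁻¹ * (ε * ‖y‖) ≤ ε * ‖A y‖ / 2 := by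
        rw [inv_mul_le_iff₀ (by positivity)]
        nlinarith
      have e7 : 0 < ‖A y‖ := (mul_pos_iff_of_pos_left hK0).1 ((e ▸ one_half_pos).trans_le e3)
      have e8 : (1 - u) * ε / 2 + u ≤ 0 := le_of_mul_le_mul_right (by
        nlinarith [mul_le_mul_of_nonneg_left (e2.trans e6) hu1]) e7
      obtain rfl : u = 0 := by nlinarith [mul_nonneg hu1 hε.le]
      linarith
  filter_upwards [h4, h5] with M e1 e2
  simp only [sub_zero, one_smul, zero_smul, add_zero, sub_self, zero_add] at e1 e2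
  exact (e1.trans (II_congr M m fun x hx => sub_eq_zero.1
    (hU' _ fun j => (h3 _ (res_mem_cubeF m (hx j))).1.2))).trans e2

end Pool.Agent.MP_2fc7fa_gt.N
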