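import Pool.Agent.MP_2fc7fa_gt.N.CGeo

/-! The cochains dual to arcs. -/

open scoped ComplexConjugate Topology
open Set Complex Filter

noncomputable section

namespace Pool.Agent.MP_2fc7fa_gt.N

theorem eta_dg_CPair (κ : W × W → ℝ) (m : ℤ) : Dg 1 (eta κ m) := by
  intro x y h
  simp only [eta]
  rw [h 0 (by omega), h 1 le_rfl, dH_dg.pb (FF κ m) x y h]

theorem eta_nm_CPair (κ : W × W → ℝ) (m : ℤ) : Nm 1 (eta κ m) := by
  intro x j hj hx
  simp only [eta]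
  rw [dH_nm.pb (FF κ m) x j hj hx, ite_self]

theorem phm_rt_CPair (k : Zp) (e : (W × W) × Zp) :
    phm (rt k • e.1, e.2 + k) = phm e + (k + k) := by
  have h : det2 (rt k • e.1).1 (rt k • e.1).2 = rt (k + k) * det2 e.1.1 e.1.2 := by
    rw [rt_add]
    exact det2_smul _ _ _ _
  simp only [phm]
  rw [h]
  by_cases h0 : det2 e.1.1 e.1.2 = 0
  · rw [if_pos h0, if_pos (by rw [h0, mul_zero])]
    ring
  · rw [if_neg h0, if_neg (mul_ne_zero (rt_ne_zero _) h0), sec_rt_mul _ h0]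

theorem FF_rt_CPair {κ : W × W → ℝ} (hκ : ∀ k e, κ (rt k • e) = κ e) (m : ℤ) (k : Zp)
    (e : W × W) : FF κ m (rt k • e) = FF κ m e := by
  simp only [FF, hκ, lam_rt, Prod.smul_fst, Prod.smul_snd, nsq_smul, norm_rt, one_pow, one_mul]

theorem eta_rt_CPair {κ : W × W → ℝ} (hκ : ∀ k e, κ (rt k • e) = κ e) (m : ℤ) (k : Zp)
    (x : ℕ → W × W) : eta κ m (fun j => rt k • x j) = eta κ m x := by
  have h : ∀ e, inS m (rt k • e) ↔ inS m e := fun e => by simp only [inS, lam_rt]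
  simp only [eta, pb, FF_rt_CPair hκ]
  by_cases h0 : inS m (x 0) ∧ inS m (x 1)
  · rw [if_pos h0, if_pos ⟨(h _).2 h0.1, (h _).2 h0.2⟩]
  · rw [if_neg h0, if_neg fun h' => h0 ⟨(h _).1 h'.1, (h _).1 h'.2⟩]

theorem FF_cont_CPair {κ : W × W → ℝ} (hκ : Continuous κ) (m : ℤ) {e : W × W} (hx : e.1 ≠ 0) :
    ContinuousAt (FF κ m) e := by
  have h1 := (continuous_sa m).continuousAt.comp (continuousAt_lam hx)
  have h2 := (continuous_sb m).continuousAt.comp (continuousAt_lam hx)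
  have h3 : Continuous fun e : W × W => nsq e.2 - nsq e.1 :=
    (continuous_nsq.comp continuous_snd).sub (continuous_nsq.comp continuous_fst)
  exact (hκ.continuousAt.mul h3.continuousAt).add
    ((continuousAt_const.sub hκ.continuousAt).mul ((h1.add h2).sub continuousAt_const))

theorem eta_out_CPair (κ : W × W → ℝ) {m : ℤ} {e : W × W} (hx : e.1 ≠ 0)
    (h : sa m (lam e) < 0 ∨ sb m (lam e) < 0) : LZ (eta κ m) (𝓝 e) := by
  refine ⟨{e' | ¬ inS m e'}, ?_, fun x hx' => if_neg fun h' => hx' 0 h'.1⟩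
  rcases h with h | h
  · have h1 := (continuous_sa m).continuousAt.comp (continuousAt_lam hx)
    filter_upwards [h1.eventually (gt_mem_nhds h)] with e' he' h'
    exact lt_asymm he' h'.1
  · have h1 := (continuous_sb m).continuousAt.comp (continuousAt_lam hx)
    filter_upwards [h1.eventually (gt_mem_nhds h)] with e' he' h'
    exact lt_asymm he' h'.2

theorem eta_in_CPair (κ : W × W → ℝ) {m : ℤ} {e : W × W} (hx : e.1 ≠ 0) (h : inS m e) :
    LZ (eta κ m - pb (FF κ m) dH) (𝓝 e) := by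
  have h1 := (continuous_sa m).continuousAt.comp (continuousAt_lam hx)
  have h2 := (continuous_sb m).continuousAt.comp (continuousAt_lam hx)
  refine ⟨{e' | inS m e'}, ?_, fun x hx' => ?_⟩
  · filter_upwards [h1.eventually (lt_mem_nhds h.1), h2.eventually (lt_mem_nhds h.2)]
      with e' a b
    exact ⟨a, b⟩
  · simp only [Pi.sub_apply, eta]
    rw [if_pos ⟨hx' 0, hx' 1⟩, sub_self]

theorem phm_lz_CPair {e : W × W} (h : det2 e.1 e.2 ≠ 0) :
    LZ (pb phm tc) (comap Prod.fst (𝓝 e)) := by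
  have t : Tendsto (fun d : (W × W) × Zp => det2 d.1.1 d.1.2) (comap Prod.fst (𝓝 e))
      (𝓝 (det2 e.1 e.2)) := (continuous_det2.tendsto e).comp tendsto_comap
  have h1 : LZ (pb (fun d : (W × W) × Zp => sec (det2 d.1.1 d.1.2)) tc)
      (comap Prod.fst (𝓝 e)) := by
    have := (sec_lz h).pb t
    rwa [pb_pb] at this
  have h2 : LZ (pb phm tc - pb (fun d : (W × W) × Zp => sec (det2 d.1.1 d.1.2)) tc)
      (comap Prod.fst (𝓝 e)) := by
    refine LZ.pb_congr tc ?_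
    filter_upwards [t.eventually_ne h] with d hd
    simp only [phm]
    exact if_neg hd
  exact h2.of_sub h1

theorem one_CPair {κ b N : ℝ} (hκ : κ ∈ Icc (0 : ℝ) 1) (hb : 0 ≤ b) (hN : 0 < N)
    (h : κ * (b ^ 2 * N - N) + (1 - κ) * (b - 1) = 0) : b = 1 := by
  have h1 : (b - 1) * (κ * ((b + 1) * N) + (1 - κ)) = 0 := by rw [← h]; ring
  have h2 : 0 < (b + 1) * N := by positivity
  have h3 : 0 < κ * ((b + 1) * N) + (1 - κ) := by
    rcases hκ.1.eq_or_lt with h0 | h0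
    · rw [← h0]; norm_num
    · have := mul_pos h0 h2
      linarith [hκ.2]
  have := (mul_eq_zero.1 h1).resolve_right h3.ne'
  linarith

theorem ray_CPair {κ b : ℝ} (hκ : κ ∈ Icc (0 : ℝ) 1) (hb : 0 ≤ b) {x y : W} (hx : x ≠ 0) (n : ℤ)
    (h1 : y = ((b : ℂ) * ee n) • x) (h : κ * (nsq y - nsq x) + (1 - κ) * (b - 1) = 0) :
    y = rt (n : Zp) • x := by
  have h2 : nsq y = b ^ 2 * nsq x := by
    rw [h1, nsq_smul, norm_mul, norm_ee, mul_one, Complex.norm_real, Real.norm_eq_abs, sq_abs]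
  rw [h2] at h
  rw [h1, one_CPair hκ hb (nsq_pos hx) h, rt_intCast]
  simp

theorem tend_CPair (x : Fin 3 → W) (i : Fin 3) :
    Tendsto (fun x' : Fin 3 → W => (x' i, x' 2)) (𝓝 x) (𝓝 (x i, x 2)) :=
  ((continuous_apply i).prodMk (continuous_apply 2)).tendsto x

theorem tend_CPair' (x : Fin 3 → W) (i : Fin 3) :
    Tendsto (fun e : (Fin 3 → W) × Zp => ((e.1 i, e.1 2), e.2)) (comap Prod.fst (𝓝 x))
      (comap Prod.fst (𝓝 (x i, x 2))) :=
  tendsto_comap_iff.2 ((tend_CPair x i).comp tendsto_comap)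

theorem yy_dg (κ : W × W → ℝ) (m : ℤ) : Dg 3 (yy κ m) :=
  (tc_dg.pb phm).cup ((eta_dg_CPair κ m).pb Prod.fst)

theorem yy_nm (κ : W × W → ℝ) (m : ℤ) : Nm 3 (yy κ m) :=
  (tc_nm.pb phm).cup ((eta_nm_CPair κ m).pb Prod.fst)

theorem yy_inv {κ : W × W → ℝ} (hκ : ∀ k e, κ (rt k • e) = κ e) (m : ℤ) (k : Zp) :
    pb (fun e : (W × W) × Zp => (rt k • e.1, e.2 + k)) (yy κ m) = yy κ m := by
  funext x
  have h1 : tc (fun j => phm (rt k • (x j).1, (x j).2 + k)) = tc fun j => phm (x j) := by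
    simp only [phm_rt_CPair]
    exact tc_add _ _
  have h2 := eta_rt_CPair hκ m k fun j => (shift 2 x j).1
  exact congrArg₂ (· * ·) h1 h2

/-- If `det2 ≠ 0` the factor `pb phm tc` is locally zero (`sec_lz`). Otherwise `e.2 = lam e • e.1`;
either `sa` or `sb` is negative, so `inS` fails near `e`, or `FF ≠ 0` and `dH_lz` applies. -/
theorem yy_lz {κ : W × W → ℝ} (hκ : Continuous κ) {m : ℤ} {e : W × W} (hx : e.1 ≠ 0)
    (h : ¬ CC κ m e) : LZ (yy κ m) (comap Prod.fst (𝓝 e)) := by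
  by_cases h0 : det2 e.1 e.2 = 0
  swap
  · exact (phm_lz_CPair h0).cup_left _ _
  refine LZ.cup_right (LZ.pb ?_ tendsto_comap) _ _
  by_cases h1 : sa m (lam e) < 0 ∨ sb m (lam e) < 0
  · exact eta_out_CPair κ hx h1
  rw [not_or, not_lt, not_lt] at h1
  have h2 : FF κ m e ≠ 0 := fun h2 =>
    h ⟨_, _, h1.1, h1.2, by rw [← sa_sb]; exact eq_lam hx h0, h2⟩
  obtain ⟨U, hU, h3⟩ := (dH_lz h2).pb (FF_cont_CPair hκ m hx)
  refine ⟨U, hU, fun x hx' => ?_⟩
  simp only [eta]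
  rw [h3 x hx', ite_self]

/-- If `CC` holds with `a, b > 0` then `eta` is `pb (FF κ m) dH` near `e`, which is closed. If `a = 0`
then `FF = (b - 1) (κ (b + 1) nsq x + 1 - κ)`, so `b = 1` and `e.2 = rt (m + 1) • e.1`. -/
theorem yy_dd {κ : W × W → ℝ} (hκ : Continuous κ) (hκ' : ∀ e, κ e ∈ Icc (0 : ℝ) 1) {m : ℤ}
    {e : W × W} (hx : e.1 ≠ 0) (h : ∀ k, e.2 ≠ rt k • e.1) :
    LZ (dd 4 (yy κ m)) (comap Prod.fst (𝓝 e)) := by
  by_cases hc : CC κ m e
  swap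
  · exact (yy_lz hκ hx hc).dd 4
  obtain ⟨a, b, ha, hb, h1, h2⟩ := hc
  rcases ha.eq_or_lt with rfl | ha'
  · refine absurd (ray_CPair (hκ' e) hb hx (m + 1) ?_ (by simpa using h2)) (h _)
    rw [h1]
    simp
  rcases hb.eq_or_lt with rfl | hb'
  · refine absurd (ray_CPair (hκ' e) ha hx m ?_ (by simpa using h2)) (h _)
    rw [h1]
    simp
  have h3 : lam e = a * ee m + b * ee (m + 1) := by
    rw [← lam_smul hx (a * ee m + b * ee (m + 1)), ← h1]
  have h4 : inS m e := ⟨by rw [h3, sa_comb]; exact ha', by rw [h3, sb_comb]; exact hb'⟩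
  have h5 : LZ (dd 2 (eta κ m)) (𝓝 e) := by
    have := (eta_in_CPair κ hx h4).dd 2
    rw [dd_sub, ← pb_dd, dH_dd] at this
    exact this.of_sub (LZ.zero _)
  refine LZ.dd_cup (n := 2) (m := 1) (tc_dg.pb phm) ?_ ?_
  · rw [← pb_dd, tc_dd]
    exact LZ.zero _
  · rw [← pb_dd]
    exact h5.pb tendsto_comap

theorem yy_near {κ : W × W → ℝ} {m : ℤ} {e : W × W} (hx : e.1 ≠ 0) {D : ℝ}
    (hD : D ∈ Ioo (m : ℝ) (m + 1)) (h : e.2 = ee D • e.1) (hκ : ∀ᶠ e' in 𝓝 e, κ e' = 1) :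
    LZ (pb (fun e' => (e', 0)) (yy κ m) -
      pb (fun e' : W × W => (det2 e'.1 e'.2, nsq e'.2 - nsq e'.1)) th3) (𝓝 e) := by
  have h3 : lam e = ee D := by rw [← lam_smul hx (ee D), ← h]
  have h4 : inS m e := by
    unfold inS
    rw [h3]
    exact sa_sb_pos hD
  have h5 : LZ (pb (FF κ m) dH - pb (fun e' : W × W => nsq e'.2 - nsq e'.1) dH) (𝓝 e) := by
    refine LZ.pb_congr dH ?_
    filter_upwards [hκ] with e' he'
    simp [FF, he']
  have h6 : LZ (eta κ m - pb (fun e' : W × W => nsq e'.2 - nsq e'.1) dH) (𝓝 e) := by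
    simpa using (eta_in_CPair κ hx h4).add h5
  have h7 : LZ (pb (fun e' : W × W => phm (e', 0)) tc -
      pb (fun e' : W × W => sec (det2 e'.1 e'.2)) tc) (𝓝 e) := by
    refine LZ.pb_congr tc (Eventually.of_forall fun e' => ?_)
    simp only [phm]
    split_ifs with h0
    · rw [h0, sec_zero, mul_zero]
    · rfl
  exact LZ.cup_sub h7 h6 2

theorem y6_dg : Dg 6 y6 :=
  ((yy_dg _ _).pb _).cup ((yy_dg _ _).pb _)

theorem y6_nm : Nm 6 y6 :=
  ((yy_nm _ _).pb _).cup ((yy_nm _ _).pb _)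

theorem y6_inv (k : Zp) :
    pb (fun e : (Fin 3 → W) × Zp => (fun i => rt k • e.1 i, e.2 + k)) y6 = y6 := by
  funext x
  exact congrArg₂ (· * ·)
    (congrFun (yy_inv k1_rt (-3) k) fun j => (((x j).1 0, (x j).1 2), (x j).2))
    (congrFun (yy_inv k2_rt 6 k) fun j =>
      (((shift 3 x j).1 1, (shift 3 x j).1 2), (shift 3 x j).2))

theorem y6_lz {x : Fin 3 → W} (hx : ∀ i, x i ≠ 0)
    (h : ¬ (CC k1 (-3) (x 0, x 2) ∧ CC k2 6 (x 1, x 2))) : LZ y6 (comap Prod.fst (𝓝 x)) := by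
  rcases not_and_or.1 h with h | h
  · exact ((yy_lz continuous_k1 (hx 0) h).pb (tend_CPair' x 0)).cup_left _ _
  · exact ((yy_lz continuous_k2 (hx 1) h).pb (tend_CPair' x 1)).cup_right _ _

theorem y6_dd {x : Fin 3 → W} (hx : ∀ i, x i ≠ 0) (h : ∀ k, x 2 ≠ rt k • x 0 ∧ x 2 ≠ rt k • x 1) :
    LZ (dd 7 y6) (comap Prod.fst (𝓝 x)) := by
  refine LZ.dd_cup (n := 3) (m := 3) ((yy_dg _ _).pb _) ?_ ?_
  · rw [← pb_dd]
    exact (yy_dd continuous_k1 k1_mem (e := (x 0, x 2)) (hx 0) fun k => (h k).1).pb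
      (tend_CPair' x 0)
  · rw [← pb_dd]
    exact (yy_dd continuous_k2 k2_mem (e := (x 1, x 2)) (hx 1) fun k => (h k).2).pb
      (tend_CPair' x 1)

theorem y6_near {x : Fin 3 → W} (h0 : 1 / 5000 < nsq (x 0)) (h2 : nsq (x 2) < 10000)
    (h1 : x 1 ≠ 0) {D₁ D₂ : ℝ} (hD₁ : D₁ ∈ Ioo (-3 : ℝ) (-2)) (hD₂ : D₂ ∈ Ioo (6 : ℝ) 7)
    (e₁ : x 2 = ee D₁ • x 0) (e₂ : x 2 = ee D₂ • x 1) :
    LZ (pb (fun x' => (x', 0)) y6 - pb (fun x' : Fin 3 → W =>
      (det2 (x' 0) (x' 2), nsq (x' 2) - nsq (x' 0), det2 (x' 1) (x' 2), nsq (x' 2) - nsq (x' 1)))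
      th6) (𝓝 x) := by
  have hx0 : x 0 ≠ 0 := by
    intro h
    rw [h] at h0
    simp only [nsq, Prod.fst_zero, Prod.snd_zero, norm_zero] at h0
    norm_num at h0
  have c1 : ∀ᶠ e' in 𝓝 (x 0, x 2), k1 e' = 1 := by
    filter_upwards [((continuous_nsq.comp continuous_fst).tendsto (x 0, x 2)).eventually
      (lt_mem_nhds h0)] with e' he'
    exact k1_one he'.le
  have c2 : ∀ᶠ e' in 𝓝 (x 1, x 2), k2 e' = 1 := by
    filter_upwards [((continuous_nsq.comp continuous_snd).tendsto (x 1, x 2)).eventually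
      (gt_mem_nhds h2)] with e' he'
    exact k2_one he'.le
  have a1 := (yy_near (m := -3) (e := (x 0, x 2)) hx0 (D := D₁)
    ⟨by simpa using hD₁.1, by push_cast; linarith [hD₁.2]⟩ e₁ c1).pb (tend_CPair x 0)
  have a2 := (yy_near (m := 6) (e := (x 1, x 2)) h1 (D := D₂)
    ⟨by simpa using hD₂.1, by push_cast; linarith [hD₂.2]⟩ e₂ c2).pb (tend_CPair x 1)
  exact LZ.cup_sub (a := pb (fun x' : Fin 3 → W => ((x' 0, x' 2), (0 : Zp))) (yy k1 (-3)))
    (a' := pb (fun x' : Fin 3 → W => (det2 (x' 0) (x' 2), nsq (x' 2) - nsq (x' 0))) th3)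
    (b := pb (fun x' : Fin 3 → W => ((x' 1, x' 2), (0 : Zp))) (yy k2 6))
    (b' := pb (fun x' : Fin 3 → W => (det2 (x' 1) (x' 2), nsq (x' 2) - nsq (x' 1))) th3) a1 a2 3

end Pool.Agent.MP_2fc7fa_gt.N
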