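import Pool.Agent.MP_2fc7fa_gt.N.CWind
import Pool.Agent.MP_2fc7fa_gt.N.CLoc
import Pool.Agent.MP_2fc7fa_gt.N.CGL

/-! The Thom cochain on `ℂ × ℝ × ℂ × ℝ`. -/

open scoped ComplexConjugate Topology
open Set Complex Filter

noncomputable section

namespace Pool.Agent.MP_2fc7fa_gt.N

theorem th3_dg : Dg 3 th3 := (tc_dg.pb _).cup (dH_dg.pb _)

theorem th3_nm : Nm 3 th3 := (tc_nm.pb _).cup (dH_nm.pb _)

theorem closed_CTh {D D' : Type} {n : ℕ} {c : Co D ℤ} (h : dd n c = 0) (φ : D' → D) :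
    dd n (pb φ c) = 0 := by
  rw [← pb_dd, h]
  rfl

theorem th3_dd_CTh : dd 4 th3 = 0 :=
  dd_cup_zero (n := 2) (m := 1) (tc_dg.pb _) (closed_CTh tc_dd _) (closed_CTh dH_dd _)

theorem th3_lz_CTh {e : ℂ × ℝ} (he : e ≠ 0) : LZ th3 (𝓝 e) := by
  by_cases h : e.1 = 0
  · have h2 : e.2 ≠ 0 := fun h2 => he (Prod.ext h h2)
    exact ((dH_lz h2).pb continuousAt_snd).cup_right 2 _
  · exact ((sec_lz h).pb (φ := Prod.fst) continuousAt_fst).cup_left 2 _

theorem thom_th6 : Thom 6 th6 := by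
  refine ⟨(th3_dg.pb _).cup (th3_dg.pb _), dd_cup_zero (n := 3) (m := 3) (th3_dg.pb _)
    (closed_CTh th3_dd_CTh _) (closed_CTh th3_dd_CTh _), fun e he => ?_⟩
  by_cases h : e.2.2 = 0
  · have h2 : (e.1, e.2.1) ≠ 0 := fun h2 =>
      he (Prod.ext (Prod.ext_iff.1 h2).1 (Prod.ext (Prod.ext_iff.1 h2).2 h))
    have hc : Continuous fun e : ℂ × ℝ × ℂ × ℝ => (e.1, e.2.1) := by fun_prop
    exact ((th3_lz_CTh h2).pb hc.continuousAt).cup_left 3 _
  · have hc : Continuous fun e : ℂ × ℝ × ℂ × ℝ => e.2.2 := by fun_prop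
    exact ((th3_lz_CTh h).pb hc.continuousAt).cup_right 3 _

theorem line_CTh {c : ℝ} (hc : c = 1 ∨ c = -1) : ∃ s : ℤ, (s = 1 ∨ s = -1) ∧
    ∀ M, 0 < M → II M 1 (pb (fun q : Pt => c * (q 0 - 1 / 2)) dH) = s := by
  have e : dH = dd 1 fun x : ℕ → ℝ => if 0 < x 0 then (1 : ℤ) else 0 := by
    funext x
    simp only [dH, dd, skip, Finset.sum_range_succ, Finset.sum_range_zero, lt_self_iff_false,
      if_false, zero_lt_one, if_true]
    ring
  have hd : Dg 0 (pb (fun q : Pt => c * (q 0 - 1 / 2))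
      fun x : ℕ → ℝ => if 0 < x 0 then (1 : ℤ) else 0) := fun x y h => by
    simp only [pb, h 0 le_rfl]
  have key : ∀ M, 0 < M → II M 1 (pb (fun q : Pt => c * (q 0 - 1 / 2)) dH) =
      (if 0 < c * (1 - 1 / 2) then (1 : ℤ) else 0) - if 0 < c * (0 - 1 / 2) then 1 else 0 := by
    intro M hM
    rw [e, pb_dd, stokes hM 0 hd]
    simp only [zero_add, Finset.sum_range_one, pow_zero, one_mul, II, pb, ins, lt_self_iff_false,
      if_false, if_true]
  rcases hc with rfl | rfl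
  · exact ⟨1, Or.inl rfl, fun M hM => by rw [key M hM]; norm_num⟩
  · exact ⟨-1, Or.inr rfl, fun M hM => by rw [key M hM]; norm_num⟩

/-- A diagonal map from the cube of dimension three. -/
def diag_CTh (a b c : ℝ) (q : Pt) : ℂ × ℝ :=
  ((a * (q 0 - 1 / 2) : ℝ) + (b * (q 1 - 1 / 2) : ℝ) * I, c * (q 2 - 1 / 2))

theorem sign_CTh {s t : ℤ} (hs : s = 1 ∨ s = -1) (ht : t = 1 ∨ t = -1) :
    s * t = 1 ∨ s * t = -1 := by
  rcases hs with rfl | rfl <;> rcases ht with rfl | rfl <;> norm_num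

theorem three_CTh {a b c : ℝ} (ha : a = 1 ∨ a = -1) (hb : b = 1 ∨ b = -1) (hc : c = 1 ∨ c = -1) :
    ∃ s : ℤ, (s = 1 ∨ s = -1) ∧ ∀ᶠ M in atTop, II M 3 (pb (diag_CTh a b c) th3) = s := by
  obtain ⟨s, hs, h1⟩ := wind a b ha hb
  obtain ⟨t, ht, h2⟩ := line_CTh hc
  refine ⟨s * t, sign_CTh hs ht, ?_⟩
  filter_upwards [h1, eventually_gt_atTop 0] with M h1 hM
  have e : pb (diag_CTh a b c) th3 = cup 2
      (pb (fun q : Pt => sec ((a * (q 0 - 1 / 2) : ℝ) + (b * (q 1 - 1 / 2) : ℝ) * I)) tc)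
      (pb (shift 2) (pb (fun q : Pt => c * (q 0 - 1 / 2)) dH)) := rfl
  rw [e, II_prod M (m := 2) (n := 1) (tc_dg.pb _) (dH_nm.pb _) fun x y _ _ h => by
    simp only [pb, h _ 0 (by norm_num), h _ 1 (by norm_num)], h1, h2 M hM]

/-- Real coordinates on the target. -/
def co_CTh : (ℂ × ℝ × ℂ × ℝ) →L[ℝ] Fin 6 → ℝ :=
  LinearMap.toContinuousLinearMap
    { toFun := fun e => ![e.1.re, e.1.im, e.2.1, e.2.2.1.re, e.2.2.1.im, e.2.2.2]
      map_add' := fun x y => by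
        funext j
        fin_cases j <;> simp
      map_smul' := fun c x => by
        funext j
        fin_cases j <;> simp }

/-- The inverse of the coordinates. -/
def inv_CTh (y : Fin 6 → ℝ) : ℂ × ℝ × ℂ × ℝ :=
  ((y 0 : ℝ) + (y 1 : ℝ) * I, y 2, (y 3 : ℝ) + (y 4 : ℝ) * I, y 5)

theorem inv_co_CTh (e : ℂ × ℝ × ℂ × ℝ) : inv_CTh (co_CTh e) = e :=
  Prod.ext (re_add_im _) (Prod.ext rfl (Prod.ext (re_add_im _) rfl))

theorem co_inv_CTh (y : Fin 6 → ℝ) : co_CTh (inv_CTh y) = y := by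
  funext j
  fin_cases j <;> simp [co_CTh, inv_CTh]

/-- Identify the target with `Fin 6 → ℝ` (so `A` is bijective), deform `A` to a diagonal matrix of
signs (`gl_real`, `ldeg_path`), then `II_prod` three times, `wind`, and `stokes` for `dH`. -/
theorem ldeg_th6 (A : (Fin 6 → ℝ) →L[ℝ] ℂ × ℝ × ℂ × ℝ) (hA : Function.Injective A) :
    ∃ s : ℤ, (s = 1 ∨ s = -1) ∧ ∀ᶠ M in atTop, ldeg 6 th6 A M = s := by
  obtain ⟨e, P, he, hP, h0, hP0, hP1⟩ := gl_real 6 (co_CTh.comp A)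
    ((Function.LeftInverse.injective inv_co_CTh).comp hA)
  have hi : Continuous inv_CTh := by
    unfold inv_CTh
    fun_prop
  have h1 := ldeg_path thom_th6 (fun u y => inv_CTh (P u y)) (hi.comp hP) fun u hu y hy hz => by
    refine h0 u hu y (fun h => ?_) ?_
    · rw [h, norm_zero] at hy
      norm_num at hy
    · rw [← co_inv_CTh (P u y), hz, map_zero]
  obtain ⟨s, hs, h2⟩ := three_CTh (he 0) (he 1) (he 2)
  obtain ⟨t, ht, h3⟩ := three_CTh (he 3) (he 4) (he 5)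
  refine ⟨s * t, sign_CTh hs ht, ?_⟩
  filter_upwards [h1, h2, h3] with M h1 h2 h3
  have e0 : (fun y => inv_CTh (P 0 y)) = A := by
    funext y
    rw [hP0]
    exact inv_co_CTh _
  rw [e0, hP1] at h1
  have e1 : pb (fun q : Pt => inv_CTh fun j => e j * (res 6 q - fun _ => 1 / 2 : Fin 6 → ℝ) j) th6 =
      cup 3 (pb (diag_CTh (e 0) (e 1) (e 2)) th3)
        (pb (shift 3) (pb (diag_CTh (e 3) (e 4) (e 5)) th3)) := rfl
  rw [h1, ldeg, e1, II_prod M (m := 3) (n := 3) (th3_dg.pb _) (th3_nm.pb _) fun x y _ _ h => by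
    simp only [pb, diag_CTh, h _ 0 (by norm_num), h _ 1 (by norm_num), h _ 2 (by norm_num)],
    h2, h3]

end Pool.Agent.MP_2fc7fa_gt.N
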