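import Pool.Agent.MP_2fc7fa_gt.N.CHit
import Pool.Agent.MP_2fc7fa_gt.N.CTh

/-! The count at time zero. -/

open scoped ComplexConjugate Topology
open Set Complex Filter

noncomputable section

namespace Pool.Agent.MP_2fc7fa_gt.N

theorem nsq_exp_CSt (a : ℝ) (z : W) : nsq (Real.exp a • z) = Real.exp a ^ 2 * nsq z := by
  rw [← coe_smul, nsq_smul, norm_real, Real.norm_of_nonneg (Real.exp_pos a).le]

theorem nsq_lt_CSt {a b : ℝ} (h : a < b) {z : W} (hz : z ≠ 0) :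
    nsq (Real.exp a • z) < nsq (Real.exp b • z) := by
  rw [nsq_exp_CSt, nsq_exp_CSt]
  exact mul_lt_mul_of_pos_right
    (pow_lt_pow_left₀ (Real.exp_lt_exp.2 h) (Real.exp_pos a).le two_ne_zero) (nsq_pos hz)

theorem bounds_CSt {f : W → W} (hf : Sol f) {z : W} (hz : z ≠ 0) {α β : ℝ} (h0 : 0 ≤ α)
    (h1 : α < β) (h2 : nsq (f (Real.exp β • z)) ≤ nsq (f z))
    (h3 : nsq (f (Real.exp β • z)) ≤ nsq (f (Real.exp α • z))) :
    1 / 100 < nsq (f z) ∧ nsq (f (Real.exp β • z)) < 1000 := by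
  have key : ∀ x, nsq (f x) ≤ 1 / 100 ∨ 1000 ≤ nsq (f x) → f x = x := fun x hx =>
    hf.inj (hf.supp _ hx)
  constructor
  · by_contra h
    rw [not_lt] at h
    rw [key _ (Or.inl (h2.trans h)), key _ (Or.inl h)] at h2
    have := nsq_lt_CSt (h0.trans_lt h1) hz
    rw [Real.exp_zero, one_smul] at this
    exact absurd h2 this.not_ge
  · by_contra h
    rw [not_lt] at h
    rw [key _ (Or.inr (h.trans h3)), key _ (Or.inr h)] at h3
    exact absurd h3 (nsq_lt_CSt h1 hz).not_ge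

theorem aa_one_CSt (z₀ : W) (T δ : ℝ) (k : Zp) (p : Fin 6 → ℝ) :
    aa z₀ T δ k p 1 = Real.exp (2 * T * p 4) • aa z₀ T δ k p 0 := by
  rw [aa, aa, smul_smul, ← Real.exp_add, add_comm]
  rfl

theorem aa_two_CSt (z₀ : W) (T δ : ℝ) (k : Zp) (p : Fin 6 → ℝ) :
    aa z₀ T δ k p 2 = Real.exp (2 * T * p 4 + δ + 2 * T * p 5) • aa z₀ T δ k p 0 := by
  rw [aa, aa, smul_smul, ← Real.exp_add]
  congr 2
  change -T + 2 * T * p 3 + 2 * T * p 4 + δ + 2 * T * p 5 = _ + (-T + 2 * T * p 3)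
  ring

theorem aa_half_CSt (z₀ : W) (T δ : ℝ) {p : Fin 6 → ℝ}
    (h : p 0 = 1 / 2 ∧ p 1 = 1 / 2 ∧ p 2 = 1 / 2 ∧ p 3 = 1 / 2) : aa z₀ T δ 0 p 0 = z₀ := by
  have e : hh T δ p 0 = 0 := by
    change -T + 2 * T * p 3 = 0
    rw [h.2.2.2]
    ring
  rw [aa, e, Real.exp_zero, one_smul, vv, h.1, h.2.1, h.2.2.1, sub_self, ee_zero, rt_zero]
  norm_num

theorem aa_eq_CSt {z₀ : W} (h1 : z₀.1 ≠ 0) (h2 : z₀.2 ≠ 0) {T : ℝ} (hT : 0 < T) (δ : ℝ)
    {k k' : Zp} {p : Fin 6 → ℝ} (hp : p ∈ cubeF 6) (h : aa z₀ T δ k p 0 = rt k' • z₀) :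
    k = 0 ∧ p 0 = 1 / 2 ∧ p 1 = 1 / 2 ∧ p 2 = 1 / 2 ∧ p 3 = 1 / 2 := by
  have e0 : hh T δ p 0 = -T + 2 * T * p 3 := rfl
  rw [aa, e0] at h
  have hE := Real.exp_pos (-T + 2 * T * p 3)
  have hE' : Real.exp (-T + 2 * T * p 3) = 1 → p 3 = 1 / 2 := fun h => by
    have := (Real.exp_eq_one_iff _).1 h
    have h3 : T * (2 * p 3 - 1) = 0 := by linarith
    have := (mul_eq_zero.1 h3).resolve_left hT.ne'
    linarith
  generalize Real.exp (-T + 2 * T * p 3) = E at h hE hE'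
  have a1 : ((E * (2 * (1 - p 0)) : ℝ) : ℂ) * ee (p 1 - 1 / 2) = rt k' := by
    refine mul_right_cancel₀ h1 ?_
    have := congrArg Prod.fst h
    simp only [vv, Prod.smul_fst, smul_eq_mul, real_smul] at this
    rw [← this, ofReal_mul E]
    ring
  have a2 : ((E * (2 * p 0) : ℝ) : ℂ) * (rt k * ee (p 2 - 1 / 2)) = rt k' := by
    refine mul_right_cancel₀ h2 ?_
    have := congrArg Prod.snd h
    simp only [vv, Prod.smul_snd, smul_eq_mul, real_smul] at this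
    rw [← this, ofReal_mul E]
    ring
  have b1 : E * (2 * (1 - p 0)) = 1 := by
    have := congrArg norm a1
    rwa [norm_mul, norm_ee, norm_rt, mul_one, norm_real,
      Real.norm_of_nonneg (mul_nonneg hE.le (by linarith [(hp 0).2]))] at this
  have b2 : E * (2 * p 0) = 1 := by
    have := congrArg norm a2
    rwa [norm_mul, norm_mul, norm_ee, norm_rt, norm_rt, mul_one, mul_one, norm_real,
      Real.norm_of_nonneg (mul_nonneg hE.le (by linarith [(hp 0).1]))] at this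
  rw [b1, ofReal_one, one_mul] at a1
  rw [b2, ofReal_one, one_mul] at a2
  have hab : ∀ j, |p j - 1 / 2| < 1 := fun j => by
    rw [abs_lt]
    constructor <;> linarith [(hp j).1, (hp j).2]
  obtain ⟨c1, rfl⟩ := ee_eq_rt (hab 1) a1
  have a3 : ee (p 2 - 1 / 2) = rt (-k) :=
    mul_left_cancel₀ (rt_ne_zero k) (by rw [a2, ← rt_add, add_neg_cancel])
  obtain ⟨c2, c3⟩ := ee_eq_rt (hab 2) a3
  have hE1 : E = 1 := by linarith
  rw [hE1] at b2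
  exact ⟨neg_eq_zero.1 c3, by linarith, by linarith, by linarith, hE' hE1⟩

/-- The derivative of the parametrisation `p ↦ (a', α, β)` at a point with `p 0 = p 1 = p 2 = p 3 =
1 / 2` is injective. -/
theorem param_deriv {z₀ : W} (h1 : z₀.1 ≠ 0) (h2 : z₀.2 ≠ 0) {T : ℝ} (hT : 0 < T) (δ : ℝ)
    {p₀ : Fin 6 → ℝ} (h : p₀ 0 = 1 / 2 ∧ p₀ 1 = 1 / 2 ∧ p₀ 2 = 1 / 2 ∧ p₀ 3 = 1 / 2) :
    ∃ B : (Fin 6 → ℝ) →L[ℝ] W × ℝ × ℝ, Function.Injective B ∧ HasFDerivAt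
      (fun p => (aa z₀ T δ 0 p 0, 2 * T * p 4, 2 * T * p 4 + δ + 2 * T * p 5)) B p₀ := by
  obtain ⟨e0, e1, e2, e3⟩ := h
  have d : ∀ i, HasFDerivAt (fun p : Fin 6 → ℝ => p i)
      (ContinuousLinearMap.proj (R := ℝ) (φ := fun _ => ℝ) i) p₀ := fun i => hasFDerivAt_apply i p₀
  have dE := (((d 3).const_mul (2 * T)).const_add (-T)).exp
  have x0 : -T + 2 * T * p₀ 3 = 0 := by
    rw [e3]
    ring
  have a1 := ofRealCLM.hasFDerivAt.comp p₀ (((d 0).const_sub 1).const_mul 2)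
  have a2 := ofRealCLM.hasFDerivAt.comp p₀ ((d 0).const_mul 2)
  have b1 := (hasDerivAt_ee _).hasFDerivAt.comp p₀ ((d 1).sub_const (1 / 2))
  have b2 := (hasDerivAt_ee _).hasFDerivAt.comp p₀ ((d 2).sub_const (1 / 2))
  have hv := ((a1.mul b1).mul_const z₀.1).prodMk (((a2.mul_const (rt 0)).mul b2).mul_const z₀.2)
  have hw := (dE.smul hv).prodMk (((d 4).const_mul (2 * T)).prodMk
    ((((d 4).const_mul (2 * T)).add_const δ).add ((d 5).const_mul (2 * T))))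
  refine ⟨_, (injective_iff_map_eq_zero _).2 fun v hv => ?_, hw⟩
  simp only [Prod.ext_iff, x0, Real.exp_zero] at hv
  obtain ⟨⟨u1, u2⟩, u3, u4⟩ := hv
  have w1 : ((2 * T * v 3 - 2 * v 0 : ℝ) + (2 * Real.pi / 37 * v 1 : ℝ) * I) * z₀.1 = 0 := by
    simp [e0, e1, ee_zero] at u1
    push_cast
    linear_combination u1
  have w2 : ((2 * T * v 3 + 2 * v 0 : ℝ) + (2 * Real.pi / 37 * v 2 : ℝ) * I) * z₀.2 = 0 := by
    simp [e0, e2, ee_zero, rt_zero] at u2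
    push_cast
    linear_combination u2
  have key : ∀ a b : ℝ, (a : ℂ) + (2 * Real.pi / 37 * b : ℝ) * I = 0 → a = 0 ∧ b = 0 := by
    intro a b h
    have h1 := congrArg re h
    have h2 := congrArg im h
    simp only [add_re, ofReal_re, mul_re, I_re, mul_zero, ofReal_im, I_im, mul_one, sub_self,
      add_zero, zero_re, add_im, mul_im, zero_add, zero_im] at h1 h2
    exact ⟨h1, (mul_eq_zero.1 h2).resolve_left (by positivity)⟩
  obtain ⟨y1, y2⟩ := key _ _ ((mul_eq_zero.1 w1).resolve_right h1)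
  obtain ⟨y3, y4⟩ := key _ _ ((mul_eq_zero.1 w2).resolve_right h2)
  have z4 : 2 * T * v 4 = 0 := u3
  have z5 : 2 * T * v 4 + 2 * T * v 5 = 0 := u4
  have hT' : 2 * T ≠ 0 := by positivity
  have z3 : v 3 = 0 := (mul_eq_zero.1 (show 2 * T * v 3 = 0 by linarith)).resolve_left hT'
  have z5' : v 5 = 0 := (mul_eq_zero.1 (show 2 * T * v 5 = 0 by linarith)).resolve_left hT'
  funext j
  fin_cases j
  · show v 0 = 0
    linarith
  · exact y2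
  · exact y4
  · exact z3
  · exact (mul_eq_zero.1 z4).resolve_left hT'
  · exact z5'

/-- `p₀ = (1/2, 1/2, 1/2, 1/2, α₀ / (2 T), (β₀ - α₀ - δ) / (2 T))`, `T₁ = β₀`, `δ₁ = (β₀ - α₀) / 2`. If
both `CC` hold at `p` then `CC_le`, `hf.supp`, `hf.inj` give `nsq (x 0) > 1 / 100` and
`nsq (x 2) < 1000`, so `k1 = k2 = 1`, `CC_arc` and the uniqueness clause of `hf.sol` apply; compare
moduli and use `ee_eq_rt`. Then `local_deg` with `Φ` = (`Phi f` after the parametrisation, with the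
signs of the last two components reversed), `y6_near`, `bb 0 p = 0` near `p₀`, `ldeg_th6`. -/
theorem start_loc {f : W → W} (hf : Sol f) : ∃ z₀ : W, z₀.1 ≠ 0 ∧ z₀.2 ≠ 0 ∧ ∃ T₁ δ₁ : ℝ, 0 < T₁ ∧
    0 < δ₁ ∧ ∀ T δ : ℝ, T₁ ≤ T → 0 < δ → δ ≤ δ₁ → ∃ (p₀ : Fin 6 → ℝ) (s : ℤ), (s = 1 ∨ s = -1) ∧
      (∀ j, p₀ j ∈ Ioo (0 : ℝ) 1) ∧
      (∀ k, ∀ p ∈ cubeF 6, k ≠ 0 ∨ p ≠ p₀ → LZ (omq f z₀ T δ k) (𝓝[cubeF 6] p)) ∧
      ∀ᶠ M in atTop, II M 6 (pb (res 6) (omq f z₀ T δ 0)) = s := by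
  obtain ⟨z₀, α₀, β₀, h1, h2, -, -, -, hα, hβ, ⟨D₁, hD₁, D₂, hD₂, e₁, e₂⟩, huniq, L, hL, hLi⟩ :=
    hf.sol
  refine ⟨z₀, h1, h2, β₀, (β₀ - α₀) / 2, by linarith, by linarith, fun T δ hT hδ hδ' => ?_⟩
  have hT0 : 0 < T := by linarith
  have hT2 : 0 < 2 * T := by linarith
  have hz₀ : z₀ ≠ 0 := fun h => h1 (by rw [h]; rfl)
  obtain ⟨p₀, q0, q1, q2, q3, q4, q5⟩ : ∃ p₀ : Fin 6 → ℝ, p₀ 0 = 1 / 2 ∧ p₀ 1 = 1 / 2 ∧
      p₀ 2 = 1 / 2 ∧ p₀ 3 = 1 / 2 ∧ 2 * T * p₀ 4 = α₀ ∧ 2 * T * p₀ 5 = β₀ - α₀ - δ :=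
    ⟨![1 / 2, 1 / 2, 1 / 2, 1 / 2, α₀ / (2 * T), (β₀ - α₀ - δ) / (2 * T)], rfl, rfl, rfl, rfl,
      mul_div_cancel₀ _ hT2.ne', mul_div_cancel₀ _ hT2.ne'⟩
  have hp₀ : ∀ j, p₀ j ∈ Ioo (0 : ℝ) 1 := by
    have k : ∀ x y : ℝ, 2 * T * x = y → 0 < y → y < 2 * T → x ∈ Ioo (0 : ℝ) 1 := fun x y e a b =>
      ⟨pos_of_mul_pos_left (show 0 < x * (2 * T) by linarith) hT2.le,
        lt_of_mul_lt_mul_left (by linarith) hT2.le⟩
    intro j
    fin_cases j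
    · exact (show p₀ 0 ∈ Ioo (0 : ℝ) 1 by rw [q0]; norm_num)
    · exact (show p₀ 1 ∈ Ioo (0 : ℝ) 1 by rw [q1]; norm_num)
    · exact (show p₀ 2 ∈ Ioo (0 : ℝ) 1 by rw [q2]; norm_num)
    · exact (show p₀ 3 ∈ Ioo (0 : ℝ) 1 by rw [q3]; norm_num)
    · exact k _ _ q4 hα (by linarith)
    · exact k _ _ q5 (by linarith) (by linarith)
  have hf0 : ∀ x, x ≠ 0 → f x ≠ 0 := fun x hx h =>
    hx (hf.inj (h.trans (hf.supp 0 (Or.inl (by norm_num [nsq]))).symm))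
  have hX : ∀ k, Continuous fun p i => f (aa z₀ T δ k p i) := fun k =>
    continuous_pi fun i => hf.cont.comp (continuous_aa T δ k i)
  have hlz : ∀ k, ∀ p ∈ cubeF 6, k ≠ 0 ∨ p ≠ p₀ → LZ (omq f z₀ T δ k) (𝓝[cubeF 6] p) := by
    intro k p hp hne
    have ha := aa_ne_zero h1 h2 T δ k p
    refine (y6_lz (x := fun i => f (aa z₀ T δ k p i)) (fun i => hf0 _ (ha i)) ?_).pb
      (tendsto_comap_iff.2 (((hX k).tendsto p).mono_left nhdsWithin_le_nhds))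
    rintro ⟨c1, c2⟩
    simp only [aa_one_CSt, aa_two_CSt] at c1 c2
    have g0 : 0 ≤ 2 * T * p 4 := mul_nonneg hT2.le (hp 4).1
    have g1 : 2 * T * p 4 < 2 * T * p 4 + δ + 2 * T * p 5 := by
      have := mul_nonneg hT2.le (hp 5).1
      linarith
    obtain ⟨b1, b2⟩ := bounds_CSt hf (ha 0) g0 g1 (CC_le (k1_mem _) c1) (CC_le (k2_mem _) c2)
    obtain ⟨E₁, hE₁, r1⟩ := CC_arc (k1_one (by dsimp only; linarith)) (hf0 _ (ha 0)) c1
    obtain ⟨E₂, hE₂, r2⟩ := CC_arc (k2_one (by dsimp only; linarith))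
      (hf0 _ (smul_ne_zero (Real.exp_pos _).ne' (ha 0))) c2
    obtain ⟨k', s1, s2, s3⟩ := huniq _ _ _ (ha 0) g0 g1 E₁ (by norm_num at hE₁ ⊢; exact hE₁) E₂
      (by norm_num at hE₂ ⊢; exact hE₂) r1 r2
    obtain ⟨t0, t1, t2, t3, t4⟩ := aa_eq_CSt h1 h2 hT0 δ hp s1
    refine hne.elim (fun h => h t0) fun h => h (funext fun j => ?_)
    fin_cases j
    · exact t1.trans q0.symm
    · exact t2.trans q1.symm
    · exact t3.trans q2.symm
    · exact t4.trans q3.symm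
    · exact mul_left_cancel₀ hT2.ne' (s2.trans q4.symm)
    · exact mul_left_cancel₀ hT2.ne' (show 2 * T * p 5 = 2 * T * p₀ 5 by linarith)
  obtain ⟨B, hBi, hB⟩ := param_deriv h1 h2 hT0 δ ⟨q0, q1, q2, q3⟩
  have x0 : aa z₀ T δ 0 p₀ 0 = z₀ := aa_half_CSt z₀ T δ ⟨q0, q1, q2, q3⟩
  have y5 : 2 * T * p₀ 4 + δ + 2 * T * p₀ 5 = β₀ := by linarith
  have x1 : aa z₀ T δ 0 p₀ 1 = Real.exp α₀ • z₀ := by rw [aa_one_CSt, x0, q4]
  have x2 : aa z₀ T δ 0 p₀ 2 = Real.exp β₀ • z₀ := by rw [aa_two_CSt, x0, y5]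
  let S : ℂ × ℝ × ℂ × ℝ →L[ℝ] ℂ × ℝ × ℂ × ℝ := (ContinuousLinearMap.id ℝ ℂ).prodMap
    ((ContinuousLinearMap.id ℝ ℝ).prodMap (-ContinuousLinearMap.id ℝ (ℂ × ℝ)))
  have hS : ∀ e, S e = (e.1, e.2.1, -e.2.2) := fun _ => rfl
  have hSi : Function.Injective S := fun a b h => by
    simp only [hS, Prod.mk.injEq, neg_inj] at h
    exact Prod.ext h.1 (Prod.ext h.2.1 h.2.2)
  let Ψ : (Fin 3 → W) → ℂ × ℝ × ℂ × ℝ := fun x' =>
    (det2 (x' 0) (x' 2), nsq (x' 2) - nsq (x' 0), det2 (x' 1) (x' 2), nsq (x' 2) - nsq (x' 1))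
  have hΨ : Continuous Ψ := by
    have a : ∀ i j, Continuous fun x' : Fin 3 → W => det2 (x' i) (x' j) := fun i j =>
      continuous_det2.comp (f := fun x' : Fin 3 → W => (x' i, x' j))
        ((continuous_apply i).prodMk (continuous_apply j))
    have b : ∀ i, Continuous fun x' : Fin 3 → W => nsq (x' i) := fun i =>
      continuous_nsq.comp (continuous_apply i)
    exact (a 0 2).prodMk (((b 2).sub (b 0)).prodMk ((a 1 2).prodMk ((b 2).sub (b 1))))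
  have hΦ : HasFDerivAt (fun p => Ψ fun i => f (aa z₀ T δ 0 p i)) (S.comp (L.comp B)) p₀ := by
    have hL' : HasFDerivAt (Phi f) L
        (aa z₀ T δ 0 p₀ 0, 2 * T * p₀ 4, 2 * T * p₀ 4 + δ + 2 * T * p₀ 5) := by
      rwa [x0, y5, q4]
    refine (S.hasFDerivAt.comp p₀ (hL'.comp p₀ hB)).congr_of_eventuallyEq
      (Eventually.of_forall fun p => ?_)
    simp only [Ψ, Function.comp, hS, Phi, aa_one_CSt, aa_two_CSt, Prod.neg_mk, neg_sub, det2,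
      Prod.mk.injEq, true_and, and_true]
    ring
  have n1 : nsq (f (Real.exp β₀ • z₀)) = nsq (f z₀) := by
    rw [e₁, nsq_smul, norm_ee, one_pow, one_mul]
  have n2 : nsq (f (Real.exp β₀ • z₀)) = nsq (f (Real.exp α₀ • z₀)) := by
    rw [e₂, nsq_smul, norm_ee, one_pow, one_mul]
  have hdet : ∀ (c : ℂ) (x : W), det2 x (c • x) = 0 := fun c x => by
    rw [← one_smul ℂ x, smul_smul, det2_smul, det2_self, mul_zero]
  have hΦ0 : (Ψ fun i => f (aa z₀ T δ 0 p₀ i)) = 0 := by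
    simp only [Ψ, x0, x1, x2, Prod.mk_eq_zero]
    exact ⟨by rw [e₁, hdet], sub_eq_zero.2 n1, by rw [e₂, hdet], sub_eq_zero.2 n2⟩
  obtain ⟨b1, b2⟩ := bounds_CSt hf hz₀ hα.le hβ n1.le n2.le
  have hn := (y6_near (x := fun i => f (aa z₀ T δ 0 p₀ i)) (by simp only [x0]; linarith)
    (by simp only [x2]; linarith) (hf0 _ (aa_ne_zero h1 h2 T δ 0 p₀ 1)) hD₁ hD₂
    (by simp only [x0, x2]; exact e₁) (by simp only [x1, x2]; exact e₂)).pb ((hX 0).tendsto p₀)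
  have hb : (fun p => (fun i => f (aa z₀ T δ 0 p i), bb 0 p)) =ᶠ[𝓝 p₀]
      fun p => (fun i => f (aa z₀ T δ 0 p i), (0 : Zp)) := by
    have k : ∀ j, ∀ᶠ p : Fin 6 → ℝ in 𝓝 p₀, p j ≠ 1 := fun j =>
      (continuous_apply j).continuousAt.eventually_ne (hp₀ j).2.ne
    filter_upwards [k 0, k 1] with p a b
    rw [bb, if_neg a, if_neg b]
  have hcz : LZ (omq f z₀ T δ 0 - pb (fun p => Ψ fun i => f (aa z₀ T δ 0 p i)) th6) (𝓝 p₀) := by
    have := (LZ.pb_congr y6 hb).add hn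
    rw [← sub_add_sub_cancel _ (pb (fun p => (fun i => f (aa z₀ T δ 0 p i), (0 : Zp))) y6)]
    exact this
  have hAi : Function.Injective (S.comp (L.comp B)) := hSi.comp (hLi.comp hBi)
  obtain ⟨s, hs, hM⟩ := ldeg_th6 _ hAi
  refine ⟨p₀, s, hs, hp₀, hlz, ?_⟩
  have hloc := local_deg thom_th6 (c := omq f z₀ T δ 0) (y6_dg.pb _) hp₀ (fun x hx => ?_)
    (fun x hx h => hlz 0 x hx (Or.inr h)) hΦ
    (Eventually.of_forall fun x => (hΨ.comp (hX 0)).continuousAt) hΦ0 hAi hcz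
  · filter_upwards [hloc, hM] with M a b
    exact a.trans b
  · rcases eq_or_ne x p₀ with rfl | h
    · have := hcz.dd (6 + 1)
      rw [dd_sub, ← pb_dd, thom_th6.closed] at this
      exact (this.of_sub (LZ.zero _)).mono nhdsWithin_le_nhds
    · exact (hlz 0 x hx (Or.inr h)).dd _

end Pool.Agent.MP_2fc7fa_gt.N
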