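import Pool.Agent.MP_2fc7fa_gt.N.CoB
import Pool.Agent.MP_2fc7fa_gt.N.CSec

/-! The winding number of a square. -/

open scoped ComplexConjugate Topology
open Set Complex Filter

noncomputable section

namespace Pool.Agent.MP_2fc7fa_gt.N

/-- The cochain of degree one whose coboundary is `37 * tc`. -/
def sv_CWind : Co Zp ℤ := fun x => (x 1 - x 0).valMinAbs

theorem sv_dg_CWind : Dg 1 sv_CWind := fun x y h => by
  simp only [sv_CWind, h 0 (by omega), h 1 le_rfl]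

theorem dd_sv_CWind (x : ℕ → Zp) : dd 2 sv_CWind x = 37 * tc x := by
  rw [tc_mul]
  simp [dd, Finset.sum_range_succ, sv_CWind, skip]
  ring

theorem lift_CWind {z : Pt → ℂ} {r u : ℝ → ℝ} (hu : Continuous u) (hr : ∀ t, 0 < r t)
    (hz : ∀ q, z q = r (q 0) * ee (u (q 0))) :
    ∀ᶠ M in atTop, II M 1 (pb (fun q => sec (z q)) sv_CWind) = ⌊u 1⌋ - ⌊u 0⌋ := by
  let g : Co Pt ℤ := fun x => ⌊u (x 0 0)⌋
  have hg : Dg 0 g := fun x y h => by simp only [g, h 0 le_rfl]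
  have hl : ∀ q ∈ cube, LZ (pb (fun q => sec (z q)) sv_CWind - dd 1 g) (𝓝[cube] q) := by
    intro q _
    have hc : Continuous fun p : Pt => u (p 0) := hu.comp (continuous_apply 0)
    refine ⟨{p | u (p 0) ∈ Ioo (u (q 0) - 1) (u (q 0) + 1)},
      mem_nhdsWithin_of_mem_nhds (hc.continuousAt.preimage_mem_nhds
        (Ioo_mem_nhds (by linarith) (by linarith))), fun x hx => ?_⟩
    have e : dd 1 g x = ⌊u (x 1 0)⌋ - ⌊u (x 0 0)⌋ := by
      simp [dd, Finset.sum_range_succ, g, skip, sub_eq_add_neg]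
    rw [Pi.sub_apply, e, sub_eq_zero]
    simp only [pb, sv_CWind, hz, sec_ee (hr _)]
    rw [ZMod.valMinAbs_spec]
    obtain ⟨a1, a2⟩ := hx 0
    obtain ⟨b1, b2⟩ := hx 1
    have c1 := Int.floor_le (u (x 0 0))
    have c2 := Int.lt_floor_add_one (u (x 0 0))
    have d1 := Int.floor_le (u (x 1 0))
    have d2 := Int.lt_floor_add_one (u (x 1 0))
    have f1 : ((⌊u (x 1 0)⌋ - ⌊u (x 0 0)⌋ : ℤ) : ℝ) < (3 : ℤ) := by push_cast; linarith
    have f2 : ((-3 : ℤ) : ℝ) < (⌊u (x 1 0)⌋ - ⌊u (x 0 0)⌋ : ℤ) := by push_cast; linarith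
    rw [Int.cast_lt] at f1 f2
    refine ⟨by push_cast; rfl, ?_, ?_⟩ <;> omega
  filter_upwards [II_lz 1 hl, eventually_gt_atTop 0] with M h1 hM
  rw [II_sub, sub_eq_zero] at h1
  rw [h1, stokes hM 0 hg]
  simp [II, pb, g, ins]

theorem polar_CWind (s : ℝ) :
    1 + (s : ℂ) * I = (√(1 + s ^ 2) : ℝ) * ee (37 * Real.arctan s / (2 * Real.pi)) := by
  have e : 2 * Real.pi * (37 * Real.arctan s / (2 * Real.pi)) / 37 = Real.arctan s := by
    field_simp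
  have h : √(1 + s ^ 2) ≠ 0 := by positivity
  apply Complex.ext
  · rw [re_ofReal_mul, ee_re, e, Real.cos_arctan]
    simp [h]
  · rw [im_ofReal_mul, ee_im, e, Real.sin_arctan]
    simp [mul_div_cancel₀ _ h]

theorem edge_CWind {z : Pt → ℂ} (a : ℝ) {ε : ℝ} (hε : ε = 1 ∨ ε = -1)
    (hz : ∀ q, z q = ee a * (1 + (ε * (2 * q 0 - 1) : ℝ) * I) / 2) :
    ∀ᶠ M in atTop, II M 1 (pb (fun q => sec (z q)) sv_CWind) =
      ⌊a + ε * (37 / 8)⌋ - ⌊a - ε * (37 / 8)⌋ := by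
  have h := lift_CWind (z := z) (r := fun t => √(1 + (ε * (2 * t - 1)) ^ 2) / 2)
    (u := fun t => a + 37 * Real.arctan (ε * (2 * t - 1)) / (2 * Real.pi)) (by fun_prop)
    (fun t => by positivity) fun q => by
      rw [hz, polar_CWind, ee_add]
      push_cast
      ring
  have hp := Real.pi_ne_zero
  have e1 : a + 37 * Real.arctan (ε * (2 * 1 - 1)) / (2 * Real.pi) = a + ε * (37 / 8) := by
    rcases hε with rfl | rfl <;> norm_num [Real.arctan_neg, Real.arctan_one] <;> field_simp <;>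
      norm_num
  have e0 : a + 37 * Real.arctan (ε * (2 * 0 - 1)) / (2 * Real.pi) = a - ε * (37 / 8) := by
    rw [sub_eq_add_neg a]
    rcases hε with rfl | rfl <;> norm_num [Real.arctan_neg, Real.arctan_one] <;> field_simp <;>
      norm_num
  simpa only [e1, e0] using h

theorem ee_quarter_CWind : ee (37 / 4) = I := by
  have e : 2 * Real.pi * (37 / 4) / 37 = Real.pi / 2 := by ring
  apply Complex.ext
  · rw [ee_re, e, Real.cos_pi_div_two, I_re]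
  · rw [ee_im, e, Real.sin_pi_div_two, I_im]

theorem ee_sign_CWind {e : ℝ} (h : e = 1 ∨ e = -1) : ee (37 * (1 - e) / 4) = e := by
  rcases h with rfl | rfl
  · simp [ee_zero]
  · rw [show (37 * (1 - -1) / 4 : ℝ) = 37 / 4 + 37 / 4 by ring, ee_add, ee_quarter_CWind]
    simp

/-- `37 * tc` is the coboundary `dd 2` of `s x = (x 1 - x 0).valMinAbs` (up to sign), so by `stokes`
and `II_mul` the value times `37` is a signed sum of four values `II M 1` on the edges. On an edge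
`z t = r t * ee (u t)` with `u` continuous, and `s (sec ∘ z)` agrees locally with the coboundary of
the integer function `⌊u t⌋` (`sec_ee`, `II_lz`), so the value is `⌊u 1⌋ - ⌊u 0⌋` by `stokes` with
`n = 0`. On each edge `u` is an explicit `arctan` plus a constant, or `arg` of a rotated point. -/
theorem wind (e₁ e₂ : ℝ) (h₁ : e₁ = 1 ∨ e₁ = -1) (h₂ : e₂ = 1 ∨ e₂ = -1) :
    ∃ s : ℤ, (s = 1 ∨ s = -1) ∧ ∀ᶠ M in atTop,
      II M 2 (pb (fun q : Pt => sec ((e₁ * (q 0 - 1 / 2) : ℝ) + (e₂ * (q 1 - 1 / 2) : ℝ) * I)) tc) =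
        s := by
  have n₁ : -e₁ = 1 ∨ -e₁ = -1 := by rcases h₁ with rfl | rfl <;> simp
  have n₂ : -e₂ = 1 ∨ -e₂ = -1 := by rcases h₂ with rfl | rfl <;> simp
  have hε : e₁ * e₂ = 1 ∨ e₁ * e₂ = -1 := by
    rcases h₁ with rfl | rfl <;> rcases h₂ with rfl | rfl <;> simp
  have nε : -(e₁ * e₂) = 1 ∨ -(e₁ * e₂) = -1 := by rcases hε with h | h <;> simp [h]
  have s₁ : (e₁ : ℂ) * e₁ = 1 := by rcases h₁ with rfl | rfl <;> simp
  have s₂ : (e₂ : ℂ) * e₂ = 1 := by rcases h₂ with rfl | rfl <;> simp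
  let Z : Pt → ℂ := fun q => (e₁ * (q 0 - 1 / 2) : ℝ) + (e₂ * (q 1 - 1 / 2) : ℝ) * I
  have a1 := edge_CWind (z := fun q => Z (ins 0 1 q)) (37 * (1 - e₁) / 4) hε fun q => by
    rw [ee_sign_CWind h₁]
    simp [Z, ins]
    linear_combination (-(e₂ : ℂ) * (q 0 - 1 / 2) * I) * s₁
  have a0 := edge_CWind (z := fun q => Z (ins 0 0 q)) (37 * (1 - -e₁) / 4) nε fun q => by
    rw [ee_sign_CWind n₁]
    simp [Z, ins]
    linear_combination (-(e₂ : ℂ) * (q 0 - 1 / 2) * I) * s₁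
  have b1 := edge_CWind (z := fun q => Z (ins 1 1 q)) (37 / 4 + 37 * (1 - e₂) / 4) nε fun q => by
    rw [ee_add, ee_quarter_CWind, ee_sign_CWind h₂]
    simp [Z, ins]
    linear_combination (-(e₁ : ℂ) * (q 0 - 1 / 2)) * s₂ +
      ((e₁ : ℂ) * e₂ * e₂ * (q 0 - 1 / 2)) * I_mul_I
  have b0 := edge_CWind (z := fun q => Z (ins 1 0 q)) (37 / 4 + 37 * (1 - -e₂) / 4) hε fun q => by
    rw [ee_add, ee_quarter_CWind, ee_sign_CWind n₂]
    simp [Z, ins]
    linear_combination (-(e₁ : ℂ) * (q 0 - 1 / 2)) * s₂ +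
      ((e₁ : ℂ) * e₂ * e₂ * (q 0 - 1 / 2)) * I_mul_I
  obtain ⟨s, hs, hsum⟩ : ∃ s : ℤ, (s = 1 ∨ s = -1) ∧
      (⌊37 * (1 - e₁) / 4 + e₁ * e₂ * (37 / 8)⌋ - ⌊37 * (1 - e₁) / 4 - e₁ * e₂ * (37 / 8)⌋ -
        (⌊37 * (1 - -e₁) / 4 + -(e₁ * e₂) * (37 / 8)⌋ -
          ⌊37 * (1 - -e₁) / 4 - -(e₁ * e₂) * (37 / 8)⌋)) -
      (⌊37 / 4 + 37 * (1 - e₂) / 4 + -(e₁ * e₂) * (37 / 8)⌋ -
          ⌊37 / 4 + 37 * (1 - e₂) / 4 - -(e₁ * e₂) * (37 / 8)⌋ -
        (⌊37 / 4 + 37 * (1 - -e₂) / 4 + e₁ * e₂ * (37 / 8)⌋ -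
          ⌊37 / 4 + 37 * (1 - -e₂) / 4 - e₁ * e₂ * (37 / 8)⌋)) = 37 * s := by
    rcases h₁ with rfl | rfl <;> rcases h₂ with rfl | rfl
    · exact ⟨1, by simp, by norm_num⟩
    · exact ⟨-1, by simp, by norm_num⟩
    · exact ⟨-1, by simp, by norm_num⟩
    · exact ⟨1, by simp, by norm_num⟩
  refine ⟨s, hs, ?_⟩
  filter_upwards [a1, a0, b1, b0, eventually_gt_atTop 0] with M a1 a0 b1 b0 hM
  have h := stokes hM 1 (sv_dg_CWind.pb fun q => sec (Z q))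
  have e : dd (1 + 1) (pb (fun q => sec (Z q)) sv_CWind) =
      fun x => 37 * pb (fun q => sec (Z q)) tc x := by
    rw [← pb_dd]
    exact funext fun x => dd_sv_CWind _
  rw [e, II_mul, Finset.sum_range_succ, Finset.sum_range_one, pb_pb, pb_pb, pb_pb, pb_pb,
    a1, a0, b1, b0] at h
  refine mul_left_cancel₀ (by norm_num : (37 : ℤ) ≠ 0) (h.trans ?_)
  rw [← hsum]
  ring

end Pool.Agent.MP_2fc7fa_gt.N
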