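import Pool.Agent.MP_2fc7fa_gt.N.IfB2

/-! Passage to an affine chart. -/

open scoped ContDiff ComplexConjugate Topology
open Set Complex Filter Metric

noncomputable section

namespace Pool.Agent.MP_2fc7fa_gt.N

theorem ne1_Chart (a : Fin 3) : a + 1 ≠ a := by revert a; decide
theorem ne2_Chart (a : Fin 3) : a + 2 ≠ a := by revert a; decide
theorem ne3_Chart (a : Fin 3) : a + 2 ≠ a + 1 := by revert a; decide
theorem cases_Chart (a j : Fin 3) : j = a ∨ j = a + 1 ∨ j = a + 2 := by revert a j; decide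

theorem un0_Chart (a : Fin 3) (c : ℂ) (y : W) : unch a c y a = c := if_pos rfl

theorem un1_Chart (a : Fin 3) (c : ℂ) (y : W) : unch a c y (a + 1) = y.1 :=
  (if_neg (ne1_Chart a)).trans (if_pos rfl)

theorem un2_Chart (a : Fin 3) (c : ℂ) (y : W) : unch a c y (a + 2) = y.2 :=
  (if_neg (ne2_Chart a)).trans (if_neg (ne3_Chart a))

theorem ext_Chart (a : Fin 3) {v w : V} (h0 : v a = w a) (h1 : v (a + 1) = w (a + 1))
    (h2 : v (a + 2) = w (a + 2)) : v = w := by
  funext j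
  rcases cases_Chart a j with rfl | rfl | rfl
  exacts [h0, h1, h2]

theorem ne_Chart (a : Fin 3) (y : W) : unch a 1 y ≠ 0 := fun h =>
  one_ne_zero ((un0_Chart a 1 y).symm.trans (congrFun h a))

theorem smooth_un_Chart (a : Fin 3) (c : ℂ) : ContDiff ℝ ∞ (unch a c) := by
  refine contDiff_pi.2 fun j => ?_
  rcases cases_Chart a j with rfl | rfl | rfl
  · simp only [un0_Chart]; exact contDiff_const
  · simp only [un1_Chart]; exact contDiff_fst
  · simp only [un2_Chart]; exact contDiff_snd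

/-- The map `h ↦ unch a 0 h`. -/
def un_Chart (a : Fin 3) : W →ₗ[ℝ] V where
  toFun := unch a 0
  map_add' _ _ := ext_Chart a (by simp [un0_Chart]) (by simp [un1_Chart]) (by simp [un2_Chart])
  map_smul' _ _ := ext_Chart a (by simp [un0_Chart]) (by simp [un1_Chart]) (by simp [un2_Chart])

/-- The projection along `unch a 1 y`. -/
def pj_Chart (a : Fin 3) (y : W) : V →ₗ[ℂ] W where
  toFun v := (v (a + 1) - v a * y.1, v (a + 2) - v a * y.2)
  map_add' _ _ := Prod.ext (by simp; ring) (by simp; ring)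
  map_smul' _ _ := Prod.ext (by simp; ring) (by simp; ring)

theorem pj_apply_Chart (a : Fin 3) (y : W) (v : V) :
    pj_Chart a y v = (v (a + 1) - v a * y.1, v (a + 2) - v a * y.2) := rfl

theorem pj_un_Chart (a : Fin 3) (y : W) : pj_Chart a y (unch a 1 y) = 0 := by
  simp [pj_apply_Chart, un0_Chart, un1_Chart, un2_Chart]

theorem un_pj_Chart (a : Fin 3) (y : W) (w : V) :
    unch a 0 (pj_Chart a y w) = w - w a • unch a 1 y :=
  ext_Chart a (by simp [un0_Chart]) (by simp [un1_Chart, pj_apply_Chart])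
    (by simp [un2_Chart, pj_apply_Chart])

theorem pj_zero_Chart {a : Fin 3} {y : W} {w : V} (h : pj_Chart a y w = 0) :
    w = w a • unch a 1 y := by
  rw [← sub_eq_zero, ← un_pj_Chart, h]
  exact map_zero (un_Chart a)

theorem un_ch_Chart {a : Fin 3} {x : V} (h : x a ≠ 0) : unch a 1 (ch a x) = (x a)⁻¹ • x :=
  ext_Chart a (by simp [un0_Chart, h]) (by simp [un1_Chart, ch, div_eq_inv_mul])
    (by simp [un2_Chart, ch, div_eq_inv_mul])

theorem A_vert_Chart (φ : Fr) {x : V} (hx : x ≠ 0) (c : ℂ) : φ.A x (c • x) = c • x := by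
  conv_lhs => rw [← φ.vert x hx c]
  exact φ.AB x hx _

theorem A_scale_Chart (φ : Fr) {x : V} (hx : x ≠ 0) {c : ℂ} (hc : c ≠ 0) (v : V) :
    φ.A (c • x) (c • v) = c • φ.A x v := by
  conv_lhs => rw [← φ.BA x hx v, ← φ.scale x hx c hc]
  exact φ.AB _ (smul_ne_zero hc hx) _

theorem fderiv_ch_Chart {a : Fin 3} {u : ℂ → V} {z : ℂ} (hu : DifferentiableAt ℝ u z)
    (h : u z a ≠ 0) (k : ℂ) :
    fderiv ℝ (ch a ∘ u) z k = pj_Chart a (ch a (u z)) ((u z a)⁻¹ • fderiv ℝ u z k) := by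
  have h0 := fun j => hasFDerivAt_pi'.1 hu.hasFDerivAt j
  have h1 := (hasDerivAt_inv h).comp_hasFDerivAt z (h0 a)
  have h2 : HasFDerivAt (ch a ∘ u) _ z :=
    (((h0 (a + 1)).mul h1).prodMk ((h0 (a + 2)).mul h1)).congr_of_eventuallyEq
      (Eventually.of_forall fun t => by simp [ch, div_eq_mul_inv])
  rw [h2.fderiv, pj_apply_Chart]
  refine Prod.ext ?_ ?_ <;> simp [ch] <;> field_simp <;> ring

theorem exists_Chart (φ : Fr) (a : Fin 3) : ∃ A, IsChart φ a A :=
  ⟨fun y => LinearMap.toContinuousLinearMap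
    ((pj_Chart a y).restrictScalars ℝ ∘ₗ (φ.A (unch a 1 y)).toLinearMap ∘ₗ un_Chart a),
    fun _ _ => rfl⟩

theorem cofr_Chart {φ : Fr} {a : Fin 3} {A : W → W →L[ℝ] W} (hA : IsChart φ a A) :
    Cofr A univ := by
  refine ⟨isOpen_univ, ContDiff.contDiffOn (contDiff_clm_apply_iff.2 fun h => ?_), fun y _ => ?_⟩
  · have h1 : ContDiff ℝ ∞ fun y => φ.A (unch a 1 y) (unch a 0 h) :=
      (φ.smoothA.comp_contDiff (smooth_un_Chart a 1) (ne_Chart a)).clm_apply contDiff_const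
    have h2 := contDiff_pi.1 h1
    simp only [hA _ h]
    exact ((h2 _).sub ((h2 _).mul contDiff_fst)).prodMk ((h2 _).sub ((h2 _).mul contDiff_snd))
  · rw [injective_iff_map_eq_zero]
    intro h hh
    have h1 := pj_zero_Chart ((hA y h).symm.trans hh :
      pj_Chart a y (φ.A (unch a 1 y) (unch a 0 h)) = 0)
    have h2 := congrArg (φ.B (unch a 1 y)) h1
    rw [φ.BA _ (ne_Chart a y), φ.vert _ (ne_Chart a y)] at h2
    have h3 := congrFun h2 a
    rw [un0_Chart, Pi.smul_apply, un0_Chart, smul_eq_mul, mul_one] at h3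
    rw [← h3, zero_smul] at h2
    exact Prod.ext ((un1_Chart a 0 h).symm.trans (congrFun h2 _))
      ((un2_Chart a 0 h).symm.trans (congrFun h2 _))

theorem cr_Chart {φ : Fr} {a : Fin 3} {A : W → W →L[ℝ] W} (hA : IsChart φ a A) {u : ℂ → V}
    {z : ℂ} (hu : DifferentiableAt ℝ u z) (h : u z a ≠ 0) (hc : CR φ.A u {z}) :
    CR A (ch a ∘ u) {z} := by
  have hx : u z ≠ 0 := fun e => h (congrFun e a)
  have key : ∀ k, A (ch a (u z)) (fderiv ℝ (ch a ∘ u) z k) =
      pj_Chart a (ch a (u z)) ((u z a)⁻¹ • φ.A (u z) (fderiv ℝ u z k)) := fun k => by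
    rw [hA, ← pj_apply_Chart, fderiv_ch_Chart hu h, un_pj_Chart, map_sub,
      A_vert_Chart φ (ne_Chart _ _), map_sub, map_smul _ _ (unch a 1 _), pj_un_Chart, smul_zero,
      sub_zero, un_ch_Chart h, A_scale_Chart φ hx (inv_ne_zero h)]
  rintro _ rfl
  rw [Function.comp_apply, key, key, hc _ rfl, smul_comm, map_smul]

theorem zero_iff_Chart {a : Fin 3} {u : ℂ → V} {z : ℂ} (hu : DifferentiableAt ℝ u z)
    (h : u z a ≠ 0) : fderiv ℝ (ch a ∘ u) z 1 = 0 ↔ ∃ c : ℂ, fderiv ℝ u z 1 = c • u z := by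
  rw [fderiv_ch_Chart hu h]
  refine ⟨fun e => ⟨((u z a)⁻¹ • fderiv ℝ u z 1) a, ?_⟩, ?_⟩
  · have h1 := pj_zero_Chart e
    rw [un_ch_Chart h, smul_comm] at h1
    exact smul_right_injective V (inv_ne_zero h) h1
  · rintro ⟨c, e⟩
    rw [e, smul_comm, ← un_ch_Chart h, map_smul, pj_un_Chart, smul_zero]

theorem conv_Chart {P : Type} [TopologicalSpace P] {φ : P → Fr} {p : ℕ → P} {p₀ : P} {a : Fin 3}
    {An : ℕ → W → W →L[ℝ] W} {A : W → W →L[ℝ] W} (hφ : FrFam φ) (hp : Tendsto p atTop (𝓝 p₀))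
    (hn : ∀ n, IsChart (φ (p n)) a (An n)) (hA : IsChart (φ p₀) a A) :
    TendstoLocallyUniformlyOn An A atTop univ := by
  choose G hG using fun q => exists_Chart (φ q) a
  have hc : Continuous fun q : P × W => G q.1 q.2 := by
    refine continuous_clm_apply.2 fun h => ?_
    have h0 : Continuous fun q : P × W => (φ q.1).A (unch a 1 q.2) :=
      ContinuousOn.comp_continuous (f := fun q : P × W => (q.1, unch a 1 q.2)) (hφ 0).2
        (continuous_fst.prodMk ((smooth_un_Chart a 1).continuous.comp continuous_snd))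
        fun q => ⟨mem_univ _, ne_Chart a q.2⟩
    have h2 := continuous_pi_iff.1 (h0.clm_apply (continuous_const (y := unch a 0 h)))
    simp only [hG _ _ h]
    exact ((h2 _).sub ((h2 _).mul continuous_snd.fst)).prodMk
      ((h2 _).sub ((h2 _).mul continuous_snd.snd))
  obtain rfl : An = fun n => G (p n) :=
    funext fun n => funext fun y => ContinuousLinearMap.ext fun h => (hn n y h).trans (hG _ y h).symm
  obtain rfl : A = G p₀ :=
    funext fun y => ContinuousLinearMap.ext fun h => (hA y h).trans (hG _ y h).symm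
  rw [tendstoLocallyUniformlyOn_iff_forall_tendsto]
  intro y _
  rw [nhdsWithin_univ]
  have h1 : Tendsto (fun q : ℕ × W => G p₀ q.2) (atTop ×ˢ 𝓝 y) (𝓝 (G p₀ y)) :=
    (hc.tendsto (p₀, y)).comp (tendsto_const_nhds.prodMk_nhds tendsto_snd)
  have h2 : Tendsto (fun q : ℕ × W => G (p q.1) q.2) (atTop ×ˢ 𝓝 y) (𝓝 (G p₀ y)) :=
    (hc.tendsto (p₀, y)).comp ((hp.comp tendsto_fst).prodMk_nhds tendsto_snd)
  exact (h1.prodMk_nhds h2).mono_right (nhds_le_uniformity _)

theorem chart : ChartStmt :=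
  ⟨exists_Chart, fun _ _ _ hA => ⟨cofr_Chart hA, fun _ _ hu h hc =>
    ⟨cr_Chart hA hu h hc, zero_iff_Chart hu h⟩⟩,
    fun _ _ _ _ _ _ _ _ hφ hp hn hA => conv_Chart hφ hp hn hA⟩

end Pool.Agent.MP_2fc7fa_gt.N
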