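import Pool.Agent.MP_2fc7fa_gt.N.IfC

/-! Algebra of cochains. -/

open scoped ComplexConjugate Topology
open Set Complex Filter

noncomputable section

namespace Pool.Agent.MP_2fc7fa_gt.N

variable {D D' D'' R : Type} [CommRing R]

theorem skip_comp {α β : Type} (φ : α → β) (i : ℕ) (x : ℕ → α) :
    (fun j => φ (skip i x j)) = skip i fun j => φ (x j) := by
  funext j; unfold skip; split_ifs <;> rfl

theorem pb_dd (φ : D' → D) (n : ℕ) (c : Co D R) : pb φ (dd n c) = dd n (pb φ c) := by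
  funext x; simp only [pb, dd, skip_comp]

theorem pb_cup (φ : D' → D) (n : ℕ) (a b : Co D R) :
    pb φ (cup n a b) = cup n (pb φ a) (pb φ b) := rfl

omit [CommRing R] in
theorem pb_pb (ψ : D'' → D') (φ : D' → D) (c : Co D R) :
    pb ψ (pb φ c) = pb (fun x => φ (ψ x)) c := rfl

theorem dd_add (n : ℕ) (a b : Co D R) : dd n (a + b) = dd n a + dd n b := by
  funext x; simp [dd, mul_add, Finset.sum_add_distrib]

theorem dd_sub (n : ℕ) (a b : Co D R) : dd n (a - b) = dd n a - dd n b := by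
  funext x; simp [dd, mul_sub, Finset.sum_sub_distrib]

theorem dd_zero (n : ℕ) : dd n (0 : Co D R) = 0 := by
  funext x; simp [dd]

theorem dd_cup {n : ℕ} (m : ℕ) {a : Co D R} (b : Co D R) (ha : Dg n a) (x : ℕ → D) :
    dd (n + m + 1) (cup n a b) x =
      cup (n + 1) (dd (n + 1) a) b x + (-1) ^ n * cup n a (dd (m + 1) b) x := by
  have e1 : ∀ i, i ≤ n → shift n (skip i x) = shift (n + 1) x := by
    intro i hi; funext j
    simp only [shift, skip]
    rw [if_neg (by omega)]; rfl
  have e2 : ∀ i, shift n (skip (n + i) x) = skip i (shift n x) := by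
    intro i; funext j
    simp only [shift, skip]
    by_cases h : j < i
    · rw [if_pos h, if_pos (by omega)]
    · rw [if_neg h, if_neg (by omega)]; congr 1; omega
  have e3 : ∀ i, a (skip (n + 1 + i) x) = a x := by
    intro i; apply ha; intro j hj
    simp only [skip]; rw [if_pos (by omega)]
  have e4 : skip 0 (shift n x) = shift (n + 1) x := by
    funext j; simp only [shift, skip]; rw [if_neg (by omega)]; congr 1; omega
  simp only [dd, cup]
  rw [show n + m + 1 + 1 = (n + 1) + (m + 1) by omega, Finset.sum_range_add,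
    Finset.sum_range_succ (n := n + 1), Finset.sum_range_succ' (n := m + 1), add_mul,
    Finset.sum_mul, e4]
  have e5 := e3 0
  rw [add_zero] at e5
  rw [e5]
  have s1 : ∑ i ∈ Finset.range (n + 1), (-1 : R) ^ i * (a (skip i x) * b (shift n (skip i x))) =
      ∑ i ∈ Finset.range (n + 1), (-1 : R) ^ i * a (skip i x) * b (shift (n + 1) x) := by
    refine Finset.sum_congr rfl fun i hi => ?_
    rw [e1 i (by simpa [Nat.lt_succ_iff] using hi), mul_assoc]
  have s2 : ∑ i ∈ Finset.range (m + 1),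
      (-1 : R) ^ (n + 1 + i) * (a (skip (n + 1 + i) x) * b (shift n (skip (n + 1 + i) x))) =
      (-1) ^ n * (a x * ∑ i ∈ Finset.range (m + 1), (-1 : R) ^ (i + 1) *
        b (skip (i + 1) (shift n x))) := by
    rw [Finset.mul_sum, Finset.mul_sum]
    refine Finset.sum_congr rfl fun i _ => ?_
    rw [e3, show n + 1 + i = n + (i + 1) by omega, e2]; ring
  rw [s1, s2]; ring

theorem dd_cup_zero {n m : ℕ} {a b : Co D R} (ha : Dg n a) (ha' : dd (n + 1) a = 0)
    (hb : dd (m + 1) b = 0) : dd (n + m + 1) (cup n a b) = 0 := by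
  funext x; rw [dd_cup m b ha, ha', hb]; simp [cup]

omit [CommRing R] in
theorem Dg.pb {n : ℕ} {c : Co D R} (h : Dg n c) (φ : D' → D) : Dg n (pb φ c) :=
  fun _ _ hxy => h _ _ fun j hj => by rw [hxy j hj]

theorem Nm.pb {n : ℕ} {c : Co D R} (h : Nm n c) (φ : D' → D) : Nm n (pb φ c) :=
  fun _ j hj hx => h _ j hj (by simp only [hx])

theorem Dg.cup {n m : ℕ} {a b : Co D R} (ha : Dg n a) (hb : Dg m b) :
    Dg (n + m) (cup n a b) := by
  intro x y h
  simp only [N.cup]
  rw [ha x y fun j hj => h j (by omega), hb (shift n x) (shift n y) fun j hj => h _ (by omega)]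

theorem Nm.cup {n m : ℕ} {a b : Co D R} (ha : Nm n a) (hb : Nm m b) :
    Nm (n + m) (cup n a b) := by
  intro x j hj hx
  simp only [N.cup]
  by_cases h : j < n
  · rw [ha x j h hx, zero_mul]
  · rw [hb (shift n x) (j - n) (by omega) ?_, mul_zero]
    simp only [shift]
    rw [show j - n + n = j by omega, show j - n + 1 + n = j + 1 by omega, hx]

theorem Dg.dd {n : ℕ} {c : Co D R} (h : Dg n c) : Dg (n + 1) (dd (n + 1) c) := by
  intro x y hxy
  simp only [N.dd]
  refine Finset.sum_congr rfl fun i _ => ?_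
  rw [h (skip i x) (skip i y) fun j hj => ?_]
  simp only [skip]; split_ifs
  · exact hxy j (by omega)
  · exact hxy _ (by omega)

theorem LZ.zero (F : Filter D) : LZ (0 : Co D R) F := ⟨univ, univ_mem, fun _ _ => rfl⟩

theorem LZ.mono {c : Co D R} {F F' : Filter D} (h : LZ c F) (hF : F' ≤ F) : LZ c F' := by
  obtain ⟨U, hU, h⟩ := h; exact ⟨U, hF hU, h⟩

theorem LZ.pb {c : Co D R} {F : Filter D} {F' : Filter D'} {φ : D' → D} (h : LZ c F)
    (hφ : Tendsto φ F' F) : LZ (pb φ c) F' := by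
  obtain ⟨U, hU, h⟩ := h; exact ⟨φ ⁻¹' U, hφ hU, fun _ hx => h _ hx⟩

theorem LZ.cup_left {a : Co D R} {F : Filter D} (h : LZ a F) (n : ℕ) (b : Co D R) :
    LZ (cup n a b) F := by
  obtain ⟨U, hU, h⟩ := h
  exact ⟨U, hU, fun x hx => by simp only [cup]; rw [h x hx, zero_mul]⟩

theorem LZ.cup_right {b : Co D R} {F : Filter D} (h : LZ b F) (n : ℕ) (a : Co D R) :
    LZ (cup n a b) F := by
  obtain ⟨U, hU, h⟩ := h
  exact ⟨U, hU, fun x hx => by simp only [cup]; rw [h (shift n x) fun j => hx _, mul_zero]⟩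

theorem skip_mem {α : Type} {U : Set α} {x : ℕ → α} (hx : ∀ j, x j ∈ U) (i j : ℕ) :
    skip i x j ∈ U := by
  unfold skip; split_ifs <;> exact hx _

theorem LZ.dd {c : Co D R} {F : Filter D} (h : LZ c F) (n : ℕ) : LZ (dd n c) F := by
  obtain ⟨U, hU, h⟩ := h
  refine ⟨U, hU, fun x hx => ?_⟩
  simp only [N.dd]
  exact Finset.sum_eq_zero fun i _ => by rw [h _ (skip_mem hx i), mul_zero]

theorem LZ.add {a b : Co D R} {F : Filter D} (ha : LZ a F) (hb : LZ b F) : LZ (a + b) F := by
  obtain ⟨U, hU, h⟩ := ha; obtain ⟨U', hU', h'⟩ := hb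
  refine ⟨U ∩ U', inter_mem hU hU', fun x hx => ?_⟩
  rw [Pi.add_apply, h x fun j => (hx j).1, h' x fun j => (hx j).2, add_zero]

theorem LZ.sub {a b : Co D R} {F : Filter D} (ha : LZ a F) (hb : LZ b F) : LZ (a - b) F := by
  obtain ⟨U, hU, h⟩ := ha; obtain ⟨U', hU', h'⟩ := hb
  refine ⟨U ∩ U', inter_mem hU hU', fun x hx => ?_⟩
  rw [Pi.sub_apply, h x fun j => (hx j).1, h' x fun j => (hx j).2, sub_zero]

theorem LZ.of_sub {a b : Co D R} {F : Filter D} (h : LZ (a - b) F) (hb : LZ b F) : LZ a F := by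
  simpa using h.add hb

/-- Two pull-backs along maps that agree near a point agree near the point. -/
theorem LZ.pb_congr (c : Co D R) {F : Filter D'} {φ ψ : D' → D} (h : φ =ᶠ[F] ψ) :
    LZ (N.pb φ c - N.pb ψ c) F := by
  refine ⟨{x | φ x = ψ x}, h, fun x hx => ?_⟩
  have : (fun j => φ (x j)) = fun j => ψ (x j) := funext hx
  simp only [Pi.sub_apply, N.pb, this, sub_self]

theorem LZ.cup_sub {a a' b b' : Co D R} {F : Filter D} (ha : LZ (a - a') F) (hb : LZ (b - b') F)
    (n : ℕ) : LZ (cup n a b - cup n a' b') F := by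
  have : cup n a b - cup n a' b' = cup n (a - a') b + cup n a' (b - b') := by
    funext x; simp only [cup, Pi.sub_apply, Pi.add_apply]; ring
  rw [this]; exact (ha.cup_left n b).add (hb.cup_right n a')

theorem LZ.dd_cup {n m : ℕ} {a b : Co D R} {F : Filter D} (ha : Dg n a)
    (ha' : LZ (N.dd (n + 1) a) F) (hb : LZ (N.dd (m + 1) b) F) :
    LZ (N.dd (n + m + 1) (cup n a b)) F := by
  obtain ⟨U, hU, h⟩ := ha'.cup_left (n + 1) b
  obtain ⟨U', hU', h'⟩ := hb.cup_right n a
  refine ⟨U ∩ U', inter_mem hU hU', fun x hx => ?_⟩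
  rw [N.dd_cup m b ha, h x fun j => (hx j).1, h' x fun j => (hx j).2]; simp

theorem dH_dg : Dg 1 dH := by
  intro x y h; simp only [dH, h 0 (by omega), h 1 le_rfl]

theorem dH_nm : Nm 1 dH := by
  intro x j hj hx
  obtain rfl : j = 0 := by omega
  simp only [dH, hx, zero_add, sub_self]

theorem dH_dd : dd 2 dH = 0 := by
  funext x; simp [dd, dH, skip, Finset.sum_range_succ]

theorem dH_lz {e : ℝ} (he : e ≠ 0) : LZ dH (𝓝 e) := by
  rcases he.lt_or_gt with h | h
  · refine ⟨Iio 0, Iio_mem_nhds h, fun x hx => ?_⟩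
    simp only [dH]
    rw [if_neg (not_lt.2 (le_of_lt (hx 1))), if_neg (not_lt.2 (le_of_lt (hx 0))), sub_self]
  · refine ⟨Ioi 0, Ioi_mem_nhds h, fun x hx => ?_⟩
    simp only [dH]
    rw [if_pos (show 0 < x 1 from hx 1), if_pos (show 0 < x 0 from hx 0), sub_self]

theorem cons_mem_cube {a : ℝ} {q : Pt} (ha : a ∈ Icc (0 : ℝ) 1) (hq : q ∈ cube) :
    cons a q ∈ cube := by
  intro j; cases j with
  | zero => exact ha
  | succ j => exact hq j

theorem ins_mem_cube (i : ℕ) {a : ℝ} {q : Pt} (ha : a ∈ Icc (0 : ℝ) 1) (hq : q ∈ cube) :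
    ins i a q ∈ cube := by
  intro j; unfold ins; split_ifs
  exacts [hq _, ha, hq _]

theorem shift_mem_cube (m : ℕ) {q : Pt} (hq : q ∈ cube) : shift m q ∈ cube := fun _ => hq _

theorem res_mem_cubeF (m : ℕ) {q : Pt} (hq : q ∈ cube) : res m q ∈ cubeF m := fun _ => hq _

theorem ins_zero {α : Type} (a : α) : ins 0 a = cons a := by
  funext x j; cases j with
  | zero => simp [ins, cons]
  | succ j => simp [ins, cons]

theorem skip_ins {α : Type} (i : ℕ) (a : α) (x : ℕ → α) : skip i (ins i a x) = x := by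
  funext j; simp only [skip, ins]
  by_cases h : j < i
  · simp [h]
  · rw [if_neg h, if_neg (by omega), if_neg (by omega)]; rfl

theorem continuous_ins (i : ℕ) (a : ℝ) : Continuous (ins i a : Pt → Pt) := by
  refine continuous_pi fun j => ?_
  unfold ins; split_ifs
  exacts [continuous_apply _, continuous_const, continuous_apply _]

theorem continuous_shift (m : ℕ) : Continuous (shift m : Pt → Pt) :=
  continuous_pi fun _ => continuous_apply _

theorem continuous_res (m : ℕ) : Continuous (res m) := continuous_pi fun _ => continuous_apply _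

theorem tendsto_ins (i : ℕ) {a : ℝ} (ha : a ∈ Icc (0 : ℝ) 1) (q : Pt) :
    Tendsto (ins i a) (𝓝[cube] q) (𝓝[cube] (ins i a q)) :=
  (continuous_ins i a).continuousWithinAt.tendsto_nhdsWithin fun _ hq => ins_mem_cube i ha hq

theorem tendsto_res (m : ℕ) (q : Pt) :
    Tendsto (res m) (𝓝[cube] q) (𝓝[cubeF m] (res m q)) :=
  (continuous_res m).continuousWithinAt.tendsto_nhdsWithin fun _ hq => res_mem_cubeF m hq

end Pool.Agent.MP_2fc7fa_gt.N
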