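import Pool.Agent.MP_2fc7fa_gt.N.CoA

/-! Evaluation of cochains on cubes. -/

open scoped ComplexConjugate Topology Uniformity
open Set Complex Filter

noncomputable section

namespace Pool.Agent.MP_2fc7fa_gt.N

variable {R R' : Type} [CommRing R] [CommRing R']

section
variable {D D' : Type}

theorem skip_zero_CoB (x : ℕ → D) : skip 0 x = shift 1 x := by
  funext j; simp [skip, shift]

theorem skip_succ_CoB (i : ℕ) (x : ℕ → D) : skip (i + 1) x = cons (x 0) (skip i (shift 1 x)) := by
  funext j; cases j with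
  | zero => simp [skip, cons]
  | succ j => simp [skip, cons, shift]

theorem dd_succ_CoB (n : ℕ) (c : Co D R) (x : ℕ → D) :
    dd (n + 1) c x = c (shift 1 x) - dd n (fun y => c (cons (x 0) y)) (shift 1 x) := by
  simp only [dd]
  rw [Finset.sum_range_succ', skip_zero_CoB]
  simp only [skip_succ_CoB, pow_succ, mul_neg, mul_one, neg_mul, Finset.sum_neg_distrib]
  ring

theorem prism_zero_CoB (α β : D → D') (x : ℕ → D) :
    prism α β 0 x = cons (α (x 0)) fun j => β (x j) := by
  funext j; cases j with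
  | zero => simp [prism, cons]
  | succ j => simp [prism, cons]

theorem prism_succ_CoB (α β : D → D') (i : ℕ) (x : ℕ → D) :
    prism α β (i + 1) x = cons (α (x 0)) (prism α β i (shift 1 x)) := by
  funext j; cases j with
  | zero => simp [prism, cons]
  | succ j =>
    simp only [prism, cons, shift, add_le_add_iff_right, add_tsub_cancel_right]
    split_ifs with h
    · rfl
    · congr 2; omega

theorem pris_succ_CoB (α β : D → D') (n : ℕ) (c : Co D' R) (x : ℕ → D) :
    pris α β (n + 1) c x = c (cons (α (x 0)) fun j => β (x j)) -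
      pris α β n (fun y => c (cons (α (x 0)) y)) (shift 1 x) := by
  simp only [pris]
  rw [Finset.sum_range_succ', prism_zero_CoB]
  simp only [prism_succ_CoB, pow_succ, mul_neg, mul_one, neg_mul, Finset.sum_neg_distrib]
  ring

theorem pris_sub_CoB (α β : D → D') (n : ℕ) (a b : Co D' R) (x : ℕ → D) :
    pris α β n (fun y => a y - b y) x = pris α β n a x - pris α β n b x := by
  simp [pris, mul_sub, Finset.sum_sub_distrib]

theorem cons_shift_CoB (x : ℕ → D) : cons (x 0) (shift 1 x) = x := by
  funext j; cases j <;> rfl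

theorem prism_id_CoB (α β : D → D') (n : ℕ) : ∀ (c : Co D' R), Dg n c → ∀ x,
    dd n (pris α β n c) x + pris α β (n + 1) (dd (n + 1) c) x =
      c (fun j => β (x j)) - c fun j => α (x j) := by
  induction n with
  | zero =>
    intro c hc x
    rw [pris_succ_CoB, dd_succ_CoB]
    simp only [dd, pris, Finset.range_zero, Finset.sum_empty, mul_zero, Finset.sum_const_zero,
      zero_add, sub_zero, Finset.sum_range_one, pow_zero, one_mul]
    congr 1
    apply hc; intro j hj
    obtain rfl : j = 0 := by omega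
    rfl
  | succ n ih =>
    intro c hc x
    have hc' : Dg n fun y => c (cons (α (x 0)) y) := by
      intro y z h; apply hc; intro j hj
      cases j with
      | zero => rfl
      | succ j => exact h j (by omega)
    have h1 := ih _ hc' (shift 1 x)
    have e1 : (fun y => pris α β (n + 1) c (cons (x 0) y)) =
        pb β (fun y => c (cons (α (x 0)) (cons (β (x 0)) y))) -
          pris α β n fun y => c (cons (α (x 0)) y) := by
      funext y
      rw [pris_succ_CoB]
      simp only [Pi.sub_apply, pb]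
      congr 3
      funext j; cases j <;> rfl
    have e2 : (fun y => dd (n + 1 + 1) c (cons (α (x 0)) y)) =
        fun y => c y - dd (n + 1) (fun y => c (cons (α (x 0)) y)) y := by
      funext y; rw [dd_succ_CoB]; rfl
    rw [dd_succ_CoB, e1, dd_sub, pris_succ_CoB _ _ (n + 1), e2, pris_sub_CoB, dd_succ_CoB (n + 1),
      ← pb_dd]
    have e3 : dd (n + 1) (fun y => c (cons (cons (α (x 0)) (fun j => β (x j)) 0) y))
        (shift 1 (cons (α (x 0)) fun j => β (x j))) =
        c (cons (α (x 0)) fun j => β (shift 1 x j)) -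
          pb β (dd n fun y => c (cons (α (x 0)) (cons (β (x 0)) y))) (shift 1 x) := by
      rw [dd_succ_CoB]; rfl
    have e4 : c (cons (α (x 0)) fun j => α (shift 1 x j)) = c fun j => α (x j) := by
      congr 1; funext j; cases j <;> rfl
    have e5 : c (shift 1 (cons (α (x 0)) fun j => β (x j))) = c fun j => β (x j) := rfl
    rw [e3, e5, ← e4, Pi.sub_apply]
    linear_combination h1

end

theorem PP_zero_CoB (M n : ℕ) : PP M n (0 : Co Pt R) = 0 := by
  funext x; simp [PP, pris]

theorem II_zero (M n : ℕ) : II M n (0 : Co Pt R) = 0 := by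
  induction n with
  | zero => rfl
  | succ n ih => rw [II, PP_zero_CoB, ih]

theorem II_add (M n : ℕ) (a b : Co Pt R) : II M n (a + b) = II M n a + II M n b := by
  induction n generalizing a b with
  | zero => rfl
  | succ n ih =>
    rw [II, II, II, ← ih]; congr 1
    funext x; simp [PP, pris, mul_add, Finset.sum_add_distrib]

theorem II_sub (M n : ℕ) (a b : Co Pt R) : II M n (a - b) = II M n a - II M n b := by
  rw [eq_sub_iff_add_eq, ← II_add, sub_add_cancel]

theorem II_mul (M n : ℕ) (r : R) (c : Co Pt R) :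
    II M n (fun x => r * c x) = r * II M n c := by
  induction n generalizing c with
  | zero => rfl
  | succ n ih =>
    rw [II, II, ← ih]; congr 1
    funext x; simp only [PP, pris, Finset.mul_sum]
    exact Finset.sum_congr rfl fun _ _ => Finset.sum_congr rfl fun _ _ => by ring

theorem II_sum {ι : Type} (M n : ℕ) (s : Finset ι) (c : ι → Co Pt R) :
    II M n (∑ i ∈ s, c i) = ∑ i ∈ s, II M n (c i) := by
  classical
  induction s using Finset.induction_on with
  | empty => simp [II_zero]
  | insert a s ha ih => rw [Finset.sum_insert ha, Finset.sum_insert ha, II_add, ih]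

theorem II_map (M n : ℕ) (φ : R →+* R') (c : Co Pt R) :
    II M n (fun x => φ (c x)) = φ (II M n c) := by
  induction n generalizing c with
  | zero => rfl
  | succ n ih =>
    rw [II, II, ← ih]; congr 1
    funext x; simp [PP, pris]

theorem mesh_CoB {M k : ℕ} (hk : k ∈ Finset.range M) :
    (k : ℝ) / M ∈ Icc (0 : ℝ) 1 ∧ ((k : ℝ) + 1) / M ∈ Icc (0 : ℝ) 1 := by
  have h : (k : ℝ) + 1 ≤ M := by exact_mod_cast Finset.mem_range.1 hk
  have h0 : (0 : ℝ) ≤ k := Nat.cast_nonneg k
  have hM : (0 : ℝ) < M := by linarith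
  refine ⟨⟨by positivity, ?_⟩, by positivity, ?_⟩ <;> rw [div_le_one hM] <;> linarith

theorem prism_InC_CoB {a b : ℝ} (ha : a ∈ Icc (0 : ℝ) 1) (hb : b ∈ Icc (0 : ℝ) 1) (j : ℕ)
    {x : ℕ → Pt} (hx : InC x) : InC (prism (cons a) (cons b) j x) := by
  intro i; unfold prism; split_ifs
  exacts [cons_mem_cube ha (hx _), cons_mem_cube hb (hx _)]

theorem II_congr (M n : ℕ) {c c' : Co Pt R} (h : ∀ x, InC x → c x = c' x) :
    II M n c = II M n c' := by
  induction n generalizing c c' with
  | zero => exact h _ fun _ _ => ⟨le_rfl, zero_le_one⟩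
  | succ n ih =>
    refine ih fun x hx => Finset.sum_congr rfl fun k hk => Finset.sum_congr rfl fun j _ => ?_
    rw [h _ (prism_InC_CoB (mesh_CoB hk).1 (mesh_CoB hk).2 j hx)]

theorem PP_dd_CoB {M : ℕ} (hM : 0 < M) (n : ℕ) {c : Co Pt R} (hc : Dg n c) :
    PP M (n + 1) (dd (n + 1) c) = pb (cons 1) c - pb (cons 0) c - dd n (PP M n c) := by
  funext x
  have h1 : dd n (PP M n c) x = ∑ k ∈ Finset.range M,
      dd n (pris (cons ((k : ℝ) / M)) (cons (((k : ℝ) + 1) / M)) n c) x := by
    simp only [dd, PP, Finset.mul_sum]; exact Finset.sum_comm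
  have h2 := Finset.sum_range_sub (fun k : ℕ => c fun j => cons ((k : ℝ) / M) (x j)) M
  have hM' : (M : ℝ) ≠ 0 := by positivity
  rw [div_self hM', Nat.cast_zero, zero_div] at h2
  simp only [Pi.sub_apply, pb]
  rw [h1, ← h2, PP, ← Finset.sum_sub_distrib]
  refine Finset.sum_congr rfl fun k _ => ?_
  have := prism_id_CoB (cons ((k : ℝ) / M)) (cons (((k : ℝ) + 1) / M)) n c hc x
  push_cast
  linear_combination this

theorem PP_dg_CoB (M : ℕ) {n : ℕ} {c : Co Pt R} (hc : Dg (n + 1) c) : Dg n (PP M (n + 1) c) := by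
  intro x y h
  refine Finset.sum_congr rfl fun k _ => Finset.sum_congr rfl fun j hj => ?_
  rw [hc _ (prism _ _ j y) fun i hi => ?_]
  have := Finset.mem_range.1 hj
  unfold prism; split_ifs
  · rw [h i (by omega)]
  · rw [h _ (by omega)]

theorem ins_cons_CoB (i : ℕ) (a b : ℝ) (q : Pt) : ins (i + 1) a (cons b q) = cons b (ins i a q) := by
  funext j; cases j with
  | zero => simp [ins, cons]
  | succ j =>
    simp only [ins, cons, add_lt_add_iff_right, add_left_inj, add_tsub_cancel_right]
    split_ifs with h1 h2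
    · rfl
    · rfl
    · obtain ⟨j, rfl⟩ : ∃ l, j = l + 1 := ⟨j - 1, by omega⟩
      rfl

theorem pb_PP_CoB (M n i : ℕ) (a : ℝ) (c : Co Pt R) :
    pb (ins i a) (PP M n c) = PP M n (pb (ins (i + 1) a) c) := by
  funext x
  simp only [pb, PP, pris]
  refine Finset.sum_congr rfl fun k _ => Finset.sum_congr rfl fun j _ => ?_
  congr 2
  funext l; unfold prism; split_ifs <;> rw [ins_cons_CoB]

theorem stokes {M : ℕ} (hM : 0 < M) (n : ℕ) {c : Co Pt R} (hc : Dg n c) :
    II M (n + 1) (dd (n + 1) c) = ∑ i ∈ Finset.range (n + 1),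
      (-1) ^ i * (II M n (pb (ins i 1) c) - II M n (pb (ins i 0) c)) := by
  induction n generalizing c with
  | zero =>
    rw [II, PP_dd_CoB hM 0 hc, II_sub, II_sub]
    have : PP M 0 c = 0 := by funext x; simp [PP, pris]
    simp [this, dd_zero, II_zero, ins_zero]
  | succ n ih =>
    rw [II, PP_dd_CoB hM _ hc, II_sub, II_sub, ih (PP_dg_CoB M hc)]
    conv_rhs => rw [Finset.sum_range_succ']
    simp only [pb_PP_CoB, ins_zero, II, pow_succ, mul_neg, mul_one, neg_mul, Finset.sum_neg_distrib]
    ring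

theorem II_small_CoB (M n : ℕ) {c : Co Pt R} (h : ∀ x, InC x →
    (∀ a b j, |x a j - x b j| ≤ 1 / M) → c x = 0) : II M n c = 0 := by
  induction n generalizing c with
  | zero => exact h _ (fun _ _ => ⟨le_rfl, zero_le_one⟩) fun _ _ _ => by simp
  | succ n ih =>
    refine ih fun x hx hs => Finset.sum_eq_zero fun k hk => Finset.sum_eq_zero fun j _ => ?_
    rw [h _ (prism_InC_CoB (mesh_CoB hk).1 (mesh_CoB hk).2 j hx) fun a b l => ?_, mul_zero]
    have e : ((k : ℝ) + 1) / M - k / M = 1 / M := by ring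
    have e0 : (0 : ℝ) ≤ 1 / M := by positivity
    cases l with
    | zero =>
      unfold prism; split_ifs <;> simp only [cons]
      · simp
      · rw [abs_sub_comm, e, abs_of_nonneg e0]
      · rw [e, abs_of_nonneg e0]
      · simp
    | succ l => unfold prism; split_ifs <;> exact hs _ _ _

theorem II_lz (n : ℕ) {c : Co Pt R} (h : ∀ q ∈ cube, LZ c (𝓝[cube] q)) :
    ∀ᶠ M in atTop, II M n c = 0 := by
  choose! U hU hc using h
  choose! V hV hVU using fun q hq => mem_nhdsWithin_iff_exists_mem_nhds_inter.1 (hU q hq)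
  have hK : IsCompact cube := by
    have : cube = Set.pi univ fun _ : ℕ => Icc (0 : ℝ) 1 := by
      ext x; exact ⟨fun h i _ => h i, fun h i => h i trivial⟩
    rw [this]; exact isCompact_univ_pi fun _ => isCompact_Icc
  obtain ⟨E, hE, hE'⟩ := lebesgue_number_lemma_nhds' hK (U := fun q _ => V q) hV
  obtain ⟨δ, hδ, hδE⟩ : ∃ δ : ℝ, 0 < δ ∧ ∀ x y : Pt, (∀ j, |x j - y j| ≤ δ) → (x, y) ∈ E := by
    rw [Pi.uniformity] at hE
    clear hE'
    refine iInf_sets_induct (p := fun E => ∃ δ : ℝ, 0 < δ ∧ ∀ x y : Pt,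
      (∀ j, |x j - y j| ≤ δ) → (x, y) ∈ E) hE ⟨1, one_pos, fun _ _ _ => trivial⟩ ?_
    · rintro j s t hs ⟨δ, hδ, ht⟩
      obtain ⟨u, hu, hus⟩ := mem_comap.1 hs
      obtain ⟨ε, hε, hεu⟩ := Metric.mem_uniformity_dist.1 hu
      exact ⟨min δ (ε / 2), by positivity, fun x y h => ⟨hus (hεu (lt_of_le_of_lt
        ((h j).trans (min_le_right _ _)) (half_lt_self hε))),
        ht x y fun l => (h l).trans (min_le_left _ _)⟩⟩
  filter_upwards [(tendsto_const_div_atTop_nhds_zero_nat (1 : ℝ)).eventually (ge_mem_nhds hδ)]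
    with M hM
  refine II_small_CoB M n fun x hx hs => ?_
  obtain ⟨⟨q, hq⟩, hb⟩ := hE' (x 0) (hx 0)
  exact hc q hq x fun j => hVU q hq ⟨hb (hδE _ _ fun l => (hs 0 j l).trans hM), hx j⟩

theorem PP_nm_CoB (M : ℕ) {n : ℕ} {c : Co Pt R} (hc : Nm (n + 1) c) : Nm n (PP M (n + 1) c) := by
  intro x i hi hx
  refine Finset.sum_eq_zero fun k _ => Finset.sum_eq_zero fun j _ => ?_
  by_cases h : i + 1 ≤ j
  · rw [hc _ i (by omega) ?_, mul_zero]
    simp only [prism]; rw [if_pos (by omega), if_pos h, hx]
  · rw [hc _ (i + 1) (by omega) ?_, mul_zero]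
    simp only [prism]; rw [if_neg h, if_neg (by omega)]
    simp [hx]

theorem II_indep (M : ℕ) {n i : ℕ} {c : Co Pt R} (hc : Nm n c) (hi : i < n)
    (h : ∀ x y, InC x → InC y → (∀ a j, j ≠ i → x a j = y a j) → c x = c y) :
    II M n c = 0 := by
  induction n generalizing c i with
  | zero => omega
  | succ n ih =>
    cases i with
    | zero =>
      rw [II, II_congr M n (c' := 0), II_zero]
      intro x hx
      refine Finset.sum_eq_zero fun k hk => Finset.sum_eq_zero fun j hj => ?_
      have hk := mesh_CoB hk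
      rw [h _ _ (prism_InC_CoB hk.1 hk.2 j hx) (prism_InC_CoB hk.1 hk.1 j hx),
        hc _ j (Finset.mem_range.1 hj), mul_zero]
      · simp [prism]
      · intro a l hl
        obtain ⟨l, rfl⟩ : ∃ m, l = m + 1 := ⟨l - 1, by omega⟩
        unfold prism; split_ifs <;> rfl
    | succ i =>
      refine ih (PP_nm_CoB M hc) (i := i) (by omega) fun x y hx hy hxy => ?_
      refine Finset.sum_congr rfl fun k hk => Finset.sum_congr rfl fun j _ => ?_
      have hk := mesh_CoB hk
      rw [h _ _ (prism_InC_CoB hk.1 hk.2 j hx) (prism_InC_CoB hk.1 hk.2 j hy)]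
      intro a l hl
      cases l with
      | zero => unfold prism; split_ifs <;> rfl
      | succ l => unfold prism; split_ifs <;> exact hxy _ l (by omega)

theorem II_prod (M : ℕ) {m n : ℕ} {a b : Co Pt R} (ha : Dg m a) (hb : Nm n b)
    (h : ∀ x y, InC x → InC y → (∀ i j, j < m → x i j = y i j) → a x = a y) :
    II M (n + m) (cup m a (pb (shift m) b)) = II M m a * II M n b := by
  induction m generalizing a with
  | zero =>
    rw [← II_mul]
    refine II_congr M n fun x hx => ?_
    simp only [cup, II]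
    rw [h x _ hx (fun _ _ => ⟨le_rfl, zero_le_one⟩) fun _ _ hj => by omega]
    rfl
  | succ m ih =>
    have e : PP M (n + m + 1) (cup (m + 1) a (pb (shift (m + 1)) b)) =
        cup m (PP M (m + 1) a) (pb (shift m) b) := by
      funext x
      simp only [PP, cup, Finset.sum_mul]
      refine Finset.sum_congr rfl fun k _ => ?_
      simp only [pris, Finset.sum_mul]
      rw [show n + m + 1 = m + 1 + n by omega, Finset.sum_range_add,
        Finset.sum_eq_zero (s := Finset.range n), add_zero]
      · refine Finset.sum_congr rfl fun j hj => ?_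
        have := Finset.mem_range.1 hj
        simp only [cup, pb, mul_assoc]
        congr 3
        funext l
        simp only [shift, prism]
        rw [if_neg (by omega)]; rfl
      · intro j hj
        simp only [cup, pb]
        rw [hb _ j (Finset.mem_range.1 hj), mul_zero, mul_zero]
        simp only [shift, prism]
        rw [if_pos (by omega), if_neg (by omega), show j + 1 + (m + 1) - 1 = j + (m + 1) by omega]
        rfl
    rw [← add_assoc, II, e, II]
    refine ih (PP_dg_CoB M ha) fun x y hx hy hxy => ?_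
    refine Finset.sum_congr rfl fun k hk => Finset.sum_congr rfl fun j _ => ?_
    have hk := mesh_CoB hk
    rw [h _ _ (prism_InC_CoB hk.1 hk.2 j hx) (prism_InC_CoB hk.1 hk.2 j hy)]
    intro i l hl
    cases l with
    | zero => unfold prism; split_ifs <;> rfl
    | succ l => unfold prism; split_ifs <;> exact hxy _ l (by omega)

/-- Homotopy invariance; coordinate `0` is the time. -/
theorem II_homot (m : ℕ) {c : Co Pt R} (hc : Dg m c)
    (h1 : ∀ q ∈ cube, LZ (dd (m + 1) c) (𝓝[cube] q))
    (h2 : ∀ q ∈ cube, ∀ j, j < m → q (j + 1) = 0 ∨ q (j + 1) = 1 → LZ c (𝓝[cube] q)) :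
    ∀ᶠ M in atTop, II M m (pb (cons 1) c) = II M m (pb (cons 0) c) := by
  have key : ∀ j ∈ Finset.range m, ∀ᶠ M in atTop,
      II M m (pb (ins (j + 1) 1) c) = 0 ∧ II M m (pb (ins (j + 1) 0) c) = 0 := by
    intro j hj
    have o : (1 : ℝ) ∈ Icc (0 : ℝ) 1 := ⟨zero_le_one, le_rfl⟩
    have z : (0 : ℝ) ∈ Icc (0 : ℝ) 1 := ⟨le_rfl, zero_le_one⟩
    refine (II_lz m fun q hq => ?_).and (II_lz m fun q hq => ?_)
    · exact (h2 _ (ins_mem_cube _ o hq) j (Finset.mem_range.1 hj) (Or.inr (by simp [ins]))).pb
        (tendsto_ins _ o q)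
    · exact (h2 _ (ins_mem_cube _ z hq) j (Finset.mem_range.1 hj) (Or.inl (by simp [ins]))).pb
        (tendsto_ins _ z q)
  filter_upwards [II_lz (m + 1) h1, (Finset.eventually_all _).2 key, eventually_gt_atTop 0]
    with M e1 e2 hM
  rw [stokes hM m hc, Finset.sum_range_succ', Finset.sum_eq_zero fun j hj => by
    rw [(e2 j hj).1, (e2 j hj).2, sub_self, mul_zero]] at e1
  simpa [ins_zero, sub_eq_zero] using e1

end Pool.Agent.MP_2fc7fa_gt.N
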