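import Pool.Agent.MP_2fc7fa_gt.N.CFace
import Pool.Agent.MP_2fc7fa_gt.N.CSt

/-! The core count. -/

open scoped ComplexConjugate Topology
open Set Complex Filter

noncomputable section

namespace Pool.Agent.MP_2fc7fa_gt.N

theorem orb_Core {f : W → W} (hf : Sol f) (L : LineFamily NN f) {z₀ : W} (h1 : z₀.1 ≠ 0)
    (h2 : z₀.2 ≠ 0) (T δ : ℝ) (σ : ℕ → Zp) (k : Zp) {q : Pt} (hq : q ∈ cube) :
    Orb (Psi L z₀ T δ NN σ k (cons 0 q)).1 fun i => f (aa z₀ T δ k (res 6 q) i) := by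
  intro i g
  rw [← hf.equiv]
  refine L.start _ _ _ ⟨?_, (lst_length _ _).le, shift_mem_cube 6 hq, le_rfl, zero_le_one⟩
    (smul_ne_zero (rt_ne_zero g) (aa_ne_zero h1 h2 T δ k _ i))
  intro h
  have := lst_length NN σ
  rw [h] at this
  simp at this

theorem start_Core {f : W → W} (hf : Sol f) (L : LineFamily NN f) : ∃ z₀ : W, z₀.1 ≠ 0 ∧ z₀.2 ≠ 0 ∧
    ∃ T₁ δ₁ : ℝ, 0 < T₁ ∧ 0 < δ₁ ∧ ∀ T δ : ℝ, T₁ ≤ T → 0 < δ → δ ≤ δ₁ → ∃ s : ℤ,
      (s = 1 ∨ s = -1) ∧ ∀ σ, ∀ᶠ M in atTop, ∑ k : Zp,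
        II M (NN + 6) (pb (ins 0 0) (pb (Psi L z₀ T δ NN σ k) WW)) = s * E0 σ := by
  obtain ⟨z₀, h1, h2, T₁, δ₁, hT₁, hδ₁, H⟩ := start_loc hf
  refine ⟨z₀, h1, h2, T₁, δ₁, hT₁, hδ₁, fun T δ hT hδ hδ' => ?_⟩
  obtain ⟨p₀, s, hs, hp₀, hlz, hval⟩ := H T δ hT hδ hδ'
  refine ⟨s, hs, fun σ => ?_⟩
  have e1 : ∀ k M, II M (NN + 6) (pb (ins 0 0) (pb (Psi L z₀ T δ NN σ k) WW)) =
      II M (NN + 6) (cup 6 (pb (res 6) (omq f z₀ T δ k))
        (pb (fun q => Psi L z₀ T δ NN σ k (cons 0 q)) EE)) := by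
    intro k M
    refine II_congr M _ fun x hx => ?_
    simp only [WW, ins_zero, pb, cup, omq]
    congr 2
    funext j
    exact rho_orb (orb_Core hf L h1 h2 T δ σ k (hx j))
  have e2 : ∀ k ∈ (Finset.univ : Finset Zp).erase 0, ∀ᶠ M in atTop,
      II M (NN + 6) (pb (ins 0 0) (pb (Psi L z₀ T δ NN σ k) WW)) = 0 := by
    intro k hk
    simp only [e1]
    exact II_lz _ fun q hq => ((hlz k _ (res_mem_cubeF 6 hq)
      (Or.inl (Finset.ne_of_mem_erase hk))).pb (tendsto_res 6 q)).cup_left _ _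
  have e3 : ∀ᶠ M in atTop, II M (NN + 6) (cup 6 (pb (res 6) (omq f z₀ T δ 0))
      (pb (fun q => Psi L z₀ T δ NN σ 0 (cons 0 q)) EE) - cup 6 (pb (res 6) (omq f z₀ T δ 0))
      (pb (shift 6) (pb (fun t => σ (idx NN t)) E0))) = 0 := by
    refine II_lz _ fun q hq => ?_
    by_cases h : res 6 q = p₀
    · refine LZ.cup_sub (by rw [sub_self]; exact LZ.zero _) ?_ 6
      have o : ∀ j : Fin 6, {q' : Pt | res 6 q' j < 1} ∈ 𝓝 q := fun j =>
        (isOpen_lt ((continuous_apply j).comp (continuous_res 6)) continuous_const).mem_nhds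
          (show res 6 q j < 1 by rw [h]; exact (hp₀ j).2)
      refine ⟨_, inter_mem_nhdsWithin cube (inter_mem (o 0) (o 1)), fun x hx => ?_⟩
      rw [Pi.sub_apply, sub_eq_zero]
      refine EE_orb (fun a => ⟨_, orb_Core hf L h1 h2 T δ σ 0 (hx a).1⟩) fun a => ?_
      exact (if_neg (hx a).2.1.ne).trans (if_neg (hx a).2.2.ne)
    · have := (hlz 0 _ (res_mem_cubeF 6 hq) (Or.inr h)).pb (tendsto_res 6 q)
      exact (this.cup_left _ _).sub (this.cup_left _ _)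
  filter_upwards [(Finset.eventually_all _).2 e2, e3, hval, eventually_gt_atTop 0]
    with M a2 a3 a4 hM
  rw [← Finset.add_sum_erase _ _ (Finset.mem_univ (0 : Zp)), Finset.sum_eq_zero a2, add_zero, e1]
  rw [II_sub, sub_eq_zero] at a3
  have hdg : Dg 6 (pb (res 6) (omq f z₀ T δ 0)) := (y6_dg.pb _).pb _
  rw [a3, II_prod M hdg (E0_nm.pb _), a4, II_simplex hM NN σ E0_dg E0_nm]
  intro x y _ _ hxy
  simp only [pb]
  congr 1
  funext i j
  exact hxy i j j.2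

theorem core : CoreStmt := by
  intro f hf hL
  obtain ⟨L⟩ := hL NN
  obtain ⟨z₀, h1, h2, T₁, δ₁, hT₁, hδ₁, Hs⟩ := start_Core hf L
  obtain ⟨T₀, HT⟩ := no_hit L h1 h2
  obtain ⟨δ₀, hδ₀, Hn⟩ := HT (max T₀ T₁) (le_max_left _ _)
  set T := max T₀ T₁ with hT
  set δ := min δ₀ δ₁ with hδ
  have δpos : 0 < δ := lt_min hδ₀ hδ₁
  have Tpos : 0 ≤ T := hT₁.le.trans (le_max_right _ _)
  obtain ⟨s, hs, Hv⟩ := Hs T δ (le_max_right _ _) δpos (min_le_right _ _)
  replace Hn := Hn δ δpos (min_le_left _ _)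
  obtain ⟨d, hd⟩ : ∃ d, jl.length = d + 1 := ⟨jl.length - 1, by have := jl_pos; omega⟩
  have hN : NN = (2 * d + 1) + 1 := by rw [NN, hd]; ring
  set c : (ℕ → Zp) → Zp → Co Pt ℤ := fun σ k => pb (Psi L z₀ T δ NN σ k) WW with hc
  set A : ℕ → Co Zp ℤ := fun M σ => ∑ k : Zp,
    II M (NN + 6) (pb (Psi L z₀ T δ (2 * d + 1) σ k) WW) with hA
  have o : (1 : ℝ) ∈ Icc (0 : ℝ) 1 := ⟨zero_le_one, le_rfl⟩
  have z : (0 : ℝ) ∈ Icc (0 : ℝ) 1 := ⟨le_rfl, zero_le_one⟩
  have face : ∀ σ k i a, a ∈ Icc (0 : ℝ) 1 → (∀ q : Pt, q i = a →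
      q 0 = 1 ∨ q 4 = 0 ∨ q 4 = 1 ∨ q 5 = 0 ∨ q 5 = 1 ∨ q 6 = 0 ∨ q 6 = 1) →
      ∀ᶠ M in atTop, II M (NN + 6) (pb (ins i a) (c σ k)) = 0 := by
    intro σ k i a ha h
    refine II_lz _ fun q hq => LZ.pb ?_ (tendsto_ins i ha q)
    have hq' := ins_mem_cube i ha hq
    exact (WW_lz (Psi_rg L h1 h2 Tpos δpos le_rfl σ k hq')
      (Hn σ k _ hq' (h _ (by simp [ins])))).pb (Psi_tendsto L h1 h2 T δ le_rfl σ k hq')
  have key : ∀ σ, ∀ᶠ M in atTop, s * E0 σ = -dd (2 * d + 2) (A M) σ := by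
    intro σ
    have b0 : ∀ k, ∀ᶠ M in atTop, II M (NN + 6 + 1) (dd (NN + 6 + 1) (c σ k)) = 0 := by
      intro k
      refine II_lz _ fun q hq => ?_
      rw [hc, ← pb_dd]
      exact (WW_dd (Psi_rg L h1 h2 Tpos δpos le_rfl σ k hq)).pb
        (Psi_tendsto L h1 h2 T δ le_rfl σ k hq)
    filter_upwards [eventually_all.2 b0, Hv σ, eventually_gt_atTop 0,
      eventually_all.2 fun k => face σ k 0 1 o (by tauto),
      eventually_all.2 fun k => face σ k 4 0 z (by tauto),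
      eventually_all.2 fun k => face σ k 4 1 o (by tauto),
      eventually_all.2 fun k => face σ k 5 0 z (by tauto),
      eventually_all.2 fun k => face σ k 5 1 o (by tauto),
      eventually_all.2 fun k => face σ k 6 0 z (by tauto),
      eventually_all.2 fun k => face σ k 6 1 o (by tauto)]
      with M a0 av hM a01 a40 a41 a50 a51 a60 a61
    have st : ∀ k, (0 : ℤ) = -II M (NN + 6) (pb (ins 0 0) (c σ k)) +
        (II M (NN + 6) (pb (ins 2 1) (c σ k)) - II M (NN + 6) (pb (ins 2 0) (c σ k))) -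
        (II M (NN + 6) (pb (ins 3 1) (c σ k)) - II M (NN + 6) (pb (ins 3 0) (c σ k))) -
        ∑ i ∈ Finset.range (2 * d + 2 + 1), (-1) ^ i *
          II M (NN + 6) (pb (Psi L z₀ T δ (2 * d + 1) (skip i σ) k) WW) := by
      intro k
      have hdg : Dg (NN + 6) (c σ k) := WW_dg.pb _
      rw [← a0 k, stokes hM _ hdg, show NN + 6 + 1 = 7 + (2 * d + 1 + 1) by omega,
        Finset.sum_range_add, Finset.sum_range_succ _ (2 * d + 1),
        Finset.sum_range_succ _ (2 * d + 2), Finset.sum_range_succ _ (2 * d + 1)]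
      have r0 := face_r L h1 h2 T δ M σ k (Or.inl rfl)
      have r1 := face_r L h1 h2 T δ M σ k (Or.inr rfl)
      have t1 : ∑ i ∈ Finset.range (2 * d + 1), (-1 : ℤ) ^ (7 + i) *
          (II M (NN + 6) (pb (ins (7 + i) 1) (c σ k)) - II M (NN + 6) (pb (ins (7 + i) 0) (c σ k))) =
          -∑ i ∈ Finset.range (2 * d + 1), (-1) ^ i *
            II M (NN + 6) (pb (Psi L z₀ T δ (2 * d + 1) (skip i σ) k) WW) := by
        rw [← Finset.sum_neg_distrib]
        refine Finset.sum_congr rfl fun i hi => ?_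
        have hi := Finset.mem_range.1 hi
        rw [hc, face_t1 L h1 h2 T δ M hN hi.le, face_t0 L h1 h2 T δ M hN hi]
        ring
      have t2 := face_t1 L h1 h2 T δ M hN le_rfl σ k
      have t3 := face_last L h1 h2 T δ M hN σ k
      have t4 : Psi L z₀ T δ (2 * d + 1) (skip (2 * d + 2) σ) k = Psi L z₀ T δ (2 * d + 1) σ k :=
        Psi_congr L T δ (fun j hj => if_pos (by omega)) k
      rw [t1, t4]
      simp only [Finset.sum_range_succ, Finset.sum_range_zero, a01, a40, a41, a50, a51, a60, a61]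
      simp only [hc, r0, r1, t2, t3]
      ring
    have s2 : ∑ k : Zp, II M (NN + 6) (pb (ins 2 1) (c σ k)) =
        ∑ k : Zp, II M (NN + 6) (pb (ins 2 0) (c σ k)) := by
      rw [← Equiv.sum_comp (Equiv.addRight 1)]
      exact Finset.sum_congr rfl fun k _ => face_th1 L h1 h2 T δ M σ k
    have s3 : ∑ k : Zp, II M (NN + 6) (pb (ins 3 1) (c σ k)) =
        ∑ k : Zp, II M (NN + 6) (pb (ins 3 0) (c σ k)) := by
      rw [← Equiv.sum_comp (Equiv.addRight 1) fun k => II M (NN + 6) (pb (ins 3 0) (c σ k))]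
      exact Finset.sum_congr rfl fun k _ => face_th2 L h1 h2 T δ M σ k
    have tot := Finset.sum_congr (rfl : (Finset.univ : Finset Zp) = _) fun k _ => st k
    simp only [Finset.sum_sub_distrib, Finset.sum_add_distrib, Finset.sum_neg_distrib, s2, s3,
      Finset.sum_const_zero] at tot
    rw [Finset.sum_comm] at tot
    rw [← av]
    simp only [dd, hA, Finset.mul_sum]
    linear_combination tot
  obtain ⟨M, hM⟩ := (cyc_ev (d + 1) (X := fun _ σ => (s : Zp) * ((E0 σ : ℤ) : Zp))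
    (Y := fun M σ => (-1) * dd (2 * d + 2) (fun τ => ((A M τ : ℤ) : Zp)) σ) fun σ => by
      filter_upwards [key σ] with M hM
      have := congrArg (Int.cast : ℤ → Zp) hM
      simp only [dd] at this ⊢
      push_cast at this ⊢
      linear_combination this).exists
  rw [cyc_mul, cyc_mul, cyc_dd, mul_zero, ← hd] at hM
  · refine cyc_E0 ?_
    rcases hs with rfl | rfl <;> simpa using hM
  · intro x y h
    simp only [hA, Psi_congr L T δ h]
  · intro k σ
    simp only [hA, face_inv L h1 h2 T δ M (show 2 * d + 1 ≤ NN by omega)]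

end Pool.Agent.MP_2fc7fa_gt.N
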