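import Pool.Agent.MP_2fc7fa_gt.N.IfB

/-! The difference quotient of a solution of the Cauchy-Riemann equation. -/

open scoped ContDiff ComplexConjugate Topology
open Set Complex Filter Metric

noncomputable section

namespace Pool.Agent.MP_2fc7fa_gt.N

/-- The derivative in the coframe. -/
def tau_Cusp (A : W → W →L[ℝ] W) (u : ℂ → W) (z : ℂ) : W := A (u z) (fderiv ℝ u z 1)

/-- The difference quotient in the coframe at the first point. -/
def dq_Cusp (A : W → W →L[ℝ] W) (u : ℂ → W) (q : W) : W :=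
  if q.2 = q.1 then tau_Cusp A u q.1 else (q.2 - q.1)⁻¹ • A (u q.1) (u q.2 - u q.1)

theorem lin_Cusp {A : W → W →L[ℝ] W} {u : ℂ → W} {O : Set ℂ} (h : CR A u O) {z : ℂ} (hz : z ∈ O)
    (c : ℂ) : A (u z) (fderiv ℝ u z c) = c • tau_Cusp A u z := by
  have hc : c = c.re • (1 : ℂ) + c.im • I := by
    simp [Complex.re_add_im]
  have h1 := h z hz
  conv_lhs => rw [hc]
  rw [map_add, map_smul, map_smul, map_add, map_smul, map_smul, h1]
  unfold tau_Cusp
  conv_rhs => rw [hc]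
  rw [add_smul, smul_assoc, smul_assoc, one_smul]

theorem low_Cusp (A : W → W →L[ℝ] W) (Ω K : Set W) (hA : Cofr A Ω) (hK : IsCompact K)
    (hKΩ : K ⊆ Ω) : ∃ C : ℝ, 0 ≤ C ∧ ∀ p ∈ K, ∀ v : W, ‖v‖ ≤ C * ‖A p v‖ := by
  have hc : ContinuousOn (fun q : W × W => ‖A q.1 q.2‖) (K ×ˢ sphere (0 : W) 1) := by
    have h1 : ContinuousOn (fun q : W × W => A q.1) (K ×ˢ sphere (0 : W) 1) :=
      hA.2.1.continuousOn.comp continuous_fst.continuousOn (fun q hq => hKΩ hq.1)
    exact (h1.clm_apply continuous_snd.continuousOn).norm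
  obtain ⟨a, ha, hle⟩ := (hK.prod (isCompact_sphere (0 : W) 1)).exists_forall_le' hc (a := 0) (by
    rintro ⟨p, v⟩ ⟨hp, hv⟩
    have hv' : ‖v‖ = 1 := by simpa using hv
    refine norm_pos_iff.2 (fun h0 => ?_)
    have : v = 0 := hA.2.2 p (hKΩ hp) (by simpa using h0)
    rw [this] at hv'
    simp at hv')
  refine ⟨a⁻¹, by positivity, fun p hp v => ?_⟩
  rcases eq_or_ne v 0 with rfl | hv
  · simp
  · have hn : 0 < ‖v‖ := norm_pos_iff.2 hv
    have hs : (‖v‖⁻¹ • v) ∈ sphere (0 : W) 1 := by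
      simp [norm_smul, hn.ne']
    have h1 := hle (p, ‖v‖⁻¹ • v) ⟨hp, hs⟩
    simp only [map_smul, norm_smul, norm_inv, norm_norm] at h1
    rw [inv_mul_eq_div, le_div_iff₀ hn] at h1
    rw [inv_mul_eq_div, le_div_iff₀ ha]
    linarith

/-- Mean value inequality for the comparison of two maps. -/
theorem mv_Cusp {E : Type} [NormedAddCommGroup E] [NormedSpace ℝ E] (L L' : W →L[ℝ] E)
    {u u' : ℂ → W} {S : Set ℂ} {e : ℝ} (hS : Convex ℝ S) (he : 0 ≤ e)
    (hu : ∀ s ∈ S, DifferentiableAt ℝ u s) (hu' : ∀ s ∈ S, DifferentiableAt ℝ u' s)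
    (h : ∀ s ∈ S, ∀ c, ‖L (fderiv ℝ u s c) - L' (fderiv ℝ u' s c)‖ ≤ e * ‖c‖) {s s' : ℂ}
    (hs : s ∈ S) (hs' : s' ∈ S) : ‖L (u s - u s') - L' (u' s - u' s')‖ ≤ e * ‖s - s'‖ := by
  have hd : ∀ t ∈ S, HasFDerivWithinAt (fun t => L (u t) - L' (u' t))
      (L.comp (fderiv ℝ u t) - L'.comp (fderiv ℝ u' t)) S t := fun t ht =>
    ((L.hasFDerivAt.comp t (hu t ht).hasFDerivAt).sub
      (L'.hasFDerivAt.comp t (hu' t ht).hasFDerivAt)).hasFDerivWithinAt
  have hb : ∀ t ∈ S, ‖L.comp (fderiv ℝ u t) - L'.comp (fderiv ℝ u' t)‖ ≤ e := fun t ht =>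
    ContinuousLinearMap.opNorm_le_bound _ he (fun c => h t ht c)
  have := hS.norm_image_sub_le_of_norm_hasFDerivWithin_le hd hb hs' hs
  have e1 : L (u s - u s') - L' (u' s - u' s') = L (u s) - L' (u' s) - (L (u s') - L' (u' s')) := by
    rw [map_sub, map_sub]; abel
  rw [e1]
  exact this

theorem dq_close_Cusp {A A' : W → W →L[ℝ] W} {u u' : ℂ → W} {S : Set ℂ} {e : ℝ} (hS : Convex ℝ S)
    (he : 0 ≤ e) (hu : ∀ s ∈ S, DifferentiableAt ℝ u s) (hu' : ∀ s ∈ S, DifferentiableAt ℝ u' s)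
    {q : W} (h1 : q.1 ∈ S) (h2 : q.2 ∈ S)
    (h : ∀ s ∈ S, ∀ c, ‖A (u q.1) (fderiv ℝ u s c) - A' (u' q.1) (fderiv ℝ u' s c)‖ ≤ e * ‖c‖) :
    ‖dq_Cusp A u q - dq_Cusp A' u' q‖ ≤ e := by
  unfold dq_Cusp
  split_ifs with hq
  · simpa [tau_Cusp] using h q.1 h1 1
  · have hne : q.2 - q.1 ≠ 0 := sub_ne_zero.2 hq
    have hpos : 0 < ‖q.2 - q.1‖ := norm_pos_iff.2 hne
    rw [← smul_sub, norm_smul, norm_inv, inv_mul_le_iff₀ hpos, mul_comm]
    exact mv_Cusp _ _ hS he hu hu' h h2 h1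

theorem fd_lin_Cusp (t : W) (z c : ℂ) : fderiv ℝ (fun s : ℂ => s • t) z c = c • t := by
  have : HasFDerivAt (fun s : ℂ => s • t) ((ContinuousLinearMap.id ℝ ℂ).smulRight t) z :=
    ((ContinuousLinearMap.id ℝ ℂ).smulRight t).hasFDerivAt
  rw [this.fderiv]
  rfl

theorem dq_lin_Cusp (t : W) (q : W) :
    dq_Cusp (fun _ => ContinuousLinearMap.id ℝ W) (fun s => s • t) q = t := by
  unfold dq_Cusp tau_Cusp
  split_ifs with hq
  · simp [fd_lin_Cusp]
  · have hne : q.2 - q.1 ≠ 0 := sub_ne_zero.2 hq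
    simp only [ContinuousLinearMap.id_apply]
    rw [← sub_smul, smul_smul, inv_mul_cancel₀ hne, one_smul]

theorem mem_ball_Cusp {r : ℝ} {q : W} (hq : q ∈ ball (0 : W) r) :
    q.1 ∈ ball (0 : ℂ) r ∧ q.2 ∈ ball (0 : ℂ) r := by
  simp only [mem_ball_zero_iff] at hq ⊢
  exact ⟨(norm_fst_le q).trans_lt hq, (norm_snd_le q).trans_lt hq⟩

theorem dq_cont_Cusp {A : W → W →L[ℝ] W} {Ω : Set W} {u : ℂ → W} {r : ℝ} (hA : Cofr A Ω)
    (hu : ContDiffOn ℝ 1 u (ball 0 r)) (hm : MapsTo u (ball 0 r) Ω) (hCR : CR A u (ball 0 r)) :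
    ContinuousOn (dq_Cusp A u) (ball 0 r) := by
  intro q hq
  obtain ⟨h1, h2⟩ := mem_ball_Cusp hq
  have hcu : ∀ z ∈ ball (0 : ℂ) r, ContinuousAt u z := fun z hz =>
    hu.continuousOn.continuousAt (isOpen_ball.mem_nhds hz)
  have hcA : ∀ z ∈ ball (0 : ℂ) r, ContinuousAt (fun t => A (u t)) z := fun z hz =>
    ContinuousAt.comp (hA.2.1.continuousOn.continuousAt (hA.1.mem_nhds (hm hz))) (hcu z hz)
  refine ContinuousAt.continuousWithinAt ?_
  have a1 : ContinuousAt (fun p : W => A (u p.1)) q := (hcA _ h1).comp continuousAt_fst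
  by_cases hq' : q.2 = q.1
  · have hcd : ContinuousAt (fderiv ℝ u) q.2 :=
      (hu.continuousOn_fderiv_of_isOpen isOpen_ball le_rfl).continuousAt (isOpen_ball.mem_nhds h2)
    have a2 : ContinuousAt (fun p : W => (A (u p.1)).comp (fderiv ℝ u p.2)) q :=
      a1.clm_comp (hcd.comp continuousAt_snd)
    rw [Metric.continuousAt_iff]
    intro e he
    obtain ⟨d, hd, hde⟩ := Metric.continuousAt_iff.1 a2 (e / 2) (by positivity)
    obtain ⟨d', hd', hsub⟩ := Metric.isOpen_iff.1 isOpen_ball q.1 h1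
    refine ⟨min d d', lt_min hd hd', fun p hp => ?_⟩
    have hdif : ∀ s ∈ ball q.1 (min d d'), DifferentiableAt ℝ u s := fun s hs =>
      (hu.contDiffAt (isOpen_ball.mem_nhds (hsub (ball_subset_ball (min_le_right _ _) hs)))
        ).differentiableAt one_ne_zero
    have hp1 : dist p.1 q.1 < min d d' := (le_max_left _ _).trans_lt hp
    have hp2 : dist p.2 q.1 < min d d' := by
      rw [← hq']; exact (le_max_right _ _).trans_lt hp
    have key := dq_close_Cusp (A := A) (A' := fun _ => ContinuousLinearMap.id ℝ W) (u := u)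
      (u' := fun s => s • tau_Cusp A u q.1) (e := e / 2) (convex_ball q.1 (min d d'))
      (by positivity) hdif (fun s _ => by fun_prop) (q := p) hp1 hp2 (by
        intro s hs c
        have hs' : dist ((p.1, s) : W) q < d := by
          rw [Prod.dist_eq]
          refine max_lt (hp1.trans_le (min_le_left _ _)) ?_
          rw [hq']
          exact (mem_ball.1 hs).trans_le (min_le_left _ _)
        have b1 := hde hs'
        rw [dist_eq_norm] at b1
        have b2 := (((A (u p.1)).comp (fderiv ℝ u s) -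
          (A (u q.1)).comp (fderiv ℝ u q.2)).le_opNorm c).trans
          (mul_le_mul_of_nonneg_right b1.le (norm_nonneg c))
        rw [fd_lin_Cusp, ContinuousLinearMap.id_apply, ← lin_Cusp hCR h1]
        rw [hq'] at b2
        simpa using b2)
    rw [dq_lin_Cusp] at key
    have e0 : dq_Cusp A u q = tau_Cusp A u q.1 := if_pos hq'
    rw [dist_eq_norm, e0]
    linarith
  · have hev : ∀ᶠ p : W in 𝓝 q, p.2 ≠ p.1 :=
      (isOpen_ne_fun continuous_snd continuous_fst).mem_nhds hq'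
    have a3 : ContinuousAt (fun p : W => (p.2 - p.1)⁻¹ • A (u p.1) (u p.2 - u p.1)) q := by
      refine ContinuousAt.smul ((continuousAt_snd.sub continuousAt_fst).inv₀ (sub_ne_zero.2 hq')) ?_
      exact a1.clm_apply (((hcu _ h2).comp continuousAt_snd).sub ((hcu _ h1).comp continuousAt_fst))
    refine a3.congr (hev.mono fun p hp => ?_)
    exact (if_neg hp).symm

theorem dq_ne_Cusp {A : W → W →L[ℝ] W} {Ω : Set W} {u : ℂ → W} {r : ℝ} (hA : Cofr A Ω)
    (hm : MapsTo u (ball 0 r) Ω) (hi : InjOn u (ball 0 r))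
    (hd : ∀ z ∈ ball (0 : ℂ) r, fderiv ℝ u z 1 ≠ 0) {q : W} (hq : q ∈ ball (0 : W) r) :
    dq_Cusp A u q ≠ 0 := by
  obtain ⟨h1, h2⟩ := mem_ball_Cusp hq
  have hinj := hA.2.2 _ (hm h1)
  unfold dq_Cusp tau_Cusp
  split_ifs with hq'
  · exact fun h => hd _ h1 (hinj (by rw [h, map_zero]))
  · intro h
    rcases smul_eq_zero.1 h with h | h
    · exact hq' (sub_eq_zero.1 (inv_eq_zero.1 h))
    · have : u q.2 - u q.1 = 0 := hinj (by rw [h, map_zero])
      exact hq' (hi h2 h1 (sub_eq_zero.1 this))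

/-- The difference quotients of a convergent sequence converge uniformly. -/
theorem dq_conv_Cusp {A : W → W →L[ℝ] W} {An : ℕ → W → W →L[ℝ] W} {Ω : Set W} {u : ℂ → W}
    {un : ℕ → ℂ → W} {r ρ e : ℝ} (hA : Cofr A Ω) (hAn : TendstoLocallyUniformlyOn An A atTop Ω)
    (hρ : ρ < r) (he : 0 < e) (hu : ContDiffOn ℝ 1 u (ball 0 r)) (hm : MapsTo u (ball 0 r) Ω)
    (hun : ∀ n, ContDiffOn ℝ 1 (un n) (ball 0 r))
    (h0 : TendstoUniformlyOn un u atTop (ball 0 r))
    (h1 : TendstoUniformlyOn (fun n => fderiv ℝ (un n)) (fderiv ℝ u) atTop (ball 0 r)) :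
    ∃ n, ∀ q ∈ closedBall (0 : W) ρ, ‖dq_Cusp (An n) (un n) q - dq_Cusp A u q‖ ≤ e := by
  have hsub : closedBall (0 : ℂ) ρ ⊆ ball 0 r := closedBall_subset_ball hρ
  have hK0 : IsCompact (u '' closedBall 0 ρ) :=
    (isCompact_closedBall 0 ρ).image_of_continuousOn (hu.continuousOn.mono hsub)
  have hK0Ω : u '' closedBall 0 ρ ⊆ Ω := by
    rintro _ ⟨z, hz, rfl⟩
    exact hm (hsub hz)
  obtain ⟨d, hd, hdΩ⟩ := hK0.exists_cthickening_subset_open hA.1 hK0Ω
  set K := cthickening d (u '' closedBall 0 ρ)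
  have hK : IsCompact K := hK0.cthickening
  have hAK : ContinuousOn A K := hA.2.1.continuousOn.mono hdΩ
  obtain ⟨M1, hM1⟩ := hK.exists_bound_of_continuousOn hAK
  obtain ⟨M2, hM2⟩ := (isCompact_closedBall (0 : ℂ) ρ).exists_bound_of_continuousOn
    ((hu.continuousOn_fderiv_of_isOpen isOpen_ball le_rfl).mono hsub)
  set t := min 1 (e / (2 * (|M1| + |M2| + 1) + 1)) with ht
  have ht0 : 0 < t := lt_min one_pos (by positivity)
  have ht1 : t ≤ 1 := min_le_left _ _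
  have ht2 : t * (2 * (|M1| + |M2| + 1) + 1) ≤ e :=
    (le_div_iff₀ (by positivity)).1 (min_le_right _ _)
  obtain ⟨d', hd', hunif⟩ := Metric.uniformContinuousOn_iff.1
    (hK.uniformContinuousOn_of_continuous hAK) t ht0
  have c1 := Metric.tendstoUniformlyOn_iff.1
    ((tendstoLocallyUniformlyOn_iff_tendstoUniformlyOn_of_compact hK).1 (hAn.mono hdΩ)) t ht0
  have c2 := Metric.tendstoUniformlyOn_iff.1 h0 (min d d') (lt_min hd hd')
  have c3 := Metric.tendstoUniformlyOn_iff.1 h1 t ht0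
  obtain ⟨n, n1, n2, n3⟩ := (c1.and (c2.and c3)).exists
  refine ⟨n, fun q hq => ?_⟩
  have q1 : q.1 ∈ closedBall (0 : ℂ) ρ := by
    simp only [mem_closedBall_zero_iff] at hq ⊢
    exact (norm_fst_le q).trans hq
  have q2 : q.2 ∈ closedBall (0 : ℂ) ρ := by
    simp only [mem_closedBall_zero_iff] at hq ⊢
    exact (norm_snd_le q).trans hq
  refine dq_close_Cusp (convex_closedBall 0 ρ) he.le
    (fun s hs => ((hun n).contDiffAt (isOpen_ball.mem_nhds (hsub hs))).differentiableAt one_ne_zero)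
    (fun s hs => (hu.contDiffAt (isOpen_ball.mem_nhds (hsub hs))).differentiableAt one_ne_zero)
    q1 q2 fun s hs c => ?_
  have k1 : u q.1 ∈ K := self_subset_cthickening _ ⟨_, q1, rfl⟩
  have d1 := n2 _ (hsub q1)
  have k2 : un n q.1 ∈ K := by
    refine mem_cthickening_of_dist_le _ (u q.1) _ _ ⟨_, q1, rfl⟩ ?_
    rw [dist_comm]
    exact (d1.trans_le (min_le_left _ _)).le
  have b1 : ‖An n (un n q.1) - A (un n q.1)‖ ≤ t := by
    rw [norm_sub_rev, ← dist_eq_norm]; exact (n1 _ k2).le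
  have b2 : ‖A (un n q.1) - A (u q.1)‖ ≤ t := by
    rw [norm_sub_rev, ← dist_eq_norm]
    exact (hunif _ k1 _ k2 (d1.trans_le (min_le_right _ _))).le
  have b3 : ‖fderiv ℝ (un n) s - fderiv ℝ u s‖ ≤ t := by
    rw [norm_sub_rev, ← dist_eq_norm]; exact (n3 _ (hsub hs)).le
  have b4 : ‖An n (un n q.1) - A (u q.1)‖ ≤ 2 * t := by
    have := norm_sub_le_norm_sub_add_norm_sub (An n (un n q.1)) (A (un n q.1)) (A (u q.1))
    linarith
  have b5 : ‖fderiv ℝ (un n) s‖ ≤ |M2| + 1 := by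
    have := norm_le_norm_add_norm_sub' (fderiv ℝ (un n) s) (fderiv ℝ u s)
    have := (hM2 s hs).trans (le_abs_self _)
    linarith
  have b6 : ‖A (u q.1)‖ ≤ |M1| := (hM1 _ k1).trans (le_abs_self _)
  have e1 : An n (un n q.1) (fderiv ℝ (un n) s c) - A (u q.1) (fderiv ℝ u s c) =
      (An n (un n q.1) - A (u q.1)) (fderiv ℝ (un n) s c) +
        A (u q.1) ((fderiv ℝ (un n) s - fderiv ℝ u s) c) := by
    simp
  have b7 : ‖(An n (un n q.1) - A (u q.1)) (fderiv ℝ (un n) s c)‖ ≤ 2 * t * ((|M2| + 1) * ‖c‖) :=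
    (ContinuousLinearMap.le_opNorm _ _).trans (mul_le_mul b4
      ((ContinuousLinearMap.le_opNorm _ _).trans (mul_le_mul_of_nonneg_right b5 (norm_nonneg _)))
      (norm_nonneg _) (by positivity))
  have b8 : ‖A (u q.1) ((fderiv ℝ (un n) s - fderiv ℝ u s) c)‖ ≤ |M1| * (t * ‖c‖) :=
    (ContinuousLinearMap.le_opNorm _ _).trans (mul_le_mul b6
      ((ContinuousLinearMap.le_opNorm _ _).trans (mul_le_mul_of_nonneg_right b3 (norm_nonneg _)))
      (norm_nonneg _) (by positivity))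
  rw [e1]
  refine (norm_add_le _ _).trans ((add_le_add b7 b8).trans ?_)
  have : 2 * t * ((|M2| + 1) * ‖c‖) + |M1| * (t * ‖c‖) = (t * (2 * (|M2| + 1) + |M1|)) * ‖c‖ := by
    ring
  rw [this]
  refine mul_le_mul_of_nonneg_right (le_trans ?_ ht2) (norm_nonneg _)
  have := abs_nonneg M1
  exact mul_le_mul_of_nonneg_left (by linarith) ht0.le

end Pool.Agent.MP_2fc7fa_gt.N
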