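import Pool.Agent.MP_2fc7fa_gt.N.CuspA

/-! The leading term of a solution of the Cauchy-Riemann equation at a critical point. -/

open scoped ContDiff ComplexConjugate Topology
open Set Complex Filter Metric

noncomputable section

namespace Pool.Agent.MP_2fc7fa_gt.N

/-- A smooth solution on a disc. -/
structure Sm_Cusp (A : W → W →L[ℝ] W) (Ω : Set W) (u : ℂ → W) (r : ℝ) : Prop where
  cofr : Cofr A Ω
  pos : 0 < r
  sm : ContDiffOn ℝ ∞ u (ball 0 r)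
  maps : MapsTo u (ball 0 r) Ω
  cr : CR A u (ball 0 r)

variable {A : W → W →L[ℝ] W} {Ω : Set W} {u : ℂ → W} {r : ℝ}

theorem Sm_Cusp.uAt (h : Sm_Cusp A Ω u r) {z : ℂ} (hz : z ∈ ball (0 : ℂ) r) :
    ContDiffAt ℝ ∞ u z := h.sm.contDiffAt (isOpen_ball.mem_nhds hz)

theorem Sm_Cusp.AAt (h : Sm_Cusp A Ω u r) {z : ℂ} (hz : z ∈ ball (0 : ℂ) r) :
    ContDiffAt ℝ ∞ A (u z) := h.cofr.2.1.contDiffAt (h.cofr.1.mem_nhds (h.maps hz))

theorem Sm_Cusp.duAt (h : Sm_Cusp A Ω u r) {z : ℂ} (hz : z ∈ ball (0 : ℂ) r) :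
    ContDiffAt ℝ ∞ (fderiv ℝ u) z := (h.uAt hz).fderiv_right (m := ∞) (by simp)

theorem Sm_Cusp.tauAt (h : Sm_Cusp A Ω u r) {z : ℂ} (hz : z ∈ ball (0 : ℂ) r) :
    ContDiffAt ℝ ∞ (tau_Cusp A u) z :=
  ((h.AAt hz).comp z (h.uAt hz)).clm_apply ((h.duAt hz).clm_apply contDiffAt_const)

theorem Sm_Cusp.dbar_tau (h : Sm_Cusp A Ω u r) {z : ℂ} (hz : z ∈ ball (0 : ℂ) r) :
    dbar (tau_Cusp A u) z = (I / 2) • (fderiv ℝ A (u z) (fderiv ℝ u z I) (fderiv ℝ u z 1) -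
      fderiv ℝ A (u z) (fderiv ℝ u z 1) (fderiv ℝ u z I)) := by
  have hA : HasFDerivAt (fun t => A (u t)) ((fderiv ℝ A (u z)).comp (fderiv ℝ u z)) z :=
    ((h.AAt hz).differentiableAt (by simp)).hasFDerivAt.comp z
      ((h.uAt hz).differentiableAt (by simp)).hasFDerivAt
  have hD : HasFDerivAt (fderiv ℝ u) (fderiv ℝ (fderiv ℝ u) z) z :=
    ((h.duAt hz).differentiableAt (by simp)).hasFDerivAt
  have hT : ∀ c k : ℂ, fderiv ℝ (fun t => A (u t) (fderiv ℝ u t c)) z k =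
      fderiv ℝ A (u z) (fderiv ℝ u z k) (fderiv ℝ u z c) +
        A (u z) (fderiv ℝ (fderiv ℝ u) z k c) := by
    intro c k
    have h1 := hD.clm_apply (hasFDerivAt_const c z)
    rw [(hA.clm_apply h1).fderiv]
    simp [add_comm]
  have hsymm : fderiv ℝ (fderiv ℝ u) z 1 I = fderiv ℝ (fderiv ℝ u) z I 1 :=
    ((h.uAt hz).isSymmSndFDerivAt (by simpa using WithTop.coe_le_coe.2 (le_top : (2 : ℕ∞) ≤ ⊤))) 1 I
  have hev : (fun t => A (u t) (fderiv ℝ u t I)) =ᶠ[𝓝 z] fun t => I • tau_Cusp A u t :=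
    Filter.eventually_of_mem (isOpen_ball.mem_nhds hz) fun t ht => lin_Cusp h.cr ht I
  have hτ : DifferentiableAt ℝ (tau_Cusp A u) z := (h.tauAt hz).differentiableAt (by simp)
  have e1 : fderiv ℝ (fun t => A (u t) (fderiv ℝ u t I)) z 1 = I • fderiv ℝ (tau_Cusp A u) z 1 := by
    rw [hev.fderiv_eq, (hτ.hasFDerivAt.fun_const_smul I).fderiv]
    rfl
  have e2 : fderiv ℝ (tau_Cusp A u) z I = _ := hT 1 I
  rw [hT I 1, hsymm] at e1
  have e3 : fderiv ℝ (tau_Cusp A u) z 1 = (-I) • (I • fderiv ℝ (tau_Cusp A u) z 1) := by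
    rw [smul_smul]; simp
  unfold dbar
  rw [e3, ← e1, e2]
  module

/-- Uniform bounds on a smaller closed disc. -/
theorem Sm_Cusp.bounds (h : Sm_Cusp A Ω u r) {ρ : ℝ} (hρ : ρ < r) : ∃ C : ℝ, 0 < C ∧
    ∀ z : ℂ, ‖z‖ ≤ ρ → (∀ v, ‖v‖ ≤ C * ‖A (u z) v‖) ∧ ‖fderiv ℝ A (u z)‖ ≤ C ∧
      ‖fderiv ℝ u z‖ ≤ C ∧ ‖A (u z)‖ ≤ C ∧ ‖u z‖ ≤ C := by
  have hsub : closedBall (0 : ℂ) ρ ⊆ ball 0 r := closedBall_subset_ball hρ
  have hK : IsCompact (u '' closedBall 0 ρ) :=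
    (isCompact_closedBall 0 ρ).image_of_continuousOn (h.sm.continuousOn.mono hsub)
  have hKΩ : u '' closedBall 0 ρ ⊆ Ω := by
    rintro _ ⟨z, hz, rfl⟩
    exact h.maps (hsub hz)
  obtain ⟨C0, hC0, h0⟩ := low_Cusp A Ω _ h.cofr hK hKΩ
  obtain ⟨C1, h1⟩ : ∃ C1 : ℝ, ∀ p ∈ u '' closedBall 0 ρ, ‖fderiv ℝ A p‖ ≤ C1 :=
    IsCompact.exists_bound_of_continuousOn (E := W →L[ℝ] W →L[ℝ] W) hK
      ((h.cofr.2.1.continuousOn_fderiv_of_isOpen h.cofr.1 (by simp)).mono hKΩ)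
  obtain ⟨C2, h2⟩ := (isCompact_closedBall (0 : ℂ) ρ).exists_bound_of_continuousOn
    ((h.sm.continuousOn_fderiv_of_isOpen isOpen_ball (by simp)).mono hsub)
  obtain ⟨C3, h3⟩ := hK.exists_bound_of_continuousOn (h.cofr.2.1.continuousOn.mono hKΩ)
  obtain ⟨C4, h4⟩ := (isCompact_closedBall (0 : ℂ) ρ).exists_bound_of_continuousOn
    (h.sm.continuousOn.mono hsub)
  have p1 := abs_nonneg C1
  have p2 := abs_nonneg C2
  have p3 := abs_nonneg C3
  have p4 := abs_nonneg C4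
  refine ⟨C0 + |C1| + |C2| + |C3| + |C4| + 1, by positivity, fun z hz => ?_⟩
  have hz' : z ∈ closedBall (0 : ℂ) ρ := mem_closedBall_zero_iff.2 hz
  refine ⟨fun v => (h0 _ ⟨z, hz', rfl⟩ v).trans
    (mul_le_mul_of_nonneg_right (by linarith) (norm_nonneg _)), ?_, ?_, ?_, ?_⟩
  · have := (h1 _ ⟨z, hz', rfl⟩).trans (le_abs_self _); linarith
  · have := (h2 _ hz').trans (le_abs_self _); linarith
  · have := (h3 _ ⟨z, hz', rfl⟩).trans (le_abs_self _); linarith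
  · have := (h4 _ hz').trans (le_abs_self _); linarith

theorem Sm_Cusp.lead (h : Sm_Cusp A Ω u r) (hW : HWStmt) (hi : InjOn u (ball 0 r))
    (h0 : fderiv ℝ u 0 1 = 0) : ∃ (m : ℕ) (a : W), 1 ≤ m ∧ a ≠ 0 ∧
      Tendsto (fun z => (z ^ m)⁻¹ • tau_Cusp A u z) (𝓝[≠] 0) (𝓝 a) := by
  have hr := h.pos
  obtain ⟨C, hC, hb⟩ := h.bounds (ρ := r / 2) (by linarith)
  have hsub : ball (0 : ℂ) (r / 2) ⊆ ball 0 r := ball_subset_ball (by linarith)
  have key := hW W (tau_Cusp A u) 0 (r / 2) (C * C * C) (C * C) (by positivity)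
    (fun z hz => ((h.tauAt (hsub hz.1)).of_le (by simp)).contDiffWithinAt) (by
      intro z hz
      obtain ⟨b0, b1, b2, b3, -⟩ := hb z (mem_ball_zero_iff.1 hz.1).le
      have u1 : ‖fderiv ℝ u z 1‖ ≤ C := by simpa using ((fderiv ℝ u z).le_opNorm 1).trans (by simpa)
      have uI : ‖fderiv ℝ u z I‖ ≤ C := by simpa using ((fderiv ℝ u z).le_opNorm I).trans (by simpa)
      have u2 : ‖fderiv ℝ u z 1‖ ≤ C * ‖tau_Cusp A u z‖ := b0 _
      refine ⟨((A (u z)).le_opNorm _).trans (mul_le_mul b3 u1 (norm_nonneg _) hC.le), ?_⟩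
      rw [h.dbar_tau (hsub hz.1), norm_smul]
      have t1 : ‖fderiv ℝ A (u z) (fderiv ℝ u z I) (fderiv ℝ u z 1)‖ ≤
          C * C * (C * ‖tau_Cusp A u z‖) :=
        ((fderiv ℝ A (u z)).le_opNorm₂ _ _).trans
          (mul_le_mul (mul_le_mul b1 uI (norm_nonneg _) hC.le) u2 (norm_nonneg _) (by positivity))
      have t2 : ‖fderiv ℝ A (u z) (fderiv ℝ u z 1) (fderiv ℝ u z I)‖ ≤
          C * (C * ‖tau_Cusp A u z‖) * C :=
        ((fderiv ℝ A (u z)).le_opNorm₂ _ _).trans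
          (mul_le_mul (mul_le_mul b1 u2 (norm_nonneg _) hC.le) uI (norm_nonneg _) (by positivity))
      have t3 := norm_sub_le (fderiv ℝ A (u z) (fderiv ℝ u z I) (fderiv ℝ u z 1))
        (fderiv ℝ A (u z) (fderiv ℝ u z 1) (fderiv ℝ u z I))
      have t4 : ‖I / 2‖ = 1 / 2 := by simp
      rw [t4]
      nlinarith)
  rcases key with key | ⟨m, a, ha, key⟩
  · exfalso
    obtain ⟨d, hd, hdz⟩ := Metric.eventually_nhds_iff.1 (eventually_nhdsWithin_iff.1 key)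
    set e := min d r / 4 with he
    have he0 : 0 < e := by positivity
    have hed : 4 * e ≤ d := by have := min_le_left d r; linarith
    have her : 4 * e ≤ r := by have := min_le_right d r; linarith
    have hin : ∀ z ∈ closedBall ((2 * e : ℝ) : ℂ) e, ‖z‖ ≤ 3 * e ∧ z ≠ 0 := by
      intro z hz
      rw [mem_closedBall, dist_eq_norm] at hz
      have n2 : ‖((2 * e : ℝ) : ℂ)‖ = 2 * e := by
        rw [Complex.norm_real, Real.norm_eq_abs, abs_of_pos (by linarith)]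
      refine ⟨?_, ?_⟩
      · have := norm_le_norm_add_norm_sub' z ((2 * e : ℝ) : ℂ)
        linarith
      · rintro rfl
        rw [zero_sub, norm_neg, n2] at hz
        linarith
    have hbl : ∀ z ∈ closedBall ((2 * e : ℝ) : ℂ) e, z ∈ ball (0 : ℂ) r := fun z hz =>
      mem_ball_zero_iff.2 (by have := (hin z hz).1; linarith)
    have hz1 : ((2 * e : ℝ) : ℂ) ∈ closedBall ((2 * e : ℝ) : ℂ) e := mem_closedBall_self he0.le
    have hz2 : ((3 * e : ℝ) : ℂ) ∈ closedBall ((2 * e : ℝ) : ℂ) e := by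
      rw [mem_closedBall, dist_eq_norm, ← Complex.ofReal_sub, Complex.norm_real, Real.norm_eq_abs,
        abs_of_pos (by linarith)]
      linarith
    have hmv := (convex_closedBall ((2 * e : ℝ) : ℂ) e).norm_image_sub_le_of_norm_fderiv_le
      (𝕜 := ℝ) (f := u) (C := 0)
      (fun z hz => (h.uAt (hbl z hz)).differentiableAt (by simp)) (by
        intro z hz
        have t0 : tau_Cusp A u z = 0 :=
          hdz (by rw [dist_zero_right]; have := (hin z hz).1; linarith) (hin z hz).2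
        refine ContinuousLinearMap.opNorm_le_bound _ le_rfl fun c => ?_
        have : fderiv ℝ u z c = 0 := h.cofr.2.2 _ (h.maps (hbl z hz)) (by
          rw [lin_Cusp h.cr (hbl z hz), t0, smul_zero, map_zero])
        simp [this]) hz1 hz2
    rw [zero_mul, norm_le_zero_iff, sub_eq_zero] at hmv
    have := hi (hbl _ hz2) (hbl _ hz1) hmv
    have := Complex.ofReal_injective this
    linarith
  · simp only [sub_zero] at key
    refine ⟨m, a, ?_, ha, key⟩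
    by_contra hm
    obtain rfl : m = 0 := by omega
    simp only [pow_zero, inv_one, one_smul] at key
    have hc : Tendsto (tau_Cusp A u) (𝓝[≠] 0) (𝓝 (tau_Cusp A u 0)) :=
      (h.tauAt (mem_ball_self hr)).continuousAt.tendsto.mono_left nhdsWithin_le_nhds
    have := tendsto_nhds_unique key hc
    rw [tau_Cusp, h0, map_zero] at this
    exact ha this

/-- The model map. -/
def mod_Cusp (m : ℕ) (s : ℂ) : W := (s ^ (m + 1), 0)

theorem fd_mod_Cusp (m : ℕ) (s c : ℂ) :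
    fderiv ℝ (mod_Cusp m) s c = (((m + 1 : ℕ) : ℂ) * s ^ m * c, 0) := by
  have h1 : HasFDerivAt (fun s : ℂ => s ^ (m + 1))
      ((ContinuousLinearMap.toSpanSingleton ℂ (((m + 1 : ℕ) : ℂ) * s ^ m)).restrictScalars ℝ) s :=
    (by simpa using (hasDerivAt_pow (m + 1) s).hasFDerivAt :
      HasFDerivAt (fun s : ℂ => s ^ (m + 1))
        (ContinuousLinearMap.toSpanSingleton ℂ (((m + 1 : ℕ) : ℂ) * s ^ m)) s).restrictScalars ℝ
  have h2 := h1.prodMk (hasFDerivAt_const (0 : ℂ) s)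
  have : fderiv ℝ (mod_Cusp m) s = _ := h2.fderiv
  rw [this]
  simp [mul_comm]

theorem diff_mod_Cusp (m : ℕ) (s : ℂ) : DifferentiableAt ℝ (mod_Cusp m) s := by
  unfold mod_Cusp
  fun_prop

theorem dq_mod_Cusp (m : ℕ) (q : W) :
    dq_Cusp (fun _ => ContinuousLinearMap.id ℝ W) (mod_Cusp m) q =
      (∑ i ∈ Finset.range (m + 1), q.2 ^ i * q.1 ^ (m + 1 - 1 - i), 0) := by
  unfold dq_Cusp tau_Cusp
  split_ifs with hq
  · rw [ContinuousLinearMap.id_apply, fd_mod_Cusp, hq, geom_sum₂_self]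
    simp
  · have hne : q.2 - q.1 ≠ 0 := sub_ne_zero.2 hq
    rw [ContinuousLinearMap.id_apply, mod_Cusp, mod_Cusp, Prod.mk_sub_mk, Prod.smul_mk,
      ← Commute.mul_geom_sum₂ (Commute.all q.2 q.1), smul_eq_mul, ← mul_assoc,
      inv_mul_cancel₀ hne, one_mul]
    simp

/-- The basic estimate at a critical point with normalised leading term. -/
theorem Sm_Cusp.est (h : Sm_Cusp A Ω u r) {m : ℕ} (hm : 1 ≤ m) (h0 : fderiv ℝ u 0 1 = 0)
    (hl : Tendsto (fun z => (z ^ m)⁻¹ • tau_Cusp A u z) (𝓝[≠] 0) (𝓝 (((m + 1 : ℕ) : ℂ), 0)))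
    {ε : ℝ} (hε : 0 < ε) : ∃ ρ : ℝ, 0 < ρ ∧ ρ < r ∧ ∀ z s : ℂ, ‖z‖ ≤ ρ → ‖s‖ ≤ ρ → ∀ c,
      ‖A (u z) (fderiv ℝ u s c) - fderiv ℝ (mod_Cusp m) s c‖ ≤ ε * ‖s‖ ^ m * ‖c‖ := by
  have hr := h.pos
  obtain ⟨C, hC, hb⟩ := h.bounds (ρ := r / 2) (by linarith)
  set e1 := min 1 (ε / 2)
  have he1 : 0 < e1 := lt_min one_pos (by positivity)
  set e2 := ε / (4 * C * (m + 2))
  have he2 : 0 < e2 := by positivity
  obtain ⟨d1, hd1, h1⟩ := Metric.eventually_nhds_iff.1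
    (eventually_nhdsWithin_iff.1 (Metric.tendsto_nhds.1 hl e1 he1))
  have hcA : ContinuousAt (fun t => A (u t)) 0 :=
    ((h.AAt (mem_ball_self hr)).comp 0 (h.uAt (mem_ball_self hr))).continuousAt
  obtain ⟨d2, hd2, h2⟩ := Metric.continuousAt_iff.1 hcA e2 he2
  refine ⟨min (r / 2) (min d1 d2 / 2), by positivity, (min_le_left _ _).trans_lt (by linarith),
    fun z s hz hs c => ?_⟩
  have sm : ∀ t : ℂ, ‖t‖ ≤ min (r / 2) (min d1 d2 / 2) →
      ‖t‖ ≤ r / 2 ∧ dist t 0 < d1 ∧ dist t 0 < d2 := by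
    intro t ht
    have a1 := ht.trans (min_le_right _ _)
    have a2 := min_le_left d1 d2
    have a3 := min_le_right d1 d2
    have a4 : 0 < min d1 d2 := lt_min hd1 hd2
    rw [dist_zero_right]
    exact ⟨ht.trans (min_le_left _ _), by linarith, by linarith⟩
  have hsb : s ∈ ball (0 : ℂ) r := mem_ball_zero_iff.2 (by have := (sm s hs).1; linarith)
  have t1 : ‖tau_Cusp A u s - (((m + 1 : ℕ) : ℂ) * s ^ m, 0)‖ ≤ e1 * ‖s‖ ^ m := by
    rcases eq_or_ne s 0 with rfl | hs0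
    · have : m ≠ 0 := by omega
      simp [tau_Cusp, h0, this]
    · have a1 := h1 (sm s hs).2.1 hs0
      rw [dist_eq_norm] at a1
      have hp : s ^ m ≠ 0 := pow_ne_zero _ hs0
      have a2 : tau_Cusp A u s - (((m + 1 : ℕ) : ℂ) * s ^ m, 0) =
          s ^ m • ((s ^ m)⁻¹ • tau_Cusp A u s - (((m + 1 : ℕ) : ℂ), 0)) := by
        rw [smul_sub, smul_smul, mul_inv_cancel₀ hp, one_smul]
        simp [mul_comm]
      rw [a2, norm_smul, norm_pow, mul_comm]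
      exact mul_le_mul_of_nonneg_right a1.le (by positivity)
  have t2 : ‖tau_Cusp A u s‖ ≤ (m + 2) * ‖s‖ ^ m := by
    have a1 := norm_le_norm_add_norm_sub' (tau_Cusp A u s) (((m + 1 : ℕ) : ℂ) * s ^ m, 0)
    have a2 : ‖((((m + 1 : ℕ) : ℂ) * s ^ m, 0) : W)‖ = (m + 1) * ‖s‖ ^ m := by
      rw [Prod.norm_def, norm_zero, max_eq_left (norm_nonneg _), norm_mul, norm_pow,
        Complex.norm_natCast]
      push_cast
      rfl
    have a3 : e1 * ‖s‖ ^ m ≤ 1 * ‖s‖ ^ m :=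
      mul_le_mul_of_nonneg_right (min_le_left _ _) (by positivity)
    linarith
  have t3 : ‖fderiv ℝ u s c‖ ≤ C * (‖c‖ * ((m + 2) * ‖s‖ ^ m)) := by
    refine ((hb s (sm s hs).1).1 _).trans (mul_le_mul_of_nonneg_left ?_ hC.le)
    rw [lin_Cusp h.cr hsb, norm_smul]
    exact mul_le_mul_of_nonneg_left t2 (norm_nonneg _)
  have t4 : ‖A (u z) - A (u s)‖ ≤ 2 * e2 := by
    have a1 := h2 (sm z hz).2.2
    have a2 := h2 (sm s hs).2.2
    have a3 := dist_triangle_right (A (u z)) (A (u s)) (A (u 0))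
    rw [← dist_eq_norm]
    linarith
  have e0 : A (u z) (fderiv ℝ u s c) - fderiv ℝ (mod_Cusp m) s c =
      (A (u z) - A (u s)) (fderiv ℝ u s c) +
        c • (tau_Cusp A u s - (((m + 1 : ℕ) : ℂ) * s ^ m, 0)) := by
    rw [smul_sub, ← lin_Cusp h.cr hsb, fd_mod_Cusp]
    simp [mul_comm]
  have t5 : ‖(A (u z) - A (u s)) (fderiv ℝ u s c)‖ ≤ 2 * e2 * (C * (‖c‖ * ((m + 2) * ‖s‖ ^ m))) :=
    (ContinuousLinearMap.le_opNorm _ _).trans (mul_le_mul t4 t3 (norm_nonneg _) (by positivity))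
  have t6 : 2 * e2 * (C * (‖c‖ * ((m + 2) * ‖s‖ ^ m))) = ε / 2 * ‖s‖ ^ m * ‖c‖ := by
    simp only [e2]
    field_simp
    ring
  have t7 : ‖c • (tau_Cusp A u s - (((m + 1 : ℕ) : ℂ) * s ^ m, 0))‖ ≤ ε / 2 * ‖s‖ ^ m * ‖c‖ := by
    rw [norm_smul, mul_comm]
    exact mul_le_mul_of_nonneg_right
      (t1.trans (mul_le_mul_of_nonneg_right (min_le_right _ _) (by positivity))) (norm_nonneg _)
  rw [e0]
  refine (norm_add_le _ _).trans ?_
  linarith

end Pool.Agent.MP_2fc7fa_gt.N
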