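import Pool.Agent.MP_2fc7fa_gt.N.CuspB

/-! The branches of the self-intersection locus near a critical point. -/

open scoped ContDiff ComplexConjugate Topology
open Set Complex Filter Metric

noncomputable section

namespace Pool.Agent.MP_2fc7fa_gt.N

theorem fix_Cusp {g : ℂ → ℂ} {κ c : ℂ} {R : ℝ} (hκ : κ ≠ 0) (hR : 0 ≤ R)
    (h1 : ∀ s ∈ closedBall c R, ∀ s' ∈ closedBall c R,
      ‖g s - g s' - κ * (s - s')‖ ≤ ‖κ‖ / 2 * ‖s - s'‖) (h2 : ‖g c‖ ≤ ‖κ‖ * (R / 4)) :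
    ∃ w, ‖w - c‖ ≤ 3 / 4 * R ∧ g w = 0 ∧ ∀ s ∈ closedBall c R, g s = 0 → s = w := by
  have hk : 0 < ‖κ‖ := norm_pos_iff.2 hκ
  set T : ℂ → ℂ := fun s => s - κ⁻¹ * g s with hT
  have l1 : ∀ s ∈ closedBall c R, ∀ s' ∈ closedBall c R, ‖T s - T s'‖ ≤ 1 / 2 * ‖s - s'‖ := by
    intro s hs s' hs'
    have e : T s - T s' = -κ⁻¹ * (g s - g s' - κ * (s - s')) := by
      simp only [hT]; field_simp; ring
    rw [e, norm_mul, norm_neg, norm_inv, inv_mul_le_iff₀ hk]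
    have := h1 s hs s' hs'
    linarith
  have l2 : ∀ s ∈ closedBall c R, ‖T s - c‖ ≤ 3 / 4 * R := by
    intro s hs
    have a1 := l1 s hs c (mem_closedBall_self hR)
    have a2 : ‖T c - c‖ ≤ R / 4 := by
      have e : T c - c = -κ⁻¹ * g c := by simp only [hT]; ring
      rw [e, norm_mul, norm_neg, norm_inv, inv_mul_le_iff₀ hk]
      exact h2
    have a3 := norm_sub_le_norm_sub_add_norm_sub (T s) (T c) c
    rw [mem_closedBall, dist_eq_norm] at hs
    linarith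
  have hm : MapsTo T (closedBall c R) (closedBall c R) := fun s hs => by
    rw [mem_closedBall, dist_eq_norm]
    have := l2 s hs
    linarith
  have hc : ContractingWith (1 / 2) (hm.restrict T _ _) := by
    refine ⟨by norm_num, LipschitzWith.of_dist_le_mul fun x y => ?_⟩
    have := l1 x x.2 y y.2
    simpa [Subtype.dist_eq, dist_eq_norm] using this
  obtain ⟨w, hw, hfix, -⟩ := hc.exists_fixedPoint' isClosed_closedBall.isComplete hm
    (mem_closedBall_self hR) (edist_ne_top _ _)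
  have fx : ∀ s, g s = 0 ↔ T s = s := fun s => by simp [hT, hκ]
  refine ⟨w, by have := l2 w hw; rwa [hfix.eq] at this, (fx w).2 hfix, fun s hs h0 => ?_⟩
  have := l1 s hs w hw
  rw [(fx s).1 h0, hfix.eq] at this
  have := norm_nonneg (s - w)
  exact sub_eq_zero.1 (norm_eq_zero.1 (by linarith))

theorem imp_Cusp {G : W → ℂ} {q : W} (hG : ContDiffAt ℝ 1 G q)
    (hi : ∀ c, fderiv ℝ G q (0, c) = 0 → c = 0) : ∃ ψ : ℂ → ℂ, ContDiffAt ℝ 1 ψ q.1 ∧
      ψ q.1 = q.2 ∧ ∀ᶠ z in 𝓝 q.1, G (z, ψ z) = G q := by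
  have hinj : Function.Injective (fderiv ℝ G q ∘L ContinuousLinearMap.inr ℝ ℂ ℂ) :=
    (injective_iff_map_eq_zero _).2 fun c hc => hi c hc
  have hinv : (fderiv ℝ G q ∘L ContinuousLinearMap.inr ℝ ℂ ℂ).IsInvertible :=
    ⟨(LinearEquiv.ofInjectiveEndo
      (fderiv ℝ G q ∘L ContinuousLinearMap.inr ℝ ℂ ℂ).toLinearMap hinj).toContinuousLinearEquiv,
      ContinuousLinearMap.ext fun _ => rfl⟩
  exact ⟨hG.implicitFunction one_ne_zero hinv, hG.contDiffAt_implicitFunction _ _,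
    hG.implicitFunction_apply_self _ _, hG.eventually_apply_implicitFunction _ _⟩

theorem cone_Cusp {v : W} {m : ℕ} {s c : ℂ} {ε : ℝ} (hm : 1 ≤ m) (hε : ε ≤ 1 / 4)
    (h : ‖v - fderiv ℝ (mod_Cusp m) s c‖ ≤ ε * ‖s‖ ^ m * ‖c‖) :
    ‖v.2‖ ≤ ‖v.1‖ ∧ ‖s‖ ^ m * ‖c‖ ≤ ‖v.1‖ := by
  rw [fd_mod_Cusp] at h
  have a1 := (norm_fst_le _).trans h
  have a2 := (norm_snd_le _).trans h
  simp only [Prod.fst_sub, Prod.snd_sub, sub_zero] at a1 a2
  have a3 : ‖((m + 1 : ℕ) : ℂ) * s ^ m * c‖ = (m + 1) * (‖s‖ ^ m * ‖c‖) := by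
    rw [norm_mul, norm_mul, norm_pow, Complex.norm_natCast]
    push_cast
    ring
  have a4 := norm_le_norm_add_norm_sub v.1 (((m + 1 : ℕ) : ℂ) * s ^ m * c)
  have a5 : (1 : ℝ) ≤ m := by exact_mod_cast hm
  have a6 : 0 ≤ ‖s‖ ^ m * ‖c‖ := by positivity
  have a7 : ε * ‖s‖ ^ m * ‖c‖ ≤ 1 / 4 * (‖s‖ ^ m * ‖c‖) := by
    rw [mul_assoc]; exact mul_le_mul_of_nonneg_right hε a6
  constructor <;> nlinarith

theorem eta_Cusp (m : ℕ) : ∃ η : ℝ, 0 < η ∧ η ≤ 1 / 2 ∧ ∀ σ : ℂ, ‖σ - 1‖ ≤ η → ‖σ ^ m - 1‖ ≤ 1 / 4 := by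
  obtain ⟨d, hd, h⟩ := Metric.continuousAt_iff.1
    ((continuous_pow m (M := ℂ)).continuousAt (x := 1)) (1 / 4) (by norm_num)
  refine ⟨min (d / 2) (1 / 2), by positivity, min_le_right _ _, fun σ hσ => ?_⟩
  have := h (x := σ) (by
    rw [dist_eq_norm]
    have := hσ.trans (min_le_left _ _)
    linarith)
  rw [dist_eq_norm, one_pow] at this
  exact this.le

variable {A : W → W →L[ℝ] W} {Ω : Set W} {u : ℂ → W} {r : ℝ}

/-- The basic estimate holds on the closed disc of radius `ρ`. -/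
def Est_Cusp (A : W → W →L[ℝ] W) (u : ℂ → W) (m : ℕ) (ε ρ : ℝ) : Prop :=
  ∀ z s : ℂ, ‖z‖ ≤ ρ → ‖s‖ ≤ ρ → ∀ c,
    ‖A (u z) (fderiv ℝ u s c) - fderiv ℝ (mod_Cusp m) s c‖ ≤ ε * ‖s‖ ^ m * ‖c‖

theorem Sm_Cusp.est2 (h : Sm_Cusp A Ω u r) {m : ℕ} {ε ρ R : ℝ} (hE : Est_Cusp A u m ε ρ)
    (hε : 0 ≤ ε) (hρ : ρ < r) (hR : R ≤ ρ) {z s : ℂ} (hz : ‖z‖ ≤ R) (hs : ‖s‖ ≤ R) :
    ‖A (u z) (u s - u z) - (s ^ (m + 1) - z ^ (m + 1), 0)‖ ≤ ε * R ^ m * ‖s - z‖ := by
  have hR0 : 0 ≤ R := (norm_nonneg _).trans hz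
  have := mv_Cusp (A (u z)) (ContinuousLinearMap.id ℝ W) (u := u) (u' := mod_Cusp m)
    (e := ε * R ^ m) (convex_closedBall (0 : ℂ) R) (by positivity)
    (fun t ht => (h.uAt (mem_ball_zero_iff.2 (by
      have := mem_closedBall_zero_iff.1 ht; linarith))).differentiableAt (by simp))
    (fun t _ => diff_mod_Cusp m t) (fun t ht c => by
      have ht' := mem_closedBall_zero_iff.1 ht
      refine (hE z t (hz.trans hR) (ht'.trans hR) c).trans ?_
      gcongr) (mem_closedBall_zero_iff.2 hs) (mem_closedBall_zero_iff.2 hz)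
  simpa [mod_Cusp] using this

/-- Existence, uniqueness and smoothness of the branch that belongs to a root of unity. -/
theorem Sm_Cusp.branch (h : Sm_Cusp A Ω u r) {m : ℕ} {ε ρ η : ℝ} (hm : 1 ≤ m)
    (hE : Est_Cusp A u m ε ρ) (hε0 : 0 ≤ ε) (hε : ε ≤ η / 4) (hρ : ρ < r) (hη0 : 0 < η)
    (hη : η ≤ 1 / 2) (hp : ∀ σ : ℂ, ‖σ - 1‖ ≤ η → ‖σ ^ m - 1‖ ≤ 1 / 4) {om : ℂ}
    (hom : om ^ (m + 1) = 1) : ∃ w : ℂ → ℂ, ∀ z, z ≠ 0 → 2 * ‖z‖ < ρ →
      ‖w z - om * z‖ ≤ η * ‖z‖ ∧ (A (u z) (u (w z) - u z)).1 = 0 ∧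
      (∀ s, ‖s - om * z‖ ≤ η * ‖z‖ → (A (u z) (u s - u z)).1 = 0 → s = w z) ∧
      ContDiffAt ℝ 1 w z := by
  have hn : ‖om‖ = 1 := norm_eq_one_of_pow_eq_one hom (by omega)
  have hm' : (1 : ℝ) ≤ m := by exact_mod_cast hm
  have sz : ∀ z s : ℂ, ‖s - om * z‖ ≤ η * ‖z‖ → ‖s‖ ≤ 2 * ‖z‖ ∧ ‖z‖ ≤ 2 * ‖s‖ := by
    intro z s hs
    have a1 := norm_le_norm_add_norm_sub' s (om * z)
    have a2 := norm_le_norm_add_norm_sub s (om * z)
    rw [norm_mul, hn, one_mul] at a1 a2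
    have a3 : η * ‖z‖ ≤ 1 / 2 * ‖z‖ := mul_le_mul_of_nonneg_right hη (norm_nonneg _)
    have := norm_nonneg z
    constructor <;> linarith
  have key : ∀ z : ℂ, ∃ w : ℂ, z ≠ 0 → 2 * ‖z‖ < ρ → ‖w - om * z‖ ≤ 3 / 4 * (η * ‖z‖) ∧
      (A (u z) (u w - u z)).1 = 0 ∧
      ∀ s ∈ closedBall (om * z) (η * ‖z‖), (A (u z) (u s - u z)).1 = 0 → s = w := by
    intro z
    by_cases hz : z ≠ 0 ∧ 2 * ‖z‖ < ρ
    swap
    · exact ⟨0, fun a b => absurd ⟨a, b⟩ hz⟩
    obtain ⟨hz0, hz⟩ := hz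
    have hzp : 0 < ‖z‖ := norm_pos_iff.2 hz0
    have hoz : om * z ≠ 0 := mul_ne_zero (norm_pos_iff.1 (by rw [hn]; exact one_pos)) hz0
    have hκ : ‖((m + 1 : ℕ) : ℂ) * (om * z) ^ m‖ = (m + 1) * ‖z‖ ^ m := by
      rw [norm_mul, norm_pow, norm_mul, hn, one_mul, Complex.norm_natCast]
      push_cast
      rfl
    obtain ⟨w, hw⟩ := fix_Cusp (g := fun s => (A (u z) (u s - u z)).1)
      (κ := ((m + 1 : ℕ) : ℂ) * (om * z) ^ m) (c := om * z) (R := η * ‖z‖)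
      (norm_pos_iff.1 (by rw [hκ]; positivity)) (by positivity) (by
        intro s hs s' hs'
        have := mv_Cusp ((ContinuousLinearMap.fst ℝ ℂ ℂ).comp (A (u z)))
          (ContinuousLinearMap.fst ℝ ℂ ℂ) (u := u)
          (u' := fun s => s • ((((m + 1 : ℕ) : ℂ) * (om * z) ^ m, 0) : W))
          (e := ‖((m + 1 : ℕ) : ℂ) * (om * z) ^ m‖ / 2) (convex_closedBall (om * z) (η * ‖z‖))
          (by positivity) (fun t ht => (h.uAt (mem_ball_zero_iff.2 (by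
            have := (sz z t (by rwa [mem_closedBall, dist_eq_norm] at ht)).1
            linarith))).differentiableAt (by simp)) (fun t _ => by fun_prop) (by
            intro t ht c
            rw [mem_closedBall, dist_eq_norm] at ht
            have b1 := (norm_fst_le _).trans (hE z t (by linarith) (by have := (sz z t ht).1; linarith) c)
            rw [fd_mod_Cusp] at b1
            have b2 : ‖(t / (om * z)) ^ m - 1‖ ≤ 1 / 4 := hp _ (by
              rw [div_sub_one hoz, norm_div, norm_mul, hn, one_mul, div_le_iff₀ hzp]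
              exact ht)
            have b3 : ‖t ^ m - (om * z) ^ m‖ ≤ 1 / 4 * ‖z‖ ^ m := by
              rw [div_pow, div_sub_one (pow_ne_zero _ hoz), norm_div, norm_pow, norm_mul, hn,
                one_mul, div_le_iff₀ (by positivity)] at b2
              exact b2
            have b4 : ‖t‖ ^ m ≤ 5 / 4 * ‖z‖ ^ m := by
              have := norm_le_norm_add_norm_sub' (t ^ m) ((om * z) ^ m)
              rw [norm_pow, norm_pow, norm_mul, hn, one_mul] at this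
              linarith
            have b5 : ‖((m + 1 : ℕ) : ℂ) * t ^ m * c - c * (((m + 1 : ℕ) : ℂ) * (om * z) ^ m)‖ ≤
                (m + 1) * (1 / 4 * ‖z‖ ^ m) * ‖c‖ := by
              have e : ((m + 1 : ℕ) : ℂ) * t ^ m * c - c * (((m + 1 : ℕ) : ℂ) * (om * z) ^ m) =
                  ((m + 1 : ℕ) : ℂ) * (t ^ m - (om * z) ^ m) * c := by ring
              rw [e, norm_mul, norm_mul, Complex.norm_natCast]
              push_cast
              gcongr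
            have b6 := norm_sub_le_norm_sub_add_norm_sub (A (u z) (fderiv ℝ u t c)).1
              (((m + 1 : ℕ) : ℂ) * t ^ m * c) (c * (((m + 1 : ℕ) : ℂ) * (om * z) ^ m))
            have b7 : ε * ‖t‖ ^ m * ‖c‖ ≤ 1 / 8 * (5 / 4 * ‖z‖ ^ m) * ‖c‖ := by
              gcongr
              linarith
            have b8 : 0 ≤ ‖z‖ ^ m * ‖c‖ := by positivity
            rw [fd_lin_Cusp, hκ]
            simp only [Prod.fst_sub] at b1
            change ‖(A (u z) (fderiv ℝ u t c)).1 - c * (((m + 1 : ℕ) : ℂ) * (om * z) ^ m)‖ ≤ _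
            nlinarith) hs hs'
        refine le_trans (le_of_eq ?_) this
        congr 1
        simp
        ring) (by
        have b1 := (norm_fst_le _).trans (h.est2 hE hε0 hρ (R := ‖z‖) (z := z) (s := om * z)
          (by linarith) le_rfl (by rw [norm_mul, hn, one_mul]))
        have b2 : ‖om * z - z‖ ≤ 2 * ‖z‖ := by
          have := norm_sub_le (om * z) z
          rw [norm_mul, hn, one_mul] at this
          linarith
        simp only [mul_pow, hom, one_mul, sub_self, Prod.fst_sub, sub_zero] at b1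
        rw [hκ]
        have b3 : ε * ‖z‖ ^ m * ‖om * z - z‖ ≤ η / 4 * ‖z‖ ^ m * (2 * ‖z‖) := by gcongr
        have b4 : 0 ≤ η * ‖z‖ * ‖z‖ ^ m := by positivity
        nlinarith)
    exact ⟨w, fun _ _ => hw⟩
  choose w hw using key
  refine ⟨w, fun z hz0 hz => ?_⟩
  obtain ⟨w1, w2, w3⟩ := hw z hz0 hz
  have hzp : 0 < ‖z‖ := norm_pos_iff.2 hz0
  have hpos : 0 < η * ‖z‖ := by positivity
  have w4 : ‖w z - om * z‖ ≤ η * ‖z‖ := by linarith
  refine ⟨w4, w2, fun s hs => w3 s (by rwa [mem_closedBall, dist_eq_norm]), ?_⟩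
  have hzb : z ∈ ball (0 : ℂ) r := mem_ball_zero_iff.2 (by linarith)
  have hwb : w z ∈ ball (0 : ℂ) r := mem_ball_zero_iff.2 (by have := (sz z _ w4).1; linarith)
  have c1 : ContDiffAt ℝ ∞ (fun q : W => u q.1) (z, w z) := (h.uAt hzb).comp _ contDiffAt_fst
  have c2 : ContDiffAt ℝ ∞ (fun q : W => u q.2) (z, w z) := ContDiffAt.comp (g := u) (f := Prod.snd) (z, w z)
    (h.uAt hwb) contDiffAt_snd
  have c3 : ContDiffAt ℝ ∞ (fun q : W => A (u q.1)) (z, w z) :=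
    ContDiffAt.comp (g := A) (f := fun q : W => u q.1) (z, w z) (h.AAt hzb) c1
  have hG : ContDiffAt ℝ 1 (fun q : W => (A (u q.1) (u q.2 - u q.1)).1) (z, w z) :=
    ((c3.clm_apply (c2.sub c1)).fst).of_le (by simp)
  obtain ⟨ψ, p1, p2, p3⟩ := imp_Cusp hG (by
    intro c hc
    have d1 : HasFDerivAt (fun s : ℂ => ((z, s) : W)) (ContinuousLinearMap.inr ℝ ℂ ℂ) (w z) :=
      hasFDerivAt_prodMk_right z (w z)
    have d2 := (hG.differentiableAt one_ne_zero).hasFDerivAt.comp (w z) d1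
    have d3 : HasFDerivAt (fun s : ℂ => (A (u z) (u s - u z)).1)
        ((ContinuousLinearMap.fst ℝ ℂ ℂ).comp ((A (u z)).comp (fderiv ℝ u (w z)))) (w z) :=
      ((A (u z)).hasFDerivAt.comp (w z)
        (((h.uAt hwb).differentiableAt (by simp)).hasFDerivAt.sub_const (u z))).fst
    have d4 : (A (u z) (fderiv ℝ u (w z) c)).1 = 0 :=
      (congrArg (fun L : ℂ →L[ℝ] ℂ => L c) (d3.unique d2)).trans hc
    have d5 := (cone_Cusp hm (by linarith)
      (hE z (w z) (by linarith) (by have := (sz z _ w4).1; linarith) c)).2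
    rw [d4, norm_zero] at d5
    have d6 : 0 < ‖w z‖ ^ m := pow_pos (by have := (sz z _ w4).2; linarith) _
    exact norm_eq_zero.1 (le_antisymm (by by_contra hh; nlinarith [mul_pos d6 (not_le.1 hh)])
      (norm_nonneg _)))
  refine p1.congr_of_eventuallyEq ?_
  have o1 : ∀ᶠ t in 𝓝 z, t ≠ 0 := isOpen_ne.mem_nhds hz0
  have o2 : ∀ᶠ t : ℂ in 𝓝 z, 2 * ‖t‖ < ρ :=
    (ContinuousAt.eventually_lt (by fun_prop) continuousAt_const hz)
  have o3 : ∀ᶠ t : ℂ in 𝓝 z, ‖ψ t - om * t‖ < η * ‖t‖ := by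
    have q1 : ContinuousAt ψ z := p1.continuousAt
    refine ContinuousAt.eventually_lt (by fun_prop) (by fun_prop) ?_
    rw [show ψ z = w z from p2]
    linarith
  filter_upwards [o1, o2, o3, p3] with t t1 t2 t3 t4
  exact ((hw t t1 t2).2.2 _ (by rw [mem_closedBall, dist_eq_norm]; exact t3.le)
    (t4.trans w2)).symm

end Pool.Agent.MP_2fc7fa_gt.N
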