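import Pool.Agent.MP_2fc7fa_gt.Defs
import Pool.Agent.MP_2fc7fa_gt.Fam

/-! Top-level interface of the proof that `Symp l` is not contractible. -/

open scoped ContDiff ComplexConjugate Topology
open Set Complex

noncomputable section

namespace Pool.Agent.MP_2fc7fa_gt.N

/-- The affine chart, and the homogeneous coordinates of the projective line. -/
abbrev W : Type := ℂ × ℂ

abbrev Zp : Type := ZMod 37

abbrev Mat : Type := Fin 3 → Fin 3 → ℂ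

abbrev UI : Type := unitInterval

/-- The root of unity `exp (2 π i k / 37)`. -/
def rt (k : Zp) : ℂ := ZMod.stdAddChar k

/-- `exp (2 π i u / 37)`. -/
def ee (u : ℝ) : ℂ := exp (2 * Real.pi * I * u / 37)

def nsq (x : W) : ℝ := ‖x.1‖ ^ 2 + ‖x.2‖ ^ 2

def det2 (x y : W) : ℂ := x.1 * y.2 - x.2 * y.1

/-- The rank one projector onto the line through `x`. -/
def pr (x : V) : Mat := fun a b => x a * conj (x b) / ((∑ j, ‖x j‖ ^ 2 : ℝ) : ℂ)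

/-- The vector `(c, y)`. -/
def vec (c : ℂ) (y : W) : V := ![c, y.1, y.2]

/-- The point of the projective plane with affine coordinates `y`. -/
def pt (y : W) : Mat := pr (vec 1 y)

def wt : Fin 3 → Zp := ![0, 1, 1]

/-- The action of `k` on `ℂ³`. -/
def hat (k : Zp) (x : V) : V := fun a => rt (k * wt a) * x a

/-- The action of `k` on matrices. -/
def actM (k : Zp) (P : Mat) : Mat := fun a b => rt (k * (wt a - wt b)) * P a b

def cube : Set (ℕ → ℝ) := {t | ∀ i, t i ∈ Icc (0 : ℝ) 1}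

/-- Delete the entry of index `i` from a sequence. -/
def skip {α : Type} (i : ℕ) (t : ℕ → α) : ℕ → α := fun j => if j < i then t j else t (j + 1)

/-- Admissible data: a nonempty list of length at most `N + 1`, a point of the cube, a time. -/
def Adm (N : ℕ) (σ : List Zp) (t : ℕ → ℝ) (s : ℝ) : Prop :=
  σ ≠ [] ∧ σ.length ≤ N + 1 ∧ t ∈ cube ∧ s ∈ Icc (0 : ℝ) 1

/-- A point of the chord between two roots of unity different from `1`. -/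
def Chord (μ : ℂ) : Prop :=
  ∃ k₁ k₂ : Zp, ∃ u : ℝ, k₁ ≠ 0 ∧ k₂ ≠ 0 ∧ u ∈ Icc (0 : ℝ) 1 ∧ μ = (1 - u) * rt k₁ + u * rt k₂

/-- Equivariant families over cubes of maps from `ℂ² ∖ 0` to the projective plane, from `f` to
complex linear maps (PROOF.md, C0). -/
structure LineFamily (N : ℕ) (f : W → W) where
  H : List Zp → (ℕ → ℝ) → ℝ → W → Mat
  mem : ∀ σ t s v, Adm N σ t s → v ≠ 0 → ∃ x : V, x ≠ 0 ∧ H σ t s v = pr x
  cont : ∀ σ, σ ≠ [] → σ.length ≤ N + 1 →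
    ContinuousOn (fun q : (ℕ → ℝ) × ℝ × W => H σ q.1 q.2.1 q.2.2) (cube ×ˢ Icc 0 1 ×ˢ {0}ᶜ)
  inj : ∀ σ t s v (c c' : ℂ), Adm N σ t s → v ≠ 0 → c ≠ 0 → c' ≠ 0 →
    H σ t s (c • v) = H σ t s (c' • v) → c = c'
  equiv : ∀ σ t s v k, Adm N σ t s → v ≠ 0 →
    H (σ.map (k + ·)) t s (rt k • v) = actM k (H σ t s v)
  face1 : ∀ σ t s v i, Adm N σ t s → v ≠ 0 → i + 1 < σ.length → t i = 1 →
    H σ t s v = H (σ.eraseIdx i) (skip i t) s v
  face0 : ∀ σ t s v i, Adm N σ t s → v ≠ 0 → t i = 0 → H σ t s v = H (σ.take (i + 1)) t s v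
  dep : ∀ σ t t' s v, Adm N σ t s → t' ∈ cube → v ≠ 0 → (∀ i, i + 1 < σ.length → t i = t' i) →
    H σ t s v = H σ t' s v
  start : ∀ σ t v, Adm N σ t 0 → v ≠ 0 → H σ t 0 v = pt (f v)
  stop : ∀ σ t, Adm N σ t 1 → ∃ L : W →ₗ[ℂ] W, Function.Injective L ∧
    ∀ v, v ≠ 0 → H σ t 1 v = pt (L v)
  near0 : ∀ r : ℝ, 0 < r → ∃ τ : ℝ, 0 < τ ∧ ∀ σ t s a x y (l : ℝ), Adm N σ t s → a ≠ 0 →
    ‖a‖ ≤ τ → 1 < l → (∀ k, H σ t s (rt k • a) = pt (rt k • x)) →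
    H σ t s ((l : ℂ) • a) = pt y → ‖x‖ ≤ r ∧ ∀ μ, Chord μ → y ≠ μ • x
  nearInf : ∀ r : ℝ, ∃ R : ℝ, ∀ σ t s b x y (l : ℝ), Adm N σ t s → b ≠ 0 →
    R ≤ ‖b‖ → 0 < l → l < 1 → (∀ k, H σ t s (rt k • b) = pt (rt k • y)) →
    H σ t s ((l : ℂ) • b) = pt x → r ≤ ‖y‖ ∧ ∀ μ, Chord μ → y ≠ μ • x

/-- The six real equations for a triple `z, e^α z, e^β z` on a ray. -/
def Phi (f : W → W) (X : W × ℝ × ℝ) : ℂ × ℝ × ℂ × ℝ :=
  (det2 (f X.1) (f (Real.exp X.2.2 • X.1)),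
    nsq (f (Real.exp X.2.2 • X.1)) - nsq (f X.1),
    det2 (f (Real.exp X.2.2 • X.1)) (f (Real.exp X.2.1 • X.1)),
    nsq (f (Real.exp X.2.1 • X.1)) - nsq (f (Real.exp X.2.2 • X.1)))

/-- The counting problem for `f` has exactly one orbit of solutions, and it is transverse. -/
structure Sol (f : W → W) : Prop where
  cont : Continuous f
  inj : Function.Injective f
  supp : ∀ z, nsq z ≤ 1 / 100 ∨ 1000 ≤ nsq z → f z = z
  equiv : ∀ k z, f (rt k • z) = rt k • f z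
  sol : ∃ (z₀ : W) (α₀ β₀ : ℝ), z₀.1 ≠ 0 ∧ z₀.2 ≠ 0 ∧ arg z₀.1 ≠ 0 ∧
    |arg z₀.1| < Real.pi / 37 ∧ |arg z₀.2| < Real.pi / 37 ∧ 0 < α₀ ∧ α₀ < β₀ ∧
    (∃ D₁ ∈ Ioo (-3 : ℝ) (-2), ∃ D₂ ∈ Ioo (6 : ℝ) 7,
      f (Real.exp β₀ • z₀) = ee D₁ • f z₀ ∧
      f (Real.exp β₀ • z₀) = ee D₂ • f (Real.exp α₀ • z₀)) ∧
    (∀ (z : W) (α β : ℝ), z ≠ 0 → 0 ≤ α → α < β →
      ∀ D₁ ∈ Icc (-3 : ℝ) (-2), ∀ D₂ ∈ Icc (6 : ℝ) 7,
      f (Real.exp β • z) = ee D₁ • f z → f (Real.exp β • z) = ee D₂ • f (Real.exp α • z) →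
      ∃ k, z = rt k • z₀ ∧ α = α₀ ∧ β = β₀) ∧
    ∃ L : W × ℝ × ℝ →L[ℝ] ℂ × ℝ × ℂ × ℝ,
      HasFDerivAt (Phi f) L (z₀, α₀, β₀) ∧ Function.Injective L

/-- Part C. -/
def CoreStmt : Prop := ∀ f : W → W, Sol f → (∀ N, Nonempty (LineFamily N f)) → False

/-- Part F. -/
def FStmt : Prop := ∃ f f' : W → W, Sol f ∧ ContDiff ℝ ∞ f ∧ ContDiff ℝ ∞ f' ∧
  Function.LeftInverse f' f ∧ Function.RightInverse f' f

/-! ### Almost complex structures through frames, and lines -/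

/-- A frame: real linear automorphisms `B x` of `ℂ³` with inverses `A x`, equal to the identity on
the complex line through `x` and compatible with scaling. -/
structure Fr where
  B : V → V →L[ℝ] V
  A : V → V →L[ℝ] V
  smoothB : ContDiffOn ℝ ∞ B {0}ᶜ
  smoothA : ContDiffOn ℝ ∞ A {0}ᶜ
  AB : ∀ x, x ≠ 0 → ∀ v, A x (B x v) = v
  BA : ∀ x, x ≠ 0 → ∀ v, B x (A x v) = v
  vert : ∀ x, x ≠ 0 → ∀ c : ℂ, B x (c • x) = c • x
  scale : ∀ x, x ≠ 0 → ∀ c : ℂ, c ≠ 0 → ∀ v, B (c • x) (c • v) = c • B x v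

/-- The almost complex structure of a frame. -/
def Fr.J (φ : Fr) (x v : V) : V := φ.B x (I • φ.A x v)

/-- A family of frames that is continuous in the `C^∞` topology. -/
def FrFam {P : Type} [TopologicalSpace P] (φ : P → Fr) : Prop :=
  ∀ n, Fam {0}ᶜ n (V →L[ℝ] V) (fun p => (φ p).B) ∧ Fam {0}ᶜ n (V →L[ℝ] V) (fun p => (φ p).A)

def Tame (J : V → V → V) (σ : Symp 1) : Prop :=
  ∀ x, x ≠ 0 → ∀ v, (∀ c : ℂ, v ≠ c • x) → 0 < σ.form x ![v, J x v]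

/-- A `J`-holomorphic sphere in the class of a line, in homogeneous coordinates. -/
structure IsLine (J : V → V → V) (U : W → V) : Prop where
  c1 : ContDiffOn ℝ 1 U {0}ᶜ
  ne : ∀ q, q ≠ 0 → U q ≠ 0
  hom : ∀ (c : ℂ) q, U (c • q) = c • U q
  hol : ∀ q, q ≠ 0 → ∀ h, fderiv ℝ U q (I • h) = J (U q) (fderiv ℝ U q h)

structure IsEmb (U : W → V) : Prop where
  imm : ∀ q, q ≠ 0 → Function.Injective (fderiv ℝ U q)
  inj : InjOn U {0}ᶜ

/-- The value at `(1, 0)` and the derivative there in the direction `(0, 1)`. -/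
def jet (U : W → V) : V × V := (U (1, 0), fderiv ℝ U (1, 0) (0, 1))

def Jet : Set (V × V) := {j | j.1 ≠ 0 ∧ ∀ c : ℂ, j.2 ≠ c • j.1}

/-- Existence of the family of embedded lines (part B). -/
def GromovStmt : Prop :=
  ∀ (P : Type) [TopologicalSpace P] (φ : P × UI → Fr) (om : P × UI → Symp 1), FrFam φ →
    Continuous om → (∀ a, Tame (φ a).J (om a)) →
    (∀ p x, x ≠ 0 → ∀ v, (φ (p, 1)).J x v = I • v) →
    ∃ U : (P × UI) × Jet → W → V, Fam {0}ᶜ 1 V U ∧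
      ∀ a, IsLine (φ a.1).J (U a) ∧ IsEmb (U a) ∧ jet (U a) = a.2

/-- Uniqueness of continuous families of embedded lines along a path. -/
def UniqStmt : Prop :=
  ∀ (φ : UI → Fr) (U U' : UI → W → V), FrFam φ → Fam {0}ᶜ 1 V U → Fam {0}ᶜ 1 V U' →
    (∀ s, IsLine (φ s).J (U s) ∧ IsEmb (U s) ∧ IsLine (φ s).J (U' s) ∧ jet (U s) = jet (U' s)) →
    U 1 = U' 1 → U = U'

/-- Lines of the standard structure are linear. -/
def LinStmt : Prop :=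
  ∀ (J : V → V → V) (U : W → V), (∀ x, x ≠ 0 → ∀ v, J x v = I • v) → IsLine J U →
    ∀ q : W, U q = q.1 • (jet U).1 + q.2 • (jet U).2

/-- Part A. -/
def GlueStmt : Prop :=
  CoreStmt → FStmt → GromovStmt → UniqStmt → LinStmt →
    ∀ l : ℝ, l ≠ 0 → ¬ ContractibleSpace (Symp l)

end Pool.Agent.MP_2fc7fa_gt.N
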