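import Pool.Agent.MP_2fc7fa_gt.N.EmbLimitA

/-! A limit of embedded lines is embedded. -/

open scoped ContDiff ComplexConjugate Topology
open Set Complex Filter Metric

namespace Pool.Agent.MP_2fc7fa_gt.N

theorem ch_eq_EmbLimit {a : Fin 3} {x y : V} (hx : x a ≠ 0) (hy : y a ≠ 0) (h : ch a x = ch a y) :
    y = (y a / x a) • x := by
  have h1 : x (a + 1) / x a = y (a + 1) / y a := congrArg Prod.fst h
  have h2 : x (a + 2) / x a = y (a + 2) / y a := congrArg Prod.snd h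
  have h3 : ∀ a j : Fin 3, j = a ∨ j = a + 1 ∨ j = a + 2 := by decide
  funext j
  rw [Pi.smul_apply, smul_eq_mul, div_mul_comm]
  rcases h3 a j with rfl | rfl | rfl
  · rw [div_self hx, one_mul]
  · rw [h1, div_mul_cancel₀ _ hy]
  · rw [h2, div_mul_cancel₀ _ hy]

theorem ch_smooth_EmbLimit {a : Fin 3} {x : V} (hx : x a ≠ 0) : ContDiffAt ℝ ∞ (ch a) x := by
  have h1 : ∀ j, ContDiffAt ℝ ∞ (fun y : V => y j) x := fun j => contDiffAt_apply ℝ ℂ j x
  have h2 : ch a = fun y : V => (y (a + 1) * (y a)⁻¹, y (a + 2) * (y a)⁻¹) := rfl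
  rw [h2]
  exact ((h1 _).mul ((h1 _).inv hx)).prodMk ((h1 _).mul ((h1 _).inv hx))

theorem diff_EmbLimit {U : W → V} (hU : ContDiffOn ℝ 1 U {0}ᶜ) {q : W} (hq : q ≠ 0) :
    DifferentiableAt ℝ U q :=
  (hU.contDiffAt (isOpen_compl_singleton.mem_nhds hq)).differentiableAt one_ne_zero

theorem euler_EmbLimit {U : W → V} (hU : Hom1 U) {q : W} (hq : q ≠ 0) (c : ℂ) :
    fderiv ℝ U q (c • q) = c • U q := by
  have h1 : HasDerivAt (fun s : ℝ => 1 + (s : ℂ) * c) c 0 := by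
    simpa using (((hasDerivAt_id (0 : ℝ)).ofReal_comp).mul_const c).const_add 1
  have h2 := (diff_EmbLimit hU.1 hq).hasFDerivAt.comp_hasDerivAt_of_eq 0 (h1.smul_const q)
    (by simp)
  refine h2.unique ((h1.smul_const (U q)).congr_of_eventuallyEq (Eventually.of_forall fun s => ?_))
  exact hU.2 _ _

theorem slice_EmbLimit {U : W → V} {q h : W} {z : ℂ} (hU : DifferentiableAt ℝ U (q + z • h))
    (v : ℂ) : fderiv ℝ (fun z : ℂ => U (q + z • h)) z v = fderiv ℝ U (q + z • h) (v • h) := by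
  have h1 : HasFDerivAt (fun z : ℂ => q + z • h)
      ((ContinuousLinearMap.id ℝ ℂ).smulRight h) z := ((hasFDerivAt_id z).smul_const h).const_add q
  exact congrArg (· v) (hU.hasFDerivAt.comp z h1).fderiv

theorem cr_EmbLimit {φ : Fr} {U : W → V} (hU : IsLine φ.J U) {q h : W} (hh : det2 q h ≠ 0)
    (z : ℂ) : CR φ.A (fun z : ℂ => U (q + z • h)) {z} := by
  intro y hy
  rw [mem_singleton_iff.1 hy]
  have h0 := ne_EmbLimit hh z
  have h1 := diff_EmbLimit hU.c1 h0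
  rw [slice_EmbLimit h1, slice_EmbLimit h1, hU.hol _ h0, one_smul, Fr.J, φ.AB _ (hU.ne _ h0)]

theorem smooth_EmbLimit {n : WithTop ℕ∞} {U : W → V} (hU : ContDiffOn ℝ n U {0}ᶜ) {q h : W}
    (hh : det2 q h ≠ 0) : ContDiff ℝ n fun z : ℂ => U (q + z • h) :=
  hU.comp_contDiff (by fun_prop) (ne_EmbLimit hh)

theorem unif_EmbLimit {X Y Z : Type} [UniformSpace Y] [UniformSpace Z] {G : Y → Z} {K : Set Y}
    (hK : IsCompact K) (hG : ∀ y ∈ K, ContinuousAt G y) {F : ℕ → X → Y} {f : X → Y} {S : Set X}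
    (hf : MapsTo f S K) (h : TendstoUniformlyOn F f atTop S) :
    TendstoUniformlyOn (fun n x => G (F n x)) (fun x => G (f x)) atTop S := fun _ hu =>
  (h _ (hK.uniformContinuousAt_of_continuousAt G hG hu)).mono fun _ hn x hx => hn x hx (hf hx)

theorem inj_EmbLimit {U : W → V} (hU : Hom1 U) {q h : W} {a : Fin 3} {z z' : ℂ}
    (h1 : U (q + z • h) a ≠ 0) (h2 : U (q + z' • h) a ≠ 0)
    (e : ch a (U (q + z • h)) = ch a (U (q + z' • h))) :
    ∃ c : ℂ, c ≠ 0 ∧ U (q + z' • h) = U (c • (q + z • h)) :=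
  ⟨_, div_ne_zero h2 h1, by rw [hU.2]; exact ch_eq_EmbLimit h1 h2 e⟩

/-- `C¹` convergence of the slices. -/
theorem slconv_EmbLimit {U : ℕ → W → V} {U' : W → V} (hU : ∀ n, Hom1 (U n)) (hU' : Hom1 U')
    (hc : Conv U U') {q h : W} (hh : det2 q h ≠ 0) {r : ℝ} (hr : 0 < r) :
    TendstoUniformlyOn (fun n z => ((fun z : ℂ => U n (q + z • h)) z,
        fderiv ℝ (fun z : ℂ => U n (q + z • h)) z))
      (fun z => ((fun z : ℂ => U' (q + z • h)) z, fderiv ℝ (fun z : ℂ => U' (q + z • h)) z))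
      atTop (ball 0 r) := by
  rw [Metric.tendstoUniformlyOn_iff]
  intro ε hε
  have h1 : 0 < ‖q‖ + (r + 1) * ‖h‖ + 1 := by positivity
  have h2 : 0 < ε / (‖q‖ + (r + 1) * ‖h‖ + 1) := by positivity
  have h3 : ∀ t : ℝ, t ≤ ‖q‖ + (r + 1) * ‖h‖ → ε / (‖q‖ + (r + 1) * ‖h‖ + 1) * t < ε := fun t ht => by
    rw [div_mul_eq_mul_div, div_lt_iff₀ h1]
    exact mul_lt_mul_of_pos_left (by linarith) hε
  filter_upwards [hc _ h2] with n hn z hz
  have hz' : ‖z‖ * ‖h‖ ≤ r * ‖h‖ :=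
    mul_le_mul_of_nonneg_right (mem_ball_zero_iff.1 hz).le (norm_nonneg h)
  have h0 := ne_EmbLimit hh z
  rw [dist_comm, Prod.dist_eq, dist_eq_norm, dist_eq_norm]
  refine max_lt ((val_EmbLimit hU' (hU n) hn _).trans_lt (h3 _ ?_)) (lt_of_le_of_lt ?_ (h3 ‖h‖ ?_))
  · have := norm_add_le q (z • h)
    rw [norm_smul] at this
    nlinarith [norm_nonneg h]
  · refine ContinuousLinearMap.opNorm_le_bound _ (by positivity) fun v => ?_
    rw [sub_apply, slice_EmbLimit (diff_EmbLimit (hU n).1 h0),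
      slice_EmbLimit (diff_EmbLimit hU'.1 h0), ← sub_apply]
    refine (ContinuousLinearMap.le_opNorm _ _).trans ?_
    rw [norm_smul, mul_comm ‖v‖, ← mul_assoc]
    gcongr
    exact der_EmbLimit hU' (hU n) hn h0
  · nlinarith [norm_nonneg h, norm_nonneg q]

theorem imm_EmbLimit (hS : LineSmoothStmt) (hF : FinStmt) (hC : ChartStmt) (hCu : CuspStmt)
    {P : Type} [TopologicalSpace P] {φ : P → Fr} {p : ℕ → P} {p₀ : P}
    {U : ℕ → W → V} {U' : W → V} (hφ : FrFam φ) (hp : Tendsto p atTop (𝓝 p₀))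
    (hU : ∀ n, IsLine (φ (p n)).J (U n) ∧ IsEmb (U n)) (hU' : IsLine (φ p₀).J U') (hc : Conv U U')
    (H : ∀ q₁ q₂ : W, q₁ ≠ 0 → q₂ ≠ 0 → Function.Injective (fderiv ℝ U' q₁) →
      Function.Injective (fderiv ℝ U' q₂) → U' q₁ = U' q₂ → det2 q₁ q₂ = 0)
    {q : W} (hq : q ≠ 0) : Function.Injective (fderiv ℝ U' q) := by
  refine (injective_iff_map_eq_zero _).2 fun h hk => by_contra fun hk0 => ?_
  have hh : det2 q h ≠ 0 := fun e => by
    obtain ⟨c, rfl⟩ := prop_EmbLimit hq e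
    rw [euler_EmbLimit (hom_EmbLimit hU') hq, smul_eq_zero] at hk
    exact hk0 (by rw [hk.resolve_right (hU'.ne _ hq), zero_smul])
  obtain ⟨a, ha⟩ : ∃ a, U' q a ≠ 0 := Function.ne_iff.1 (hU'.ne _ hq)
  obtain ⟨A, hA⟩ := hC.1 (φ p₀) a
  choose An hAn using fun n => hC.1 (φ (p n)) a
  have hv := smooth_EmbLimit (hS _ _ hU') hh
  have hvn := fun n => smooth_EmbLimit (hU n).1.c1 hh
  have hT := ((few_EmbLimit (hF _ _ hU').1 hh).union
    (few_EmbLimit ((hF _ _ hU').2 (U' q)) hh)).subset (sdiff_subset (t := {0}))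
  obtain ⟨r, hr, Hr⟩ : ∃ r : ℝ, 0 < r ∧ ∀ z ∈ closedBall (0 : ℂ) r, U' (q + z • h) a ≠ 0 ∧
      (z ≠ 0 → ∀ c : ℂ, c ≠ 0 → Function.Injective (fderiv ℝ U' (c • (q + z • h))) ∧
        ∀ d : ℂ, U' (c • (q + z • h)) ≠ d • U' q) := by
    have h1 : ∀ᶠ z in 𝓝 (0 : ℂ), U' (q + z • h) a ≠ 0 :=
      ((continuous_apply a).comp hv.continuous).continuousAt.eventually_ne (by simpa using ha)
    have h2 := hT.isClosed.isOpen_compl.mem_nhds (x := 0) (fun e => e.2 rfl)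
    obtain ⟨r, hr, H⟩ := Metric.nhds_basis_closedBall.eventually_iff.1 (h1.and h2)
    refine ⟨r, hr, fun z hz => ⟨(H hz).1, fun h0 c hc => ⟨by_contra fun hi => ?_, fun d e => ?_⟩⟩⟩
    · exact (H hz).2 ⟨Or.inl ⟨c, hc, hi⟩, h0⟩
    · exact (H hz).2 ⟨Or.inr ⟨c, hc, d, e⟩, h0⟩
  have hsl := slconv_EmbLimit (fun n => hom_EmbLimit (hU n).1) (hom_EmbLimit hU') hc hh hr
  have hcont : Continuous fun z => ((fun z : ℂ => U' (q + z • h)) z,
      fderiv ℝ (fun z : ℂ => U' (q + z • h)) z) :=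
    hv.continuous.prodMk (hv.continuous_fderiv (by simp))
  have hK := (isCompact_closedBall (0 : ℂ) r).image hcont
  have hKa : ∀ y ∈ (fun z => ((fun z : ℂ => U' (q + z • h)) z,
      fderiv ℝ (fun z : ℂ => U' (q + z • h)) z)) '' closedBall 0 r, y.1 a ≠ 0 := by
    rintro _ ⟨z, hz, rfl⟩
    exact (Hr z hz).1
  have hmap := (mapsTo_image (fun z => ((fun z : ℂ => U' (q + z • h)) z,
      fderiv ℝ (fun z : ℂ => U' (q + z • h)) z)) (closedBall 0 r)).mono_left ball_subset_closedBall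
  have hO : IsOpen {y : V × (ℂ →L[ℝ] V) | y.1 a ≠ 0} :=
    isOpen_ne_fun (by fun_prop) continuous_const
  obtain ⟨ε, hε, Hε⟩ := hK.exists_thickening_subset_open hO hKa
  obtain ⟨N, hN⟩ := eventually_atTop.1 (Metric.tendstoUniformlyOn_iff.1 hsl ε hε)
  have hne : ∀ n, ∀ z ∈ ball (0 : ℂ) r, U (n + N) (q + z • h) a ≠ 0 := fun n z hz =>
    Hε (mem_thickening_iff.2 ⟨_, hmap hz, by
      rw [dist_comm]; exact hN (n + N) (Nat.le_add_left _ _) z hz⟩)
  have hsh := tendsto_add_atTop_nat N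
  have hsl' := hsl.seq_tendstoUniformlyOn _ hsh
  have hder : ∀ {u : ℂ → V} {z : ℂ}, ContDiff ℝ 1 u → u z a ≠ 0 →
      fderiv ℝ (ch a ∘ u) z = (fderiv ℝ (ch a) (u z)).comp (fderiv ℝ u z) := fun hu hz =>
    fderiv_comp _ ((ch_smooth_EmbLimit hz).differentiableAt (by simp))
      (hu.differentiable one_ne_zero _)
  have hv1 : ContDiff ℝ 1 fun z : ℂ => U' (q + z • h) := hv.of_le (by simp)
  have hb : ∀ z ∈ ball (0 : ℂ) r, U' (q + z • h) a ≠ 0 := fun z hz =>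
    (Hr z (ball_subset_closedBall hz)).1
  refine hCu A (fun n => An (n + N)) univ (ch a ∘ fun z : ℂ => U' (q + z • h))
    (fun n => ch a ∘ fun z : ℂ => U (n + N) (q + z • h)) r (hC.2.1 _ a A hA).1
    (fun n => (hC.2.1 _ a _ (hAn _)).1)
    (hC.2.2 P φ (fun n => p (n + N)) p₀ a _ A hφ (hp.comp hsh) (fun n => hAn _) hA) hr
    (fun z hz => ((ch_smooth_EmbLimit (hb z hz)).comp z hv.contDiffAt).contDiffWithinAt)
    (mapsTo_univ _ _) (fun z hz => ((hC.2.1 _ a A hA).2 _ z (hv1.differentiable one_ne_zero z)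
      (hb z hz) (cr_EmbLimit hU' hh z)).1 z rfl) ?_ (fun n => ⟨fun z hz =>
      (((ch_smooth_EmbLimit (hne n z hz)).of_le (by simp)).comp z
        (hvn _).contDiffAt).contDiffWithinAt, mapsTo_univ _ _, fun z hz =>
      ((hC.2.1 _ a _ (hAn _)).2 _ z ((hvn _).differentiable one_ne_zero z)
        (hne n z hz) (cr_EmbLimit (hU _).1 hh z)).1 z rfl, ?_, ?_⟩) ?_ ?_ ?_
  · intro z hz z' hz' e
    obtain ⟨c, hc0, e1⟩ := inj_EmbLimit (hom_EmbLimit hU') (hb z hz) (hb z' hz') e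
    have h1 := (Hr z (ball_subset_closedBall hz)).2
    have h2 := (Hr z' (ball_subset_closedBall hz')).2
    by_cases h3 : z = 0
    · by_contra h4
      refine (h2 (fun e => h4 (h3.trans e.symm)) 1 one_ne_zero).2 c ?_
      rw [one_smul, e1, h3, zero_smul, add_zero, hU'.hom]
    by_cases h4 : z' = 0
    · refine ((h1 h3 c hc0).2 1 ?_).elim
      rw [← e1, h4, zero_smul, add_zero, one_smul]
    have h5 := (h2 h4 1 one_ne_zero).1
    rw [one_smul] at h5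
    have h6 := smul_ne_zero hc0 (ne_EmbLimit hh z)
    obtain ⟨d, hd⟩ := prop_EmbLimit h6 (H _ _ h6 (ne_EmbLimit hh z') (h1 h3 c hc0).1 h5 e1.symm)
    rw [smul_smul] at hd
    exact par_EmbLimit hh (one_smul ℂ _).symm hd
  · intro z hz z' hz' e
    obtain ⟨c, hc0, e1⟩ := inj_EmbLimit (hom_EmbLimit (hU _).1) (hne n z hz) (hne n z' hz') e
    exact par_EmbLimit hh (one_smul ℂ _).symm ((hU _).2.inj (ne_EmbLimit hh z')
      (smul_ne_zero hc0 (ne_EmbLimit hh z)) e1)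
  · intro z hz e
    have h0 := ne_EmbLimit hh z
    obtain ⟨c, e1⟩ := ((hC.2.1 _ a _ (hAn _)).2 _ z ((hvn _).differentiable one_ne_zero z)
        (hne n z hz) (cr_EmbLimit (hU _).1 hh z)).2.1 e
    rw [slice_EmbLimit (diff_EmbLimit (hU _).1.c1 h0), one_smul,
      ← euler_EmbLimit (hom_EmbLimit (hU _).1) h0] at e1
    have e2 := (hU _).2.imm _ h0 e1
    have h1 : h.1 = c * (q.1 + z * h.1) := congrArg Prod.fst e2
    have h2 : h.2 = c * (q.2 + z * h.2) := congrArg Prod.snd e2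
    refine hh ?_
    unfold det2
    linear_combination (q.1 + z * h.1) * h2 - (q.2 + z * h.2) * h1
  · exact unif_EmbLimit (G := fun y : V × (ℂ →L[ℝ] V) => ch a y.1) hK (fun y hy =>
      (ch_smooth_EmbLimit (hKa y hy)).continuousAt.comp continuousAt_fst) hmap hsl'
  · have h1 := unif_EmbLimit (G := fun y : V × (ℂ →L[ℝ] V) => (fderiv ℝ (ch a) y.1).comp y.2) hK
      (fun y hy =>
      (((ch_smooth_EmbLimit (hKa y hy)).continuousAt_fderiv (by simp)).comp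
        continuousAt_fst).clm_comp continuousAt_snd) hmap hsl'
    refine (h1.congr (Eventually.of_forall fun n z hz => ?_)).congr_right fun z hz => ?_
    · exact (hder (hvn _) (hne n z hz)).symm
    · exact (hder hv1 (hb z hz)).symm
  · refine ((hC.2.1 _ a A hA).2 _ 0 (hv1.differentiable one_ne_zero 0)
      (hb 0 (mem_ball_self hr)) (cr_EmbLimit hU' hh 0)).2.2 ⟨0, ?_⟩
    rw [slice_EmbLimit (diff_EmbLimit hU'.c1 (ne_EmbLimit hh 0)), zero_smul, zero_smul, add_zero,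
      one_smul, hk]

theorem embLimit (hS : LineSmoothStmt) (hK : CompactStmt) (hF : FinStmt) (hP : GPersistStmt)
    (hC : ChartStmt) (hU : CuspStmt) : EmbLimitStmt := by
  intro P _ φ om p p₀ U U' hφ hom ht hp hn hU' hc H
  have h1 : ∀ q₁ q₂ : W, q₁ ≠ 0 → q₂ ≠ 0 → Function.Injective (fderiv ℝ U' q₁) →
      Function.Injective (fderiv ℝ U' q₂) → U' q₁ = U' q₂ → det2 q₁ q₂ = 0 :=
    fun _ _ => two_EmbLimit hK hF hP hφ hom ht hp (fun n => hom_EmbLimit (hn n).1) hU' hc H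
  have h2 : ∀ q, q ≠ 0 → Function.Injective (fderiv ℝ U' q) := fun _ =>
    imm_EmbLimit hS hF hC hU hφ hp hn hU' hc h1
  refine ⟨h2, fun q hq q' hq' e => ?_⟩
  obtain ⟨c, rfl⟩ := prop_EmbLimit hq (h1 q q' hq hq' (h2 q hq) (h2 q' hq') e)
  rw [hU'.hom] at e
  rw [smul_left_injective ℂ (hU'.ne q hq) (e.symm.trans (one_smul ℂ _).symm), one_smul]

end Pool.Agent.MP_2fc7fa_gt.N
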