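import Pool.Agent.MP_2fc7fa_gt.N.IfB2

/-! Limits of embedded lines, first part: two immersed points with the same image are
proportional. -/

open scoped ContDiff ComplexConjugate Topology
open Set Complex Filter Metric

namespace Pool.Agent.MP_2fc7fa_gt.N

theorem unit_EmbLimit {X : Type} [NormedAddCommGroup X] [NormedSpace ℝ X] {q : X} (hq : q ≠ 0) :
    ∃ (t : ℝ) (u : X), 0 < t ∧ t = ‖q‖ ∧ ‖u‖ = 1 ∧ q = t • u :=
  ⟨‖q‖, ‖q‖⁻¹ • q, norm_pos_iff.2 hq, rfl, norm_smul_inv_norm hq,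
    (smul_inv_smul₀ (norm_ne_zero_iff.2 hq) q).symm⟩

theorem rsmul_EmbLimit {U : W → V} (h : Hom1 U) (t : ℝ) (q : W) : U (t • q) = t • U q := by
  rw [← Complex.coe_smul, h.2, Complex.coe_smul]

theorem zero_EmbLimit {U : W → V} (h : Hom1 U) : U 0 = 0 := by
  simpa using h.2 0 0

theorem fderiv_EmbLimit {U : W → V} (h : Hom1 U) {t : ℝ} (ht : t ≠ 0) (q : W) :
    fderiv ℝ U (t • q) = fderiv ℝ U q := by
  have h1 := fderiv_comp_smul (𝕜 := ℝ) (f := U) (x := q) t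
  have h2 : (fun x => U (t • x)) = t • U := funext fun x => rsmul_EmbLimit h t x
  rw [h2, fderiv_const_smul_field] at h1
  exact (smul_right_injective _ ht h1).symm

theorem val_EmbLimit {U U' : W → V} (h : Hom1 U) (h' : Hom1 U') {ε : ℝ} (hn : Near ε U' U) (q : W) :
    ‖U' q - U q‖ ≤ ε * ‖q‖ := by
  by_cases hq : q = 0
  · subst hq; simp [zero_EmbLimit h, zero_EmbLimit h']
  obtain ⟨t, u, ht, htq, hu, e⟩ := unit_EmbLimit hq
  rw [← htq, e, rsmul_EmbLimit h, rsmul_EmbLimit h', ← smul_sub, norm_smul, Real.norm_of_nonneg ht.le,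
    mul_comm]
  exact mul_le_mul_of_nonneg_right (hn u hu).1 ht.le

theorem der_EmbLimit {U U' : W → V} (h : Hom1 U) (h' : Hom1 U') {ε : ℝ} (hn : Near ε U' U) {q : W}
    (hq : q ≠ 0) : ‖fderiv ℝ U' q - fderiv ℝ U q‖ ≤ ε := by
  obtain ⟨t, u, ht, -, hu, e⟩ := unit_EmbLimit hq
  rw [e, fderiv_EmbLimit h ht.ne', fderiv_EmbLimit h' ht.ne']
  exact (hn u hu).2

theorem cont_EmbLimit {U : W → V} (h : Hom1 U) : Continuous U := by
  obtain ⟨M, hM⟩ := (isCompact_sphere (0 : W) 1).exists_bound_of_continuousOn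
    (h.1.continuousOn.mono fun q hq e => by
      rw [mem_singleton_iff.1 e] at hq
      simp at hq)
  have hb : ∀ q, ‖U q‖ ≤ M * ‖q‖ := fun q => by
    by_cases hq : q = 0
    · subst hq; simp [zero_EmbLimit h]
    obtain ⟨t, u, ht, htq, hu, e⟩ := unit_EmbLimit hq
    rw [← htq, e, rsmul_EmbLimit h, norm_smul, Real.norm_of_nonneg ht.le, mul_comm]
    exact mul_le_mul_of_nonneg_right (hM u (by simpa using hu)) ht.le
  refine continuous_iff_continuousAt.2 fun q => ?_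
  by_cases hq : q = 0
  · subst hq
    rw [ContinuousAt, zero_EmbLimit h]
    refine squeeze_zero_norm hb ?_
    have : Continuous fun q : W => M * ‖q‖ := by fun_prop
    simpa using this.tendsto 0
  · exact h.1.continuousOn.continuousAt (isOpen_compl_singleton.mem_nhds hq)

theorem hom_EmbLimit {J : V → V → V} {U : W → V} (h : IsLine J U) : Hom1 U := ⟨h.c1, h.hom⟩

theorem low_EmbLimit {U : W → V} (h : Hom1 U) (hn : ∀ q, q ≠ 0 → U q ≠ 0) :
    ∃ m : ℝ, 0 < m ∧ ∀ q, m * ‖q‖ ≤ ‖U q‖ := by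
  obtain ⟨u, hu, hm⟩ := (isCompact_sphere (0 : W) 1).exists_isMinOn
    (NormedSpace.sphere_nonempty.2 zero_le_one) (cont_EmbLimit h).norm.continuousOn
  have hu0 : u ≠ 0 := fun e => by simp [e] at hu
  refine ⟨‖U u‖, norm_pos_iff.2 (hn u hu0), fun q => ?_⟩
  by_cases hq : q = 0
  · simp [hq]
  obtain ⟨t, v, ht, htq, hv, e⟩ := unit_EmbLimit hq
  rw [← htq, e, rsmul_EmbLimit h, norm_smul, Real.norm_of_nonneg ht.le, mul_comm]
  exact mul_le_mul_of_nonneg_left (hm (by simpa using hv)) ht.le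

theorem closedMap_EmbLimit {U : W → V} (h : Hom1 U) (hn : ∀ q, q ≠ 0 → U q ≠ 0) :
    IsClosedMap U := by
  obtain ⟨m, hm, H⟩ := low_EmbLimit h hn
  refine (isProperMap_iff_tendsto_cocompact.2 ⟨cont_EmbLimit h, ?_⟩).isClosedMap
  rw [← cobounded_eq_cocompact, ← cobounded_eq_cocompact, ← tendsto_norm_atTop_iff_cobounded]
  exact tendsto_atTop_mono H ((tendsto_norm_cobounded_atTop (E := W)).const_mul_atTop hm)

theorem closedRange_EmbLimit {U : W → V} (h : Hom1 U) (hn : ∀ q, q ≠ 0 → U q ≠ 0) :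
    IsClosed (range U) := (closedMap_EmbLimit h hn).isClosed_range

/-- Points in the images of the approximants lie in the image of the limit. -/
theorem rangeLim_EmbLimit {v : ℕ → W → V} {w : W → V} (hv : ∀ n, Hom1 (v n)) (h : Hom1 w)
    (hn : ∀ q, q ≠ 0 → w q ≠ 0) (hc : Conv v w) {y : V} (hy : ∀ᶠ n in atTop, y ∈ range (v n)) :
    y ∈ range w := by
  obtain ⟨m, hm, H⟩ := low_EmbLimit h hn
  rw [← (closedRange_EmbLimit h hn).closure_eq, Metric.mem_closure_iff]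
  intro ε hε
  have h1 : 0 < ‖y‖ + 1 := by positivity
  obtain ⟨n, hn1, hn2, q, hq⟩ := ((hc (m / 2) (by positivity)).and
    ((hc (ε * m / (2 * (‖y‖ + 1))) (by positivity)).and hy)).exists
  have h2 := val_EmbLimit h (hv n) hn1 q
  have h3 := val_EmbLimit h (hv n) hn2 q
  rw [hq] at h2 h3
  have h4 := H q
  have h5 : ‖w q‖ ≤ ‖y‖ + ‖y - w q‖ := by
    simpa using norm_sub_le y (y - w q)
  have h6 : m * ‖q‖ < 2 * (‖y‖ + 1) := by linarith
  refine ⟨w q, mem_range_self q, ?_⟩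
  rw [dist_eq_norm]
  refine h3.trans_lt ?_
  rw [div_mul_eq_mul_div, div_lt_iff₀ (by positivity), mul_assoc]
  exact mul_lt_mul_of_pos_left h6 hε

theorem notRange_EmbLimit {U : W → V} (h : Hom1 U) : ∃ y, y ∉ range U := by
  have h1 : dimH (U '' {0}ᶜ) ≤ dimH ({0}ᶜ : Set W) :=
    dimH_image_le_of_locally_lipschitzOn fun x hx => by
      obtain ⟨K, t, ht, hK⟩ := (h.1.contDiffAt
        (isOpen_compl_singleton.mem_nhds hx)).exists_lipschitzOnWith
      exact ⟨K, t, mem_nhdsWithin_of_mem_nhds ht, hK⟩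
  have h2 : dimH ({0}ᶜ : Set W) ≤ Module.finrank ℝ W :=
    (dimH_mono (subset_univ _)).trans (Real.dimH_univ_eq_finrank W).le
  have h3 : range U = U '' {0}ᶜ ∪ {U 0} := by
    rw [← image_singleton (f := U), ← image_union, compl_union_self, image_univ]
  have h4 : dimH (range U) < Module.finrank ℝ V := by
    rw [h3, dimH_union, dimH_singleton]
    have e1 : Module.finrank ℝ W = 4 := by simp [W, Module.finrank_prod]
    have e2 : Module.finrank ℝ V = 6 := by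
      rw [Module.finrank_pi_fintype]; simp
    rw [e1] at h2
    rw [e2]
    refine max_lt ((h1.trans h2).trans_lt ?_) ?_
    · exact_mod_cast (by norm_num : 4 < 6)
    · exact_mod_cast (by norm_num : 0 < 6)
  exact (dense_compl_of_dimH_lt_finrank h4).nonempty

theorem prop_EmbLimit {q r : W} (hq : q ≠ 0) (h : det2 q r = 0) : ∃ c : ℂ, r = c • q := by
  unfold det2 at h
  by_cases h1 : q.1 = 0
  · have h2 : q.2 ≠ 0 := fun h2 => hq (Prod.ext h1 h2)
    refine ⟨r.2 / q.2, Prod.ext ?_ ?_⟩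
    · simp only [Prod.smul_fst, smul_eq_mul]
      field_simp
      linear_combination -h
    · simp only [Prod.smul_snd, smul_eq_mul]
      field_simp
  · refine ⟨r.1 / q.1, Prod.ext ?_ ?_⟩
    · simp only [Prod.smul_fst, smul_eq_mul]
      field_simp
    · simp only [Prod.smul_snd, smul_eq_mul]
      field_simp
      linear_combination h

theorem ne_EmbLimit {q h : W} (hh : det2 q h ≠ 0) (z : ℂ) : q + z • h ≠ 0 := by
  intro e
  have h1 : q.1 + z * h.1 = 0 := congrArg Prod.fst e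
  have h2 : q.2 + z * h.2 = 0 := congrArg Prod.snd e
  exact hh (by unfold det2; linear_combination h.2 * h1 - h.1 * h2)

theorem par_EmbLimit {q h f : W} (hh : det2 q h ≠ 0) {z z' c c' : ℂ} (e : q + z • h = c • f)
    (e' : q + z' • h = c' • f) : z = z' := by
  have h1 : q.1 + z * h.1 = c * f.1 := congrArg Prod.fst e
  have h2 : q.2 + z * h.2 = c * f.2 := congrArg Prod.snd e
  have h3 : q.1 + z' * h.1 = c' * f.1 := congrArg Prod.fst e'
  have h4 : q.2 + z' * h.2 = c' * f.2 := congrArg Prod.snd e'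
  refine mul_right_cancel₀ hh ?_
  unfold det2
  linear_combination (q.1 + z' * h.1) * h2 - (q.2 + z' * h.2) * h1 + c * f.2 * h3 - c * f.1 * h4

/-- An affine line that misses the origin meets finitely many lines in a finite set. -/
theorem few_EmbLimit {S : Set W} (hS : FewLines S) {q h : W} (hh : det2 q h ≠ 0) :
    {z : ℂ | ∃ c : ℂ, c ≠ 0 ∧ c • (q + z • h) ∈ S}.Finite := by
  obtain ⟨F, hF, H⟩ := hS
  refine (hF.biUnion (t := fun f => {z : ℂ | ∃ c : ℂ, q + z • h = c • f}) fun f _ =>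
    Set.Subsingleton.finite fun z ⟨c, e⟩ z' ⟨c', e'⟩ => par_EmbLimit hh e e').subset ?_
  rintro z ⟨c, hc, hz⟩
  obtain ⟨f, hf, d, e⟩ := H _ hz
  exact mem_biUnion hf ⟨c⁻¹ * d, by rw [mul_smul, ← e, inv_smul_smul₀ hc]⟩

theorem fibre_EmbLimit (hF : FinStmt) {φ : Fr} {U : W → V} (hU : IsLine φ.J U) {x : V}
    (hx : x ≠ 0) : {q | U q = x}.Finite := by
  obtain ⟨F, hF, H⟩ := (hF φ U hU).2 x
  refine (hF.biUnion (t := fun f => {q | U q = x ∧ ∃ c : ℂ, q = c • f}) fun f _ =>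
    Set.Subsingleton.finite ?_).subset ?_
  · rintro _ ⟨e, c, rfl⟩ _ ⟨e', c', rfl⟩
    rw [hU.hom] at e e'
    have h0 : U f ≠ 0 := fun h0 => hx (by rw [← e, h0, smul_zero])
    rw [smul_left_injective ℂ h0 (e.trans e'.symm)]
  · intro q hq
    obtain ⟨f, hf, c, e⟩ := H q ⟨1, by rw [one_smul]; exact hq⟩
    exact mem_biUnion hf ⟨hq, c, e⟩

/-- Unique continuation: a line that is locally contained in another one is contained in it. -/
theorem uc_EmbLimit (hF : FinStmt) (hP : GPersistStmt) {φ : Fr} {U w : W → V}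
    (hU : IsLine φ.J U) (hw : IsLine φ.J w) {r h : W} (hh : det2 r h ≠ 0)
    (h0 : ∀ᶠ s in 𝓝 r, w s ∈ range U) (z : ℂ) : w (r + z • h) ∈ range U := by
  have hL : Continuous fun t : ℂ => r + t • h := by fun_prop
  have hcl := closedRange_EmbLimit (hom_EmbLimit hU) hU.ne
  have hwc := (cont_EmbLimit (hom_EmbLimit hw)).comp hL
  have hcR : IsClosed {t : ℂ | w (r + t • h) ∈ range U} := hcl.preimage hwc
  obtain ⟨F, hFf, HF⟩ := (hF φ U hU).1
  let T : Set ℂ := ⋃ f ∈ F, {t : ℂ | ∃ c : ℂ, c ≠ 0 ∧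
    c • (r + t • h) ∈ {s | ∃ d : ℂ, w s = d • U f}}
  have hT : T.Finite := hFf.biUnion fun f _ => few_EmbLimit ((hF φ w hw).2 (U f)) hh
  let S : Set ℂ := interior {t : ℂ | w (r + t • h) ∈ range U}
  have hS0 : (0 : ℂ) ∈ S := mem_interior_iff_mem_nhds.2
    ((hL.tendsto' 0 r (by simp)).eventually h0)
  have hd : Dense Tᶜ := hT.countable.dense_compl ℝ
  have hc : IsPreconnected Tᶜ :=
    (hT.countable.isConnected_compl_of_one_lt_rank (by simp)).isPreconnected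
  have key : closure S ∩ Tᶜ ⊆ S := by
    rintro t ⟨ht, htT⟩
    by_contra hn
    have hs0 := ne_EmbLimit hh t
    have hfin := fibre_EmbLimit hF hU (hw.ne _ hs0)
    have hq0 : ∀ q, U q = w (r + t • h) → q ≠ 0 := fun q hq e =>
      hw.ne _ hs0 (by rw [← hq, e, zero_EmbLimit (hom_EmbLimit hU)])
    have H : ∀ q, ∃ δ : ℝ, 0 < δ ∧ (U q = w (r + t • h) → ∀ᶠ s in 𝓝 (r + t • h),
        w s ∈ U '' ball q δ → ∃ c : ℂ, s = c • (r + t • h)) := by
      intro q
      by_cases hq : U q = w (r + t • h)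
      swap
      · exact ⟨1, one_pos, fun e => (hq e).elim⟩
      have hi : Function.Injective (fderiv ℝ U q) := by
        by_contra hi
        obtain ⟨f, hf, c, e⟩ := HF q hi
        exact htT (mem_biUnion hf ⟨1, one_ne_zero, c, by rw [one_smul, ← hq, e, hU.hom]⟩)
      rcases hP φ U w q _ hU hw (hq0 q hq) hs0 hq hi 1 one_pos with h1 | ⟨⟨δ, hδ, h1⟩, -⟩
      · exact (hn (mem_interior_iff_mem_nhds.2 ((hL.tendsto t).eventually
          (h1.mono fun s hs => image_subset_range _ _ hs)))).elim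
      · exact ⟨δ, hδ, fun _ => h1⟩
    choose δ hδ H using H
    have hO : IsOpen (⋃ q ∈ {q | U q = w (r + t • h)}, ball q (δ q)) :=
      isOpen_biUnion fun _ _ => isOpen_ball
    have h2 : ∀ᶠ s in 𝓝 (r + t • h),
        w s ∉ U '' (⋃ q ∈ {q | U q = w (r + t • h)}, ball q (δ q))ᶜ := by
      refine (cont_EmbLimit (hom_EmbLimit hw)).continuousAt.eventually
        ((closedMap_EmbLimit (hom_EmbLimit hU) hU.ne _ hO.isClosed_compl).isOpen_compl.mem_nhds ?_)
      rintro ⟨q, hq, e⟩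
      exact hq (mem_biUnion e (mem_ball_self (hδ q)))
    have h3 := (hL.tendsto t).eventually (h2.and ((hfin.eventually_all).2 fun q hq => H q hq))
    obtain ⟨t', ⟨h4, h5⟩, ht'⟩ := mem_closure_iff_nhds.1 ht _ h3
    obtain ⟨q, hq⟩ := interior_subset ht'
    have h6 : q ∈ ⋃ q ∈ {q | U q = w (r + t • h)}, ball q (δ q) := by
      by_contra h6
      exact h4 ⟨q, h6, hq⟩
    obtain ⟨q', hq', h7⟩ := mem_iUnion₂.1 h6
    obtain ⟨c, e⟩ := h5 q' hq' ⟨q, h7, hq⟩
    exact hn (par_EmbLimit hh e (one_smul ℂ _).symm ▸ ht')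
  have h1 : Tᶜ ⊆ S := hc.subset_of_closure_inter_subset isOpen_interior
    (by rw [inter_comm]; exact hd.inter_open_nonempty _ isOpen_interior ⟨0, hS0⟩) key
  exact hcR.closure_subset_iff.2 (h1.trans interior_subset) (hd z)

theorem homc_EmbLimit {U : W → V} (h : Hom1 U) (g : W ≃L[ℂ] W) : Hom1 (U ∘ g) :=
  ⟨h.1.comp ((g : W →L[ℂ] W).restrictScalars ℝ).contDiff.contDiffOn
    fun _ hq e => hq (g.map_eq_zero_iff.1 e), fun c q => by simp [h.2]⟩

/-- Two immersed points of the limit with the same image are proportional. -/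
theorem two_EmbLimit (hK : CompactStmt) (hF : FinStmt) (hP : GPersistStmt)
    {P : Type} [TopologicalSpace P] {φ : P → Fr} {om : P → Symp 1} {p : ℕ → P} {p₀ : P}
    {U : ℕ → W → V} {U' : W → V} (hφ : FrFam φ) (hom : Continuous om)
    (ht : ∀ a, Tame (φ a).J (om a)) (hp : Tendsto p atTop (𝓝 p₀))
    (hU : ∀ n, Hom1 (U n)) (hU' : IsLine (φ p₀).J U') (hc : Conv U U')
    (H : ∀ n (x y : V), x ≠ 0 → (∀ c : ℂ, y ≠ c • x) → ∃ w, IsLine (φ (p n)).J w ∧
      x ∈ range w ∧ y ∈ range w ∧ ∀ q q' r r' : W, q ≠ 0 → q' ≠ 0 → U n q = w r → U n q' = w r' →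
        (∃ c : ℂ, q' = c • q) ∨ y ∈ range (U n))
    {q₁ q₂ : W} (h₁ : q₁ ≠ 0) (h₂ : q₂ ≠ 0) (i₁ : Function.Injective (fderiv ℝ U' q₁))
    (i₂ : Function.Injective (fderiv ℝ U' q₂)) (e : U' q₁ = U' q₂) : det2 q₁ q₂ = 0 := by
  by_contra hd
  obtain ⟨y, hy⟩ := notRange_EmbLimit (hom_EmbLimit hU')
  have hx := hU'.ne _ h₁
  have hyx : ∀ c : ℂ, y ≠ c • U' q₁ := fun c e => hy ⟨c • q₁, by rw [hU'.hom, e]⟩
  choose w hw hwx hwy hw2 using fun n => H n _ y hx hyx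
  obtain ⟨ψ, g, w', hψ, hw', hcw⟩ := hK P φ om p p₀ w hφ hom ht hp hw
  have hg : ∀ n, Hom1 (w (ψ n) ∘ g n) := fun n => homc_EmbLimit (hom_EmbLimit (hw _)) _
  have hr : ∀ z : V, (∀ n, z ∈ range (w n)) → z ∈ range w' := fun z hz =>
    rangeLim_EmbLimit hg (hom_EmbLimit hw') hw'.ne hcw (Eventually.of_forall fun n => by
      rw [(g n).surjective.range_comp]; exact hz _)
  obtain ⟨r₀, hr₀⟩ := hr _ hwx
  obtain ⟨r₁, hr₁⟩ := hr _ hwy
  have h0 : r₀ ≠ 0 := fun e => hx (by rw [← hr₀, e, zero_EmbLimit (hom_EmbLimit hw')])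
  have hdr : det2 r₀ (r₁ - r₀) ≠ 0 := fun e => by
    obtain ⟨c, hc⟩ := prop_EmbLimit h0 e
    exact hyx (c + 1) (by rw [← hr₁, ← hr₀, ← hw'.hom, add_smul, ← hc, one_smul, sub_add_cancel])
  have huc : ¬ ∀ᶠ s in 𝓝 r₀, w' s ∈ range U' := fun h => hy (by
    have := uc_EmbLimit hF hP hU' hw' hdr h 1
    rwa [one_smul, add_sub_cancel, hr₁] at this)
  obtain ⟨δ, hδ, Hδ⟩ : ∃ δ : ℝ, 0 < δ ∧ ∀ q ∈ ball q₁ δ, ∀ q' ∈ ball q₂ δ, det2 q q' ≠ 0 := by
    have h1 : Continuous fun a : W × W => det2 a.1 a.2 := by unfold det2; fun_prop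
    obtain ⟨δ, hδ, H⟩ := Metric.eventually_nhds_iff_ball.1
      ((h1.continuousAt (x := (q₁, q₂))).eventually_ne hd)
    exact ⟨δ, hδ, fun q hq q' hq' => H (q, q') (by rw [← ball_prod_same]; exact ⟨hq, hq'⟩)⟩
  rcases hP _ U' w' q₁ r₀ hU' hw' h₁ h0 hr₀.symm i₁ δ hδ with h1 | ⟨-, ε₁, hε₁, H₁⟩
  · exact huc (h1.mono fun s hs => image_subset_range _ _ hs)
  rcases hP _ U' w' q₂ r₀ hU' hw' h₂ h0 (e.symm.trans hr₀.symm) i₂ δ hδ with h1 | ⟨-, ε₂, hε₂, H₂⟩
  · exact huc (h1.mono fun s hs => image_subset_range _ _ hs)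
  have hcU : Conv (fun n => U (ψ n)) U' := fun ε hε => hψ.tendsto_atTop.eventually (hc ε hε)
  refine hy (rangeLim_EmbLimit (fun n => hU (ψ n)) (hom_EmbLimit hU') hU'.ne hcU ?_)
  filter_upwards [hcU ε₁ hε₁, hcU ε₂ hε₂, hcw ε₁ hε₁, hcw ε₂ hε₂] with n a1 a2 b1 b2
  obtain ⟨q, hq, r, -, e1⟩ := H₁ _ _ (hU _) (hg n) a1 b1
  obtain ⟨q', hq', r', -, e2⟩ := H₂ _ _ (hU _) (hg n) a2 b2
  have h3 := Hδ q hq q' hq'
  refine (hw2 (ψ n) q q' _ _ (fun e => h3 (by simp [det2, e])) (fun e => h3 (by simp [det2, e]))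
    e1 e2).resolve_left ?_
  rintro ⟨c, rfl⟩
  exact h3 (by simp only [det2, Prod.smul_fst, Prod.smul_snd, smul_eq_mul]; ring)

end Pool.Agent.MP_2fc7fa_gt.N
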