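import Pool.Agent.MP_2fc7fa_gt.N.IfB

/-! Energy of curves, part A: the primitive of the symplectic form and the taming bound. -/

open scoped ContDiff ComplexConjugate Topology
open Set Complex Filter Metric MeasureTheory

noncomputable section

namespace Pool.Agent.MP_2fc7fa_gt.N

/-- A one-form at a point as a linear map. -/
def lin_EnLine : (V [⋀^Fin 1]→L[ℝ] ℝ) →L[ℝ] V →L[ℝ] ℝ :=
  (ContinuousAlternatingMap.ofSubsingletonLIE (𝕜 := ℝ) (E := V) (F := ℝ)
    (0 : Fin 1)).symm.toContinuousLinearEquiv.toContinuousLinearMap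

/-- A two-form at a point as a bilinear map. -/
def bil_EnLine : (V [⋀^Fin 2]→L[ℝ] ℝ) →L[ℝ] V →L[ℝ] V →L[ℝ] ℝ :=
  (ContinuousLinearMap.compL ℝ V _ _ lin_EnLine) ∘L
    (ContinuousAlternatingMap.curryLeftLI (n := 1)).toContinuousLinearMap

lemma lin_apply_EnLine (φ : V [⋀^Fin 1]→L[ℝ] ℝ) (u : V) : lin_EnLine φ u = φ ![u] := by
  change φ (fun _ => u) = _
  congr 1
  ext1 i
  fin_cases i
  rfl

lemma bil_apply_EnLine (φ : V [⋀^Fin 2]→L[ℝ] ℝ) (u v : V) : bil_EnLine φ u v = φ ![u, v] := by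
  change lin_EnLine (φ.curryLeft u) v = _
  rw [lin_apply_EnLine]
  rfl

lemma eq_lin_EnLine (φ : V [⋀^Fin 1]→L[ℝ] ℝ) (v : Fin 1 → V) : φ v = lin_EnLine φ (v 0) := by
  rw [lin_apply_EnLine]
  congr 1
  ext1 i
  fin_cases i
  rfl

lemma bil_self_EnLine (φ : V [⋀^Fin 2]→L[ℝ] ℝ) (u : V) : bil_EnLine φ u u = 0 := by
  rw [bil_apply_EnLine]
  exact φ.map_eq_zero_of_eq _ (i := 0) (j := 1) rfl (by decide)

lemma bil_skew_EnLine (φ : V [⋀^Fin 2]→L[ℝ] ℝ) (u v : V) :
    bil_EnLine φ u v = -bil_EnLine φ v u := by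
  have h := bil_self_EnLine φ (u + v)
  simp only [map_add, add_apply, bil_self_EnLine] at h
  linarith

lemma bil_extDeriv_EnLine (β : Form 1) (z u v : V) :
    bil_EnLine (extDeriv β z) u v =
      lin_EnLine (fderiv ℝ β z u) v - lin_EnLine (fderiv ℝ β z v) u := by
  rw [bil_apply_EnLine, extDeriv, ContinuousAlternatingMap.alternatizeUncurryFin_apply]
  simp [Fin.sum_univ_two, eq_lin_EnLine, Fin.removeNth, sub_eq_add_neg]

/-- The Hermitian product. -/
def her_EnLine (y u : V) : ℂ := ∑ j, conj (y j) * u j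

/-- The squared Euclidean norm. -/
def nn_EnLine (z : V) : ℝ := ∑ j, ‖z j‖ ^ 2

/-- The component of `v` along `x`. -/
def lam_EnLine (x v : V) : ℂ := ((nn_EnLine x)⁻¹ : ℝ) * her_EnLine x v

/-- The component of `v` orthogonal to `x`. -/
def perp_EnLine (x v : V) : V := v - lam_EnLine x v • x

/-- The inverse of the Euclidean norm. -/
def rr_EnLine (x : V) : ℝ := Real.exp (-(1 / 2) * Real.log (nn_EnLine x))

/-- The projective length of the tangent vector `v` at `x`. -/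
def sp_EnLine (x v : V) : ℝ := rr_EnLine x * ‖perp_EnLine x v‖

lemma her_smul_EnLine (c : ℂ) (y u : V) : her_EnLine (c • y) u = conj c * her_EnLine y u := by
  simp [her_EnLine, Finset.mul_sum, mul_assoc]

lemma her_smul'_EnLine (c : ℂ) (y u : V) : her_EnLine y (c • u) = c * her_EnLine y u := by
  simp [her_EnLine, Finset.mul_sum, mul_left_comm]

lemma her_sub_EnLine (y u w : V) : her_EnLine y (u - w) = her_EnLine y u - her_EnLine y w := by
  simp [her_EnLine, mul_sub]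

lemma her_self_EnLine (z : V) : her_EnLine z z = nn_EnLine z := by
  simp [her_EnLine, nn_EnLine, Complex.conj_mul']

lemma nn_pos_EnLine {z : V} (hz : z ≠ 0) : 0 < nn_EnLine z := by
  obtain ⟨j, hj⟩ := Function.ne_iff.1 hz
  exact Finset.sum_pos' (fun _ _ => sq_nonneg _)
    ⟨j, Finset.mem_univ _, pow_pos (norm_pos_iff.2 hj) 2⟩

lemma nn_smul_EnLine (c : ℂ) (z : V) : nn_EnLine (c • z) = ‖c‖ ^ 2 * nn_EnLine z := by
  simp [nn_EnLine, Finset.mul_sum, mul_pow]

lemma nn_le_EnLine (z : V) : nn_EnLine z ≤ 3 * ‖z‖ ^ 2 := by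
  have h : ∀ j, ‖z j‖ ^ 2 ≤ ‖z‖ ^ 2 := fun j => by
    gcongr
    exact norm_le_pi_norm z j
  have := h 0
  have := h 1
  have := h 2
  simp only [nn_EnLine, Fin.sum_univ_three]
  linarith

lemma le_nn_EnLine (z : V) : ‖z‖ ^ 2 ≤ nn_EnLine z := by
  have h0 : 0 ≤ nn_EnLine z := Finset.sum_nonneg fun _ _ => sq_nonneg _
  rw [← Real.le_sqrt (norm_nonneg _) h0]
  refine (pi_norm_le_iff_of_nonneg (Real.sqrt_nonneg _)).2 fun j => ?_
  rw [Real.le_sqrt (norm_nonneg _) h0]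
  exact Finset.single_le_sum (f := fun j => ‖z j‖ ^ 2) (fun _ _ => sq_nonneg _)
    (Finset.mem_univ j)

lemma rr_pos_EnLine (x : V) : 0 < rr_EnLine x := Real.exp_pos _

lemma rr_sq_EnLine {x : V} (hx : x ≠ 0) : rr_EnLine x ^ 2 * nn_EnLine x = 1 := by
  have h := nn_pos_EnLine hx
  rw [rr_EnLine, ← Real.exp_nat_mul]
  nth_rewrite 2 [← Real.exp_log h]
  rw [← Real.exp_add, Real.exp_eq_one_iff]
  push_cast
  ring

lemma rr_le_EnLine {x : V} (hx : x ≠ 0) : rr_EnLine x * ‖x‖ ≤ 1 := by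
  have h1 := rr_sq_EnLine hx
  have h2 := le_nn_EnLine x
  have h3 : (rr_EnLine x * ‖x‖) ^ 2 ≤ 1 ^ 2 := by
    rw [mul_pow, one_pow, ← h1]
    gcongr
  exact (pow_le_pow_iff_left₀ (mul_nonneg (rr_pos_EnLine x).le (norm_nonneg _)) zero_le_one
    two_ne_zero).1 h3

lemma le_rr_EnLine {x : V} (hx : x ≠ 0) : 1 / 2 ≤ rr_EnLine x * ‖x‖ := by
  have h1 := rr_sq_EnLine hx
  have h2 := nn_le_EnLine x
  have h3 : (1 / 2 : ℝ) ^ 2 ≤ (rr_EnLine x * ‖x‖) ^ 2 := by
    have := mul_le_mul_of_nonneg_left h2 (sq_nonneg (rr_EnLine x))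
    rw [mul_pow]
    nlinarith
  exact (pow_le_pow_iff_left₀ (by norm_num) (mul_nonneg (rr_pos_EnLine x).le (norm_nonneg _))
    two_ne_zero).1 h3

lemma sp_nonneg_EnLine (x v : V) : 0 ≤ sp_EnLine x v :=
  mul_nonneg (rr_pos_EnLine x).le (norm_nonneg _)

lemma her_perp_EnLine {x : V} (hx : x ≠ 0) (v : V) : her_EnLine x (perp_EnLine x v) = 0 := by
  have h : (nn_EnLine x : ℂ) ≠ 0 := by exact_mod_cast (nn_pos_EnLine hx).ne'
  rw [perp_EnLine, her_sub_EnLine, her_smul'_EnLine, her_self_EnLine, lam_EnLine]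
  push_cast
  field_simp
  ring

lemma perp_add_EnLine (x v : V) : v = perp_EnLine x v + lam_EnLine x v • x := by
  rw [perp_EnLine, sub_add_cancel]

lemma nn_unit_EnLine {x : V} (hx : x ≠ 0) : nn_EnLine ((rr_EnLine x : ℂ) • x) = 1 := by
  rw [nn_smul_EnLine, Complex.norm_real, Real.norm_eq_abs, sq_abs, rr_sq_EnLine hx]

lemma contDiff_nn_EnLine : ContDiff ℝ ∞ nn_EnLine :=
  ContDiff.sum fun j _ => (contDiff_norm_sq ℝ).comp (contDiff_apply ℝ ℂ j)

lemma compact_EnLine : IsCompact {x : V | nn_EnLine x = 1} := by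
  refine (isCompact_closedBall (0 : V) 1).of_isClosed_subset
    (isClosed_eq contDiff_nn_EnLine.continuous continuous_const) fun x hx => ?_
  have h := le_nn_EnLine x
  rw [show nn_EnLine x = 1 from hx] at h
  rw [mem_closedBall_zero_iff]
  nlinarith [norm_nonneg x]

lemma ne_of_nn_EnLine {x : V} (hx : nn_EnLine x = 1) : x ≠ 0 := by
  rintro rfl
  simp [nn_EnLine] at hx

lemma lin_theta_EnLine (z u : V) : lin_EnLine (theta z) u = (lam_EnLine z u).im := by
  have h : ∀ y, lin_EnLine (cov y) u = (her_EnLine y u).im := fun y => by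
    simp [lin_EnLine, cov, her_EnLine]
  rw [theta, h, ← Complex.coe_smul, her_smul_EnLine, conj_ofReal]
  rfl

lemma contDiffOn_theta_EnLine : ContDiffOn ℝ ∞ theta {0}ᶜ := by
  have h : ContDiff ℝ ∞ cov :=
    (ContinuousAlternatingMap.ofSubsingletonLIE (𝕜 := ℝ) (E := V) (F := ℝ)
      (0 : Fin 1)).contDiff.comp (ContDiff.sum fun j _ => contDiff_const.clm_comp
        ((((ContinuousLinearMap.mul ℝ ℂ).contDiff.comp (Complex.conjCLE.contDiff.comp
          (contDiff_apply ℝ ℂ j)))).clm_comp contDiff_const))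
  exact h.comp_contDiffOn ((contDiff_nn_EnLine.contDiffOn.inv
    fun _ hz => (nn_pos_EnLine hz).ne').smul contDiffOn_id)

/-- A connection form whose differential is `σ`. -/
structure Prim_EnLine (σ : Symp 1) (β : V → V →L[ℝ] ℝ) : Prop where
  c1 : ContDiffOn ℝ 1 β {0}ᶜ
  dd : ∀ x, x ≠ 0 → ∀ v w, fderiv ℝ β x v w - fderiv ℝ β x w v = σ.form x ![v, w]
  scale : ∀ x, x ≠ 0 → ∀ c : ℂ, c ≠ 0 → ∀ v, β (c • x) (c • v) = β x v
  vert : ∀ x, x ≠ 0 → ∀ c : ℂ, β x (c • x) = c.im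

lemma prim_EnLine (σ : Symp 1) : ∃ β, Prim_EnLine σ β := by
  obtain ⟨α, hα, h⟩ := σ.cls
  have hs : ContDiffOn ℝ ∞ (fun z => theta z + α z) {0}ᶜ := contDiffOn_theta_EnLine.add hα.smooth
  have hd : ∀ {b : Form 1}, ContDiffOn ℝ ∞ b {0}ᶜ → ∀ x, x ≠ 0 → DifferentiableAt ℝ b x :=
    fun hb x hx => (hb.contDiffAt (isOpen_compl_singleton.mem_nhds hx)).differentiableAt (by simp)
  refine ⟨fun z => lin_EnLine (theta z + α z),
    (lin_EnLine.contDiff.comp_contDiffOn hs).of_le (by simp), ?_, ?_, ?_⟩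
  · intro x hx v w
    have h1 : fderiv ℝ (fun z => lin_EnLine (theta z + α z)) x =
        lin_EnLine ∘L fderiv ℝ (fun z => theta z + α z) x :=
      (lin_EnLine.hasFDerivAt.comp x (hd hs x hx).hasFDerivAt).fderiv
    rw [h1, ← bil_apply_EnLine, h x hx, one_smul,
      ← extDeriv_fun_add (hd contDiffOn_theta_EnLine x hx) (hd hα.smooth x hx),
      bil_extDeriv_EnLine]
    rfl
  · intro x hx c hc v
    have h1 : lin_EnLine (α (c • x)) (c • v) = lin_EnLine (α x) v := by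
      have := hα.scale c hc x ![v]
      rwa [eq_lin_EnLine, eq_lin_EnLine (α x)] at this
    have h2 : lam_EnLine (c • x) (c • v) = lam_EnLine x v := by
      have h3 : (nn_EnLine x : ℂ) ≠ 0 := by exact_mod_cast (nn_pos_EnLine hx).ne'
      have h4 : (‖c‖ : ℂ) ≠ 0 := by simpa using hc
      rw [lam_EnLine, lam_EnLine, her_smul_EnLine, her_smul'_EnLine, nn_smul_EnLine,
        ← mul_assoc (conj c), Complex.conj_mul']
      push_cast
      field_simp
    simp only [map_add, add_apply, lin_theta_EnLine, h1, h2]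
  · intro x hx c
    have h1 : lin_EnLine (α x) (c • x) = 0 := by
      rw [lin_apply_EnLine]
      exact hα.horiz x _ 0 c rfl
    have h2 : lam_EnLine x (c • x) = c := by
      have h3 : (nn_EnLine x : ℂ) ≠ 0 := by exact_mod_cast (nn_pos_EnLine hx).ne'
      rw [lam_EnLine, her_smul'_EnLine, her_self_EnLine]
      push_cast
      field_simp
    simp only [map_add, add_apply, lin_theta_EnLine, h1, h2, add_zero]

lemma bound_EnLine {σ : Symp 1} {β : V → V →L[ℝ] ℝ} (h : Prim_EnLine σ β) :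
    ∃ C : ℝ, 0 ≤ C ∧ ∀ x, x ≠ 0 → ∀ v, |β x v - (lam_EnLine x v).im| ≤ C * sp_EnLine x v := by
  obtain ⟨C, hC⟩ := compact_EnLine.exists_bound_of_continuousOn
    (h.c1.continuousOn.mono fun x hx => ne_of_nn_EnLine hx)
  refine ⟨max C 0, le_max_right _ _, fun x hx v => ?_⟩
  have hr : (rr_EnLine x : ℂ) ≠ 0 := by exact_mod_cast (rr_pos_EnLine x).ne'
  have h1 : β x v - (lam_EnLine x v).im =
      β ((rr_EnLine x : ℂ) • x) ((rr_EnLine x : ℂ) • perp_EnLine x v) := by
    rw [h.scale x hx _ hr, perp_EnLine, map_sub, h.vert x hx]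
  rw [h1, ← Real.norm_eq_abs]
  refine (ContinuousLinearMap.le_opNorm _ _).trans ?_
  rw [norm_smul, Complex.norm_real, Real.norm_of_nonneg (rr_pos_EnLine x).le]
  exact mul_le_mul_of_nonneg_right ((hC _ (nn_unit_EnLine hx)).trans (le_max_left _ _))
    (sp_nonneg_EnLine x v)

lemma bil_scale_EnLine (σ : Symp 1) {c : ℂ} (hc : c ≠ 0) (x v w : V) :
    bil_EnLine (σ.form (c • x)) (c • v) (c • w) = bil_EnLine (σ.form x) v w := by
  rw [bil_apply_EnLine, bil_apply_EnLine, ← σ.isForm.scale c hc x ![v, w]]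
  congr 1
  ext1 i
  fin_cases i <;> rfl

lemma bil_left_EnLine (σ : Symp 1) (c : ℂ) (x w : V) : bil_EnLine (σ.form x) (c • x) w = 0 := by
  rw [bil_apply_EnLine]
  exact σ.isForm.horiz x _ 0 c rfl

lemma bil_right_EnLine (σ : Symp 1) (c : ℂ) (x w : V) : bil_EnLine (σ.form x) w (c • x) = 0 := by
  rw [bil_apply_EnLine]
  exact σ.isForm.horiz x _ 1 c rfl

lemma tame_EnLine {φ : Fr} {σ : Symp 1} (hT : Tame φ.J σ) :
    ∃ c : ℝ, 0 < c ∧ ∀ x, x ≠ 0 → ∀ v,
      c * sp_EnLine x v ^ 2 ≤ bil_EnLine (σ.form x) v (φ.J x v) := by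
  let Q : V → V → ℝ := fun x v => bil_EnLine (σ.form x) v (φ.B x (I • φ.A x v))
  have hK : IsCompact (({x : V | nn_EnLine x = 1} ×ˢ sphere (0 : V) 1) ∩
      {p : V × V | her_EnLine p.1 p.2 = 0}) :=
    (compact_EnLine.prod (isCompact_sphere _ _)).inter_right
      (isClosed_eq (by unfold her_EnLine; fun_prop) continuous_const)
  have hm : ∀ {G : Type} [TopologicalSpace G] {f : V → G}, ContinuousOn f {0}ᶜ →
      ContinuousOn (fun p : V × V => f p.1) (({x : V | nn_EnLine x = 1} ×ˢ sphere (0 : V) 1) ∩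
        {p : V × V | her_EnLine p.1 p.2 = 0}) :=
    fun hf => hf.comp continuousOn_fst fun p hp => ne_of_nn_EnLine hp.1.1
  have hc : ContinuousOn (fun p : V × V => Q p.1 p.2) _ :=
    ((bil_EnLine.continuous.comp_continuousOn (hm σ.isForm.smooth.continuousOn)).clm_apply
      continuousOn_snd).clm_apply ((hm φ.smoothB.continuousOn).clm_apply
        (((hm φ.smoothA.continuousOn).clm_apply continuousOn_snd).const_smul I))
  obtain ⟨c, hc0, hc1⟩ := hK.exists_forall_le' hc (a := 0) (by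
    rintro ⟨x, w⟩ ⟨⟨hx, hw⟩, hxw⟩
    have := hT x (ne_of_nn_EnLine hx) w (by
      rintro c rfl
      have h1 : her_EnLine x (c • x) = 0 := hxw
      rw [her_smul'_EnLine, her_self_EnLine, show nn_EnLine x = 1 from hx] at h1
      have h2 : c = 0 := by simpa using h1
      simp [h2] at hw)
    rwa [← bil_apply_EnLine] at this)
  refine ⟨c, hc0, fun x hx v => ?_⟩
  change _ ≤ Q x v
  have hA : ∀ μ : ℂ, φ.A x (μ • x) = μ • x := fun μ => by
    conv_lhs => rw [← φ.vert x hx μ]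
    exact φ.AB x hx _
  have h1 : Q x v = Q x (perp_EnLine x v) := by
    simp only [Q]
    conv_lhs => rw [perp_add_EnLine x v]
    simp only [map_add, add_apply, smul_add, hA, smul_smul, φ.vert x hx,
      bil_left_EnLine, bil_right_EnLine, add_zero]
  have h2 : ∀ (t : ℝ) (y w : V), Q y (t • w) = t ^ 2 * Q y w := fun t y w => by
    simp only [Q, map_smul, smul_comm I t, smul_apply, smul_eq_mul]
    ring
  have h3 : ∀ (r : ℂ) (w : V), r ≠ 0 → Q (r • x) (r • w) = Q x w := fun r w hr => by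
    have h4 : φ.A (r • x) (r • w) = r • φ.A x w := by
      conv_lhs => rw [← φ.BA x hx w, ← φ.scale x hx r hr]
      exact φ.AB _ (smul_ne_zero hr hx) _
    simp only [Q]
    rw [h4, smul_comm I r, φ.scale x hx r hr, bil_scale_EnLine σ hr]
  have hr : (rr_EnLine x : ℂ) ≠ 0 := by exact_mod_cast (rr_pos_EnLine x).ne'
  rw [h1, sp_EnLine]
  have h5 := her_perp_EnLine hx v
  generalize perp_EnLine x v = w at h5
  rcases eq_or_ne w 0 with rfl | hw
  · simp [Q]
  · have hn : ‖w‖ ≠ 0 := norm_ne_zero_iff.2 hw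
    have h6 : (rr_EnLine x : ℂ) • w = (rr_EnLine x * ‖w‖) • (‖w‖⁻¹ • w) := by
      rw [smul_smul, mul_assoc, mul_inv_cancel₀ hn, mul_one, Complex.coe_smul]
    rw [← h3 _ w hr, h6, h2, mul_comm]
    refine mul_le_mul_of_nonneg_left (hc1 (_, _) ⟨⟨nn_unit_EnLine hx, ?_⟩, ?_⟩) (sq_nonneg _)
    · simp [norm_smul, hn]
    · change her_EnLine _ _ = 0
      rw [her_smul_EnLine, ← Complex.coe_smul, her_smul'_EnLine, h5, mul_zero, mul_zero]

end Pool.Agent.MP_2fc7fa_gt.N
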