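import Pool.Agent.MP_2fc7fa_gt.N.IfF

/-! Construction of the equivariant diffeomorphism from the model. -/

open scoped ContDiff Topology
open Set

namespace Pool.Agent.MP_2fc7fa_gt.N.Fp

theorem bound_FBuild (hP : ProfStmt) {k e : ℝ} (h : Par k e) {p : P4} (hp : p ∈ S0) :
    |(io k e p).1| ≤ 10 ∧ |(io k e p).2.1| ≤ 4 ∧ |(io k e p).2.2.1| ≤ 2 ∧
      |(io k e p).2.2.2| ≤ 1 := by
  obtain ⟨h1, -, -, h4⟩ := hp
  have he := h.pos
  have hk := h.small
  have hek : e ≤ k := by linarith [h.le]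
  obtain ⟨k1, k2⟩ := hP.1 k e p.1 hek
  obtain ⟨r1, r2, r3⟩ := hP.2.2.2.2.2.2.2.2.1 p.1
  unfold qq at h1
  have a0 : |p.1 - 17 / 4| ≤ 5 := by
    apply abs_le_of_sq_le_sq _ (by norm_num)
    nlinarith [sq_nonneg p.2.1, sq_nonneg p.2.2.1]
  have a1 : |p.2.1| ≤ 5 := by
    apply abs_le_of_sq_le_sq _ (by norm_num)
    nlinarith [sq_nonneg (p.1 - 17 / 4), sq_nonneg p.2.2.1]
  have a2 : |p.2.2.1| ≤ 5 := by
    apply abs_le_of_sq_le_sq _ (by norm_num)
    nlinarith [sq_nonneg (p.1 - 17 / 4), sq_nonneg p.2.1]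
  have key : ∀ x : ℝ, |x| ≤ 5 → |kap k e p.1 * x| ≤ 1 / 2 := by
    intro x hx
    rw [abs_mul, abs_of_pos (by linarith : 0 < kap k e p.1)]
    nlinarith [abs_nonneg x]
  have b1 := key _ a1
  have b2 := key _ a2
  have b3 := key p.2.2.2 (by linarith)
  simp only [io]
  refine ⟨?_, (abs_add_le _ _).trans (by linarith), (abs_add_le _ _).trans (by linarith),
    (abs_add_le _ _).trans (by linarith)⟩
  rw [abs_le] at a0 ⊢
  constructor <;> linarith [a0.1, a0.2]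

theorem nsq_FBuild (c : ℂ) (hc : ‖c‖ = 1) (z : W) : nsq (c • z) = nsq z := by
  simp [nsq, hc]

theorem buildS (hM : ModelStmt) (hP : ProfStmt) (hL : LamStmt) (hT : TransStmt) (hE : EqvStmt)
    (hD : DisjStmt) : BuildStmt := by
  intro k e h
  have hek : e ≤ k := by linarith [h.le, h.pos]
  obtain ⟨i1, i2, i3, i4⟩ := hP.2.2.2.2.2.2.2.2.2 k e h.pos hek
  obtain ⟨m1, m2, m3, m4, -, m6, -⟩ := hM
  obtain ⟨-, -, -, -, l5, l6, -, l8, -, l10, l11, -⟩ := hL
  have hrt : ∀ j : Zp, rt j = ee ((j.val : ℤ) : ℝ) := fun j => by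
    rw [← l8]
    simp
  have hmv : ∀ q, (io k e ∘ f0 ∘ io' k e) q ≠ q → ∃ p, f0 p ≠ p ∧ q = io k e p := by
    intro q hq
    refine ⟨io' k e q, fun h0 => hq ?_, (i4 q).symm⟩
    simp only [Function.comp_apply, h0]
    exact i4 q
  obtain ⟨g, g', g1, g2, g3, g4, g5, g6⟩ := hT (io k e ∘ f0 ∘ io' k e) (io k e ∘ f0' ∘ io' k e)
    (i1.comp (m1.comp i2)) (i1.comp (m2.comp i2))
    (fun q => by simp only [Function.comp_apply]; rw [i3, m3, i4])
    (fun q => by simp only [Function.comp_apply]; rw [i3, m4, i4])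
    (fun q hq => by
      obtain ⟨p, hp, rfl⟩ := hmv q hq
      obtain ⟨b1, b2, b3, b4⟩ := bound_FBuild hP h (m6 p hp)
      simp only [Prod.norm_def, Real.norm_eq_abs, max_le_iff]
      exact ⟨b1, by linarith, by linarith, by linarith⟩)
  have g7 : ∀ z, g z ≠ z → ∃ p, f0 p ≠ p ∧ z = Lam (io k e p) := by
    intro z hz
    obtain ⟨q, hq, rfl⟩ := g5 z hz
    obtain ⟨p, hp, rfl⟩ := hmv q hq
    exact ⟨p, hp, rfl⟩
  obtain ⟨F, F', f1, f2, f3, f4, f5, f6, f7⟩ := hE g g' g1 g2 g3 g4 (by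
    intro z j hz hj
    obtain ⟨p, hp, rfl⟩ := g7 z hz
    obtain ⟨p', hp', e'⟩ := g7 _ hj
    rw [hrt, l6] at e'
    obtain ⟨e1, n, e2⟩ := l5 _ _ e'
    have h0 := hD k e p p' ((j.val : ℤ) + 37 * n) h (m6 p hp) (m6 p' hp') (by
      simp only [sh, io] at e2
      rw [e2]
      push_cast
      ring) e1
    have h1 : (((j.val : ℤ) + 37 * n : ℤ) : Zp) = 0 := by rw [h0]; simp
    have h37 : (37 : Zp) = 0 := by decide
    push_cast at h1
    rw [h37] at h1
    simpa using h1)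
  have fx : ∀ z, F z = z ∨ ∃ j p, f0 p ≠ p ∧ rt j • z = Lam (io k e p) := by
    intro z
    rcases f7 z with h0 | ⟨j, hj⟩
    · exact .inl h0
    · obtain ⟨p, hp, e'⟩ := g7 _ hj
      exact .inr ⟨j, p, hp, e'⟩
  refine ⟨F, F', ⟨f1, f5, fun p hp => ?_, fx⟩, f2, f3, f4, fun z hz => ?_⟩
  · have e1 : (io k e ∘ f0 ∘ io' k e) (io k e p) = io k e (f0 p) := by
      simp only [Function.comp_apply]
      rw [i3]
    obtain ⟨a1, a2⟩ := g6 (io k e p) (by rw [e1]; exact fun h0 => hp (i3.injective h0))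
    rw [f6 _ a2, a1, e1]
  · rcases fx z with h0 | ⟨j, p, hp, e'⟩
    · exact h0
    exfalso
    have n1 : nsq z = nsq (Lam (io k e p)) := by
      rw [← e', nsq_FBuild _ (by rw [hrt, l11])]
    rw [l10] at n1
    obtain ⟨-, b2, b3, b4⟩ := bound_FBuild hP h (m6 p hp)
    set a := (io k e p).2.1
    set b := (io k e p).2.2.1
    set r := (io k e p).2.2.2
    have c2 : a ^ 2 ≤ 16 := by nlinarith [abs_nonneg a, sq_abs a]
    have c3 : b ^ 2 ≤ 4 := by nlinarith [abs_nonneg b, sq_abs b]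
    have x2 : Real.exp 2 < 9 := by
      have := Real.exp_one_lt_d9
      have h2 : Real.exp 2 = Real.exp 1 * Real.exp 1 := by rw [← Real.exp_add]; norm_num
      nlinarith [Real.exp_pos 1]
    rw [abs_le] at b4
    have x3 : Real.exp (2 * r) < 9 :=
      (Real.exp_le_exp.2 (by linarith [b4.2])).trans_lt x2
    have x4 : 1 / 9 < Real.exp (2 * r) := by
      have h3 : Real.exp (-(2 * r)) < 9 := (Real.exp_le_exp.2 (by linarith [b4.1])).trans_lt x2
      have h4 : Real.exp (2 * r) * Real.exp (-(2 * r)) = 1 := by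
        rw [← Real.exp_add]; simp
      nlinarith [Real.exp_pos (2 * r), Real.exp_pos (-(2 * r))]
    rcases hz with hz | hz
    · nlinarith [sq_nonneg a, sq_nonneg b]
    · nlinarith [sq_nonneg a, sq_nonneg b]

end Pool.Agent.MP_2fc7fa_gt.N.Fp
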