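import Pool.Agent.MP_2fc7fa_gt.N.IfF

/-! The cluster lemma for the planar theta graph. -/

open scoped Topology
open Set

namespace Pool.Agent.MP_2fc7fa_gt.N.Fp

theorem zero_FClus {x : ℝ} (h : x ≤ 0) : St x = 0 := Real.smoothTransition.zero_of_nonpos h

theorem one_FClus {x : ℝ} (h : 1 ≤ x) : St x = 1 := Real.smoothTransition.one_of_one_le h

theorem cls_FClus (hP : ProfStmt) {u : ℝ} (hu : u ∈ Icc (-1 / 10 : ℝ) (43 / 5)) :
    (NA u ∧ dX u = 1) ∨ (NB u ∧ dX u = 2) ∨ ∃ x ∈ Icc (0 : ℝ) 1, 0 < St x ∧ St x < 1 ∧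
      ((u = 1 / 10 + 3 / 10 * x ∧ dX u = 1 + St x ∧ dY u = 0) ∨
        (u = 3 / 5 + 13 / 10 * x ∧ dX u = 2 - St x ∧ 0 < dY u) ∨
        (u = 21 / 10 + 63 / 10 * x ∧ dX u = 1 + St x ∧ dY u < 0)) := by
  obtain ⟨-, -, -, hA, hB, -⟩ := hP
  obtain ⟨h0, h1⟩ := hu
  have key : ∀ x : ℝ, 0 < x → x < 1 → x ∈ Icc (0 : ℝ) 1 ∧ 0 < St x ∧ St x < 1 := fun x a b =>
    ⟨⟨a.le, b.le⟩, Real.smoothTransition.pos_of_pos a, Real.smoothTransition.lt_one_of_lt_one b⟩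
  rcases le_or_gt u (1 / 10) with a | a
  · exact .inl ⟨.inl (abs_lt.2 ⟨by linarith, by linarith⟩), (hA u (.inl a)).1⟩
  rcases lt_or_ge u (2 / 5) with b | b
  · obtain ⟨k1, k2, k3⟩ := key ((u - 1 / 10) * (10 / 3)) (by linarith) (by linarith)
    have e2 : s2 u = 0 := zero_FClus (by linarith)
    have e3 : s3 u = 0 := zero_FClus (by linarith)
    exact .inr (.inr ⟨_, k1, k2, k3, .inl ⟨by ring, by rw [dX, e2, e3, s1]; ring,
      by rw [dY, e2, e3]; ring⟩⟩)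
  rcases le_or_gt u (3 / 5) with c | c
  · exact .inr (.inl ⟨.inl (abs_lt.2 ⟨by linarith, by linarith⟩),
      (hB u (.inl (abs_le.2 ⟨by linarith, by linarith⟩))).1⟩)
  have e1 : s1 u = 1 := one_FClus (by linarith)
  rcases lt_or_ge u (19 / 10) with d | d
  · obtain ⟨k1, k2, k3⟩ := key ((u - 3 / 5) * (10 / 13)) (by linarith) (by linarith)
    have e3 : s3 u = 0 := zero_FClus (by linarith)
    exact .inr (.inr ⟨_, k1, k2, k3, .inr (.inl ⟨by ring, by rw [dX, e1, e3, s2]; ring,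
      by rw [dY, e3, s2, zero_mul, sub_zero]; exact mul_pos k2 (sub_pos.2 k3)⟩)⟩)
  rcases le_or_gt u (21 / 10) with e | e
  · exact .inl ⟨.inr (abs_lt.2 ⟨by linarith, by linarith⟩),
      (hA u (.inr (abs_le.2 ⟨by linarith, by linarith⟩))).1⟩
  have e2 : s2 u = 1 := one_FClus (by linarith)
  rcases lt_or_ge u (42 / 5) with f | f
  · obtain ⟨k1, k2, k3⟩ := key ((u - 21 / 10) * (10 / 63)) (by linarith) (by linarith)
    exact .inr (.inr ⟨_, k1, k2, k3, .inr (.inr ⟨by ring, by rw [dX, e1, e2, s3]; ring, by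
      rw [dY, e2, s3, sub_self, mul_zero, zero_sub, neg_lt_zero]
      exact mul_pos k2 (sub_pos.2 k3)⟩)⟩)
  · exact .inr (.inl ⟨.inr (abs_lt.2 ⟨by linarith, by linarith⟩), (hB u (.inr f)).1⟩)

theorem eq_FClus (hS : StStmt) (hP : ProfStmt) {u v : ℝ} (hu : u ∈ Icc (-1 / 10 : ℝ) (43 / 5))
    (hv : v ∈ Icc (-1 / 10 : ℝ) (43 / 5)) (hX : dX u = dX v) (hY : dY u = dY v) : Cl u v := by
  rcases cls_FClus hP hu with ⟨a, b⟩ | ⟨a, b⟩ | ⟨x, hx, x0, x1, a⟩ <;>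
    rcases cls_FClus hP hv with ⟨c, d⟩ | ⟨c, d⟩ | ⟨y, hy, y0, y1, c⟩
  · exact .inr (.inl ⟨a, c⟩)
  · exfalso; linarith
  · exfalso; rcases c with ⟨-, c, -⟩ | ⟨-, c, -⟩ | ⟨-, c, -⟩ <;> linarith
  · exfalso; linarith
  · exact .inr (.inr ⟨a, c⟩)
  · exfalso; rcases c with ⟨-, c, -⟩ | ⟨-, c, -⟩ | ⟨-, c, -⟩ <;> linarith
  · exfalso; rcases a with ⟨-, a, -⟩ | ⟨-, a, -⟩ | ⟨-, a, -⟩ <;> linarith
  · exfalso; rcases a with ⟨-, a, -⟩ | ⟨-, a, -⟩ | ⟨-, a, -⟩ <;> linarith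
  · have key : St x = St y → x = y := hS.2.1.injOn hx hy
    refine .inl ?_
    rcases a with ⟨a1, a2, a3⟩ | ⟨a1, a2, a3⟩ | ⟨a1, a2, a3⟩ <;>
      rcases c with ⟨c1, c2, c3⟩ | ⟨c1, c2, c3⟩ | ⟨c1, c2, c3⟩ <;>
      first
        | (exfalso; linarith)
        | (rw [a1, c1, key (by linarith), sub_self, abs_zero]; norm_num)

theorem clusS (hS : StStmt) (hP : ProfStmt) : ClusStmt := by
  have hSt : Continuous St := Real.smoothTransition.continuous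
  have hX : Continuous dX := by
    unfold dX s1 s2 s3
    fun_prop
  have hY : Continuous dY := by
    unfold dY s2 s3
    fun_prop
  have ho : IsOpen {p : ℝ × ℝ | Cl p.1 p.2} := by
    unfold Cl NA NB
    simp only [ofPred_or, ofPred_and]
    refine IsOpen.union ?_ (IsOpen.union (IsOpen.inter (IsOpen.union ?_ ?_) (IsOpen.union ?_ ?_))
      (IsOpen.inter (IsOpen.union ?_ ?_) (IsOpen.union ?_ ?_))) <;>
      exact isOpen_lt (by fun_prop) continuous_const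
  have hK := ((isCompact_Icc (a := (-1 / 10 : ℝ)) (b := 43 / 5)).prod
    (isCompact_Icc (a := (-1 / 10 : ℝ)) (b := 43 / 5))).inter_right ho.isClosed_compl
  obtain ⟨c, hc, h⟩ := hK.exists_forall_le' (a := 0)
    (f := fun p : ℝ × ℝ => |dX p.1 - dX p.2| + |dY p.1 - dY p.2|) (by fun_prop) fun p hp => by
      by_contra h
      have h1 := abs_nonneg (dX p.1 - dX p.2)
      have h2 := abs_nonneg (dY p.1 - dY p.2)
      exact hp.2 (eq_FClus hS hP hp.1.1 hp.1.2 (sub_eq_zero.1 (abs_eq_zero.1 (by linarith)))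
        (sub_eq_zero.1 (abs_eq_zero.1 (by linarith))))
  refine ⟨c / 3, by positivity, fun u hu v hv h1 h2 => ?_⟩
  by_contra h3
  have := h (u, v) ⟨⟨hu, hv⟩, h3⟩
  linarith

end Pool.Agent.MP_2fc7fa_gt.N.Fp
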