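import Pool.Agent.MP_2fc7fa_gt.N.IfF

/-! Part F: reduction of the real counting problem to the reduced system. -/

open Set

namespace Pool.Agent.MP_2fc7fa_gt.N.Fp

lemma cl5_FC {u v : ℝ} (h : Cl u v) :
    (-1 / 4 < v - u ∧ v - u < 1 / 4) ∨
    ((-1 / 8 < u ∧ u < 1 / 8) ∧ (15 / 8 < v ∧ v < 17 / 8)) ∨
    ((15 / 8 < u ∧ u < 17 / 8) ∧ (-1 / 8 < v ∧ v < 1 / 8)) ∨
    ((3 / 8 < u ∧ u < 5 / 8) ∧ (67 / 8 < v ∧ v < 69 / 8)) ∨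
    ((67 / 8 < u ∧ u < 69 / 8) ∧ (3 / 8 < v ∧ v < 5 / 8)) := by
  simp only [Cl, NA, NB, abs_lt] at h
  rcases h with h | ⟨h1 | h1, h2 | h2⟩ | ⟨h1 | h1, h2 | h2⟩
  · exact Or.inl ⟨by linarith [h.2], by linarith [h.1]⟩
  · exact Or.inl ⟨by linarith [h1.2, h2.1], by linarith [h1.1, h2.2]⟩
  · exact Or.inr (Or.inl ⟨⟨by linarith [h1.1], h1.2⟩, by linarith [h2.1], by linarith [h2.2]⟩)
  · exact Or.inr (Or.inr (Or.inl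
      ⟨⟨by linarith [h1.1], by linarith [h1.2]⟩, by linarith [h2.1], h2.2⟩))
  · exact Or.inl ⟨by linarith [h1.2, h2.1], by linarith [h1.1, h2.2]⟩
  · exact Or.inl ⟨by linarith [h1.2, h2.1], by linarith [h1.1, h2.2]⟩
  · exact Or.inr (Or.inr (Or.inr (Or.inl
      ⟨⟨by linarith [h1.1], by linarith [h1.2]⟩, by linarith [h2.1], by linarith [h2.2]⟩)))
  · exact Or.inr (Or.inr (Or.inr (Or.inr
      ⟨⟨by linarith [h1.1], by linarith [h1.2]⟩, by linarith [h2.1], by linarith [h2.2]⟩)))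
  · exact Or.inl ⟨by linarith [h1.2, h2.1], by linarith [h1.1, h2.2]⟩

lemma int_FC {m : ℤ} (c : ℤ) (h1 : (c : ℝ) - 1 < m) (h2 : (m : ℝ) < c + 1) : (m : ℝ) = c := by
  have a1 : c - 1 < m := by exact_mod_cast h1
  have a2 : m < c + 1 := by exact_mod_cast h2
  have : m = c := by omega
  exact_mod_cast this

lemma clInt_FC {u v : ℝ} {m : ℤ} (h : Cl u v) (hm : v - u = m) :
    v = u ∨ (v = u + 2 ∧ -1 / 8 < u ∧ u < 1 / 8) ∨ (v = u - 2 ∧ 15 / 8 < u ∧ u < 17 / 8) ∨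
    (v = u + 8 ∧ 3 / 8 < u ∧ u < 5 / 8) ∨ (v = u - 8 ∧ 67 / 8 < u ∧ u < 69 / 8) := by
  rcases cl5_FC h with ⟨a, b⟩ | ⟨⟨a, b⟩, c, d⟩ | ⟨⟨a, b⟩, c, d⟩ | ⟨⟨a, b⟩, c, d⟩ | ⟨⟨a, b⟩, c, d⟩
  · have := int_FC (m := m) 0 (by push_cast; linarith) (by push_cast; linarith)
    push_cast at this
    exact Or.inl (by linarith)
  · have := int_FC (m := m) 2 (by push_cast; linarith) (by push_cast; linarith)
    push_cast at this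
    exact Or.inr (Or.inl ⟨by linarith, a, b⟩)
  · have := int_FC (m := m) (-2) (by push_cast; linarith) (by push_cast; linarith)
    push_cast at this
    exact Or.inr (Or.inr (Or.inl ⟨by linarith, a, b⟩))
  · have := int_FC (m := m) 8 (by push_cast; linarith) (by push_cast; linarith)
    push_cast at this
    exact Or.inr (Or.inr (Or.inr (Or.inl ⟨by linarith, a, b⟩)))
  · have := int_FC (m := m) (-8) (by push_cast; linarith) (by push_cast; linarith)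
    push_cast at this
    exact Or.inr (Or.inr (Or.inr (Or.inr ⟨by linarith, a, b⟩)))

lemma unmoved_FC (T : ℝ → Prop) (hT : ∀ u v, T u → T v → Cl u v) {μ ν : ℝ}
    (hμ : μ = 0 ∨ ∃ u v, T u ∧ T v ∧ μ = v - u) (hν : ν = 0 ∨ ∃ u v, T u ∧ T v ∧ ν = v - u)
    (h1 : 6 ≤ ν - μ) (h2 : ν - μ ≤ 7) : False := by
  rcases hμ with hμ | ⟨u, v, tu, tv, hμ⟩ <;> rcases hν with hν | ⟨u', v', tu', tv', hν⟩
  · linarith
  · rcases cl5_FC (hT _ _ tu' tv') with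
      ⟨a, b⟩ | ⟨⟨a, b⟩, c, d⟩ | ⟨⟨a, b⟩, c, d⟩ | ⟨⟨a, b⟩, c, d⟩ | ⟨⟨a, b⟩, c, d⟩ <;> linarith
  · rcases cl5_FC (hT _ _ tu tv) with
      ⟨a, b⟩ | ⟨⟨a, b⟩, c, d⟩ | ⟨⟨a, b⟩, c, d⟩ | ⟨⟨a, b⟩, c, d⟩ | ⟨⟨a, b⟩, c, d⟩ <;> linarith
  · rcases cl5_FC (hT _ _ tu tv) with
      ⟨a, b⟩ | ⟨⟨a, b⟩, c, d⟩ | ⟨⟨a, b⟩, c, d⟩ | ⟨⟨a, b⟩, c, d⟩ | ⟨⟨a, b⟩, c, d⟩ <;>
    rcases cl5_FC (hT _ _ tu' tv') with
      ⟨a', b'⟩ | ⟨⟨a', b'⟩, c', d'⟩ | ⟨⟨a', b'⟩, c', d'⟩ | ⟨⟨a', b'⟩, c', d'⟩ |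
        ⟨⟨a', b'⟩, c', d'⟩ <;>
    first
    | linarith
    | (rcases cl5_FC (hT _ _ tu tu') with
        ⟨x, y⟩ | ⟨⟨x, y⟩, z, w⟩ | ⟨⟨x, y⟩, z, w⟩ | ⟨⟨x, y⟩, z, w⟩ | ⟨⟨x, y⟩, z, w⟩ <;> linarith)

lemma cases_FC {u₁ u₂ u₃ v₁ v₂ v₃ : ℝ} {m m' : ℤ} (c23 : Cl u₂ u₃) (c13 : Cl u₁ u₃)
    (d23 : Cl v₂ v₃) (d13 : Cl v₁ v₃) (hm : u₃ - u₂ = m) (hm' : u₃ - u₁ = m')
    (h1 : -3 ≤ (v₃ - v₁) - (u₃ - u₁)) (h2 : (v₃ - v₁) - (u₃ - u₁) ≤ -2)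
    (h3 : 6 ≤ (v₃ - v₂) - (u₃ - u₂)) (h4 : (v₃ - v₂) - (u₃ - u₂) ≤ 7) :
    (u₁ = u₂ ∧ u₃ = u₂ + 2 ∧ -1 / 8 < u₂ ∧ u₂ < 1 / 8 ∧ 3 / 8 < v₂ ∧ v₂ < 5 / 8 ∧ 67 / 8 < v₃) ∨
    (u₁ = u₃ ∧ u₃ = u₂ - 8 ∧ 67 / 8 < u₂ ∧ u₂ < 69 / 8) := by
  have A : (u₃ = u₂ + 2 ∧ -1 / 8 < u₂ ∧ u₂ < 1 / 8 ∧ 3 / 8 < v₂ ∧ v₂ < 5 / 8 ∧ 67 / 8 < v₃) ∨
      (u₃ = u₂ - 8 ∧ 67 / 8 < u₂ ∧ u₂ < 69 / 8 ∧ v₃ < 1 / 8) := by
    rcases clInt_FC c23 hm with e | ⟨e, a, b⟩ | ⟨e, a, b⟩ | ⟨e, a, b⟩ | ⟨e, a, b⟩ <;>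
    rcases cl5_FC d23 with
      ⟨a', b'⟩ | ⟨⟨a', b'⟩, c', d'⟩ | ⟨⟨a', b'⟩, c', d'⟩ | ⟨⟨a', b'⟩, c', d'⟩ |
        ⟨⟨a', b'⟩, c', d'⟩ <;>
    first
    | (exfalso; linarith)
    | exact Or.inl ⟨e, a, b, a', b', c'⟩
    | exact Or.inr ⟨e, a, b, d'⟩
  have B : (u₃ = u₁ + 2 ∧ -1 / 8 < u₁) ∨ (u₃ = u₁ ∧ v₃ < 1 / 8) := by
    rcases clInt_FC c13 hm' with e | ⟨e, a, b⟩ | ⟨e, a, b⟩ | ⟨e, a, b⟩ | ⟨e, a, b⟩ <;>
    rcases cl5_FC d13 with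
      ⟨a', b'⟩ | ⟨⟨a', b'⟩, c', d'⟩ | ⟨⟨a', b'⟩, c', d'⟩ | ⟨⟨a', b'⟩, c', d'⟩ |
        ⟨⟨a', b'⟩, c', d'⟩ <;>
    first
    | (exfalso; linarith)
    | exact Or.inl ⟨e, a⟩
    | exact Or.inr ⟨e, d'⟩
  rcases A with ⟨e, a, b, c, d, f⟩ | ⟨e, a, b, c⟩ <;> rcases B with ⟨e', g⟩ | ⟨e', g⟩
  · exact Or.inl ⟨by linarith, e, a, b, c, d, f⟩
  · exfalso; linarith
  · exfalso; linarith
  · exact Or.inr ⟨e'.symm, e, a, b⟩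

lemma s0_FC {p : P4} (h : p ∈ S0) :
    -3 / 40 ≤ p.1 ∧ |p.2.1| ≤ 5 ∧ |p.2.2.1| ≤ 5 ∧ |p.2.2.2| ≤ 1 / 2 := by
  obtain ⟨h1, -, -, h4⟩ := h
  unfold qq at h1
  refine ⟨?_, ?_, ?_, h4⟩
  · nlinarith [sq_nonneg p.2.1, sq_nonneg p.2.2.1]
  · rw [abs_le]; constructor <;> nlinarith [sq_nonneg (p.1 - 17 / 4), sq_nonneg p.2.2.1]
  · rw [abs_le]; constructor <;> nlinarith [sq_nonneg (p.1 - 17 / 4), sq_nonneg p.2.1]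

lemma half_FC {c k w : ℝ} (h0 : 0 ≤ c) (h : c ≤ k) (hw : |w| ≤ 1 / 2) :
    -(k / 2) ≤ c * w ∧ c * w ≤ k / 2 := by
  obtain ⟨a, b⟩ := abs_le.1 hw
  constructor <;> nlinarith

lemma caseI_FC (hM : ModelStmt) (hP : ProfStmt) {k e : ℝ} {p₁ p₂ p₃ : P4} (hp : Par k e)
    (s₁ : p₁ ∈ S0) (s₂ : p₂ ∈ S0) (s₃ : p₃ ∈ S0) (t₂ : f0 p₂ ∈ S0) (t₃ : f0 p₃ ∈ S0)
    (e12 : p₁.1 = p₂.1) (e32 : p₃.1 = p₂.1 + 2) (a1 : -1 / 8 < p₂.1) (a2 : p₂.1 < 1 / 8)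
    (b1 : 3 / 8 < (f0 p₂).1) (b2 : (f0 p₂).1 < 5 / 8) (b3 : 67 / 8 < (f0 p₃).1)
    (ha1 : (io k e p₁).2.1 = (io k e p₃).2.1) (hb1 : (io k e p₁).2.2.1 = (io k e p₃).2.2.1)
    (ha2 : (io k e p₂).2.1 = (io k e p₃).2.1) (hb2 : (io k e p₂).2.2.1 = (io k e p₃).2.2.1)
    (r12 : (io k e p₁).2.2.2 ≤ (io k e p₂).2.2.2) (r23 : (io k e p₂).2.2.2 < (io k e p₃).2.2.2)
    (g1 : (io k e (f0 p₁)).2 = (io k e (f0 p₃)).2) (g2 : (io k e (f0 p₂)).2 = (io k e (f0 p₃)).2)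
    (D1 : (f0 p₃).1 ≤ (f0 p₁).1) (D2 : 8 ≤ (f0 p₃).1 - (f0 p₂).1) :
    ∃ X : E6, (e / k, X) ∈ KK ∧ Red k (e / k, X) = 0 ∧ io k e p₁ = cA k e X ∧
      (io k e p₂).2.2.2 = (cM k e X).2.2.2 ∧ (io k e p₃).2.2.2 = (cB e X).2.2.2 := by
  obtain ⟨-, -, -, -, -, -, mw, mF, mI, -, -⟩ := hM
  obtain ⟨kb, kk, ke, dA, dB, r0, r2, rH, -, -⟩ := hP
  have he := hp.pos
  have hek := hp.le
  have hk := hp.small
  have hk0 : 0 < k := by linarith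
  have hle : e ≤ k := by linarith
  obtain ⟨u1, -, -, w1⟩ := s0_FC s₁
  obtain ⟨u2, -, -, w2⟩ := s0_FC s₂
  obtain ⟨-, z3, z3', w3⟩ := s0_FC s₃
  obtain ⟨u₁, a₁, b₁, w₁⟩ := p₁
  obtain ⟨t, a₂, b₂, w₂⟩ := p₂
  obtain ⟨u₃, a₃, b₃, w₃⟩ := p₃
  simp only at e12 e32 a1 a2 u1 u2 w1 w2 w3 z3 z3'
  subst e12 e32
  have kB : kap k e (u₁ + 2) = e := ke k e _ (by linarith) (by linarith)
  have rB : rh (u₁ + 2) = -u₁ := by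
    rw [r2 _ (by rw [abs_le]; constructor <;> linarith)]; ring
  have rA : rh u₁ = 0 := r0 _ (Or.inl a2.le)
  obtain ⟨kA1, kA2⟩ := kb k e u₁ hle
  simp only [io, kB, rB, rA] at r23
  have tk : u₁ ≤ k := by
    linarith [(half_FC (he.le.trans kA1) kA2 w2).1, (half_FC he.le hle w3).2]
  have kA : kap k e u₁ = k := kk k e _ (Or.inl (by linarith))
  obtain ⟨xA, yA⟩ := dA u₁ (Or.inl (by linarith))
  obtain ⟨xB, yB⟩ := dA (u₁ + 2) (Or.inr (by rw [abs_le]; constructor <;> linarith))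
  simp only [io, kB, rB, rA, kA, xA, yA, xB, yB] at ha1 hb1 ha2 hb2 r12
  have hδ : k * (e / k) = e := by field_simp
  have ea1 : a₁ = e / k * a₃ := by field_simp; linarith
  have eb1 : b₁ = e / k * b₃ := by field_simp; linarith
  have ea2 : a₂ = e / k * a₃ := by field_simp; linarith
  have eb2 : b₂ = e / k * b₃ := by field_simp; linarith
  subst ea1 eb1
  subst ea2 eb2
  set P₁ : P4 := (u₁, e / k * a₃, e / k * b₃, w₁) with hP₁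
  set P₂ : P4 := (u₁, e / k * a₃, e / k * b₃, w₂) with hP₂
  set P₃ : P4 := (u₁ + 2, a₃, b₃, w₃) with hP₃
  have m1 : (f0 P₁).2.2.2 = w₁ := mw P₁
  have m2 : (f0 P₂).2.2.2 = w₂ := mw P₂
  have m3 : (f0 P₃).2.2.2 = w₃ := mw P₃
  have kM : kap k e (f0 P₂).1 = e := ke k e _ (by linarith) (by linarith)
  have rM : rh (f0 P₂).1 = -((f0 P₂).1 - 1 / 2) :=
    rH _ (by rw [abs_le]; constructor <;> linarith)
  have rT : rh (f0 P₃).1 = 0 := r0 _ (Or.inr b3.le)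
  obtain ⟨kT1, kT2⟩ := kb k e (f0 P₃).1 hle
  have h2 : (io k e (f0 P₂)).2.2.2 = (io k e (f0 P₃)).2.2.2 := by rw [g2]
  simp only [io, kM, rM, rT, m2, m3] at h2
  have vM1 : 1 / 2 - k ≤ (f0 P₂).1 := by
    linarith [(half_FC (he.le.trans kT1) kT2 w3).2, (half_FC he.le hle w2).1]
  have vM2 : (f0 P₂).1 ≤ 1 / 2 + k := by
    linarith [(half_FC (he.le.trans kT1) kT2 w3).1, (half_FC he.le hle w2).2]
  have kT : kap k e (f0 P₃).1 = k := kk k e _ (Or.inr (by linarith))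
  have kS : kap k e (f0 P₁).1 = k := kk k e _ (Or.inr (by linarith))
  have rS : rh (f0 P₁).1 = 0 := r0 _ (Or.inr (by linarith))
  obtain ⟨xM, yM⟩ := dB (f0 P₂).1 (Or.inl (by rw [abs_le]; constructor <;> linarith))
  obtain ⟨xT, yT⟩ := dB (f0 P₃).1 (Or.inr (by linarith))
  obtain ⟨xS, yS⟩ := dB (f0 P₁).1 (Or.inr (by linarith))
  simp only [io, kM, rM, rT, m1, m2, m3, kT, kS, rS, xM, yM, xT, yT, xS, yS,
    Prod.mk.injEq] at g1 g2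
  obtain ⟨g11, g12, g13⟩ := g1
  obtain ⟨g21, g22, g23⟩ := g2
  have far : ∀ p : P4, 1 / 5 < (f0 p).1 - p.1 → f0 p = Fo p := fun p h => by
    rcases le_total (1849 / 100) (qq (17 / 4) p) with h' | h'
    · exact mF p h'
    · exact absurd (abs_le.1 (mI p h')).2 (not_le.2 h)
  have F1 : f0 P₁ = Fo P₁ := far P₁ (by show 1 / 5 < (f0 P₁).1 - u₁; linarith)
  have F2 : f0 P₂ = Fo P₂ := far P₂ (by show 1 / 5 < (f0 P₂).1 - u₁; linarith)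
  have F3 : f0 P₃ = Fo P₃ := far P₃ (by show 1 / 5 < (f0 P₃).1 - (u₁ + 2); linarith)
  rw [F1] at g11 g12 D1
  rw [F2] at g21 g22 g23
  rw [F3] at g11 g12 g21 g22 D1 b3
  refine ⟨(u₁, a₃, b₃, w₁, w₂, w₃), ?_, ?_, ?_, ?_, ?_⟩
  · refine ⟨⟨by positivity, (div_le_one hk0).2 hle⟩, ?_, z3, z3', w1, w2, w3, ?_, ?_, D1⟩
    · show |u₁| ≤ 1 / 10
      rw [abs_le]; constructor <;> linarith
    · show w₁ ≤ w₂
      exact le_of_mul_le_mul_left (by linarith) hk0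
    · show 8 ≤ (Fo P₃).1
      linarith
  · have q1 : (Fo P₃).2.1 - (Fo P₁).2.1 = 0 := by
      apply mul_left_cancel₀ hk0.ne'; linarith
    have q2 : (Fo P₃).2.2.1 - (Fo P₁).2.2.1 = 0 := by
      apply mul_left_cancel₀ hk0.ne'; linarith
    have q3 : w₃ - w₁ = 0 := by
      apply mul_left_cancel₀ hk0.ne'; linarith
    have q4 : (Fo P₃).2.1 - e / k * (Fo P₂).2.1 = 0 := by
      apply mul_left_cancel₀ hk0.ne'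
      rw [mul_sub, ← mul_assoc, hδ]; linarith
    have q5 : (Fo P₃).2.2.1 - e / k * (Fo P₂).2.2.1 = 0 := by
      apply mul_left_cancel₀ hk0.ne'
      rw [mul_sub, ← mul_assoc, hδ]; linarith
    have q6 : k * w₃ + ((Fo P₂).1 - 1 / 2) - k * (e / k) * w₂ = 0 := by
      rw [hδ]; linarith
    exact Prod.ext q1 (Prod.ext q2 (Prod.ext q3 (Prod.ext q4 (Prod.ext q5 q6))))
  · simp only [io, cA, hP₁, kA, xA, yA, rA, ← mul_assoc, hδ, zero_add]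
  · simp only [io, cM, hP₂, kA, rA, zero_add]
  · simp only [io, cB, hP₃, kB, rB]

theorem coarseS (hM : ModelStmt) (hP : ProfStmt) (hH : HoleStmt) (hN : NearStmt) :
    CoarseStmt := by
  intro k e θ a b ρ₁ ρ₂ ρ₃ y₁ y₂ y₃ hp r12 r23 L1 L2 L3 e13 e23 D1 D2
  have hinj : Function.Injective f0 := hM.2.2.1.injective
  have hS : ∀ p, f0 p ≠ p → p ∈ S0 := hM.2.2.2.2.2.1
  have hS' : ∀ p, f0 p ≠ p → f0 p ∈ S0 := fun p h => hS _ fun h' => h (hinj h')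
  have un : y₃.2.1 = a → y₃.2.2.1 = b → False := fun ha hb => by
    have key : ∀ (ρ : ℝ) (y : P4), Lf k e (θ, a, b, ρ) y → y.2 = y₃.2 →
        y.1 - θ = 0 ∨ ∃ u v, (∃ p ∈ S0, p.1 = u ∧ (io k e p).2.1 = a ∧ (io k e p).2.2.1 = b) ∧
          (∃ p ∈ S0, p.1 = v ∧ (io k e p).2.1 = a ∧ (io k e p).2.2.1 = b) ∧ y.1 - θ = v - u := by
      rintro ρ y (h | ⟨p, n, hm, h1, h2⟩) hy
      · left; rw [h]; simp
      · right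
        refine ⟨p.1, (f0 p).1, ⟨p, hS p hm, rfl, by rw [h1]; rfl, by rw [h1]; rfl⟩,
          ⟨f0 p, hS' p hm, rfl, ?_, ?_⟩, ?_⟩
        · rw [h2, ← ha, ← hy]; rfl
        · rw [h2, ← hb, ← hy]; rfl
        · have x1 : p.1 = θ + n := congrArg Prod.fst h1
          have x2 : (f0 p).1 = y.1 + n := congrArg Prod.fst h2
          linarith
    refine unmoved_FC _ ?_ (key ρ₂ y₂ L2 e23) (key ρ₃ y₃ L3 rfl) (by linarith [D2.1])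
      (by linarith [D2.2])
    rintro u v ⟨p, sp, rfl, pa, pb⟩ ⟨p', sp', rfl, pa', pb'⟩
    exact hN k e p p' hp sp sp' (pa.trans pa'.symm) (pb.trans pb'.symm)
  rcases L1 with h | ⟨p₁, n₁, m₁, i₁, j₁⟩
  · exact (un (by rw [← e13, h]) (by rw [← e13, h])).elim
  rcases L2 with h | ⟨p₂, n₂, m₂, i₂, j₂⟩
  · exact (un (by rw [← e23, h]) (by rw [← e23, h])).elim
  rcases L3 with h | ⟨p₃, n₃, m₃, i₃, j₃⟩
  · exact (un (by rw [h]) (by rw [h])).elim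
  clear un
  have x1 : p₁.1 = θ + n₁ := congrArg Prod.fst i₁
  have x2 : p₂.1 = θ + n₂ := congrArg Prod.fst i₂
  have x3 : p₃.1 = θ + n₃ := congrArg Prod.fst i₃
  have v1 : (f0 p₁).1 = y₁.1 + n₁ := congrArg Prod.fst j₁
  have v2 : (f0 p₂).1 = y₂.1 + n₂ := congrArg Prod.fst j₂
  have v3 : (f0 p₃).1 = y₃.1 + n₃ := congrArg Prod.fst j₃
  have ha1 : (io k e p₁).2.1 = (io k e p₃).2.1 := by rw [i₁, i₃]; rfl
  have hb1 : (io k e p₁).2.2.1 = (io k e p₃).2.2.1 := by rw [i₁, i₃]; rfl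
  have ha2 : (io k e p₂).2.1 = (io k e p₃).2.1 := by rw [i₂, i₃]; rfl
  have hb2 : (io k e p₂).2.2.1 = (io k e p₃).2.2.1 := by rw [i₂, i₃]; rfl
  have h1 : (io k e p₁).2.2.2 = ρ₁ := by rw [i₁]; rfl
  have h2 : (io k e p₂).2.2.2 = ρ₂ := by rw [i₂]; rfl
  have h3 : (io k e p₃).2.2.2 = ρ₃ := by rw [i₃]; rfl
  have g1 : (io k e (f0 p₁)).2 = (io k e (f0 p₃)).2 := by rw [j₁, j₃]; exact e13
  have g2 : (io k e (f0 p₂)).2 = (io k e (f0 p₃)).2 := by rw [j₂, j₃]; exact e23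
  have c13 := hN k e p₁ p₃ hp (hS _ m₁) (hS _ m₃) ha1 hb1
  have c23 := hN k e p₂ p₃ hp (hS _ m₂) (hS _ m₃) ha2 hb2
  have d13 := hN k e _ _ hp (hS' _ m₁) (hS' _ m₃) (by rw [g1]) (by rw [g1])
  have d23 := hN k e _ _ hp (hS' _ m₂) (hS' _ m₃) (by rw [g2]) (by rw [g2])
  rcases cases_FC (m := n₃ - n₂) (m' := n₃ - n₁) c23 c13 d23 d13 (by push_cast; linarith)
    (by push_cast; linarith) (by linarith [D1.1]) (by linarith [D1.2]) (by linarith [D2.1])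
    (by linarith [D2.2]) with ⟨e12, e32, a1, a2, b1, b2, b3⟩ | ⟨e1, e32, a1, a2⟩
  · obtain ⟨X, hX, hR, hA, hB, hC⟩ := caseI_FC hM hP hp (hS _ m₁) (hS _ m₂) (hS _ m₃) (hS' _ m₂)
      (hS' _ m₃) e12 e32 a1 a2 b1 b2 b3 ha1 hb1 ha2 hb2 (by linarith) (by linarith) g1 g2
      (by linarith [D1.2]) (by linarith [D2.1])
    refine ⟨X, -n₁, hX, hR, ?_, by linarith, by linarith⟩
    rw [← hA, i₁]
    simp [sh]
  · exfalso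
    obtain ⟨-, -, ke, -⟩ := hP
    have kB : kap k e p₃.1 = e := ke k e _ (by linarith) (by linarith)
    have he := hp.pos
    have w1 := half_FC he.le le_rfl (s0_FC (hS _ m₁)).2.2.2
    have w3 := half_FC he.le le_rfl (s0_FC (hS _ m₃)).2.2.2
    refine hH k e p₂ p₃ hp (hS _ m₂) (hS _ m₃)
      (Or.inr ⟨e32, by rw [abs_lt]; constructor <;> linarith⟩) ha2 hb2 ?_
    rw [h2, h3, abs_le]
    simp only [io, e1, kB] at h1 h3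
    constructor <;> linarith [w1.1, w1.2, w3.1, w3.2]

end Pool.Agent.MP_2fc7fa_gt.N.Fp
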