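import Pool.Agent.MP_2fc7fa_gt.N.IfF

/-! Making a diffeomorphism equivariant. -/

open scoped ContDiff

namespace Pool.Agent.MP_2fc7fa_gt.N.Fp

/-- The equivariant version of `g`. -/
noncomputable def av_FEqv (g : W → W) (z : W) : W := z + ∑ j : Zp, (rt (-j) • g (rt j • z) - z)

theorem add_FEqv (j k : Zp) (z : W) : rt j • rt k • z = rt (j + k) • z := by
  rw [smul_smul, rt, rt, rt, AddChar.map_add_eq_mul]

theorem zero_FEqv (z : W) : rt 0 • z = z := by
  rw [rt, AddChar.map_zero_eq_one, one_smul]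

theorem none_FEqv {g : W → W} {z : W} (h : ∀ j, g (rt j • z) = rt j • z) : av_FEqv g z = z := by
  simp [av_FEqv, h, add_FEqv, zero_FEqv]

theorem one_FEqv {g : W → W}
    (hd : ∀ (z : W) (j : Zp), g z ≠ z → g (rt j • z) ≠ rt j • z → j = 0) {z : W} {j : Zp}
    (h : g (rt j • z) ≠ rt j • z) : av_FEqv g z = rt (-j) • g (rt j • z) := by
  rw [av_FEqv, Finset.sum_eq_single j (fun k _ hk => ?_) (by simp), add_sub_cancel]
  have h1 : g (rt k • z) = rt k • z := by
    by_contra h1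
    exact hk (sub_eq_zero.1 (hd _ (k - j) h (by rwa [add_FEqv, sub_add_cancel])))
  rw [h1, add_FEqv, neg_add_cancel, zero_FEqv, sub_self]

theorem inv_FEqv {g g' : W → W} (h1 : Function.LeftInverse g' g)
    (hd : ∀ (z : W) (j : Zp), g z ≠ z → g (rt j • z) ≠ rt j • z → j = 0)
    (hd' : ∀ (z : W) (j : Zp), g' z ≠ z → g' (rt j • z) ≠ rt j • z → j = 0) :
    Function.LeftInverse (av_FEqv g') (av_FEqv g) := fun z => by
  by_cases h : ∀ j, g (rt j • z) = rt j • z
  · rw [none_FEqv h, none_FEqv fun j => by rw [← h j, h1, h j]]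
  · obtain ⟨j, hj⟩ := not_forall.1 h
    have e : rt j • rt (-j) • g (rt j • z) = g (rt j • z) := by
      rw [add_FEqv, add_neg_cancel, zero_FEqv]
    rw [one_FEqv hd hj, one_FEqv hd' (j := j) (by rw [e, h1]; exact Ne.symm hj), e, h1, add_FEqv,
      neg_add_cancel, zero_FEqv]

theorem smooth_FEqv {g : W → W} (h : ContDiff ℝ ∞ g) : ContDiff ℝ ∞ (av_FEqv g) :=
  contDiff_id.add (ContDiff.sum fun j _ =>
    ((h.comp (contDiff_id.const_smul (rt j))).const_smul (rt (-j))).sub contDiff_id)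

theorem eqvS : EqvStmt := by
  intro g g' hg hg' h1 h2 hd
  have hm : ∀ z, g' z ≠ z → g z ≠ z := fun z h e => h (by rw [← e, h1, e])
  have hd' : ∀ (z : W) (j : Zp), g' z ≠ z → g' (rt j • z) ≠ rt j • z → j = 0 := fun z j a b =>
    hd z j (hm _ a) (hm _ b)
  refine ⟨av_FEqv g, av_FEqv g', smooth_FEqv hg, smooth_FEqv hg', inv_FEqv h1 hd hd',
    inv_FEqv h2 hd' hd, fun j z => ?_, fun z h => ?_, fun z => ?_⟩
  · rw [av_FEqv, av_FEqv, smul_add, Finset.smul_sum, ← Equiv.sum_comp (Equiv.subRight j)]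
    simp only [Equiv.subRight_apply, add_FEqv, smul_sub, sub_add_cancel, neg_sub, sub_eq_add_neg j]
  · rw [one_FEqv hd (j := 0) (by rwa [zero_FEqv]), neg_zero, zero_FEqv, zero_FEqv]
  · by_cases h : ∀ j, g (rt j • z) = rt j • z
    · exact Or.inl (none_FEqv h)
    · exact Or.inr (not_forall.1 h)

end Pool.Agent.MP_2fc7fa_gt.N.Fp
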