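import Pool.Agent.MP_2fc7fa_gt.N.IfF

/-! The translates of the support of the model diffeomorphism are disjoint. -/

open Set

namespace Pool.Agent.MP_2fc7fa_gt.N.Fp

theorem bd_FHole {p : P4} (h : p ∈ S0) : p.1 ∈ Icc (-1 / 10 : ℝ) (43 / 5) ∧
    |p.2.1| ≤ 173 / 40 ∧ |p.2.2.1| ≤ 173 / 40 ∧ |p.2.2.2| ≤ 1 / 2 := by
  obtain ⟨h1, -, -, h4⟩ := h
  unfold qq at h1
  have a1 := sq_nonneg (p.1 - 17 / 4)
  have a2 := sq_nonneg p.2.1
  have a3 := sq_nonneg p.2.2.1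
  have b1 : |p.1 - 17 / 4| ≤ 173 / 40 := abs_le_of_sq_le_sq (by linarith) (by norm_num)
  obtain ⟨b2, b3⟩ := abs_le.1 b1
  exact ⟨⟨by linarith, by linarith⟩, abs_le_of_sq_le_sq (by linarith) (by norm_num),
    abs_le_of_sq_le_sq (by linarith) (by norm_num), h4⟩

theorem mul_FHole {κ k a M : ℝ} (h0 : 0 ≤ κ) (h1 : κ ≤ k) (h : |a| ≤ M) : |κ * a| ≤ k * M := by
  rw [abs_mul, abs_of_nonneg h0]
  exact mul_le_mul h1 h (abs_nonneg a) (h0.trans h1)

theorem diff_FHole {k κ κ' x x' a a' : ℝ} (h0 : 0 ≤ κ) (h1 : κ ≤ k) (h0' : 0 ≤ κ') (h1' : κ' ≤ k)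
    (ha : |a| ≤ 173 / 40) (ha' : |a'| ≤ 173 / 40) (e : x + κ * a = x' + κ' * a') :
    |x - x'| ≤ 10 * k := by
  obtain ⟨b1, b2⟩ := abs_le.1 (mul_FHole h0 h1 ha)
  obtain ⟨b3, b4⟩ := abs_le.1 (mul_FHole h0' h1' ha')
  exact abs_le.2 ⟨by linarith, by linarith⟩

theorem small_FHole {k e κ v w w' : ℝ} (h : Par k e) (h0 : e ≤ κ) (h1 : κ ≤ k) (hw : |w| ≤ 1 / 2)
    (hw' : |w'| ≤ 1 / 2) (hv : |0 + κ * w - (-v + e * w')| ≤ e) : |v| ≤ 1 / 160 := by
  have h2 := h.pos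
  have h3 := h.le
  have h4 := h.small
  obtain ⟨b1, b2⟩ := abs_le.1 (mul_FHole (h2.le.trans h0) h1 hw)
  obtain ⟨b3, b4⟩ := abs_le.1 (mul_FHole h2.le le_rfl hw')
  obtain ⟨b5, b6⟩ := abs_le.1 hv
  exact abs_le.2 ⟨by linarith, by linarith⟩

theorem tiny_FHole {k e c a a' : ℝ} (h : Par k e) (ha' : |a'| ≤ 173 / 40)
    (hv : c + k * a = c + e * a') : a ^ 2 ≤ (173 / 16000) ^ 2 := by
  have h2 := h.pos
  have h3 := h.le
  have hk : 0 < k := by linarith
  have h4 := mul_FHole h2.le h3 ha'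
  rw [← add_left_cancel hv, abs_mul, abs_of_pos hk] at h4
  have h5 : |a| ≤ 173 / 16000 := le_of_mul_le_mul_left (by linarith) hk
  exact sq_le_sq' (abs_le.1 h5).1 (abs_le.1 h5).2

theorem holeS (hP : ProfStmt) : HoleStmt := by
  obtain ⟨P1, P2, P3, P4, P5, P6, P7, P8, -⟩ := hP
  intro k e p p' h hp hp' hc h1 h2 h3
  obtain ⟨-, -, -, b4⟩ := bd_FHole hp
  obtain ⟨-, c2, c3, c4⟩ := bd_FHole hp'
  have hek : e ≤ k := by linarith [h.pos, h.le]
  obtain ⟨k1, k2⟩ := P1 k e p.1 hek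
  simp only [io] at h1 h2 h3
  rcases hc with ⟨hu, hv⟩ | ⟨hu, hv⟩
  · obtain ⟨v1, v2⟩ := abs_lt.1 hv
    have e1 : p'.1 - 2 = p.1 := by linarith
    have e2 : kap k e p'.1 = e := P3 k e _ (by linarith) (by linarith)
    rw [P6 _ (Or.inl v2.le), P7 p'.1 (by rw [e1]; exact hv.le), e1, e2] at h3
    have h4 := small_FHole h k1 k2 b4 c4 h3
    obtain ⟨u1, u2⟩ := abs_le.1 h4
    have e3 := P4 p.1 (Or.inl (by linarith))
    have e4 := P4 p'.1 (Or.inr (by rw [e1]; linarith))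
    have e5 := P2 k e p.1 (Or.inl (by linarith))
    rw [e3.1, e4.1, e5, e2] at h1
    rw [e3.2, e4.2, e5, e2] at h2
    have t1 := tiny_FHole h c2 h1
    have t2 := tiny_FHole h c3 h2
    have t3 : (p.1 - 0) ^ 2 ≤ (1 / 160) ^ 2 := sq_le_sq' (by linarith) (by linarith)
    have t4 := hp.2.1
    unfold qq at t4
    linarith
  · obtain ⟨v1, v2⟩ := abs_lt.1 hv
    have e1 : p'.1 - 1 / 2 = p.1 - 17 / 2 := by linarith
    have e2 : kap k e p'.1 = e := P3 k e _ (by linarith) (by linarith)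
    rw [P6 _ (Or.inr (by linarith)), P8 p'.1 (by rw [e1]; exact hv.le), e1, e2] at h3
    have h4 := small_FHole h k1 k2 b4 c4 h3
    obtain ⟨u1, u2⟩ := abs_le.1 h4
    have e3 := P5 p.1 (Or.inr (by linarith))
    have e4 := P5 p'.1 (Or.inl (by rw [e1]; linarith))
    have e5 := P2 k e p.1 (Or.inr (by linarith))
    rw [e3.1, e4.1, e5, e2] at h1
    rw [e3.2, e4.2, e5, e2] at h2
    have t1 := tiny_FHole h c2 h1
    have t2 := tiny_FHole h c3 h2
    have t3 : (p.1 - 17 / 2) ^ 2 ≤ (1 / 160) ^ 2 := sq_le_sq' (by linarith) (by linarith)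
    have t4 := hp.2.2.1
    unfold qq at t4
    linarith

theorem nearS (hP : ProfStmt) : NearStmt := by
  intro k e p p' h hp hp' h1 h2
  obtain ⟨b1, b2, b3, -⟩ := bd_FHole hp
  obtain ⟨c1, c2, c3, -⟩ := bd_FHole hp'
  have hek : e ≤ k := by linarith [h.pos, h.le]
  obtain ⟨k1, k2⟩ := hP.1 k e p.1 hek
  obtain ⟨k3, k4⟩ := hP.1 k e p'.1 hek
  exact h.clus _ b1 _ c1 (diff_FHole (h.pos.le.trans k1) k2 (h.pos.le.trans k3) k4 b2 c2 h1)
    (diff_FHole (h.pos.le.trans k1) k2 (h.pos.le.trans k3) k4 b3 c3 h2)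

theorem int_FHole {n m : ℤ} (h1 : (m : ℝ) - 1 < n) (h2 : (n : ℝ) < m + 1) : n = m := by
  have a1 : m - 1 < n := by exact_mod_cast h1
  have a2 : n < m + 1 := by exact_mod_cast h2
  omega

theorem disjS (hP : ProfStmt) : DisjStmt := by
  intro k e p p' n h hp hp' hn he
  have h1 : (io k e p).2.1 = (io k e p').2.1 := by rw [he]
  have h2 : (io k e p).2.2.1 = (io k e p').2.2.1 := by rw [he]
  have h3 : |(io k e p).2.2.2 - (io k e p').2.2.2| ≤ e := by
    rw [he, sub_self, abs_zero]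
    exact h.pos.le
  have h4 : |(io k e p').2.2.2 - (io k e p).2.2.2| ≤ e := by rwa [abs_sub_comm]
  have H := fun hc => holeS hP k e p p' h hp hp' hc h1 h2 h3
  have H' := fun hc => holeS hP k e p' p h hp' hp hc h1.symm h2.symm h4
  rcases nearS hP k e p p' h hp hp' h1 h2 with c | ⟨c | c, d | d⟩ | ⟨c | c, d | d⟩
  · obtain ⟨c1, c2⟩ := abs_lt.1 c
    exact int_FHole (by push_cast; linarith) (by push_cast; linarith)
  all_goals
    obtain ⟨c1, c2⟩ := abs_lt.1 c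
    obtain ⟨d1, d2⟩ := abs_lt.1 d
  · exact int_FHole (by push_cast; linarith) (by push_cast; linarith)
  · obtain rfl : n = 2 := int_FHole (by push_cast; linarith) (by push_cast; linarith)
    exact (H (Or.inl ⟨by push_cast at hn; linarith, c⟩)).elim
  · obtain rfl : n = -2 := int_FHole (by push_cast; linarith) (by push_cast; linarith)
    exact (H' (Or.inl ⟨by push_cast at hn; linarith, d⟩)).elim
  · exact int_FHole (by push_cast; linarith) (by push_cast; linarith)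
  · exact int_FHole (by push_cast; linarith) (by push_cast; linarith)
  · obtain rfl : n = 8 := int_FHole (by push_cast; linarith) (by push_cast; linarith)
    exact (H' (Or.inr ⟨by push_cast at hn; linarith, d⟩)).elim
  · obtain rfl : n = -8 := int_FHole (by push_cast; linarith) (by push_cast; linarith)
    exact (H (Or.inr ⟨by push_cast at hn; linarith, c⟩)).elim
  · exact int_FHole (by push_cast; linarith) (by push_cast; linarith)

end Pool.Agent.MP_2fc7fa_gt.N.Fp
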