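import Pool.Agent.MP_2fc7fa_gt.N.IfF

/-! Persistence of a unique nondegenerate zero. -/

open scoped ContDiff Topology
open Set Filter

noncomputable section

namespace Pool.Agent.MP_2fc7fa_gt.N.Fp

theorem slice_FIft {E : Type} [NormedAddCommGroup E] [NormedSpace ℝ E] (Φ : ℝ × E → E)
    (hΦ : ContDiff ℝ 1 Φ) (δ : ℝ) (X : E) :
    fderiv ℝ (fun Y => Φ (δ, Y)) X =
      (fderiv ℝ Φ (δ, X)).comp (ContinuousLinearMap.inr ℝ ℝ E) := by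
  have h1 : HasFDerivAt Φ (fderiv ℝ Φ (δ, X)) (δ, X) :=
    (hΦ.differentiable one_ne_zero (δ, X)).hasFDerivAt
  exact (h1.comp X (hasFDerivAt_prodMk_right δ X)).fderiv

theorem gen_FIft {E : Type} [NormedAddCommGroup E] [NormedSpace ℝ E] [FiniteDimensional ℝ E]
    (Φ : ℝ × E → E) (K U : Set (ℝ × E)) (X₀ : E) (hΦ : ContDiff ℝ 1 Φ) (hK : IsCompact K)
    (hU : IsOpen U) (h0 : (0, X₀) ∈ U) (hz : Φ (0, X₀) = 0)
    (huniq : ∀ X, (0, X) ∈ K → Φ (0, X) = 0 → X = X₀)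
    (hinj : Function.Injective (fderiv ℝ (fun Y => Φ (0, Y)) X₀)) :
    ∃ δ₀ : ℝ, 0 < δ₀ ∧ ∀ δ : ℝ, |δ| < δ₀ → ∃ X, (δ, X) ∈ U ∧ Φ (δ, X) = 0 ∧
      Function.Injective (fderiv ℝ (fun Y => Φ (δ, Y)) X) ∧
      ∀ Y, (δ, Y) ∈ K → Φ (δ, Y) = 0 → Y = X := by
  have : CompleteSpace E := FiniteDimensional.complete ℝ E
  set G : ℝ × E → ℝ × E := fun p => (p.1, Φ p) with hG
  set D : (ℝ × E) →L[ℝ] (ℝ × E) :=
    (ContinuousLinearMap.fst ℝ ℝ E).prod (fderiv ℝ Φ (0, X₀)) with hD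
  have hGD : HasStrictFDerivAt G D (0, X₀) :=
    hasStrictFDerivAt_fst.prodMk (hΦ.contDiffAt.hasStrictFDerivAt one_ne_zero)
  have hDinj : Function.Injective D := by
    rw [injective_iff_map_eq_zero]
    rintro ⟨a, v⟩ h
    have h1 : a = 0 := congrArg Prod.fst h
    have h2 : fderiv ℝ Φ (0, X₀) (a, v) = 0 := congrArg Prod.snd h
    subst h1
    have h3 : fderiv ℝ (fun Y => Φ (0, Y)) X₀ v = 0 := by
      rw [slice_FIft Φ hΦ]; exact h2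
    have h4 : v = 0 := (injective_iff_map_eq_zero _).1 hinj v h3
    rw [h4]; rfl
  set e : (ℝ × E) ≃L[ℝ] (ℝ × E) :=
    (LinearEquiv.ofInjectiveEndo (D : (ℝ × E) →ₗ[ℝ] (ℝ × E)) hDinj).toContinuousLinearEquiv with he
  have heD : (e : (ℝ × E) →L[ℝ] (ℝ × E)) = D := by
    ext x <;> rfl
  have hGe : HasStrictFDerivAt G (e : (ℝ × E) →L[ℝ] (ℝ × E)) (0, X₀) := heD ▸ hGD
  have hc : Continuous fun p : ℝ × E =>
      (fderiv ℝ Φ p).comp (ContinuousLinearMap.inr ℝ ℝ E) :=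
    (hΦ.continuous_fderiv one_ne_zero).clm_comp continuous_const
  have hI : ∀ᶠ p in 𝓝 ((0, X₀) : ℝ × E),
      Function.Injective ((fderiv ℝ Φ p).comp (ContinuousLinearMap.inr ℝ ℝ E)) := by
    refine (ContinuousLinearMap.isOpen_injective.preimage hc).mem_nhds ?_
    have := hinj
    rw [slice_FIft Φ hΦ] at this
    exact this
  obtain ⟨V, hV, hVo, hV0⟩ := eventually_nhds_iff.1
    ((hGe.eventually_left_inverse.and hI).and (hU.mem_nhds h0))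
  have hG0 : G (0, X₀) = (0, 0) := by simp [hG, hz]
  have him : G '' V ∈ 𝓝 ((0, 0) : ℝ × E) := by
    rw [← hG0, ← hGe.map_nhds_eq_of_equiv]
    exact image_mem_map (hVo.mem_nhds hV0)
  have h1 : ∀ᶠ δ : ℝ in 𝓝 0, ((δ, 0) : ℝ × E) ∈ G '' V :=
    (Continuous.prodMk_left (0 : E)).continuousAt.preimage_mem_nhds him
  have hZ : IsCompact ((K \ V) ∩ Φ ⁻¹' {0}) :=
    (hK.diff hVo).inter_right (isClosed_singleton.preimage hΦ.continuous)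
  have h2 : ∀ᶠ δ : ℝ in 𝓝 0, δ ∉ Prod.fst '' ((K \ V) ∩ Φ ⁻¹' {0}) := by
    refine (hZ.image continuous_fst).isClosed.isOpen_compl.mem_nhds ?_
    rintro ⟨⟨a, Y⟩, ⟨⟨hk, hv⟩, hp⟩, ha⟩
    have ha' : a = 0 := ha
    subst ha'
    have := huniq Y hk hp
    subst this
    exact hv hV0
  obtain ⟨δ₀, hδ₀, hh⟩ := Metric.eventually_nhds_iff.1 (h1.and h2)
  refine ⟨δ₀, hδ₀, fun δ hδ => ?_⟩
  obtain ⟨⟨⟨a, X⟩, hX, hGX⟩, hn⟩ := hh (y := δ) (by simpa [Real.dist_eq] using hδ)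
  have ha : a = δ := congrArg Prod.fst hGX
  subst ha
  have hb : Φ (a, X) = 0 := congrArg Prod.snd hGX
  refine ⟨X, (hV _ hX).2, hb, ?_, fun Y hY hY0 => ?_⟩
  · rw [slice_FIft Φ hΦ]; exact (hV _ hX).1.2
  · have hYV : (a, Y) ∈ V := by
      by_contra hc'
      exact hn ⟨(a, Y), ⟨⟨hY, hc'⟩, hY0⟩, rfl⟩
    have e1 := (hV _ hYV).1.1
    have e2 := (hV _ hX).1.1
    have e3 : G (a, Y) = G (a, X) := by simp [hG, hY0, hb]
    rw [e3, e2] at e1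
    exact (congrArg Prod.snd e1).symm

theorem iftS : IftStmt := fun Φ K U X₀ hΦ hK hU h0 hz hu hi =>
  gen_FIft Φ K U X₀ hΦ hK hU h0 hz hu hi

end Pool.Agent.MP_2fc7fa_gt.N.Fp
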