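import Pool.Agent.MP_2fc7fa_gt.N.IfF

/-! Properties of the chart `Lam`. -/

open scoped ContDiff Topology
open Set

noncomputable section

namespace Pool.Agent.MP_2fc7fa_gt.N.Fp

theorem ee_eq_FLam (u : ℝ) : ee u = Complex.exp ((2 * Real.pi * u / 37 : ℝ) * Complex.I) := by
  unfold ee
  congr 1
  push_cast
  ring

theorem ee_norm_FLam (u : ℝ) : ‖ee u‖ = 1 := by
  rw [ee_eq_FLam, Complex.norm_exp_ofReal_mul_I]

theorem ee_add_FLam (u v : ℝ) : ee (u + v) = ee u * ee v := by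
  unfold ee
  rw [← Complex.exp_add]
  congr 1
  push_cast
  ring

theorem ne_FLam (p : P4) : (Lam p).1 ≠ 0 :=
  mul_ne_zero (Complex.ofReal_ne_zero.2 (Real.exp_ne_zero _)) (Complex.exp_ne_zero _)

theorem norm_FLam (p : P4) : ‖(Lam p).1‖ = Real.exp p.2.2.2 := by
  show ‖(Real.exp p.2.2.2 : ℂ) * ee p.1‖ = _
  rw [norm_mul, ee_norm_FLam, mul_one, Complex.norm_real, Real.norm_of_nonneg (Real.exp_pos _).le]

theorem quot_FLam (p : P4) :
    (Lam p).2 / (Lam p).1 = (p.2.1 : ℂ) + (p.2.2.1 : ℂ) * Complex.I :=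
  mul_div_cancel_left₀ _ (ne_FLam p)

theorem arg_FLam (p : P4) (hp : |p.1| < 37 / 2) :
    Complex.arg (Lam p).1 = 2 * Real.pi * p.1 / 37 := by
  show Complex.arg ((Real.exp p.2.2.2 : ℂ) * ee p.1) = _
  have hπ := Real.pi_pos
  obtain ⟨h1, h2⟩ := abs_lt.1 hp
  rw [ee_eq_FLam, Complex.exp_mul_I]
  apply Complex.arg_mul_cos_add_sin_mul_I (Real.exp_pos _)
  constructor <;> nlinarith

theorem smooth_FLam : ContDiff ℝ ∞ Lam := by
  have h0 : ContDiff ℝ ∞ fun p : P4 => Real.exp p.2.2.2 := by fun_prop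
  have h1 : ContDiff ℝ ∞ fun p : P4 => (Real.exp p.2.2.2 : ℂ) :=
    Complex.ofRealCLM.contDiff.comp h0
  have h2 : ContDiff ℝ ∞ fun p : P4 => ee p.1 := by
    have a : ContDiff ℝ ∞ fun p : P4 => (p.1 : ℂ) := Complex.ofRealCLM.contDiff.comp contDiff_fst
    exact Complex.contDiff_exp.comp ((contDiff_const.mul a).div_const _)
  have h3 : ContDiff ℝ ∞ fun p : P4 => (p.2.1 : ℂ) := Complex.ofRealCLM.contDiff.comp (by fun_prop)
  have h4 : ContDiff ℝ ∞ fun p : P4 => (p.2.2.1 : ℂ) :=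
    Complex.ofRealCLM.contDiff.comp (by fun_prop)
  exact (h1.mul h2).prodMk ((h1.mul h2).mul (h3.add (h4.mul contDiff_const)))

theorem smooth'_FLam : ContDiffOn ℝ ∞ Lam' {z | z.1 ∈ Complex.slitPlane} := by
  intro z hz
  apply ContDiffAt.contDiffWithinAt
  have hl : ContDiffAt ℝ ∞ (fun z : W => Complex.log z.1) z :=
    ((Complex.contDiffAt_log hz).restrict_scalars ℝ).comp z contDiffAt_fst
  have hq : ContDiffAt ℝ ∞ (fun z : W => z.2 / z.1) z :=
    (ContDiffAt.div (𝕜 := ℂ) contDiffAt_snd contDiffAt_fst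
      (Complex.slitPlane_ne_zero hz)).restrict_scalars ℝ
  have e : Lam' = fun z : W => (37 / (2 * Real.pi) * (Complex.log z.1).im, (z.2 / z.1).re,
      (z.2 / z.1).im, (Complex.log z.1).re) := by
    funext z
    rw [Complex.log_im, Complex.log_re]
    rfl
  rw [e]
  exact (contDiffAt_const.mul (Complex.imCLM.contDiff.contDiffAt.comp z hl)).prodMk
    ((Complex.reCLM.contDiff.contDiffAt.comp z hq).prodMk
      ((Complex.imCLM.contDiff.contDiffAt.comp z hq).prodMk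
        (Complex.reCLM.contDiff.contDiffAt.comp z hl)))

theorem right_FLam (z : W) (hz : z.1 ≠ 0) : Lam (Lam' z) = z := by
  have h1 : (Lam (Lam' z)).1 = z.1 := by
    show ((Real.exp (Real.log ‖z.1‖) : ℝ) : ℂ) * ee (37 / (2 * Real.pi) * Complex.arg z.1) = z.1
    have : 2 * Real.pi * (37 / (2 * Real.pi) * Complex.arg z.1) / 37 = Complex.arg z.1 := by
      field_simp
    rw [Real.exp_log (norm_pos_iff.2 hz), ee_eq_FLam, this, Complex.norm_mul_exp_arg_mul_I]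
  refine Prod.ext h1 ?_
  show (Lam (Lam' z)).1 * (((z.2 / z.1).re : ℂ) + ((z.2 / z.1).im : ℂ) * Complex.I) = z.2
  rw [h1, Complex.re_add_im, mul_div_cancel₀ _ hz]

theorem left_FLam (p : P4) (hp : |p.1| < 37 / 2) : Lam' (Lam p) = p := by
  unfold Lam'
  rw [arg_FLam p hp, quot_FLam, norm_FLam, Real.log_exp]
  refine Prod.ext ?_ (Prod.ext ?_ (Prod.ext ?_ rfl))
  · simp only
    field_simp
  · simp
  · simp

theorem inj_FLam (p p' : P4) (h : Lam p = Lam p') : p.2 = p'.2 ∧ ∃ n : ℤ, p'.1 = p.1 + 37 * n := by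
  have h1 : p.2.2.2 = p'.2.2.2 := by
    apply Real.exp_injective
    rw [← norm_FLam, h, norm_FLam]
  have h2 := quot_FLam p
  rw [h, quot_FLam] at h2
  have h3 : p.2.1 = p'.2.1 := by simpa using (congrArg Complex.re h2).symm
  have h4 : p.2.2.1 = p'.2.2.1 := by simpa using (congrArg Complex.im h2).symm
  refine ⟨Prod.ext h3 (Prod.ext h4 h1), ?_⟩
  have h5 : (Real.exp p.2.2.2 : ℂ) * ee p.1 = (Real.exp p'.2.2.2 : ℂ) * ee p'.1 :=
    congrArg Prod.fst h
  rw [h1] at h5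
  have h6 := mul_left_cancel₀ (Complex.ofReal_ne_zero.2 (Real.exp_ne_zero _)) h5
  rw [ee_eq_FLam, ee_eq_FLam, eq_comm, Complex.exp_eq_exp_iff_exists_int] at h6
  obtain ⟨n, hn⟩ := h6
  refine ⟨n, ?_⟩
  have h7 : 2 * Real.pi * p'.1 / 37 = 2 * Real.pi * p.1 / 37 + n * (2 * Real.pi) := by
    simpa using congrArg Complex.im hn
  have hπ := Real.pi_pos
  apply mul_left_cancel₀ (show 2 * Real.pi / 37 ≠ 0 by positivity)
  linarith

theorem last_FLam (p : P4) (h1 : |p.1| ≤ 1 / 10) (h2 : |p.2.1 - 1| ≤ 1 / 100)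
    (h3 : |p.2.2.1| ≤ 1 / 100) : (Lam p).2 ≠ 0 ∧ |Complex.arg (Lam p).2| < Real.pi / 37 := by
  have hπ := Real.pi_pos
  set w : ℂ := (p.2.1 : ℂ) + (p.2.2.1 : ℂ) * Complex.I with hw
  have re : w.re = p.2.1 := by simp [hw]
  have im : w.im = p.2.2.1 := by simp [hw]
  have r1 : 99 / 100 ≤ w.re := by
    rw [re]
    linarith [(abs_le.1 h2).1]
  have n1 : 99 / 100 ≤ ‖w‖ := r1.trans (Complex.re_le_norm w)
  have w0 : w ≠ 0 := norm_pos_iff.1 (by linarith)
  have a1 : |Complex.arg w| ≤ Real.pi / 2 := Complex.abs_arg_le_pi_div_two_iff.2 (by linarith)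
  have a2 := Real.mul_abs_le_abs_sin a1
  rw [Complex.sin_arg, abs_div, abs_norm, im] at a2
  have a3 : |p.2.2.1| / ‖w‖ ≤ 1 / 99 := by
    rw [div_le_iff₀ (by linarith)]
    linarith
  have a4 : |Complex.arg w| ≤ Real.pi / 198 := by
    have := a2.trans a3
    rw [div_mul_eq_mul_div, div_le_iff₀ hπ] at this
    linarith
  have b1 := arg_FLam p (by linarith)
  obtain ⟨c1, c2⟩ := abs_le.1 h1
  obtain ⟨c3, c4⟩ := abs_le.1 a4
  have b2 : 2 * Real.pi * p.1 / 37 ≤ Real.pi / 185 := by nlinarith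
  have b3 : -(Real.pi / 185) ≤ 2 * Real.pi * p.1 / 37 := by nlinarith
  have e : (Lam p).2 = (Lam p).1 * w := rfl
  refine ⟨e ▸ mul_ne_zero (ne_FLam p) w0, ?_⟩
  rw [e, (Complex.arg_mul_eq_add_arg_iff (ne_FLam p) w0).2 (by
    rw [b1]
    constructor <;> linarith), b1, abs_lt]
  constructor <;> linarith

theorem lamS : LamStmt := by
  refine ⟨smooth_FLam, smooth'_FLam, right_FLam, fun p hp => ⟨left_FLam p hp, ?_, arg_FLam p hp⟩,
    inj_FLam, fun D p => ?_, fun a p => ?_, fun n => ?_, ne_FLam, fun p => ?_, ee_norm_FLam,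
    last_FLam⟩
  · refine Complex.mem_slitPlane_iff_arg.2 ⟨?_, ne_FLam p⟩
    rw [arg_FLam p hp]
    have hπ := Real.pi_pos
    apply ne_of_lt
    nlinarith [(abs_lt.1 hp).2]
  · simp only [Lam, sh, ee_add_FLam, Prod.smul_mk, smul_eq_mul]
    refine Prod.ext ?_ ?_ <;> simp only <;> ring
  · simp only [Lam, Real.exp_add, Prod.smul_mk, Complex.real_smul, Complex.ofReal_mul]
    refine Prod.ext ?_ ?_ <;> simp only <;> ring
  · unfold rt ee
    rw [ZMod.stdAddChar_coe]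
    simp
  · have e : (Lam p).2 = (Lam p).1 * ((p.2.1 : ℂ) + (p.2.2.1 : ℂ) * Complex.I) := rfl
    unfold nsq
    rw [e, norm_mul, norm_FLam, mul_pow, Complex.sq_norm, Complex.normSq_add_mul_I, two_mul,
      Real.exp_add]
    ring

end Pool.Agent.MP_2fc7fa_gt.N.Fp
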