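import Pool.Agent.MP_2fc7fa_gt.N.IfF

/-! Characterisation of the solutions of the limit system. -/

open scoped ContDiff Topology
open Set

noncomputable section

namespace Pool.Agent.MP_2fc7fa_gt.N.Fp

theorem half_FLimChar (hS : StStmt) {x : ℝ} (h : Real.cos (Real.pi * St x) = 0) : x = 1 / 2 := by
  have h0 : 0 ≤ St x := Real.smoothTransition.nonneg x
  have h1 : St x ≤ 1 := Real.smoothTransition.le_one x
  have hp := Real.pi_pos
  have h2 : Real.pi * St x = Real.pi / 2 :=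
    Real.injOn_cos ⟨by positivity, by nlinarith⟩ ⟨by positivity, by linarith⟩
      (by rw [h, Real.cos_pi_div_two])
  have h3 : St x = 1 / 2 := mul_left_cancel₀ hp.ne' (by rw [h2]; ring)
  rcases le_total x 0 with a | a
  · have : St x = 0 := Real.smoothTransition.zero_of_nonpos a
    linarith
  rcases le_total 1 x with b | b
  · have : St x = 1 := Real.smoothTransition.one_of_one_le b
    linarith
  exact hS.2.1.injOn ⟨a, b⟩ ⟨by norm_num, by norm_num⟩ (h3.trans hS.1.symm)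

theorem axis_FLimChar (t w : ℝ) : (Fo (t, 0, 0, w)).1 = 17 / 4 + (t - 17 / 4) *
    (Real.cos (phO ((t - 17 / 4) ^ 2)) ^ 2 +
      Real.sin (phO ((t - 17 / 4) ^ 2)) ^ 2 * Real.cos (th w)) := by
  have e : qq (17 / 4) (t, 0, 0, w) = (t - 17 / 4) ^ 2 := by simp [qq]
  simp only [Fo, tw, e, sh, rX, rN, rP, Real.cos_neg, Real.sin_neg]
  ring

theorem th0_FLimChar (hS : StStmt) : th 0 = Real.pi := by
  rw [th, zero_add, hS.1]; ring

theorem flat_FLimChar (hS : StStmt) (x a b : ℝ) : Fo (x, a, b, 0) =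
    (17 / 4 + (Real.cos (2 * phO (qq (17 / 4) (x, a, b, 0))) * (x - 17 / 4) +
        Real.sin (2 * phO (qq (17 / 4) (x, a, b, 0))) * a),
      Real.cos (2 * phO (qq (17 / 4) (x, a, b, 0))) * a -
        Real.sin (2 * phO (qq (17 / 4) (x, a, b, 0))) * (x - 17 / 4), b, 0) := by
  simp only [Fo, tw, sh, rX, rN, rP, Real.cos_neg, Real.sin_neg, th0_FLimChar hS, one_mul,
    Real.cos_pi, Real.sin_pi, Real.cos_two_mul', Real.sin_two_mul]
  refine Prod.ext ?_ (Prod.ext ?_ (Prod.ext ?_ rfl)) <;> simp only <;> ring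

theorem sq_FLimChar {r : ℝ} (h0 : 0 < r) (h : r ≤ 43 / 10) :
    (r ^ 2 - 1849 / 100) * (320 / 69) ≤ 0 := by nlinarith

theorem neg_FLimChar {t : ℝ} (h0 : t ≤ 1 / 10) (h : (t - 17 / 4) ^ 2 = 59513 / 3200) : t < 0 := by
  nlinarith

theorem trig_FLimChar {c n C : ℝ} (h0 : n ^ 2 + c ^ 2 = 1) (h1 : c ^ 2 + n ^ 2 * C = -1)
    (h2 : -1 ≤ C) : c ^ 2 = 0 := by
  nlinarith [mul_nonneg (sq_nonneg n) (sub_nonneg.2 h2), sq_nonneg c]

theorem limCharS (hS : StStmt) (hM : ModelStmt) : LimCharStmt := by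
  rintro k ⟨t, z1, z2, wa, w, wb⟩ ⟨-, ht, -, -, -, hw, -, hle, h8, hBA⟩ hR
  simp only [Red, pA, pM, pB, zero_mul, mul_zero, sub_zero, Prod.mk_eq_zero] at hR h8 hBA ht hw hle
  obtain ⟨r1, r2, r3, r4, r5, r6⟩ := hR
  obtain ⟨t1, t2⟩ := abs_le.1 ht
  obtain ⟨-, w2⟩ := abs_le.1 hw
  have hq := hM.2.2.2.2.2.2.2.2.2.2 (t, 0, 0, wa)
  have a2 : (Fo (t, 0, 0, wa)).2.1 = 0 := by linarith
  have a3 : (Fo (t, 0, 0, wa)).2.2.1 = 0 := by linarith
  simp only [qq, a2, a3] at hq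
  have a1 : (Fo (t, 0, 0, wa)).1 = 17 / 4 - (t - 17 / 4) := by
    have : ((Fo (t, 0, 0, wa)).1 - 17 / 4 - (t - 17 / 4)) *
        ((Fo (t, 0, 0, wa)).1 - 17 / 4 + (t - 17 / 4)) = 0 := by linarith
    rcases mul_eq_zero.1 this with h | h <;> linarith
  have a4 := axis_FLimChar t wa
  have a5 := axis_FLimChar t w
  set φ := phO ((t - 17 / 4) ^ 2) with hφ
  have b0 := Real.sin_sq_add_cos_sq φ
  have b1 : Real.cos φ ^ 2 + Real.sin φ ^ 2 * Real.cos (th wa) = -1 :=
    mul_left_cancel₀ (a := t - 17 / 4) (by linarith) (by linarith)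
  have b2 := Real.neg_one_le_cos (th wa)
  have b3 : Real.cos φ ^ 2 = 0 := trig_FLimChar b0 b1 b2
  have b4 : Real.sin φ ^ 2 = 1 := by linarith
  have b5 : Real.cos (th wa) = -1 := by rw [b3, b4] at b1; linarith
  have b6 : wa = 0 := by
    have h1 : Real.cos (Real.pi * St (wa + 1 / 2)) ^ 2 = 0 := by
      rw [th, mul_assoc, Real.cos_two_mul] at b5
      linarith
    have := half_FLimChar hS (pow_eq_zero_iff two_ne_zero |>.1 h1)
    linarith
  have b7 : (t - 17 / 4) ^ 2 = 59513 / 3200 := by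
    have := half_FLimChar hS (x := ((t - 17 / 4) ^ 2 - 1849 / 100) * (320 / 69))
      (pow_eq_zero_iff two_ne_zero |>.1 b3)
    linarith
  have b8 : wb = 0 := by linarith
  subst b6 b8
  rw [b3, b4] at a5
  have c1 : (17 / 4 - t) * Real.cos (th w) = 15 / 4 := by linarith
  rw [flat_FLimChar hS] at h8 hBA r4 r5
  simp only at h8 hBA r4 r5
  subst r5
  set ψ := 2 * phO (qq (17 / 4) (t + 2, z1, 0, 0)) with hψ
  have d0 := Real.sin_sq_add_cos_sq ψ
  set r := Real.cos ψ * (t + 2 - 17 / 4) + Real.sin ψ * z1 with hr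
  have d1 : r * Real.cos ψ = t - 9 / 4 := by
    rw [hr]; linear_combination (t - 9 / 4) * d0 + Real.sin ψ * r4
  have d2 : z1 = r * Real.sin ψ := by
    rw [hr]; linear_combination (-z1) * d0 + Real.cos ψ * r4
  have d3 : qq (17 / 4) (t + 2, z1, 0, 0) = r ^ 2 := by
    have : t + 2 - 17 / 4 = r * Real.cos ψ := by linarith
    simp only [qq]
    rw [this]
    nth_rewrite 1 [d2]
    linear_combination r ^ 2 * d0
  clear_value r ψ φ
  rw [d3] at hψ
  have d4 : 0 < r := by linarith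
  refine ⟨neg_FLimChar t2 b7, b7, rfl, rfl, rfl, lt_of_le_of_ne hle ?_, lt_of_le_of_ne w2 ?_, c1,
    r, ?_, lt_of_le_of_ne (by linarith) ?_, by rw [← hψ]; exact d1, by rw [← hψ]; exact d2⟩
  · intro h
    have h : 0 = w := h
    rw [← h, th0_FLimChar hS, Real.cos_pi] at c1
    linarith
  · intro h
    have h : w = 1 / 2 := h
    have e : St (1 / 2 + 1 / 2) = 1 := Real.smoothTransition.one_of_one_le (by norm_num)
    rw [h, th, e, mul_one, Real.cos_two_pi] at c1
    linarith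
  · by_contra h
    have e : St ((r ^ 2 - 1849 / 100) * (320 / 69)) = 0 :=
      Real.smoothTransition.zero_of_nonpos (sq_FLimChar d4 (not_lt.1 h))
    rw [hψ, phO, e, mul_zero, mul_zero, Real.cos_zero] at d1
    linarith
  · intro h
    have h : r = 17 / 4 - t := h
    have e : r ^ 2 = (t - 17 / 4) ^ 2 := by rw [h]; ring
    rw [hψ, e, ← hφ, Real.cos_two_mul, b3] at d1
    linarith

end Pool.Agent.MP_2fc7fa_gt.N.Fp
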