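import Pool.Agent.MP_2fc7fa_gt.N.IfF

/-! Existence and uniqueness of the solution of the limit system. -/

open Set

noncomputable section

namespace Pool.Agent.MP_2fc7fa_gt.N.Fp

theorem cont_St_FLimEx : Continuous St := Real.smoothTransition.continuous

theorem St0_FLimEx : St 0 = 0 := Real.smoothTransition.zero

theorem St1_FLimEx : St 1 = 1 := Real.smoothTransition.one

theorem cont_phO_FLimEx : Continuous phO := by
  unfold phO
  exact continuous_const.mul (cont_St_FLimEx.comp (by fun_prop))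

theorem cont_th_FLimEx : Continuous th := by
  unfold th
  exact continuous_const.mul (cont_St_FLimEx.comp (by fun_prop))

theorem ex_FLimEx (hS : StStmt) : ∃ X, LimSol X := by
  obtain ⟨ra, hra0, hra⟩ : ∃ ra : ℝ, 0 ≤ ra ∧ ra ^ 2 = 59513 / 3200 :=
    ⟨Real.sqrt (59513 / 3200), Real.sqrt_nonneg _, Real.sq_sqrt (by norm_num)⟩
  have h1 : 43 / 10 < ra := by nlinarith
  have hg : Continuous fun r : ℝ => r * Real.cos (2 * phO (r ^ 2)) :=
    continuous_id.mul (Real.continuous_cos.comp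
      (continuous_const.mul (cont_phO_FLimEx.comp (by fun_prop))))
  have e1 : phO ((43 / 10 : ℝ) ^ 2) = 0 := by
    unfold phO
    rw [show ((43 / 10 : ℝ) ^ 2 - 1849 / 100) * (320 / 69) = 0 by norm_num, St0_FLimEx, mul_zero]
  have e2 : phO (ra ^ 2) = Real.pi / 2 := by
    unfold phO
    rw [hra, show ((59513 / 3200 : ℝ) - 1849 / 100) * (320 / 69) = 1 / 2 by norm_num, hS.1]
    ring
  obtain ⟨r, hr, hr'⟩ := intermediate_value_Ioo' h1.le hg.continuousOn
    (show 2 - ra ∈ Ioo (ra * Real.cos (2 * phO (ra ^ 2)))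
      ((43 / 10 : ℝ) * Real.cos (2 * phO ((43 / 10 : ℝ) ^ 2))) by
      rw [e1, e2, mul_zero, Real.cos_zero, show 2 * (Real.pi / 2) = Real.pi by ring, Real.cos_pi]
      constructor <;> linarith)
  have hh : Continuous fun w : ℝ => ra * Real.cos (th w) :=
    continuous_const.mul (Real.continuous_cos.comp cont_th_FLimEx)
  have e3 : th 0 = Real.pi := by
    unfold th
    rw [zero_add, hS.1]
    ring
  have e4 : th (1 / 2) = 2 * Real.pi := by
    unfold th
    rw [show (1 / 2 : ℝ) + 1 / 2 = 1 by norm_num, St1_FLimEx, mul_one]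
  obtain ⟨w, hw, hw'⟩ := intermediate_value_Ioo (show (0 : ℝ) ≤ 1 / 2 by norm_num) hh.continuousOn
    (show (15 / 4 : ℝ) ∈ Ioo (ra * Real.cos (th 0)) (ra * Real.cos (th (1 / 2))) by
      rw [e3, e4, Real.cos_pi, Real.cos_two_pi]
      constructor <;> linarith)
  refine ⟨(17 / 4 - ra, r * Real.sin (2 * phO (r ^ 2)), 0, 0, w, 0), ?_, ?_, rfl, rfl, rfl, hw.1,
    hw.2, ?_, r, hr.1, ?_, ?_, rfl⟩
  · show 17 / 4 - ra < 0
    linarith
  · show (17 / 4 - ra - 17 / 4) ^ 2 = 59513 / 3200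
    rw [← hra]
    ring
  · show (17 / 4 - (17 / 4 - ra)) * Real.cos (th w) = 15 / 4
    rw [sub_sub_cancel]
    exact hw'
  · show r < 17 / 4 - (17 / 4 - ra)
    rw [sub_sub_cancel]
    exact hr.2
  · show r * Real.cos (2 * phO (r ^ 2)) = 17 / 4 - ra - 9 / 4
    have h : r * Real.cos (2 * phO (r ^ 2)) = 2 - ra := hr'
    linarith

theorem r_lt_FLimEx (hS : StStmt) {ra r r' c : ℝ} (hra : ra ^ 2 = 59513 / 3200) (hc : c < 0)
    (h1 : 43 / 10 < r) (h2 : r < r') (h3 : r' < ra) (e : r * Real.cos (2 * phO (r ^ 2)) = c)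
    (e' : r' * Real.cos (2 * phO (r' ^ 2)) = c) : False := by
  have hpi := Real.pi_pos
  have a1 : (0 : ℝ) ≤ (r ^ 2 - 1849 / 100) * (320 / 69) := by nlinarith
  have a2 : (r ^ 2 - 1849 / 100) * (320 / 69) ≤ (r' ^ 2 - 1849 / 100) * (320 / 69) := by nlinarith
  have a3 : (r' ^ 2 - 1849 / 100) * (320 / 69) ≤ 1 / 2 := by nlinarith
  have m := hS.2.1.monotoneOn
  have b1 : St ((r ^ 2 - 1849 / 100) * (320 / 69)) ≤ St ((r' ^ 2 - 1849 / 100) * (320 / 69)) :=
    m ⟨a1, by linarith⟩ ⟨by linarith, by linarith⟩ a2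
  have b2 : St ((r' ^ 2 - 1849 / 100) * (320 / 69)) ≤ St (1 / 2) :=
    m ⟨by linarith, by linarith⟩ ⟨by norm_num, by norm_num⟩ a3
  have b0 : 0 ≤ St ((r ^ 2 - 1849 / 100) * (320 / 69)) := Real.smoothTransition.nonneg _
  rw [hS.1] at b2
  have c1 : Real.cos (2 * phO (r' ^ 2)) ≤ Real.cos (2 * phO (r ^ 2)) := by
    unfold phO
    apply Real.cos_le_cos_of_nonneg_of_le_pi <;> nlinarith
  have c2 : Real.cos (2 * phO (r ^ 2)) < 0 := by
    by_contra h
    have := mul_nonneg (show 0 ≤ r by linarith) (not_lt.1 h)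
    linarith
  nlinarith

theorem w_eq_FLimEx (hS : StStmt) {w w' : ℝ} (h1 : 0 < w) (h2 : w < 1 / 2) (h1' : 0 < w')
    (h2' : w' < 1 / 2) (e : Real.cos (th w) = Real.cos (th w')) : w = w' := by
  have hpi := Real.pi_pos
  have key : ∀ x : ℝ, 0 < x → x < 1 / 2 → 2 * Real.pi - th x ∈ Icc 0 Real.pi := fun x a b => by
    have b1 : St (1 / 2) ≤ St (x + 1 / 2) :=
      hS.2.1.monotoneOn ⟨by norm_num, by norm_num⟩ ⟨by linarith, by linarith⟩ (by linarith)
    have b2 : St (x + 1 / 2) ≤ 1 := Real.smoothTransition.le_one _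
    rw [hS.1] at b1
    unfold th
    constructor <;> nlinarith
  have e1 : 2 * Real.pi - th w = 2 * Real.pi - th w' :=
    Real.injOn_cos (key w h1 h2) (key w' h1' h2') (by
      rw [Real.cos_two_pi_sub, Real.cos_two_pi_sub, e])
  have e2 : St (w + 1 / 2) = St (w' + 1 / 2) := by
    unfold th at e1
    have : 2 * Real.pi * St (w + 1 / 2) = 2 * Real.pi * St (w' + 1 / 2) := by linarith
    exact mul_left_cancel₀ (by positivity) this
  have e3 := hS.2.1.injOn (show w + 1 / 2 ∈ Icc (0 : ℝ) 1 from ⟨by linarith, by linarith⟩)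
    (show w' + 1 / 2 ∈ Icc (0 : ℝ) 1 from ⟨by linarith, by linarith⟩) e2
  linarith

theorem limExS (hS : StStmt) : LimExStmt := by
  refine ⟨ex_FLimEx hS, ?_⟩
  rintro ⟨t, z1, z2, u, w, b⟩ ⟨t', z1', z2', u', w', b'⟩
    ⟨h1, h2, h3, h4, h5, h6, h7, h8, r, h9, h10, h11, h12⟩
    ⟨g1, g2, g3, g4, g5, g6, g7, g8, r', g9, g10, g11, g12⟩
  dsimp only at h1 h2 h3 h4 h5 h6 h7 h8 h10 h11 h12 g1 g2 g3 g4 g5 g6 g7 g8 g10 g11 g12
  have et : t = t' := by
    have : (t - t') * (t + t' - 17 / 2) = 0 := by linarith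
    rcases mul_eq_zero.1 this with h | h <;> linarith
  subst et
  have hra : (17 / 4 - t) ^ 2 = 59513 / 3200 := by linarith
  have er : r = r' := by
    rcases lt_trichotomy r r' with h | h | h
    · exact (r_lt_FLimEx hS hra (by linarith) h9 h g10 h11 g11).elim
    · exact h
    · exact (r_lt_FLimEx hS hra (by linarith) g9 h h10 g11 h11).elim
  subst er
  have ew : w = w' := w_eq_FLimEx hS h6 h7 g6 g7
    (mul_left_cancel₀ (show (17 / 4 - t) ≠ 0 by linarith) (h8.trans g8.symm))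
  rw [h3, h4, h5, h12, g3, g4, g5, g12, ew]

end Pool.Agent.MP_2fc7fa_gt.N.Fp
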