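import Pool.Agent.MP_2fc7fa_gt.N.IfF

/-! The limit solution solves the reduced system and satisfies the open conditions. -/

open Set

noncomputable section

namespace Pool.Agent.MP_2fc7fa_gt.N.Fp

lemma th0_FLimGood (hS : StStmt) : th 0 = Real.pi := by
  unfold th
  rw [zero_add, hS.1]; ring

lemma ph_FLimGood (hS : StStmt) : phO (59513 / 3200) = Real.pi / 2 := by
  unfold phO
  have h : ((59513 / 3200 : ℝ) - 1849 / 100) * (320 / 69) = 1 / 2 := by norm_num
  rw [h, hS.1]; ring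

lemma axis_FLimGood (hS : StStmt) (t w : ℝ) (h : (t - 17 / 4) ^ 2 = 59513 / 3200) :
    Fo (t, 0, 0, w) = ((t - 17 / 4) * Real.cos (th w) + 17 / 4,
      (t - 17 / 4) * Real.sin (th w) ^ 2,
      -((t - 17 / 4) * Real.sin (th w) * Real.cos (th w)), w) := by
  have hq : qq (17 / 4) ((t, 0, 0, w) : P4) = 59513 / 3200 := by
    simp only [qq]; rw [h]; ring
  unfold Fo tw
  rw [hq, ph_FLimGood hS]
  simp only [sh, rX, rN, rP, one_mul, Real.cos_neg, Real.sin_neg, Real.cos_pi_div_two,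
    Real.sin_pi_div_two, Prod.mk.injEq, and_true]
  refine ⟨by ring, by ring, by ring⟩

lemma refl_FLimGood (hS : StStmt) (u z r : ℝ)
    (h1 : r * Real.cos (2 * phO (r ^ 2)) = u - 17 / 4) (h2 : z = r * Real.sin (2 * phO (r ^ 2))) :
    qq (17 / 4) ((u, z, 0, 0) : P4) = r ^ 2 ∧ Fo (u, z, 0, 0) = (r + 17 / 4, 0, 0, 0) := by
  have hq : qq (17 / 4) ((u, z, 0, 0) : P4) = r ^ 2 := by
    simp only [qq]
    rw [← h1, h2]
    linear_combination r ^ 2 * Real.cos_sq_add_sin_sq (2 * phO (r ^ 2))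
  refine ⟨hq, ?_⟩
  unfold Fo tw
  rw [hq]
  have hu : u + -(17 / 4) = r * Real.cos (2 * phO (r ^ 2)) := by rw [h1]; ring
  simp only [sh, rX, rN, rP, one_mul, Real.cos_neg, Real.sin_neg, th0_FLimGood hS, Real.cos_pi,
    Real.sin_pi, Prod.mk.injEq, and_true, hu]
  rw [h2, Real.cos_two_mul', Real.sin_two_mul]
  have hc := Real.cos_sq_add_sin_sq (phO (r ^ 2))
  generalize Real.cos (phO (r ^ 2)) = c at hc ⊢
  generalize Real.sin (phO (r ^ 2)) = n at hc ⊢
  refine ⟨?_, ?_, ?_⟩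
  · linear_combination r * (c ^ 2 + n ^ 2 + 1) * hc
  · ring
  · ring

theorem limGoodS (hS : StStmt) (hM : ModelStmt) : LimGoodStmt := by
  rintro k ⟨t, z1, z2, w', w, wb⟩ hk hk' ⟨ht, hs, h2, h3, h4, hw, hw', hc, r, hr, hr', hr1, hr2⟩
  simp only at ht hs h2 h3 h4 hw hw' hc hr' hr1 hr2
  subst h2 h3 h4
  have hA : pA 0 ((t, z1, 0, 0, w, 0) : E6) = (t, 0, 0, 0) := by simp [pA]
  have hMm : pM 0 ((t, z1, 0, 0, w, 0) : E6) = (t, 0, 0, w) := by simp [pM]
  have hB : pB ((t, z1, 0, 0, w, 0) : E6) = (t + 2, z1, 0, 0) := by simp [pB]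
  have eA := axis_FLimGood hS t 0 hs
  rw [th0_FLimGood hS, Real.cos_pi, Real.sin_pi] at eA
  have eM := axis_FLimGood hS t w hs
  obtain ⟨qB, eB⟩ := refl_FLimGood hS (t + 2) z1 r (by rw [hr1]; ring) hr2
  have qA : qq (17 / 4) ((t, 0, 0, 0) : P4) = 59513 / 3200 := by
    simp only [qq]; rw [hs]; ring
  have ht1 : -7 / 100 < t := by nlinarith
  have ht2 : t < -6 / 100 := by nlinarith
  have hz : |z1| < 5 := by
    rw [hr2, abs_mul, abs_of_pos (by linarith : (0 : ℝ) < r)]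
    have := Real.abs_sin_le_one (2 * phO (r ^ 2))
    nlinarith
  have hm : (t - 17 / 4) * Real.cos (th w) + 17 / 4 = 1 / 2 := by linarith
  constructor
  · simp only [Red, hA, hMm, hB, eA, eM, eB, hm, Prod.mk_eq_zero]
    refine ⟨by ring, by ring, by ring, by ring, by ring, by ring⟩
  · simp only [Good, mem_setOf_eq, hA, hMm, hB, eA, eM, eB, hm, qA, qB]
    refine ⟨by linarith, ht, hz, by norm_num, by norm_num, by nlinarith, by linarith, by linarith,
      by linarith, by linarith, by norm_num, by linarith, hw, by nlinarith⟩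

end Pool.Agent.MP_2fc7fa_gt.N.Fp
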