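import Pool.Agent.MP_2fc7fa_gt.N.IfF

/-! The diffeomorphism at the three points of a good triple, and topological facts. -/

open scoped ContDiff Topology
open Set

noncomputable section

namespace Pool.Agent.MP_2fc7fa_gt.N.Fp

theorem localS (hM : ModelStmt) (hP : ProfStmt) (hL : LamStmt) : LocalStmt := by
  intro k e F X hp hF hG
  obtain ⟨-, -, -, -, -, -, -, mO, -, mW, -⟩ := hM
  obtain ⟨-, kK, kE, d1, d2, r0, r2, r1, -⟩ := hP
  obtain ⟨-, -, -, -, -, lS, -, lR, -, -, lN, -⟩ := hL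
  obtain ⟨g1, g2, -, -, g5, g6, g7, g8, -, -, g11, -⟩ := hG
  dsimp only at g1 g2 g5 g6 g7 g8 g11
  have hk : 0 < k := by linarith [hp.pos, hp.le]
  have hke : ∀ x : ℝ, k * (e / k * x) = e * x := fun x => by field_simp
  have g11' := abs_lt.1 g11
  have low : ∀ p : P4, p.1 < 0 → io k e p = (p.1, 1 + k * p.2.1, k * p.2.2.1, k * p.2.2.2) := by
    intro p h
    rw [io, kK k e _ (Or.inl (by linarith)), (d1 _ (Or.inl (by linarith))).1,
      (d1 _ (Or.inl (by linarith))).2, r0 _ (Or.inl (by linarith)), zero_add, zero_add]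
  have high : ∀ p : P4, 42 / 5 < p.1 →
      io k e p = (p.1, 2 + k * p.2.1, k * p.2.2.1, k * p.2.2.2) := by
    intro p h
    rw [io, kK k e _ (Or.inr h.le), (d2 _ (Or.inr h.le)).1, (d2 _ (Or.inr h.le)).2,
      r0 _ (Or.inr (by linarith)), zero_add, zero_add]
  have mv : ∀ p : P4, 1849 / 100 < qq (17 / 4) p → p.1 < (Fo p).1 →
      F (Lam (io k e p)) = Lam (io k e (Fo p)) := by
    intro p h h'
    have h1 := mO p h.le
    rw [← h1] at h' ⊢
    exact hF.mv p fun h2 => by rw [h2] at h'; exact lt_irrefl _ h'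
  refine ⟨?_, ?_, ?_⟩
  · have h := mv (pA (e / k) X) g5 (by change X.1 < _; linarith)
    rw [low _ g2, high _ (g7.trans g8), mW] at h
    simp only [pA, hke] at h
    exact h
  · have h := mv (pM (e / k) X) g5 (by change X.1 < _; linarith)
    rw [low _ g2, io, kE k e _ (by linarith) (by linarith), (d2 _ (Or.inl g11.le)).1,
      (d2 _ (Or.inl g11.le)).2, r1 _ (by linarith), zero_add, mW] at h
    simp only [pM, hke] at h
    exact h
  · have h := mv (pB X) g6 (by change X.1 + 2 < _; linarith)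
    have hb : |(pB X).1 - 2| ≤ 1 / 10 := by
      change |X.1 + 2 - 2| ≤ _
      rw [abs_le]
      constructor <;> linarith
    rw [high _ g7, io, kE k e _ (by change _ ≤ X.1 + 2; linarith)
      (by change X.1 + 2 ≤ _; linarith), (d1 _ (Or.inr hb)).1, (d1 _ (Or.inr hb)).2,
      r2 _ (by linarith), zero_add, mW] at h
    have h2 : rt ((2 : ℤ) : Zp) = ee 2 := by simpa using lR 2
    have h3 : ee 2 ≠ 0 := norm_ne_zero_iff.1 (by rw [lN]; exact one_ne_zero)
    apply smul_right_injective W h3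
    change ee 2 • F (Lam (cB e X)) = ee 2 • Lam (tB k X)
    conv_lhs => rw [← h2, ← hF.equiv, h2]
    rw [lS, lS]
    simp only [sh, cB, tB, sub_add_cancel]
    simp only [pB, add_sub_cancel_right] at h
    exact h

theorem topS (hM : ModelStmt) : TopStmt := by
  obtain ⟨-, -, -, -, hF, -⟩ := hM
  have h1 : ContDiff ℝ 1 Fo := hF.of_le (by simp)
  obtain ⟨A, hA, eA⟩ : ∃ A : ℝ × E6 → P4, ContDiff ℝ 1 A ∧ ∀ y, Fo (pA y.1 y.2) = A y :=
    ⟨_, h1.comp (by unfold pA; fun_prop), fun _ => rfl⟩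
  obtain ⟨M, hMm, eM⟩ : ∃ A : ℝ × E6 → P4, ContDiff ℝ 1 A ∧ ∀ y, Fo (pM y.1 y.2) = A y :=
    ⟨_, h1.comp (by unfold pM; fun_prop), fun _ => rfl⟩
  obtain ⟨B, hB, eB⟩ : ∃ A : ℝ × E6 → P4, ContDiff ℝ 1 A ∧ ∀ y, Fo (pB y.2) = A y :=
    ⟨_, h1.comp (by unfold pB; fun_prop), fun _ => rfl⟩
  have cA := hA.continuous
  have cM := hMm.continuous
  have cB := hB.continuous
  refine ⟨Metric.isCompact_of_isClosed_isBounded ?_ ?_, fun k => ⟨?_, ?_⟩⟩
  · unfold KK
    simp only [eA, eB, ofPred_and, mem_Icc]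
    refine IsClosed.inter (IsClosed.inter ?_ ?_) (IsClosed.inter ?_ (IsClosed.inter ?_
      (IsClosed.inter ?_ (IsClosed.inter ?_ (IsClosed.inter ?_ (IsClosed.inter ?_
      (IsClosed.inter ?_ (IsClosed.inter ?_ ?_)))))))) <;>
    exact isClosed_le (by fun_prop) (by fun_prop)
  · refine (Metric.isBounded_closedBall (x := (0 : ℝ × E6)) (r := 5)).subset ?_
    rintro y ⟨⟨a0, a1⟩, a2, a3, a4, a5, a6, a7, -⟩
    simp only [mem_closedBall_zero_iff, norm_prod_le_iff, Real.norm_eq_abs]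
    exact ⟨by rw [abs_of_nonneg a0]; linarith, by linarith, a3, a4, by linarith, by linarith,
      by linarith⟩
  · have qA : Continuous fun y : ℝ × E6 => qq (17 / 4) (pA y.1 y.2) := by
      unfold qq pA; fun_prop
    have qB : Continuous fun y : ℝ × E6 => qq (17 / 4) (pB y.2) := by
      unfold qq pB; fun_prop
    unfold Good
    simp only [eA, eB, eM, ofPred_and]
    refine IsOpen.inter ?_ (IsOpen.inter ?_ (IsOpen.inter ?_ (IsOpen.inter ?_ (IsOpen.inter ?_
      (IsOpen.inter ?_ (IsOpen.inter ?_ (IsOpen.inter ?_ (IsOpen.inter ?_ (IsOpen.inter ?_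
      (IsOpen.inter ?_ (IsOpen.inter ?_ (IsOpen.inter ?_ ?_)))))))))))) <;>
    exact isOpen_lt (by fun_prop) (by fun_prop)
  · unfold Red
    simp only [eA, eB, eM]
    fun_prop

end Pool.Agent.MP_2fc7fa_gt.N.Fp
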