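import Pool.Agent.MP_2fc7fa_gt.N.IfF

/-! The model barbell diffeomorphism: smoothness, inverse, support. -/

open scoped ContDiff Topology
open Set

noncomputable section

namespace Pool.Agent.MP_2fc7fa_gt.N.Fp

theorem rX_rX_FModel (s t : ℝ) (p : P4) : rX s (rX t p) = rX (s + t) p := by
  simp only [rX, Real.cos_add, Real.sin_add]
  refine Prod.ext rfl (Prod.ext ?_ (Prod.ext ?_ rfl)) <;> simp only <;> ring

theorem rP_rP_FModel (s t : ℝ) (p : P4) : rP s (rP t p) = rP (s + t) p := by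
  simp only [rP, Real.cos_add, Real.sin_add]
  refine Prod.ext ?_ (Prod.ext ?_ rfl) <;> simp only <;> ring

theorem rX_triv_FModel (t : ℝ) (hc : Real.cos t = 1) (hs : Real.sin t = 0) (p : P4) :
    rX t p = p := by
  simp only [rX, hc, hs]
  refine Prod.ext rfl (Prod.ext ?_ (Prod.ext ?_ rfl)) <;> simp only <;> ring

theorem rX_zero_FModel (p : P4) : rX 0 p = p :=
  rX_triv_FModel 0 Real.cos_zero Real.sin_zero p

theorem rP_zero_FModel (p : P4) : rP 0 p = p := by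
  simp only [rP, Real.cos_zero, Real.sin_zero]
  refine Prod.ext ?_ (Prod.ext ?_ rfl) <;> simp only <;> ring

theorem rN_triv_FModel (φ t : ℝ) (hc : Real.cos t = 1) (hs : Real.sin t = 0) (p : P4) :
    rN φ t p = p := by
  rw [rN, rX_triv_FModel t hc hs, rP_rP_FModel, add_neg_cancel, rP_zero_FModel]

theorem rN_rN_FModel (φ s t : ℝ) (p : P4) : rN φ s (rN φ t p) = rN φ (s + t) p := by
  simp only [rN]
  rw [rP_rP_FModel, neg_add_cancel, rP_zero_FModel, rX_rX_FModel]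

theorem rN_zero_FModel (t : ℝ) (p : P4) : rN 0 t p = rX t p := by
  rw [rN, neg_zero, rP_zero_FModel, rP_zero_FModel]

theorem rN_pi_FModel (t : ℝ) (p : P4) : rN Real.pi t p = rX (-t) p := by
  simp only [rN, rP, rX, Real.cos_neg, Real.sin_neg, Real.cos_pi, Real.sin_pi]
  refine Prod.ext ?_ (Prod.ext ?_ (Prod.ext ?_ rfl)) <;> simp only <;> ring

theorem sh_sh_FModel (c d : ℝ) (p : P4) : sh c (sh d p) = sh (d + c) p := by
  simp only [sh]
  refine Prod.ext ?_ rfl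
  simp only
  ring

theorem sh_zero_FModel (p : P4) : sh 0 p = p := by
  simp only [sh, add_zero]

theorem sh_rX_FModel (c t : ℝ) (p : P4) : sh c (rX t (sh (-c) p)) = rX t p := by
  simp only [sh, rX]
  refine Prod.ext ?_ rfl
  simp only
  ring

theorem qq_rX_FModel (c t : ℝ) (p : P4) : qq c (rX t p) = qq c p := by
  simp only [qq, rX]
  have := Real.sin_sq_add_cos_sq t
  linear_combination (p.2.1 ^ 2 + p.2.2.1 ^ 2) * this

theorem qq_rP_FModel (t : ℝ) (p : P4) : qq 0 (rP t p) = qq 0 p := by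
  simp only [qq, rP]
  have := Real.sin_sq_add_cos_sq t
  linear_combination (p.1 ^ 2 + p.2.1 ^ 2) * this

theorem qq_rN_FModel (φ t : ℝ) (p : P4) : qq 0 (rN φ t p) = qq 0 p := by
  rw [rN, qq_rP_FModel, qq_rX_FModel, qq_rP_FModel]

theorem qq_sh_FModel (c : ℝ) (p : P4) : qq c (sh c p) = qq 0 p := by
  simp only [qq, sh]
  ring

theorem qq_sh_neg_FModel (c : ℝ) (p : P4) : qq 0 (sh (-c) p) = qq c p := by
  simp only [qq, sh]
  ring

theorem tw_w_FModel (c σ : ℝ) (φ : ℝ → ℝ) (p : P4) : (tw c σ φ p).2.2.2 = p.2.2.2 := rfl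

theorem tw'_w_FModel (c σ : ℝ) (φ : ℝ → ℝ) (p : P4) : (tw' c σ φ p).2.2.2 = p.2.2.2 := rfl

theorem tw_qq_FModel (c σ : ℝ) (φ : ℝ → ℝ) (p : P4) : qq c (tw c σ φ p) = qq c p := by
  rw [tw, qq_sh_FModel, qq_rX_FModel, qq_rN_FModel, qq_sh_neg_FModel]

theorem tw'_qq_FModel (c σ : ℝ) (φ : ℝ → ℝ) (p : P4) : qq c (tw' c σ φ p) = qq c p := by
  rw [tw', qq_sh_FModel, qq_rN_FModel, qq_rX_FModel, qq_sh_neg_FModel]

theorem tw'_tw_FModel (c σ : ℝ) (φ : ℝ → ℝ) (p : P4) : tw' c σ φ (tw c σ φ p) = p := by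
  rw [tw', tw_qq_FModel, tw_w_FModel, tw, sh_sh_FModel, add_neg_cancel, sh_zero_FModel,
    rX_rX_FModel, neg_add_cancel, rX_zero_FModel, rN_rN_FModel, neg_add_cancel,
    rN_triv_FModel _ 0 Real.cos_zero Real.sin_zero, sh_sh_FModel, neg_add_cancel, sh_zero_FModel]

theorem tw_tw'_FModel (c σ : ℝ) (φ : ℝ → ℝ) (p : P4) : tw c σ φ (tw' c σ φ p) = p := by
  rw [tw, tw'_qq_FModel, tw'_w_FModel, tw', sh_sh_FModel, add_neg_cancel, sh_zero_FModel,
    rN_rN_FModel, add_neg_cancel, rN_triv_FModel _ 0 Real.cos_zero Real.sin_zero,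
    rX_rX_FModel, add_neg_cancel, rX_zero_FModel, sh_sh_FModel, neg_add_cancel, sh_zero_FModel]

theorem St_smooth_FModel : ContDiff ℝ ∞ St := Real.smoothTransition.contDiff

theorem th_smooth_FModel : ContDiff ℝ ∞ th :=
  contDiff_const.mul (St_smooth_FModel.comp (contDiff_id.add contDiff_const))

theorem phO_smooth_FModel : ContDiff ℝ ∞ phO :=
  contDiff_const.mul (St_smooth_FModel.comp ((contDiff_id.sub contDiff_const).mul contDiff_const))

theorem phI_smooth_FModel : ContDiff ℝ ∞ phI :=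
  contDiff_const.mul (contDiff_const.sub
    (St_smooth_FModel.comp ((contDiff_id.sub contDiff_const).mul contDiff_const)))

theorem rX_smooth_FModel {t : P4 → ℝ} {g : P4 → P4} (ht : ContDiff ℝ ∞ t) (hg : ContDiff ℝ ∞ g) :
    ContDiff ℝ ∞ fun p => rX (t p) (g p) := by
  have hc : ContDiff ℝ ∞ fun p => Real.cos (t p) := Real.contDiff_cos.comp ht
  have hs : ContDiff ℝ ∞ fun p => Real.sin (t p) := Real.contDiff_sin.comp ht
  exact hg.fst.prodMk (((hc.mul hg.snd.fst).sub (hs.mul hg.snd.snd.fst)).prodMk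
    (((hs.mul hg.snd.fst).add (hc.mul hg.snd.snd.fst)).prodMk hg.snd.snd.snd))

theorem rP_smooth_FModel {t : P4 → ℝ} {g : P4 → P4} (ht : ContDiff ℝ ∞ t) (hg : ContDiff ℝ ∞ g) :
    ContDiff ℝ ∞ fun p => rP (t p) (g p) := by
  have hc : ContDiff ℝ ∞ fun p => Real.cos (t p) := Real.contDiff_cos.comp ht
  have hs : ContDiff ℝ ∞ fun p => Real.sin (t p) := Real.contDiff_sin.comp ht
  exact ((hc.mul hg.fst).sub (hs.mul hg.snd.fst)).prodMk
    (((hs.mul hg.fst).add (hc.mul hg.snd.fst)).prodMk (hg.snd.snd.fst.prodMk hg.snd.snd.snd))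

theorem rN_smooth_FModel {a t : P4 → ℝ} {g : P4 → P4} (ha : ContDiff ℝ ∞ a)
    (ht : ContDiff ℝ ∞ t) (hg : ContDiff ℝ ∞ g) :
    ContDiff ℝ ∞ fun p => rN (a p) (t p) (g p) :=
  rP_smooth_FModel ha (rX_smooth_FModel ht (rP_smooth_FModel ha.neg hg))

theorem sh_smooth_FModel (c : ℝ) {g : P4 → P4} (hg : ContDiff ℝ ∞ g) :
    ContDiff ℝ ∞ fun p => sh c (g p) :=
  (hg.fst.add contDiff_const).prodMk hg.snd

theorem qq_smooth_FModel (c : ℝ) : ContDiff ℝ ∞ (qq c) :=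
  (((contDiff_fst.sub contDiff_const).pow 2).add (contDiff_snd.fst.pow 2)).add
    (contDiff_snd.snd.fst.pow 2)

theorem thw_smooth_FModel : ContDiff ℝ ∞ fun p : P4 => th p.2.2.2 :=
  th_smooth_FModel.comp contDiff_snd.snd.snd

theorem tw_smooth_FModel (c σ : ℝ) {φ : ℝ → ℝ} (hφ : ContDiff ℝ ∞ φ) :
    ContDiff ℝ ∞ (tw c σ φ) :=
  sh_smooth_FModel c (rX_smooth_FModel (contDiff_const.mul thw_smooth_FModel)
    (rN_smooth_FModel (hφ.comp (qq_smooth_FModel c)) thw_smooth_FModel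
      (sh_smooth_FModel (-c) contDiff_id)))

theorem tw'_smooth_FModel (c σ : ℝ) {φ : ℝ → ℝ} (hφ : ContDiff ℝ ∞ φ) :
    ContDiff ℝ ∞ (tw' c σ φ) :=
  sh_smooth_FModel c (rN_smooth_FModel (hφ.comp (qq_smooth_FModel c)) thw_smooth_FModel.neg
    (rX_smooth_FModel (contDiff_const.mul thw_smooth_FModel).neg
      (sh_smooth_FModel (-c) contDiff_id)))

theorem th_triv_FModel (w : ℝ) (hw : 1 / 2 ≤ |w|) :
    Real.cos (th w) = 1 ∧ Real.sin (th w) = 0 := by
  rcases le_abs.mp hw with h | h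
  · have : St (w + 1 / 2) = 1 := Real.smoothTransition.one_of_one_le (by linarith)
    rw [th, this, mul_one]
    exact ⟨Real.cos_two_pi, Real.sin_two_pi⟩
  · have : St (w + 1 / 2) = 0 := Real.smoothTransition.zero_of_nonpos (by linarith)
    rw [th, this, mul_zero]
    exact ⟨Real.cos_zero, Real.sin_zero⟩

theorem tw_far_FModel (c σ : ℝ) (hσ : σ = 1 ∨ σ = -1) (φ : ℝ → ℝ) (p : P4)
    (hw : 1 / 2 ≤ |p.2.2.2|) : tw c σ φ p = p := by
  obtain ⟨hc, hs⟩ := th_triv_FModel _ hw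
  have hc' : Real.cos (σ * th p.2.2.2) = 1 := by
    rcases hσ with h | h <;> simp [h, hc]
  have hs' : Real.sin (σ * th p.2.2.2) = 0 := by
    rcases hσ with h | h <;> simp [h, hs]
  rw [tw, rN_triv_FModel _ _ hc hs, rX_triv_FModel _ hc' hs', sh_sh_FModel, neg_add_cancel,
    sh_zero_FModel]

theorem twI_out_FModel (c : ℝ) (p : P4) (h : 1 / 400 ≤ qq c p) : tw c (-1) phI p = p := by
  have h1 : St ((qq c p - 1 / 1600) * (1600 / 3)) = 1 :=
    Real.smoothTransition.one_of_one_le (by linarith)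
  have h2 : phI (qq c p) = 0 := by rw [phI, h1, sub_self, mul_zero]
  rw [tw, h2, rN_zero_FModel, rX_rX_FModel, sh_rX_FModel, neg_one_mul, neg_add_cancel,
    rX_zero_FModel]

theorem twI_in_FModel (c : ℝ) (p : P4) (h : qq c p ≤ 1 / 1600) :
    tw c (-1) phI p = rX (-(2 * th p.2.2.2)) p := by
  have h1 : St ((qq c p - 1 / 1600) * (1600 / 3)) = 0 :=
    Real.smoothTransition.zero_of_nonpos (by linarith)
  have h2 : phI (qq c p) = Real.pi := by rw [phI, h1, sub_zero, mul_one]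
  rw [tw, h2, rN_pi_FModel, rX_rX_FModel, sh_rX_FModel]
  congr 1
  ring

theorem Fo_in_FModel (p : P4) (h : qq (17 / 4) p ≤ 1849 / 100) :
    Fo p = rX (2 * th p.2.2.2) p := by
  have h1 : St ((qq (17 / 4) p - 1849 / 100) * (320 / 69)) = 0 :=
    Real.smoothTransition.zero_of_nonpos (by linarith)
  have h2 : phO (qq (17 / 4) p) = 0 := by rw [phO, h1, mul_zero]
  rw [Fo, tw, h2, rN_zero_FModel, rX_rX_FModel, sh_rX_FModel]
  congr 1
  ring

theorem Fo_out_FModel (p : P4) (h : (173 / 40) ^ 2 ≤ qq (17 / 4) p) : Fo p = p := by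
  have h1 : St ((qq (17 / 4) p - 1849 / 100) * (320 / 69)) = 1 :=
    Real.smoothTransition.one_of_one_le (by linarith)
  have h2 : phO (qq (17 / 4) p) = Real.pi := by rw [phO, h1, mul_one]
  rw [Fo, tw, h2, rN_pi_FModel, rX_rX_FModel, sh_rX_FModel, one_mul, add_neg_cancel,
    rX_zero_FModel]

theorem ball_FModel (c : ℝ) (p : P4) (h : qq c p ≤ 1 / 400) : |p.1 - c| ≤ 1 / 20 := by
  refine abs_le_of_sq_le_sq' ?_ (by norm_num) |> abs_le.mpr
  simp only [qq] at h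
  nlinarith [sq_nonneg p.2.1, sq_nonneg p.2.2.1]

theorem geo_FModel (c : ℝ) (hc : c = 0 ∨ c = 17 / 2) (p : P4) (h : qq c p ≤ 1 / 400) :
    qq (17 / 4) p ≤ 1849 / 100 := by
  have hb := abs_le.mp (ball_FModel c p h)
  simp only [qq] at h ⊢
  rcases hc with rfl | rfl <;> nlinarith [hb.1, hb.2]

theorem geo'_FModel (c : ℝ) (hc : c = 0 ∨ c = 17 / 2) (p : P4)
    (h : 1849 / 100 ≤ qq (17 / 4) p) : 1 / 400 ≤ qq c p := by
  simp only [qq] at h ⊢
  by_contra hlt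
  push Not at hlt
  have h1 : (p.1 - c) ^ 2 < (1 / 20) ^ 2 := by nlinarith [sq_nonneg p.2.1, sq_nonneg p.2.2.1]
  have hb := abs_lt.mp (abs_lt_of_sq_lt_sq h1 (by norm_num))
  rcases hc with rfl | rfl <;> nlinarith [hb.1, hb.2]

theorem other_FModel (c d : ℝ) (hcd : |c - d| = 17 / 2) (p : P4) (h : qq c p ≤ 1 / 400) :
    1 / 400 ≤ qq d p := by
  have hb := abs_le.mp (ball_FModel c p h)
  simp only [qq]
  rcases (abs_eq (by norm_num)).mp hcd with h1 | h1 <;>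
    nlinarith [hb.1, hb.2, sq_nonneg p.2.1, sq_nonneg p.2.2.1]

theorem inner_move_FModel (c : ℝ) (hc : c = 0 ∨ c = 17 / 2) (p : P4)
    (h : qq (17 / 4) p ≤ 1849 / 100) :
    qq (17 / 4) (tw c (-1) phI p) ≤ 1849 / 100 ∧ |(tw c (-1) phI p).1 - p.1| ≤ 1 / 10 := by
  rcases le_total (1 / 400) (qq c p) with h1 | h1
  · rw [twI_out_FModel c p h1]
    exact ⟨h, by norm_num⟩
  · have h2 : qq c (tw c (-1) phI p) ≤ 1 / 400 := by rwa [tw_qq_FModel]
    refine ⟨geo_FModel c hc _ h2, ?_⟩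
    have ha := abs_le.mp (ball_FModel c p h1)
    have hb := abs_le.mp (ball_FModel c _ h2)
    exact abs_le.mpr ⟨by linarith [ha.1, ha.2, hb.1, hb.2], by linarith [ha.1, ha.2, hb.1, hb.2]⟩

theorem f0_out_FModel (p : P4) (h : 1849 / 100 ≤ qq (17 / 4) p) : f0 p = Fo p := by
  rw [f0, twI_out_FModel _ p (geo'_FModel _ (Or.inr rfl) p h),
    twI_out_FModel _ p (geo'_FModel _ (Or.inl rfl) p h)]

theorem undo_FModel (p : P4) (h : qq (17 / 4) p ≤ 1849 / 100) :
    Fo (rX (-(2 * th p.2.2.2)) p) = p := by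
  rw [Fo_in_FModel _ (by rwa [qq_rX_FModel]), rX_rX_FModel]
  have : (rX (-(2 * th p.2.2.2)) p).2.2.2 = p.2.2.2 := rfl
  rw [this, add_neg_cancel, rX_zero_FModel]

theorem supp_FModel (p : P4) (hp : f0 p ≠ p) : p ∈ S0 := by
  refine ⟨?_, ?_, ?_, ?_⟩
  · by_contra h
    push Not at h
    refine hp ?_
    rw [f0_out_FModel p (by linarith), Fo_out_FModel p h.le]
  · by_contra h
    push Not at h
    refine hp ?_
    have h1 : qq 0 p ≤ 1 / 400 := by linarith
    rw [f0, twI_out_FModel _ p (other_FModel 0 (17 / 2) (by norm_num) p h1),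
      twI_in_FModel 0 p h.le, undo_FModel p (geo_FModel 0 (Or.inl rfl) p h1)]
  · by_contra h
    push Not at h
    refine hp ?_
    have h1 : qq (17 / 2) p ≤ 1 / 400 := by linarith
    have h2 : 1 / 400 ≤ qq 0 (rX (-(2 * th p.2.2.2)) p) := by
      rw [qq_rX_FModel]
      exact other_FModel (17 / 2) 0 (by norm_num) p h1
    rw [f0, twI_in_FModel _ p h.le, twI_out_FModel 0 _ h2,
      undo_FModel p (geo_FModel _ (Or.inr rfl) p h1)]
  · by_contra h
    push Not at h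
    refine hp ?_
    rw [f0, tw_far_FModel _ _ (Or.inr rfl) _ p h.le, tw_far_FModel _ _ (Or.inr rfl) _ p h.le, Fo,
      tw_far_FModel _ _ (Or.inl rfl) _ p h.le]

theorem move_FModel (p : P4) (h : qq (17 / 4) p ≤ 1849 / 100) : |(f0 p).1 - p.1| ≤ 1 / 5 := by
  obtain ⟨h1, h2⟩ := inner_move_FModel (17 / 2) (Or.inr rfl) p h
  obtain ⟨h3, h4⟩ := inner_move_FModel 0 (Or.inl rfl) _ h1
  have h5 : (f0 p).1 = (tw 0 (-1) phI (tw (17 / 2) (-1) phI p)).1 := by
    rw [f0, Fo_in_FModel _ h3]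
    rfl
  rw [h5]
  have ha := abs_le.mp h2
  have hb := abs_le.mp h4
  exact abs_le.mpr ⟨by linarith [ha.1, hb.1], by linarith [ha.2, hb.2]⟩

theorem modelS : ModelStmt := by
  have hFo : ContDiff ℝ ∞ Fo := tw_smooth_FModel _ _ phO_smooth_FModel
  refine ⟨?_, ?_, ?_, ?_, hFo, supp_FModel, fun _ => rfl, f0_out_FModel, move_FModel,
    fun _ => rfl, fun p => tw_qq_FModel _ _ _ p⟩
  · exact hFo.comp ((tw_smooth_FModel 0 (-1) phI_smooth_FModel).comp
      (tw_smooth_FModel (17 / 2) (-1) phI_smooth_FModel))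
  · exact (tw'_smooth_FModel (17 / 2) (-1) phI_smooth_FModel).comp
      ((tw'_smooth_FModel 0 (-1) phI_smooth_FModel).comp
        (tw'_smooth_FModel (17 / 4) 1 phO_smooth_FModel))
  · intro p
    rw [f0', f0, Fo, tw'_tw_FModel, tw'_tw_FModel, tw'_tw_FModel]
  · intro p
    rw [f0', f0, Fo, tw_tw'_FModel, tw_tw'_FModel, tw_tw'_FModel]

end Pool.Agent.MP_2fc7fa_gt.N.Fp
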