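import Pool.Agent.MP_2fc7fa_gt.N.IfF

/-! Transfer of transversality from the reduced system to the counting problem. -/

open scoped ContDiff Topology
open Set Filter

noncomputable section

namespace Pool.Agent.MP_2fc7fa_gt.N.Fp

theorem fst_FNondeg {A B : Type} [NormedAddCommGroup A] [NormedSpace ℝ A] [NormedAddCommGroup B]
    [NormedSpace ℝ B] {f : ℝ → A × B} {v : A × B} (h : HasDerivAt f v 0) :
    HasDerivAt (fun τ => (f τ).1) v.1 0 :=
  (ContinuousLinearMap.fst ℝ A B).hasFDerivAt.comp_hasDerivAt 0 h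

theorem snd_FNondeg {A B : Type} [NormedAddCommGroup A] [NormedSpace ℝ A] [NormedAddCommGroup B]
    [NormedSpace ℝ B] {f : ℝ → A × B} {v : A × B} (h : HasDerivAt f v 0) :
    HasDerivAt (fun τ => (f τ).2) v.2 0 :=
  (ContinuousLinearMap.snd ℝ A B).hasFDerivAt.comp_hasDerivAt 0 h

theorem nsq_FNondeg : Differentiable ℝ nsq := fun _ =>
  (differentiableAt_fst.norm_sq ℂ).add (differentiableAt_snd.norm_sq ℂ)

theorem phi_FNondeg {F : W → W} (hF : Differentiable ℝ F) : Differentiable ℝ (Phi F) := by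
  have hn := nsq_FNondeg
  unfold Phi det2
  fun_prop

/-- The inverse of the parametrisation of triples. -/
def Ups_FNondeg (k e : ℝ) (y : W × ℝ × ℝ) : E6 :=
  ((Lam' y.1).1, ((Lam' y.1).2.1 - 1) / e, (Lam' y.1).2.2.1 / e, (Lam' y.1).2.2.2 / k,
    ((Lam' y.1).2.2.2 + y.2.1) / k, ((Lam' y.1).2.2.2 + y.2.2 + (Lam' y.1).1) / e)

theorem xi_ups_FNondeg (hL : LamStmt) {k e : ℝ} (hk : k ≠ 0) (he : e ≠ 0) (y : W × ℝ × ℝ)
    (hy : y.1.1 ≠ 0) : Xi k e (Ups_FNondeg k e y) = y := by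
  have h1 : cA k e (Ups_FNondeg k e y) = Lam' y.1 := by
    simp only [cA, Ups_FNondeg]
    ext <;> simp only <;> field_simp
    ring
  unfold Xi
  rw [h1, hL.2.2.1 _ hy]
  simp only [Ups_FNondeg]
  refine Prod.ext rfl (Prod.ext ?_ ?_) <;> simp only <;> field_simp <;> ring

theorem ups_xi_FNondeg (hL : LamStmt) {k e : ℝ} (hk : k ≠ 0) (he : e ≠ 0) (X : E6)
    (hX : |X.1| < 37 / 2) : Ups_FNondeg k e (Xi k e X) = X := by
  have h1 : Lam' (Xi k e X).1 = cA k e X := (hL.2.2.2.1 (cA k e X) hX).1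
  unfold Ups_FNondeg
  rw [h1]
  simp only [cA, Xi]
  ext <;> simp only <;> field_simp <;> ring

theorem ups_diff_FNondeg (hL : LamStmt) (k e : ℝ) (y : W × ℝ × ℝ)
    (hy : y.1.1 ∈ Complex.slitPlane) : DifferentiableAt ℝ (Ups_FNondeg k e) y := by
  have ho : IsOpen {z : W | z.1 ∈ Complex.slitPlane} :=
    Complex.isOpen_slitPlane.preimage continuous_fst
  have h1 : DifferentiableAt ℝ Lam' y.1 :=
    (hL.2.1.contDiffAt (ho.mem_nhds hy)).differentiableAt (by simp)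
  unfold Ups_FNondeg
  generalize Lam' = G at h1 ⊢
  fun_prop

theorem phi_xi_FNondeg (hL : LamStmt) (hLoc : LocalStmt) {k e : ℝ} {F : W → W} (hp : Par k e)
    (hF : IsF k e F) (Y : E6) (hY : (e / k, Y) ∈ Good k) :
    Phi F (Xi k e Y) = (det2 (Lam (tA k e Y)) (Lam (tB k Y)),
      nsq (Lam (tB k Y)) - nsq (Lam (tA k e Y)), det2 (Lam (tB k Y)) (Lam (tM k e Y)),
      nsq (Lam (tM k e Y)) - nsq (Lam (tB k Y))) := by
  obtain ⟨h1, h2, h3⟩ := hLoc k e F Y hp hF hY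
  have a1 : Real.exp (Xi k e Y).2.1 • (Xi k e Y).1 = Lam (cM k e Y) := by
    simp only [Xi]
    rw [hL.2.2.2.2.2.2.1]
    simp only [cA, cM, add_sub_cancel]
  have a2 : Real.exp (Xi k e Y).2.2 • (Xi k e Y).1 = Lam (cB e Y) := by
    simp only [Xi]
    rw [hL.2.2.2.2.2.2.1]
    simp only [cA, cB, add_sub_cancel]
  have a3 : (Xi k e Y).1 = Lam (cA k e Y) := rfl
  unfold Phi
  rw [a1, a2, a3, h1, h2, h3]

theorem red_FNondeg {k : ℝ} (hk : k ≠ 0) (e : ℝ) (Y : E6) :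
    Red k (e / k, Y) = (((tB k Y).2 - (tA k e Y).2).1 / k, ((tB k Y).2 - (tA k e Y).2).2.1 / k,
      ((tB k Y).2 - (tA k e Y).2).2.2 / k, ((tB k Y).2 - (tM k e Y).2).1 / k,
      ((tB k Y).2 - (tM k e Y).2).2.1 / k, ((tB k Y).2 - (tM k e Y).2).2.2) := by
  simp only [Red, tA, tB, tM, Prod.fst_sub, Prod.snd_sub]
  ext <;> simp only <;> field_simp <;> ring

theorem nondegS (hM : ModelStmt) (hP : ProfStmt) (hL : LamStmt) (hLoc : LocalStmt)
    (hTop : TopStmt) (hPair : PairStmt) : NondegStmt := by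
  intro k e F X hp hF hG hR hinj
  have he : e ≠ 0 := hp.pos.ne'
  have hk : k ≠ 0 := by
    have := hp.pos
    have := hp.le
    exact ne_of_gt (by linarith)
  have hX : |X.1| < 37 / 2 := by
    have h1 : -1 / 10 < X.1 := hG.1
    have h2 : X.1 < 0 := hG.2.1
    rw [abs_lt]
    constructor <;> linarith
  have hPhi := (phi_FNondeg (hF.smooth.differentiable (by simp)) (Xi k e X)).hasFDerivAt
  refine ⟨_, hPhi, (injective_iff_map_eq_zero _).2 fun v hv => ?_⟩
  let γ : ℝ → W × ℝ × ℝ := fun τ => Xi k e X + τ • v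
  have hγ0 : γ 0 = Xi k e X := by simp [γ]
  have hγ : HasDerivAt γ v 0 := by
    have := ((hasDerivAt_id (0 : ℝ)).smul_const v).const_add (Xi k e X)
    rwa [one_smul] at this
  have hU : DifferentiableAt ℝ (Ups_FNondeg k e) (γ 0) :=
    ups_diff_FNondeg hL k e _ (by rw [hγ0]; exact (hL.2.2.2.1 (cA k e X) hX).2.1)
  let Y : ℝ → E6 := fun τ => Ups_FNondeg k e (γ τ)
  have hY0 : Y 0 = X := by
    simp only [Y]
    rw [hγ0, ups_xi_FNondeg hL hk he X hX]
  have hYd : DifferentiableAt ℝ Y 0 := hU.comp 0 hγ.differentiableAt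
  have e1 : ∀ᶠ τ in 𝓝 (0 : ℝ), Xi k e (Y τ) = γ τ := by
    have hc : ContinuousAt (fun τ => (γ τ).1.1) 0 := hγ.continuousAt.fst.fst
    refine (hc.eventually_ne (y := 0) ?_).mono fun τ hτ => xi_ups_FNondeg hL hk he _ hτ
    rw [hγ0]
    exact hL.2.2.2.2.2.2.2.2.1 _
  have e2 : ∀ᶠ τ in 𝓝 (0 : ℝ), (e / k, Y τ) ∈ Good k := by
    have hc : ContinuousAt (fun τ => (e / k, Y τ)) 0 :=
      continuousAt_const.prodMk hYd.continuousAt
    exact hc.eventually_mem ((hTop.2 k).1.mem_nhds (by rw [hY0]; exact hG))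
  have d1 : HasDerivAt (fun τ => Phi F (γ τ)) 0 0 := by
    have := HasFDerivAt.comp_hasDerivAt (0 : ℝ) (hγ0.symm ▸ hPhi) hγ
    rwa [hγ0, hv] at this
  have d2 : HasDerivAt (fun τ => (det2 (Lam (tA k e (Y τ))) (Lam (tB k (Y τ))),
      nsq (Lam (tB k (Y τ))) - nsq (Lam (tA k e (Y τ))),
      det2 (Lam (tB k (Y τ))) (Lam (tM k e (Y τ))),
      nsq (Lam (tM k e (Y τ))) - nsq (Lam (tB k (Y τ))))) 0 0 := by
    refine d1.congr_of_eventuallyEq ?_
    filter_upwards [e1, e2] with τ h1 h2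
    rw [← h1, phi_xi_FNondeg hL hLoc hp hF _ h2]
  have hFo : Differentiable ℝ Fo := hM.2.2.2.2.1.differentiable (by simp)
  have dA : DifferentiableAt ℝ (fun τ => tA k e (Y τ)) 0 := by
    unfold tA pA
    generalize Fo = G at hFo ⊢
    fun_prop
  have dM : DifferentiableAt ℝ (fun τ => tM k e (Y τ)) 0 := by
    unfold tM pM
    generalize Fo = G at hFo ⊢
    fun_prop
  have dB : DifferentiableAt ℝ (fun τ => tB k (Y τ)) 0 := by
    unfold tB pB
    generalize Fo = G at hFo ⊢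
    fun_prop
  rw [red_FNondeg hk] at hR
  simp only [Prod.mk_eq_zero, div_eq_zero_iff, hk, or_false] at hR
  have z1 : (tA k e (Y 0)).2 = (tB k (Y 0)).2 := by
    rw [hY0]
    exact (sub_eq_zero.1 (Prod.ext hR.1 (Prod.ext hR.2.1 hR.2.2.1))).symm
  have z2 : (tB k (Y 0)).2 = (tM k e (Y 0)).2 := by
    rw [hY0]
    exact sub_eq_zero.1 (Prod.ext hR.2.2.2.1 (Prod.ext hR.2.2.2.2.1 hR.2.2.2.2.2))
  have p1 := hPair _ _ _ _ dA.hasDerivAt dB.hasDerivAt z1 (fst_FNondeg d2)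
    (fst_FNondeg (snd_FNondeg d2))
  have p2 := hPair _ _ _ _ dB.hasDerivAt dM.hasDerivAt z2
    (fst_FNondeg (snd_FNondeg (snd_FNondeg d2))) (snd_FNondeg (snd_FNondeg (snd_FNondeg d2)))
  have q1 : HasDerivAt (fun τ => (tB k (Y τ)).2 - (tA k e (Y τ)).2) 0 0 := by
    have := (snd_FNondeg dB.hasDerivAt).sub (snd_FNondeg dA.hasDerivAt)
    rwa [p1, sub_self] at this
  have q2 : HasDerivAt (fun τ => (tB k (Y τ)).2 - (tM k e (Y τ)).2) 0 0 := by
    have := (snd_FNondeg dB.hasDerivAt).sub (snd_FNondeg dM.hasDerivAt)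
    rwa [p2, sub_self] at this
  have r1 : HasDerivAt (fun τ => Red k (e / k, Y τ)) 0 0 := by
    simp only [red_FNondeg hk]
    have := ((fst_FNondeg q1).div_const k).prodMk
      (((fst_FNondeg (snd_FNondeg q1)).div_const k).prodMk
      (((snd_FNondeg (snd_FNondeg q1)).div_const k).prodMk
      (((fst_FNondeg q2).div_const k).prodMk
      (((fst_FNondeg (snd_FNondeg q2)).div_const k).prodMk (snd_FNondeg (snd_FNondeg q2))))))
    simp only [Prod.fst_zero, Prod.snd_zero, zero_div] at this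
    exact this
  have hRd : DifferentiableAt ℝ (fun Y => Red k (e / k, Y)) (Y 0) :=
    (((hTop.2 k).2.differentiable one_ne_zero) _).comp _
      ((differentiableAt_const _).prodMk differentiableAt_id)
  have r2 := (hRd.hasFDerivAt.comp_hasDerivAt (0 : ℝ) hYd.hasDerivAt).unique r1
  rw [hY0] at r2
  have hu : deriv Y 0 = 0 := hinj (r2.trans (map_zero _).symm)
  have hLam : Differentiable ℝ Lam := hL.1.differentiable (by simp)
  have hXi : DifferentiableAt ℝ (Xi k e) (Y 0) := by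
    unfold Xi cA
    fun_prop
  have r3 := hXi.hasFDerivAt.comp_hasDerivAt (0 : ℝ) hYd.hasDerivAt
  rw [hu, map_zero] at r3
  exact (hγ.congr_of_eventuallyEq e1).unique r3

end Pool.Agent.MP_2fc7fa_gt.N.Fp
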