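import Pool.Agent.MP_2fc7fa_gt.N.IfF

/-! Two curves in the chart with the same first order equations. -/

open scoped ContDiff Topology
open Set

noncomputable section

namespace Pool.Agent.MP_2fc7fa_gt.N.Fp

lemma comp_FPair {c : ℝ → P4} {v : P4} (h : HasDerivAt c v 0) :
    HasDerivAt (fun τ => (c τ).2.1) v.2.1 0 ∧ HasDerivAt (fun τ => (c τ).2.2.1) v.2.2.1 0 ∧
      HasDerivAt (fun τ => (c τ).2.2.2) v.2.2.2 0 :=
  ⟨h.snd.fst, h.snd.snd.fst, h.snd.snd.snd⟩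

lemma nsq_FPair (hL : LamStmt) {c : ℝ → P4} {v : P4} (h : HasDerivAt c v 0) :
    HasDerivAt (fun τ => nsq (Lam (c τ)))
      (Real.exp (2 * (c 0).2.2.2) * (2 * v.2.2.2) * (1 + (c 0).2.1 ^ 2 + (c 0).2.2.1 ^ 2) +
        Real.exp (2 * (c 0).2.2.2) * (2 * (c 0).2.1 * v.2.1 + 2 * (c 0).2.2.1 * v.2.2.1)) 0 := by
  obtain ⟨h1, h2, h3⟩ := comp_FPair h
  simp only [hL.2.2.2.2.2.2.2.2.2.1]
  refine ((h3.const_mul 2).exp.mul (((h1.pow 2).const_add 1).add (h2.pow 2))).congr_deriv ?_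
  simp

theorem pairS (hL : LamStmt) : PairStmt := by
  intro c c' v v' hc hc' e hd hn
  obtain ⟨h1, h2, h3⟩ := comp_FPair hc
  obtain ⟨h1', h2', h3'⟩ := comp_FPair hc'
  have hz : ∀ {c : ℝ → P4} {v : P4}, HasDerivAt c v 0 →
      DifferentiableAt ℝ (fun τ => (Lam (c τ)).1) 0 := fun h =>
    ((hL.1.differentiable (by simp) _).comp 0 h.differentiableAt).fst
  have h4 := ((hz hc).hasDerivAt.mul (hz hc').hasDerivAt).mul
    ((h1'.ofReal_comp.add (h2'.ofReal_comp.mul_const Complex.I)).sub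
      (h1.ofReal_comp.add (h2.ofReal_comp.mul_const Complex.I)))
  have h5 := hd.unique (h4.congr_of_eventuallyEq (Filter.Eventually.of_forall fun τ => by
    simp only [det2, Lam, Pi.mul_apply, Pi.sub_apply, Pi.add_apply]
    ring))
  simp only [Pi.mul_apply, Pi.sub_apply, Pi.add_apply, e, sub_self, mul_zero, zero_add] at h5
  have h6 := (mul_eq_zero.1 h5.symm).resolve_left
    (mul_ne_zero (hL.2.2.2.2.2.2.2.2.1 _) (hL.2.2.2.2.2.2.2.2.1 _))
  have e1 : v.2.1 = v'.2.1 := by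
    have := congrArg Complex.re h6
    simp at this
    linarith
  have e2 : v.2.2.1 = v'.2.2.1 := by
    have := congrArg Complex.im h6
    simp at this
    linarith
  have h7 := hn.unique ((nsq_FPair hL hc').sub (nsq_FPair hL hc))
  rw [e, e1, e2] at h7
  have hp : 0 < Real.exp (2 * (c' 0).2.2.2) * (1 + (c' 0).2.1 ^ 2 + (c' 0).2.2.1 ^ 2) := by
    positivity
  have e3 : v.2.2.2 = v'.2.2.2 := mul_left_cancel₀ hp.ne' (by linarith)
  exact Prod.ext e1 (Prod.ext e2 e3)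

end Pool.Agent.MP_2fc7fa_gt.N.Fp
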