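import Pool.Agent.MP_2fc7fa_gt.N.IfF

/-! The profile functions of part F. -/

open scoped ContDiff Topology
open Set

noncomputable section

namespace Pool.Agent.MP_2fc7fa_gt.N.Fp

lemma st0_FProf {x : ℝ} (h : x ≤ 0) : St x = 0 := Real.smoothTransition.zero_of_nonpos h

lemma st1_FProf {x : ℝ} (h : 1 ≤ x) : St x = 1 := Real.smoothTransition.one_of_one_le h

lemma stn_FProf (x : ℝ) : 0 ≤ St x := Real.smoothTransition.nonneg x

lemma stl_FProf (x : ℝ) : St x ≤ 1 := Real.smoothTransition.le_one x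

lemma stm_FProf {x y : ℝ} (h : x ≤ y) : St x ≤ St y := Real.smoothTransition.monotone h

lemma stc_FProf {f : P4 → ℝ} (h : ContDiff ℝ ∞ f) : ContDiff ℝ ∞ fun p => St (f p) :=
  Real.smoothTransition.contDiff.comp h

lemma chi0_FProf {x : ℝ} (h : 1 / 4 ≤ x ∨ x ≤ -1 / 4) : chi x = 0 := by
  refine st0_FProf ?_
  rcases h with h | h <;> nlinarith

lemma chi1_FProf {x : ℝ} (h : |x| ≤ 1 / 8) : chi x = 1 := by
  refine st1_FProf ?_
  have := abs_le.1 h
  nlinarith

lemma chib_FProf (x : ℝ) : |x * chi x| ≤ 1 / 4 := by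
  by_cases h : 1 / 4 ≤ x ∨ x ≤ -1 / 4
  · rw [chi0_FProf h]; norm_num
  · rw [not_or, not_le, not_le] at h
    have h1 : 0 ≤ chi x := stn_FProf _
    have h2 : chi x ≤ 1 := stl_FProf _
    rw [abs_le]
    constructor <;> nlinarith [h.1, h.2]

lemma kap_FProf (k e u : ℝ) (h : e ≤ k) : e ≤ kap k e u ∧ kap k e u ≤ k := by
  have h1 := stn_FProf ((u - 33 / 4) * (20 / 3))
  have h2 := stl_FProf ((u - 1 / 10) * (20 / 3))
  have h3 : St ((u - 33 / 4) * (20 / 3)) ≤ St ((u - 1 / 10) * (20 / 3)) := stm_FProf (by linarith)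
  unfold kap
  constructor <;> nlinarith

lemma cdX_FProf : ContDiff ℝ ∞ fun p : P4 => dX p.1 := by
  unfold dX s1 s2 s3
  exact ((contDiff_const.add (stc_FProf (by fun_prop))).sub (stc_FProf (by fun_prop))).add
    (stc_FProf (by fun_prop))

lemma cdY_FProf : ContDiff ℝ ∞ fun p : P4 => dY p.1 := by
  have h2 : ContDiff ℝ ∞ fun p : P4 => s2 p.1 := stc_FProf (by fun_prop)
  have h3 : ContDiff ℝ ∞ fun p : P4 => s3 p.1 := stc_FProf (by fun_prop)
  unfold dY
  exact (h2.mul (contDiff_const.sub h2)).sub (h3.mul (contDiff_const.sub h3))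

lemma crh_FProf : ContDiff ℝ ∞ fun p : P4 => rh p.1 := by
  have h2 : ContDiff ℝ ∞ fun p : P4 => chi (p.1 - 2) := stc_FProf (by fun_prop)
  have h3 : ContDiff ℝ ∞ fun p : P4 => chi (p.1 - 1 / 2) := stc_FProf (by fun_prop)
  unfold rh
  exact (ContDiff.mul (by fun_prop) h2).sub (ContDiff.mul (by fun_prop) h3)

lemma ckap_FProf (k e : ℝ) : ContDiff ℝ ∞ fun p : P4 => kap k e p.1 := by
  unfold kap
  exact contDiff_const.add (contDiff_const.mul
    ((contDiff_const.sub (stc_FProf (by fun_prop))).add (stc_FProf (by fun_prop))))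

theorem profS : ProfStmt := by
  refine ⟨kap_FProf, ?_, ?_, ?_, ?_, ?_, ?_, ?_, ?_, ?_⟩
  · rintro k e u (h | h)
    · rw [kap, st0_FProf (by linarith), st0_FProf (by linarith)]; ring
    · rw [kap, st1_FProf (by linarith), st1_FProf (by linarith)]; ring
  · intro k e u h h'
    rw [kap, st1_FProf (by linarith), st0_FProf (by linarith)]; ring
  · rintro u (h | h)
    · have h1 : s1 u = 0 := st0_FProf (by linarith)
      have h2 : s2 u = 0 := st0_FProf (by linarith)
      have h3 : s3 u = 0 := st0_FProf (by linarith)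
      rw [dX, dY, h1, h2, h3]; norm_num
    · have h' := abs_le.1 h
      have h1 : s1 u = 1 := st1_FProf (by linarith [h'.1])
      have h2 : s2 u = 1 := st1_FProf (by linarith [h'.1])
      have h3 : s3 u = 0 := st0_FProf (by linarith [h'.2])
      rw [dX, dY, h1, h2, h3]; norm_num
  · rintro u (h | h)
    · have h' := abs_le.1 h
      have h1 : s1 u = 1 := st1_FProf (by linarith [h'.1])
      have h2 : s2 u = 0 := st0_FProf (by linarith [h'.2])
      have h3 : s3 u = 0 := st0_FProf (by linarith [h'.2])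
      rw [dX, dY, h1, h2, h3]; norm_num
    · have h1 : s1 u = 1 := st1_FProf (by linarith)
      have h2 : s2 u = 1 := st1_FProf (by linarith)
      have h3 : s3 u = 1 := st1_FProf (by linarith)
      rw [dX, dY, h1, h2, h3]; norm_num
  · rintro u (h | h)
    · rw [rh, chi0_FProf (Or.inr (by linarith)), chi0_FProf (Or.inr (by linarith))]; ring
    · rw [rh, chi0_FProf (Or.inl (by linarith)), chi0_FProf (Or.inl (by linarith))]; ring
  · intro u h
    have h' := abs_le.1 h
    rw [rh, chi1_FProf h, chi0_FProf (Or.inl (by linarith [h'.1]))]; ring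
  · intro u h
    have h' := abs_le.1 h
    rw [rh, chi1_FProf h, chi0_FProf (Or.inr (by linarith [h'.2]))]; ring
  · intro u
    have a1 := abs_le.1 (chib_FProf (u - 2))
    have a2 := abs_le.1 (chib_FProf (u - 1 / 2))
    have b1 : 0 ≤ s1 u := stn_FProf _
    have b2 : 0 ≤ s2 u := stn_FProf _
    have b3 : 0 ≤ s3 u := stn_FProf _
    have c1 : s1 u ≤ 1 := stl_FProf _
    have c2 : s2 u ≤ 1 := stl_FProf _
    have c3 : s3 u ≤ 1 := stl_FProf _
    refine ⟨?_, ?_, ?_⟩
    · rw [rh, abs_le]
      constructor <;> linarith [a1.1, a1.2, a2.1, a2.2]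
    · rw [dX, abs_le]
      constructor <;> linarith
    · rw [dY, abs_le]
      constructor <;> nlinarith
  · intro k e he hk
    have hne : ∀ u, kap k e u ≠ 0 := fun u => (he.trans_le (kap_FProf k e u hk).1).ne'
    have hk' := ckap_FProf k e
    refine ⟨?_, ?_, fun p => ?_, fun p => ?_⟩
    · unfold io
      exact contDiff_fst.prodMk ((cdX_FProf.add (hk'.mul (by fun_prop))).prodMk
        ((cdY_FProf.add (hk'.mul (by fun_prop))).prodMk (crh_FProf.add (hk'.mul (by fun_prop)))))
    · unfold io'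
      exact contDiff_fst.prodMk
        (((ContDiff.sub (by fun_prop) cdX_FProf).div hk' fun p => hne _).prodMk
        (((ContDiff.sub (by fun_prop) cdY_FProf).div hk' fun p => hne _).prodMk
          ((ContDiff.sub (by fun_prop) crh_FProf).div hk' fun p => hne _)))
    · have := hne p.1
      simp only [io, io']
      refine Prod.ext rfl (Prod.ext ?_ (Prod.ext ?_ ?_)) <;> simp only <;> field_simp <;> ring
    · have := hne p.1
      simp only [io, io']
      refine Prod.ext rfl (Prod.ext ?_ (Prod.ext ?_ ?_)) <;> simp only <;> field_simp <;> ring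

end Pool.Agent.MP_2fc7fa_gt.N.Fp
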