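import Pool.Agent.MP_2fc7fa_gt.N.IfF

/-! Reduction of the counting problem to the reduced system. -/

open Set

namespace Pool.Agent.MP_2fc7fa_gt.N.Fp

lemma lift_FReduce (hM : ModelStmt) (hL : LamStmt) {k e : ℝ} {F : W → W} (hF : IsF k e F)
    (x : P4) : ∃ y, Lf k e x y ∧ F (Lam x) = Lam y ∧ |y.1 - x.1| ≤ 9 := by
  obtain ⟨-, -, hl, -, -, hS, -⟩ := hM
  obtain ⟨-, -, -, -, l5, l6, -, l8, -, -, l11, -⟩ := hL
  rcases hF.fix (Lam x) with h | ⟨j, p, hp, h⟩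
  · exact ⟨x, Or.inl rfl, h, by simp⟩
  have hj : rt j = ee ((j.val : ℤ) : ℝ) := by rw [← l8]; simp
  have h' := h
  rw [hj, l6] at h'
  obtain ⟨a1, n, a2⟩ := l5 _ _ h'
  have a3 : io k e p = sh ((j.val + 37 * n : ℤ) : ℝ) x := by
    refine Prod.ext ?_ a1.symm
    rw [a2]
    simp only [sh]
    push_cast
    ring
  have a4 : io k e (f0 p) =
      sh ((j.val + 37 * n : ℤ) : ℝ) (sh (-((j.val + 37 * n : ℤ) : ℝ)) (io k e (f0 p))) :=
    Prod.ext (neg_add_cancel_right _ _).symm rfl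
  have a5 : rt j = ee ((j.val + 37 * n : ℤ) : ℝ) := by
    rw [← l8]
    have : (37 : Zp) = 0 := rfl
    simp [this]
  have a6 : rt j ≠ 0 := by
    rw [hj, ← norm_ne_zero_iff, l11]
    exact one_ne_zero
  refine ⟨_, Or.inr ⟨p, _, hp, a3, a4⟩, smul_right_injective W a6 ?_, ?_⟩
  · change rt j • F (Lam x) = rt j • Lam _
    rw [← hF.equiv, h, hF.mv p hp, a5, l6, ← a4]
  · have b1 := (hS p hp).1
    have b2 := (hS (f0 p) fun h => hp (hl.injective h)).1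
    have b3 : p.1 = x.1 + ((j.val + 37 * n : ℤ) : ℝ) := congrArg Prod.fst a3
    have b4 : ∀ q : P4, qq (17 / 4) q ≤ (173 / 40) ^ 2 → |q.1 - 17 / 4| ≤ 173 / 40 := fun q hq =>
      abs_le_of_sq_le_sq (by unfold qq at hq; nlinarith [sq_nonneg q.2.1, sq_nonneg q.2.2.1])
        (by norm_num)
    have b5 := abs_le.1 (b4 _ b1)
    have b6 := abs_le.1 (b4 _ b2)
    change |(f0 p).1 + -((j.val + 37 * n : ℤ) : ℝ) - x.1| ≤ 9
    rw [abs_le]
    constructor <;> linarith [b5.1, b5.2, b6.1, b6.2]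

lemma cmp_FReduce (hL : LamStmt) {y y' : P4} {t D : ℝ} (h1 : |y.1 - t| ≤ 9) (h2 : |y'.1 - t| ≤ 9)
    (hD : |D| ≤ 7) (h : Lam y' = ee D • Lam y) : y.2 = y'.2 ∧ y'.1 - y.1 = D := by
  obtain ⟨-, -, -, -, l5, l6, -⟩ := hL
  rw [l6] at h
  obtain ⟨a1, n, a2⟩ := l5 _ _ h.symm
  change y'.1 = y.1 + D + 37 * n at a2
  rw [abs_le] at h1 h2 hD
  have b1 : (n : ℝ) < 1 := by linarith [h1.1, h2.2, hD.1]
  have b2 : (-1 : ℝ) < n := by linarith [h1.2, h2.1, hD.2]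
  have b3 : n = 0 := by
    have c1 : n < 1 := by exact_mod_cast b1
    have c2 : -1 < n := by exact_mod_cast b2
    omega
  rw [b3] at a2
  exact ⟨a1, by rw [a2]; simp⟩

theorem reduceS (hM : ModelStmt) (hP : ProfStmt) (hL : LamStmt) (hC : CoarseStmt) :
    ReduceStmt := by
  intro k e F hk hF z α β hz hα hβ D₁ hD₁ D₂ hD₂ e1 e2
  obtain ⟨-, -, l3, -, -, l6, l7, l8, l9, -, l11, -⟩ := id hL
  by_cases h0 : z.1 = 0
  · exfalso
    have hfix : ∀ w : W, w.1 = 0 → F w = w := fun w hw => (hF.fix w).resolve_right (by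
      rintro ⟨j, p, -, h⟩
      refine l9 (io k e p) ?_
      rw [← h, Prod.smul_fst, hw, smul_zero])
    rw [hfix z h0, hfix _ (by rw [Prod.smul_fst, h0, smul_zero])] at e1
    have := congrArg norm e1
    rw [norm_smul, norm_smul, l11, Real.norm_eq_abs, abs_of_pos (Real.exp_pos β)] at this
    have h1 := mul_right_cancel₀ (norm_ne_zero_iff.2 hz) this
    rw [Real.exp_eq_one_iff] at h1
    linarith
  obtain ⟨⟨θ, a, b, ρ⟩, rfl⟩ : ∃ x, Lam x = z := ⟨_, l3 z h0⟩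
  rw [l7] at e1 e2
  rw [l7] at e2
  obtain ⟨y₁, a1, a2, a3⟩ := lift_FReduce hM hL hF (θ, a, b, ρ)
  obtain ⟨y₂, b1, b2, b3⟩ := lift_FReduce hM hL hF (θ, a, b, ρ + α)
  obtain ⟨y₃, c1, c2, c3⟩ := lift_FReduce hM hL hF (θ, a, b, ρ + β)
  obtain ⟨d1, d2⟩ := cmp_FReduce hL a3 c3 (abs_le.2 ⟨by linarith [hD₁.1], by linarith [hD₁.2]⟩)
    (c2.symm.trans (e1.trans (congrArg _ a2)))
  obtain ⟨d3, d4⟩ := cmp_FReduce hL b3 c3 (abs_le.2 ⟨by linarith [hD₂.1], hD₂.2⟩)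
    (c2.symm.trans (e2.trans (congrArg _ b2)))
  obtain ⟨X, n, x1, x2, x3, x4, x5⟩ := hC k e θ a b ρ (ρ + α) (ρ + β) y₁ y₂ y₃ hk (by linarith)
    (by linarith) a1 b1 c1 d1 d3 (d2 ▸ hD₁) (d4 ▸ hD₂)
  have x6 : ρ = k * X.2.2.2.1 := congrArg (fun p : P4 => p.2.2.2) x3
  refine ⟨X, n, x1, x2, ?_, ?_, ?_⟩
  · rw [x3, ← l6, l8]
    rfl
  · change α = k * X.2.2.2.2.1 - k * X.2.2.2.1
    change _ = k * X.2.2.2.2.1 at x4
    linarith
  · change β = -X.1 + e * X.2.2.2.2.2 - k * X.2.2.2.1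
    change _ = -X.1 + e * X.2.2.2.2.2 at x5
    linarith

end Pool.Agent.MP_2fc7fa_gt.N.Fp
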