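import Pool.Agent.MP_2fc7fa_gt.N.IfF

/-! The smooth transition function is strictly increasing with positive derivative. -/

open Set

namespace Pool.Agent.MP_2fc7fa_gt.N.Fp

theorem glue_FSt (x : ℝ) : HasDerivAt expNegInvGlue (x⁻¹ ^ 2 * expNegInvGlue x) x := by
  simpa using expNegInvGlue.hasDerivAt_polynomial_eval_inv_mul 1 x

theorem der_FSt (x : ℝ) (hx : x ∈ Ioo (0 : ℝ) 1) : ∃ d : ℝ, 0 < d ∧ HasDerivAt St d x := by
  have h1 := glue_FSt x
  have h2 : HasDerivAt (fun y => expNegInvGlue (1 - y))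
      ((1 - x)⁻¹ ^ 2 * expNegInvGlue (1 - x) * -1) x :=
    (glue_FSt (1 - x)).comp x ((hasDerivAt_id x).const_sub 1)
  have hd := Real.smoothTransition.pos_denom x
  refine ⟨_, ?_, h1.div (h1.add h2) hd.ne'⟩
  have a := expNegInvGlue.pos_of_pos hx.1
  have b := expNegInvGlue.pos_of_pos (sub_pos.2 hx.2)
  have c : 0 < x⁻¹ ^ 2 := pow_pos (inv_pos.2 hx.1) 2
  have d : 0 < (1 - x)⁻¹ ^ 2 := pow_pos (inv_pos.2 (sub_pos.2 hx.2)) 2
  refine div_pos ?_ (pow_pos hd 2)
  have e := mul_pos (mul_pos a b) (add_pos c d)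
  linarith

theorem stS : StStmt := by
  refine ⟨?_, ?_, der_FSt⟩
  · have a := expNegInvGlue.pos_of_pos (x := 1 / 2) (by norm_num)
    rw [St, Real.smoothTransition, show (1 : ℝ) - 1 / 2 = 1 / 2 by norm_num]
    field_simp
    norm_num
  · refine strictMonoOn_of_deriv_pos (convex_Icc 0 1)
      Real.smoothTransition.continuous.continuousOn fun x hx => ?_
    rw [interior_Icc] at hx
    obtain ⟨d, hd, h⟩ := der_FSt x hx
    rwa [h.deriv]

end Pool.Agent.MP_2fc7fa_gt.N.Fp
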