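import Pool.Agent.MP_2fc7fa_gt.N.IfF

/-! Transplanting a compactly supported diffeomorphism through the chart. -/

open scoped ContDiff Topology
open Set

noncomputable section

namespace Pool.Agent.MP_2fc7fa_gt.N.Fp

open Classical in
/-- The transplant of `h`. -/
def tr_FTrans (h : P4 → P4) (z : W) : W :=
  if z.1 ∈ Complex.slitPlane then Lam (h (Lam' z)) else z

theorem tr_pos_FTrans (h : P4 → P4) {z : W} (hz : z.1 ∈ Complex.slitPlane) :
    tr_FTrans h z = Lam (h (Lam' z)) := by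
  unfold tr_FTrans
  rw [if_pos hz]

theorem tr_neg_FTrans (h : P4 → P4) {z : W} (hz : z.1 ∉ Complex.slitPlane) :
    tr_FTrans h z = z := by
  unfold tr_FTrans
  rw [if_neg hz]

theorem fst_lt_FTrans {p : P4} (hp : ‖p‖ ≤ 10) : |p.1| < 37 / 2 := by
  have h1 : ‖p.1‖ ≤ ‖p‖ := norm_fst_le p
  rw [Real.norm_eq_abs] at h1
  linarith

theorem moved_FTrans (hL : LamStmt) (h : P4 → P4) (z : W) (hz : tr_FTrans h z ≠ z) :
    ∃ p, h p ≠ p ∧ z = Lam p := by
  by_cases hs : z.1 ∈ Complex.slitPlane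
  · have h0 : z.1 ≠ 0 := Complex.slitPlane_ne_zero hs
    have h1 : Lam (Lam' z) = z := hL.2.2.1 z h0
    refine ⟨Lam' z, ?_, h1.symm⟩
    intro he
    apply hz
    rw [tr_pos_FTrans h hs, he, h1]
  · exact absurd (tr_neg_FTrans h hs) hz

theorem act_FTrans (hL : LamStmt) (h : P4 → P4) (hi : Function.Injective h)
    (hb : ∀ p, h p ≠ p → ‖p‖ ≤ 10) (p : P4) (hp : h p ≠ p) :
    tr_FTrans h (Lam p) = Lam (h p) ∧ tr_FTrans h (Lam p) ≠ Lam p := by
  have h1 := hL.2.2.2.1 p (fst_lt_FTrans (hb p hp))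
  have hp' : h (h p) ≠ h p := fun he => hp (hi he)
  have h2 := hL.2.2.2.1 (h p) (fst_lt_FTrans (hb _ hp'))
  have h3 : tr_FTrans h (Lam p) = Lam (h p) := by
    rw [tr_pos_FTrans h h1.2.1, h1.1]
  refine ⟨h3, ?_⟩
  rw [h3]
  intro he
  apply hp
  rw [← h2.1, he, h1.1]

theorem inv_FTrans (hL : LamStmt) (h h' : P4 → P4) (hl : Function.LeftInverse h' h)
    (hr : Function.RightInverse h' h) (hb : ∀ p, h p ≠ p → ‖p‖ ≤ 10)
    (hb' : ∀ p, h' p ≠ p → ‖p‖ ≤ 10) :
    Function.LeftInverse (tr_FTrans h') (tr_FTrans h) := by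
  intro z
  by_cases hz : tr_FTrans h z = z
  · rw [hz]
    by_contra hne
    obtain ⟨p, hp, rfl⟩ := moved_FTrans hL h' z hne
    have hp' : h p ≠ p := by
      intro he
      apply hp
      have := hl p
      rwa [he] at this
    exact (act_FTrans hL h hl.injective hb p hp').2 hz
  · obtain ⟨p, hp, rfl⟩ := moved_FTrans hL h z hz
    have h1 : h' (h p) ≠ h p := by
      rw [hl p]
      exact fun he => hp he.symm
    rw [(act_FTrans hL h hl.injective hb p hp).1,
      (act_FTrans hL h' hr.injective hb' (h p) h1).1, hl p]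

theorem smooth_FTrans (hL : LamStmt) (h : P4 → P4) (hs : ContDiff ℝ ∞ h)
    (hb : ∀ p, h p ≠ p → ‖p‖ ≤ 10) : ContDiff ℝ ∞ (tr_FTrans h) := by
  rw [contDiff_iff_contDiffAt]
  intro z
  have hU : IsOpen {z : W | z.1 ∈ Complex.slitPlane} :=
    Complex.isOpen_slitPlane.preimage continuous_fst
  by_cases hz : z.1 ∈ Complex.slitPlane
  · have hn : {z : W | z.1 ∈ Complex.slitPlane} ∈ 𝓝 z := hU.mem_nhds hz
    have h1 : ContDiffAt ℝ ∞ Lam' z := hL.2.1.contDiffAt hn
    have h2 : ContDiffAt ℝ ∞ (fun w => Lam (h (Lam' w))) z :=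
      hL.1.contDiffAt.comp z (hs.contDiffAt.comp z h1)
    refine h2.congr_of_eventuallyEq ?_
    filter_upwards [hn] with w hw
    exact tr_pos_FTrans h hw
  · have hK : IsCompact (Lam '' Metric.closedBall (0 : P4) 10) :=
      (isCompact_closedBall (0 : P4) 10).image hL.1.continuous
    have hzK : z ∈ (Lam '' Metric.closedBall (0 : P4) 10)ᶜ := by
      rintro ⟨p, hp, rfl⟩
      rw [mem_closedBall_zero_iff] at hp
      exact hz (hL.2.2.2.1 p (fst_lt_FTrans hp)).2.1
    have hn : (Lam '' Metric.closedBall (0 : P4) 10)ᶜ ∈ 𝓝 z :=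
      hK.isClosed.isOpen_compl.mem_nhds hzK
    refine (contDiffAt_id (𝕜 := ℝ) (n := ∞) (x := z)).congr_of_eventuallyEq ?_
    filter_upwards [hn] with w hw
    by_contra hne
    obtain ⟨p, hp, rfl⟩ := moved_FTrans hL h w hne
    exact hw ⟨p, mem_closedBall_zero_iff.2 (hb p hp), rfl⟩

theorem transS (hL : LamStmt) : TransStmt := by
  intro h h' hs hs' hl hr hb
  have hb' : ∀ p, h' p ≠ p → ‖p‖ ≤ 10 := by
    intro p hp
    apply hb
    intro he
    apply hp
    have := hl p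
    rwa [he] at this
  exact ⟨tr_FTrans h, tr_FTrans h', smooth_FTrans hL h hs hb, smooth_FTrans hL h' hs' hb',
    inv_FTrans hL h h' hl hr hb hb', inv_FTrans hL h' h hr hl hb' hb, moved_FTrans hL h,
    act_FTrans hL h hl.injective hb⟩

end Pool.Agent.MP_2fc7fa_gt.N.Fp
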