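import Pool.Agent.MP_2fc7fa_gt.N.FAsm
import Pool.Agent.MP_2fc7fa_gt.N.FBuild
import Pool.Agent.MP_2fc7fa_gt.N.FClus
import Pool.Agent.MP_2fc7fa_gt.N.FCoarse
import Pool.Agent.MP_2fc7fa_gt.N.FEqv
import Pool.Agent.MP_2fc7fa_gt.N.FHole
import Pool.Agent.MP_2fc7fa_gt.N.FIft
import Pool.Agent.MP_2fc7fa_gt.N.FLam
import Pool.Agent.MP_2fc7fa_gt.N.FLimChar
import Pool.Agent.MP_2fc7fa_gt.N.FLimEx
import Pool.Agent.MP_2fc7fa_gt.N.FLimGood
import Pool.Agent.MP_2fc7fa_gt.N.FLimJac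
import Pool.Agent.MP_2fc7fa_gt.N.FLocal
import Pool.Agent.MP_2fc7fa_gt.N.FModel
import Pool.Agent.MP_2fc7fa_gt.N.FNondeg
import Pool.Agent.MP_2fc7fa_gt.N.FPair
import Pool.Agent.MP_2fc7fa_gt.N.FProf
import Pool.Agent.MP_2fc7fa_gt.N.FReduce
import Pool.Agent.MP_2fc7fa_gt.N.FSt
import Pool.Agent.MP_2fc7fa_gt.N.FTrans

/-! Part F: the explicit equivariant diffeomorphism. -/

namespace Pool.Agent.MP_2fc7fa_gt.N

open Fp

theorem fS : FStmt :=
  asmF lamS (clusS stS profS) (buildS modelS profS lamS (transS lamS) eqvS (disjS profS))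
    (reduceS modelS profS lamS (coarseS modelS profS (holeS profS) (nearS profS)))
    (localS modelS profS lamS) (limExS stS) (limCharS stS modelS) (limGoodS stS modelS)
    (limJacS stS modelS) (topS modelS) iftS
    (nondegS modelS profS lamS (localS modelS profS lamS) (topS modelS) (pairS lamS))

end Pool.Agent.MP_2fc7fa_gt.N
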