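import Pool.Agent.MP_2fc7fa_gt.N.IfF

/-! Part F: assembly from the statements of the interface. -/

open Set

namespace Pool.Agent.MP_2fc7fa_gt.N.Fp

theorem asmF (hL : LamStmt) (hC : ClusStmt) (hB : BuildStmt) (hR : ReduceStmt) (hLoc : LocalStmt)
    (hEx : LimExStmt) (hCh : LimCharStmt) (hG : LimGoodStmt) (hJ : LimJacStmt) (hT : TopStmt)
    (hI : IftStmt) (hN : NondegStmt) : FStmt := by
  obtain ⟨c, hc, hcl⟩ := hC
  obtain ⟨⟨X₀, hX₀⟩, huq⟩ := hEx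
  set k : ℝ := min (c / 10) (1 / 160) with hk
  have hk0 : 0 < k := lt_min (by positivity) (by norm_num)
  have hk1 : k ≤ 1 / 160 := min_le_right _ _
  have hk2 : 10 * k ≤ c := by linarith [min_le_left (c / 10) (1 / 160)]
  obtain ⟨hz, hg⟩ := hG k X₀ hk0 hk1 hX₀
  obtain ⟨δ₀, hδ₀, hδ⟩ := hI (Red k) KK (Good k) X₀ (hT.2 k).2 hT.1 (hT.2 k).1 hg hz
    (fun X h1 h2 => huq _ _ (hCh k X h1 h2) hX₀) (hJ k X₀ hX₀)
  set δ : ℝ := min (δ₀ / 2) (1 / 400) with hd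
  have hd0 : 0 < δ := lt_min (by positivity) (by norm_num)
  have hd1 : δ ≤ 1 / 400 := min_le_right _ _
  have hd2 : |δ| < δ₀ := by
    rw [abs_of_pos hd0]; linarith [min_le_left (δ₀ / 2) (1 / 400)]
  obtain ⟨X, hXg, hXz, hXj, hXu⟩ := hδ δ hd2
  have hek : k * δ / k = δ := by field_simp
  have hp : Par k (k * δ) := ⟨by positivity, by nlinarith, hk1, fun u hu v hv h1 h2 =>
    hcl u hu v hv (h1.trans hk2) (h2.trans hk2)⟩
  obtain ⟨F, F', hF, hF', hl, hr, hs⟩ := hB k _ hp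
  rw [← hek] at hXg hXz hXj hXu
  generalize k * δ = e at *
  refine ⟨F, F', ⟨hF.smooth.continuous, hl.injective, hs, hF.equiv, ?_⟩, hF.smooth, hF', hl, hr⟩
  obtain ⟨l1, l2, l3⟩ := hLoc k e F X hp hF hXg
  have hnd := hN k e F X hp hF hXg hXz hXj
  obtain ⟨-, -, -, La, -, Le, Lr, -, Ln, -, -, Lz⟩ := hL
  obtain ⟨g1, g2, g3, g4, -, -, g7, g8, g9, g10, g11, g12, g13, g14⟩ := hXg
  have he := hp.pos
  have he' : e ≤ 1 / 64000 := by linarith [hp.le]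
  have hke : k * (e / k) = e := by field_simp
  simp only at g1 g2 g3 g4 g7 g8 g9 g10 g11 g12 g13 g14
  rw [hke] at g14
  have harg : Complex.arg (Lam (cA k e X)).1 = 2 * Real.pi * X.1 / 37 :=
    (La (cA k e X) (by show |X.1| < 37 / 2; rw [abs_lt]; constructor <;> linarith)).2.2
  have hpi := Real.pi_pos
  obtain ⟨z2, z3⟩ := Lz (cA k e X) (by show |X.1| ≤ 1 / 10; rw [abs_le]; constructor <;> linarith)
    (by
      show |1 + e * X.2.1 - 1| ≤ 1 / 100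
      rw [add_sub_cancel_left, abs_mul, abs_of_pos he]; nlinarith [abs_nonneg X.2.1])
    (by
      show |e * X.2.2.1| ≤ 1 / 100
      rw [abs_mul, abs_of_pos he]; nlinarith [abs_nonneg X.2.2.1])
  have eM : Real.exp (Xi k e X).2.1 • (Xi k e X).1 = Lam (cM k e X) := by
    show Real.exp _ • Lam (cA k e X) = _
    rw [Lr]; simp [cA, cM, Xi]
  have eB : Real.exp (Xi k e X).2.2 • (Xi k e X).1 = Lam (cB e X) := by
    show Real.exp _ • Lam (cA k e X) = _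
    rw [Lr]; simp [cA, cB, Xi]
  have r1 := congrArg (fun y : E6 => y.1) hXz
  have r2 := congrArg (fun y : E6 => y.2.1) hXz
  have r3 := congrArg (fun y : E6 => y.2.2.1) hXz
  have r4 := congrArg (fun y : E6 => y.2.2.2.1) hXz
  have r5 := congrArg (fun y : E6 => y.2.2.2.2.1) hXz
  have r6 := congrArg (fun y : E6 => y.2.2.2.2.2) hXz
  simp only [Red, Prod.fst_zero, Prod.snd_zero] at r1 r2 r3 r4 r5 r6
  rw [hke] at r6
  have r4' : k * (Fo (pB X)).2.1 = e * (Fo (pM (e / k) X)).2.1 := by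
    rw [sub_eq_zero.1 r4, ← mul_assoc, hke]
  have r5' : k * (Fo (pB X)).2.2.1 = e * (Fo (pM (e / k) X)).2.2.1 := by
    rw [sub_eq_zero.1 r5, ← mul_assoc, hke]
  refine ⟨(Xi k e X).1, (Xi k e X).2.1, (Xi k e X).2.2, Ln _, z2, ?_, ?_, z3, ?_, ?_,
    ⟨(tB k X).1 - (tA k e X).1, ?_, (tB k X).1 - (tM k e X).1, ?_, ?_, ?_⟩, ?_, hnd⟩
  · show Complex.arg (Lam (cA k e X)).1 ≠ 0
    rw [harg]; apply ne_of_lt; nlinarith
  · show |Complex.arg (Lam (cA k e X)).1| < Real.pi / 37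
    rw [harg, abs_lt]; constructor <;> nlinarith
  · show 0 < k * X.2.2.2.2.1 - k * X.2.2.2.1
    nlinarith
  · show k * X.2.2.2.2.1 - k * X.2.2.2.1 < -X.1 + e * X.2.2.2.2.2 - k * X.2.2.2.1
    linarith
  · simp only [tA, tB]; constructor <;> linarith
  · simp only [tM, tB]; constructor <;> linarith [(abs_lt.1 g11).1]
  · rw [eB, l3]
    show _ = ee _ • F (Lam (cA k e X))
    rw [l1, Le]
    congr 1
    simp only [tA, tB, sh, Prod.mk.injEq]
    refine ⟨by ring, ?_, ?_, ?_⟩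
    · rw [sub_eq_zero.1 r1]
    · rw [sub_eq_zero.1 r2]
    · rw [sub_eq_zero.1 r3]
  · rw [eB, eM, l3, l2, Le]
    congr 1
    simp only [tM, tB, sh, Prod.mk.injEq]
    exact ⟨by ring, by rw [r4'], r5', by linarith⟩
  · intro z α β h0 h1 h2 D₁ hD₁ D₂ hD₂ q1 q2
    obtain ⟨Y, j, y1, y2, y3, y4, y5⟩ := hR k e F hp hF z α β h0 h1 h2 D₁ hD₁ D₂ hD₂ q1 q2
    rw [hXu Y y1 y2] at y3 y4 y5
    exact ⟨j, y3, y4, y5⟩

end Pool.Agent.MP_2fc7fa_gt.N.Fp
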