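import Pool.Agent.MP_2fc7fa_gt.N.IfF

/-! The Jacobian of the limit system is invertible. -/

open scoped ContDiff Topology
open Set Real

noncomputable section

namespace Pool.Agent.MP_2fc7fa_gt.N.Fp

theorem FoA0_FLimJac (t w : ℝ) : (Fo (t, 0, 0, w)).1 = 17 / 4 + (t - 17 / 4) *
    (cos (phO ((t - 17 / 4) ^ 2)) ^ 2 + sin (phO ((t - 17 / 4) ^ 2)) ^ 2 * cos (th w)) := by
  simp [Fo, tw, sh, rX, rN, rP, qq]
  ring

theorem FoA1_FLimJac (t w : ℝ) : (Fo (t, 0, 0, w)).2.1 = (t - 17 / 4) *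
    (cos (th w) * (sin (phO ((t - 17 / 4) ^ 2)) * cos (phO ((t - 17 / 4) ^ 2)) * (1 - cos (th w))) +
      sin (th w) * sin (th w) * sin (phO ((t - 17 / 4) ^ 2))) := by
  simp [Fo, tw, sh, rX, rN, rP, qq]
  ring

theorem FoA2_FLimJac (t w : ℝ) : (Fo (t, 0, 0, w)).2.2.1 = (t - 17 / 4) *
    (sin (th w) * (sin (phO ((t - 17 / 4) ^ 2)) * cos (phO ((t - 17 / 4) ^ 2)) * (1 - cos (th w))) -
      cos (th w) * sin (th w) * sin (phO ((t - 17 / 4) ^ 2))) := by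
  simp [Fo, tw, sh, rX, rN, rP, qq]
  ring

theorem th_zero_FLimJac (hS : StStmt) : th 0 = π := by
  rw [th, zero_add, hS.1]; ring

theorem FoB1_FLimJac (hS : StStmt) (x a b : ℝ) : (Fo (x, a, b, 0)).2.1 =
    cos (2 * phO ((x - 17 / 4) ^ 2 + a ^ 2 + b ^ 2)) * a -
      sin (2 * phO ((x - 17 / 4) ^ 2 + a ^ 2 + b ^ 2)) * (x - 17 / 4) := by
  rw [cos_two_mul', sin_two_mul]
  simp [Fo, tw, sh, rX, rN, rP, qq, th_zero_FLimJac hS]
  ring

theorem FoB2_FLimJac (hS : StStmt) (x a b : ℝ) : (Fo (x, a, b, 0)).2.2.1 = b := by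
  simp [Fo, tw, sh, rX, rN, rP, qq, th_zero_FLimJac hS]

theorem line_FLimJac (a b : ℝ) : HasDerivAt (fun τ : ℝ => a + τ * b) b 0 := by
  simpa using ((hasDerivAt_id (0 : ℝ)).mul_const b).const_add a

theorem proj_FLimJac {E : Type} [NormedAddCommGroup E] [NormedSpace ℝ E] {f : ℝ → ℝ × E}
    (h : HasDerivAt f 0 0) :
    HasDerivAt (fun τ => (f τ).1) 0 0 ∧ HasDerivAt (fun τ => (f τ).2) 0 0 :=
  ⟨(hasFDerivAt_fst (𝕜 := ℝ) (p := f 0)).comp_hasDerivAt 0 h,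
    (hasFDerivAt_snd (𝕜 := ℝ) (p := f 0)).comp_hasDerivAt 0 h⟩

theorem dphO_FLimJac (hS : StStmt) {q₀ : ℝ} (h : (q₀ - 1849 / 100) * (320 / 69) ∈ Ioo (0 : ℝ) 1) :
    ∃ d : ℝ, 0 < d ∧ HasDerivAt phO d q₀ := by
  obtain ⟨d, hd, h1⟩ := hS.2.2 _ h
  exact ⟨π * (d * (1 * (320 / 69))), by positivity,
    (h1.comp q₀ (((hasDerivAt_id q₀).sub_const _).mul_const _)).const_mul π⟩

theorem dth_FLimJac (hS : StStmt) {w : ℝ} (h : w + 1 / 2 ∈ Ioo (0 : ℝ) 1) :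
    ∃ d : ℝ, 0 < d ∧ HasDerivAt th d w := by
  obtain ⟨d, hd, h1⟩ := hS.2.2 _ h
  exact ⟨2 * π * (d * 1), by positivity,
    (h1.comp w ((hasDerivAt_id w).add_const _)).const_mul (2 * π)⟩

theorem phO_half_FLimJac (hS : StStmt) {q : ℝ} (h : q = 59513 / 3200) : phO q = π / 2 := by
  rw [phO, h, show ((59513 : ℝ) / 3200 - 1849 / 100) * (320 / 69) = 1 / 2 by norm_num, hS.1]
  ring

theorem stepA_FLimJac (hS : StStmt) {t dt dw : ℝ} (ht : (t - 17 / 4) ^ 2 = 59513 / 3200)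
    (h1 : HasDerivAt (fun τ : ℝ => (Fo (t + τ * dt, 0, 0, 0 + τ * dw)).2.1) 0 0)
    (h2 : HasDerivAt (fun τ : ℝ => (Fo (t + τ * dt, 0, 0, 0 + τ * dw)).2.2.1) 0 0) :
    dt = 0 ∧ dw = 0 := by
  obtain ⟨d, hd, hφ⟩ := dphO_FLimJac hS (q₀ := (t - 17 / 4) ^ 2) (by rw [ht]; norm_num)
  obtain ⟨d', hd', hθ⟩ := dth_FLimJac hS (w := 0) (by norm_num)
  have hs := (line_FLimJac t dt).sub_const (17 / 4)
  have hφ' := hφ.comp_of_eq 0 (hs.pow 2) (by simp)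
  have hθ' := hθ.comp_of_eq 0 (line_FLimJac 0 dw) (by simp)
  have hs0 : t - 17 / 4 ≠ 0 := fun h => by rw [h] at ht; norm_num at ht
  simp only [FoA1_FLimJac] at h1
  simp only [FoA2_FLimJac] at h2
  have e1 := h1.unique (hs.mul ((hθ'.cos.mul ((hφ'.sin.mul hφ'.cos).mul
    (hθ'.cos.const_sub 1))).add ((hθ'.sin.mul hθ'.sin).mul hφ'.sin)))
  have e2 := h2.unique (hs.mul ((hθ'.sin.mul ((hφ'.sin.mul hφ'.cos).mul
    (hθ'.cos.const_sub 1))).sub ((hθ'.cos.mul hθ'.sin).mul hφ'.sin)))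
  simp [phO_half_FLimJac hS ht, th_zero_FLimJac hS, hs0, hd.ne', hd'.ne'] at e1 e2
  exact ⟨e1, e2⟩

theorem stepB_FLimJac (hS : StStmt) {x a da r : ℝ} (hr : 43 / 10 < r) (hr' : r ^ 2 < 59513 / 3200)
    (hx0 : x - 17 / 4 < 0) (hx : r * cos (2 * phO (r ^ 2)) = x - 17 / 4)
    (ha : a = r * sin (2 * phO (r ^ 2)))
    (h1 : HasDerivAt (fun τ : ℝ => (Fo (x, a + τ * da, 0, 0)).2.1) 0 0) : da = 0 := by
  have hq : (x - 17 / 4) ^ 2 + a ^ 2 = r ^ 2 := by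
    rw [← hx, ha, mul_pow, mul_pow, ← mul_add, cos_sq_add_sin_sq, mul_one]
  have hy0 : 0 < (r ^ 2 - 1849 / 100) * (320 / 69) := by nlinarith
  have hy1 : (r ^ 2 - 1849 / 100) * (320 / 69) < 1 / 2 := by linarith
  obtain ⟨d, hd, hφ⟩ := dphO_FLimJac hS (q₀ := r ^ 2) ⟨hy0, by linarith⟩
  have hl := line_FLimJac a da
  have hφ' := (hφ.comp_of_eq 0 (((hl.pow 2).const_add ((x - 17 / 4) ^ 2)).add_const (0 ^ 2))
    (by simp [hq])).const_mul 2
  simp only [FoB1_FLimJac hS] at h1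
  have e1 := h1.unique ((hφ'.cos.mul hl).sub (hφ'.sin.mul_const (x - 17 / 4)))
  have hsin : 0 ≤ sin (2 * phO (r ^ 2)) := by
    have h2 := hS.2.1 ⟨hy0.le, by linarith⟩ ⟨by norm_num, by norm_num⟩ hy1
    have h3 : 0 ≤ St ((r ^ 2 - 1849 / 100) * (320 / 69)) := smoothTransition.nonneg _
    rw [hS.1] at h2
    refine sin_nonneg_of_nonneg_of_le_pi ?_ ?_ <;> unfold phO <;> nlinarith [pi_pos]
  have hr0 : 0 < r := by linarith
  have hcos : cos (2 * phO (r ^ 2)) < 0 := by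
    by_contra h
    nlinarith [mul_nonneg hr0.le (not_lt.1 h)]
  simp only [Function.comp_apply, Pi.pow_apply, zero_mul, add_zero, hq, ne_eq, OfNat.ofNat_ne_zero,
    not_false_eq_true, zero_pow, Nat.cast_ofNat, Nat.add_one_sub_one, pow_one] at e1
  have e2 : da * (cos (2 * phO (r ^ 2)) - 4 * d * r * a) = 0 := by
    rw [← hx] at e1
    have := sin_sq_add_cos_sq (2 * phO (r ^ 2))
    linear_combination (-1) * e1 + 4 * d * a * da * sin (2 * phO (r ^ 2)) * ha +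
      4 * d * r * a * da * this
  have ha0 : 0 ≤ a := ha ▸ mul_nonneg hr0.le hsin
  refine (mul_eq_zero.1 e2).resolve_right (ne_of_lt ?_)
  have : 0 ≤ 4 * d * r * a := by positivity
  linarith

theorem stepM_FLimJac (hS : StStmt) {t w dw : ℝ} (ht : (t - 17 / 4) ^ 2 = 59513 / 3200)
    (hw0 : 0 < w) (hw1 : w < 1 / 2) (hc : (17 / 4 - t) * cos (th w) = 15 / 4)
    (h1 : HasDerivAt (fun τ : ℝ => (Fo (t, 0, 0, w + τ * dw)).1) 0 0) : dw = 0 := by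
  obtain ⟨d, hd, hθ⟩ := dth_FLimJac hS (w := w) ⟨by linarith, by linarith⟩
  have hθ' := hθ.comp_of_eq 0 (line_FLimJac w dw) (by simp)
  simp only [FoA0_FLimJac, phO_half_FLimJac hS ht] at h1
  have e1 := h1.unique ((((hθ'.cos.const_mul _).const_add _).const_mul _).const_add _)
  have hs0 : t - 17 / 4 ≠ 0 := fun h => by rw [h] at ht; norm_num at ht
  have hsin : sin (th w) ≠ 0 := fun h => by
    have h2 := sin_sq_add_cos_sq (th w)
    rw [h] at h2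
    have h3 : ((17 / 4 - t) * cos (th w)) ^ 2 = 59513 / 3200 := by
      linear_combination ht + (t - 17 / 4) ^ 2 * h2
    rw [hc] at h3
    norm_num at h3
  simpa [hs0, hsin, hd.ne'] using e1

theorem limJacS (hS : StStmt) (hM : ModelStmt) : LimJacStmt := by
  rintro k ⟨t, z₁, z₂, wa, w, wb⟩ ⟨ht0, ht, hz₂, hwa, hwb, hw0, hw1, hc, r, hr, hr', hx, ha⟩
  dsimp only at ht0 ht hz₂ hwa hwb hw0 hw1 hc hr' hx ha
  subst hz₂ hwa hwb
  have hFo : Differentiable ℝ Fo := hM.2.2.2.2.1.differentiable (by simp)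
  have hR : Differentiable ℝ fun Y => Red k (0, Y) := by
    unfold Red pA pM pB
    generalize Fo = G at hFo ⊢
    fun_prop
  rw [injective_iff_map_eq_zero]
  rintro ⟨dt, dz₁, dz₂, dwa, dw, dwb⟩ hv
  have hl : HasDerivAt (fun τ : ℝ => ((t + τ * dt, z₁ + τ * dz₁, 0 + τ * dz₂, 0 + τ * dwa,
      w + τ * dw, 0 + τ * dwb) : E6)) (dt, dz₁, dz₂, dwa, dw, dwb) 0 :=
    (line_FLimJac _ _).prodMk ((line_FLimJac _ _).prodMk ((line_FLimJac _ _).prodMk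
      ((line_FLimJac _ _).prodMk ((line_FLimJac _ _).prodMk (line_FLimJac _ _)))))
  have H := (hR (t, z₁, 0, 0, w, 0)).hasFDerivAt.comp_hasDerivAt_of_eq 0 hl (by simp)
  rw [hv] at H
  obtain ⟨H1, H⟩ := proj_FLimJac H
  obtain ⟨H2, H⟩ := proj_FLimJac H
  obtain ⟨H3, H⟩ := proj_FLimJac H
  obtain ⟨H4, H⟩ := proj_FLimJac H
  obtain ⟨H5, H6⟩ := proj_FLimJac H
  have H7 := H4.sub H1
  have H8 := H5.sub H2
  simp only [Function.comp_apply, Red, pA, pM, pB, zero_mul, sub_zero, mul_zero,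
    sub_sub_cancel, Pi.sub_def] at H3 H4 H5 H6 H7 H8
  obtain ⟨rfl, rfl⟩ := stepA_FLimJac hS ht H7 H8
  obtain rfl : 0 = dwb := by
    simpa using H3.unique ((line_FLimJac 0 dwb).sub (line_FLimJac 0 0))
  simp only [mul_zero, add_zero, zero_add, FoB2_FLimJac hS] at H4 H5 H6
  obtain rfl : 0 = dz₂ := by simpa using H5.unique (hasDerivAt_mul_const dz₂)
  simp only [mul_zero] at H4
  obtain rfl := stepB_FLimJac hS hr (by nlinarith) (by linarith) (by linarith) ha H4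
  obtain rfl := stepM_FLimJac hS ht hw0 hw1 hc (by simpa using H6.add_const (1 / 2))
  rfl

end Pool.Agent.MP_2fc7fa_gt.N.Fp
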