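import Mathlib

/-! A unique nondegenerate constrained zero persists under small perturbations. -/

open scoped Topology
open Set Filter Metric

noncomputable section

namespace Pool.Agent.MP_2fc7fa_gt.N

variable {E E' : Type} [NormedAddCommGroup E] [NormedSpace ℝ E] [FiniteDimensional ℝ E]
  [NormedAddCommGroup E'] [NormedSpace ℝ E'] [FiniteDimensional ℝ E']

/-- Local inverse at a point with injective derivative, in equal finite dimensions. -/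
theorem locInv_F (hd : Module.finrank ℝ E = Module.finrank ℝ E') {Ψ : E → E'} {a : E}
    (h1 : ContDiffAt ℝ 1 Ψ a) (h2 : Function.Injective (fderiv ℝ Ψ a)) :
    ∃ G : E' → E, ContDiffAt ℝ 1 G (Ψ a) ∧ G (Ψ a) = a ∧ (∀ᶠ y in 𝓝 (Ψ a), Ψ (G y) = y) ∧
      ∀ᶠ x in 𝓝 a, G (Ψ x) = x := by
  have := FiniteDimensional.complete ℝ E
  let L : E ≃L[ℝ] E' :=
    ((fderiv ℝ Ψ a).toLinearMap.linearEquivOfInjective h2 hd).toContinuousLinearEquiv
  have hL : (L : E →L[ℝ] E') = fderiv ℝ Ψ a := ContinuousLinearMap.ext fun _ => rfl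
  have hD : HasFDerivAt Ψ (L : E →L[ℝ] E') a := by
    rw [hL]
    exact (h1.differentiableAt one_ne_zero).hasFDerivAt
  refine ⟨h1.localInverse hD one_ne_zero, h1.to_localInverse hD one_ne_zero,
    h1.localInverse_apply_image hD one_ne_zero, ?_, ?_⟩
  · exact (h1.hasStrictFDerivAt' hD one_ne_zero).eventually_right_inverse
  · exact (h1.hasStrictFDerivAt' hD one_ne_zero).eventually_left_inverse

omit [FiniteDimensional ℝ E] [FiniteDimensional ℝ E'] in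
theorem slice_F {Φ : ℝ × E → E'} {e : ℝ} {X : E} (h : DifferentiableAt ℝ Φ (e, X)) (v : E) :
    fderiv ℝ (fun Y => Φ (e, Y)) X v = fderiv ℝ Φ (e, X) (0, v) := by
  have h2 := HasFDerivAt.comp X (g := Φ) h.hasFDerivAt (hasFDerivAt_prodMk_right (𝕜 := ℝ) e X)
  exact congrArg (fun T : E →L[ℝ] E' => T v) h2.fderiv

theorem pert_F (hd : Module.finrank ℝ E = Module.finrank ℝ E') {Φ : ℝ × E → E'} {C O : Set (ℝ × E)}
    {X₀ : E} (hc : ContinuousOn Φ C) (h1 : ContDiffAt ℝ 1 Φ (0, X₀)) (hC : IsCompact C)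
    (hO : O ∈ 𝓝 ((0 : ℝ), X₀)) (h0 : Φ (0, X₀) = 0)
    (hu : ∀ X, ((0 : ℝ), X) ∈ C → Φ (0, X) = 0 → X = X₀)
    (hi : Function.Injective (fderiv ℝ (fun Y => Φ (0, Y)) X₀)) :
    ∃ e₀ : ℝ, 0 < e₀ ∧ ∀ e : ℝ, |e| < e₀ → ∃ X, (e, X) ∈ O ∧ Φ (e, X) = 0 ∧
      ContDiffAt ℝ 1 Φ (e, X) ∧ Function.Injective (fderiv ℝ (fun Y => Φ (e, Y)) X) ∧
      ∀ Y, (e, Y) ∈ C → Φ (e, Y) = 0 → Y = X := by
  let Ψ : ℝ × E → ℝ × E' := fun p => (p.1, Φ p)
  have hΨ : ContDiffAt ℝ 1 Ψ (0, X₀) := contDiffAt_fst.prodMk h1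
  have hfd : ∀ p, DifferentiableAt ℝ Φ p → ∀ v, fderiv ℝ Ψ p v = (v.1, fderiv ℝ Φ p v) := by
    intro p hp v
    have := (hasFDerivAt_fst (𝕜 := ℝ) (p := p)).prodMk hp.hasFDerivAt
    exact congrArg (fun T : ℝ × E →L[ℝ] ℝ × E' => T v) this.fderiv
  have hinj : Function.Injective (fderiv ℝ Ψ (0, X₀)) := by
    rw [injective_iff_map_eq_zero]
    rintro ⟨s, v⟩ h
    rw [hfd _ (h1.differentiableAt one_ne_zero)] at h
    have hs : s = 0 := (Prod.ext_iff.1 h).1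
    subst hs
    have hv : fderiv ℝ Φ (0, X₀) (0, v) = 0 := (Prod.ext_iff.1 h).2
    rw [← slice_F (h1.differentiableAt one_ne_zero)] at hv
    rw [(injective_iff_map_eq_zero _).1 hi v hv]
    rfl
  obtain ⟨G, hG, hG0, hr, hl⟩ := locInv_F (by simp [Module.finrank_prod, hd]) hΨ hinj
  have hΨ0 : Ψ (0, X₀) = (0, 0) := by simp [Ψ, h0]
  rw [hΨ0] at hG hG0 hr
  have hGt : Tendsto G (𝓝 (0, 0)) (𝓝 (0, X₀)) := hG0 ▸ hG.continuousAt.tendsto
  -- near the zero the derivative is injective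
  have hI : ∀ᶠ p in 𝓝 ((0 : ℝ), X₀), ContDiffAt ℝ 1 Φ p ∧ Function.Injective (fderiv ℝ Ψ p) := by
    refine (h1.eventually (by simp)).and ?_
    exact (hΨ.continuousAt_fderiv one_ne_zero).eventually
      (ContinuousLinearMap.isOpen_injective.mem_nhds hinj)
  obtain ⟨N, hN, hNo, hN0⟩ := _root_.eventually_nhds_iff.1 hl
  -- zeros in `C` outside `N` stay away from `e = 0`
  have hfar : ∀ᶠ e in 𝓝 (0 : ℝ), ∀ Y, (e, Y) ∈ C → Φ (e, Y) = 0 → (e, Y) ∈ N := by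
    have hZ : IsCompact ((C ∩ Φ ⁻¹' {0}) \ N) :=
      (hC.of_isClosed_subset (hc.preimage_isClosed_of_isClosed hC.isClosed isClosed_singleton)
        inter_subset_left).diff hNo
    have hZ' : IsClosed (Prod.fst '' ((C ∩ Φ ⁻¹' {0}) \ N)) := (hZ.image continuous_fst).isClosed
    have hn : (0 : ℝ) ∈ (Prod.fst '' ((C ∩ Φ ⁻¹' {0}) \ N))ᶜ := by
      rintro ⟨⟨e, Y⟩, ⟨⟨h2, h3⟩, h4⟩, rfl⟩
      exact h4 (by rw [hu Y h2 h3]; exact hN0)
    filter_upwards [hZ'.isOpen_compl.mem_nhds hn] with e he Y h2 h3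
    by_contra h4
    exact he ⟨(e, Y), ⟨⟨h2, h3⟩, h4⟩, rfl⟩
  have hin : Tendsto (fun e : ℝ => (e, (0 : E'))) (𝓝 0) (𝓝 (0, 0)) :=
    (continuous_id.prodMk continuous_const).tendsto 0
  obtain ⟨e₀, he₀, hb⟩ := Metric.eventually_nhds_iff.1
    (hfar.and (hin.eventually (hr.and (hGt.eventually (hI.and hO)))))
  refine ⟨e₀, he₀, fun e he => ?_⟩
  obtain ⟨b1, b2, ⟨b3, b4⟩, b5⟩ := hb (y := e) (by simpa using he)
  have e1 : (G (e, 0)).1 = e := (Prod.ext_iff.1 b2).1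
  have e2 : Φ (G (e, 0)) = 0 := (Prod.ext_iff.1 b2).2
  have e3 : G (e, 0) = (e, (G (e, 0)).2) := Prod.ext e1 rfl
  rw [e3] at b3 b4 b5 e2
  refine ⟨(G (e, 0)).2, b5, e2, b3, ?_, fun Y h2 h3 => ?_⟩
  · rw [injective_iff_map_eq_zero]
    intro v hv
    rw [slice_F (b3.differentiableAt one_ne_zero)] at hv
    have := (injective_iff_map_eq_zero _).1 b4 (0, v)
      (by rw [hfd _ (b3.differentiableAt one_ne_zero), hv]; rfl)
    exact (Prod.ext_iff.1 this).2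
  · have h5 := hN _ (b1 Y h2 h3)
    have h6 : Ψ (e, Y) = (e, 0) := Prod.ext rfl h3
    rw [h6] at h5
    rw [h5]

omit [FiniteDimensional ℝ E] [FiniteDimensional ℝ E'] in
/-- Transfer of nondegeneracy along a bound. -/
theorem trans_F {E'' : Type} [NormedAddCommGroup E''] [NormedSpace ℝ E''] {F : E → E'}
    {Φ : E → E''} {x₀ : E} {c : ℝ} {L : E →L[ℝ] E'} {M : E →L[ℝ] E''} (hF : HasFDerivAt F L x₀)
    (hΦ : HasFDerivAt Φ M x₀) (h0 : Φ x₀ = 0) (hb : ∀ᶠ x in 𝓝 x₀, ‖F x‖ ≤ c * ‖Φ x‖)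
    (hL : Function.Injective L) : Function.Injective M := by
  have hF0 : F x₀ = 0 := by
    have := hb.self_of_nhds
    rw [h0, norm_zero, mul_zero] at this
    exact norm_le_zero_iff.1 this
  rw [injective_iff_map_eq_zero] at hL ⊢
  intro v hv
  apply hL
  have hl : HasDerivAt (fun t : ℝ => x₀ + t • v) v 0 := by
    simpa using ((hasDerivAt_id (0 : ℝ)).smul_const v).const_add x₀
  have e : x₀ = x₀ + (0 : ℝ) • v := by simp
  have h1 : HasDerivAt (fun t : ℝ => F (x₀ + t • v)) (L v) 0 :=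
    HasFDerivAt.comp_hasDerivAt_of_eq (0 : ℝ) hF hl e
  have h2 : HasDerivAt (fun t : ℝ => Φ (x₀ + t • v)) (M v) 0 :=
    HasFDerivAt.comp_hasDerivAt_of_eq (0 : ℝ) hΦ hl e
  rw [hv] at h2
  have h3 := h2.isLittleO
  have h4 : (fun t : ℝ => F (x₀ + t • v)) =O[𝓝 0] fun t : ℝ => Φ (x₀ + t • v) :=
    (Asymptotics.IsBigO.of_bound c hb).comp_tendsto
      (by simpa using hl.continuousAt.tendsto)
  have h5 : HasDerivAt (fun t : ℝ => F (x₀ + t • v)) 0 0 := by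
    rw [hasDerivAt_iff_isLittleO]
    simp only [zero_smul, add_zero, h0, hF0, sub_zero, smul_zero] at h3 ⊢
    exact h4.trans_isLittleO h3
  exact h1.unique h5

end Pool.Agent.MP_2fc7fa_gt.N
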