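import Pool.Agent.MP_2fc7fa_gt.N.GlueA
import Pool.Agent.MP_2fc7fa_gt.N.AJAlg
import Pool.Agent.MP_2fc7fa_gt.N.AFrame
import Pool.Agent.MP_2fc7fa_gt.N.ACube
import Pool.Agent.MP_2fc7fa_gt.N.AKey
import Pool.Agent.MP_2fc7fa_gt.N.ANear0
import Pool.Agent.MP_2fc7fa_gt.N.ANearInf
import Pool.Agent.MP_2fc7fa_gt.N.AJInv
import Pool.Agent.MP_2fc7fa_gt.N.AJSm
import Pool.Agent.MP_2fc7fa_gt.N.AGs
import Pool.Agent.MP_2fc7fa_gt.N.AJFam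
import Pool.Agent.MP_2fc7fa_gt.N.APull
import Pool.Agent.MP_2fc7fa_gt.N.AStd
import Pool.Agent.MP_2fc7fa_gt.N.ALift
import Pool.Agent.MP_2fc7fa_gt.N.AForms

/-! Part A. -/

namespace Pool.Agent.MP_2fc7fa_gt.N

theorem glue (hC : ChordStmt) : GlueStmt :=
  asm_Glue scaleS liftFS (formsS pullS stdFS) cubeS (jFamS jInvS jAlgS jSmS gsS) frameS keyS
    near0S nearInfS hC

end Pool.Agent.MP_2fc7fa_gt.N
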