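import Pool.Agent.MP_2fc7fa_gt.N.IfA

/-! Assembly of part A from the interface statements. -/

open scoped ContDiff ComplexConjugate Topology
open Set Complex Filter Metric

noncomputable section

namespace Pool.Agent.MP_2fc7fa_gt.N

theorem pr_hat_Glue (k : Zp) (x : V) : pr (hat k x) = actM k (pr x) := by
  funext a b
  have h : ∀ j, ‖hat k x j‖ = ‖x j‖ := fun j => by rw [hat, norm_mul, norm_rt, one_mul]
  simp only [pr, actM, h]
  rw [hat, hat, map_mul, conj_rt, mul_sub, sub_eq_add_neg, rt_add]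
  ring

theorem vec_zero_ne_Glue {v : W} (hv : v ≠ 0) (c : ℂ) : vec 0 v ≠ c • e0 := fun h =>
  hv (Prod.ext (by simpa [vec, e0] using congrFun h 1) (by simpa [vec, e0] using congrFun h 2))

theorem continuous_vec_Glue : Continuous fun v : W => vec 0 v :=
  continuous_pi fun a => by fin_cases a <;> simp [vec] <;> fun_prop

theorem continuousOn_pr_Glue : ContinuousOn pr {0}ᶜ := by
  refine continuousOn_pi.2 fun a => continuousOn_pi.2 fun b => ?_
  refine ContinuousOn.div (by fun_prop) (by fun_prop) fun x hx => ?_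
  exact ofReal_ne_zero.2 (nn_pos hx).ne'

theorem sys_Glue (hG : GromovStmt) (hFr : FrameStmt) {f : W → W} {F F' : V → V} (hL : Lf f F F')
    {ac : Zp → Symp 1 → Symp 1} {om0 om1 : Symp 1} {J : Symp 1 × UI → V → Op}
    (hJ : JFam F ac om0 om1 J) {P : Type} [TopologicalSpace P] [CompactSpace P]
    {om : P × UI → Symp 1} (hom : Continuous om) (h0 : ∀ p, om (p, 0) = om0)
    (h1 : ∀ p, om (p, 1) = om1) :
    ∃ (φ : P × UI → Fr) (C : P × UI → Op) (Y : P × UI → W → W → V), Sys φ C Y ∧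
      (∀ a x, x ≠ 0 → ∀ v, (φ a).J x v = J (om a, a.2) x v) ∧
      ∀ p p' k, (∀ s, om (p', s) = ac k (om (p, s))) →
        ∀ s u, C (p', s) (hat k u) = hat k (C (p, s) u) := by
  obtain ⟨φ, hφ, hφJ, hnat⟩ := hFr P (fun a => J (om a, a.2))
    (hJ.sm.param (hom.prodMk continuous_snd)) (fun a => hJ.sq _) (fun a => hJ.vert _)
    (fun a => hJ.scale _) (fun p x hx v => by simpa only [h1] using hJ.stop x hx v)
  have hstd : ∀ p x, x ≠ 0 → ∀ v, (φ (p, 1)).J x v = I • v := fun p x hx v => by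
    rw [hφJ _ x hx]
    simpa only [h1] using hJ.stop x hx v
  obtain ⟨U, hU, hU'⟩ := hG P φ om hφ hom
    (fun a x hx v hv => by rw [hφJ a x hx]; exact hJ.tame (om a, a.2) x hx v hv) hstd
  let C : P × UI → Op := fun a => ((φ a).B e0).comp ((φ (a.1, 0)).A e0)
  have hC : ∀ a v, C a v = (φ a).B e0 ((φ (a.1, 0)).A e0 v) := fun _ _ => rfl
  have hF0 : F e0 = e0 := hL.near.self_of_nhds
  have hdF : fderiv ℝ F e0 = ContinuousLinearMap.id ℝ V :=
    (EventuallyEq.fderiv_eq (f := id) hL.near).trans fderiv_id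
  have hJ0 : ∀ p v, (φ (p, 0)).J e0 v = I • v := fun p v => by
    have := hJ.start e0 e0_ne v
    rw [hF0, hdF] at this
    rw [hφJ _ _ e0_ne, h0]
    exact this
  have hB0 : ∀ a v, (φ a).B e0 v 0 = v 0 := by
    rintro ⟨p, s⟩ v
    have h := hnat p p e0 e0
      (((ContinuousLinearMap.proj 0 : V →L[ℂ] ℂ).smulRight e0).restrictScalars ℝ)
      (fun s v => by
        change J _ e0 (v 0 • e0) = J _ e0 v 0 • e0
        rw [hJ.vert _ _ e0_ne, hJ.base, mul_smul]) s v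
    change (φ (p, s)).B e0 (v 0 • e0) = (φ (p, s)).B e0 v 0 • e0 at h
    rw [(φ (p, s)).vert _ e0_ne] at h
    simpa [e0, vec] using (congrFun h 0).symm
  have hCb : ∀ a v, C a v 0 = v 0 := fun a v => by
    rw [hC, hB0, ← hB0 (a.1, 0) ((φ (a.1, 0)).A e0 v), (φ (a.1, 0)).BA _ e0_ne]
  have hCi : ∀ a, Function.Injective (C a) := fun a =>
    (Function.LeftInverse.injective ((φ a).AB _ e0_ne)).comp
      (Function.LeftInverse.injective ((φ (a.1, 0)).BA _ e0_ne))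
  have hCv : ∀ a (c : ℂ), C a (c • e0) = c • e0 := fun a c => by
    rw [hC]
    conv_lhs => rw [← (φ (a.1, 0)).vert _ e0_ne c, (φ (a.1, 0)).AB _ e0_ne]
    exact (φ a).vert _ e0_ne c
  have hjet : ∀ a (v : W), v ≠ 0 → (e0, C a (vec 0 v)) ∈ Jet := fun a v hv =>
    ⟨e0_ne, fun c hc => vec_zero_ne_Glue hv c (hCi a (hc.trans (hCv a c).symm))⟩
  have hCc : Continuous C := by
    have b1 : Continuous fun a => (φ a).B e0 :=
      (hφ 0).1.comp_continuous (f := fun a : P × UI => (a, e0)) (by fun_prop)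
        fun _ => ⟨mem_univ _, e0_ne⟩
    have b2 : Continuous fun a => (φ a).A e0 :=
      (hφ 0).2.comp_continuous (f := fun a : P × UI => (a, e0)) (by fun_prop)
        fun _ => ⟨mem_univ _, e0_ne⟩
    exact b1.clm_comp (b2.comp (f := fun a : P × UI => (a.1, (0 : UI))) (by fun_prop))
  classical
  refine ⟨φ, C, fun a v => if h : v ≠ 0 then U (a, ⟨_, hjet a v h⟩) else 0,
    ⟨hφ, hstd, fun a v => ?_, fun p v => (φ (p, 0)).BA _ e0_ne v, hCb, hCi, ?_, fun a v hv => ?_⟩,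
    hφJ, fun p p' k h s u => ?_⟩
  · have e : (φ (a.1, 0)).A e0 (I • v) = I • (φ (a.1, 0)).A e0 v := by
      rw [← hJ0 a.1 v, Fr.J, (φ (a.1, 0)).AB _ e0_ne]
    rw [hC, hC, e, Fr.J, (φ a).AB _ e0_ne]
  · refine (hU.param (g := fun b : (P × UI) × ({0}ᶜ : Set W) => (b.1, ⟨_, hjet b.1 b.2 b.2.2⟩))
      (continuous_fst.prodMk (Continuous.subtype_mk (continuous_const.prodMk
        ((hCc.comp continuous_fst).clm_apply (continuous_vec_Glue.comp
          (continuous_subtype_val.comp continuous_snd)))) _))).congr fun b x _ => ?_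
    rw [dif_pos (show (b.2 : W) ≠ 0 from b.2.2)]
  · simp only [dif_pos hv]
    exact hU' (a, ⟨_, hjet a v hv⟩)
  · have hB := hnat p p' e0 e0 ((hatL k : V →L[ℂ] V).restrictScalars ℝ) fun s v => by
      change J (om (p', s), s) e0 (hat k v) = hat k (J (om (p, s), s) e0 v)
      rw [h, ← hJ.equiv k _ s e0 e0_ne v, hat_e0]
    change ∀ s v, (φ (p', s)).B e0 (hat k v) = hat k ((φ (p, s)).B e0 v) at hB
    have hA : (φ (p', 0)).A e0 (hat k u) = hat k ((φ (p, 0)).A e0 u) := by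
      conv_lhs => rw [← (φ (p, 0)).BA _ e0_ne u, ← hB, (φ (p', 0)).AB _ e0_ne]
    rw [hC, hC, hA, hB]

/-- Admissible lists, with the discrete topology. -/
def LN (N : ℕ) : Type := {σ : List Zp // σ ≠ [] ∧ σ.length ≤ N + 1}

instance (N : ℕ) : TopologicalSpace (LN N) := ⊥

instance (N : ℕ) : DiscreteTopology (LN N) := ⟨rfl⟩

instance (N : ℕ) : Finite (LN N) :=
  ((List.finite_length_le Zp (N + 1)).subset fun _ h => h.2).to_subtype

/-- The projection onto the cube. -/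
def cl (t : ℕ → ℝ) : Cb := fun i => projIcc 0 1 zero_le_one (t i)

theorem continuous_cl : Continuous cl :=
  continuous_pi fun i => continuous_projIcc.comp (continuous_apply i)

theorem cl_skip (i : ℕ) (t : ℕ → ℝ) : cl (skip i t) = skip i (cl t) := by
  funext j
  simp only [cl, skip]
  split_ifs <;> rfl

theorem family_Glue (hG : GromovStmt) (hU : UniqStmt) (hLin : LinStmt) (hFr : FrameStmt)
    (hK : KeyStmt) (hN : Near0Stmt) (hN' : NearInfStmt) (hC : ChordStmt)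
    {f : W → W} {F F' : V → V} (hL : Lf f F F')
    {ac : Zp → Symp 1 → Symp 1} {om0 om1 : Symp 1} {J : Symp 1 × UI → V → Op}
    (hac : ∀ σ, ac 0 σ = σ) (hJ : JFam F ac om0 om1 J) {Q : List Zp → Cb × UI → Symp 1}
    (hQ : CubeFam ac om0 om1 Q) (N : ℕ) : Nonempty (LineFamily N f) := by
  let om : (LN N × Cb) × UI → Symp 1 := fun a => Q a.1.1.1 (a.1.2, a.2)
  have hom : Continuous om :=
    (continuous_prod_of_discrete_left (f := fun a : LN N × (Cb × UI) => Q a.1.1 a.2).2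
      fun σ => hQ.cont σ.1).comp (Homeomorph.prodAssoc (LN N) Cb UI).continuous
  obtain ⟨φ, C, Y, hS, hφJ, hCn⟩ := sys_Glue hG hFr hL hJ hom (fun p => hQ.start _ _)
    fun p => hQ.stop _ _
  obtain ⟨k1, k2, k3⟩ := hK hU hLin _ φ C Y hS
  have tr : ∀ p p' k (c : ℂ) v, (∀ s, om (p', s) = ac k (om (p, s))) → c ≠ 0 → v ≠ 0 →
      ∀ s, Y (p', s) (rt k • c • v) (1, 1) = hat k (Y (p, s) v (1, c)) := by
    intro p p' k c v h hc hv s
    have := k1 p p' (hatL k) c v (rt k • c • v) (hat_e0 k) (fun s x hx u => by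
      simp only [hatL_apply]
      rw [hφJ _ _ (hat_ne k hx), hφJ _ _ hx, h]
      exact hJ.equiv k _ s x hx u) (hCn p p' k h) hc hv (hat_vec k 0 _).symm s (1, 1)
    simpa only [mul_one, hatL_apply] using this
  have tr0 : ∀ p p' v, (∀ s, om (p', s) = om (p, s)) → v ≠ 0 →
      ∀ s, Y (p', s) v (1, 1) = Y (p, s) v (1, 1) := by
    intro p p' v h hv s
    simpa only [rt_zero, one_smul, hat_zero] using
      tr p p' 0 1 v (fun s => by rw [hac, h]) one_ne_zero hv s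
  have hR : Ray Y :=
    ⟨hS.fam, fun a v hv => ⟨⟨(hS.line a v hv).1.c1, (hS.line a v hv).1.hom⟩, (hS.line a v hv).2.1,
      (hS.line a v hv).1.ne⟩, fun a v hv => congrArg Prod.fst (hS.line a v hv).2.2,
      fun a v c hv hc => by
        simpa only [rt_zero, one_smul, hat_zero] using
          tr a.1 a.1 0 c v (fun s => (hac _).symm) hc hv a.2⟩
  have h11 : ∀ c : ℂ, ((1, c) : W) ≠ 0 := fun c e => one_ne_zero (congrArg Prod.fst e)
  classical
  let H : List Zp → (ℕ → ℝ) → ℝ → W → Mat := fun σ t s v =>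
    if h : σ ≠ [] ∧ σ.length ≤ N + 1 then
      pr (Y ((⟨σ, h⟩, cl t), projIcc 0 1 zero_le_one s) v (1, 1)) else 0
  have hH : ∀ σ t s v (h : σ ≠ [] ∧ σ.length ≤ N + 1), H σ t s v =
      pr (Y ((⟨σ, h⟩, cl t), projIcc 0 1 zero_le_one s) v (1, 1)) := fun σ t s v h => dif_pos h
  refine ⟨{ H := H, mem := ?_, cont := ?_, inj := ?_, equiv := ?_, face1 := ?_, face0 := ?_
            dep := ?_, start := ?_, stop := ?_, near0 := ?_, nearInf := ?_ }⟩
  · intro σ t s v h hv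
    exact ⟨_, (hR.emb _ v hv).2.2 _ (h11 1), hH σ t s v ⟨h.1, h.2.1⟩⟩
  · intro σ h1 h2
    rw [continuousOn_iff_continuous_domRestrict]
    obtain ⟨σ', hσ'⟩ : ∃ σ' : LN N, σ' = ⟨σ, h1, h2⟩ := ⟨_, rfl⟩
    have c0 : Continuous fun q : (cube ×ˢ Icc (0 : ℝ) 1 ×ˢ ({0}ᶜ : Set W) :
        Set ((ℕ → ℝ) × ℝ × W)) => (((((σ', cl q.1.1), projIcc 0 1 zero_le_one q.1.2.1),
          ⟨q.1.2.2, q.2.2.2⟩), (1, 1)) : (((LN N × Cb) × UI) × ({0}ᶜ : Set W)) × W) :=
      (((continuous_const.prodMk (continuous_cl.comp (by fun_prop))).prodMk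
        (continuous_projIcc.comp (by fun_prop))).prodMk (by fun_prop)).prodMk continuous_const
    have c1 := hS.fam.jc.comp_continuous c0 fun _ => ⟨mem_univ _, h11 1⟩
    subst hσ'
    refine (continuousOn_pr_Glue.comp_continuous c1
      fun q => (hR.emb _ _ q.2.2.2).2.2 _ (h11 1)).congr fun q => ?_
    exact (hH σ _ _ _ ⟨h1, h2⟩).symm
  · intro σ t s v c c' h hv hc hc' e
    rw [hH σ t s _ ⟨h.1, h.2.1⟩, hH σ t s _ ⟨h.1, h.2.1⟩, hR.par _ v c hv hc,
      hR.par _ v c' hv hc'] at e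
    obtain ⟨b1, b2, b3⟩ := hR.emb ((⟨σ, h.1, h.2.1⟩, cl t), projIcc 0 1 zero_le_one s) v hv
    obtain ⟨d, hd, e⟩ := exists_smul_of_pr_eq (b3 _ (h11 c)) (b3 _ (h11 c')) e
    rw [← b1.2] at e
    have e' := b2.inj (h11 c) (smul_ne_zero hd (h11 c')) e
    have e1 : (1 : ℂ) = d * 1 := congrArg Prod.fst e'
    have e2 : c = d * c' := congrArg Prod.snd e'
    rw [e2, ← mul_one d, ← e1, one_mul]
  · intro σ t s v k h hv
    have h' : σ.map (k + ·) ≠ [] ∧ (σ.map (k + ·)).length ≤ N + 1 :=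
      ⟨by simpa using h.1, by simpa using h.2.1⟩
    rw [hH _ t s _ h', hH σ t s _ ⟨h.1, h.2.1⟩, ← pr_hat_Glue,
      ← tr (⟨σ, h.1, h.2.1⟩, cl t) (⟨_, h'⟩, cl t) k 1 v (fun s => hQ.equiv σ k _ h.1)
        one_ne_zero hv, one_smul]
  · intro σ t s v i h hv hi ht
    have h' : σ.eraseIdx i ≠ [] ∧ (σ.eraseIdx i).length ≤ N + 1 := by
      have e : (σ.eraseIdx i).length = σ.length - 1 := List.length_eraseIdx_of_lt (by omega)
      have := h.2.1
      exact ⟨List.length_pos_iff.1 (by omega), by omega⟩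
    rw [hH _ _ s _ h', hH σ t s _ ⟨h.1, h.2.1⟩,
      tr0 (⟨_, h'⟩, cl (skip i t)) (⟨σ, h.1, h.2.1⟩, cl t) v (fun s => ?_) hv]
    rw [cl_skip]
    exact hQ.face1 σ _ s i hi (by simp only [cl, ht, projIcc_right]; rfl)
  · intro σ t s v i h hv ht
    have h' : σ.take (i + 1) ≠ [] ∧ (σ.take (i + 1)).length ≤ N + 1 :=
      ⟨by simpa using h.1, (List.length_take_le' _ _).trans h.2.1⟩
    rw [hH _ _ s _ h', hH σ t s _ ⟨h.1, h.2.1⟩,
      tr0 (⟨_, h'⟩, cl t) (⟨σ, h.1, h.2.1⟩, cl t) v (fun s => ?_) hv]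
    exact hQ.face0 σ _ s i h.1 (by simp only [cl, ht, projIcc_left]; rfl)
  · intro σ t t' s v h _ hv ht
    rw [hH σ t' s _ ⟨h.1, h.2.1⟩, hH σ t s _ ⟨h.1, h.2.1⟩,
      tr0 (⟨σ, h.1, h.2.1⟩, cl t') (⟨σ, h.1, h.2.1⟩, cl t) v (fun s => ?_) hv]
    exact hQ.dep σ _ _ s fun i hi => by simp only [cl, ht i hi]
  · intro σ t v h hv
    rw [hH σ t 0 _ ⟨h.1, h.2.1⟩, projIcc_left]
    refine congrArg pr (k2 _ f F F' hL (fun y hy u => ?_) v hv)
    rw [hφJ _ _ (hL.ne hy)]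
    have e : om (((⟨σ, h.1, h.2.1⟩ : LN N), cl t), 0) = om0 := hQ.start _ _
    rw [e]
    exact hJ.start y hy u
  · intro σ t h
    obtain ⟨L, hL1, hL2⟩ := k3 (⟨σ, h.1, h.2.1⟩, cl t)
    refine ⟨L, hL1, fun v hv => ?_⟩
    rw [hH σ t 1 _ ⟨h.1, h.2.1⟩, projIcc_right]
    exact congrArg pr (hL2 v hv)
  · intro r hr
    obtain ⟨τ, hτ, h⟩ := hN hC _ Y hR r hr
    exact ⟨τ, hτ, fun σ t s a x y l hA ha h1 h2 h3 h4 => h _ a x y l ha h1 h2
      (fun k => (hH σ t s _ ⟨hA.1, hA.2.1⟩).symm.trans (h3 k))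
      ((hH σ t s _ ⟨hA.1, hA.2.1⟩).symm.trans h4)⟩
  · intro r
    obtain ⟨R, h⟩ := hN' hC _ Y hR r
    exact ⟨R, fun σ t s b x y l hA hb h1 h2 h2' h3 h4 => h _ b x y l hb h1 h2 h2'
      (fun k => (hH σ t s _ ⟨hA.1, hA.2.1⟩).symm.trans (h3 k))
      ((hH σ t s _ ⟨hA.1, hA.2.1⟩).symm.trans h4)⟩

theorem asm_Glue (h1 : ScaleStmt) (h2 : LiftFStmt) (h3 : FormsStmt) (h4 : CubeStmt)
    (h5 : JFamStmt) (h6 : FrameStmt) (h7 : KeyStmt) (h8 : Near0Stmt) (h9 : NearInfStmt)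
    (hC : ChordStmt) : GlueStmt := by
  intro hCore hF hG hU hLin l hl hc
  have := h1 l hl hc
  obtain ⟨f, f', hs, s1, s2, s3, s4⟩ := hF
  obtain ⟨F, F', hL⟩ := h2 f f' hs s1 s2 s3 s4
  obtain ⟨ac, om0, om1, hFo⟩ := h3 f F F' hL
  obtain ⟨Q, hQ⟩ := h4 (Symp 1) ac om0 om1 hFo.cont hFo.zero hFo.add hFo.fix0 hFo.fix1
  obtain ⟨J, hJ⟩ := h5 f F F' ac om0 om1 hL hFo
  exact hCore f hs (family_Glue hG hU hLin h6 h7 h8 h9 hC hL hFo.zero hJ hQ)

end Pool.Agent.MP_2fc7fa_gt.N
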