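import Pool.Agent.MP_2fc7fa_gt.N.IfB2

/-! Two lines of the family with two common points: calculus lemmas. -/

open scoped ContDiff ComplexConjugate Topology
open Set Complex Filter Metric Asymptotics

noncomputable section

namespace Pool.Agent.MP_2fc7fa_gt.N

lemma mk2_H2 (y z : W) (h : det2 y z ≠ 0) :
    ∃ g : W ≃L[ℂ] W, ∀ q : W, g q = q.1 • y + q.2 • z := by
  let L : W →ₗ[ℂ] W := (LinearMap.fst ℂ ℂ ℂ).smulRight y + (LinearMap.snd ℂ ℂ ℂ).smulRight z
  have hL : ∀ q : W, L q = q.1 • y + q.2 • z := fun q => rfl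
  have hinj : Function.Injective L := by
    rw [injective_iff_map_eq_zero]
    intro q hq
    rw [hL] at hq
    have h1 : q.1 * y.1 + q.2 * z.1 = 0 := congrArg Prod.fst hq
    have h2 : q.1 * y.2 + q.2 * z.2 = 0 := congrArg Prod.snd hq
    have e1 : q.1 * det2 y z = 0 := by unfold det2; linear_combination z.2 * h1 - z.1 * h2
    have e2 : q.2 * det2 y z = 0 := by unfold det2; linear_combination y.1 * h2 - y.2 * h1
    exact Prod.ext ((mul_eq_zero.1 e1).resolve_right h) ((mul_eq_zero.1 e2).resolve_right h)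
  exact ⟨(LinearEquiv.ofInjectiveEndo L hinj).toContinuousLinearEquiv, hL⟩

lemma mk1_H2 (y : W) (hy : y ≠ 0) : ∃ g : W ≃L[ℂ] W, g (1, 0) = y := by
  by_cases h1 : y.1 = 0
  · have h2 : y.2 ≠ 0 := fun h2 => hy (Prod.ext h1 h2)
    obtain ⟨g, hg⟩ := mk2_H2 y (1, 0) (by simpa [det2] using h2)
    exact ⟨g, by simp [hg]⟩
  · obtain ⟨g, hg⟩ := mk2_H2 y (0, 1) (by simpa [det2] using h1)
    exact ⟨g, by simp [hg]⟩

lemma e0_ne_H2 : ((1, 0) : W) ≠ 0 := by simp

lemma diff_H2 {U : W → V} (h : ContDiffOn ℝ 1 U {0}ᶜ) {q : W} (hq : q ≠ 0) :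
    DifferentiableAt ℝ U q :=
  (h.contDiffAt (isOpen_compl_singleton.mem_nhds hq)).differentiableAt one_ne_zero

lemma fd_comp_H2 {U : W → V} (h : ContDiffOn ℝ 1 U {0}ᶜ) (g : W ≃L[ℂ] W) {e : W} (he : e ≠ 0)
    (k : W) : fderiv ℝ (U ∘ g) e k = fderiv ℝ U (g e) (g k) := by
  have hge : g e ≠ 0 := fun h0 => he (by simpa using h0)
  have h1 : HasFDerivAt g ((g : W →L[ℂ] W).restrictScalars ℝ) e :=
    ((g : W →L[ℂ] W).restrictScalars ℝ).hasFDerivAt
  rw [((diff_H2 h hge).hasFDerivAt.comp e h1).fderiv]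
  rfl

lemma zero_H2 {U : W → V} (h : ∀ (c : ℂ) q, U (c • q) = c • U q) : U 0 = 0 := by
  simpa using h 0 0

lemma euler_H2 {U : W → V} (h1 : ContDiffOn ℝ 1 U {0}ᶜ) (h : ∀ (c : ℂ) q, U (c • q) = c • U q)
    {q : W} (hq : q ≠ 0) (c : ℂ) : fderiv ℝ U q (c • q) = c • U q := by
  have e1 : HasDerivAt (fun t : ℝ => q + t • (c • q)) (c • q) 0 := by
    simpa using ((hasDerivAt_id (0 : ℝ)).smul_const (c • q)).const_add q
  have e2 : HasDerivAt (fun t : ℝ => U (q + t • (c • q))) (fderiv ℝ U q (c • q)) 0 := by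
    have : HasFDerivAt U (fderiv ℝ U q) (q + (0 : ℝ) • (c • q)) := by
      simpa using (diff_H2 h1 hq).hasFDerivAt
    exact this.comp_hasDerivAt (0 : ℝ) e1
  have e3 : HasDerivAt (fun t : ℝ => U q + t • (c • U q)) (c • U q) 0 := by
    simpa using ((hasDerivAt_id (0 : ℝ)).smul_const (c • U q)).const_add (U q)
  have e4 : (fun t : ℝ => U (q + t • (c • q))) = fun t : ℝ => U q + t • (c • U q) := by
    funext t
    have : q + t • (c • q) = (1 + (t : ℂ) * c) • q := by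
      rw [add_smul, one_smul, mul_smul, Complex.coe_smul]
    rw [this, h, add_smul, one_smul, mul_smul, Complex.coe_smul]
  rw [e4] at e2
  exact e2.unique e3

lemma clin_H2 (T : W →L[ℝ] V) (hT : ∀ h, T (I • h) = I • T h) (c : ℂ) (h : W) :
    T (c • h) = c • T h := by
  have e : ∀ {E : Type} [AddCommGroup E] [Module ℂ E] (x : E),
      c • x = (c.re : ℂ) • x + (c.im : ℂ) • I • x := fun x => by
    rw [smul_smul, ← add_smul, re_add_im]
  rw [e h, e (T h), map_add, Complex.coe_smul, Complex.coe_smul, Complex.coe_smul,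
    Complex.coe_smul, map_smul, map_smul, hT]

lemma avert_H2 (φ : Fr) {x : V} (hx : x ≠ 0) (c : ℂ) : φ.A x (c • x) = c • x := by
  conv_lhs => rw [← φ.vert x hx c]
  exact φ.AB x hx _

lemma tau_H2 {φ : Fr} {U : W → V} (h : IsLine φ.J U) (k : W) :
    φ.A (U (1, 0)) (fderiv ℝ U (1, 0) k) =
      k.1 • U (1, 0) + k.2 • φ.A (U (1, 0)) (fderiv ℝ U (1, 0) (0, 1)) := by
  have hx := h.ne _ e0_ne_H2
  have hT : ∀ k, ((φ.A (U (1, 0))).comp (fderiv ℝ U (1, 0))) (I • k) =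
      I • ((φ.A (U (1, 0))).comp (fderiv ℝ U (1, 0))) k := fun k => by
    simp only [ContinuousLinearMap.comp_apply]
    rw [h.hol _ e0_ne_H2, Fr.J, φ.AB _ hx]
  have e : k = k.1 • ((1, 0) : W) + k.2 • ((0, 1) : W) := by ext <;> simp
  have h2 := clin_H2 _ hT k.2 (0, 1)
  simp only [ContinuousLinearMap.comp_apply] at h2
  conv_lhs => rw [e, map_add, map_add, euler_H2 h.c1 h.hom e0_ne_H2, avert_H2 φ hx, h2]

/-- A curve that is locally contained in an immersed branch is tangent to it. -/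
lemma tang_H2 {U : W → V} {L : W →L[ℝ] V} {q : W} (hU : HasFDerivAt U L q)
    (hL : Function.Injective L) : ∃ δ : ℝ, 0 < δ ∧ ∀ (w : W → V) (M : W →L[ℝ] V) (r : W),
      HasFDerivAt w M r → U q = w r → (∀ᶠ r' in 𝓝 r, w r' ∈ U '' ball q δ) →
      ∀ h, ∃ k, M h = L k := by
  obtain ⟨K, -, hK⟩ := LinearMap.exists_antilipschitzWith (L : W →ₗ[ℝ] V)
    (LinearMap.ker_eq_bot.2 hL)
  have hind : Topology.IsInducing L := (hK.isInducing L.continuous)
  obtain ⟨C, hC⟩ := (hU.isTheta_sub hind).isBigO_symm.bound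
  obtain ⟨δ, hδ, hb⟩ := Metric.eventually_nhds_iff_ball.1 hC
  refine ⟨δ, hδ, fun w M r hw e hev h => ?_⟩
  classical
  let σ : W → W := fun r' => if h : w r' ∈ U '' ball q δ then h.choose else q
  have hσ : ∀ᶠ r' in 𝓝 r, σ r' ∈ ball q δ ∧ U (σ r') = w r' := hev.mono fun r' hr' => by
    simp only [σ, dif_pos hr']
    exact hr'.choose_spec
  have h1 : (fun r' => σ r' - q) =O[𝓝 r] fun r' => r' - r := by
    refine IsBigO.trans (IsBigO.of_bound C ?_) hw.isBigO_sub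
    refine hσ.mono fun r' hr' => ?_
    have := hb _ hr'.1
    rwa [hr'.2, e] at this
  have h2 : Tendsto σ (𝓝 r) (𝓝 q) := by
    have h0 : Tendsto (fun r' : W => r' - r) (𝓝 r) (𝓝 0) := tendsto_sub_nhds_zero_iff.2 tendsto_id
    exact tendsto_sub_nhds_zero_iff.1 (h1.trans_tendsto h0)
  have h3 : (fun r' => w r' - w r - L (σ r' - q)) =o[𝓝 r] fun r' => r' - r := by
    have := (hU.isLittleO.comp_tendsto h2).trans_isBigO h1
    refine this.congr' (hσ.mono fun r' hr' => ?_) EventuallyEq.rfl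
    simp only [Function.comp_apply, hr'.2, e]
  by_contra hn
  have hx : M h ∉ LinearMap.range (L : W →ₗ[ℝ] V) := fun ⟨k, hk⟩ => hn ⟨k, hk.symm⟩
  obtain ⟨f, hf, hf'⟩ := Submodule.exists_dual_map_eq_bot_of_notMem hx inferInstance
  let l : V →L[ℝ] ℝ := LinearMap.toContinuousLinearMap f
  have hl : ∀ k, l (L k) = 0 := fun k => by
    have : f (L k) ∈ (LinearMap.range (L : W →ₗ[ℝ] V)).map f := ⟨L k, ⟨k, rfl⟩, rfl⟩
    rw [hf'] at this
    exact this
  have h4 : HasFDerivAt (l ∘ w) (0 : W →L[ℝ] ℝ) r := by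
    rw [hasFDerivAt_iff_isLittleO]
    refine ((l.isBigO_comp _ _).trans_isLittleO h3).congr_left fun r' => ?_
    simp [hl]
  have h5 := (l.hasFDerivAt.comp r hw).unique h4
  exact hf (congrArg (fun T : W →L[ℝ] ℝ => T h) h5)

lemma near_H2 {P : Type} [TopologicalSpace P] {u : P → W → V} (h : Fam {0}ᶜ 1 V u) (p₀ : P)
    {ε : ℝ} (hε : 0 < ε) : ∀ᶠ p in 𝓝 p₀, Near ε (u p) (u p₀) := by
  have hO : IsOpen ({0}ᶜ : Set W) := isOpen_compl_singleton
  have h1 : Fam {0}ᶜ 0 (W →L[ℝ] V) fun p => fderiv ℝ (u p) :=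
    (h.fderivWithin hO.uniqueDiffOn).congr fun p x hx => (fderivWithin_of_isOpen hO hx).symm
  have key : ∀ {E : Type} [NormedAddCommGroup E] {F : P → W → E}, JC {0}ᶜ F →
      ∀ y ∈ sphere (0 : W) 1, ∀ᶠ z : P × W in 𝓝 (p₀, y), ‖F z.1 z.2 - F p₀ z.2‖ ≤ ε := by
    intro E _ F hF y hy
    have hy0 : y ∈ ({0}ᶜ : Set W) := by
      rintro rfl
      simp at hy
    have c1 : ContinuousAt (fun z : P × W => F z.1 z.2) (p₀, y) :=
      hF.continuousAt ((isOpen_univ.prod hO).mem_nhds ⟨mem_univ _, hy0⟩)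
    have c2 : ContinuousAt (fun z : P × W => F p₀ z.2) (p₀, y) :=
      ContinuousAt.comp (f := Prod.snd) ((hF.at p₀).continuousAt (hO.mem_nhds hy0))
        continuousAt_snd
    have c3 : Tendsto (fun z : P × W => ‖F z.1 z.2 - F p₀ z.2‖) (𝓝 (p₀, y)) (𝓝 0) := by
      simpa using (c1.sub c2).norm.tendsto
    exact c3.eventually (ge_mem_nhds hε)
  have := (isCompact_sphere (0 : W) 1).eventually_forall_of_forall_eventually
    (P := fun p y => ‖u p y - u p₀ y‖ ≤ ε ∧ ‖fderiv ℝ (u p) y - fderiv ℝ (u p₀) y‖ ≤ ε)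
    (x₀ := p₀) fun y hy => (key h.jc y hy).and (key h1.jc y hy)
  exact this.mono fun p hp q hq => hp q (by simpa using hq)

end Pool.Agent.MP_2fc7fa_gt.N
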