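import Pool.Agent.MP_2fc7fa_gt.N.IfB

/-! The Banach space of bounded Hoelder functions of exponent one half on the plane. -/

open scoped BoundedContinuousFunction Topology
open Set Filter Metric

noncomputable section

namespace Pool.Agent.MP_2fc7fa_gt.N

/-- `f` is bounded by `M` and Hoelder with constant `M` on `S`. -/
def HB {E : Type} [NormedAddCommGroup E] (M : ℝ) (f : ℂ → E) (S : Set ℂ) : Prop :=
  (∀ z ∈ S, ‖f z‖ ≤ M) ∧ Hol M f S

variable {E : Type} [NormedAddCommGroup E] [NormedSpace ℝ E]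

/-- Pairs of distinct points. -/
abbrev OffD : Type := {p : ℂ × ℂ // p.1 ≠ p.2}

/-- Graph of the difference quotient. -/
def HoS (E : Type) [NormedAddCommGroup E] [NormedSpace ℝ E] :
    Submodule ℝ ((ℂ →ᵇ E) × (OffD →ᵇ E)) where
  carrier := {a | ∀ p : OffD, a.2 p = (√‖p.1.1 - p.1.2‖)⁻¹ • (a.1 p.1.1 - a.1 p.1.2)}
  add_mem' := by
    intro a b ha hb p
    simp only [Prod.snd_add, Prod.fst_add, BoundedContinuousFunction.add_apply, ha p, hb p,
      ← smul_add]
    congr 1; abel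
  zero_mem' := by intro p; simp
  smul_mem' := by
    intro c a ha p
    simp only [Prod.smul_snd, Prod.smul_fst, BoundedContinuousFunction.smul_apply, ha p,
      ← smul_sub]
    rw [smul_comm]

/-- Bounded Hoelder functions. -/
abbrev Ho (E : Type) [NormedAddCommGroup E] [NormedSpace ℝ E] : Type := HoS E

lemma isClosed_HoS : IsClosed (HoS E : Set ((ℂ →ᵇ E) × (OffD →ᵇ E))) := by
  have : (HoS E : Set ((ℂ →ᵇ E) × (OffD →ᵇ E))) = ⋂ p : OffD,
      {a | a.2 p = (√‖p.1.1 - p.1.2‖)⁻¹ • (a.1 p.1.1 - a.1 p.1.2)} := by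
    ext a; simp [HoS]
  rw [this]
  refine isClosed_iInter fun p => isClosed_eq (by fun_prop) (by fun_prop)

instance completeHo [CompleteSpace E] : CompleteSpace (Ho E) := isClosed_HoS.completeSpace_coe

/-- The underlying function. -/
def Ho.fn (f : Ho E) : ℂ → E := f.1.1

lemma Ho.fn_add (f g : Ho E) : (f + g).fn = f.fn + g.fn := rfl
lemma Ho.fn_sub (f g : Ho E) : (f - g).fn = f.fn - g.fn := rfl
lemma Ho.fn_neg (f : Ho E) : (-f).fn = -f.fn := rfl
lemma Ho.fn_smul (c : ℝ) (f : Ho E) : (c • f).fn = c • f.fn := rfl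
lemma Ho.fn_zero : (0 : Ho E).fn = 0 := rfl

lemma Ho.continuous_fn (f : Ho E) : Continuous f.fn := f.1.1.continuous

lemma Ho.ext_fn {f g : Ho E} (h : f.fn = g.fn) : f = g := by
  have h1 : f.1.1 = g.1.1 := by ext z; exact congrFun h z
  refine Subtype.ext (Prod.ext h1 ?_)
  ext p
  rw [f.2 p, g.2 p, h1]

lemma sqrt_pos_OffD (p : OffD) : 0 < √‖p.1.1 - p.1.2‖ :=
  Real.sqrt_pos.2 (norm_pos_iff.2 (sub_ne_zero.2 p.2))

lemma Ho.hb (f : Ho E) : HB ‖f‖ f.fn univ := by
  refine ⟨fun z _ => (f.1.1.norm_coe_le_norm z).trans (norm_fst_le f.1), fun z _ z' _ => ?_⟩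
  by_cases h : z = z'
  · simp [h]
  · have h1 := (f.1.2.norm_coe_le_norm ⟨(z, z'), h⟩).trans (norm_snd_le f.1)
    have h2 := sqrt_pos_OffD ⟨(z, z'), h⟩
    rw [f.2 ⟨(z, z'), h⟩, norm_smul, norm_inv, Real.norm_of_nonneg h2.le,
      inv_mul_le_iff₀ h2, mul_comm] at h1
    exact h1

lemma Ho.norm_le {f : Ho E} {M : ℝ} (h : HB M f.fn univ) : ‖f‖ ≤ M := by
  have hM : 0 ≤ M := (norm_nonneg _).trans (h.1 0 trivial)
  change ‖f.1‖ ≤ M
  rw [Prod.norm_def, max_le_iff]
  refine ⟨(BoundedContinuousFunction.norm_le hM).2 fun z => h.1 z trivial,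
    (BoundedContinuousFunction.norm_le hM).2 fun p => ?_⟩
  have h2 := sqrt_pos_OffD p
  rw [f.2 p, norm_smul, norm_inv, Real.norm_of_nonneg h2.le, inv_mul_le_iff₀ h2, mul_comm]
  exact h.2 _ trivial _ trivial

omit [NormedSpace ℝ E] in
lemma HB.continuous {f : ℂ → E} {M : ℝ} (h : HB M f univ) : Continuous f := by
  refine continuous_iff_continuousAt.2 fun z => ?_
  rw [ContinuousAt, tendsto_iff_norm_sub_tendsto_zero]
  refine squeeze_zero (fun _ => norm_nonneg _) (fun z' => h.2 z' trivial z trivial) ?_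
  have : Continuous fun z' : ℂ => M * √‖z' - z‖ := by fun_prop
  simpa using this.tendsto z

lemma HB.exists_ho {f : ℂ → E} {M : ℝ} (h : HB M f univ) : ∃ g : Ho E, g.fn = f := by
  have hc := h.continuous
  refine ⟨⟨(BoundedContinuousFunction.ofNormedAddCommGroup f hc M fun z => h.1 z trivial,
    BoundedContinuousFunction.ofNormedAddCommGroup
      (fun p : OffD => (√‖p.1.1 - p.1.2‖)⁻¹ • (f p.1.1 - f p.1.2)) ?_ M fun p => ?_),
    fun p => rfl⟩, rfl⟩
  · exact (Continuous.inv₀ (by fun_prop) fun p => (sqrt_pos_OffD p).ne').smul (by fun_prop)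
  · have h2 := sqrt_pos_OffD p
    rw [norm_smul, norm_inv, Real.norm_of_nonneg h2.le, inv_mul_le_iff₀ h2, mul_comm]
    exact h.2 _ trivial _ trivial

open Classical in
/-- The element of `Ho E` with a given underlying function, or `0` if there is none. -/
def Ho.of (f : ℂ → E) : Ho E := if h : ∃ g : Ho E, g.fn = f then h.choose else 0

lemma HB.fn_of {f : ℂ → E} {M : ℝ} (h : HB M f univ) : (Ho.of f).fn = f := by
  rw [Ho.of, dif_pos h.exists_ho]; exact h.exists_ho.choose_spec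

lemma HB.norm_of {f : ℂ → E} {M : ℝ} (h : HB M f univ) : ‖Ho.of f‖ ≤ M :=
  Ho.norm_le (by rw [h.fn_of]; exact h)

end Pool.Agent.MP_2fc7fa_gt.N
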