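import Pool.Agent.MP_2fc7fa_gt.N.IfB2
import Pool.Agent.MP_2fc7fa_gt.N.Rt
import Pool.Agent.MP_2fc7fa_gt.Ext

/-! Interface statements inside part A (families of forms and of lines), see PROOF.md. -/

open scoped ContDiff ComplexConjugate Topology
open Set Complex Filter Metric

noncomputable section

namespace Pool.Agent.MP_2fc7fa_gt.N

abbrev Cb : Type := ℕ → UI

abbrev Bil : Type := V →L[ℝ] V →L[ℝ] ℝ

abbrev Op : Type := V →L[ℝ] V

/-- The base point. -/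
def e0 : V := vec 1 0

theorem e0_ne : e0 ≠ 0 := fun h => by simpa [e0, vec] using congrFun h 0

theorem rt_mul_neg (k : Zp) : rt k * rt (-k) = 1 := by rw [← rt_add, add_neg_cancel, rt_zero]

theorem rt_ne (k : Zp) : rt k ≠ 0 := left_ne_zero_of_mul_eq_one (rt_mul_neg k)

theorem hat_zero (x : V) : hat 0 x = x := funext fun a => by simp [hat, rt_zero]

theorem hat_add (k k' : Zp) (x : V) : hat (k + k') x = hat k (hat k' x) :=
  funext fun a => by simp only [hat, add_mul, rt_add, mul_assoc]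

theorem hat_vec (k : Zp) (c : ℂ) (y : W) : hat k (vec c y) = vec c (rt k • y) := by
  ext a
  fin_cases a <;> simp [hat, vec, wt, rt_zero]

theorem hat_e0 (k : Zp) : hat k e0 = e0 := by rw [e0, hat_vec, smul_zero]

/-- The action of `k` as a complex linear automorphism. -/
def hatL (k : Zp) : V ≃L[ℂ] V :=
  LinearEquiv.toContinuousLinearEquiv
    { toFun := hat k
      invFun := hat (-k)
      map_add' := fun x y => funext fun a => by simp [hat, mul_add]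
      map_smul' := fun c x => funext fun a => by simp [hat, mul_left_comm]
      left_inv := fun x => by rw [← hat_add, neg_add_cancel, hat_zero]
      right_inv := fun x => by rw [← hat_add, add_neg_cancel, hat_zero] }

theorem hatL_apply (k : Zp) (x : V) : hatL k x = hat k x := rfl

theorem hat_ne (k : Zp) {x : V} (hx : x ≠ 0) : hat k x ≠ 0 := (hatL k).map_ne_zero_iff.2 hx

theorem Symp.ext' {l : ℝ} {σ τ : Symp l}
    (h : ∀ x, x ≠ 0 → ∀ u v, σ.form x ![u, v] = τ.form x ![u, v]) : σ = τ := by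
  obtain ⟨σ, c1, c2, c3, c4⟩ := σ
  obtain ⟨τ, d1, d2, d3, d4⟩ := τ
  obtain rfl : σ = τ := funext fun z => by
    rcases eq_or_ne z 0 with rfl | hz
    · exact c1.zero.trans d1.zero.symm
    · ext v
      rw [eq_bilL, eq_bilL, bilL_apply, bilL_apply]
      exact h z hz _ _
  rfl

/-- Continuity in the `C^∞` topology. -/
theorem continuous_symp_iff {l : ℝ} {P : Type} [TopologicalSpace P] {om : P → Symp l} :
    Continuous om ↔ Sm {0}ᶜ fun p => (om p).form := by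
  have hU : IsOpen ({0}ᶜ : Set V) := isOpen_compl_singleton
  have := hU.locallyCompactSpace
  constructor
  · intro h
    refine (sm_iff_iter hU).2 ⟨fun p => (om p).isForm.smooth, fun m => ?_⟩
    rw [JC, continuousOn_iff_continuous_domRestrict]
    have h2 : Continuous fun σ : Symp l => σ.jet m :=
      continuous_iInf_dom (i := m) continuous_induced_dom
    exact continuous_eval.comp (f := fun q : (univ ×ˢ {0}ᶜ : Set (P × V)) =>
      ((om q.1.1).jet m, (⟨q.1.2, q.2.2⟩ : ({0}ᶜ : Set V)))) (by fun_prop)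
  · intro h
    refine continuous_iInf_rng.2 fun m => continuous_induced_rng.2
      (ContinuousMap.continuous_of_continuous_uncurry _ ?_)
    exact (((sm_iff_iter hU).1 h).2 m).comp_continuous
      (f := fun q : P × ({0}ᶜ : Set V) => (q.1, q.2.1)) (by fun_prop) fun q => ⟨mem_univ _, q.2.2⟩

/-! ### Homogeneous diffeomorphisms -/

/-- A homogeneous diffeomorphism of `ℂ³ ∖ 0` with its inverse. -/
structure HDiff (F F' : V → V) : Prop where
  smooth : ContDiffOn ℝ ∞ F {0}ᶜ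
  smooth' : ContDiffOn ℝ ∞ F' {0}ᶜ
  left : ∀ x, F' (F x) = x
  right : ∀ x, F (F' x) = x
  hom : ∀ (c : ℂ) x, F (c • x) = c • F x

namespace HDiff

variable {F F' : V → V} (h : HDiff F F')

include h

theorem symm : HDiff F' F :=
  ⟨h.smooth', h.smooth, h.right, h.left, fun c x => by
    conv_lhs => rw [← h.right x, ← h.hom, h.left]⟩

theorem zero : F 0 = 0 := by simpa using h.hom 0 0

theorem ne {x : V} (hx : x ≠ 0) : F x ≠ 0 := fun e =>
  hx (by rw [← h.left x, e, h.symm.zero])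

theorem cdAt {x : V} (hx : x ≠ 0) : ContDiffAt ℝ ∞ F x :=
  h.smooth.contDiffAt (isOpen_compl_singleton.mem_nhds hx)

theorem dAt {x : V} (hx : x ≠ 0) : DifferentiableAt ℝ F x := (h.cdAt hx).differentiableAt (by simp)

theorem chain {x : V} (hx : x ≠ 0) (v : V) : fderiv ℝ F' (F x) (fderiv ℝ F x v) = v := by
  have h1 := fderiv_comp x (h.symm.dAt (h.ne hx)) (h.dAt hx)
  have h2 : F' ∘ F = id := funext h.left
  rw [h2, fderiv_id] at h1
  exact (congrArg (fun L : Op => L v) h1).symm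

theorem chain' {x : V} (hx : x ≠ 0) (v : V) : fderiv ℝ F x (fderiv ℝ F' (F x) v) = v := by
  simpa only [h.left] using h.symm.chain (h.ne hx) v

/-- The derivative of a map that commutes with a linear automorphism. -/
theorem fderiv_comm (T : V ≃L[ℝ] V) (hT : ∀ x, F (T x) = T (F x)) {x : V} (hx : x ≠ 0) (v : V) :
    fderiv ℝ F (T x) (T v) = T (fderiv ℝ F x v) := by
  have h1 := (h.dAt (T.map_ne_zero_iff.2 hx)).hasFDerivAt.comp x T.hasFDerivAt
  have h2 := T.hasFDerivAt.comp x (h.dAt hx).hasFDerivAt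
  exact congrArg (fun L : Op => L v) (h1.unique (h2.congr_of_eventuallyEq (.of_forall hT)))

theorem fderiv_scale {x : V} (hx : x ≠ 0) {c : ℂ} (hc : c ≠ 0) (v : V) :
    fderiv ℝ F (c • x) (c • v) = c • fderiv ℝ F x v :=
  h.fderiv_comm (((LinearEquiv.smulOfNeZero ℂ V c hc).restrictScalars ℝ).toContinuousLinearEquiv)
    (h.hom c) hx v

theorem fderiv_vert {x : V} (hx : x ≠ 0) (c : ℂ) : fderiv ℝ F x (c • x) = c • F x := by
  have h1 : HasDerivAt (fun t : ℝ => (1 + t * c : ℂ)) c 0 := by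
    simpa using ((Complex.ofRealCLM.hasDerivAt (x := (0 : ℝ))).mul_const c).const_add 1
  have h2 := HasFDerivAt.comp_hasDerivAt (l := F) (l' := fderiv ℝ F x) (0 : ℝ)
    (by simpa using (h.dAt hx).hasFDerivAt) (h1.smul_const x)
  have h3 : F ∘ (fun t : ℝ => (1 + t * c : ℂ) • x) = fun t : ℝ => (1 + t * c : ℂ) • F x :=
    funext fun t => h.hom _ x
  rw [h3] at h2
  exact h2.unique (h1.smul_const (F x))

end HDiff

theorem hdiff_hat (k : Zp) : HDiff (hat k) (hat (-k)) :=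
  ⟨((hatL k).contDiff.restrict_scalars ℝ).contDiffOn,
    ((hatL (-k)).contDiff.restrict_scalars ℝ).contDiffOn,
    (hatL k).left_inv, (hatL k).right_inv, (hatL k).map_smul⟩

theorem fderiv_hat (k : Zp) (x v : V) : fderiv ℝ (hat k) x v = hat k v :=
  congrArg (fun L : Op => L v) ((hatL k).hasFDerivAt (x := x).restrictScalars ℝ).fderiv

/-- The lift to `ℂ³` of a diffeomorphism `f` of the affine chart. -/
structure Lf (f : W → W) (F F' : V → V) : Prop extends HDiff F F' where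
  equiv : ∀ k x, F (hat k x) = hat k (F x)
  aff : ∀ y, F (vec 1 y) = vec 1 (f y)
  near : ∀ᶠ x in 𝓝 e0, F x = x
  near' : ∀ᶠ x in 𝓝 e0, F' x = x

/-- Job `Scale`. -/
def ScaleStmt : Prop :=
  ∀ l : ℝ, l ≠ 0 → ContractibleSpace (Symp l) → ContractibleSpace (Symp 1)

/-- Job `LiftF`. -/
def LiftFStmt : Prop :=
  ∀ f f' : W → W, Sol f → ContDiff ℝ ∞ f → ContDiff ℝ ∞ f' → Function.LeftInverse f' f →
    Function.RightInverse f' f → ∃ F F', Lf f F F'

/-! ### Forms -/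

/-- `τ` is the pull-back of `σ` by `F`. -/
def IsPull (F : V → V) (σ τ : Symp 1) : Prop :=
  ∀ x, x ≠ 0 → ∀ u v, τ.form x ![u, v] = σ.form (F x) ![fderiv ℝ F x u, fderiv ℝ F x v]

/-- Job `Pull`. -/
def PullStmt : Prop :=
  ∀ F F', HDiff F F' → ∃ pb : Symp 1 → Symp 1, Continuous pb ∧ ∀ σ, IsPull F σ (pb σ)

/-- The real part of the Hermitian product. -/
def reB : Bil :=
  ∑ j : Fin 3, (innerSL ℝ : ℂ →L[ℝ] ℂ →L[ℝ] ℝ).bilinearComp
    (ContinuousLinearMap.proj j : V →L[ℝ] ℂ) (ContinuousLinearMap.proj j : V →L[ℝ] ℂ)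

theorem reB_apply (u v : V) : reB u v = (her u v).re := by
  simp [reB, her, mul_comm]

/-- The standard metric. -/
def g1 (x : V) : Bil := (nn x)⁻¹ • reB

theorem g1_apply (x u v : V) : g1 x u v = (nn x)⁻¹ * (her u v).re := by
  simp [g1, reB_apply]

/-- The standard form attached to a metric and a vector. -/
def omS (g : Bil) (x u v : V) : ℝ :=
  2 * (g (I • u) v - g (I • u) x * g v x - g (I • u) (I • x) * g v (I • x))

/-- Job `StdF`. -/
def StdFStmt : Prop :=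
  ∃ om1 : Symp 1, ∀ x, x ≠ 0 → ∀ u v, om1.form x ![u, v] = omS (g1 x) x u v

/-- The group action on forms and the two invariant forms. -/
structure Forms (F' : V → V) (ac : Zp → Symp 1 → Symp 1) (om0 om1 : Symp 1) : Prop where
  cont : ∀ k, Continuous (ac k)
  zero : ∀ σ, ac 0 σ = σ
  add : ∀ k k' σ, ac (k + k') σ = ac k (ac k' σ)
  fix0 : ∀ k, ac k om0 = om0
  fix1 : ∀ k, ac k om1 = om1
  spec : ∀ k σ x, x ≠ 0 → ∀ u v, (ac k σ).form (hat k x) ![hat k u, hat k v] = σ.form x ![u, v]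
  std : ∀ x, x ≠ 0 → ∀ u v, om1.form x ![u, v] = omS (g1 x) x u v
  pull : IsPull F' om1 om0

/-- Job `Forms`. -/
def FormsStmt : Prop := ∀ f F F', Lf f F F' → ∃ ac om0 om1, Forms F' ac om0 om1

/-! ### Equivariant families over cubes -/

structure CubeFam {X : Type} [TopologicalSpace X] (ac : Zp → X → X) (x₀ x₁ : X)
    (Q : List Zp → Cb × UI → X) : Prop where
  cont : ∀ σ, Continuous (Q σ)
  equiv : ∀ σ k a, σ ≠ [] → Q (σ.map (k + ·)) a = ac k (Q σ a)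
  face1 : ∀ σ t s i, i + 1 < σ.length → t i = 1 → Q σ (t, s) = Q (σ.eraseIdx i) (skip i t, s)
  face0 : ∀ σ t s i, σ ≠ [] → t i = 0 → Q σ (t, s) = Q (σ.take (i + 1)) (t, s)
  dep : ∀ σ t t' s, (∀ i, i + 1 < σ.length → t i = t' i) → Q σ (t, s) = Q σ (t', s)
  start : ∀ σ t, Q σ (t, 0) = x₀
  stop : ∀ σ t, Q σ (t, 1) = x₁

/-- Job `Cube`. -/
def CubeStmt : Prop :=
  ∀ (X : Type) [TopologicalSpace X] [ContractibleSpace X] (ac : Zp → X → X) (x₀ x₁ : X),
    (∀ k, Continuous (ac k)) → (∀ x, ac 0 x = x) → (∀ k k' x, ac (k + k') x = ac k (ac k' x)) →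
    (∀ k, ac k x₀ = x₀) → (∀ k, ac k x₁ = x₁) → ∃ Q, CubeFam ac x₀ x₁ Q

/-! ### The almost complex structure of a metric and a form, at a point -/

/-- A metric, a form and two vectors. -/
abbrev D4 : Type := Bil × Bil × V × V

/-- The operator `A` with `g (A u) v = o u v`. -/
def Aop (d : D4) : Op := (ContinuousLinearMap.inverse d.1).comp d.2.1

def trc (A : Op) : ℝ := LinearMap.trace ℝ V (A : V →ₗ[ℝ] V)

def sgm (A : Op) : ℝ := -trc (A ^ 2) / 2

def pf2 (A : Op) : ℝ := (sgm A ^ 2 - trc (A ^ 4) / 2) / 2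

/-- The horizontal part. -/
def Jh (A : Op) : Op := (√(sgm A + 2 * √(pf2 A)))⁻¹ • (A + (√(pf2 A))⁻¹ • (A ^ 3 + sgm A • A))

/-- The almost complex structure. -/
def Jp (d : D4) : Op :=
  Jh (Aop d) + (d.1 d.2.2.1).smulRight d.2.2.2 - (d.1 d.2.2.2).smulRight d.2.2.1

/-- Admissible data. -/
structure Ok (g o : Bil) (x x' : V) : Prop where
  symm : ∀ u v, g u v = g v u
  pos : ∀ v, v ≠ 0 → 0 < g v v
  skew : ∀ u v, o u v = -o v u
  ker : ∀ v, o x v = 0
  ker' : ∀ v, o x' v = 0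
  xx : g x x = 1
  xx' : g x x' = 0
  x'x' : g x' x' = 1
  nondeg : ∃ a b c d, o a b * o c d - o a c * o b d + o a d * o b c ≠ 0

/-- Job `JInv`: the defining property of `Aop`, naturality, the standard case. -/
def JInvStmt : Prop :=
  (∀ g o x x', Ok g o x x' → g.IsInvertible ∧ ∀ u v, g (Aop (g, o, x, x') u) v = o u v) ∧
  (∀ (T : V ≃L[ℝ] V) g o x x' g' o', Ok g o x x' → (∀ u v, g' (T u) (T v) = g u v) →
    (∀ u v, o' (T u) (T v) = o u v) → ∀ v, Jp (g', o', T x, T x') (T v) = T (Jp (g, o, x, x') v)) ∧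
  ∀ (x : V) (o : Bil), x ≠ 0 → (∀ u v, o u v = omS (g1 x) x u v) →
    ∀ v, Jp (g1 x, o, x, I • x) v = I • v

/-- Job `JAlg`: linear algebra in dimension four. -/
def JAlgStmt : Prop :=
  ∀ g o x x', Ok g o x x' → (∀ u v, g (Aop (g, o, x, x') u) v = o u v) →
    0 < pf2 (Aop (g, o, x, x')) ∧ 0 ≤ sgm (Aop (g, o, x, x')) ∧
    (∀ v, Jp (g, o, x, x') (Jp (g, o, x, x') v) = -v) ∧
    Jp (g, o, x, x') x = x' ∧ Jp (g, o, x, x') x' = -x ∧
    (∀ v, (∀ a b : ℝ, v ≠ a • x + b • x') → 0 < o v (Jp (g, o, x, x') v)) ∧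
    ∀ v, g (Jp (g, o, x, x') v) x = -g v x' ∧ g (Jp (g, o, x, x') v) x' = g v x

/-- Job `JSm`: smoothness. -/
def JSmStmt : Prop :=
  IsOpen {d : D4 | d.1.IsInvertible ∧ 0 < pf2 (Aop d) ∧ 0 < sgm (Aop d) + 2 * √(pf2 (Aop d))} ∧
    ContDiffOn ℝ ∞ Jp
      {d : D4 | d.1.IsInvertible ∧ 0 < pf2 (Aop d) ∧ 0 < sgm (Aop d) + 2 * √(pf2 (Aop d))}

/-- The path of metrics. -/
def gs (F' : V → V) (s : ℝ) (x : V) : Bil :=
  (1 - s) • (g1 (F' x)).bilinearComp (fderiv ℝ F' x) (fderiv ℝ F' x) + s • g1 x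

/-- The path of metrics is smooth, vertical vectors have the standard length, and it is natural. -/
structure Gs (F F' : V → V) : Prop where
  sm : Sm {0}ᶜ fun (s : UI) x => gs F' s x
  ok : ∀ (σ : Symp 1) (s : UI) x, x ≠ 0 → Ok (gs F' s x) (bilL (σ.form x)) x (I • x)
  scale : ∀ (s : UI) x, x ≠ 0 → ∀ c : ℂ, c ≠ 0 → ∀ u v,
    gs F' s (c • x) (c • u) (c • v) = gs F' s x u v
  equiv : ∀ (s : UI) k x, x ≠ 0 → ∀ u v, gs F' s (hat k x) (hat k u) (hat k v) = gs F' s x u v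
  base : ∀ s : UI, gs F' s e0 = reB
  start : ∀ y, y ≠ 0 → ∀ u v, gs F' 0 (F y) (fderiv ℝ F y u) (fderiv ℝ F y v) = g1 y u v
  stop : ∀ x, gs F' 1 x = g1 x

/-- Job `Gs`. -/
def GsStmt : Prop := ∀ f F F', Lf f F F' → Gs F F'

/-- A natural choice of tamed almost complex structures. -/
structure JFam (F : V → V) (ac : Zp → Symp 1 → Symp 1) (om0 om1 : Symp 1)
    (J : Symp 1 × UI → V → Op) : Prop where
  sm : Sm {0}ᶜ J
  sq : ∀ a x, x ≠ 0 → ∀ v, J a x (J a x v) = -v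
  vert : ∀ a x, x ≠ 0 → ∀ c : ℂ, J a x (c • x) = I • c • x
  scale : ∀ a x, x ≠ 0 → ∀ c : ℂ, c ≠ 0 → ∀ v, J a (c • x) (c • v) = c • J a x v
  tame : ∀ a, Tame (fun x v => J a x v) a.1
  base : ∀ a v, J a e0 v 0 = I * v 0
  equiv : ∀ k σ s x, x ≠ 0 → ∀ v, J (ac k σ, s) (hat k x) (hat k v) = hat k (J (σ, s) x v)
  start : ∀ y, y ≠ 0 → ∀ v, J (om0, 0) (F y) (fderiv ℝ F y v) = fderiv ℝ F y (I • v)
  stop : ∀ x, x ≠ 0 → ∀ v, J (om1, 1) x v = I • v

/-- Job `JFam`. -/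
def JFamStmt : Prop :=
  ∀ f F F' ac om0 om1, Lf f F F' → Forms F' ac om0 om1 → ∃ J, JFam F ac om0 om1 J

/-- Job `Frame`: frames that depend naturally on the path of structures. -/
def FrameStmt : Prop :=
  ∀ (P : Type) [TopologicalSpace P] [CompactSpace P] (J : P × UI → V → Op), Sm {0}ᶜ J →
    (∀ a x, x ≠ 0 → ∀ v, J a x (J a x v) = -v) →
    (∀ a x, x ≠ 0 → ∀ c : ℂ, J a x (c • x) = I • c • x) →
    (∀ a x, x ≠ 0 → ∀ c : ℂ, c ≠ 0 → ∀ v, J a (c • x) (c • v) = c • J a x v) →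
    (∀ p x, x ≠ 0 → ∀ v, J (p, 1) x v = I • v) →
    ∃ φ : P × UI → Fr, FrFam φ ∧ (∀ a x, x ≠ 0 → ∀ v, (φ a).J x v = J a x v) ∧
      ∀ p p' x x' (T : Op), (∀ s v, J (p', s) x' (T v) = T (J (p, s) x v)) →
        ∀ s v, (φ (p', s)).B x' (T v) = T ((φ (p, s)).B x v)

/-! ### Lines through the base point -/

/-- Lines through the base point in the directions `C a (0, v)`. -/
structure Sys {P : Type} [TopologicalSpace P] (φ : P × UI → Fr) (C : P × UI → Op)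
    (Y : P × UI → W → W → V) : Prop where
  fr : FrFam φ
  std : ∀ p x, x ≠ 0 → ∀ v, (φ (p, 1)).J x v = I • v
  cJ : ∀ a v, C a (I • v) = (φ a).J e0 (C a v)
  c0 : ∀ p v, C (p, 0) v = v
  cb : ∀ a v, C a v 0 = v 0
  cinj : ∀ a, Function.Injective (C a)
  fam : Fam {0}ᶜ 1 V fun b : (P × UI) × ({0}ᶜ : Set W) => Y b.1 b.2
  line : ∀ a v, v ≠ 0 →
    IsLine (φ a).J (Y a v) ∧ IsEmb (Y a v) ∧ jet (Y a v) = (e0, C a (vec 0 v))

/-- Job `Key`: naturality of the lines, and the two ends. -/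
def KeyStmt : Prop :=
  UniqStmt → LinStmt → ∀ (P : Type) [TopologicalSpace P] (φ : P × UI → Fr) (C : P × UI → Op)
    (Y : P × UI → W → W → V), Sys φ C Y →
    (∀ (p p' : P) (T : V ≃L[ℂ] V) (c : ℂ) (v v' : W), T e0 = e0 →
      (∀ s x, x ≠ 0 → ∀ u, (φ (p', s)).J (T x) (T u) = T ((φ (p, s)).J x u)) →
      (∀ s u, C (p', s) (T u) = T (C (p, s) u)) → c ≠ 0 → v ≠ 0 →
      vec 0 v' = T (vec 0 (c • v)) → ∀ s q, Y (p', s) v' q = T (Y (p, s) v (q.1, c * q.2))) ∧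
    (∀ p f F F', Lf f F F' →
      (∀ y, y ≠ 0 → ∀ u, (φ (p, 0)).J (F y) (fderiv ℝ F y u) = fderiv ℝ F y (I • u)) →
      ∀ v, v ≠ 0 → Y (p, 0) v (1, 1) = vec 1 (f v)) ∧
    ∀ p, ∃ L : W →ₗ[ℂ] W, Function.Injective L ∧ ∀ v, v ≠ 0 → Y (p, 1) v (1, 1) = vec 1 (L v)

/-- A compact family of embedded homogeneous maps through the base point. -/
structure Ray {P : Type} [TopologicalSpace P] (Y : P → W → W → V) : Prop where
  fam : Fam {0}ᶜ 1 V fun b : P × ({0}ᶜ : Set W) => Y b.1 b.2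
  emb : ∀ p v, v ≠ 0 → Hom1 (Y p v) ∧ IsEmb (Y p v) ∧ ∀ q, q ≠ 0 → Y p v q ≠ 0
  base : ∀ p v, v ≠ 0 → Y p v (1, 0) = e0
  par : ∀ p v (c : ℂ), v ≠ 0 → c ≠ 0 → Y p (c • v) (1, 1) = Y p v (1, c)

/-- Job `Near0`. -/
def Near0Stmt : Prop :=
  ChordStmt → ∀ (P : Type) [TopologicalSpace P] [CompactSpace P] (Y : P → W → W → V), Ray Y →
    ∀ r : ℝ, 0 < r → ∃ τ : ℝ, 0 < τ ∧ ∀ p a x y (l : ℝ), a ≠ 0 → ‖a‖ ≤ τ → 1 < l →
      (∀ k, pr (Y p (rt k • a) (1, 1)) = pt (rt k • x)) →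
      pr (Y p ((l : ℂ) • a) (1, 1)) = pt y → ‖x‖ ≤ r ∧ ∀ μ, Chord μ → y ≠ μ • x

/-- Job `NearInf`. -/
def NearInfStmt : Prop :=
  ChordStmt → ∀ (P : Type) [TopologicalSpace P] [CompactSpace P] (Y : P → W → W → V), Ray Y →
    ∀ r : ℝ, ∃ R : ℝ, ∀ p b x y (l : ℝ), b ≠ 0 → R ≤ ‖b‖ → 0 < l → l < 1 →
      (∀ k, pr (Y p (rt k • b) (1, 1)) = pt (rt k • y)) →
      pr (Y p ((l : ℂ) • b) (1, 1)) = pt x → r ≤ ‖y‖ ∧ ∀ μ, Chord μ → y ≠ μ • x

theorem pr_smul {c : ℂ} (hc : c ≠ 0) (x : V) : pr (c • x) = pr x := by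
  funext a b
  have h : ((∑ j, ‖(c • x) j‖ ^ 2 : ℝ) : ℂ) = c * conj c * ((∑ j, ‖x j‖ ^ 2 : ℝ) : ℂ) := by
    rw [Complex.mul_conj', ← ofReal_pow, ← ofReal_mul, Finset.mul_sum]
    simp [mul_pow]
  have hc' : c * conj c ≠ 0 := mul_ne_zero hc (by simpa using hc)
  rw [pr, pr, h, ← mul_div_mul_left (x a * conj (x b)) _ hc']
  simp only [Pi.smul_apply, smul_eq_mul, map_mul]
  ring

theorem exists_smul_of_pr_eq {x y : V} (hx : x ≠ 0) (hy : y ≠ 0) (h : pr x = pr y) :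
    ∃ c : ℂ, c ≠ 0 ∧ x = c • y := by
  obtain ⟨b, hb⟩ := Function.ne_iff.1 hx
  have hb' : conj (x b) ≠ 0 := by simpa using hb
  have h1 : ((∑ j, ‖x j‖ ^ 2 : ℝ) : ℂ) ≠ 0 := ofReal_ne_zero.2 (nn_pos hx).ne'
  have h2 : ((∑ j, ‖y j‖ ^ 2 : ℝ) : ℂ) ≠ 0 := ofReal_ne_zero.2 (nn_pos hy).ne'
  have h3 : x = (conj (y b) / ((∑ j, ‖y j‖ ^ 2 : ℝ) : ℂ) * ((∑ j, ‖x j‖ ^ 2 : ℝ) : ℂ) /
      conj (x b)) • y := by
    funext a
    have h4 := congrFun (congrFun h a) b
    rw [pr, pr, div_eq_div_iff h1 h2] at h4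
    rw [Pi.smul_apply, smul_eq_mul]
    field_simp
    linear_combination h4
  exact ⟨_, fun e => hx (by rw [h3, e, zero_smul]), h3⟩

/-- A point of a chord has real part at most `cos (2 π / 37)`. -/
theorem Chord.re_le {μ : ℂ} (h : Chord μ) : μ.re ≤ Real.cos (2 * Real.pi / 37) := by
  have key : ∀ k : Zp, k ≠ 0 → (rt k).re ≤ Real.cos (2 * Real.pi / 37) := by
    intro k hk
    have h1 : rt k = exp ((2 * Real.pi * (k.val : ℝ) / 37 : ℝ) * I) := by
      rw [rt, ZMod.stdAddChar_apply, ZMod.toCircle_apply]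
      congr 1
      push_cast
      ring
    have h2 : (1 : ℝ) ≤ k.val := by exact_mod_cast Nat.pos_of_ne_zero (by simpa using hk)
    have h3 : (k.val : ℝ) ≤ 36 := by exact_mod_cast Nat.lt_succ_iff.1 k.val_lt
    have hp := Real.pi_pos
    rw [h1, exp_ofReal_mul_I_re]
    rcases le_total (2 * Real.pi * (k.val : ℝ) / 37) Real.pi with h4 | h4
    · exact Real.cos_le_cos_of_nonneg_of_le_pi (by positivity) h4 (by nlinarith)
    · rw [← Real.cos_two_pi_sub (2 * Real.pi * (k.val : ℝ) / 37)]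
      exact Real.cos_le_cos_of_nonneg_of_le_pi (by positivity) (by linarith) (by nlinarith)
  obtain ⟨k₁, k₂, u, h1, h2, hu, rfl⟩ := h
  have e : ((1 - u) * rt k₁ + u * rt k₂ : ℂ).re = (1 - u) * (rt k₁).re + u * (rt k₂).re := by simp
  rw [e]
  nlinarith [key k₁ h1, key k₂ h2, hu.1, hu.2]

theorem cos_lt_one_37 : Real.cos (2 * Real.pi / 37) < 1 := by
  rw [← Real.cos_zero]
  have hp := Real.pi_pos
  exact Real.cos_lt_cos_of_nonneg_of_le_pi le_rfl (by linarith) (by positivity)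

end Pool.Agent.MP_2fc7fa_gt.N
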