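import Pool.Agent.MP_2fc7fa_gt.N.Defs

/-! Interface statements inside part B (Gromov theory), see PROOF.md. -/

open scoped ContDiff ComplexConjugate Topology
open Set Complex Filter Metric MeasureTheory

noncomputable section

namespace Pool.Agent.MP_2fc7fa_gt.N

section
variable {E : Type} [NormedAddCommGroup E] [NormedSpace ℂ E]

/-- The Cauchy transform. -/
def cT (h : ℂ → E) (z : ℂ) : E := ∫ ζ : ℂ, ((Real.pi : ℂ) * (z - ζ))⁻¹ • h ζ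

/-- The operator `∂ / ∂ z̄`. -/
def dbar (v : ℂ → E) (z : ℂ) : E := (1 / 2 : ℂ) • (fderiv ℝ v z 1 + I • fderiv ℝ v z I)

/-- The contour integral of `v dz` along the boundary of the rectangle `[a, b] × [c, d]`. -/
def rectInt (v : ℂ → E) (a b c d : ℝ) : E :=
  (∫ x in a..b, v (x + c * I)) - (∫ x in a..b, v (x + d * I)) +
    I • (∫ y in c..d, v (b + y * I)) - I • ∫ y in c..d, v (a + y * I)

end

/-- `h` is measurable, bounded by `M` and vanishes outside the ball of radius `R` about `c`. -/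
def Bdd {E : Type} [NormedAddCommGroup E] (h : ℂ → E) (c : ℂ) (R M : ℝ) : Prop :=
  AEStronglyMeasurable h volume ∧ (∀ z, ‖h z‖ ≤ M) ∧ ∀ z, R ≤ ‖z - c‖ → h z = 0

/-- Hoelder continuity with exponent one half on a set. -/
def Hol {E : Type} [NormedAddCommGroup E] (K : ℝ) (v : ℂ → E) (S : Set ℂ) : Prop :=
  ∀ z ∈ S, ∀ z' ∈ S, ‖v z - v z'‖ ≤ K * √‖z - z'‖

/-- B1: sup norm and Hoelder bounds of the Cauchy transform of a bounded function. -/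
def T1Stmt : Prop := ∃ C : ℝ, 0 < C ∧
  ∀ (E : Type) [NormedAddCommGroup E] [NormedSpace ℂ E] [CompleteSpace E] (h : ℂ → E) (c : ℂ)
    (R M : ℝ), 0 < R → Bdd h c R M →
    (∀ z, ‖cT h z‖ ≤ C * R * M) ∧ Hol (C * √R * M) (cT h) univ

/-- B1: the Cauchy transform solves the `∂̄` equation in integrated form. -/
def T4Stmt : Prop :=
  ∀ (E : Type) [NormedAddCommGroup E] [NormedSpace ℂ E] [CompleteSpace E] (h : ℂ → E) (c : ℂ)
    (R M : ℝ), Bdd h c R M → ∀ a b c' d : ℝ, a ≤ b → c' ≤ d →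
    rectInt (cT h) a b c' d = (2 * I) • ∫ x in a..b, ∫ y in c'..d, h (x + y * I)

/-- B1: local Pompeiu formula. -/
def T2Stmt : Prop :=
  ∀ (E : Type) [NormedAddCommGroup E] [NormedSpace ℂ E] [CompleteSpace E] (h v : ℂ → E) (c : ℂ)
    (R M : ℝ) (O : Set ℂ), Bdd h c R M → IsOpen O → ContDiffOn ℝ 1 v O →
    (∀ z ∈ O, dbar v z = h z) → DifferentiableOn ℂ (fun z => v z - cT h z) O

/-- B1: the Schauder estimate. -/
def T3Stmt : Prop := ∀ R : ℝ, 0 < R → ∃ C : ℝ, 0 < C ∧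
  ∀ (E : Type) [NormedAddCommGroup E] [NormedSpace ℂ E] [CompleteSpace E] (h : ℂ → E) (c : ℂ)
    (M K : ℝ), Bdd h c R M → 0 ≤ K → Hol K h univ →
    ContDiff ℝ 1 (cT h) ∧ (∀ z, dbar (cT h) z = h z) ∧
      (∀ z, ‖fderiv ℝ (cT h) z‖ ≤ C * (M + K)) ∧ Hol (C * (M + K)) (fderiv ℝ (cT h)) univ

/-- Green's formula on rectangles for the pull-back of a smooth 1-form by a `C¹` map. -/
def GreenStmt : Prop :=
  ∀ (E F : Type) [NormedAddCommGroup E] [NormedSpace ℝ E] [FiniteDimensional ℝ E]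
    [NormedAddCommGroup F] [NormedSpace ℝ F] [CompleteSpace F]
    (β : E → E →L[ℝ] F) (Ω : Set E) (u : ℂ → E) (O : Set ℂ) (a b c d : ℝ),
    IsOpen Ω → ContDiffOn ℝ 1 β Ω → IsOpen O → ContDiffOn ℝ 1 u O → MapsTo u O Ω → a ≤ b → c ≤ d →
    (∀ x ∈ Icc a b, ∀ y ∈ Icc c d, (x + y * I : ℂ) ∈ O) →
    (∫ x in a..b, β (u (x + c * I)) (fderiv ℝ u (x + c * I) 1)) -
      (∫ x in a..b, β (u (x + d * I)) (fderiv ℝ u (x + d * I) 1)) +
      (∫ y in c..d, β (u (b + y * I)) (fderiv ℝ u (b + y * I) I)) -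
      (∫ y in c..d, β (u (a + y * I)) (fderiv ℝ u (a + y * I) I)) =
    ∫ x in a..b, ∫ y in c..d,
      (fderiv ℝ β (u (x + y * I)) (fderiv ℝ u (x + y * I) 1) (fderiv ℝ u (x + y * I) I) -
        fderiv ℝ β (u (x + y * I)) (fderiv ℝ u (x + y * I) I) (fderiv ℝ u (x + y * I) 1))

/-- `A (u z) ∘ du` is complex linear on `O`: the Cauchy-Riemann equation in a coframe `A`. -/
def CR {E : Type} [NormedAddCommGroup E] [NormedSpace ℂ E] (A : E → E →L[ℝ] E) (u : ℂ → E)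
    (O : Set ℂ) : Prop :=
  ∀ z ∈ O, A (u z) (fderiv ℝ u z I) = I • A (u z) (fderiv ℝ u z 1)

/-- A smooth coframe on the open set `Ω`. -/
def Cofr {E : Type} [NormedAddCommGroup E] [NormedSpace ℂ E] (A : E → E →L[ℝ] E) (Ω : Set E) :
    Prop :=
  IsOpen Ω ∧ ContDiffOn ℝ ∞ A Ω ∧ ∀ x ∈ Ω, Function.Injective (A x)

/-- B2: `C¹` solutions are smooth. -/
def RegStmt : Prop :=
  ∀ (E : Type) [NormedAddCommGroup E] [NormedSpace ℂ E] [FiniteDimensional ℂ E]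
    (A : E → E →L[ℝ] E) (Ω : Set E) (u : ℂ → E) (O : Set ℂ), Cofr A Ω → IsOpen O →
    ContDiffOn ℝ 1 u O → MapsTo u O Ω → CR A u O → ContDiffOn ℝ ∞ u O

/-- Lines are smooth. -/
def LineSmoothStmt : Prop :=
  ∀ (φ : Fr) (U : W → V), IsLine φ.J U → ContDiffOn ℝ ∞ U {0}ᶜ

/-- B2: a priori Lipschitz bound of the derivative, locally uniform in a family of frames. -/
def EstStmt : Prop :=
  ∀ (P : Type) [TopologicalSpace P] (φ : P → Fr) (p₀ : P) (M r : ℝ), FrFam φ → 0 < r →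
    ∃ C : ℝ, ∀ᶠ p in 𝓝 p₀, ∀ (u : ℂ → V) (c : ℂ), ContDiffOn ℝ 1 u (ball c (2 * r)) →
      CR (φ p).A u (ball c (2 * r)) →
      (∀ z ∈ ball c (2 * r), 1 ≤ M * ‖u z‖ ∧ ‖u z‖ ≤ M ∧ ‖fderiv ℝ u z‖ ≤ M) →
      ∀ z ∈ ball c r, ∀ z' ∈ ball c r, ‖fderiv ℝ u z - fderiv ℝ u z'‖ ≤ C * ‖z - z'‖

/-- B3: Hartman-Wintner on a punctured disc. -/
def HWStmt : Prop :=
  ∀ (E : Type) [NormedAddCommGroup E] [NormedSpace ℂ E] [CompleteSpace E] (v : ℂ → E) (c : ℂ)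
    (r C M : ℝ), 0 < r → ContDiffOn ℝ 1 v (ball c r \ {c}) →
    (∀ z ∈ ball c r \ {c}, ‖v z‖ ≤ M ∧ ‖dbar v z‖ ≤ C * ‖v z‖) →
    (∀ᶠ z in 𝓝[≠] c, v z = 0) ∨
      ∃ (k : ℕ) (a : E), a ≠ 0 ∧ Tendsto (fun z => ((z - c) ^ k)⁻¹ • v z) (𝓝[≠] c) (𝓝 a)

/-- B3: a section of `O(1)` that satisfies a Cauchy-Riemann inequality and has two zeros, or a
double zero, vanishes. -/
def ZeroStmt : Prop :=
  ∀ n : W → ℂ, ContDiffOn ℝ 1 n {0}ᶜ → (∀ (c : ℂ) q, n (c • q) = c * n q) →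
    (∃ C : ℝ, ∀ q, ‖q‖ = 1 → ∀ h,
      ‖fderiv ℝ n q (I • h) - I * fderiv ℝ n q h‖ ≤ C * ‖n q‖ * ‖h‖) →
    n (1, 0) = 0 → (n (0, 1) = 0 ∨ fderiv ℝ n (1, 0) (0, 1) = 0) → ∀ q, n q = 0

/-- `C¹` closeness on the unit sphere. -/
def Near (ε : ℝ) (U U' : W → V) : Prop :=
  ∀ q, ‖q‖ = 1 → ‖U q - U' q‖ ≤ ε ∧ ‖fderiv ℝ U q - fderiv ℝ U' q‖ ≤ ε

/-- `C¹` convergence. -/
def Conv (U : ℕ → W → V) (U' : W → V) : Prop := ∀ ε : ℝ, 0 < ε → ∀ᶠ n in atTop, Near ε (U n) U'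

/-- The two kinds of constraints: the jet at `(1, 0)`, or the values at `(1, 0)` and `(0, 1)`. -/
def con (b : Bool) (U : W → V) : V × V := if b then (U (1, 0), U (0, 1)) else jet U

/-- Being embedded is an open condition. -/
def EmbOpenStmt : Prop :=
  ∀ U₀ : W → V, ContDiffOn ℝ 1 U₀ {0}ᶜ → (∀ (c : ℂ) q, U₀ (c • q) = c • U₀ q) →
    (∀ q, q ≠ 0 → U₀ q ≠ 0) → IsEmb U₀ → ∃ ε : ℝ, 0 < ε ∧ ∀ U : W → V, ContDiffOn ℝ 1 U {0}ᶜ →
      (∀ (c : ℂ) q, U (c • q) = c • U q) → Near ε U U₀ → IsEmb U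

/-- B4: the kernel of the linearised operator with constraints is trivial. Here `η` is the
variation `ξ = δU` itself and the hypothesis is the derivative of the equation
`A (U) dU (I h) = I A (U) dU h` in the direction `ξ`. -/
def KerStmt : Prop :=
  ∀ (φ : Fr) (U ξ : W → V) (b : Bool), IsLine φ.J U → IsEmb U → ContDiffOn ℝ 1 ξ {0}ᶜ →
    (∀ (c : ℂ) q, ξ (c • q) = c • ξ q) →
    (∀ q, q ≠ 0 → ∀ h,
      fderiv ℝ φ.A (U q) (ξ q) (fderiv ℝ U q (I • h)) + φ.A (U q) (fderiv ℝ ξ q (I • h)) =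
      I • (fderiv ℝ φ.A (U q) (ξ q) (fderiv ℝ U q h) + φ.A (U q) (fderiv ℝ ξ q h))) →
    con b ξ = 0 → ∀ q, ξ q = 0

/-- B4: the implicit function theorem for embedded lines. -/
def IFTStmt : Prop :=
  ∀ (P : Type) [TopologicalSpace P] (φ : P → Fr) (p₀ : P) (U₀ : W → V) (b : Bool), FrFam φ →
    IsLine (φ p₀).J U₀ → IsEmb U₀ →
    ∃ N ∈ 𝓝 (p₀, con b U₀), ∃ ε : ℝ, 0 < ε ∧ ∃ S : P × (V × V) → W → V,
      Fam {0}ᶜ 1 V (fun a : N => S a) ∧ S (p₀, con b U₀) = U₀ ∧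
      (∀ a ∈ N, IsLine (φ a.1).J (S a) ∧ IsEmb (S a) ∧ con b (S a) = a.2) ∧
      ∀ a ∈ N, ∀ U, IsLine (φ a.1).J U → con b U = a.2 → Near ε U U₀ → U = S a

/-- The energy density of `u : ℂ → ℂ³ ∖ 0`. -/
def dens (σ : Symp 1) (u : ℂ → V) (z : ℂ) : ℝ := σ.form (u z) ![fderiv ℝ u z 1, fderiv ℝ u z I]

/-- B5: the energy of a line. -/
def EnLineStmt : Prop :=
  ∀ (φ : Fr) (σ : Symp 1) (U : W → V), IsLine φ.J U →
    Integrable (dens σ fun z => U (1, z)) ∧ ∫ z, dens σ (fun z => U (1, z)) z = 2 * Real.pi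

/-- B5: quantisation of the energy of entire curves. -/
def EnPlaneStmt : Prop :=
  ∀ (φ : Fr) (σ : Symp 1) (u : ℂ → V), Tame φ.J σ → ContDiff ℝ 1 u → (∀ z, u z ≠ 0) →
    CR φ.A u univ → Integrable (dens σ u) → ∃ k : ℤ, ∫ z, dens σ u z = 2 * Real.pi * k

/-- B6: compactness modulo reparametrisation. -/
def CompactStmt : Prop :=
  ∀ (P : Type) [TopologicalSpace P] (φ : P → Fr) (om : P → Symp 1) (p : ℕ → P) (p₀ : P)
    (U : ℕ → W → V), FrFam φ → Continuous om → (∀ a, Tame (φ a).J (om a)) →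
    Tendsto p atTop (𝓝 p₀) → (∀ n, IsLine (φ (p n)).J (U n)) →
    ∃ (ψ : ℕ → ℕ) (g : ℕ → W ≃L[ℂ] W) (U' : W → V), StrictMono ψ ∧ IsLine (φ p₀).J U' ∧
      Conv (fun n => U (ψ n) ∘ g n) U'

/-- Degree theory: a map with finitely many zeros, at least one, all with invertible complex
linear derivative, cannot be deformed to a map without zeros through maps without zeros on the
frontier. -/
def DegStmt : Prop :=
  ∀ (E : Type) [NormedAddCommGroup E] [NormedSpace ℂ E] [FiniteDimensional ℂ E] (K : Set E)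
    (H : ℝ → E → E), IsCompact K → ContinuousOn (fun a : ℝ × E => H a.1 a.2) (Icc 0 1 ×ˢ K) →
    (∀ s ∈ Icc (0 : ℝ) 1, ∀ x ∈ frontier K, H s x ≠ 0) →
    {x ∈ K | H 1 x = 0}.Finite → {x ∈ K | H 1 x = 0}.Nonempty →
    (∀ x ∈ K, H 1 x = 0 → ∃ L : E ≃L[ℂ] E,
      HasFDerivAt (H 1) ((L : E →L[ℂ] E).restrictScalars ℝ) x) →
    ∃ x ∈ K, H 0 x = 0

/-- B7: the difference lemma, in a two-dimensional chart. `x` solves the Cauchy-Riemann equation,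
`x'` moves in complex lines of slope at most `S`, and their difference is vertical. -/
def DiffStmt : Prop :=
  ∀ (A : W → W →L[ℝ] W) (Ω K : Set W) (S M : ℝ), Cofr A Ω → IsCompact K → Convex ℝ K → K ⊆ Ω →
    ∃ C : ℝ, ∀ (x x' : ℂ → W) (z : ℂ), DifferentiableAt ℝ x z → DifferentiableAt ℝ x' z →
      x z ∈ K → x' z ∈ K → ‖fderiv ℝ x z‖ ≤ M → ‖fderiv ℝ x' z‖ ≤ M → CR A x {z} →
      (∃ l : ℂ, ‖l‖ ≤ S ∧ ∀ h, (A (x' z) (fderiv ℝ x' z h)).2 = l * (A (x' z) (fderiv ℝ x' z h)).1) →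
      (∀ᶠ t in 𝓝 z, (A (x t) (x' t - x t)).1 = 0) →
      ‖dbar (fun t => (A (x t) (x' t - x t)).2) z‖ ≤ C * ‖(A (x z) (x' z - x z)).2‖

/-- B7: an intersection of an immersed branch with another curve persists, unless the second
curve is locally contained in the first. -/
def PersistStmt : Prop :=
  ∀ (A : W → W →L[ℝ] W) (Ω : Set W) (u w : ℂ → W) (z₀ ζ₀ : ℂ) (r : ℝ), Cofr A Ω → 0 < r →
    ContDiffOn ℝ ∞ u (ball z₀ r) → ContDiffOn ℝ ∞ w (ball ζ₀ r) → MapsTo u (ball z₀ r) Ω →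
    MapsTo w (ball ζ₀ r) Ω → CR A u (ball z₀ r) → CR A w (ball ζ₀ r) → u z₀ = w ζ₀ →
    fderiv ℝ u z₀ 1 ≠ 0 →
    (∀ᶠ ζ in 𝓝 ζ₀, w ζ ∈ u '' ball z₀ r) ∨
      (∃ δ' : ℝ, 0 < δ' ∧ ∀ᶠ ζ in 𝓝[≠] ζ₀, w ζ ∉ u '' ball z₀ δ') ∧
      ∀ δ : ℝ, 0 < δ → ∃ ε : ℝ, 0 < ε ∧ ∀ u' w' : ℂ → W, ContinuousOn u' (ball z₀ r) →
        ContinuousOn w' (ball ζ₀ r) → (∀ z ∈ ball z₀ r, ‖u' z - u z‖ ≤ ε) →
        (∀ ζ ∈ ball ζ₀ r, ‖w' ζ - w ζ‖ ≤ ε) → ∃ z ∈ ball z₀ δ, ∃ ζ ∈ ball ζ₀ δ, u' z = w' ζ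

/-- B7: an injective limit of embedded curves has no cusp. -/
def CuspStmt : Prop :=
  ∀ (A : W → W →L[ℝ] W) (An : ℕ → W → W →L[ℝ] W) (Ω : Set W) (u : ℂ → W) (un : ℕ → ℂ → W)
    (r : ℝ), Cofr A Ω → (∀ n, Cofr (An n) Ω) → TendstoLocallyUniformlyOn An A atTop Ω → 0 < r →
    ContDiffOn ℝ ∞ u (ball 0 r) → MapsTo u (ball 0 r) Ω → CR A u (ball 0 r) →
    InjOn u (ball 0 r) →
    (∀ n, ContDiffOn ℝ 1 (un n) (ball 0 r) ∧ MapsTo (un n) (ball 0 r) Ω ∧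
      CR (An n) (un n) (ball 0 r) ∧ InjOn (un n) (ball 0 r) ∧
      ∀ z ∈ ball (0 : ℂ) r, fderiv ℝ (un n) z 1 ≠ 0) →
    TendstoUniformlyOn un u atTop (ball 0 r) →
    TendstoUniformlyOn (fun n => fderiv ℝ (un n)) (fderiv ℝ u) atTop (ball 0 r) →
    fderiv ℝ u 0 1 ≠ 0

end Pool.Agent.MP_2fc7fa_gt.N
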