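import Pool.Agent.MP_2fc7fa_gt.N.IfB

/-! Interface statements for the continuity method (PROOF.md, B7 and B8). -/

open scoped ContDiff ComplexConjugate Topology
open Set Complex Filter Metric

noncomputable section

namespace Pool.Agent.MP_2fc7fa_gt.N

/-- The affine chart number `a`. -/
def ch (a : Fin 3) (x : V) : W := (x (a + 1) / x a, x (a + 2) / x a)

/-- The vector with coordinate `c` at `a` and the coordinates of `y` at the other places. -/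
def unch (a : Fin 3) (c : ℂ) (y : W) : V := fun j => if j = a then c else if j = a + 1 then y.1 else y.2

/-- A coframe `A` on the chart number `a` that is induced by the frame `φ`. -/
def IsChart (φ : Fr) (a : Fin 3) (A : W → W →L[ℝ] W) : Prop :=
  ∀ y h, A y h =
    (φ.A (unch a 1 y) (unch a 0 h) (a + 1) - φ.A (unch a 1 y) (unch a 0 h) a * y.1,
      φ.A (unch a 1 y) (unch a 0 h) (a + 2) - φ.A (unch a 1 y) (unch a 0 h) a * y.2)

/-- Passage to an affine chart. -/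
def ChartStmt : Prop :=
  (∀ (φ : Fr) (a : Fin 3), ∃ A, IsChart φ a A) ∧
  (∀ (φ : Fr) (a : Fin 3) A, IsChart φ a A → Cofr A univ ∧
    ∀ (u : ℂ → V) (z : ℂ), DifferentiableAt ℝ u z → u z a ≠ 0 → CR φ.A u {z} →
      CR A (ch a ∘ u) {z} ∧ (fderiv ℝ (ch a ∘ u) z 1 = 0 ↔ ∃ c : ℂ, fderiv ℝ u z 1 = c • u z)) ∧
  ∀ (P : Type) [TopologicalSpace P] (φ : P → Fr) (p : ℕ → P) (p₀ : P) (a : Fin 3)
    (An : ℕ → W → W →L[ℝ] W) (A : W → W →L[ℝ] W), FrFam φ → Tendsto p atTop (𝓝 p₀) →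
    (∀ n, IsChart (φ (p n)) a (An n)) → IsChart (φ p₀) a A →
    TendstoLocallyUniformlyOn An A atTop univ

/-- `S` is contained in finitely many complex lines through the origin. -/
def FewLines (S : Set W) : Prop := ∃ F : Set W, F.Finite ∧ ∀ q ∈ S, ∃ f ∈ F, ∃ c : ℂ, q = c • f

/-- A line has finitely many critical points and finite fibres. -/
def FinStmt : Prop :=
  ∀ (φ : Fr) (U : W → V), IsLine φ.J U →
    FewLines {q | ¬ Function.Injective (fderiv ℝ U q)} ∧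
      ∀ x : V, FewLines {q | ∃ c : ℂ, U q = c • x}

/-- A homogeneous `C¹` map. -/
def Hom1 (U : W → V) : Prop := ContDiffOn ℝ 1 U {0}ᶜ ∧ ∀ (c : ℂ) q, U (c • q) = c • U q

/-- Persistence of intersections of lines. -/
def GPersistStmt : Prop :=
  ∀ (φ : Fr) (U w : W → V) (q₀ r₀ : W), IsLine φ.J U → IsLine φ.J w → q₀ ≠ 0 → r₀ ≠ 0 →
    U q₀ = w r₀ → Function.Injective (fderiv ℝ U q₀) → ∀ δ : ℝ, 0 < δ →
    (∀ᶠ r in 𝓝 r₀, w r ∈ U '' ball q₀ δ) ∨
      (∃ δ' : ℝ, 0 < δ' ∧ ∀ᶠ r in 𝓝 r₀, w r ∈ U '' ball q₀ δ' → ∃ c : ℂ, r = c • r₀) ∧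
      ∃ ε : ℝ, 0 < ε ∧ ∀ U' w', Hom1 U' → Hom1 w' → Near ε U' U → Near ε w' w →
        ∃ q ∈ ball q₀ δ, ∃ r ∈ ball r₀ δ, U' q = w' r

/-- The two maps meet only along the line through `(1, 0)`. -/
def OnlyAt (U w : W → V) : Prop := ∀ q r, q ≠ 0 → r ≠ 0 → U q = w r → q.2 = 0

/-- A unique transverse intersection stays unique. -/
def TransStmt : Prop :=
  ∀ (U w : W → V), Hom1 U → Hom1 w → (∀ q, q ≠ 0 → U q ≠ 0) → (∀ q, q ≠ 0 → w q ≠ 0) →
    IsEmb U → IsEmb w → U (1, 0) = w (1, 0) → OnlyAt U w →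
    (∀ (h : ℂ) (k : W), fderiv ℝ U (1, 0) (0, h) = fderiv ℝ w (1, 0) k → h = 0) →
    ∃ ε : ℝ, 0 < ε ∧ ∀ U' w', Hom1 U' → Hom1 w' → Near ε U' U → Near ε w' w →
      U' (1, 0) = w' (1, 0) → OnlyAt U' w'

/-- The structure at time `1` is the standard one. -/
def Std (φ : UI → Fr) : Prop := ∀ x, x ≠ 0 → ∀ v, (φ 1).J x v = I • v

/-- A continuous family of embedded lines with all jets along a path. -/
def Good (φ : UI → Fr) (U : UI × Jet → W → V) : Prop :=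
  Fam {0}ᶜ 1 V U ∧ ∀ a, IsLine (φ a.1).J (U a) ∧ IsEmb (U a) ∧ jet (U a) = a.2

/-- A continuous family of embedded lines with a given jet along a path. -/
def Lift (φ : UI → Fr) (j : V × V) (u : UI → W → V) : Prop :=
  Fam {0}ᶜ 1 V u ∧ ∀ s, IsLine (φ s).J (u s) ∧ IsEmb (u s) ∧ jet (u s) = j

/-- The family is closed under reparametrisation. -/
def CStmt : Prop :=
  ∀ φ U, FrFam φ → Std φ → Good φ U → ∀ (s : UI) (j : Jet) (g : W ≃L[ℂ] W),
    ∃ j' : Jet, U (s, j) ∘ g = U (s, j')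

/-- Two lines of the family with two common points have the same image. -/
def H2Stmt : Prop :=
  ∀ φ U, FrFam φ → Std φ → Good φ U → ∀ (s : UI) (j j' : Jet) (q q' r r' : W), q ≠ 0 → q' ≠ 0 →
    U (s, j) q = U (s, j') r → U (s, j) q' = U (s, j') r' →
    (∃ c : ℂ, q' = c • q) ∨ range (U (s, j)) = range (U (s, j'))

/-- Two points lie on a line of the family. -/
def H1Stmt : Prop :=
  ∀ φ U, FrFam φ → Std φ → Good φ U → ∀ (s : UI) (x y : V), x ≠ 0 → (∀ c : ℂ, y ≠ c • x) →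
    ∃ j : Jet, U (s, j) (1, 0) = x ∧ y ∈ range (U (s, j))

/-- Lifts depend continuously on parameters. -/
def JointStmt : Prop :=
  ∀ (P : Type) [TopologicalSpace P] (φ : P × UI → Fr) (U : (P × UI) × Jet → W → V), FrFam φ →
    (∀ p, Std fun s => φ (p, s)) →
    (∀ p (j : Jet), Lift (fun s => φ (p, s)) j fun s => U ((p, s), j)) → Fam {0}ᶜ 1 V U

/-- A limit of embedded lines is embedded, if the approximating structures have enough lines. -/
def EmbLimitStmt : Prop :=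
  ∀ (P : Type) [TopologicalSpace P] (φ : P → Fr) (om : P → Symp 1) (p : ℕ → P) (p₀ : P)
    (U : ℕ → W → V) (U' : W → V), FrFam φ → Continuous om → (∀ a, Tame (φ a).J (om a)) →
    Tendsto p atTop (𝓝 p₀) → (∀ n, IsLine (φ (p n)).J (U n) ∧ IsEmb (U n)) →
    IsLine (φ p₀).J U' → Conv U U' →
    (∀ n (x y : V), x ≠ 0 → (∀ c : ℂ, y ≠ c • x) → ∃ w, IsLine (φ (p n)).J w ∧
      x ∈ range w ∧ y ∈ range w ∧ ∀ q q' r r' : W, q ≠ 0 → q' ≠ 0 → U n q = w r → U n q' = w r' →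
        (∃ c : ℂ, q' = c • q) ∨ y ∈ range (U n)) →
    IsEmb U'

/-- If lines with a fixed jet converge to an embedded line after reparametrisation, they converge
without reparametrisation. -/
def ConvJetStmt : Prop :=
  ∀ (P : Type) [TopologicalSpace P] (φ : P → Fr) (p : ℕ → P) (p₀ : P) (U : ℕ → W → V)
    (g : ℕ → W ≃L[ℂ] W) (U' : W → V) (j : V × V), FrFam φ → Tendsto p atTop (𝓝 p₀) → j ∈ Jet →
    (∀ n, IsLine (φ (p n)).J (U n) ∧ jet (U n) = j) → IsLine (φ p₀).J U' → IsEmb U' →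
    Conv (fun n => U n ∘ g n) U' →
    ∃ (ψ : ℕ → ℕ) (U'' : W → V), StrictMono ψ ∧ IsLine (φ p₀).J U'' ∧ IsEmb U'' ∧ jet U'' = j ∧
      Conv (fun n => U (ψ n)) U''

/-- All jets have lifts along the path stopped at `s₀`. -/
def Reach (φ : UI → Fr) (s₀ : UI) : Prop := ∀ j ∈ Jet, ∃ u, Lift (fun s => φ (max s s₀)) j u

def OpenStmt : Prop :=
  ∀ φ, FrFam φ → Std φ → ∀ s₀, Reach φ s₀ → ∃ δ : ℝ, 0 < δ ∧ ∀ s₁ : UI, (s₀ : ℝ) - δ < s₁ → Reach φ s₁

def ClosedStmt : Prop :=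
  ∀ (φ : UI → Fr) (om : UI → Symp 1), FrFam φ → Continuous om → (∀ a, Tame (φ a).J (om a)) →
    Std φ → ∀ s₀ : UI, s₀ < 1 → (∀ s₁, s₀ < s₁ → Reach φ s₁) → Reach φ s₀

/-- The chord lemma for a compact family of embedded homogeneous maps: a point of the image that
lies on the chord between two nearby points, in the affine chart `l = 1`, comes from a point close
to the chord between their parameters. The parameters are taken on the affine line `q₀ + z h`. -/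
def ChordStmt : Prop :=
  ∀ (P : Type) [TopologicalSpace P] [CompactSpace P] (U : P → W → V) (q₀ h : W),
    Fam {0}ᶜ 1 V U → (∀ p, Hom1 (U p) ∧ IsEmb (U p) ∧ ∀ q, q ≠ 0 → U p q ≠ 0) → det2 q₀ h ≠ 0 →
    ∀ η : ℝ, 0 < η → ∀ m : ℝ, 0 < m → ∃ δ : ℝ, 0 < δ ∧ ∀ (p : P) (l : V →L[ℂ] ℂ) (z z₁ z₂ : ℂ) (u : ℝ),
      ‖l‖ ≤ 1 → m ≤ ‖l (U p q₀)‖ → ‖z₁‖ ≤ δ → ‖z₂‖ ≤ δ → u ∈ Icc (0 : ℝ) 1 →
      (∃ c : ℂ, c • U p (q₀ + z • h) = ((1 - u : ℝ) : ℂ) • (l (U p (q₀ + z₁ • h)))⁻¹ • U p (q₀ + z₁ • h) +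
        (u : ℂ) • (l (U p (q₀ + z₂ • h)))⁻¹ • U p (q₀ + z₂ • h)) →
      ‖z - (((1 - u : ℝ) : ℂ) * z₁ + u * z₂)‖ ≤ η * ‖z₁ - z₂‖

end Pool.Agent.MP_2fc7fa_gt.N
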