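import Pool.Agent.MP_2fc7fa_gt.N.Defs

/-! Definitions for part C (cochains, lattice evaluation, the counting cochain). -/

open scoped ComplexConjugate Topology
open Set Complex Filter

noncomputable section

namespace Pool.Agent.MP_2fc7fa_gt.N

/-- Cochains: functions of sequences. -/
abbrev Co (D R : Type) : Type := (ℕ → D) → R

abbrev Pt : Type := ℕ → ℝ

/-- Put `a` in front of a sequence. -/
def cons {α : Type} (a : α) (x : ℕ → α) : ℕ → α
  | 0 => a
  | j + 1 => x j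

/-- Insert `a` at the place `i`. -/
def ins {α : Type} (i : ℕ) (a : α) (x : ℕ → α) : ℕ → α :=
  fun j => if j < i then x j else if j = i then a else x (j - 1)

/-- Drop the first `m` entries. -/
def shift {α : Type} (m : ℕ) (x : ℕ → α) : ℕ → α := fun j => x (j + m)

section
variable {D D' R : Type} [CommRing R]

/-- The coboundary, of degree `n`, of a cochain of degree `n - 1`. -/
def dd (n : ℕ) (c : Co D R) : Co D R :=
  fun x => ∑ i ∈ Finset.range (n + 1), (-1) ^ i * c (skip i x)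

/-- The cup product; `a` has degree `n`. -/
def cup (n : ℕ) (a b : Co D R) : Co D R := fun x => a x * b (shift n x)

/-- Pull-back. -/
def pb (φ : D' → D) (c : Co D R) : Co D' R := fun x => c fun j => φ (x j)

/-- `c` has degree `n`. -/
def Dg (n : ℕ) (c : Co D R) : Prop := ∀ x y, (∀ j, j ≤ n → x j = y j) → c x = c y

/-- `c` is normalised. -/
def Nm (n : ℕ) (c : Co D R) : Prop := ∀ x j, j < n → x j = x (j + 1) → c x = 0

/-- `c` is locally zero. -/
def LZ (c : Co D R) (F : Filter D) : Prop := ∃ U ∈ F, ∀ x, (∀ j, x j ∈ U) → c x = 0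

def prism (α β : D → D') (j : ℕ) (x : ℕ → D) : ℕ → D' :=
  fun i => if i ≤ j then α (x i) else β (x (i - 1))

/-- The prism operator on cochains of degree `n`. -/
def pris (α β : D → D') (n : ℕ) (c : Co D' R) : Co D R :=
  fun x => ∑ j ∈ Finset.range n, (-1) ^ j * c (prism α β j x)

/-- Integration of a cochain of degree `n` along the first coordinate, with mesh `1 / M`. -/
def PP (M n : ℕ) (c : Co Pt R) : Co Pt R :=
  fun x => ∑ k ∈ Finset.range M, pris (cons ((k : ℝ) / M)) (cons (((k : ℝ) + 1) / M)) n c x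

/-- Evaluation of a cochain of degree `n` on the triangulated cube of dimension `n`. -/
def II (M : ℕ) : ℕ → Co Pt R → R
  | 0, c => c fun _ _ => 0
  | n + 1, c => II M n (PP M (n + 1) c)

end

/-- All entries lie in the cube. -/
def InC (x : ℕ → Pt) : Prop := ∀ j, x j ∈ cube

/-- The first `m` coordinates. -/
def res (m : ℕ) (q : Pt) : Fin m → ℝ := fun j => q j

def cubeF (m : ℕ) : Set (Fin m → ℝ) := {x | ∀ j, x j ∈ Icc (0 : ℝ) 1}

/-- A Thom cochain of degree `m`. -/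
structure Thom {E : Type} [TopologicalSpace E] [Zero E] (m : ℕ) (ω : Co E ℤ) : Prop where
  dg : Dg m ω
  closed : dd (m + 1) ω = 0
  lz : ∀ e, e ≠ 0 → LZ ω (𝓝 e)

/-- The value of a Thom cochain on the image of the centred cube under `A`. -/
def ldeg {E : Type} (m : ℕ) (ω : Co E ℤ) (A : (Fin m → ℝ) → E) (M : ℕ) : ℤ :=
  II M m (pb (fun q => A (res m q - fun _ => 1 / 2)) ω)

/-- The jump cocycle on the line. -/
def dH : Co ℝ ℤ := fun x => (if 0 < x 1 then 1 else 0) - if 0 < x 0 then 1 else 0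

/-- The number of the sector that contains `z`. -/
def sec (z : ℂ) : Zp := ((⌊37 * arg z / (2 * Real.pi)⌋ : ℤ) : Zp)

/-- The integral cocycle of degree two on `ZMod 37`. -/
def tc : Co Zp ℤ := fun x =>
  ((x 1 - x 0).valMinAbs + (x 2 - x 1).valMinAbs - (x 2 - x 0).valMinAbs) / 37

/-- The cup product of the cocycles of a list of functions. -/
def cups {D : Type} : List (D → Zp) → Co D ℤ
  | [] => fun _ => 1
  | φ :: l => cup 2 (pb φ tc) (cups l)

/-- Evaluation on the cycle `∑ [1|i₁|1|i₂|...]`. -/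
def cyc : ℕ → Co Zp Zp → Zp
  | 0, a => a 0
  | n + 1, a => cyc n fun σ => ∑ i : Zp, a (cons 0 (cons 1 fun j => 1 + i + σ j))

/-- The first index `i < n` with `t i ≤ 1 / 2`, or `n`. -/
def idx : ℕ → Pt → ℕ
  | 0, _ => 0
  | n + 1, t => if t 0 ≤ 1 / 2 then 0 else idx n (shift 1 t) + 1

/-- The Thom cochain on `ℂ × ℝ`. -/
def th3 : Co (ℂ × ℝ) ℤ := cup 2 (pb (fun e => sec e.1) tc) (pb Prod.snd dH)

/-- The Thom cochain on `ℂ × ℝ × ℂ × ℝ`. -/
def th6 : Co (ℂ × ℝ × ℂ × ℝ) ℤ :=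
  cup 3 (pb (fun e => (e.1, e.2.1)) th3) (pb (fun e => e.2.2) th3)

/-! ### Pairs of points -/

/-- The coefficient of the orthogonal projection of `e.2` on the line through `e.1`. -/
def lam (e : W × W) : ℂ := (e.2.1 * conj e.1.1 + e.2.2 * conj e.1.2) / (nsq e.1 : ℂ)

/-- `l = sa m l * ee m + sb m l * ee (m + 1)`. -/
def sa (m : ℤ) (l : ℂ) : ℝ := -(l * conj (ee (m + 1))).im / Real.sin (2 * Real.pi / 37)

def sb (m : ℤ) (l : ℂ) : ℝ := (l * conj (ee m)).im / Real.sin (2 * Real.pi / 37)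

/-- The function that cuts out the arc (`κ = 1`) or the chord (`κ = 0`). -/
def FF (κ : W × W → ℝ) (m : ℤ) (e : W × W) : ℝ :=
  κ e * (nsq e.2 - nsq e.1) + (1 - κ e) * (sa m (lam e) + sb m (lam e) - 1)

def inS (m : ℤ) (e : W × W) : Prop := 0 < sa m (lam e) ∧ 0 < sb m (lam e)

open Classical in
def eta (κ : W × W → ℝ) (m : ℤ) : Co (W × W) ℤ :=
  fun x => if inS m (x 0) ∧ inS m (x 1) then pb (FF κ m) dH x else 0

def phm (e : (W × W) × Zp) : Zp := if det2 e.1.1 e.1.2 = 0 then 2 * e.2 else sec (det2 e.1.1 e.1.2)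

/-- The cochain of degree three dual to an arc. -/
def yy (κ : W × W → ℝ) (m : ℤ) : Co ((W × W) × Zp) ℤ :=
  cup 2 (pb phm tc) (pb Prod.fst (eta κ m))

/-- The support of `yy`. -/
def CC (κ : W × W → ℝ) (m : ℤ) (e : W × W) : Prop :=
  ∃ a b : ℝ, 0 ≤ a ∧ 0 ≤ b ∧ e.2 = (a * ee m + b * ee (m + 1)) • e.1 ∧
    κ e * (nsq e.2 - nsq e.1) + (1 - κ e) * (a + b - 1) = 0

def k1 (e : W × W) : ℝ := max 0 (min 1 (10000 * nsq e.1 - 1))

def k2 (e : W × W) : ℝ := max 0 (min 1 (2 - nsq e.2 / 10000))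

/-- The cochain of degree six on triples. -/
def y6 : Co ((Fin 3 → W) × Zp) ℤ :=
  cup 3 (pb (fun e => ((e.1 0, e.1 2), e.2)) (yy k1 (-3)))
    (pb (fun e => ((e.1 1, e.1 2), e.2)) (yy k2 6))

/-! ### The data space -/

abbrev Zz : Type := Fin 3 → Zp → Mat

abbrev Dt : Type := Zz × Zp × Zp

abbrev Jx : Type := (Fin 3 × Fin 3 × Fin 3) × {n : Zp // n ≠ 0}

def act2 (k l : Zp) (d : Dt) : Dt :=
  (fun i g => actM k (d.1 i (g - k + l)), d.2.1 + k, d.2.2 + l)

/-- Fourier coordinates. -/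
def xi (j : Jx) (z : Zz) : ℂ :=
  ∑ g : Zp, rt (-(g * (wt j.1.2.1 - wt j.1.2.2 + j.2))) * z j.1.1 g j.1.2.1 j.1.2.2

def ph (j : Jx) (d : Dt) : Zp :=
  if xi j d.1 = 0 then -(j.2 * d.2.1) + (wt j.1.2.1 - wt j.1.2.2 + j.2) * d.2.2 else sec (xi j d.1)

def jl : List Jx := Finset.univ.toList

/-- The degree of the Euler cochain. -/
def NN : ℕ := 2 * jl.length

def EE : Co Dt ℤ := cups (jl.map ph)

def aff (P : Mat) : W := (P 1 0 / P 0 0, P 2 0 / P 0 0)

def rho (d : Dt) : (Fin 3 → W) × Zp :=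
  (fun i => aff (actM (-(d.2.1 - d.2.2)) (d.1 i (d.2.1 - d.2.2))), d.2.2)

/-- The counting cochain, of degree `NN + 6`. -/
def WW : Co Dt ℤ := cup 6 (pb rho y6) EE

/-- The three families are orbits of the points `x i` of the affine chart. -/
def Orb (z : Zz) (x : Fin 3 → W) : Prop := ∀ i g, z i g = pt (rt g • x i)

/-! ### The parameter cubes -/

def vv (z₀ : W) (k : Zp) (p : Fin 6 → ℝ) : W :=
  ((2 * (1 - p 0) : ℝ) * ee (p 1 - 1 / 2) * z₀.1, (2 * p 0 : ℝ) * rt k * ee (p 2 - 1 / 2) * z₀.2)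

/-- The three heights. -/
def hh (T δ : ℝ) (p : Fin 6 → ℝ) : Fin 3 → ℝ :=
  ![-T + 2 * T * p 3, -T + 2 * T * p 3 + 2 * T * p 4,
    -T + 2 * T * p 3 + 2 * T * p 4 + δ + 2 * T * p 5]

def aa (z₀ : W) (T δ : ℝ) (k : Zp) (p : Fin 6 → ℝ) (i : Fin 3) : W :=
  Real.exp (hh T δ p i) • vv z₀ k p

def bb (k : Zp) (p : Fin 6 → ℝ) : Zp :=
  if p 0 = 1 then k + (if p 2 = 1 then 1 else 0) else if p 1 = 1 then 1 else 0

/-- The list of the first `n + 1` entries. -/
def lst (n : ℕ) (σ : ℕ → Zp) : List Zp := (List.range (n + 1)).map σ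

/-- The map from the big cube to the data space. Coordinate `0` is the time, the next six are the
parameters of the triple, the others belong to the simplex. -/
def Psi {N : ℕ} {f : W → W} (L : LineFamily N f) (z₀ : W) (T δ : ℝ) (n : ℕ) (σ : ℕ → Zp) (k : Zp)
    (q : Pt) : Dt :=
  (fun i g => L.H (lst n σ) (shift 7 q) (q 0) (rt g • aa z₀ T δ k (res 6 (shift 1 q)) i),
    σ (idx n (shift 7 q)), bb k (res 6 (shift 1 q)))

/-- The support of the counting cochain. -/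
def Hit (z : Zz) : Prop :=
  ∃ x : Fin 3 → W, Orb z x ∧ (∀ i, x i ≠ 0) ∧ CC k1 (-3) (x 0, x 2) ∧ CC k2 6 (x 1, x 2)

/-- Properties of data that come from maps that are injective on complex lines. -/
def Rg (z : Zz) : Prop :=
  (∀ i g, ∃ x : V, x ≠ 0 ∧ z i g = pr x) ∧ (∀ i, z i 1 ≠ z i 0) ∧
    ∀ g, z 2 0 ≠ z 0 g ∧ z 2 0 ≠ z 1 g

/-- The cochain on the six-dimensional cube at time `0`. -/
def omq (f : W → W) (z₀ : W) (T δ : ℝ) (k : Zp) : Co (Fin 6 → ℝ) ℤ :=
  pb (fun p => (fun i => f (aa z₀ T δ k p i), bb k p)) y6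

/-- The Euler cochain on the group. -/
def E0 : Co Zp ℤ := cups (jl.map fun j γ => -(j.2 * γ))

end Pool.Agent.MP_2fc7fa_gt.N
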