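import Pool.Agent.MP_2fc7fa_gt.N.Defs

/-! Interface of part F: the explicit equivariant diffeomorphism of `ℂ²`. -/

open scoped ContDiff Topology
open Set

noncomputable section

namespace Pool.Agent.MP_2fc7fa_gt.N.Fp

/-- Model coordinates `(ξ, a, b, w)`, and chart coordinates `(θ, re η, im η, ρ)`. -/
abbrev P4 : Type := ℝ × ℝ × ℝ × ℝ

/-- Unknowns `(t, ζ₁, ζ₂, w', w, wb)` of the reduced system. -/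
abbrev E6 : Type := ℝ × ℝ × ℝ × ℝ × ℝ × ℝ

def St (x : ℝ) : ℝ := Real.smoothTransition x

/-- Rotation about the first axis. -/
def rX (t : ℝ) (p : P4) : P4 :=
  (p.1, Real.cos t * p.2.1 - Real.sin t * p.2.2.1, Real.sin t * p.2.1 + Real.cos t * p.2.2.1,
    p.2.2.2)

/-- Rotation of the plane of the first two coordinates. -/
def rP (t : ℝ) (p : P4) : P4 :=
  (Real.cos t * p.1 - Real.sin t * p.2.1, Real.sin t * p.1 + Real.cos t * p.2.1, p.2.2.1, p.2.2.2)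

/-- Rotation by `t` about the axis `(cos φ, sin φ, 0)`. -/
def rN (φ t : ℝ) (p : P4) : P4 := rP φ (rX t (rP (-φ) p))

def sh (c : ℝ) (p : P4) : P4 := (p.1 + c, p.2)

def qq (c : ℝ) (p : P4) : ℝ := (p.1 - c) ^ 2 + p.2.1 ^ 2 + p.2.2.1 ^ 2

def th (w : ℝ) : ℝ := 2 * Real.pi * St (w + 1 / 2)

def tw (c σ : ℝ) (φ : ℝ → ℝ) (p : P4) : P4 :=
  sh c (rX (σ * th p.2.2.2) (rN (φ (qq c p)) (th p.2.2.2) (sh (-c) p)))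

def tw' (c σ : ℝ) (φ : ℝ → ℝ) (p : P4) : P4 :=
  sh c (rN (φ (qq c p)) (-th p.2.2.2) (rX (-(σ * th p.2.2.2)) (sh (-c) p)))

def phO (q : ℝ) : ℝ := Real.pi * St ((q - 1849 / 100) * (320 / 69))

def phI (q : ℝ) : ℝ := Real.pi * (1 - St ((q - 1 / 1600) * (1600 / 3)))

/-- The outer belt trick. -/
def Fo (p : P4) : P4 := tw (17 / 4) 1 phO p

/-- The barbell diffeomorphism of the model. -/
def f0 (p : P4) : P4 := Fo (tw 0 (-1) phI (tw (17 / 2) (-1) phI p))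

def f0' (p : P4) : P4 := tw' (17 / 2) (-1) phI (tw' 0 (-1) phI (tw' (17 / 4) 1 phO p))

/-- The support of the barbell diffeomorphism. -/
def S0 : Set P4 :=
  {p | qq (17 / 4) p ≤ (173 / 40) ^ 2 ∧ 1 / 1600 ≤ qq 0 p ∧ 1 / 1600 ≤ qq (17 / 2) p ∧
    |p.2.2.2| ≤ 1 / 2}

def s1 (u : ℝ) : ℝ := St ((u - 1 / 10) * (10 / 3))

def s2 (u : ℝ) : ℝ := St ((u - 3 / 5) * (10 / 13))

def s3 (u : ℝ) : ℝ := St ((u - 21 / 10) * (10 / 63))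

def dX (u : ℝ) : ℝ := 1 + s1 u - s2 u + s3 u

def dY (u : ℝ) : ℝ := s2 u * (1 - s2 u) - s3 u * (1 - s3 u)

def kap (k e u : ℝ) : ℝ :=
  e + (k - e) * (1 - St ((u - 1 / 10) * (20 / 3)) + St ((u - 33 / 4) * (20 / 3)))

def chi (x : ℝ) : ℝ := St ((1 / 16 - x ^ 2) * (64 / 3))

def rh (u : ℝ) : ℝ := -(u - 2) * chi (u - 2) - (u - 1 / 2) * chi (u - 1 / 2)

/-- The embedding of the model into chart coordinates. -/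
def io (k e : ℝ) (p : P4) : P4 :=
  (p.1, dX p.1 + kap k e p.1 * p.2.1, dY p.1 + kap k e p.1 * p.2.2.1,
    rh p.1 + kap k e p.1 * p.2.2.2)

def io' (k e : ℝ) (p : P4) : P4 :=
  (p.1, (p.2.1 - dX p.1) / kap k e p.1, (p.2.2.1 - dY p.1) / kap k e p.1,
    (p.2.2.2 - rh p.1) / kap k e p.1)

/-- The chart. -/
def Lam (p : P4) : W :=
  ((Real.exp p.2.2.2 : ℂ) * ee p.1,
    (Real.exp p.2.2.2 : ℂ) * ee p.1 * ((p.2.1 : ℂ) + (p.2.2.1 : ℂ) * Complex.I))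

def Lam' (z : W) : P4 :=
  (37 / (2 * Real.pi) * Complex.arg z.1, (z.2 / z.1).re, (z.2 / z.1).im, Real.log ‖z.1‖)

def NA (u : ℝ) : Prop := |u| < 1 / 8 ∨ |u - 2| < 1 / 8

def NB (u : ℝ) : Prop := |u - 1 / 2| < 1 / 8 ∨ |u - 17 / 2| < 1 / 8

def Cl (u v : ℝ) : Prop := |u - v| < 1 / 8 ∨ (NA u ∧ NA v) ∨ (NB u ∧ NB v)

/-- The cluster property at scale `c`. -/
def Clus (c : ℝ) : Prop :=
  ∀ u ∈ Icc (-1 / 10 : ℝ) (43 / 5), ∀ v ∈ Icc (-1 / 10 : ℝ) (43 / 5),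
    |dX u - dX v| ≤ c → |dY u - dY v| ≤ c → Cl u v

/-- Admissible parameters. -/
structure Par (k e : ℝ) : Prop where
  pos : 0 < e
  le : e ≤ k / 400
  small : k ≤ 1 / 160
  clus : Clus (10 * k)

/-- The properties of the diffeomorphism of `ℂ²` that the count uses. -/
structure IsF (k e : ℝ) (F : W → W) : Prop where
  smooth : ContDiff ℝ ∞ F
  equiv : ∀ j z, F (rt j • z) = rt j • F z
  mv : ∀ p, f0 p ≠ p → F (Lam (io k e p)) = Lam (io k e (f0 p))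
  fix : ∀ z, F z = z ∨ ∃ j p, f0 p ≠ p ∧ rt j • z = Lam (io k e p)

/-- `y` is the image of `x` in chart coordinates. -/
def Lf (k e : ℝ) (x y : P4) : Prop :=
  y = x ∨ ∃ (p : P4) (n : ℤ), f0 p ≠ p ∧ io k e p = sh n x ∧ io k e (f0 p) = sh n y

def pA (δ : ℝ) (X : E6) : P4 := (X.1, δ * X.2.1, δ * X.2.2.1, X.2.2.2.1)

def pM (δ : ℝ) (X : E6) : P4 := (X.1, δ * X.2.1, δ * X.2.2.1, X.2.2.2.2.1)

def pB (X : E6) : P4 := (X.1 + 2, X.2.1, X.2.2.1, X.2.2.2.2.2)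

/-- The reduced system. -/
def Red (k : ℝ) (y : ℝ × E6) : E6 :=
  ((Fo (pB y.2)).2.1 - (Fo (pA y.1 y.2)).2.1, (Fo (pB y.2)).2.2.1 - (Fo (pA y.1 y.2)).2.2.1,
    y.2.2.2.2.2.2 - y.2.2.2.2.1,
    (Fo (pB y.2)).2.1 - y.1 * (Fo (pM y.1 y.2)).2.1,
    (Fo (pB y.2)).2.2.1 - y.1 * (Fo (pM y.1 y.2)).2.2.1,
    k * y.2.2.2.2.2.2 + ((Fo (pM y.1 y.2)).1 - 1 / 2) - k * y.1 * y.2.2.2.2.2.1)

/-- Closed constraints. -/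
def KK : Set (ℝ × E6) :=
  {y | y.1 ∈ Icc (0 : ℝ) 1 ∧ |y.2.1| ≤ 1 / 10 ∧ |y.2.2.1| ≤ 5 ∧ |y.2.2.2.1| ≤ 5 ∧
    |y.2.2.2.2.1| ≤ 1 / 2 ∧ |y.2.2.2.2.2.1| ≤ 1 / 2 ∧ |y.2.2.2.2.2.2| ≤ 1 / 2 ∧
    y.2.2.2.2.1 ≤ y.2.2.2.2.2.1 ∧ 8 ≤ (Fo (pB y.2)).1 ∧ (Fo (pB y.2)).1 ≤ (Fo (pA y.1 y.2)).1}

/-- Open conditions. -/
def Good (k : ℝ) : Set (ℝ × E6) :=
  {y | -1 / 10 < y.2.1 ∧ y.2.1 < 0 ∧ |y.2.2.1| < 5 ∧ |y.2.2.2.1| < 5 ∧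
    1849 / 100 < qq (17 / 4) (pA y.1 y.2) ∧ 1849 / 100 < qq (17 / 4) (pB y.2) ∧
    42 / 5 < (Fo (pB y.2)).1 ∧ (Fo (pB y.2)).1 < (Fo (pA y.1 y.2)).1 ∧
    (Fo (pA y.1 y.2)).1 < (Fo (pB y.2)).1 + 1 ∧ (Fo (pB y.2)).1 < 9 ∧
    |(Fo (pM y.1 y.2)).1 - 1 / 2| < 1 / 10 ∧ 8 < (Fo (pB y.2)).1 - (Fo (pM y.1 y.2)).1 ∧
    y.2.2.2.2.1 < y.2.2.2.2.2.1 ∧ k * y.2.2.2.2.2.1 < -y.2.1 + k * y.1 * y.2.2.2.2.2.2}

/-- The solution of the limit system. -/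
def LimSol (X : E6) : Prop :=
  X.1 < 0 ∧ (X.1 - 17 / 4) ^ 2 = 59513 / 3200 ∧ X.2.2.1 = 0 ∧ X.2.2.2.1 = 0 ∧
    X.2.2.2.2.2 = 0 ∧ 0 < X.2.2.2.2.1 ∧ X.2.2.2.2.1 < 1 / 2 ∧
    (17 / 4 - X.1) * Real.cos (th X.2.2.2.2.1) = 15 / 4 ∧
    ∃ r : ℝ, 43 / 10 < r ∧ r < 17 / 4 - X.1 ∧ r * Real.cos (2 * phO (r ^ 2)) = X.1 - 9 / 4 ∧
      X.2.1 = r * Real.sin (2 * phO (r ^ 2))

/-- Chart coordinates of the three points and of their images. -/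
def cA (k e : ℝ) (X : E6) : P4 := (X.1, 1 + e * X.2.1, e * X.2.2.1, k * X.2.2.2.1)

def cM (k e : ℝ) (X : E6) : P4 := (X.1, 1 + e * X.2.1, e * X.2.2.1, k * X.2.2.2.2.1)

def cB (e : ℝ) (X : E6) : P4 := (X.1, 1 + e * X.2.1, e * X.2.2.1, -X.1 + e * X.2.2.2.2.2)

def tA (k e : ℝ) (X : E6) : P4 :=
  ((Fo (pA (e / k) X)).1, 2 + k * (Fo (pA (e / k) X)).2.1, k * (Fo (pA (e / k) X)).2.2.1,
    k * X.2.2.2.1)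

def tM (k e : ℝ) (X : E6) : P4 :=
  ((Fo (pM (e / k) X)).1, 2 + e * (Fo (pM (e / k) X)).2.1, e * (Fo (pM (e / k) X)).2.2.1,
    -((Fo (pM (e / k) X)).1 - 1 / 2) + e * X.2.2.2.2.1)

def tB (k : ℝ) (X : E6) : P4 :=
  ((Fo (pB X)).1 - 2, 2 + k * (Fo (pB X)).2.1, k * (Fo (pB X)).2.2.1, k * X.2.2.2.2.2)

/-- The triple `(z, α, β)` with reduced coordinates `X`. -/
def Xi (k e : ℝ) (X : E6) : W × ℝ × ℝ :=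
  (Lam (cA k e X), k * X.2.2.2.2.1 - k * X.2.2.2.1, -X.1 + e * X.2.2.2.2.2 - k * X.2.2.2.1)

/-! ### Statements -/

def StStmt : Prop :=
  St (1 / 2) = 1 / 2 ∧ StrictMonoOn St (Icc 0 1) ∧
    ∀ x ∈ Ioo (0 : ℝ) 1, ∃ d : ℝ, 0 < d ∧ HasDerivAt St d x

def ModelStmt : Prop :=
  ContDiff ℝ ∞ f0 ∧ ContDiff ℝ ∞ f0' ∧ Function.LeftInverse f0' f0 ∧
    Function.RightInverse f0' f0 ∧ ContDiff ℝ ∞ Fo ∧
    (∀ p, f0 p ≠ p → p ∈ S0) ∧ (∀ p, (f0 p).2.2.2 = p.2.2.2) ∧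
    (∀ p, 1849 / 100 ≤ qq (17 / 4) p → f0 p = Fo p) ∧
    (∀ p, qq (17 / 4) p ≤ 1849 / 100 → |(f0 p).1 - p.1| ≤ 1 / 5) ∧
    (∀ p, (Fo p).2.2.2 = p.2.2.2) ∧ (∀ p, qq (17 / 4) (Fo p) = qq (17 / 4) p)

def ProfStmt : Prop :=
  (∀ k e u : ℝ, e ≤ k → e ≤ kap k e u ∧ kap k e u ≤ k) ∧
    (∀ k e u : ℝ, u ≤ 1 / 10 ∨ 42 / 5 ≤ u → kap k e u = k) ∧
    (∀ k e u : ℝ, 1 / 4 ≤ u → u ≤ 33 / 4 → kap k e u = e) ∧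
    (∀ u : ℝ, u ≤ 1 / 10 ∨ |u - 2| ≤ 1 / 10 → dX u = 1 ∧ dY u = 0) ∧
    (∀ u : ℝ, |u - 1 / 2| ≤ 1 / 10 ∨ 42 / 5 ≤ u → dX u = 2 ∧ dY u = 0) ∧
    (∀ u : ℝ, u ≤ 1 / 8 ∨ 67 / 8 ≤ u → rh u = 0) ∧
    (∀ u : ℝ, |u - 2| ≤ 1 / 8 → rh u = -(u - 2)) ∧
    (∀ u : ℝ, |u - 1 / 2| ≤ 1 / 8 → rh u = -(u - 1 / 2)) ∧
    (∀ u : ℝ, |rh u| ≤ 1 / 2 ∧ |dX u| ≤ 3 ∧ |dY u| ≤ 1) ∧
    ∀ k e : ℝ, 0 < e → e ≤ k → ContDiff ℝ ∞ (io k e) ∧ ContDiff ℝ ∞ (io' k e) ∧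
      Function.LeftInverse (io' k e) (io k e) ∧ Function.RightInverse (io' k e) (io k e)

def ClusStmt : Prop := ∃ c : ℝ, 0 < c ∧ Clus c

def LamStmt : Prop :=
  ContDiff ℝ ∞ Lam ∧ ContDiffOn ℝ ∞ Lam' {z | z.1 ∈ Complex.slitPlane} ∧
    (∀ z : W, z.1 ≠ 0 → Lam (Lam' z) = z) ∧
    (∀ p : P4, |p.1| < 37 / 2 → Lam' (Lam p) = p ∧ (Lam p).1 ∈ Complex.slitPlane ∧
      Complex.arg (Lam p).1 = 2 * Real.pi * p.1 / 37) ∧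
    (∀ p p' : P4, Lam p = Lam p' → p.2 = p'.2 ∧ ∃ n : ℤ, p'.1 = p.1 + 37 * n) ∧
    (∀ (D : ℝ) (p : P4), ee D • Lam p = Lam (sh D p)) ∧
    (∀ (a : ℝ) (p : P4), Real.exp a • Lam p = Lam (p.1, p.2.1, p.2.2.1, p.2.2.2 + a)) ∧
    (∀ n : ℤ, rt (n : Zp) = ee n) ∧ (∀ p : P4, (Lam p).1 ≠ 0) ∧
    (∀ p : P4, nsq (Lam p) = Real.exp (2 * p.2.2.2) * (1 + p.2.1 ^ 2 + p.2.2.1 ^ 2)) ∧
    (∀ D : ℝ, ‖ee D‖ = 1) ∧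
    ∀ p : P4, |p.1| ≤ 1 / 10 → |p.2.1 - 1| ≤ 1 / 100 → |p.2.2.1| ≤ 1 / 100 →
      (Lam p).2 ≠ 0 ∧ |Complex.arg (Lam p).2| < Real.pi / 37

/-- Transplanting a compactly supported diffeomorphism through the chart. -/
def TransStmt : Prop :=
  ∀ h h' : P4 → P4, ContDiff ℝ ∞ h → ContDiff ℝ ∞ h' → Function.LeftInverse h' h →
    Function.RightInverse h' h → (∀ p, h p ≠ p → ‖p‖ ≤ 10) →
    ∃ g g' : W → W, ContDiff ℝ ∞ g ∧ ContDiff ℝ ∞ g' ∧ Function.LeftInverse g' g ∧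
      Function.RightInverse g' g ∧ (∀ z, g z ≠ z → ∃ p, h p ≠ p ∧ z = Lam p) ∧
      ∀ p, h p ≠ p → g (Lam p) = Lam (h p) ∧ g (Lam p) ≠ Lam p

/-- Making a diffeomorphism equivariant. -/
def EqvStmt : Prop :=
  ∀ g g' : W → W, ContDiff ℝ ∞ g → ContDiff ℝ ∞ g' → Function.LeftInverse g' g →
    Function.RightInverse g' g →
    (∀ (z : W) (j : Zp), g z ≠ z → g (rt j • z) ≠ rt j • z → j = 0) →
    ∃ F F' : W → W, ContDiff ℝ ∞ F ∧ ContDiff ℝ ∞ F' ∧ Function.LeftInverse F' F ∧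
      Function.RightInverse F' F ∧ (∀ j z, F (rt j • z) = rt j • F z) ∧
      (∀ z, g z ≠ z → F z = g z) ∧ ∀ z, F z = z ∨ ∃ j : Zp, g (rt j • z) ≠ rt j • z

def HoleStmt : Prop :=
  ∀ (k e : ℝ) (p p' : P4), Par k e → p ∈ S0 → p' ∈ S0 →
    ((p'.1 = p.1 + 2 ∧ |p.1| < 1 / 8) ∨ (p'.1 = p.1 - 8 ∧ |p.1 - 17 / 2| < 1 / 8)) →
    (io k e p).2.1 = (io k e p').2.1 → (io k e p).2.2.1 = (io k e p').2.2.1 →
    |(io k e p).2.2.2 - (io k e p').2.2.2| ≤ e → False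

/-- Points of the support whose images have the same transverse coordinate. -/
def NearStmt : Prop :=
  ∀ (k e : ℝ) (p p' : P4), Par k e → p ∈ S0 → p' ∈ S0 →
    (io k e p).2.1 = (io k e p').2.1 → (io k e p).2.2.1 = (io k e p').2.2.1 → Cl p.1 p'.1

def DisjStmt : Prop :=
  ∀ (k e : ℝ) (p p' : P4) (n : ℤ), Par k e → p ∈ S0 → p' ∈ S0 → p'.1 = p.1 + n →
    (io k e p).2 = (io k e p').2 → n = 0

def BuildStmt : Prop :=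
  ∀ k e : ℝ, Par k e → ∃ F F' : W → W, IsF k e F ∧ ContDiff ℝ ∞ F' ∧
    Function.LeftInverse F' F ∧ Function.RightInverse F' F ∧
    ∀ z, nsq z ≤ 1 / 100 ∨ 1000 ≤ nsq z → F z = z

/-- Reduction of the real problem to the reduced system. -/
def CoarseStmt : Prop :=
  ∀ (k e θ a b ρ₁ ρ₂ ρ₃ : ℝ) (y₁ y₂ y₃ : P4), Par k e → ρ₁ ≤ ρ₂ → ρ₂ < ρ₃ →
    Lf k e (θ, a, b, ρ₁) y₁ → Lf k e (θ, a, b, ρ₂) y₂ → Lf k e (θ, a, b, ρ₃) y₃ →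
    y₁.2 = y₃.2 → y₂.2 = y₃.2 → y₃.1 - y₁.1 ∈ Icc (-3 : ℝ) (-2) → y₃.1 - y₂.1 ∈ Icc (6 : ℝ) 7 →
    ∃ (X : E6) (n : ℤ), (e / k, X) ∈ KK ∧ Red k (e / k, X) = 0 ∧
      (θ, a, b, ρ₁) = sh n (cA k e X) ∧ ρ₂ = (cM k e X).2.2.2 ∧ ρ₃ = (cB e X).2.2.2

/-- Reduction of the counting problem to the reduced system. -/
def ReduceStmt : Prop :=
  ∀ (k e : ℝ) (F : W → W), Par k e → IsF k e F →
    ∀ (z : W) (α β : ℝ), z ≠ 0 → 0 ≤ α → α < β →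
      ∀ D₁ ∈ Icc (-3 : ℝ) (-2), ∀ D₂ ∈ Icc (6 : ℝ) 7,
      F (Real.exp β • z) = ee D₁ • F z → F (Real.exp β • z) = ee D₂ • F (Real.exp α • z) →
      ∃ (X : E6) (j : Zp), (e / k, X) ∈ KK ∧ Red k (e / k, X) = 0 ∧
        z = rt j • (Xi k e X).1 ∧ α = (Xi k e X).2.1 ∧ β = (Xi k e X).2.2

def LocalStmt : Prop :=
  ∀ (k e : ℝ) (F : W → W) (X : E6), Par k e → IsF k e F → (e / k, X) ∈ Good k →
    F (Lam (cA k e X)) = Lam (tA k e X) ∧ F (Lam (cM k e X)) = Lam (tM k e X) ∧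
      F (Lam (cB e X)) = Lam (tB k X)

def LimExStmt : Prop := (∃ X, LimSol X) ∧ ∀ X X', LimSol X → LimSol X' → X = X'

def LimCharStmt : Prop := ∀ (k : ℝ) (X : E6), (0, X) ∈ KK → Red k (0, X) = 0 → LimSol X

def LimGoodStmt : Prop :=
  ∀ (k : ℝ) (X : E6), 0 < k → k ≤ 1 / 160 → LimSol X → Red k (0, X) = 0 ∧ (0, X) ∈ Good k

def LimJacStmt : Prop :=
  ∀ (k : ℝ) (X : E6), LimSol X → Function.Injective (fderiv ℝ (fun Y => Red k (0, Y)) X)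

def TopStmt : Prop :=
  IsCompact KK ∧ ∀ k : ℝ, IsOpen (Good k) ∧ ContDiff ℝ 1 (Red k)

/-- Persistence of a unique nondegenerate zero. -/
def IftStmt : Prop :=
  ∀ (Φ : ℝ × E6 → E6) (K U : Set (ℝ × E6)) (X₀ : E6), ContDiff ℝ 1 Φ → IsCompact K → IsOpen U →
    (0, X₀) ∈ U → Φ (0, X₀) = 0 → (∀ X, (0, X) ∈ K → Φ (0, X) = 0 → X = X₀) →
    Function.Injective (fderiv ℝ (fun Y => Φ (0, Y)) X₀) →
    ∃ δ₀ : ℝ, 0 < δ₀ ∧ ∀ δ : ℝ, |δ| < δ₀ → ∃ X, (δ, X) ∈ U ∧ Φ (δ, X) = 0 ∧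
      Function.Injective (fderiv ℝ (fun Y => Φ (δ, Y)) X) ∧
      ∀ Y, (δ, Y) ∈ K → Φ (δ, Y) = 0 → Y = X

/-- Two curves in the chart: vanishing of the derivative of the equations. -/
def PairStmt : Prop :=
  ∀ (c c' : ℝ → P4) (v v' : P4), HasDerivAt c v 0 → HasDerivAt c' v' 0 → (c 0).2 = (c' 0).2 →
    HasDerivAt (fun τ => det2 (Lam (c τ)) (Lam (c' τ))) 0 0 →
    HasDerivAt (fun τ => nsq (Lam (c' τ)) - nsq (Lam (c τ))) 0 0 → v.2 = v'.2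

/-- Transfer of transversality. -/
def NondegStmt : Prop :=
  ∀ (k e : ℝ) (F : W → W) (X : E6), Par k e → IsF k e F → (e / k, X) ∈ Good k →
    Red k (e / k, X) = 0 → Function.Injective (fderiv ℝ (fun Y => Red k (e / k, Y)) X) →
    ∃ L : W × ℝ × ℝ →L[ℝ] ℂ × ℝ × ℂ × ℝ,
      HasFDerivAt (Phi F) L (Xi k e X) ∧ Function.Injective L

end Pool.Agent.MP_2fc7fa_gt.N.Fp
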