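import Pool.Agent.MP_2fc7fa_gt.N.Ho
import Pool.Agent.MP_2fc7fa_gt.N.IfB2

/-! Interface statements inside the implicit function theorem for lines (PROOF.md, B4). -/

open scoped ContDiff ComplexConjugate Topology NNReal
open Set Complex Filter Metric

noncomputable section

namespace Pool.Agent.MP_2fc7fa_gt.N

/-- Abstract implicit function theorem for compact perturbations of the identity. -/
def AbsStmt : Prop :=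
  ∀ (X : Type) [NormedAddCommGroup X] [NormedSpace ℝ X] [CompleteSpace X] (P : Type)
    [TopologicalSpace P] (F : P → X → X) (K : X →L[ℝ] X) (p₀ : P), IsCompactOperator K →
    (∀ x, x + K x = 0 → x = 0) → F p₀ 0 = 0 →
    (∀ c : ℝ, 0 < c → ∃ δ : ℝ, 0 < δ ∧ ∀ᶠ p in 𝓝 p₀, ∀ x ∈ ball (0 : X) δ, ∀ x' ∈ ball (0 : X) δ,
      ‖F p x - F p x' - ((x - x') + K (x - x'))‖ ≤ c * ‖x - x'‖) →
    (∃ δ : ℝ, 0 < δ ∧ ∀ᶠ p in 𝓝 p₀, ∀ x ∈ ball (0 : X) δ, ContinuousAt (fun p' => F p' x) p) →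
    ∀ δ₁ : ℝ, 0 < δ₁ → ∃ δ : ℝ, 0 < δ ∧ δ ≤ δ₁ ∧ ∃ N ∈ 𝓝 p₀, ∃ s : P → X, ContinuousOn s N ∧ s p₀ = 0 ∧
      ∀ p ∈ N, s p ∈ ball (0 : X) δ ∧ F p (s p) = 0 ∧ ∀ x ∈ ball (0 : X) δ, F p x = 0 → x = s p

/-- Cut-off functions adapted to the two charts of the sphere. -/
structure Bumps where
  χ : ℂ → ℝ
  ρ : ℂ → ℝ
  sχ : ContDiff ℝ ∞ χ
  sρ : ContDiff ℝ ∞ ρ
  sum : ∀ z, z ≠ 0 → χ z + χ z⁻¹ = 1
  one : ∀ z, ‖z‖ ≤ 1 / 2 → χ z = 1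
  zero : ∀ z, 2 ≤ ‖z‖ → χ z = 0
  one' : ∀ z, ‖z‖ ≤ 2 → ρ z = 1
  zero' : ∀ z, 3 ≤ ‖z‖ → ρ z = 0

def BumpStmt : Prop := Nonempty Bumps

/-- The two charts of the projective line. -/
def cc (i : Bool) (z : ℂ) : W := if i then (z, 1) else (1, z)

/-- Transition rule for `(0,1)`-forms with values in `O(1)`. -/
def tr (g : ℂ → V) (z : ℂ) : V := -(z / conj z ^ 2) • g z⁻¹

/-- The right inverse of `∂̄` on sections of `O(1)³`. -/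
def raw (κ : Bumps) (h : Bool → ℂ → V) (q : W) : V :=
  q.1 • cT (fun z => κ.ρ z • h false z) (q.2 / q.1) + q.2 • cT (fun z => κ.ρ z • h true z) (q.1 / q.2)

/-- The complex linear map with the given values on the basis. -/
def linM (m : V × V) (q : W) : V := q.1 • m.1 + q.2 • m.2

/-- The section with `∂̄` data `h` and constraint `m`. -/
def sec1 (κ : Bumps) (b : Bool) (h : Bool → ℂ → V) (m : V × V) (q : W) : V :=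
  raw κ h q + linM (m - con b (raw κ h)) q

/-- The 1-jet of a homogeneous map in the chart `i`. -/
def jc (η : W → V) (i : Bool) (z : ℂ) : V × (ℂ →L[ℝ] V) := (η (cc i z), fderiv ℝ (η ∘ cc i) z)

/-- Properties of the right inverse. -/
def SStmt : Prop :=
  ∀ (κ : Bumps) (b : Bool), ∃ C : ℝ, 0 < C ∧
    (∀ (h : Bool → ℂ → V) (m : V × V) (M : ℝ), (∀ i, HB M (h i) univ) → ‖m‖ ≤ M →
      Hom1 (sec1 κ b h m) ∧ con b (sec1 κ b h m) = m ∧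
      (∀ i, HB (C * M) (jc (sec1 κ b h m) i) (ball 0 3)) ∧
      (∀ q : W, ‖q‖ = 1 → ‖sec1 κ b h m q‖ ≤ C * M ∧ ‖fderiv ℝ (sec1 κ b h m) q‖ ≤ C * M) ∧
      ∀ i z, dbar (sec1 κ b h m ∘ cc i) z =
        κ.ρ z • h i z + tr (fun w => κ.ρ w • h (!i) w) z) ∧
    (∀ (h h' : Bool → ℂ → V) (m m' : V × V) (M : ℝ) (c : ℝ), (∀ i, HB M (h i) univ) →
      (∀ i, HB M (h' i) univ) →
      sec1 κ b (h + h') (m + m') = sec1 κ b h m + sec1 κ b h' m' ∧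
        sec1 κ b (c • h) (c • m) = c • sec1 κ b h m)

/-- A homogeneous `C¹` map that is holomorphic in both charts and has zero constraint vanishes. -/
def LiouStmt : Prop :=
  ∀ (η : W → V) (b : Bool), Hom1 η → (∀ i z, dbar (η ∘ cc i) z = 0) → con b η = 0 → η = 0

/-- Chart covariance of expressions that are antilinear in the direction. -/
def CovStmt : Prop :=
  ∀ e : W → W → V, (∀ q, q ≠ 0 → ∀ h h', e q (h + h') = e q h + e q h') →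
    (∀ q, q ≠ 0 → ∀ (c : ℂ) h, e q (c • h) = conj c • e q h) → (∀ q, q ≠ 0 → e q q = 0) →
    (∀ q, q ≠ 0 → ∀ c : ℂ, c ≠ 0 → ∀ h, e (c • q) (c • h) = c • e q h) →
    (∀ i z, z ≠ 0 → e (cc i z) (cc i 1 - cc i 0) =
      tr (fun w => e (cc (!i) w) (cc (!i) 1 - cc (!i) 0)) z) ∧
    ((∀ i z, e (cc i z) (cc i 1 - cc i 0) = 0) → ∀ q, q ≠ 0 → ∀ h, e q h = 0)

/-- The map `U₀ + B₀ η`. -/
def pert (φ₀ : Fr) (U₀ η : W → V) (q : W) : V := U₀ q + φ₀.B (U₀ q) (η q)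

/-- The nonlinear part of the Cauchy-Riemann operator of `φ` at `U₀ + B₀ η`, as a function of the
point `a.1` of the chart `i` and of the jet `a.2` of `η`. -/
def Nl (φ φ₀ : Fr) (U₀ : W → V) (i : Bool) (a : ℂ × V × (ℂ →L[ℝ] V)) : V :=
  (1 / 2 : ℂ) • (φ.A (U₀ (cc i a.1) + φ₀.B (U₀ (cc i a.1)) a.2.1)
      (fderiv ℝ (U₀ ∘ cc i) a.1 1 + fderiv ℝ (fun z => φ₀.B (U₀ (cc i z))) a.1 1 a.2.1 +
        φ₀.B (U₀ (cc i a.1)) (a.2.2 1)) +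
    I • φ.A (U₀ (cc i a.1) + φ₀.B (U₀ (cc i a.1)) a.2.1)
      (fderiv ℝ (U₀ ∘ cc i) a.1 I + fderiv ℝ (fun z => φ₀.B (U₀ (cc i z))) a.1 I a.2.1 +
        φ₀.B (U₀ (cc i a.1)) (a.2.2 I))) -
  (1 / 2 : ℂ) • (a.2.2 1 + I • a.2.2 I)

/-- The domain of smoothness of `Nl`. -/
def NlDom (φ₀ : Fr) (U₀ : W → V) (i : Bool) : Set (ℂ × V × (ℂ →L[ℝ] V)) :=
  {a | U₀ (cc i a.1) + φ₀.B (U₀ (cc i a.1)) a.2.1 ≠ 0}

/-- `Nl` is a smooth family, vanishes at the reference solution, and its derivative there does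
not depend on the derivative of `η`. -/
def NlStmt : Prop :=
  ∀ (P : Type) [TopologicalSpace P] (φ : P → Fr) (φ₀ : Fr) (U₀ : W → V) (i : Bool), FrFam φ →
    IsLine φ₀.J U₀ → IsOpen (NlDom φ₀ U₀ i) ∧
      (∀ n, Fam (NlDom φ₀ U₀ i) n V fun p => Nl (φ p) φ₀ U₀ i) ∧
      (∀ z, Nl φ₀ φ₀ U₀ i (z, 0) = 0) ∧
      ∀ z (y : V) (d : ℂ →L[ℝ] V), fderiv ℝ (Nl φ₀ φ₀ U₀ i) (z, 0) (0, y, d) =
        fderiv ℝ (Nl φ₀ φ₀ U₀ i) (z, 0) (0, y, 0)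

/-- The constraint of `η` in terms of the constraint `a` of `U₀ + B₀ η`. -/
def mOf (φ₀ : Fr) (U₀ : W → V) (b : Bool) (a : V × V) : V × V :=
  (φ₀.A (U₀ (1, 0)) (a.1 - U₀ (1, 0)),
    if b then φ₀.A (U₀ (0, 1)) (a.2 - U₀ (0, 1)) else
      φ₀.A (U₀ (1, 0)) (a.2 - fderiv ℝ U₀ (1, 0) (0, 1) -
        fderiv ℝ (fun q => φ₀.B (U₀ q)) (1, 0) (0, 1) (φ₀.A (U₀ (1, 0)) (a.1 - U₀ (1, 0)))))

/-- Solutions of the cut-off equation are lines. -/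
def ToLineStmt : Prop :=
  ∀ (κ : Bumps) (φ φ₀ : Fr) (U₀ : W → V) (b : Bool) (h : Bool → ℂ → V) (a : V × V) (M : ℝ),
    IsLine φ₀.J U₀ → (∀ i, HB M (h i) univ) →
    (∀ q, q ≠ 0 → pert φ₀ U₀ (sec1 κ b h (mOf φ₀ U₀ b a)) q ≠ 0) →
    (∀ i z, h i z + κ.χ z • Nl φ φ₀ U₀ i (z, jc (sec1 κ b h (mOf φ₀ U₀ b a)) i z) = 0) →
    IsLine φ.J (pert φ₀ U₀ (sec1 κ b h (mOf φ₀ U₀ b a))) ∧
      con b (pert φ₀ U₀ (sec1 κ b h (mOf φ₀ U₀ b a))) = a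

/-- The section `η` with `U = U₀ + B₀ η`. -/
def etaOf (φ₀ : Fr) (U₀ U : W → V) (q : W) : V := φ₀.A (U₀ q) (U q - U₀ q)

/-- The `∂̄` data of a line `U`. -/
def hOf (κ : Bumps) (φ φ₀ : Fr) (U₀ U : W → V) (i : Bool) (z : ℂ) : V :=
  -(κ.χ z • Nl φ φ₀ U₀ i (z, jc (etaOf φ₀ U₀ U) i z))

/-- Lines come from solutions of the cut-off equation. -/
def FromLineStmt : Prop :=
  ∀ (κ : Bumps) (φ φ₀ : Fr) (U₀ U : W → V) (b : Bool) (M : ℝ), IsLine φ₀.J U₀ → IsLine φ.J U →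
    (∀ i, HB M (hOf κ φ φ₀ U₀ U i) univ) →
    etaOf φ₀ U₀ U = sec1 κ b (hOf κ φ φ₀ U₀ U) (mOf φ₀ U₀ b (con b U)) ∧
      pert φ₀ U₀ (etaOf φ₀ U₀ U) = U

/-- A line that is `C¹` close to `U₀` has a small Hoelder jet. -/
def SmallStmt : Prop :=
  ∀ (P : Type) [TopologicalSpace P] (φ : P → Fr) (p₀ : P) (U₀ : W → V), FrFam φ →
    IsLine (φ p₀).J U₀ → ∀ δ : ℝ, 0 < δ → ∃ ε : ℝ, 0 < ε ∧ ∀ᶠ p in 𝓝 p₀, ∀ U,
      IsLine (φ p).J U → Near ε U U₀ → ∀ i, HB δ (jc (etaOf (φ p₀) U₀ U) i) (ball 0 3)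

/-- Estimates for superposition operators on Hoelder functions. -/
def NemStmt : Prop :=
  ∀ (E F : Type) [NormedAddCommGroup E] [NormedSpace ℝ E] [FiniteDimensional ℝ E]
    [NormedAddCommGroup F] [NormedSpace ℝ F] (P : Type) [TopologicalSpace P]
    (G : P → ℂ × E → F) (Ω : Set (ℂ × E)) (χ : ℂ → ℝ) (p₀ : P), IsOpen Ω → Fam Ω 2 F G →
    (∀ z : ℂ, (z, 0) ∈ Ω) → ContDiff ℝ 1 χ → (∀ z, 2 ≤ ‖z‖ → χ z = 0) →
    (∀ c : ℝ, 0 < c → ∃ δ : ℝ, 0 < δ ∧ ∀ᶠ p in 𝓝 p₀, ∀ (y y' : ℂ → E) (M : ℝ),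
      HB δ y (ball 0 3) → HB δ y' (ball 0 3) → HB M (y - y') (ball 0 3) →
      HB (c * M) (fun z => χ z • (G p (z, y z) - G p (z, y' z) -
        fderiv ℝ (G p₀) (z, 0) (0, y z - y' z))) univ) ∧
    (∃ C : ℝ, 0 < C ∧ ∀ (y : ℂ → E) (M : ℝ), HB M y (ball 0 3) →
      HB (C * M) (fun z => χ z • fderiv ℝ (G p₀) (z, 0) (0, y z)) univ) ∧
    ∃ δ : ℝ, 0 < δ ∧ ∀ (p : P) (y : ℂ → E), HB δ y (ball 0 3) →
      (∃ M, HB M (fun z => χ z • G p (z, y z)) univ) ∧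
      ∀ c : ℝ, 0 < c → ∀ᶠ p' in 𝓝 p, HB c (fun z => χ z • (G p' (z, y z) - G p (z, y z))) univ

/-- A compactness criterion for operators into Hoelder functions. -/
def CptStmt : Prop :=
  ∀ (X E : Type) [NormedAddCommGroup X] [NormedSpace ℝ X] [NormedAddCommGroup E]
    [NormedSpace ℝ E] [FiniteDimensional ℝ E] (K : X →L[ℝ] Ho E) (C : ℝ),
    (∀ x z, 2 ≤ ‖z‖ → (K x).fn z = 0) →
    (∀ x z z', ‖(K x).fn z - (K x).fn z'‖ ≤ C * ‖x‖ * ‖z - z'‖) → IsCompactOperator K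

/-- The linearised cut-off equation has only the zero solution. -/
def LinInjStmt : Prop :=
  ∀ (κ : Bumps) (φ₀ : Fr) (U₀ : W → V) (b : Bool) (h : Bool → ℂ → V) (M : ℝ),
    IsLine φ₀.J U₀ → IsEmb U₀ → (∀ i, HB M (h i) univ) →
    (∀ i z, h i z + κ.χ z • fderiv ℝ (Nl φ₀ φ₀ U₀ i) (z, 0) (0, jc (sec1 κ b h 0) i z) = 0) →
    h = 0

/-- The linear part as a compact operator. -/
def KopStmt : Prop :=
  ∀ (κ : Bumps) (φ₀ : Fr) (U₀ : W → V) (b : Bool), IsLine φ₀.J U₀ →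
    ∃ K : (Bool → Ho V) →L[ℝ] (Bool → Ho V), IsCompactOperator K ∧ ∀ h i z,
      (K h i).fn z =
        κ.χ z • fderiv ℝ (Nl φ₀ φ₀ U₀ i) (z, 0) (0, jc (sec1 κ b (fun i => (h i).fn) 0) i z)

/-- Solving the cut-off equation. -/
def SolveStmt : Prop :=
  ∀ (κ : Bumps) (P : Type) [TopologicalSpace P] (φ : P → Fr) (p₀ : P) (U₀ : W → V) (b : Bool),
    FrFam φ → IsLine (φ p₀).J U₀ → IsEmb U₀ → ∀ δ₁ : ℝ, 0 < δ₁ →
    ∃ δ : ℝ, 0 < δ ∧ δ ≤ δ₁ ∧ ∃ N ∈ 𝓝 (p₀, con b U₀), ∃ s : P × (V × V) → Bool → Ho V,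
      ContinuousOn s N ∧ s (p₀, con b U₀) = 0 ∧ ∀ a ∈ N, ‖s a‖ < δ ∧
        ∀ h : Bool → Ho V, ‖h‖ < δ → (h = s a ↔ ∀ i z, (h i).fn z + κ.χ z •
          Nl (φ a.1) (φ p₀) U₀ i
            (z, jc (sec1 κ b (fun i => (h i).fn) (mOf (φ p₀) U₀ b a.2)) i z) = 0)

end Pool.Agent.MP_2fc7fa_gt.N
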