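import Pool.Agent.MP_2fc7fa_gt.N.IfB

/-! Interface statements inside the compactness theorem (PROOF.md, B6). -/

open scoped ContDiff ComplexConjugate Topology
open Set Complex Filter Metric MeasureTheory

noncomputable section

namespace Pool.Agent.MP_2fc7fa_gt.N

/-- The coefficient of the orthogonal projection on the line through `x`. -/
def vc (x : V) : V →L[ℝ] ℂ :=
  (∑ j, x j * conj (x j))⁻¹ •
    ∑ j, conj (x j) • (ContinuousLinearMap.proj j : V →L[ℂ] ℂ).restrictScalars ℝ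

/-- The component of `v` orthogonal to `x`. -/
def hp (x v : V) : V := v - vc x v • x

/-- The connection form of a frame. -/
def cf (φ : Fr) (x : V) : V →L[ℝ] ℂ := (vc x).comp (φ.A x)

/-- The pull-back of the connection form by a solution `u` is `al φ u z dz`. -/
def al (φ : Fr) (u : ℂ → V) (z : ℂ) : ℂ := cf φ (u z) (fderiv ℝ u z 1)

/-- The two affine charts of a homogeneous map. -/
def c0 (U : W → V) (z : ℂ) : V := U (1, z)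

def c1 (U : W → V) (w : ℂ) : V := U (w, 1)

/-- `C¹` convergence, uniform on every ball. -/
def LConv (w : ℕ → ℂ → V) (u : ℂ → V) : Prop :=
  ∀ r : ℝ, TendstoUniformlyOn w u atTop (ball 0 r) ∧
    TendstoUniformlyOn (fun n => fderiv ℝ (w n)) (fderiv ℝ u) atTop (ball 0 r)

theorem vc_apply (x v : V) : vc x v = (∑ j, x j * conj (x j))⁻¹ * ∑ j, conj (x j) * v j := by
  simp [vc]

theorem sq_ne_zero_K {x : V} (hx : x ≠ 0) : (∑ j, x j * conj (x j)) ≠ 0 := by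
  have h : (∑ j, x j * conj (x j)) = ((∑ j, normSq (x j) : ℝ) : ℂ) := by
    simp [mul_conj]
  rw [h, ofReal_ne_zero]
  intro h0
  apply hx
  funext j
  have := (Finset.sum_eq_zero_iff_of_nonneg (fun j _ => normSq_nonneg (x j))).1 h0 j
    (Finset.mem_univ j)
  simpa using this

theorem vc_smul (x v : V) (c : ℂ) : vc x (c • v) = c * vc x v := by
  simp only [vc_apply, Pi.smul_apply, smul_eq_mul, Fin.sum_univ_three]
  ring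

theorem vc_self {x : V} (hx : x ≠ 0) : vc x x = 1 := by
  rw [vc_apply]
  have := sq_ne_zero_K hx
  rw [show (∑ j, conj (x j) * x j) = ∑ j, x j * conj (x j) from
    Finset.sum_congr rfl fun j _ => mul_comm _ _]
  exact inv_mul_cancel₀ this

theorem vc_scale {c : ℂ} (hc : c ≠ 0) (x v : V) : vc (c • x) (c • v) = vc x v := by
  have hc' : conj c ≠ 0 := by simpa using hc
  have e : (∑ j, (c • x) j * conj ((c • x) j)) = (c * conj c) * ∑ j, x j * conj (x j) := by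
    simp only [Pi.smul_apply, smul_eq_mul, Fin.sum_univ_three, map_mul]
    ring
  have e' : (∑ j, conj ((c • x) j) * (c • v) j) = (c * conj c) * ∑ j, conj (x j) * v j := by
    simp only [Pi.smul_apply, smul_eq_mul, Fin.sum_univ_three, map_mul]
    ring
  rw [vc_apply, vc_apply, e, e', mul_inv]
  field_simp

theorem vc_hp {x : V} (hx : x ≠ 0) (v : V) : vc x (hp x v) = 0 := by
  rw [hp, map_sub, vc_smul, vc_self hx, mul_one, sub_self]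

theorem hp_smul (x v : V) (c : ℂ) : hp x (c • v) = c • hp x v := by
  rw [hp, hp, vc_smul, smul_sub, mul_smul]

theorem Fr.A_vert (φ : Fr) {x : V} (hx : x ≠ 0) (c : ℂ) : φ.A x (c • x) = c • x := by
  conv_lhs => rw [← φ.vert x hx c]
  exact φ.AB x hx _

theorem Fr.A_scale (φ : Fr) {x : V} (hx : x ≠ 0) {c : ℂ} (hc : c ≠ 0) (v : V) :
    φ.A (c • x) (c • v) = c • φ.A x v := by
  have h : c • v = φ.B (c • x) (c • φ.A x v) := by rw [φ.scale x hx c hc, φ.BA x hx]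
  rw [h, φ.AB _ (smul_ne_zero hc hx)]

theorem cf_vert (φ : Fr) {x : V} (hx : x ≠ 0) (c : ℂ) : cf φ x (c • x) = c := by
  rw [cf, ContinuousLinearMap.comp_apply, φ.A_vert hx, vc_smul, vc_self hx, mul_one]

theorem cf_scale (φ : Fr) {x : V} (hx : x ≠ 0) {c : ℂ} (hc : c ≠ 0) (v : V) :
    cf φ (c • x) (c • v) = cf φ x v := by
  rw [cf, cf, ContinuousLinearMap.comp_apply, ContinuousLinearMap.comp_apply, φ.A_scale hx hc,
    vc_scale hc]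

theorem vc_smooth : ContDiffOn ℝ ∞ vc {0}ᶜ := by
  have hc : ∀ j, ContDiff ℝ ∞ fun x : V => conj (x j) := fun j =>
    conjCLE.contDiff.comp (contDiff_apply ℝ ℂ j)
  refine ContDiffOn.smul (ContDiffOn.inv ?_ fun x hx => sq_ne_zero_K hx) ?_
  · exact (ContDiff.sum fun j _ => (contDiff_apply ℝ ℂ j).mul (hc j)).contDiffOn
  · exact (ContDiff.sum fun j _ => (hc j).smul contDiff_const).contDiffOn

theorem cf_smooth (φ : Fr) : ContDiffOn ℝ ∞ (cf φ) {0}ᶜ :=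
  vc_smooth.clm_comp φ.smoothA

/-- K1: joint continuity of a continuous family of forms. -/
def FormStmt : Prop :=
  ∀ (P : Type) [TopologicalSpace P] (om : P → Symp 1), Continuous om →
    JC {0}ᶜ fun p => (om p).form

/-- K2: uniform taming. -/
def TameKStmt : Prop :=
  ∀ (P : Type) [TopologicalSpace P] (φ : P → Fr) (om : P → Symp 1) (p₀ : P), FrFam φ →
    Continuous om → (∀ a, Tame (φ a).J (om a)) →
    ∃ C : ℝ, 0 < C ∧ ∀ᶠ p in 𝓝 p₀, ∀ x : V, x ≠ 0 → ∀ v,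
      ‖hp x ((φ p).A x v)‖ ^ 2 ≤ C * ‖x‖ ^ 2 * (om p).form x ![v, (φ p).J x v]

/-- K3: the differential of the connection form is basic, with uniform bounds. -/
def CurvStmt : Prop :=
  ∀ (P : Type) [TopologicalSpace P] (φ : P → Fr) (p₀ : P), FrFam φ →
    ∃ C : ℝ, 0 < C ∧ ∀ᶠ p in 𝓝 p₀, ∀ x : V, x ≠ 0 → ‖(φ p).B x‖ ≤ C ∧ ∀ a b : V,
      ‖fderiv ℝ (cf (φ p)) x a b - fderiv ℝ (cf (φ p)) x b a‖ * ‖x‖ ^ 2 ≤
        C * ‖hp x ((φ p).A x a)‖ * ‖hp x ((φ p).A x b)‖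

/-- K4: the `∂̄` derivative of `al`. -/
def DbarStmt : Prop :=
  ∀ (φ : Fr) (u : ℂ → V) (O : Set ℂ), IsOpen O → ContDiffOn ℝ ∞ u O → (∀ z ∈ O, u z ≠ 0) →
    CR φ.A u O → ContDiffOn ℝ 1 (al φ u) O ∧ ∀ z ∈ O, 2 * I * dbar (al φ u) z =
      fderiv ℝ (cf φ) (u z) (fderiv ℝ u z 1) (fderiv ℝ u z I) -
        fderiv ℝ (cf φ) (u z) (fderiv ℝ u z I) (fderiv ℝ u z 1)

/-- K5: the energy density controls `∂̄ al`, and with `al` the full derivative. -/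
def AlphaStmt : Prop :=
  ∀ (P : Type) [TopologicalSpace P] (φ : P → Fr) (om : P → Symp 1) (p₀ : P), FrFam φ →
    Continuous om → (∀ a, Tame (φ a).J (om a)) →
    ∃ C : ℝ, 0 < C ∧ ∀ᶠ p in 𝓝 p₀, ∀ (u : ℂ → V) (O : Set ℂ), IsOpen O → ContDiffOn ℝ 1 u O →
      (∀ z ∈ O, u z ≠ 0) → CR (φ p).A u O → ContDiffOn ℝ 1 (al (φ p) u) O ∧ ∀ z ∈ O,
        ‖dbar (al (φ p) u) z‖ ≤ C * dens (om p) u z ∧
        ‖fderiv ℝ u z‖ ≤ C * (1 + ‖al (φ p) u z‖ + dens (om p) u z) * ‖u z‖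

/-- K6: holomorphic change of gauge and of parameter. -/
def TransfStmt : Prop :=
  ∀ (φ : Fr) (σ : Symp 1) (u : ℂ → V) (f g : ℂ → ℂ) (f' g' w : ℂ), HasDerivAt f f' w →
    HasDerivAt g g' w → f w ≠ 0 → DifferentiableAt ℝ u (g w) → u (g w) ≠ 0 → CR φ.A u {g w} →
    CR φ.A (fun t => f t • u (g t)) {w} ∧
      al φ (fun t => f t • u (g t)) w = f' / f w + g' * al φ u (g w) ∧
      dens σ (fun t => f t • u (g t)) w = ‖g'‖ ^ 2 * dens σ u (g w)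

/-- K7: sign, continuity and convergence of the energy density. -/
def DensStmt : Prop :=
  (∀ (φ : Fr) (σ : Symp 1) (u : ℂ → V) (z : ℂ), Tame φ.J σ → u z ≠ 0 → CR φ.A u {z} →
    0 ≤ dens σ u z) ∧
  (∀ (σ : Symp 1) (u : ℂ → V) (O : Set ℂ), IsOpen O → ContDiffOn ℝ 1 u O → (∀ z ∈ O, u z ≠ 0) →
    ContinuousOn (dens σ u) O) ∧
  ∀ (P : Type) [TopologicalSpace P] (om : P → Symp 1) (p : ℕ → P) (p₀ : P) (w : ℕ → ℂ → V)
    (u : ℂ → V), Continuous om → Tendsto p atTop (𝓝 p₀) → LConv w u → ∀ z, u z ≠ 0 →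
    Tendsto (fun n => dens (om (p n)) (w n) z) atTop (𝓝 (dens (om p₀) u z))

/-- K8: lines in the two charts. -/
def LineStmt : Prop :=
  ∀ (φ : Fr) (σ : Symp 1) (U : W → V), IsLine φ.J U →
    (∀ g : W ≃L[ℂ] W, IsLine φ.J (U ∘ g)) ∧
    (ContDiff ℝ 1 (c0 U) ∧ (∀ z, c0 U z ≠ 0) ∧ CR φ.A (c0 U) univ) ∧
    (ContDiff ℝ 1 (c1 U) ∧ (∀ z, c1 U z ≠ 0) ∧ CR φ.A (c1 U) univ) ∧
    ∀ z : ℂ, z ≠ 0 → al φ (c0 U) z = z⁻¹ - (z ^ 2)⁻¹ * al φ (c1 U) z⁻¹ ∧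
      dens σ (c0 U) z = (‖z‖ ^ 4)⁻¹ * dens σ (c1 U) z⁻¹ ∧
      dens σ (c1 U) z = (‖z‖ ^ 4)⁻¹ * dens σ (c0 U) z⁻¹

/-- K9: a holomorphic gauge that makes the connection form bounded. -/
def GaugeStmt : Prop := ∃ C : ℝ, 0 < C ∧
  ∀ (α : ℂ → ℂ) (R K E : ℝ), 0 < R → ContDiffOn ℝ 1 α (ball 0 R) →
    (∀ z ∈ ball (0 : ℂ) R, ‖dbar α z‖ ≤ K) → ∫ z in ball (0 : ℂ) R, ‖dbar α z‖ ≤ E →
    ∃ f : ℂ → ℂ, DifferentiableOn ℂ f (ball 0 R) ∧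
      ∀ z ∈ ball (0 : ℂ) R, f z ≠ 0 ∧ ‖deriv f z / f z + α z‖ ≤ C * (K + E)

/-- K10: the maximum principle in the two charts. -/
def AMPStmt : Prop := ∃ C : ℝ, 0 < C ∧
  ∀ (α β : ℂ → ℂ) (K : ℝ), ContDiff ℝ 1 α → ContDiff ℝ 1 β →
    (∀ z, ‖dbar α z‖ ≤ K ∧ ‖dbar β z‖ ≤ K) →
    (∀ z : ℂ, z ≠ 0 → α z = z⁻¹ - (z ^ 2)⁻¹ * β z⁻¹) →
    ∀ z, ‖α z‖ ≤ C * (1 + K) ∧ ‖β z‖ ≤ C * (1 + K)

/-- K11: Arzela-Ascoli on the plane. -/
def AAStmt : Prop :=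
  ∀ (E : Type) [NormedAddCommGroup E] [ProperSpace E] (F : ℕ → ℂ → E),
    (∀ r : ℝ, ∃ L : ℝ, ∀ᶠ n in atTop, ∀ z ∈ ball (0 : ℂ) r, ‖F n z‖ ≤ L ∧
      ∀ z' ∈ ball (0 : ℂ) r, ‖F n z - F n z'‖ ≤ L * ‖z - z'‖) →
    ∃ (ψ : ℕ → ℕ) (G : ℂ → E), StrictMono ψ ∧ Continuous G ∧
      ∀ r : ℝ, TendstoUniformlyOn (fun n => F (ψ n)) G atTop (ball 0 r)

/-- K12: the Harnack inequality. -/
def HarnackStmt : Prop :=
  ∀ (w : ℂ → V) (r C : ℝ), 0 ≤ C → DifferentiableOn ℝ w (ball 0 r) →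
    (∀ z ∈ ball (0 : ℂ) r, ‖fderiv ℝ w z‖ ≤ C * ‖w z‖) →
    ∀ z ∈ ball (0 : ℂ) r, ∀ z' ∈ ball (0 : ℂ) r, ‖w z‖ ≤ Real.exp (C * ‖z - z'‖) * ‖w z'‖

/-- K13: `C¹` limits on the plane. -/
def LimitStmt : Prop :=
  ∀ (P : Type) [TopologicalSpace P] (φ : P → Fr) (p : ℕ → P) (p₀ : P) (w : ℕ → ℂ → V) (z₀ : ℂ)
    (C : ℝ), FrFam φ → Tendsto p atTop (𝓝 p₀) → 0 ≤ C → (∀ᶠ n in atTop, ‖w n z₀‖ = 1) →
    (∀ r : ℝ, ∀ᶠ n in atTop, ContDiffOn ℝ 1 (w n) (ball 0 r) ∧ CR (φ (p n)).A (w n) (ball 0 r) ∧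
      ∀ z ∈ ball (0 : ℂ) r, ‖fderiv ℝ (w n) z‖ ≤ C * ‖w n z‖) →
    ∃ (ψ : ℕ → ℕ) (u : ℂ → V), StrictMono ψ ∧ ContDiff ℝ 1 u ∧ (∀ z, u z ≠ 0) ∧
      CR (φ p₀).A u univ ∧ LConv (fun n => w (ψ n)) u

/-- Solutions on growing discs with energy density at most `1` and bounded energy. -/
def Grow {P : Type} (φ : P → Fr) (om : P → Symp 1) (p : ℕ → P) (u : ℕ → ℂ → V) (R : ℕ → ℝ)
    (E : ℝ) : Prop :=
  Tendsto R atTop atTop ∧ ∀ᶠ n in atTop, ContDiffOn ℝ 1 (u n) (ball 0 (R n)) ∧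
    (∀ z ∈ ball (0 : ℂ) (R n), u n z ≠ 0 ∧ dens (om (p n)) (u n) z ≤ 1) ∧
    CR (φ (p n)).A (u n) (ball 0 (R n)) ∧ dens (om (p n)) (u n) 0 = 1 ∧
    ∫ z in ball (0 : ℂ) (R n), dens (om (p n)) (u n) z ≤ E

/-- K14: a good gauge on growing discs. -/
def RegaugeStmt : Prop :=
  ∀ (P : Type) [TopologicalSpace P] (φ : P → Fr) (om : P → Symp 1) (p : ℕ → P) (p₀ : P)
    (u : ℕ → ℂ → V) (R : ℕ → ℝ) (E : ℝ), FrFam φ → Continuous om → (∀ a, Tame (φ a).J (om a)) →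
    Tendsto p atTop (𝓝 p₀) → Grow φ om p u R E →
    ∃ (w : ℕ → ℂ → V) (C : ℝ), 0 ≤ C ∧ ∀ᶠ n in atTop, ‖w n 0‖ = 1 ∧
      ContDiffOn ℝ 1 (w n) (ball 0 (R n)) ∧ CR (φ (p n)).A (w n) (ball 0 (R n)) ∧
      ∀ z ∈ ball (0 : ℂ) (R n), ‖fderiv ℝ (w n) z‖ ≤ C * ‖w n z‖ ∧
        dens (om (p n)) (w n) z = dens (om (p n)) (u n) z

/-- K15: the measure theory of the bubble. -/
def QuantStmt : Prop :=
  ∀ (e : ℕ → ℂ → ℝ) (e' : ℂ → ℝ) (R : ℕ → ℝ) (E : ℝ), Tendsto R atTop atTop → Continuous e' →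
    (∀ z, Tendsto (fun n => e n z) atTop (𝓝 (e' z))) →
    (∀ᶠ n in atTop, ContinuousOn (e n) (ball 0 (R n)) ∧
      (∀ z ∈ ball (0 : ℂ) (R n), 0 ≤ e n z ∧ e n z ≤ 1) ∧ e n 0 = 1 ∧
      ∫ z in ball (0 : ℂ) (R n), e n z ≤ E) →
    Integrable e' ∧ ((∃ k : ℤ, ∫ z, e' z = 2 * Real.pi * k) → ∀ ε : ℝ, 0 < ε →
      ∃ r : ℝ, 0 < r ∧ ∀ᶠ n in atTop, 2 * Real.pi - ε ≤ ∫ z in ball (0 : ℂ) r, e n z)

/-- K16: a bubble carries at least the energy of a line. -/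
def BubbleStmt : Prop :=
  ∀ (P : Type) [TopologicalSpace P] (φ : P → Fr) (om : P → Symp 1) (p : ℕ → P) (p₀ : P)
    (u : ℕ → ℂ → V) (R : ℕ → ℝ) (E : ℝ), FrFam φ → Continuous om → (∀ a, Tame (φ a).J (om a)) →
    Tendsto p atTop (𝓝 p₀) → Grow φ om p u R E → ∀ ε : ℝ, 0 < ε →
    ∃ r : ℝ, 0 < r ∧ ∃ᶠ n in atTop,
      2 * Real.pi - ε ≤ ∫ z in ball (0 : ℂ) r, dens (om (p n)) (u n) z

/-- K17: holomorphic change of variables. -/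
def CoVStmt : Prop :=
  ∀ (e : ℂ → ℝ) (g g' : ℂ → ℂ) (S : Set ℂ), MeasurableSet S → (∀ z ∈ S, HasDerivAt g (g' z) z) →
    InjOn g S → ∫ z in g '' S, e z = ∫ z in S, ‖g' z‖ ^ 2 * e (g z)

/-- K18: normalisation at the maximum of the energy density. -/
def NormStmt : Prop :=
  ∀ (φ : Fr) (σ : Symp 1) (U : W → V), Tame φ.J σ → IsLine φ.J U →
    ∃ g : W ≃L[ℂ] W, (∀ z, dens σ (c0 (U ∘ g)) z ≤ 1) ∧ dens σ (c0 (U ∘ g)) 0 = 1 ∧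
      ‖U (g (1, 1))‖ = 1

/-- K19: the energy near infinity. -/
def InvStmt : Prop :=
  ∀ (φ : Fr) (σ : Symp 1) (U : W → V) (r : ℝ), Tame φ.J σ → IsLine φ.J U → 0 < r →
    Integrable (dens σ (c1 U)) ∧ ∫ z, dens σ (c1 U) z = 2 * Real.pi ∧
      (∫ z in ball (0 : ℂ) r⁻¹, dens σ (c1 U) z) + ∫ z in ball (0 : ℂ) r, dens σ (c0 U) z ≤
        2 * Real.pi

/-- K20: no bubbling at infinity. -/
def OuterStmt : Prop :=
  ∀ (P : Type) [TopologicalSpace P] (φ : P → Fr) (om : P → Symp 1) (p : ℕ → P) (p₀ : P)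
    (U : ℕ → W → V) (r : ℝ), FrFam φ → Continuous om → (∀ a, Tame (φ a).J (om a)) →
    Tendsto p atTop (𝓝 p₀) → 0 < r → (∀ n, IsLine (φ (p n)).J (U n)) →
    (∀ n z, dens (om (p n)) (c0 (U n)) z ≤ 1) →
    (∀ n, ∫ z in ball (0 : ℂ) r, dens (om (p n)) (c1 (U n)) z ≤ Real.pi) →
    ∃ M : ℝ, ∃ᶠ n in atTop, ∀ z, dens (om (p n)) (c1 (U n)) z ≤ M

/-- K21: gluing two charts. -/
def GlueAStmt : Prop :=
  ∀ (φ : Fr) (u v : ℂ → V), ContDiff ℝ 1 u → ContDiff ℝ 1 v → (∀ z, u z ≠ 0) → (∀ z, v z ≠ 0) →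
    CR φ.A u univ → CR φ.A v univ → (∀ z : ℂ, z ≠ 0 → u z = z • v z⁻¹) →
    ∃ U, IsLine φ.J U ∧ c0 U = u ∧ c1 U = v

/-- K22: convergence in the two charts. -/
def GlueBStmt : Prop :=
  ∀ (U : ℕ → W → V) (U' : W → V),
    (∀ n, ContDiffOn ℝ 1 (U n) {0}ᶜ ∧ ∀ (c : ℂ) q, U n (c • q) = c • U n q) →
    ContDiffOn ℝ 1 U' {0}ᶜ → (∀ (c : ℂ) q, U' (c • q) = c • U' q) →
    LConv (fun n => c0 (U n)) (c0 U') → LConv (fun n => c1 (U n)) (c1 U') → Conv U U'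

end Pool.Agent.MP_2fc7fa_gt.N
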