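import Pool.Agent.MP_2fc7fa_gt.N.IfK

/-! Arzela-Ascoli on the plane. -/

open scoped ContDiff ComplexConjugate Topology
open Set Complex Filter Metric MeasureTheory

noncomputable section

namespace Pool.Agent.MP_2fc7fa_gt.N

theorem kAA : AAStmt := by
  intro E _ _ F h
  set Ul : Ultrafilter ℕ := Ultrafilter.of atTop with hUl
  have hle : (Ul : Filter ℕ) ≤ atTop := Ultrafilter.of_le _
  have hlim : ∀ z : ℂ, ∃ g : E, Tendsto (fun n => F n z) Ul (𝓝 g) := by
    intro z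
    obtain ⟨L, hL⟩ := h (‖z‖ + 1)
    have hz : z ∈ ball (0 : ℂ) (‖z‖ + 1) := by simp
    have hm : (Ul.map fun n => F n z : Filter E) ≤ 𝓟 (closedBall (0 : E) L) := by
      rw [le_principal_iff]
      refine mem_map.2 (hle ?_)
      filter_upwards [hL] with n hn
      simpa using (hn z hz).1
    obtain ⟨g, -, hg⟩ := (isCompact_closedBall (0 : E) L).ultrafilter_le_nhds
      (Ul.map fun n => F n z) hm
    exact ⟨g, hg⟩
  choose G hG using hlim
  have hlip : ∀ r : ℝ, ∃ L : ℝ, 0 ≤ L ∧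
      (∀ᶠ n in (Ul : Filter ℕ), ∀ z ∈ ball (0 : ℂ) r, ∀ z' ∈ ball (0 : ℂ) r,
        ‖F n z - F n z'‖ ≤ L * ‖z - z'‖) ∧
      ∀ z ∈ ball (0 : ℂ) r, ∀ z' ∈ ball (0 : ℂ) r, ‖G z - G z'‖ ≤ L * ‖z - z'‖ := by
    intro r
    obtain ⟨L, hL⟩ := h r
    have h1 : ∀ᶠ n in (Ul : Filter ℕ), ∀ z ∈ ball (0 : ℂ) r, ∀ z' ∈ ball (0 : ℂ) r,
        ‖F n z - F n z'‖ ≤ max L 0 * ‖z - z'‖ := by
      refine hle ?_
      filter_upwards [hL] with n hn z hz z' hz'
      exact ((hn z hz).2 z' hz').trans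
        (mul_le_mul_of_nonneg_right (le_max_left _ _) (norm_nonneg _))
    refine ⟨max L 0, le_max_right _ _, h1, fun z hz z' hz' => ?_⟩
    refine le_of_tendsto ((hG z).sub (hG z')).norm ?_
    filter_upwards [h1] with n hn using hn z hz z' hz'
  have hunif : ∀ r ε : ℝ, 0 < ε →
      ∀ᶠ n in (Ul : Filter ℕ), ∀ z ∈ ball (0 : ℂ) r, ‖F n z - G z‖ < ε := by
    intro r ε hε
    obtain ⟨L, hL0, h1, h2⟩ := hlip r
    have hδ : 0 < ε / (2 * L + 2) := by positivity
    have htb : TotallyBounded (ball (0 : ℂ) r) :=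
      (isCompact_closedBall (0 : ℂ) r).totallyBounded.subset ball_subset_closedBall
    obtain ⟨t, hts, htf, hcov⟩ := Metric.finite_approx_of_totallyBounded htb _ hδ
    have h3 : ∀ᶠ n in (Ul : Filter ℕ), ∀ y ∈ t, ‖F n y - G y‖ < ε / (2 * L + 2) := by
      refine (eventually_all_finite htf).2 fun y _ => ?_
      have := (Metric.tendsto_nhds.1 (hG y)) _ hδ
      simpa [dist_eq_norm] using this
    filter_upwards [h1, h3] with n hn1 hn3 z hz
    obtain ⟨y, hy, hzy⟩ := mem_iUnion₂.1 (hcov hz)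
    have k0 : ‖z - y‖ < ε / (2 * L + 2) := mem_ball_iff_norm.1 hzy
    have k1 := hn1 z hz y (hts hy)
    have k2 := h2 y (hts hy) z hz
    have k3 := hn3 y hy
    rw [norm_sub_rev y z] at k2
    have k4 : L * ‖z - y‖ ≤ L * (ε / (2 * L + 2)) := mul_le_mul_of_nonneg_left k0.le hL0
    have k5 : F n z - G z = (F n z - F n y) + (F n y - G y) + (G y - G z) := by abel
    have k6 := norm_add₃_le (a := F n z - F n y) (b := F n y - G y) (c := G y - G z)
    have k7 : (2 * L + 2) * (ε / (2 * L + 2)) = ε := by field_simp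
    rw [k5]
    nlinarith
  have hfr : ∀ k : ℕ, ∃ᶠ n in atTop, ∀ z ∈ ball (0 : ℂ) k, ‖F n z - G z‖ < 1 / ((k : ℝ) + 1) :=
    fun k => ((hunif k _ Nat.one_div_pos_of_nat).frequently).filter_mono hle
  obtain ⟨ψ, hψ, hP⟩ := extraction_forall_of_frequently hfr
  refine ⟨ψ, G, hψ, ?_, fun r => ?_⟩
  · rw [continuous_iff_continuousAt]
    intro z
    obtain ⟨L, -, -, h2⟩ := hlip (‖z‖ + 1)
    have hz : z ∈ ball (0 : ℂ) (‖z‖ + 1) := by simp
    rw [ContinuousAt, tendsto_iff_norm_sub_tendsto_zero]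
    have h0 : Tendsto (fun x : ℂ => L * ‖x - z‖) (𝓝 z) (𝓝 0) := by
      have h1 : Continuous fun x : ℂ => L * ‖x - z‖ := by fun_prop
      simpa using h1.tendsto z
    refine squeeze_zero' (Eventually.of_forall fun _ => norm_nonneg _) ?_ h0
    filter_upwards [isOpen_ball.mem_nhds hz] with x hx using h2 x hx z hz
  · rw [Metric.tendstoUniformlyOn_iff]
    intro ε hε
    have e1 : ∀ᶠ k : ℕ in atTop, 1 / ((k : ℝ) + 1) < ε :=
      tendsto_one_div_add_atTop_nhds_zero_nat.eventually (gt_mem_nhds hε)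
    have e2 : ∀ᶠ k : ℕ in atTop, r ≤ (k : ℝ) :=
      tendsto_natCast_atTop_atTop.eventually_ge_atTop r
    filter_upwards [e1, e2] with k h1 h2 z hz
    rw [dist_comm, dist_eq_norm]
    exact (hP k z (ball_subset_ball h2 hz)).trans h1

end Pool.Agent.MP_2fc7fa_gt.N
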