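import Pool.Agent.MP_2fc7fa_gt.N.IfK

/-! Assembly of the compactness theorem from the K statements. -/

open scoped ContDiff ComplexConjugate Topology
open Set Complex Filter Metric MeasureTheory

noncomputable section

namespace Pool.Agent.MP_2fc7fa_gt.N

theorem grad_KMain (hE : EnLineStmt) (hL : LineStmt) (hD : DensStmt) (hB : BubbleStmt)
    (hN : NormStmt) (hI : InvStmt) (hO : OuterStmt)
    (P : Type) [TopologicalSpace P] (φ : P → Fr) (om : P → Symp 1) (p : ℕ → P) (p₀ : P)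
    (U : ℕ → W → V) (hφ : FrFam φ) (hom : Continuous om) (hT : ∀ a, Tame (φ a).J (om a))
    (hp : Tendsto p atTop (𝓝 p₀)) (hU : ∀ n, IsLine (φ (p n)).J (U n)) :
    ∃ (ψ : ℕ → ℕ) (g : ℕ → W ≃L[ℂ] W) (M : ℝ), StrictMono ψ ∧ ∀ n,
      ‖U (ψ n) (g n (1, 1))‖ = 1 ∧ ∀ z, dens (om (p (ψ n))) (c0 (U (ψ n) ∘ g n)) z ≤ M ∧
        dens (om (p (ψ n))) (c1 (U (ψ n) ∘ g n)) z ≤ M := by
  choose g hg1 hg0 hgn using fun n => hN (φ (p n)) (om (p n)) (U n) (hT _) (hU n)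
  have hU' : ∀ n, IsLine (φ (p n)).J (U n ∘ g n) := fun n =>
    (hL (φ (p n)) (om (p n)) (U n) (hU n)).1 (g n)
  have hG : Grow φ om p (fun n => c0 (U n ∘ g n)) (fun n => (n : ℝ)) (2 * Real.pi) := by
    refine ⟨tendsto_natCast_atTop_atTop, Eventually.of_forall fun n => ?_⟩
    obtain ⟨-, ⟨h1, h2, h3⟩, -⟩ := hL (φ (p n)) (om (p n)) _ (hU' n)
    obtain ⟨hi, he⟩ := hE (φ (p n)) (om (p n)) _ (hU' n)
    refine ⟨h1.contDiffOn, fun z _ => ⟨h2 z, hg1 n z⟩, fun z _ => h3 z trivial, hg0 n, ?_⟩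
    rw [← he]
    exact setIntegral_le_integral hi (Eventually.of_forall fun z =>
      hD.1 (φ (p n)) (om (p n)) _ z (hT _) (h2 z) fun t _ => h3 t trivial)
  obtain ⟨r, hr, hfr⟩ := hB P φ om p p₀ _ _ _ hφ hom hT hp hG Real.pi Real.pi_pos
  obtain ⟨ψ₁, hψ₁, h₁⟩ := extraction_of_frequently_atTop hfr
  obtain ⟨M, hM⟩ := hO P φ om (fun n => p (ψ₁ n)) p₀ (fun n => U (ψ₁ n) ∘ g (ψ₁ n)) r⁻¹ hφ hom hT
    (hp.comp hψ₁.tendsto_atTop) (inv_pos.2 hr) (fun n => hU' _) (fun n z => hg1 _ z) fun n => by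
      have h := (hI (φ (p (ψ₁ n))) (om (p (ψ₁ n))) _ r (hT _) (hU' (ψ₁ n)) hr).2.2
      have h' := h₁ n
      linarith
  obtain ⟨ψ₂, hψ₂, h₂⟩ := extraction_of_frequently_atTop hM
  exact ⟨fun n => ψ₁ (ψ₂ n), fun n => g (ψ₁ (ψ₂ n)), max M 1, hψ₁.comp hψ₂, fun n =>
    ⟨hgn _, fun z => ⟨(hg1 _ z).trans (le_max_right _ _), (h₂ n z).trans (le_max_left _ _)⟩⟩⟩

theorem LConv.sub_KMain {w : ℕ → ℂ → V} {u : ℂ → V} (h : LConv w u) {ψ : ℕ → ℕ}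
    (hψ : StrictMono ψ) : LConv (fun n => w (ψ n)) u := fun r =>
  ⟨fun s hs => hψ.tendsto_atTop.eventually ((h r).1 s hs),
    fun s hs => hψ.tendsto_atTop.eventually ((h r).2 s hs)⟩

theorem LConv.at_KMain {w : ℕ → ℂ → V} {u : ℂ → V} (h : LConv w u) (z : ℂ) :
    Tendsto (fun n => w n z) atTop (𝓝 (u z)) :=
  (h (‖z‖ + 1)).1.tendsto_at (by simp)

theorem kMain (hE : EnLineStmt) (hL : LineStmt) (hD : DensStmt) (hB : BubbleStmt)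
    (hN : NormStmt) (hI : InvStmt) (hO : OuterStmt) (hA : AlphaStmt) (hM : AMPStmt)
    (hLim : LimitStmt) (hGA : GlueAStmt) (hGB : GlueBStmt) : CompactStmt := by
  intro P _ φ om p p₀ U hφ hom hT hp hU
  obtain ⟨ψ, g, M, hψ, hg⟩ := grad_KMain hE hL hD hB hN hI hO P φ om p p₀ U hφ hom hT hp hU
  obtain ⟨C, hC, hev⟩ := hA P φ om p₀ hφ hom hT
  obtain ⟨C', hC', hM⟩ := hM
  have hp' : Tendsto (fun n => p (ψ n)) atTop (𝓝 p₀) := hp.comp hψ.tendsto_atTop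
  have hU' : ∀ n, IsLine (φ (p (ψ n))).J (U (ψ n) ∘ g n) := fun n =>
    (hL (φ (p (ψ n))) (om (p (ψ n))) _ (hU _)).1 (g n)
  set K := C * (1 + |C' * (1 + C * M)| + |M|) with hK
  have hK0 : 0 ≤ K := by positivity
  have key : ∀ᶠ n in atTop,
      (∀ z, ‖fderiv ℝ (c0 (U (ψ n) ∘ g n)) z‖ ≤ K * ‖c0 (U (ψ n) ∘ g n) z‖) ∧
      ∀ z, ‖fderiv ℝ (c1 (U (ψ n) ∘ g n)) z‖ ≤ K * ‖c1 (U (ψ n) ∘ g n) z‖ := by
    filter_upwards [hp'.eventually hev] with n hn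
    obtain ⟨-, ⟨a1, a2, a3⟩, ⟨b1, b2, b3⟩, hrel⟩ := hL (φ (p (ψ n))) (om (p (ψ n))) _ (hU' n)
    obtain ⟨a4, a5⟩ := hn _ univ isOpen_univ a1.contDiffOn (fun z _ => a2 z) a3
    obtain ⟨b4, b5⟩ := hn _ univ isOpen_univ b1.contDiffOn (fun z _ => b2 z) b3
    have hb := hM _ _ (C * M) (contDiffOn_univ.1 a4) (contDiffOn_univ.1 b4)
      (fun z => ⟨(a5 z trivial).1.trans (mul_le_mul_of_nonneg_left ((hg n).2 z).1 hC.le),
        (b5 z trivial).1.trans (mul_le_mul_of_nonneg_left ((hg n).2 z).2 hC.le)⟩)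
      fun z hz => (hrel z hz).1
    refine ⟨fun z => (a5 z trivial).2.trans ?_, fun z => (b5 z trivial).2.trans ?_⟩
    · refine mul_le_mul_of_nonneg_right (mul_le_mul_of_nonneg_left ?_ hC.le) (norm_nonneg _)
      have := (hb z).1.trans (le_abs_self _)
      have := ((hg n).2 z).1.trans (le_abs_self _)
      linarith
    · refine mul_le_mul_of_nonneg_right (mul_le_mul_of_nonneg_left ?_ hC.le) (norm_nonneg _)
      have := (hb z).2.trans (le_abs_self _)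
      have := ((hg n).2 z).2.trans (le_abs_self _)
      linarith
  obtain ⟨ψ₁, u, hψ₁, u1, u2, u3, u4⟩ := hLim P φ (fun n => p (ψ n)) p₀
    (fun n => c0 (U (ψ n) ∘ g n)) 1 K hφ hp' hK0 (Eventually.of_forall fun n => (hg n).1)
    fun r => key.mono fun n hn => by
      obtain ⟨-, ⟨a1, -, a3⟩, -⟩ := hL (φ (p (ψ n))) (om (p (ψ n))) _ (hU' n)
      exact ⟨a1.contDiffOn, fun z _ => a3 z trivial, fun z _ => hn.1 z⟩
  obtain ⟨ψ₂, v, hψ₂, v1, v2, v3, v4⟩ := hLim P φ (fun n => p (ψ (ψ₁ n))) p₀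
    (fun n => c1 (U (ψ (ψ₁ n)) ∘ g (ψ₁ n))) 1 K hφ (hp'.comp hψ₁.tendsto_atTop) hK0
    (Eventually.of_forall fun n => (hg (ψ₁ n)).1)
    fun r => (hψ₁.tendsto_atTop.eventually key).mono fun n hn => by
      obtain ⟨-, -, ⟨b1, -, b3⟩, -⟩ := hL (φ (p (ψ (ψ₁ n)))) (om (p (ψ (ψ₁ n)))) _ (hU' (ψ₁ n))
      exact ⟨b1.contDiffOn, fun z _ => b3 z trivial, fun z _ => hn.2 z⟩
  have u5 := u4.sub_KMain hψ₂
  have hrel : ∀ z : ℂ, z ≠ 0 → u z = z • v z⁻¹ := fun z hz => by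
    refine tendsto_nhds_unique (u5.at_KMain z) (((v4.at_KMain z⁻¹).const_smul z).congr fun n => ?_)
    rw [c1, ← (hU' _).hom, c0]
    simp [hz]
  obtain ⟨U', hl, e0, e1⟩ := hGA (φ p₀) u v u1 v1 u2 v2 u3 v3 hrel
  refine ⟨fun n => ψ (ψ₁ (ψ₂ n)), fun n => g (ψ₁ (ψ₂ n)), U', hψ.comp (hψ₁.comp hψ₂), hl, ?_⟩
  exact hGB _ U' (fun n => ⟨(hU' _).c1, (hU' _).hom⟩) hl.c1 hl.hom (e0 ▸ u5) (e1 ▸ v4)

end Pool.Agent.MP_2fc7fa_gt.N
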