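import Pool.Agent.MP_2fc7fa_gt.N.IfB

/-! Persistence of intersections: the local inverse and the degree argument. -/

open scoped ContDiff Topology
open Set Complex Filter Metric

noncomputable section

namespace Pool.Agent.MP_2fc7fa_gt.N

theorem inv_Persist {Ψ : W → W} {a : W} (h1 : ContDiffAt ℝ 1 Ψ a)
    (h2 : Function.Injective (fderiv ℝ Ψ a)) :
    ∃ G : W → W, ContDiffAt ℝ 1 G (Ψ a) ∧ G (Ψ a) = a ∧ (∀ᶠ y in 𝓝 (Ψ a), Ψ (G y) = y) ∧
      ∀ᶠ x in 𝓝 a, G (Ψ x) = x := by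
  let L : W ≃L[ℝ] W :=
    (LinearEquiv.ofInjectiveEndo (fderiv ℝ Ψ a).toLinearMap h2).toContinuousLinearEquiv
  have hL : (L : W →L[ℝ] W) = fderiv ℝ Ψ a := ContinuousLinearMap.ext fun _ => rfl
  have hd : HasFDerivAt Ψ (L : W →L[ℝ] W) a := by
    rw [hL]
    exact (h1.differentiableAt one_ne_zero).hasFDerivAt
  refine ⟨h1.localInverse hd one_ne_zero, h1.to_localInverse hd one_ne_zero,
    h1.localInverse_apply_image hd one_ne_zero, ?_, ?_⟩
  · exact (h1.hasStrictFDerivAt' hd one_ne_zero).eventually_right_inverse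
  · exact (h1.hasStrictFDerivAt' hd one_ne_zero).eventually_left_inverse

theorem fin_Persist (t₀ b : ℂ) (k : ℕ) (hk : k ≠ 0) : {t : ℂ | (t - t₀) ^ k = b}.Finite := by
  have h : {s : ℂ | s ^ k = b}.Finite := by
    refine (Polynomial.nthRoots k b).toFinset.finite_toSet.subset fun s hs => ?_
    simpa [Polynomial.mem_nthRoots (Nat.pos_of_ne_zero hk)] using hs
  exact h.preimage (f := fun t => t - t₀) (sub_left_injective.injOn)

theorem deg_Persist (hD : DegStmt) (G : W → ℂ) (t₀ a : ℂ) (d : ℝ) (k : ℕ) (hd : 0 < d)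
    (hk : k ≠ 0) (ha : a ≠ 0) (hG : ContinuousOn G (closedBall (0, t₀) d))
    (hδ : ∀ t, ‖t - t₀‖ = d → ‖G (0, t) - a * (t - t₀) ^ k‖ < ‖a‖ * d ^ k / 2) :
    ∃ m : ℝ, 0 < m ∧ ∀ F : W → W, ContinuousOn F (closedBall (0, t₀) d) →
      (∀ x ∈ closedBall ((0 : ℂ), t₀) d, ‖F x - (x.1, G x)‖ < m) →
      ∃ x ∈ closedBall ((0 : ℂ), t₀) d, F x = 0 := by
  set K : Set W := closedBall (0, t₀) d with hK
  let ρ : ℂ := ((d / 2 : ℝ) : ℂ)
  let Q : W → ℂ := fun x => a * ((x.2 - t₀) ^ k - ρ ^ k)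
  have hQ : Continuous Q := by fun_prop
  let H₀ : ℝ × W → W := fun p => (p.2.1, (1 - p.1) • G p.2 + p.1 • Q p.2)
  have hapos : 0 < ‖a‖ := norm_pos_iff.2 ha
  have hρ : ‖ρ‖ = d / 2 := by
    simp only [ρ, Complex.norm_real, Real.norm_eq_abs]
    exact abs_of_pos (by positivity)
  have hρk : ‖ρ ^ k‖ ≤ d ^ k / 2 := by
    rw [norm_pow, hρ, div_pow]
    have h2 : (2 : ℝ) ≤ 2 ^ k := by
      calc (2 : ℝ) = 2 ^ 1 := by norm_num
        _ ≤ 2 ^ k := pow_le_pow_right₀ (by norm_num) (Nat.one_le_iff_ne_zero.2 hk)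
    exact div_le_div_of_nonneg_left (by positivity) (by norm_num) h2
  have hfr : frontier K = sphere (0, t₀) d := frontier_closedBall _ hd.ne'
  have hH₀c : ContinuousOn H₀ (Icc 0 1 ×ˢ K) := by
    have h1 : ContinuousOn (fun p : ℝ × W => G p.2) (Icc 0 1 ×ˢ K) :=
      hG.comp continuous_snd.continuousOn fun p hp => hp.2
    refine ContinuousOn.prodMk (by fun_prop) (ContinuousOn.add ?_ ?_)
    · exact ContinuousOn.smul (f := fun p : ℝ × W => 1 - p.1) (by fun_prop) h1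
    · exact Continuous.continuousOn (by fun_prop)
  have hH₀n : ∀ p ∈ Icc (0 : ℝ) 1 ×ˢ sphere ((0 : ℂ), t₀) d, H₀ p ≠ 0 := by
    rintro ⟨s, y, t⟩ ⟨hs, hx⟩ h0
    have h1 : y = 0 := congrArg Prod.fst h0
    subst h1
    have h2 : (1 - s) • G (0, t) + s • Q (0, t) = 0 := congrArg Prod.snd h0
    have ht : ‖t - t₀‖ = d := by
      have := mem_sphere_iff_norm.1 hx
      simpa [Prod.norm_def] using this
    have h3 := hδ t ht
    have h4 : a * (t - t₀) ^ k =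
        -((1 - s) • (G (0, t) - a * (t - t₀) ^ k)) + s • (a * ρ ^ k) := by
      simp only [Q, real_smul] at h2 ⊢
      push_cast at h2 ⊢
      linear_combination h2
    have h5 : ‖a * (t - t₀) ^ k‖ = ‖a‖ * d ^ k := by rw [norm_mul, norm_pow, ht]
    have h6 : ‖a * ρ ^ k‖ ≤ ‖a‖ * d ^ k / 2 := by
      rw [norm_mul, mul_div_assoc]
      exact mul_le_mul_of_nonneg_left hρk hapos.le
    have h7 : ‖a * (t - t₀) ^ k‖ ≤
        (1 - s) * ‖G (0, t) - a * (t - t₀) ^ k‖ + s * ‖a * ρ ^ k‖ := by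
      calc ‖a * (t - t₀) ^ k‖ =
            ‖-((1 - s) • (G (0, t) - a * (t - t₀) ^ k)) + s • (a * ρ ^ k)‖ := congrArg _ h4
        _ ≤ ‖-((1 - s) • (G (0, t) - a * (t - t₀) ^ k))‖ + ‖s • (a * ρ ^ k)‖ := norm_add_le _ _
        _ = _ := by
          rw [norm_neg, norm_smul, norm_smul, Real.norm_of_nonneg (sub_nonneg.2 hs.2),
            Real.norm_of_nonneg hs.1]
    have hp : 0 < ‖a‖ * d ^ k := by positivity
    have hs0 : 0 ≤ s := hs.1
    have hs1 : s ≤ 1 := hs.2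
    nlinarith [mul_le_mul_of_nonneg_left h3.le (sub_nonneg.2 hs1),
      mul_le_mul_of_nonneg_left h6 hs0]
  have hcomp : IsCompact (Icc (0 : ℝ) 1 ×ˢ sphere ((0 : ℂ), t₀) d) :=
    isCompact_Icc.prod (isCompact_sphere _ _)
  obtain ⟨m, hm, hmin⟩ : ∃ m : ℝ, 0 < m ∧
      ∀ p ∈ Icc (0 : ℝ) 1 ×ˢ sphere ((0 : ℂ), t₀) d, m ≤ ‖H₀ p‖ :=
    hcomp.exists_forall_le' (a := 0)
      ((hH₀c.mono (prod_mono_right sphere_subset_closedBall)).norm)
      fun p hp => norm_pos_iff.2 (hH₀n p hp)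
  refine ⟨m, hm, fun F hF hFm => ?_⟩
  let H : ℝ → W → W := fun s x => H₀ (s, x) + (1 - s) • (F x - (x.1, G x))
  have hH1 : H 1 = fun x => (x.1, Q x) := by
    funext x
    simp [H, H₀]
  have hH0 : ∀ x, H 0 x = F x := by
    intro x
    simp [H, H₀]
  have key := hD W K H (isCompact_closedBall _ _) ?_ ?_ ?_ ?_ ?_
  · obtain ⟨x, hx, h0⟩ := key
    exact ⟨x, hx, by rw [← hH0, h0]⟩
  · have h1 : ContinuousOn (fun p : ℝ × W => G p.2) (Icc 0 1 ×ˢ K) :=
      hG.comp continuous_snd.continuousOn fun p hp => hp.2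
    have h2 : ContinuousOn (fun p : ℝ × W => F p.2) (Icc 0 1 ×ˢ K) :=
      hF.comp continuous_snd.continuousOn fun p hp => hp.2
    refine hH₀c.add (ContinuousOn.smul (f := fun p : ℝ × W => 1 - p.1) (by fun_prop)
      (h2.sub ?_))
    exact ContinuousOn.prodMk (by fun_prop) h1
  · intro s hs x hx h0
    rw [hfr] at hx
    have h1 := hmin (s, x) ⟨hs, hx⟩
    have h2 := hFm x (sphere_subset_closedBall hx)
    have h3 : H₀ (s, x) = -((1 - s) • (F x - (x.1, G x))) := eq_neg_of_add_eq_zero_left h0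
    rw [h3, norm_neg, norm_smul, Real.norm_of_nonneg (sub_nonneg.2 hs.2)] at h1
    nlinarith [hs.1, hs.2, norm_nonneg (F x - (x.1, G x))]
  · refine ((fin_Persist t₀ (ρ ^ k) k hk).image fun t => ((0 : ℂ), t)).subset ?_
    rintro ⟨y, t⟩ ⟨-, h0⟩
    rw [hH1] at h0
    have h1 : y = 0 := congrArg Prod.fst h0
    have h2 : a * ((t - t₀) ^ k - ρ ^ k) = 0 := congrArg Prod.snd h0
    exact ⟨t, sub_eq_zero.1 ((mul_eq_zero.1 h2).resolve_left ha), by rw [h1]⟩
  · refine ⟨(0, t₀ + ρ), ?_, ?_⟩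
    · rw [hK, mem_closedBall_iff_norm]
      simp only [Prod.mk_sub_mk, sub_self, add_sub_cancel_left, Prod.norm_def, norm_zero, hρ]
      exact max_le hd.le (by linarith)
    · rw [hH1]
      simp [Q]
  · rintro ⟨y, t⟩ - h0
    rw [hH1] at h0 ⊢
    have h2 : a * ((t - t₀) ^ k - ρ ^ k) = 0 := congrArg Prod.snd h0
    have h3 : (t - t₀) ^ k = ρ ^ k := sub_eq_zero.1 ((mul_eq_zero.1 h2).resolve_left ha)
    have hρ0 : ρ ≠ 0 := by
      rw [← norm_pos_iff, hρ]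
      positivity
    have ht : t - t₀ ≠ 0 := by
      intro h
      rw [h, zero_pow hk] at h3
      exact pow_ne_zero k hρ0 h3.symm
    have hc : a * (k * (t - t₀) ^ (k - 1)) ≠ 0 :=
      mul_ne_zero ha (mul_ne_zero (Nat.cast_ne_zero.2 hk) (pow_ne_zero _ ht))
    refine ⟨(ContinuousLinearEquiv.refl ℂ ℂ).prodCongr
      (ContinuousLinearEquiv.unitsEquivAut ℂ (Units.mk0 _ hc)), ?_⟩
    apply HasFDerivAt.restrictScalars
    have h4 : HasDerivAt (fun s : ℂ => a * ((s - t₀) ^ k - ρ ^ k))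
        (a * (k * (t - t₀) ^ (k - 1))) t := by
      have := ((((hasDerivAt_id t).sub_const t₀).fun_pow k).sub_const (ρ ^ k)).const_mul a
      simpa using this
    have h5 := (hasFDerivAt_fst (𝕜 := ℂ) (p := (y, t))).prodMk
      (h4.hasFDerivAt.comp (y, t) (hasFDerivAt_snd (𝕜 := ℂ) (p := (y, t))))
    refine h5.congr_fderiv ?_
    ext <;> simp

end Pool.Agent.MP_2fc7fa_gt.N
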