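import Pool.Agent.MP_2fc7fa_gt.N.IfB

/-! Schauder estimate, part A: convolution with one smooth compactly supported kernel. -/

open scoped ContDiff ComplexConjugate Topology Convolution
open Set Complex Filter Metric MeasureTheory

noncomputable section

namespace Pool.Agent.MP_2fc7fa_gt.N

theorem ball_bound_T3 {G : Type} [NormedAddCommGroup G] [NormedSpace ℝ G] (F : ℂ → G) (z : ℂ)
    (r B : ℝ) (hr : 0 ≤ r) (h0 : ∀ ζ, r < ‖ζ - z‖ → F ζ = 0)
    (hB : ∀ ζ, ‖ζ - z‖ ≤ r → ‖F ζ‖ ≤ B) : ‖∫ ζ, F ζ‖ ≤ B * (Real.pi * r ^ 2) := by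
  have e : ∫ ζ in closedBall z r, F ζ = ∫ ζ, F ζ := by
    apply setIntegral_eq_integral_of_forall_compl_eq_zero
    intro ζ hζ
    apply h0
    simpa [mem_closedBall, dist_eq_norm] using hζ
  rw [← e]
  have hv : (volume : Measure ℂ).real (closedBall z r) = Real.pi * r ^ 2 := by
    rw [Measure.real, Complex.volume_closedBall]
    simp [ENNReal.toReal_ofReal hr, mul_comm]
  rw [← hv]
  apply norm_setIntegral_le_of_norm_le_const (measure_closedBall_lt_top)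
  intro ζ hζ
  apply hB
  simpa [mem_closedBall, dist_eq_norm] using hζ

theorem supp_T3 {F : Type} [NormedAddCommGroup F] {g : ℂ → F} {r : ℝ}
    (h0 : ∀ w, r < ‖w‖ → g w = 0) : HasCompactSupport g := by
  apply HasCompactSupport.intro (isCompact_closedBall (0 : ℂ) r)
  intro w hw
  apply h0
  simpa using hw

theorem hol_cont_T3 {E : Type} [NormedAddCommGroup E] {K : ℝ} {h : ℂ → E} (hh : Hol K h univ) :
    Continuous h := by
  rw [continuous_iff_continuousAt]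
  intro z
  rw [ContinuousAt, tendsto_iff_norm_sub_tendsto_zero]
  have hc : Continuous fun w : ℂ => K * √‖w - z‖ := by fun_prop
  have ht : Tendsto (fun w : ℂ => K * √‖w - z‖) (𝓝 z) (𝓝 0) := by
    simpa using hc.tendsto z
  exact squeeze_zero (fun _ => norm_nonneg _) (fun w => hh w (mem_univ _) z (mem_univ _)) ht

section
variable {E F G : Type} [NormedAddCommGroup E] [NormedSpace ℝ E] [NormedAddCommGroup F]
  [NormedSpace ℝ F] [NormedAddCommGroup G] [NormedSpace ℝ G]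

theorem integrable_T3 (L : E →L[ℝ] F →L[ℝ] G) {h : ℂ → E} {g : ℂ → F} (hh : Continuous h)
    (hg : Continuous g) {r : ℝ} (h0 : ∀ w, r < ‖w‖ → g w = 0) (z : ℂ) :
    Integrable (fun ζ => L (h ζ) (g (z - ζ))) :=
  (supp_T3 h0).convolutionExists_right L hh.locallyIntegrable hg z

theorem cancel_T3 [CompleteSpace F] [CompleteSpace G] (L : E →L[ℝ] F →L[ℝ] G)
    (hL : ∀ a b, ‖L a b‖ ≤ ‖a‖ * ‖b‖) {h : ℂ → E} {g : ℂ → F} {K B r : ℝ} (hK : 0 ≤ K) (hh : Hol K h univ)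
    (hg : Continuous g) (hr : 0 ≤ r) (h0 : ∀ w, r < ‖w‖ → g w = 0) (hB : ∀ w, ‖g w‖ ≤ B)
    (hi : ∫ w, g w = 0) (z : ℂ) :
    ‖∫ ζ, L (h ζ) (g (z - ζ))‖ ≤ K * √r * B * (Real.pi * r ^ 2) := by
  have hc := hol_cont_T3 hh
  have i1 := integrable_T3 L hc hg h0 z
  have i2 := integrable_T3 L (h := fun _ => h z) continuous_const hg h0 z
  have i3 : Integrable (fun ζ => g (z - ζ)) :=
    (hg.integrable_of_hasCompactSupport (supp_T3 h0)).comp_sub_left z
  have e2 : ∫ ζ, L (h z) (g (z - ζ)) = 0 := by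
    rw [ContinuousLinearMap.integral_comp_comm _ i3, integral_sub_left_eq_self g volume z, hi,
      map_zero]
  have e : ∫ ζ, L (h ζ) (g (z - ζ)) = ∫ ζ, L (h ζ - h z) (g (z - ζ)) := by
    rw [← sub_zero (∫ ζ, L (h ζ) (g (z - ζ))), ← e2, ← integral_sub i1 i2]
    simp
  rw [e]
  apply ball_bound_T3 _ z r _ hr
  · intro ζ hζ
    rw [h0 (z - ζ) (by rwa [norm_sub_rev]), map_zero]
  · intro ζ hζ
    have h1 : ‖h ζ - h z‖ ≤ K * √r :=
      (hh ζ (mem_univ _) z (mem_univ _)).trans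
        (mul_le_mul_of_nonneg_left (Real.sqrt_le_sqrt hζ) hK)
    exact (hL _ _).trans (mul_le_mul h1 (hB _) (norm_nonneg _) (by positivity))

end

theorem integral_fderiv_T3 {g : ℂ → ℂ} (hg : ContDiff ℝ 1 g) (hs : HasCompactSupport g) :
    ∫ w, fderiv ℝ g w = 0 := by
  have h1 := hs.hasFDerivAt_convolution_right (μ := volume)
    (ContinuousLinearMap.lsmul ℝ ℝ : ℝ →L[ℝ] ℂ →L[ℝ] ℂ) (f := fun _ => (1 : ℝ))
    (continuous_const.locallyIntegrable) hg 0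
  have e : ((fun _ : ℂ => (1 : ℝ)) ⋆[(ContinuousLinearMap.lsmul ℝ ℝ : ℝ →L[ℝ] ℂ →L[ℝ] ℂ), volume] g)
      = fun _ => ∫ w, g w := by
    funext x
    rw [convolution_def]
    simp only [ContinuousLinearMap.lsmul_apply, one_smul]
    exact integral_sub_left_eq_self g volume x
  rw [e] at h1
  have h2 := h1.unique (hasFDerivAt_const _ _)
  rw [convolution_def] at h2
  rw [← integral_sub_left_eq_self (fderiv ℝ g) volume 0, ← h2]
  congr 1
  funext t
  ext <;> simp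

theorem ker_T3 {E : Type} [NormedAddCommGroup E] [NormedSpace ℂ E] [CompleteSpace E]
    {g : ℂ → ℂ} (hg : ContDiff ℝ 1 g) {ρ B0 B1 B2 : ℝ} (hρ : 0 < ρ)
    (hs : ∀ w, ρ ^ 2 < ‖w‖ → g w = 0) (h0 : ∀ w, ‖g w‖ ≤ B0) (h1 : ∀ w, ‖fderiv ℝ g w‖ ≤ B1)
    (hB2 : 0 ≤ B2) (h2 : ∀ w w', ‖fderiv ℝ g w - fderiv ℝ g w'‖ ≤ B2 * ‖w - w'‖)
    {h : ℂ → E} {c : ℂ} {R M K : ℝ} (hR : 0 < R) (hb : Bdd h c R M) (hK : 0 ≤ K)
    (hh : Hol K h univ) :
    ∃ D : ℂ → ℂ →L[ℝ] E, (∀ z, HasFDerivAt (fun z => ∫ ζ, g (z - ζ) • h ζ) (D z) z) ∧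
      (∀ z, Integrable (fun ζ => g (z - ζ) • h ζ)) ∧
      (∀ z, ∫ ζ, ‖g (z - ζ) • h ζ‖ ≤ B0 * M * (Real.pi * ρ ^ 4)) ∧
      (∀ z, ∫ ζ, ‖g (z - ζ) • h ζ‖ ≤ B0 * M * (Real.pi * R ^ 2)) ∧
      (∀ z, ‖D z‖ ≤ B1 * K * (Real.pi * ρ ^ 5)) ∧
      (∀ z, ‖D z‖ ≤ B1 * M * (Real.pi * R ^ 2)) ∧
      ∀ z z', ‖z - z'‖ ≤ ρ ^ 2 → ‖D z - D z'‖ ≤ 8 * B2 * K * (Real.pi * ρ ^ 5) * ‖z - z'‖ := by
  have hc := hol_cont_T3 hh
  have hM : 0 ≤ M := (norm_nonneg _).trans (hb.2.1 0)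
  have hB0 : 0 ≤ B0 := (norm_nonneg _).trans (h0 0)
  have hB1 : 0 ≤ B1 := (norm_nonneg _).trans (h1 0)
  let L : E →L[ℝ] ℂ →L[ℝ] E := (ContinuousLinearMap.lsmul ℝ ℂ : ℂ →L[ℝ] E →L[ℝ] E).flip
  have hL2 : ∀ a b, ‖L.precompR ℂ a b‖ ≤ ‖a‖ * ‖b‖ := by
    intro a b
    apply ContinuousLinearMap.opNorm_le_bound _ (by positivity)
    intro x
    show ‖b x • a‖ ≤ _
    rw [norm_smul]
    have := mul_le_mul_of_nonneg_right (b.le_opNorm x) (norm_nonneg a)
    linarith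
  have hs' : ∀ w, ρ ^ 2 < ‖w‖ → fderiv ℝ g w = 0 := by
    intro w hw
    have : g =ᶠ[𝓝 w] fun _ => 0 := by
      have ho : IsOpen {w : ℂ | ρ ^ 2 < ‖w‖} := isOpen_lt continuous_const continuous_norm
      filter_upwards [ho.mem_nhds hw] with x hx using hs x hx
    rw [this.fderiv_eq, fderiv_fun_const]
    rfl
  have hcd : Continuous (fderiv ℝ g) := hg.continuous_fderiv one_ne_zero
  have hi := integral_fderiv_T3 hg (supp_T3 hs)
  have hsq : √(ρ ^ 2) = ρ := Real.sqrt_sq hρ.le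
  refine ⟨fun z => ∫ ζ, L.precompR ℂ (h ζ) (fderiv ℝ g (z - ζ)), ?_, ?_, ?_, ?_, ?_, ?_, ?_⟩
  · intro z
    exact (supp_T3 hs).hasFDerivAt_convolution_right (μ := volume) L hc.locallyIntegrable hg z
  · intro z
    exact integrable_T3 L hc hg.continuous hs z
  · intro z
    refine (le_abs_self _).trans ?_
    have := ball_bound_T3 (fun ζ => ‖g (z - ζ) • h ζ‖) z (ρ ^ 2) (B0 * M) (by positivity)
      (fun ζ hζ => by rw [hs (z - ζ) (by rwa [norm_sub_rev]), zero_smul, norm_zero])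
      (fun ζ _ => by
        rw [norm_norm, norm_smul]
        exact mul_le_mul (h0 _) (hb.2.1 _) (norm_nonneg _) hB0)
    rw [Real.norm_eq_abs] at this
    refine this.trans (le_of_eq ?_)
    ring
  · intro z
    refine (le_abs_self _).trans ?_
    have := ball_bound_T3 (fun ζ => ‖g (z - ζ) • h ζ‖) c R (B0 * M) hR.le
      (fun ζ hζ => by rw [hb.2.2 ζ hζ.le, smul_zero, norm_zero])
      (fun ζ _ => by
        rw [norm_norm, norm_smul]
        exact mul_le_mul (h0 _) (hb.2.1 _) (norm_nonneg _) hB0)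
    rwa [Real.norm_eq_abs] at this
  · intro z
    have := cancel_T3 (L.precompR ℂ) hL2 hK hh hcd (by positivity) hs' h1 hi z
    rw [hsq] at this
    refine this.trans (le_of_eq ?_)
    ring
  · intro z
    apply ball_bound_T3 _ c R (B1 * M) hR.le
    · intro ζ hζ
      rw [hb.2.2 ζ hζ.le, map_zero]
      rfl
    · intro ζ _
      rw [mul_comm B1 M]
      exact (hL2 _ _).trans (mul_le_mul (hb.2.1 ζ) (h1 _) (norm_nonneg _) hM)
  · intro z z' hz
    have i1 := integrable_T3 (L.precompR ℂ) hc hcd hs' z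
    have i2 := integrable_T3 (L.precompR ℂ) hc hcd hs' z'
    have j1 : Integrable (fderiv ℝ g) := hcd.integrable_of_hasCompactSupport (supp_T3 hs')
    let G : ℂ → ℂ →L[ℝ] ℂ := fun w => fderiv ℝ g w - fderiv ℝ g (w + (z' - z))
    have hGc : Continuous G := hcd.sub (hcd.comp (continuous_id.add continuous_const))
    have hG0 : ∀ w, 2 * ρ ^ 2 < ‖w‖ → G w = 0 := by
      intro w hw
      have a1 : ρ ^ 2 < ‖w‖ := by nlinarith [sq_nonneg ρ]
      have a2 : ρ ^ 2 < ‖w + (z' - z)‖ := by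
        have := norm_sub_le (w + (z' - z)) (z' - z)
        rw [add_sub_cancel_right, norm_sub_rev z' z] at this
        linarith
      simp only [G, hs' _ a1, hs' _ a2, sub_zero]
    have hGB : ∀ w, ‖G w‖ ≤ B2 * ‖z - z'‖ := by
      intro w
      have := h2 w (w + (z' - z))
      rwa [show w - (w + (z' - z)) = z - z' by ring] at this
    have hGi : ∫ w, G w = 0 := by
      simp only [G]
      rw [integral_sub j1 (j1.comp_add_right _), integral_add_right_eq_self (fderiv ℝ g), sub_self]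
    have := cancel_T3 (L.precompR ℂ) hL2 hK hh hGc (by positivity) hG0 hGB hGi z
    have e : (∫ ζ, L.precompR ℂ (h ζ) (fderiv ℝ g (z - ζ))) -
        ∫ ζ, L.precompR ℂ (h ζ) (fderiv ℝ g (z' - ζ)) =
        ∫ ζ, L.precompR ℂ (h ζ) (G (z - ζ)) := by
      rw [← integral_sub i1 i2]
      congr 1
      funext ζ
      simp only [G, map_sub]
      rw [show z - ζ + (z' - z) = z' - ζ by ring]
    show ‖(∫ ζ, L.precompR ℂ (h ζ) (fderiv ℝ g (z - ζ))) -
        ∫ ζ, L.precompR ℂ (h ζ) (fderiv ℝ g (z' - ζ))‖ ≤ _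
    rw [e]
    refine this.trans ?_
    have s2 : √(2 * ρ ^ 2) ≤ 2 * ρ := by
      rw [Real.sqrt_le_left (by positivity)]
      nlinarith [sq_nonneg ρ]
    calc K * √(2 * ρ ^ 2) * (B2 * ‖z - z'‖) * (Real.pi * (2 * ρ ^ 2) ^ 2)
        ≤ K * (2 * ρ) * (B2 * ‖z - z'‖) * (Real.pi * (2 * ρ ^ 2) ^ 2) := by gcongr
      _ = 8 * B2 * K * (Real.pi * ρ ^ 5) * ‖z - z'‖ := by ring

end Pool.Agent.MP_2fc7fa_gt.N
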